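import Pool.Agent.H.MP_fb873c_an.S1

/-!
# Theorem B (finite hyperbolic periodic set): definitions
-/

namespace FB

open scoped Topology ContDiff Manifold

universe u

section

variable {n : ℕ}

/-- `A` has no complex eigenvalue of modulus `1`. -/
def Hyp (A : Er n →L[ℝ] Er n) : Prop :=
  ∀ l : ℂ, ((LinearMap.charpoly A.toLinearMap).map (algebraMap ℝ ℂ)).IsRoot l → ‖l‖ ≠ 1

/-- `∏ 1 / (- log |λ|)` over the roots `λ` of `P` (with multiplicity). -/
noncomputable def LogEv (P : Polynomial ℂ) : ℝ :=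
  ((P.roots.map (fun l => - Real.log ‖l‖)).prod)⁻¹

end

section

variable {n : ℕ} {M : Type u} [TopologicalSpace M] [ChartedSpace (Er n) M]

/-- All periodic points of `g` are hyperbolic fixed points of `g^N`. -/
def PerHyp (N : ℕ) (g : Dif n M) : Prop :=
  ∀ (x : M) (k : ℕ), 0 < k → (g : M → M)^[k] x = x →
    (g : M → M)^[N] x = x ∧ Hyp (dfix (n := n) ((g : M → M)^[N]) x)

/-- For all admissible choices (the characteristic polynomials over `ℂ` of the derivatives for an invariant
complex structure) the sum `∑_{g^N x = x} ∏ 1 / (- log |λ|)` is not zero. -/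
def GoodS (N : ℕ) (g : Dif n M) : Prop :=
  ∀ P : M → Polynomial ℂ,
    (∀ x, (g : M → M)^[N] x = x →
      HalfPoly (dfix (n := n) ((g : M → M)^[N]) x) (P x) ∧ P (g x) = P x) →
    (∑ᶠ x ∈ {x | (g : M → M)^[N] x = x}, LogEv (P x)) ≠ 0

end

end FB
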