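import Mathlib

/-!
# Theorem B: uniqueness of exponential sums
-/

namespace FB

open scoped Topology
open Filter

theorem B1a_summable {ι : Type} (c γ : ι → ℂ) (K M : ℝ) (hc : ∀ i, ‖c i‖ ≤ K)
    (hM : ∀ i, ‖γ i‖ ≤ M) (hγ : Summable fun i => ‖γ i‖) (m : ℕ) (hm : 0 < m) :
    Summable fun i => c i * γ i ^ m := by
  apply Summable.of_norm_bounded (g := fun i => (|K| * |M| ^ (m - 1)) * ‖γ i‖)
    (hγ.mul_left _)
  intro i
  obtain ⟨k, rfl⟩ : ∃ k, m = k + 1 := ⟨m - 1, by omega⟩
  rw [norm_mul, norm_pow, pow_succ, Nat.add_sub_cancel, mul_assoc |K|]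
  have h1 : ‖c i‖ ≤ |K| := (hc i).trans (le_abs_self K)
  have h2 : ‖γ i‖ ^ k ≤ |M| ^ k :=
    pow_le_pow_left₀ (norm_nonneg _) ((hM i).trans (le_abs_self M)) k
  exact mul_le_mul h1 (mul_le_mul_of_nonneg_right h2 (norm_nonneg _))
    (mul_nonneg (pow_nonneg (norm_nonneg _) _) (norm_nonneg _)) (abs_nonneg K)

theorem B1a_poly {ι : Type} (c γ : ι → ℂ) (K M : ℝ) (hc : ∀ i, ‖c i‖ ≤ K)
    (hM : ∀ i, ‖γ i‖ ≤ M) (hγ : Summable fun i => ‖γ i‖)
    (h : ∀ j : ℕ, 0 < j → ∑' i, c i * γ i ^ j = 0) (z : ℂ) (Q : Polynomial ℂ) (N : ℕ)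
    (hN : 0 < N) : ∑' i, c i * (γ i / z) ^ N * Q.eval (γ i) = 0 := by
  have h1 : ∀ i, c i * (γ i / z) ^ N * Q.eval (γ i)
      = ∑ l ∈ Finset.range (Q.natDegree + 1), (Q.coeff l / z ^ N) * (c i * γ i ^ (N + l)) := by
    intro i
    rw [Polynomial.eval_eq_sum_range, Finset.mul_sum]
    refine Finset.sum_congr rfl fun l _ => ?_
    rw [div_pow, pow_add]
    ring
  simp_rw [h1]
  rw [Summable.tsum_finsetSum]
  · refine Finset.sum_eq_zero fun l _ => ?_
    rw [tsum_mul_left, h (N + l) (by omega), mul_zero]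
  · intro l _
    exact (B1a_summable c γ K M hc hM hγ (N + l) (by omega)).mul_left _

/-- Let `∑ ‖γ i‖ < ∞`, `c` bounded and `∑ c_i γ_i^j = 0` for all `j ≥ 1`.  Then for every `z ≠ 0` the sum of the `c_i` with
`γ_i = z` is zero.  Proof: the set `I1` of the `i` with `‖γ i‖ ≥ ‖z‖` is finite (`Summable.tendsto_cofinite_zero`).  Let `B` be the finite set of
the values `≠ z` of `γ` on `I1`, and `Q(X) = ∏_{b ∈ B} (X - b)/(z - b)`.  Taking linear combinations of the hypothesis with
exponents `N + l`, `l ≤ card B`: `∑ c_i (γ_i/z)^N Q(γ_i) = 0` for all `N ≥ 1` (`Summable.tsum_finsetSum` or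
`tsum_add`, `tsum_mul_left`; write `Q(X) = ∑ q_l X^l`, `Polynomial.eval_eq_sum_range`).  As `N → ∞` each term tends to `c_i` if
`γ_i = z` and to `0` otherwise (`γ_i ∈ B`: `Q(γ_i) = 0`; `‖γ_i‖ < ‖z‖`: `(γ_i/z)^N → 0`), dominated by
`K ‖Q(γ_i)‖ ‖γ_i/z‖` for `‖γ_i‖ < ‖z‖` (`‖Q(γ_i)‖` is bounded since `‖γ_i‖` is bounded), and by a constant for the finitely
many `i ∈ I1` (there the term is `c_i` or `0`): `tendsto_tsum_of_dominated_convergence`. -/
theorem exp_unique {ι : Type} (c γ : ι → ℂ) (K : ℝ) (hc : ∀ i, ‖c i‖ ≤ K)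
    (hγ : Summable fun i => ‖γ i‖)
    (h : ∀ j : ℕ, 0 < j → ∑' i, c i * γ i ^ j = 0) (z : ℂ) (hz : z ≠ 0) :
    ∑' i, (Set.indicator {i | γ i = z} c i) = 0 := by
  classical
  have hz0 : 0 < ‖z‖ := norm_pos_iff.mpr hz
  -- the finite set where `γ` is large
  have hfin : {i | ‖z‖ ≤ ‖γ i‖}.Finite := by
    have h1 := (hγ.tendsto_cofinite_zero).eventually (gt_mem_nhds hz0)
    rw [Filter.eventually_cofinite] at h1
    refine h1.subset ?_
    intro i hi
    simpa using hi
  -- `γ` is bounded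
  obtain ⟨M, hM⟩ : ∃ M : ℝ, ∀ i, ‖γ i‖ ≤ M :=
    ⟨∑' i, ‖γ i‖, fun i => hγ.le_tsum i fun j _ => norm_nonneg _⟩
  set B : Finset ℂ := (hfin.toFinset.image γ).erase z with hB
  set Q : Polynomial ℂ := ∏ b ∈ B, (Polynomial.X - Polynomial.C b) * Polynomial.C (z - b)⁻¹
    with hQ
  have hQz : Q.eval z = 1 := by
    rw [hQ, Polynomial.eval_prod]
    refine Finset.prod_eq_one fun b hb => ?_
    have hbz : b ≠ z := Finset.ne_of_mem_erase hb
    simp only [Polynomial.eval_mul, Polynomial.eval_sub, Polynomial.eval_X, Polynomial.eval_C]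
    exact mul_inv_cancel₀ (sub_ne_zero.mpr (Ne.symm hbz))
  have hQb : ∀ b ∈ B, Q.eval b = 0 := by
    intro b hb
    rw [hQ, Polynomial.eval_prod]
    refine Finset.prod_eq_zero hb ?_
    simp
  -- `Q (γ i)` is bounded
  obtain ⟨P, hP⟩ : ∃ P : ℝ, ∀ i, ‖Q.eval (γ i)‖ ≤ P := by
    have hcont : Continuous fun x : ℂ => Q.eval x := Q.continuous
    obtain ⟨P, hP⟩ := (isCompact_closedBall (0 : ℂ) M).exists_bound_of_continuousOn
      hcont.continuousOn
    refine ⟨P, fun i => hP (γ i) ?_⟩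
    rw [Metric.mem_closedBall, dist_zero_right]
    exact hM i
  have hlim : Tendsto (fun N : ℕ => ∑' i, c i * (γ i / z) ^ N * Q.eval (γ i)) atTop
      (𝓝 (∑' i, (Set.indicator {i | γ i = z} c i))) := by
    apply tendsto_tsum_of_dominated_convergence
      (bound := fun i => ((|K| * |P| + |K|) / ‖z‖) * ‖γ i‖) (hγ.mul_left _)
    · intro i
      by_cases hi : γ i = z
      · have h1 : ∀ N : ℕ, c i * (γ i / z) ^ N * Q.eval (γ i) = c i := by
          intro N
          rw [hi, div_self hz, one_pow, hQz, mul_one, mul_one]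
        simp only [h1]
        rw [Set.indicator_of_mem (by exact hi)]
        exact tendsto_const_nhds
      · rw [Set.indicator_of_notMem (by exact hi)]
        by_cases hl : ‖z‖ ≤ ‖γ i‖
        · have h1 : Q.eval (γ i) = 0 := by
            apply hQb
            rw [hB]
            exact Finset.mem_erase.mpr ⟨hi, Finset.mem_image.mpr
              ⟨i, hfin.mem_toFinset.mpr hl, rfl⟩⟩
          simp only [h1, mul_zero]
          exact tendsto_const_nhds
        · have h2 : ‖γ i / z‖ < 1 := by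
            rw [norm_div, div_lt_one hz0]
            exact not_le.mp hl
          have h3 := tendsto_pow_atTop_nhds_zero_of_norm_lt_one h2
          have h4 := (h3.const_mul (c i)).mul_const (Q.eval (γ i))
          simpa using h4
    · filter_upwards [eventually_ge_atTop 1] with N hN i
      by_cases hl : ‖z‖ ≤ ‖γ i‖
      · have hge : 1 ≤ ‖γ i‖ / ‖z‖ := (one_le_div hz0).mpr hl
        have hnn : 0 ≤ |K| * |P| + |K| := by positivity
        have hmain : |K| ≤ (|K| * |P| + |K|) / ‖z‖ * ‖γ i‖ := by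
          have h5 : (|K| * |P| + |K|) / ‖z‖ * ‖γ i‖ = (|K| * |P| + |K|) * (‖γ i‖ / ‖z‖) := by
            ring
          rw [h5]
          have h6 : |K| ≤ |K| * |P| + |K| := by
            have : 0 ≤ |K| * |P| := by positivity
            linarith
          calc |K| ≤ |K| * |P| + |K| := h6
            _ = (|K| * |P| + |K|) * 1 := (mul_one _).symm
            _ ≤ _ := mul_le_mul_of_nonneg_left hge hnn
        refine le_trans ?_ hmain
        by_cases hi : γ i = z
        · rw [hi, div_self hz, one_pow, hQz, mul_one, mul_one]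
          exact (hc i).trans (le_abs_self K)
        · have h1 : Q.eval (γ i) = 0 := by
            apply hQb
            rw [hB]
            exact Finset.mem_erase.mpr ⟨hi, Finset.mem_image.mpr
              ⟨i, hfin.mem_toFinset.mpr hl, rfl⟩⟩
          rw [h1, mul_zero, norm_zero]
          exact abs_nonneg K
      · have h2 : ‖γ i / z‖ ≤ 1 := by
          rw [norm_div, div_le_one hz0]
          exact (not_le.mp hl).le
        have h3 : ‖γ i / z‖ ^ N ≤ ‖γ i / z‖ :=
          pow_le_of_le_one (norm_nonneg _) h2 (by omega)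
        rw [norm_mul, norm_mul, norm_pow]
        have h4 : ‖c i‖ * ‖γ i / z‖ ^ N * ‖Q.eval (γ i)‖ ≤ |K| * ‖γ i / z‖ * |P| :=
          mul_le_mul (mul_le_mul ((hc i).trans (le_abs_self K)) h3
            (pow_nonneg (norm_nonneg _) _) (abs_nonneg K)) ((hP i).trans (le_abs_self P))
            (norm_nonneg _) (mul_nonneg (abs_nonneg K) (norm_nonneg _))
        refine h4.trans ?_
        rw [norm_div]
        have h5 : (|K| * |P| + |K|) / ‖z‖ * ‖γ i‖
            = |K| * (‖γ i‖ / ‖z‖) * |P| + |K| * (‖γ i‖ / ‖z‖) := by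
          ring
        rw [h5]
        have h6 : 0 ≤ |K| * (‖γ i‖ / ‖z‖) := by positivity
        linarith
  have hzero : Tendsto (fun N : ℕ => ∑' i, c i * (γ i / z) ^ N * Q.eval (γ i)) atTop
      (𝓝 0) := by
    refine (tendsto_congr' ?_).mpr tendsto_const_nhds
    filter_upwards [eventually_ge_atTop 1] with N hN
    exact B1a_poly c γ K M hc hM hγ h z Q N (by omega)
  exact tendsto_nhds_unique hlim hzero

end FB
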