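import Mathlib

/-!
# Theorem B: exponential sums `A j = ∑ c γ^j`, `R t = ∑ c |γ|^t`
-/

namespace FB

open scoped Topology
open Filter

/-- `A j = ∑ c_i γ_i^j` (`j ≥ 1`) and `R t = ∑ c_i |γ_i|^t` (`t > 0`) for one family of real coefficients `|c_i| ≤ 1` and
frequencies `0 < |γ_i| ≤ 1`, everything absolutely convergent. -/
def ERep (A : ℕ → ℂ) (R : ℝ → ℝ) : Prop :=
  ∃ (ι : Type) (c : ι → ℝ) (γ : ι → ℂ), (∀ i, |c i| ≤ 1) ∧ (∀ i, γ i ≠ 0 ∧ ‖γ i‖ ≤ 1) ∧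
    (∀ t : ℝ, 0 < t → Summable fun i => ‖γ i‖ ^ t) ∧
    (∀ j : ℕ, 0 < j → A j = ∑' i, (c i : ℂ) * γ i ^ j) ∧
    ∀ t : ℝ, 0 < t → R t = ∑' i, c i * ‖γ i‖ ^ t

theorem B1b_summable_norm {ι : Type} {c : ι → ℝ} {γ : ι → ℂ} (hc : ∀ i, |c i| ≤ 1)
    (hs : ∀ t : ℝ, 0 < t → Summable fun i => ‖γ i‖ ^ t) {j : ℕ} (hj : 0 < j) :
    Summable fun i => ‖(c i : ℂ) * γ i ^ j‖ := by
  refine Summable.of_nonneg_of_le (fun i => norm_nonneg _) (fun i => ?_)
    (hs j (Nat.cast_pos.2 hj))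
  rw [norm_mul, norm_pow, Complex.norm_real, Real.norm_eq_abs, Real.rpow_natCast]
  exact mul_le_of_le_one_left (pow_nonneg (norm_nonneg _) _) (hc i)

theorem B1b_summable {ι : Type} {c : ι → ℝ} {γ : ι → ℂ} (hc : ∀ i, |c i| ≤ 1)
    (hs : ∀ t : ℝ, 0 < t → Summable fun i => ‖γ i‖ ^ t) {j : ℕ} (hj : 0 < j) :
    Summable fun i => (c i : ℂ) * γ i ^ j := (B1b_summable_norm hc hs hj).of_norm

theorem B1b_summable_norm' {ι : Type} {c : ι → ℝ} {γ : ι → ℂ} (hc : ∀ i, |c i| ≤ 1) {t : ℝ}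
    (hs : Summable fun i => ‖γ i‖ ^ t) : Summable fun i => ‖c i * ‖γ i‖ ^ t‖ := by
  refine Summable.of_nonneg_of_le (fun i => norm_nonneg _) (fun i => ?_) hs
  rw [norm_mul, Real.norm_eq_abs, Real.norm_of_nonneg (Real.rpow_nonneg (norm_nonneg _) _)]
  exact mul_le_of_le_one_left (Real.rpow_nonneg (norm_nonneg _) _) (hc i)

theorem B1b_summable' {ι : Type} {c : ι → ℝ} {γ : ι → ℂ} (hc : ∀ i, |c i| ≤ 1) {t : ℝ}
    (hs : Summable fun i => ‖γ i‖ ^ t) : Summable fun i => c i * ‖γ i‖ ^ t :=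
  (B1b_summable_norm' hc hs).of_norm

/-- Empty family. -/
theorem erep_zero : ERep (fun _ => 0) (fun _ => 0) := by
  refine ⟨Empty, fun i => i.elim, fun i => i.elim, fun i => i.elim, fun i => i.elim,
    fun t _ => summable_of_hasFiniteSupport (Set.toFinite _), fun j _ => ?_, fun t _ => ?_⟩
  · rw [tsum_empty]
  · rw [tsum_empty]

/-- One index, `c = γ = 1`. -/
theorem erep_one : ERep (fun _ => 1) (fun _ => 1) := by
  refine ⟨Unit, fun _ => 1, fun _ => 1, fun _ => by norm_num, fun _ => by norm_num,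
    fun t _ => summable_of_hasFiniteSupport (Set.toFinite _), fun j _ => ?_, fun t _ => ?_⟩
  · rw [tsum_fintype]
    simp
  · rw [tsum_fintype]
    simp

/-- Index set `ι ⊕ ι'` (`Summable.sum`... `tsum_sum_type`, `Summable.tsum_sum`). -/
theorem erep_add {A A' : ℕ → ℂ} {R R' : ℝ → ℝ} (h : ERep A R) (h' : ERep A' R') :
    ERep (fun j => A j + A' j) (fun t => R t + R' t) := by
  obtain ⟨ι, c, γ, hc, hγ, hs, hA, hR⟩ := h
  obtain ⟨ι', c', γ', hc', hγ', hs', hA', hR'⟩ := h'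
  refine ⟨ι ⊕ ι', Sum.elim c c', Sum.elim γ γ', ?_, ?_, ?_, ?_, ?_⟩
  · rintro (i | i)
    · exact hc i
    · exact hc' i
  · rintro (i | i)
    · exact hγ i
    · exact hγ' i
  · intro t ht
    exact Summable.sum _ (hs t ht) (hs' t ht)
  · intro j hj
    have h1 : HasSum (fun i => (c i : ℂ) * γ i ^ j) (A j) := by
      rw [hA j hj]
      exact (B1b_summable hc hs hj).hasSum
    have h2 : HasSum (fun i => (c' i : ℂ) * γ' i ^ j) (A' j) := by
      rw [hA' j hj]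
      exact (B1b_summable hc' hs' hj).hasSum
    exact ((HasSum.sum (f := fun i : ι ⊕ ι' => ((Sum.elim c c' i : ℝ) : ℂ) * Sum.elim γ γ' i ^ j)
      h1 h2).tsum_eq).symm
  · intro t ht
    have h1 : HasSum (fun i => c i * ‖γ i‖ ^ t) (R t) := by
      rw [hR t ht]
      exact (B1b_summable' hc (hs t ht)).hasSum
    have h2 : HasSum (fun i => c' i * ‖γ' i‖ ^ t) (R' t) := by
      rw [hR' t ht]
      exact (B1b_summable' hc' (hs' t ht)).hasSum
    exact ((HasSum.sum (f := fun i : ι ⊕ ι' => Sum.elim c c' i * ‖Sum.elim γ γ' i‖ ^ t)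
      h1 h2).tsum_eq).symm

/-- Index set `ι × ι'` (`Summable.mul_of_nonneg`, `tsum_mul_tsum_of_summable_norm`; `‖c_i γ_i^j‖ ≤ ‖γ_i‖^j`, which is
summable: `t = j`). -/
theorem erep_mul {A A' : ℕ → ℂ} {R R' : ℝ → ℝ} (h : ERep A R) (h' : ERep A' R') :
    ERep (fun j => A j * A' j) (fun t => R t * R' t) := by
  obtain ⟨ι, c, γ, hc, hγ, hs, hA, hR⟩ := h
  obtain ⟨ι', c', γ', hc', hγ', hs', hA', hR'⟩ := h'
  refine ⟨ι × ι', fun x => c x.1 * c' x.2, fun x => γ x.1 * γ' x.2, ?_, ?_, ?_, ?_, ?_⟩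
  · intro x
    rw [abs_mul]
    exact mul_le_one₀ (hc _) (abs_nonneg _) (hc' _)
  · intro x
    refine ⟨mul_ne_zero (hγ _).1 (hγ' _).1, ?_⟩
    rw [norm_mul]
    exact mul_le_one₀ (hγ _).2 (norm_nonneg _) (hγ' _).2
  · intro t ht
    have h1 := Summable.mul_of_nonneg (hs t ht) (hs' t ht)
      (fun i => Real.rpow_nonneg (norm_nonneg _) _) (fun i => Real.rpow_nonneg (norm_nonneg _) _)
    refine h1.congr fun x => ?_
    rw [norm_mul, Real.mul_rpow (norm_nonneg _) (norm_nonneg _)]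
  · intro j hj
    show A j * A' j = _
    rw [hA j hj, hA' j hj, tsum_mul_tsum_of_summable_norm (B1b_summable_norm hc hs hj)
      (B1b_summable_norm hc' hs' hj)]
    refine tsum_congr fun x => ?_
    push_cast
    ring
  · intro t ht
    show R t * R' t = _
    rw [hR t ht, hR' t ht, tsum_mul_tsum_of_summable_norm (B1b_summable_norm' hc (hs t ht))
      (B1b_summable_norm' hc' (hs' t ht))]
    refine tsum_congr fun x => ?_
    rw [norm_mul, Real.mul_rpow (norm_nonneg _) (norm_nonneg _)]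
    ring

/-- `|a| < 1`: `(1 - a^j)⁻¹ = ∑_k (a^k)^j` (`ι = ℕ`, `γ_k = a^k`, `c = 1`, geometric series).
`|a| > 1`: `(1 - a^j)⁻¹ = - ∑_k ((a⁻¹)^(k+1))^j`. -/
theorem erep_factor {a : ℂ} (ha : a ≠ 0) (ha1 : ‖a‖ ≠ 1) :
    ERep (fun j => (1 - a ^ j)⁻¹) (fun t => (1 - ‖a‖ ^ t)⁻¹) := by
  rcases lt_or_gt_of_ne ha1 with h | h
  · refine ⟨ℕ, fun _ => 1, fun k => a ^ k, fun _ => by norm_num, fun k => ⟨pow_ne_zero _ ha, ?_⟩,
      fun t ht => ?_, fun j hj => ?_, fun t ht => ?_⟩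
    · rw [norm_pow]
      exact pow_le_one₀ (norm_nonneg _) h.le
    · refine (summable_geometric_of_lt_one (Real.rpow_nonneg (norm_nonneg a) t)
        (Real.rpow_lt_one (norm_nonneg _) h ht)).congr fun k => ?_
      rw [norm_pow, ← Real.rpow_natCast, ← Real.rpow_mul (norm_nonneg _), ← Real.rpow_natCast,
        ← Real.rpow_mul (norm_nonneg _), mul_comm]
    · have h1 : ‖a ^ j‖ < 1 := by
        rw [norm_pow]
        exact pow_lt_one₀ (norm_nonneg _) h hj.ne'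
      show (1 - a ^ j)⁻¹ = ∑' k : ℕ, ((1 : ℝ) : ℂ) * (a ^ k) ^ j
      rw [← tsum_geometric_of_norm_lt_one h1]
      refine tsum_congr fun k => ?_
      rw [Complex.ofReal_one, one_mul, ← pow_mul, ← pow_mul, mul_comm]
    · show (1 - ‖a‖ ^ t)⁻¹ = ∑' k : ℕ, (1 : ℝ) * ‖a ^ k‖ ^ t
      rw [← tsum_geometric_of_lt_one (Real.rpow_nonneg (norm_nonneg a) t)
        (Real.rpow_lt_one (norm_nonneg _) h ht)]
      refine tsum_congr fun k => ?_
      rw [one_mul, norm_pow, ← Real.rpow_natCast, ← Real.rpow_mul (norm_nonneg _),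
        ← Real.rpow_natCast, ← Real.rpow_mul (norm_nonneg _), mul_comm]
  · have ha' : a⁻¹ ≠ 0 := inv_ne_zero ha
    have h' : ‖a⁻¹‖ < 1 := by
      rw [norm_inv]
      exact inv_lt_one_of_one_lt₀ h
    have hpos : 0 < ‖a‖ := norm_pos_iff.2 ha
    refine ⟨ℕ, fun _ => -1, fun k => a⁻¹ ^ (k + 1), fun _ => by norm_num,
      fun k => ⟨pow_ne_zero _ ha', ?_⟩, fun t ht => ?_, fun j hj => ?_, fun t ht => ?_⟩
    · rw [norm_pow]
      exact pow_le_one₀ (norm_nonneg _) h'.le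
    · refine ((summable_geometric_of_lt_one (Real.rpow_nonneg (norm_nonneg a⁻¹) t)
        (Real.rpow_lt_one (norm_nonneg _) h' ht)).mul_left (‖a⁻¹‖ ^ t)).congr fun k => ?_
      rw [norm_pow, ← pow_succ', ← Real.rpow_natCast (‖a⁻¹‖ ^ t), ← Real.rpow_mul (norm_nonneg _),
        ← Real.rpow_natCast, ← Real.rpow_mul (norm_nonneg _), mul_comm]
    · have h1 : ‖a⁻¹ ^ j‖ < 1 := by
        rw [norm_pow]
        exact pow_lt_one₀ (norm_nonneg _) h' hj.ne'
      have h3 : a ^ j ≠ 0 := pow_ne_zero _ ha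
      have h4 : a ^ j ≠ 1 := by
        intro h5
        have h6 : ‖a ^ j‖ = 1 := by rw [h5, norm_one]
        rw [norm_pow] at h6
        exact absurd h6 (one_lt_pow₀ h hj.ne').ne'
      have h5 : (1 : ℂ) - a ^ j ≠ 0 := sub_ne_zero.2 (Ne.symm h4)
      have h6 : a ^ j - 1 ≠ 0 := sub_ne_zero.2 h4
      have h2 : (1 - a ^ j)⁻¹ = -(a⁻¹ ^ j * (1 - a⁻¹ ^ j)⁻¹) := by
        have h7 : a⁻¹ ^ j = (a ^ j)⁻¹ := inv_pow _ _
        have h8 : 1 - (a ^ j)⁻¹ ≠ 0 := by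
          intro h9
          apply h4
          have h10 : (a ^ j)⁻¹ = 1 := (sub_eq_zero.1 h9).symm
          exact inv_eq_one.1 h10
        rw [h7]
        field_simp
        ring
      show (1 - a ^ j)⁻¹ = ∑' k : ℕ, ((-1 : ℝ) : ℂ) * (a⁻¹ ^ (k + 1)) ^ j
      rw [h2, ← tsum_geometric_of_norm_lt_one h1, ← tsum_mul_left, ← tsum_neg]
      refine tsum_congr fun k => ?_
      push_cast
      rw [neg_one_mul, ← pow_succ', ← pow_mul, ← pow_mul, mul_comm]
    · have h1 : ‖a⁻¹‖ ^ t < 1 := Real.rpow_lt_one (norm_nonneg _) h' ht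
      have h0 : 1 < ‖a‖ ^ t := Real.one_lt_rpow h ht
      have h3 : ‖a⁻¹‖ ^ t = (‖a‖ ^ t)⁻¹ := by
        rw [norm_inv, Real.inv_rpow hpos.le]
      have h2 : (1 - ‖a‖ ^ t)⁻¹ = -(‖a⁻¹‖ ^ t * (1 - ‖a⁻¹‖ ^ t)⁻¹) := by
        rw [h3]
        have h4 : ‖a‖ ^ t ≠ 0 := (zero_lt_one.trans h0).ne'
        have h5 : 1 - ‖a‖ ^ t ≠ 0 := (sub_neg.2 h0).ne
        have h6 : ‖a‖ ^ t - 1 ≠ 0 := (sub_pos.2 h0).ne'
        have h8 : 1 - (‖a‖ ^ t)⁻¹ ≠ 0 := by
          have := inv_lt_one_of_one_lt₀ h0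
          exact (sub_pos.2 this).ne'
        field_simp
        ring
      show (1 - ‖a‖ ^ t)⁻¹ = ∑' k : ℕ, (-1 : ℝ) * ‖a⁻¹ ^ (k + 1)‖ ^ t
      rw [h2, ← tsum_geometric_of_lt_one (Real.rpow_nonneg (norm_nonneg a⁻¹) t) h1,
        ← tsum_mul_left, ← tsum_neg]
      refine tsum_congr fun k => ?_
      rw [neg_one_mul, norm_pow, ← pow_succ', ← Real.rpow_natCast (‖a⁻¹‖ ^ t),
        ← Real.rpow_mul (norm_nonneg _), ← Real.rpow_natCast, ← Real.rpow_mul (norm_nonneg _),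
        mul_comm t]

/-- Induction over the multiset, `erep_factor`, `erep_mul`. -/
theorem erep_multiset (s : Multiset ℂ) (hs : ∀ a ∈ s, a ≠ 0 ∧ ‖a‖ ≠ 1) :
    ERep (fun j => (s.map (fun a => 1 - a ^ j)).prod⁻¹)
      (fun t => (s.map (fun a => 1 - ‖a‖ ^ t)).prod⁻¹) := by
  induction s using Multiset.induction_on with
  | empty =>
    simpa using erep_one
  | cons a s ih =>
    have h1 := erep_mul (erep_factor (hs a (Multiset.mem_cons_self a s)).1
      (hs a (Multiset.mem_cons_self a s)).2)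
      (ih fun b hb => hs b (Multiset.mem_cons_of_mem hb))
    simpa only [Multiset.map_cons, Multiset.prod_cons, mul_inv] using h1

/-- Induction over the finite set, `erep_add`. -/
theorem erep_sum {X : Type*} (F : Finset X) (s : X → Multiset ℂ)
    (hs : ∀ x ∈ F, ∀ a ∈ s x, a ≠ 0 ∧ ‖a‖ ≠ 1) :
    ERep (fun j => ∑ x ∈ F, ((s x).map (fun a => 1 - a ^ j)).prod⁻¹)
      (fun t => ∑ x ∈ F, ((s x).map (fun a => 1 - ‖a‖ ^ t)).prod⁻¹) := by
  classical
  induction F using Finset.induction_on with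
  | empty =>
    simpa using erep_zero
  | insert x F hx ih =>
    have h1 := erep_add (erep_multiset (s x) (hs x (Finset.mem_insert_self x F)))
      (ih fun y hy => hs y (Finset.mem_insert_of_mem hy))
    simpa only [Finset.sum_insert hx] using h1

end FB
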