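import Pool.Agent.H.MP_fb873c_an.B1a
import Pool.Agent.H.MP_fb873c_an.B1b

/-!
# Theorem B: an exponential sum which satisfies a linear recurrence is bounded at `0`
-/

namespace FB

open scoped Topology
open Filter

/-- The number `n_z` vanishes at the `z ≠ 0` which are not roots of the recurrence. -/
theorem B1c_count {ι : Type} (c : ι → ℝ) (γ : ι → ℂ) (hc : ∀ i, |c i| ≤ 1)
    (hγ : ∀ i, γ i ≠ 0 ∧ ‖γ i‖ ≤ 1)
    (hs : ∀ t : ℝ, 0 < t → Summable fun i => ‖γ i‖ ^ t) {A : ℕ → ℂ}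
    (hA : ∀ j : ℕ, 0 < j → A j = ∑' i, (c i : ℂ) * γ i ^ j) (χ : Polynomial ℂ)
    (hrec : ∀ j : ℕ, 0 < j → ∑ l ∈ Finset.range (χ.natDegree + 1), χ.coeff l * A (j + l) = 0)
    (z : ℂ) (hz : z ≠ 0) (hχ : χ.eval z ≠ 0) :
    ∑' i : γ ⁻¹' {z}, c i = 0 := by
  classical
  obtain ⟨K, hK⟩ : ∃ K : ℝ, ∀ i, ‖χ.eval (γ i)‖ ≤ K := by
    have hcont : Continuous fun x : ℂ => χ.eval x := χ.continuous
    obtain ⟨P, hP⟩ := (isCompact_closedBall (0 : ℂ) 1).exists_bound_of_continuousOn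
      hcont.continuousOn
    refine ⟨P, fun i => hP (γ i) ?_⟩
    rw [Metric.mem_closedBall, dist_zero_right]
    exact (hγ i).2
  have hsum1 : Summable fun i => ‖γ i‖ := by
    simpa using hs 1 one_pos
  have h := exp_unique (fun i => (c i : ℂ) * χ.eval (γ i)) γ K (fun i => by
    rw [norm_mul, Complex.norm_real, Real.norm_eq_abs]
    calc |c i| * ‖χ.eval (γ i)‖ ≤ 1 * K :=
          mul_le_mul (hc i) (hK i) (norm_nonneg _) zero_le_one
      _ = K := one_mul K) hsum1 (fun j hj => by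
    have h1 : ∀ i, (c i : ℂ) * χ.eval (γ i) * γ i ^ j
        = ∑ l ∈ Finset.range (χ.natDegree + 1), χ.coeff l * ((c i : ℂ) * γ i ^ (j + l)) := by
      intro i
      rw [Polynomial.eval_eq_sum_range, Finset.mul_sum, Finset.sum_mul]
      refine Finset.sum_congr rfl fun l _ => ?_
      rw [pow_add]
      ring
    simp_rw [h1]
    rw [Summable.tsum_finsetSum]
    · rw [← hrec j hj]
      refine Finset.sum_congr rfl fun l _ => ?_
      rw [tsum_mul_left, hA (j + l) (by omega)]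
    · intro l _
      exact (B1b_summable hc hs (j := j + l) (by omega)).mul_left _) z hz
  have h2 : (fun i => Set.indicator {i | γ i = z} (fun i => (c i : ℂ) * χ.eval (γ i)) i)
      = fun i => (Set.indicator (γ ⁻¹' {z}) (fun i => (c i : ℂ)) i) * χ.eval z := by
    funext i
    by_cases hi : γ i = z
    · rw [Set.indicator_of_mem (by exact hi), Set.indicator_of_mem (by exact hi), hi]
    · rw [Set.indicator_of_notMem (by exact hi), Set.indicator_of_notMem (by exact hi), zero_mul]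
  have h3 : ∑' i, (Set.indicator (γ ⁻¹' {z}) (fun i => (c i : ℂ)) i) = 0 := by
    rw [show (∑' i, (Set.indicator {i | γ i = z} (fun i => (c i : ℂ) * χ.eval (γ i)) i))
      = ∑' i, (Set.indicator (γ ⁻¹' {z}) (fun i => (c i : ℂ)) i) * χ.eval z from by
        rw [← h2], tsum_mul_right] at h
    exact (mul_eq_zero.mp h).resolve_right hχ
  rw [← tsum_subtype (γ ⁻¹' {z}) (fun i => (c i : ℂ))] at h3
  have h4 : ((∑' i : γ ⁻¹' {z}, c i : ℝ) : ℂ) = 0 := by
    rw [Complex.ofReal_tsum]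
    exact h3
  exact_mod_cast h4

/-- `∑_l χ_l A(j+l) = ∑_i c_i χ(γ_i) γ_i^j = 0`, so by `exp_unique` (coefficients `c_i χ(γ_i)`, bounded because `‖γ_i‖ ≤ 1`) for `z ≠ 0`
with `χ(z) ≠ 0`: `n_z = ∑_{γ_i = z} c_i = 0`.  Group the absolutely convergent sum `R t = ∑ c_i ‖γ_i‖^t` by the
values of `γ` (`HasSum.tsum_fiberwise` or `Summable.tsum_fiberwise`, `tsum_sigma`): `R t = ∑_{z ∈ roots χ} ‖z‖^t n_z` for all `t > 0`, a finite
sum (`z = 0` does not occur).  Its limit for `t → 0` is `∑ n_z`. -/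
theorem erep_limit {A : ℕ → ℂ} {R : ℝ → ℝ} (h : ERep A R) (χ : Polynomial ℂ) (hχ : χ ≠ 0)
    (hrec : ∀ j : ℕ, 0 < j → ∑ l ∈ Finset.range (χ.natDegree + 1), χ.coeff l * A (j + l) = 0) :
    ∃ L : ℝ, Tendsto R (𝓝[>] 0) (𝓝 L) := by
  classical
  obtain ⟨ι, c, γ, hc, hγ, hs, hA, hR⟩ := h
  have hzero : ∀ z : ℂ, z ∉ χ.roots.toFinset.filter (fun z => z ≠ 0) →
      ∑' i : γ ⁻¹' {z}, c i = 0 := by
    intro z hz
    by_cases hz0 : z = 0
    · have : IsEmpty (γ ⁻¹' {z}) := ⟨fun i => (hγ i.1).1 (by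
        have h6 : γ i = z := i.2
        exact h6.trans hz0)⟩
      exact tsum_empty
    · refine B1c_count c γ hc hγ hs hA χ hrec z hz0 fun h0 => hz ?_
      rw [Finset.mem_filter, Multiset.mem_toFinset, Polynomial.mem_roots hχ]
      exact ⟨h0, hz0⟩
  refine ⟨∑ z ∈ χ.roots.toFinset.filter (fun z => z ≠ 0), (1 : ℝ) * ∑' i : γ ⁻¹' {z}, c i, ?_⟩
  have hlim : Tendsto (fun t : ℝ => ∑ z ∈ χ.roots.toFinset.filter (fun z => z ≠ 0),
      ‖z‖ ^ t * ∑' i : γ ⁻¹' {z}, c i) (𝓝[>] 0)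
      (𝓝 (∑ z ∈ χ.roots.toFinset.filter (fun z => z ≠ 0), (1 : ℝ) * ∑' i : γ ⁻¹' {z}, c i)) := by
    refine tendsto_finsetSum _ fun z hz => ?_
    refine Tendsto.mul_const _ ?_
    have hz0 : ‖z‖ ≠ 0 := norm_ne_zero_iff.mpr (Finset.mem_filter.mp hz).2
    have hcont : ContinuousAt (fun t : ℝ => ‖z‖ ^ t) 0 :=
      Real.continuousAt_const_rpow hz0
    have := hcont.tendsto
    rw [Real.rpow_zero] at this
    exact this.mono_left nhdsWithin_le_nhds
  refine hlim.congr' ?_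
  filter_upwards [self_mem_nhdsWithin] with t ht
  rw [hR t ht]
  have hsum := (B1b_summable' hc (hs t ht)).hasSum
  have hf := hsum.tsum_fiberwise γ
  rw [← hf.tsum_eq]
  have h5 : ∀ z : ℂ, ∑' i : γ ⁻¹' {z}, c i * ‖γ i‖ ^ t = ‖z‖ ^ t * ∑' i : γ ⁻¹' {z}, c i := by
    intro z
    rw [← tsum_mul_left]
    refine tsum_congr fun i => ?_
    have : γ i = z := i.2
    rw [this, mul_comm]
  simp_rw [h5]
  rw [tsum_eq_sum (s := χ.roots.toFinset.filter (fun z => z ≠ 0))]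
  intro z hz
  rw [hzero z hz, mul_zero]

end FB
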