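import Pool.Agent.H.MP_fb873c_an.B1c

/-!
# Theorem B: Lemma X
-/

namespace FB

open scoped Topology
open Filter

/-- One factor. -/
theorem B1d_factor {r : ℝ} (hr : 0 < r) (hr1 : r ≠ 1) :
    Tendsto (fun t : ℝ => t * (1 - r ^ t)⁻¹) (𝓝[>] 0) (𝓝 (- Real.log r)⁻¹) := by
  have hlog : Real.log r ≠ 0 := Real.log_ne_zero_of_pos_of_ne_one hr hr1
  have h1 : HasDerivAt (fun t : ℝ => r ^ t) (Real.log r) 0 := by
    have := (Real.hasStrictDerivAt_const_rpow hr 0).hasDerivAt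
    simpa using this
  have h2 := (hasDerivAt_iff_tendsto_slope.1 h1).mono_left
    (nhdsWithin_mono (0 : ℝ) (fun t (ht : 0 < t) => (ne_of_gt ht : t ≠ 0)))
  have h3 : Tendsto (fun t : ℝ => (-(slope (fun t : ℝ => r ^ t) 0 t))⁻¹) (𝓝[>] 0)
      (𝓝 (- Real.log r)⁻¹) := h2.neg.inv₀ (neg_ne_zero.2 hlog)
  refine h3.congr' ?_
  filter_upwards [self_mem_nhdsWithin] with t ht
  have ht0 : (t : ℝ) ≠ 0 := ne_of_gt ht
  rw [slope_def_field, Real.rpow_zero, sub_zero, ← neg_div, neg_sub, inv_div, div_eq_mul_inv]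

/-- `(1 - r^t)/t → - log r` as `t → 0` (derivative of `t ↦ r^t` at `0`; `Real.hasStrictDerivAt_const_rpow` or write
`r^t = exp(t log r)`), so `t (1 - r^t)⁻¹ → (- log r)⁻¹` as `log r ≠ 0`; product over the multiset. -/
theorem log_limit (s : Multiset ℂ) (hs : ∀ a ∈ s, a ≠ 0 ∧ ‖a‖ ≠ 1) :
    Tendsto (fun t : ℝ => t ^ Multiset.card s * (s.map (fun a => 1 - ‖a‖ ^ t)).prod⁻¹) (𝓝[>] 0)
      (𝓝 ((s.map (fun a => - Real.log ‖a‖)).prod⁻¹)) := by
  induction s using Multiset.induction_on with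
  | empty => simp
  | cons a s ih =>
    have h1 := B1d_factor (norm_pos_iff.2 (hs a (Multiset.mem_cons_self a s)).1)
      (hs a (Multiset.mem_cons_self a s)).2
    have h2 := h1.mul (ih fun b hb => hs b (Multiset.mem_cons_of_mem hb))
    rw [Multiset.map_cons, Multiset.prod_cons, mul_inv]
    refine h2.congr fun t => ?_
    rw [Multiset.map_cons, Multiset.prod_cons, mul_inv, Multiset.card_cons, pow_succ]
    ring

/-- LEMMA X.  `R t = ∑_x ∏ (1 - |a|^t)⁻¹` has a finite limit as `t → 0` (`erep_sum`, `erep_limit`), so `t^m R t → 0` (`m > 0`); but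
`t^m R t → ∑_x ∏ (- log |a|)⁻¹` by `log_limit`. -/
theorem lemmaX {X : Type*} (F : Finset X) (s : X → Multiset ℂ) (m : ℕ) (hm : 0 < m)
    (hcard : ∀ x ∈ F, Multiset.card (s x) = m)
    (hs : ∀ x ∈ F, ∀ a ∈ s x, a ≠ 0 ∧ ‖a‖ ≠ 1) (χ : Polynomial ℂ) (hχ : χ ≠ 0)
    (hrec : ∀ j : ℕ, 0 < j → ∑ l ∈ Finset.range (χ.natDegree + 1), χ.coeff l *
      (∑ x ∈ F, ((s x).map (fun a => 1 - a ^ (j + l))).prod⁻¹) = 0) :
    ∑ x ∈ F, ((s x).map (fun a => - Real.log ‖a‖)).prod⁻¹ = 0 := by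
  obtain ⟨L, hL⟩ := erep_limit (erep_sum F s hs) χ hχ hrec
  have ht : Tendsto (fun t : ℝ => t ^ m) (𝓝[>] 0) (𝓝 0) := by
    have h := (continuous_pow (M := ℝ) m).tendsto 0
    rw [zero_pow hm.ne'] at h
    exact h.mono_left nhdsWithin_le_nhds
  have h0 := ht.mul hL
  rw [zero_mul] at h0
  have h1 : Tendsto (fun t : ℝ => t ^ m * ∑ x ∈ F, ((s x).map (fun a => 1 - ‖a‖ ^ t)).prod⁻¹)
      (𝓝[>] 0) (𝓝 (∑ x ∈ F, ((s x).map (fun a => - Real.log ‖a‖)).prod⁻¹)) := by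
    simp_rw [Finset.mul_sum]
    refine tendsto_finsetSum F fun x hx => ?_
    have := log_limit (s x) (hs x hx)
    rwa [hcard x hx] at this
  exact tendsto_nhds_unique h1 h0

end FB
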