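import Pool.Agent.H.MP_fb873c_an.D2h

/-!
# Part D2: finitely many fixed points
-/

namespace FB

open scoped Topology ContDiff Manifold
open Filter

universe u

section

variable {n : ℕ} {M : Type u} [TopologicalSpace M] [ChartedSpace (Er n) M]
  [IsManifold (𝓡 n) ∞ M] [CompactSpace M] [T2Space M]

omit [IsManifold (𝓡 n) ∞ M] [CompactSpace M] [T2Space M] in
theorem D2m1_iterate (g : Dif n M) (k : ℕ) : ContMDiff (𝓡 n) (𝓡 n) ∞ ((g : M → M)^[k]) := by
  induction k with
  | zero => exact contMDiff_id
  | succ k ih =>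
    rw [Function.iterate_succ']
    exact g.contMDiff.comp ih

/-- Nondegenerate fixed points are isolated (`fix_unique` for the constant family), `M` is compact. -/
theorem finite_fix {k : ℕ} {g : Dif n M}
    (h : ∀ x, (g : M → M)^[k] x = x → Ndg (n := n) ((g : M → M)^[k]) x) :
    {x | (g : M → M)^[k] x = x}.Finite := by
  by_contra hinf
  obtain ⟨x, hx⟩ := Set.Infinite.exists_accPt_principal hinf
  rw [accPt_iff_frequently] at hx
  have hsm := D2m1_iterate g k
  have hclosed : IsClosed {x | (g : M → M)^[k] x = x} := isClosed_eq hsm.continuous continuous_id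
  have hxs : (g : M → M)^[k] x = x := by
    have h1 : x ∈ closure {x | (g : M → M)^[k] x = x} :=
      mem_closure_iff_frequently.2 (hx.mono fun y hy => hy.2)
    rw [hclosed.closure_eq] at h1
    exact h1
  have hF : SmF n (fun (_ : ℝ) => (g : M → M)^[k]) x := by
    unfold SmF
    exact (hsm.comp contMDiff_snd).contMDiffAt
  have h2 := fix_unique hF (Eventually.of_forall fun _ => hxs) (h x hxs)
  have h3 : Tendsto (fun y : M => ((0 : ℝ), y)) (𝓝 x) (𝓝 (0, x)) :=
    (continuous_const.prodMk continuous_id).tendsto' _ _ rfl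
  have h4 := h3.eventually h2
  obtain ⟨y, hy1, hy2⟩ := (hx.and_eventually h4).exists
  exact hy1.1 (hy2 hy1.2)

end

end FB
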