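import Pool.Agent.H.MP_fb873c_an.D1a

/-!
# Part D1c: convergence in the `C¹` topology gives `CV`
-/

namespace FB

open scoped Topology ContDiff Manifold
open Filter

universe u v w

section

variable {n : ℕ} {M : Type u} [TopologicalSpace M] [ChartedSpace (Er n) M]

theorem D1c_mem {l : Filter (Dif n M)} {g : Dif n M} (h : l ≤ @nhds _ (crTop n M 1) g)
    {φ ψ : OpenPartialHomeomorph M (Er n)} (hφ : φ ∈ atlas (Er n) M) (hψ : ψ ∈ atlas (Er n) M)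
    {K : Set M} (hK : IsCompact K) (h1 : K ⊆ φ.source) (h2 : ∀ x ∈ K, g x ∈ ψ.source)
    {ε : ℝ} (hε : 0 < ε) : cnbhd 1 g φ ψ K ε ∈ l := by
  apply h
  let _ := crTop n M 1
  refine IsOpen.mem_nhds ?_ ?_
  · exact TopologicalSpace.isOpen_generateFrom_of_mem
      ⟨1, g, φ, ψ, K, ε, le_rfl, hφ, hψ, hK, h1, h2, hε, rfl⟩
  · exact ⟨h2, fun j _ x _ => by simpa using hε⟩

theorem D1c_zero {g' g : Dif n M} {φ ψ : OpenPartialHomeomorph M (Er n)} {K : Set M} {ε : ℝ}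
    (h : g' ∈ cnbhd 1 g φ ψ K ε) (h1 : K ⊆ φ.source) {x : M} (hx : x ∈ K) :
    ‖ψ (g' x) - ψ (g x)‖ < ε := by
  have h2 := h.2 0 (by norm_num) x hx
  simp only [iteratedFDeriv_zero_eq_comp, Function.comp_apply] at h2
  rw [← map_sub, LinearIsometryEquiv.norm_map, φ.left_inv (h1 hx)] at h2
  exact h2

theorem D1c_one {g' g : Dif n M} {φ ψ : OpenPartialHomeomorph M (Er n)} {K : Set M} {ε : ℝ}
    (h : g' ∈ cnbhd 1 g φ ψ K ε) {x : M} (hx : x ∈ K) :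
    ‖fderiv ℝ (ψ ∘ g' ∘ φ.symm) (φ x) - fderiv ℝ (ψ ∘ g ∘ φ.symm) (φ x)‖ < ε := by
  have h2 := h.2 1 le_rfl x hx
  refine lt_of_le_of_lt ?_ h2
  refine ContinuousLinearMap.opNorm_le_bound _ (norm_nonneg _) fun v => ?_
  have h3 := (iteratedFDeriv ℝ 1 (ψ ∘ g' ∘ φ.symm) (φ x)
    - iteratedFDeriv ℝ 1 (ψ ∘ g ∘ φ.symm) (φ x)).le_opNorm (fun _ => v)
  simpa [iteratedFDeriv_one_apply] using h3

theorem CV.of_crTop [IsManifold (𝓡 n) ∞ M] [CompactSpace M] [T2Space M]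
    {l : Filter (Dif n M)} {g : Dif n M}
    (h : l ≤ @nhds _ (crTop n M 1) g) : CV n l (fun g' : Dif n M => (g' : M → M)) g := by
  have hc : Continuous (g : M → M) := g.contMDiff_toFun.continuous
  have hC1 : C1 n (g : M → M) := g.contMDiff_toFun.of_le (by norm_cast)
  have hKex : ∀ (x : M) (φ ψ : OpenPartialHomeomorph M (Er n)), x ∈ φ.source → g x ∈ ψ.source →
      ∃ K : Set M, IsCompact K ∧ K ∈ 𝓝 x ∧ K ⊆ φ.source ∧ ∀ y ∈ K, g y ∈ ψ.source := by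
    intro x φ ψ h1 h2
    have hU : IsOpen (φ.source ∩ (g : M → M) ⁻¹' ψ.source) :=
      φ.open_source.inter (ψ.open_source.preimage hc)
    obtain ⟨K, hK1, hK2, hK3⟩ := exists_compact_subset hU ⟨h1, h2⟩
    exact ⟨K, hK1, mem_interior_iff_mem_nhds.1 hK2, fun y hy => (hK3 hy).1,
      fun y hy => (hK3 hy).2⟩
  refine ⟨fun x => ?_, fun x φ ψ h1 h2 h3 h4 => ?_⟩
  · obtain ⟨K, hK1, hK2, hK3, hK4⟩ := hKex x (chartAt (Er n) x) (chartAt (Er n) (g x))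
      (mem_chart_source _ _) (mem_chart_source _ _)
    set ψ := chartAt (Er n) (g x) with hψ
    have hgx : g x ∈ ψ.source := mem_chart_source _ _
    have t0 : Tendsto (fun y => ψ (g y)) (𝓝 x) (𝓝 (ψ (g x))) :=
      ((ψ.continuousAt hgx).comp hc.continuousAt).tendsto
    have t1 : Tendsto (fun p : Dif n M × M => ψ (p.1 p.2)) (l ×ˢ 𝓝 x) (𝓝 (ψ (g x))) := by
      rw [Metric.tendsto_nhds]
      intro ε hε
      have e1 := D1c_mem h (chart_mem_atlas _ x) (chart_mem_atlas _ (g x)) hK1 hK3 hK4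
        (half_pos hε)
      have e2 : ∀ᶠ y in 𝓝 x, y ∈ K ∧ dist (ψ (g y)) (ψ (g x)) < ε / 2 :=
        (Filter.eventually_mem_set.2 hK2).and ((Metric.tendsto_nhds.1 t0) _ (half_pos hε))
      filter_upwards [Filter.prod_mem_prod e1 e2] with p hp
      have e3 := D1c_zero hp.1 hK3 hp.2.1
      have e4 := hp.2.2
      rw [← dist_eq_norm] at e3
      linarith [dist_triangle (ψ (p.1 p.2)) (ψ (g p.2)) (ψ (g x))]
    have t2 : Tendsto (fun p : Dif n M × M => ψ.symm (ψ (p.1 p.2))) (l ×ˢ 𝓝 x)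
        (𝓝 (ψ.symm (ψ (g x)))) :=
      (ψ.continuousAt_symm (ψ.map_source hgx)).tendsto.comp t1
    rw [ψ.left_inv hgx] at t2
    refine t2.congr' ?_
    have e1 := D1c_mem h (chart_mem_atlas _ x) (chart_mem_atlas _ (g x)) hK1 hK3 hK4
      one_pos
    filter_upwards [Filter.prod_mem_prod e1 hK2] with p hp
    exact ψ.left_inv (hp.1.1 _ hp.2)
  · obtain ⟨K, hK1, hK2, hK3, hK4⟩ := hKex x φ ψ h3 h4
    have t0 : Tendsto (fun y => fderiv ℝ (ψ ∘ g ∘ φ.symm) (φ y)) (𝓝 x)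
        (𝓝 (fderiv ℝ (ψ ∘ g ∘ φ.symm) (φ x))) := by
      have h5 := D1_cda (hC1 x) h1 h2 h3 h4
      have h6 : ContinuousAt (fderiv ℝ (ψ ∘ g ∘ φ.symm)) (φ x) :=
        (h5.fderiv_right (m := 0) (by norm_num)).continuousAt
      exact h6.tendsto.comp (φ.continuousAt h3).tendsto
    rw [Metric.tendsto_nhds]
    intro ε hε
    have e1 := D1c_mem h h1 h2 hK1 hK3 hK4 (half_pos hε)
    have e2 : ∀ᶠ y in 𝓝 x, y ∈ K ∧ dist (fderiv ℝ (ψ ∘ g ∘ φ.symm) (φ y))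
        (fderiv ℝ (ψ ∘ g ∘ φ.symm) (φ x)) < ε / 2 :=
      (Filter.eventually_mem_set.2 hK2).and ((Metric.tendsto_nhds.1 t0) _ (half_pos hε))
    filter_upwards [Filter.prod_mem_prod e1 e2] with p hp
    have e3 := D1c_one hp.1 hp.2.1
    have e4 := hp.2.2
    rw [← dist_eq_norm] at e3
    linarith [dist_triangle (fderiv ℝ (ψ ∘ p.1 ∘ φ.symm) (φ p.2))
      (fderiv ℝ (ψ ∘ g ∘ φ.symm) (φ p.2)) (fderiv ℝ (ψ ∘ g ∘ φ.symm) (φ x))]

end

end FB
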