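import Pool.Agent.H.MP_fb873c_an.D1a

/-!
# Part D1d: change of charts at a fixed point; openness of nonexistence of fixed points and of nondegeneracy
-/

namespace FB

open scoped Topology ContDiff Manifold
open Filter

universe u v w

section

variable {n : ℕ} {M : Type u} [TopologicalSpace M] [ChartedSpace (Er n) M]
variable {ι : Type v}

theorem D1_tt [IsManifold (𝓡 n) ∞ M] {x : M} {φ ψ : OpenPartialHomeomorph M (Er n)}
    (hφ : φ ∈ atlas (Er n) M) (hψ : ψ ∈ atlas (Er n) M) (h1 : x ∈ φ.source) (h2 : x ∈ ψ.source) :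
    (fderiv ℝ (φ ∘ (id : M → M) ∘ ψ.symm) (ψ x)).comp
      (fderiv ℝ (ψ ∘ (id : M → M) ∘ φ.symm) (φ x)) = ContinuousLinearMap.id ℝ (Er n) := by
  have hid : ContMDiffAt (𝓡 n) (𝓡 n) 1 (id : M → M) x := contMDiffAt_id
  have h := D1_chain (F := (id : M → M)) (G := (id : M → M)) hid hid hφ hψ hφ h1 h2 h1
  have h3 : (φ ∘ ((id : M → M) ∘ (id : M → M)) ∘ φ.symm) =ᶠ[𝓝 (φ x)] id := by
    filter_upwards [φ.open_target.mem_nhds (φ.map_source h1)] with z hz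
    simp [φ.right_inv hz]
  rw [h3.fderiv_eq, fderiv_id] at h
  exact h.symm

theorem D1_conj [IsManifold (𝓡 n) ∞ M] {F : M → M} {x : M}
    (hF : ContMDiffAt (𝓡 n) (𝓡 n) 1 F x) (hx : F x = x) {φ : OpenPartialHomeomorph M (Er n)}
    (hφ : φ ∈ atlas (Er n) M) (h1 : x ∈ φ.source) :
    ∃ e : Er n ≃L[ℝ] Er n, fderiv ℝ (φ ∘ F ∘ φ.symm) (φ x) =
      (e : Er n →L[ℝ] Er n).comp ((dfix F x).comp (e.symm : Er n →L[ℝ] Er n)) := by
  set ψ := chartAt (Er n) x with hψ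
  have hψ1 : ψ ∈ atlas (Er n) M := chart_mem_atlas _ _
  have h2 : x ∈ ψ.source := mem_chart_source _ _
  have hid : ContMDiffAt (𝓡 n) (𝓡 n) 1 (id : M → M) x := contMDiffAt_id
  have a1 := D1_tt hφ hψ1 h1 h2
  have a2 := D1_tt hψ1 hφ h2 h1
  set T := fderiv ℝ (φ ∘ (id : M → M) ∘ ψ.symm) (ψ x) with hT
  set S := fderiv ℝ (ψ ∘ (id : M → M) ∘ φ.symm) (φ x) with hS
  have b1 : fderiv ℝ (φ ∘ (F ∘ id) ∘ φ.symm) (φ x) = (fderiv ℝ (φ ∘ F ∘ ψ.symm) (ψ x)).comp S :=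
    D1_chain (F := (id : M → M)) (G := F) hid hF hφ hψ1 hφ h1 h2 (by simpa [hx] using h1)
  have b2 : fderiv ℝ (φ ∘ (id ∘ F) ∘ ψ.symm) (ψ x) =
      (fderiv ℝ (φ ∘ (id : M → M) ∘ ψ.symm) (ψ (F x))).comp
        (fderiv ℝ (ψ ∘ F ∘ ψ.symm) (ψ x)) :=
    D1_chain (F := F) (G := (id : M → M)) hF contMDiffAt_id hψ1 hψ1 hφ h2
      (by simpa [hx] using h2) (by simpa [hx] using h1)
  rw [Function.comp_id] at b1
  rw [Function.id_comp, hx, ← hT] at b2
  refine ⟨ContinuousLinearEquiv.equivOfInverse T S (fun v => ?_) (fun v => ?_), ?_⟩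
  · simpa using DFunLike.congr_fun a2 v
  · simpa using DFunLike.congr_fun a1 v
  · rw [b1, b2]
    rfl

theorem ND_iff [IsManifold (𝓡 n) ∞ M] {F : M → M} {x : M}
    (hF : ContMDiffAt (𝓡 n) (𝓡 n) 1 F x) (hx : F x = x) {φ : OpenPartialHomeomorph M (Er n)}
    (hφ : φ ∈ atlas (Er n) M) (h1 : x ∈ φ.source) :
    ND n F x ↔ LinearMap.det ((fderiv ℝ (φ ∘ F ∘ φ.symm) (φ x)
      - ContinuousLinearMap.id ℝ (Er n) : Er n →L[ℝ] Er n)).toLinearMap ≠ 0 := by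
  obtain ⟨e, he⟩ := D1_conj hF hx hφ h1
  have h2 : (fderiv ℝ (φ ∘ F ∘ φ.symm) (φ x)
      - ContinuousLinearMap.id ℝ (Er n) : Er n →L[ℝ] Er n).toLinearMap =
      e.toLinearEquiv.toLinearMap ∘ₗ
        (dfix F x - ContinuousLinearMap.id ℝ (Er n) : Er n →L[ℝ] Er n).toLinearMap ∘ₗ
        e.toLinearEquiv.symm.toLinearMap := by
    rw [he]
    ext v
    simp
  rw [h2, LinearMap.det_conj]
  rfl

theorem Fac_dfix [IsManifold (𝓡 n) ∞ M] {F : M → M} {x : M}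
    (hF : ContMDiffAt (𝓡 n) (𝓡 n) 1 F x) (hx : F x = x) {φ : OpenPartialHomeomorph M (Er n)}
    (hφ : φ ∈ atlas (Er n) M) (h1 : x ∈ φ.source) :
    Fac (fderiv ℝ (φ ∘ F ∘ φ.symm) (φ x)).toLinearMap = Fac (dfix (n := n) F x).toLinearMap := by
  obtain ⟨e, he⟩ := D1_conj hF hx hφ h1
  have h2 : (fderiv ℝ (φ ∘ F ∘ φ.symm) (φ x)).toLinearMap =
      e.toLinearEquiv.conj (dfix (n := n) F x).toLinearMap := by
    rw [he]
    ext v
    simp [LinearEquiv.conj_apply]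
  unfold Fac
  rw [h2, LinearEquiv.charpoly_conj]

/-- No fixed points in a compact set is an open condition. -/
theorem D1_nofix [T2Space M] {l : Filter ι} {F : ι → M → M} {F0 : M → M}
    (hF : CV n l F F0) {K : Set M} (hK : IsCompact K) (h0 : ∀ x ∈ K, F0 x ≠ x) :
    ∀ᶠ i in l, ∀ x ∈ K, F i x ≠ x := by
  have h1 : {p : ι × M | F p.1 p.2 ≠ p.2} ∈ l ×ˢ 𝓝ˢ K := by
    refine hK.mem_prod_nhdsSet_of_forall fun y hy => ?_
    have h2 : Tendsto (fun p : ι × M => (F p.1 p.2, p.2)) (l ×ˢ 𝓝 y) (𝓝 (F0 y, y)) :=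
      (hF.tend y).prodMk_nhds tendsto_snd
    have h3 : IsOpen {q : M × M | q.1 ≠ q.2} := isOpen_ne_fun continuous_fst continuous_snd
    exact h2.eventually_mem (h3.mem_nhds (h0 y hy))
  obtain ⟨s, hs, t, ht, hst⟩ := Filter.mem_prod_iff.1 h1
  filter_upwards [hs] with i hi x hx
  exact hst (Set.mk_mem_prod hi (subset_of_mem_nhdsSet ht hx))

/-- Nondegeneracy of all fixed points in a compact set is an open condition. -/
theorem D1_nd [IsManifold (𝓡 n) ∞ M] [T2Space M] {l : Filter ι} {F : ι → M → M} {F0 : M → M}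
    (hF : CV n l F F0) (sF : ∀ i, C1 n (F i)) (sF0 : C1 n F0) {K : Set M} (hK : IsCompact K)
    (h0 : ∀ x ∈ K, F0 x = x → ND n F0 x) :
    ∀ᶠ i in l, ∀ x ∈ K, F i x = x → ND n (F i) x := by
  have h1 : {p : ι × M | F p.1 p.2 = p.2 → ND n (F p.1) p.2} ∈ l ×ˢ 𝓝ˢ K := by
    refine hK.mem_prod_nhdsSet_of_forall fun y hy => ?_
    by_cases hyy : F0 y = y
    · set φ := chartAt (Er n) y with hφ
      have hφ1 : φ ∈ atlas (Er n) M := chart_mem_atlas _ _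
      have h2 : y ∈ φ.source := mem_chart_source _ _
      have h3 := hF.tendD y φ φ hφ1 hφ1 h2 (by rw [hyy]; exact h2)
      have h4 : Continuous fun A : Er n →L[ℝ] Er n =>
          (A - ContinuousLinearMap.id ℝ (Er n) : Er n →L[ℝ] Er n).det :=
        ContinuousLinearMap.continuous_det.comp (continuous_id.sub continuous_const)
      have h5 := (h4.tendsto _).comp h3
      have h6 := (ND_iff (sF0 y) hyy hφ1 h2).1 (h0 y hy hyy)
      have h7 := h5.eventually_ne h6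
      have h8 : ∀ᶠ p : ι × M in l ×ˢ 𝓝 y, p.2 ∈ φ.source :=
        tendsto_snd.eventually_mem (φ.open_source.mem_nhds h2)
      filter_upwards [h7, h8] with p q1 q2 q3
      exact (ND_iff (sF p.1 p.2) q3 hφ1 q2).2 q1
    · have h2 : Tendsto (fun p : ι × M => (F p.1 p.2, p.2)) (l ×ˢ 𝓝 y) (𝓝 (F0 y, y)) :=
        (hF.tend y).prodMk_nhds tendsto_snd
      have h3 : IsOpen {q : M × M | q.1 ≠ q.2} := isOpen_ne_fun continuous_fst continuous_snd
      filter_upwards [h2.eventually_mem (h3.mem_nhds hyy)] with p hp hq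
      exact absurd hq hp
  obtain ⟨s, hs, t, ht, hst⟩ := Filter.mem_prod_iff.1 h1
  filter_upwards [hs] with i hi x hx
  exact hst (Set.mk_mem_prod hi (subset_of_mem_nhdsSet ht hx))

end

end FB
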