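import Pool.Agent.H.MP_fb873c_an.D1a

/-!
# Part D1e: unique continuation of nondegenerate fixed points
-/

namespace FB

open scoped Topology ContDiff Manifold NNReal
open Filter Metric

universe u v w

section

theorem D1e_zero {E : Type*} [NormedAddCommGroup E] [NormedSpace ℝ E] [CompleteSpace E]
    (A : E ≃L[ℝ] E) : ∃ c : ℝ, 0 < c ∧ ∀ (z0 : E) (r : ℝ), 0 < r → ∀ u : E → E,
      (∀ z ∈ closedBall z0 r, DifferentiableAt ℝ u z) →
      (∀ z ∈ closedBall z0 r, ‖fderiv ℝ u z - (A : E →L[ℝ] E)‖ ≤ c) →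
      Set.InjOn u (closedBall z0 r) ∧ (‖u z0‖ ≤ c * r → ∃ z ∈ closedBall z0 r, u z = 0) := by
  set N : ℝ≥0 := ‖(A.symm : E →L[ℝ] E)‖₊ with hN
  set c : ℝ≥0 := (2 * (N + 1))⁻¹ with hc
  have hN1 : (0 : ℝ≥0) < 2 * (N + 1) := by positivity
  have hc0 : 0 < c := inv_pos.2 hN1
  refine ⟨c, by exact_mod_cast hc0, fun z0 r hr u hd hb => ?_⟩
  have happ : ApproximatesLinearOn u (A : E →L[ℝ] E) (closedBall z0 r) c := by
    intro x hx y hy
    exact Convex.norm_image_sub_le_of_norm_fderiv_le' hd hb (convex_closedBall z0 r) hy hx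
  have hsub : Subsingleton E ∨ c < N⁻¹ := by
    rcases eq_or_ne N 0 with h0 | h0
    · left
      have h1 : (A.symm : E →L[ℝ] E) = 0 := by
        rw [← norm_eq_zero, ← coe_nnnorm, ← hN, h0]; rfl
      refine ⟨fun a b => ?_⟩
      have h2 : ∀ v : E, v = 0 := fun v => by
        have h3 : (A.symm : E →L[ℝ] E) (A v) = v := by simp
        rw [h1] at h3
        simpa using h3.symm
      rw [h2 a, h2 b]
    · right
      rw [hc]
      refine inv_strictAnti₀ (pos_iff_ne_zero.2 h0) ?_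
      calc N < N + 1 := lt_add_one N
        _ ≤ 2 * (N + 1) := by
          calc N + 1 = 1 * (N + 1) := (one_mul _).symm
            _ ≤ 2 * (N + 1) := by gcongr; norm_num
  refine ⟨happ.injOn hsub, fun hu => ?_⟩
  rcases subsingleton_or_nontrivial E with hE | hE
  · exact ⟨z0, mem_closedBall_self hr.le, Subsingleton.elim _ _⟩
  · have hs := happ.surjOn_closedBall_of_nonlinearRightInverse A.toNonlinearRightInverse hr.le
      (Set.Subset.refl _)
    have hlt : c < N⁻¹ := by
      rcases hsub with h | h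
      · exact absurd h (not_subsingleton E)
      · exact h
    have hNpos : (0 : ℝ) < N := by
      have : (0 : ℝ≥0) < N := by
        rw [pos_iff_ne_zero]
        rintro h0
        rw [h0, inv_zero] at hlt
        exact absurd hlt (not_lt.2 zero_le)
      exact_mod_cast this
    have hle : (c : ℝ) * r ≤ ((A.toNonlinearRightInverse.nnnorm : ℝ)⁻¹ - c) * r := by
      refine mul_le_mul_of_nonneg_right ?_ hr.le
      have e1 : (A.toNonlinearRightInverse.nnnorm : ℝ) = N := rfl
      rw [e1]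
      have e2 : (c : ℝ) + c ≤ (N : ℝ)⁻¹ := by
        have e3 : (c : ℝ) = (2 * ((N : ℝ) + 1))⁻¹ := by rw [hc]; push_cast; ring
        rw [e3]
        have e4 : (2 * ((N : ℝ) + 1))⁻¹ + (2 * ((N : ℝ) + 1))⁻¹ = ((N : ℝ) + 1)⁻¹ := by
          field_simp
          norm_num
        rw [e4]
        exact inv_anti₀ hNpos (by linarith)
      linarith
    have h0 : (0 : E) ∈ closedBall (u z0) (((A.toNonlinearRightInverse.nnnorm : ℝ)⁻¹ - c) * r) := by
      rw [mem_closedBall, dist_comm, dist_zero_right]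
      exact hu.trans hle
    obtain ⟨z, hz, hz2⟩ := hs h0
    exact ⟨z, hz, hz2⟩

variable {n : ℕ} {M : Type u} [TopologicalSpace M] [ChartedSpace (Er n) M]
variable {ι : Type v}

/-- Unique continuation of a nondegenerate fixed point. -/
theorem D1_uc [IsManifold (𝓡 n) ∞ M] {l : Filter ι} {F : ι → M → M} {F0 : M → M}
    (hF : CV n l F F0) (sF : ∀ i, C1 n (F i)) {x : M} (hx : F0 x = x) (hnd : ND n F0 x) :
    ∃ B ∈ 𝓝 x, (∀ᶠ i in l, ∀ y ∈ B, ∀ y' ∈ B, F i y = y → F i y' = y' → y = y') ∧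
      ∀ V ∈ 𝓝 x, ∀ᶠ i in l, ∃ y ∈ V, F i y = y := by
  set φ := chartAt (Er n) x with hφ
  have hφ1 : φ ∈ atlas (Er n) M := chart_mem_atlas _ _
  have h2 : x ∈ φ.source := mem_chart_source _ _
  set D := dfix (n := n) F0 x with hD
  have hdet : (D - ContinuousLinearMap.id ℝ (Er n) : Er n →L[ℝ] Er n).det ≠ 0 := hnd
  set A := ContinuousLinearMap.toContinuousLinearEquivOfDetNeZero _ hdet with hA
  have hAc : (A : Er n →L[ℝ] Er n) = D - ContinuousLinearMap.id ℝ (Er n) :=
    ContinuousLinearMap.coe_toContinuousLinearEquivOfDetNeZero _ hdet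
  obtain ⟨c, hc0, hc⟩ := D1e_zero A
  have t1 := hF.tendD x φ φ hφ1 hφ1 h2 (by rw [hx]; exact h2)
  have e1 : ∀ᶠ p : ι × M in l ×ˢ 𝓝 x,
      (‖fderiv ℝ (φ ∘ F p.1 ∘ φ.symm) (φ p.2) - D‖ < c ∧ p.2 ∈ φ.source) ∧
        F p.1 p.2 ∈ φ.source := by
    refine Filter.Eventually.and (Filter.Eventually.and ?_ ?_) ?_
    · have := (Metric.tendsto_nhds.1 t1) c hc0
      filter_upwards [this] with p hp
      rwa [dist_eq_norm] at hp
    · exact tendsto_snd.eventually_mem (φ.open_source.mem_nhds h2)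
    · exact (hF.tend x).eventually_mem (φ.open_source.mem_nhds (by rw [hx]; exact h2))
  obtain ⟨S, hS, V0, hV0, hSV⟩ := Filter.mem_prod_iff.1 e1
  have h3 : φ.symm (φ x) = x := φ.left_inv h2
  have hW : ∀ V ∈ 𝓝 x, φ.target ∩ φ.symm ⁻¹' V ∈ 𝓝 (φ x) := fun V hV =>
    Filter.inter_mem (φ.open_target.mem_nhds (φ.map_source h2))
      ((φ.continuousAt_symm (φ.map_source h2)).preimage_mem_nhds (by rwa [h3]))
  obtain ⟨r0, hr0, hball⟩ := Metric.nhds_basis_closedBall.mem_iff.1 (hW V0 hV0)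
  -- the derivative of `u`
  have hu : ∀ i ∈ S, ∀ z ∈ closedBall (φ x) r0,
      DifferentiableAt ℝ (fun z => φ (F i (φ.symm z)) - z) z ∧
      ‖fderiv ℝ (fun z => φ (F i (φ.symm z)) - z) z - (A : Er n →L[ℝ] Er n)‖ ≤ c := by
    intro i hi z hz
    obtain ⟨hz1, hz2⟩ := hball hz
    obtain ⟨⟨q1, q2⟩, q3⟩ := hSV (Set.mk_mem_prod hi hz2)
    simp only at q1 q2 q3
    have hz3 : φ (φ.symm z) = z := φ.right_inv hz1
    rw [hz3] at q1
    have hd : DifferentiableAt ℝ (φ ∘ F i ∘ φ.symm) z := by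
      have := (D1_cda (sF i (φ.symm z)) hφ1 hφ1 q2 q3).differentiableAt (by norm_num)
      rwa [hz3] at this
    refine ⟨hd.sub differentiableAt_id, ?_⟩
    have : fderiv ℝ (fun z => φ (F i (φ.symm z)) - z) z =
        fderiv ℝ (φ ∘ F i ∘ φ.symm) z - ContinuousLinearMap.id ℝ (Er n) := by
      have h5 := fderiv_sub hd (differentiableAt_id (𝕜 := ℝ) (x := z))
      rw [fderiv_id] at h5
      exact h5
    rw [this, hAc, sub_sub_sub_cancel_right]
    exact q1.le
  refine ⟨φ.source ∩ φ ⁻¹' closedBall (φ x) r0, ?_, ?_, ?_⟩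
  · exact Filter.inter_mem (φ.open_source.mem_nhds h2)
      ((φ.continuousAt h2).preimage_mem_nhds (closedBall_mem_nhds _ hr0))
  · filter_upwards [hS] with i hi y hy y' hy' e2 e3
    have hinj := (hc (φ x) r0 hr0 _ (fun z hz => (hu i hi z hz).1)
      (fun z hz => (hu i hi z hz).2)).1
    have e4 := hinj hy.2 hy'.2 (by
      simp only [φ.left_inv hy.1, φ.left_inv hy'.1, e2, e3, sub_self])
    have e5 := congrArg φ.symm e4
    rwa [φ.left_inv hy.1, φ.left_inv hy'.1] at e5
  · intro V hV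
    obtain ⟨r1, hr1, hball1⟩ := Metric.nhds_basis_closedBall.mem_iff.1 (hW V hV)
    set r := min r0 r1 with hr
    have hrpos : 0 < r := lt_min hr0 hr1
    have t2 : Tendsto (fun i => F i x) l (𝓝 x) := by
      have := (hF.tend x).comp (tendsto_id.prodMk (tendsto_const_nhds (x := x)))
      rw [hx] at this
      exact this
    have t3 : Tendsto (fun i => φ (F i x) - φ x) l (𝓝 0) := by
      have := ((φ.continuousAt h2).tendsto.comp t2).sub_const (φ x)
      rwa [sub_self] at this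
    have e2 : ∀ᶠ i in l, ‖φ (F i x) - φ x‖ < c * r := by
      have := (Metric.tendsto_nhds.1 t3) (c * r) (by positivity)
      filter_upwards [this] with i hi
      rwa [dist_zero_right] at hi
    filter_upwards [hS, e2] with i hi hi2
    have hsub : closedBall (φ x) r ⊆ closedBall (φ x) r0 :=
      closedBall_subset_closedBall (min_le_left _ _)
    obtain ⟨z, hz, hz2⟩ := (hc (φ x) r hrpos _ (fun z hz => (hu i hi z (hsub hz)).1)
      (fun z hz => (hu i hi z (hsub hz)).2)).2 (by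
        simp only [h3]
        exact hi2.le)
    have hz3 := hball (hsub hz)
    have hz4 := hball1 (closedBall_subset_closedBall (min_le_right _ _) hz)
    refine ⟨φ.symm z, hz4.2, ?_⟩
    obtain ⟨⟨q1, q2⟩, q3⟩ := hSV (Set.mk_mem_prod hi hz3.2)
    simp only at q1 q2 q3
    have e5 : φ (F i (φ.symm z)) = z := sub_eq_zero.1 hz2
    have e6 := congrArg φ.symm e5
    rwa [φ.left_inv q3] at e6

end

end FB
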