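import Pool.Agent.H.MP_fb873c_an.S0

/-!
# Part D (dynamics): definitions shared by D1 and D2
-/

namespace FB

open scoped Topology ContDiff Manifold

universe u

section

variable {n : ℕ} {M : Type u} [TopologicalSpace M] [ChartedSpace (Er n) M]

/-- `x` is a nondegenerate fixed point of `F` (the condition in `GoodAt`). -/
def Ndg (F : M → M) (x : M) : Prop :=
  LinearMap.det ((dfix F x - ContinuousLinearMap.id ℝ (Er n) : Er n →L[ℝ] Er n)).toLinearMap ≠ 0

/-- The family `F` of maps `M → M` with parameters in the normed space `P` is jointly smooth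
at `(0, x)`. -/
def SmF (n : ℕ) {M : Type u} [TopologicalSpace M] [ChartedSpace (Er n) M]
    {P : Type} [NormedAddCommGroup P] [NormedSpace ℝ P] (F : P → M → M) (x : M) : Prop :=
  ContMDiffAt (𝓘(ℝ, P).prod (𝓡 n)) (𝓡 n) ∞ (fun q : P × M => F q.1 q.2) (0, x)

/-- All fixed points of `g^k` in `L` are nondegenerate, and `g^k` has a nondegenerate fixed point. -/
def St (k : ℕ) (L : Set M) (g : Dif n M) : Prop :=
  (∀ x ∈ L, (g : M → M)^[k] x = x → Ndg (n := n) ((g : M → M)^[k]) x) ∧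
    ∃ p, (g : M → M)^[k] p = p ∧ Ndg (n := n) ((g : M → M)^[k]) p

theorem GoodAt.iff_ndg (g : Dif n M) (k : ℕ) (R : Set ℂ) : GoodAt g k R ↔
    (∀ x, (g : M → M)^[k] x = x → Ndg (n := n) ((g : M → M)^[k]) x) ∧
    ∀ c : M → ℂ, (∀ x, (g : M → M)^[k] x = x →
        c x ∈ Fac (dfix (n := n) ((g : M → M)^[k]) x).toLinearMap ∧ c (g x) = c x) →
      (∑ᶠ x ∈ {x | (g : M → M)^[k] x = x}, (c x)⁻¹) ∉ R := Iff.rfl

end

end FB
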