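import Pool.Agent.H.MP_fb873c_an.D1b
import Pool.Agent.H.MP_fb873c_an.D1c
import Pool.Agent.H.MP_fb873c_an.D1d
import Pool.Agent.H.MP_fb873c_an.D1e
import Pool.Agent.H.MP_fb873c_an.DA

/-!
# Part D4a: nondegeneracy of the fixed points of a power is an open condition
-/

namespace FB

open scoped Topology ContDiff Manifold
open Filter

universe u

section

variable {n : ℕ} {M : Type u} [TopologicalSpace M] [ChartedSpace (Er n) M]

/-- All fixed points of `g^k` in `L` are nondegenerate. -/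
def NdL (k : ℕ) (L : Set M) (g : Dif n M) : Prop :=
  ∀ x ∈ L, (g : M → M)^[k] x = x → Ndg (n := n) ((g : M → M)^[k]) x

end

section

variable {n : ℕ} {M : Type u} [TopologicalSpace M] [ChartedSpace (Er n) M]
  [IsManifold (𝓡 n) ∞ M] [CompactSpace M] [T2Space M]

omit [IsManifold (𝓡 n) ∞ M] [CompactSpace M] [T2Space M] in
/-- `crTop n M ⊤` is finer than `crTop n M 1` (see `crTop_mono` in D0, same proof). -/
theorem D4_top {O : Set (Dif n M)} (hO : IsOpen[crTop n M 1] O) : IsOpen[crTop n M ⊤] O := by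
  refine le_generateFrom ?_ O hO
  rintro _ ⟨k, f, φ, ψ, K, ε, hk, h1, h2, h3, h4, h5, h6, rfl⟩
  exact TopologicalSpace.isOpen_generateFrom_of_mem
    ⟨k, f, φ, ψ, K, ε, le_top, h1, h2, h3, h4, h5, h6, rfl⟩

omit [IsManifold (𝓡 n) ∞ M] [CompactSpace M] [T2Space M] in
/-- Iterates of diffeomorphisms are `C¹`. -/
theorem D4a_c1 (k : ℕ) (g' : Dif n M) : C1 n ((g' : M → M)^[k]) :=
  C1.iterate (g'.contMDiff_toFun.of_le (by norm_cast)) k

/-- Convergence in the `C¹` topology gives `C¹`-convergence of the `k`-th iterates. -/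
theorem D4a_cv (k : ℕ) {l : Filter (Dif n M)} {g : Dif n M} (hl : l ≤ @nhds _ (crTop n M 1) g) :
    (∀ g' : Dif n M, C1 n (g' : M → M)) ∧
    CV n l (fun g' : Dif n M => (g' : M → M)^[k]) ((g : M → M)^[k]) ∧
    ∀ g' : Dif n M, C1 n ((g' : M → M)^[k]) := by
  have hcv : CV n l (fun g' : Dif n M => (g' : M → M)) g := CV.of_crTop hl
  have sG : ∀ g' : Dif n M, C1 n (g' : M → M) := fun g' => g'.contMDiff_toFun.of_le (by norm_cast)
  exact ⟨sG, hcv.iterate sG (sG g) k, D4a_c1 k⟩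

/-- By `isOpen_iff_ultrafilter`, `CV.of_crTop`, `CV.iterate` and `D1_nd` exactly as in the beginning of the
proof of `goodAt_open_aux` (file D1g); `Ndg` and `ND n` are the same by `Iff.rfl`. -/
theorem isOpen_ndl1 (k : ℕ) {L : Set M} (hL : IsCompact L) :
    IsOpen[crTop n M 1] {g : Dif n M | NdL k L g} := by
  let _ := crTop n M 1
  rw [isOpen_iff_ultrafilter]
  intro g hg l hl
  obtain ⟨sG, hF, sF⟩ := D4a_cv (n := n) k hl
  have h0 : ∀ x ∈ L, (g : M → M)^[k] x = x → ND n ((g : M → M)^[k]) x := hg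
  filter_upwards [D1_nd hF sF (sF g) hL h0] with g' h
  exact h

/-- Let `g^k p = p` be nondegenerate, `l` an ultrafilter converging to `g`, `CV` as in `isOpen_ndl1`.  By `D1_uc`
for the constant family (`CV.const`, the filter `pure ()`, see `D1_fin` in D1f) there is a neighbourhood `B` of `p` in
which `p` is the only fixed point of `g^k`; let `K ⊆ B` be a compact neighbourhood of `p` (`M` is locally
compact, `compact_basis_nhds`).  By `D1_nd` for `K`, for almost all `g'` all fixed points of `g'^k` in `K` are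
nondegenerate, and by `D1_uc` (last clause, `V = K`) there is one. -/
theorem isOpen_exNdg1 (k : ℕ) : IsOpen[crTop n M 1]
    {g : Dif n M | ∃ p, (g : M → M)^[k] p = p ∧ Ndg (n := n) ((g : M → M)^[k]) p} := by
  let _ := crTop n M 1
  rw [isOpen_iff_ultrafilter]
  rintro g ⟨p, hp, hnd⟩ l hl
  obtain ⟨sG, hF, sF⟩ := D4a_cv (n := n) k hl
  have hnd' : ND n ((g : M → M)^[k]) p := hnd
  have hcv : CV n (pure ()) (fun _ : Unit => (g : M → M)^[k]) ((g : M → M)^[k]) :=
    CV.const _ (sF g)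
  obtain ⟨B, hB, h1, -⟩ := D1_uc hcv (fun _ => sF g) hp hnd'
  have h2 := Filter.eventually_pure.1 h1
  obtain ⟨K, ⟨hK, hKc⟩, hKB⟩ := (compact_basis_nhds p).mem_iff.1 hB
  have h0 : ∀ x ∈ K, (g : M → M)^[k] x = x → ND n ((g : M → M)^[k]) x := by
    intro x hx hgx
    have hxp : x = p := h2 x (hKB hx) p (mem_of_mem_nhds hB) hgx hp
    rw [hxp]
    exact hnd'
  obtain ⟨-, -, -, h3⟩ := D1_uc hF sF hp hnd'
  filter_upwards [D1_nd hF sF (sF g) hKc h0, h3 K hK] with g' q1 q2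
  obtain ⟨y, hy, hy2⟩ := q2
  exact ⟨y, hy2, q1 y hy hy2⟩

theorem isOpen_ndl (k : ℕ) {L : Set M} (hL : IsCompact L) :
    IsOpen[crTop n M ⊤] {g : Dif n M | NdL k L g} := D4_top (isOpen_ndl1 k hL)

theorem isOpen_exNdg (k : ℕ) : IsOpen[crTop n M ⊤]
    {g : Dif n M | ∃ p, (g : M → M)^[k] p = p ∧ Ndg (n := n) ((g : M → M)^[k]) p} :=
  D4_top (isOpen_exNdg1 k)

/-- Finite intersection of `isOpen_ndl`. -/
theorem isOpen_ks (N : ℕ) : IsOpen[crTop n M ⊤]
    {g : Dif n M | ∀ k, 0 < k → k ≤ N → NdL k Set.univ g} := by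
  have h1 : {g : Dif n M | ∀ k, 0 < k → k ≤ N → NdL k Set.univ g} =
      ⋂ k ∈ Finset.Ioc 0 N, {g : Dif n M | NdL k Set.univ g} := by
    ext g
    simp only [Set.mem_setOf_eq, Set.mem_iInter, Finset.mem_Ioc]
    exact ⟨fun h k hk => h k hk.1 hk.2, fun h k h1 h2 => h k ⟨h1, h2⟩⟩
  rw [h1]
  letI T := crTop n M ⊤
  exact isOpen_biInter_finset fun k _ => isOpen_ndl k isCompact_univ

end

end FB
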