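import Pool.Agent.H.MP_fb873c_an.D2j
import Pool.Agent.H.MP_fb873c_an.D2m1
import Pool.Agent.H.MP_fb873c_an.D4a

/-!
# Part D4d: the perturbation of the derivative at one periodic orbit, all periods up to `N`
-/

namespace FB

open scoped Topology ContDiff Manifold
open Filter

universe u

section

variable {n : ℕ} {M : Type u} [TopologicalSpace M] [ChartedSpace (Er n) M]
  [IsManifold (𝓡 n) ∞ M] [CompactSpace M] [T2Space M]

omit [IsManifold (𝓡 n) ∞ M] [CompactSpace M] in
/-- If `H = g` outside of the closed set `S`, and the first `j` points of the orbit of `x` are not in `S`, then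
`H^j = g^j` near `x`; so the derivatives at `x` are the same (last part of the proof of `exists_shift`,
file D2m2). -/
theorem dfix_congr_off {g h : Dif n M} {S : Set M} (hS : IsCompact S)
    (hHS : ∀ x ∉ S, h x = g x) (j : ℕ) {x : M} (hx : ∀ i < j, (g : M → M)^[i] x ∉ S) :
    dfix (n := n) ((h : M → M)^[j]) x = dfix ((g : M → M)^[j]) x := by
  have h6 : ∀ᶠ y in 𝓝 x, ∀ i ∈ Finset.range j, (g : M → M)^[i] y ∉ S := by
    rw [Filter.eventually_all_finset]
    intro i hi
    have hcj : Continuous ((g : M → M)^[i]) := g.continuous.iterate i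
    exact (hcj.isOpen_preimage _ hS.isClosed.isOpen_compl).mem_nhds
      (hx i (Finset.mem_range.1 hi))
  have h7 : (h : M → M)^[j] =ᶠ[𝓝 x] (g : M → M)^[j] := by
    filter_upwards [h6] with y hy
    have : ∀ i ≤ j, (h : M → M)^[i] y = (g : M → M)^[i] y := by
      intro i
      induction i with
      | zero => intro _; rfl
      | succ i ih =>
        intro hi
        rw [Function.iterate_succ_apply', Function.iterate_succ_apply', ih (by omega)]
        exact hHS _ (hy i (Finset.mem_range.2 (by omega)))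
    exact this j le_rfl
  unfold dfix
  apply Filter.EventuallyEq.fderiv_eq
  have h8 : ContinuousAt (chartAt (Er n) x).symm (chartAt (Er n) x x) :=
    (chartAt (Er n) x).continuousAt_symm ((chartAt (Er n) x).map_source (mem_chart_source (Er n) x))
  have h9 : (chartAt (Er n) x).symm (chartAt (Er n) x x) = x :=
    (chartAt (Er n) x).left_inv (mem_chart_source (Er n) x)
  have h10 : Filter.Tendsto (chartAt (Er n) x).symm (𝓝 (chartAt (Er n) x x)) (𝓝 x) := by
    have := h8.tendsto
    rwa [h9] at this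
  filter_upwards [h10.eventually h7] with z hz
  simp only [Function.comp_apply]
  rw [hz]

/-- The points of period `≤ N` form a finite set (`finite_fix`, finite union). -/
theorem finite_per {N : ℕ} {g : Dif n M} (hnd : ∀ k, 0 < k → k ≤ N → NdL k Set.univ g) :
    {x | ∃ k, 0 < k ∧ k ≤ N ∧ (g : M → M)^[k] x = x}.Finite := by
  have h1 : {x | ∃ k, 0 < k ∧ k ≤ N ∧ (g : M → M)^[k] x = x} ⊆
      ⋃ k ∈ (Finset.Ioc 0 N : Set ℕ), {x | (g : M → M)^[k] x = x} := by
    rintro x ⟨k, h1, h2, h3⟩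
    refine Set.mem_iUnion₂.2 ⟨k, ?_, h3⟩
    rw [Finset.mem_coe, Finset.mem_Ioc]
    exact ⟨h1, h2⟩
  refine (Set.Finite.biUnion (Finset.finite_toSet _) fun k hk => ?_).subset h1
  rw [Finset.mem_coe, Finset.mem_Ioc] at hk
  exact finite_fix (n := n) fun x hx => hnd k hk.1 hk.2 x (Set.mem_univ x) hx

/-- One `k`. -/
theorem D4d_one {k : ℕ} {g : Dif n M} (hnd : NdL k Set.univ g)
    {H : ℝ → Dif n M} (hH : ∀ x, SmF n (fun s => (H s : M → M)) x) (h0 : ∀ x, H 0 x = g x)
    (hev : ∀ᶠ s in 𝓝 (0 : ℝ), ∀ x, (g : M → M)^[k] x = x → H s x = g x) :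
    ∀ᶠ s in 𝓝 (0 : ℝ), NdL k Set.univ (H s) ∧
      ∀ x, (H s : M → M)^[k] x = x ↔ (g : M → M)^[k] x = x := by
  have hgF : ∀ j : ℕ, ∀ x, (g : M → M)^[k] x = x → (g : M → M)^[k] ((g : M → M)^[j] x)
      = (g : M → M)^[j] x := by
    intro j x hx
    rw [← Function.iterate_add_apply, add_comm, Function.iterate_add_apply, hx]
  have key2 : ∀ s, (∀ x, (g : M → M)^[k] x = x → H s x = g x) →
      ∀ x, (g : M → M)^[k] x = x → ∀ i : ℕ,
      (H s : M → M)^[i] x = (g : M → M)^[i] x := by
    intro s hs x hx i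
    induction i with
    | zero => rfl
    | succ i ih =>
      rw [Function.iterate_succ_apply', Function.iterate_succ_apply', ih]
      exact hs _ (hgF i x hx)
  have h00 : (H 0 : M → M) = g := funext h0
  have hSk : ∀ x, SmF n (fun s => (H s : M → M)^[k]) x := fun x => smF_iterate hH k x
  have evA : ∀ᶠ s in 𝓝 (0 : ℝ), ∀ x ∈ (Set.univ : Set M), (H s : M → M)^[k] x = x →
      Ndg (n := n) ((H s : M → M)^[k]) x := by
    refine ndg_persists (F := fun s => (H s : M → M)^[k]) (fun s => contMDiff_iterate (H s) k)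
      isCompact_univ hSk ?_
    intro x _ hx
    simp only [h00] at hx ⊢
    exact hnd x (Set.mem_univ x) hx
  have evB : ∀ᶠ s in 𝓝 (0 : ℝ), ∀ x ∈ (Set.univ : Set M), (H s : M → M)^[k] x = x →
      (g : M → M)^[k] x = x := by
    refine IsCompact.eventually_forall_of_forall_eventually isCompact_univ ?_
    intro x _
    by_cases hx : (g : M → M)^[k] x = x
    · have h1 : ∀ᶠ s in 𝓝 (0 : ℝ), (H s : M → M)^[k] x = x := by
        filter_upwards [hev] with s hs
        rw [key2 s hs x hx k, hx]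
      have h2 : Ndg (n := n) ((H 0 : M → M)^[k]) x := by
        rw [h00]
        exact hnd x (Set.mem_univ x) hx
      have h3 := fix_unique (F := fun s => (H s : M → M)^[k]) (hSk x) h1 h2
      filter_upwards [h3] with q hq hqq
      rw [hq hqq]
      exact hx
    · have hc : ContinuousAt (fun q : ℝ × M => (H q.1 : M → M)^[k] q.2) (0, x) :=
        (hSk x).continuousAt
      have hc2 : ContinuousAt (fun q : ℝ × M => q.2) (0, x) := continuousAt_snd
      have hne : (H (0, x).1 : M → M)^[k] (0, x).2 ≠ ((0 : ℝ), x).2 := by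
        simp only [h00]
        exact hx
      have h3 := (hc.ne_iff_eventually_ne hc2).1 hne
      filter_upwards [h3] with q hq hqq
      exact absurd hqq hq
  filter_upwards [hev, evA, evB] with s hs hA' hB'
  refine ⟨hA', fun x => ⟨hB' x (Set.mem_univ x), fun hx => ?_⟩⟩
  rw [key2 s hs x hx k, hx]

/-- Let the fixed points of `g^k`, `0 < k ≤ N`, be nondegenerate and let `Hs` be a smooth family with `H 0 = g` and,
for small `s`, `H s x = g x` at all points `x` of period `≤ N` of `g`.  Then for small `s` and all `0 < k ≤ N` the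
fixed points of `(H s)^k` are nondegenerate and are the fixed points of `g^k`.
For one `k` this is contained in the proof of `exists_shift` (file D2m2): `key2`, `evA` (`ndg_persists`), `evB`
(`fix_unique`); finitely many `k` (`Filter.eventually_all_finset` over `Finset.Ioc 0 N`). -/
theorem fix_family {N : ℕ} {g : Dif n M} (hnd : ∀ k, 0 < k → k ≤ N → NdL k Set.univ g)
    {H : ℝ → Dif n M} (hH : ∀ x, SmF n (fun s => (H s : M → M)) x) (h0 : ∀ x, H 0 x = g x)
    (hev : ∀ᶠ s in 𝓝 (0 : ℝ), ∀ k, 0 < k → k ≤ N → ∀ x, (g : M → M)^[k] x = x → H s x = g x) :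
    ∀ᶠ s in 𝓝 (0 : ℝ), (∀ k, 0 < k → k ≤ N → NdL k Set.univ (H s)) ∧
      ∀ k, 0 < k → k ≤ N → ∀ x, (H s : M → M)^[k] x = x ↔ (g : M → M)^[k] x = x := by
  have h1 : ∀ᶠ s in 𝓝 (0 : ℝ), ∀ k ∈ Finset.Ioc 0 N, NdL k Set.univ (H s) ∧
      ∀ x, (H s : M → M)^[k] x = x ↔ (g : M → M)^[k] x = x := by
    rw [Filter.eventually_all_finset]
    intro k hk
    rw [Finset.mem_Ioc] at hk
    exact D4d_one (hnd k hk.1 hk.2) hH h0 (hev.mono fun s hs => hs k hk.1 hk.2)
  filter_upwards [h1] with s hs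
  exact ⟨fun k h1 h2 => (hs k (Finset.mem_Ioc.2 ⟨h1, h2⟩)).1,
    fun k h1 h2 => (hs k (Finset.mem_Ioc.2 ⟨h1, h2⟩)).2⟩

omit [IsManifold (𝓡 n) ∞ M] [CompactSpace M] [T2Space M] in
/-- If `h = g` at all points of period `≤ N` of `g`, then `h^j x = g^j x` at these points. -/
theorem iterate_eq_of_per {N : ℕ} {g h : Dif n M}
    (hev : ∀ k, 0 < k → k ≤ N → ∀ x, (g : M → M)^[k] x = x → h x = g x)
    {k : ℕ} (hk : 0 < k) (hkN : k ≤ N) {x : M} (hx : (g : M → M)^[k] x = x) (j : ℕ) :
    (h : M → M)^[j] x = (g : M → M)^[j] x := by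
  induction j with
  | zero => rfl
  | succ j ih =>
    rw [Function.iterate_succ_apply', Function.iterate_succ_apply', ih]
    refine hev k hk hkN _ ?_
    rw [← Function.iterate_add_apply, add_comm, Function.iterate_add_apply, hx]

/-- LEMMA Q.  `V` = complement of the finite set of points `≠ p` of period `≤ N` (`finite_per`); `exists_pert` with
`φ = chartAt p` gives `H` and the compact `S ⊆ V`; for small `s`: `H s = g` at the points of period `≤ N`
(`key1` in the proof of `exists_shift`), then `fix_family`.  Last clause: if `g^j x = x` and `x` (of period `≤ N`) is not in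
the orbit of `p` then no `g^i x` is in `S` (`S ∩ F' ⊆ {p}`, and `g^i x = p` implies that `x` is in the orbit of
`p`), `dfix_congr_off`. -/
theorem pert_orbit {N : ℕ} {g : Dif n M} (hnd : ∀ k, 0 < k → k ≤ N → NdL k Set.univ g)
    {d : ℕ} (hd : 0 < d) (hdN : d ≤ N) {p : M} (hp : (g : M → M)^[d] p = p)
    (hmin : ∀ i, 0 < i → i < d → (g : M → M)^[i] p ≠ p) (Bl : Er n →L[ℝ] Er n) :
    ∃ H : ℝ → Dif n M, (∀ x, SmF n (fun s => (H s : M → M)) x) ∧ (∀ x, H 0 x = g x) ∧
      ∀ᶠ s in 𝓝 (0 : ℝ),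
        (∀ k, 0 < k → k ≤ N → NdL k Set.univ (H s)) ∧
        (∀ k, 0 < k → k ≤ N → ∀ x, (H s : M → M)^[k] x = x ↔ (g : M → M)^[k] x = x) ∧
        (∀ k, 0 < k → k ≤ N → ∀ x, (g : M → M)^[k] x = x → H s x = g x) ∧
        dfix (n := n) ((H s : M → M)^[d]) p = (dfix (n := n) ((g : M → M)^[d]) p) ∘L
          (ContinuousLinearMap.id ℝ (Er n) + s • Bl) ∧
        ∀ k, 0 < k → k ≤ N → ∀ x, (g : M → M)^[k] x = x → (∀ i, (g : M → M)^[i] p ≠ x) →
          ∀ j, (g : M → M)^[j] x = x →
            dfix (n := n) ((H s : M → M)^[j]) x = dfix ((g : M → M)^[j]) x := by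
  have hfin := finite_per hnd
  have hV : ({x | ∃ k, 0 < k ∧ k ≤ N ∧ (g : M → M)^[k] x = x} \ {p})ᶜ ∈ 𝓝 p :=
    (hfin.subset Set.diff_subset).isClosed.isOpen_compl.mem_nhds (by simp)
  obtain ⟨H, hH1, hH2, S, hS, hSV, hHS, hev⟩ := exists_pert hd g hp hmin
    (chart_mem_atlas (Er n) p) (mem_chart_source (Er n) p) hV Bl
  refine ⟨H, hH1, hH2, ?_⟩
  have hSp : ∀ k, 0 < k → k ≤ N → ∀ x, (g : M → M)^[k] x = x → x ∈ S → x = p := by
    intro k h1 h2 x hx hxS
    by_contra hne
    exact hSV hxS ⟨⟨k, h1, h2, hx⟩, hne⟩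
  have key1 : ∀ s, H s p = g p → ∀ k, 0 < k → k ≤ N → ∀ x, (g : M → M)^[k] x = x →
      H s x = g x := by
    intro s hs k h1 h2 x hx
    by_cases hxS : x ∈ S
    · rw [hSp k h1 h2 x hx hxS, hs]
    · exact hHS s x hxS
  have hfam := fix_family hnd hH1 hH2 (hev.mono fun s hs => key1 s hs.1)
  filter_upwards [hev, hfam] with s hs hf
  refine ⟨hf.1, hf.2, key1 s hs.1, hs.2, ?_⟩
  intro k hk hkN x hx hxp j _
  have hgx : ∀ i, (g : M → M)^[k] ((g : M → M)^[i] x) = (g : M → M)^[i] x := by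
    intro i
    rw [← Function.iterate_add_apply, add_comm, Function.iterate_add_apply, hx]
  refine dfix_congr_off hS (hHS s) j ?_
  intro i _ hiS
  have h6 := hSp k hk hkN _ (hgx i) hiS
  -- `g^i x = p`; then `x` is in the orbit of `p`
  obtain ⟨q, hq⟩ : ∃ q, i ≤ k * q := ⟨i, Nat.le_mul_of_pos_left i hk⟩
  have hper : Function.IsPeriodicPt (g : M → M) (k * q) x := by
    have h7 : Function.IsPeriodicPt (g : M → M) k x := hx
    exact h7.mul_const q
  apply hxp (k * q - i)
  rw [← h6, ← Function.iterate_add_apply, Nat.sub_add_cancel hq]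
  exact hper

end

end FB
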