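import Pool.Agent.H.MP_fb873c_an.S0

/-!
# Part D: linear algebra of the set `Fac A`
-/

namespace FB

open scoped Topology ContDiff Manifold

section

variable {E : Type*} [AddCommGroup E] [Module ℝ E] [Module.Finite ℝ E] [Module.Free ℝ E]
variable {E' : Type*} [AddCommGroup E'] [Module ℝ E'] [Module.Finite ℝ E'] [Module.Free ℝ E']

/-- `p * conj p = charpoly A` with `p` monic: `p` divides the nonzero polynomial `charpoly A` over the
field `ℂ`, `p` splits, so `p` is determined by the multiset `p.roots ≤ (charpoly A).roots`; there are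
finitely many such multisets. -/
theorem Fac_finite (A : E →ₗ[ℝ] E) : (Fac A).Finite := by
  classical
  have hf0 : (LinearMap.charpoly A).map (algebraMap ℝ ℂ) ≠ 0 :=
    ((LinearMap.charpoly_monic A).map (algebraMap ℝ ℂ)).ne_zero
  have h1 : {s : Multiset ℂ | s ≤ ((LinearMap.charpoly A).map (algebraMap ℝ ℂ)).roots}.Finite := by
    refine ((Multiset.powerset ((LinearMap.charpoly A).map
      (algebraMap ℝ ℂ)).roots).toFinset.finite_toSet).subset ?_
    intro s hs
    simpa using hs
  refine (h1.image fun s => ((s.map fun a => Polynomial.X - Polynomial.C a).prod).eval 1).subset ?_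
  rintro c ⟨p, hp, hpc, rfl⟩
  refine ⟨p.roots, Polynomial.roots.le_of_dvd hf0 ⟨_, hpc.symm⟩, ?_⟩
  show ((p.roots.map fun a => Polynomial.X - Polynomial.C a).prod).eval 1 = p.eval 1
  rw [← (IsAlgClosed.splits p).eq_prod_roots_of_monic hp]

/-- Evaluate `p * conj p = charpoly A` at `1` : `c * conj c = det (1 - A)`, as
`charpoly A (1) = det (1 - A)`. -/
theorem Fac_mul_conj {A : E →ₗ[ℝ] E} {c : ℂ} (hc : c ∈ Fac A) :
    c * (starRingEnd ℂ) c = ((LinearMap.det (1 - A) : ℝ) : ℂ) := by
  obtain ⟨p, hp, hpc, rfl⟩ := hc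
  have h1 := congrArg (Polynomial.eval 1) hpc
  rw [Polynomial.eval_mul, Polynomial.eval_map, Polynomial.eval₂_at_one, Polynomial.eval_map,
    Polynomial.eval₂_at_one, LinearMap.eval_charpoly, map_one] at h1
  exact h1

/-- From `Fac_mul_conj`; `det (A - 1) = ± det (1 - A)`. -/
theorem Fac_ne_zero {A : E →ₗ[ℝ] E} {c : ℂ} (hc : c ∈ Fac A) (h : LinearMap.det (A - 1) ≠ 0) :
    c ≠ 0 := by
  rintro rfl
  have h1 := Fac_mul_conj hc
  rw [zero_mul] at h1
  have h2 : LinearMap.det (1 - A) = 0 := by exact_mod_cast h1.symm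
  apply h
  have h3 : A - 1 = (-1 : ℝ) • (1 - A) := by
    rw [neg_smul, one_smul, neg_sub]
  rw [h3, LinearMap.det_smul, h2, mul_zero]

/-- The characteristic polynomial is invariant (`LinearEquiv.charpoly_conj`). -/
theorem Fac_conj (e : E ≃ₗ[ℝ] E') (A : E →ₗ[ℝ] E) : Fac (e.conj A) = Fac A := by
  unfold Fac
  rw [LinearEquiv.charpoly_conj]

/-- The degree of `p * conj p` is twice the degree of `p`; the degree of `charpoly A` is
`finrank ℝ E`. -/
theorem Fac_even {A : E →ₗ[ℝ] E} {c : ℂ} (hc : c ∈ Fac A) : Even (Module.finrank ℝ E) := by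
  obtain ⟨p, hp, hpc, rfl⟩ := hc
  have h1 := congrArg Polynomial.natDegree hpc
  rw [hp.natDegree_mul (hp.map _), hp.natDegree_map, (LinearMap.charpoly_monic A).natDegree_map,
    LinearMap.charpoly_natDegree] at h1
  exact ⟨_, h1.symm⟩

end

end FB
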