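import Pool.Agent.H.MP_fb873c_an.DA
import Pool.Agent.H.MP_fb873c_an.DF1

/-!
# Part D: the derivative along an orbit
-/

namespace FB

open scoped Topology ContDiff Manifold

universe u

section

variable {n : ℕ} {M : Type u} [TopologicalSpace M] [ChartedSpace (Er n) M]
  [IsManifold (𝓡 n) ∞ M]

/-- the manifold derivative, as an endomorphism of the model space -/
noncomputable def DCb_D (F : M → M) (x : M) : Er n →L[ℝ] Er n :=
  mfderiv (𝓡 n) (𝓡 n) F x

omit [IsManifold (𝓡 n) ∞ M] in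
theorem DCb_dfix {F : M → M} {x : M} (hx : F x = x)
    (hF : MDifferentiableAt (𝓡 n) (𝓡 n) F x) : dfix F x = DCb_D (n := n) F x := by
  unfold DCb_D
  rw [hF.mfderiv]
  unfold dfix
  have h1 : Set.range (𝓡 n) = Set.univ := ModelWithCorners.range_eq_univ _
  rw [h1, fderivWithin_univ]
  unfold writtenInExtChartAt
  rw [hx]
  simp only [extChartAt, mfld_simps]

omit [IsManifold (𝓡 n) ∞ M] in
theorem DCb_smooth (g : Dif n M) (k : ℕ) (x : M) :
    MDifferentiableAt (𝓡 n) (𝓡 n) ((g : M → M)^[k]) x :=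
  ((g.contMDiff.iterate k).mdifferentiable (by simp)) x

omit [IsManifold (𝓡 n) ∞ M] in
theorem DCb_comp {F G : M → M} {x y : M} (hy : F x = y)
    (hG : MDifferentiableAt (𝓡 n) (𝓡 n) G y) (hF : MDifferentiableAt (𝓡 n) (𝓡 n) F x) :
    DCb_D (n := n) (G ∘ F) x = (DCb_D (n := n) G y) ∘L (DCb_D (n := n) F x) := by
  subst hy
  exact mfderiv_comp x hG hF

/-- `g^k ∘ g = g ∘ g^k`; in the charts at `x` and `g x`, chain rule; `T` is the derivative of `g` at `x`
in these charts (invertible since `g` is a diffeomorphism). -/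
theorem dfix_orbit (g : Dif n M) (k : ℕ) {x : M} (hx : (g : M → M)^[k] x = x) :
    ∃ T : Er n ≃L[ℝ] Er n, dfix (n := n) ((g : M → M)^[k]) (g x) =
      (T : Er n →L[ℝ] Er n) ∘L dfix ((g : M → M)^[k]) x ∘L (T.symm : Er n →L[ℝ] Er n) := by
  have hgx : MDifferentiableAt (𝓡 n) (𝓡 n) (g : M → M) x :=
    (g.contMDiff.mdifferentiable (by simp)) x
  have hgk : (g : M → M)^[k] (g x) = g x := by
    rw [← Function.iterate_succ_apply, Function.iterate_succ_apply', hx]
  obtain ⟨T, hT⟩ : ∃ T : Er n ≃L[ℝ] Er n, (T : Er n →L[ℝ] Er n) = DCb_D (n := n) g x :=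
    ⟨g.mfderivToContinuousLinearEquiv (by simp) x, g.mfderivToContinuousLinearEquiv_coe (by simp)⟩
  refine ⟨T, ?_⟩
  rw [DCb_dfix hgk (DCb_smooth g k _), DCb_dfix hx (DCb_smooth g k _)]
  have h1 := DCb_comp (n := n) (F := (g : M → M)) (G := (g : M → M)^[k]) (x := x) rfl
    (DCb_smooth g k _) hgx
  have h2 := DCb_comp (n := n) (F := (g : M → M)^[k]) (G := (g : M → M)) hx hgx
    (DCb_smooth g k _)
  have h3 : (g : M → M)^[k] ∘ (g : M → M) = (g : M → M) ∘ (g : M → M)^[k] := by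
    rw [← Function.iterate_succ, ← Function.iterate_succ']
  rw [h3, h2, ← hT] at h1
  ext1 v
  have h4 := congrArg (fun A : Er n →L[ℝ] Er n => A (T.symm v)) h1
  simp only [ContinuousLinearMap.comp_apply, ContinuousLinearEquiv.coe_coe,
    ContinuousLinearEquiv.apply_symm_apply] at h4
  exact h4.symm

/-- From `dfix_orbit`. -/
theorem fac_orbit (g : Dif n M) (k : ℕ) {x : M} (hx : (g : M → M)^[k] x = x) :
    Fac (dfix (n := n) ((g : M → M)^[k]) (g x)).toLinearMap =
      Fac (dfix (n := n) ((g : M → M)^[k]) x).toLinearMap := by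
  obtain ⟨T, hT⟩ := dfix_orbit g k hx
  rw [hT]
  exact Fac_conj T.toLinearEquiv (dfix (n := n) ((g : M → M)^[k]) x).toLinearMap

/-- From `dfix_orbit`. -/
theorem ndg_orbit (g : Dif n M) (k : ℕ) {x : M} (hx : (g : M → M)^[k] x = x) :
    Ndg (n := n) ((g : M → M)^[k]) (g x) ↔ Ndg (n := n) ((g : M → M)^[k]) x := by
  obtain ⟨T, hT⟩ := dfix_orbit g k hx
  unfold Ndg
  rw [hT, ← LinearMap.det_conj ((dfix ((g : M → M)^[k]) x - ContinuousLinearMap.id ℝ (Er n) :
    Er n →L[ℝ] Er n)).toLinearMap T.toLinearEquiv]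
  have h1 : (((T : Er n →L[ℝ] Er n) ∘L dfix ((g : M → M)^[k]) x ∘L
      (T.symm : Er n →L[ℝ] Er n)) - ContinuousLinearMap.id ℝ (Er n) :
        Er n →L[ℝ] Er n).toLinearMap =
      (T.toLinearEquiv : Er n →ₗ[ℝ] Er n) ∘ₗ ((dfix ((g : M → M)^[k]) x -
        ContinuousLinearMap.id ℝ (Er n) : Er n →L[ℝ] Er n)).toLinearMap ∘ₗ
          (T.toLinearEquiv.symm : Er n →ₗ[ℝ] Er n) := by
    ext1 v
    change T (dfix ((g : M → M)^[k]) x (T.symm v)) - v =
      T (dfix ((g : M → M)^[k]) x (T.symm v) - T.symm v)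
    rw [map_sub, ContinuousLinearEquiv.apply_symm_apply]
  rw [h1]

/-- The derivative of the diffeomorphism `g^k` at a fixed point is invertible: chain rule for `g^k` and its
inverse. -/
theorem dfix_equiv (g : Dif n M) (k : ℕ) {x : M} (hx : (g : M → M)^[k] x = x) :
    ∃ A : Er n ≃L[ℝ] Er n, (A : Er n →L[ℝ] Er n) = dfix (n := n) ((g : M → M)^[k]) x := by
  have hli : Function.LeftInverse ((g.symm : M → M)^[k]) ((g : M → M)^[k]) :=
    Function.LeftInverse.iterate (fun y => g.symm_apply_apply y) k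
  have hri : Function.LeftInverse ((g : M → M)^[k]) ((g.symm : M → M)^[k]) :=
    Function.LeftInverse.iterate (fun y => g.apply_symm_apply y) k
  have hx' : (g.symm : M → M)^[k] x = x := by
    conv_lhs => rw [← hx]
    exact hli x
  have h1 := DCb_comp (n := n) (F := (g : M → M)^[k]) (G := (g.symm : M → M)^[k]) hx
    (DCb_smooth g.symm k _) (DCb_smooth g k _)
  have h2 := DCb_comp (n := n) (F := (g.symm : M → M)^[k]) (G := (g : M → M)^[k]) hx'
    (DCb_smooth g k _) (DCb_smooth g.symm k _)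
  have hid : DCb_D (n := n) (id : M → M) x = ContinuousLinearMap.id ℝ (Er n) := mfderiv_id
  rw [hli.comp_eq_id, hid] at h1
  rw [hri.comp_eq_id, hid] at h2
  refine ⟨ContinuousLinearEquiv.equivOfInverse (DCb_D (n := n) ((g : M → M)^[k]) x)
    (DCb_D (n := n) ((g.symm : M → M)^[k]) x) (fun v => ?_) (fun v => ?_), ?_⟩
  · exact (congrArg (fun A : Er n →L[ℝ] Er n => A v) h1).symm
  · exact (congrArg (fun A : Er n →L[ℝ] Er n => A v) h2).symm
  · rw [DCb_dfix hx (DCb_smooth g k _)]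
    rfl

end

end FB
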