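import Mathlib

/-!
# Part D: three elementary finiteness lemmas
-/

namespace FB

open scoped Topology ContDiff Manifold
open Filter

/-- `det ((1+s) A - 1) ≠ 0` for all small `s ≠ 0`: it is `± (1+s)^n` times the value of `charpoly A` at
`(1+s)⁻¹`, and `charpoly A` has finitely many roots (`(1+s)⁻¹ → 1`, `(1+s)⁻¹ ≠ 1`). -/
theorem eventually_det_ne {E : Type*} [AddCommGroup E] [Module ℝ E] [Module.Finite ℝ E]
    [Module.Free ℝ E] (A : E →ₗ[ℝ] E) :
    ∀ᶠ s : ℝ in 𝓝[≠] 0, LinearMap.det ((1 + s) • A - 1) ≠ 0 := by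
  have h1 : ∀ s : ℝ, 1 + s ≠ 0 → LinearMap.det ((1 + s) • A - 1) =
      (-(1 + s)) ^ Module.finrank ℝ E * (LinearMap.charpoly A).eval (1 + s)⁻¹ := by
    intro s hs
    have h2 : (1 + s) • A - 1 = (-(1 + s)) • (algebraMap ℝ (Module.End ℝ E) (1 + s)⁻¹ - A) := by
      ext v
      show (1 + s) • A v - v = (-(1 + s)) • ((1 + s)⁻¹ • v - A v)
      rw [smul_sub, smul_smul, neg_mul, mul_inv_cancel₀ hs, neg_smul, neg_smul, one_smul]
      abel
    rw [h2, LinearMap.det_smul, LinearMap.eval_charpoly]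
  have h3 : {t : ℝ | (LinearMap.charpoly A).eval t = 0}.Finite := by
    have h4 := (LinearMap.charpoly_monic A).ne_zero
    refine ((LinearMap.charpoly A).roots.toFinset.finite_toSet).subset fun t ht => ?_
    rw [Finset.mem_coe, Multiset.mem_toFinset, Polynomial.mem_roots h4]
    exact ht
  have h5 : Tendsto (fun s : ℝ => (1 + s)⁻¹) (𝓝[≠] 0) (𝓝 1) := by
    have h6 : ContinuousAt (fun s : ℝ => (1 + s)⁻¹) 0 :=
      (continuousAt_const.add continuousAt_id).inv₀ (by norm_num)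
    have h7 := h6.tendsto
    rw [add_zero, inv_one] at h7
    exact h7.mono_left nhdsWithin_le_nhds
  have h8 : ({t : ℝ | (LinearMap.charpoly A).eval t = 0} \ {1})ᶜ ∈ 𝓝 (1 : ℝ) :=
    (h3.subset Set.sdiff_subset).isClosed.isOpen_compl.mem_nhds fun h => h.2 rfl
  have h9 : ∀ᶠ s : ℝ in 𝓝[≠] 0, 1 + s ≠ 0 := by
    have h10 : ContinuousAt (fun s : ℝ => 1 + s) 0 := continuousAt_const.add continuousAt_id
    have h11 : ∀ᶠ s : ℝ in 𝓝 0, 1 + s ≠ 0 := h10.eventually_ne (by norm_num)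
    exact h11.filter_mono nhdsWithin_le_nhds
  filter_upwards [h5 h8, h9, self_mem_nhdsWithin] with s hs hs0 hs1
  rw [h1 s hs0]
  refine mul_ne_zero (pow_ne_zero _ (neg_ne_zero.2 hs0)) fun h => hs ⟨h, fun h12 => hs1 ?_⟩
  have h13 : (1 + s)⁻¹ = 1 := h12
  have h14 : 1 + s = 1 := inv_eq_one.1 h13
  show s = 0
  linarith

/-- The sums of choices from finite sets form a finite set. Induction over `T`. -/
theorem finite_sums {ι : Type*} (T : Finset ι) (S : ι → Set ℂ) (hS : ∀ i ∈ T, (S i).Finite) :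
    {z : ℂ | ∃ a : ι → ℂ, (∀ i ∈ T, a i ∈ S i) ∧ z = ∑ i ∈ T, a i}.Finite := by
  classical
  induction T using Finset.induction_on with
  | empty =>
    refine (Set.finite_singleton (0 : ℂ)).subset ?_
    rintro z ⟨a, -, rfl⟩
    exact Finset.sum_empty
  | insert i T hi ih =>
    have h1 := ih fun j hj => hS j (Finset.mem_insert_of_mem hj)
    refine (Set.Finite.image2 (fun x y : ℂ => x + y) (hS i (Finset.mem_insert_self i T)) h1).subset ?_
    rintro z ⟨a, ha, rfl⟩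
    refine ⟨a i, ha i (Finset.mem_insert_self i T), ∑ j ∈ T, a j,
      ⟨a, fun j hj => ha j (Finset.mem_insert_of_mem hj), rfl⟩, ?_⟩
    exact (Finset.sum_insert hi).symm

/-- For given `c'`, `C` and `r` the equation `k ((1-s)^m c')⁻¹ + C = r` has at most one solution
`s ∈ (0,1)`: it determines `(1-s)^m`, `m > 0`.  So the set of bad `s` in `(0,1)` is finite. -/
theorem eventually_avoid {k m : ℕ} (hk : 0 < k) (hm : 0 < m) {F C R : Set ℂ} (hF : F.Finite)
    (hF0 : (0 : ℂ) ∉ F) (hC : C.Finite) (hR : R.Finite) :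
    ∀ᶠ s : ℝ in 𝓝[>] 0, ∀ c' ∈ F, ∀ z ∈ C,
      (k : ℂ) * ((((1 - s : ℝ) : ℂ) ^ m * c'))⁻¹ + z ∉ R := by
  rw [Filter.eventually_all_finite hF]
  intro c' hc'
  rw [Filter.eventually_all_finite hC]
  intro z _
  have hc0 : c' ≠ 0 := fun h => hF0 (h ▸ hc')
  have hk0 : (k : ℂ) ≠ 0 := by exact_mod_cast hk.ne'
  have key : ∀ r ∈ R, ∀ᶠ s : ℝ in 𝓝[>] 0,
      (k : ℂ) * ((((1 - s : ℝ) : ℂ) ^ m * c'))⁻¹ + z ≠ r := by
    intro r _
    by_cases h : ∃ s0 : ℝ, 0 < s0 ∧ s0 < 1 ∧ (k : ℂ) * ((((1 - s0 : ℝ) : ℂ) ^ m * c'))⁻¹ + z = r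
    · obtain ⟨s0, h0, h1, h2⟩ := h
      filter_upwards [Ioo_mem_nhdsGT h0] with s hs h3
      have h4 : (k : ℂ) * ((((1 - s : ℝ) : ℂ) ^ m * c'))⁻¹ =
          (k : ℂ) * ((((1 - s0 : ℝ) : ℂ) ^ m * c'))⁻¹ := add_right_cancel (h3.trans h2.symm)
      have h5 := inv_injective (mul_left_cancel₀ hk0 h4)
      have h6 := mul_right_cancel₀ hc0 h5
      have h7 : (1 - s) ^ m = (1 - s0) ^ m := by exact_mod_cast h6
      have h8 : 1 - s = 1 - s0 :=
        (pow_left_inj₀ (by linarith [hs.2]) (by linarith) hm.ne').1 h7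
      linarith [hs.2]
    · filter_upwards [Ioo_mem_nhdsGT (show (0 : ℝ) < 1 from one_pos)] with s hs h3
      exact h ⟨s, hs.1, hs.2, h3⟩
  filter_upwards [(Filter.eventually_all_finite hR).2 key] with s hs h
  exact hs _ h rfl

end FB
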