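import Pool.Agent.H.MP_fb873c_an.D2c
import Pool.Agent.H.MP_fb873c_an.D4d
import Pool.Agent.H.MP_fb873c_an.DCb
import Pool.Agent.H.MP_fb873c_an.DF2

/-!
# Part D4e: periodic points of period `≤ N` which are fixed by `g^(N+1)`
-/

namespace FB

open scoped Topology ContDiff Manifold
open Filter

universe u

section

variable {n : ℕ} {M : Type u} [TopologicalSpace M] [ChartedSpace (Er n) M]
  [IsManifold (𝓡 n) ∞ M] [CompactSpace M] [T2Space M]

omit [CompactSpace M] [T2Space M] in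
/-- Chain rule at a fixed point: `DCb_dfix`, `DCb_comp`, `DCb_smooth` (file DCb); induction on `l`
(`Function.iterate_mul`, `Function.iterate_succ'`). -/
theorem dfix_iterate (g : Dif n M) (d l : ℕ) {x : M} (hx : (g : M → M)^[d] x = x) :
    (dfix (n := n) ((g : M → M)^[d * l]) x).toLinearMap =
      (dfix (n := n) ((g : M → M)^[d]) x).toLinearMap ^ l := by
  have hl : ∀ l : ℕ, ((g : M → M)^[d])^[l] x = x := fun l => Function.iterate_fixed hx l
  have hs : ∀ l : ℕ, MDifferentiableAt (𝓡 n) (𝓡 n) (((g : M → M)^[d])^[l]) x := by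
    intro l
    rw [← Function.iterate_mul]
    exact DCb_smooth g (d * l) x
  have key : ∀ l : ℕ, (DCb_D (n := n) (((g : M → M)^[d])^[l]) x).toLinearMap =
      (DCb_D (n := n) ((g : M → M)^[d]) x).toLinearMap ^ l := by
    intro l
    induction l with
    | zero =>
      rw [pow_zero]
      have h1 : DCb_D (n := n) (((g : M → M)^[d])^[0]) x = ContinuousLinearMap.id ℝ (Er n) :=
        mfderiv_id
      rw [h1]
      rfl
    | succ l ih =>
      rw [Function.iterate_succ', DCb_comp (n := n) (hl l) (DCb_smooth g d x) (hs l), pow_succ', ← ih]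
      rfl
  have h1 := key l
  rw [← DCb_dfix (n := n) (hl l) (hs l), ← DCb_dfix (n := n) hx (DCb_smooth g d x),
    ← Function.iterate_mul] at h1
  exact h1

/-- `((1+s)A)^l = (1+s)^l A^l`; `s ↦ (1+s)^l - 1` tends to `0` and is `≠ 0` for small `s ≠ 0` (it is strictly
monotone on `s > -1` if `l > 0`), `eventually_det_ne` (file DF2) for `A^l`. -/
theorem eventually_det_pow {E : Type*} [AddCommGroup E] [Module ℝ E] [Module.Finite ℝ E]
    [Module.Free ℝ E] (A : E →ₗ[ℝ] E) {l : ℕ} (hl : 0 < l) :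
    ∀ᶠ s : ℝ in 𝓝[≠] 0, LinearMap.det (((1 + s) • A) ^ l - 1) ≠ 0 := by
  have h1 := eventually_det_ne (A ^ l)
  have h2 : Tendsto (fun s : ℝ => (1 + s) ^ l - 1) (𝓝[≠] 0) (𝓝[≠] 0) := by
    refine tendsto_nhdsWithin_iff.2 ⟨?_, ?_⟩
    · have h3 : Continuous (fun s : ℝ => (1 + s) ^ l - 1) := by fun_prop
      have h4 := h3.tendsto 0
      simp only [add_zero, one_pow, sub_self] at h4
      exact h4.mono_left nhdsWithin_le_nhds
    · have h3 : ∀ᶠ s : ℝ in 𝓝[≠] 0, s ≠ 0 := eventually_mem_nhdsWithin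
      have h4 : ∀ᶠ s : ℝ in 𝓝[≠] 0, -1 < s :=
        nhdsWithin_le_nhds (lt_mem_nhds (by norm_num))
      filter_upwards [h3, h4] with s q1 q2
      intro q3
      have q4 : (1 + s) ^ l = 1 := by
        have : (1 + s) ^ l - 1 = 0 := q3
        linarith
      have q5 := (pow_eq_one_iff_of_nonneg (by linarith : (0 : ℝ) ≤ 1 + s) hl.ne').1 q4
      apply q1
      linarith
  filter_upwards [h2.eventually h1] with s hs
  have h3 : ((1 + s) • A) ^ l = (1 + ((1 + s) ^ l - 1)) • A ^ l := by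
    rw [smul_pow, add_sub_cancel]
  rw [h3]
  exact hs

/-- One step: `p` of exact period `d ≤ N`, `g^(N+1) p = p`.  `pert_orbit` with `Bl = 1`; then `D(H s)^d` at `p` is
`(1+s) A`; as `d` divides `N+1` (`Function.IsPeriodicPt`, `Function.minimalPeriod`; `d` is the minimal period), `N + 1 = d l`, and by
`dfix_iterate`, `eventually_det_pow` the point `p` is a nondegenerate fixed point of `(H s)^(N+1)` for all small `s ≠ 0`, hence all
points of its orbit (`ndg_orbit`, file DCb).  The points of period `≤ N` are the same for `H s` and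
`g`, `(H s)^j x = g^j x` for these (`iterate_eq_of_per`) and at the points `x` outside of the orbit of `p` the derivatives of
`(H s)^(N+1)` and `g^(N+1)` are the same.  `eventually_mem_open` (file D2c) in the filter `𝓝[≠] 0`. -/
theorem bad_step {N : ℕ} {g : Dif n M} (hnd : ∀ k, 0 < k → k ≤ N → NdL k Set.univ g)
    {O : Set (Dif n M)} (hO : IsOpen[crTop n M ⊤] O) (hg : g ∈ O)
    {d : ℕ} (hd : 0 < d) (hdN : d ≤ N) {p : M} (hp : (g : M → M)^[d] p = p)
    (hmin : ∀ i, 0 < i → i < d → (g : M → M)^[i] p ≠ p) (hpN : (g : M → M)^[N + 1] p = p) :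
    ∃ g' ∈ O, (∀ k, 0 < k → k ≤ N → NdL k Set.univ g') ∧
      ∀ x, (∃ k, 0 < k ∧ k ≤ N ∧ (g' : M → M)^[k] x = x) → (g' : M → M)^[N + 1] x = x →
        ¬ Ndg (n := n) ((g' : M → M)^[N + 1]) x →
        x ≠ p ∧ (∃ k, 0 < k ∧ k ≤ N ∧ (g : M → M)^[k] x = x) ∧ (g : M → M)^[N + 1] x = x ∧
          ¬ Ndg (n := n) ((g : M → M)^[N + 1]) x := by
  obtain ⟨H, hH, h0, hev⟩ := pert_orbit hnd hd hdN hp hmin (ContinuousLinearMap.id ℝ (Er n))
  -- the period divides `N + 1`
  have hper : Function.IsPeriodicPt (g : M → M) d p := hp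
  have hmp : Function.minimalPeriod (g : M → M) p = d := by
    have q1 := hper.minimalPeriod_le hd
    have q2 := hper.minimalPeriod_pos hd
    rcases q1.lt_or_eq with q3 | q3
    · exact absurd (Function.isPeriodicPt_minimalPeriod (g : M → M) p)
        (fun q4 => hmin _ q2 q3 q4)
    · exact q3
  have hdvd : d ∣ N + 1 := by
    rw [← hmp]
    exact Function.IsPeriodicPt.minimalPeriod_dvd hpN
  obtain ⟨l, hl⟩ := hdvd
  have hl0 : 0 < l := by
    rcases Nat.eq_zero_or_pos l with h | h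
    · rw [h, Nat.mul_zero] at hl
      omega
    · exact h
  have e1 : ∀ᶠ s : ℝ in 𝓝[≠] 0, H s ∈ O :=
    nhdsWithin_le_nhds (eventually_mem_open g H h0 hH hO hg)
  have e2 := eventually_det_pow (dfix (n := n) ((g : M → M)^[d]) p).toLinearMap hl0
  have e3 : ∀ᶠ s : ℝ in 𝓝[≠] 0, _ := nhdsWithin_le_nhds hev
  obtain ⟨s, ⟨q1, q2⟩, q3, q4, q5, q6, q7⟩ := ((e1.and e2).and e3).exists
  refine ⟨H s, q1, q3, ?_⟩
  rintro x ⟨k, hk, hkN, hkx⟩ hxN hnx
  have hgk : (g : M → M)^[k] x = x := (q4 k hk hkN x).1 hkx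
  have hit := iterate_eq_of_per q5 hk hkN hgk
  have hgN : (g : M → M)^[N + 1] x = x := by rw [← hit, hxN]
  have hitp := iterate_eq_of_per q5 hd hdN hp
  by_cases horb : ∀ i, (g : M → M)^[i] p ≠ x
  · have h1 := q7 k hk hkN x hgk horb (N + 1) hgN
    refine ⟨fun h => horb 0 h.symm, ⟨k, hk, hkN, hgk⟩, hgN, ?_⟩
    intro h2
    apply hnx
    unfold Ndg at h2 ⊢
    rw [h1]
    exact h2
  · exfalso
    push Not at horb
    obtain ⟨i, hi⟩ := horb
    have hpd : (H s : M → M)^[d] p = p := (q4 d hd hdN p).2 hp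
    have hpN' : (H s : M → M)^[N + 1] p = p := by rw [hitp, hpN]
    have h1 : Ndg (n := n) ((H s : M → M)^[N + 1]) p := by
      have h2 := dfix_iterate (H s) d l hpd
      have h3 : (dfix (n := n) ((H s : M → M)^[d]) p).toLinearMap =
          (1 + s) • (dfix (n := n) ((g : M → M)^[d]) p).toLinearMap := by
        rw [q6]
        ext v
        simp [add_smul]
      rw [h3, ← hl] at h2
      unfold Ndg
      have h4 : ((dfix (n := n) ((H s : M → M)^[N + 1]) p - ContinuousLinearMap.id ℝ (Er n) :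
          Er n →L[ℝ] Er n)).toLinearMap =
          ((1 + s) • (dfix (n := n) ((g : M → M)^[d]) p).toLinearMap) ^ l - 1 := by
        rw [← h2]
        rfl
      rw [h4]
      exact q2
    have h5 : ∀ j, (H s : M → M)^[N + 1] ((H s : M → M)^[j] p) = (H s : M → M)^[j] p ∧
        Ndg (n := n) ((H s : M → M)^[N + 1]) ((H s : M → M)^[j] p) := by
      intro j
      induction j with
      | zero => exact ⟨hpN', h1⟩
      | succ j ih =>
        have h6 : (H s : M → M)^[j + 1] p = H s ((H s : M → M)^[j] p) :=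
          Function.iterate_succ_apply' _ _ _
        have h7 : (H s : M → M)^[N + 1] (H s ((H s : M → M)^[j] p)) =
            H s ((H s : M → M)^[N + 1] ((H s : M → M)^[j] p)) :=
          (Function.iterate_succ_apply (H s : M → M) (N + 1) _).symm.trans
            (Function.iterate_succ_apply' (H s : M → M) (N + 1) _)
        rw [h6]
        refine ⟨?_, (ndg_orbit (H s) (N + 1) ih.1).2 ih.2⟩
        rw [h7, ih.1]
    apply hnx
    have h6 := (h5 i).2
    rwa [hitp, hi] at h6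

/-- Strong induction on the number of elements of the finite (`finite_per`) set
`Bad g = {x | x of period ≤ N, g^(N+1) x = x, not nondegenerate}`: if it is not empty take `p` in it, `d` its minimal
period (`Function.minimalPeriod` or `Nat.find`) and `bad_step`: `Bad g' ⊆ Bad g ∖ {p}`. -/
theorem no_bad {N : ℕ} {g : Dif n M} (hnd : ∀ k, 0 < k → k ≤ N → NdL k Set.univ g)
    {O : Set (Dif n M)} (hO : IsOpen[crTop n M ⊤] O) (hg : g ∈ O) :
    ∃ g' ∈ O, (∀ k, 0 < k → k ≤ N → NdL k Set.univ g') ∧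
      ∀ x, (∃ k, 0 < k ∧ k ≤ N ∧ (g' : M → M)^[k] x = x) → (g' : M → M)^[N + 1] x = x →
        Ndg (n := n) ((g' : M → M)^[N + 1]) x := by
  classical
  suffices h : ∀ m : ℕ, ∀ g : Dif n M, (∀ k, 0 < k → k ≤ N → NdL k Set.univ g) → g ∈ O →
      {x | (∃ k, 0 < k ∧ k ≤ N ∧ (g : M → M)^[k] x = x) ∧ (g : M → M)^[N + 1] x = x ∧
        ¬ Ndg (n := n) ((g : M → M)^[N + 1]) x}.ncard ≤ m →
      ∃ g' ∈ O, (∀ k, 0 < k → k ≤ N → NdL k Set.univ g') ∧
        ∀ x, (∃ k, 0 < k ∧ k ≤ N ∧ (g' : M → M)^[k] x = x) → (g' : M → M)^[N + 1] x = x →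
          Ndg (n := n) ((g' : M → M)^[N + 1]) x from h _ g hnd hg le_rfl
  have hfinB : ∀ g : Dif n M, (∀ k, 0 < k → k ≤ N → NdL k Set.univ g) →
      {x | (∃ k, 0 < k ∧ k ≤ N ∧ (g : M → M)^[k] x = x) ∧ (g : M → M)^[N + 1] x = x ∧
        ¬ Ndg (n := n) ((g : M → M)^[N + 1]) x}.Finite :=
    fun g hnd => (finite_per hnd).subset fun x hx => hx.1
  intro m
  induction m with
  | zero =>
    intro g hnd hg hm
    refine ⟨g, hg, hnd, fun x hx1 hx2 => ?_⟩
    by_contra hx3
    have h1 := (Set.ncard_eq_zero (hfinB g hnd)).1 (Nat.le_zero.1 hm)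
    have h2 : x ∈ (∅ : Set M) := by
      rw [← h1]
      exact ⟨hx1, hx2, hx3⟩
    exact h2
  | succ m ih =>
    intro g hnd hg hm
    by_cases hE : ∃ p, (∃ k, 0 < k ∧ k ≤ N ∧ (g : M → M)^[k] p = p) ∧
        (g : M → M)^[N + 1] p = p ∧ ¬ Ndg (n := n) ((g : M → M)^[N + 1]) p
    · obtain ⟨p, hpB⟩ := hE
      obtain ⟨k, hk, hkN, hkp⟩ := hpB.1
      have hper : Function.IsPeriodicPt (g : M → M) k p := hkp
      obtain ⟨g', hg', hnd', hB⟩ := bad_step hnd hO hg (hper.minimalPeriod_pos hk)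
        ((hper.minimalPeriod_le hk).trans hkN)
        (Function.isPeriodicPt_minimalPeriod (g : M → M) p)
        (fun i hi hid hip => Function.not_isPeriodicPt_of_pos_of_lt_minimalPeriod hi.ne' hid hip)
        hpB.2.1
      refine ih g' hnd' hg' ?_
      have hss : {x | (∃ k, 0 < k ∧ k ≤ N ∧ (g' : M → M)^[k] x = x) ∧
          (g' : M → M)^[N + 1] x = x ∧ ¬ Ndg (n := n) ((g' : M → M)^[N + 1]) x} ⊂
          {x | (∃ k, 0 < k ∧ k ≤ N ∧ (g : M → M)^[k] x = x) ∧ (g : M → M)^[N + 1] x = x ∧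
            ¬ Ndg (n := n) ((g : M → M)^[N + 1]) x} := by
        refine (Set.ssubset_iff_of_subset fun x hx => ?_).2 ⟨p, hpB, fun hp' => ?_⟩
        · exact (hB x hx.1 hx.2.1 hx.2.2).2
        · exact (hB p hp'.1 hp'.2.1 hp'.2.2).1 rfl
      have := Set.ncard_lt_ncard hss (hfinB g hnd)
      omega
    · refine ⟨g, hg, hnd, fun x hx1 hx2 => ?_⟩
      by_contra hx3
      exact hE ⟨x, hx1, hx2, hx3⟩

end

end FB
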