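import Pool.Agent.H.MP_fb873c_an.S0

/-!
# Part D: `Fac` of `(1 - s) A + s`
-/

namespace FB

open scoped Topology ContDiff Manifold

section

variable {E : Type*} [AddCommGroup E] [Module ℝ E] [Module.Finite ℝ E] [Module.Free ℝ E]

theorem DF1b_charpoly (A : E →ₗ[ℝ] E) (t : ℝ) :
    ((LinearMap.charpoly A).map (algebraMap ℝ ℂ)).eval (t : ℂ) =
      ((LinearMap.det (algebraMap ℝ (Module.End ℝ E) t - A) : ℝ) : ℂ) := by
  rw [← LinearMap.eval_charpoly, Polynomial.eval_map]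
  exact Polynomial.eval₂_hom (algebraMap ℝ ℂ) t

theorem DF1b_conj (p : Polynomial ℂ) (t : ℝ) :
    (p.map (starRingEnd ℂ)).eval (t : ℂ) = (starRingEnd ℂ) (p.eval (t : ℂ)) := by
  have h := Polynomial.eval₂_hom (p := p) (starRingEnd ℂ) (t : ℂ)
  rw [Complex.conj_ofReal] at h
  rw [Polynomial.eval_map]
  exact h

/-- Invertible shift. Let `t = 1 - s ≠ 0` and `p * conj p = charpoly (t A + s)`, `m = deg p`, so
`finrank = 2 m`.  Then `q(Y) = t^{-m} p(t Y + s)` is monic and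
`(q * conj q)(Y) = t^{-2m} charpoly (t A + s) (t Y + s) = charpoly A (Y)`
(check the last identity at all real `Y`: `charpoly B (y) = det (y - B)`, and
`det ((t y + s) - (t A + s)) = t^{2m} det (y - A)`).  Finally `p(1) = t^m q(1)`. -/
theorem Fac_shift {A : E →ₗ[ℝ] E} {s : ℝ} (hs : s ≠ 1) {c : ℂ}
    (hc : c ∈ Fac ((1 - s) • A + s • (1 : E →ₗ[ℝ] E))) :
    ∃ c' ∈ Fac A, c = ((1 - s : ℝ) : ℂ) ^ (Module.finrank ℝ E / 2) * c' := by
  obtain ⟨p, hm, hp, rfl⟩ := hc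
  set t : ℝ := 1 - s with ht
  have ht0 : t ≠ 0 := sub_ne_zero.2 (Ne.symm hs)
  have ht0' : (t : ℂ) ≠ 0 := by exact_mod_cast ht0
  have hdeg : 2 * p.natDegree = Module.finrank ℝ E := by
    have h1 := congrArg Polynomial.natDegree hp
    rw [(LinearMap.charpoly_monic _).natDegree_map, LinearMap.charpoly_natDegree,
      hm.natDegree_mul (hm.map _), hm.natDegree_map] at h1
    omega
  obtain ⟨m, hmd⟩ : ∃ m, p.natDegree = m := ⟨_, rfl⟩
  rw [hmd] at hdeg
  have hm2 : Module.finrank ℝ E / 2 = m := by omega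
  have hq : ∀ z : ℂ, (Polynomial.C (((t : ℂ) ^ m)⁻¹) * p.comp
      (Polynomial.C (t : ℂ) * Polynomial.X + Polynomial.C (s : ℂ))).eval z =
      ((t : ℂ) ^ m)⁻¹ * p.eval (t * z + s) := by
    intro z
    rw [Polynomial.eval_mul, Polynomial.eval_C, Polynomial.eval_comp, Polynomial.eval_add,
      Polynomial.eval_mul, Polynomial.eval_C, Polynomial.eval_C, Polynomial.eval_X]
  refine ⟨_, ⟨Polynomial.C (((t : ℂ) ^ m)⁻¹) * p.comp
      (Polynomial.C (t : ℂ) * Polynomial.X + Polynomial.C (s : ℂ)), ?_, ?_, rfl⟩, ?_⟩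
  · unfold Polynomial.Monic
    rw [Polynomial.leadingCoeff_mul, Polynomial.leadingCoeff_C, Polynomial.leadingCoeff_comp,
      hm.leadingCoeff, one_mul, Polynomial.leadingCoeff_linear ht0', hmd,
      inv_mul_cancel₀ (pow_ne_zero _ ht0')]
    rw [Polynomial.natDegree_linear ht0']
    exact one_ne_zero
  · refine Polynomial.eq_of_infinite_eval_eq _ _ ?_
    refine (Set.infinite_range_of_injective Complex.ofReal_injective).mono ?_
    rintro _ ⟨y, rfl⟩
    rw [Set.mem_setOf_eq, Polynomial.eval_mul, DF1b_conj, DF1b_charpoly, hq]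
    have h1 := congrArg (Polynomial.eval ((t * y + s : ℝ) : ℂ)) hp
    rw [Polynomial.eval_mul, DF1b_conj, DF1b_charpoly] at h1
    have h2 : algebraMap ℝ (Module.End ℝ E) (t * y + s) - (t • A + s • (1 : E →ₗ[ℝ] E)) =
        t • (algebraMap ℝ (Module.End ℝ E) y - A) := by
      ext v
      simp only [Module.algebraMap_end_apply, LinearMap.sub_apply, LinearMap.add_apply,
        LinearMap.smul_apply, Module.End.one_apply]
      module
    rw [h2, LinearMap.det_smul, ← hdeg, Complex.ofReal_mul, Complex.ofReal_pow, Complex.ofReal_add,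
      Complex.ofReal_mul] at h1
    rw [map_mul, map_inv₀, map_pow, Complex.conj_ofReal]
    have h3 : (t : ℂ) ^ m ≠ 0 := pow_ne_zero _ ht0'
    calc ((t : ℂ) ^ m)⁻¹ * p.eval ((t : ℂ) * y + s) *
          (((t : ℂ) ^ m)⁻¹ * (starRingEnd ℂ) (p.eval ((t : ℂ) * y + s)))
        = (((t : ℂ) ^ m)⁻¹ * ((t : ℂ) ^ m)⁻¹) * (p.eval ((t : ℂ) * y + s) *
          (starRingEnd ℂ) (p.eval ((t : ℂ) * y + s))) := by ring
      _ = (((t : ℂ) ^ m)⁻¹ * ((t : ℂ) ^ m)⁻¹) * ((t : ℂ) ^ (2 * m) *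
          ((LinearMap.det (algebraMap ℝ (Module.End ℝ E) y - A) : ℝ) : ℂ)) := by rw [h1]
      _ = (((t : ℂ) ^ m)⁻¹ * (t : ℂ) ^ m) * (((t : ℂ) ^ m)⁻¹ * (t : ℂ) ^ m) *
          ((LinearMap.det (algebraMap ℝ (Module.End ℝ E) y - A) : ℝ) : ℂ) := by
          rw [two_mul, pow_add]
          ring
      _ = _ := by rw [inv_mul_cancel₀ h3, one_mul, one_mul]
  · rw [hq, hm2, ← mul_assoc, mul_inv_cancel₀ (pow_ne_zero _ ht0'), one_mul]
    congr 1
    rw [ht]
    push_cast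
    ring

end

end FB
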