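import Pool.Agent.H.MP_fb873c_an.B0
import Pool.Agent.H.MP_fb873c_an.D4e
import Pool.Agent.H.MP_fb873c_an.DF1b

/-!
# Theorem B: hyperbolic periodic points
-/

namespace FB

open scoped Topology ContDiff Manifold
open Filter

universe u

section

variable {n : ℕ}

/-- If `det (C^k - 1) = 0` then `C` has a complex eigenvalue `λ` with `λ^k = 1`: `C^k - 1` is the product of the commuting
`C - ζ`, `ζ^k = 1`, over `ℂ` (use the matrix of `C` over `ℂ`: `X^k - 1 = ∏ (X - ζ)`, `Matrix.det_mul`; or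
spectral mapping `spectrum.map_pow_of_pos` for the matrix over `ℂ`). -/
theorem hyp_pow {C : Er n →L[ℝ] Er n} (hC : Hyp C) {k : ℕ} (hk : 0 < k) :
    LinearMap.det (C.toLinearMap ^ k - 1) ≠ 0 := by
  intro h0
  classical
  set b := Module.finBasis ℝ (Er n) with hb
  set A : Matrix _ _ ℝ := LinearMap.toMatrix b b C.toLinearMap with hA
  have h1 : (A ^ k - 1).det = 0 := by
    have h2 : LinearMap.toMatrix b b (C.toLinearMap ^ k - 1) = A ^ k - 1 := by
      rw [map_sub, LinearMap.toMatrix_pow, LinearMap.toMatrix_one]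
    rw [← h2, LinearMap.det_toMatrix, h0]
  set A' : Matrix _ _ ℂ := A.map (algebraMap ℝ ℂ) with hA'
  have h2 : (A' ^ k - 1).det = 0 := by
    have h3 : A' ^ k - 1 = (algebraMap ℝ ℂ).mapMatrix (A ^ k - 1) := by
      rw [map_sub, map_pow, map_one]
      rfl
    rw [h3, ← RingHom.map_det, h1, map_zero]
  have h3 : (1 : ℂ) ∈ spectrum ℂ (A' ^ k) := by
    rw [spectrum.mem_iff, map_one, Matrix.isUnit_iff_isUnit_det]
    intro h4
    have h5 : (1 - A' ^ k).det = 0 := by
      have h6 : (1 : Matrix _ _ ℂ) - A' ^ k = -(A' ^ k - 1) := by rw [neg_sub]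
      rw [h6, Matrix.det_neg, h2, mul_zero]
    rw [h5] at h4
    exact not_isUnit_zero h4
  rw [spectrum.map_pow_of_pos A' hk] at h3
  obtain ⟨l, hl, hlk⟩ := h3
  have h4 : (Matrix.charpoly A').IsRoot l := by
    rw [← Matrix.mem_spectrum_iff_isRoot_charpoly]
    exact hl
  have h5 : Matrix.charpoly A' = (LinearMap.charpoly C.toLinearMap).map (algebraMap ℝ ℂ) := by
    rw [hA', Matrix.charpoly_map, hA, LinearMap.charpoly_toMatrix]
  rw [h5] at h4
  apply hC l h4
  have h6 : ‖l‖ ^ k = 1 := by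
    rw [← norm_pow]
    have h7 : l ^ k = 1 := hlk
    rw [h7, norm_one]
  exact (pow_eq_one_iff_of_nonneg (norm_nonneg l) hk.ne').1 h6

/-- `det (B - 1) = 0` gives `v ≠ 0` with `B v = v`, so `B^N v = v`. -/
theorem det_pow_ne {E : Type*} [AddCommGroup E] [Module ℝ E] [Module.Finite ℝ E]
    [Module.Free ℝ E] {B : E →ₗ[ℝ] E} {N : ℕ} (h : LinearMap.det (B ^ N - 1) ≠ 0) :
    LinearMap.det (B - 1) ≠ 0 := by
  intro h0
  apply h
  rw [← mul_geom_sum B N, map_mul, h0, zero_mul]

/-- The roots of a half polynomial are eigenvalues: not of modulus one, not zero if `A` is invertible. -/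
theorem halfPoly_hyp {A : Er n →L[ℝ] Er n} (hA : Hyp A) (A' : Er n ≃L[ℝ] Er n)
    (hA' : (A' : Er n →L[ℝ] Er n) = A) {P : Polynomial ℂ} (h : HalfPoly A P) :
    ∀ l ∈ P.roots, l ≠ 0 ∧ ‖l‖ ≠ 1 := by
  intro l hl
  have h1 : P.eval l = 0 := Polynomial.isRoot_of_mem_roots hl
  have h2 : ((LinearMap.charpoly A.toLinearMap).map (algebraMap ℝ ℂ)).IsRoot l := by
    rw [← h.2]
    show (P * P.map (starRingEnd ℂ)).eval l = 0
    rw [Polynomial.eval_mul, h1, zero_mul]
  refine ⟨?_, hA l h2⟩
  rintro rfl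
  have h3 := DF1b_charpoly A.toLinearMap 0
  have h4 : ((LinearMap.charpoly A.toLinearMap).map (algebraMap ℝ ℂ)).eval 0 = 0 := h2
  rw [Complex.ofReal_zero, h4] at h3
  have h5 : LinearMap.det (algebraMap ℝ (Module.End ℝ (Er n)) 0 - A.toLinearMap) = 0 := by
    exact_mod_cast h3.symm
  have h6 : algebraMap ℝ (Module.End ℝ (Er n)) 0 - A.toLinearMap = (-1 : ℝ) • A.toLinearMap := by
    rw [map_zero, zero_sub, neg_smul, one_smul]
  rw [h6, LinearMap.det_smul] at h5
  have h7 : IsUnit (LinearMap.det A.toLinearMap) := by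
    have h8 := LinearEquiv.isUnit_det' A'.toLinearEquiv
    have h9 : (A'.toLinearEquiv : Er n →ₗ[ℝ] Er n) = A.toLinearMap := by
      rw [← hA']
      rfl
    rw [h9] at h8
    exact h8
  rcases mul_eq_zero.1 h5 with h8 | h8
  · exact pow_ne_zero _ (by norm_num : (-1 : ℝ) ≠ 0) h8
  · exact h7.ne_zero h8

/-- As `halfPoly_shift` (file D4g): the roots of `P` are `t` times the roots of `P'`. -/
theorem halfPoly_scale {A A' : Er n →L[ℝ] Er n} {t : ℝ} (ht : t ≠ 0)
    (hA' : A'.toLinearMap = t • A.toLinearMap) {P : Polynomial ℂ} (h : HalfPoly A' P) :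
    ∃ P', HalfPoly A P' ∧ P.roots = P'.roots.map (fun x => (t : ℂ) * x) := by
  obtain ⟨hm, hp⟩ := h
  have ht' : (t : ℂ) ≠ 0 := by exact_mod_cast ht
  have hdeg : 2 * P.natDegree = Module.finrank ℝ (Er n) := by
    have h1 := congrArg Polynomial.natDegree hp
    rw [(LinearMap.charpoly_monic _).natDegree_map, LinearMap.charpoly_natDegree,
      hm.natDegree_mul (hm.map _), hm.natDegree_map] at h1
    omega
  have hcard : Multiset.card P.roots = P.natDegree :=
    Polynomial.splits_iff_card_roots.1 (IsAlgClosed.splits P)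
  have hprod : P = (P.roots.map fun a => Polynomial.X - Polynomial.C a).prod :=
    (IsAlgClosed.splits P).eq_prod_roots_of_monic hm
  set Q : Polynomial ℂ := ((P.roots.map fun x => (t : ℂ)⁻¹ * x).map
    fun a => Polynomial.X - Polynomial.C a).prod with hQ
  have hQr : Q.roots = P.roots.map fun x => (t : ℂ)⁻¹ * x :=
    Polynomial.roots_multiset_prod_X_sub_C _
  have hQe : ∀ z : ℂ, (t : ℂ) ^ P.natDegree * Q.eval z = P.eval (t * z) := by
    intro z
    conv_rhs => rw [hprod]
    rw [hQ, Polynomial.eval_multiset_prod, Polynomial.eval_multiset_prod, Multiset.map_map,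
      Multiset.map_map, Multiset.map_map, ← hcard]
    have h1 : ∀ s : Multiset ℂ, (t : ℂ) ^ Multiset.card s * (s.map (fun x =>
        (Polynomial.X - Polynomial.C ((t : ℂ)⁻¹ * x)).eval z)).prod =
        (s.map (fun x => (Polynomial.X - Polynomial.C x).eval (t * z))).prod := by
      intro s
      induction s using Multiset.induction with
      | empty => simp
      | cons a s ih =>
        rw [Multiset.card_cons, Multiset.map_cons, Multiset.map_cons, Multiset.prod_cons,
          Multiset.prod_cons, ← ih, pow_succ, Polynomial.eval_sub, Polynomial.eval_sub,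
          Polynomial.eval_X, Polynomial.eval_X, Polynomial.eval_C, Polynomial.eval_C]
        field_simp
    exact h1 _
  refine ⟨Q, ⟨Polynomial.monic_multiset_prod_of_monic _ _ fun a _ =>
    Polynomial.monic_X_sub_C a, ?_⟩, ?_⟩
  · refine Polynomial.eq_of_infinite_eval_eq _ _ ?_
    refine (Set.infinite_range_of_injective Complex.ofReal_injective).mono ?_
    rintro _ ⟨y, rfl⟩
    rw [Set.mem_setOf_eq, Polynomial.eval_mul, DF1b_conj, DF1b_charpoly]
    have h1 := congrArg (Polynomial.eval ((t * y : ℝ) : ℂ)) hp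
    rw [Polynomial.eval_mul, DF1b_conj, DF1b_charpoly] at h1
    have h2 : algebraMap ℝ (Module.End ℝ (Er n)) (t * y) - A'.toLinearMap =
        t • (algebraMap ℝ (Module.End ℝ (Er n)) y - A.toLinearMap) := by
      rw [hA', map_mul, smul_sub, Algebra.smul_def t (algebraMap ℝ (Module.End ℝ (Er n)) y)]
    rw [h2, LinearMap.det_smul, ← hdeg, Complex.ofReal_mul, Complex.ofReal_mul,
      ← hQe, map_mul, map_pow, Complex.conj_ofReal, Complex.ofReal_pow] at h1
    have h3 : (t : ℂ) ^ P.natDegree ≠ 0 := pow_ne_zero _ ht'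
    have h4 : (t : ℂ) ^ (2 * P.natDegree) ≠ 0 := pow_ne_zero _ ht'
    apply mul_left_cancel₀ h4
    rw [← h1, two_mul, pow_add]
    ring
  · rw [hQr, Multiset.map_map]
    have h1 : ((fun x => (t : ℂ) * x) ∘ fun x => (t : ℂ)⁻¹ * x) = id := by
      funext x
      simp only [Function.comp_apply, id]
      rw [← mul_assoc, mul_inv_cancel₀ ht', one_mul]
    rw [h1, Multiset.map_id]

end

section

variable {n : ℕ} {M : Type u} [TopologicalSpace M] [ChartedSpace (Er n) M]
  [IsManifold (𝓡 n) ∞ M] [CompactSpace M] [T2Space M]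

/-- Let `g^k x = x`, `B = D(g^k)_x`, `C = D(g^N)_x`: `B^N = D(g^(kN))_x = C^k` (`dfix_iterate`, file D4e), `hyp_pow`,
`det_pow_ne`. -/
theorem perHyp_ndl {N : ℕ} {g : Dif n M} (h : PerHyp N g) {k : ℕ} (hk : 0 < k) :
    NdL k Set.univ g := by
  intro x _ hx
  obtain ⟨hN, hH⟩ := h x k hk hx
  have h1 := dfix_iterate g k N hx
  have h2 := dfix_iterate g N k hN
  rw [Nat.mul_comm N k] at h2
  rw [h1] at h2
  have h3 := hyp_pow hH hk
  rw [← h2] at h3
  exact det_pow_ne h3

/-- All the powers have the same fixed points. -/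
theorem perHyp_fix {N : ℕ} (hN : 0 < N) {g : Dif n M} (h : PerHyp N g) {k : ℕ} (hk : 0 < k) (x : M) :
    (g : M → M)^[N * k] x = x ↔ (g : M → M)^[N] x = x := by
  constructor
  · intro hx
    exact (h x (N * k) (Nat.mul_pos hN hk) hx).1
  · intro hx
    have h1 : Function.IsPeriodicPt (g : M → M) N x := hx
    exact h1.mul_const k

end

end FB
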