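import Mathlib

/-!
# Theorem B: numeric lemma for the density
-/

namespace FB

open scoped Topology
open Filter

/-- One multiset `a`, one real `C`.  Put `u = e log (1 + s)`, so `log ‖(1+s)^e l‖ = u + log ‖l‖`; for `s` near `0` all these are `≠ 0`
(`l ∈ a`).  If `C = 0` the claim is clear.  Otherwise `d ∏ (-(u + log‖l‖))⁻¹ + C = 0` means `C ∏ (-(u + log ‖l‖)) + d = 0`, a polynomial
equation in `u` of degree `card a > 0`, with finitely many solutions `u`, and `s ↦ e log (1+s)` is injective on `s > 0`. -/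
theorem eventually_log (a : Multiset ℂ) (ha : ∀ l ∈ a, l ≠ 0 ∧ ‖l‖ ≠ 1)
    (hm : 0 < Multiset.card a) (d e : ℕ) (hd : 0 < d) (he : 0 < e) (C : ℝ) :
    ∀ᶠ s : ℝ in 𝓝[>] 0,
      (d : ℝ) * ((a.map (fun l => - Real.log ‖(((1 + s) ^ e : ℝ) : ℂ) * l‖)).prod)⁻¹ + C ≠ 0 := by
  set L : Multiset ℝ := a.map (fun l => - Real.log ‖l‖) with hL
  set q : Polynomial ℝ := (L.map (fun x => Polynomial.X - Polynomial.C x)).prod with hq
  set r : ℝ := (-1) ^ (Multiset.card a) * (-C / d)⁻¹ with hr
  have hdeg : q.natDegree = Multiset.card a := by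
    rw [hq, Polynomial.natDegree_multiset_prod_X_sub_C_eq_card, hL, Multiset.card_map]
  have hne : q - Polynomial.C r ≠ 0 := by
    intro h
    rw [sub_eq_zero.1 h, Polynomial.natDegree_C] at hdeg
    omega
  have hclosed : IsClosed ((((q - Polynomial.C r).roots.toFinset : Set ℝ)) \ {0}) :=
    ((Finset.finite_toSet _).subset Set.diff_subset).isClosed
  have htend : Tendsto (fun s : ℝ => (e : ℝ) * Real.log (1 + s)) (𝓝[>] 0) (𝓝 0) := by
    have hc : ContinuousAt (fun s : ℝ => (e : ℝ) * Real.log (1 + s)) 0 := by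
      refine continuousAt_const.mul ?_
      refine ContinuousAt.log (continuousAt_const.add continuousAt_id) ?_
      norm_num
    have h1 := hc.tendsto
    simp only [add_zero, Real.log_one, mul_zero] at h1
    exact h1.mono_left nhdsWithin_le_nhds
  have hev : ∀ᶠ s : ℝ in 𝓝[>] 0, (e : ℝ) * Real.log (1 + s) ∉
      ((((q - Polynomial.C r).roots.toFinset : Set ℝ)) \ {0}) :=
    htend.eventually (hclosed.isOpen_compl.mem_nhds (by simp))
  filter_upwards [hev, self_mem_nhdsWithin] with s hs hs0 hzero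
  have hs1 : (0 : ℝ) < s := hs0
  have hu : (e : ℝ) * Real.log (1 + s) ≠ 0 := by
    have h1 : 0 < Real.log (1 + s) := Real.log_pos (by linarith)
    have h2 : (0 : ℝ) < e := by exact_mod_cast he
    positivity
  apply hs
  refine ⟨?_, hu⟩
  rw [Finset.mem_coe, Multiset.mem_toFinset, Polynomial.mem_roots hne, Polynomial.IsRoot.def,
    Polynomial.eval_sub, Polynomial.eval_C, sub_eq_zero]
  have hprod : (a.map (fun l => - Real.log ‖(((1 + s) ^ e : ℝ) : ℂ) * l‖)).prod =
      (-1) ^ (Multiset.card a) * q.eval ((e : ℝ) * Real.log (1 + s)) := by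
    rw [hq, Polynomial.eval_multiset_prod, hL, Multiset.map_map, Multiset.map_map]
    have h1 : ∀ l ∈ a, - Real.log ‖(((1 + s) ^ e : ℝ) : ℂ) * l‖ =
        -1 * (Polynomial.eval ((e : ℝ) * Real.log (1 + s)) ∘
          (fun x : ℝ => Polynomial.X - Polynomial.C x) ∘ fun l : ℂ => - Real.log ‖l‖) l := by
      intro l hl
      have hl0 : ‖l‖ ≠ 0 := norm_ne_zero_iff.2 (ha l hl).1
      have hp : (0 : ℝ) < (1 + s) ^ e := by positivity
      rw [norm_mul, Complex.norm_real, Real.norm_of_nonneg hp.le, Real.log_mul hp.ne' hl0,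
        Real.log_pow]
      simp only [Function.comp_apply, Polynomial.eval_sub, Polynomial.eval_X, Polynomial.eval_C]
      ring
    rw [Multiset.map_congr rfl h1, Multiset.prod_map_mul]
    simp
  have hdR : (d : ℝ) ≠ 0 := by exact_mod_cast hd.ne'
  have hinv : ((a.map (fun l => - Real.log ‖(((1 + s) ^ e : ℝ) : ℂ) * l‖)).prod)⁻¹ = -C / d := by
    rw [eq_div_iff hdR]
    linarith
  have hval := congrArg (fun x : ℝ => x⁻¹) hinv
  simp only [inv_inv] at hval
  rw [hprod] at hval
  rw [hr, ← hval, ← mul_assoc, ← mul_pow]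
  norm_num

theorem eventually_log_all (S : Set (Multiset ℂ)) (hS : S.Finite)
    (ha : ∀ a ∈ S, ∀ l ∈ a, l ≠ 0 ∧ ‖l‖ ≠ 1) (hm : ∀ a ∈ S, 0 < Multiset.card a)
    (d e : ℕ) (hd : 0 < d) (he : 0 < e) (F : Set ℝ) (hF : F.Finite) :
    ∀ᶠ s : ℝ in 𝓝[>] 0, ∀ a ∈ S, ∀ C ∈ F,
      (d : ℝ) * ((a.map (fun l => - Real.log ‖(((1 + s) ^ e : ℝ) : ℂ) * l‖)).prod)⁻¹ + C ≠ 0 := by
  rw [Filter.eventually_all_finite hS]
  intro a haS
  rw [Filter.eventually_all_finite hF]
  intro C _
  exact eventually_log a (ha a haS) (hm a haS) d e hd he C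

/-- The sums of choices from finite sets form a finite set (as `finite_sums`, file DF2). -/
theorem finite_sums_real {ι : Type*} (T : Finset ι) (S : ι → Set ℝ) (hS : ∀ i ∈ T, (S i).Finite) :
    {z : ℝ | ∃ a : ι → ℝ, (∀ i ∈ T, a i ∈ S i) ∧ z = ∑ i ∈ T, a i}.Finite := by
  classical
  induction T using Finset.induction_on with
  | empty =>
    refine (Set.finite_singleton (0 : ℝ)).subset ?_
    rintro z ⟨a, -, rfl⟩
    exact Finset.sum_empty
  | insert i T hi ih =>
    have h1 := ih fun j hj => hS j (Finset.mem_insert_of_mem hj)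
    refine (Set.Finite.image2 (fun x y : ℝ => x + y) (hS i (Finset.mem_insert_self i T)) h1).subset ?_
    rintro z ⟨a, ha, rfl⟩
    refine ⟨a i, ha i (Finset.mem_insert_self i T), ∑ j ∈ T, a j,
      ⟨a, fun j hj => ha j (Finset.mem_insert_of_mem hj), rfl⟩, ?_⟩
    exact (Finset.sum_insert hi).symm

/-- As `sum_orbit_gen` (file D4j), for a function constant on the orbit. -/
theorem sum_orbit_real {X : Type*} {g : X → X} {d : ℕ} {p : X} (hp : g^[d] p = p) (hd : 0 < d)
    (hmin : ∀ i, 0 < i → i < d → g^[i] p ≠ p) (F T : Finset X)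
    (hF : ∀ i, g^[i] p ∈ F) (hT : ∀ x, x ∈ T ↔ x ∈ F ∧ ∀ i, g^[i] p ≠ x) (c : X → ℝ) (v : ℝ)
    (hc : ∀ i, c (g^[i] p) = v) :
    ∑ x ∈ F, c x = (d : ℝ) * v + ∑ x ∈ T, c x := by
  classical
  have hper : Function.IsPeriodicPt g d p := hp
  have hmod : ∀ i, g^[i % d] p = g^[i] p := fun i => hper.iterate_mod_apply i
  have hinj : ∀ i j, i < j → j < d → g^[i] p ≠ g^[j] p := by
    intro i j hij hjk h
    have h1 : g^[d - j] (g^[i] p) = p := by
      rw [h, ← Function.iterate_add_apply, Nat.sub_add_cancel hjk.le, hp]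
    rw [← Function.iterate_add_apply] at h1
    exact hmin (d - j + i) (by omega) (by omega) h1
  set O : Finset X := (Finset.range d).image (fun i => g^[i] p) with hO
  have hFO : F = O ∪ T := by
    ext x
    rw [Finset.mem_union, hT, hO, Finset.mem_image]
    constructor
    · intro hx
      by_cases h : ∃ i, g^[i] p = x
      · obtain ⟨i, hi⟩ := h
        left
        exact ⟨i % d, Finset.mem_range.2 (Nat.mod_lt _ hd), by rw [hmod, hi]⟩
      · right
        exact ⟨hx, fun i hi => h ⟨i, hi⟩⟩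
    · rintro (⟨i, -, rfl⟩ | ⟨hx, -⟩)
      · exact hF i
      · exact hx
  have hdisj : Disjoint O T := by
    rw [Finset.disjoint_left]
    intro x hx hxT
    rw [hO, Finset.mem_image] at hx
    obtain ⟨i, -, hi⟩ := hx
    exact ((hT x).1 hxT).2 i hi
  rw [hFO, Finset.sum_union hdisj]
  congr 1
  rw [hO, Finset.sum_image]
  · rw [Finset.sum_congr rfl (fun i _ => hc i), Finset.sum_const, Finset.card_range,
      nsmul_eq_mul]
  · intro i hi j hj hij
    rw [Finset.mem_coe, Finset.mem_range] at hi hj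
    rcases lt_trichotomy i j with h | h | h
    · exact absurd hij (hinj i j h hj)
    · exact h
    · exact absurd hij.symm (hinj j i h hi)

end FB
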