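import Pool.Agent.H.MP_fb873c_an.S0

/-! # Part S1: the open condition for all powers (bounded Hodge numbers version) -/

namespace FB

open scoped Topology ContDiff Manifold

universe u

section

variable {n : ℕ} {M : Type u} [TopologicalSpace M] [ChartedSpace (Er n) M]

/-- `P` is a monic complex polynomial with `P · conj P = charpoly A`. -/
def HalfPoly (A : Er n →L[ℝ] Er n) (P : Polynomial ℂ) : Prop :=
  P.Monic ∧ P * P.map (starRingEnd ℂ) = (LinearMap.charpoly A.toLinearMap).map (algebraMap ℝ ℂ)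

/-- `∏ (1 - λ^k)` over the roots `λ` of `P` (with multiplicity). -/
noncomputable def PowEv (P : Polynomial ℂ) (k : ℕ) : ℂ :=
  (P.roots.map (fun l => 1 - l ^ k)).prod

/-- The open condition.  `G = g^n0`; for all `k` in `[N-B, N+B]` the fixed points of `G^k` are
nondegenerate, and for all admissible choices of the numbers `c k x` (the possible values of
`det_ℂ (1 - D(G^k)_x)` for an invariant complex structure) the Toeplitz determinant of the Lefschetz sums
`L(k) = ∑_{G^k x = x} 1 / c k x`, `det (L(N+i-j))_{0 ≤ i,j ≤ B}`, is not zero. -/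
def GoodB (g : Dif n M) (n0 N B : ℕ) : Prop :=
  (∀ k, N - B ≤ k → k ≤ N + B → ∀ x, (g : M → M)^[n0 * k] x = x →
    LinearMap.det ((dfix (n := n) ((g : M → M)^[n0 * k]) x
      - ContinuousLinearMap.id ℝ (Er n) : Er n →L[ℝ] Er n)).toLinearMap ≠ 0) ∧
  ∀ (P : M → Polynomial ℂ) (c : ℕ → M → ℂ),
    (∀ x, (g : M → M)^[n0] x = x →
      HalfPoly (dfix (n := n) ((g : M → M)^[n0]) x) (P x) ∧ P (g x) = P x) →
    (∀ k, N - B ≤ k → k ≤ N + B → ∀ x, (g : M → M)^[n0 * k] x = x →
      c k x ∈ Fac (dfix (n := n) ((g : M → M)^[n0 * k]) x).toLinearMap) →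
    (∀ k, N - B ≤ k → k ≤ N + B → ∀ x, (g : M → M)^[n0] x = x → c k x = PowEv (P x) k) →
    (Matrix.of (fun i j : Fin (B + 1) =>
      ∑ᶠ x ∈ {x | (g : M → M)^[n0 * (N + i - j)] x = x}, (c (N + i - j) x)⁻¹)).det ≠ 0

end

section

variable {n : ℕ} {M : Type u} [TopologicalSpace M] [ChartedSpace (Er n) M]
  [IsManifold (𝓡 n) ∞ M] [CompactSpace M] [T2Space M]

end

end FB
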