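import Pool.Agent.H.MP_fb873c_an.DF1
import Pool.Agent.H.MP_fb873c_an.DF1b
import Pool.Agent.H.MP_fb873c_an.S1

/-!
# Part D4g: algebra of the half polynomials
-/

namespace FB

open scoped Topology ContDiff Manifold
open Filter

section

variable {n : ℕ}

/-- `P` is determined by its roots, a sub-multiset of the roots of `charpoly A`: see the proof of `Fac_finite`
(file DF1). -/
theorem halfPoly_finite (A : Er n →L[ℝ] Er n) : {P : Polynomial ℂ | HalfPoly A P}.Finite := by
  classical
  have hf0 : (LinearMap.charpoly A.toLinearMap).map (algebraMap ℝ ℂ) ≠ 0 :=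
    ((LinearMap.charpoly_monic A.toLinearMap).map (algebraMap ℝ ℂ)).ne_zero
  have h1 : {s : Multiset ℂ | s ≤ ((LinearMap.charpoly A.toLinearMap).map
      (algebraMap ℝ ℂ)).roots}.Finite := by
    refine ((Multiset.powerset ((LinearMap.charpoly A.toLinearMap).map
      (algebraMap ℝ ℂ)).roots).toFinset.finite_toSet).subset ?_
    intro s hs
    simpa using hs
  refine (h1.image fun s => (s.map fun a => Polynomial.X - Polynomial.C a).prod).subset ?_
  rintro P ⟨hp, hpc⟩
  refine ⟨P.roots, Polynomial.roots.le_of_dvd hf0 ⟨_, hpc.symm⟩, ?_⟩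
  show (P.roots.map fun a => Polynomial.X - Polynomial.C a).prod = P
  exact ((IsAlgClosed.splits P).eq_prod_roots_of_monic hp).symm

theorem D4g_deg {A : Er n →L[ℝ] Er n} {P : Polynomial ℂ} (h : HalfPoly A P) :
    2 * P.natDegree = Module.finrank ℝ (Er n) := by
  obtain ⟨hm, hp⟩ := h
  have h1 := congrArg Polynomial.natDegree hp
  rw [(LinearMap.charpoly_monic _).natDegree_map, LinearMap.charpoly_natDegree,
    hm.natDegree_mul (hm.map _), hm.natDegree_map] at h1
  omega

/-- Compare degrees (see `Fac_even` in DF1); `P` splits (`IsAlgClosed.splits`,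
`Polynomial.splits_iff_card_roots`). -/
theorem halfPoly_card {A : Er n →L[ℝ] Er n} {P : Polynomial ℂ} (h : HalfPoly A P) :
    2 * Multiset.card P.roots = n := by
  have h1 := D4g_deg h
  have hcard : Multiset.card P.roots = P.natDegree :=
    Polynomial.splits_iff_card_roots.1 (IsAlgClosed.splits P)
  rw [hcard, h1]
  simp [Er]

/-- `P(1) ≠ 0`: `P(1) * conj (P(1)) = charpoly A (1) = det (1 - A)`, `Fac_ne_zero` (file DF1) with `c = P.eval 1`. -/
theorem halfPoly_one {A : Er n →L[ℝ] Er n} {P : Polynomial ℂ} (h : HalfPoly A P)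
    (hA : LinearMap.det ((A - ContinuousLinearMap.id ℝ (Er n) : Er n →L[ℝ] Er n)).toLinearMap ≠ 0) :
    (1 : ℂ) ∉ P.roots := by
  intro h1
  have h2 : P.eval 1 = 0 := Polynomial.isRoot_of_mem_roots h1
  exact Fac_ne_zero (A := A.toLinearMap) ⟨P, h.1, h.2, rfl⟩ hA h2

/-- See the proof of `Fac_shift` (file DF1b): `P'(Y) = t^{-m} P(t Y + s)`, `t = 1 - s`, is monic and
`P' * conj P' = charpoly A`.  Its roots are the `(x - s)/t`, `x` a root of `P`: write
`P = ∏ (X - x)` (`Polynomial.Splits`, `IsAlgClosed`), so `P' = ∏ (X - (x - s)/t)`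
(`Polynomial.roots_multiset_prod_X_sub_C`).  It may be easier to define `P'` as the product
`(P.roots.map fun x => X - C ((x - s)/t)).prod`. -/
theorem halfPoly_shift {A A' : Er n →L[ℝ] Er n} {s : ℝ} (hs : s ≠ 1)
    (hA' : A'.toLinearMap = (1 - s) • A.toLinearMap + s • (1 : Er n →ₗ[ℝ] Er n))
    {P : Polynomial ℂ} (h : HalfPoly A' P) :
    ∃ P', HalfPoly A P' ∧ P.roots = P'.roots.map (fun x => ((1 - s : ℝ) : ℂ) * x + (s : ℂ)) := by
  have hdeg := D4g_deg h
  obtain ⟨hm, hp⟩ := h
  set t : ℝ := 1 - s with ht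
  have ht0 : t ≠ 0 := sub_ne_zero.2 (Ne.symm hs)
  have ht' : (t : ℂ) ≠ 0 := by exact_mod_cast ht0
  have hcard : Multiset.card P.roots = P.natDegree :=
    Polynomial.splits_iff_card_roots.1 (IsAlgClosed.splits P)
  have hprod : P = (P.roots.map fun a => Polynomial.X - Polynomial.C a).prod :=
    (IsAlgClosed.splits P).eq_prod_roots_of_monic hm
  set Q : Polynomial ℂ := ((P.roots.map fun x => (t : ℂ)⁻¹ * (x - s)).map
    fun a => Polynomial.X - Polynomial.C a).prod with hQ
  have hQr : Q.roots = P.roots.map fun x => (t : ℂ)⁻¹ * (x - s) :=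
    Polynomial.roots_multiset_prod_X_sub_C _
  have hQe : ∀ z : ℂ, (t : ℂ) ^ P.natDegree * Q.eval z = P.eval (t * z + s) := by
    intro z
    conv_rhs => rw [hprod]
    rw [hQ, Polynomial.eval_multiset_prod, Polynomial.eval_multiset_prod, Multiset.map_map,
      Multiset.map_map, Multiset.map_map, ← hcard]
    have h1 : ∀ S : Multiset ℂ, (t : ℂ) ^ Multiset.card S * (S.map (fun x =>
        (Polynomial.X - Polynomial.C ((t : ℂ)⁻¹ * (x - s))).eval z)).prod =
        (S.map (fun x => (Polynomial.X - Polynomial.C x).eval (t * z + s))).prod := by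
      intro S
      induction S using Multiset.induction with
      | empty => simp
      | cons a S ih =>
        rw [Multiset.card_cons, Multiset.map_cons, Multiset.map_cons, Multiset.prod_cons,
          Multiset.prod_cons, ← ih, pow_succ, Polynomial.eval_sub, Polynomial.eval_sub,
          Polynomial.eval_X, Polynomial.eval_X, Polynomial.eval_C, Polynomial.eval_C]
        field_simp
        ring
    exact h1 _
  refine ⟨Q, ⟨Polynomial.monic_multiset_prod_of_monic _ _ fun a _ =>
    Polynomial.monic_X_sub_C a, ?_⟩, ?_⟩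
  · refine Polynomial.eq_of_infinite_eval_eq _ _ ?_
    refine (Set.infinite_range_of_injective Complex.ofReal_injective).mono ?_
    rintro _ ⟨y, rfl⟩
    rw [Set.mem_setOf_eq, Polynomial.eval_mul, DF1b_conj, DF1b_charpoly]
    have h1 := congrArg (Polynomial.eval ((t * y + s : ℝ) : ℂ)) hp
    rw [Polynomial.eval_mul, DF1b_conj, DF1b_charpoly] at h1
    have h2 : algebraMap ℝ (Module.End ℝ (Er n)) (t * y + s) - A'.toLinearMap =
        t • (algebraMap ℝ (Module.End ℝ (Er n)) y - A.toLinearMap) := by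
      rw [hA']
      ext1 v
      simp only [Module.algebraMap_end_apply, LinearMap.sub_apply, LinearMap.add_apply,
        LinearMap.smul_apply, Module.End.one_apply]
      module
    rw [h2, LinearMap.det_smul, ← hdeg, Complex.ofReal_add, Complex.ofReal_mul,
      Complex.ofReal_mul, ← hQe, map_mul, map_pow, Complex.conj_ofReal, Complex.ofReal_pow] at h1
    have h4 : (t : ℂ) ^ (2 * P.natDegree) ≠ 0 := pow_ne_zero _ ht'
    apply mul_left_cancel₀ h4
    rw [← h1, two_mul, pow_add]
    ring
  · rw [hQr, Multiset.map_map]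
    have h1 : ((fun x => (t : ℂ) * x + (s : ℂ)) ∘ fun x => (t : ℂ)⁻¹ * (x - s)) = id := by
      funext x
      simp only [Function.comp_apply, id]
      rw [← mul_assoc, mul_inv_cancel₀ ht', one_mul, sub_add_cancel]
    rw [h1, Multiset.map_id]

end

end FB
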