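import Pool.Agent.H.MP_fb873c_an.B2a
import Pool.Agent.H.MP_fb873c_an.B2b
import Pool.Agent.H.MP_fb873c_an.D4g

/-!
# Theorem B: density of `GoodS`
-/

namespace FB

open scoped Topology ContDiff Manifold
open Filter

universe u

section

variable {n : ℕ} {M : Type u} [TopologicalSpace M] [ChartedSpace (Er n) M]
  [IsManifold (𝓡 n) ∞ M] [CompactSpace M] [T2Space M]

/-- `p` periodic, `d` its minimal period, `N = d e`.  `pert_orbit` with `Bl = 1`; as in `toeplitz_step` (file D4j). -/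
theorem exists_goodS (hn : 0 < n) {N : ℕ} (hN : 0 < N) {f : Dif n M} {O : Set (Dif n M)}
    (hO : IsOpen[crTop n M ⊤] O) (hf : f ∈ O) (hOP : ∀ g ∈ O, PerHyp N g)
    (hper : ∃ (x : M) (k : ℕ), 0 < k ∧ (f : M → M)^[k] x = x) :
    ∃ g ∈ O, GoodS N g := by
  classical
  obtain ⟨p, k, hk, hpk⟩ := hper
  have hpN : (f : M → M)^[N] p = p := (hOP f hf p k hk hpk).1
  have hperN : Function.IsPeriodicPt (f : M → M) N p := hpN
  obtain ⟨d, hdd⟩ : ∃ d, d = Function.minimalPeriod (f : M → M) p := ⟨_, rfl⟩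
  have hd : 0 < d := by
    rw [hdd]
    exact hperN.minimalPeriod_pos hN
  have hp : (f : M → M)^[d] p = p := by
    rw [hdd]
    exact Function.iterate_minimalPeriod
  have hmin : ∀ i, 0 < i → i < d → (f : M → M)^[i] p ≠ p := by
    intro i h1 h2 h3
    rw [hdd] at h2
    exact Function.not_isPeriodicPt_of_pos_of_lt_minimalPeriod h1.ne' h2 h3
  obtain ⟨e, hde⟩ : d ∣ N := by
    rw [hdd]
    exact hperN.minimalPeriod_dvd
  have he : 0 < e := by
    rcases Nat.eq_zero_or_pos e with h | h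
    · rw [h, Nat.mul_zero] at hde
      omega
    · exact h
  have hdN : d ≤ N := by
    rw [hde]
    exact Nat.le_mul_of_pos_right _ he
  have hnd : ∀ k, 0 < k → k ≤ N → NdL k Set.univ f := fun k hk _ => perHyp_ndl (hOP f hf) hk
  obtain ⟨H, hH, hH0, hev⟩ := pert_orbit hnd hd hdN hp hmin (ContinuousLinearMap.id ℝ (Er n))
  have hO' := eventually_mem_open f H hH0 hH hO hf
  have hfin : {x | (f : M → M)^[N] x = x}.Finite :=
    finite_fix (n := n) fun x hx => hnd N hN le_rfl x (Set.mem_univ x) hx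
  set F : Finset M := hfin.toFinset with hFdef
  have hF : ∀ x, x ∈ F ↔ (f : M → M)^[N] x = x := by
    intro x
    rw [hFdef, Set.Finite.mem_toFinset]
    rfl
  set T : Finset M := F.filter (fun x => ∀ i, (f : M → M)^[i] p ≠ x) with hTdef
  have hT : ∀ x, x ∈ T ↔ x ∈ F ∧ ∀ i, (f : M → M)^[i] p ≠ x := by
    intro x
    rw [hTdef, Finset.mem_filter]
  -- finite sets of sums
  have hCSf := finite_sums_real T (fun x => LogEv ''
      {P | HalfPoly (dfix (n := n) ((f : M → M)^[N]) x) P}) (fun x _ => (halfPoly_finite _).image _)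
  -- the multisets of roots
  set S : Set (Multiset ℂ) := (fun P : Polynomial ℂ => P.roots) ''
    {P | HalfPoly (dfix (n := n) ((f : M → M)^[N]) p) P} with hS
  have hSf : S.Finite := (halfPoly_finite _).image _
  have hSa : ∀ a ∈ S, ∀ l ∈ a, l ≠ 0 ∧ ‖l‖ ≠ 1 := by
    rintro a ⟨P, hP, rfl⟩
    obtain ⟨A', hA'⟩ := dfix_equiv f N hpN
    exact halfPoly_hyp (hOP f hf p N hN hpN).2 A' hA' hP
  have hSm : ∀ a ∈ S, 0 < Multiset.card a := by
    rintro a ⟨P, hP, rfl⟩
    have h1 := halfPoly_card hP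
    show 0 < Multiset.card P.roots
    omega
  have hnum := eventually_log_all S hSf hSa hSm d e hd he _ hCSf
  have hs0 : ∀ᶠ s : ℝ in 𝓝[>] 0, 0 < s := eventually_mem_nhdsWithin
  obtain ⟨s, ⟨⟨hsO, hsnd, hsfix, hsval, hsp, hsx⟩, hsnum⟩, hs0⟩ :=
    (((hO'.and hev).filter_mono (nhdsWithin_le_nhds (s := Set.Ioi (0 : ℝ)))
      |>.and hnum).and hs0).exists
  refine ⟨H s, hsO, ?_⟩
  intro P hP
  -- the orbit of `p`
  have hgp : ∀ i, (f : M → M)^[N] ((f : M → M)^[i] p) = (f : M → M)^[i] p := by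
    intro i
    rw [← Function.iterate_add_apply, add_comm, Function.iterate_add_apply, hpN]
  have hHp : ∀ i, (H s : M → M)^[N] ((f : M → M)^[i] p) = (f : M → M)^[i] p := fun i =>
    (hsfix N hN le_rfl _).2 (hgp i)
  have hPi : ∀ i, P ((f : M → M)^[i] p) = P p := by
    intro i
    induction i with
    | zero => rfl
    | succ i ih =>
      have h1 := (hP _ (hHp i)).2
      rw [hsval N hN le_rfl _ (hgp i)] at h1
      rw [Function.iterate_succ_apply', h1, ih]
  -- the derivative at `p`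
  have hHd : (H s : M → M)^[d] p = p := (hsfix d hd hdN p).2 hp
  have ht : ((1 + s) ^ e : ℝ) ≠ 0 := pow_ne_zero _ (by linarith)
  have hAs : (dfix (n := n) ((H s : M → M)^[N]) p).toLinearMap =
      ((1 + s) ^ e : ℝ) • (dfix (n := n) ((f : M → M)^[N]) p).toLinearMap := by
    rw [hde, dfix_iterate (H s) d e hHd, dfix_iterate f d e hp, hsp]
    have h1 : ((dfix (n := n) ((f : M → M)^[d]) p) ∘L
        (ContinuousLinearMap.id ℝ (Er n) + s • ContinuousLinearMap.id ℝ (Er n))).toLinearMap =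
        (1 + s) • (dfix (n := n) ((f : M → M)^[d]) p).toLinearMap := by
      ext1 v
      show dfix (n := n) ((f : M → M)^[d]) p (v + s • v) =
        (1 + s) • dfix (n := n) ((f : M → M)^[d]) p v
      rw [map_add, map_smul, add_smul, one_smul]
    rw [h1, smul_pow]
  have hPp := (hP p (by simpa using hHp 0)).1
  obtain ⟨P', hP', hroots⟩ := halfPoly_scale ht hAs hPp
  have hlog : LogEv (P p) = ((P'.roots.map (fun l =>
      - Real.log ‖(((1 + s) ^ e : ℝ) : ℂ) * l‖)).prod)⁻¹ := by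
    unfold LogEv
    rw [hroots, Multiset.map_map]
    rfl
  have hset : {x | (H s : M → M)^[N] x = x} = (F : Set M) := by
    ext x
    rw [Set.mem_ofPred_eq, Finset.mem_coe, hF x]
    exact hsfix N hN le_rfl x
  rw [hset, finsum_mem_coe_finset, sum_orbit_real hp hd hmin F T (fun i => (hF _).2 (hgp i)) hT
    (fun x => LogEv (P x)) (LogEv (P p)) (fun i => by rw [hPi i]), hlog]
  refine hsnum P'.roots ⟨P', hP', rfl⟩ _ ⟨fun x => LogEv (P x), ?_, rfl⟩
  intro x hx
  have hx' := (hT x).1 hx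
  have hxF := (hF x).1 hx'.1
  have h3 := (hP x ((hsfix N hN le_rfl x).2 hxF)).1
  rw [hsx N hN le_rfl x hxF hx'.2 N hxF] at h3
  exact ⟨P x, h3, rfl⟩

end

end FB
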