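import Pool.Agent.H.MP_fb873c_an.S0

/-!
# Part D1h: limits of factorisations
-/

namespace FB

open scoped Topology ContDiff Manifold
open Filter Polynomial

universe v

theorem D1h_charpoly {n : ℕ} (A : Er n →L[ℝ] Er n) (t : ℝ) :
    ((LinearMap.charpoly A.toLinearMap).map (algebraMap ℝ ℂ)).eval (t : ℂ) =
      ((LinearMap.det (algebraMap ℝ (Module.End ℝ (Er n)) t - A.toLinearMap) : ℝ) : ℂ) := by
  rw [← LinearMap.eval_charpoly, Polynomial.eval_map]
  exact Polynomial.eval₂_hom (algebraMap ℝ ℂ) t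

theorem D1h_conj (p : ℂ[X]) (t : ℝ) :
    (p.map (starRingEnd ℂ)).eval (t : ℂ) = (starRingEnd ℂ) (p.eval (t : ℂ)) := by
  have h := Polynomial.eval₂_hom (p := p) (starRingEnd ℂ) (t : ℂ)
  rw [Complex.conj_ofReal] at h
  rw [Polynomial.eval_map]
  exact h

/-- Evaluation of a factorisation at a real point: `p(t) · conj (p(t)) = det (t - A)`.
PROOF. Evaluate `p * p.map conj = charpoly(A)` at `t`: `(p.map conj).eval t = conj (p.eval t)` for real
`t` (Polynomial.eval₂_hom / eval_map and conj t = t), `LinearMap.eval_charpoly`. -/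
theorem D1h_eval {n : ℕ} (A : Er n →L[ℝ] Er n) {p : ℂ[X]}
    (hp : p * p.map (starRingEnd ℂ) = (LinearMap.charpoly A.toLinearMap).map (algebraMap ℝ ℂ))
    (t : ℝ) : p.eval (t : ℂ) * (starRingEnd ℂ) (p.eval (t : ℂ)) =
      ((LinearMap.det (algebraMap ℝ (Module.End ℝ (Er n)) t - A.toLinearMap) : ℝ) : ℂ) := by
  have h := congrArg (Polynomial.eval (t : ℂ)) hp
  rw [Polynomial.eval_mul, D1h_conj, D1h_charpoly] at h
  exact h

theorem D1h_ultra {ι : Type v} (l : Ultrafilter ι) {f : ι → ℂ} {B : ℝ}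
    (h : ∀ᶠ i in (l : Filter ι), ‖f i‖ ≤ B) : ∃ w, Tendsto f l (𝓝 w) := by
  have h1 : ((l.map f : Ultrafilter ℂ) : Filter ℂ) ≤ 𝓟 (Metric.closedBall 0 B) := by
    rw [Ultrafilter.coe_map, Filter.le_principal_iff, Filter.mem_map]
    filter_upwards [h] with i hi
    show f i ∈ Metric.closedBall 0 B
    rw [mem_closedBall_zero_iff]
    exact hi
  obtain ⟨w, -, hw⟩ := (isCompact_closedBall (0 : ℂ) B).ultrafilter_le_nhds (l.map f) h1
  exact ⟨w, hw⟩

theorem D1h_det {n : ℕ} {ι : Type v} {l : Filter ι} {A : ι → (Er n →L[ℝ] Er n)}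
    {A0 : Er n →L[ℝ] Er n} (hA : Tendsto A l (𝓝 A0)) (t : ℝ) :
    Tendsto (fun i => LinearMap.det (algebraMap ℝ (Module.End ℝ (Er n)) t - (A i).toLinearMap)) l
      (𝓝 (LinearMap.det (algebraMap ℝ (Module.End ℝ (Er n)) t - A0.toLinearMap))) := by
  have h1 : Continuous (fun B : Er n →L[ℝ] Er n =>
      (t • ContinuousLinearMap.id ℝ (Er n) - B).det) :=
    ContinuousLinearMap.continuous_det.comp (continuous_const.sub continuous_id)
  have h2 : ∀ B : Er n →L[ℝ] Er n, (t • ContinuousLinearMap.id ℝ (Er n) - B).det =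
      LinearMap.det (algebraMap ℝ (Module.End ℝ (Er n)) t - B.toLinearMap) := by
    intro B
    show LinearMap.det ((t • ContinuousLinearMap.id ℝ (Er n) - B : Er n →L[ℝ] Er n) :
      Er n →ₗ[ℝ] Er n) = _
    congr 1
  have h3 := (h1.tendsto A0).comp hA
  simp only [h2] at h3
  exact h3

theorem D1h_deg {n : ℕ} (A : Er n →L[ℝ] Er n) {p : ℂ[X]} (hm : p.Monic)
    (hp : p * p.map (starRingEnd ℂ) = (LinearMap.charpoly A.toLinearMap).map (algebraMap ℝ ℂ)) :
    p.natDegree = n / 2 := by
  have h1 := congrArg natDegree hp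
  rw [(LinearMap.charpoly_monic A.toLinearMap).natDegree_map, LinearMap.charpoly_natDegree,
    hm.natDegree_mul (hm.map _), hm.natDegree_map, finrank_euclideanSpace_fin] at h1
  omega

/-- Closed graph of `Fac`.
PROOF. For `i` in a set of `l` choose `p i` monic, `p i * conj = charpoly (A i)`, `c i = (p i).eval 1`.
Degrees: `2 * natDegree (p i) = n` (Polynomial.natDegree_mul', natDegree_map, Monic; the characteristic
polynomial has degree `n`), so `natDegree (p i) = m` is constant.  For every real `t`, `‖(p i).eval t‖ ^ 2 =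
det (t - A i)` tends to `det (t - A0)` (ContinuousLinearMap.continuous_det), so it is bounded along `l` and
the ultrafilter limit `w t` of `(p i).eval t` exists (closed balls of `ℂ` are compact:
IsCompact.ultrafilter_le_nhds, l.map).  By Lagrange interpolation at the points `0, …, m` (Lagrange.eq_interpolate,
Lagrange.interpolate_apply: `p i = ∑ j, C ((p i).eval j) * basis j`) put `p0 := ∑ j ∈ range (m+1), C (w j) * basis j`;
then every coefficient of `p i` tends to that of `p0` and `(p i).eval z → p0.eval z` for all `z`.  Hence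
`p0` has coefficient `1` in degree `m` and `0` above: monic.  For real `t`: `p0(t) conj(p0(t)) = lim det (t - A i) =
det (t - A0) = charpoly A0 (t)`; two polynomials that agree at all real points are equal
(Polynomial.eq_of_infinite_eval_eq; the set of real points is infinite). `c0 = p0.eval 1`. -/
theorem Fac_closed {n : ℕ} {ι : Type v} (l : Ultrafilter ι) (A : ι → (Er n →L[ℝ] Er n))
    (A0 : Er n →L[ℝ] Er n) (hA : Tendsto A l (𝓝 A0)) (c : ι → ℂ)
    (hc : ∀ᶠ i in (l : Filter ι), c i ∈ Fac (A i).toLinearMap) :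
    ∃ c0 ∈ Fac A0.toLinearMap, Tendsto c l (𝓝 c0) := by
  classical
  let p : ι → ℂ[X] := fun i => if h : c i ∈ Fac (A i).toLinearMap then h.choose else 0
  have hp : ∀ᶠ i in (l : Filter ι), (p i).Monic ∧ p i * (p i).map (starRingEnd ℂ) =
      (LinearMap.charpoly (A i).toLinearMap).map (algebraMap ℝ ℂ) ∧ c i = (p i).eval 1 := by
    filter_upwards [hc] with i hi
    have h1 : p i = hi.choose := dif_pos hi
    rw [h1]
    exact hi.choose_spec
  have hdeg : ∀ᶠ i in (l : Filter ι), (p i).natDegree = n / 2 := by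
    filter_upwards [hp] with i hi
    exact D1h_deg (A i) hi.1 hi.2.1
  -- values at real points
  have hval : ∀ t : ℝ, Tendsto (fun i => (p i).eval (t : ℂ) * (starRingEnd ℂ) ((p i).eval (t : ℂ)))
      l (𝓝 ((LinearMap.det (algebraMap ℝ (Module.End ℝ (Er n)) t - A0.toLinearMap) : ℝ) : ℂ)) := by
    intro t
    have h1 := (Complex.continuous_ofReal.tendsto _).comp (D1h_det hA t)
    refine h1.congr' ?_
    filter_upwards [hp] with i hi
    exact (D1h_eval (A i) hi.2.1 t).symm
  have hex : ∀ j : ℕ, ∃ w, Tendsto (fun i => (p i).eval (j : ℂ)) l (𝓝 w) := by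
    intro j
    have h1 := hval (j : ℝ)
    have h2 := h1.norm
    obtain ⟨B, hB⟩ : ∃ B : ℝ, ∀ᶠ i in (l : Filter ι),
        ‖(p i).eval (((j : ℝ) : ℝ) : ℂ) * (starRingEnd ℂ) ((p i).eval ((j : ℝ) : ℂ))‖ ≤ B :=
      ⟨_, h2.eventually (eventually_le_nhds (lt_add_one _))⟩
    refine D1h_ultra l (B := B + 1) ?_
    filter_upwards [hB] with i hi
    rw [norm_mul, RCLike.norm_conj, Complex.ofReal_natCast] at hi
    have h3 : 0 ≤ ‖(p i).eval (j : ℂ)‖ := norm_nonneg _
    nlinarith [sq_nonneg (‖(p i).eval (j : ℂ)‖ - 1)]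
  choose w hw using hex
  set s : Finset ℕ := Finset.range (n / 2 + 1) with hs
  let v : ℕ → ℂ := fun j => (j : ℂ)
  have hv : Set.InjOn v s := fun a _ b _ h => Nat.cast_injective h
  have hlag : ∀ᶠ i in (l : Filter ι),
      p i = ∑ j ∈ s, C ((p i).eval (j : ℂ)) * Lagrange.basis s v j := by
    filter_upwards [hdeg, hp] with i hi hi'
    have h1 : (p i).degree < s.card := by
      rw [hs, Finset.card_range, Polynomial.degree_eq_natDegree hi'.1.ne_zero, hi]
      exact_mod_cast Nat.lt_succ_self _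
    have h2 := Lagrange.eq_interpolate hv h1
    rw [Lagrange.interpolate_apply] at h2
    exact h2
  let p0 : ℂ[X] := ∑ j ∈ s, C (w j) * Lagrange.basis s v j
  have hcoeff : ∀ k, Tendsto (fun i => (p i).coeff k) l (𝓝 (p0.coeff k)) := by
    intro k
    have h1 : Tendsto (fun i => ∑ j ∈ s, (p i).eval (j : ℂ) * (Lagrange.basis s v j).coeff k) l
        (𝓝 (∑ j ∈ s, w j * (Lagrange.basis s v j).coeff k)) :=
      tendsto_finset_sum _ fun j _ => (hw j).mul_const _
    have h2 : p0.coeff k = ∑ j ∈ s, w j * (Lagrange.basis s v j).coeff k := by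
      show (∑ j ∈ s, C (w j) * Lagrange.basis s v j).coeff k = _
      rw [Polynomial.finset_sum_coeff]
      exact Finset.sum_congr rfl fun j _ => Polynomial.coeff_C_mul _
    rw [h2]
    refine h1.congr' ?_
    filter_upwards [hlag] with i hi
    conv_rhs => rw [hi]
    rw [Polynomial.finset_sum_coeff]
    exact Finset.sum_congr rfl fun j _ => (Polynomial.coeff_C_mul _).symm
  have heval : ∀ z : ℂ, Tendsto (fun i => (p i).eval z) l (𝓝 (p0.eval z)) := by
    intro z
    have h1 : Tendsto (fun i => ∑ j ∈ s, (p i).eval (j : ℂ) * (Lagrange.basis s v j).eval z) l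
        (𝓝 (∑ j ∈ s, w j * (Lagrange.basis s v j).eval z)) :=
      tendsto_finset_sum _ fun j _ => (hw j).mul_const _
    have h2 : p0.eval z = ∑ j ∈ s, w j * (Lagrange.basis s v j).eval z := by
      show (∑ j ∈ s, C (w j) * Lagrange.basis s v j).eval z = _
      rw [Polynomial.eval_finset_sum]
      exact Finset.sum_congr rfl fun j _ => by rw [Polynomial.eval_mul, Polynomial.eval_C]
    rw [h2]
    refine h1.congr' ?_
    filter_upwards [hlag] with i hi
    conv_rhs => rw [hi]
    rw [Polynomial.eval_finset_sum]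
    exact Finset.sum_congr rfl fun j _ => by rw [Polynomial.eval_mul, Polynomial.eval_C]
  have hmonic : p0.Monic := by
    refine Polynomial.monic_of_natDegree_le_of_coeff_eq_one (n / 2) ?_ ?_
    · rw [Polynomial.natDegree_le_iff_coeff_eq_zero]
      intro N hN
      refine tendsto_nhds_unique (hcoeff N) ?_
      refine (tendsto_const_nhds (x := (0 : ℂ))).congr' ?_
      filter_upwards [hdeg] with i hi
      exact (Polynomial.coeff_eq_zero_of_natDegree_lt (by rw [hi]; exact hN)).symm
    · refine tendsto_nhds_unique (hcoeff _) ?_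
      refine (tendsto_const_nhds (x := (1 : ℂ))).congr' ?_
      filter_upwards [hdeg, hp] with i hi hi'
      rw [← hi]
      exact hi'.1.coeff_natDegree.symm
  have hfac : p0 * p0.map (starRingEnd ℂ) =
      (LinearMap.charpoly A0.toLinearMap).map (algebraMap ℝ ℂ) := by
    refine Polynomial.eq_of_infinite_eval_eq _ _ ?_
    refine (Set.infinite_range_of_injective Complex.ofReal_injective).mono ?_
    rintro _ ⟨t, rfl⟩
    show (p0 * p0.map (starRingEnd ℂ)).eval (t : ℂ) =
      ((LinearMap.charpoly A0.toLinearMap).map (algebraMap ℝ ℂ)).eval (t : ℂ)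
    rw [Polynomial.eval_mul, D1h_conj, D1h_charpoly]
    refine tendsto_nhds_unique ?_ (hval t)
    exact (heval (t : ℂ)).mul ((Complex.continuous_conj.tendsto _).comp (heval (t : ℂ)))
  refine ⟨p0.eval 1, ⟨p0, hmonic, hfac, rfl⟩, ?_⟩
  refine (heval 1).congr' ?_
  filter_upwards [hp] with i hi
  exact hi.2.2.symm

end FB
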