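import Pool.Agent.H.MP_fb873c_an.D1d
import Pool.Agent.H.MP_fb873c_an.D1h
import Pool.Agent.H.MP_fb873c_an.S1

/-!
# Part D3a: limits of half characteristic polynomials, `PowEv`
-/

namespace FB

open Polynomial Filter
open scoped Topology ContDiff Manifold

universe u v

theorem HalfPoly.deg {n : ℕ} {A : Er n →L[ℝ] Er n} {p : ℂ[X]} (h : HalfPoly A p) :
    p.natDegree = n / 2 := D1h_deg A h.1 h.2

/-- Closed graph of `HalfPoly`. -/
theorem HalfPoly_closed {n : ℕ} {ι : Type v} (l : Ultrafilter ι) (A : ι → (Er n →L[ℝ] Er n))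
    (A0 : Er n →L[ℝ] Er n) (hA : Tendsto A l (𝓝 A0)) (p : ι → ℂ[X])
    (hp : ∀ᶠ i in (l : Filter ι), HalfPoly (A i) (p i)) :
    ∃ p0 : ℂ[X], HalfPoly A0 p0 ∧ ∀ z : ℂ, Tendsto (fun i => (p i).eval z) l (𝓝 (p0.eval z)) := by
  classical
  have hdeg : ∀ᶠ i in (l : Filter ι), (p i).natDegree = n / 2 := by
    filter_upwards [hp] with i hi
    exact D1h_deg (A i) hi.1 hi.2
  -- values at real points
  have hval : ∀ t : ℝ, Tendsto (fun i => (p i).eval (t : ℂ) * (starRingEnd ℂ) ((p i).eval (t : ℂ)))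
      l (𝓝 ((LinearMap.det (algebraMap ℝ (Module.End ℝ (Er n)) t - A0.toLinearMap) : ℝ) : ℂ)) := by
    intro t
    have h1 := (Complex.continuous_ofReal.tendsto _).comp (D1h_det hA t)
    refine h1.congr' ?_
    filter_upwards [hp] with i hi
    exact (D1h_eval (A i) hi.2 t).symm
  have hex : ∀ j : ℕ, ∃ w, Tendsto (fun i => (p i).eval (j : ℂ)) l (𝓝 w) := by
    intro j
    have h1 := hval (j : ℝ)
    have h2 := h1.norm
    obtain ⟨B, hB⟩ : ∃ B : ℝ, ∀ᶠ i in (l : Filter ι),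
        ‖(p i).eval (((j : ℝ) : ℝ) : ℂ) * (starRingEnd ℂ) ((p i).eval ((j : ℝ) : ℂ))‖ ≤ B :=
      ⟨_, h2.eventually (eventually_le_nhds (lt_add_one _))⟩
    refine D1h_ultra l (B := B + 1) ?_
    filter_upwards [hB] with i hi
    rw [norm_mul, RCLike.norm_conj, Complex.ofReal_natCast] at hi
    have h3 : 0 ≤ ‖(p i).eval (j : ℂ)‖ := norm_nonneg _
    nlinarith [sq_nonneg (‖(p i).eval (j : ℂ)‖ - 1)]
  choose w hw using hex
  set s : Finset ℕ := Finset.range (n / 2 + 1) with hs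
  let v : ℕ → ℂ := fun j => (j : ℂ)
  have hv : Set.InjOn v s := fun a _ b _ h => Nat.cast_injective h
  have hlag : ∀ᶠ i in (l : Filter ι),
      p i = ∑ j ∈ s, C ((p i).eval (j : ℂ)) * Lagrange.basis s v j := by
    filter_upwards [hdeg, hp] with i hi hi'
    have h1 : (p i).degree < s.card := by
      rw [hs, Finset.card_range, Polynomial.degree_eq_natDegree hi'.1.ne_zero, hi]
      exact_mod_cast Nat.lt_succ_self _
    have h2 := Lagrange.eq_interpolate hv h1
    rw [Lagrange.interpolate_apply] at h2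
    exact h2
  let p0 : ℂ[X] := ∑ j ∈ s, C (w j) * Lagrange.basis s v j
  have hcoeff : ∀ k, Tendsto (fun i => (p i).coeff k) l (𝓝 (p0.coeff k)) := by
    intro k
    have h1 : Tendsto (fun i => ∑ j ∈ s, (p i).eval (j : ℂ) * (Lagrange.basis s v j).coeff k) l
        (𝓝 (∑ j ∈ s, w j * (Lagrange.basis s v j).coeff k)) :=
      tendsto_finset_sum _ fun j _ => (hw j).mul_const _
    have h2 : p0.coeff k = ∑ j ∈ s, w j * (Lagrange.basis s v j).coeff k := by
      show (∑ j ∈ s, C (w j) * Lagrange.basis s v j).coeff k = _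
      rw [Polynomial.finset_sum_coeff]
      exact Finset.sum_congr rfl fun j _ => Polynomial.coeff_C_mul _
    rw [h2]
    refine h1.congr' ?_
    filter_upwards [hlag] with i hi
    conv_rhs => rw [hi]
    rw [Polynomial.finset_sum_coeff]
    exact Finset.sum_congr rfl fun j _ => (Polynomial.coeff_C_mul _).symm
  have heval : ∀ z : ℂ, Tendsto (fun i => (p i).eval z) l (𝓝 (p0.eval z)) := by
    intro z
    have h1 : Tendsto (fun i => ∑ j ∈ s, (p i).eval (j : ℂ) * (Lagrange.basis s v j).eval z) l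
        (𝓝 (∑ j ∈ s, w j * (Lagrange.basis s v j).eval z)) :=
      tendsto_finset_sum _ fun j _ => (hw j).mul_const _
    have h2 : p0.eval z = ∑ j ∈ s, w j * (Lagrange.basis s v j).eval z := by
      show (∑ j ∈ s, C (w j) * Lagrange.basis s v j).eval z = _
      rw [Polynomial.eval_finset_sum]
      exact Finset.sum_congr rfl fun j _ => by rw [Polynomial.eval_mul, Polynomial.eval_C]
    rw [h2]
    refine h1.congr' ?_
    filter_upwards [hlag] with i hi
    conv_rhs => rw [hi]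
    rw [Polynomial.eval_finset_sum]
    exact Finset.sum_congr rfl fun j _ => by rw [Polynomial.eval_mul, Polynomial.eval_C]
  have hmonic : p0.Monic := by
    refine Polynomial.monic_of_natDegree_le_of_coeff_eq_one (n / 2) ?_ ?_
    · rw [Polynomial.natDegree_le_iff_coeff_eq_zero]
      intro N hN
      refine tendsto_nhds_unique (hcoeff N) ?_
      refine (tendsto_const_nhds (x := (0 : ℂ))).congr' ?_
      filter_upwards [hdeg] with i hi
      exact (Polynomial.coeff_eq_zero_of_natDegree_lt (by rw [hi]; exact hN)).symm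
    · refine tendsto_nhds_unique (hcoeff _) ?_
      refine (tendsto_const_nhds (x := (1 : ℂ))).congr' ?_
      filter_upwards [hdeg, hp] with i hi hi'
      rw [← hi]
      exact hi'.1.coeff_natDegree.symm
  have hfac : p0 * p0.map (starRingEnd ℂ) =
      (LinearMap.charpoly A0.toLinearMap).map (algebraMap ℝ ℂ) := by
    refine Polynomial.eq_of_infinite_eval_eq _ _ ?_
    refine (Set.infinite_range_of_injective Complex.ofReal_injective).mono ?_
    rintro _ ⟨t, rfl⟩
    show (p0 * p0.map (starRingEnd ℂ)).eval (t : ℂ) =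
      ((LinearMap.charpoly A0.toLinearMap).map (algebraMap ℝ ℂ)).eval (t : ℂ)
    rw [Polynomial.eval_mul, D1h_conj, D1h_charpoly]
    refine tendsto_nhds_unique ?_ (hval t)
    exact (heval (t : ℂ)).mul ((Complex.continuous_conj.tendsto _).comp (heval (t : ℂ)))
  exact ⟨p0, ⟨hmonic, hfac⟩, heval⟩

/-- `PowEv` in terms of values. -/
theorem PowEv_eq {P : ℂ[X]} (hP : P.Monic) {k : ℕ} (hk : 0 < k) :
    PowEv P k = ∏ z ∈ nthRootsFinset k (1 : ℂ), (z ^ P.natDegree * P.eval z⁻¹) := by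
  have hprim := Complex.isPrimitiveRoot_exp k hk.ne'
  have h1 : ∀ l : ℂ, 1 - l ^ k = ∏ z ∈ nthRootsFinset k (1 : ℂ), (1 - z * l) := by
    intro l
    have h2 := hprim.pow_sub_pow_eq_prod_sub_mul (1 : ℂ) l hk
    rw [one_pow] at h2
    exact h2
  have h2 : PowEv P k = ∏ z ∈ nthRootsFinset k (1 : ℂ), (P.roots.map (fun l => 1 - z * l)).prod := by
    unfold PowEv
    rw [Multiset.map_congr rfl (fun l _ => h1 l), Multiset.prod_map_prod]
  rw [h2]
  refine Finset.prod_congr rfl fun z hz => ?_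
  have hz0 : z ≠ 0 := ne_zero_of_mem_nthRootsFinset one_ne_zero hz
  have h3 : P.eval z⁻¹ = (P.roots.map (fun l => z⁻¹ - l)).prod :=
    (IsAlgClosed.splits P).eval_eq_prod_roots_of_monic hP z⁻¹
  rw [h3, ← IsAlgClosed.card_roots_eq_natDegree, ← Multiset.prod_replicate, ← Multiset.map_const',
    ← Multiset.prod_map_mul]
  refine congrArg Multiset.prod (Multiset.map_congr rfl fun l _ => ?_)
  rw [mul_sub, mul_inv_cancel₀ hz0]

/-- `PowEv` is continuous along convergent families of half characteristic polynomials. -/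
theorem PowEv_tendsto {n : ℕ} {ι : Type v} {l : Filter ι} {A : ι → (Er n →L[ℝ] Er n)}
    {A0 : Er n →L[ℝ] Er n} {p : ι → ℂ[X]} {p0 : ℂ[X]}
    (hp : ∀ᶠ i in l, HalfPoly (A i) (p i)) (hp0 : HalfPoly A0 p0)
    (h : ∀ z : ℂ, Tendsto (fun i => (p i).eval z) l (𝓝 (p0.eval z))) {k : ℕ} (hk : 0 < k) :
    Tendsto (fun i => PowEv (p i) k) l (𝓝 (PowEv p0 k)) := by
  rw [PowEv_eq hp0.1 hk, hp0.deg]
  have h1 : Tendsto (fun i => ∏ z ∈ nthRootsFinset k (1 : ℂ), (z ^ (n / 2) * (p i).eval z⁻¹)) l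
      (𝓝 (∏ z ∈ nthRootsFinset k (1 : ℂ), (z ^ (n / 2) * p0.eval z⁻¹))) :=
    tendsto_finsetProd _ fun z _ => (h z⁻¹).const_mul _
  refine h1.congr' ?_
  filter_upwards [hp] with i hi
  rw [PowEv_eq hi.1 hk, hi.deg]

section

variable {n : ℕ} {M : Type u} [TopologicalSpace M] [ChartedSpace (Er n) M]

theorem HalfPoly_dfix [IsManifold (𝓡 n) ∞ M] {F : M → M} {x : M}
    (hF : ContMDiffAt (𝓡 n) (𝓡 n) 1 F x) (hx : F x = x) {φ : OpenPartialHomeomorph M (Er n)}
    (hφ : φ ∈ atlas (Er n) M) (h1 : x ∈ φ.source) (P : ℂ[X]) :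
    HalfPoly (fderiv ℝ (φ ∘ F ∘ φ.symm) (φ x)) P ↔ HalfPoly (dfix (n := n) F x) P := by
  obtain ⟨e, he⟩ := D1_conj hF hx hφ h1
  have h2 : (fderiv ℝ (φ ∘ F ∘ φ.symm) (φ x)).toLinearMap =
      e.toLinearEquiv.conj (dfix (n := n) F x).toLinearMap := by
    rw [he]
    ext v
    simp [LinearEquiv.conj_apply]
  unfold HalfPoly
  rw [h2, LinearEquiv.charpoly_conj]

end

end FB
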