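import Pool.Agent.H.MP_fb873c_an.D1g
import Pool.Agent.H.MP_fb873c_an.D3a

/-!
# Part D3b: openness of `GoodB`
-/

namespace FB

open scoped Topology ContDiff Manifold NNReal
open Filter Metric Polynomial

universe u v w

section

variable {n : ℕ} {M : Type u} [TopologicalSpace M] [ChartedSpace (Er n) M]

/-- Admissible choices. -/
def Adm (g : Dif n M) (n0 N B : ℕ) (P : M → ℂ[X]) (c : ℕ → M → ℂ) : Prop :=
  (∀ x, (g : M → M)^[n0] x = x →
      HalfPoly (dfix (n := n) ((g : M → M)^[n0]) x) (P x) ∧ P (g x) = P x) ∧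
  (∀ k, N - B ≤ k → k ≤ N + B → ∀ x, (g : M → M)^[n0 * k] x = x →
      c k x ∈ Fac (dfix (n := n) ((g : M → M)^[n0 * k]) x).toLinearMap) ∧
  (∀ k, N - B ≤ k → k ≤ N + B → ∀ x, (g : M → M)^[n0] x = x → c k x = PowEv (P x) k)

/-- The Lefschetz sums. -/
noncomputable def LSum (g : M → M) (n0 : ℕ) (c : ℕ → M → ℂ) (k : ℕ) : ℂ :=
  ∑ᶠ x ∈ {x | g^[n0 * k] x = x}, (c k x)⁻¹

theorem fix_iter {g : M → M} {n0 : ℕ} {x : M} (hx : g^[n0] x = x) (k : ℕ) :
    g^[n0 * k] x = x := by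
  rw [Function.iterate_mul]
  exact Function.iterate_fixed hx k

theorem fix_map {g : M → M} {m : ℕ} {x : M} (hx : g^[m] x = x) : g^[m] (g x) = g x := by
  rw [← Function.iterate_succ_apply, Function.iterate_succ_apply', hx]

theorem fix_iter_map {g : M → M} {m : ℕ} {x : M} (hx : g^[m] x = x) (j : ℕ) :
    g^[m] (g^[j] x) = g^[j] x := by
  rw [← Function.iterate_add_apply, Nat.add_comm, Function.iterate_add_apply, hx]

/-- Openness of `GoodB` in the `C¹` topology. -/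
theorem goodB_open_aux [IsManifold (𝓡 n) ∞ M] [CompactSpace M] [T2Space M]
    (n0 N B : ℕ) (hN : B < N) :
    IsOpen[crTop n M 1] {g : Dif n M | GoodB g n0 N B} := by
  classical
  let _ := crTop n M 1
  rw [isOpen_iff_ultrafilter]
  intro g hg l hl
  have hcv : CV n (l : Filter (Dif n M)) (fun g' : Dif n M => (g' : M → M)) g := CV.of_crTop hl
  have sG : ∀ g' : Dif n M, C1 n (g' : M → M) := fun g' => g'.contMDiff_toFun.of_le (by norm_cast)
  have hF : ∀ m, CV n (l : Filter (Dif n M)) (fun g' : Dif n M => (g' : M → M)^[m])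
      ((g : M → M)^[m]) := fun m => hcv.iterate sG (sG g) m
  have sF : ∀ m, ∀ g' : Dif n M, C1 n ((g' : M → M)^[m]) := fun m g' => (sG g').iterate m
  by_contra hbad
  have hbad' : {g' : Dif n M | GoodB g' n0 N B}ᶜ ∈ l := Ultrafilter.compl_mem_iff_notMem.2 hbad
  have h0 : ∀ k, N - B ≤ k → k ≤ N + B → ∀ x, (g : M → M)^[n0 * k] x = x →
      ND n ((g : M → M)^[n0 * k]) x := hg.1
  have e1 : ∀ᶠ g' : Dif n M in (l : Filter (Dif n M)), ∀ k, N - B ≤ k → k ≤ N + B →
      ∀ x, (g' : M → M)^[n0 * k] x = x → ND n ((g' : M → M)^[n0 * k]) x := by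
    have h1 : ∀ᶠ g' : Dif n M in (l : Filter (Dif n M)), ∀ k ∈ Set.Icc (N - B) (N + B),
        ∀ x, (g' : M → M)^[n0 * k] x = x → ND n ((g' : M → M)^[n0 * k]) x := by
      refine (Filter.eventually_all_finite (Set.finite_Icc _ _)).2 fun k hk => ?_
      filter_upwards [D1_nd (hF (n0 * k)) (sF (n0 * k)) (sF (n0 * k) g) isCompact_univ
        (fun x _ => h0 k hk.1 hk.2 x)] with g' h x
      exact h x trivial
    filter_upwards [h1] with g' h k hk1 hk2
    exact h k ⟨hk1, hk2⟩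
  have e2 : ∀ᶠ g' : Dif n M in (l : Filter (Dif n M)), ∃ Pc : (M → ℂ[X]) × (ℕ → M → ℂ),
      Adm g' n0 N B Pc.1 Pc.2 ∧
      (Matrix.of (fun i j : Fin (B + 1) => LSum (g' : M → M) n0 Pc.2 (N + i - j))).det = 0 := by
    filter_upwards [e1, hbad'] with g' q1 q2
    by_contra hne
    apply q2
    refine ⟨q1, fun P c hP hc hPc hdet => hne ⟨(P, c), ⟨hP, hc, hPc⟩, hdet⟩⟩
  obtain ⟨Pc, hPc⟩ : ∃ Pc : Dif n M → (M → ℂ[X]) × (ℕ → M → ℂ),
      ∀ᶠ g' : Dif n M in (l : Filter (Dif n M)), Adm g' n0 N B (Pc g').1 (Pc g').2 ∧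
      (Matrix.of (fun i j : Fin (B + 1) =>
        LSum (g' : M → M) n0 (Pc g').2 (N + i - j))).det = 0 :=
    Filter.Eventually.choice e2
  -- continuations
  have hfin : ∀ k, N - B ≤ k → k ≤ N + B → {x | (g : M → M)^[n0 * k] x = x}.Finite :=
    fun k hk1 hk2 => D1_fin (sF (n0 * k) g) (h0 k hk1 hk2)
  have hfix : ∀ k, ∃ y : M → Dif n M → M, (N - B ≤ k → k ≤ N + B →
      (∀ x, (g : M → M)^[n0 * k] x = x → Tendsto (y x) (l : Filter (Dif n M)) (𝓝 x)) ∧
      (∀ᶠ g' : Dif n M in (l : Filter (Dif n M)), Set.BijOn (fun x => y x g')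
        {x | (g : M → M)^[n0 * k] x = x} {x | (g' : M → M)^[n0 * k] x = x})) := by
    intro k
    by_cases hk : N - B ≤ k ∧ k ≤ N + B
    · obtain ⟨y, hy1, hy2⟩ := D1_fix (hF (n0 * k)) (sF (n0 * k)) (sF (n0 * k) g) (h0 k hk.1 hk.2)
      exact ⟨y, fun _ _ => ⟨hy1, hy2⟩⟩
    · exact ⟨fun x _ => x, fun h1 h2 => absurd ⟨h1, h2⟩ hk⟩
  choose y hy using hfix
  have hNI : N - B ≤ N ∧ N ≤ N + B := ⟨Nat.sub_le _ _, Nat.le_add_right _ _⟩
  have hyF : ∀ k, N - B ≤ k → k ≤ N + B → ∀ x, (g : M → M)^[n0 * k] x = x →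
      ∀ᶠ g' : Dif n M in (l : Filter (Dif n M)), (g' : M → M)^[n0 * k] (y k x g') = y k x g' := by
    intro k hk1 hk2 x hx
    filter_upwards [(hy k hk1 hk2).2] with g' q
    exact q.mapsTo hx
  -- continuations of fixed points of `g^n0`
  have hyG : ∀ x, (g : M → M)^[n0] x = x →
      ∀ᶠ g' : Dif n M in (l : Filter (Dif n M)), (g' : M → M)^[n0] (y N x g') = y N x g' := by
    intro x hx
    have hx' := fix_iter hx N
    have t1 : Tendsto (fun g' : Dif n M => (g' : M → M)^[n0] (y N x g')) (l : Filter (Dif n M))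
        (𝓝 x) := by
      have t2 := ((hF n0).tend x).comp (tendsto_id.prodMk ((hy N hNI.1 hNI.2).1 x hx'))
      rw [hx] at t2
      exact t2
    refine D1_eqv (hfin N hNI.1 hNI.2) (hy N hNI.1 hNI.2).1 (hy N hNI.1 hNI.2).2 t1 ?_
    filter_upwards [hyF N hNI.1 hNI.2 x hx'] with g' q
    exact fix_iter_map q n0
  have hyE : ∀ x, (g : M → M)^[n0] x = x → ∀ k, N - B ≤ k → k ≤ N + B →
      ∀ᶠ g' : Dif n M in (l : Filter (Dif n M)), y N x g' = y k x g' := by
    intro x hx k hk1 hk2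
    refine D1_eqv (hfin k hk1 hk2) (hy k hk1 hk2).1 (hy k hk1 hk2).2
      ((hy N hNI.1 hNI.2).1 x (fix_iter hx N)) ?_
    filter_upwards [hyG x hx] with g' q
    exact fix_iter q k
  -- limits of the values
  have hlim : ∀ k x, ∃ c0 : ℂ, N - B ≤ k → k ≤ N + B → (g : M → M)^[n0 * k] x = x →
      (c0 ∈ Fac (dfix (n := n) ((g : M → M)^[n0 * k]) x).toLinearMap ∧
        Tendsto (fun g' => (Pc g').2 k (y k x g')) (l : Filter (Dif n M)) (𝓝 c0)) := by
    intro k x
    by_cases hx : N - B ≤ k ∧ k ≤ N + B ∧ (g : M → M)^[n0 * k] x = x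
    · obtain ⟨hk1, hk2, hx⟩ := hx
      set φ := chartAt (Er n) x with hφ
      have hφ1 : φ ∈ atlas (Er n) M := chart_mem_atlas _ _
      have h2 : x ∈ φ.source := mem_chart_source _ _
      have t1 := ((hF (n0 * k)).tendD x φ φ hφ1 hφ1 h2 (by rw [hx]; exact h2)).comp
        (tendsto_id.prodMk ((hy k hk1 hk2).1 x hx))
      have e3 : ∀ᶠ g' : Dif n M in (l : Filter (Dif n M)), (Pc g').2 k (y k x g') ∈
          Fac (fderiv ℝ (φ ∘ (g' : M → M)^[n0 * k] ∘ φ.symm) (φ (y k x g'))).toLinearMap := by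
        filter_upwards [hPc, hyF k hk1 hk2 x hx,
          ((hy k hk1 hk2).1 x hx).eventually_mem (φ.open_source.mem_nhds h2)] with g' q1 q2 q3
        rw [Fac_dfix (sF (n0 * k) g' _) q2 hφ1 q3]
        exact q1.1.2.1 k hk1 hk2 _ q2
      obtain ⟨c0, hc0, hc1⟩ := Fac_closed l _ _ t1 _ e3
      exact ⟨c0, fun _ _ _ => ⟨hc0, hc1⟩⟩
    · exact ⟨0, fun h1 h2 h3 => absurd ⟨h1, h2, h3⟩ hx⟩
  choose c0 hc0 using hlim
  -- limits of the polynomials
  have hPlim : ∀ x, ∃ P0 : ℂ[X], (g : M → M)^[n0] x = x →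
      (HalfPoly (dfix (n := n) ((g : M → M)^[n0]) x) P0 ∧
        (∀ z : ℂ, Tendsto (fun g' => ((Pc g').1 (y N x g')).eval z) (l : Filter (Dif n M))
          (𝓝 (P0.eval z))) ∧
        ∀ k, 0 < k → Tendsto (fun g' => PowEv ((Pc g').1 (y N x g')) k) (l : Filter (Dif n M))
          (𝓝 (PowEv P0 k))) := by
    intro x
    by_cases hx : (g : M → M)^[n0] x = x
    · set φ := chartAt (Er n) x with hφ
      have hφ1 : φ ∈ atlas (Er n) M := chart_mem_atlas _ _
      have h2 : x ∈ φ.source := mem_chart_source _ _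
      have t0 := (hy N hNI.1 hNI.2).1 x (fix_iter hx N)
      have t1 := ((hF n0).tendD x φ φ hφ1 hφ1 h2 (by rw [hx]; exact h2)).comp
        (tendsto_id.prodMk t0)
      have e3 : ∀ᶠ g' : Dif n M in (l : Filter (Dif n M)),
          HalfPoly (fderiv ℝ (φ ∘ (g' : M → M)^[n0] ∘ φ.symm) (φ (y N x g')))
            ((Pc g').1 (y N x g')) := by
        filter_upwards [hPc, hyG x hx, t0.eventually_mem (φ.open_source.mem_nhds h2)]
          with g' q1 q2 q3
        rw [HalfPoly_dfix (sF n0 g' _) q2 hφ1 q3]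
        exact (q1.1.1 _ q2).1
      obtain ⟨P0, hP0, hP1⟩ := HalfPoly_closed l _ _ t1 _ e3
      exact ⟨P0, fun _ => ⟨hP0, hP1, fun k hk => PowEv_tendsto e3 hP0 hP1 hk⟩⟩
    · exact ⟨0, fun h => absurd h hx⟩
  choose P0 hP0 using hPlim
  have hkpos : ∀ k, N - B ≤ k → 0 < k := fun k hk => by omega
  refine hg.2 P0 c0 ?_ (fun k hk1 hk2 x hx => (hc0 k x hk1 hk2 hx).1) ?_ ?_
  · -- half polynomials
    intro x hx
    refine ⟨(hP0 x hx).1, ?_⟩
    have hgx := fix_map hx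
    have t1 : Tendsto (fun g' : Dif n M => g' (y N x g')) (l : Filter (Dif n M)) (𝓝 (g x)) :=
      (hcv.tend x).comp (tendsto_id.prodMk ((hy N hNI.1 hNI.2).1 x (fix_iter hx N)))
    have e3 : ∀ᶠ g' : Dif n M in (l : Filter (Dif n M)),
        (g' : M → M)^[n0 * N] (g' (y N x g')) = g' (y N x g') := by
      filter_upwards [hyF N hNI.1 hNI.2 x (fix_iter hx N)] with g' q
      exact fix_map q
    have e4 := D1_eqv (hfin N hNI.1 hNI.2) (hy N hNI.1 hNI.2).1 (hy N hNI.1 hNI.2).2 t1 e3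
    refine Polynomial.funext fun z => ?_
    have t2 := (hP0 (g x) hgx).2.1 z
    have t3 := (hP0 x hx).2.1 z
    refine tendsto_nhds_unique t2 (t3.congr' ?_)
    filter_upwards [e4, hPc, hyG x hx] with g' q1 q2 q3
    rw [← q1, (q2.1.1 _ q3).2]
  · -- values at the fixed points of `g^n0`
    intro k hk1 hk2 x hx
    have t1 := (hc0 k x hk1 hk2 (fix_iter hx k)).2
    have t2 := (hP0 x hx).2.2 k (hkpos k hk1)
    refine tendsto_nhds_unique t1 (t2.congr' ?_)
    filter_upwards [hyE x hx k hk1 hk2, hPc, hyG x hx] with g' q1 q2 q3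
    rw [← q1, q2.1.2.2 k hk1 hk2 _ q3]
  · -- the determinant
    have hsum : ∀ k, N - B ≤ k → k ≤ N + B →
        Tendsto (fun g' : Dif n M => LSum (g' : M → M) n0 (Pc g').2 k) (l : Filter (Dif n M))
          (𝓝 (LSum (g : M → M) n0 c0 k)) := by
      intro k hk1 hk2
      have hf := hfin k hk1 hk2
      have t1 : Tendsto (fun g' : Dif n M => ∑ x ∈ hf.toFinset, ((Pc g').2 k (y k x g'))⁻¹)
          (l : Filter (Dif n M)) (𝓝 (∑ x ∈ hf.toFinset, (c0 k x)⁻¹)) := by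
        refine tendsto_finsetSum _ fun x hx => ?_
        have hx' : (g : M → M)^[n0 * k] x = x := hf.mem_toFinset.1 hx
        exact ((hc0 k x hk1 hk2 hx').2).inv₀
          (D1_ne (h0 k hk1 hk2 x hx') (hc0 k x hk1 hk2 hx').1)
      unfold LSum
      rw [finsum_mem_eq_finite_toFinset_sum _ hf]
      refine t1.congr' ?_
      filter_upwards [(hy k hk1 hk2).2] with g' q2
      have h5 : (∑ᶠ x ∈ {x | (g : M → M)^[n0 * k] x = x}, ((Pc g').2 k (y k x g'))⁻¹) =
          ∑ᶠ x ∈ {x | (g' : M → M)^[n0 * k] x = x}, ((Pc g').2 k x)⁻¹ :=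
        finsum_mem_eq_of_bijOn (fun x => y k x g') q2 (fun x _ => rfl)
      rw [← finsum_mem_eq_finite_toFinset_sum _ hf, h5]
      rfl
    have hmat : Tendsto (fun g' : Dif n M => (Matrix.of (fun i j : Fin (B + 1) =>
        LSum (g' : M → M) n0 (Pc g').2 (N + i - j)))) (l : Filter (Dif n M))
        (𝓝 (Matrix.of (fun i j : Fin (B + 1) => LSum (g : M → M) n0 c0 (N + i - j)))) := by
      refine tendsto_pi_nhds.2 fun i => tendsto_pi_nhds.2 fun j => ?_
      have hi := i.2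
      have hj := j.2
      exact hsum (N + i - j) (by omega) (by omega)
    have hdet := ((Continuous.matrix_det continuous_id).tendsto _).comp hmat
    refine tendsto_nhds_unique hdet ((tendsto_const_nhds (x := (0 : ℂ))).congr' ?_)
    filter_upwards [hPc] with g' q
    exact q.2.symm

end

end FB
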