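import Pool.Agent.H.MP_fb873c_an.B2a
import Pool.Agent.H.MP_fb873c_an.D3b

/-!
# Theorem B: openness of `GoodS`
-/

namespace FB

open scoped Topology ContDiff Manifold
open Filter Polynomial

universe u v

/-- Enumeration of a multiset. -/
theorem B3_enum (s : Multiset ℂ) (m : ℕ) (h : Multiset.card s = m) :
    ∃ a : Fin m → ℂ, s = Finset.univ.val.map a := by
  subst h
  induction s using Quotient.inductionOn with
  | h L =>
    refine ⟨fun j => L.get j, ?_⟩
    have h1 : (Finset.univ : Finset (Fin L.length)).val.map (fun j => L.get j) =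
        ((List.ofFn (fun j => L.get j) : List ℂ) : Multiset ℂ) := Fin.univ_val_map _
    rw [List.ofFn_get] at h1
    exact h1.symm

theorem B3_prod {β : Type*} [CommMonoid β] {m : ℕ} (a : Fin m → ℂ) (f : ℂ → β) :
    ((Finset.univ.val.map a).map f).prod = ∏ j, f (a j) := by
  rw [Multiset.map_map]
  rfl

/-- `LogEv` is continuous along convergent families of half characteristic polynomials.  Enumerate the roots:
`p i = ∏_{j < n/2} (X - a i j)`.  The coefficients of `p i` converge (Lagrange interpolation as in the proof of `HalfPoly_closed`, file D3a), so the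
roots are bounded (`Polynomial.IsRoot.norm_lt_cauchyBound` or directly), so `a i` converges along the ultrafilter to some `a0`, and
`p0 = ∏ (X - a0 j)` (both are the limit of the values).  As `a0 j ≠ 0`, `‖a0 j‖ ≠ 1`, `log ‖a i j‖ → log ‖a0 j‖ ≠ 0`. -/
theorem LogEv_tendsto {n : ℕ} {ι : Type v} {l : Ultrafilter ι} {A : ι → (Er n →L[ℝ] Er n)}
    {A0 : Er n →L[ℝ] Er n} {p : ι → ℂ[X]} {p0 : ℂ[X]}
    (hp : ∀ᶠ i in (l : Filter ι), HalfPoly (A i) (p i)) (hp0 : HalfPoly A0 p0)
    (h : ∀ z : ℂ, Tendsto (fun i => (p i).eval z) l (𝓝 (p0.eval z)))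
    (hne : ∀ a ∈ p0.roots, a ≠ 0 ∧ ‖a‖ ≠ 1) :
    Tendsto (fun i => LogEv (p i)) l (𝓝 (LogEv p0)) := by
  classical
  have hdeg : ∀ᶠ i in (l : Filter ι), (p i).natDegree = n / 2 := by
    filter_upwards [hp] with i hi
    exact hi.deg
  -- the coefficients converge
  set s : Finset ℕ := Finset.range (n / 2 + 1) with hs
  let v : ℕ → ℂ := fun j => (j : ℂ)
  have hv : Set.InjOn v s := fun a _ b _ h => Nat.cast_injective h
  have hlag : ∀ᶠ i in (l : Filter ι),
      p i = ∑ j ∈ s, C ((p i).eval (j : ℂ)) * Lagrange.basis s v j := by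
    filter_upwards [hdeg, hp] with i hi hi'
    have h1 : (p i).degree < s.card := by
      rw [hs, Finset.card_range, Polynomial.degree_eq_natDegree hi'.1.ne_zero, hi]
      exact_mod_cast Nat.lt_succ_self _
    have h2 := Lagrange.eq_interpolate hv h1
    rw [Lagrange.interpolate_apply] at h2
    exact h2
  have hcoeff : ∀ k, ∃ w : ℂ, Tendsto (fun i => (p i).coeff k) l (𝓝 w) := by
    intro k
    have h1 : Tendsto (fun i => ∑ j ∈ s, (p i).eval (j : ℂ) * (Lagrange.basis s v j).coeff k) l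
        (𝓝 (∑ j ∈ s, p0.eval (j : ℂ) * (Lagrange.basis s v j).coeff k)) :=
      tendsto_finsetSum _ fun j _ => (h (j : ℂ)).mul_const _
    refine ⟨_, h1.congr' ?_⟩
    filter_upwards [hlag] with i hi
    conv_rhs => rw [hi]
    rw [Polynomial.finsetSum_coeff]
    exact Finset.sum_congr rfl fun j _ => (Polynomial.coeff_C_mul _).symm
  choose w hw using hcoeff
  -- the roots are bounded
  have hbd : ∀ᶠ i in (l : Filter ι), ∀ k ∈ (Finset.range (n / 2) : Set ℕ),
      ‖(p i).coeff k‖ ≤ ‖w k‖ + 1 := by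
    refine (Filter.eventually_all_finite (Finset.finite_toSet _)).2 fun k _ => ?_
    exact (hw k).norm.eventually (eventually_le_nhds (lt_add_one _))
  set B : ℝ := ∑ k ∈ Finset.range (n / 2), (‖w k‖ + 1) with hB
  have hroot : ∀ᶠ i in (l : Filter ι), ∀ a ∈ (p i).roots, ‖a‖ ≤ B + 1 := by
    filter_upwards [hbd, hdeg, hp] with i q1 q2 q3 a ha
    have h1 := (Polynomial.isRoot_of_mem_roots ha).norm_lt_cauchyBound q3.1.ne_zero
    have h2 : cauchyBound (p i) ≤ B.toNNReal + 1 := by
      rw [cauchyBound, q3.1.leadingCoeff, nnnorm_one, div_one, q2]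
      gcongr
      refine Finset.sup_le fun k hk => ?_
      have h3 := q1 k hk
      have h4 : ‖w k‖ + 1 ≤ B :=
        Finset.single_le_sum (f := fun k => ‖w k‖ + 1) (fun j _ => by positivity) hk
      rw [← NNReal.coe_le_coe, Real.coe_toNNReal', coe_nnnorm]
      exact (h3.trans h4).trans (le_max_left _ _)
    have hB0 : 0 ≤ B := Finset.sum_nonneg fun j _ => by positivity
    have h3 : ((‖a‖₊ : NNReal) : ℝ) ≤ ((B.toNNReal + 1 : NNReal) : ℝ) := by
      exact_mod_cast (h1.trans_le h2).le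
    rw [coe_nnnorm] at h3
    push_cast at h3
    rw [Real.coe_toNNReal B hB0] at h3
    exact h3
  -- enumeration of the roots
  have henum : ∀ᶠ i in (l : Filter ι), ∃ a : Fin (n / 2) → ℂ,
      (p i).roots = Finset.univ.val.map a := by
    filter_upwards [hdeg] with i hi
    refine B3_enum _ _ ?_
    rw [← hi]
    exact Polynomial.splits_iff_card_roots.1 (IsAlgClosed.splits (p i))
  obtain ⟨a, ha⟩ := Filter.Eventually.choice henum
  have hlim : ∀ j, ∃ x : ℂ, Tendsto (fun i => a i j) l (𝓝 x) := by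
    intro j
    refine D1h_ultra l (B := B + 1) ?_
    filter_upwards [ha, hroot] with i q1 q2
    refine q2 _ ?_
    rw [q1]
    exact Multiset.mem_map_of_mem _ (Finset.mem_univ j)
  choose a0 ha0 using hlim
  -- the limit polynomial
  have hp0' : p0 = ((Finset.univ.val.map a0).map fun x => X - C x).prod := by
    refine Polynomial.funext fun z => ?_
    have h1 : Tendsto (fun i => ∏ j, (z - a i j)) l (𝓝 (∏ j, (z - a0 j))) :=
      tendsto_finsetProd _ fun j _ => (ha0 j).const_sub z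
    have h2 : Tendsto (fun i => (p i).eval z) l (𝓝 (∏ j, (z - a0 j))) := by
      refine h1.congr' ?_
      filter_upwards [ha, hp] with i q1 q2
      rw [(IsAlgClosed.splits (p i)).eval_eq_prod_roots_of_monic q2.1 z, q1, B3_prod]
    rw [tendsto_nhds_unique (h z) h2, Polynomial.eval_multiset_prod, Multiset.map_map,
      B3_prod]
    refine Finset.prod_congr rfl fun j _ => ?_
    simp
  have hroots0 : p0.roots = Finset.univ.val.map a0 := by
    rw [hp0']
    exact Polynomial.roots_multiset_prod_X_sub_C _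
  have hne' : ∀ j, - Real.log ‖a0 j‖ ≠ 0 ∧ ‖a0 j‖ ≠ 0 := by
    intro j
    have h1 : a0 j ∈ p0.roots := by
      rw [hroots0]
      exact Multiset.mem_map_of_mem _ (Finset.mem_univ j)
    obtain ⟨h2, h3⟩ := hne _ h1
    have h4 : ‖a0 j‖ ≠ 0 := norm_ne_zero_iff.2 h2
    refine ⟨neg_ne_zero.2 (Real.log_ne_zero.2 ⟨h4, h3, ?_⟩), h4⟩
    have := norm_nonneg (a0 j)
    linarith
  have hL0 : LogEv p0 = (∏ j, (- Real.log ‖a0 j‖))⁻¹ := by
    unfold LogEv
    rw [hroots0, B3_prod]
  rw [hL0]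
  have h1 : Tendsto (fun i => ∏ j, (- Real.log ‖a i j‖)) l (𝓝 (∏ j, (- Real.log ‖a0 j‖))) :=
    tendsto_finsetProd _ fun j _ =>
      (((Real.continuousAt_log (hne' j).2).tendsto).comp (ha0 j).norm).neg
  have h2 := h1.inv₀ (Finset.prod_ne_zero_iff.2 fun j _ => (hne' j).1)
  refine h2.congr' ?_
  filter_upwards [ha] with i q1
  unfold LogEv
  rw [q1, B3_prod]

section

variable {n : ℕ} {M : Type u} [TopologicalSpace M] [ChartedSpace (Er n) M]
  [IsManifold (𝓡 n) ∞ M] [CompactSpace M] [T2Space M]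

/-- As `goodB_open_aux` (file D3b), simpler (one power `N`, only the polynomials `P`): ultrafilter `l → g`, bad
`g'` with `P'`; the fixed points of `g'^N` are the continuations of the fixed points of `g^N` (`D1_fix`; nondegenerate by `perHyp_ndl` for `g`); the
`P'(y x g')` converge (`HalfPoly_closed`, `HalfPoly_dfix`), the limits are half polynomials, constant along orbits;
`LogEv_tendsto` with `halfPoly_hyp`, `dfix_equiv`. -/
theorem goodS_open {N : ℕ} (hN : 0 < N) {O : Set (Dif n M)} (hO : IsOpen[crTop n M 1] O)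
    (hOP : ∀ g ∈ O, PerHyp N g) :
    IsOpen[crTop n M 1] {g : Dif n M | g ∈ O ∧ GoodS N g} := by
  classical
  let _ := crTop n M 1
  rw [isOpen_iff_ultrafilter]
  rintro g ⟨hgO, hg⟩ l hl
  have hOl : ∀ᶠ g' : Dif n M in (l : Filter (Dif n M)), g' ∈ O := hl (hO.mem_nhds hgO)
  have hcv : CV n (l : Filter (Dif n M)) (fun g' : Dif n M => (g' : M → M)) g := CV.of_crTop hl
  have sG : ∀ g' : Dif n M, C1 n (g' : M → M) := fun g' => g'.contMDiff_toFun.of_le (by norm_cast)
  have hF : ∀ m, CV n (l : Filter (Dif n M)) (fun g' : Dif n M => (g' : M → M)^[m])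
      ((g : M → M)^[m]) := fun m => hcv.iterate sG (sG g) m
  have sF : ∀ m, ∀ g' : Dif n M, C1 n ((g' : M → M)^[m]) := fun m g' => (sG g').iterate m
  by_contra hbad
  have hbad' : {g' : Dif n M | g' ∈ O ∧ GoodS N g'}ᶜ ∈ l := Ultrafilter.compl_mem_iff_notMem.2 hbad
  have h0 : ∀ x, (g : M → M)^[N] x = x → ND n ((g : M → M)^[N]) x :=
    fun x hx => perHyp_ndl (hOP g hgO) hN x trivial hx
  have e2 : ∀ᶠ g' : Dif n M in (l : Filter (Dif n M)), ∃ P : M → ℂ[X],
      (∀ x, (g' : M → M)^[N] x = x →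
        HalfPoly (dfix (n := n) ((g' : M → M)^[N]) x) (P x) ∧ P (g' x) = P x) ∧
      (∑ᶠ x ∈ {x | (g' : M → M)^[N] x = x}, LogEv (P x)) = 0 := by
    filter_upwards [hOl, hbad'] with g' q1 q2
    by_contra hne
    apply q2
    exact ⟨q1, fun P hP hsum => hne ⟨P, hP, hsum⟩⟩
  obtain ⟨P, hP⟩ : ∃ P : Dif n M → (M → ℂ[X]),
      ∀ᶠ g' : Dif n M in (l : Filter (Dif n M)),
      (∀ x, (g' : M → M)^[N] x = x →
        HalfPoly (dfix (n := n) ((g' : M → M)^[N]) x) (P g' x) ∧ P g' (g' x) = P g' x) ∧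
      (∑ᶠ x ∈ {x | (g' : M → M)^[N] x = x}, LogEv (P g' x)) = 0 :=
    Filter.Eventually.choice e2
  have hfin : {x | (g : M → M)^[N] x = x}.Finite := D1_fin (sF N g) h0
  obtain ⟨y, hy1, hy2⟩ := D1_fix (hF N) (sF N) (sF N g) h0
  have hyF : ∀ x, (g : M → M)^[N] x = x →
      ∀ᶠ g' : Dif n M in (l : Filter (Dif n M)), (g' : M → M)^[N] (y x g') = y x g' := by
    intro x hx
    filter_upwards [hy2] with g' q
    exact q.mapsTo hx
  -- limits of the polynomials
  have hPlim : ∀ x, ∃ P0 : ℂ[X], (g : M → M)^[N] x = x →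
      (HalfPoly (dfix (n := n) ((g : M → M)^[N]) x) P0 ∧
        (∀ z : ℂ, Tendsto (fun g' => (P g' (y x g')).eval z) (l : Filter (Dif n M))
          (𝓝 (P0.eval z))) ∧
        Tendsto (fun g' => LogEv (P g' (y x g'))) (l : Filter (Dif n M)) (𝓝 (LogEv P0))) := by
    intro x
    by_cases hx : (g : M → M)^[N] x = x
    · set φ := chartAt (Er n) x with hφ
      have hφ1 : φ ∈ atlas (Er n) M := chart_mem_atlas _ _
      have h2 : x ∈ φ.source := mem_chart_source _ _
      have t0 := hy1 x hx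
      have t1 := ((hF N).tendD x φ φ hφ1 hφ1 h2 (by rw [hx]; exact h2)).comp
        (tendsto_id.prodMk t0)
      have e3 : ∀ᶠ g' : Dif n M in (l : Filter (Dif n M)),
          HalfPoly (fderiv ℝ (φ ∘ (g' : M → M)^[N] ∘ φ.symm) (φ (y x g')))
            (P g' (y x g')) := by
        filter_upwards [hP, hyF x hx, t0.eventually_mem (φ.open_source.mem_nhds h2)]
          with g' q1 q2 q3
        rw [HalfPoly_dfix (sF N g' _) q2 hφ1 q3]
        exact (q1.1 _ q2).1
      obtain ⟨P0, hP0, hP1⟩ := HalfPoly_closed l _ _ t1 _ e3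
      obtain ⟨A', hA'⟩ := dfix_equiv g N hx
      exact ⟨P0, fun _ => ⟨hP0, hP1, LogEv_tendsto e3 hP0 hP1
        (halfPoly_hyp (hOP g hgO x N hN hx).2 A' hA' hP0)⟩⟩
    · exact ⟨0, fun h => absurd h hx⟩
  choose P0 hP0 using hPlim
  refine hg P0 ?_ ?_
  · intro x hx
    refine ⟨(hP0 x hx).1, ?_⟩
    have hgx := fix_map hx
    have t1 : Tendsto (fun g' : Dif n M => g' (y x g')) (l : Filter (Dif n M)) (𝓝 (g x)) :=
      (hcv.tend x).comp (tendsto_id.prodMk (hy1 x hx))
    have e3 : ∀ᶠ g' : Dif n M in (l : Filter (Dif n M)),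
        (g' : M → M)^[N] (g' (y x g')) = g' (y x g') := by
      filter_upwards [hyF x hx] with g' q
      exact fix_map q
    have e4 := D1_eqv hfin hy1 hy2 t1 e3
    refine Polynomial.funext fun z => ?_
    have t2 := (hP0 (g x) hgx).2.1 z
    have t3 := (hP0 x hx).2.1 z
    refine tendsto_nhds_unique t2 (t3.congr' ?_)
    filter_upwards [e4, hP, hyF x hx] with g' q1 q2 q3
    rw [← q1, (q2.1 _ q3).2]
  · have t1 : Tendsto (fun g' : Dif n M => ∑ x ∈ hfin.toFinset, LogEv (P g' (y x g')))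
        (l : Filter (Dif n M)) (𝓝 (∑ x ∈ hfin.toFinset, LogEv (P0 x))) :=
      tendsto_finsetSum _ fun x hx => (hP0 x (hfin.mem_toFinset.1 hx)).2.2
    rw [finsum_mem_eq_finite_toFinset_sum _ hfin]
    refine tendsto_nhds_unique t1 ((tendsto_const_nhds (x := (0 : ℝ))).congr' ?_)
    filter_upwards [hy2, hP] with g' q1 q2
    have h5 : (∑ᶠ x ∈ {x | (g : M → M)^[N] x = x}, LogEv (P g' (y x g'))) =
        ∑ᶠ x ∈ {x | (g' : M → M)^[N] x = x}, LogEv (P g' x) :=
      finsum_mem_eq_of_bijOn (fun x => y x g') q1 (fun x _ => rfl)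
    rw [← finsum_mem_eq_finite_toFinset_sum _ hfin, h5]
    exact q2.2.symm

end

end FB
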