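import Mathlib

/-!
# Theorem B: the recurrence
-/

namespace FB

/-- `χ = ∏_q charpoly (T q)`, Cayley-Hamilton; see the proof of `toeplitz_singular` (file Z1d). -/
theorem trace_recurrence (R : ℕ) (H : ℕ → Type*) [∀ q, AddCommGroup (H q)]
    [∀ q, Module ℂ (H q)] [∀ q, FiniteDimensional ℂ (H q)] (T : ∀ q, H q →ₗ[ℂ] H q) :
    ∃ χ : Polynomial ℂ, χ.Monic ∧ ∀ j : ℕ, ∑ l ∈ Finset.range (χ.natDegree + 1), χ.coeff l *
      (∑ q ∈ Finset.range (R + 1), (-1 : ℂ) ^ q * LinearMap.trace ℂ (H q) (T q ^ (j + l))) = 0 := by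
  classical
  obtain ⟨p, hp⟩ : ∃ p : Polynomial ℂ, p = ∏ q ∈ Finset.range (R + 1), (T q).charpoly := ⟨_, rfl⟩
  have hmon : p.Monic := by
    rw [hp]
    exact Polynomial.monic_prod_of_monic _ _ fun q _ => LinearMap.charpoly_monic (T q)
  have hzero : ∀ q ∈ Finset.range (R + 1),
      ∑ i ∈ Finset.range (p.natDegree + 1), p.coeff i • (T q) ^ i = 0 := by
    intro q hq
    rw [← Polynomial.aeval_eq_sum_range (T q)]
    have hdvd : (T q).charpoly ∣ p := by
      rw [hp]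
      exact Finset.dvd_prod_of_mem _ hq
    obtain ⟨r, hr⟩ := hdvd
    rw [hr, map_mul, LinearMap.aeval_self_charpoly, zero_mul]
  refine ⟨p, hmon, fun j => ?_⟩
  have h1 : ∀ l ∈ Finset.range (p.natDegree + 1), p.coeff l *
      (∑ q ∈ Finset.range (R + 1), (-1 : ℂ) ^ q * LinearMap.trace ℂ (H q) (T q ^ (j + l))) =
      ∑ q ∈ Finset.range (R + 1), (-1 : ℂ) ^ q *
        (p.coeff l * LinearMap.trace ℂ (H q) (T q ^ (j + l))) := by
    intro l _
    rw [Finset.mul_sum]
    refine Finset.sum_congr rfl fun q _ => ?_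
    ring
  rw [Finset.sum_congr rfl h1, Finset.sum_comm]
  refine Finset.sum_eq_zero fun q hq => ?_
  rw [← Finset.mul_sum]
  have h2 : ∑ l ∈ Finset.range (p.natDegree + 1), p.coeff l *
      LinearMap.trace ℂ (H q) (T q ^ (j + l)) =
      LinearMap.trace ℂ (H q) (T q ^ j *
        ∑ i ∈ Finset.range (p.natDegree + 1), p.coeff i • (T q) ^ i) := by
    rw [Finset.mul_sum, map_sum]
    refine Finset.sum_congr rfl fun i _ => ?_
    rw [mul_smul_comm, map_smul, smul_eq_mul, pow_add]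
  rw [h2, hzero q hq, mul_zero, map_zero, mul_zero]

end FB
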