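import Pool.Agent.H.MP_fb873c_an.B1d
import Pool.Agent.H.MP_fb873c_an.B2c
import Pool.Agent.H.MP_fb873c_an.B3
import Pool.Agent.H.MP_fb873c_an.B4

/-!
# Theorem B: assembly (without the geometry)
-/

namespace FB

open scoped Topology ContDiff Manifold
open Filter

universe u

section

variable {n : ℕ} {M : Type u} [TopologicalSpace M] [ChartedSpace (Er n) M]

/-- The open set of Theorem B. -/
def UB (n : ℕ) (M : Type u) [TopologicalSpace M] [ChartedSpace (Er n) M] : Set (Dif n M) :=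
  {g | ∃ O : Set (Dif n M), IsOpen[crTop n M 1] O ∧ g ∈ O ∧ ∃ N, 0 < N ∧
    (∀ g' ∈ O, PerHyp N g') ∧ GoodS N g}

end

section

variable {n : ℕ} {M : Type u} [TopologicalSpace M] [ChartedSpace (Er n) M]
  [IsManifold (𝓡 n) ∞ M] [CompactSpace M] [T2Space M]

theorem isOpen_UB : IsOpen[crTop n M 1] (UB n M) := by
  letI T := crTop n M 1
  rw [isOpen_iff_forall_mem_open]
  rintro g ⟨O, hO, hg, N, hN, hOP, hS⟩
  refine ⟨{g : Dif n M | g ∈ O ∧ GoodS N g}, ?_, goodS_open hN hO hOP, hg, hS⟩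
  rintro g' ⟨hg', hS'⟩
  exact ⟨O, hO, hg', N, hN, hOP, hS'⟩

/-- Every diffeomorphism with a periodic point and a `C¹`-neighbourhood of diffeomorphisms with `PerHyp N` lies in the
`C^∞`-closure of `UB`. -/
theorem closure_UB (hn : 0 < n) (f : Dif n M) (O : Set (Dif n M)) (hO : IsOpen[crTop n M 1] O)
    (hf : f ∈ O) (N : ℕ) (hN : 0 < N) (hOP : ∀ g ∈ O, PerHyp N g)
    (hper : ∃ (x : M) (k : ℕ), 0 < k ∧ (f : M → M)^[k] x = x)
    (V : Set (Dif n M)) (hV : IsOpen[crTop n M ⊤] V) (hfV : f ∈ V) :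
    ∃ g ∈ V, g ∈ UB n M := by
  have hOV : IsOpen[crTop n M ⊤] (V ∩ O) := by
    have h1 := D4_top hO
    letI T := crTop n M ⊤
    exact IsOpen.inter hV h1
  obtain ⟨g, hg, hS⟩ := exists_goodS hn hN hOV ⟨hfV, hf⟩ (fun g hg => hOP g hg.2) hper
  exact ⟨g, hg.1, O, hO, hg.2, N, hN, hOP, hS⟩

/-- The contradiction: `f ∈ UB` cannot have the data which an invariant complex structure provides. -/
theorem UB_contra (hn : 0 < n) {f : Dif n M} (hf : f ∈ UB n M)
    (hdata : ∀ N, 0 < N → ∃ (R : ℕ) (H : ℕ → Type u) (_ : ∀ q, AddCommGroup (H q))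
      (_ : ∀ q, Module ℂ (H q)) (_ : ∀ q, FiniteDimensional ℂ (H q)) (T : ∀ q, H q →ₗ[ℂ] H q)
      (P : M → Polynomial ℂ) (c : ℕ → M → ℂ),
      (∀ x, (f : M → M)^[N] x = x →
        HalfPoly (dfix (n := n) ((f : M → M)^[N]) x) (P x) ∧ P (f x) = P x) ∧
      (∀ k, 0 < k → ∀ x, (f : M → M)^[N] x = x → c k x = PowEv (P x) k) ∧
      ∀ k, 0 < k → (∀ x, (f : M → M)^[N * k] x = x → Ndg (n := n) ((f : M → M)^[N * k]) x) →
        (∑ᶠ x ∈ {x | (f : M → M)^[N * k] x = x}, (c k x)⁻¹) = ∑ q ∈ Finset.range (R + 1),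
          (-1 : ℂ) ^ q * LinearMap.trace ℂ (H q) (T q ^ k)) : False := by
  classical
  obtain ⟨O, -, hg, N, hN, hOP, hS⟩ := hf
  have hPH := hOP f hg
  obtain ⟨R, H, i1, i2, i3, T, P, c, hP, hc, hL⟩ := hdata N hN
  have hfin : {x | (f : M → M)^[N] x = x}.Finite :=
    finite_fix (n := n) fun x hx => perHyp_ndl hPH hN x (Set.mem_univ x) hx
  set F : Finset M := hfin.toFinset with hF
  have hFm : ∀ x, x ∈ F ↔ (f : M → M)^[N] x = x := by
    intro x
    rw [hF, Set.Finite.mem_toFinset]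
    rfl
  obtain ⟨χ, hχ, hrec⟩ := trace_recurrence R H T
  have hsum : ∀ k, 0 < k → ∑ x ∈ F, (((P x).roots).map (fun a => 1 - a ^ k)).prod⁻¹ =
      ∑ q ∈ Finset.range (R + 1), (-1 : ℂ) ^ q * LinearMap.trace ℂ (H q) (T q ^ k) := by
    intro k hk
    rw [← hL k hk fun x hx => perHyp_ndl hPH (Nat.mul_pos hN hk) x (Set.mem_univ x) hx]
    have hset : {x | (f : M → M)^[N * k] x = x} = (F : Set M) := by
      ext x
      rw [Set.mem_ofPred_eq, Finset.mem_coe, hFm, perHyp_fix hN hPH hk]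
    rw [hset, finsum_mem_coe_finset]
    refine Finset.sum_congr rfl fun x hx => ?_
    rw [hc k hk x ((hFm x).1 hx)]
    rfl
  by_cases hne : F = ∅
  · refine hS P hP ?_
    have hset : {x | (f : M → M)^[N] x = x} = (F : Set M) := by
      ext x
      rw [Set.mem_ofPred_eq, Finset.mem_coe, hFm]
    rw [hset, hne]
    simp
  obtain ⟨p, hp⟩ := Finset.nonempty_iff_ne_empty.2 hne
  have hcard : ∀ x ∈ F, 2 * Multiset.card (P x).roots = n := fun x hx =>
    halfPoly_card (hP x ((hFm x).1 hx)).1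
  have hX := lemmaX F (fun x => (P x).roots) (n / 2) (by have := hcard p hp; omega)
    (fun x hx => by have := hcard x hx; omega) (fun x hx => by
      obtain ⟨A', hA'⟩ := dfix_equiv f N ((hFm x).1 hx)
      exact halfPoly_hyp (hPH x N hN ((hFm x).1 hx)).2 A' hA' (hP x ((hFm x).1 hx)).1)
    χ hχ.ne_zero (fun j hj => by
      rw [← hrec j]
      exact Finset.sum_congr rfl fun l _ => by rw [hsum (j + l) (by omega)])
  refine hS P hP ?_
  have hset : {x | (f : M → M)^[N] x = x} = (F : Set M) := by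
    ext x
    rw [Set.mem_ofPred_eq, Finset.mem_coe, hFm]
  rw [hset, finsum_mem_coe_finset]
  exact hX

end

end FB
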