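import Pool.Agent.H.MP_fb873c_an.B5

/-!
# Part B6: a whole `C^1`-neighbourhood lies in the closure
-/

namespace FB

open scoped Topology ContDiff Manifold
open Filter

universe u

section

variable {n : ℕ} {M : Type u} [TopologicalSpace M] [ChartedSpace (Er n) M]
  [IsManifold (𝓡 n) ∞ M] [CompactSpace M] [T2Space M]

/-- A nondegenerate periodic point persists. -/
theorem per_nhds {N : ℕ} {f : Dif n M} {x : M} (hx : (f : M → M)^[N] x = x)
    (hnd : Ndg (n := n) ((f : M → M)^[N]) x) :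
    ∀ᶠ g : Dif n M in @nhds _ (crTop n M 1) f, ∃ y, (g : M → M)^[N] y = y := by
  have hcv : CV n (@nhds _ (crTop n M 1) f) (fun g' : Dif n M => (g' : M → M)) f :=
    CV.of_crTop le_rfl
  have sG : ∀ g' : Dif n M, C1 n (g' : M → M) := fun g' => g'.contMDiff_toFun.of_le (by norm_cast)
  have hF : CV n (@nhds _ (crTop n M 1) f) (fun g' : Dif n M => (g' : M → M)^[N])
      ((f : M → M)^[N]) := hcv.iterate sG (sG f) N
  have sF : ∀ g' : Dif n M, C1 n ((g' : M → M)^[N]) := fun g' => (sG g').iterate N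
  obtain ⟨B, -, y, -, hy, -⟩ := D1_cont hF sF hx hnd
  filter_upwards [hy] with g hg
  exact ⟨y g, hg⟩

/-- The strong form of `closure_UB`. -/
theorem closure_UB' (hn : 0 < n) (f : Dif n M)
    (hper : ∃ (x : M) (k : ℕ), 0 < k ∧ (f : M → M)^[k] x = x)
    (O : Set (Dif n M)) (N : ℕ) (hO : IsOpen[crTop n M 1] O) (hf : f ∈ O) (hN : 0 < N)
    (hOP : ∀ g ∈ O, PerHyp N g) :
    ∃ W : Set (Dif n M), IsOpen[crTop n M 1] W ∧ f ∈ W ∧ W ⊆ closure[crTop n M ⊤] (UB n M) := by
  obtain ⟨x, k, hk, hx⟩ := hper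
  have hxN := (hOP f hf x k hk hx).1
  have hnd : Ndg (n := n) ((f : M → M)^[N]) x := perHyp_ndl (hOP f hf) hN x trivial hxN
  have h1 := per_nhds hxN hnd
  letI T1 := crTop n M 1
  refine ⟨interior ({g | ∃ y, (g : M → M)^[N] y = y} ∩ O), isOpen_interior, ?_, ?_⟩
  · exact mem_interior_iff_mem_nhds.2 (Filter.inter_mem h1 (hO.mem_nhds hf))
  · intro g hg
    obtain ⟨⟨y, hy⟩, hgO⟩ := interior_subset hg
    letI T := crTop n M ⊤
    rw [mem_closure_iff]
    intro V hV hgV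
    exact closure_UB hn g O hO hgO N hN hOP ⟨y, N, hN, hy⟩ V hV hgV

end

end FB
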