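import Mathlib

/-! Part C0: cohomology of an ℕ-graded complex of complex vector spaces (bare linear algebra). -/

namespace FB

section cohom

variable {A : ℕ → Type*} [∀ q, AddCommGroup (A q)] [∀ q, Module ℂ (A q)]
variable {A' : ℕ → Type*} [∀ q, AddCommGroup (A' q)] [∀ q, Module ℂ (A' q)]

/-- Coboundaries. -/
def Bd (d : ∀ q, A q →ₗ[ℂ] A (q + 1)) : ∀ q, Submodule ℂ (A q)
  | 0 => ⊥
  | (q + 1) => LinearMap.range (d q)

/-- Cohomology `ker d_q / im d_{q-1}` (as the quotient of the kernel by the coboundaries lying in it). -/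
abbrev HH (d : ∀ q, A q →ₗ[ℂ] A (q + 1)) (q : ℕ) : Type _ :=
  (LinearMap.ker (d q)) ⧸ ((Bd d q).comap (LinearMap.ker (d q)).subtype)

/-- A chain map maps coboundaries to coboundaries. -/
theorem Bd_map (d : ∀ q, A q →ₗ[ℂ] A (q + 1)) (d' : ∀ q, A' q →ₗ[ℂ] A' (q + 1))
    (φ : ∀ q, A q →ₗ[ℂ] A' q) (hφ : ∀ q a, d' q (φ q a) = φ (q + 1) (d q a)) (q : ℕ) (a : A q)
    (ha : a ∈ Bd d q) : φ q a ∈ Bd d' q := by
  cases q with
  | zero =>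
    have : a = 0 := by simpa [Bd] using ha
    rw [this]; simp
  | succ q =>
    obtain ⟨b, rfl⟩ := ha
    exact ⟨φ q b, hφ q b⟩

/-- The map on cocycles. -/
def Zmap (d : ∀ q, A q →ₗ[ℂ] A (q + 1)) (d' : ∀ q, A' q →ₗ[ℂ] A' (q + 1))
    (φ : ∀ q, A q →ₗ[ℂ] A' q) (hφ : ∀ q a, d' q (φ q a) = φ (q + 1) (d q a)) (q : ℕ) :
    LinearMap.ker (d q) →ₗ[ℂ] LinearMap.ker (d' q) :=
  (φ q).restrict (fun a ha => by
    rw [LinearMap.mem_ker] at ha ⊢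
    rw [hφ, ha, map_zero])

/-- The map induced on cohomology. -/
def Hmap (d : ∀ q, A q →ₗ[ℂ] A (q + 1)) (d' : ∀ q, A' q →ₗ[ℂ] A' (q + 1))
    (φ : ∀ q, A q →ₗ[ℂ] A' q) (hφ : ∀ q a, d' q (φ q a) = φ (q + 1) (d q a)) (q : ℕ) :
    HH d q →ₗ[ℂ] HH d' q :=
  Submodule.mapQ _ _ (Zmap d d' φ hφ q) (fun a ha => by
    rw [Submodule.mem_comap] at ha ⊢
    rw [Submodule.mem_comap]
    exact Bd_map d d' φ hφ q _ ha)

/-- The alternating sum of the traces on cohomology in degrees `0..N`. -/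
noncomputable def altTr (d : ∀ q, A q →ₗ[ℂ] A (q + 1))
    (φ : ∀ q, A q →ₗ[ℂ] A q) (hφ : ∀ q a, d q (φ q a) = φ (q + 1) (d q a)) (N : ℕ) : ℂ :=
  ∑ q ∈ Finset.range (N + 1), (-1 : ℂ) ^ q * LinearMap.trace ℂ (HH d q) (Hmap d d φ hφ q)

end cohom

end FB
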