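import Pool.Agent.H.MP_fb873c_an.T5

/-! Part C1: cohomology as an opaque type with its instances (for speed), restatement of the abstract
Lefschetz formula. -/

namespace FB

section

variable {A : ℕ → Type*} [∀ q, AddCommGroup (A q)] [∀ q, Module ℂ (A q)]
variable {A' : ℕ → Type*} [∀ q, AddCommGroup (A' q)] [∀ q, Module ℂ (A' q)]

/-- Cohomology (same as `HH`, not unfolded by instance search). -/
def HC (d : ∀ q, A q →ₗ[ℂ] A (q + 1)) (q : ℕ) : Type _ := HH d q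

noncomputable instance (d : ∀ q, A q →ₗ[ℂ] A (q + 1)) (q : ℕ) : AddCommGroup (HC d q) :=
  inferInstanceAs (AddCommGroup (HH d q))

noncomputable instance (d : ∀ q, A q →ₗ[ℂ] A (q + 1)) (q : ℕ) : Module ℂ (HC d q) :=
  inferInstanceAs (Module ℂ (HH d q))

/-- The class of a cocycle. -/
def HC.mk (d : ∀ q, A q →ₗ[ℂ] A (q + 1)) (q : ℕ) : LinearMap.ker (d q) →ₗ[ℂ] HC d q :=
  Submodule.mkQ _

theorem HC.mk_surjective (d : ∀ q, A q →ₗ[ℂ] A (q + 1)) (q : ℕ) :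
    Function.Surjective (HC.mk d q) := Submodule.mkQ_surjective _

theorem HC.mk_eq_zero (d : ∀ q, A q →ₗ[ℂ] A (q + 1)) (q : ℕ) (a : LinearMap.ker (d q)) :
    HC.mk d q a = 0 ↔ (a : A q) ∈ Bd d q := by
  show Submodule.mkQ _ a = 0 ↔ _
  rw [Submodule.mkQ_apply, Submodule.Quotient.mk_eq_zero]
  rfl

/-- The induced map. -/
def HCmap (d : ∀ q, A q →ₗ[ℂ] A (q + 1)) (d' : ∀ q, A' q →ₗ[ℂ] A' (q + 1))
    (φ : ∀ q, A q →ₗ[ℂ] A' q) (hφ : ∀ q a, d' q (φ q a) = φ (q + 1) (d q a)) (q : ℕ) :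
    HC d q →ₗ[ℂ] HC d' q := Hmap d d' φ hφ q

theorem HCmap_mk (d : ∀ q, A q →ₗ[ℂ] A (q + 1)) (d' : ∀ q, A' q →ₗ[ℂ] A' (q + 1))
    (φ : ∀ q, A q →ₗ[ℂ] A' q) (hφ : ∀ q a, d' q (φ q a) = φ (q + 1) (d q a)) (q : ℕ)
    (a : LinearMap.ker (d q)) :
    HCmap d d' φ hφ q (HC.mk d q a) = HC.mk d' q (Zmap d d' φ hφ q a) := rfl

/-- The abstract Lefschetz formula for `HC`. -/
theorem abstract_lefschetz' {A V : ℕ → Type*} [∀ q, AddCommGroup (A q)] [∀ q, Module ℂ (A q)]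
    [∀ q, NormedAddCommGroup (V q)] [∀ q, NormedSpace ℂ (V q)] [∀ q, CompleteSpace (V q)]
    (D : CData A V) :
    (∀ q, FiniteDimensional ℂ (HC D.d q)) ∧
    ∑ q ∈ Finset.range (D.N + 1), (-1 : ℂ) ^ q *
      LinearMap.trace ℂ (HC D.d q) (HCmap D.d D.d D.F D.dF q) = ∑ q ∈ Finset.range (D.N + 1),
      (-1 : ℂ) ^ q * trN (D.ns q) (D.Fh q * D.sh q) :=
  abstract_lefschetz D

end

end FB
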