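import Pool.Agent.H.MP_fb873c_an.S0

/-!
# Part D: dynamics.  Comparison of the topologies
-/

namespace FB

open scoped Topology ContDiff Manifold

universe u

section

variable {n : ℕ} {M : Type u} [TopologicalSpace M] [ChartedSpace (Er n) M]
  [IsManifold (𝓡 n) ∞ M] [CompactSpace M] [T2Space M]

/-- Higher order gives a finer topology. -/
theorem crTop_mono {r s : ℕ∞} (h : r ≤ s) : crTop n M s ≤ crTop n M r := by
  refine le_generateFrom ?_
  rintro _ ⟨k, f, φ, ψ, K, ε, hk, h1, h2, h3, h4, h5, h6, rfl⟩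
  exact TopologicalSpace.isOpen_generateFrom_of_mem
    ⟨k, f, φ, ψ, K, ε, hk.trans h, h1, h2, h3, h4, h5, h6, rfl⟩

end

end FB
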