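import Pool.Agent.H.MP_fb873c_an.S0

/-!
# Part D1a: chart lemmas; families of maps converging in `C¹`: definitions
-/

namespace FB

open scoped Topology ContDiff Manifold
open Filter

universe u v

section

variable (n : ℕ) {M : Type u} [TopologicalSpace M] [ChartedSpace (Er n) M]

/-- `C¹`-convergence, locally uniform, of the family `F i` to `F0` along `l`. -/
structure CV {ι : Type v} (l : Filter ι) (F : ι → M → M) (F0 : M → M) : Prop where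
  tend : ∀ x, Tendsto (fun p : ι × M => F p.1 p.2) (l ×ˢ 𝓝 x) (𝓝 (F0 x))
  tendD : ∀ (x : M) (φ ψ : OpenPartialHomeomorph M (Er n)), φ ∈ atlas (Er n) M →
    ψ ∈ atlas (Er n) M → x ∈ φ.source → F0 x ∈ ψ.source →
    Tendsto (fun p : ι × M => fderiv ℝ (ψ ∘ F p.1 ∘ φ.symm) (φ p.2)) (l ×ˢ 𝓝 x)
      (𝓝 (fderiv ℝ (ψ ∘ F0 ∘ φ.symm) (φ x)))

/-- `F` is `C¹`. -/
abbrev C1 (F : M → M) : Prop := ContMDiff (𝓡 n) (𝓡 n) 1 F

/-- The fixed point `x` of `F` is nondegenerate. -/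
def ND (F : M → M) (x : M) : Prop :=
  LinearMap.det ((dfix F x - ContinuousLinearMap.id ℝ (Er n) : Er n →L[ℝ] Er n)).toLinearMap ≠ 0

end

section

variable {n : ℕ} {M : Type u} [TopologicalSpace M] [ChartedSpace (Er n) M]

/-- Coordinate representations of a `C¹` map are `C¹`.
PROOF. `φ.symm` is `C¹` at `φ x` (contMDiffAt_symm_of_mem_maximalAtlas, IsManifold.subset_maximalAtlas,
IsManifold.of_le for `1 ≤ ∞`), `ψ` at `F x` (contMDiffAt_of_mem_maximalAtlas); ContMDiffAt.comp,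
`contMDiffAt_iff_contDiffAt` (the model with corners of `Er n` over itself is `𝓘(ℝ, Er n)`). -/
theorem D1_cda [IsManifold (𝓡 n) ∞ M] {F : M → M} {x : M}
    (hF : ContMDiffAt (𝓡 n) (𝓡 n) 1 F x) {φ ψ : OpenPartialHomeomorph M (Er n)}
    (hφ : φ ∈ atlas (Er n) M) (hψ : ψ ∈ atlas (Er n) M) (hx : x ∈ φ.source)
    (hy : F x ∈ ψ.source) : ContDiffAt ℝ 1 (ψ ∘ F ∘ φ.symm) (φ x) := by
  have : IsManifold (𝓡 n) 1 M := IsManifold.of_le (n := ∞) (by norm_cast)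
  have h1 : ContMDiffAt (𝓡 n) (𝓡 n) 1 φ.symm (φ x) :=
    contMDiffAt_symm_of_mem_maximalAtlas (IsManifold.subset_maximalAtlas hφ) (φ.map_source hx)
  have h2 : ContMDiffAt (𝓡 n) (𝓡 n) 1 ψ (F x) :=
    contMDiffAt_of_mem_maximalAtlas (IsManifold.subset_maximalAtlas hψ) hy
  have h3 : φ.symm (φ x) = x := φ.left_inv hx
  have h4 : ContMDiffAt (𝓡 n) (𝓡 n) 1 (F ∘ φ.symm) (φ x) :=
    ContMDiffAt.comp (φ x) (by rw [h3]; exact hF) h1
  have h5 : ContMDiffAt (𝓡 n) (𝓡 n) 1 (ψ ∘ (F ∘ φ.symm)) (φ x) :=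
    ContMDiffAt.comp (φ x) (by simpa [h3] using h2) h4
  exact contMDiffAt_iff_contDiffAt.1 h5

/-- Chain rule in charts.
PROOF. Near `φ x` the map `ψ ∘ (G ∘ F) ∘ φ.symm` equals `(ψ ∘ G ∘ χ.symm) ∘ (χ ∘ F ∘ φ.symm)`
(`χ.left_inv`, `F (φ.symm z) ∈ χ.source` for `z` near `φ x` by continuity), both factors are
differentiable by `D1_cda`; `fderiv_comp`, `Filter.EventuallyEq.fderiv_eq`. -/
theorem D1_chain [IsManifold (𝓡 n) ∞ M] {F G : M → M} {x : M}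
    (hF : ContMDiffAt (𝓡 n) (𝓡 n) 1 F x) (hG : ContMDiffAt (𝓡 n) (𝓡 n) 1 G (F x))
    {φ χ ψ : OpenPartialHomeomorph M (Er n)}
    (hφ : φ ∈ atlas (Er n) M) (hχ : χ ∈ atlas (Er n) M) (hψ : ψ ∈ atlas (Er n) M)
    (hx : x ∈ φ.source) (hy : F x ∈ χ.source) (hz : G (F x) ∈ ψ.source) :
    fderiv ℝ (ψ ∘ (G ∘ F) ∘ φ.symm) (φ x) =
      (fderiv ℝ (ψ ∘ G ∘ χ.symm) (χ (F x))).comp (fderiv ℝ (χ ∘ F ∘ φ.symm) (φ x)) := by
  have h3 : φ.symm (φ x) = x := φ.left_inv hx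
  have hd1 := (D1_cda hF hφ hχ hx hy).differentiableAt (by norm_num)
  have hd2 := (D1_cda hG hχ hψ hy hz).differentiableAt (by norm_num)
  have hc : ContinuousAt (fun z => F (φ.symm z)) (φ x) := by
    have h4 : ContinuousAt φ.symm (φ x) := φ.continuousAt_symm (φ.map_source hx)
    exact ContinuousAt.comp (by rw [h3]; exact hF.continuousAt) h4
  have he : (ψ ∘ (G ∘ F) ∘ φ.symm) =ᶠ[𝓝 (φ x)] (ψ ∘ G ∘ χ.symm) ∘ (χ ∘ F ∘ φ.symm) := by
    have : ∀ᶠ z in 𝓝 (φ x), F (φ.symm z) ∈ χ.source :=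
      hc.eventually_mem (χ.open_source.mem_nhds (by simpa [h3] using hy))
    filter_upwards [this] with z hz
    simp [χ.left_inv hz]
  rw [he.fderiv_eq]
  have h5 : (χ ∘ F ∘ φ.symm) (φ x) = χ (F x) := by simp [h3]
  rw [fderiv_comp (φ x) (by rw [h5]; exact hd2) hd1, h5]

end

end FB
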