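import Pool.Agent.H.MP_fb873c_an.D1a

/-!
# Part D1b: `C¹`-convergence: constant families, compositions, iterates
-/

namespace FB

open scoped Topology ContDiff Manifold
open Filter

universe u v w

section

variable {n : ℕ} {M : Type u} [TopologicalSpace M] [ChartedSpace (Er n) M]
variable {ι : Type v}

theorem CV.mono {l l' : Filter ι} {F : ι → M → M} {F0 : M → M} (h : CV n l F F0) (hl : l' ≤ l) :
    CV n l' F F0 :=
  ⟨fun x => (h.tend x).mono_left (Filter.prod_mono_left _ hl),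
    fun x φ ψ h1 h2 h3 h4 => (h.tendD x φ ψ h1 h2 h3 h4).mono_left (Filter.prod_mono_left _ hl)⟩

theorem CV.comp_tendsto {κ : Type w} {l : Filter ι} {l' : Filter κ} {F : ι → M → M} {F0 : M → M}
    (h : CV n l F F0) {u : κ → ι} (hu : Tendsto u l' l) : CV n l' (fun k => F (u k)) F0 := by
  refine ⟨fun x => ?_, fun x φ ψ h1 h2 h3 h4 => ?_⟩
  · exact (h.tend x).comp (Filter.Tendsto.prodMap hu tendsto_id)
  · exact (h.tendD x φ ψ h1 h2 h3 h4).comp (Filter.Tendsto.prodMap hu tendsto_id)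

/-- The constant family. -/
theorem CV.const [IsManifold (𝓡 n) ∞ M] (l : Filter ι) {F0 : M → M} (h : C1 n F0) :
    CV n l (fun _ => F0) F0 := by
  refine ⟨fun x => ?_, fun x φ ψ h1 h2 h3 h4 => ?_⟩
  · exact (h.continuous.tendsto x).comp tendsto_snd
  · have h5 := D1_cda (h x) h1 h2 h3 h4
    have h6 : ContinuousAt (fderiv ℝ (ψ ∘ F0 ∘ φ.symm)) (φ x) :=
      (h5.fderiv_right (m := 0) (by norm_num)).continuousAt
    have h7 : ContinuousAt φ x := φ.continuousAt h3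
    exact (h6.tendsto.comp h7.tendsto).comp tendsto_snd

/-- Compositions. -/
theorem CV.comp [IsManifold (𝓡 n) ∞ M] {l : Filter ι} {F G : ι → M → M} {F0 G0 : M → M}
    (hF : CV n l F F0) (hG : CV n l G G0) (sF : ∀ i, C1 n (F i)) (sG : ∀ i, C1 n (G i))
    (sF0 : C1 n F0) (sG0 : C1 n G0) : CV n l (fun i => G i ∘ F i) (G0 ∘ F0) := by
  have key : ∀ x, Tendsto (fun p : ι × M => (p.1, F p.1 p.2)) (l ×ˢ 𝓝 x) (l ×ˢ 𝓝 (F0 x)) :=
    fun x => tendsto_fst.prodMk (hF.tend x)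
  refine ⟨fun x => (hG.tend (F0 x)).comp (key x), fun x φ ψ h1 h2 h3 h4 => ?_⟩
  set χ := chartAt (Er n) (F0 x) with hχ
  have hχ1 : χ ∈ atlas (Er n) M := chart_mem_atlas _ _
  have hχ2 : F0 x ∈ χ.source := mem_chart_source _ _
  have e1 : ∀ᶠ p : ι × M in l ×ˢ 𝓝 x, p.2 ∈ φ.source :=
    tendsto_snd.eventually_mem (φ.open_source.mem_nhds h3)
  have e2 : ∀ᶠ p : ι × M in l ×ˢ 𝓝 x, F p.1 p.2 ∈ χ.source :=
    (hF.tend x).eventually_mem (χ.open_source.mem_nhds hχ2)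
  have e3 : ∀ᶠ p : ι × M in l ×ˢ 𝓝 x, G p.1 (F p.1 p.2) ∈ ψ.source :=
    ((hG.tend (F0 x)).comp (key x)).eventually_mem (ψ.open_source.mem_nhds h4)
  have t1 := (hG.tendD (F0 x) χ ψ hχ1 h2 hχ2 h4).comp (key x)
  have t2 := hF.tendD x φ χ h1 hχ1 h3 hχ2
  have t3 := ((isBoundedBilinearMap_comp (𝕜 := ℝ) (E := Er n) (F := Er n)
    (G := Er n)).continuous.tendsto _).comp (t1.prodMk_nhds t2)
  rw [D1_chain (sF0 x) (sG0 _) h1 hχ1 h2 h3 hχ2 h4]
  refine t3.congr' ?_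
  filter_upwards [e1, e2, e3] with p q1 q2 q3
  exact (D1_chain (sF _ _) (sG _ _) h1 hχ1 h2 q1 q2 q3).symm

theorem C1.iterate {F : M → M} (h : C1 n F) (k : ℕ) : C1 n (F^[k]) := by
  induction k with
  | zero => simpa using (contMDiff_id : ContMDiff (𝓡 n) (𝓡 n) 1 (id : M → M))
  | succ k ih => rw [Function.iterate_succ']; exact h.comp ih

/-- Iterates. -/
theorem CV.iterate [IsManifold (𝓡 n) ∞ M] {l : Filter ι} {F : ι → M → M} {F0 : M → M}
    (hF : CV n l F F0) (sF : ∀ i, C1 n (F i)) (sF0 : C1 n F0) (k : ℕ) :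
    CV n l (fun i => (F i)^[k]) (F0^[k]) := by
  induction k with
  | zero => simpa using CV.const l (contMDiff_id : C1 n (id : M → M))
  | succ k ih =>
    simp only [Function.iterate_succ']
    exact ih.comp hF (fun i => (sF i).iterate k) sF (sF0.iterate k) sF0

end

end FB
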