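import Pool.Agent.H.MP_fb873c_an.D1b
import Pool.Agent.H.MP_fb873c_an.D1d
import Pool.Agent.H.MP_fb873c_an.D1e

/-!
# Part D1f: structure of the fixed point set of nearby maps
-/

namespace FB

open scoped Topology ContDiff Manifold NNReal
open Filter Metric

universe u v w

section

variable {n : ℕ} {M : Type u} [TopologicalSpace M] [ChartedSpace (Er n) M]
variable {ι : Type v}

/-- Continuation of one nondegenerate fixed point. -/
theorem D1_cont [IsManifold (𝓡 n) ∞ M] {l : Filter ι} {F : ι → M → M} {F0 : M → M}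
    (hF : CV n l F F0) (sF : ∀ i, C1 n (F i)) {x : M} (hx : F0 x = x) (hnd : ND n F0 x) :
    ∃ B ∈ 𝓝 x, ∃ y : ι → M, Tendsto y l (𝓝 x) ∧
      (∀ᶠ i in l, F i (y i) = y i) ∧ ∀ᶠ i in l, ∀ z ∈ B, F i z = z → z = y i := by
  classical
  obtain ⟨B, hB, h1, h2⟩ := D1_uc hF sF hx hnd
  refine ⟨B, hB, fun i => if h : ∃ z ∈ B, F i z = z then h.choose else x, ?_, ?_, ?_⟩
  · rw [tendsto_def]
    intro V hV
    filter_upwards [h1, h2 (B ∩ V) (Filter.inter_mem hB hV)] with i q1 q2
    obtain ⟨y, hy, hy2⟩ := q2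
    have hex : ∃ z ∈ B, F i z = z := ⟨y, hy.1, hy2⟩
    have hc := hex.choose_spec
    simp only [Set.mem_preimage, dif_pos hex]
    rw [q1 _ hc.1 y hy.1 hc.2 hy2]
    exact hy.2
  · filter_upwards [h2 B hB] with i q2
    rw [dif_pos q2]
    exact q2.choose_spec.2
  · filter_upwards [h1, h2 B hB] with i q1 q2 z hz hz2
    rw [dif_pos q2]
    exact q1 z hz _ q2.choose_spec.1 hz2 q2.choose_spec.2

/-- Nondegenerate fixed points are isolated; finitely many on a compact manifold. -/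
theorem D1_fin [IsManifold (𝓡 n) ∞ M] [CompactSpace M] [T2Space M] {F0 : M → M} (sF0 : C1 n F0)
    (h0 : ∀ x, F0 x = x → ND n F0 x) : {x | F0 x = x}.Finite := by
  have hcl : IsClosed {x | F0 x = x} := isClosed_eq sF0.continuous continuous_id
  have hc : IsCompact {x | F0 x = x} := hcl.isCompact
  refine hc.finite ?_
  rw [isDiscrete_iff_forall_mem_exists_isOpen]
  intro x hx
  have hcv : CV n (pure ()) (fun _ : Unit => F0) F0 := CV.const _ sF0
  obtain ⟨B, hB, h1, -⟩ := D1_uc hcv (fun _ => sF0) hx (h0 x hx)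
  have h2 := Filter.eventually_pure.1 h1
  refine ⟨interior B, isOpen_interior, ?_⟩
  ext z
  constructor
  · rintro ⟨hz1, hz2⟩
    exact h2 z (interior_subset hz1) x (mem_of_mem_nhds hB) hz2 hx
  · rintro rfl
    exact ⟨mem_interior_iff_mem_nhds.2 hB, hx⟩

/-- The fixed points of `F i` are exactly the continuations of the fixed points of `F0`. -/
theorem D1_fix [IsManifold (𝓡 n) ∞ M] [CompactSpace M] [T2Space M] {l : Filter ι}
    {F : ι → M → M} {F0 : M → M}
    (hF : CV n l F F0) (sF : ∀ i, C1 n (F i)) (sF0 : C1 n F0)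
    (h0 : ∀ x, F0 x = x → ND n F0 x) :
    ∃ y : M → ι → M, (∀ x, F0 x = x → Tendsto (y x) l (𝓝 x)) ∧
      (∀ᶠ i in l, Set.BijOn (fun x => y x i) {x | F0 x = x} {x | F i x = x}) := by
  classical
  have hfin := D1_fin sF0 h0
  have hex : ∀ x : M, ∃ B ∈ 𝓝 x, ∃ y : ι → M, F0 x = x → (Tendsto y l (𝓝 x) ∧
      (∀ᶠ i in l, F i (y i) = y i) ∧ ∀ᶠ i in l, ∀ z ∈ B, F i z = z → z = y i) := by
    intro x
    by_cases hx : F0 x = x
    · obtain ⟨B, hB, y, hy⟩ := D1_cont hF sF hx (h0 x hx)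
      exact ⟨B, hB, y, fun _ => hy⟩
    · exact ⟨Set.univ, Filter.univ_mem, fun _ => x, fun h => absurd h hx⟩
  choose B hB y hy using hex
  refine ⟨y, fun x hx => (hy x hx).1, ?_⟩
  -- outside of the neighbourhoods there are no fixed points
  set K : Set M := (⋃ x ∈ {x | F0 x = x}, interior (B x))ᶜ with hK
  have hKc : IsCompact K :=
    (isOpen_biUnion fun x _ => isOpen_interior).isClosed_compl.isCompact
  have e1 := D1_nofix hF hKc (fun x hx hx2 => hx (Set.mem_biUnion hx2
    (mem_interior_iff_mem_nhds.2 (hB x))))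
  have e2 : ∀ᶠ i in l, ∀ x ∈ {x | F0 x = x}, F i (y x i) = y x i :=
    (Filter.eventually_all_finite hfin).2 fun x hx => (hy x hx).2.1
  have e3 : ∀ᶠ i in l, ∀ x ∈ {x | F0 x = x}, ∀ z ∈ B x, F i z = z → z = y x i :=
    (Filter.eventually_all_finite hfin).2 fun x hx => (hy x hx).2.2
  have e4 : ∀ᶠ i in l, ∀ x ∈ {x | F0 x = x}, ∀ x' ∈ {x | F0 x = x}, x ≠ x' → y x i ≠ y x' i := by
    refine (Filter.eventually_all_finite hfin).2 fun x hx =>
      (Filter.eventually_all_finite hfin).2 fun x' hx' => ?_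
    by_cases hxx : x = x'
    · exact Filter.Eventually.of_forall fun i h => absurd hxx h
    · have t := ((hy x hx).1).prodMk_nhds ((hy x' hx').1)
      have h3 : IsOpen {q : M × M | q.1 ≠ q.2} := isOpen_ne_fun continuous_fst continuous_snd
      filter_upwards [t.eventually_mem (h3.mem_nhds hxx)] with i hi _
      exact hi
  filter_upwards [e1, e2, e3, e4] with i q1 q2 q3 q4
  refine ⟨fun x hx => q2 x hx, fun x hx x' hx' h => ?_, fun z hz => ?_⟩
  · by_contra hne
    exact q4 x hx x' hx' hne h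
  · have hzK : z ∉ K := fun h => q1 z h hz
    rw [hK, Set.notMem_compl_iff] at hzK
    obtain ⟨x, hx, hzx⟩ := Set.mem_iUnion₂.1 hzK
    exact ⟨x, hx, (q3 x hx z (interior_subset hzx) hz).symm⟩

end

end FB
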