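import Pool.Agent.H.MP_fb873c_an.D1c
import Pool.Agent.H.MP_fb873c_an.D1f
import Pool.Agent.H.MP_fb873c_an.D1h

/-!
# Part D1g: openness of `GoodAt`
-/

namespace FB

open scoped Topology ContDiff Manifold NNReal
open Filter Metric

universe u v w

section

variable {n : ℕ} {M : Type u} [TopologicalSpace M] [ChartedSpace (Er n) M]
variable {ι : Type v}

/-- A fixed point of `F i` converging to `x0` is the continuation of `x0`. -/
theorem D1_eqv [T2Space M] {l : Filter ι} {F : ι → M → M} {F0 : M → M}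
    (hfin : {x | F0 x = x}.Finite) {y : M → ι → M}
    (hy1 : ∀ x, F0 x = x → Tendsto (y x) l (𝓝 x))
    (hy2 : ∀ᶠ i in l, Set.BijOn (fun x => y x i) {x | F0 x = x} {x | F i x = x})
    {x0 : M} {z : ι → M} (hz : Tendsto z l (𝓝 x0))
    (hz2 : ∀ᶠ i in l, F i (z i) = z i) : ∀ᶠ i in l, z i = y x0 i := by
  have e1 : ∀ᶠ i in l, ∀ x ∈ {x | F0 x = x}, x ≠ x0 → y x i ≠ z i := by
    refine (Filter.eventually_all_finite hfin).2 fun x hx => ?_
    by_cases hxx : x = x0
    · exact Filter.Eventually.of_forall fun i h => absurd hxx h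
    · have t := (hy1 x hx).prodMk_nhds hz
      have h3 : IsOpen {q : M × M | q.1 ≠ q.2} := isOpen_ne_fun continuous_fst continuous_snd
      filter_upwards [t.eventually_mem (h3.mem_nhds hxx)] with i hi _
      exact hi
  filter_upwards [e1, hy2, hz2] with i q1 q2 q3
  obtain ⟨x, hx, hxz⟩ := q2.surjOn q3
  by_cases hxx : x = x0
  · rw [← hxz, hxx]
  · exact absurd hxz (q1 x hx hxx)

/-- Members of `Fac A` are nonzero when `1` is not an eigenvalue. -/
theorem D1_ne {A : Er n →L[ℝ] Er n}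
    (h : LinearMap.det ((A - ContinuousLinearMap.id ℝ (Er n) : Er n →L[ℝ] Er n)).toLinearMap ≠ 0)
    {c : ℂ} (hc : c ∈ Fac A.toLinearMap) : c ≠ 0 := by
  obtain ⟨p, -, hp, rfl⟩ := hc
  intro h0
  have h1 := D1h_eval A hp 1
  have h2 : (p.eval ((1 : ℝ) : ℂ)) = 0 := by simpa using h0
  rw [h2, zero_mul] at h1
  have h3 : LinearMap.det (algebraMap ℝ (Module.End ℝ (Er n)) 1 - A.toLinearMap) = 0 := by
    exact_mod_cast h1.symm
  apply h
  have h4 : ((A - ContinuousLinearMap.id ℝ (Er n) : Er n →L[ℝ] Er n)).toLinearMap =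
      (-1 : ℝ) • (algebraMap ℝ (Module.End ℝ (Er n)) 1 - A.toLinearMap) := by
    ext v
    simp
  rw [h4, LinearMap.det_smul, h3, mul_zero]

/-- Openness of `GoodAt` in the `C¹` topology. -/
theorem goodAt_open_aux [IsManifold (𝓡 n) ∞ M] [CompactSpace M] [T2Space M]
    (k : ℕ) (R : Set ℂ) (hR : R.Finite) :
    IsOpen[crTop n M 1] {g : Dif n M | GoodAt g k R} := by
  classical
  let _ := crTop n M 1
  rw [isOpen_iff_ultrafilter]
  intro g hg l hl
  have hcv : CV n (l : Filter (Dif n M)) (fun g' : Dif n M => (g' : M → M)) g := CV.of_crTop hl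
  have sG : ∀ g' : Dif n M, C1 n (g' : M → M) := fun g' => g'.contMDiff_toFun.of_le (by norm_cast)
  have hF : CV n (l : Filter (Dif n M)) (fun g' : Dif n M => (g' : M → M)^[k]) ((g : M → M)^[k]) :=
    hcv.iterate sG (sG g) k
  have sF : ∀ g' : Dif n M, C1 n ((g' : M → M)^[k]) := fun g' => (sG g').iterate k
  by_contra hbad
  have hbad' : {g' : Dif n M | GoodAt g' k R}ᶜ ∈ l := Ultrafilter.compl_mem_iff_notMem.2 hbad
  have h0 : ∀ x, (g : M → M)^[k] x = x → ND n ((g : M → M)^[k]) x := hg.1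
  have e1 : ∀ᶠ g' : Dif n M in (l : Filter (Dif n M)), ∀ x, (g' : M → M)^[k] x = x →
      ND n ((g' : M → M)^[k]) x := by
    filter_upwards [D1_nd hF sF (sF g) isCompact_univ (fun x _ => h0 x)] with g' h x
    exact h x trivial
  have e2 : ∀ᶠ g' : Dif n M in (l : Filter (Dif n M)), ∃ c : M → ℂ, (∀ x, (g' : M → M)^[k] x = x →
      c x ∈ Fac (dfix (n := n) ((g' : M → M)^[k]) x).toLinearMap ∧ c (g' x) = c x) ∧
      (∑ᶠ x ∈ {x | (g' : M → M)^[k] x = x}, (c x)⁻¹) ∈ R := by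
    filter_upwards [e1, hbad'] with g' q1 q2
    by_contra hne
    apply q2
    refine ⟨q1, fun c hc hcR => hne ⟨c, hc, hcR⟩⟩
  obtain ⟨c, hc⟩ : ∃ c : Dif n M → M → ℂ, ∀ᶠ g' : Dif n M in (l : Filter (Dif n M)),
      (∀ x, (g' : M → M)^[k] x = x →
      c g' x ∈ Fac (dfix (n := n) ((g' : M → M)^[k]) x).toLinearMap ∧ c g' (g' x) = c g' x) ∧
      (∑ᶠ x ∈ {x | (g' : M → M)^[k] x = x}, (c g' x)⁻¹) ∈ R :=
    Filter.Eventually.choice e2
  have hfin := D1_fin (sF g) h0
  obtain ⟨y, hy1, hy2⟩ := D1_fix hF sF (sF g) h0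
  have hyF : ∀ x, (g : M → M)^[k] x = x →
      ∀ᶠ g' : Dif n M in (l : Filter (Dif n M)), (g' : M → M)^[k] (y x g') = y x g' := by
    intro x hx
    filter_upwards [hy2] with g' q
    exact q.mapsTo hx
  have hlim : ∀ x, ∃ c0 : ℂ, (g : M → M)^[k] x = x →
      (c0 ∈ Fac (dfix (n := n) ((g : M → M)^[k]) x).toLinearMap ∧
        Tendsto (fun g' => c g' (y x g')) (l : Filter (Dif n M)) (𝓝 c0)) := by
    intro x
    by_cases hx : (g : M → M)^[k] x = x
    · set φ := chartAt (Er n) x with hφ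
      have hφ1 : φ ∈ atlas (Er n) M := chart_mem_atlas _ _
      have h2 : x ∈ φ.source := mem_chart_source _ _
      have t1 := (hF.tendD x φ φ hφ1 hφ1 h2 (by rw [hx]; exact h2)).comp
        (tendsto_id.prodMk (hy1 x hx))
      have e3 : ∀ᶠ g' : Dif n M in (l : Filter (Dif n M)), c g' (y x g') ∈
          Fac (fderiv ℝ (φ ∘ (g' : M → M)^[k] ∘ φ.symm) (φ (y x g'))).toLinearMap := by
        filter_upwards [hc, hyF x hx,
          (hy1 x hx).eventually_mem (φ.open_source.mem_nhds h2)] with g' q1 q2 q3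
        rw [Fac_dfix (sF g' _) q2 hφ1 q3]
        exact (q1.1 _ q2).1
      obtain ⟨c0, hc0, hc1⟩ := Fac_closed l _ _ t1 _ e3
      exact ⟨c0, fun _ => ⟨hc0, hc1⟩⟩
    · exact ⟨0, fun h => absurd h hx⟩
  choose c0 hc0 using hlim
  refine hg.2 c0 (fun x hx => ⟨(hc0 x hx).1, ?_⟩) ?_
  · -- equivariance
    have hgx : (g : M → M)^[k] (g x) = g x := by
      rw [← Function.iterate_succ_apply, Function.iterate_succ_apply', hx]
    have t1 : Tendsto (fun g' : Dif n M => g' (y x g')) (l : Filter (Dif n M)) (𝓝 (g x)) :=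
      (hcv.tend x).comp (tendsto_id.prodMk (hy1 x hx))
    have e3 : ∀ᶠ g' : Dif n M in (l : Filter (Dif n M)), (g' : M → M)^[k] (g' (y x g')) = g' (y x g') := by
      filter_upwards [hyF x hx] with g' q
      rw [← Function.iterate_succ_apply, Function.iterate_succ_apply', q]
    have e4 := D1_eqv hfin hy1 hy2 t1 e3
    have t2 := (hc0 (g x) hgx).2
    have t3 := (hc0 x hx).2
    refine tendsto_nhds_unique t2 (t3.congr' ?_)
    filter_upwards [e4, hc, hyF x hx] with g' q1 q2 q3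
    rw [← q1, (q2.1 _ q3).2]
  · -- the sum
    have t1 : Tendsto (fun g' : Dif n M => ∑ x ∈ hfin.toFinset, (c g' (y x g'))⁻¹)
        (l : Filter (Dif n M)) (𝓝 (∑ x ∈ hfin.toFinset, (c0 x)⁻¹)) := by
      refine tendsto_finsetSum _ fun x hx => ?_
      have hx' : (g : M → M)^[k] x = x := hfin.mem_toFinset.1 hx
      exact ((hc0 x hx').2).inv₀ (D1_ne (h0 x hx') (hc0 x hx').1)
    have e3 : ∀ᶠ g' : Dif n M in (l : Filter (Dif n M)),
        (∑ x ∈ hfin.toFinset, (c g' (y x g'))⁻¹) ∈ R := by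
      filter_upwards [hc, hy2] with g' q1 q2
      have h5 : (∑ᶠ x ∈ {x | (g : M → M)^[k] x = x}, (c g' (y x g'))⁻¹) =
          ∑ᶠ x ∈ {x | (g' : M → M)^[k] x = x}, (c g' x)⁻¹ :=
        finsum_mem_eq_of_bijOn (fun x => y x g') q2 (fun x _ => rfl)
      rw [← finsum_mem_eq_finite_toFinset_sum _ hfin, h5]
      exact q1.2
    rw [finsum_mem_eq_finite_toFinset_sum _ hfin]
    exact hR.isClosed.mem_of_tendsto t1 e3

end

end FB
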