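import Pool.Agent.H.MP_fb873c_an.S0

/-!
# Part D2: diffeomorphisms supported in a chart
-/

namespace FB

open scoped Topology ContDiff Manifold
open Filter

universe u

section

variable {n : ℕ} {M : Type u} [TopologicalSpace M] [ChartedSpace (Er n) M]
  [IsManifold (𝓡 n) ∞ M] [T2Space M]

open Classical in
/-- `x ↦ φ⁻¹ (σ (φ x))` on `φ.source`, identity elsewhere. -/
noncomputable def D2f_map (φ : OpenPartialHomeomorph M (Er n)) (σ : Er n → Er n) (x : M) : M :=
  if x ∈ φ.source then φ.symm (σ (φ x)) else x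

omit [IsManifold (𝓡 n) ∞ M] [T2Space M] in
theorem D2f_map_in {φ : OpenPartialHomeomorph M (Er n)} {σ : Er n → Er n} {x : M}
    (hx : x ∈ φ.source) : D2f_map φ σ x = φ.symm (σ (φ x)) := by
  simp only [D2f_map, if_pos hx]

omit [IsManifold (𝓡 n) ∞ M] [T2Space M] in
theorem D2f_map_out {φ : OpenPartialHomeomorph M (Er n)} {σ : Er n → Er n} {x : M}
    (hx : x ∉ φ.source) : D2f_map φ σ x = x := by
  simp only [D2f_map, if_neg hx]

omit [IsManifold (𝓡 n) ∞ M] [T2Space M] in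
theorem D2f_map_off {φ : OpenPartialHomeomorph M (Er n)} {K : Set (Er n)} {σ : Er n → Er n}
    (h3 : ∀ z ∉ K, σ z = z) {x : M} (hx : x ∉ φ.symm '' K) : D2f_map φ σ x = x := by
  by_cases hs : x ∈ φ.source
  · have h : φ x ∉ K := fun h => hx ⟨φ x, h, φ.left_inv hs⟩
    rw [D2f_map_in hs, h3 _ h, φ.left_inv hs]
  · exact D2f_map_out hs

omit [IsManifold (𝓡 n) ∞ M] [T2Space M] in
theorem D2f_inv {φ : OpenPartialHomeomorph M (Er n)} {σ τ : Er n → Er n}
    (hm : ∀ z ∈ φ.target, σ z ∈ φ.target) (hi : ∀ z, τ (σ z) = z) (x : M) :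
    D2f_map φ τ (D2f_map φ σ x) = x := by
  by_cases hs : x ∈ φ.source
  · have h1 : σ (φ x) ∈ φ.target := hm _ (φ.map_source hs)
    have h2 : φ.symm (σ (φ x)) ∈ φ.source := φ.map_target h1
    rw [D2f_map_in hs, D2f_map_in h2, φ.right_inv h1, hi, φ.left_inv hs]
  · rw [D2f_map_out hs, D2f_map_out hs]

theorem D2f_smooth {φ : OpenPartialHomeomorph M (Er n)} (hφ : φ ∈ atlas (Er n) M)
    {K : Set (Er n)} (hK : IsCompact K) (hKφ : K ⊆ φ.target) {σ : Er n → Er n}
    (hm : ∀ z ∈ φ.target, σ z ∈ φ.target)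
    (h1 : ContDiff ℝ ∞ σ) (h3 : ∀ z ∉ K, σ z = z) :
    ContMDiff (𝓡 n) (𝓡 n) ∞ (D2f_map φ σ) := by
  have hmax : φ ∈ IsManifold.maximalAtlas (𝓡 n) ∞ M := IsManifold.subset_maximalAtlas hφ
  intro x
  by_cases hs : x ∈ φ.source
  · have e : D2f_map φ σ =ᶠ[𝓝 x] (φ.symm ∘ σ ∘ φ) := by
      filter_upwards [φ.open_source.mem_nhds hs] with y hy
      exact D2f_map_in hy
    refine ContMDiffAt.congr_of_eventuallyEq ?_ e
    have a1 : ContMDiffAt (𝓡 n) (𝓡 n) ∞ φ x := contMDiffAt_of_mem_maximalAtlas hmax hs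
    have a2 : ContMDiffAt (𝓡 n) (𝓡 n) ∞ σ (φ x) := h1.contMDiff.contMDiffAt
    have a3 : ContMDiffAt (𝓡 n) (𝓡 n) ∞ φ.symm (σ (φ x)) :=
      contMDiffAt_symm_of_mem_maximalAtlas hmax (hm _ (φ.map_source hs))
    exact a3.comp x (a2.comp x a1)
  · have hc : IsCompact (φ.symm '' K) :=
      hK.image_of_continuousOn (φ.continuousOn_symm.mono hKφ)
    have hx : x ∉ φ.symm '' K := by
      rintro ⟨z, hz, rfl⟩
      exact hs (φ.map_target (hKφ hz))
    have e : D2f_map φ σ =ᶠ[𝓝 x] id := by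
      filter_upwards [hc.isClosed.isOpen_compl.mem_nhds hx] with y hy
      exact D2f_map_off h3 hy
    exact contMDiffAt_id.congr_of_eventuallyEq e

/-- `h x = φ⁻¹ (σ (φ x))` for `x ∈ φ.source`, `h x = x` otherwise; the inverse is given in the same way by
`σ⁻¹`.  `σ` is a bijection of `Er n` with `σ = id` outside of `K`, hence `σ(K) = K` (if `z ∈ K`, `σ z ∉ K`
then `σ (σ z) = σ z`, so `σ z = z`) and `σ` maps `φ.target` into itself.  Smoothness: on the open set
`φ.source` composition of smooth maps, on the open complement of the compact set `φ⁻¹(K)` the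
identity. -/
theorem exists_dif {φ : OpenPartialHomeomorph M (Er n)} (hφ : φ ∈ atlas (Er n) M)
    {K : Set (Er n)} (hK : IsCompact K) (hKφ : K ⊆ φ.target) (σ : Er n ≃ Er n)
    (h1 : ContDiff ℝ ∞ σ) (h2 : ContDiff ℝ ∞ σ.symm) (h3 : ∀ z ∉ K, σ z = z) :
    ∃ h : Dif n M, (∀ x, x ∉ φ.symm '' K → h x = x) ∧
      ∀ z ∈ K, σ z ∈ K ∧ h (φ.symm z) = φ.symm (σ z) := by
  have k1 : ∀ z ∈ K, σ z ∈ K := by
    intro z hz
    by_contra hc
    have h4 : σ z = z := σ.injective (h3 _ hc)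
    exact hc (h4.symm ▸ hz)
  have h3' : ∀ z ∉ K, σ.symm z = z := by
    intro z hz
    rw [Equiv.symm_apply_eq, h3 z hz]
  have k2 : ∀ z ∈ K, σ.symm z ∈ K := by
    intro z hz
    by_contra hc
    have h4 : z = σ.symm z := by
      have h5 := h3 _ hc
      rwa [Equiv.apply_symm_apply] at h5
    exact hc (h4 ▸ hz)
  have m1 : ∀ z ∈ φ.target, σ z ∈ φ.target := by
    intro z hz
    by_cases hz' : z ∈ K
    · exact hKφ (k1 z hz')
    · rwa [h3 z hz']
  have m2 : ∀ z ∈ φ.target, σ.symm z ∈ φ.target := by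
    intro z hz
    by_cases hz' : z ∈ K
    · exact hKφ (k2 z hz')
    · rwa [h3' z hz']
  refine ⟨{ toFun := D2f_map φ σ
            invFun := D2f_map φ σ.symm
            left_inv := D2f_inv m1 (fun z => σ.symm_apply_apply z)
            right_inv := D2f_inv m2 (fun z => σ.apply_symm_apply z)
            contMDiff_toFun := D2f_smooth hφ hK hKφ m1 h1 h3
            contMDiff_invFun := D2f_smooth hφ hK hKφ m2 h2 h3' }, ?_, ?_⟩
  · intro x hx
    exact D2f_map_off h3 hx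
  · intro z hz
    refine ⟨k1 z hz, ?_⟩
    have hs : φ.symm z ∈ φ.source := φ.map_target (hKφ hz)
    have h4 : D2f_map φ σ (φ.symm z) = φ.symm (σ (φ (φ.symm z))) := D2f_map_in hs
    rw [φ.right_inv (hKφ hz)] at h4
    exact h4

end

end FB
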