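import Pool.Agent.H.MP_fb873c_an.D2e
import Pool.Agent.H.MP_fb873c_an.D2f
import Pool.Agent.H.MP_fb873c_an.DA

/-!
# Part D2: families of diffeomorphisms supported in a chart
-/

namespace FB

open scoped Topology ContDiff Manifold
open Filter

universe u

section

variable {n : ℕ} {M : Type u} [TopologicalSpace M] [ChartedSpace (Er n) M]
  [IsManifold (𝓡 n) ∞ M] [T2Space M]
variable {P : Type} [NormedAddCommGroup P] [NormedSpace ℝ P]

/-- For small `p` (`eventually_small`) take `σ z = z + w p z` (`exists_equiv`) and `h p` from `exists_dif`, for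
the other `p` the identity.  Joint smoothness at `(0, x)`: if `x ∈ φ.source` then
`h p y = φ⁻¹ (φ y + w p (φ y))` for `p` small and `y ∈ φ.source` (also for `φ y ∉ K`); if `x ∉ φ.source` then
`x` is not in the compact set `φ⁻¹(K)`, and `h p y = y` for `(p, y)` near `(0, x)`. -/
theorem exists_family {φ : OpenPartialHomeomorph M (Er n)} (hφ : φ ∈ atlas (Er n) M)
    {K : Set (Er n)} (hK : IsCompact K) (hKφ : K ⊆ φ.target) (w : P → Er n → Er n)
    (hw : ContDiff ℝ ∞ (fun q : P × Er n => w q.1 q.2)) (h0 : ∀ z, w 0 z = 0)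
    (hs : ∀ p, ∀ z ∉ K, w p z = 0) :
    ∃ h : P → Dif n M, (∀ x, SmF n (fun p => (h p : M → M)) x) ∧ (∀ x, h 0 x = x) ∧
      (∀ p, ∀ x, x ∉ φ.symm '' K → h p x = x) ∧
      ∀ᶠ p in 𝓝 (0 : P), ∀ z ∈ K, z + w p z ∈ K ∧ h p (φ.symm z) = φ.symm (z + w p z) := by
  classical
  have hAe : ∀ᶠ p in 𝓝 (0 : P), ∀ z, ‖fderiv ℝ (w p) z‖ ≤ 1 / 2 := eventually_small hK w hw h0 hs
  have hex : ∀ p : P, ∃ h : Dif n M, (∀ x, x ∉ φ.symm '' K → h x = x) ∧
      ((∀ z, ‖fderiv ℝ (w p) z‖ ≤ 1 / 2) →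
        ∀ z ∈ K, z + w p z ∈ K ∧ h (φ.symm z) = φ.symm (z + w p z)) := by
    intro p
    by_cases hp : ∀ z, ‖fderiv ℝ (w p) z‖ ≤ 1 / 2
    · have hwp : ContDiff ℝ ∞ (w p) :=
        hw.comp (contDiff_const.prodMk contDiff_id : ContDiff ℝ ∞ (fun z : Er n => (p, z)))
      obtain ⟨σ, h1, h2, h3⟩ := exists_equiv (w p) hwp hp
      obtain ⟨h, h4, h5⟩ := exists_dif hφ hK hKφ σ h1 h2 (fun z hz => by
        rw [h3, hs p z hz, add_zero])
      refine ⟨h, h4, fun _ z hz => ?_⟩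
      obtain ⟨h6, h7⟩ := h5 z hz
      rw [h3] at h6 h7
      exact ⟨h6, h7⟩
    · exact ⟨Diffeomorph.refl (𝓡 n) M ∞, fun x _ => rfl, fun h => absurd h hp⟩
  choose h h1 h2 using hex
  have h00 : ∀ z, ‖fderiv ℝ (w 0) z‖ ≤ 1 / 2 := hAe.self_of_nhds
  have hsrc : φ.symm '' K ⊆ φ.source := by
    rintro _ ⟨z, hz, rfl⟩
    exact φ.map_target (hKφ hz)
  refine ⟨h, fun x => ?_, fun x => ?_, h1, hAe.mono fun p hp => h2 p hp⟩
  · by_cases hx : x ∈ φ.source
    · have hev : (fun q : P × M => h q.1 q.2) =ᶠ[𝓝 (0, x)]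
          fun q => φ.symm (φ q.2 + w q.1 (φ q.2)) := by
        have e1 : ∀ᶠ q : P × M in 𝓝 (0, x), ∀ z, ‖fderiv ℝ (w q.1) z‖ ≤ 1 / 2 :=
          (continuous_fst.tendsto ((0 : P), x)).eventually hAe
        have e2 : ∀ᶠ q : P × M in 𝓝 (0, x), q.2 ∈ φ.source :=
          (continuous_snd.tendsto ((0 : P), x)).eventually (φ.open_source.mem_nhds hx)
        filter_upwards [e1, e2] with q hq1 hq2
        by_cases hz : φ q.2 ∈ K
        · have h3 := (h2 q.1 hq1 (φ q.2) hz).2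
          rwa [φ.left_inv hq2] at h3
        · rw [hs _ _ hz, add_zero, φ.left_inv hq2]
          apply h1
          rintro ⟨z, hz', h4⟩
          apply hz
          rw [← h4, φ.right_inv (hKφ hz')]
          exact hz'
      have hmax : φ ∈ IsManifold.maximalAtlas (𝓡 n) ∞ M := IsManifold.subset_maximalAtlas hφ
      have s1 : ContMDiffAt (𝓘(ℝ, P).prod (𝓡 n)) (𝓡 n) ∞ (fun q : P × M => φ q.2) (0, x) :=
        ContMDiffAt.comp (g := fun y : M => φ y) (f := fun q : P × M => q.2) ((0 : P), x)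
          (contMDiffAt_of_mem_maximalAtlas hmax hx) contMDiffAt_snd
      have s2 : ContMDiffAt (𝓘(ℝ, P).prod (𝓡 n)) 𝓘(ℝ, P) ∞ (fun q : P × M => q.1) (0, x) :=
        contMDiffAt_fst
      have s3 : ContMDiffAt (𝓘(ℝ, P).prod (𝓡 n)) (𝓡 n) ∞
          (fun q : P × M => w q.1 (φ q.2)) (0, x) :=
        ContMDiffAt.comp (g := fun q : P × Er n => w q.1 q.2) (f := fun q : P × M => (q.1, φ q.2))
          ((0 : P), x) hw.contMDiff.contMDiffAt (s2.prodMk_space s1)
      have s4 := s1.add s3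
      have hpt : φ x + w 0 (φ x) = φ x := by rw [h0, add_zero]
      have s5 : ContMDiffAt (𝓡 n) (𝓡 n) ∞ φ.symm (φ x + w 0 (φ x)) := by
        rw [hpt]
        exact contMDiffAt_symm_of_mem_maximalAtlas hmax (φ.map_source hx)
      have s6 : ContMDiffAt (𝓘(ℝ, P).prod (𝓡 n)) (𝓡 n) ∞
          (fun q : P × M => φ.symm (φ q.2 + w q.1 (φ q.2))) (0, x) :=
        ContMDiffAt.comp (g := fun z : Er n => φ.symm z)
          (f := fun q : P × M => φ q.2 + w q.1 (φ q.2)) ((0 : P), x) s5 s4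
      exact s6.congr_of_eventuallyEq hev
    · have hcl : IsClosed (φ.symm '' K) :=
        (hK.image_of_continuousOn (φ.continuousOn_symm.mono hKφ)).isClosed
      have hev : (fun q : P × M => h q.1 q.2) =ᶠ[𝓝 (0, x)] fun q => q.2 := by
        have e2 : ∀ᶠ q : P × M in 𝓝 (0, x), q.2 ∈ (φ.symm '' K)ᶜ :=
          (continuous_snd.tendsto ((0 : P), x)).eventually
            (hcl.isOpen_compl.mem_nhds fun h => hx (hsrc h))
        filter_upwards [e2] with q hq
        exact h1 _ _ hq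
      have s6 : ContMDiffAt (𝓘(ℝ, P).prod (𝓡 n)) (𝓡 n) ∞ (fun q : P × M => q.2) (0, x) :=
        contMDiffAt_snd
      exact s6.congr_of_eventuallyEq hev
  · by_cases hx : x ∈ φ.symm '' K
    · obtain ⟨z, hz, rfl⟩ := hx
      rw [(h2 0 h00 z hz).2, h0, add_zero]
    · exact h1 0 x hx

end

end FB
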