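import Pool.Agent.H.MP_fb873c_an.DA

/-!
# Part D2: jointly smooth families of maps `M → M`
-/

namespace FB

open scoped Topology ContDiff Manifold
open Filter

universe u

section

variable {n : ℕ} {M : Type u} [TopologicalSpace M] [ChartedSpace (Er n) M]
  [IsManifold (𝓡 n) ∞ M]
variable {P : Type} [NormedAddCommGroup P] [NormedSpace ℝ P]

theorem SmF.continuousAt {F : P → M → M} {x : M} (h : SmF n F x) :
    ContinuousAt (fun q : P × M => F q.1 q.2) (0, x) := ContMDiffAt.continuousAt h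

/-- A constant family. -/
theorem smF_const (g : Dif n M) (x : M) : SmF n (fun _ : P => (g : M → M)) x := by
  have h1 : ContMDiffAt (𝓡 n) (𝓡 n) ∞ (g : M → M) x := g.contMDiff.contMDiffAt
  have h2 : ContMDiffAt (𝓘(ℝ, P).prod (𝓡 n)) (𝓡 n) ∞ (Prod.snd : P × M → M) ((0 : P), x) :=
    contMDiffAt_snd
  exact ContMDiffAt.comp (g := (g : M → M)) ((0 : P), x) h1 h2

theorem smF_comp {F G : P → M → M} {x : M} (hF : SmF n F x) (hG : SmF n G (F 0 x)) :
    SmF n (fun p y => G p (F p y)) x := by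
  have h1 : ContMDiffAt (𝓘(ℝ, P).prod (𝓡 n)) 𝓘(ℝ, P) ∞ (Prod.fst : P × M → P) ((0 : P), x) :=
    contMDiffAt_fst
  have h2 : ContMDiffAt (𝓘(ℝ, P).prod (𝓡 n)) (𝓘(ℝ, P).prod (𝓡 n)) ∞
      (fun q : P × M => (q.1, F q.1 q.2)) ((0 : P), x) := h1.prodMk hF
  exact ContMDiffAt.comp (g := fun q : P × M => G q.1 q.2)
    (f := fun q : P × M => (q.1, F q.1 q.2)) ((0 : P), x) hG h2

/-- Induction on `i`, with `smF_comp` (`Function.iterate_succ_apply'`). -/
theorem smF_iterate {F : P → M → M} (hF : ∀ x, SmF n F x) (i : ℕ) (x : M) :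
    SmF n (fun p => (F p)^[i]) x := by
  induction i with
  | zero => exact contMDiffAt_snd
  | succ i ih =>
    have h1 := smF_comp ih (hF ((F 0)^[i] x))
    have h2 : (fun p => (F p)^[i + 1]) = fun p y => F p ((F p)^[i] y) := by
      funext p y
      exact Function.iterate_succ_apply' (F p) i y
    rw [h2]
    exact h1

/-- The local expression of a jointly smooth family is smooth: compose with the smooth map
`(p, z) ↦ (p, φ.symm z)` (`ContMDiffAt.prodMk`, with the model `𝓘(ℝ, P × Er n)` on the source) and with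
`ψ`, then `contMDiffAt_iff_contDiffAt`. -/
theorem smF_chart {F : P → M → M} {x : M} (hF : SmF n F x)
    {φ ψ : OpenPartialHomeomorph M (Er n)} (hφ : φ ∈ atlas (Er n) M) (hψ : ψ ∈ atlas (Er n) M)
    (hx : x ∈ φ.source) (hFx : F 0 x ∈ ψ.source) :
    ContDiffAt ℝ ∞ (fun q : P × Er n => ψ (F q.1 (φ.symm q.2))) (0, φ x) := by
  have hφ' : φ ∈ IsManifold.maximalAtlas (𝓡 n) ∞ M := IsManifold.subset_maximalAtlas hφ
  have hψ' : ψ ∈ IsManifold.maximalAtlas (𝓡 n) ∞ M := IsManifold.subset_maximalAtlas hψ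
  have h1 : ContMDiffAt (𝓡 n) (𝓡 n) ∞ φ.symm (φ x) :=
    (contMDiffOn_symm_of_mem_maximalAtlas hφ').contMDiffAt
      (φ.open_target.mem_nhds (φ.map_source hx))
  have h2 : ContMDiffAt 𝓘(ℝ, P × Er n) (𝓡 n) ∞ (Prod.snd : P × Er n → Er n) ((0 : P), φ x) :=
    contMDiffAt_iff_contDiffAt.2 contDiffAt_snd
  have h3 : ContMDiffAt 𝓘(ℝ, P × Er n) 𝓘(ℝ, P) ∞ (Prod.fst : P × Er n → P) ((0 : P), φ x) :=
    contMDiffAt_iff_contDiffAt.2 contDiffAt_fst
  have h4 : ContMDiffAt 𝓘(ℝ, P × Er n) (𝓡 n) ∞ (fun q : P × Er n => φ.symm q.2)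
      ((0 : P), φ x) :=
    ContMDiffAt.comp (g := φ.symm) (f := (Prod.snd : P × Er n → Er n)) ((0 : P), φ x) h1 h2
  have h5 : ContMDiffAt 𝓘(ℝ, P × Er n) (𝓘(ℝ, P).prod (𝓡 n)) ∞
      (fun q : P × Er n => (q.1, φ.symm q.2)) ((0 : P), φ x) := h3.prodMk h4
  have h6 : ContMDiffAt (𝓘(ℝ, P).prod (𝓡 n)) (𝓡 n) ∞ (fun q : P × M => F q.1 q.2)
      ((0 : P), φ.symm (φ x)) := by
    rw [φ.left_inv hx]
    exact hF
  have h7 : ContMDiffAt 𝓘(ℝ, P × Er n) (𝓡 n) ∞ (fun q : P × Er n => F q.1 (φ.symm q.2))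
      ((0 : P), φ x) :=
    ContMDiffAt.comp (g := fun q : P × M => F q.1 q.2)
      (f := fun q : P × Er n => (q.1, φ.symm q.2)) ((0 : P), φ x) h6 h5
  have h8 : ContMDiffAt (𝓡 n) (𝓡 n) ∞ ψ (F 0 (φ.symm (φ x))) := by
    rw [φ.left_inv hx]
    exact contMDiffAt_of_mem_maximalAtlas hψ' hFx
  exact contMDiffAt_iff_contDiffAt.1
    (ContMDiffAt.comp (g := ψ) (f := fun q : P × Er n => F q.1 (φ.symm q.2)) ((0 : P), φ x) h8 h7)

/-- Iterates of a diffeomorphism are smooth. -/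
theorem contMDiff_iterate (g : Dif n M) (i : ℕ) : ContMDiff (𝓡 n) (𝓡 n) ∞ ((g : M → M)^[i]) := by
  induction i with
  | zero => exact contMDiff_id
  | succ i ih =>
    rw [Function.iterate_succ']
    exact g.contMDiff.comp ih

end

end FB
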