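import Pool.Agent.H.MP_fb873c_an.DA
import Pool.Agent.H.MP_fb873c_an.DF1

/-!
# Part D: independence of charts
-/

namespace FB

open scoped Topology ContDiff Manifold

universe u

section

variable {n : ℕ} {M : Type u} [TopologicalSpace M] [ChartedSpace (Er n) M]
  [IsManifold (𝓡 n) ∞ M]

omit [IsManifold (𝓡 n) ∞ M] in
theorem DC_diff {F : M → M} {x : M} (hF : ContMDiffAt (𝓡 n) (𝓡 n) 1 F x) (hx : F x = x) :
    DifferentiableAt ℝ (chartAt (Er n) x ∘ F ∘ (chartAt (Er n) x).symm) (chartAt (Er n) x x) := by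
  have h := (hF.mdifferentiableAt (by norm_num)).differentiableWithinAt_writtenInExtChartAt
  rw [← differentiableWithinAt_univ]
  simpa [writtenInExtChartAt, hx, extChartAt] using h

/-- the transition maps are differentiable -/
theorem DC_trans {x : M} {φ ψ : OpenPartialHomeomorph M (Er n)} (hφ : φ ∈ atlas (Er n) M)
    (hψ : ψ ∈ atlas (Er n) M) (hxφ : x ∈ φ.source) (hxψ : x ∈ ψ.source) :
    DifferentiableAt ℝ (φ ∘ ψ.symm) (ψ x) := by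
  have h1 : ContMDiffAt (𝓡 n) (𝓡 n) ∞ φ (ψ.symm (ψ x)) := by
    rw [ψ.left_inv hxψ]
    exact contMDiffAt_of_mem_maximalAtlas (IsManifold.subset_maximalAtlas hφ) hxφ
  have h2 : ContMDiffAt (𝓡 n) (𝓡 n) ∞ ψ.symm (ψ x) :=
    contMDiffAt_symm_of_mem_maximalAtlas (IsManifold.subset_maximalAtlas hψ) (ψ.map_source hxψ)
  have h3 : ContMDiffAt (𝓡 n) (𝓡 n) ∞ (φ ∘ ψ.symm) (ψ x) := h1.comp (ψ x) h2
  have h4 : ContDiffAt ℝ ∞ (φ ∘ ψ.symm) (ψ x) := contMDiffAt_iff_contDiffAt.1 h3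
  exact h4.differentiableAt (by simp)

omit [ChartedSpace (Er n) M] [IsManifold (𝓡 n) ∞ M] in
theorem DC_inv {x : M} {φ ψ : OpenPartialHomeomorph M (Er n)} (hxφ : x ∈ φ.source)
    (hxψ : x ∈ ψ.source) :
    (φ ∘ ψ.symm) ∘ (ψ ∘ φ.symm) =ᶠ[𝓝 (φ x)] id := by
  have h1 : φ.target ∈ 𝓝 (φ x) := φ.open_target.mem_nhds (φ.map_source hxφ)
  have h2 : ∀ᶠ z in 𝓝 (φ x), φ.symm z ∈ ψ.source := by
    refine (φ.symm.continuousAt (φ.map_source hxφ)).eventually ?_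
    show ψ.source ∈ 𝓝 (φ.symm (φ x))
    rw [φ.left_inv hxφ]
    exact ψ.open_source.mem_nhds hxψ
  filter_upwards [h1, h2] with z hz1 hz2
  show φ (ψ.symm (ψ (φ.symm z))) = z
  rw [ψ.left_inv hz2, φ.right_inv hz1]

theorem DC_inv' {x : M} {φ ψ : OpenPartialHomeomorph M (Er n)} (hφ : φ ∈ atlas (Er n) M)
    (hψ : ψ ∈ atlas (Er n) M) (hxφ : x ∈ φ.source) (hxψ : x ∈ ψ.source) :
    (fderiv ℝ (φ ∘ ψ.symm) (ψ x)) ∘L (fderiv ℝ (ψ ∘ φ.symm) (φ x)) =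
      ContinuousLinearMap.id ℝ (Er n) := by
  have h1 := DC_trans hφ hψ hxφ hxψ
  have h2 := DC_trans hψ hφ hxψ hxφ
  have hx : (ψ ∘ φ.symm) (φ x) = ψ x := by
    show ψ (φ.symm (φ x)) = ψ x
    rw [φ.left_inv hxφ]
  have h3 : fderiv ℝ ((φ ∘ ψ.symm) ∘ (ψ ∘ φ.symm)) (φ x) =
      (fderiv ℝ (φ ∘ ψ.symm) (ψ x)) ∘L (fderiv ℝ (ψ ∘ φ.symm) (φ x)) := by
    rw [fderiv_comp (φ x) (by rw [hx]; exact h1) h2, hx]
  rw [← h3, (DC_inv (n := n) hxφ hxψ).fderiv_eq, fderiv_id]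

omit [ChartedSpace (Er n) M] [IsManifold (𝓡 n) ∞ M] in
theorem DC_conj {F : M → M} {x : M} (hF : ContinuousAt F x) (hx : F x = x)
    {φ ψ : OpenPartialHomeomorph M (Er n)} (hxφ : x ∈ φ.source) (hxψ : x ∈ ψ.source) :
    φ ∘ F ∘ φ.symm =ᶠ[𝓝 (φ x)] (φ ∘ ψ.symm) ∘ (ψ ∘ F ∘ ψ.symm) ∘ (ψ ∘ φ.symm) := by
  have hc : ContinuousAt φ.symm (φ x) := φ.symm.continuousAt (φ.map_source hxφ)
  have h2 : ∀ᶠ z in 𝓝 (φ x), φ.symm z ∈ ψ.source := by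
    refine hc.eventually ?_
    show ψ.source ∈ 𝓝 (φ.symm (φ x))
    rw [φ.left_inv hxφ]
    exact ψ.open_source.mem_nhds hxψ
  have h3 : ∀ᶠ z in 𝓝 (φ x), F (φ.symm z) ∈ ψ.source := by
    have h4 : ContinuousAt (F ∘ φ.symm) (φ x) := by
      refine ContinuousAt.comp ?_ hc
      rw [φ.left_inv hxφ]
      exact hF
    refine h4.eventually ?_
    show ψ.source ∈ 𝓝 (F (φ.symm (φ x)))
    rw [φ.left_inv hxφ, hx]
    exact ψ.open_source.mem_nhds hxψ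
  filter_upwards [h2, h3] with z hz2 hz3
  show φ (F (φ.symm z)) = φ (ψ.symm (ψ (F (ψ.symm (ψ (φ.symm z))))))
  rw [ψ.left_inv hz2, ψ.left_inv hz3]

/-- `φ F φ⁻¹ = (φ ψ⁻¹) (ψ F ψ⁻¹) (φ ψ⁻¹)⁻¹` near `φ x`, where `ψ = chartAt x`; chain rule at the fixed
point.  `T` is the derivative of `φ ψ⁻¹` at `ψ x`, its inverse the derivative of `ψ φ⁻¹` at `φ x`.
(The transition maps are smooth on open sets: `contDiffGroupoid`, `contDiffOn_of_mem_contDiffGroupoid`, or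
write the composition with `ContMDiffAt.comp`, `contMDiffAt_of_mem_maximalAtlas`, and
`contMDiffAt_iff_contDiffAt`.) -/
theorem dfix_chart {F : M → M} {x : M} (hF : ContMDiffAt (𝓡 n) (𝓡 n) 1 F x) (hx : F x = x)
    {φ : OpenPartialHomeomorph M (Er n)} (hφ : φ ∈ atlas (Er n) M) (hxφ : x ∈ φ.source) :
    ∃ T : Er n ≃L[ℝ] Er n, fderiv ℝ (φ ∘ F ∘ φ.symm) (φ x) =
      (T : Er n →L[ℝ] Er n) ∘L dfix F x ∘L (T.symm : Er n →L[ℝ] Er n) := by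
  obtain ⟨ψ, hψ⟩ : ∃ ψ : OpenPartialHomeomorph M (Er n), ψ = chartAt (Er n) x := ⟨_, rfl⟩
  have hψa : ψ ∈ atlas (Er n) M := by
    rw [hψ]
    exact chart_mem_atlas _ x
  have hxψ : x ∈ ψ.source := by
    rw [hψ]
    exact mem_chart_source _ x
  have hG : DifferentiableAt ℝ (ψ ∘ F ∘ ψ.symm) (ψ x) := by
    rw [hψ]
    exact DC_diff hF hx
  have hτ := DC_trans hφ hψa hxφ hxψ
  have hσ := DC_trans hψa hφ hxψ hxφ
  have h1 := DC_inv' hφ hψa hxφ hxψ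
  have h2 := DC_inv' hψa hφ hxψ hxφ
  refine ⟨ContinuousLinearEquiv.equivOfInverse (fderiv ℝ (φ ∘ ψ.symm) (ψ x))
    (fderiv ℝ (ψ ∘ φ.symm) (φ x)) (fun v => ?_) (fun v => ?_), ?_⟩
  · exact congrArg (fun L : Er n →L[ℝ] Er n => L v) h2
  · exact congrArg (fun L : Er n →L[ℝ] Er n => L v) h1
  · have hx1 : (ψ ∘ φ.symm) (φ x) = ψ x := by
      show ψ (φ.symm (φ x)) = ψ x
      rw [φ.left_inv hxφ]
    have hx2 : (ψ ∘ F ∘ ψ.symm) (ψ x) = ψ x := by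
      show ψ (F (ψ.symm (ψ x))) = ψ x
      rw [ψ.left_inv hxψ, hx]
    have hx3 : ((ψ ∘ F ∘ ψ.symm) ∘ (ψ ∘ φ.symm)) (φ x) = ψ x := by
      show (ψ ∘ F ∘ ψ.symm) ((ψ ∘ φ.symm) (φ x)) = ψ x
      rw [hx1, hx2]
    have h3 : fderiv ℝ ((ψ ∘ F ∘ ψ.symm) ∘ (ψ ∘ φ.symm)) (φ x) =
        (fderiv ℝ (ψ ∘ F ∘ ψ.symm) (ψ x)) ∘L (fderiv ℝ (ψ ∘ φ.symm) (φ x)) := by
      rw [fderiv_comp (φ x) (by rw [hx1]; exact hG) hσ, hx1]
    have h4 : DifferentiableAt ℝ ((ψ ∘ F ∘ ψ.symm) ∘ (ψ ∘ φ.symm)) (φ x) :=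
      DifferentiableAt.comp (φ x) (by rw [hx1]; exact hG) hσ
    have h5 : dfix F x = fderiv ℝ (ψ ∘ F ∘ ψ.symm) (ψ x) := by
      rw [hψ]
      rfl
    rw [(DC_conj hF.continuousAt hx hxφ hxψ).fderiv_eq,
      fderiv_comp (φ x) (by rw [hx3]; exact hτ) h4, hx3, h3, h5]
    rfl

/-- From `dfix_chart`: the determinant is invariant under conjugation
(`LinearMap.det_conj`). -/
theorem ndg_chart {F : M → M} {x : M} (hF : ContMDiffAt (𝓡 n) (𝓡 n) 1 F x) (hx : F x = x)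
    {φ : OpenPartialHomeomorph M (Er n)} (hφ : φ ∈ atlas (Er n) M) (hxφ : x ∈ φ.source) :
    Ndg (n := n) F x ↔ LinearMap.det ((fderiv ℝ (φ ∘ F ∘ φ.symm) (φ x)
      - ContinuousLinearMap.id ℝ (Er n) : Er n →L[ℝ] Er n)).toLinearMap ≠ 0 := by
  obtain ⟨T, hT⟩ := dfix_chart hF hx hφ hxφ
  unfold Ndg
  have h1 : ((fderiv ℝ (φ ∘ F ∘ φ.symm) (φ x)
      - ContinuousLinearMap.id ℝ (Er n) : Er n →L[ℝ] Er n)).toLinearMap =
      (T.toLinearEquiv : Er n →ₗ[ℝ] Er n) ∘ₗ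
        ((dfix F x - ContinuousLinearMap.id ℝ (Er n) : Er n →L[ℝ] Er n)).toLinearMap ∘ₗ
        (T.toLinearEquiv.symm : Er n →ₗ[ℝ] Er n) := by
    rw [hT]
    ext1 v
    show T (dfix F x (T.symm v)) - v = T (dfix F x (T.symm v) - T.symm v)
    rw [map_sub, T.apply_symm_apply]
  rw [h1, LinearMap.det_conj]

/-- From `dfix_chart` and `Fac_conj`. -/
theorem fac_chart {F : M → M} {x : M} (hF : ContMDiffAt (𝓡 n) (𝓡 n) 1 F x) (hx : F x = x)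
    {φ : OpenPartialHomeomorph M (Er n)} (hφ : φ ∈ atlas (Er n) M) (hxφ : x ∈ φ.source) :
    Fac (dfix (n := n) F x).toLinearMap =
      Fac (fderiv ℝ (φ ∘ F ∘ φ.symm) (φ x)).toLinearMap := by
  obtain ⟨T, hT⟩ := dfix_chart hF hx hφ hxφ
  have h1 : (fderiv ℝ (φ ∘ F ∘ φ.symm) (φ x)).toLinearMap =
      T.toLinearEquiv.conj (dfix (n := n) F x).toLinearMap := by
    rw [hT]
    ext1 v
    rfl
  rw [h1, Fac_conj]

end

end FB
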