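import Pool.Agent.H.MP_fb873c_an.D2a
import Pool.Agent.H.MP_fb873c_an.D2b
import Pool.Agent.H.MP_fb873c_an.DC

/-!
# Part D2: nondegeneracy persists in smooth families
-/

namespace FB

open scoped Topology ContDiff Manifold
open Filter

universe u

section

variable {n : ℕ} {M : Type u} [TopologicalSpace M] [ChartedSpace (Er n) M]
  [IsManifold (𝓡 n) ∞ M] [T2Space M]
variable {P : Type} [NormedAddCommGroup P] [NormedSpace ℝ P]

/-- Near a nondegenerate fixed point `x` of `F 0`, and `p` near `0`, all fixed points of `F p` are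
nondegenerate: in the chart `φ = chartAt x`, by `ndg_chart`, this is `det (D(φ F_p φ⁻¹) - 1) ≠ 0`, which is
true at `(0, φ x)` and depends continuously on `(p, z)` at this point (`smF_chart`,
`slice_fderiv_continuousAt`, `ContinuousLinearMap.continuous_det`). -/
theorem ndg_near {F : P → M → M} (hF : ∀ p, ContMDiff (𝓡 n) (𝓡 n) ∞ (F p)) {x : M}
    (hx : SmF n F x) (h1 : F 0 x = x) (h2 : Ndg (n := n) (F 0) x) :
    ∀ᶠ q : P × M in 𝓝 (0, x), F q.1 q.2 = q.2 → Ndg (n := n) (F q.1) q.2 := by
  have hφ : chartAt (Er n) x ∈ atlas (Er n) M := chart_mem_atlas _ _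
  have hx0 : x ∈ (chartAt (Er n) x).source := mem_chart_source _ _
  have h3 := smF_chart hx hφ hφ hx0 (by rw [h1]; exact hx0)
  have h4 := slice_fderiv_continuousAt h3
  have h5 : ContinuousAt (fun q : P × Er n => ContinuousLinearMap.det
      (fderiv ℝ (fun y => chartAt (Er n) x (F q.1 ((chartAt (Er n) x).symm y))) q.2 -
        ContinuousLinearMap.id ℝ (Er n))) (0, chartAt (Er n) x x) :=
    ContinuousLinearMap.continuous_det.continuousAt.comp (h4.sub continuousAt_const)
  have h6 : ∀ᶠ q : P × Er n in 𝓝 (0, chartAt (Er n) x x), ContinuousLinearMap.det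
      (fderiv ℝ (fun y => chartAt (Er n) x (F q.1 ((chartAt (Er n) x).symm y))) q.2 -
        ContinuousLinearMap.id ℝ (Er n)) ≠ 0 := h5.eventually_ne h2
  have h7 : Tendsto (fun q : P × M => (q.1, chartAt (Er n) x q.2)) (𝓝 (0, x))
      (𝓝 (0, chartAt (Er n) x x)) := by
    have h8 : ContinuousAt (fun q : P × M => chartAt (Er n) x q.2) (0, x) :=
      ContinuousAt.comp (f := fun q : P × M => q.2) (x := (0, x))
        ((chartAt (Er n) x).continuousAt hx0) continuousAt_snd
    exact (continuousAt_fst (p := ((0 : P), x))).prodMk h8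
  have h9 : ∀ᶠ q : P × M in 𝓝 (0, x), q.2 ∈ (chartAt (Er n) x).source :=
    (continuousAt_snd (p := ((0 : P), x))).eventually
      ((chartAt (Er n) x).open_source.mem_nhds hx0)
  filter_upwards [h7.eventually h6, h9] with q hq hqs hfix
  have hC : ContMDiffAt (𝓡 n) (𝓡 n) 1 (F q.1) q.2 := (hF q.1 q.2).of_le (mod_cast le_top)
  exact (ndg_chart hC hfix hφ hqs).2 hq

/-- Nondegeneracy on a compact set persists: `IsCompact.eventually_forall_of_forall_eventually`; near
`(0, x)` with `F 0 x ≠ x` there are no fixed points (continuity, `T2`), near the others use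
`ndg_near`. -/
theorem ndg_persists {F : P → M → M} (hF : ∀ p, ContMDiff (𝓡 n) (𝓡 n) ∞ (F p)) {L : Set M}
    (hL : IsCompact L) (hS : ∀ x, SmF n F x) (h : ∀ x ∈ L, F 0 x = x → Ndg (n := n) (F 0) x) :
    ∀ᶠ p in 𝓝 (0 : P), ∀ x ∈ L, F p x = x → Ndg (n := n) (F p) x := by
  refine hL.eventually_forall_of_forall_eventually
    (P := fun (p : P) (x : M) => F p x = x → Ndg (n := n) (F p) x) fun y hy => ?_
  by_cases h1 : F 0 y = y
  · exact ndg_near hF (hS y) h1 (h y hy h1)
  · have h2 : ∀ᶠ q : P × M in 𝓝 (0, y), F q.1 q.2 ≠ q.2 :=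
      ((hS y).continuousAt.prodMk (continuousAt_snd (p := ((0 : P), y)))).eventually
        (isClosed_diagonal.isOpen_compl.mem_nhds h1)
    filter_upwards [h2] with q hq hfix
    exact absurd hfix hq

end

end FB
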