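import Pool.Agent.H.MP_fb873c_an.D2h1
import Pool.Agent.H.MP_fb873c_an.D2h2

/-!
# Part D2: nondegenerate fixed points in smooth families
-/

set_option linter.unusedSectionVars false

namespace FB

open scoped Topology ContDiff Manifold
open Filter

universe u

section

variable {n : ℕ} {M : Type u} [TopologicalSpace M] [ChartedSpace (Er n) M]
  [IsManifold (𝓡 n) ∞ M] [T2Space M]
variable {P : Type} [NormedAddCommGroup P] [NormedSpace ℝ P]

/-- the local expression of the family in the preferred chart -/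
noncomputable def D2h_G (F : P → M → M) (x : M) (q : P × Er n) : Er n :=
  chartAt (Er n) x (F q.1 ((chartAt (Er n) x).symm q.2))

theorem D2h_smooth {F : P → M → M} {x : M} (hx : SmF n F x) (h1 : F 0 x = x) :
    ContDiffAt ℝ ∞ (D2h_G (n := n) F x) (0, chartAt (Er n) x x) :=
  smF_chart hx (chart_mem_atlas (Er n) x) (chart_mem_atlas (Er n) x) (mem_chart_source (Er n) x)
    (by rw [h1]; exact mem_chart_source (Er n) x)

theorem D2h_val {F : P → M → M} {x : M} (h1 : F 0 x = x) :
    D2h_G (n := n) F x (0, chartAt (Er n) x x) = chartAt (Er n) x x := by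
  show chartAt (Er n) x (F 0 ((chartAt (Er n) x).symm (chartAt (Er n) x x))) = _
  rw [(chartAt (Er n) x).left_inv (mem_chart_source (Er n) x), h1]

theorem D2h_det {F : P → M → M} {x : M} (h2 : Ndg (n := n) (F 0) x) :
    LinearMap.det ((fderiv ℝ (fun z => D2h_G (n := n) F x (0, z)) (chartAt (Er n) x x)
      - ContinuousLinearMap.id ℝ (Er n) : Er n →L[ℝ] Er n)).toLinearMap ≠ 0 := h2

theorem D2h_symm_cont (x : M) :
    ContinuousAt (fun q : P × Er n => (q.1, (chartAt (Er n) x).symm q.2))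
      (0, chartAt (Er n) x x) := by
  refine ContinuousAt.prodMk continuousAt_fst ?_
  exact ContinuousAt.comp (g := (chartAt (Er n) x).symm) (f := fun q : P × Er n => q.2)
    ((chartAt (Er n) x).continuousAt_symm
      ((chartAt (Er n) x).map_source (mem_chart_source (Er n) x))) continuousAt_snd

/-- A nondegenerate fixed point persists: `local_structure` for the local expression in the chart at
`x` (with `N` the preimage of the neighbourhood in `ndg_near`), and `ndg_near`. -/
theorem fix_persists [CompleteSpace P] {F : P → M → M}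
    (hF : ∀ p, ContMDiff (𝓡 n) (𝓡 n) ∞ (F p)) {x : M}
    (hx : SmF n F x) (h1 : F 0 x = x) (h2 : Ndg (n := n) (F 0) x) :
    ∀ᶠ p in 𝓝 (0 : P), ∃ y, F p y = y ∧ Ndg (n := n) (F p) y := by
  obtain ⟨φ, hφ⟩ : ∃ φ : OpenPartialHomeomorph M (Er n), φ = chartAt (Er n) x := ⟨_, rfl⟩
  have hls := (local_structure (D2h_smooth hx h1) (D2h_val h1) (D2h_det h2)).1
  have hc := D2h_symm_cont (n := n) (P := P) x
  have hv : ((0 : P), (chartAt (Er n) x).symm (chartAt (Er n) x x)) = (0, x) := by
    rw [(chartAt (Er n) x).left_inv (mem_chart_source (Er n) x)]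
  have hc' : Tendsto (fun q : P × Er n => (q.1, (chartAt (Er n) x).symm q.2))
      (𝓝 ((0 : P), chartAt (Er n) x x)) (𝓝 ((0 : P), x)) := by
    have h3 := hc.tendsto
    rwa [hv] at h3
  have e1 : ∀ᶠ q : P × Er n in 𝓝 ((0 : P), chartAt (Er n) x x),
      F q.1 ((chartAt (Er n) x).symm q.2) = (chartAt (Er n) x).symm q.2 →
        Ndg (n := n) (F q.1) ((chartAt (Er n) x).symm q.2) :=
    hc'.eventually (ndg_near hF hx h1 h2)
  have e2 : ∀ᶠ q : P × M in 𝓝 ((0 : P), x), F q.1 q.2 ∈ (chartAt (Er n) x).source := by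
    have h3 := hx.continuousAt
    have h4 : (chartAt (Er n) x).source ∈ 𝓝 (F ((0 : P), x).1 ((0 : P), x).2) := by
      show (chartAt (Er n) x).source ∈ 𝓝 (F 0 x)
      rw [h1]
      exact (chartAt (Er n) x).open_source.mem_nhds (mem_chart_source (Er n) x)
    exact h3 h4
  have e3 : ∀ᶠ q : P × Er n in 𝓝 ((0 : P), chartAt (Er n) x x),
      F q.1 ((chartAt (Er n) x).symm q.2) ∈ (chartAt (Er n) x).source :=
    hc'.eventually e2
  refine (hls _ (e1.and e3)).mono ?_
  rintro p ⟨z, ⟨hz1, hz2⟩, hz3⟩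
  have hz3 : chartAt (Er n) x (F p ((chartAt (Er n) x).symm z)) = z := hz3
  have hfix : F p ((chartAt (Er n) x).symm z) = (chartAt (Er n) x).symm z := by
    have h5 := (chartAt (Er n) x).left_inv hz2
    rw [← h5]
    show (chartAt (Er n) x).symm (chartAt (Er n) x (F p ((chartAt (Er n) x).symm z))) = _
    rw [hz3]
  exact ⟨(chartAt (Er n) x).symm z, hfix, hz1 hfix⟩

/-- Uniqueness: if `x` is a nondegenerate fixed point of `F 0` and a fixed point of all `F p`, `p` near `0`,
then it is the only one near `x`.  `local_structure`, second part. -/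
theorem fix_unique [CompleteSpace P] {F : P → M → M} {x : M} (hx : SmF n F x)
    (h1 : ∀ᶠ p in 𝓝 (0 : P), F p x = x) (h2 : Ndg (n := n) (F 0) x) :
    ∀ᶠ q : P × M in 𝓝 (0, x), F q.1 q.2 = q.2 → q.2 = x := by
  have h0 : F 0 x = x := h1.self_of_nhds
  obtain ⟨N, hN, huniq⟩ := (local_structure (D2h_smooth hx h0) (D2h_val h0) (D2h_det h2)).2
  have hsrc : (chartAt (Er n) x).source ∈ 𝓝 x :=
    (chartAt (Er n) x).open_source.mem_nhds (mem_chart_source (Er n) x)
  have e1 : ∀ᶠ q : P × M in 𝓝 ((0 : P), x), F q.1 x = x :=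
    (continuousAt_fst (p := ((0 : P), x))).eventually h1
  have e2 : ∀ᶠ q : P × M in 𝓝 ((0 : P), x), q.2 ∈ (chartAt (Er n) x).source :=
    (continuousAt_snd (p := ((0 : P), x))).eventually hsrc
  have c1 : ContinuousAt (fun q : P × M => (q.1, chartAt (Er n) x q.2)) ((0 : P), x) := by
    refine ContinuousAt.prodMk continuousAt_fst ?_
    exact ContinuousAt.comp (g := chartAt (Er n) x) (f := fun q : P × M => q.2)
      ((chartAt (Er n) x).continuousAt (mem_chart_source (Er n) x)) continuousAt_snd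
  have c2 : ContinuousAt (fun q : P × M => (q.1, chartAt (Er n) x x)) ((0 : P), x) :=
    ContinuousAt.prodMk continuousAt_fst continuousAt_const
  have e3 : ∀ᶠ q : P × M in 𝓝 ((0 : P), x), (q.1, chartAt (Er n) x q.2) ∈ N :=
    c1.eventually hN
  have e4 : ∀ᶠ q : P × M in 𝓝 ((0 : P), x), (q.1, chartAt (Er n) x x) ∈ N :=
    c2.eventually hN
  filter_upwards [e1, e2, e3, e4] with q hq1 hq2 hq3 hq4 hq
  have h5 : D2h_G (n := n) F x (q.1, chartAt (Er n) x q.2) = chartAt (Er n) x q.2 := by
    show chartAt (Er n) x (F q.1 ((chartAt (Er n) x).symm (chartAt (Er n) x q.2))) = _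
    rw [(chartAt (Er n) x).left_inv hq2, hq]
  have h6 : D2h_G (n := n) F x (q.1, chartAt (Er n) x x) = chartAt (Er n) x x := by
    show chartAt (Er n) x (F q.1 ((chartAt (Er n) x).symm (chartAt (Er n) x x))) = _
    rw [(chartAt (Er n) x).left_inv (mem_chart_source (Er n) x), hq1]
  exact (chartAt (Er n) x).injOn hq2 (mem_chart_source (Er n) x)
    (huniq q.1 _ _ hq3 hq4 h5 h6)

/-- `St k L` persists in jointly smooth families of diffeomorphisms: `smF_iterate`, `ndg_persists`,
`fix_persists`. -/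
theorem st_persists [CompleteSpace P] {k : ℕ} {L : Set M} (hL : IsCompact L) {g : Dif n M}
    (H : P → Dif n M) (h0 : ∀ x, H 0 x = g x) (hH : ∀ x, SmF n (fun p => (H p : M → M)) x)
    (h : St k L g) :
    ∀ᶠ p in 𝓝 (0 : P), St k L (H p) := by
  have hg : ((H 0 : Dif n M) : M → M) = (g : M → M) := funext h0
  have hF : ∀ p, ContMDiff (𝓡 n) (𝓡 n) ∞ ((fun p => (H p : M → M)^[k]) p) :=
    fun p => contMDiff_iterate (H p) k
  have hS : ∀ x, SmF n (fun p => (H p : M → M)^[k]) x := fun x => smF_iterate hH k x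
  have e1 := ndg_persists (n := n) hF hL hS (by
    intro x hx
    show ((H 0 : Dif n M) : M → M)^[k] x = x → Ndg (n := n) (((H 0 : Dif n M) : M → M)^[k]) x
    rw [hg]
    exact h.1 x hx)
  obtain ⟨p0, hp0, hn⟩ := h.2
  have e2 := fix_persists (n := n) hF (hS p0) (by
    show ((H 0 : Dif n M) : M → M)^[k] p0 = p0
    rw [hg]
    exact hp0) (by
    show Ndg (n := n) (((H 0 : Dif n M) : M → M)^[k]) p0
    rw [hg]
    exact hn)
  filter_upwards [e1, e2] with p hp1 hp2
  exact ⟨hp1, hp2⟩

end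

end FB
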