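import Pool.Agent.H.MP_fb873c_an.S0

/-!
# Part D2: iterates of `g ∘ h` when the support of `h` is disjoint from its images
-/

namespace FB

open scoped Topology ContDiff Manifold
open Filter

universe u

/-- Induction on `i`: `g^[i] (h x) ∉ B` for `0 < i < k` is not moved by `h`. -/
theorem iterate_supp {X : Type*} {g h : X → X} {B : Set X} (h1 : ∀ x ∉ B, h x = x)
    (h2 : ∀ x ∈ B, h x ∈ B) {k : ℕ} (hd : ∀ i, 0 < i → i < k → ∀ x ∈ B, g^[i] x ∉ B)
    {i : ℕ} (hi : 0 < i) (hik : i ≤ k) {x : X} (hx : x ∈ B) :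
    (fun y => g (h y))^[i] x = g^[i] (h x) := by
  induction i with
  | zero => omega
  | succ i ih =>
    rcases Nat.eq_zero_or_pos i with h0 | h0
    · subst h0
      rfl
    · have e := ih h0 (by omega)
      rw [Function.iterate_succ_apply', Function.iterate_succ_apply', e]
      show g (h (g^[i] (h x))) = _
      rw [h1 _ (hd i h0 (by omega) _ (h2 x hx))]

/-- Induction on `i`. -/
theorem iterate_off {X : Type*} {g h : X → X} {B : Set X} (h1 : ∀ x ∉ B, h x = x) {i : ℕ} {x : X}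
    (hx : ∀ j < i, g^[j] x ∉ B) : (fun y => g (h y))^[i] x = g^[i] x := by
  induction i with
  | zero => rfl
  | succ i ih =>
    rw [Function.iterate_succ_apply', Function.iterate_succ_apply',
      ih fun j hj => hx j (Nat.lt_succ_of_lt hj)]
    show g (h (g^[i] x)) = _
    rw [h1 _ (hx i (Nat.lt_succ_self i))]

section

variable {n : ℕ} {M : Type u} [TopologicalSpace M] [ChartedSpace (Er n) M] [T2Space M]

/-- `p, g p, ..., g^(k-1) p` : for `0 < i < k` the points `p` and `g^i p` have disjoint neighbourhoods, so by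
continuity there is a neighbourhood `U ⊆ V` of `p` with `g^i(U) ∩ U = ∅` for `0 < i < k`; take a small closed
ball in the open set `φ(U)`. -/
theorem exists_ball {g : M → M} (hg : Continuous g) {k : ℕ} {p : M}
    (hmin : ∀ i, 0 < i → i < k → g^[i] p ≠ p) {φ : OpenPartialHomeomorph M (Er n)}
    (hp : p ∈ φ.source) {V : Set M} (hV : V ∈ 𝓝 p) :
    ∃ r : ℝ, 0 < r ∧ Metric.closedBall (φ p) r ⊆ φ.target ∧
      φ.symm '' Metric.closedBall (φ p) r ⊆ V ∧
      ∀ i, 0 < i → i < k → ∀ x ∈ φ.symm '' Metric.closedBall (φ p) r,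
        g^[i] x ∉ φ.symm '' Metric.closedBall (φ p) r := by
  have h1 : ∀ i : ℕ, ∃ U ∈ 𝓝 p, 0 < i → i < k → ∀ x ∈ U, g^[i] x ∉ U := by
    intro i
    by_cases hi : 0 < i ∧ i < k
    · obtain ⟨A, B, hA, hB, hpA, hpB, hAB⟩ := t2_separation (hmin i hi.1 hi.2)
      have hc : Continuous (g^[i]) := hg.iterate i
      refine ⟨B ∩ (g^[i]) ⁻¹' A, ?_, ?_⟩
      · exact Filter.inter_mem (hB.mem_nhds hpB) (hc.continuousAt.preimage_mem_nhds (hA.mem_nhds hpA))
      · intro _ _ x hx hx'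
        exact Set.disjoint_left.mp hAB hx.2 hx'.1
    · exact ⟨Set.univ, Filter.univ_mem, fun a b => absurd ⟨a, b⟩ hi⟩
  choose U hU hU' using h1
  have h2 : (⋂ i ∈ Finset.range k, U i) ∈ 𝓝 p :=
    (Filter.biInter_finset_mem _).mpr fun i _ => hU i
  have h3 : V ∩ (⋂ i ∈ Finset.range k, U i) ∈ 𝓝 p := Filter.inter_mem hV h2
  have h4 : φ.target ∩ φ.symm ⁻¹' (V ∩ (⋂ i ∈ Finset.range k, U i)) ∈ 𝓝 (φ p) := by
    refine Filter.inter_mem (φ.open_target.mem_nhds (φ.map_source hp)) ?_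
    have hc := φ.continuousAt_symm (φ.map_source hp)
    refine hc.preimage_mem_nhds ?_
    rw [φ.left_inv hp]
    exact h3
  obtain ⟨r, hr, hball⟩ := Metric.nhds_basis_closedBall.mem_iff.mp h4
  have hsub : ∀ x ∈ φ.symm '' Metric.closedBall (φ p) r,
      x ∈ V ∩ (⋂ i ∈ Finset.range k, U i) := by
    rintro x ⟨y, hy, rfl⟩
    exact (hball hy).2
  refine ⟨r, hr, fun y hy => (hball hy).1, fun x hx => (hsub x hx).1, ?_⟩
  intro i hi hik x hx hx'
  have hxU := Set.mem_iInter₂.mp (hsub x hx).2 i (Finset.mem_range.mpr hik)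
  have hxU' := Set.mem_iInter₂.mp (hsub _ hx').2 i (Finset.mem_range.mpr hik)
  exact hU' i hi hik x hxU hxU'

end

end FB
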