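import Mathlib

/-!
# Part D2: Sard
-/

namespace FB

open scoped Topology ContDiff Manifold
open Filter

section sard

variable {W : Type} [NormedAddCommGroup W] [NormedSpace ℝ W] [FiniteDimensional ℝ W]

/-- Sard: the set of `y - G y`, where `1 - DG(y)` is singular, has measure zero
(`MeasureTheory.addHaar_image_eq_zero_of_det_fderivWithin_eq_zero`), so every neighbourhood of `0` contains a `v`
which is not in it (`MeasureTheory.Measure.addHaar`, `IsOpenPosMeasure`; use `borelize W`). -/
theorem exists_regular (G : W → W) {s : Set W} (hG : ∀ y ∈ s, DifferentiableAt ℝ G y)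
    {N : Set W} (hN : N ∈ 𝓝 (0 : W)) :
    ∃ v ∈ N, ∀ y ∈ s, y - G y = v →
      LinearMap.det ((fderiv ℝ G y - ContinuousLinearMap.id ℝ W : W →L[ℝ] W)).toLinearMap ≠ 0 := by
  borelize W
  let μ : MeasureTheory.Measure W := MeasureTheory.Measure.addHaar
  obtain ⟨crit, hcrit⟩ : ∃ c : Set W, c = {y | y ∈ s ∧
      LinearMap.det ((fderiv ℝ G y - ContinuousLinearMap.id ℝ W : W →L[ℝ] W)).toLinearMap = 0} :=
    ⟨_, rfl⟩
  have h1 : μ ((fun y => y - G y) '' crit) = 0 := by
    apply MeasureTheory.addHaar_image_eq_zero_of_det_fderivWithin_eq_zero μ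
      (f' := fun y => ContinuousLinearMap.id ℝ W - fderiv ℝ G y)
    · intro y hy
      rw [hcrit] at hy
      exact ((hasFDerivAt_id y).sub (hG y hy.1).hasFDerivAt).hasFDerivWithinAt
    · intro y hy
      rw [hcrit] at hy
      have h2 := hy.2
      have h3 : (ContinuousLinearMap.id ℝ W - fderiv ℝ G y).toLinearMap =
          (-1 : ℝ) • (fderiv ℝ G y - ContinuousLinearMap.id ℝ W : W →L[ℝ] W).toLinearMap := by
        ext v
        simp
      show LinearMap.det (ContinuousLinearMap.id ℝ W - fderiv ℝ G y).toLinearMap = 0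
      rw [h3, LinearMap.det_smul, h2, mul_zero]
  by_contra hcon
  push Not at hcon
  have h2 : N ⊆ (fun y => y - G y) '' crit := by
    intro v hv
    obtain ⟨y, hy, hyv, hdet⟩ := hcon v hv
    refine ⟨y, ?_, hyv⟩
    rw [hcrit]
    exact ⟨hy, hdet⟩
  have h3 : 0 < μ N := MeasureTheory.Measure.measure_pos_of_mem_nhds μ hN
  have h4 : μ N ≤ 0 := h1 ▸ MeasureTheory.measure_mono h2
  exact absurd h4 (not_le.2 h3)

end sard

end FB
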