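import Pool.Agent.H.MP_fb873c_an.D2c
import Pool.Agent.H.MP_fb873c_an.D2g
import Pool.Agent.H.MP_fb873c_an.D2h
import Pool.Agent.H.MP_fb873c_an.D2i
import Pool.Agent.H.MP_fb873c_an.D2l1

/-!
# Part D2, step 2: one small ball
-/

namespace FB

open scoped Topology ContDiff Manifold
open Filter

universe u

section

variable {n : ℕ} {M : Type u} [TopologicalSpace M] [ChartedSpace (Er n) M]
  [IsManifold (𝓡 n) ∞ M] [CompactSpace M] [T2Space M]

omit [CompactSpace M] [T2Space M] in
/-- the local expression of an iterate is smooth -/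
theorem D2l2_chart (g : Dif n M) (i : ℕ) {φ ψ : OpenPartialHomeomorph M (Er n)}
    (hφ : φ ∈ atlas (Er n) M) (hψ : ψ ∈ atlas (Er n) M) {y : Er n} (hy : y ∈ φ.target)
    (hgy : (g : M → M)^[i] (φ.symm y) ∈ ψ.source) :
    ContDiffAt ℝ ∞ (fun z : Er n => ψ ((g : M → M)^[i] (φ.symm z))) y := by
  have h1 : SmF n (fun _ : Er n => (g : M → M)^[i]) (φ.symm y) :=
    smF_iterate (P := Er n) (F := fun _ => (g : M → M)) (fun x => smF_const g x) i (φ.symm y)
  have h2 := smF_chart h1 hφ hψ (φ.map_target hy) hgy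
  rw [φ.right_inv hy] at h2
  have h3 : ContDiffAt ℝ ∞ (fun z : Er n => ((0 : Er n), z)) y :=
    contDiffAt_const.prodMk contDiffAt_id
  exact ContDiffAt.comp (g := fun q : Er n × Er n => ψ ((g : M → M)^[i] (φ.symm q.2)))
    (f := fun z : Er n => ((0 : Er n), z)) y h2 h3

/-- The perturbation with a fixed ball. `K = closedBall (φ x0) r ⊆ φ.target`, `B = φ⁻¹(K)` is disjoint from
`g^i(B)`, `0 < i < k`; `t = φ⁻¹(closedBall (φ x0) (r/4))`.  `β` a `ContDiffBump` with radii `r/2`, `r`;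
`w v z = β(z) v`, `h v` from `exists_family` (`P = Er n`), `H v = (h v).trans g`.
For small `v`: `H v ∈ O2` (`eventually_mem_open`), `St k L (H v)` (`st_persists`), `‖v‖ < r/4`, and the formula for
`h v`.  Choose such a `v` regular (`exists_regular`) for `G = φ ∘ g^[k] ∘ φ.symm` on
`s = {y ∈ φ.target | g^[k] (φ⁻¹ y) ∈ φ.source}`.  Let `x ∈ t`, `(H v)^[k] x = x`, `z = φ x`, `y = z + v`.
`iterate_supp`: `(H v)^[k] (φ⁻¹ z') = g^[k] (φ⁻¹ (z' + v))` for `z'` near `z` (`β = 1` there), so `G y = z = y - v`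
and the derivative of `φ (H v)^[k] φ⁻¹` at `z` is `DG(y)`: nondegenerate by `ndg_chart`. -/
theorem step2_ball {k : ℕ} (hk : 0 < k) (g : Dif n M) {φ : OpenPartialHomeomorph M (Er n)}
    (hφ : φ ∈ atlas (Er n) M) {z0 : Er n} {r : ℝ} (hr : 0 < r)
    (hrφ : Metric.closedBall z0 r ⊆ φ.target)
    (hd : ∀ i, 0 < i → i < k → ∀ x ∈ φ.symm '' Metric.closedBall z0 r,
      (g : M → M)^[i] x ∉ φ.symm '' Metric.closedBall z0 r)
    {L : Set M} (hL : IsCompact L) (hst : St k L g) {O : Set (Dif n M)}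
    (hO : IsOpen[crTop n M ⊤] O) (hg : g ∈ O) :
    ∃ g' ∈ O, St k (L ∪ φ.symm '' Metric.closedBall z0 (r / 4)) g' := by
  classical
  have hK : IsCompact (Metric.closedBall z0 r) := isCompact_closedBall z0 r
  let β : ContDiffBump z0 := ⟨r / 2, r, by positivity, by linarith⟩
  have hβ1 : ∀ z ∈ Metric.closedBall z0 (r / 2), β z = 1 := fun z hz =>
    β.one_of_mem_closedBall hz
  have hβ0 : ∀ z ∉ Metric.closedBall z0 r, β z = 0 := fun z hz =>
    β.zero_of_le_dist (by
      rw [Metric.mem_closedBall, not_le] at hz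
      exact hz.le)
  let w : Er n → Er n → Er n := fun v z => β z • v
  have hw : ContDiff ℝ ∞ (fun q : Er n × Er n => w q.1 q.2) :=
    (β.contDiff.comp contDiff_snd).smul contDiff_fst
  obtain ⟨h, hsm, h00, hout, hev⟩ := exists_family hφ hK hrφ w hw
    (fun z => smul_zero _) (fun p z hz => by
      change β z • p = 0
      rw [hβ0 z hz, zero_smul])
  let H : Er n → Dif n M := fun v => (h v).trans g
  have hHa : ∀ v x, H v x = g (h v x) := fun v x => rfl
  have hHf : ∀ v, (H v : M → M) = fun x => g (h v x) := fun v => rfl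
  have hH0 : ∀ x, H 0 x = g x := fun x => by rw [hHa, h00]
  have hHs : ∀ x, SmF n (fun p => (H p : M → M)) x := fun x =>
    smF_comp (F := fun p => (h p : M → M)) (G := fun _ => (g : M → M)) (hsm x) (smF_const g _)
  have e1 := eventually_mem_open g H hH0 hHs hO hg
  have e2 := st_persists hL H hH0 hHs hst
  have e3 : ∀ᶠ v in 𝓝 (0 : Er n), ‖v‖ < r / 4 := by
    have h1 : Metric.ball (0 : Er n) (r / 4) ∈ 𝓝 (0 : Er n) := Metric.ball_mem_nhds _ (by positivity)
    filter_upwards [h1] with v hv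
    rwa [mem_ball_zero_iff] at hv
  let G : Er n → Er n := fun y => φ ((g : M → M)^[k] (φ.symm y))
  obtain ⟨v, ⟨⟨⟨v1, v2⟩, v3⟩, v4⟩, hreg⟩ := exists_regular G
    (s := {y | y ∈ φ.target ∧ (g : M → M)^[k] (φ.symm y) ∈ φ.source})
    (fun y hy => (D2l2_chart g k hφ hφ hy.1 hy.2).differentiableAt (by simp))
    (((e1.and e2).and e3).and hev)
  refine ⟨H v, v1, ?_, v2.2⟩
  rintro x (hx | ⟨z, hz, rfl⟩) hfix
  · exact v2.1 x hx hfix
  -- the new points
  have key : ∀ z' ∈ Metric.closedBall z0 (r / 2),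
      (H v : M → M)^[k] (φ.symm z') = (g : M → M)^[k] (φ.symm (z' + v)) := by
    intro z' hz'
    have hz'K : z' ∈ Metric.closedBall z0 r :=
      Metric.closedBall_subset_closedBall (by linarith) hz'
    have h1 := iterate_supp (g := (g : M → M)) (h := (h v : M → M))
      (B := φ.symm '' Metric.closedBall z0 r) (fun x hx => hout v x hx)
      (by
        rintro _ ⟨z'', hz'', rfl⟩
        exact ⟨z'' + w v z'', (v4 z'' hz'').1, (v4 z'' hz'').2.symm⟩)
      hd hk le_rfl (x := φ.symm z') ⟨z', hz'K, rfl⟩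
    rw [hHf, h1, (v4 z' hz'K).2]
    change (g : M → M)^[k] (φ.symm (z' + β z' • v)) = _
    rw [hβ1 z' hz', one_smul]
  have hz2 : z ∈ Metric.closedBall z0 (r / 2) :=
    Metric.closedBall_subset_closedBall (by linarith) hz
  have hzK : z ∈ Metric.closedBall z0 r := Metric.closedBall_subset_closedBall (by linarith) hz
  have hzt : z ∈ φ.target := hrφ hzK
  have hyK : z + v ∈ Metric.closedBall z0 r := by
    have h1 := (v4 z hzK).1
    change z + β z • v ∈ _ at h1
    rwa [hβ1 z hz2, one_smul] at h1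
  have hfix' : (g : M → M)^[k] (φ.symm (z + v)) = φ.symm z := by
    rw [← key z hz2]
    exact hfix
  have hGy : G (z + v) = z := by
    change φ ((g : M → M)^[k] (φ.symm (z + v))) = z
    rw [hfix', φ.right_inv hzt]
  have hdet := hreg (z + v) ⟨hrφ hyK, by
    rw [hfix']
    exact φ.map_target hzt⟩ (by rw [hGy, add_sub_cancel_left])
  have hsmH : ContMDiffAt (𝓡 n) (𝓡 n) 1 ((H v : M → M)^[k]) (φ.symm z) :=
    ((contMDiff_iterate (H v) k).contMDiffAt).of_le (by simp)
  rw [ndg_chart hsmH hfix hφ (φ.map_target hzt), φ.right_inv hzt]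
  have hnear : ∀ᶠ z' in 𝓝 z, (φ ∘ (H v : M → M)^[k] ∘ φ.symm) z' = (fun z' => G (z' + v)) z' := by
    have h1 : Metric.closedBall z0 (r / 2) ∈ 𝓝 z := by
      refine mem_of_superset (Metric.ball_mem_nhds z (show 0 < r / 4 by positivity)) ?_
      intro z' hz'
      rw [Metric.mem_closedBall] at hz ⊢
      rw [Metric.mem_ball] at hz'
      linarith [dist_triangle z' z z0]
    filter_upwards [h1] with z' hz'
    change φ ((H v : M → M)^[k] (φ.symm z')) = φ ((g : M → M)^[k] (φ.symm (z' + v)))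
    rw [key z' hz']
  rw [EventuallyEq.fderiv_eq hnear, fderiv_comp_add_right]
  exact hdet

end

end FB
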