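import Pool.Agent.H.MP_fb873c_an.D2d
import Pool.Agent.H.MP_fb873c_an.D2l2

/-!
# Part D2, step 2: make all fixed points of `g^k` nondegenerate
-/

namespace FB

open scoped Topology ContDiff Manifold
open Filter

universe u

section

variable {n : ℕ} {M : Type u} [TopologicalSpace M] [ChartedSpace (Er n) M]
  [IsManifold (𝓡 n) ∞ M] [CompactSpace M] [T2Space M]

/-- `exists_ball` for `g0` at `x0` in the chart at `x0` (`V = univ`); `O1` is the set of the `g` with
`g^[i](B) ⊆ Bᶜ` for `0 < i < k` (finite intersection of open sets, `isOpen_mapsTo_iterate`);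
`t = φ⁻¹(closedBall (φ x0) (r/4))`, `step2_ball`. -/
theorem step2_local {k : ℕ} (hk : 0 < k) (g0 : Dif n M) (x0 : M)
    (hmin : ∀ i, 0 < i → i < k → (g0 : M → M)^[i] x0 ≠ x0) :
    ∃ t ∈ 𝓝 x0, IsCompact t ∧ ∃ O1 : Set (Dif n M), IsOpen[crTop n M ⊤] O1 ∧ g0 ∈ O1 ∧
      ∀ g ∈ O1, ∀ L, IsCompact L → St k L g → ∀ O2 : Set (Dif n M), IsOpen[crTop n M ⊤] O2 →
        g ∈ O2 → ∃ g' ∈ O2, St k (L ∪ t) g' := by
  obtain ⟨r, hr, hrt, -, -, hd⟩ : ∃ r : ℝ, 0 < r ∧
      Metric.closedBall (chartAt (Er n) x0 x0) r ⊆ (chartAt (Er n) x0).target ∧ True ∧ True ∧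
      ∀ i, 0 < i → i < k →
        ∀ x ∈ (chartAt (Er n) x0).symm '' Metric.closedBall (chartAt (Er n) x0 x0) r,
        (g0 : M → M)^[i] x ∉
          (chartAt (Er n) x0).symm '' Metric.closedBall (chartAt (Er n) x0 x0) r := by
    obtain ⟨r, h1, h2, -, h3⟩ := exists_ball (n := n) g0.continuous hmin
      (mem_chart_source (Er n) x0) (V := Set.univ) Filter.univ_mem
    exact ⟨r, h1, h2, trivial, trivial, h3⟩
  set φ := chartAt (Er n) x0 with hφ
  have hBc : IsCompact (φ.symm '' Metric.closedBall (φ x0) r) :=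
    (isCompact_closedBall _ _).image_of_continuousOn (φ.continuousOn_symm.mono hrt)
  have hsub : Metric.closedBall (φ x0) (r / 4) ⊆ φ.target :=
    (Metric.closedBall_subset_closedBall (by linarith)).trans hrt
  have htc : IsCompact (φ.symm '' Metric.closedBall (φ x0) (r / 4)) :=
    (isCompact_closedBall _ _).image_of_continuousOn (φ.continuousOn_symm.mono hsub)
  have hx0 : x0 ∈ φ.source := mem_chart_source (Er n) x0
  have htn : φ.symm '' Metric.closedBall (φ x0) (r / 4) ∈ 𝓝 x0 := by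
    have h1 : Metric.closedBall (φ x0) (r / 4) ∈ 𝓝 (φ x0) :=
      Metric.closedBall_mem_nhds _ (by linarith)
    have h2 := φ.symm.image_mem_nhds (x := φ x0) (φ.map_source hx0) h1
    rwa [φ.left_inv hx0] at h2
  refine ⟨_, htn, htc, ⋂ i ∈ Finset.Ioo 0 k, {g : Dif n M |
    ∀ x ∈ φ.symm '' Metric.closedBall (φ x0) r, (g : M → M)^[i] x ∈
      (φ.symm '' Metric.closedBall (φ x0) r)ᶜ}, ?_, ?_, ?_⟩
  · letI T := crTop n M ⊤
    exact isOpen_biInter_finset fun i _ =>
      isOpen_mapsTo_iterate ⊤ i hBc hBc.isClosed.isOpen_compl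
  · simp only [Set.mem_iInter, Finset.mem_Ioo, Set.mem_setOf_eq, Set.mem_compl_iff]
    exact fun i hi => hd i hi.1 hi.2
  · intro g hg L hL hst O2 hO2 hgO2
    simp only [Set.mem_iInter, Finset.mem_Ioo, Set.mem_setOf_eq, Set.mem_compl_iff] at hg
    exact step2_ball hk g (chart_mem_atlas (Er n) x0) hr hrt
      (fun i h1 h2 => hg i ⟨h1, h2⟩) hL hst hO2 hgO2

/-- `M` is covered by finitely many `t` (`isCompact_univ.elim_nhds_subcover`); replace `O` by the
intersection with the corresponding `O1`'s; induction over the finite set, adding one `t` at a time. -/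
theorem step2 {k : ℕ} (hk : 0 < k) (g0 : Dif n M)
    (hmin : ∀ x, ∀ i, 0 < i → i < k → (g0 : M → M)^[i] x ≠ x)
    (hst : ∃ p, (g0 : M → M)^[k] p = p ∧ Ndg (n := n) ((g0 : M → M)^[k]) p)
    {O : Set (Dif n M)} (hO : IsOpen[crTop n M ⊤] O) (hg : g0 ∈ O) :
    ∃ g ∈ O, St k Set.univ g := by
  choose t htn htc O1 hO1 hg1 hstep using fun x => step2_local hk g0 x (hmin x)
  obtain ⟨s, -, hs⟩ := isCompact_univ.elim_nhds_subcover t fun x _ => htn x
  letI T := crTop n M ⊤
  set O' : Set (Dif n M) := O ∩ ⋂ x ∈ s, O1 x with hO'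
  have hO'o : IsOpen O' := IsOpen.inter hO (isOpen_biInter_finset fun x _ => hO1 x)
  have hgO' : g0 ∈ O' := ⟨hg, Set.mem_iInter₂.2 fun x _ => hg1 x⟩
  have key : ∀ s' : Finset M, s' ⊆ s → ∃ g ∈ O', St k (⋃ x ∈ s', t x) g := by
    classical
    intro s'
    induction s' using Finset.induction_on with
    | empty =>
      intro _
      refine ⟨g0, hgO', fun x hx => ?_, hst⟩
      simp at hx
    | insert a s' ha ih =>
      intro hsub
      obtain ⟨g, hgO, hgst⟩ := ih ((Finset.subset_insert a s').trans hsub)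
      have has : a ∈ s := hsub (Finset.mem_insert_self a s')
      have hga : g ∈ O1 a := Set.mem_iInter₂.1 hgO.2 a has
      obtain ⟨g', hg'O, hg'st⟩ := hstep a g hga (⋃ x ∈ s', t x)
        (s'.isCompact_biUnion fun x _ => htc x) hgst O' hO'o hgO
      refine ⟨g', hg'O, ?_⟩
      rw [Finset.set_biUnion_insert, Set.union_comm]
      exact hg'st
  obtain ⟨g, hgO, hgst⟩ := key s subset_rfl
  exact ⟨g, hgO.1, fun x _ => hgst.1 x (hs (Set.mem_univ x)), hgst.2⟩

end

end FB
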