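import Pool.Agent.H.MP_fb873c_an.D2j
import Pool.Agent.H.MP_fb873c_an.D2m1
import Pool.Agent.H.MP_fb873c_an.DCb

/-!
# Part D2: the perturbation at one orbit
-/

namespace FB

open scoped Topology ContDiff Manifold
open Filter

universe u

section

variable {n : ℕ} {M : Type u} [TopologicalSpace M] [ChartedSpace (Er n) M]
  [IsManifold (𝓡 n) ∞ M] [CompactSpace M] [T2Space M]

/-- Let `F` be the finite set of fixed points of `g^k`, all nondegenerate, `p ∈ F`.  Choose a neighbourhood
`V` of `p` with `V ∩ F = {p}`, and the perturbation `H` of `exists_pert` with `φ = chartAt p`, `A = dfix g^k p`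
(invertible), `B = A⁻¹ - 1`.  Then `A (1 + s B) = (1-s) A + s`.  For small `s`:
`H s x = g x` for `x ∈ F` (either `x = p` or `x ∉ S`), so `(H s)^[i] x = g^[i] x`, `x ∈ F`; the fixed points of
`(H s)^k` are exactly the points of `F` (`⊆`: by compactness of `M`, `fix_unique` at the points of `F` and
continuity at the others); they are nondegenerate (`ndg_persists`); at the `x ∈ F` outside of the orbit of `p`
the orbit of `x` does not meet the closed set `S`, so `(H s)^[k] = g^[k]` near `x` (`iterate_off` or a direct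
induction) and the derivative is the same. -/
theorem exists_shift {k : ℕ} (hk : 0 < k) {g : Dif n M}
    (hmin : ∀ x, ∀ i, 0 < i → i < k → (g : M → M)^[i] x ≠ x)
    (hnd : ∀ x, (g : M → M)^[k] x = x → Ndg (n := n) ((g : M → M)^[k]) x)
    {p : M} (hp : (g : M → M)^[k] p = p) :
    ∃ H : ℝ → Dif n M, (∀ x, SmF n (fun s => (H s : M → M)) x) ∧ (∀ x, H 0 x = g x) ∧
      ∀ᶠ s in 𝓝 (0 : ℝ),
        (∀ x, (H s : M → M)^[k] x = x ↔ (g : M → M)^[k] x = x) ∧
        (∀ x, (g : M → M)^[k] x = x → H s x = g x) ∧
        (∀ x, (H s : M → M)^[k] x = x → Ndg (n := n) ((H s : M → M)^[k]) x) ∧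
        (dfix (n := n) ((H s : M → M)^[k]) p).toLinearMap =
          (1 - s) • (dfix (n := n) ((g : M → M)^[k]) p).toLinearMap + s • 1 ∧
        ∀ x, (g : M → M)^[k] x = x → (∀ i, (g : M → M)^[i] p ≠ x) →
          dfix (n := n) ((H s : M → M)^[k]) x = dfix ((g : M → M)^[k]) x := by
  have hfin := finite_fix hnd
  have hV : ({x | (g : M → M)^[k] x = x} \ {p})ᶜ ∈ 𝓝 p :=
    (hfin.subset Set.diff_subset).isClosed.isOpen_compl.mem_nhds (by simp)
  obtain ⟨A, hA⟩ := dfix_equiv g k hp
  obtain ⟨H, hH1, hH2, S, hS, hSV, hHS, hev⟩ := exists_pert hk g hp (hmin p)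
    (chart_mem_atlas (Er n) p) (mem_chart_source (Er n) p) hV
    ((A.symm : Er n →L[ℝ] Er n) - ContinuousLinearMap.id ℝ (Er n))
  refine ⟨H, hH1, hH2, ?_⟩
  -- the set of fixed points is invariant
  have hgF : ∀ j : ℕ, ∀ x, (g : M → M)^[k] x = x → (g : M → M)^[k] ((g : M → M)^[j] x)
      = (g : M → M)^[j] x := by
    intro j x hx
    rw [← Function.iterate_add_apply, add_comm, Function.iterate_add_apply, hx]
  have hSp : ∀ x, (g : M → M)^[k] x = x → x ∈ S → x = p := by
    intro x hx hxS
    by_contra hne
    exact hSV hxS ⟨hx, hne⟩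
  have key1 : ∀ s, H s p = g p → ∀ x, (g : M → M)^[k] x = x → H s x = g x := by
    intro s hs x hx
    by_cases hxS : x ∈ S
    · rw [hSp x hx hxS, hs]
    · exact hHS s x hxS
  have key2 : ∀ s, H s p = g p → ∀ x, (g : M → M)^[k] x = x → ∀ i : ℕ,
      (H s : M → M)^[i] x = (g : M → M)^[i] x := by
    intro s hs x hx i
    induction i with
    | zero => rfl
    | succ i ih =>
      rw [Function.iterate_succ_apply', Function.iterate_succ_apply', ih]
      exact key1 s hs _ (hgF i x hx)
  have h0 : (H 0 : M → M) = g := funext hH2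
  have hSk : ∀ x, SmF n (fun s => (H s : M → M)^[k]) x := fun x => smF_iterate hH1 k x
  have evA : ∀ᶠ s in 𝓝 (0 : ℝ), ∀ x ∈ (Set.univ : Set M), (H s : M → M)^[k] x = x →
      Ndg (n := n) ((H s : M → M)^[k]) x := by
    refine ndg_persists (F := fun s => (H s : M → M)^[k]) (fun s => contMDiff_iterate (H s) k)
      isCompact_univ hSk ?_
    intro x _ hx
    simp only [h0] at hx ⊢
    exact hnd x hx
  have evB : ∀ᶠ s in 𝓝 (0 : ℝ), ∀ x ∈ (Set.univ : Set M), (H s : M → M)^[k] x = x →
      (g : M → M)^[k] x = x := by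
    refine IsCompact.eventually_forall_of_forall_eventually isCompact_univ ?_
    intro x _
    by_cases hx : (g : M → M)^[k] x = x
    · have h1 : ∀ᶠ s in 𝓝 (0 : ℝ), (H s : M → M)^[k] x = x := by
        filter_upwards [hev] with s hs
        rw [key2 s hs.1 x hx k, hx]
      have h2 : Ndg (n := n) ((H 0 : M → M)^[k]) x := by
        rw [h0]
        exact hnd x hx
      have h3 := fix_unique (F := fun s => (H s : M → M)^[k]) (hSk x) h1 h2
      filter_upwards [h3] with q hq hqq
      rw [hq hqq]
      exact hx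
    · have hc : ContinuousAt (fun q : ℝ × M => (H q.1 : M → M)^[k] q.2) (0, x) :=
        (hSk x).continuousAt
      have hc2 : ContinuousAt (fun q : ℝ × M => q.2) (0, x) := continuousAt_snd
      have hne : (H (0, x).1 : M → M)^[k] (0, x).2 ≠ ((0 : ℝ), x).2 := by
        simp only [h0]
        exact hx
      have h3 := (hc.ne_iff_eventually_ne hc2).1 hne
      filter_upwards [h3] with q hq hqq
      exact absurd hqq hq
  filter_upwards [hev, evA, evB] with s hs hA' hB'
  refine ⟨?_, key1 s hs.1, fun x hx => hA' x (Set.mem_univ x) hx, ?_, ?_⟩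
  · intro x
    constructor
    · exact hB' x (Set.mem_univ x)
    · intro hx
      rw [key2 s hs.1 x hx k, hx]
  · have h4 : dfix (n := n) ((H s : M → M)^[k]) p = (dfix (n := n) ((g : M → M)^[k]) p) ∘L
        (ContinuousLinearMap.id ℝ (Er n) + s • ((A.symm : Er n →L[ℝ] Er n)
          - ContinuousLinearMap.id ℝ (Er n))) := hs.2
    rw [h4, ← hA]
    ext1 v
    show A (v + s • (A.symm v - v)) = (1 - s) • A v + s • v
    rw [map_add, map_smul, map_sub, ContinuousLinearEquiv.apply_symm_apply, sub_smul, one_smul,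
      smul_sub]
    abel
  · intro x hx hxp
    have h5 : ∀ j < k, (g : M → M)^[j] x ∉ S := by
      intro j hj hjS
      have h6 := hSp _ (hgF j x hx) hjS
      apply hxp (k - j)
      rw [← h6, ← Function.iterate_add_apply, Nat.sub_add_cancel hj.le, hx]
    have h6 : ∀ᶠ y in 𝓝 x, ∀ j ∈ Finset.range k, (g : M → M)^[j] y ∉ S := by
      rw [Filter.eventually_all_finset]
      intro j hj
      have hcj : Continuous ((g : M → M)^[j]) := g.continuous.iterate j
      exact (hcj.isOpen_preimage _ hS.isClosed.isOpen_compl).mem_nhds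
        (h5 j (Finset.mem_range.1 hj))
    have h7 : (H s : M → M)^[k] =ᶠ[𝓝 x] (g : M → M)^[k] := by
      filter_upwards [h6] with y hy
      have : ∀ i ≤ k, (H s : M → M)^[i] y = (g : M → M)^[i] y := by
        intro i
        induction i with
        | zero => intro _; rfl
        | succ i ih =>
          intro hi
          rw [Function.iterate_succ_apply', Function.iterate_succ_apply', ih (by omega)]
          exact hHS s _ (hy i (Finset.mem_range.2 (by omega)))
      exact this k le_rfl
    unfold dfix
    apply Filter.EventuallyEq.fderiv_eq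
    have h8 : ContinuousAt (chartAt (Er n) x).symm (chartAt (Er n) x x) :=
      (chartAt (Er n) x).continuousAt_symm ((chartAt (Er n) x).map_source (mem_chart_source (Er n) x))
    have h9 : (chartAt (Er n) x).symm (chartAt (Er n) x x) = x :=
      (chartAt (Er n) x).left_inv (mem_chart_source (Er n) x)
    have h10 : Filter.Tendsto (chartAt (Er n) x).symm (𝓝 (chartAt (Er n) x x)) (𝓝 x) := by
      have := h8.tendsto
      rwa [h9] at this
    filter_upwards [h10.eventually h7] with z hz
    simp only [Function.comp_apply]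
    rw [hz]

end

end FB
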