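import Pool.Agent.H.MP_fb873c_an.DA

/-!
# Part D2: the sum over a periodic orbit
-/

namespace FB

open scoped Topology ContDiff Manifold

/-- `p` has exactly `k` points in its orbit; a function which is constant along orbits is constant on the
orbit of `p`: `∑_F (c x)⁻¹ = k (c p)⁻¹ + ∑_{F ∖ orbit} (c x)⁻¹`. -/
theorem sum_orbit {X : Type*} {g : X → X} {k : ℕ} (hk : 0 < k)
    (hmin : ∀ x, ∀ i, 0 < i → i < k → g^[i] x ≠ x) {p : X} (hp : g^[k] p = p) (F T : Finset X)
    (hF : ∀ x, x ∈ F ↔ g^[k] x = x) (hT : ∀ x, x ∈ T ↔ x ∈ F ∧ ∀ i, g^[i] p ≠ x) (c : X → ℂ)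
    (hc : ∀ x ∈ F, c (g x) = c x) :
    ∑ x ∈ F, (c x)⁻¹ = (k : ℂ) * (c p)⁻¹ + ∑ x ∈ T, (c x)⁻¹ := by
  classical
  have hgF : ∀ i, g^[i] p ∈ F := by
    intro i
    rw [hF, ← Function.iterate_add_apply, add_comm, Function.iterate_add_apply, hp]
  have hci : ∀ i, c (g^[i] p) = c p := by
    intro i
    induction i with
    | zero => rfl
    | succ i ih => rw [Function.iterate_succ_apply', hc _ (hgF i), ih]
  have hinj : ∀ i j, i < j → j < k → g^[i] p ≠ g^[j] p := by
    intro i j hij hjk h
    have h1 : g^[j - i] (g^[i] p) = g^[i] p := by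
      rw [← Function.iterate_add_apply, Nat.sub_add_cancel hij.le]
      exact h.symm
    exact hmin _ (j - i) (by omega) (by omega) h1
  set O : Finset X := (Finset.range k).image (fun i => g^[i] p) with hO
  have hFO : F = O ∪ T := by
    ext x
    rw [Finset.mem_union, hT, hO, Finset.mem_image]
    constructor
    · intro hx
      by_cases h : ∃ i, g^[i] p = x
      · obtain ⟨i, hi⟩ := h
        left
        refine ⟨i % k, Finset.mem_range.2 (Nat.mod_lt _ hk), ?_⟩
        rw [← hi]
        have hper : Function.IsPeriodicPt g k p := hp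
        exact hper.iterate_mod_apply i
      · right
        exact ⟨hx, fun i hi => h ⟨i, hi⟩⟩
    · rintro (⟨i, -, rfl⟩ | ⟨hx, -⟩)
      · exact hgF i
      · exact hx
  have hdisj : Disjoint O T := by
    rw [Finset.disjoint_left]
    intro x hx hxT
    rw [hO, Finset.mem_image] at hx
    obtain ⟨i, -, hi⟩ := hx
    exact ((hT x).1 hxT).2 i hi
  rw [hFO, Finset.sum_union hdisj]
  congr 1
  rw [hO, Finset.sum_image]
  · rw [Finset.sum_congr rfl (fun i _ => by rw [hci i]), Finset.sum_const, Finset.card_range,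
      nsmul_eq_mul]
  · intro i hi j hj hij
    rw [Finset.mem_coe, Finset.mem_range] at hi hj
    rcases lt_trichotomy i j with h | h | h
    · exact absurd hij (hinj i j h hj)
    · exact h
    · exact absurd hij.symm (hinj j i h hi)

end FB
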