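import Pool.Agent.H.MP_fb873c_an.D2c
import Pool.Agent.H.MP_fb873c_an.D2m2
import Pool.Agent.H.MP_fb873c_an.D2m3
import Pool.Agent.H.MP_fb873c_an.DF1b
import Pool.Agent.H.MP_fb873c_an.DF2

/-!
# Part D2, step 3: leave the finite set `R`
-/

namespace FB

open scoped Topology ContDiff Manifold
open Filter

universe u

section

variable {n : ℕ} {M : Type u} [TopologicalSpace M] [ChartedSpace (Er n) M]
  [IsManifold (𝓡 n) ∞ M] [CompactSpace M] [T2Space M]

/-- `exists_shift`, `sum_orbit`.  Let `c` be a family for `H s`.  `c p ∈ Fac ((1-s) A + s)`, so by `Fac_shift`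
`c p = (1-s)^m c'`, `c' ∈ Fac A`, `n = 2m` (`Fac_even`: if `n` is odd there is no family at all), `c' ≠ 0`
(`Fac_ne_zero`); the sum over the other points lies in the finite set `finite_sums` for the sets of inverses of
`Fac (dfix g^k x)` (`Fac_finite`).  By `eventually_avoid` the sum avoids `R` for all small `s > 0`; combine with
`eventually_mem_open` in the filter `𝓝[>] 0`. -/
theorem step3 (hn : 0 < n) {k : ℕ} (hk : 0 < k) {g : Dif n M}
    (hmin : ∀ x, ∀ i, 0 < i → i < k → (g : M → M)^[i] x ≠ x) (hst : St k Set.univ g)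
    {R : Set ℂ} (hR : R.Finite) {O : Set (Dif n M)} (hO : IsOpen[crTop n M ⊤] O) (hg : g ∈ O) :
    ∃ g' ∈ O, GoodAt g' k R := by
  classical
  obtain ⟨hnd0, p, hp, -⟩ := hst
  have hnd : ∀ x, (g : M → M)^[k] x = x → Ndg (n := n) ((g : M → M)^[k]) x :=
    fun x hx => hnd0 x (Set.mem_univ x) hx
  have hfin := finite_fix (n := n) (k := k) (g := g) hnd
  obtain ⟨H, hH, h0, hev⟩ := exists_shift hk hmin hnd hp
  have hO' := eventually_mem_open g H h0 hH hO hg
  set F : Finset M := hfin.toFinset with hFdef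
  have hF : ∀ x, x ∈ F ↔ (g : M → M)^[k] x = x := by
    intro x
    simp [hFdef]
  set T : Finset M := F.filter (fun x => ∀ i, (g : M → M)^[i] p ≠ x) with hTdef
  have hT : ∀ x, x ∈ T ↔ x ∈ F ∧ ∀ i, (g : M → M)^[i] p ≠ x := by
    intro x
    simp [hTdef]
  have hfr : Module.finrank ℝ (Er n) = n := by simp [Er]
  have hne : ∀ x, (g : M → M)^[k] x = x → ∀ c ∈ Fac (dfix (n := n) ((g : M → M)^[k]) x).toLinearMap,
      c ≠ 0 := by
    intro x hx c hc
    exact Fac_ne_zero hc (hnd x hx)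
  by_cases hev2 : Even n
  · have hm : 0 < n / 2 := by
      obtain ⟨r, hr⟩ := hev2
      omega
    have hC := finite_sums T (fun x => (fun z : ℂ => z⁻¹) ''
      Fac (dfix (n := n) ((g : M → M)^[k]) x).toLinearMap) (fun x _ => (Fac_finite _).image _)
    have hav := eventually_avoid (R := R) hk hm
      (Fac_finite (dfix (n := n) ((g : M → M)^[k]) p).toLinearMap)
      (fun h => hne p hp 0 h rfl) hC hR
    have hs1 : ∀ᶠ s : ℝ in 𝓝 (0 : ℝ), s ≠ 1 := by
      have : ∀ᶠ s : ℝ in 𝓝 (0 : ℝ), s < 1 := eventually_lt_nhds one_pos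
      filter_upwards [this] with s hs
      exact hs.ne
    obtain ⟨s, ⟨⟨⟨hs1, hsO⟩, hsfix, hsval, hsnd, hsp, hsx⟩, hsav⟩⟩ :=
      (((hs1.and hO').and hev).filter_mono (nhdsWithin_le_nhds (s := Set.Ioi (0 : ℝ)))
        |>.and hav).exists
    refine ⟨H s, hsO, ?_⟩
    rw [GoodAt.iff_ndg]
    refine ⟨hsnd, ?_⟩
    intro c hc
    have hcg : ∀ x ∈ F, c (g x) = c x := by
      intro x hx
      rw [← hsval x ((hF x).1 hx)]
      exact (hc x ((hsfix x).2 ((hF x).1 hx))).2
    have hsum : (∑ᶠ x ∈ {x | (H s : M → M)^[k] x = x}, (c x)⁻¹) = ∑ x ∈ F, (c x)⁻¹ := by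
      have hset : {x | (H s : M → M)^[k] x = x} = (F : Set M) := by
        ext x
        rw [Set.mem_ofPred_eq, Finset.mem_coe, hF x]
        exact hsfix x
      rw [hset]
      exact finsum_mem_coe_finset _ _
    rw [hsum, sum_orbit hk hmin hp F T hF hT c hcg]
    have hcp := (hc p ((hsfix p).2 hp)).1
    rw [hsp] at hcp
    obtain ⟨c', hc', hcc'⟩ := Fac_shift hs1 hcp
    rw [hfr] at hcc'
    rw [hcc']
    refine hsav c' hc' _ ⟨fun x => (c x)⁻¹, ?_, rfl⟩
    intro x hx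
    have hx' := (hT x).1 hx
    have hxF := (hF x).1 hx'.1
    have h1 := (hc x ((hsfix x).2 hxF)).1
    rw [hsx x hxF hx'.2] at h1
    exact ⟨c x, h1, rfl⟩
  · obtain ⟨s, ⟨hsO, hsfix, hsval, hsnd, hsp, hsx⟩⟩ := (hO'.and hev).exists
    refine ⟨H s, hsO, ?_⟩
    rw [GoodAt.iff_ndg]
    refine ⟨hsnd, ?_⟩
    intro c hc
    exfalso
    apply hev2
    have h := Fac_even (hc p ((hsfix p).2 hp)).1
    rwa [hfr] at h

end

end FB
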