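import Pool.Agent.H.MP_fb873c_an.D2k
import Pool.Agent.H.MP_fb873c_an.D2l
import Pool.Agent.H.MP_fb873c_an.D2m

/-!
# Part D2 (density): assembly
-/

namespace FB

open scoped Topology ContDiff Manifold
open Filter

universe u

section

variable {n : ℕ} {M : Type u} [TopologicalSpace M] [ChartedSpace (Er n) M]
  [IsManifold (𝓡 n) ∞ M] [CompactSpace M] [T2Space M]

/-- MAIN D2 (density). -/
theorem exists_goodAt_aux (hn : 0 < n) (f : Dif n M)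
    (hper : ∃ (x : M) (k : ℕ), 0 < k ∧ (f : M → M)^[k] x = x)
    (O : Set (Dif n M)) (hO : IsOpen[crTop n M ⊤] O) (hf : f ∈ O)
    (R : ℕ → Set ℂ) (hR : ∀ k, (R k).Finite) :
    ∃ g ∈ O, ∃ k, 0 < k ∧ GoodAt g k (R k) := by
  classical
  obtain ⟨x, k0, hk0, hx⟩ := hper
  have hex : ∃ k : ℕ, 0 < k ∧ ∃ g ∈ O, ∃ x : M, (g : M → M)^[k] x = x := ⟨k0, hk0, f, hf, x, hx⟩
  have hmin : ∀ g ∈ O, ∀ x : M, ∀ i, 0 < i → i < Nat.find hex → (g : M → M)^[i] x ≠ x :=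
    fun g hg x i hi hik he => Nat.find_min hex hik ⟨hi, g, hg, x, he⟩
  obtain ⟨hk, g0, hg0, p, hp⟩ := Nat.find_spec hex
  obtain ⟨g1, hg1, h1, h1'⟩ := exists_ndg hk g0 hp (hmin g0 hg0 p) hO hg0
  obtain ⟨g2, hg2, h2⟩ := step2 hk g1 (hmin g1 hg1) ⟨p, h1, h1'⟩ hO hg1
  obtain ⟨g3, hg3, h3⟩ := step3 hn hk (hmin g2 hg2) h2 (hR (Nat.find hex)) hO hg2
  exact ⟨g3, hg3, Nat.find hex, hk, h3⟩

end

end FB
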