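import Mathlib

/-!
# Part D2: derivatives of the slices of a function of two variables
-/

namespace FB

open scoped Topology ContDiff Manifold
open Filter

section

variable {P W W' : Type} [NormedAddCommGroup P] [NormedSpace ℝ P]
  [NormedAddCommGroup W] [NormedSpace ℝ W] [NormedAddCommGroup W'] [NormedSpace ℝ W']

/-- Chain rule for `z ↦ (p, z)`. -/
theorem slice_fderiv {F : P × W → W'} {p : P} {z : W} (h : DifferentiableAt ℝ F (p, z)) :
    fderiv ℝ (fun y => F (p, y)) z = (fderiv ℝ F (p, z)) ∘L (ContinuousLinearMap.inr ℝ P W) := by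
  have h1 : HasFDerivAt (fun y : W => (p, y)) (ContinuousLinearMap.inr ℝ P W) z :=
    hasFDerivAt_prodMk_right p z
  exact (h.hasFDerivAt.comp z h1).fderiv

/-- The derivative in the second variable, as a function on the product. -/
theorem D2a_contDiffAt {F : P × W → W'} {x : P × W} (h : ContDiffAt ℝ ∞ F x) :
    ContDiffAt ℝ ∞ (fun q : P × W => (fderiv ℝ F q) ∘L (ContinuousLinearMap.inr ℝ P W)) x := by
  have h1 : ContDiffAt ℝ ∞ (fderiv ℝ F) x := h.fderiv_right (by simp)
  exact ((ContinuousLinearMap.compL ℝ W (P × W) W').flip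
    (ContinuousLinearMap.inr ℝ P W)).contDiff.contDiffAt.comp x h1

theorem D2a_eventually {F : P × W → W'} {x : P × W} (h : ContDiffAt ℝ ∞ F x) :
    ∀ᶠ q in 𝓝 x, fderiv ℝ (fun y => F (q.1, y)) q.2 =
      (fderiv ℝ F q) ∘L (ContinuousLinearMap.inr ℝ P W) := by
  have h1 : ContDiffAt ℝ 1 F x := h.of_le (by simp)
  filter_upwards [h1.eventually (by simp)] with q hq
  exact slice_fderiv (p := q.1) (z := q.2) (hq.differentiableAt (by simp))

/-- `F` is `C^1` in a neighbourhood (`ContDiffAt.eventually`), there `slice_fderiv` holds, and the derivative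
is continuous at the point. -/
theorem slice_fderiv_continuousAt {F : P × W → W'} {p : P} {z : W}
    (h : ContDiffAt ℝ ∞ F (p, z)) :
    ContinuousAt (fun q : P × W => fderiv ℝ (fun y => F (q.1, y)) q.2) (p, z) :=
  (D2a_contDiffAt h).continuousAt.congr
    ((D2a_eventually h).mono fun _ hq => hq.symm)

theorem D2a_iter (j : ℕ) : ∀ {V : Type} [NormedAddCommGroup V] [NormedSpace ℝ V]
    {F : P × W → V} {x : P × W} (_ : ContDiffAt ℝ ∞ F x),
    ContinuousAt (fun q : P × W => iteratedFDeriv ℝ j (fun y => F (q.1, y)) q.2) x := by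
  induction j with
  | zero =>
    intro V _ _ F x h
    have h1 : (fun q : P × W => iteratedFDeriv ℝ 0 (fun y => F (q.1, y)) q.2) =
        fun q => (continuousMultilinearCurryFin0 ℝ W V).symm (F q) := by
      funext q
      rfl
    rw [h1]
    exact (continuousMultilinearCurryFin0 ℝ W V).symm.continuous.continuousAt.comp
      h.continuousAt
  | succ j ih =>
    intro V _ _ F x h
    have h1 := ih (D2a_contDiffAt h)
    have h2 : ∀ᶠ q in 𝓝 x, iteratedFDeriv ℝ j (fderiv ℝ fun y => F (q.1, y)) q.2 =
        iteratedFDeriv ℝ j (fun y => (fderiv ℝ F (q.1, y)) ∘L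
          (ContinuousLinearMap.inr ℝ P W)) q.2 := by
      filter_upwards [(D2a_eventually h).eventually_nhds] with q hq
      have h3 : Tendsto (fun y : W => (q.1, y)) (𝓝 q.2) (𝓝 q) :=
        (Continuous.prodMk_right q.1).tendsto q.2
      have h6 : (fderiv ℝ fun y => F (q.1, y)) =ᶠ[𝓝 q.2] fun y =>
          (fderiv ℝ F (q.1, y)) ∘L (ContinuousLinearMap.inr ℝ P W) := h3.eventually hq
      exact (Filter.EventuallyEq.iteratedFDeriv ℝ h6 j).eq_of_nhds
    have h4 : ContinuousAt (fun q : P × W =>
        iteratedFDeriv ℝ j (fderiv ℝ fun y => F (q.1, y)) q.2) x :=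
      h1.congr (h2.mono fun _ hq => hq.symm)
    have h5 : (fun q : P × W => iteratedFDeriv ℝ (j + 1) (fun y => F (q.1, y)) q.2) =
        fun q => (continuousMultilinearCurryRightEquiv' ℝ j W V).symm
          (iteratedFDeriv ℝ j (fderiv ℝ fun y => F (q.1, y)) q.2) := by
      funext q
      rw [iteratedFDeriv_succ_eq_comp_right]
      rfl
    rw [h5]
    exact (continuousMultilinearCurryRightEquiv' ℝ j W V).symm.continuous.continuousAt.comp h4

/-- `F` is `C^(j+1)` on an open neighbourhood `U` of `(p, z)`; at points of `U`: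
`iteratedFDeriv j (F (p', ·)) z' = (iteratedFDeriv j F (p', z')).compContinuousLinearMap (fun _ => inr)`
(`ContinuousLinearMap.iteratedFDerivWithin_comp_right` for the open set
`{y | (p', 0) + y ∈ U}`, `iteratedFDeriv_comp_add_left`), and `iteratedFDeriv j F` is continuous. -/
theorem slice_iteratedFDeriv_continuousAt {F : P × W → W'} {p : P} {z : W}
    (h : ContDiffAt ℝ ∞ F (p, z)) (j : ℕ) :
    ContinuousAt (fun q : P × W => iteratedFDeriv ℝ j (fun y => F (q.1, y)) q.2) (p, z) :=
  D2a_iter j h

end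

end FB
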