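import Pool.Agent.H.MP_fb873c_an.D2a
import Pool.Agent.H.MP_fb873c_an.D2b

/-!
# Part D2: smooth families are continuous for the `C^∞` topology
-/

namespace FB

open scoped Topology ContDiff Manifold
open Filter

universe u

section

variable {n : ℕ} {M : Type u} [TopologicalSpace M] [ChartedSpace (Er n) M]
  [IsManifold (𝓡 n) ∞ M]
variable {P : Type} [NormedAddCommGroup P] [NormedSpace ℝ P]

/-- Continuity of the derivatives of the local expressions. -/
theorem D2c_cont {F : P → M → M} {x : M} (hF : SmF n F x)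
    {φ ψ : OpenPartialHomeomorph M (Er n)} (hφ : φ ∈ atlas (Er n) M) (hψ : ψ ∈ atlas (Er n) M)
    (hx : x ∈ φ.source) (hFx : F 0 x ∈ ψ.source) (j : ℕ) :
    ContinuousAt (fun q : P × M => iteratedFDeriv ℝ j (ψ ∘ F q.1 ∘ φ.symm) (φ q.2)) (0, x) := by
  have h1 := slice_iteratedFDeriv_continuousAt (smF_chart hF hφ hψ hx hFx) j
  have h2 : ContinuousAt (fun q : P × M => (q.1, φ q.2)) (0, x) :=
    continuousAt_fst.prodMk (ContinuousAt.comp (f := fun q : P × M => q.2) (g := φ)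
      (φ.continuousAt hx) continuousAt_snd)
  exact ContinuousAt.comp (f := fun q : P × M => (q.1, φ q.2))
    (g := fun q : P × Er n => iteratedFDeriv ℝ j (fun y => ψ (F q.1 (φ.symm y))) q.2) h1 h2

/-- Let `g` lie in the generating set `cnbhd k f φ ψ K ε`.  By compactness
(`IsCompact.eventually_forall_of_forall_eventually`) it suffices that for every `x ∈ K` and all `(p, x')` near
`(0, x)`: `H p x' ∈ ψ.source` (continuity) and for every `j ≤ k` the `ε`-inequality at `x'` (at `(0, x)` it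
holds, and both derivatives are continuous at `(0, x)` by `smF_chart` and
`slice_iteratedFDeriv_continuousAt`, composed with `(p, x') ↦ (p, φ x')`). -/
theorem eventually_cnbhd (g : Dif n M) (H : P → Dif n M) (h0 : ∀ x, H 0 x = g x)
    (hH : ∀ x, SmF n (fun p => (H p : M → M)) x) {k : ℕ} {f : Dif n M}
    {φ ψ : OpenPartialHomeomorph M (Er n)} (hφ : φ ∈ atlas (Er n) M) (hψ : ψ ∈ atlas (Er n) M)
    {K : Set M} (hK : IsCompact K) (hKφ : K ⊆ φ.source) (hfK : ∀ x ∈ K, f x ∈ ψ.source) {ε : ℝ}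
    (hg : g ∈ cnbhd k f φ ψ K ε) :
    ∀ᶠ p in 𝓝 (0 : P), H p ∈ cnbhd k f φ ψ K ε := by
  have hH0 : (H 0 : M → M) = (g : M → M) := funext h0
  have key : ∀ᶠ p in 𝓝 (0 : P), ∀ x ∈ K, H p x ∈ ψ.source ∧ ∀ j ≤ k,
      ‖iteratedFDeriv ℝ j (ψ ∘ (H p : M → M) ∘ φ.symm) (φ x) -
        iteratedFDeriv ℝ j (ψ ∘ (f : M → M) ∘ φ.symm) (φ x)‖ < ε := by
    refine hK.eventually_forall_of_forall_eventually fun x hx => ?_
    have hgx : H 0 x ∈ ψ.source := by
      rw [h0]
      exact hg.1 x hx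
    have h1 : ∀ᶠ q : P × M in 𝓝 (0, x), H q.1 q.2 ∈ ψ.source :=
      (hH x).continuousAt.eventually_mem (ψ.open_source.mem_nhds hgx)
    have h2 : ∀ᶠ q : P × M in 𝓝 (0, x), ∀ j ∈ Set.Iic k,
        ‖iteratedFDeriv ℝ j (ψ ∘ (H q.1 : M → M) ∘ φ.symm) (φ q.2) -
          iteratedFDeriv ℝ j (ψ ∘ (f : M → M) ∘ φ.symm) (φ q.2)‖ < ε := by
      rw [Filter.eventually_all_finite (Set.finite_Iic k)]
      intro j hj
      have h3 := D2c_cont (hH x) hφ hψ (hKφ hx) hgx j
      have h4 := D2c_cont (smF_const (P := P) f x) hφ hψ (hKφ hx) (hfK x hx) j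
      have h5 := (h3.sub h4).norm
      have h6 : ‖iteratedFDeriv ℝ j (ψ ∘ (H (0 : P) : M → M) ∘ φ.symm) (φ x) -
          iteratedFDeriv ℝ j (ψ ∘ (f : M → M) ∘ φ.symm) (φ x)‖ < ε := by
        rw [hH0]
        exact hg.2 j hj x hx
      exact h5.eventually_lt_const h6
    filter_upwards [h1, h2] with q hq1 hq2
    exact ⟨hq1, fun j hj => hq2 j hj⟩
  filter_upwards [key] with p hp
  exact ⟨fun x hx => (hp x hx).1, fun j hj x hx => (hp x hx).2 j hj⟩

/-- From `eventually_cnbhd` and `TopologicalSpace.tendsto_nhds_generateFrom_iff`. -/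
theorem eventually_mem_open (g : Dif n M) (H : P → Dif n M) (h0 : ∀ x, H 0 x = g x)
    (hH : ∀ x, SmF n (fun p => (H p : M → M)) x) {O : Set (Dif n M)}
    (hO : IsOpen[crTop n M ⊤] O) (hg : g ∈ O) :
    ∀ᶠ p in 𝓝 (0 : P), H p ∈ O := by
  have h1 : Tendsto H (𝓝 (0 : P)) (@nhds _ (crTop n M ⊤) g) := by
    unfold crTop
    rw [TopologicalSpace.tendsto_nhds_generateFrom_iff]
    rintro s ⟨k, f, φ, ψ, K, ε, -, hφ, hψ, hK, hKφ, hfK, -, rfl⟩ hgs
    exact eventually_cnbhd g H h0 hH hφ hψ hK hKφ hfK hgs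
  letI : TopologicalSpace (Dif n M) := crTop n M ⊤
  exact h1 (hO.mem_nhds hg)

end

end FB
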