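import Pool.Agent.H.MP_fb873c_an.S0

/-!
# Part D: the `C^r` topology is finer than the compact-open topology
-/

namespace FB

open scoped Topology ContDiff Manifold
open Filter

universe u

section

variable {n : ℕ} {M : Type u} [TopologicalSpace M] [ChartedSpace (Er n) M]
  [IsManifold (𝓡 n) ∞ M]

omit [IsManifold (𝓡 n) ∞ M] in
theorem D2d_dist (f g : Er n → Er n) (x : Er n) :
    ‖iteratedFDeriv ℝ 0 f x - iteratedFDeriv ℝ 0 g x‖ = dist (f x) (g x) := by
  rw [iteratedFDeriv_zero_eq_comp, iteratedFDeriv_zero_eq_comp, Function.comp_apply,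
    Function.comp_apply, ← map_sub, LinearIsometryEquiv.norm_map, dist_eq_norm]

omit [IsManifold (𝓡 n) ∞ M] in
theorem D2d_loc (r : ℕ∞) {U : Set M} (hU : IsOpen U) (g : Dif n M) (x : M) (hx : g x ∈ U) :
    ∃ K' ∈ 𝓝 x, ∃ N : Set (Dif n M), IsOpen[crTop n M r] N ∧ g ∈ N ∧
      ∀ g' ∈ N, ∀ y ∈ K', g' y ∈ U := by
  haveI : LocallyCompactSpace M := ChartedSpace.locallyCompactSpace (Er n) M
  set φ := chartAt (Er n) x with hφ
  set ψ := chartAt (Er n) (g x) with hψ
  have hVo : IsOpen (U ∩ ψ.source) := hU.inter ψ.open_source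
  have hWo : IsOpen (φ.source ∩ g ⁻¹' (U ∩ ψ.source)) :=
    φ.open_source.inter (hVo.preimage g.continuous)
  have hxW : x ∈ φ.source ∩ g ⁻¹' (U ∩ ψ.source) :=
    ⟨mem_chart_source (Er n) x, hx, mem_chart_source (Er n) (g x)⟩
  obtain ⟨K', ⟨hK'n, hK'c⟩, hK'W⟩ := (compact_basis_nhds x).mem_iff.1 (hWo.mem_nhds hxW)
  have hgK : ∀ y ∈ K', g y ∈ U ∩ ψ.source := fun y hy => (hK'W hy).2
  have hLc : IsCompact ((fun y => ψ (g y)) '' K') := by
    apply hK'c.image_of_continuousOn
    exact ψ.continuousOn.comp g.continuous.continuousOn (fun y hy => (hgK y hy).2)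
  have hLV : (fun y => ψ (g y)) '' K' ⊆ ψ '' (U ∩ ψ.source) := by
    rintro _ ⟨y, hy, rfl⟩
    exact ⟨g y, hgK y hy, rfl⟩
  have hVi : IsOpen (ψ '' (U ∩ ψ.source)) :=
    ψ.isOpen_image_of_subset_source hVo Set.inter_subset_right
  obtain ⟨δ, hδ, hδs⟩ := hLc.exists_thickening_subset_open hVi hLV
  refine ⟨K', hK'n, cnbhd 0 g φ ψ K' δ, ?_, ?_, ?_⟩
  · apply TopologicalSpace.isOpen_generateFrom_of_mem
    refine ⟨0, g, φ, ψ, K', δ, by simp, chart_mem_atlas _ _, chart_mem_atlas _ _, hK'c,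
      fun y hy => (hK'W hy).1, fun y hy => (hgK y hy).2, hδ, rfl⟩
  · refine ⟨fun y hy => (hgK y hy).2, fun j _ y _ => ?_⟩
    simpa using hδ
  · rintro g' ⟨h1, h2⟩ y hy
    have h3 := h2 0 le_rfl y hy
    rw [D2d_dist] at h3
    have hys : y ∈ φ.source := (hK'W hy).1
    simp only [Function.comp_apply, φ.left_inv hys] at h3
    have h4 : ψ (g' y) ∈ Metric.thickening δ ((fun y => ψ (g y)) '' K') := by
      rw [Metric.mem_thickening_iff]
      exact ⟨ψ (g y), ⟨y, hy, rfl⟩, h3⟩
    obtain ⟨v, hv, hvy⟩ := hδs h4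
    have : v = g' y := ψ.injOn hv.2 (h1 y hy) hvy
    rw [← this]
    exact hv.1

/-- Let `g ∈ Diff`, `g(K) ⊆ U`.  Every `x ∈ K` has a compact neighbourhood `K' ` in the domain of
`φ = chartAt x` (`M` is locally compact, `ChartedSpace.locallyCompactSpace`) with
`g(K') ⊆ V := U ∩ ψ.source`, `ψ = chartAt (g x)`.  The compact set `ψ(g(K'))` has an
`ε`-neighbourhood in the open set `ψ(V)` (`IsCompact.exists_thickening_subset_open`), so all `g'` in
`cnbhd 0 g φ ψ K' ε` map `K'` into `V` (injectivity of `ψ` on its source).  `K` is covered by finitely many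
such `K'`. Use `isOpen_iff_mem_nhds` and `TopologicalSpace.isOpen_generateFrom_of_mem`. -/
theorem isOpen_mapsTo (r : ℕ∞) {K U : Set M} (hK : IsCompact K) (hU : IsOpen U) :
    IsOpen[crTop n M r] {g : Dif n M | ∀ x ∈ K, g x ∈ U} := by
  letI T := crTop n M r
  rw [isOpen_iff_forall_mem_open]
  intro g hg
  have key : ∃ N : Set (Dif n M), IsOpen N ∧ g ∈ N ∧ ∀ g' ∈ N, ∀ y ∈ K, g' y ∈ U := by
    refine hK.induction_on
      (p := fun s => ∃ N : Set (Dif n M), IsOpen N ∧ g ∈ N ∧ ∀ g' ∈ N, ∀ y ∈ s, g' y ∈ U)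
      ?_ ?_ ?_ ?_
    · exact ⟨Set.univ, isOpen_univ, Set.mem_univ _, fun _ _ y hy => hy.elim⟩
    · rintro s t hst ⟨N, h1, h2, h3⟩
      exact ⟨N, h1, h2, fun g' hg' y hy => h3 g' hg' y (hst hy)⟩
    · rintro s t ⟨N, h1, h2, h3⟩ ⟨N', h1', h2', h3'⟩
      refine ⟨N ∩ N', h1.inter h1', ⟨h2, h2'⟩, fun g' hg' y hy => ?_⟩
      rcases hy with hy | hy
      · exact h3 g' hg'.1 y hy
      · exact h3' g' hg'.2 y hy
    · intro x hx
      obtain ⟨K', hK', N, h1, h2, h3⟩ := D2d_loc r hU g x (hg x hx)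
      exact ⟨K', mem_nhdsWithin_of_mem_nhds hK', N, h1, h2, h3⟩
  obtain ⟨N, h1, h2, h3⟩ := key
  exact ⟨N, fun g' hg' => h3 g' hg', h1, h2⟩

/-- The iterates of a continuous map. -/
def D2d_iter {X : Type u} [TopologicalSpace X] (f : C(X, X)) : ℕ → C(X, X)
  | 0 => ContinuousMap.id X
  | i + 1 => (D2d_iter f i).comp f

theorem D2d_iter_coe {X : Type u} [TopologicalSpace X] (f : C(X, X)) (i : ℕ) (x : X) :
    D2d_iter f i x = (f : X → X)^[i] x := by
  induction i generalizing x with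
  | zero => rfl
  | succ i ih =>
    rw [Function.iterate_succ_apply]
    exact ih (f x)

theorem D2d_iter_cont {X : Type u} [TopologicalSpace X] [LocallyCompactSpace X] (i : ℕ) :
    Continuous (fun f : C(X, X) => D2d_iter f i) := by
  induction i with
  | zero => exact continuous_const
  | succ i ih => exact ih.compCM continuous_id

/-- The map `Dif n M → C(M, M)` is continuous (`isOpen_mapsTo`, `ContinuousMap.continuous_compactOpen`),
the iterates are continuous on `C(M, M)` (composition is continuous as `M` is locally compact,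
`ContinuousMap.continuous_comp'`), so the set is the preimage of an open set
(`ContinuousMap.isOpen_setOf_mapsTo`). -/
theorem isOpen_mapsTo_iterate [CompactSpace M] [T2Space M] (r : ℕ∞) (i : ℕ) {K U : Set M}
    (hK : IsCompact K) (hU : IsOpen U) :
    IsOpen[crTop n M r] {g : Dif n M | ∀ x ∈ K, (g : M → M)^[i] x ∈ U} := by
  haveI : LocallyCompactSpace M := ChartedSpace.locallyCompactSpace (Er n) M
  letI T := crTop n M r
  have hF : Continuous (fun g : Dif n M => (⟨g, g.continuous⟩ : C(M, M))) := by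
    rw [ContinuousMap.continuous_compactOpen]
    intro K' hK' U' hU'
    exact isOpen_mapsTo r hK' hU'
  have h := (ContinuousMap.isOpen_setOf_mapsTo hK hU).preimage ((D2d_iter_cont i).comp hF)
  convert h using 1
  ext g
  simp only [Set.mem_setOf_eq, Set.mem_preimage, Function.comp_apply, Set.MapsTo]
  constructor
  · intro hg x hx
    rw [D2d_iter_coe]
    exact hg x hx
  · intro hg x hx
    have := hg hx
    rw [D2d_iter_coe] at this
    exact this

end

end FB
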