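import Mathlib

/-!
# Part D2: small perturbations of the identity of a vector space
-/

namespace FB

open scoped Topology ContDiff Manifold
open Filter

section

variable {P W : Type} [NormedAddCommGroup P] [NormedSpace ℝ P]
  [NormedAddCommGroup W] [NormedSpace ℝ W] [FiniteDimensional ℝ W]

/-- `D_z w(0, z) = 0`, the derivative is continuous, `K` is compact, outside of `K` it vanishes:
uniform smallness. (`IsCompact.eventually_forall_of_forall_eventually`.) -/
theorem eventually_small {K : Set W} (hK : IsCompact K) (w : P → W → W)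
    (hw : ContDiff ℝ ∞ (fun q : P × W => w q.1 q.2)) (h0 : ∀ z, w 0 z = 0)
    (hs : ∀ p, ∀ z ∉ K, w p z = 0) :
    ∀ᶠ p in 𝓝 (0 : P), ∀ z, ‖fderiv ℝ (w p) z‖ ≤ 1 / 2 := by
  have hunc : ContDiff ℝ ∞ (Function.uncurry (fun (q : P × W) (z : W) => w q.1 z)) := by
    have h1 : ContDiff ℝ ∞ (fun r : (P × W) × W => ((r.1.1, r.2) : P × W)) :=
      (contDiff_fst.comp contDiff_fst).prodMk contDiff_snd
    exact hw.comp h1
  have hc : Continuous (fun q : P × W => fderiv ℝ (w q.1) q.2) :=
    (ContDiff.fderiv (n := 0) hunc contDiff_snd (by simp)).continuous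
  have hz0 : w 0 = fun _ => 0 := funext h0
  have h1 : ∀ᶠ p in 𝓝 (0 : P), ∀ z ∈ K, ‖fderiv ℝ (w p) z‖ ≤ 1 / 2 := by
    refine hK.eventually_forall_of_forall_eventually
      (P := fun p z => ‖fderiv ℝ (w p) z‖ ≤ 1 / 2) ?_
    intro z _
    have h2 : ContinuousAt (fun q : P × W => ‖fderiv ℝ (w q.1) q.2‖) (0, z) :=
      hc.norm.continuousAt
    have h3 : ‖fderiv ℝ (w (0, z).1) (0, z).2‖ < 1 / 2 := by
      simp only
      rw [hz0]
      simp
    exact (h2.eventually_lt_const h3).mono fun q hq => hq.le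
  refine h1.mono fun p hp z => ?_
  by_cases hz : z ∈ K
  · exact hp z hz
  · have h2 : w p =ᶠ[𝓝 z] fun _ => 0 := by
      filter_upwards [hK.isClosed.isOpen_compl.mem_nhds hz] with y hy
      exact hs p y hy
    rw [h2.fderiv_eq]
    simp

/-- `z ↦ z + w z` is a diffeomorphism if `‖Dw‖ ≤ 1/2`: `w` is Lipschitz with constant `1/2`
(`lipschitzWith_of_nnnorm_fderiv_le`), so `id + w` approximates the identity linearly
(`ApproximatesLinearOn.toHomeomorph`); its derivative `1 + Dw` is invertible, so the inverse is smooth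
(`Homeomorph.contDiff_symm` or `OpenPartialHomeomorph.contDiffAt_symm`). -/
theorem exists_equiv (w : W → W) (hw : ContDiff ℝ ∞ w) (hb : ∀ z, ‖fderiv ℝ w z‖ ≤ 1 / 2) :
    ∃ σ : W ≃ W, ContDiff ℝ ∞ σ ∧ ContDiff ℝ ∞ σ.symm ∧ ∀ z, σ z = z + w z := by
  have : CompleteSpace W := FiniteDimensional.complete ℝ W
  have hd : Differentiable ℝ w := hw.differentiable (by simp)
  have hlip : LipschitzWith (1 / 2 : NNReal) w := by
    refine lipschitzWith_of_nnnorm_fderiv_le hd fun z => ?_
    rw [← NNReal.coe_le_coe, coe_nnnorm]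
    simpa using hb z
  set f : W → W := fun z => z + w z with hf
  have hfc : ContDiff ℝ ∞ f := contDiff_id.add hw
  have hal : ApproximatesLinearOn f ((ContinuousLinearEquiv.refl ℝ W : W ≃L[ℝ] W) : W →L[ℝ] W)
      Set.univ (1 / 2 : NNReal) := by
    intro x _ y _
    have h1 := hlip.dist_le_mul x y
    rw [dist_eq_norm, dist_eq_norm] at h1
    refine le_trans (le_of_eq ?_) h1
    congr 1
    simp only [hf, ContinuousLinearEquiv.coe_refl, ContinuousLinearMap.coe_id', id_eq]
    abel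
  have hcc : Subsingleton W ∨ (1 / 2 : NNReal) <
      ‖(((ContinuousLinearEquiv.refl ℝ W).symm : W ≃L[ℝ] W) : W →L[ℝ] W)‖₊⁻¹ := by
    rcases subsingleton_or_nontrivial W with h | h
    · exact Or.inl h
    · right
      rw [ContinuousLinearEquiv.refl_symm, ContinuousLinearEquiv.coe_refl,
        ContinuousLinearMap.nnnorm_id, inv_one, ← NNReal.coe_lt_coe]
      norm_num
  set H : W ≃ₜ W := hal.toHomeomorph f hcc with hH
  have hHf : ∀ z, H z = f z := fun z => rfl
  have hnorm : ∀ z, ‖-fderiv ℝ w z‖ < 1 := by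
    intro z
    rw [norm_neg]
    linarith [hb z]
  refine ⟨H.toEquiv, hfc, ?_, fun z => rfl⟩
  refine Homeomorph.contDiff_symm H
    (f₀' := fun z => ContinuousLinearEquiv.unitsEquiv ℝ W (Units.oneSub (-fderiv ℝ w z) (hnorm z)))
    ?_ hfc
  intro z
  have h1 : HasFDerivAt f (ContinuousLinearMap.id ℝ W + fderiv ℝ w z) z :=
    (hasFDerivAt_id z).add (hd z).hasFDerivAt
  have h2 : ((ContinuousLinearEquiv.unitsEquiv ℝ W
      (Units.oneSub (-fderiv ℝ w z) (hnorm z)) : W ≃L[ℝ] W) : W →L[ℝ] W) =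
      ContinuousLinearMap.id ℝ W + fderiv ℝ w z := by
    ext v
    change ((1 : W →L[ℝ] W) - -fderiv ℝ w z) v = (ContinuousLinearMap.id ℝ W + fderiv ℝ w z) v
    rw [sub_neg_eq_add]
    rfl
  rw [h2]
  exact h1

end

end FB
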