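import Mathlib

/-!
# Part D2: fixed points in smooth families, vector space version
-/

namespace FB

open scoped Topology ContDiff Manifold
open Filter

section

variable {P : Type} [NormedAddCommGroup P] [NormedSpace ℝ P]

/-- A block triangular continuous linear equivalence. -/
noncomputable def D2h1_equiv {W : Type} [NormedAddCommGroup W] [NormedSpace ℝ W]
    (A : P →L[ℝ] W) (B : W ≃L[ℝ] W) : (P × W) ≃L[ℝ] (P × W) :=
  ContinuousLinearEquiv.equivOfInverse
    ((ContinuousLinearMap.fst ℝ P W).prod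
      (A.comp (ContinuousLinearMap.fst ℝ P W) +
        (B : W →L[ℝ] W).comp (ContinuousLinearMap.snd ℝ P W)))
    ((ContinuousLinearMap.fst ℝ P W).prod
      ((B.symm : W →L[ℝ] W).comp (ContinuousLinearMap.snd ℝ P W -
        A.comp (ContinuousLinearMap.fst ℝ P W))))
    (fun x => by
      refine Prod.ext rfl ?_
      simp)
    (fun x => by
      refine Prod.ext rfl ?_
      simp)

/-- (Vector space version.) Let `F : P × W → W` be smooth at `(0, z0)`, `F (0, z0) = z0`,
`D_z F (0, z0) - 1` invertible.  Then `Φ (p, z) = (p, F (p, z) - z)` has a strict derivative at `(0, z0)` which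
is a bijective linear map, so `Φ` is locally injective and maps neighbourhoods onto neighbourhoods
(`HasStrictFDerivAt.map_nhds_eq_of_equiv`, `HasStrictFDerivAt.toOpenPartialHomeomorph`). -/
theorem local_structure [CompleteSpace P] {W : Type} [NormedAddCommGroup W] [NormedSpace ℝ W]
    [FiniteDimensional ℝ W] {F : P × W → W} {z0 : W} (h : ContDiffAt ℝ ∞ F (0, z0))
    (hz : F (0, z0) = z0)
    (hd : LinearMap.det ((fderiv ℝ (fun z => F (0, z)) z0
      - ContinuousLinearMap.id ℝ W : W →L[ℝ] W)).toLinearMap ≠ 0) :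
    (∀ N ∈ 𝓝 ((0 : P), z0), ∀ᶠ p in 𝓝 (0 : P), ∃ z, (p, z) ∈ N ∧ F (p, z) = z) ∧
    ∃ N ∈ 𝓝 ((0 : P), z0), ∀ p z z', (p, z) ∈ N → (p, z') ∈ N → F (p, z) = z → F (p, z') = z' →
      z = z' := by
  haveI : CompleteSpace W := FiniteDimensional.complete ℝ W
  obtain ⟨A, hA⟩ : ∃ A, A = fderiv ℝ F (0, z0) := ⟨_, rfl⟩
  have hF : HasStrictFDerivAt F A ((0 : P), z0) := by
    rw [hA]
    exact h.hasStrictFDerivAt (by simp)
  have hA2 : fderiv ℝ (fun z => F (0, z)) z0 = A.comp (ContinuousLinearMap.inr ℝ P W) :=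
    (hF.hasFDerivAt.comp z0 (hasFDerivAt_prodMk_right (0 : P) z0)).fderiv
  rw [hA2] at hd
  obtain ⟨B, hB⟩ : ∃ B : W ≃L[ℝ] W, (B : W →L[ℝ] W) =
      A.comp (ContinuousLinearMap.inr ℝ P W) - ContinuousLinearMap.id ℝ W :=
    ⟨ContinuousLinearMap.toContinuousLinearEquivOfDetNeZero _ hd, by
      simp⟩
  obtain ⟨Φ, hΦdef⟩ : ∃ Φ : P × W → P × W, Φ = fun q => (q.1, F q - q.2) := ⟨_, rfl⟩
  have hΦ : HasStrictFDerivAt Φ
      ((D2h1_equiv (A.comp (ContinuousLinearMap.inl ℝ P W)) B : (P × W) ≃L[ℝ] (P × W)) :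
        (P × W) →L[ℝ] (P × W)) ((0 : P), z0) := by
    have h1 : HasStrictFDerivAt Φ ((ContinuousLinearMap.fst ℝ P W).prod
        (A - ContinuousLinearMap.snd ℝ P W)) ((0 : P), z0) := by
      rw [hΦdef]
      exact hasStrictFDerivAt_fst.prodMk (hF.sub hasStrictFDerivAt_snd)
    have h2 : ((D2h1_equiv (A.comp (ContinuousLinearMap.inl ℝ P W)) B : (P × W) ≃L[ℝ] (P × W)) :
        (P × W) →L[ℝ] (P × W)) = (ContinuousLinearMap.fst ℝ P W).prod
        (A - ContinuousLinearMap.snd ℝ P W) := by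
      apply ContinuousLinearMap.ext
      rintro ⟨u, w⟩
      refine Prod.ext rfl ?_
      show A (u, 0) + B w = A (u, w) - w
      have h3 : B w = A (0, w) - w := by
        have := congrArg (fun f : W →L[ℝ] W => f w) hB
        simpa using this
      rw [h3, ← add_sub_assoc, ← map_add]
      simp
    rw [h2]
    exact h1
  have hΦ0 : Φ ((0 : P), z0) = (0, 0) := by
    rw [hΦdef]
    simp [hz]
  constructor
  · intro N hN
    have h1 : map Φ (𝓝 ((0 : P), z0)) = 𝓝 (Φ ((0 : P), z0)) := hΦ.map_nhds_eq_of_equiv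
    have h2 : Φ '' N ∈ 𝓝 ((0 : P), (0 : W)) := by
      rw [← hΦ0, ← h1]
      exact image_mem_map hN
    have h3 : Tendsto (fun p : P => (p, (0 : W))) (𝓝 0) (𝓝 (0, 0)) :=
      (continuous_id.prodMk continuous_const).tendsto' _ _ rfl
    filter_upwards [h3 h2] with p hp
    obtain ⟨⟨p', z⟩, hN', hΦp⟩ := hp
    rw [hΦdef] at hΦp
    obtain ⟨e1, e2⟩ := Prod.mk.inj hΦp
    simp only at e1 e2
    subst e1
    exact ⟨z, hN', sub_eq_zero.1 e2⟩
  · refine ⟨(hΦ.toOpenPartialHomeomorph Φ).source,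
      (hΦ.toOpenPartialHomeomorph Φ).open_source.mem_nhds
        hΦ.mem_toOpenPartialHomeomorph_source, ?_⟩
    intro p z z' h1 h2 h3 h4
    have h5 := (hΦ.toOpenPartialHomeomorph Φ).injOn h1 h2 (by
      show Φ (p, z) = Φ (p, z')
      rw [hΦdef]
      simp [h3, h4])
    exact (Prod.mk.inj h5).2

end

end FB
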