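import Pool.Agent.H.MP_fb873c_an.D2b
import Pool.Agent.H.MP_fb873c_an.D2g
import Pool.Agent.H.MP_fb873c_an.D2i

/-!
# Part D2: changing the derivative at a periodic point
-/

namespace FB

open scoped Topology ContDiff Manifold
open Filter

universe u

section

variable {n : ℕ} {M : Type u} [TopologicalSpace M] [ChartedSpace (Er n) M]
  [IsManifold (𝓡 n) ∞ M] [T2Space M]

/-- Take the ball of radius `r` of `exists_ball`, `K` the closed ball, `S = φ⁻¹(K)`, a `ContDiffBump` `β`
with center `φ p` and radii `r/2, r`, `w s z = s β(z) B(z - φ p)`, `h s` from `exists_family`,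
`H s = (h s).trans g`, i.e. `H s x = g (h s x)` (`smF_comp`, `smF_const`).  For small `s` and `z` near `φ p`
(in the ball of radius `r/2`) `iterate_supp` gives `(H s)^[k] (φ⁻¹ z) = g^[k] (φ⁻¹ (z + s B (z - φ p)))`; chain
rule. -/
theorem exists_pert {k : ℕ} (hk : 0 < k) (g : Dif n M) {p : M} (hp : (g : M → M)^[k] p = p)
    (hmin : ∀ i, 0 < i → i < k → (g : M → M)^[i] p ≠ p)
    {φ : OpenPartialHomeomorph M (Er n)} (hφ : φ ∈ atlas (Er n) M) (hpφ : p ∈ φ.source)
    {V : Set M} (hV : V ∈ 𝓝 p) (B : Er n →L[ℝ] Er n) :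
    ∃ H : ℝ → Dif n M, (∀ x, SmF n (fun s => (H s : M → M)) x) ∧ (∀ x, H 0 x = g x) ∧
      ∃ S : Set M, IsCompact S ∧ S ⊆ V ∧ (∀ s, ∀ x ∉ S, H s x = g x) ∧
        ∀ᶠ s in 𝓝 (0 : ℝ), H s p = g p ∧
          fderiv ℝ (φ ∘ (H s : M → M)^[k] ∘ φ.symm) (φ p) =
            (fderiv ℝ (φ ∘ (g : M → M)^[k] ∘ φ.symm) (φ p)) ∘L
              (ContinuousLinearMap.id ℝ (Er n) + s • B) := by
  obtain ⟨r, hr, hrφ, hrV, hd⟩ := exists_ball (g := (g : M → M)) g.continuous hmin hpφ hV
  let β : ContDiffBump (φ p) := ⟨r / 2, r, half_pos hr, half_lt_self hr⟩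
  let w : ℝ → Er n → Er n := fun s z => (s * β z) • B (z - φ p)
  have hw : ContDiff ℝ ∞ (fun q : ℝ × Er n => w q.1 q.2) := by
    refine ContDiff.smul (contDiff_fst.mul (β.contDiff.comp contDiff_snd)) ?_
    exact B.contDiff.comp (contDiff_snd.sub contDiff_const)
  have hw0 : ∀ z, w 0 z = 0 := fun z => by simp [w]
  have hws : ∀ s, ∀ z ∉ Metric.closedBall (φ p) r, w s z = 0 := by
    intro s z hz
    have h1 : β z = 0 := by
      apply β.zero_of_le_dist
      rw [Metric.mem_closedBall, not_le] at hz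
      exact hz.le
    simp [w, h1]
  have hwp : ∀ s, w s (φ p) = 0 := fun s => by simp [w]
  have hw1 : ∀ s, ∀ z ∈ Metric.ball (φ p) (r / 2), w s z = s • B (z - φ p) := by
    intro s z hz
    have h1 : β z = 1 := β.one_of_mem_closedBall (Metric.ball_subset_closedBall hz)
    simp [w, h1]
  obtain ⟨h, hsm, h0, hoff, hon⟩ := exists_family hφ (isCompact_closedBall (φ p) r) hrφ w hw hw0
    hws
  refine ⟨fun s => (h s).trans g, fun x => ?_, fun x => ?_, φ.symm '' Metric.closedBall (φ p) r,
    (isCompact_closedBall (φ p) r).image_of_continuousOn (φ.continuousOn_symm.mono hrφ), hrV,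
    fun s x hx => ?_, ?_⟩
  · exact smF_comp (F := fun s => (h s : M → M)) (G := fun _ => (g : M → M)) (hsm x)
      (smF_const g _)
  · show g (h 0 x) = g x
    rw [h0]
  · show g (h s x) = g x
    rw [hoff s x hx]
  · filter_upwards [hon] with s hs
    have hp1 : h s p = p := by
      have h1 := (hs (φ p) (Metric.mem_closedBall_self hr.le)).2
      rwa [hwp, add_zero, φ.left_inv hpφ] at h1
    refine ⟨?_, ?_⟩
    · show g (h s p) = g p
      rw [hp1]
    · obtain ⟨F, hF⟩ : ∃ F : Er n → Er n, F = φ ∘ (g : M → M)^[k] ∘ φ.symm := ⟨_, rfl⟩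
      have hFd : DifferentiableAt ℝ F (φ p) := by
        have h1 := smF_iterate (P := ℝ) (F := fun _ => (g : M → M)) (fun x => smF_const g x) k p
        have h2 := smF_chart h1 hφ hφ hpφ (by rw [hp]; exact hpφ)
        have h3 : ContDiffAt ℝ ∞ (fun z : Er n => ((0 : ℝ), z)) (φ p) := by fun_prop
        have h4 := ContDiffAt.comp (φ p) (f := fun z : Er n => ((0 : ℝ), z)) h2 h3
        rw [hF]
        exact h4.differentiableAt (by simp)
      have hev : φ ∘ ((h s).trans g : M → M)^[k] ∘ φ.symm =ᶠ[𝓝 (φ p)]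
          fun z => F (z + s • B (z - φ p)) := by
        filter_upwards [Metric.ball_mem_nhds (φ p) (half_pos hr)] with z hz
        have hzK : z ∈ Metric.closedBall (φ p) r :=
          Metric.closedBall_subset_closedBall (by linarith) (Metric.ball_subset_closedBall hz)
        have h1 := iterate_supp (g := (g : M → M)) (h := (h s : M → M))
          (B := φ.symm '' Metric.closedBall (φ p) r) (fun x hx => hoff s x hx) (by
            rintro x ⟨y, hy, rfl⟩
            rw [(hs y hy).2]
            exact ⟨_, (hs y hy).1, rfl⟩) hd hk le_rfl (x := φ.symm z) ⟨z, hzK, rfl⟩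
        rw [(hs z hzK).2, hw1 s z hz] at h1
        rw [hF]
        show φ (((h s).trans g : M → M)^[k] (φ.symm z)) = _
        exact congrArg φ h1
      rw [hev.fderiv_eq, ← hF]
      have hA : HasFDerivAt (fun z : Er n => z + s • B (z - φ p))
          (ContinuousLinearMap.id ℝ (Er n) + s • B) (φ p) := by
        have h1 : HasFDerivAt (fun z : Er n => z - φ p) (ContinuousLinearMap.id ℝ (Er n)) (φ p) :=
          (hasFDerivAt_id _).sub_const _
        have h2 : HasFDerivAt (fun z : Er n => B (z - φ p)) B (φ p) := by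
          have := B.hasFDerivAt.comp (φ p) h1
          rwa [ContinuousLinearMap.comp_id] at this
        exact (hasFDerivAt_id _).add (h2.const_smul s)
      have hA0 : φ p + s • B (φ p - φ p) = φ p := by simp
      have hF1 : HasFDerivAt F (fderiv ℝ F (φ p)) (φ p + s • B (φ p - φ p)) := by
        rw [hA0]
        exact hFd.hasFDerivAt
      exact (hF1.comp (φ p) hA).fderiv

end

end FB
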