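import Pool.Agent.H.MP_fb873c_an.D2c
import Pool.Agent.H.MP_fb873c_an.D2j
import Pool.Agent.H.MP_fb873c_an.DF2

/-!
# Part D2, step 1: make a periodic point nondegenerate
-/

namespace FB

open scoped Topology ContDiff Manifold
open Filter

universe u

section

variable {n : ℕ} {M : Type u} [TopologicalSpace M] [ChartedSpace (Er n) M]
  [IsManifold (𝓡 n) ∞ M] [T2Space M]

/-- `exists_pert` with `φ = chartAt p`, `B = 1`, `V = univ`: the derivative of `(H s)^k` at `p` is
`(1 + s) A`.  By `eventually_det_ne` and `eventually_mem_open` a small `s ≠ 0` is good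
(`𝓝[≠] 0` is not the trivial filter); `(H s)^[k] p = p` since `H s p = g p`, the other points of the orbit...
more simply: `(H s)^[i] p = g^[i] p` for all `i ≤ k` by induction, as `g^[i] p ∉ S` or `g^[i] p = p` ; choose
`V` to be a neighbourhood of `p` containing no `g^[i] p`, `0 < i < k`. -/
theorem exists_ndg {k : ℕ} (hk : 0 < k) (g : Dif n M) {p : M} (hp : (g : M → M)^[k] p = p)
    (hmin : ∀ i, 0 < i → i < k → (g : M → M)^[i] p ≠ p)
    {O : Set (Dif n M)} (hO : IsOpen[crTop n M ⊤] O) (hg : g ∈ O) :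
    ∃ g' ∈ O, (g' : M → M)^[k] p = p ∧ Ndg (n := n) ((g' : M → M)^[k]) p := by
  classical
  have hV : {x : M | ∀ i, 0 < i → i < k → x ≠ (g : M → M)^[i] p} ∈ 𝓝 p := by
    have h1 : ∀ᶠ x in 𝓝 p, ∀ i ∈ Finset.range k, 0 < i → x ≠ (g : M → M)^[i] p := by
      rw [Filter.eventually_all_finset]
      intro i hi
      by_cases h0 : 0 < i
      · have h2 : {x : M | x ≠ (g : M → M)^[i] p} ∈ 𝓝 p :=
          isOpen_ne.mem_nhds (hmin i h0 (Finset.mem_range.1 hi)).symm
        filter_upwards [h2] with x hx _ using hx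
      · exact Filter.Eventually.of_forall fun x h => absurd h h0
    filter_upwards [h1] with x hx i h0 hi using hx i (Finset.mem_range.2 hi) h0
  obtain ⟨H, hHs, hH0, S, -, hSV, hoff, hev⟩ := exists_pert hk g hp hmin
    (chart_mem_atlas (Er n) p) (mem_chart_source (Er n) p) hV (ContinuousLinearMap.id ℝ (Er n))
  have hdet := eventually_det_ne
    (fderiv ℝ (chartAt (Er n) p ∘ (g : M → M)^[k] ∘ (chartAt (Er n) p).symm)
      (chartAt (Er n) p p)).toLinearMap
  have hopen := eventually_mem_open g H hH0 hHs hO hg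
  have hall := ((hev.and hopen).filter_mono nhdsWithin_le_nhds).and hdet
  obtain ⟨s, ⟨⟨hs1, hs2⟩, hs3⟩, hs4⟩ := hall.exists
  refine ⟨H s, hs3, ?_, ?_⟩
  · have key : ∀ i, i ≤ k → (H s : M → M)^[i] p = (g : M → M)^[i] p := by
      intro i
      induction i with
      | zero => intro _; rfl
      | succ i ih =>
        intro hi
        rw [Function.iterate_succ_apply', Function.iterate_succ_apply', ih (by omega)]
        rcases Nat.eq_zero_or_pos i with h0 | h0
        · subst h0
          exact hs1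
        · exact hoff s _ fun hmem => hSV hmem i h0 (by omega) rfl
    rw [key k le_rfl, hp]
  · unfold Ndg dfix
    have e : (fderiv ℝ (chartAt (Er n) p ∘ (H s : M → M)^[k] ∘ (chartAt (Er n) p).symm)
        (chartAt (Er n) p p) - ContinuousLinearMap.id ℝ (Er n) : Er n →L[ℝ] Er n).toLinearMap =
        (1 + s) • (fderiv ℝ (chartAt (Er n) p ∘ (g : M → M)^[k] ∘ (chartAt (Er n) p).symm)
          (chartAt (Er n) p p)).toLinearMap - 1 := by
      rw [hs2]
      ext1 x
      simp [add_smul]
    rw [e]
    exact hs4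

end

end FB
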