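import Pool.Agent.H.MP_fb873c_an.D2h2
import Pool.Agent.H.MP_fb873c_an.D4a

/-!
# Part D4c: from steps near a point to the whole manifold
-/

namespace FB

open scoped Topology ContDiff Manifold
open Filter

universe u

section

variable {n : ℕ} {M : Type u} [TopologicalSpace M] [ChartedSpace (Er n) M]
  [IsManifold (𝓡 n) ∞ M] [CompactSpace M] [T2Space M]

/-- Copy of the proof of `step2` (file D2l): finitely many `t x` cover `M`, finite induction. -/
theorem cover_step {k : ℕ} (g0 : Dif n M)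
    (hloc : ∀ x0 : M, ∃ t ∈ 𝓝 x0, IsCompact t ∧ ∃ O1 : Set (Dif n M), IsOpen[crTop n M ⊤] O1 ∧
      g0 ∈ O1 ∧ ∀ g ∈ O1, ∀ L, IsCompact L → NdL k L g → ∀ O2 : Set (Dif n M),
        IsOpen[crTop n M ⊤] O2 → g ∈ O2 → ∃ g' ∈ O2, NdL k (L ∪ t) g')
    {O : Set (Dif n M)} (hO : IsOpen[crTop n M ⊤] O) (hg : g0 ∈ O) :
    ∃ g ∈ O, NdL k Set.univ g := by
  choose t htn htc O1 hO1 hg1 hstep using hloc
  obtain ⟨s, -, hs⟩ := isCompact_univ.elim_nhds_subcover t fun x _ => htn x
  letI T := crTop n M ⊤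
  set O' : Set (Dif n M) := O ∩ ⋂ x ∈ s, O1 x with hO'
  have hO'o : IsOpen O' := IsOpen.inter hO (isOpen_biInter_finset fun x _ => hO1 x)
  have hgO' : g0 ∈ O' := ⟨hg, Set.mem_iInter₂.2 fun x _ => hg1 x⟩
  have key : ∀ s' : Finset M, s' ⊆ s → ∃ g ∈ O', NdL k (⋃ x ∈ s', t x) g := by
    classical
    intro s'
    induction s' using Finset.induction_on with
    | empty =>
      intro _
      refine ⟨g0, hgO', fun x hx => ?_⟩
      simp at hx
    | insert a s' ha ih =>
      intro hsub
      obtain ⟨g, hgO, hgst⟩ := ih ((Finset.subset_insert a s').trans hsub)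
      have has : a ∈ s := hsub (Finset.mem_insert_self a s')
      have hga : g ∈ O1 a := Set.mem_iInter₂.1 hgO.2 a has
      obtain ⟨g', hg'O, hg'st⟩ := hstep a g hga (⋃ x ∈ s', t x)
        (s'.isCompact_biUnion fun x _ => htc x) hgst O' hO'o hgO
      refine ⟨g', hg'O, ?_⟩
      rw [Finset.set_biUnion_insert, Set.union_comm]
      exact hg'st
  obtain ⟨g, hgO, hgst⟩ := key s subset_rfl
  exact ⟨g, hgO.1, fun x _ => hgst x (hs (Set.mem_univ x))⟩

/-- A point which is not a degenerate fixed point of `g^k` has a compact neighbourhood `t` with `NdL k t g`.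
If `g^k x0 = x0`: `ndg_near` (file D2h2) for the constant family `F = fun _ : ℝ => g^k` (`contMDiff_iterate`, `smF_const`,
`smF_iterate`), restricted to `{0} × M`; if `g^k x0 ≠ x0` there are no fixed points near `x0` (continuity, `T2`).
Compact neighbourhood: `ChartedSpace.locallyCompactSpace (Er n) M`, `compact_basis_nhds`. -/
theorem exists_ndl_nhd {k : ℕ} (g : Dif n M) (x0 : M)
    (h : (g : M → M)^[k] x0 = x0 → Ndg (n := n) ((g : M → M)^[k]) x0) :
    ∃ t ∈ 𝓝 x0, IsCompact t ∧ NdL k t g := by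
  have hcont : Continuous ((g : M → M)^[k]) := g.continuous.iterate k
  have h1 : ∀ᶠ y in 𝓝 x0, (g : M → M)^[k] y = y → Ndg (n := n) ((g : M → M)^[k]) y := by
    by_cases hx : (g : M → M)^[k] x0 = x0
    · have hF : ∀ _ : ℝ, ContMDiff (𝓡 n) (𝓡 n) ∞ ((g : M → M)^[k]) := fun _ =>
        contMDiff_iterate g k
      have hS : SmF n (fun _ : ℝ => (g : M → M)^[k]) x0 :=
        smF_iterate (F := fun _ : ℝ => (g : M → M)) (fun x => smF_const g x) k x0
      have h2 := ndg_near (P := ℝ) (F := fun _ => (g : M → M)^[k]) hF hS hx (h hx)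
      have h3 : Tendsto (fun y : M => ((0 : ℝ), y)) (𝓝 x0) (𝓝 (0, x0)) :=
        (continuous_const.prodMk continuous_id).continuousAt
      exact h3.eventually h2
    · have h2 : ∀ᶠ y in 𝓝 x0, (g : M → M)^[k] y ≠ y :=
        (hcont.continuousAt.prodMk continuousAt_id).eventually
          (isClosed_diagonal.isOpen_compl.mem_nhds hx)
      filter_upwards [h2] with y hy hfix
      exact absurd hfix hy
  have : LocallyCompactSpace M := ChartedSpace.locallyCompactSpace (Er n) M
  obtain ⟨t, ⟨ht, htc⟩, hts⟩ := (compact_basis_nhds x0).mem_iff.1 h1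
  exact ⟨t, ht, htc, fun y hy => hts hy⟩

end

end FB
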