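import Pool.Agent.H.MP_fb873c_an.D4b
import Pool.Agent.H.MP_fb873c_an.D4c
import Pool.Agent.H.MP_fb873c_an.D4e

/-!
# Part D4f: all periodic points of period `≤ N` nondegenerate (Kupka-Smale, bounded periods)
-/

namespace FB

open scoped Topology ContDiff Manifold
open Filter

universe u

section

variable {n : ℕ} {M : Type u} [TopologicalSpace M] [ChartedSpace (Er n) M]
  [IsManifold (𝓡 n) ∞ M] [CompactSpace M] [T2Space M]

/-- Induction on `N`; `N = 0`: `g = f`.  Step: `g0 ∈ O` with the property for `N`; `no_bad` gives `g1 ∈ O`.  Apply `cover_step` to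
`k = N + 1`, `g1` and the open set `O ∩ {g | ∀ k, 0 < k → k ≤ N → NdL k univ g}` (`isOpen_ks`).  Local condition at
`x0`: if `g1^i x0 ≠ x0` for `0 < i < N + 1`, `ndl_local`; otherwise `g1^(N+1) x0 = x0` implies
nondegenerate, `exists_ndl_nhd` gives `t`, and `O1 = {g | NdL (N+1) t g}` is open (`isOpen_ndl`), for
`g ∈ O1` take `g' = g`. -/
theorem kupka_smale (N : ℕ) {O : Set (Dif n M)} (hO : IsOpen[crTop n M ⊤] O) {f : Dif n M}
    (hf : f ∈ O) : ∃ g ∈ O, ∀ k, 0 < k → k ≤ N → NdL k Set.univ g := by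
  induction N with
  | zero => exact ⟨f, hf, fun k hk hk0 => absurd hk (by omega)⟩
  | succ N ih =>
    obtain ⟨g0, hg0, hnd0⟩ := ih
    obtain ⟨g1, hg1, hnd1, hbad⟩ := no_bad hnd0 hO hg0
    have hO' : IsOpen[crTop n M ⊤]
        (O ∩ {g : Dif n M | ∀ k, 0 < k → k ≤ N → NdL k Set.univ g}) := by
      letI T := crTop n M ⊤
      exact IsOpen.inter hO (isOpen_ks N)
    have hloc : ∀ x0 : M, ∃ t ∈ 𝓝 x0, IsCompact t ∧ ∃ O1 : Set (Dif n M),
        IsOpen[crTop n M ⊤] O1 ∧ g1 ∈ O1 ∧ ∀ g ∈ O1, ∀ L, IsCompact L → NdL (N + 1) L g →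
          ∀ O2 : Set (Dif n M), IsOpen[crTop n M ⊤] O2 → g ∈ O2 →
            ∃ g' ∈ O2, NdL (N + 1) (L ∪ t) g' := by
      intro x0
      by_cases hmin : ∀ i, 0 < i → i < N + 1 → (g1 : M → M)^[i] x0 ≠ x0
      · exact ndl_local (Nat.succ_pos N) g1 x0 hmin
      · push Not at hmin
        obtain ⟨i, hi, hiN, hix⟩ := hmin
        obtain ⟨t, ht, htc, htN⟩ := exists_ndl_nhd (k := N + 1) g1 x0
          (fun h => hbad x0 ⟨i, hi, by omega, hix⟩ h)
        refine ⟨t, ht, htc, {g | NdL (N + 1) t g}, isOpen_ndl (N + 1) htc, htN, ?_⟩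
        intro g hg L hL hgL O2 hO2 hgO2
        refine ⟨g, hgO2, ?_⟩
        rintro x (hx | hx) hxk
        · exact hgL x hx hxk
        · exact hg x hx hxk
    obtain ⟨g, ⟨hgO, hgN⟩, hgk⟩ := cover_step (k := N + 1) g1 hloc hO' ⟨hg1, hnd1⟩
    refine ⟨g, hgO, fun k hk hkN => ?_⟩
    rcases Nat.lt_or_ge N k with h | h
    · have h2 : k = N + 1 := by omega
      subst h2
      exact hgk
    · exact hgN k hk h

end

end FB
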