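import Mathlib

/-!
# Part D4h: a Toeplitz determinant
-/

namespace FB

/-- the matrix `E(X)` of polynomials -/
noncomputable def D4h_E (m B : ℕ) : Matrix (Fin (B + 1)) (Fin (B + 1)) (Polynomial ℂ) :=
  Matrix.of fun i j => ∏ d ∈ (Finset.range (2 * B + 1)).erase ((i : ℕ) + B - (j : ℕ)),
    (Polynomial.X + Polynomial.C ((d : ℂ) - (B : ℂ))) ^ m

theorem D4h_eval (m B : ℕ) (z : ℂ) (i j : Fin (B + 1)) : (D4h_E m B i j).eval z =
    ∏ d ∈ (Finset.range (2 * B + 1)).erase ((i : ℕ) + B - (j : ℕ)),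
      (z + ((d : ℂ) - (B : ℂ))) ^ m := by
  simp [D4h_E, Polynomial.eval_prod]

theorem D4h_det (m B : ℕ) (z : ℂ) : (D4h_E m B).det.eval z =
    (Matrix.of fun i j : Fin (B + 1) => (D4h_E m B i j).eval z).det := by
  have h := RingHom.map_det (Polynomial.evalRingHom z) (D4h_E m B)
  rw [Polynomial.coe_evalRingHom] at h
  rw [h]
  rfl

theorem D4h_zero (m : ℕ) (hm : 0 < m) (B : ℕ) : (D4h_E m B).det.eval 0 ≠ 0 := by
  rw [D4h_det]
  have h : (Matrix.of fun i j : Fin (B + 1) => (D4h_E m B i j).eval 0) =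
      Matrix.diagonal fun i : Fin (B + 1) => (D4h_E m B i i).eval 0 := by
    ext i j
    by_cases hij : i = j
    · subst hij
      rw [Matrix.diagonal_apply_eq]
      rfl
    · rw [Matrix.diagonal_apply_ne _ hij]
      change (D4h_E m B i j).eval 0 = 0
      rw [D4h_eval]
      have hij' : (i : ℕ) ≠ (j : ℕ) := fun h => hij (Fin.ext h)
      have hi := i.2
      have hj := j.2
      refine Finset.prod_eq_zero (i := B) ?_ ?_
      · rw [Finset.mem_erase, Finset.mem_range]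
        constructor <;> omega
      · rw [sub_self, add_zero, zero_pow hm.ne']
  rw [h, Matrix.det_diagonal, Finset.prod_ne_zero_iff]
  intro i _
  rw [D4h_eval, Finset.prod_ne_zero_iff]
  intro d hd
  refine pow_ne_zero _ ?_
  rw [zero_add, sub_ne_zero]
  intro h2
  have h3 : d = B := by exact_mod_cast h2
  rw [Finset.mem_erase] at hd
  apply hd.1
  omega

theorem D4h_entry (m B N : ℕ) (hN : B < N) (i j : Fin (B + 1)) : (D4h_E m B i j).eval (N : ℂ) =
    (∏ d ∈ Finset.range (2 * B + 1), ((N : ℂ) + ((d : ℂ) - (B : ℂ))) ^ m) *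
      ((((N + (i : ℕ) - (j : ℕ) : ℕ) : ℂ)) ^ m)⁻¹ := by
  have hi := i.2
  have hj := j.2
  have hmem : (i : ℕ) + B - (j : ℕ) ∈ Finset.range (2 * B + 1) := by
    rw [Finset.mem_range]
    omega
  have hne : (((N + (i : ℕ) - (j : ℕ) : ℕ) : ℂ)) ^ m ≠ 0 := by
    refine pow_ne_zero _ ?_
    rw [Nat.cast_ne_zero]
    omega
  have hval : (N : ℂ) + ((((i : ℕ) + B - (j : ℕ) : ℕ) : ℂ) - (B : ℂ)) =
      ((N + (i : ℕ) - (j : ℕ) : ℕ) : ℂ) := by
    rw [Nat.cast_sub (by omega), Nat.cast_sub (by omega)]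
    push_cast
    ring
  rw [D4h_eval, ← Finset.mul_prod_erase _ _ hmem, hval]
  field_simp

/-- Let `E(X) = (∏_{d = -B..B, d ≠ i - j} (X + d)^m)_{i,j}`, a matrix of polynomials.  At `X = 0` the entry `(i, j)`
contains the factor `0^m = 0` unless `i = j`, and the diagonal entries are `∏_{d ≠ 0} d^m ≠ 0`.  So
`det E(0) ≠ 0`, `det E` is a nonzero polynomial, and there is `N > B` with `det E(N) ≠ 0`
(finitely many roots; `Matrix.det` commutes with evaluation: `RingHom.map_det`, `Polynomial.evalRingHom`).  The entry of `E(N)` is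
`(∏_{d = -B..B} (N + d)^m) * ((N + i - j)^m)⁻¹`. -/
theorem exists_toeplitz (m : ℕ) (hm : 0 < m) (B : ℕ) : ∃ N, B < N ∧
    (Matrix.of (fun i j : Fin (B + 1) => ((((N + (i : ℕ) - (j : ℕ) : ℕ) : ℂ)) ^ m)⁻¹)).det ≠ 0 := by
  have h0 : (D4h_E m B).det ≠ 0 := by
    intro h
    apply D4h_zero m hm B
    rw [h, Polynomial.eval_zero]
  obtain ⟨N, hN, hN0⟩ : ∃ N, B < N ∧ (D4h_E m B).det.eval (N : ℂ) ≠ 0 := by
    by_contra hc
    push Not at hc
    apply h0
    refine Polynomial.eq_zero_of_infinite_isRoot _ ?_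
    refine Set.Infinite.mono (s := (fun N : ℕ => (N : ℂ)) '' Set.Ioi B) ?_ ?_
    · rintro z ⟨N, hN, rfl⟩
      exact hc N hN
    · exact (Set.Ioi_infinite B).image (Nat.cast_injective.injOn)
  refine ⟨N, hN, ?_⟩
  intro hdet
  apply hN0
  rw [D4h_det]
  have h : (Matrix.of fun i j : Fin (B + 1) => (D4h_E m B i j).eval (N : ℂ)) =
      (∏ d ∈ Finset.range (2 * B + 1), ((N : ℂ) + ((d : ℂ) - (B : ℂ))) ^ m) •
      (Matrix.of (fun i j : Fin (B + 1) => ((((N + (i : ℕ) - (j : ℕ) : ℕ) : ℂ)) ^ m)⁻¹)) := by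
    ext i j
    rw [Matrix.smul_apply, smul_eq_mul]
    exact D4h_entry m B N hN i j
  rw [h, Matrix.det_smul, hdet, mul_zero]

end FB
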