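import Mathlib

/-!
# Part D4i: the Toeplitz determinant of the perturbed Lefschetz sums
-/

namespace FB

open scoped Topology
open Filter

/-- `1 - ((1-s) x + s)^k = (1-s) (1-x) q_k((1-s) x + s)`, `q_k(y) = ∑_{l<k} y^l`. -/
theorem one_sub_shift_pow (s x : ℂ) (k : ℕ) :
    1 - ((1 - s) * x + s) ^ k =
      (1 - s) * (1 - x) * ∑ l ∈ Finset.range k, ((1 - s) * x + s) ^ l := by
  have h := mul_neg_geom_sum ((1 - s) * x + s) k
  rw [← h]
  ring

/-- The product over the multiset. -/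
theorem prod_shift (s : ℂ) (a : Multiset ℂ) (k : ℕ) :
    (a.map (fun x => 1 - ((1 - s) * x + s) ^ k)).prod =
      (1 - s) ^ Multiset.card a * (a.map (fun x => 1 - x)).prod *
        (a.map (fun x => ∑ l ∈ Finset.range k, ((1 - s) * x + s) ^ l)).prod := by
  induction a using Multiset.induction_on with
  | empty => simp
  | cons x a ih =>
    simp only [Multiset.map_cons, Multiset.prod_cons, Multiset.card_cons]
    rw [ih, one_sub_shift_pow]
    ring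

/-- A finite set is avoided near `0`, on the right. -/
theorem D4i_fin {F : Set ℝ} (hF : F.Finite) : ∀ᶠ s : ℝ in 𝓝[>] 0, s ∉ F := by
  have h1 : (F \ {0})ᶜ ∈ 𝓝 (0 : ℝ) :=
    (hF.subset Set.sdiff_subset).isClosed.isOpen_compl.mem_nhds (by simp)
  filter_upwards [mem_nhdsWithin_of_mem_nhds h1, self_mem_nhdsWithin] with s hs hs0 hsF
  exact hs ⟨hsF, ne_of_gt hs0⟩

/-- A nonzero polynomial does not vanish at small positive real numbers. -/
theorem D4i_poly {p : Polynomial ℂ} (hp : p ≠ 0) :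
    ∀ᶠ s : ℝ in 𝓝[>] 0, p.eval ((s : ℝ) : ℂ) ≠ 0 := by
  have h1 : {s : ℝ | p.eval ((s : ℝ) : ℂ) = 0}.Finite := by
    have h2 : {z : ℂ | p.IsRoot z}.Finite := Polynomial.finite_setOfPred_isRoot hp
    exact h2.preimage (Complex.ofReal_injective.injOn)
  exact D4i_fin h1

/-- The polynomial `Q k`. -/
noncomputable def D4i_Q (a : Multiset ℂ) (k : ℕ) : Polynomial ℂ :=
  (a.map (fun x => ∑ l ∈ Finset.range k, ((1 - Polynomial.X) * Polynomial.C x + Polynomial.X) ^ l)).prod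

theorem D4i_Q_eval (a : Multiset ℂ) (k : ℕ) (s : ℂ) : (D4i_Q a k).eval s =
    (a.map (fun x => ∑ l ∈ Finset.range k, ((1 - s) * x + s) ^ l)).prod := by
  unfold D4i_Q
  induction a using Multiset.induction_on with
  | empty => simp
  | cons x a ih =>
    rw [Multiset.map_cons, Multiset.prod_cons, Polynomial.eval_mul, ih, Multiset.map_cons,
      Multiset.prod_cons]
    congr 1
    rw [Polynomial.eval_finsetSum]
    simp

theorem D4i_Q_one (a : Multiset ℂ) (k : ℕ) : (D4i_Q a k).eval 1 = (k : ℂ) ^ Multiset.card a := by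
  rw [D4i_Q_eval]
  simp

/-- The polynomial `E k`. -/
noncomputable def D4i_E (a : Multiset ℂ) (I : Finset ℕ) (κ n0 : ℂ) (C : ℕ → ℂ) (k : ℕ) :
    Polynomial ℂ :=
  Polynomial.C n0 * ∏ k' ∈ I.erase k, D4i_Q a k' +
    Polynomial.C (C k * κ) * (1 - Polynomial.X) ^ Multiset.card a * ∏ k' ∈ I, D4i_Q a k'

theorem D4i_E_one {a : Multiset ℂ} (hm0 : 0 < Multiset.card a) {I : Finset ℕ} (κ n0 : ℂ)
    (C : ℕ → ℂ) {k : ℕ} (hk : k ∈ I) (hk0 : 0 < k) : (D4i_E a I κ n0 C k).eval 1 =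
      (n0 * ∏ k' ∈ I, (k' : ℂ) ^ Multiset.card a) * ((k : ℂ) ^ Multiset.card a)⁻¹ := by
  unfold D4i_E
  rw [Polynomial.eval_add, Polynomial.eval_mul, Polynomial.eval_mul, Polynomial.eval_mul,
    Polynomial.eval_C, Polynomial.eval_C, Polynomial.eval_prod, Polynomial.eval_pow,
    Polynomial.eval_sub, Polynomial.eval_one, Polynomial.eval_X, sub_self, zero_pow hm0.ne',
    mul_zero, zero_mul, add_zero, ← Finset.mul_prod_erase I _ hk]
  simp only [D4i_Q_one]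
  have h : ((k : ℂ) ^ Multiset.card a) ≠ 0 := pow_ne_zero _ (by exact_mod_cast hk0.ne')
  field_simp

theorem D4i_E_eval {a : Multiset ℂ} {I : Finset ℕ} {κ : ℂ} (hκ : κ = (a.map (fun x => 1 - x)).prod)
    (hκ0 : κ ≠ 0) (n0 : ℂ) (C : ℕ → ℂ) {k : ℕ} (hk : k ∈ I) {s : ℂ} (hs : 1 - s ≠ 0)
    (hQ : (D4i_Q a k).eval s ≠ 0) : (D4i_E a I κ n0 C k).eval s =
      (κ * (1 - s) ^ Multiset.card a * ∏ k' ∈ I, (D4i_Q a k').eval s) *
        (n0 * ((a.map (fun x => 1 - ((1 - s) * x + s) ^ k)).prod)⁻¹ + C k) := by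
  have h1 : (a.map (fun x => 1 - ((1 - s) * x + s) ^ k)).prod =
      (1 - s) ^ Multiset.card a * κ * (D4i_Q a k).eval s := by
    rw [prod_shift, D4i_Q_eval, hκ]
  have h2 : (1 - s) ^ Multiset.card a ≠ 0 := pow_ne_zero _ hs
  unfold D4i_E
  rw [h1, Polynomial.eval_add, Polynomial.eval_mul, Polynomial.eval_mul, Polynomial.eval_mul,
    Polynomial.eval_C, Polynomial.eval_C, Polynomial.eval_prod, Polynomial.eval_prod,
    Polynomial.eval_pow, Polynomial.eval_sub, Polynomial.eval_one, Polynomial.eval_X,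
    ← Finset.mul_prod_erase I _ hk]
  field_simp

/-- Let `κ = ∏_{x ∈ a} (1 - x) ≠ 0`, `Q k = ∏_{x ∈ a} q_k((1-S) x + S)`, a polynomial in the variable `S`
(`Polynomial ℂ`), `Q k (1) = k^m`, `m = card a`.  For `k ∈ I = [N-B, N+B]` let
`E k = n0 ∏_{k' ∈ I, k' ≠ k} Q k' + C k κ (1-S)^m ∏_{k' ∈ I} Q k'`, a polynomial.  For `k ∈ I` and `s` with all `Q k' (s) ≠ 0`, `s ≠ 1`:
`E k (s) = (κ (1-s)^m ∏_{k' ∈ I} Q k' (s)) * (n0 * (∏_{x ∈ a} (1 - ((1-s)x+s)^k))⁻¹ + C k)` (`prod_shift`).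
`E k (1) = n0 K (k^m)⁻¹`, `K = ∏_{k' ∈ I} k'^m`, so `det (E (N+i-j) (1)) = (n0 K)^(B+1) det(((N+i-j)^m)⁻¹) ≠ 0` (`Matrix.det_smul`).
The polynomials `det (E (N+i-j))` and `Q k`, `k ∈ I`, are not zero (value at `1`), so for all small real `s > 0` none of
them vanishes at `s` (finitely many roots; `Polynomial.finite_setOf_isRoot`, a finite set avoiding... every finite set not
containing `0` is avoided near `0`, and `𝓝[>] 0` avoids `0` itself). -/
theorem eventually_toeplitz (N B : ℕ) (hN : B < N) (a : Multiset ℂ) (h1 : (1 : ℂ) ∉ a)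
    (hm0 : 0 < Multiset.card a)
    (hdet : (Matrix.of (fun i j : Fin (B + 1) =>
      ((((N + (i : ℕ) - (j : ℕ) : ℕ) : ℂ)) ^ (Multiset.card a))⁻¹)).det ≠ 0)
    (n0 : ℕ) (h0 : 0 < n0) (C : ℕ → ℂ) :
    ∀ᶠ s : ℝ in 𝓝[>] 0, (Matrix.of (fun i j : Fin (B + 1) =>
      (n0 : ℂ) * ((a.map (fun x => 1 - (((1 - s : ℝ) : ℂ) * x + (s : ℂ)) ^
        (N + (i : ℕ) - (j : ℕ)))).prod)⁻¹ + C (N + (i : ℕ) - (j : ℕ)))).det ≠ 0 := by
  obtain ⟨κ, hκ⟩ : ∃ κ : ℂ, κ = (a.map (fun x => 1 - x)).prod := ⟨_, rfl⟩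
  have hκ0 : κ ≠ 0 := by
    rw [hκ]
    refine Multiset.prod_ne_zero fun h => ?_
    obtain ⟨x, hx, hx1⟩ := Multiset.mem_map.1 h
    have : x = 1 := (sub_eq_zero.1 hx1).symm
    exact h1 (this ▸ hx)
  let I : Finset ℕ := Finset.Icc (N - B) (N + B)
  have hI : ∀ i j : Fin (B + 1), N + (i : ℕ) - (j : ℕ) ∈ I := by
    intro i j
    have hi := i.2
    have hj := j.2
    exact Finset.mem_Icc.2 ⟨by omega, by omega⟩
  have hpos : ∀ k ∈ I, 0 < k := by
    intro k hk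
    have := (Finset.mem_Icc.1 hk).1
    omega
  let W : Matrix (Fin (B + 1)) (Fin (B + 1)) (Polynomial ℂ) :=
    Matrix.of fun i j => D4i_E a I κ n0 C (N + (i : ℕ) - (j : ℕ))
  have hW : ∀ s : ℂ, W.det.eval s = (Matrix.of fun i j : Fin (B + 1) =>
      (D4i_E a I κ n0 C (N + (i : ℕ) - (j : ℕ))).eval s).det := by
    intro s
    have h2 := RingHom.map_det (Polynomial.evalRingHom s) W
    exact h2
  have hK : ((n0 : ℂ) * ∏ k' ∈ I, (k' : ℂ) ^ Multiset.card a) ≠ 0 := by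
    refine mul_ne_zero (by exact_mod_cast h0.ne') (Finset.prod_ne_zero_iff.2 fun k hk => ?_)
    exact pow_ne_zero _ (by exact_mod_cast (hpos k hk).ne')
  have hW0 : W.det ≠ 0 := by
    intro h
    have h2 := hW 1
    rw [h, Polynomial.eval_zero] at h2
    have h3 : (Matrix.of fun i j : Fin (B + 1) =>
        (D4i_E a I κ n0 C (N + (i : ℕ) - (j : ℕ))).eval 1) =
        ((n0 : ℂ) * ∏ k' ∈ I, (k' : ℂ) ^ Multiset.card a) • Matrix.of (fun i j : Fin (B + 1) =>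
          ((((N + (i : ℕ) - (j : ℕ) : ℕ) : ℂ)) ^ (Multiset.card a))⁻¹) := by
      ext i j
      rw [Matrix.smul_apply, Matrix.of_apply, Matrix.of_apply, smul_eq_mul,
        D4i_E_one hm0 _ _ _ (hI i j) (hpos _ (hI i j))]
    rw [h3, Matrix.det_smul] at h2
    exact mul_ne_zero (pow_ne_zero _ hK) hdet h2.symm
  have hQ0 : ∀ k ∈ I, D4i_Q a k ≠ 0 := by
    intro k hk h
    have h2 := D4i_Q_one a k
    rw [h, Polynomial.eval_zero] at h2
    exact pow_ne_zero _ (by exact_mod_cast (hpos k hk).ne') h2.symm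
  have hX0 : (1 - Polynomial.X : Polynomial ℂ) ≠ 0 := by
    intro h
    have h2 : (1 - Polynomial.X : Polynomial ℂ).eval 0 = 0 := by rw [h, Polynomial.eval_zero]
    simp at h2
  have hP0 : W.det * (∏ k ∈ I, D4i_Q a k) * (1 - Polynomial.X) ≠ 0 :=
    mul_ne_zero (mul_ne_zero hW0 (Finset.prod_ne_zero_iff.2 hQ0)) hX0
  filter_upwards [D4i_poly hP0] with s hs
  rw [Polynomial.eval_mul, Polynomial.eval_mul, Polynomial.eval_prod] at hs
  have hs1 : W.det.eval (s : ℂ) ≠ 0 := left_ne_zero_of_mul (left_ne_zero_of_mul hs)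
  have hs2 : ∀ k ∈ I, (D4i_Q a k).eval (s : ℂ) ≠ 0 :=
    Finset.prod_ne_zero_iff.1 (right_ne_zero_of_mul (left_ne_zero_of_mul hs))
  have hs3 : (1 - (s : ℂ)) ≠ 0 := by
    have h2 := right_ne_zero_of_mul hs
    rwa [Polynomial.eval_sub, Polynomial.eval_one, Polynomial.eval_X] at h2
  intro hdz
  apply hs1
  rw [hW]
  have h3 : (Matrix.of fun i j : Fin (B + 1) =>
      (D4i_E a I κ n0 C (N + (i : ℕ) - (j : ℕ))).eval (s : ℂ)) =
      (κ * (1 - (s : ℂ)) ^ Multiset.card a * ∏ k' ∈ I, (D4i_Q a k').eval (s : ℂ)) •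
        Matrix.of (fun i j : Fin (B + 1) =>
      (n0 : ℂ) * ((a.map (fun x => 1 - (((1 - s : ℝ) : ℂ) * x + (s : ℂ)) ^
        (N + (i : ℕ) - (j : ℕ)))).prod)⁻¹ + C (N + (i : ℕ) - (j : ℕ))) := by
    ext i j
    rw [Matrix.smul_apply, Matrix.of_apply, Matrix.of_apply, smul_eq_mul,
      D4i_E_eval hκ hκ0 _ _ (hI i j) hs3 (hs2 _ (hI i j))]
    simp
  rw [h3, Matrix.det_smul, hdz, mul_zero]

/-- Finitely many `P` and finitely many families `(C k)_{k ∈ [N-B, N+B]}` (`Set.Finite.pi` on `Fin (2 * B + 1)` with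
`l ↦ N - B + l`): `Filter.eventually_all_finite`, `eventually_toeplitz`.  (The indices `N + i - j` lie in
`[N-B, N+B]`.) -/
theorem eventually_toeplitz_all (N B : ℕ) (hN : B < N) (S : Set (Multiset ℂ)) (hS : S.Finite)
    (h1 : ∀ a ∈ S, (1 : ℂ) ∉ a) (m : ℕ) (hm : ∀ a ∈ S, Multiset.card a = m) (hm0 : 0 < m)
    (hdet : (Matrix.of (fun i j : Fin (B + 1) =>
      ((((N + (i : ℕ) - (j : ℕ) : ℕ) : ℂ)) ^ m)⁻¹)).det ≠ 0)
    (n0 : ℕ) (h0 : 0 < n0) (F : ℕ → Set ℂ) (hF : ∀ k, (F k).Finite) :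
    ∀ᶠ s : ℝ in 𝓝[>] 0, ∀ a ∈ S, ∀ C : ℕ → ℂ, (∀ k, N - B ≤ k → k ≤ N + B → C k ∈ F k) →
      (Matrix.of (fun i j : Fin (B + 1) =>
      (n0 : ℂ) * ((a.map (fun x => 1 - (((1 - s : ℝ) : ℂ) * x + (s : ℂ)) ^
        (N + (i : ℕ) - (j : ℕ)))).prod)⁻¹ + C (N + (i : ℕ) - (j : ℕ)))).det ≠ 0 := by
  let T : Set (Fin (2 * B + 1) → ℂ) := {c | ∀ l : Fin (2 * B + 1), c l ∈ F (N - B + (l : ℕ))}
  have hT : T.Finite := Set.Finite.pi' fun l : Fin (2 * B + 1) => hF (N - B + (l : ℕ))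
  let E : (Fin (2 * B + 1) → ℂ) → ℕ → ℂ := fun c k =>
    if h : k - (N - B) < 2 * B + 1 then c ⟨k - (N - B), h⟩ else 0
  refine (Filter.eventually_all_finite hS).2 fun a ha => ?_
  have h2 : ∀ᶠ s : ℝ in 𝓝[>] 0, ∀ c ∈ T, (Matrix.of (fun i j : Fin (B + 1) =>
      (n0 : ℂ) * ((a.map (fun x => 1 - (((1 - s : ℝ) : ℂ) * x + (s : ℂ)) ^
        (N + (i : ℕ) - (j : ℕ)))).prod)⁻¹ + E c (N + (i : ℕ) - (j : ℕ)))).det ≠ 0 := by
    refine (Filter.eventually_all_finite hT).2 fun c _ => ?_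
    refine eventually_toeplitz N B hN a (h1 a ha) ?_ ?_ n0 h0 (E c)
    · rw [hm a ha]
      exact hm0
    · rw [hm a ha]
      exact hdet
  filter_upwards [h2] with s hs C hC
  let c : Fin (2 * B + 1) → ℂ := fun l => C (N - B + (l : ℕ))
  have hc : c ∈ T := fun l => hC _ (by omega) (by have := l.2; omega)
  have h3 := hs c hc
  have h4 : ∀ i j : Fin (B + 1), E c (N + (i : ℕ) - (j : ℕ)) = C (N + (i : ℕ) - (j : ℕ)) := by
    intro i j
    have hi := i.2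
    have hj := j.2
    have h5 : N + (i : ℕ) - (j : ℕ) - (N - B) < 2 * B + 1 := by omega
    show (if h : N + (i : ℕ) - (j : ℕ) - (N - B) < 2 * B + 1 then
      c ⟨N + (i : ℕ) - (j : ℕ) - (N - B), h⟩ else 0) = _
    rw [dif_pos h5]
    show C (N - B + (N + (i : ℕ) - (j : ℕ) - (N - B))) = _
    congr 1
    omega
  simp only [h4] at h3
  exact h3

end FB
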