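import Pool.Agent.H.MP_fb873c_an.D2k
import Pool.Agent.H.MP_fb873c_an.D4f
import Pool.Agent.H.MP_fb873c_an.D4g
import Pool.Agent.H.MP_fb873c_an.D4h
import Pool.Agent.H.MP_fb873c_an.D4i

/-!
# Part D4j: the last perturbation
-/

namespace FB

open scoped Topology ContDiff Manifold
open Filter

universe u

/-- See `sum_orbit` (file D2m3), same proof. -/
theorem sum_orbit_gen {X : Type*} {g : X → X} {d : ℕ} {p : X} (hp : g^[d] p = p) (hd : 0 < d)
    (hmin : ∀ i, 0 < i → i < d → g^[i] p ≠ p) (F T : Finset X)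
    (hF : ∀ i, g^[i] p ∈ F) (hT : ∀ x, x ∈ T ↔ x ∈ F ∧ ∀ i, g^[i] p ≠ x) (c : X → ℂ) (v : ℂ)
    (hc : ∀ i, c (g^[i] p) = v) :
    ∑ x ∈ F, (c x)⁻¹ = (d : ℂ) * v⁻¹ + ∑ x ∈ T, (c x)⁻¹ := by
  classical
  have hper : Function.IsPeriodicPt g d p := hp
  have hmod : ∀ i, g^[i % d] p = g^[i] p := fun i => hper.iterate_mod_apply i
  have hinj : ∀ i j, i < j → j < d → g^[i] p ≠ g^[j] p := by
    intro i j hij hjk h
    -- apply `g^(d - j)`
    have h1 : g^[d - j] (g^[i] p) = p := by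
      rw [h, ← Function.iterate_add_apply, Nat.sub_add_cancel hjk.le, hp]
    rw [← Function.iterate_add_apply] at h1
    exact hmin (d - j + i) (by omega) (by omega) h1
  set O : Finset X := (Finset.range d).image (fun i => g^[i] p) with hO
  have hFO : F = O ∪ T := by
    ext x
    rw [Finset.mem_union, hT, hO, Finset.mem_image]
    constructor
    · intro hx
      by_cases h : ∃ i, g^[i] p = x
      · obtain ⟨i, hi⟩ := h
        left
        exact ⟨i % d, Finset.mem_range.2 (Nat.mod_lt _ hd), by rw [hmod, hi]⟩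
      · right
        exact ⟨hx, fun i hi => h ⟨i, hi⟩⟩
    · rintro (⟨i, -, rfl⟩ | ⟨hx, -⟩)
      · exact hF i
      · exact hx
  have hdisj : Disjoint O T := by
    rw [Finset.disjoint_left]
    intro x hx hxT
    rw [hO, Finset.mem_image] at hx
    obtain ⟨i, -, hi⟩ := hx
    exact ((hT x).1 hxT).2 i hi
  rw [hFO, Finset.sum_union hdisj]
  congr 1
  rw [hO, Finset.sum_image]
  · rw [Finset.sum_congr rfl (fun i _ => by rw [hc i]), Finset.sum_const, Finset.card_range,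
      nsmul_eq_mul]
  · intro i hi j hj hij
    rw [Finset.mem_coe, Finset.mem_range] at hi hj
    rcases lt_trichotomy i j with h | h | h
    · exact absurd hij (hinj i j h hj)
    · exact h
    · exact absurd hij.symm (hinj j i h hi)

section

variable {n : ℕ} {M : Type u} [TopologicalSpace M] [ChartedSpace (Er n) M]
  [IsManifold (𝓡 n) ∞ M] [CompactSpace M] [T2Space M]

/-- The last step, see the comments in the proof. -/
theorem toeplitz_step {n0 N B m : ℕ} (h0 : 0 < n0) (hN : B < N) (hm : 2 * m = n) (hm0 : 0 < m)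
    (hdet : (Matrix.of (fun i j : Fin (B + 1) =>
      ((((N + (i : ℕ) - (j : ℕ) : ℕ) : ℂ)) ^ m)⁻¹)).det ≠ 0)
    {g : Dif n M} (hnd : ∀ k, 0 < k → k ≤ n0 * (N + B) → NdL k Set.univ g)
    {p : M} (hp : (g : M → M)^[n0] p = p)
    (hmin : ∀ i, 0 < i → i < n0 → (g : M → M)^[i] p ≠ p)
    {O : Set (Dif n M)} (hO : IsOpen[crTop n M ⊤] O) (hg : g ∈ O) :
    ∃ g' ∈ O, GoodB g' n0 N B := by
  classical
  have hdK : n0 ≤ n0 * (N + B) := Nat.le_mul_of_pos_right _ (by omega)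
  have hkK : ∀ k, k ≤ N + B → n0 * k ≤ n0 * (N + B) := fun k hk => Nat.mul_le_mul_left _ hk
  have hkpos : ∀ k, N - B ≤ k → 0 < n0 * k := fun k hk => Nat.mul_pos h0 (by omega)
  obtain ⟨A, hA⟩ := dfix_equiv g n0 hp
  obtain ⟨H, hH, hH0, hev⟩ := pert_orbit hnd h0 hdK hp hmin
    ((A.symm : Er n →L[ℝ] Er n) - ContinuousLinearMap.id ℝ (Er n))
  have hO' := eventually_mem_open g H hH0 hH hO hg
  have hfin := finite_per hnd
  -- the fixed points of `g^(n0 k)`
  have hfk : ∀ k, 0 < n0 * k → k ≤ N + B → {x | (g : M → M)^[n0 * k] x = x}.Finite := by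
    intro k h1 h2
    exact hfin.subset fun x hx => ⟨n0 * k, h1, hkK k h2, hx⟩
  have hFex : ∀ k, ∃ F : Finset M, N - B ≤ k → k ≤ N + B → ∀ x, x ∈ F ↔
      (g : M → M)^[n0 * k] x = x := by
    intro k
    by_cases hk : N - B ≤ k ∧ k ≤ N + B
    · refine ⟨(hfk k (hkpos k hk.1) hk.2).toFinset, fun _ _ x => ?_⟩
      rw [Set.Finite.mem_toFinset]
      rfl
    · exact ⟨∅, fun h1 h2 => absurd ⟨h1, h2⟩ hk⟩
  choose F hF using hFex
  set T : ℕ → Finset M := fun k => (F k).filter (fun x => ∀ i, (g : M → M)^[i] p ≠ x) with hTdef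
  have hT : ∀ k x, x ∈ T k ↔ x ∈ F k ∧ ∀ i, (g : M → M)^[i] p ≠ x := by
    intro k x
    rw [hTdef, Finset.mem_filter]
  -- finite sets of sums
  set CS : ℕ → Set ℂ := fun k => {z : ℂ | ∃ a : M → ℂ, (∀ x ∈ T k, a x ∈ (fun z : ℂ => z⁻¹) ''
      Fac (dfix (n := n) ((g : M → M)^[n0 * k]) x).toLinearMap) ∧ z = ∑ x ∈ T k, a x} with hCS
  have hCSf : ∀ k, (CS k).Finite := fun k =>
    finite_sums (T k) (fun x => (fun z : ℂ => z⁻¹) ''
      Fac (dfix (n := n) ((g : M → M)^[n0 * k]) x).toLinearMap) (fun x _ => (Fac_finite _).image _)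
  -- the multisets of roots
  set S : Set (Multiset ℂ) := (fun P : Polynomial ℂ => P.roots) ''
    {P | HalfPoly (dfix (n := n) ((g : M → M)^[n0]) p) P} with hS
  have hSf : S.Finite := (halfPoly_finite _).image _
  have hS1 : ∀ a ∈ S, (1 : ℂ) ∉ a := by
    rintro a ⟨P, hP, rfl⟩
    exact halfPoly_one hP (hnd n0 h0 hdK p (Set.mem_univ p) hp)
  have hScard : ∀ a ∈ S, Multiset.card a = m := by
    rintro a ⟨P, hP, rfl⟩
    have h1 := halfPoly_card hP
    have h2 : 2 * Multiset.card P.roots = 2 * m := by rw [h1, hm]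
    exact Nat.eq_of_mul_eq_mul_left (by norm_num) h2
  have hnum := eventually_toeplitz_all N B hN S hSf hS1 m hScard hm0 hdet n0 h0 CS hCSf
  have hs1 : ∀ᶠ s : ℝ in 𝓝 (0 : ℝ), s ≠ 1 := by
    have : ∀ᶠ s : ℝ in 𝓝 (0 : ℝ), s < 1 := eventually_lt_nhds one_pos
    filter_upwards [this] with s hs
    exact hs.ne
  obtain ⟨s, ⟨⟨⟨hs1, hsO⟩, hsnd, hsfix, hsval, hsp, hsx⟩, hsnum⟩⟩ :=
    (((hs1.and hO').and hev).filter_mono (nhdsWithin_le_nhds (s := Set.Ioi (0 : ℝ)))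
      |>.and hnum).exists
  refine ⟨H s, hsO, ?_, ?_⟩
  · intro k h1 h2 x hx
    exact hsnd (n0 * k) (hkpos k h1) (hkK k h2) x (Set.mem_univ x) hx
  intro P c hP hcF hcP
  -- the orbit of `p`
  have hgp : ∀ i, (g : M → M)^[n0] ((g : M → M)^[i] p) = (g : M → M)^[i] p := by
    intro i
    rw [← Function.iterate_add_apply, add_comm, Function.iterate_add_apply, hp]
  have hHp : ∀ i, (H s : M → M)^[n0] ((g : M → M)^[i] p) = (g : M → M)^[i] p := fun i =>
    (hsfix n0 h0 hdK _).2 (hgp i)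
  have hPi : ∀ i, P ((g : M → M)^[i] p) = P p := by
    intro i
    induction i with
    | zero => rfl
    | succ i ih =>
      have h1 := (hP _ (hHp i)).2
      rw [hsval n0 h0 hdK _ (hgp i)] at h1
      rw [Function.iterate_succ_apply', h1, ih]
  -- the half polynomial at `p`
  have hAs : (dfix (n := n) ((H s : M → M)^[n0]) p).toLinearMap =
      (1 - s) • (dfix (n := n) ((g : M → M)^[n0]) p).toLinearMap + s • (1 : Er n →ₗ[ℝ] Er n) := by
    rw [hsp, ← hA]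
    ext1 v
    show A (v + s • (A.symm v - v)) = (1 - s) • A v + s • v
    rw [map_add, map_smul, map_sub, ContinuousLinearEquiv.apply_symm_apply, sub_smul, one_smul,
      smul_sub]
    abel
  have hPp := (hP p (by simpa using hHp 0)).1
  obtain ⟨P', hP', hroots⟩ := halfPoly_shift hs1 hAs hPp
  have hev2 : ∀ k, PowEv (P p) k = ((P'.roots).map (fun x =>
      1 - (((1 - s : ℝ) : ℂ) * x + (s : ℂ)) ^ k)).prod := by
    intro k
    unfold PowEv
    rw [hroots, Multiset.map_map]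
    rfl
  -- the Lefschetz sums
  have hsum : ∀ k, N - B ≤ k → k ≤ N + B →
      (∑ᶠ x ∈ {x | (H s : M → M)^[n0 * k] x = x}, (c k x)⁻¹) =
        (n0 : ℂ) * (((P'.roots).map (fun x =>
          1 - (((1 - s : ℝ) : ℂ) * x + (s : ℂ)) ^ k)).prod)⁻¹ + ∑ x ∈ T k, (c k x)⁻¹ := by
    intro k h1 h2
    have hset : {x | (H s : M → M)^[n0 * k] x = x} = (F k : Set M) := by
      ext x
      rw [Set.mem_ofPred_eq, Finset.mem_coe, hF k h1 h2 x]
      exact hsfix (n0 * k) (hkpos k h1) (hkK k h2) x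
    rw [hset, finsum_mem_coe_finset]
    refine sum_orbit_gen hp h0 hmin (F k) (T k) (fun i => ?_) (hT k) (c k) _ (fun i => ?_)
    · rw [hF k h1 h2]
      have h3 : Function.IsPeriodicPt (g : M → M) n0 ((g : M → M)^[i] p) := hgp i
      exact h3.mul_const k
    · rw [hcP k h1 h2 _ (hHp i), hPi i, hev2]
  have hmemC : ∀ k, N - B ≤ k → k ≤ N + B → (∑ x ∈ T k, (c k x)⁻¹) ∈ CS k := by
    intro k h1 h2
    refine ⟨fun x => (c k x)⁻¹, ?_, rfl⟩
    intro x hx
    have hx' := (hT k x).1 hx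
    have hxF := (hF k h1 h2 x).1 hx'.1
    have h3 := hcF k h1 h2 x ((hsfix (n0 * k) (hkpos k h1) (hkK k h2) x).2 hxF)
    rw [hsx (n0 * k) (hkpos k h1) (hkK k h2) x hxF hx'.2 (n0 * k) hxF] at h3
    exact ⟨c k x, h3, rfl⟩
  have hfinal := hsnum P'.roots ⟨P', hP', rfl⟩ (fun k => ∑ x ∈ T k, (c k x)⁻¹) hmemC
  have hmat : (Matrix.of (fun i j : Fin (B + 1) =>
      ∑ᶠ x ∈ {x | (H s : M → M)^[n0 * (N + i - j)] x = x}, (c (N + i - j) x)⁻¹)) =
      Matrix.of (fun i j : Fin (B + 1) =>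
      (n0 : ℂ) * ((P'.roots.map (fun x => 1 - (((1 - s : ℝ) : ℂ) * x + (s : ℂ)) ^
        (N + (i : ℕ) - (j : ℕ)))).prod)⁻¹ +
        ∑ x ∈ T (N + (i : ℕ) - (j : ℕ)), (c (N + (i : ℕ) - (j : ℕ)) x)⁻¹) := by
    ext i j
    have hi := i.2
    have hj := j.2
    exact hsum (N + i - j) (by omega) (by omega)
  rw [hmat]
  exact hfinal

/-- MAIN D4.  `n0` is the smallest `k > 0` such that some `g ∈ O` has a point with `g^k x = x` (`Nat.find`).
`exists_ndg` (file D2k) gives `g0 ∈ O` with a nondegenerate fixed point of `g0^n0`; `O' = O ∩ {g | g^n0 has a nondegenerate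
fixed point}` is open (`isOpen_exNdg`).  If `n` is odd take `N = B + 1`, otherwise `n = 2 m`, `m > 0`, and `N` from
`exists_toeplitz`.  `kupka_smale (n0 * (N + B))` in `O'` gives `g1`, `p`.  `n` even: `toeplitz_step`.  `n` odd: `GoodB g1 n0 N B`, the second
clause is empty (`halfPoly_card` at `x = p`). -/
theorem exists_goodB_aux (hn : 0 < n) (f : Dif n M)
    (hper : ∃ (x : M) (k : ℕ), 0 < k ∧ (f : M → M)^[k] x = x)
    (O : Set (Dif n M)) (hO : IsOpen[crTop n M ⊤] O) (hf : f ∈ O) (B : ℕ) :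
    ∃ g ∈ O, ∃ n0 N, 0 < n0 ∧ B < N ∧ GoodB g n0 N B := by
  classical
  obtain ⟨x, k, hk, hx⟩ := hper
  have hex : ∃ k, 0 < k ∧ ∃ g ∈ O, ∃ x : M, (g : M → M)^[k] x = x := ⟨k, hk, f, hf, x, hx⟩
  obtain ⟨n0, hn0⟩ : ∃ n0, n0 = Nat.find hex := ⟨_, rfl⟩
  have h1 : 0 < n0 ∧ ∃ g ∈ O, ∃ x : M, (g : M → M)^[n0] x = x := by
    rw [hn0]
    exact Nat.find_spec hex
  have hmin : ∀ g ∈ O, ∀ x : M, ∀ i, 0 < i → i < n0 → (g : M → M)^[i] x ≠ x := by
    intro g hg x i hi hin hxi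
    rw [hn0] at hin
    exact Nat.find_min hex hin ⟨hi, g, hg, x, hxi⟩
  obtain ⟨h0, g0, hg0, x0, hx0⟩ := h1
  obtain ⟨g0', hg0', hp0, hnd0⟩ := exists_ndg h0 g0 hx0 (hmin g0 hg0 x0) hO hg0
  have hO' : IsOpen[crTop n M ⊤] (O ∩ {g : Dif n M | ∃ p, (g : M → M)^[n0] p = p ∧
      Ndg (n := n) ((g : M → M)^[n0]) p}) := by
    letI T := crTop n M ⊤
    exact IsOpen.inter hO (isOpen_exNdg n0)
  rcases Nat.even_or_odd n with hev | hodd
  · obtain ⟨m, hm⟩ := hev
    obtain ⟨N, hN, hdet⟩ := exists_toeplitz m (by omega) B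
    obtain ⟨g1, hg1, hks⟩ := kupka_smale (n0 * (N + B)) hO' (f := g0') ⟨hg0', x0, hp0, hnd0⟩
    obtain ⟨hg1O, p, hp, -⟩ := hg1
    obtain ⟨g', hg', hgood⟩ := toeplitz_step h0 hN (show 2 * m = n by omega) (by omega) hdet hks hp
      (hmin g1 hg1O p) hO hg1O
    exact ⟨g', hg', n0, N, h0, hN, hgood⟩
  · obtain ⟨g1, hg1, hks⟩ := kupka_smale (n0 * (B + 1 + B)) hO' (f := g0') ⟨hg0', x0, hp0, hnd0⟩
    obtain ⟨hg1O, p, hp, -⟩ := hg1
    refine ⟨g1, hg1O, n0, B + 1, h0, Nat.lt_succ_self B, ?_, ?_⟩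
    · intro k h1 h2 x hx
      exact hks (n0 * k) (Nat.mul_pos h0 (by omega)) (Nat.mul_le_mul_left _ h2) x
        (Set.mem_univ x) hx
    · intro P c hP
      have h1 := halfPoly_card (hP p hp).1
      obtain ⟨r, hr⟩ := hodd
      omega

end

end FB
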