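import Pool.Agent.H.MP_fb873c_an.D3b
import Pool.Agent.H.MP_fb873c_an.D4j

/-! # Part D3: interface of the upgraded dynamics part -/

namespace FB

open scoped Topology ContDiff Manifold

universe u

section

variable {n : ℕ} {M : Type u} [TopologicalSpace M] [ChartedSpace (Er n) M]
  [IsManifold (𝓡 n) ∞ M] [CompactSpace M] [T2Space M]

/-- MAIN D3 (openness). -/
theorem goodB_open (n0 N B : ℕ) (h0 : 0 < n0) (hN : B < N) :
    IsOpen[crTop n M 1] {g : Dif n M | GoodB g n0 N B} :=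
  goodB_open_aux n0 N B hN

/-- MAIN D4 (density). -/
theorem exists_goodB (hn : 0 < n) (f : Dif n M)
    (hper : ∃ (x : M) (k : ℕ), 0 < k ∧ (f : M → M)^[k] x = x)
    (O : Set (Dif n M)) (hO : IsOpen[crTop n M ⊤] O) (hf : f ∈ O) (B : ℕ) :
    ∃ g ∈ O, ∃ n0 N, 0 < n0 ∧ B < N ∧ GoodB g n0 N B :=
  exists_goodB_aux hn f hper O hO hf B

end

end FB
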