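import Pool.Agent.H.MP_fb873c_an.DA
import Pool.Agent.H.MP_fb873c_an.D1g

/-!
# Part D3c: two open conditions in the `C¹` topology
-/

namespace FB

open scoped Topology ContDiff Manifold
open Filter

universe u v

section

variable {n : ℕ} {M : Type u} [TopologicalSpace M] [ChartedSpace (Er n) M]

/-- Nondegeneracy of the fixed points of `g^k` in a compact set is an open condition. -/
theorem isOpen_ndl [IsManifold (𝓡 n) ∞ M] [CompactSpace M] [T2Space M] {L : Set M}
    (hL : IsCompact L) (k : ℕ) :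
    IsOpen[crTop n M 1] {g : Dif n M | ∀ x ∈ L, (g : M → M)^[k] x = x →
      Ndg (n := n) ((g : M → M)^[k]) x} := by
  let _ := crTop n M 1
  rw [isOpen_iff_ultrafilter]
  intro g hg l hl
  have hcv : CV n (l : Filter (Dif n M)) (fun g' : Dif n M => (g' : M → M)) g := CV.of_crTop hl
  have sG : ∀ g' : Dif n M, C1 n (g' : M → M) := fun g' => g'.contMDiff_toFun.of_le (by norm_cast)
  have hF : CV n (l : Filter (Dif n M)) (fun g' : Dif n M => (g' : M → M)^[k]) ((g : M → M)^[k]) :=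
    hcv.iterate sG (sG g) k
  have sF : ∀ g' : Dif n M, C1 n ((g' : M → M)^[k]) := fun g' => (sG g').iterate k
  exact D1_nd hF sF (sF g) hL hg

/-- A nondegenerate fixed point persists. -/
theorem exists_nd_of_CV [IsManifold (𝓡 n) ∞ M] [CompactSpace M] [T2Space M] {ι : Type v}
    {l : Filter ι} {F : ι → M → M} {F0 : M → M} (hF : CV n l F F0) (sF : ∀ i, C1 n (F i))
    (sF0 : C1 n F0) {p : M} (hp : F0 p = p) (hnd : ND n F0 p) :
    ∃ y : ι → M, Tendsto y l (𝓝 p) ∧ ∀ᶠ i in l, F i (y i) = y i ∧ ND n (F i) (y i) := by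
  have hcv : CV n (pure ()) (fun _ : Unit => F0) F0 := CV.const _ sF0
  obtain ⟨B, hB, h1, -⟩ := D1_uc hcv (fun _ => sF0) hp hnd
  have h2 := Filter.eventually_pure.1 h1
  obtain ⟨K, hK1, hK2, hK3⟩ := local_compact_nhds hB
  have h3 := D1_nd hF sF sF0 hK3 (fun x hx hxx => by
    have h4 : x = p := h2 x (hK2 hx) p (mem_of_mem_nhds hB) hxx hp
    rw [h4]
    exact hnd)
  obtain ⟨B', hB', y, hy1, hy2, -⟩ := D1_cont hF sF hp hnd
  refine ⟨y, hy1, ?_⟩
  filter_upwards [h3, hy2, hy1.eventually_mem hK1] with i q1 q2 q3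
  exact ⟨q2, q1 _ q3 q2⟩

theorem isOpen_exNdg [IsManifold (𝓡 n) ∞ M] [CompactSpace M] [T2Space M] (k : ℕ) :
    IsOpen[crTop n M 1] {g : Dif n M | ∃ p, (g : M → M)^[k] p = p ∧
      Ndg (n := n) ((g : M → M)^[k]) p} := by
  let _ := crTop n M 1
  rw [isOpen_iff_ultrafilter]
  intro g hg l hl
  obtain ⟨p, hp, hnd⟩ := hg
  have hcv : CV n (l : Filter (Dif n M)) (fun g' : Dif n M => (g' : M → M)) g := CV.of_crTop hl
  have sG : ∀ g' : Dif n M, C1 n (g' : M → M) := fun g' => g'.contMDiff_toFun.of_le (by norm_cast)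
  have hF : CV n (l : Filter (Dif n M)) (fun g' : Dif n M => (g' : M → M)^[k]) ((g : M → M)^[k]) :=
    hcv.iterate sG (sG g) k
  have sF : ∀ g' : Dif n M, C1 n ((g' : M → M)^[k]) := fun g' => (sG g').iterate k
  obtain ⟨y, -, hy⟩ := exists_nd_of_CV hF sF (sF g) hp hnd
  filter_upwards [hy] with g' h
  exact ⟨y g', h⟩

end

end FB
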