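import Pool.Agent.H.MP_fb873c_an.D2d
import Pool.Agent.H.MP_fb873c_an.D2l2
import Pool.Agent.H.MP_fb873c_an.D4a

/-!
# Part D4b: one small ball
-/

namespace FB

open scoped Topology ContDiff Manifold
open Filter

universe u

section

variable {n : ℕ} {M : Type u} [TopologicalSpace M] [ChartedSpace (Er n) M]
  [IsManifold (𝓡 n) ∞ M] [CompactSpace M] [T2Space M]

/-- Nondegeneracy of the fixed points of the iterates persists. -/
theorem D4b_persists {P : Type} [NormedAddCommGroup P] [NormedSpace ℝ P] {k : ℕ} {L : Set M}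
    (hL : IsCompact L) {g : Dif n M}
    (H : P → Dif n M) (h0 : ∀ x, H 0 x = g x) (hH : ∀ x, SmF n (fun p => (H p : M → M)) x)
    (h : NdL k L g) :
    ∀ᶠ p in 𝓝 (0 : P), NdL k L (H p) := by
  have hg : ((H 0 : Dif n M) : M → M) = (g : M → M) := funext h0
  have hF : ∀ p, ContMDiff (𝓡 n) (𝓡 n) ∞ ((fun p => (H p : M → M)^[k]) p) :=
    fun p => contMDiff_iterate (H p) k
  have hS : ∀ x, SmF n (fun p => (H p : M → M)^[k]) x := fun x => smF_iterate hH k x
  have e1 := ndg_persists (n := n) hF hL hS (by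
    intro x hx
    show ((H 0 : Dif n M) : M → M)^[k] x = x → Ndg (n := n) (((H 0 : Dif n M) : M → M)^[k]) x
    rw [hg]
    exact h x hx)
  filter_upwards [e1] with p hp1
  exact hp1

/-- Copy of `step2_ball` (file D2l2) with `St k L` replaced by `NdL k L`: instead of `st_persists` use
`ndg_persists` (file D2h2) for `F s = (H s)^k` (`contMDiff_iterate`, `smF_iterate`), as in the first half of the proof of
`st_persists` (D2h). -/
theorem ndl_ball {k : ℕ} (hk : 0 < k) (g : Dif n M) {φ : OpenPartialHomeomorph M (Er n)}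
    (hφ : φ ∈ atlas (Er n) M) {z0 : Er n} {r : ℝ} (hr : 0 < r)
    (hrφ : Metric.closedBall z0 r ⊆ φ.target)
    (hd : ∀ i, 0 < i → i < k → ∀ x ∈ φ.symm '' Metric.closedBall z0 r,
      (g : M → M)^[i] x ∉ φ.symm '' Metric.closedBall z0 r)
    {L : Set M} (hL : IsCompact L) (hst : NdL k L g) {O : Set (Dif n M)}
    (hO : IsOpen[crTop n M ⊤] O) (hg : g ∈ O) :
    ∃ g' ∈ O, NdL k (L ∪ φ.symm '' Metric.closedBall z0 (r / 4)) g' := by
  classical
  have hK : IsCompact (Metric.closedBall z0 r) := isCompact_closedBall z0 r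
  let β : ContDiffBump z0 := ⟨r / 2, r, by positivity, by linarith⟩
  have hβ1 : ∀ z ∈ Metric.closedBall z0 (r / 2), β z = 1 := fun z hz =>
    β.one_of_mem_closedBall hz
  have hβ0 : ∀ z ∉ Metric.closedBall z0 r, β z = 0 := fun z hz =>
    β.zero_of_le_dist (by
      rw [Metric.mem_closedBall, not_le] at hz
      exact hz.le)
  let w : Er n → Er n → Er n := fun v z => β z • v
  have hw : ContDiff ℝ ∞ (fun q : Er n × Er n => w q.1 q.2) :=
    (β.contDiff.comp contDiff_snd).smul contDiff_fst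
  obtain ⟨h, hsm, h00, hout, hev⟩ := exists_family hφ hK hrφ w hw
    (fun z => smul_zero _) (fun p z hz => by
      change β z • p = 0
      rw [hβ0 z hz, zero_smul])
  let H : Er n → Dif n M := fun v => (h v).trans g
  have hHa : ∀ v x, H v x = g (h v x) := fun v x => rfl
  have hHf : ∀ v, (H v : M → M) = fun x => g (h v x) := fun v => rfl
  have hH0 : ∀ x, H 0 x = g x := fun x => by rw [hHa, h00]
  have hHs : ∀ x, SmF n (fun p => (H p : M → M)) x := fun x =>
    smF_comp (F := fun p => (h p : M → M)) (G := fun _ => (g : M → M)) (hsm x) (smF_const g _)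
  have e1 := eventually_mem_open g H hH0 hHs hO hg
  have e2 := D4b_persists (n := n) hL H hH0 hHs hst
  have e3 : ∀ᶠ v in 𝓝 (0 : Er n), ‖v‖ < r / 4 := by
    have h1 : Metric.ball (0 : Er n) (r / 4) ∈ 𝓝 (0 : Er n) := Metric.ball_mem_nhds _ (by positivity)
    filter_upwards [h1] with v hv
    rwa [mem_ball_zero_iff] at hv
  let G : Er n → Er n := fun y => φ ((g : M → M)^[k] (φ.symm y))
  obtain ⟨v, ⟨⟨⟨v1, v2⟩, v3⟩, v4⟩, hreg⟩ := exists_regular G
    (s := {y | y ∈ φ.target ∧ (g : M → M)^[k] (φ.symm y) ∈ φ.source})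
    (fun y hy => (D2l2_chart g k hφ hφ hy.1 hy.2).differentiableAt (by simp))
    (((e1.and e2).and e3).and hev)
  refine ⟨H v, v1, ?_⟩
  rintro x (hx | ⟨z, hz, rfl⟩) hfix
  · exact v2 x hx hfix
  -- the new points
  have key : ∀ z' ∈ Metric.closedBall z0 (r / 2),
      (H v : M → M)^[k] (φ.symm z') = (g : M → M)^[k] (φ.symm (z' + v)) := by
    intro z' hz'
    have hz'K : z' ∈ Metric.closedBall z0 r :=
      Metric.closedBall_subset_closedBall (by linarith) hz'
    have h1 := iterate_supp (g := (g : M → M)) (h := (h v : M → M))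
      (B := φ.symm '' Metric.closedBall z0 r) (fun x hx => hout v x hx)
      (by
        rintro _ ⟨z'', hz'', rfl⟩
        exact ⟨z'' + w v z'', (v4 z'' hz'').1, (v4 z'' hz'').2.symm⟩)
      hd hk le_rfl (x := φ.symm z') ⟨z', hz'K, rfl⟩
    rw [hHf, h1, (v4 z' hz'K).2]
    change (g : M → M)^[k] (φ.symm (z' + β z' • v)) = _
    rw [hβ1 z' hz', one_smul]
  have hz2 : z ∈ Metric.closedBall z0 (r / 2) :=
    Metric.closedBall_subset_closedBall (by linarith) hz
  have hzK : z ∈ Metric.closedBall z0 r := Metric.closedBall_subset_closedBall (by linarith) hz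
  have hzt : z ∈ φ.target := hrφ hzK
  have hyK : z + v ∈ Metric.closedBall z0 r := by
    have h1 := (v4 z hzK).1
    change z + β z • v ∈ _ at h1
    rwa [hβ1 z hz2, one_smul] at h1
  have hfix' : (g : M → M)^[k] (φ.symm (z + v)) = φ.symm z := by
    rw [← key z hz2]
    exact hfix
  have hGy : G (z + v) = z := by
    change φ ((g : M → M)^[k] (φ.symm (z + v))) = z
    rw [hfix', φ.right_inv hzt]
  have hdet := hreg (z + v) ⟨hrφ hyK, by
    rw [hfix']
    exact φ.map_target hzt⟩ (by rw [hGy, add_sub_cancel_left])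
  have hsmH : ContMDiffAt (𝓡 n) (𝓡 n) 1 ((H v : M → M)^[k]) (φ.symm z) :=
    ((contMDiff_iterate (H v) k).contMDiffAt).of_le (by simp)
  rw [ndg_chart hsmH hfix hφ (φ.map_target hzt), φ.right_inv hzt]
  have hnear : ∀ᶠ z' in 𝓝 z, (φ ∘ (H v : M → M)^[k] ∘ φ.symm) z' = (fun z' => G (z' + v)) z' := by
    have h1 : Metric.closedBall z0 (r / 2) ∈ 𝓝 z := by
      refine mem_of_superset (Metric.ball_mem_nhds z (show 0 < r / 4 by positivity)) ?_
      intro z' hz'
      rw [Metric.mem_closedBall] at hz ⊢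
      rw [Metric.mem_ball] at hz'
      linarith [dist_triangle z' z z0]
    filter_upwards [h1] with z' hz'
    change φ ((H v : M → M)^[k] (φ.symm z')) = φ ((g : M → M)^[k] (φ.symm (z' + v)))
    rw [key z' hz']
  rw [EventuallyEq.fderiv_eq hnear, fderiv_comp_add_right]
  exact hdet

/-- Copy of `step2_local` (file D2l) with `St k L` replaced by `NdL k L`, using `ndl_ball`. -/
theorem ndl_local {k : ℕ} (hk : 0 < k) (g0 : Dif n M) (x0 : M)
    (hmin : ∀ i, 0 < i → i < k → (g0 : M → M)^[i] x0 ≠ x0) :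
    ∃ t ∈ 𝓝 x0, IsCompact t ∧ ∃ O1 : Set (Dif n M), IsOpen[crTop n M ⊤] O1 ∧ g0 ∈ O1 ∧
      ∀ g ∈ O1, ∀ L, IsCompact L → NdL k L g → ∀ O2 : Set (Dif n M), IsOpen[crTop n M ⊤] O2 →
        g ∈ O2 → ∃ g' ∈ O2, NdL k (L ∪ t) g' := by
  obtain ⟨r, hr, hrt, -, -, hd⟩ : ∃ r : ℝ, 0 < r ∧
      Metric.closedBall (chartAt (Er n) x0 x0) r ⊆ (chartAt (Er n) x0).target ∧ True ∧ True ∧
      ∀ i, 0 < i → i < k →
        ∀ x ∈ (chartAt (Er n) x0).symm '' Metric.closedBall (chartAt (Er n) x0 x0) r,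
        (g0 : M → M)^[i] x ∉
          (chartAt (Er n) x0).symm '' Metric.closedBall (chartAt (Er n) x0 x0) r := by
    obtain ⟨r, h1, h2, -, h3⟩ := exists_ball (n := n) g0.continuous hmin
      (mem_chart_source (Er n) x0) (V := Set.univ) Filter.univ_mem
    exact ⟨r, h1, h2, trivial, trivial, h3⟩
  set φ := chartAt (Er n) x0 with hφ
  have hBc : IsCompact (φ.symm '' Metric.closedBall (φ x0) r) :=
    (isCompact_closedBall _ _).image_of_continuousOn (φ.continuousOn_symm.mono hrt)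
  have hsub : Metric.closedBall (φ x0) (r / 4) ⊆ φ.target :=
    (Metric.closedBall_subset_closedBall (by linarith)).trans hrt
  have htc : IsCompact (φ.symm '' Metric.closedBall (φ x0) (r / 4)) :=
    (isCompact_closedBall _ _).image_of_continuousOn (φ.continuousOn_symm.mono hsub)
  have hx0 : x0 ∈ φ.source := mem_chart_source (Er n) x0
  have htn : φ.symm '' Metric.closedBall (φ x0) (r / 4) ∈ 𝓝 x0 := by
    have h1 : Metric.closedBall (φ x0) (r / 4) ∈ 𝓝 (φ x0) :=
      Metric.closedBall_mem_nhds _ (by linarith)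
    have h2 := φ.symm.image_mem_nhds (x := φ x0) (φ.map_source hx0) h1
    rwa [φ.left_inv hx0] at h2
  refine ⟨_, htn, htc, ⋂ i ∈ Finset.Ioo 0 k, {g : Dif n M |
    ∀ x ∈ φ.symm '' Metric.closedBall (φ x0) r, (g : M → M)^[i] x ∈
      (φ.symm '' Metric.closedBall (φ x0) r)ᶜ}, ?_, ?_, ?_⟩
  · letI T := crTop n M ⊤
    exact isOpen_biInter_finset fun i _ =>
      isOpen_mapsTo_iterate ⊤ i hBc hBc.isClosed.isOpen_compl
  · simp only [Set.mem_iInter, Finset.mem_Ioo, Set.mem_setOf_eq, Set.mem_compl_iff]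
    exact fun i hi => hd i hi.1 hi.2
  · intro g hg L hL hst O2 hO2 hgO2
    simp only [Set.mem_iInter, Finset.mem_Ioo, Set.mem_setOf_eq, Set.mem_compl_iff] at hg
    exact ndl_ball hk g (chart_mem_atlas (Er n) x0) hr hrt
      (fun i h1 h2 => hg i ⟨h1, h2⟩) hL hst hO2 hgO2

end

end FB
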