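import Pool.Agent.H.MP_fb873c_an.G3d

/-! # Part G5: the trace formula (G5s) -/

namespace FB

open MeasureTheory
open scoped Topology ContDiff Manifold BoundedContinuousFunction

universe u


section

variable {W : Type} [NormedAddCommGroup W] [InnerProductSpace ℝ W] [FiniteDimensional ℝ W]
  [MeasurableSpace W] [BorelSpace W]
variable {X : Type u} [MetricSpace X] [ChartedSpace W X] [IsManifold 𝓘(ℝ, W) ∞ X]
  [CompactSpace X]

/-- All the smallness conditions on the mollifier scale `ε`. -/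
structure Small (C : Cov W X) (ε r : ℝ) : Prop where
  hr : 0 < r
  h1 : ∀ i, EpsC C i (C.χ i) (C.ψ i) ε
  h2 : ∀ i, EpsC C i (C.σ i) (C.χ i) ε
  h3 : ∀ i, EpsR C i ε r
  h4 : RadR C r

/-- JOB G5b. -/
theorem exists_small (C : Cov W X) : ∃ r0 : ℝ, 0 < r0 ∧ ∀ r, 0 < r → r ≤ r0 →
    ∃ ε0 : ℝ, 0 < ε0 ∧ ∀ ε, ε ≤ ε0 → Small C ε r := by
  obtain ⟨r0, hr0, hR⟩ := exists_radR C
  refine ⟨r0, hr0, fun r hr hrr => ?_⟩
  have hχs : ∀ i, tsupport (C.χ i) ⊆ (chartAt W (C.c i)).source := fun i => tsupport_χ_subset C i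
  have hσs : ∀ i, tsupport (C.σ i) ⊆ (chartAt W (C.c i)).source := fun i => by
    refine Set.Subset.trans (fun p hp => ?_) (hχs i)
    have h1 : C.χ i p = 1 := (C.σχ i p hp).self_of_nhds
    refine subset_tsupport _ ?_
    rw [Function.mem_support, h1]
    exact one_ne_zero
  have hA : ∀ i, ∃ ε0 : ℝ, 0 < ε0 ∧ ∀ ε ≤ ε0, EpsC C i (C.χ i) (C.ψ i) ε :=
    fun i => exists_epsC C i _ _ (hχs i) (C.χψ i)
  have hB : ∀ i, ∃ ε0 : ℝ, 0 < ε0 ∧ ∀ ε ≤ ε0, EpsC C i (C.σ i) (C.χ i) ε :=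
    fun i => exists_epsC C i _ _ (hσs i) (C.σχ i)
  have hD : ∀ i, ∃ ε0 : ℝ, 0 < ε0 ∧ ∀ ε ≤ ε0, EpsR C i ε r := fun i => exists_epsR C i hr
  choose a ha0 ha using hA
  choose b hb0 hb using hB
  choose d hd0 hd using hD
  have key : ∀ f : Fin C.N → ℝ, (∀ i, 0 < f i) → ∃ e : ℝ, 0 < e ∧ ∀ i, e ≤ f i := by
    intro f hf
    by_cases hN : (Finset.univ : Finset (Fin C.N)).Nonempty
    · refine ⟨Finset.univ.inf' hN f, ?_, fun i => Finset.inf'_le _ (Finset.mem_univ i)⟩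
      rw [Finset.lt_inf'_iff]
      exact fun i _ => hf i
    · exact ⟨1, one_pos, fun i => absurd ⟨i, Finset.mem_univ i⟩ hN⟩
  obtain ⟨ea, hea0, hea⟩ := key a ha0
  obtain ⟨eb, heb0, heb⟩ := key b hb0
  obtain ⟨ed, hed0, hed⟩ := key d hd0
  refine ⟨min ea (min eb ed), lt_min hea0 (lt_min heb0 hed0), fun ε hε => ?_⟩
  have h1 : ε ≤ ea := hε.trans (min_le_left _ _)
  have h2 : ε ≤ eb := hε.trans ((min_le_right _ _).trans (min_le_left _ _))
  have h3 : ε ≤ ed := hε.trans ((min_le_right _ _).trans (min_le_right _ _))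
  exact ⟨hr, fun i => ha i ε (h1.trans (hea i)), fun i => hb i ε (h2.trans (heb i)),
    fun i => hd i ε (h3.trans (hed i)), hR r hrr⟩

end

end FB
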