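import Pool.Agent.H.MP_fb873c_an.E1o
import Pool.Agent.H.MP_fb873c_an.G5s

/-! # Part E: evaluation of the trace formula (E1a) -/

namespace FB

open MeasureTheory
open scoped Topology ContDiff Manifold BoundedContinuousFunction

universe u


section

variable {W : Type} [NormedAddCommGroup W] [InnerProductSpace ℝ W] [FiniteDimensional ℝ W]
  [MeasurableSpace W] [BorelSpace W]
variable {X : Type u} [MetricSpace X] [ChartedSpace W X] [IsManifold 𝓘(ℝ, W) ∞ X]
  [CompactSpace X]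

/-- JOB E1a.  Support of the extended kernel function: `Eop(b(· - y) α)` vanishes off the closed `r`-ball
around `Y = chart⁻¹ y`, for `y ∈ chart (tsupport χ_i)`. -/
theorem Eop_kernB_supp (T : Ty W) (C : Cov W X) {b : W → ℝ} {ε r : ℝ} (hb : IsBump b ε)
    (hs : Small C ε r) (i : Fin C.N) (q : ℕ) (Y : X) (hY : Y ∈ tsupport (C.χ i)) (α : Lam W q)
    (p : X) (hp : r < dist Y p) : Eop T C q i (kernB hb q (chartAt W (C.c i) Y) α) p = 0 := by
  rw [Eop_apply]
  by_cases hps : p ∈ tsupport (C.ψ i)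
  · have h1 : ε ≤ ‖chartAt W (C.c i) p - chartAt W (C.c i) Y‖ := by
      by_contra hcon
      have h2 := hs.h3 i p hps Y hY (not_le.1 hcon).le
      rw [dist_comm] at h2
      exact absurd hp (not_lt.2 h2)
    rw [kernB_apply, hb.supp _ h1]
    have h3 : (0 : ℝ) • α = 0 := g3b_s2 (E := Lam W q) α
    rw [h3, map_zero]
  · exact g3b_EL_zero T C i (C.ψ i) p (image_eq_zero_of_notMem_tsupport hps) _

theorem E1a_pre (C : Cov W X) (i : Fin C.N) : (((lpre C i).length : ℕ) : ℝ) ≤ C.N := by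
  have h3 : (lpre C i).length ≤ C.N := by
    unfold lpre
    rw [List.length_take, List.length_finRange]
    exact min_le_right _ _
  exact_mod_cast h3

theorem E1a_suf (C : Cov W X) (i : Fin C.N) : (((lsuf C i).length : ℕ) : ℝ) ≤ C.N := by
  have h3 : (lsuf C i).length ≤ C.N := by
    unfold lsuf
    rw [List.length_drop, List.length_finRange]
    exact Nat.sub_le _ _
  exact_mod_cast h3

theorem E1a_rch (T : Ty W) (C : Cov W X) {b : W → ℝ} {ε r : ℝ} (hb : IsBump b ε)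
    (hs : Small C ε r) (q : ℕ) (l : List (Fin C.N)) (hl : ((l.length : ℕ) : ℝ) ≤ C.N) :
    Rch (ShL T C hb l q) (C.N * r) :=
  (ShL_rch T C hb (q := q) hs.hr.le (fun j => ShI_rch T C hb j hs.hr.le (hs.h3 j)) l).mono
    (mul_le_mul_of_nonneg_right hl hs.hr.le)

theorem E1a_mul (C : Cov W X) (q : ℕ) {f : X → ℝ} (hf : Continuous f) (v : VV C q) (p : X)
    (h : mulV C q f v p ≠ 0) : v p ≠ 0 ∧ f p ≠ 0 := by
  rw [mulV_apply C q hf] at h
  constructor
  · intro h0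
    apply h
    rw [h0]
    exact g3b_s1 (E := Fin C.N → Lam W q) _
  · intro h0
    apply h
    rw [h0]
    exact g3b_s2 (E := Fin C.N → Lam W q) _

/-- The chain of supports. -/
theorem E1a_aux (T : Ty W) (C : Cov W X) {b : W → ℝ} {ε r : ℝ} (hb : IsBump b ε)
    (hs : Small C ε r) (i : Fin C.N) (q : ℕ) (Y : X) (hY : Y ∈ tsupport (C.χ i))
    (B : VV C q →L[ℂ] VV C q) (hne : trInt T C hb i q B (chartAt W (C.c i) Y) ≠ 0) :
    ∃ (w : VV C q) (p1 : X), dist Y p1 ≤ C.N * r ∧ B (mulV C q (C.ρ i) w) p1 ≠ 0 ∧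
      ∀ p2, w p2 ≠ 0 → dist Y p2 ≤ (C.N + 1) * r := by
  obtain ⟨α, hα⟩ : ∃ α : Lam W q, Rop T C q i (ShL T C hb (lsuf C i) q (B (mulV C q (C.ρ i)
      (ShL T C hb (lpre C i) q (mulV C q (C.σ i) (Eop T C q i
        (kernB hb q (chartAt W (C.c i) Y) α))))))) (chartAt W (C.c i) Y) ≠ 0 := by
    by_contra hcon
    push Not at hcon
    apply hne
    exact (congrArg (LinearMap.trace ℂ (Lam W q)) (LinearMap.ext (g := 0) fun α => hcon α)).trans
      (map_zero _)
  have hYs : Y ∈ (chartAt W (C.c i)).source := tsupport_χ_subset C i hY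
  rw [Rop_apply, Set.indicator_of_mem ((chartAt W (C.c i)).map_source hYs),
    (chartAt W (C.c i)).left_inv hYs] at hα
  have hv : ShL T C hb (lsuf C i) q (B (mulV C q (C.ρ i)
      (ShL T C hb (lpre C i) q (mulV C q (C.σ i) (Eop T C q i
        (kernB hb q (chartAt W (C.c i) Y) α)))))) Y ≠ 0 := by
    intro h0
    apply hα
    rw [h0, map_zero]
    exact g3b_s1 (E := Lam W q) _
  obtain ⟨p1, hp1, hB⟩ := (E1a_rch T C hb hs q (lsuf C i) (E1a_suf C i)).support _ Y hv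
  refine ⟨_, p1, hp1, hB, fun p2 hp2 => ?_⟩
  obtain ⟨p3, hp3, h3⟩ := (E1a_rch T C hb hs q (lpre C i) (E1a_pre C i)).support _ p2 hp2
  have h4 := (E1a_mul C q (C.smσ i).continuous _ p3 h3).1
  have h5 : dist Y p3 ≤ r := by
    by_contra hcon
    exact h4 (Eop_kernB_supp T C hb hs i q Y hY α p3 (not_le.1 hcon))
  calc dist Y p2 ≤ dist Y p3 + dist p3 p2 := dist_triangle _ _ _
    _ ≤ r + C.N * r := add_le_add h5 (by rw [dist_comm]; exact hp3)
    _ = (C.N + 1) * r := by ring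

/-- JOB E1a.  Far from the fixed points the integrand vanishes: follow the supports
`Eop(..)` in `B(Y,r)`; `Ŝ_{<i}` moves by `≤ N r`, `Ŝ` by `≤ N r`, `F̂` : `(F̂ w)(p) ≠ 0 → w (F p) ≠ 0`,
`Ŝ_{>i}` by `≤ N r`; `Rop_i` at `y = chart Y` depends on the value at `Y`. -/
theorem trI_far (T : Ty W) (hX : TGood T X) (C : Cov W X) {F : X → X}
    (hF : ContMDiff 𝓘(ℝ, W) 𝓘(ℝ, W) ∞ F) {b : W → ℝ} {ε r : ℝ} (hb : IsBump b ε) (hs : Small C ε r)
    (i : Fin C.N) (q : ℕ) (Y : X) (hY : Y ∈ tsupport (C.χ i))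
    (hne : trI T hX C hF hb i q (chartAt W (C.c i) Y) ≠ 0) :
    ∃ p', dist Y p' ≤ (3 * C.N + 1) * r ∧ dist p' (F p') ≤ (3 * C.N + 1) * r := by
  obtain ⟨w, p1, hp1, hB, hw⟩ := E1a_aux T C hb hs i q Y hY _ hne
  have hB' : FV T hX C hF q (ShL T C hb (List.finRange C.N) q (mulV C q (C.ρ i) w)) p1 ≠ 0 := hB
  rw [FV_apply] at hB'
  have h1 : ShL T C hb (List.finRange C.N) q (mulV C q (C.ρ i) w) (F p1) ≠ 0 := by
    intro h0
    apply hB'
    rw [h0, map_zero]
  obtain ⟨p2, hp2, h2⟩ := (E1a_rch T C hb hs q (List.finRange C.N)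
    (by rw [List.length_finRange])).support _ (F p1) h1
  have h3 := hw p2 (E1a_mul C q (C.smρ i).continuous _ p2 h2).1
  have hr := hs.hr
  have hN : (0 : ℝ) ≤ C.N * r := mul_nonneg (Nat.cast_nonneg _) hr.le
  refine ⟨p1, ?_, ?_⟩
  · linarith
  · have h4 := dist_triangle p1 Y (F p1)
    have h5 := dist_triangle Y p2 (F p1)
    rw [dist_comm p1 Y] at h4
    rw [dist_comm p2 (F p1)] at h5
    linarith

/-- JOB E1a.  If `ρ_i` vanishes around `Y` then the integrand vanishes. -/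
theorem trI_wrong (T : Ty W) (hX : TGood T X) (C : Cov W X) {F : X → X}
    (hF : ContMDiff 𝓘(ℝ, W) 𝓘(ℝ, W) ∞ F) {b : W → ℝ} {ε r : ℝ} (hb : IsBump b ε) (hs : Small C ε r)
    (i : Fin C.N) (q : ℕ) (Y : X) (hY : Y ∈ tsupport (C.χ i))
    (h : ∀ p, dist Y p ≤ (C.N + 1) * r → C.ρ i p = 0) :
    trI T hX C hF hb i q (chartAt W (C.c i) Y) = 0 := by
  by_contra hne
  obtain ⟨w, p1, hp1, hB, hw⟩ := E1a_aux T C hb hs i q Y hY _ hne
  apply hB
  have h1 : mulV C q (C.ρ i) w = 0 := by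
    refine ContinuousMap.ext fun p => ?_
    by_contra h0
    obtain ⟨h2, h3⟩ := E1a_mul C q (C.smρ i).continuous _ p h0
    exact h3 (h p (hw p h2))
  rw [h1, map_zero]
  rfl

end

end FB
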