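import Pool.Agent.H.MP_fb873c_an.G1a

/-! # Part G1: calculus of forms on manifolds (preferred chart formalism) (G1e) -/

namespace FB

open scoped Topology ContDiff Manifold

universe u


section

variable {W : Type} [NormedAddCommGroup W] [NormedSpace ℝ W]
variable {X : Type u} [TopologicalSpace X] [ChartedSpace W X] [IsManifold 𝓘(ℝ, W) ∞ X]
variable {W' : Type} [NormedAddCommGroup W'] [NormedSpace ℝ W']
variable {Y : Type u} [TopologicalSpace Y] [ChartedSpace W' Y] [IsManifold 𝓘(ℝ, W') ∞ Y]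
variable {W'' : Type} [NormedAddCommGroup W''] [NormedSpace ℝ W'']
variable {Z : Type u} [TopologicalSpace Z] [ChartedSpace W'' Z] [IsManifold 𝓘(ℝ, W'') ∞ Z]

/-- JOB G1e.  Smooth maps are smooth in charts. -/
theorem contDiffAt_charts {F : X → Y} (hF : ContMDiff 𝓘(ℝ, W) 𝓘(ℝ, W') ∞ F) (x0 : X) (y0 : Y) (p : X)
    (h0 : p ∈ (chartAt W x0).source) (h1 : F p ∈ (chartAt W' y0).source) :
    ContDiffAt ℝ ∞ (chartAt W' y0 ∘ F ∘ (chartAt W x0).symm) (chartAt W x0 p) := by
  have h := ((contMDiffAt_iff_of_mem_source (I := 𝓘(ℝ, W)) (I' := 𝓘(ℝ, W')) (n := ∞) h0 h1).1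
    (hF p)).2
  simpa [mfld_simps, contDiffWithinAt_univ] using h

/-- Chain rule in arbitrary charts. -/
theorem fderiv_charts_comp {F : X → Y} (hF : ContMDiff 𝓘(ℝ, W) 𝓘(ℝ, W') ∞ F) {G : Y → Z}
    (hG : ContMDiff 𝓘(ℝ, W') 𝓘(ℝ, W'') ∞ G) (x0 : X) (y0 : Y) (z0 : Z) (p : X)
    (h0 : p ∈ (chartAt W x0).source) (h1 : F p ∈ (chartAt W' y0).source)
    (h2 : G (F p) ∈ (chartAt W'' z0).source) :
    fderiv ℝ (chartAt W'' z0 ∘ (G ∘ F) ∘ (chartAt W x0).symm) (chartAt W x0 p)
      = (fderiv ℝ (chartAt W'' z0 ∘ G ∘ (chartAt W' y0).symm) (chartAt W' y0 (F p))).comp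
        (fderiv ℝ (chartAt W' y0 ∘ F ∘ (chartAt W x0).symm) (chartAt W x0 p)) := by
  have hsymm : (chartAt W x0).symm (chartAt W x0 p) = p := (chartAt W x0).left_inv h0
  have hev : (chartAt W'' z0 ∘ (G ∘ F) ∘ (chartAt W x0).symm) =ᶠ[𝓝 (chartAt W x0 p)]
      (chartAt W'' z0 ∘ G ∘ (chartAt W' y0).symm) ∘ (chartAt W' y0 ∘ F ∘ (chartAt W x0).symm) := by
    have hc : ContinuousAt (F ∘ (chartAt W x0).symm) (chartAt W x0 p) := by
      apply ContinuousAt.comp
      · exact hF.continuous.continuousAt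
      · exact (chartAt W x0).continuousAt_symm ((chartAt W x0).map_source h0)
    have hmem : (F ∘ (chartAt W x0).symm) ⁻¹' (chartAt W' y0).source ∈ 𝓝 (chartAt W x0 p) := by
      apply hc.preimage_mem_nhds
      rw [Function.comp_apply, hsymm]
      exact (chartAt W' y0).open_source.mem_nhds h1
    filter_upwards [hmem] with z hz
    have hz' : (chartAt W' y0).symm (chartAt W' y0 (F ((chartAt W x0).symm z)))
        = F ((chartAt W x0).symm z) := (chartAt W' y0).left_inv hz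
    simp only [Function.comp_apply, hz']
  rw [hev.fderiv_eq]
  have hval : (chartAt W' y0 ∘ F ∘ (chartAt W x0).symm) (chartAt W x0 p) = chartAt W' y0 (F p) := by
    simp only [Function.comp_apply, hsymm]
  have hd1 : DifferentiableAt ℝ (chartAt W' y0 ∘ F ∘ (chartAt W x0).symm) (chartAt W x0 p) :=
    (contDiffAt_charts hF x0 y0 p h0 h1).differentiableAt (by simp)
  have hd2 : DifferentiableAt ℝ (chartAt W'' z0 ∘ G ∘ (chartAt W' y0).symm)
      ((chartAt W' y0 ∘ F ∘ (chartAt W x0).symm) (chartAt W x0 p)) := by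
    rw [hval]
    exact (contDiffAt_charts hG y0 z0 (F p) h1 h2).differentiableAt (by simp)
  rw [fderiv_comp _ hd2 hd1, hval]

/-- JOB G1e.  Derivative in arbitrary charts. -/
theorem fd_change {F : X → Y} (hF : ContMDiff 𝓘(ℝ, W) 𝓘(ℝ, W') ∞ F) (x0 : X) (y0 : Y) (p : X)
    (h0 : p ∈ (chartAt W x0).source) (h1 : F p ∈ (chartAt W' y0).source) :
    fderiv ℝ (chartAt W' y0 ∘ F ∘ (chartAt W x0).symm) (chartAt W x0 p)
      = (trd (F p) y0 (F p)).comp ((fd (W := W) (W' := W') F p).comp (trd x0 p p)) := by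
  have e1 := fderiv_charts_comp (W := W) (W' := W') (W'' := W') hF (G := (id : Y → Y)) contMDiff_id
    x0 (F p) y0 p h0 (mem_chart_source W' (F p)) h1
  have e2 := fderiv_charts_comp (W := W) (W' := W) (W'' := W') (F := (id : X → X)) contMDiff_id hF
    x0 p (F p) p h0 (mem_chart_source W p) (mem_chart_source W' (F p))
  have e1' : fderiv ℝ (chartAt W' y0 ∘ F ∘ (chartAt W x0).symm) (chartAt W x0 p) =
      (trd (F p) y0 (F p)).comp
        (fderiv ℝ (chartAt W' (F p) ∘ F ∘ (chartAt W x0).symm) (chartAt W x0 p)) := e1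
  have e2' : fderiv ℝ (chartAt W' (F p) ∘ F ∘ (chartAt W x0).symm) (chartAt W x0 p) =
      (fd (W := W) (W' := W') F p).comp (trd x0 p p) := e2
  rw [e1', e2']

/-- JOB G1e.  Pull-back in arbitrary charts. -/
theorem val_pb {q : ℕ} (η : Y → Lam W' q) {F : X → Y} (hF : ContMDiff 𝓘(ℝ, W) 𝓘(ℝ, W') ∞ F)
    (x0 : X) (y0 : Y) (p : X) (h0 : p ∈ (chartAt W x0).source) (h1 : F p ∈ (chartAt W' y0).source) :
    val x0 (pb F η) p = (val y0 η (F p)).compContinuousLinearMap
      (fderiv ℝ (chartAt W' y0 ∘ F ∘ (chartAt W x0).symm) (chartAt W x0 p)) := by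
  rw [fd_change hF x0 y0 p h0 h1]
  have h := trd_comp (W := W') (F p) y0 (F p) (F p) (mem_chart_source W' (F p)) h1
    (mem_chart_source W' (F p))
  rw [trd_self (W := W') (F p) (F p) (mem_chart_source W' (F p))] at h
  have h' : ∀ u, trd (W := W') y0 (F p) (F p) (trd (W := W') (F p) y0 (F p) u) = u := by
    intro u
    have := congrArg (fun L : W' →L[ℝ] W' => L u) h
    simpa using this
  unfold val pb
  ext v
  simp only [ContinuousAlternatingMap.compContinuousLinearMap_apply]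
  congr 1
  funext i
  simp only [Function.comp_apply, ContinuousLinearMap.comp_apply, h']

/-- JOB G1e.  Functoriality. -/
theorem fd_comp {F : X → Y} (hF : ContMDiff 𝓘(ℝ, W) 𝓘(ℝ, W') ∞ F) {G : Y → Z}
    (hG : ContMDiff 𝓘(ℝ, W') 𝓘(ℝ, W'') ∞ G) (p : X) :
    fd (W := W) (W' := W'') (G ∘ F) p
      = (fd (W := W') (W' := W'') G (F p)).comp (fd (W := W) (W' := W') F p) :=
  fderiv_charts_comp hF hG p (F p) (G (F p)) p (mem_chart_source W p) (mem_chart_source W' (F p))
    (mem_chart_source W'' (G (F p)))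

theorem fd_id (p : X) : fd (W := W) (W' := W) (id : X → X) p = ContinuousLinearMap.id ℝ W :=
  trd_self (W := W) p p (mem_chart_source W p)

theorem pb_comp {q : ℕ} (η : Z → Lam W'' q) {F : X → Y} (hF : ContMDiff 𝓘(ℝ, W) 𝓘(ℝ, W') ∞ F)
    {G : Y → Z} (hG : ContMDiff 𝓘(ℝ, W') 𝓘(ℝ, W'') ∞ G) (p : X) :
    pb (W := W) (G ∘ F) η p = pb F (pb (W := W') G η) p := by
  unfold pb
  rw [fd_comp hF hG p]
  ext v
  simp only [ContinuousAlternatingMap.compContinuousLinearMap_apply, Function.comp_apply]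
  rfl

end

end FB
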