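import Pool.Agent.H.MP_fb873c_an.G1b
import Pool.Agent.H.MP_fb873c_an.G1e

/-! # Part G1: calculus of forms on manifolds (preferred chart formalism) (G1f) -/

namespace FB

open scoped Topology ContDiff Manifold

universe u

section G1f_aux

variable {W : Type} [NormedAddCommGroup W] [NormedSpace ℝ W]
variable {W' : Type} [NormedAddCommGroup W'] [NormedSpace ℝ W']

/-- Alternatization of continuous multilinear maps as a continuous linear map. -/
private noncomputable def G1f_alt (q : ℕ) :
    ContinuousMultilinearMap ℝ (fun _ : Fin q => W) ℂ →L[ℝ] Lam W q :=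
  LinearMap.mkContinuous
    { toFun := fun f => ContinuousMultilinearMap.alternatization f
      map_add' := fun f g => map_add _ f g
      map_smul' := fun c f => by
        ext v
        simp only [ContinuousMultilinearMap.alternatization_apply_apply,
          smul_apply, ContinuousAlternatingMap.smul_apply,
          RingHom.id_apply, Finset.smul_sum]
        refine Finset.sum_congr rfl fun σ _ => ?_
        rw [smul_comm] }
    (q.factorial : ℝ) (by
      intro f
      refine ContinuousAlternatingMap.opNorm_le_bound _ (by positivity) fun v => ?_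
      show ‖ContinuousMultilinearMap.alternatization f v‖ ≤ _
      rw [ContinuousMultilinearMap.alternatization_apply_apply]
      refine (norm_sum_le _ _).trans ?_
      have h1 : ∀ σ ∈ (Finset.univ : Finset (Equiv.Perm (Fin q))),
          ‖Equiv.Perm.sign σ • f (v ∘ σ)‖ ≤ ‖f‖ * ∏ i, ‖v i‖ := by
        intro σ _
        have h2 : ‖Equiv.Perm.sign σ • f (v ∘ σ)‖ = ‖f (v ∘ σ)‖ := by
          rcases Int.units_eq_one_or (Equiv.Perm.sign σ) with h | h
          · rw [h, one_smul]
          · rw [h, Units.neg_smul, one_smul, norm_neg]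
        rw [h2]
        refine (f.le_opNorm _).trans_eq ?_
        congr 1
        exact Equiv.prod_comp σ (fun i => ‖v i‖)
      refine (Finset.sum_le_card_nsmul _ _ _ h1).trans_eq ?_
      rw [Finset.card_univ, Fintype.card_perm, Fintype.card_fin, nsmul_eq_mul, mul_assoc])

private theorem G1f_alt_coe {q : ℕ} (α : Lam W q) :
    G1f_alt q α.toContinuousMultilinearMap = (q.factorial : ℝ) • α := by
  ext v
  show ContinuousMultilinearMap.alternatization α.toContinuousMultilinearMap v = _
  rw [ContinuousMultilinearMap.alternatization_apply_apply, ContinuousAlternatingMap.smul_apply]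
  have h1 : ∀ σ ∈ (Finset.univ : Finset (Equiv.Perm (Fin q))),
      Equiv.Perm.sign σ • α.toContinuousMultilinearMap (v ∘ σ) = α v := by
    intro σ _
    have h2 : α.toContinuousMultilinearMap (v ∘ σ) = Equiv.Perm.sign σ • α v :=
      α.toAlternatingMap.map_perm v σ
    rw [h2, smul_smul, Int.units_mul_self, one_smul]
  rw [Finset.sum_congr rfl h1, Finset.sum_const, Finset.card_univ, Fintype.card_perm,
    Fintype.card_fin]
  simp

/-- Pull-back of forms is smooth in the form and in the linear map. -/
theorem G1f_contDiffAt_comp {E : Type} [NormedAddCommGroup E] [NormedSpace ℝ E] {q : ℕ}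
    {α : E → Lam W' q} {A : E → W →L[ℝ] W'} {z : E} {n : WithTop ℕ∞}
    (hα : ContDiffAt ℝ n α z) (hA : ContDiffAt ℝ n A z) :
    ContDiffAt ℝ n (fun y => (α y).compContinuousLinearMap (A y)) z := by
  let M := ContinuousMultilinearMap.compContinuousLinearMapContinuousMultilinear ℝ
    (fun _ : Fin q => W) (fun _ : Fin q => W') ℂ
  have h0 : ContDiff ℝ n (fun a : Fin q → W →L[ℝ] W' => M a) :=
    ContinuousMultilinearMap.contDiff (𝕜 := ℝ) (E := fun _ : Fin q => W →L[ℝ] W')
      (F := (ContinuousMultilinearMap ℝ (fun _ : Fin q => W') ℂ) →L[ℝ]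
        ContinuousMultilinearMap ℝ (fun _ : Fin q => W) ℂ) M
  have h1 : ContDiffAt ℝ n (fun y => M (fun _ => A y)) z :=
    h0.contDiffAt.comp z (contDiffAt_pi.2 fun _ => hA)
  have h2 : ContDiffAt ℝ n (fun y => (α y).toContinuousMultilinearMap) z :=
    (ContinuousAlternatingMap.toContinuousMultilinearMapCLM ℝ :
      Lam W' q →L[ℝ] _).contDiff.contDiffAt.comp z hα
  have h3 : ContDiffAt ℝ n
      (fun y => G1f_alt q (M (fun _ => A y) (α y).toContinuousMultilinearMap)) z :=
    (ContinuousLinearMap.contDiff (G1f_alt (W := W) q)).contDiffAt.comp z (h1.clm_apply h2)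
  have h4 : (fun y => (α y).compContinuousLinearMap (A y)) =
      fun y => (q.factorial : ℝ)⁻¹ •
        G1f_alt q (M (fun _ => A y) (α y).toContinuousMultilinearMap) := by
    funext y
    have h5 : M (fun _ => A y) (α y).toContinuousMultilinearMap =
        ((α y).compContinuousLinearMap (A y)).toContinuousMultilinearMap := by
      ext v
      rfl
    rw [h5, G1f_alt_coe, smul_smul, inv_mul_cancel₀ (by positivity), one_smul]
  rw [h4]
  exact h3.const_smul _

end G1f_aux

section

variable {W : Type} [NormedAddCommGroup W] [NormedSpace ℝ W]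
variable {X : Type u} [TopologicalSpace X] [ChartedSpace W X] [IsManifold 𝓘(ℝ, W) ∞ X]
variable {W' : Type} [NormedAddCommGroup W'] [NormedSpace ℝ W']
variable {Y : Type u} [TopologicalSpace Y] [ChartedSpace W' Y] [IsManifold 𝓘(ℝ, W') ∞ Y]
variable {W'' : Type} [NormedAddCommGroup W''] [NormedSpace ℝ W'']
variable {Z : Type u} [TopologicalSpace Z] [ChartedSpace W'' Z] [IsManifold 𝓘(ℝ, W'') ∞ Z]

/-- Local expression of the pull-back. -/
theorem G1f_local {q : ℕ} (η : Y → Lam W' q) {F : X → Y}
    (hF : ContMDiff 𝓘(ℝ, W) 𝓘(ℝ, W') ∞ F) (p : X) :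
    (rep p (pb F η) : W → Lam W q) =ᶠ[𝓝 (chartAt W p p)]
      fun z => (rep (F p) η ((chartAt W' (F p) ∘ F ∘ (chartAt W p).symm) z)).compContinuousLinearMap
        (fderiv ℝ (chartAt W' (F p) ∘ F ∘ (chartAt W p).symm) z) := by
  have h1 : ∀ᶠ z in 𝓝 (chartAt W p p), z ∈ (chartAt W p).target :=
    (chartAt W p).open_target.mem_nhds (mem_chart_target W p)
  have h2 : ∀ᶠ z in 𝓝 (chartAt W p p), F ((chartAt W p).symm z) ∈ (chartAt W' (F p)).source := by
    have h3 : ContinuousAt (fun z => F ((chartAt W p).symm z)) (chartAt W p p) := by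
      have h4 : ContinuousAt (chartAt W p).symm (chartAt W p p) :=
        (chartAt W p).continuousAt_symm (mem_chart_target W p)
      exact hF.continuous.continuousAt.comp h4
    apply h3
    have h5 : (fun z => F ((chartAt W p).symm z)) (chartAt W p p) = F p := by
      show F ((chartAt W p).symm (chartAt W p p)) = F p
      rw [(chartAt W p).left_inv (mem_chart_source W p)]
    rw [h5]
    exact (chartAt W' (F p)).open_source.mem_nhds (mem_chart_source W' (F p))
  filter_upwards [h1, h2] with z hz hz'
  have h6 : (chartAt W p).symm z ∈ (chartAt W p).source := (chartAt W p).map_target hz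
  have h7 : chartAt W p ((chartAt W p).symm z) = z := (chartAt W p).right_inv hz
  have h8 := val_pb η hF p (F p) ((chartAt W p).symm z) h6 hz'
  rw [h7] at h8
  have h9 := rep_chart η (F p) (F ((chartAt W p).symm z)) hz'
  show val p (pb F η) ((chartAt W p).symm z) = _
  rw [h8, ← h9]
  rfl

/-- JOB G1f. -/
theorem SmoothForm.pb {q : ℕ} {η : Y → Lam W' q} (h : SmoothForm η) {F : X → Y}
    (hF : ContMDiff 𝓘(ℝ, W) 𝓘(ℝ, W') ∞ F) : SmoothForm (W := W) (pb F η) := by
  rw [smoothForm_iff]
  intro p
  refine ContDiffAt.congr_of_eventuallyEq ?_ (G1f_local η hF p)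
  have h1 : ContDiffAt ℝ ∞ (chartAt W' (F p) ∘ F ∘ (chartAt W p).symm) (chartAt W p p) :=
    contDiffAt_charts hF p (F p) p (mem_chart_source W p) (mem_chart_source W' (F p))
  have h2 : (chartAt W' (F p) ∘ F ∘ (chartAt W p).symm) (chartAt W p p) =
      chartAt W' (F p) (F p) := by
    show chartAt W' (F p) (F ((chartAt W p).symm (chartAt W p p))) = _
    rw [(chartAt W p).left_inv (mem_chart_source W p)]
  have h3 : ContDiffAt ℝ ∞ (rep (F p) η)
      ((chartAt W' (F p) ∘ F ∘ (chartAt W p).symm) (chartAt W p p)) := by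
    rw [h2]
    exact h.contDiffAt (F p) (F p) (mem_chart_source W' (F p))
  refine G1f_contDiffAt_comp (h3.comp _ h1) ?_
  exact h1.fderiv_right (m := ∞) (by simp)

/-- JOB G1f.  Pull-back commutes with `d` (`extDeriv_pullback`). -/
theorem dform_pb {q : ℕ} {η : Y → Lam W' q} (h : SmoothForm η) {F : X → Y}
    (hF : ContMDiff 𝓘(ℝ, W) 𝓘(ℝ, W') ∞ F) (p : X) :
    FB.dform (W := W) (FB.pb F η) p = FB.pb F (FB.dform η) p := by
  have h1 : ContDiffAt ℝ ∞ (chartAt W' (F p) ∘ F ∘ (chartAt W p).symm) (chartAt W p p) :=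
    contDiffAt_charts hF p (F p) p (mem_chart_source W p) (mem_chart_source W' (F p))
  have h2 : (chartAt W' (F p) ∘ F ∘ (chartAt W p).symm) (chartAt W p p) =
      chartAt W' (F p) (F p) := by
    show chartAt W' (F p) (F ((chartAt W p).symm (chartAt W p p))) = _
    rw [(chartAt W p).left_inv (mem_chart_source W p)]
  have h3 : ContDiffAt ℝ ∞ (rep (F p) η)
      ((chartAt W' (F p) ∘ F ∘ (chartAt W p).symm) (chartAt W p p)) := by
    rw [h2]
    exact h.contDiffAt (F p) (F p) (mem_chart_source W' (F p))
  show extDeriv (rep p (FB.pb F η)) (chartAt W p p) =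
    (extDeriv (rep (F p) η) (chartAt W' (F p) (F p))).compContinuousLinearMap
      (fderiv ℝ (chartAt W' (F p) ∘ F ∘ (chartAt W p).symm) (chartAt W p p))
  have h4 : minSmoothness ℝ 2 ≤ (∞ : WithTop ℕ∞) := by
    rw [minSmoothness_of_isRCLikeNormedField]
    exact WithTop.coe_le_coe.2 (le_top : (2 : ℕ∞) ≤ ⊤)
  rw [(G1f_local η hF p).extDeriv_eq, extDeriv_pullback (h3.differentiableAt (by simp)) h1 h4, h2]

end

end FB
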