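import Mathlib

/-! # Part G2c: finite families of charts with cutoff functions -/

namespace FB

open scoped Topology ContDiff Manifold

universe u

section

variable {W : Type} [NormedAddCommGroup W] [NormedSpace ℝ W]

/-- Finite family of preferred charts `chartAt (c i)`, `i < N`, with cutoffs
`ρ i` (partition of unity), `σ i = 1` near `supp ρ i`, `χ i = 1` near `supp σ i`, `ψ i = 1` near
`supp χ i`, `supp ψ i` in the chart domain, and `∑ θ_i² = 1`, `supp θ i` in the chart domain. -/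
structure Cov (W : Type) [NormedAddCommGroup W] [NormedSpace ℝ W] (X : Type u) [TopologicalSpace X]
    [ChartedSpace W X] where
  N : ℕ
  c : Fin N → X
  ρ : Fin N → X → ℝ
  σ : Fin N → X → ℝ
  χ : Fin N → X → ℝ
  ψ : Fin N → X → ℝ
  θ : Fin N → X → ℝ
  smρ : ∀ i, ContMDiff 𝓘(ℝ, W) 𝓘(ℝ, ℝ) ∞ (ρ i)
  smσ : ∀ i, ContMDiff 𝓘(ℝ, W) 𝓘(ℝ, ℝ) ∞ (σ i)
  smχ : ∀ i, ContMDiff 𝓘(ℝ, W) 𝓘(ℝ, ℝ) ∞ (χ i)
  smψ : ∀ i, ContMDiff 𝓘(ℝ, W) 𝓘(ℝ, ℝ) ∞ (ψ i)
  smθ : ∀ i, ContMDiff 𝓘(ℝ, W) 𝓘(ℝ, ℝ) ∞ (θ i)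
  sum_ρ : ∀ p, ∑ i, ρ i p = 1
  sum_θ : ∀ p, ∑ i, θ i p ^ 2 = 1
  ρσ : ∀ i, ∀ p ∈ tsupport (ρ i), ∀ᶠ y in 𝓝 p, σ i y = 1
  σχ : ∀ i, ∀ p ∈ tsupport (σ i), ∀ᶠ y in 𝓝 p, χ i y = 1
  χψ : ∀ i, ∀ p ∈ tsupport (χ i), ∀ᶠ y in 𝓝 p, ψ i y = 1
  ψs : ∀ i, tsupport (ψ i) ⊆ (chartAt W (c i)).source
  θs : ∀ i, tsupport (θ i) ⊆ (chartAt W (c i)).source

/-- Near every point `z` of `Z` exactly one chart `i` is active, it is centred at `z`, and its cutoffs are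
equal to one there; the cutoffs of the other charts vanish there. -/
def Cov.Adapted {X : Type u} [TopologicalSpace X] [ChartedSpace W X] (C : Cov W X) (Z : Set X) : Prop :=
  ∀ z ∈ Z, ∃ i, C.c i = z ∧ (∀ᶠ y in 𝓝 z, C.ρ i y = 1 ∧ C.σ i y = 1 ∧ C.χ i y = 1 ∧ C.ψ i y = 1 ∧
      C.θ i y = 1) ∧
    ∀ j, j ≠ i → ∀ᶠ y in 𝓝 z, C.ρ j y = 0 ∧ C.σ j y = 0 ∧ C.χ j y = 0 ∧ C.ψ j y = 0 ∧ C.θ j y = 0

theorem g2c_ury [FiniteDimensional ℝ W] {X : Type u} [TopologicalSpace X] [ChartedSpace W X]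
    [IsManifold 𝓘(ℝ, W) ∞ X] [CompactSpace X] [T2Space X] {K O : Set X} (hK : IsClosed K)
    (hO : IsOpen O) (hKO : K ⊆ O) :
    ∃ f : X → ℝ, ContMDiff 𝓘(ℝ, W) 𝓘(ℝ, ℝ) ∞ f ∧ (∀ p ∈ K, ∀ᶠ y in 𝓝 p, f y = 1) ∧
      tsupport f ⊆ O := by
  obtain ⟨V, hV, hKV, hVO⟩ := normal_exists_closure_subset hK hO hKO
  have hint : K ⊆ interior (closure V) := hKV.trans (hV.subset_interior_iff.mpr subset_closure)
  obtain ⟨f, hf1, hf0, -⟩ := exists_contMDiffMap_one_nhds_of_subset_interior (n := ⊤)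
    𝓘(ℝ, W) hK hint
  refine ⟨f, f.contMDiff, ?_, ?_⟩
  · intro p hp
    exact hf1.filter_mono (nhds_le_nhdsSet hp)
  · refine (closure_minimal ?_ isClosed_closure).trans hVO
    intro x hx
    by_contra hcon
    exact hx (hf0 x hcon)

/-- JOB G2c.  Existence.  `O_p = (chartAt p).source \ (Z \ {p})` is an open neighbourhood of `p`; take a
smooth partition of unity subordinate to a finite subcover (indexed by centres; only `p = z` covers
`z ∈ Z`), `ρ`; then smooth Urysohn functions `σ = 1` near `supp ρ`, `supp σ ⊆ O`, and so on;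
`θ_i = ρ_i / sqrt(∑ ρ_j²)`.  Near `z` all `ρ_j`, `j ≠ i(z)`, vanish because `z ∉ O_{c j} ⊇ supp ψ_j`. -/
theorem exists_cov [FiniteDimensional ℝ W] (X : Type u) [TopologicalSpace X] [ChartedSpace W X]
    [IsManifold 𝓘(ℝ, W) ∞ X] [CompactSpace X] [T2Space X] (Z : Set X) (hZ : Z.Finite) :
    ∃ C : Cov W X, C.Adapted Z := by
  classical
  let O : X → Set X := fun p => (chartAt W p).source \ (Z \ {p})
  have hOo : ∀ p, IsOpen (O p) := fun p =>
    (chartAt W p).open_source.sdiff (hZ.subset Set.diff_subset).isClosed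
  have hOm : ∀ p, p ∈ O p := fun p => ⟨mem_chart_source W p, fun h => h.2 rfl⟩
  have hOs : ∀ p, O p ⊆ (chartAt W p).source := fun p => Set.diff_subset
  have hOz : ∀ z ∈ Z, ∀ p, z ∈ O p → z = p := by
    intro z hz p hp
    by_contra hne
    exact hp.2 ⟨hz, hne⟩
  obtain ⟨s, hs⟩ := isCompact_univ.elim_finite_subcover O hOo
    (fun x _ => Set.mem_iUnion.mpr ⟨x, hOm x⟩)
  let e : Fin s.card ≃ s := s.equivFin.symm
  let c : Fin s.card → X := fun i => (e i : X)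
  have hcinj : Function.Injective c := fun i j h => e.injective (Subtype.ext h)
  have hcover : (Set.univ : Set X) ⊆ ⋃ i, O (c i) := by
    intro x hx
    obtain ⟨p, hp⟩ := Set.mem_iUnion.mp (hs hx)
    obtain ⟨hps, hp'⟩ := Set.mem_iUnion.mp hp
    refine Set.mem_iUnion.mpr ⟨e.symm ⟨p, hps⟩, ?_⟩
    have : c (e.symm ⟨p, hps⟩) = p := by simp [c]
    rw [this]
    exact hp'
  obtain ⟨f, hf⟩ := SmoothPartitionOfUnity.exists_isSubordinate 𝓘(ℝ, W) isClosed_univ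
    (fun i => O (c i)) (fun i => hOo _) hcover
  have hsum : ∀ p, ∑ i, f i p = 1 := by
    intro p
    have := f.sum_eq_one (Set.mem_univ p)
    rwa [finsum_eq_sum_of_fintype] at this
  have hρs : ∀ i, tsupport (f i) ⊆ O (c i) := hf
  choose σ smσ σ1 σs using fun i => g2c_ury (W := W) (isClosed_tsupport (f i)) (hOo (c i)) (hρs i)
  choose χ smχ χ1 χs using fun i => g2c_ury (W := W) (isClosed_tsupport (σ i)) (hOo (c i)) (σs i)
  choose ψ smψ ψ1 ψs using fun i => g2c_ury (W := W) (isClosed_tsupport (χ i)) (hOo (c i)) (χs i)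
  let S : X → ℝ := fun p => ∑ i, f i p ^ 2
  have hSpos : ∀ p, 0 < S p := by
    intro p
    have h0 : 0 ≤ S p := Finset.sum_nonneg fun i _ => sq_nonneg _
    rcases h0.lt_or_eq with h | h
    · exact h
    · exfalso
      have h1 := (Finset.sum_eq_zero_iff_of_nonneg (fun i _ => sq_nonneg (f i p))).mp h.symm
      have h2 : ∀ i, f i p = 0 := fun i => by
        have := h1 i (Finset.mem_univ i)
        exact pow_eq_zero_iff (two_ne_zero) |>.mp this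
      have h3 := hsum p
      simp [h2] at h3
  have hSsm : ContMDiff 𝓘(ℝ, W) 𝓘(ℝ, ℝ) ∞ S := by
    have : ∀ i, ContMDiff 𝓘(ℝ, W) 𝓘(ℝ, ℝ) ∞ (fun p => f i p ^ 2) := fun i =>
      (f i).contMDiff.pow 2
    have h2 := contMDiff_finsetSum (t := Finset.univ) (fun i (_ : i ∈ Finset.univ) => this i)
    simpa [S] using h2
  let θ : Fin s.card → X → ℝ := fun i p => f i p * (Real.sqrt (S p))⁻¹
  have hθsm : ∀ i, ContMDiff 𝓘(ℝ, W) 𝓘(ℝ, ℝ) ∞ (θ i) := by
    intro i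
    refine (f i).contMDiff.mul ?_
    intro p
    have hg : ContDiffAt ℝ ∞ (fun t : ℝ => (Real.sqrt t)⁻¹) (S p) :=
      (Real.contDiffAt_sqrt (hSpos p).ne').inv (Real.sqrt_ne_zero'.mpr (hSpos p))
    exact ContMDiffAt.comp (g := fun t : ℝ => (Real.sqrt t)⁻¹) (f := S) p hg.contMDiffAt (hSsm p)
  have hθ0 : ∀ i p, f i p = 0 → θ i p = 0 := fun i p h => by simp [θ, h]
  have hθts : ∀ i, tsupport (θ i) ⊆ tsupport (f i) := by
    intro i
    refine closure_mono ?_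
    intro p hp hc
    exact hp (hθ0 i p hc)
  have hsumθ : ∀ p, ∑ i, θ i p ^ 2 = 1 := by
    intro p
    have h1 : ∀ i, θ i p ^ 2 = f i p ^ 2 * (S p)⁻¹ := by
      intro i
      show (f i p * (Real.sqrt (S p))⁻¹) ^ 2 = _
      rw [mul_pow, inv_pow, Real.sq_sqrt (hSpos p).le]
    simp_rw [h1]
    rw [← Finset.sum_mul]
    exact mul_inv_cancel₀ (hSpos p).ne'
  refine ⟨{ N := s.card, c := c, ρ := fun i => f i, σ := σ, χ := χ, ψ := ψ, θ := θ,
            smρ := fun i => (f i).contMDiff, smσ := smσ, smχ := smχ, smψ := smψ, smθ := hθsm,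
            sum_ρ := hsum, sum_θ := hsumθ, ρσ := σ1, σχ := χ1, χψ := ψ1,
            ψs := fun i => (ψs i).trans (hOs _),
            θs := fun i => ((hθts i).trans (hρs i)).trans (hOs _) }, ?_⟩
  intro z hz
  have hzs : z ∈ s := by
    obtain ⟨p, hp⟩ := Set.mem_iUnion.mp (hs (Set.mem_univ z))
    obtain ⟨hps, hp'⟩ := Set.mem_iUnion.mp hp
    rw [hOz z hz p hp']
    exact hps
  have hci : c (e.symm ⟨z, hzs⟩) = z := by simp [c]
  have hzn : ∀ j, j ≠ e.symm ⟨z, hzs⟩ → z ∉ O (c j) := by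
    intro j hj hzj
    have h1 := hOz z hz _ hzj
    exact hj (hcinj (h1.symm.trans hci.symm))
  have hvan : ∀ j, j ≠ e.symm ⟨z, hzs⟩ → ∀ g : X → ℝ, tsupport g ⊆ O (c j) →
      ∀ᶠ y in 𝓝 z, g y = 0 := by
    intro j hj g hg
    exact notMem_tsupport_iff_eventuallyEq.mp (fun h => hzn j hj (hg h))
  have hall : ∀ᶠ y in 𝓝 z, ∀ j, j ≠ e.symm ⟨z, hzs⟩ → f j y = 0 := by
    rw [Filter.eventually_all]
    intro j
    by_cases hj : j = e.symm ⟨z, hzs⟩
    · exact Filter.Eventually.of_forall fun y h => absurd hj h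
    · exact (hvan j hj _ (hρs j)).mono fun y hy _ => hy
  have hρ1 : ∀ᶠ y in 𝓝 z, f (e.symm ⟨z, hzs⟩) y = 1 := by
    filter_upwards [hall] with y hy
    have := hsum y
    rwa [Finset.sum_eq_single (e.symm ⟨z, hzs⟩) (fun j _ hj => hy j hj)
      (fun h => absurd (Finset.mem_univ _) h)] at this
  have hmem : ∀ (g : X → ℝ), (∀ᶠ y in 𝓝 z, g y = 1) → z ∈ tsupport g := by
    intro g hg
    refine subset_tsupport g ?_
    have : g z = 1 := hg.self_of_nhds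
    simp [Function.mem_support, this]
  have hσ1 := σ1 _ z (hmem _ hρ1)
  have hχ1 := χ1 _ z (hmem _ hσ1)
  have hψ1 := ψ1 _ z (hmem _ hχ1)
  refine ⟨e.symm ⟨z, hzs⟩, hci, ?_, ?_⟩
  · filter_upwards [hρ1, hσ1, hχ1, hψ1, hall] with y h1 h2 h3 h4 h5
    refine ⟨h1, h2, h3, h4, ?_⟩
    have hS : S y = 1 := by
      show ∑ i, f i y ^ 2 = 1
      rw [Finset.sum_eq_single (e.symm ⟨z, hzs⟩) (fun j _ hj => by rw [h5 j hj]; simp)
        (fun h => absurd (Finset.mem_univ _) h), h1, one_pow]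
    show f (e.symm ⟨z, hzs⟩) y * (Real.sqrt (S y))⁻¹ = 1
    rw [hS, h1]
    simp
  · intro j hj
    filter_upwards [hvan j hj _ (hρs j), hvan j hj _ (σs j), hvan j hj _ (χs j),
      hvan j hj _ (ψs j), hvan j hj _ ((hθts j).trans (hρs j))] with y h1 h2 h3 h4 h5
    exact ⟨h1, h2, h3, h4, h5⟩

end

end FB
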