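import Pool.Agent.H.MP_fb873c_an.G1d
import Pool.Agent.H.MP_fb873c_an.G1f
import Pool.Agent.H.MP_fb873c_an.G2c

/-! # Part G2d: continuity of the fibrewise maps -/

namespace FB

open scoped Topology ContDiff Manifold BoundedContinuousFunction

universe u

section

variable {W : Type} [NormedAddCommGroup W] [InnerProductSpace ℝ W] [FiniteDimensional ℝ W]
variable {X : Type u} [TopologicalSpace X] [ChartedSpace W X] [IsManifold 𝓘(ℝ, W) ∞ X]

/-- Combination of the components: for `e : Fin N → Lam W q`, the value in the chart at `x0` of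
`pi (∑ θ_i(p) e_i)`, `e_i` being given in the chart at `c i`. -/
noncomputable def kapL (T : Ty W) (C : Cov W X) {q : ℕ} (x0 p : X) :
    (Fin C.N → Lam W q) →ₗ[ℂ] Lam W q :=
  (T.pi q).toLinearMap ∘ₗ
    (∑ i, ((C.θ i p : ℝ) : ℂ) • (pbk (trd x0 (C.c i) p) q ∘ₗ LinearMap.proj i))

/-- The form defined by a function with values in `Fin N → Lam W q`. -/
noncomputable def kap (T : Ty W) (C : Cov W X) {q : ℕ} (v : X → Fin C.N → Lam W q) (p : X) : Lam W q :=
  kapL T C p p (v p)

/-- Components of a form: `θ_i` times its value in the chart at `c i`. -/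
noncomputable def ioF (C : Cov W X) {q : ℕ} (η : X → Lam W q) (p : X) (i : Fin C.N) : Lam W q :=
  C.θ i p • val (C.c i) η p

/-- Fibrewise projection `ι κ`. -/
noncomputable def eL (T : Ty W) (C : Cov W X) {q : ℕ} (p : X) :
    (Fin C.N → Lam W q) →ₗ[ℂ] (Fin C.N → Lam W q) :=
  LinearMap.pi (fun j => ((C.θ j p : ℝ) : ℂ) • kapL T C (C.c j) p)

/-- Fibrewise extension from the chart `i` with cutoff `f`. -/
noncomputable def EL (T : Ty W) (C : Cov W X) (i : Fin C.N) (f : X → ℝ) {q : ℕ} (p : X) :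
    Lam W q →ₗ[ℂ] (Fin C.N → Lam W q) :=
  LinearMap.pi (fun j => ((C.θ j p * f p : ℝ) : ℂ) •
    (pbk (trd (C.c j) (C.c i) p) q ∘ₗ (T.pi q).toLinearMap))

/-- `α ↦ pi (alt (ℓ ⊗ α))` for a real linear form `ℓ`. -/
noncomputable def wdg (T : Ty W) {q : ℕ} (ℓ : W →L[ℝ] ℝ) : Lam W q →ₗ[ℂ] Lam W (q + 1) :=
  (T.pi (q + 1)).toLinearMap ∘ₗ
    { toFun := fun α => alt (ℓ.smulRight α)
      map_add' := fun a b => by
        ext v
        simp [ContinuousAlternatingMap.alternatizeUncurryFin_apply, Finset.sum_add_distrib]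
      map_smul' := fun c a => by
        ext v
        simp [ContinuousAlternatingMap.alternatizeUncurryFin_apply, Finset.mul_sum]
        refine Finset.sum_congr rfl fun i _ => ?_
        ring }

/-- Differential of `f` in the chart at `x0`, set to zero off the support of `f`. -/
noncomputable def dfc (x0 : X) (f : X → ℝ) (p : X) : W →L[ℝ] ℝ :=
  Set.indicator (tsupport f) (fun p => dfun x0 f p) p

/-- Fibrewise `df ∧ κ` in the chart `i`. -/
noncomputable def WL (T : Ty W) (C : Cov W X) (i : Fin C.N) (f : X → ℝ) {q : ℕ} (p : X) :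
    (Fin C.N → Lam W q) →ₗ[ℂ] Lam W (q + 1) :=
  wdg T (dfc (C.c i) f p) ∘ₗ kapL T C (C.c i) p

/-- Fibrewise `ι (df ∧ κ)`. -/
noncomputable def WXL (T : Ty W) (C : Cov W X) (f : X → ℝ) {q : ℕ} (p : X) :
    (Fin C.N → Lam W q) →ₗ[ℂ] (Fin C.N → Lam W (q + 1)) :=
  LinearMap.pi (fun j => ((C.θ j p : ℝ) : ℂ) •
    (wdg T (dfun (C.c j) f p) ∘ₗ kapL T C (C.c j) p))

/-! ### Auxiliary facts -/

theorem g2d_comp {q : ℕ} {Z : Type*} [TopologicalSpace Z] {α : Z → Lam W q} {A : Z → W →L[ℝ] W} {z : Z}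
    (hα : ContinuousAt α z) (hA : ContinuousAt A z) :
    ContinuousAt (fun y => (α y).compContinuousLinearMap (A y)) z := by
  have h1 : ContDiffAt ℝ 0 (fun y : Lam W q × (W →L[ℝ] W) => y.1.compContinuousLinearMap y.2)
      (α z, A z) := G1f_contDiffAt_comp contDiffAt_fst contDiffAt_snd
  have h2 := h1.continuousAt
  exact ContinuousAt.comp (f := fun y => (α y, A y))
    (g := fun y : Lam W q × (W →L[ℝ] W) => y.1.compContinuousLinearMap y.2) h2 (hα.prodMk hA)

theorem g2d_cut {E : Type*} [TopologicalSpace E] [AddCommGroup E] [Module ℝ E] [ContinuousSMul ℝ E]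
    {Z : Type*} [TopologicalSpace Z] {f : Z → ℝ} (hf : Continuous f) {F : Z → E}
    (hF : ∀ p ∈ tsupport f, ContinuousAt F p) : Continuous (fun p => f p • F p) := by
  rw [continuous_iff_continuousAt]
  intro p
  by_cases hp : p ∈ tsupport f
  · exact hf.continuousAt.smul (hF p hp)
  · have h1 : ∀ᶠ y in 𝓝 p, f y = 0 := notMem_tsupport_iff_eventuallyEq.1 hp
    have h2 : (fun y => f y • F y) =ᶠ[𝓝 p] fun _ => (0 : E) := by
      filter_upwards [h1] with y hy
      rw [hy, zero_smul]
    exact (continuousAt_const (y := (0 : E))).congr h2.symm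

theorem g2d_cutC {E : Type*} [TopologicalSpace E] [AddCommGroup E] [Module ℂ E] [ContinuousSMul ℂ E]
    {Z : Type*} [TopologicalSpace Z] {f : Z → ℝ} (hf : Continuous f) {F : Z → E}
    (hF : ∀ p ∈ tsupport f, ContinuousAt F p) : Continuous (fun p => ((f p : ℝ) : ℂ) • F p) := by
  rw [continuous_iff_continuousAt]
  intro p
  by_cases hp : p ∈ tsupport f
  · exact (Complex.continuous_ofReal.comp hf).continuousAt.smul (hF p hp)
  · have h1 : ∀ᶠ y in 𝓝 p, f y = 0 := notMem_tsupport_iff_eventuallyEq.1 hp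
    have h2 : (fun y => ((f y : ℝ) : ℂ) • F y) =ᶠ[𝓝 p] fun _ => (0 : E) := by
      filter_upwards [h1] with y hy
      rw [hy, Complex.ofReal_zero, zero_smul]
    exact (continuousAt_const (y := (0 : E))).congr h2.symm

theorem g2d_cutCAt {E : Type*} [TopologicalSpace E] [AddCommGroup E] [Module ℂ E] [ContinuousSMul ℂ E]
    {Z : Type*} [TopologicalSpace Z] {f : Z → ℝ} (hf : Continuous f) {F : Z → E} {p : Z}
    (hF : p ∈ tsupport f → ContinuousAt F p) : ContinuousAt (fun p => ((f p : ℝ) : ℂ) • F p) p := by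
  by_cases hp : p ∈ tsupport f
  · exact (Complex.continuous_ofReal.comp hf).continuousAt.smul (hF hp)
  · have h1 : ∀ᶠ y in 𝓝 p, f y = 0 := notMem_tsupport_iff_eventuallyEq.1 hp
    have h2 : (fun y => ((f y : ℝ) : ℂ) • F y) =ᶠ[𝓝 p] fun _ => (0 : E) := by
      filter_upwards [h1] with y hy
      rw [hy, Complex.ofReal_zero, zero_smul]
    exact (continuousAt_const (y := (0 : E))).congr h2.symm

theorem g2d_trd (x0 x1 p : X) (h0 : p ∈ (chartAt W x0).source) (h1 : p ∈ (chartAt W x1).source) :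
    ContinuousAt (fun p : X => trd (W := W) x0 x1 p) p :=
  (continuousOn_trd x0 x1).continuousAt
    (((chartAt W x0).open_source.inter (chartAt W x1).open_source).mem_nhds ⟨h0, h1⟩)

/-- The fibrewise combination is continuous on the chart domain. -/
theorem g2d_kapL (T : Ty W) (C : Cov W X) {q : ℕ} (x0 p : X) (h0 : p ∈ (chartAt W x0).source)
    (e : Fin C.N → Lam W q) : ContinuousAt (fun p => kapL T C x0 p e) p := by
  have h1 : ∀ y, kapL T C x0 y e =
      T.pi q (∑ i, ((C.θ i y : ℝ) : ℂ) • (e i).compContinuousLinearMap (trd x0 (C.c i) y)) := by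
    intro y
    unfold kapL
    rw [LinearMap.comp_apply, LinearMap.sum_apply]
    rfl
  rw [show (fun p => kapL T C x0 p e) = fun y =>
      T.pi q (∑ i, ((C.θ i y : ℝ) : ℂ) • (e i).compContinuousLinearMap (trd x0 (C.c i) y)) from
    funext h1]
  refine (T.pi q).continuous.continuousAt.comp ?_
  refine tendsto_finsetSum _ fun i _ => ?_
  refine g2d_cutCAt (E := Lam W q) (C.smθ i).continuous fun hp => ?_
  exact g2d_comp continuousAt_const (g2d_trd x0 (C.c i) p h0 (C.θs i hp))

theorem g2d_dfun {f : X → ℝ} (hf : ContMDiff 𝓘(ℝ, W) 𝓘(ℝ, ℝ) ∞ f) (x0 p : X)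
    (h0 : p ∈ (chartAt W x0).source) : ContinuousAt (fun p => dfun (W := W) x0 f p) p := by
  have h1 : ContDiffOn ℝ ∞ (f ∘ (chartAt W x0).symm) (chartAt W x0).target := G1d_fun hf x0
  have h2 : ContinuousOn (fderiv ℝ (f ∘ (chartAt W x0).symm)) (chartAt W x0).target :=
    h1.continuousOn_fderiv_of_isOpen (chartAt W x0).open_target (by simp)
  have h3 : ContinuousAt (fderiv ℝ (f ∘ (chartAt W x0).symm)) (chartAt W x0 p) :=
    h2.continuousAt ((chartAt W x0).open_target.mem_nhds ((chartAt W x0).map_source h0))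
  exact ContinuousAt.comp (f := chartAt W x0) (g := fderiv ℝ (f ∘ (chartAt W x0).symm)) h3
    ((chartAt W x0).continuousAt h0)

/-- The differential vanishes off the support. -/
theorem g2d_dfun_zero {f : X → ℝ} (x0 p : X) (h0 : p ∈ (chartAt W x0).source)
    (hp : p ∉ tsupport f) : dfun (W := W) x0 f p = 0 := by
  unfold dfun
  have h1 : ∀ᶠ y in 𝓝 p, f y = 0 := notMem_tsupport_iff_eventuallyEq.1 hp
  have hs : (chartAt W x0).symm (chartAt W x0 p) = p := (chartAt W x0).left_inv h0
  have h2 : ContinuousAt (chartAt W x0).symm (chartAt W x0 p) :=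
    (chartAt W x0).continuousAt_symm ((chartAt W x0).map_source h0)
  have h3 : (f ∘ (chartAt W x0).symm) =ᶠ[𝓝 (chartAt W x0 p)] fun _ => (0 : ℝ) := by
    have h4 : Filter.Tendsto (chartAt W x0).symm (𝓝 (chartAt W x0 p)) (𝓝 p) := by
      have := h2.tendsto
      rwa [hs] at this
    exact h4.eventually h1
  rw [h3.fderiv_eq]
  exact congrFun (fderiv_fun_const (0 : ℝ)) _

theorem g2d_wdg (T : Ty W) {q : ℕ} {Z : Type*} [TopologicalSpace Z] {ℓ : Z → W →L[ℝ] ℝ}
    {β : Z → Lam W q} {z : Z} (hℓ : ContinuousAt ℓ z) (hβ : ContinuousAt β z) :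
    ContinuousAt (fun y => wdg T (ℓ y) (β y)) z := by
  have h1 : ContinuousAt (fun y => (ℓ y).smulRight (β y)) z := by
    have h2 : Continuous (fun y : (W →L[ℝ] ℝ) × Lam W q => y.1.smulRight y.2) :=
      (isBoundedBilinearMap_smulRight (𝕜 := ℝ) (E := W) (F := Lam W q)).continuous
    exact ContinuousAt.comp (f := fun y => (ℓ y, β y))
      (g := fun y : (W →L[ℝ] ℝ) × Lam W q => y.1.smulRight y.2) h2.continuousAt (hℓ.prodMk hβ)
  have h3 : Continuous (fun g : W →L[ℝ] Lam W q => alt g) :=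
    (ContinuousAlternatingMap.alternatizeUncurryFinCLM ℝ W ℂ).continuous
  exact (T.pi (q + 1)).continuous.continuousAt.comp
    (ContinuousAt.comp (f := fun y => (ℓ y).smulRight (β y)) h3.continuousAt h1)

/-- JOB G2d.  Basic continuity: `continuousOn_trd`, `ContinuousAlternatingMap.compContinuousLinearMap` is
continuous in the linear map, and the cutoff makes the product continuous everywhere. -/
theorem continuous_smul_trd {q : ℕ} (f : X → ℝ) (hf : Continuous f) (x0 x1 : X)
    (h0 : tsupport f ⊆ (chartAt W x0).source) (h1 : tsupport f ⊆ (chartAt W x1).source)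
    (α : Lam W q) : Continuous (fun p => f p • α.compContinuousLinearMap (trd x0 x1 p)) :=
  g2d_cut hf fun p hp => g2d_comp continuousAt_const (g2d_trd x0 x1 p (h0 hp) (h1 hp))

/-- JOB G2d. -/
theorem continuous_kapL (T : Ty W) (C : Cov W X) {q : ℕ} (x0 : X) (f : X → ℝ) (hf : Continuous f)
    (h0 : tsupport f ⊆ (chartAt W x0).source) (e : Fin C.N → Lam W q) :
    Continuous (fun p => ((f p : ℝ) : ℂ) • kapL T C x0 p e) :=
  g2d_cutC hf fun p hp => g2d_kapL T C x0 p (h0 hp) e

/-- JOB G2d. -/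
theorem continuous_ioF (C : Cov W X) {q : ℕ} {η : X → Lam W q} (h : SmoothForm η) :
    Continuous (ioF C η) := by
  refine continuous_pi fun i => ?_
  show Continuous (fun p => C.θ i p • val (C.c i) η p)
  refine g2d_cut (E := Lam W q) (C.smθ i).continuous fun p hp => ?_
  have hs := C.θs i hp
  have h1 : ContinuousAt (rep (C.c i) η) (chartAt W (C.c i) p) :=
    (h.contDiffAt (C.c i) p hs).continuousAt
  have h2 : ContinuousAt (fun y => rep (C.c i) η (chartAt W (C.c i) y)) p :=
    ContinuousAt.comp (f := chartAt W (C.c i)) (g := rep (C.c i) η) h1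
      ((chartAt W (C.c i)).continuousAt hs)
  refine h2.congr ?_
  filter_upwards [(chartAt W (C.c i)).open_source.mem_nhds hs] with y hy
  exact rep_chart η (C.c i) y hy

/-- JOB G2d. -/
theorem continuous_eL (T : Ty W) (C : Cov W X) {q : ℕ} (e : Fin C.N → Lam W q) :
    Continuous (fun p => eL T C p e) := by
  refine continuous_pi fun j => ?_
  exact continuous_kapL T C (C.c j) (C.θ j) (C.smθ j).continuous (C.θs j) e

/-- JOB G2d. -/
theorem continuous_EL (T : Ty W) (C : Cov W X) (i : Fin C.N) (f : X → ℝ) (hf : Continuous f)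
    (h0 : tsupport f ⊆ (chartAt W (C.c i)).source) {q : ℕ} (α : Lam W q) :
    Continuous (fun p => EL T C i f p α) := by
  refine continuous_pi fun j => ?_
  show Continuous (fun p => ((C.θ j p * f p : ℝ) : ℂ) •
    (T.pi q α).compContinuousLinearMap (trd (C.c j) (C.c i) p))
  refine g2d_cutC (E := Lam W q) (f := fun p => C.θ j p * f p) ((C.smθ j).continuous.mul hf) fun p hp => ?_
  have h1 : p ∈ tsupport (C.θ j) :=
    (tsupport_mul_subset_left (f := C.θ j) (g := f)) hp
  have h2 : p ∈ tsupport f :=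
    (tsupport_mul_subset_right (f := C.θ j) (g := f)) hp
  exact g2d_comp continuousAt_const (g2d_trd (C.c j) (C.c i) p (C.θs j h1) (h0 h2))

/-- JOB G2d. -/
theorem continuous_WL (T : Ty W) (C : Cov W X) (i : Fin C.N) (f : X → ℝ)
    (hf : ContMDiff 𝓘(ℝ, W) 𝓘(ℝ, ℝ) ∞ f)
    (h0 : tsupport f ⊆ (chartAt W (C.c i)).source) {q : ℕ} (e : Fin C.N → Lam W q) :
    Continuous (fun p => WL T C i f p e) := by
  rw [continuous_iff_continuousAt]
  intro p
  show ContinuousAt (fun p => wdg T (dfc (C.c i) f p) (kapL T C (C.c i) p e)) p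
  by_cases hp : p ∈ tsupport f
  · have hs := h0 hp
    refine g2d_wdg T ?_ (g2d_kapL T C (C.c i) p hs e)
    refine (g2d_dfun hf (C.c i) p hs).congr ?_
    filter_upwards [(chartAt W (C.c i)).open_source.mem_nhds hs] with y hy
    unfold dfc
    by_cases hy' : y ∈ tsupport f
    · rw [Set.indicator_of_mem hy']
    · rw [Set.indicator_of_notMem hy', g2d_dfun_zero (C.c i) y hy hy']
  · have h1 : (tsupport f)ᶜ ∈ 𝓝 p := (isClosed_tsupport f).isOpen_compl.mem_nhds hp
    have h2 : (fun p => wdg T (dfc (C.c i) f p) (kapL T C (C.c i) p e)) =ᶠ[𝓝 p]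
        fun _ => (0 : Lam W (q + 1)) := by
      filter_upwards [h1] with y hy
      have h3 : dfc (W := W) (C.c i) f y = 0 := by
        unfold dfc
        rw [Set.indicator_of_notMem hy]
      rw [h3]
      show T.pi (q + 1) (alt ((0 : W →L[ℝ] ℝ).smulRight (kapL T C (C.c i) y e))) = 0
      rw [ContinuousLinearMap.zero_smulRight]
      have h4 : alt (0 : W →L[ℝ] Lam W q) = 0 :=
        map_zero (ContinuousAlternatingMap.alternatizeUncurryFinCLM ℝ W ℂ)
      rw [h4, map_zero]
    exact (continuousAt_const (y := (0 : Lam W (q + 1)))).congr h2.symm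

/-- JOB G2d. -/
theorem continuous_WXL (T : Ty W) (C : Cov W X) (f : X → ℝ)
    (hf : ContMDiff 𝓘(ℝ, W) 𝓘(ℝ, ℝ) ∞ f) {q : ℕ} (e : Fin C.N → Lam W q) :
    Continuous (fun p => WXL T C f p e) := by
  refine continuous_pi fun j => ?_
  show Continuous (fun p => ((C.θ j p : ℝ) : ℂ) •
    wdg T (dfun (C.c j) f p) (kapL T C (C.c j) p e))
  refine g2d_cutC (E := Lam W (q + 1)) (C.smθ j).continuous fun p hp => ?_
  exact g2d_wdg T (g2d_dfun hf (C.c j) p (C.θs j hp)) (g2d_kapL T C (C.c j) p (C.θs j hp) e)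

end

end FB
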