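import Pool.Agent.H.MP_fb873c_an.G2a
import Pool.Agent.H.MP_fb873c_an.G2d

/-! # Part G2g: compatibility of the operators on `V` with those on smooth forms (G2g1) -/

namespace FB

open scoped Topology ContDiff Manifold BoundedContinuousFunction

universe u


section

variable {W : Type} [NormedAddCommGroup W] [InnerProductSpace ℝ W] [FiniteDimensional ℝ W]
  [MeasurableSpace W] [BorelSpace W]
variable {X : Type u} [TopologicalSpace X] [ChartedSpace W X] [IsManifold 𝓘(ℝ, W) ∞ X]
  [CompactSpace X] [T2Space X]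

omit [FiniteDimensional ℝ W] [MeasurableSpace W] [BorelSpace W] in
private theorem g2g1_coe {q : ℕ} (r : ℝ) (α : Lam W q) : ((r : ℝ) : ℂ) • α = r • α := by
  ext v
  simp

omit [FiniteDimensional ℝ W] [MeasurableSpace W] [BorelSpace W] [CompactSpace X] [T2Space X] in
private theorem g2g1_kapL (T : Ty W) (C : Cov W X) {q : ℕ} (x0 p : X) (e : Fin C.N → Lam W q) :
    kapL T C x0 p e =
      T.pi q (∑ i, C.θ i p • (e i).compContinuousLinearMap (trd x0 (C.c i) p)) := by
  unfold kapL
  rw [LinearMap.comp_apply, LinearMap.sum_apply]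
  show T.pi q (∑ i, ((C.θ i p : ℝ) : ℂ) • (e i).compContinuousLinearMap (trd x0 (C.c i) p)) = _
  congr 1

omit [FiniteDimensional ℝ W] [MeasurableSpace W] [BorelSpace W] in
private theorem g2g1_zero {q : ℕ} (α : Lam W q) : (0 : ℝ) • α = 0 := by
  ext v
  simp

omit [FiniteDimensional ℝ W] [MeasurableSpace W] [BorelSpace W] in
private theorem g2g1_smul_comp {q : ℕ} (r : ℝ) (α : Lam W q) (L : W →L[ℝ] W) :
    (r • α).compContinuousLinearMap L = r • α.compContinuousLinearMap L := by
  ext v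
  rfl

omit [FiniteDimensional ℝ W] [MeasurableSpace W] [BorelSpace W] in
private theorem g2g1_sum_comp {q N : ℕ} (α : Fin N → Lam W q) (L : W →L[ℝ] W) :
    (∑ i, α i).compContinuousLinearMap L = ∑ i, (α i).compContinuousLinearMap L := by
  ext v
  simp [ContinuousAlternatingMap.sum_apply]

omit [FiniteDimensional ℝ W] [MeasurableSpace W] [BorelSpace W] [IsManifold 𝓘(ℝ, W) ∞ X]
  [CompactSpace X] [T2Space X] in
/-- The weighted sum of the squares. -/
private theorem g2g1_sum (C : Cov W X) {q : ℕ} (p : X) (β : Lam W q)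
    (γ : Fin C.N → Lam W q) (h : ∀ i, p ∈ (chartAt W (C.c i)).source → γ i = β) :
    ∑ i, C.θ i p • C.θ i p • γ i = β := by
  have h1 : ∀ i, C.θ i p • C.θ i p • γ i = (C.θ i p ^ 2) • β := by
    intro i
    by_cases hi : C.θ i p = 0
    · rw [hi, g2g1_zero, show (0 : ℝ) ^ 2 = 0 by norm_num, g2g1_zero]
    · rw [h i (C.θs i (subset_tsupport _ hi)), smul_smul, pow_two]
  rw [Finset.sum_congr rfl fun i _ => h1 i, ← Finset.sum_smul, C.sum_θ, one_smul]

/-- JOB G2g1.  Key computation: for `p` in the domain of the chart at `x0`,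
`pi ∑ θ_i² (val (c i) η p) ∘ trd x0 (c i) p = pi (val x0 η p) = val x0 η p`
(`val_change`, terms with `θ_i p = 0` vanish, `sum_θ`). -/
theorem kapL_ioF (T : Ty W) (hX : TGood T X) (C : Cov W X) {q : ℕ} (η : SFm T X q) (x0 p : X)
    (h0 : p ∈ (chartAt W x0).source) : kapL T C x0 p (ioF C η.1 p) = val x0 η.1 p := by
  rw [g2g1_kapL]
  have h1 : ∑ i, C.θ i p • (ioF C η.1 p i).compContinuousLinearMap (trd x0 (C.c i) p) =
      val x0 η.1 p := by
    have h2 : ∀ i, C.θ i p • (ioF C η.1 p i).compContinuousLinearMap (trd x0 (C.c i) p) =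
        C.θ i p • C.θ i p • (val (C.c i) η.1 p).compContinuousLinearMap (trd x0 (C.c i) p) := by
      intro i
      unfold ioF
      rw [g2g1_smul_comp]
    rw [Finset.sum_congr rfl fun i _ => h2 i]
    exact g2g1_sum C p _ _ fun i hi => (val_change η.1 (C.c i) x0 p hi h0).symm
  rw [h1, ← val_pi hX η.1 x0 p h0]
  congr 1
  funext y
  exact η.2.2 y

/-- JOB G2g1.  Change of chart for `kapL`. -/
theorem kapL_change (T : Ty W) (hX : TGood T X) (C : Cov W X) {q : ℕ} (x0 x1 p : X)
    (h0 : p ∈ (chartAt W x0).source) (h1 : p ∈ (chartAt W x1).source) (e : Fin C.N → Lam W q) :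
    kapL T C x1 p e = (kapL T C x0 p e).compContinuousLinearMap (trd x1 x0 p) := by
  rw [g2g1_kapL, g2g1_kapL, ← T.nat q _ (hX x1 x0 p h1 h0), g2g1_sum_comp]
  congr 1
  refine Finset.sum_congr rfl fun i _ => ?_
  rw [g2g1_smul_comp]
  by_cases hi : C.θ i p = 0
  · rw [hi, g2g1_zero, g2g1_zero]
  · have h2 := C.θs i (subset_tsupport _ hi)
    rw [← trd_comp x1 x0 (C.c i) p h1 h0 h2]
    rfl

/-- JOB G2g1.  `pi (kapL e) = kapL e`. -/
theorem pi_kapL (T : Ty W) (C : Cov W X) {q : ℕ} (x0 p : X) (e : Fin C.N → Lam W q) :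
    T.pi q (kapL T C x0 p e) = kapL T C x0 p e := by
  rw [g2g1_kapL, T.pi_pi]

/-- JOB G2g1.  `kapL (eL e) = kapL e` on the domain of the chart. -/
theorem kapL_eL (T : Ty W) (hX : TGood T X) (C : Cov W X) {q : ℕ} (x0 p : X)
    (h0 : p ∈ (chartAt W x0).source) (e : Fin C.N → Lam W q) :
    kapL T C x0 p (eL T C p e) = kapL T C x0 p e := by
  rw [g2g1_kapL T C x0 p (eL T C p e)]
  have h1 : ∑ i, C.θ i p • (eL T C p e i).compContinuousLinearMap (trd x0 (C.c i) p) =
      kapL T C x0 p e := by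
    have h2 : ∀ i, C.θ i p • (eL T C p e i).compContinuousLinearMap (trd x0 (C.c i) p) =
        C.θ i p • C.θ i p • (kapL T C (C.c i) p e).compContinuousLinearMap
          (trd x0 (C.c i) p) := by
      intro i
      have h3 : eL T C p e i = C.θ i p • kapL T C (C.c i) p e := by
        rw [← g2g1_coe]
        rfl
      rw [h3, g2g1_smul_comp]
    rw [Finset.sum_congr rfl fun i _ => h2 i]
    exact g2g1_sum C p _ _ fun i hi => (kapL_change T hX C (C.c i) x0 p hi h0 e).symm
  rw [h1, pi_kapL]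

/-- JOB G2g1.  `kapL ∘ EL` : value of the extension. -/
theorem kapL_EL (T : Ty W) (hX : TGood T X) (C : Cov W X) (i : Fin C.N) (f : X → ℝ)
    (hf : tsupport f ⊆ (chartAt W (C.c i)).source) {q : ℕ} (x0 p : X)
    (h0 : p ∈ (chartAt W x0).source) (α : Lam W q) :
    kapL T C x0 p (EL T C i f p α)
      = f p • (T.pi q α).compContinuousLinearMap (trd x0 (C.c i) p) := by
  rw [g2g1_kapL]
  have h3 : ∀ j, EL T C i f p α j =
      C.θ j p • f p • (T.pi q α).compContinuousLinearMap (trd (C.c j) (C.c i) p) := by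
    intro j
    rw [smul_smul, ← g2g1_coe]
    rfl
  by_cases hfp : f p = 0
  · have h4 : ∀ j, C.θ j p • (EL T C i f p α j).compContinuousLinearMap (trd x0 (C.c j) p) = 0 := by
      intro j
      rw [h3, hfp]
      ext v
      simp
    rw [Finset.sum_eq_zero fun j _ => h4 j, map_zero, hfp, g2g1_zero]
  · have hi : p ∈ (chartAt W (C.c i)).source := hf (subset_tsupport _ hfp)
    have h1 : ∑ j, C.θ j p • (EL T C i f p α j).compContinuousLinearMap (trd x0 (C.c j) p) =
        f p • (T.pi q α).compContinuousLinearMap (trd x0 (C.c i) p) := by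
      have h2 : ∀ j, C.θ j p • (EL T C i f p α j).compContinuousLinearMap (trd x0 (C.c j) p) =
          C.θ j p • C.θ j p • (f p • ((T.pi q α).compContinuousLinearMap
            (trd (C.c j) (C.c i) p)).compContinuousLinearMap (trd x0 (C.c j) p)) := by
        intro j
        rw [h3, g2g1_smul_comp, g2g1_smul_comp]
      rw [Finset.sum_congr rfl fun j _ => h2 j]
      refine g2g1_sum C p _ _ fun j hj => ?_
      rw [← trd_comp x0 (C.c j) (C.c i) p h0 hj hi]
      rfl
    rw [h1, ← g2g1_smul_comp, T.nat q _ (hX x0 (C.c i) p h0 hi), ← g2g1_coe, map_smul, T.pi_pi,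
      g2g1_coe]

end

end FB
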