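import Pool.Agent.H.MP_fb873c_an.G2f
import Pool.Agent.H.MP_fb873c_an.G2g1

/-! # Part G2g: compatibility of the operators on `V` with those on smooth forms (G2g2) -/

namespace FB

open scoped Topology ContDiff Manifold BoundedContinuousFunction

universe u


section

variable {W : Type} [NormedAddCommGroup W] [InnerProductSpace ℝ W] [FiniteDimensional ℝ W]
  [MeasurableSpace W] [BorelSpace W]
variable {X : Type u} [TopologicalSpace X] [ChartedSpace W X] [IsManifold 𝓘(ℝ, W) ∞ X]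
  [CompactSpace X] [T2Space X]

omit [FiniteDimensional ℝ W] [MeasurableSpace W] [BorelSpace W] in
theorem G2g2_rc {q : ℕ} (r : ℝ) (α : Lam W q) : ((r : ℝ) : ℂ) • α = r • α := by
  ext v
  simp

omit [FiniteDimensional ℝ W] [MeasurableSpace W] [BorelSpace W] in
theorem G2g2_z {q : ℕ} (α : Lam W q) : (0 : ℝ) • α = 0 := by
  ext v
  simp

omit [FiniteDimensional ℝ W] [MeasurableSpace W] [BorelSpace W] in
theorem G2g2_zc {q : ℕ} (α : Lam W q) : ((0 : ℝ) : ℂ) • α = 0 := by
  ext v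
  simp

omit [FiniteDimensional ℝ W] [MeasurableSpace W] [BorelSpace W] in
theorem G2g2_rcN {N q : ℕ} (r : ℝ) (e : Fin N → Lam W q) : ((r : ℝ) : ℂ) • e = r • e := by
  funext j
  exact G2g2_rc r (e j)

omit [FiniteDimensional ℝ W] [MeasurableSpace W] [BorelSpace W] [IsManifold 𝓘(ℝ, W) ∞ X]
  [CompactSpace X] [T2Space X] in
theorem G2g2_src (C : Cov W X) (j : Fin C.N) {p : X} (h : C.θ j p ≠ 0) :
    p ∈ (chartAt W (C.c j)).source :=
  C.θs j (subset_tsupport _ h)

omit [FiniteDimensional ℝ W] [MeasurableSpace W] [BorelSpace W] [IsManifold 𝓘(ℝ, W) ∞ X]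
  [CompactSpace X] [T2Space X] in
theorem G2g2_eL (T : Ty W) (C : Cov W X) {q : ℕ} (p : X) (e : Fin C.N → Lam W q) (j : Fin C.N) :
    eL T C p e j = ((C.θ j p : ℝ) : ℂ) • kapL T C (C.c j) p e := rfl

theorem G2g2_eL_ext (T : Ty W) (C : Cov W X) {q : ℕ} (p : X) (e e' : Fin C.N → Lam W q)
    (h : ∀ j, p ∈ (chartAt W (C.c j)).source →
      ((C.θ j p : ℝ) : ℂ) • kapL T C (C.c j) p e = e' j)
    (h0 : ∀ j, C.θ j p = 0 → e' j = 0) : eL T C p e = e' := by
  funext j
  rw [G2g2_eL]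
  by_cases hj : C.θ j p = 0
  · rw [h0 j hj, hj, G2g2_zc]
  · exact h j (G2g2_src C j hj)

/-- JOB G2g2 (all the following: pointwise identities from the `_apply` lemmas and JOB G2g1). -/
theorem eV_ioV (T : Ty W) (hX : TGood T X) (C : Cov W X) {q : ℕ} (η : SFm T X q) :
    eV T C q (ioV T C q η) = ioV T C q η := by
  apply ContinuousMap.ext
  intro p
  rw [eV_apply, ioV_apply]
  refine G2g2_eL_ext T C p _ _ (fun j hj => ?_) fun j hj => ?_
  · rw [kapL_ioF T hX C η _ _ hj, G2g2_rc]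
    rfl
  · show C.θ j p • val (C.c j) η.1 p = 0
    rw [hj, G2g2_z]

theorem eV_eV (T : Ty W) (hX : TGood T X) (C : Cov W X) (q : ℕ) :
    (eV (X := X) T C q).comp (eV T C q) = eV T C q := by
  ext1 v
  apply ContinuousMap.ext
  intro p
  show eV T C q (eV T C q v) p = eV T C q v p
  rw [eV_apply, eV_apply]
  refine G2g2_eL_ext T C p _ _ (fun j hj => ?_) fun j hj => ?_
  · rw [kapL_eL T hX C _ _ hj]
    rfl
  · rw [G2g2_eL, hj, G2g2_zc]

theorem ioV_injective (T : Ty W) (hX : TGood T X) (C : Cov W X) (q : ℕ) :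
    Function.Injective (ioV (X := X) T C q) := by
  intro η η' h
  apply Subtype.ext
  funext p
  have h1 : ioF C η.1 p = ioF C η'.1 p := by
    rw [← ioV_apply T C q η p, ← ioV_apply T C q η' p, h]
  have h2 := kapL_ioF T hX C η p p (mem_chart_source W p)
  have h3 := kapL_ioF T hX C η' p p (mem_chart_source W p)
  rw [val_self] at h2 h3
  rw [← h2, ← h3, h1]

theorem Rop_ioV (T : Ty W) (hX : TGood T X) (C : Cov W X) {q : ℕ} (i : Fin C.N) (η : SFm T X q) :
    Rop T C q i (ioV T C q η) = incl T q (RA T hX C q i η) := by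
  apply BoundedContinuousFunction.ext
  intro z
  rw [Rop_apply, incl_apply, RA_apply]
  by_cases hz : z ∈ (chartAt W (C.c i)).target
  · rw [Set.indicator_of_mem hz, Set.indicator_of_mem hz, ioV_apply,
      kapL_ioF T hX C η _ _ ((chartAt W (C.c i)).map_target hz)]
    rfl
  · rw [Set.indicator_of_notMem hz, Set.indicator_of_notMem hz]

theorem Wop_ioV (T : Ty W) (hX : TGood T X) (C : Cov W X) {q : ℕ} (i : Fin C.N) (η : SFm T X q) :
    Wop T C q i (ioV T C q η) = incl T (q + 1) (WA T hX C q i η) := by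
  apply BoundedContinuousFunction.ext
  intro z
  rw [Wop_apply, incl_apply, WA_apply]
  by_cases hz : z ∈ (chartAt W (C.c i)).target
  · rw [Set.indicator_of_mem hz, Set.indicator_of_mem hz, ioV_apply]
    show wdg T (dfc (C.c i) (C.χ i) ((chartAt W (C.c i)).symm z))
      (kapL T C (C.c i) ((chartAt W (C.c i)).symm z) (ioF C η.1 ((chartAt W (C.c i)).symm z))) = _
    rw [kapL_ioF T hX C η _ _ ((chartAt W (C.c i)).map_target hz)]
    rfl
  · rw [Set.indicator_of_notMem hz, Set.indicator_of_notMem hz]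

theorem Eop_incl (T : Ty W) (hX : TGood T X) (C : Cov W X) {q : ℕ} (i : Fin C.N) (u : SW T q) :
    Eop T C q i (incl T q u) = ioV T C q (EA T hX C q i u) := by
  apply ContinuousMap.ext
  intro p
  rw [Eop_apply, ioV_apply, incl_apply]
  funext j
  show ((C.θ j p * C.ψ i p : ℝ) : ℂ) •
      (T.pi q (u.1 (chartAt W (C.c i) p))).compContinuousLinearMap (trd (C.c j) (C.c i) p) =
    C.θ j p • ((EA T hX C q i u).1 p).compContinuousLinearMap (trd (C.c j) p p)
  rw [EA_apply, u.2.2.2, G2g2_rc, mul_smul]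
  by_cases hj : C.θ j p = 0
  · rw [hj, G2g2_z, G2g2_z]
  by_cases hi : C.ψ i p = 0
  · rw [hi]
    ext v
    simp
  have hpj := G2g2_src C j hj
  have hpi : p ∈ (chartAt W (C.c i)).source := C.ψs i (subset_tsupport _ hi)
  rw [← trd_comp (C.c j) p (C.c i) p hpj (mem_chart_source W p) hpi]
  rfl

theorem KB_incl (T : Ty W) {b : W → ℝ} {ε : ℝ} (hb : IsBump b ε) {q : ℕ} (u : SW T (q + 1)) :
    KB T hb q (incl T (q + 1) u) = incl T q (KA T hb q u) := by
  apply BoundedContinuousFunction.ext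
  intro x
  rw [KB_apply, incl_apply, KA_apply]
  have h : ((incl T (q + 1) u : W →ᵇ Lam W (q + 1)) : W → Lam W (q + 1)) = u.1 :=
    funext fun z => incl_apply T (q + 1) u z
  rw [h]

theorem BB_incl (T : Ty W) {b : W → ℝ} {ε : ℝ} (hb : IsBump b ε) {q : ℕ} (u : SW T q) :
    BB hb q (incl T q u) = incl T q (BA T hb q u) := by
  apply BoundedContinuousFunction.ext
  intro x
  rw [BB_apply, incl_apply, BA_apply]
  have h : ((incl T q u : W →ᵇ Lam W q) : W → Lam W q) = u.1 :=
    funext fun z => incl_apply T q u z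
  rw [h]

theorem mulV_ioV (T : Ty W) (C : Cov W X) {f : X → ℝ} (hf : ContMDiff 𝓘(ℝ, W) 𝓘(ℝ, ℝ) ∞ f) {q : ℕ}
    (η : SFm T X q) : mulV C q f (ioV T C q η) = ioV T C q (mulA T f q η) := by
  apply ContinuousMap.ext
  intro p
  rw [mulV_apply C q hf.continuous, ioV_apply, ioV_apply]
  funext j
  show f p • (C.θ j p • val (C.c j) η.1 p) = C.θ j p •
    ((mulA T f q η).1 p).compContinuousLinearMap (trd (C.c j) p p)
  rw [mulA_apply T hf, smul_comm]
  rfl

theorem WX_ioV (T : Ty W) (hX : TGood T X) (C : Cov W X) {f : X → ℝ}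
    (hf : ContMDiff 𝓘(ℝ, W) 𝓘(ℝ, ℝ) ∞ f) {q : ℕ} (η : SFm T X q) :
    WX T C q f (ioV T C q η) = ioV T C (q + 1) (WXA T hX f q η) := by
  apply ContinuousMap.ext
  intro p
  rw [WX_apply T C q hf, ioV_apply, ioV_apply]
  funext j
  show ((C.θ j p : ℝ) : ℂ) • wdg T (dfun (C.c j) f p) (kapL T C (C.c j) p (ioF C η.1 p)) =
    C.θ j p • ((WXA T hX f q η).1 p).compContinuousLinearMap (trd (C.c j) p p)
  rw [G2g2_rc]
  by_cases hj : C.θ j p = 0
  · rw [hj, G2g2_z, G2g2_z]
  have hpj := G2g2_src C j hj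
  rw [kapL_ioF T hX C η _ _ hpj, WXA_apply T hX hf]
  have h1 : (wdg T (dfun p f p) (η.1 p)).compContinuousLinearMap (trd (C.c j) p p) =
      T.pi (q + 1) ((alt ((dfun p f p).smulRight (η.1 p))).compContinuousLinearMap
        (trd (C.c j) p p)) :=
    (T.nat (q + 1) _ (hX (C.c j) p p hpj (mem_chart_source W p)) _).symm
  rw [h1, val_wedge η.1 hf (C.c j) p hpj]
  rfl

theorem eV_Eop (T : Ty W) (hX : TGood T X) (C : Cov W X) (q : ℕ) (i : Fin C.N) :
    (eV (X := X) T C q).comp (Eop T C q i) = Eop T C q i := by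
  ext1 u
  apply ContinuousMap.ext
  intro p
  show eV T C q (Eop T C q i u) p = Eop T C q i u p
  rw [eV_apply, Eop_apply]
  refine G2g2_eL_ext T C p _ _ (fun j hj => ?_) fun j hj => ?_
  · rw [kapL_EL T hX C i (C.ψ i) (C.ψs i) _ _ hj, ← G2g2_rc (C.ψ i p), smul_smul,
      ← Complex.ofReal_mul]
    rfl
  · show ((C.θ j p * C.ψ i p : ℝ) : ℂ) •
      (T.pi q (u (chartAt W (C.c i) p))).compContinuousLinearMap (trd (C.c j) (C.c i) p) = 0
    rw [hj, zero_mul, G2g2_zc]

theorem Rop_eV (T : Ty W) (hX : TGood T X) (C : Cov W X) (q : ℕ) (i : Fin C.N) :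
    (Rop (X := X) T C q i).comp (eV T C q) = Rop T C q i := by
  ext1 v
  apply BoundedContinuousFunction.ext
  intro z
  show Rop T C q i (eV T C q v) z = Rop T C q i v z
  rw [Rop_apply, Rop_apply]
  by_cases hz : z ∈ (chartAt W (C.c i)).target
  · rw [Set.indicator_of_mem hz, Set.indicator_of_mem hz, eV_apply,
      kapL_eL T hX C _ _ ((chartAt W (C.c i)).map_target hz)]
  · rw [Set.indicator_of_notMem hz, Set.indicator_of_notMem hz]

theorem Wop_eV (T : Ty W) (hX : TGood T X) (C : Cov W X) (q : ℕ) (i : Fin C.N) :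
    (Wop (X := X) T C q i).comp (eV T C q) = Wop T C q i := by
  ext1 v
  apply BoundedContinuousFunction.ext
  intro z
  show Wop T C q i (eV T C q v) z = Wop T C q i v z
  rw [Wop_apply, Wop_apply]
  by_cases hz : z ∈ (chartAt W (C.c i)).target
  · rw [Set.indicator_of_mem hz, Set.indicator_of_mem hz, eV_apply]
    show wdg T (dfc (C.c i) (C.χ i) ((chartAt W (C.c i)).symm z))
      (kapL T C (C.c i) ((chartAt W (C.c i)).symm z) (eL T C _ (v ((chartAt W (C.c i)).symm z)))) = _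
    rw [kapL_eL T hX C _ _ ((chartAt W (C.c i)).map_target hz)]
    rfl
  · rw [Set.indicator_of_notMem hz, Set.indicator_of_notMem hz]

theorem eV_mulV (T : Ty W) (C : Cov W X) (q : ℕ) {f : X → ℝ} (hf : Continuous f) :
    (eV (X := X) T C q).comp (mulV C q f) = (mulV C q f).comp (eV T C q) := by
  ext1 v
  apply ContinuousMap.ext
  intro p
  show eV T C q (mulV C q f v) p = mulV C q f (eV T C q v) p
  rw [eV_apply, mulV_apply C q hf, mulV_apply C q hf, eV_apply, ← G2g2_rcN (f p) (v p), map_smul,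
    G2g2_rcN]

end

end FB
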