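import Pool.Agent.H.MP_fb873c_an.E1o
import Pool.Agent.H.MP_fb873c_an.G2g2

/-! # Part E: evaluation of the trace formula (E1b) -/

namespace FB

open MeasureTheory
open scoped Topology ContDiff Manifold BoundedContinuousFunction

universe u


section

variable {W : Type} [NormedAddCommGroup W] [InnerProductSpace ℝ W] [FiniteDimensional ℝ W]
  [MeasurableSpace W] [BorelSpace W]
variable {X : Type u} [MetricSpace X] [ChartedSpace W X] [IsManifold 𝓘(ℝ, W) ∞ X]
  [CompactSpace X]

/-- JOB E1b.  Operators of the other charts near `z`: for `v` supported in the ball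
(`v p = 0` for `s ≤ dist z p`) `Ŝ_j v = e v`; at points of the ball `(Ŝ_j w)(p) = (e w)(p)` for all `w`. -/
theorem ShI_other (T : Ty W) (C : Cov W X) {b : W → ℝ} {ε : ℝ} (hb : IsBump b ε) (i : Fin C.N)
    {z : X} {s : ℝ} (hc : Core C i z s) (q : ℕ) (j : Fin C.N) (hj : j ≠ i) (v : VV C q) :
    ((∀ p, s ≤ dist z p → v p = 0) → ShI T C hb j q v = eV T C q v) ∧
    ∀ p ∈ Metric.ball z s, ShI T C hb j q v p = eV T C q v p := by
  have hχ : ∀ p ∈ Metric.ball z s, C.χ j p = 0 := fun p hp => (hc.2.2 j hj p hp).2.2.1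
  have hψ : ∀ p ∈ Metric.ball z s, C.ψ j p = 0 := fun p hp => (hc.2.2 j hj p hp).2.2.2.1
  have hcont : Continuous (fun p => 1 - C.χ j p) := continuous_const.sub (C.smχ j).continuous
  have hsplit : ∀ p, ShI T C hb j q v p = (1 - C.χ j p) • eV T C q v p +
      Eop T C q j (BB hb q (Rop T C q j v) + KB T hb q (Wop T C q j v)) p := by
    intro p
    rw [← mulV_apply C q hcont]
    rfl
  have hts : ∀ p ∈ Metric.ball z s, p ∉ tsupport (C.χ j) := by
    intro p hp
    rw [notMem_tsupport_iff_eventuallyEq]
    exact Filter.eventually_of_mem (Metric.isOpen_ball.mem_nhds hp) hχ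
  refine ⟨fun hv => ?_, fun p hp => ?_⟩
  · have hR : Rop T C q j v = 0 := by
      refine DFunLike.ext _ _ fun w => ?_
      rw [Rop_apply]
      refine (Set.indicator_apply_eq_zero).2 fun _ => ?_
      rcases lt_or_ge (dist z ((chartAt W (C.c j)).symm w)) s with h | h
      · rw [hχ _ (by rw [Metric.mem_ball, dist_comm]; exact h)]
        exact zero_smul ℝ (kapL T C (C.c j) ((chartAt W (C.c j)).symm w)
          (v ((chartAt W (C.c j)).symm w)))
      · rw [hv _ h, map_zero]
        exact smul_zero (A := Lam W q) (C.χ j ((chartAt W (C.c j)).symm w))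
    have hW : Wop T C q j v = 0 := by
      refine DFunLike.ext _ _ fun w => ?_
      rw [Wop_apply]
      refine (Set.indicator_apply_eq_zero).2 fun _ => ?_
      rcases lt_or_ge (dist z ((chartAt W (C.c j)).symm w)) s with h | h
      · have h1 : dfc (W := W) (C.c j) (C.χ j) ((chartAt W (C.c j)).symm w) = 0 := by
          unfold dfc
          rw [Set.indicator_of_notMem (hts _ (by rw [Metric.mem_ball, dist_comm]; exact h))]
        have h2 : WL T C j (C.χ j) (q := q) ((chartAt W (C.c j)).symm w) = 0 := by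
          show wdg T (dfc (C.c j) (C.χ j) ((chartAt W (C.c j)).symm w)) ∘ₗ
            kapL T C (C.c j) ((chartAt W (C.c j)).symm w) = 0
          rw [h1, G2e_wdg_zero, LinearMap.zero_comp]
        rw [h2, LinearMap.zero_apply]
      · rw [hv _ h, map_zero]
    refine ContinuousMap.ext fun p => ?_
    rw [hsplit, hR, hW, map_zero, map_zero, add_zero, map_zero, ContinuousMap.zero_apply, add_zero]
    rcases lt_or_ge (dist z p) s with h | h
    · rw [hχ _ (by rw [Metric.mem_ball, dist_comm]; exact h), sub_zero, one_smul]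
    · rw [eV_apply, hv _ h, map_zero]
      exact smul_zero (A := Fin C.N → Lam W q) (1 - C.χ j p)
  · rw [hsplit, hχ p hp, sub_zero, one_smul, Eop_apply]
    have h1 : EL T C j (C.ψ j) (q := q) p = 0 := by
      refine LinearMap.ext fun α => funext fun k => ?_
      show ((C.θ k p * C.ψ j p : ℝ) : ℂ) • _ = (0 : Lam W q)
      rw [hψ p hp, mul_zero, Complex.ofReal_zero]
      exact zero_smul ℂ (((pbk (trd (C.c k) (C.c j) p) q) ∘ₗ (T.pi q).toLinearMap) α)
    rw [h1, LinearMap.zero_apply, add_zero]

/-- JOB E1b.  Consequences for the lists `lpre i`, `lsuf i` (which do not contain `i`). -/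
theorem ShL_other (T : Ty W) (hX : TGood T X) (C : Cov W X) {b : W → ℝ} {ε : ℝ} (hb : IsBump b ε)
    (i : Fin C.N) {z : X} {s : ℝ} (hc : Core C i z s) (q : ℕ) (l : List (Fin C.N)) (hl : i ∉ l)
    (v : VV C q) :
    ((∀ p, s ≤ dist z p → v p = 0) → eV T C q v = v → ShL T C hb l q v = v) ∧
    ∀ p ∈ Metric.ball z s, eV T C q (ShL T C hb l q v) p = eV T C q v p := by
  have hnil : ShL T C hb [] q v = v := rfl
  have hcons : ∀ (j : Fin C.N) (l : List (Fin C.N)),
      ShL T C hb (j :: l) q v = ShI T C hb j q (ShL T C hb l q v) := by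
    intro j l
    unfold ShL
    rw [List.map_cons, List.prod_cons]
    rfl
  refine ⟨fun hv he => ?_, fun p hp => ?_⟩
  · induction l with
    | nil => exact hnil
    | cons j l ih =>
      rw [List.mem_cons, not_or] at hl
      rw [hcons, ih hl.2, (ShI_other T C hb i hc q j (Ne.symm hl.1) v).1 hv, he]
  · induction l with
    | nil => rw [hnil]
    | cons j l ih =>
      rw [List.mem_cons, not_or] at hl
      rw [hcons, ← ih hl.2, eV_apply,
        (ShI_other T C hb i hc q j (Ne.symm hl.1) (ShL T C hb l q v)).2 p hp, ← eV_apply]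
      have h := eV_eV T hX C q
      exact congrArg (fun A : VV C q →L[ℂ] VV C q => A (ShL T C hb l q v) p) h

end

end FB
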