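import Pool.Agent.H.MP_fb873c_an.E1o
import Pool.Agent.H.MP_fb873c_an.G5s

/-! # Part E: evaluation of the trace formula (E1c) -/

namespace FB

open MeasureTheory
open scoped Topology ContDiff Manifold BoundedContinuousFunction

universe u


section

variable {W : Type} [NormedAddCommGroup W] [InnerProductSpace ℝ W] [FiniteDimensional ℝ W]
  [MeasurableSpace W] [BorelSpace W]
variable {X : Type u} [MetricSpace X] [ChartedSpace W X] [IsManifold 𝓘(ℝ, W) ∞ X]
  [CompactSpace X]

private theorem e1c_EL (T : Ty W) (C : Cov W X) (i : Fin C.N) (f : X → ℝ) {q : ℕ} (p : X)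
    (α : Lam W q) (h : f p = 0) : EL T C i f p α = 0 := by
  funext j
  show ((C.θ j p * f p : ℝ) : ℂ) • _ = (0 : Lam W q)
  rw [h, mul_zero, Complex.ofReal_zero]
  exact zero_smul ℂ (((pbk (trd (C.c j) (C.c i) p) q) ∘ₗ (T.pi q).toLinearMap) α)

private theorem e1c_smul0 {q : ℕ} (α : Lam W q) : (0 : ℝ) • α = 0 := zero_smul ℝ α

private theorem e1c_smulz {q : ℕ} (r : ℝ) : r • (0 : Lam W q) = 0 := by
  ext v
  show r • (0 : ℂ) = 0
  exact smul_zero r

private theorem e1c_pi (T : Ty W) {q : ℕ} (r : ℝ) (α : Lam W q) :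
    T.pi q (r • α) = r • T.pi q α :=
  ((T.pi q).restrictScalars ℝ).map_smul r α

private theorem e1c_dfc (x0 : X) {f : X → ℝ} {O : Set X} (hO : IsOpen O) (hf : ∀ p ∈ O, f p = 1)
    (p : X) (hp : p ∈ O) (h0 : p ∈ (chartAt W x0).source) : dfc (W := W) x0 f p = 0 := by
  unfold dfc
  by_cases hs : p ∈ tsupport f
  · rw [Set.indicator_of_mem hs]
    unfold dfun
    have hs : (chartAt W x0).symm (chartAt W x0 p) = p := (chartAt W x0).left_inv h0
    have h2 : ContinuousAt (chartAt W x0).symm (chartAt W x0 p) :=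
      (chartAt W x0).continuousAt_symm ((chartAt W x0).map_source h0)
    have h3 : (f ∘ (chartAt W x0).symm) =ᶠ[𝓝 (chartAt W x0 p)] fun _ => (1 : ℝ) := by
      have h4 : Filter.Tendsto (chartAt W x0).symm (𝓝 (chartAt W x0 p)) (𝓝 p) := by
        have := h2.tendsto
        rwa [hs] at this
      filter_upwards [h4 (hO.mem_nhds hp)] with y hy
      exact hf _ hy
    rw [h3.fderiv_eq]
    exact congrFun (fderiv_fun_const (1 : ℝ)) _
  · rw [Set.indicator_of_notMem hs]

private theorem e1c_bb {b : W → ℝ} {q : ℕ} (x y : W) (β : Lam W q) :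
    ∫ w, b (x - w) • (b (w - y) • β) = bb b (x - y) • β := by
  have h1 : ∫ w, b (x - w) • (b (w - y) • β) = ∫ w, (b (x - w) * b (w - y)) • β := by
    refine integral_congr_ae (Filter.Eventually.of_forall fun w => ?_)
    exact smul_smul _ _ _
  rw [h1, integral_smul_const]
  congr 1
  unfold bb
  rw [← integral_add_right_eq_self (fun w => b (x - w) * b (w - y)) y]
  refine integral_congr_ae (Filter.Eventually.of_forall fun w => ?_)
  show b (x - (w + y)) * b (w + y - y) = b (x - y - w) * b w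
  rw [add_sub_cancel_right, sub_add_eq_sub_sub, sub_right_comm]

/-- JOB E1c.  In the core, `R_i E_i (b(·-y) α) = b(·-y) π α`, `Ŝ_i (E_i (b(·-y)α)) = E_i ((b*b)(·-y) π α)`. -/
theorem core_kern (T : Ty W) (hX : TGood T X) (C : Cov W X) {b : W → ℝ} {ε r : ℝ} (hb : IsBump b ε)
    (hs : Small C ε r) (i : Fin C.N) {z : X} {s : ℝ} (hc : Core C i z s) (q : ℕ) (Y : X)
    (hY : dist z Y + 2 * r < s) (α : Lam W q) :
    (∀ x, Rop T C q i (Eop T C q i (kernB hb q (chartAt W z Y) α)) x
        = b (x - chartAt W z Y) • T.pi q α) ∧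
    (∀ p, ShI T C hb i q (Eop T C q i (kernB hb q (chartAt W z Y) α)) p
        = EL T C i (C.ψ i) p (bb b (chartAt W z p - chartAt W z Y) • T.pi q α)) := by
  obtain ⟨rfl, hc1, -⟩ := hc
  have hr := hs.hr
  have hYb : Y ∈ Metric.ball (C.c i) s := by
    rw [Metric.mem_ball, dist_comm]
    linarith
  have hYχ : Y ∈ tsupport (C.χ i) := by
    refine subset_tsupport _ ?_
    rw [Function.mem_support, (hc1 Y hYb).2.2.1]
    exact one_ne_zero
  obtain ⟨y, hy⟩ : ∃ y, y = chartAt W (C.c i) Y := ⟨_, rfl⟩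
  rw [← hy]
  have hbε : ∀ v : W, b v ≠ 0 → ‖v‖ ≤ ε := by
    intro v hv
    by_contra h
    exact hv (hb.supp v (not_le.1 h).le)
  -- points where the kernel function is not zero
  have hball : ∀ p ∈ tsupport (C.ψ i), b (chartAt W (C.c i) p - y) ≠ 0 →
      p ∈ Metric.ball (C.c i) s := by
    intro p hp hbp
    have h1 := hs.h3 i p hp Y hYχ (by rw [← hy]; exact hbε _ hbp)
    rw [Metric.mem_ball, dist_comm]
    have h2 := dist_triangle (C.c i) Y p
    rw [dist_comm Y p] at h2
    linarith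
  have hball2 : ∀ x : W, b (x - y) ≠ 0 → x ∈ (chartAt W (C.c i)).target ∧
      (chartAt W (C.c i)).symm x ∈ Metric.ball (C.c i) s := by
    intro x hx
    obtain ⟨h1, h2⟩ := hs.h1 i Y hYχ x (by rw [← hy]; exact hbε _ hx)
    refine ⟨h1, hball _ (subset_tsupport _ ?_) ?_⟩
    · rw [Function.mem_support, h2.self_of_nhds]
      exact one_ne_zero
    · rw [(chartAt W (C.c i)).right_inv h1]
      exact hx
  obtain ⟨E, hE⟩ : ∃ E, E = Eop T C q i (kernB hb q y α) := ⟨_, rfl⟩
  have hEp : ∀ p, E p = EL T C i (C.ψ i) p (b (chartAt W (C.c i) p - y) • α) := by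
    intro p
    rw [hE, Eop_apply, kernB_apply]
  have hE0 : ∀ p, p ∉ Metric.ball (C.c i) s → E p = 0 := by
    intro p hp
    rw [hEp]
    by_cases h1 : C.ψ i p = 0
    · exact e1c_EL T C i (C.ψ i) p _ h1
    · by_cases h2 : b (chartAt W (C.c i) p - y) = 0
      · rw [h2, e1c_smul0, map_zero]
      · exact absurd (hball p (subset_tsupport _ h1) h2) hp
  have hR : ∀ x, Rop T C q i E x = b (x - y) • T.pi q α := by
    intro x
    rw [Rop_apply]
    by_cases hx : x ∈ (chartAt W (C.c i)).target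
    · rw [Set.indicator_of_mem hx]
      have hps := (chartAt W (C.c i)).map_target hx
      rw [hEp, (chartAt W (C.c i)).right_inv hx, kapL_EL T hX C i (C.ψ i) (C.ψs i) (C.c i) _ hps,
        trd_self (C.c i) _ hps]
      by_cases h2 : b (x - y) = 0
      · rw [h2, e1c_smul0, e1c_smul0, map_zero]
        have h3 : (0 : Lam W q).compContinuousLinearMap (ContinuousLinearMap.id ℝ W) = 0 := rfl
        rw [h3, e1c_smulz, e1c_smulz]
      · obtain ⟨-, h3⟩ := hball2 x h2
        obtain ⟨-, -, h4, h5, -⟩ := hc1 _ h3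
        rw [h4, h5, one_smul, one_smul, e1c_pi]
        rfl
    · rw [Set.indicator_of_notMem hx]
      by_cases h2 : b (x - y) = 0
      · rw [h2, e1c_smul0]
      · exact absurd (hball2 x h2).1 hx
  have hW : Wop T C q i E = 0 := by
    refine BoundedContinuousFunction.ext fun x => ?_
    rw [Wop_apply]
    by_cases hx : x ∈ (chartAt W (C.c i)).target
    · rw [Set.indicator_of_mem hx]
      have hps := (chartAt W (C.c i)).map_target hx
      by_cases hp : (chartAt W (C.c i)).symm x ∈ Metric.ball (C.c i) s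
      · have h1 := e1c_dfc (W := W) (C.c i) (f := C.χ i) Metric.isOpen_ball
          (fun p hp => (hc1 p hp).2.2.1) _ hp hps
        show wdg T (dfc (C.c i) (C.χ i) ((chartAt W (C.c i)).symm x))
          (kapL T C (C.c i) ((chartAt W (C.c i)).symm x) (E ((chartAt W (C.c i)).symm x))) = 0
        rw [h1, G2e_wdg_zero]
        rfl
      · rw [hE0 _ hp, map_zero]
        rfl
    · rw [Set.indicator_of_notMem hx]
      rfl
  rw [← hE]
  refine ⟨hR, fun p => ?_⟩
  have h1 : ShI T C hb i q E = mulV C q (fun p => 1 - C.χ i p) (eV T C q E) +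
      Eop T C q i (BB hb q (Rop T C q i E) + KB T hb q (Wop T C q i E)) := rfl
  rw [h1, hW, map_zero, add_zero, ContinuousMap.add_apply,
    mulV_apply C q (f := fun p => 1 - C.χ i p) (continuous_const.sub (C.smχ i).continuous),
    eV_apply, Eop_apply, BB_apply,
    bop_eq hb (Rop T C q i E).continuous]
  have h2 : (1 - C.χ i p) • eL T C p (E p) = 0 := by
    by_cases hp : p ∈ Metric.ball (C.c i) s
    · rw [(hc1 p hp).2.2.1, sub_self]
      funext j
      show (0 : ℝ) • eL T C p (E p) j = (0 : Lam W q)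
      exact e1c_smul0 _
    · rw [hE0 p hp, map_zero]
      funext j
      show (1 - C.χ i p) • (0 : Lam W q) = (0 : Lam W q)
      exact e1c_smulz _
  rw [h2, zero_add]
  congr 1
  rw [← e1c_bb]
  refine integral_congr_ae (Filter.Eventually.of_forall fun w => ?_)
  show b (chartAt W (C.c i) p - w) • Rop T C q i E w = _
  rw [hR]

end

end FB
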