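import Pool.Agent.H.MP_fb873c_an.G2g2

/-! # Part G2g: compatibility of the operators on `V` with those on smooth forms (G2g3) -/

namespace FB

open scoped Topology ContDiff Manifold BoundedContinuousFunction

universe u


section

variable {W : Type} [NormedAddCommGroup W] [InnerProductSpace ℝ W] [FiniteDimensional ℝ W]
  [MeasurableSpace W] [BorelSpace W]
variable {X : Type u} [TopologicalSpace X] [ChartedSpace W X] [IsManifold 𝓘(ℝ, W) ∞ X]
  [CompactSpace X] [T2Space X]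

/-- `Ŝ_i ι = ι S_i`. -/
theorem ShI_ioV (T : Ty W) (hX : TGood T X) (C : Cov W X) {b : W → ℝ} {ε : ℝ} (hb : IsBump b ε)
    (i : Fin C.N) {q : ℕ} (η : SFm T X q) :
    ShI T C hb i q (ioV T C q η) = ioV T C q (SI T hX C hb i q η) := by
  have h1 : ContMDiff 𝓘(ℝ, W) 𝓘(ℝ, ℝ) ∞ (fun p => 1 - C.χ i p) := contMDiff_const.sub (C.smχ i)
  show (mulV C q (fun p => 1 - C.χ i p)) (eV T C q (ioV T C q η)) +
    Eop T C q i (BB hb q (Rop T C q i (ioV T C q η)) + KB T hb q (Wop T C q i (ioV T C q η))) = _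
  rw [eV_ioV T hX, mulV_ioV T C h1, Rop_ioV T hX, Wop_ioV T hX, BB_incl T hb, KB_incl T hb,
    ← map_add, Eop_incl T hX, ← map_add]
  rfl

theorem PhI_ioV (T : Ty W) (hX : TGood T X) (C : Cov W X) {b : W → ℝ} {ε : ℝ} (hb : IsBump b ε)
    (i : Fin C.N) {q : ℕ} (η : SFm T X (q + 1)) :
    PhI T C hb i q (ioV T C (q + 1) η) = ioV T C q (PI T hX C hb i q η) := by
  show Eop T C q i (KB T hb q (Rop T C (q + 1) i (ioV T C (q + 1) η))) = _
  rw [Rop_ioV T hX, KB_incl T hb, Eop_incl T hX]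
  rfl

theorem eV_ShI (T : Ty W) (hX : TGood T X) (C : Cov W X) {b : W → ℝ} {ε : ℝ} (hb : IsBump b ε)
    (i : Fin C.N) (q : ℕ) : (eV T C q).comp (ShI (X := X) T C hb i q) = ShI T C hb i q := by
  unfold ShI
  have h1 : Continuous (fun p : X => 1 - C.χ i p) := continuous_const.sub (C.smχ i).continuous
  rw [ContinuousLinearMap.comp_add, ← ContinuousLinearMap.comp_assoc,
    eV_mulV T C q h1, ContinuousLinearMap.comp_assoc,
    eV_eV T hX, ← ContinuousLinearMap.comp_assoc, eV_Eop T hX]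

theorem ShI_eV (T : Ty W) (hX : TGood T X) (C : Cov W X) {b : W → ℝ} {ε : ℝ} (hb : IsBump b ε)
    (i : Fin C.N) (q : ℕ) : (ShI (X := X) T C hb i q).comp (eV T C q) = ShI T C hb i q := by
  unfold ShI
  rw [ContinuousLinearMap.add_comp, ContinuousLinearMap.comp_assoc, eV_eV T hX,
    ContinuousLinearMap.comp_assoc, ContinuousLinearMap.add_comp, ContinuousLinearMap.comp_assoc,
    ContinuousLinearMap.comp_assoc, Rop_eV T hX, Wop_eV T hX]

end

end FB
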