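import Pool.Agent.H.MP_fb873c_an.E1a
import Pool.Agent.H.MP_fb873c_an.E1b
import Pool.Agent.H.MP_fb873c_an.E1c
import Pool.Agent.H.MP_fb873c_an.G2g3

/-! # Part E: evaluation of the trace formula (E1d) -/

namespace FB

open MeasureTheory
open scoped Topology ContDiff Manifold BoundedContinuousFunction

universe u


section

variable {W : Type} [NormedAddCommGroup W] [InnerProductSpace ℝ W] [FiniteDimensional ℝ W]
  [MeasurableSpace W] [BorelSpace W]
variable {X : Type u} [MetricSpace X] [ChartedSpace W X] [IsManifold 𝓘(ℝ, W) ∞ X]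
  [CompactSpace X]

private theorem e1d_list (C : Cov W X) (i : Fin C.N) :
    List.finRange C.N = lpre C i ++ (i :: lsuf C i) := by
  unfold lpre lsuf
  have h1 : (i : ℕ) < (List.finRange C.N).length := by
    rw [List.length_finRange]
    exact i.2
  have h2 := List.drop_eq_getElem_cons h1
  rw [List.getElem_finRange] at h2
  have h3 : Fin.cast (List.length_finRange) ⟨(i : ℕ), h1⟩ = i := Fin.ext rfl
  conv_lhs => rw [← List.take_append_drop (i : ℕ) (List.finRange C.N), h2]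
  rfl

private theorem e1d_notMem (C : Cov W X) (i : Fin C.N) : i ∉ lpre C i ∧ i ∉ lsuf C i := by
  have h := List.nodup_finRange C.N
  rw [e1d_list C i, List.nodup_append] at h
  obtain ⟨-, h2, h3⟩ := h
  refine ⟨fun h4 => ?_, (List.nodup_cons.1 h2).1⟩
  exact h3 i h4 i List.mem_cons_self rfl

private theorem e1d_split (T : Ty W) (C : Cov W X) {b : W → ℝ} {ε : ℝ} (hb : IsBump b ε) {q : ℕ}
    (i : Fin C.N) (v : VV C q) :
    ShL T C hb (List.finRange C.N) q v =
      ShL T C hb (lpre C i) q (ShI T C hb i q (ShL T C hb (lsuf C i) q v)) := by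
  conv_lhs => rw [e1d_list C i]
  unfold ShL
  rw [List.map_append, List.prod_append, List.map_cons, List.prod_cons]
  rfl

private theorem e1d_one {q : ℕ} (α : Lam W q) : ((1 : ℝ) : ℂ) • α = α := by
  rw [Complex.ofReal_one]
  exact one_smul ℂ α

private theorem e1d_mulV (C : Cov W X) (q : ℕ) {f : X → ℝ} (hf : Continuous f) (v : VV C q)
    (h : ∀ p, v p ≠ 0 → f p = 1) : mulV C q f v = v := by
  refine ContinuousMap.ext fun p => ?_
  rw [mulV_apply C q hf]
  by_cases hp : v p = 0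
  · rw [hp]
    exact g3b_s1 (E := Fin C.N → Lam W q) _
  · rw [h p hp]
    funext j
    ext w
    exact one_smul ℝ (_ : ℂ)

private theorem e1d_kapL (T : Ty W) (C : Cov W X) {q : ℕ} (x0 p : X) (e : Fin C.N → Lam W q) :
    kapL T C x0 p e =
      T.pi q (∑ i, ((C.θ i p : ℝ) : ℂ) • (e i).compContinuousLinearMap (trd x0 (C.c i) p)) := by
  unfold kapL
  rw [LinearMap.comp_apply, LinearMap.sum_apply]
  rfl

private theorem e1d_FL (T : Ty W) (C : Cov W X) (F : X → X) {q : ℕ} (i : Fin C.N) (Y : X)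
    (hθ : C.θ i Y = 1) (hθ' : ∀ j, j ≠ i → C.θ j Y = 0)
    (hYs : Y ∈ (chartAt W (C.c i)).source) (e : Fin C.N → Lam W q) :
    kapL T C (C.c i) Y (FL T C F Y e) =
      T.pi q ((kapL T C (F Y) (F Y) e).compContinuousLinearMap
        ((fd (W := W) (W' := W) F Y).comp (trd (C.c i) Y Y))) := by
  rw [e1d_kapL T C (C.c i) Y (FL T C F Y e)]
  congr 1
  rw [Finset.sum_eq_single i]
  · rw [hθ, e1d_one, trd_self (C.c i) Y hYs]
    have h1 : FL T C F Y e i = ((C.θ i Y : ℝ) : ℂ) •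
        (kapL T C (F Y) (F Y) e).compContinuousLinearMap
        ((fd (W := W) (W' := W) F Y).comp (trd (C.c i) Y Y)) := rfl
    rw [h1, hθ, e1d_one]
    rfl
  · intro j _ hj
    rw [hθ' j hj, Complex.ofReal_zero]
    exact zero_smul ℂ ((FL T C F Y e j).compContinuousLinearMap (trd (C.c i) (C.c j) Y))
  · intro h
    exact absurd (Finset.mem_univ i) h

private theorem e1d_pi (T : Ty W) {q : ℕ} (r : ℝ) (α : Lam W q) :
    T.pi q (r • α) = r • T.pi q α :=
  ((T.pi q).restrictScalars ℝ).map_smul r α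

private theorem e1d_trace (T : Ty W) {q : ℕ} (B : Lam W q →ₗ[ℂ] Lam W q) :
    LinearMap.trace ℂ (Lam W q) ((T.pi q).toLinearMap ∘ₗ B ∘ₗ (T.pi q).toLinearMap) =
      LinearMap.trace ℂ (Lam W q) ((T.pi q).toLinearMap ∘ₗ B) := by
  have h1 : (T.pi q).toLinearMap * (T.pi q).toLinearMap = (T.pi q).toLinearMap :=
    LinearMap.ext fun α => T.pi_pi q α
  show LinearMap.trace ℂ (Lam W q) ((T.pi q).toLinearMap * (B * (T.pi q).toLinearMap)) =
    LinearMap.trace ℂ (Lam W q) ((T.pi q).toLinearMap * B)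
  rw [LinearMap.trace_mul_comm, mul_assoc, h1, LinearMap.trace_mul_comm]

/-- The value of the operator. -/
private theorem e1d_main (T : Ty W) (hX : TGood T X) (C : Cov W X) {F : X → X}
    (hF : ContMDiff 𝓘(ℝ, W) 𝓘(ℝ, W) ∞ F)
    {b : W → ℝ} {ε r : ℝ} (hb : IsBump b ε) (hs : Small C ε r)
    (i : Fin C.N) {s : ℝ} (hc : Core C i (C.c i) s) (q : ℕ) (Y : X)
    (hY : dist (C.c i) Y + 3 * r < s) (hFY : dist (C.c i) (F Y) < s) (α : Lam W q) :
    Rop T C q i (ShL T C hb (lsuf C i) q (FV T hX C hF q (ShL T C hb (List.finRange C.N) q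
      (mulV C q (C.ρ i) (ShL T C hb (lpre C i) q (mulV C q (C.σ i)
        (Eop T C q i (kernB hb q (chartAt W (C.c i) Y) α)))))))) (chartAt W (C.c i) Y) =
      bb b (chartAt W (C.c i) (F Y) - chartAt W (C.c i) Y) • T.pi q ((T.pi q α).compContinuousLinearMap
        (fderiv ℝ (Floc F (C.c i)) (chartAt W (C.c i) Y))) := by
  have hr := hs.hr
  have hYb : Y ∈ Metric.ball (C.c i) s := by
    rw [Metric.mem_ball, dist_comm]
    linarith
  have hFYb : F Y ∈ Metric.ball (C.c i) s := by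
    rw [Metric.mem_ball, dist_comm]
    exact hFY
  obtain ⟨hc1, hc2⟩ := hc.2
  have hsrc : ∀ p ∈ Metric.ball (C.c i) s, p ∈ (chartAt W (C.c i)).source := by
    intro p hp
    refine C.ψs i (subset_tsupport _ ?_)
    rw [Function.mem_support, (hc1 p hp).2.2.2.1]
    exact one_ne_zero
  have hYχ : Y ∈ tsupport (C.χ i) := by
    refine subset_tsupport _ ?_
    rw [Function.mem_support, (hc1 Y hYb).2.2.1]
    exact one_ne_zero
  -- the extended kernel function
  obtain ⟨a, ha⟩ : ∃ a, a = Eop T C q i (kernB hb q (chartAt W (C.c i) Y) α) := ⟨_, rfl⟩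
  have ha1 : ∀ p, a p ≠ 0 → dist Y p ≤ r := by
    intro p hp
    by_contra hcon
    apply hp
    rw [ha]
    exact Eop_kernB_supp T C hb hs i q Y hYχ α p (not_le.1 hcon)
  have ha2 : ∀ p, s ≤ dist (C.c i) p → a p = 0 := by
    intro p hp
    by_contra hcon
    have h1 := ha1 p hcon
    have h2 := dist_triangle (C.c i) Y p
    linarith
  have ha3 : ∀ p, a p ≠ 0 → p ∈ Metric.ball (C.c i) s := by
    intro p hp
    rw [Metric.mem_ball, dist_comm]
    by_contra hcon
    exact hp (ha2 p (not_lt.1 hcon))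
  have hae : eV T C q a = a := by
    rw [ha]
    exact congrArg (fun A : (W →ᵇ Lam W q) →L[ℂ] VV C q =>
      A (kernB hb q (chartAt W (C.c i) Y) α)) (eV_Eop T hX C q i)
  have h1 : mulV C q (C.σ i) a = a :=
    e1d_mulV C q (C.smσ i).continuous a fun p hp => (hc1 p (ha3 p hp)).2.1
  have h2 : ShL T C hb (lpre C i) q a = a :=
    (ShL_other T hX C hb i hc q (lpre C i) (e1d_notMem C i).1 a).1 ha2 hae
  have h3 : mulV C q (C.ρ i) a = a :=
    e1d_mulV C q (C.smρ i).continuous a fun p hp => (hc1 p (ha3 p hp)).1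
  have h4 : ShL T C hb (lsuf C i) q a = a :=
    (ShL_other T hX C hb i hc q (lsuf C i) (e1d_notMem C i).2 a).1 ha2 hae
  -- `Ŝ_i a`
  obtain ⟨a', ha'⟩ : ∃ a', a' = ShI T C hb i q a := ⟨_, rfl⟩
  have hb1 : ∀ p, s ≤ dist (C.c i) p → a' p = 0 := by
    intro p hp
    by_contra hcon
    rw [ha'] at hcon
    obtain ⟨p', hp', h5⟩ := (ShI_rch T C hb i hr.le (hs.h3 i)).support a p hcon
    have h6 := ha1 p' h5
    have h7 := dist_triangle (C.c i) Y p
    have h8 := dist_triangle Y p' p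
    rw [dist_comm p' p] at h8
    linarith
  have hbe : eV T C q a' = a' := by
    rw [ha']
    exact congrArg (fun A : VV C q →L[ℂ] VV C q => A a) (eV_ShI T hX C hb i q)
  have h5 : ShL T C hb (lpre C i) q a' = a' :=
    (ShL_other T hX C hb i hc q (lpre C i) (e1d_notMem C i).1 a').1 hb1 hbe
  have h6 : ShL T C hb (List.finRange C.N) q a = a' := by
    rw [e1d_split T C hb i, h4, ← ha', h5]
  have h7 : ∀ p, a' p = EL T C i (C.ψ i) p
      (bb b (chartAt W (C.c i) p - chartAt W (C.c i) Y) • T.pi q α) := by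
    intro p
    rw [ha', ha]
    exact (core_kern T hX C hb hs i hc q Y (by linarith) α).2 p
  rw [← ha, h1, h2, h3, h6]
  obtain ⟨w, hw⟩ : ∃ w, w = FV T hX C hF q a' := ⟨_, rfl⟩
  rw [← hw, Rop_apply, Set.indicator_of_mem ((chartAt W (C.c i)).map_source (hsrc Y hYb)),
    (chartAt W (C.c i)).left_inv (hsrc Y hYb), (hc1 Y hYb).2.2.1]
  have h8 : kapL T C (C.c i) Y (ShL T C hb (lsuf C i) q w Y) = kapL T C (C.c i) Y (w Y) := by
    have h9 := (ShL_other T hX C hb i hc q (lsuf C i) (e1d_notMem C i).2 w).2 Y hYb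
    rw [eV_apply, eV_apply] at h9
    rw [← kapL_eL T hX C (C.c i) Y (hsrc Y hYb), h9, kapL_eL T hX C (C.c i) Y (hsrc Y hYb)]
  have h10 : kapL T C (C.c i) Y (w Y) = T.pi q ((kapL T C (F Y) (F Y) (a' (F Y))).compContinuousLinearMap
        ((fd (W := W) (W' := W) F Y).comp (trd (C.c i) Y Y))) := by
    rw [hw, FV_apply]
    exact e1d_FL T C F i Y (hc1 Y hYb).2.2.2.2 (fun j hj => (hc2 j hj Y hYb).2.2.2.2)
      (hsrc Y hYb) _
  have h11 : kapL T C (F Y) (F Y) (a' (F Y)) =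
      bb b (chartAt W (C.c i) (F Y) - chartAt W (C.c i) Y) •
        (T.pi q α).compContinuousLinearMap (trd (F Y) (C.c i) (F Y)) := by
    rw [h7, kapL_EL T hX C i (C.ψ i) (C.ψs i) (F Y) (F Y) (mem_chart_source W (F Y)),
      (hc1 (F Y) hFYb).2.2.2.1, e1d_pi, T.pi_pi]
    ext v
    exact one_smul ℝ (_ : ℂ)
  have h12 : fderiv ℝ (Floc F (C.c i)) (chartAt W (C.c i) Y) =
      (trd (F Y) (C.c i) (F Y)).comp ((fd (W := W) (W' := W) F Y).comp (trd (C.c i) Y Y)) :=
    fd_change hF (C.c i) (C.c i) Y (hsrc Y hYb) (hsrc (F Y) hFYb)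
  rw [h8, h10, h11, h12]
  have h13 : ∀ β : Lam W q, (1 : ℝ) • β = β := fun β => by
    ext v
    exact one_smul ℝ (_ : ℂ)
  rw [h13]
  exact e1d_pi T (bb b (chartAt W (C.c i) (F Y) - chartAt W (C.c i) Y))
    ((T.pi q α).compContinuousLinearMap
      ((trd (F Y) (C.c i) (F Y)).comp ((fd (W := W) (W' := W) F Y).comp (trd (C.c i) Y Y))))

/-- JOB E1d.  The integrand near a fixed point: with `y = chart Y`,
`(b*b)(F̃ y - y) · tr (π ∘ (DF̃ y)^*)`.
Let `a = E_i (b(·-y)α)`: supported in `B(Y,r)`, `e a = a`, `σ_i a = a`, `Ŝ_{<i} a = a`, `ρ_i a = a`,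
`Ŝ a = Ŝ_{<i} Ŝ_i Ŝ_{>i} a = Ŝ_i a = E_i((b*b)(·-y) π α)` (`core_kern`, supported in `B(Y,2r)`),
`Ŝ_{>i} (F̂ ..)` at `Y` equals `F̂ ..` at `Y` after `R_i` (`ShL_other`, `Rop` only sees `e v`), and
`R_i F̂ E_i(u) (y) = (π u(F̃ y)) ∘ DF̃ y` (`kapL_EL`, `fd_change`, `F Y` in the core), `π` commutes with
`∘ DF̃ y` (a product of three admissible maps). -/
theorem trI_near (T : Ty W) (hX : TGood T X) (C : Cov W X) {F : X → X}
    (hF : ContMDiff 𝓘(ℝ, W) 𝓘(ℝ, W) ∞ F) (hFT : ∀ p, fd (W := W) (W' := W) F p ∈ T.good)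
    {b : W → ℝ} {ε r : ℝ} (hb : IsBump b ε) (hs : Small C ε r)
    (i : Fin C.N) {z : X} {s : ℝ} (hc : Core C i z s) (q : ℕ) (Y : X)
    (hY : dist z Y + 3 * r < s) (hFY : dist z (F Y) < s) :
    trI T hX C hF hb i q (chartAt W z Y) =
      (bb b (Floc F z (chartAt W z Y) - chartAt W z Y) : ℂ) *
        T.sig q (fderiv ℝ (Floc F z) (chartAt W z Y)) := by
  have hz := hc.1
  subst hz
  have hr := hs.hr
  have hYb : Y ∈ Metric.ball (C.c i) s := by
    rw [Metric.mem_ball, dist_comm]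
    linarith
  have hsrc : Y ∈ (chartAt W (C.c i)).source := by
    refine C.ψs i (subset_tsupport _ ?_)
    rw [Function.mem_support, (hc.2.1 Y hYb).2.2.2.1]
    exact one_ne_zero
  have hFl : Floc F (C.c i) (chartAt W (C.c i) Y) = chartAt W (C.c i) (F Y) := by
    show chartAt W (C.c i) (F ((chartAt W (C.c i)).symm (chartAt W (C.c i) Y))) = _
    rw [(chartAt W (C.c i)).left_inv hsrc]
  rw [hFl]
  obtain ⟨c, hcdef⟩ : ∃ c, c = bb b (chartAt W (C.c i) (F Y) - chartAt W (C.c i) Y) := ⟨_, rfl⟩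
  obtain ⟨L, hL⟩ : ∃ L, L = fderiv ℝ (Floc F (C.c i)) (chartAt W (C.c i) Y) := ⟨_, rfl⟩
  rw [← hcdef, ← hL]
  have key : ((BoundedContinuousFunction.evalCLM ℂ (chartAt W (C.c i) Y)).toLinearMap ∘ₗ
      (Rop T C q i).toLinearMap ∘ₗ
      ((ShL T C hb (lsuf C i) q).comp (((FV T hX C hF q).comp (ShL T C hb (List.finRange C.N) q)).comp
        ((mulV C q (C.ρ i)).comp ((ShL T C hb (lpre C i) q).comp
        ((mulV C q (C.σ i)).comp (Eop T C q i)))))).toLinearMap ∘ₗ kernB hb q (chartAt W (C.c i) Y)) =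
      (c : ℂ) • ((T.pi q).toLinearMap ∘ₗ pbk L q ∘ₗ (T.pi q).toLinearMap) := by
    refine LinearMap.ext fun α => ?_
    have h1 := e1d_main T hX C hF hb hs i hc q Y hY hFY α
    rw [← hcdef, ← hL] at h1
    refine Eq.trans h1 ?_
    ext v
    exact Complex.real_smul
  unfold trI trInt Ty.sig
  rw [key, map_smul, e1d_trace, smul_eq_mul]

end

end FB
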