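import Pool.Agent.H.MP_fb873c_an.L0

/-! # Part G4: nuclearity (G4a) -/

namespace FB

open MeasureTheory
open scoped Topology ContDiff Manifold BoundedContinuousFunction

universe u


section

variable {W : Type} [NormedAddCommGroup W] [InnerProductSpace ℝ W] [FiniteDimensional ℝ W]
  [MeasurableSpace W] [BorelSpace W]
variable {X : Type u} [TopologicalSpace X] [ChartedSpace W X] [IsManifold 𝓘(ℝ, W) ∞ X]
  [CompactSpace X] [T2Space X]

/-- JOB G4a.  The functions `z ↦ k(z - y) α`, linear in `α`, norm-continuous in `y`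
(uniform continuity of the compactly supported continuous `k`). -/
theorem exists_kern {q q' : ℕ} {k : W → Lam W q →L[ℝ] Lam W q'} (hk : Continuous k) {ε : ℝ}
    (hsupp : ∀ y, ε ≤ ‖y‖ → k y = 0) (hkC : ∀ y (c : ℂ) α, k y (c • α) = c • k y α) :
    ∃ A : W → (Lam W q →ₗ[ℂ] (W →ᵇ Lam W q')), (∀ y α z, A y α z = k (z - y) α) ∧
      ∀ α, Continuous (fun y => A y α) := by
  have hcs : ∀ α : Lam W q, HasCompactSupport (fun z => k z α) := by
    intro α
    refine HasCompactSupport.intro (isCompact_closedBall (0 : W) ε) fun y hy => ?_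
    rw [Metric.mem_closedBall, dist_zero_right, not_le] at hy
    rw [hsupp y hy.le]
    rfl
  have hc : ∀ α : Lam W q, Continuous (fun z => k z α) := fun α => hk.clm_apply continuous_const
  have hb : ∀ α : Lam W q, ∃ C, ∀ z, ‖k z α‖ ≤ C := fun α =>
    (hcs α).exists_bound_of_continuous (hc α)
  have hc' : ∀ (y : W) (α : Lam W q), Continuous (fun z => k (z - y) α) := fun y α =>
    (hc α).comp (continuous_id.sub continuous_const)
  refine ⟨fun y =>
    { toFun := fun α => BoundedContinuousFunction.ofNormedAddCommGroup (fun z => k (z - y) α)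
        (hc' y α) _ (fun z => (hb α).choose_spec (z - y))
      map_add' := fun α β => BoundedContinuousFunction.ext fun z => map_add (k (z - y)) α β
      map_smul' := fun c α => BoundedContinuousFunction.ext fun z => hkC (z - y) c α },
    fun y α z => rfl, fun α => ?_⟩
  have huc : UniformContinuous (fun z => k z α) := (hcs α).uniformContinuous_of_continuous (hc α)
  refine Metric.continuous_iff.2 fun y e he => ?_
  obtain ⟨δ, hδ, h⟩ := Metric.uniformContinuous_iff.1 huc (e / 2) (half_pos he)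
  refine ⟨δ, hδ, fun y' hy' => lt_of_le_of_lt ?_ (half_lt_self he)⟩
  refine (BoundedContinuousFunction.dist_le (half_pos he).le).2 fun z => ?_
  refine (h (a := z - y') (b := z - y) ?_).le
  rw [dist_sub_left]
  exact hy'

/-- The kernel functions. -/
noncomputable def kern {q q' : ℕ} {k : W → Lam W q →L[ℝ] Lam W q'} (hk : Continuous k) {ε : ℝ}
    (hsupp : ∀ y, ε ≤ ‖y‖ → k y = 0) (hkC : ∀ y (c : ℂ) α, k y (c • α) = c • k y α) :
    W → (Lam W q →ₗ[ℂ] (W →ᵇ Lam W q')) := (exists_kern hk hsupp hkC).choose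

theorem kern_apply {q q' : ℕ} {k : W → Lam W q →L[ℝ] Lam W q'} (hk : Continuous k) {ε : ℝ}
    (hsupp : ∀ y, ε ≤ ‖y‖ → k y = 0) (hkC : ∀ y (c : ℂ) α, k y (c • α) = c • k y α) (y : W)
    (α : Lam W q) (z : W) : kern hk hsupp hkC y α z = k (z - y) α :=
  (exists_kern hk hsupp hkC).choose_spec.1 y α z

theorem kern_continuous {q q' : ℕ} {k : W → Lam W q →L[ℝ] Lam W q'} (hk : Continuous k) {ε : ℝ}
    (hsupp : ∀ y, ε ≤ ‖y‖ → k y = 0) (hkC : ∀ y (c : ℂ) α, k y (c • α) = c • k y α)
    (α : Lam W q) : Continuous (fun y => kern hk hsupp hkC y α) :=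
  (exists_kern hk hsupp hkC).choose_spec.2 α

end

end FB
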