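import Pool.Agent.H.MP_fb873c_an.L0

/-! Part L3: mollifiers. -/

namespace FB

open MeasureTheory
open scoped Topology ContDiff

section

variable {W : Type} [NormedAddCommGroup W] [InnerProductSpace ℝ W] [MeasurableSpace W]
  [BorelSpace W] [FiniteDimensional ℝ W]

/-- JOB L3.  Radial mollifiers exist: normalise `y ↦ Real.smoothTransition (1 - ‖y‖^2/ε^2)`. -/
theorem exists_isBump {ε : ℝ} (hε : 0 < ε) : ∃ b : W → ℝ, IsBump b ε := by
  set f : W → ℝ := fun y => Real.smoothTransition (1 - ‖y‖ ^ 2 / ε ^ 2) with hf
  have hfs : ContDiff ℝ ∞ f :=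
    Real.smoothTransition.contDiff.comp (contDiff_const.sub ((contDiff_norm_sq ℝ).div_const _))
  have hf0 : ∀ y, 0 ≤ f y := fun y => Real.smoothTransition.nonneg _
  have hfz : ∀ y : W, ε ≤ ‖y‖ → f y = 0 := by
    intro y hy
    apply Real.smoothTransition.zero_of_nonpos
    have h1 : 1 ≤ ‖y‖ ^ 2 / ε ^ 2 := by
      rw [le_div_iff₀ (by positivity), one_mul]
      exact pow_le_pow_left₀ hε.le hy 2
    linarith
  have hfc : HasCompactSupport f := by
    refine HasCompactSupport.intro (isCompact_closedBall (0 : W) ε) fun y hy => hfz y ?_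
    rw [mem_closedBall_zero_iff, not_le] at hy
    exact hy.le
  have hf1 : f 0 ≠ 0 := by
    simp [hf]
  have hI : 0 < ∫ y, f y :=
    hfs.continuous.integral_pos_of_hasCompactSupport_nonneg_nonzero hfc hf0 hf1
  refine ⟨fun y => (∫ y, f y)⁻¹ * f y, hε, contDiff_const.mul hfs, fun y => ?_, fun y hy => ?_, ?_,
    fun x y hxy => ?_⟩
  · have := hf0 y
    positivity
  · show (∫ y, f y)⁻¹ * f y = 0
    rw [hfz y hy, mul_zero]
  · rw [integral_const_mul]
    exact inv_mul_cancel₀ hI.ne'
  · simp only [hf, hxy]

/-- Values in terms of the ball: the integral over the closed ball is 1. -/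
theorem IsBump.setIntegral {b : W → ℝ} {ε : ℝ} (hb : IsBump b ε) :
    ∫ y in Metric.closedBall (0 : W) ε, b y = 1 := by
  rw [setIntegral_eq_integral_of_forall_compl_eq_zero, hb.int]
  intro y hy
  rw [mem_closedBall_zero_iff, not_le] at hy
  exact hb.supp y hy.le

/-- The parameter `t ∈ [0,1]` integrates out. -/
theorem cop_eq {E F : Type} [NormedAddCommGroup E] [NormedSpace ℝ E]
    [NormedAddCommGroup F] [NormedSpace ℝ F] [CompleteSpace F] {k : W → E →L[ℝ] F}
    (hk : Continuous k) (ε : ℝ) (hk' : ∀ y, ε < ‖y‖ → k y = 0) {u : W → E} (hu : Continuous u)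
    (x : W) : Cop k ε u x = ∫ y, k y (u (x - y)) := by
  have hc : Continuous fun y => k y (u (x - y)) :=
    hk.clm_apply (hu.comp (continuous_const.sub continuous_id))
  have h1 : ∫ y in Metric.closedBall (0 : W) ε, k y (u (x - y)) = ∫ y, k y (u (x - y)) := by
    apply setIntegral_eq_integral_of_forall_compl_eq_zero
    intro y hy
    rw [mem_closedBall_zero_iff, not_le] at hy
    rw [hk' y hy]
    rfl
  have h2 : Cop k ε u x = ∫ θ in Set.Icc (0 : ℝ) 1 ×ˢ Metric.closedBall (0 : W) ε,
      (fun θ : ℝ × W => k θ.2 (u (x - θ.2))) θ ∂((volume : Measure ℝ).prod volume) := rfl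
  rw [h2, setIntegral_prod]
  · simp only
    rw [h1]
    simp
  · exact ((hc.comp continuous_snd).continuousOn).integrableOn_compact
      (isCompact_Icc.prod (isCompact_closedBall _ _))

/-- Mollification as a convolution, second form. -/
theorem bop_eq {b : W → ℝ} {ε : ℝ} (hb : IsBump b ε) {q : ℕ} {u : W → Lam W q} (hu : Continuous u)
    (x : W) : Bop b ε u x = ∫ y, b (x - y) • u y := by
  have hk : Continuous fun y => b y • ContinuousLinearMap.id ℝ (Lam W q) :=
    hb.smooth.continuous.smul continuous_const
  rw [Bop, cop_eq hk ε ?_ hu]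
  · rw [← integral_sub_left_eq_self (fun y => b (x - y) • u y) volume x]
    simp
  · intro y hy
    rw [hb.supp y hy.le]
    ext α
    simp

/-- JOB L3.  `b * b` is an approximate identity: nonnegative, continuous, supported in the closed
`2ε`-ball, integral 1. -/
theorem IsBump.conv {b : W → ℝ} {ε : ℝ} (hb : IsBump b ε) :
    Continuous (fun x => ∫ y, b (x - y) * b y) ∧ (∀ x, 0 ≤ ∫ y, b (x - y) * b y) ∧
    (∀ x, 2 * ε < ‖x‖ → ∫ y, b (x - y) * b y = 0) ∧ ∫ x, (∫ y, b (x - y) * b y) = 1 := by
  have hbc := hb.smooth.continuous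
  have hcont : Continuous (fun p : W × W => b (p.1 - p.2) * b p.2) :=
    (hbc.comp (continuous_fst.sub continuous_snd)).mul (hbc.comp continuous_snd)
  have hzero : ∀ x y, 2 * ε < ‖x‖ → b (x - y) * b y = 0 := by
    intro x y hx
    by_cases hy : ε ≤ ‖y‖
    · rw [hb.supp y hy, mul_zero]
    · rw [hb.supp (x - y), zero_mul]
      have := norm_sub_norm_le x y
      push Not at hy
      linarith
  refine ⟨?_, fun x => integral_nonneg fun y => mul_nonneg (hb.nonneg _) (hb.nonneg _),
    fun x hx => ?_, ?_⟩
  · have h1 : (fun x => ∫ y, b (x - y) * b y) =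
        fun x => ∫ y in Metric.closedBall (0 : W) ε, b (x - y) * b y := by
      funext x
      symm
      apply setIntegral_eq_integral_of_forall_compl_eq_zero
      intro y hy
      rw [mem_closedBall_zero_iff, not_le] at hy
      rw [hb.supp y hy.le, mul_zero]
    rw [h1]
    exact continuous_parametric_integral_of_continuous (f := fun x y => b (x - y) * b y) hcont
      (isCompact_closedBall _ _)
  · simp only [hzero x _ hx, integral_zero]
  · have hint : Integrable (Function.uncurry fun x y => b (x - y) * b y)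
        ((volume : Measure W).prod volume) := by
      refine hcont.integrable_of_hasCompactSupport ?_
      refine HasCompactSupport.intro
        ((isCompact_closedBall (0 : W) (2 * ε)).prod (isCompact_closedBall (0 : W) ε))
        fun p hp => ?_
      by_cases h : 2 * ε < ‖p.1‖
      · exact hzero p.1 p.2 h
      · have h2 : ε < ‖p.2‖ := by
          by_contra h3
          push Not at h h3
          exact hp ⟨mem_closedBall_zero_iff.2 h, mem_closedBall_zero_iff.2 h3⟩
        rw [hb.supp p.2 h2.le, mul_zero]
    rw [integral_integral_swap hint]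
    have h3 : ∀ y, ∫ x, b (x - y) * b y = b y := by
      intro y
      rw [integral_mul_const, integral_sub_right_eq_self (fun x => b x) y, hb.int, one_mul]
    simp only [h3, hb.int]

end

end FB
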