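import Mathlib

/-!
# PROJECT LEFSCHETZ (MP_fb873c_an), part T: nuclear operators between Banach spaces

`Nuc A`: data exhibiting a bounded operator `A : V → V'` as an integral of rank one operators
`v ↦ ℓ_t(v) a_t` over a compact second countable parameter space with a finite Borel measure,
`t ↦ a_t` continuous, `(t,v) ↦ ℓ_t v` continuous.  `trN D B = ∫ ℓ_t (B a_t)` is the trace of `A ∘ B`.
-/

namespace FB

open MeasureTheory

section nuc

variable {V V' V'' : Type*}
  [NormedAddCommGroup V] [NormedSpace ℂ V] [CompleteSpace V]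
  [NormedAddCommGroup V'] [NormedSpace ℂ V'] [CompleteSpace V']
  [NormedAddCommGroup V''] [NormedSpace ℂ V''] [CompleteSpace V'']

/-- Integral-nuclear data for a bounded operator. -/
structure Nuc {V V' : Type*} [NormedAddCommGroup V] [NormedSpace ℂ V]
    [NormedAddCommGroup V'] [NormedSpace ℂ V'] (A : V →L[ℂ] V') where
  T : Type
  [top : TopologicalSpace T]
  [comp : CompactSpace T]
  [sc : SecondCountableTopology T]
  [meas : MeasurableSpace T]
  [bor : BorelSpace T]
  μ : Measure T
  [fin : IsFiniteMeasure μ]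
  a : T → V'
  ha : Continuous a
  l : T → V →L[ℂ] ℂ
  hl : Continuous (fun p : T × V => l p.1 p.2)
  eq : ∀ v, A v = ∫ t, l t v • a t ∂μ

attribute [instance] Nuc.top Nuc.comp Nuc.sc Nuc.meas Nuc.bor Nuc.fin

/-- The trace of `A ∘ B` for nuclear `A : V → V'` and bounded `B : V' → V`. -/
noncomputable def trN {A : V →L[ℂ] V'} (D : Nuc A) (B : V' →L[ℂ] V) : ℂ :=
  ∫ t, D.l t (B (D.a t)) ∂D.μ

end nuc

end FB
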