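import Pool.Agent.H.MP_fb873c_an.G2e
import Pool.Agent.H.MP_fb873c_an.G4a
import Pool.Agent.H.MP_fb873c_an.L3
import Pool.Agent.H.MP_fb873c_an.T0

/-! # Part G4: nuclearity (G4b) -/

namespace FB

open MeasureTheory
open scoped Topology ContDiff Manifold BoundedContinuousFunction

universe u


section nucabs

private theorem nuc_prod {S G : Type*} [TopologicalSpace S] [CompactSpace S]
    [SecondCountableTopology S] [MeasurableSpace S] [BorelSpace S] (μ : Measure S)
    [IsFiniteMeasure μ] [NormedAddCommGroup G] [NormedSpace ℝ G] [CompleteSpace G] {r : ℕ}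
    (f : S × Fin r → G) (hf : Continuous f) :
    ∫ t, f t ∂(μ.prod Measure.count) = ∫ y, ∑ j, f (y, j) ∂μ := by
  rw [integral_prod _ (hf.integrable_of_hasCompactSupport (HasCompactSupport.of_compactSpace f))]
  refine integral_congr_ae (Filter.Eventually.of_forall fun y => ?_)
  exact integral_count _

private theorem nuc_abs {W : Type} [NormedAddCommGroup W] [InnerProductSpace ℝ W]
    [FiniteDimensional ℝ W] [MeasurableSpace W] [BorelSpace W] {E F V : Type*}
    [NormedAddCommGroup E] [NormedSpace ℂ E] [FiniteDimensional ℂ E]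
    [NormedAddCommGroup F] [NormedSpace ℂ F] [CompleteSpace F]
    [NormedAddCommGroup V] [NormedSpace ℂ V] {K : Set W} (hK : IsCompact K)
    (R : V →L[ℂ] (W →ᵇ E)) (hR : ∀ v y, y ∉ K → R v y = 0)
    (κ : W → (E →ₗ[ℂ] (W →ᵇ F))) (hκ : ∀ α, Continuous (fun y => κ y α))
    (A : V →L[ℂ] (W →ᵇ F)) (hA : ∀ v x, A v x = ∫ y, κ y (R v y) x) :
    ∃ D : Nuc A, ∀ B : (W →ᵇ F) →L[ℂ] V, trN D B = ∫ y in K, LinearMap.trace ℂ E
      ((BoundedContinuousFunction.evalCLM ℂ y).toLinearMap ∘ₗ R.toLinearMap ∘ₗ
        B.toLinearMap ∘ₗ κ y) := by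
  classical
  have : CompactSpace K := isCompact_iff_compactSpace.1 hK
  have : ProperSpace W := FiniteDimensional.proper_real W
  have : SecondCountableTopology W := secondCountable_of_proper
  have hKm : MeasurableSet K := hK.measurableSet
  let r := Module.finrank ℂ E
  let b : Module.Basis (Fin r) ℂ E := Module.finBasis ℂ E
  let μK : Measure K := Measure.comap Subtype.val volume
  have hfin : IsFiniteMeasure μK := by
    refine ⟨?_⟩
    rw [Measure.comap_apply _ Subtype.val_injective
      (fun s hs => (MeasurableEmbedding.subtype_coe hKm).measurableSet_image.2 hs) _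
      MeasurableSet.univ]
    refine lt_of_le_of_lt (measure_mono (t := K) ?_) hK.measure_lt_top
    rintro _ ⟨y, -, rfl⟩
    exact y.2
  let l0 : K × Fin r → V →L[ℂ] ℂ := fun t =>
    (LinearMap.toContinuousLinearMap (b.coord t.2)).comp
      ((BoundedContinuousFunction.evalCLM ℂ (t.1 : W)).comp R)
  let a0 : K × Fin r → (W →ᵇ F) := fun t => κ t.1 (b t.2)
  have hl0 : ∀ t v, l0 t v = b.repr (R v (t.1 : W)) t.2 := fun t v => rfl
  have ha : Continuous a0 := by
    rw [continuous_prod_of_discrete_right]
    intro j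
    exact (hκ (b j)).comp continuous_subtype_val
  have hl : Continuous (fun p : (K × Fin r) × V => l0 p.1 p.2) := by
    have h1 : Continuous (fun p : (K × Fin r) × V => R p.2 (p.1.1 : W)) := by
      have h2 : Continuous (fun q : (W →ᵇ E) × W => q.1 q.2) := continuous_eval
      exact h2.comp ((R.continuous.comp continuous_snd).prodMk
        (continuous_subtype_val.comp (continuous_fst.comp continuous_fst)))
    have h3 : Continuous (fun q : Fin r × E => b.repr q.2 q.1) := by
      rw [continuous_prod_of_discrete_left]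
      intro j
      exact (LinearMap.toContinuousLinearMap (b.coord j)).continuous
    exact h3.comp ((continuous_snd.comp continuous_fst).prodMk h1)
  have heq : ∀ v, A v = ∫ t, l0 t v • a0 t ∂(μK.prod Measure.count) := by
    intro v
    have hc : Continuous (fun t => l0 t v • a0 t) :=
      (hl.comp (continuous_id.prodMk continuous_const)).smul ha
    ext x
    rw [hA]
    have hev : (∫ t, l0 t v • a0 t ∂(μK.prod Measure.count)) x
        = ∫ t, (l0 t v • a0 t) x ∂(μK.prod Measure.count) := by
      have h5 := (BoundedContinuousFunction.evalCLM ℂ x : (W →ᵇ F) →L[ℂ] F).integral_comp_comm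
        (hc.integrable_of_hasCompactSupport (μ := μK.prod Measure.count)
          (HasCompactSupport.of_compactSpace _))
      exact h5.symm
    rw [hev, nuc_prod]
    · rw [← setIntegral_eq_integral_of_forall_compl_eq_zero (s := K),
        ← integral_subtype_comap hKm]
      · refine integral_congr_ae (Filter.Eventually.of_forall fun y => ?_)
        show κ y (R v y) x = ∑ j, (l0 (y, j) v • a0 (y, j)) x
        have h6 : R v y = ∑ j, b.repr (R v (y : W)) j • b j := (b.sum_repr _).symm
        have h7 : κ y (R v y) = ∑ j, b.repr (R v (y : W)) j • κ y (b j) := by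
          conv_lhs => rw [h6]
          rw [map_sum]
          simp only [map_smul]
        rw [h7]
        simp [hl0, a0]
      · intro y hy
        rw [hR v y hy, map_zero]
        rfl
    · exact (BoundedContinuousFunction.evalCLM ℂ x : (W →ᵇ F) →L[ℂ] F).continuous.comp hc
  refine ⟨{ T := K × Fin r, μ := μK.prod Measure.count, a := a0, ha := ha, l := l0, hl := hl,
            eq := heq }, fun B => ?_⟩
  show ∫ t, l0 t (B (a0 t)) ∂(μK.prod Measure.count) = _
  rw [nuc_prod μK (fun t => l0 t (B (a0 t)))
    (hl.comp (continuous_id.prodMk (B.continuous.comp ha))), ← integral_subtype_comap hKm]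
  refine integral_congr_ae (Filter.Eventually.of_forall fun y => ?_)
  beta_reduce
  rw [LinearMap.trace_eq_matrix_trace ℂ b, Matrix.trace]
  refine Finset.sum_congr rfl fun j _ => ?_
  rw [Matrix.diag_apply, LinearMap.toMatrix_apply]
  rfl

end nucabs

section

variable {W : Type} [NormedAddCommGroup W] [InnerProductSpace ℝ W] [FiniteDimensional ℝ W]
  [MeasurableSpace W] [BorelSpace W]
variable {X : Type u} [TopologicalSpace X] [ChartedSpace W X] [IsManifold 𝓘(ℝ, W) ∞ X]
  [CompactSpace X] [T2Space X]

/-- JOB G4b.  Nuclear data of `C_k ∘ R_i`.  Parameter space `T = K × Fin r`, `K = chart (tsupport χ_i)`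
compact, with the restriction of Lebesgue measure to `K` (comap of `volume` along the inclusion) times the
counting measure, `r = dim (Lam W q)` with a basis `e_l` of `Lam W q` and dual basis `e_l^*`;
`a_{(y,l)} = kern y e_l`, `l_{(y,l)}(v) = e_l^* ((R_i v)(y))`.
`(C_k R_i v)(x) = ∫ k(y) (R_i v)(x-y) dy = ∫_K k(x-y) (R_i v)(y) dy` (`cop_eq`; `R_i v` vanishes off `K`),
and `(R_i v)(y) = ∑_l l_{(y,l)}(v) e_l`; evaluation at `x` commutes with the Bochner integral.
The trace against `B` is `∫_K ∑_l e_l^*((R_i B kern y e_l)(y)) dy = ∫_K tr(...)`. -/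
theorem exists_nuc_conv (T : Ty W) (C : Cov W X) (i : Fin C.N) {q q' : ℕ}
    {k : W → Lam W q →L[ℝ] Lam W q'} (hk : Continuous k) {ε : ℝ} (hε : 0 < ε)
    (hsupp : ∀ y, ε ≤ ‖y‖ → k y = 0) (hkC : ∀ y (c : ℂ) α, k y (c • α) = c • k y α) :
    ∃ D : Nuc (V := VV C q) (V' := W →ᵇ Lam W q') ((CB hk hε hkC).comp (Rop T C q i)),
      ∀ B : (W →ᵇ Lam W q') →L[ℂ] VV C q, trN (V := VV C q) (V' := W →ᵇ Lam W q') D B = ∫ y in (chartAt W (C.c i)) '' tsupport (C.χ i), LinearMap.trace ℂ (Lam W q)
        ((BoundedContinuousFunction.evalCLM ℂ y).toLinearMap ∘ₗ (Rop T C q i).toLinearMap ∘ₗ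
          B.toLinearMap ∘ₗ kern hk hsupp hkC y) := by
  have : FiniteDimensional ℂ (Lam W q) := lam_finite q
  have hK : IsCompact ((chartAt W (C.c i)) '' tsupport (C.χ i)) :=
    (isClosed_tsupport (C.χ i)).isCompact.image_of_continuousOn
      ((chartAt W (C.c i)).continuousOn.mono (tsupport_χ_subset C i))
  have hR : ∀ (v : VV C q) (y : W), y ∉ (chartAt W (C.c i)) '' tsupport (C.χ i) →
      Rop T C q i v y = 0 := by
    intro v y hy
    rw [Rop_apply]
    by_cases hm : y ∈ (chartAt W (C.c i)).target
    · rw [Set.indicator_of_mem hm]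
      have h0 : C.χ i ((chartAt W (C.c i)).symm y) = 0 := by
        by_contra h
        exact hy ⟨_, subset_tsupport _ h, (chartAt W (C.c i)).right_inv hm⟩
      rw [h0]
      exact zero_smul ℝ (kapL T C (C.c i) ((chartAt W (C.c i)).symm y)
        (v ((chartAt W (C.c i)).symm y)))
    · rw [Set.indicator_of_notMem hm]
  refine nuc_abs (E := Lam W q) (F := Lam W q') (V := VV C q) hK (Rop T C q i) hR (kern hk hsupp hkC) (kern_continuous hk hsupp hkC)
    ((CB hk hε hkC).comp (Rop T C q i)) ?_
  intro v x
  have h1 : ((CB hk hε hkC).comp (Rop T C q i)) v x = Cop k ε (Rop T C q i v) x :=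
    CB_apply hk hε hkC _ x
  rw [h1, cop_eq hk ε (fun y hy => hsupp y hy.le) (Rop T C q i v).continuous x]
  have h2 := integral_sub_left_eq_self (fun y => k (x - y) (Rop T C q i v y)) volume x
  simp only [sub_sub_cancel] at h2
  rw [h2]
  refine integral_congr_ae (Filter.Eventually.of_forall fun y => ?_)
  exact (kern_apply hk hsupp hkC y _ x).symm

end

end FB
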