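import Pool.Agent.H.MP_fb873c_an.T0

/-! Part T1c: closure properties -/

namespace FB

open MeasureTheory

section

variable {V V' V'' : Type*}
  [NormedAddCommGroup V] [NormedSpace ℂ V] [CompleteSpace V]
  [NormedAddCommGroup V'] [NormedSpace ℂ V'] [CompleteSpace V']
  [NormedAddCommGroup V''] [NormedSpace ℂ V''] [CompleteSpace V'']

/-- continuous functions on the parameter space are integrable -/
theorem T1c_int {A : V →L[ℂ] V'} (D : Nuc A) {E : Type*} [NormedAddCommGroup E] {f : D.T → E}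
    (hf : Continuous f) : Integrable f D.μ :=
  hf.integrable_of_hasCompactSupport (HasCompactSupport.of_compactSpace f)

theorem T1c_sum {A A' : V →L[ℂ] V'} (D : Nuc A) (D' : Nuc A') [MeasurableSpace (D.T ⊕ D'.T)]
    [BorelSpace (D.T ⊕ D'.T)] {E : Type*} [NormedAddCommGroup E] [NormedSpace ℝ E]
    {f : D.T ⊕ D'.T → E} (hf : Continuous f) :
    ∫ t, f t ∂(D.μ.map Sum.inl + D'.μ.map Sum.inr) =
      ∫ t, f (Sum.inl t) ∂D.μ + ∫ t, f (Sum.inr t) ∂D'.μ := by
  have e1 : MeasurableEmbedding (Sum.inl : D.T → D.T ⊕ D'.T) :=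
    Topology.IsClosedEmbedding.inl.measurableEmbedding
  have e2 : MeasurableEmbedding (Sum.inr : D'.T → D.T ⊕ D'.T) :=
    Topology.IsClosedEmbedding.inr.measurableEmbedding
  rw [integral_add_measure, e1.integral_map, e2.integral_map]
  · rw [e1.integrable_map_iff]
    exact T1c_int D (hf.comp continuous_inl)
  · rw [e2.integrable_map_iff]
    exact T1c_int D' (hf.comp continuous_inr)

theorem T1c_cl {A : V →L[ℂ] V'} (D : Nuc A) {X : Type*} [TopologicalSpace X] {f : X → D.T}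
    {g : X → V} (hf : Continuous f) (hg : Continuous g) : Continuous fun x => D.l (f x) (g x) :=
  D.hl.comp (hf.prodMk hg)

/-- JOB T1c.  Left composition: `a := C ∘ D.a`, same `l`. -/
theorem nuc_compLeft {A : V →L[ℂ] V'} (D : Nuc A) (C : V' →L[ℂ] V'') :
    ∃ D₁ : Nuc (C.comp A), ∀ B : V'' →L[ℂ] V, trN D₁ B = trN D (B.comp C) := by
  refine ⟨{ T := D.T, μ := D.μ, a := fun t => C (D.a t), ha := C.continuous.comp D.ha, l := D.l,
            hl := D.hl, eq := fun v => ?_ }, fun B => rfl⟩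
  have h1 : Integrable (fun t => D.l t v • D.a t) D.μ :=
    T1c_int D ((T1c_cl D continuous_id continuous_const).smul D.ha)
  calc (C.comp A) v = C (∫ t, D.l t v • D.a t ∂D.μ) := by rw [← D.eq]; rfl
    _ = ∫ t, C (D.l t v • D.a t) ∂D.μ := (C.integral_comp_comm h1).symm
    _ = ∫ t, D.l t v • C (D.a t) ∂D.μ := by simp only [map_smul]

/-- JOB T1c.  Right composition: `l := D.l t ∘ C`, same `a`. -/
theorem nuc_compRight {A : V →L[ℂ] V'} (D : Nuc A) (C : V'' →L[ℂ] V) :
    ∃ D₁ : Nuc (A.comp C), ∀ B : V' →L[ℂ] V'', trN D₁ B = trN D (C.comp B) := by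
  exact ⟨{ T := D.T, μ := D.μ, a := D.a, ha := D.ha, l := fun t => (D.l t).comp C,
            hl := T1c_cl D continuous_fst (C.continuous.comp continuous_snd),
            eq := fun v => D.eq (C v) }, fun B => rfl⟩

/-- JOB T1c.  Sum: the parameter space is the disjoint union `T ⊕ T'` with the measure
`μ.map Sum.inl + μ'.map Sum.inr`. -/
theorem nuc_add {A A' : V →L[ℂ] V'} (D : Nuc A) (D' : Nuc A') :
    ∃ D₁ : Nuc (A + A'), ∀ B : V' →L[ℂ] V, trN D₁ B = trN D B + trN D' B := by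
  letI : MeasurableSpace (D.T ⊕ D'.T) := borel _
  haveI : BorelSpace (D.T ⊕ D'.T) := ⟨rfl⟩
  have ha : Continuous (Sum.elim D.a D'.a) := D.ha.sumElim D'.ha
  have hl0 : Continuous (fun p : (D.T ⊕ D'.T) × V => (Sum.elim D.l D'.l p.1) p.2) := by
    rw [← (Homeomorph.sumProdDistrib (X := D.T) (Y := D'.T) (Z := V)).symm.comp_continuous_iff']
    refine continuous_sum_dom.2 ⟨?_, ?_⟩
    · exact D.hl
    · exact D'.hl
  have hl1 : ∀ v, Continuous fun t => (Sum.elim D.l D'.l t) v := fun v =>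
    hl0.comp (continuous_id.prodMk continuous_const)
  refine ⟨{ T := D.T ⊕ D'.T, μ := D.μ.map Sum.inl + D'.μ.map Sum.inr, a := Sum.elim D.a D'.a,
            ha := ha, l := Sum.elim D.l D'.l, hl := hl0, eq := fun v => ?_ }, fun B => ?_⟩
  · have h3 : Continuous fun t => (Sum.elim D.l D'.l t) v • Sum.elim D.a D'.a t := (hl1 v).smul ha
    rw [T1c_sum D D' h3]
    simp only [Sum.elim_inl, Sum.elim_inr]
    rw [← D.eq, ← D'.eq]
    rfl
  · have h3 : Continuous fun t => (Sum.elim D.l D'.l t) (B (Sum.elim D.a D'.a t)) :=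
      hl0.comp (continuous_id.prodMk (B.continuous.comp ha))
    exact T1c_sum D D' h3

theorem nuc_smul {A : V →L[ℂ] V'} (c : ℂ) (D : Nuc A) :
    ∃ D₁ : Nuc (c • A), ∀ B : V' →L[ℂ] V, trN D₁ B = c * trN D B := by
  refine ⟨{ T := D.T, μ := D.μ, a := fun t => c • D.a t, ha := D.ha.const_smul c, l := D.l,
            hl := D.hl, eq := fun v => ?_ }, fun B => ?_⟩
  · calc (c • A) v = c • ∫ t, D.l t v • D.a t ∂D.μ := by rw [← D.eq]; rfl
      _ = ∫ t, c • (D.l t v • D.a t) ∂D.μ := (integral_smul _ _).symm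
      _ = ∫ t, D.l t v • (c • D.a t) ∂D.μ := by simp only [smul_comm c]
  · calc ∫ t, D.l t (B (c • D.a t)) ∂D.μ = ∫ t, c * D.l t (B (D.a t)) ∂D.μ := by
          simp only [map_smul, smul_eq_mul]
      _ = c * ∫ t, D.l t (B (D.a t)) ∂D.μ := integral_const_mul _ _

theorem nuc_zero : ∃ D₁ : Nuc (0 : V →L[ℂ] V'), ∀ B : V' →L[ℂ] V, trN D₁ B = 0 := by
  let _ : MeasurableSpace Unit := borel _
  have : BorelSpace Unit := ⟨rfl⟩
  refine ⟨{ T := Unit, μ := 0, a := fun _ => 0, ha := continuous_const, l := fun _ => 0,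
            hl := continuous_const, eq := fun v => ?_ }, fun B => ?_⟩
  · simp
  · simp [trN]

theorem nuc_sum {κ : Type*} (s : Finset κ) (A : κ → V →L[ℂ] V') (D : ∀ i, Nuc (A i)) :
    ∃ D₁ : Nuc (∑ i ∈ s, A i), ∀ B : V' →L[ℂ] V, trN D₁ B = ∑ i ∈ s, trN (D i) B := by
  classical
  induction s using Finset.induction_on with
  | empty =>
    obtain ⟨D₁, h1⟩ := nuc_zero (V := V) (V' := V')
    rw [Finset.sum_empty]
    exact ⟨D₁, fun B => by rw [h1, Finset.sum_empty]⟩
  | insert i s hi ih =>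
    obtain ⟨D₂, h2⟩ := ih
    obtain ⟨D₁, h1⟩ := nuc_add (D i) D₂
    rw [Finset.sum_insert hi]
    exact ⟨D₁, fun B => by rw [h1, h2, Finset.sum_insert hi]⟩

end

end FB
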