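import Pool.Agent.H.MP_fb873c_an.G2i0
import Pool.Agent.H.MP_fb873c_an.G4b
import Pool.Agent.H.MP_fb873c_an.T1c

/-! # Part G4: nuclearity (G4c) -/

namespace FB

open MeasureTheory
open scoped Topology ContDiff Manifold BoundedContinuousFunction

universe u

section

variable {V V' V'' U : Type*}
  [NormedAddCommGroup V] [NormedSpace ℂ V] [CompleteSpace V]
  [NormedAddCommGroup V'] [NormedSpace ℂ V'] [CompleteSpace V']
  [NormedAddCommGroup V''] [NormedSpace ℂ V''] [CompleteSpace V'']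
  [NormedAddCommGroup U] [NormedSpace ℂ U] [CompleteSpace U]

theorem G4c_sandwich {A : V →L[ℂ] U} (D : Nuc A) (L : U →L[ℂ] V') (S : V'' →L[ℂ] V) :
    ∃ D₂ : Nuc (L.comp (A.comp S)), ∀ B : V' →L[ℂ] V'',
      trN D₂ B = trN D (S.comp (B.comp L)) := by
  obtain ⟨D₁, h1⟩ := nuc_compRight D S
  obtain ⟨D₂, h2⟩ := nuc_compLeft D₁ L
  exact ⟨D₂, fun B => by rw [h2, h1]⟩

theorem G4c_left {A : V →L[ℂ] U} (h : Nonempty (Nuc A)) (L : U →L[ℂ] V') :
    Nonempty (Nuc (L.comp A)) := by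
  obtain ⟨D⟩ := h
  obtain ⟨D₂, -⟩ := nuc_compLeft D L
  exact ⟨D₂⟩

theorem G4c_right {A : V →L[ℂ] U} (h : Nonempty (Nuc A)) (S : V'' →L[ℂ] V) :
    Nonempty (Nuc (A.comp S)) := by
  obtain ⟨D⟩ := h
  obtain ⟨D₂, -⟩ := nuc_compRight D S
  exact ⟨D₂⟩

theorem G4c_add {A A' : V →L[ℂ] V'} (h : Nonempty (Nuc A)) (h' : Nonempty (Nuc A')) :
    Nonempty (Nuc (A + A')) := by
  obtain ⟨D⟩ := h
  obtain ⟨D'⟩ := h'
  obtain ⟨D₂, -⟩ := nuc_add D D'
  exact ⟨D₂⟩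

theorem G4c_sum {κ : Type*} (s : Finset κ) (A : κ → V →L[ℂ] V') (h : ∀ i, Nonempty (Nuc (A i))) :
    Nonempty (Nuc (∑ i ∈ s, A i)) := by
  obtain ⟨D₂, -⟩ := nuc_sum s A fun i => (h i).some
  exact ⟨D₂⟩

end

section

variable {W : Type} [NormedAddCommGroup W] [InnerProductSpace ℝ W] [FiniteDimensional ℝ W]
  [MeasurableSpace W] [BorelSpace W]
variable {X : Type u} [TopologicalSpace X] [ChartedSpace W X] [IsManifold 𝓘(ℝ, W) ∞ X]
  [CompactSpace X] [T2Space X]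

theorem bump_kernel_supp {b : W → ℝ} {ε : ℝ} (hb : IsBump b ε) (q : ℕ) (y : W) (hy : ε ≤ ‖y‖) :
    (b y • ContinuousLinearMap.id ℝ (Lam W q)) = 0 := by
  rw [hb.supp y hy]; ext; simp

/-- The functions `z ↦ b(z - y) α`. -/
noncomputable def kernB {b : W → ℝ} {ε : ℝ} (hb : IsBump b ε) (q : ℕ) (y : W) :
    Lam W q →ₗ[ℂ] (W →ᵇ Lam W q) :=
  kern (bump_kernel_continuous hb q) (bump_kernel_supp hb q) (bump_kernel_smul q) y

theorem kernB_apply {b : W → ℝ} {ε : ℝ} (hb : IsBump b ε) (q : ℕ) (y : W) (α : Lam W q) (z : W) :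
    kernB hb q y α z = b (z - y) • α := kern_apply _ _ _ y α z

/-- The integrand of the trace formula: `α ↦ (R_i Ŝ_{>i} B ρ_i Ŝ_{<i} σ_i E_i (b(·-y) α))(y)`. -/
noncomputable def trInt (T : Ty W) (C : Cov W X) {b : W → ℝ} {ε : ℝ} (hb : IsBump b ε)
    (i : Fin C.N) (q : ℕ) (B : VV C q →L[ℂ] VV C q) (y : W) : ℂ :=
  LinearMap.trace ℂ (Lam W q)
    ((BoundedContinuousFunction.evalCLM ℂ y).toLinearMap ∘ₗ (Rop T C q i).toLinearMap ∘ₗ
      ((ShL T C hb (lsuf C i) q).comp (B.comp ((mulV C q (C.ρ i)).comp ((ShL T C hb (lpre C i) q).comp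
        ((mulV C q (C.σ i)).comp (Eop T C q i)))))).toLinearMap ∘ₗ kernB hb q y)

theorem G4c_term (T : Ty W) (C : Cov W X) {b : W → ℝ} {ε : ℝ} (hb : IsBump b ε) (q : ℕ)
    (i : Fin C.N) :
    ∃ D : Nuc (V := VV C q) (V' := VV C q) ((mulV C q (C.ρ i)).comp ((ShL T C hb (lpre C i) q).comp
        ((NI T C hb i q).comp (ShL T C hb (lsuf C i) q)))), ∀ B : VV C q →L[ℂ] VV C q,
      trN (V := VV C q) (V' := VV C q) D B = ∫ y in (chartAt W (C.c i)) '' tsupport (C.χ i),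
        trInt T C hb i q B y := by
  obtain ⟨D, hD⟩ := exists_nuc_conv T C i (bump_kernel_continuous hb q) hb.pos
    (bump_kernel_supp hb q) (bump_kernel_smul q)
  obtain ⟨L, hL⟩ : ∃ L : (W →ᵇ Lam W q) →L[ℂ] VV C q, L = (mulV C q (C.ρ i)).comp
    ((ShL T C hb (lpre C i) q).comp ((mulV C q (C.σ i)).comp (Eop T C q i))) := ⟨_, rfl⟩
  obtain ⟨D₂, h2⟩ := G4c_sandwich (V := VV C q) (V' := VV C q) (V'' := VV C q)
    (U := W →ᵇ Lam W q) D L (ShL T C hb (lsuf C i) q)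
  have h3 : (mulV C q (C.ρ i)).comp ((ShL T C hb (lpre C i) q).comp
        ((NI T C hb i q).comp (ShL T C hb (lsuf C i) q))) =
      L.comp (((CB (bump_kernel_continuous hb q) hb.pos (bump_kernel_smul q)).comp
        (Rop T C q i)).comp (ShL T C hb (lsuf C i) q)) := by
    rw [hL]
    rfl
  rw [h3]
  refine ⟨D₂, fun B => ?_⟩
  rw [h2, hD]
  rw [hL]
  rfl

/-- JOB G4c.  Nuclear data of `∑_i ρ_i Ŝ_{<i} N_i Ŝ_{>i}` with the trace formula
(`exists_nuc_conv` for the kernel `b`, `nuc_compLeft`, `nuc_compRight`, `nuc_sum`). -/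
theorem exists_nuc_S (T : Ty W) (C : Cov W X) {b : W → ℝ} {ε : ℝ} (hb : IsBump b ε) (q : ℕ) :
    ∃ D : Nuc (V := VV C q) (V' := VV C q) (∑ i : Fin C.N, (mulV C q (C.ρ i)).comp ((ShL T C hb (lpre C i) q).comp
        ((NI T C hb i q).comp (ShL T C hb (lsuf C i) q)))), ∀ B : VV C q →L[ℂ] VV C q,
      trN (V := VV C q) (V' := VV C q) D B = ∑ i : Fin C.N, ∫ y in (chartAt W (C.c i)) '' tsupport (C.χ i),
        trInt T C hb i q B y := by
  choose D hD using G4c_term T C hb q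
  obtain ⟨D₁, h1⟩ := nuc_sum (V := VV C q) (V' := VV C q) Finset.univ
    (fun i : Fin C.N => (mulV C q (C.ρ i)).comp ((ShL T C hb (lpre C i) q).comp
        ((NI T C hb i q).comp (ShL T C hb (lsuf C i) q)))) D
  refine ⟨D₁, fun B => ?_⟩
  rw [h1 B]
  exact Finset.sum_congr rfl fun i _ => hD i B

theorem G4c_conv (T : Ty W) (C : Cov W X) {b : W → ℝ} {ε : ℝ} (hb : IsBump b ε) (q : ℕ)
    (i : Fin C.N) :
    Nonempty (Nuc (V := VV C q) (V' := W →ᵇ Lam W q) ((BB hb q).comp (Rop T C q i))) := by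
  obtain ⟨D, -⟩ := exists_nuc_conv T C i (bump_kernel_continuous hb q) hb.pos
    (bump_kernel_supp hb q) (bump_kernel_smul q)
  exact ⟨D⟩

theorem G4c_convD (T : Ty W) (C : Cov W X) {b : W → ℝ} {ε : ℝ} (hb : IsBump b ε) (q : ℕ)
    (i : Fin C.N) :
    Nonempty (Nuc (V := VV C q) (V' := W →ᵇ Lam W (q + 1))
      ((CB (kD_cont T hb q) hb.pos (kD_smul T hb q)).comp (Rop T C q i))) := by
  obtain ⟨D, -⟩ := exists_nuc_conv T C i (kD_cont T hb q) hb.pos (kD_supp T hb q) (kD_smul T hb q)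
  exact ⟨D⟩

theorem G4c_NI (T : Ty W) (C : Cov W X) {b : W → ℝ} {ε : ℝ} (hb : IsBump b ε) (q : ℕ)
    (i : Fin C.N) : Nonempty (Nuc (V := VV C q) (V' := VV C q) (NI T C hb i q)) := by
  unfold NI
  exact G4c_left (V := VV C q) (V' := VV C q) (U := VV C q)
    (G4c_left (V := VV C q) (V' := VV C q) (U := W →ᵇ Lam W q) (G4c_conv T C hb q i) _) _

theorem G4c_NdI (T : Ty W) (C : Cov W X) {b : W → ℝ} {ε : ℝ} (hb : IsBump b ε) (q : ℕ)
    (i : Fin C.N) : Nonempty (Nuc (V := VV C q) (V' := VV C (q + 1)) (NdI T C hb i q)) := by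
  unfold NdI
  exact G4c_add (V := VV C q) (V' := VV C (q + 1))
    (G4c_left (V := VV C q) (V' := VV C (q + 1)) (U := VV C q)
      (G4c_left (V := VV C q) (V' := VV C q) (U := W →ᵇ Lam W q) (G4c_conv T C hb q i) _) _)
    (G4c_left (V := VV C q) (V' := VV C (q + 1)) (U := VV C (q + 1))
      (G4c_left (V := VV C q) (V' := VV C (q + 1)) (U := W →ᵇ Lam W (q + 1))
        (G4c_convD T C hb q i) _) _)

/-- JOB G4c.  `dV` is nuclear. -/
theorem nuc_dV (T : Ty W) (C : Cov W X) {b : W → ℝ} {ε : ℝ} (hb : IsBump b ε) (q : ℕ) :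
    Nonempty (Nuc (V := VV C q) (V' := VV C (q + 1)) (dV (X := X) T C hb q)) := by
  unfold dV
  refine G4c_sum (V := VV C q) (V' := VV C (q + 1)) Finset.univ _ fun i => ?_
  refine G4c_add (V := VV C q) (V' := VV C (q + 1)) ?_ ?_
  · refine G4c_left (V := VV C q) (V' := VV C (q + 1)) (U := VV C q) ?_ _
    refine G4c_left (V := VV C q) (V' := VV C q) (U := VV C q) ?_ _
    exact G4c_right (V := VV C q) (V'' := VV C q) (U := VV C q) (G4c_NI T C hb q i) _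
  · refine G4c_left (V := VV C q) (V' := VV C (q + 1)) (U := VV C (q + 1)) ?_ _
    refine G4c_left (V := VV C q) (V' := VV C (q + 1)) (U := VV C (q + 1)) ?_ _
    exact G4c_right (V := VV C q) (V'' := VV C q) (U := VV C (q + 1)) (G4c_NdI T C hb q i) _

end

end FB
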