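import Pool.Agent.H.MP_fb873c_an.G2e
import Pool.Agent.H.MP_fb873c_an.G2g1

/-! # Part G5: the trace formula (G5a) -/

namespace FB

open MeasureTheory
open scoped Topology ContDiff Manifold BoundedContinuousFunction

universe u


section

variable {W : Type} [NormedAddCommGroup W] [InnerProductSpace ℝ W] [FiniteDimensional ℝ W]
  [MeasurableSpace W] [BorelSpace W]
variable {X : Type u} [TopologicalSpace X] [ChartedSpace W X] [IsManifold 𝓘(ℝ, W) ∞ X]
  [CompactSpace X] [T2Space X]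

/-- Fibrewise pull-back: `(F̂ v)(p) = FL p (v (F p))`. -/
noncomputable def FL (T : Ty W) (C : Cov W X) (F : X → X) {q : ℕ} (p : X) :
    (Fin C.N → Lam W q) →ₗ[ℂ] (Fin C.N → Lam W q) :=
  LinearMap.pi (fun j => ((C.θ j p : ℝ) : ℂ) •
    (pbk ((fd (W := W) (W' := W) F p).comp (trd (C.c j) p p)) q ∘ₗ kapL T C (F p) (F p)))

theorem G5a_at (T : Ty W) (hX : TGood T X) (C : Cov W X) {F : X → X}
    (hF : ContMDiff 𝓘(ℝ, W) 𝓘(ℝ, W) ∞ F) {q : ℕ} (e : Fin C.N → Lam W q) (x0 p0 : X)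
    (h0 : p0 ∈ (chartAt W x0).source) :
    ContinuousAt (fun p => pbk ((fd (W := W) (W' := W) F p).comp (trd x0 p p)) q
      (kapL T C (F p) (F p) e)) p0 := by
  have hFc : ContinuousAt F p0 := hF.continuous.continuousAt
  have hd : ContinuousAt (fun p => fderiv ℝ (chartAt W (F p0) ∘ F ∘ (chartAt W x0).symm)
      (chartAt W x0 p)) p0 := by
    have h1 := contDiffAt_charts hF x0 (F p0) p0 h0 (mem_chart_source W (F p0))
    have h2 : ContinuousAt (fderiv ℝ (chartAt W (F p0) ∘ F ∘ (chartAt W x0).symm))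
        (chartAt W x0 p0) := (h1.fderiv_right (m := 0) (by simp)).continuousAt
    exact ContinuousAt.comp (f := chartAt W x0) h2 ((chartAt W x0).continuousAt h0)
  have hk : ContinuousAt (fun p => kapL T C (F p0) (F p) e) p0 :=
    ContinuousAt.comp (f := F) (g := fun y => kapL T C (F p0) y e)
      (g2d_kapL T C (F p0) (F p0) (mem_chart_source W (F p0)) e) hFc
  refine (g2d_comp hk hd).congr ?_
  have e1 : ∀ᶠ p in 𝓝 p0, p ∈ (chartAt W x0).source := (chartAt W x0).open_source.mem_nhds h0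
  have e2 : ∀ᶠ p in 𝓝 p0, F p ∈ (chartAt W (F p0)).source :=
    hFc ((chartAt W (F p0)).open_source.mem_nhds (mem_chart_source W (F p0)))
  filter_upwards [e1, e2] with p hp1 hp2
  rw [fd_change hF x0 (F p0) p hp1 hp2,
    kapL_change T hX C (F p0) (F p) (F p) hp2 (mem_chart_source W (F p)) e]
  rfl

/-- JOB G5a.  Continuity in `p`: near `p0` use the fixed chart `y0 = F p0` at the target:
`(kapL (F p) (F p) e) ∘ fd F p ∘ trd (c j) p p = (kapL y0 (F p) e) ∘ D(chart y0 ∘ F ∘ (chart (c j))⁻¹)`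
(`kapL_change`, `fd_change`); terms with `θ_j p = 0` vanish. -/
theorem continuous_FL (T : Ty W) (hX : TGood T X) (C : Cov W X) {F : X → X}
    (hF : ContMDiff 𝓘(ℝ, W) 𝓘(ℝ, W) ∞ F) {q : ℕ} (e : Fin C.N → Lam W q) :
    Continuous (fun p => FL T C F p e) := by
  refine continuous_pi fun j => ?_
  show Continuous (fun p => ((C.θ j p : ℝ) : ℂ) •
    (pbk ((fd (W := W) (W' := W) F p).comp (trd (C.c j) p p)) q (kapL T C (F p) (F p) e)))
  exact g2d_cutC (E := Lam W q) (C.smθ j).continuous fun p hp =>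
    G5a_at T hX C hF e (C.c j) p (C.θs j hp)

/-- JOB G5a. -/
theorem exists_FV (T : Ty W) (hX : TGood T X) (C : Cov W X) {F : X → X}
    (hF : ContMDiff 𝓘(ℝ, W) 𝓘(ℝ, W) ∞ F) (q : ℕ) :
    ∃ A : VV C q →L[ℂ] VV C q, ∀ v p, A v p = FL T C F p (v (F p)) := by
  have := lam_finite (W := W) q
  obtain ⟨A, hA⟩ := exists_mulOp (fun p => FL T C F p) (fun e => continuous_FL T hX C hF (q := q) e)
  let L : VV C q →ₗ[ℂ] VV C q :=
    { toFun := fun v => v.comp ⟨F, hF.continuous⟩
      map_add' := fun v w => rfl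
      map_smul' := fun c v => rfl }
  have hL : ∀ v p, L v p = v (F p) := fun v p => rfl
  have hLc : Continuous L := (⟨F, hF.continuous⟩ : C(X, X)).continuous_precomp
  let B : VV C q →L[ℂ] VV C q := ⟨L, hLc⟩
  have hB : ∀ v p, B v p = v (F p) := fun v p => rfl
  refine ⟨A.comp B, fun v p => ?_⟩
  rw [ContinuousLinearMap.comp_apply, hA, hB]

end

end FB
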