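import Pool.Agent.H.MP_fb873c_an.G2f
import Pool.Agent.H.MP_fb873c_an.G5a

/-! # Part G5: the trace formula (G5b) -/

namespace FB

open MeasureTheory
open scoped Topology ContDiff Manifold BoundedContinuousFunction

universe u


section

variable {W : Type} [NormedAddCommGroup W] [InnerProductSpace ℝ W] [FiniteDimensional ℝ W]
  [MeasurableSpace W] [BorelSpace W]
variable {X : Type u} [TopologicalSpace X] [ChartedSpace W X] [IsManifold 𝓘(ℝ, W) ∞ X]
  [CompactSpace X] [T2Space X]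

/-- Pull-back on `V`. -/
noncomputable def FV (T : Ty W) (hX : TGood T X) (C : Cov W X) {F : X → X}
    (hF : ContMDiff 𝓘(ℝ, W) 𝓘(ℝ, W) ∞ F) (q : ℕ) : VV C q →L[ℂ] VV C q :=
  (exists_FV T hX C hF q).choose

theorem FV_apply (T : Ty W) (hX : TGood T X) (C : Cov W X) {F : X → X}
    (hF : ContMDiff 𝓘(ℝ, W) 𝓘(ℝ, W) ∞ F) (q : ℕ) (v : VV C q) (p : X) :
    FV T hX C hF q v p = FL T C F p (v (F p)) := (exists_FV T hX C hF q).choose_spec v p

/-- JOB G5a. -/
theorem FV_ioV (T : Ty W) (hX : TGood T X) (C : Cov W X) {F : X → X}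
    (hF : ContMDiff 𝓘(ℝ, W) 𝓘(ℝ, W) ∞ F) (hFT : ∀ p, fd (W := W) (W' := W) F p ∈ T.good)
    {q : ℕ} (η : SFm T X q) :
    FV T hX C hF q (ioV T C q η) = ioV T C q (Fm T F hF hFT q η) := by
  ext p : 1
  funext j
  rw [FV_apply, ioV_apply, ioV_apply]
  show ((C.θ j p : ℝ) : ℂ) • pbk ((fd (W := W) (W' := W) F p).comp (trd (C.c j) p p)) q
      (kapL T C (F p) (F p) (ioF C η.1 (F p))) =
    C.θ j p • val (C.c j) (pb F η.1) p
  rw [kapL_ioF T hX C η (F p) (F p) (mem_chart_source W (F p))]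
  have h1 : val (F p) η.1 (F p) = η.1 (F p) := by
    unfold val
    rw [trd_self (W := W) (F p) (F p) (mem_chart_source W (F p))]
    ext v
    rfl
  rw [h1]
  ext v
  show ((C.θ j p : ℝ) : ℂ) * _ = C.θ j p • _
  rw [Complex.real_smul]
  rfl

end

end FB
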