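import Pool.Agent.H.MP_fb873c_an.G3a
import Pool.Agent.H.MP_fb873c_an.G4c
import Pool.Agent.H.MP_fb873c_an.G5b

/-! # Part E: evaluation of the trace formula (E1o) -/

namespace FB

open MeasureTheory
open scoped Topology ContDiff Manifold BoundedContinuousFunction

universe u


section

variable {W : Type} [NormedAddCommGroup W]
variable {X : Type u} [TopologicalSpace X] [ChartedSpace W X]

/-- The map `F` in the chart at `z`. -/
noncomputable def Floc (F : X → X) (z : X) : W → W :=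
  chartAt W z ∘ F ∘ (chartAt W z).symm

end

section

variable {W : Type} [NormedAddCommGroup W] [InnerProductSpace ℝ W] [FiniteDimensional ℝ W]
  [MeasurableSpace W] [BorelSpace W]
variable {X : Type u} [MetricSpace X] [ChartedSpace W X] [IsManifold 𝓘(ℝ, W) ∞ X]
  [CompactSpace X]

/-- `b * b`. -/
noncomputable def bb (b : W → ℝ) (x : W) : ℝ := ∫ w, b (x - w) * b w

/-- The integrand with `B = F̂ Ŝ`. -/
noncomputable def trI (T : Ty W) (hX : TGood T X) (C : Cov W X) {F : X → X}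
    (hF : ContMDiff 𝓘(ℝ, W) 𝓘(ℝ, W) ∞ F) {b : W → ℝ} {ε : ℝ} (hb : IsBump b ε) (i : Fin C.N) (q : ℕ)
    (y : W) : ℂ :=
  trInt T C hb i q ((FV T hX C hF q).comp (ShL T C hb (List.finRange C.N) q)) y

/-- On the ball around `z = c i` only the chart `i` is active. -/
def Core (C : Cov W X) (i : Fin C.N) (z : X) (s : ℝ) : Prop :=
  C.c i = z ∧ (∀ p ∈ Metric.ball z s, C.ρ i p = 1 ∧ C.σ i p = 1 ∧ C.χ i p = 1 ∧ C.ψ i p = 1 ∧
      C.θ i p = 1) ∧
    ∀ j, j ≠ i → ∀ p ∈ Metric.ball z s, C.ρ j p = 0 ∧ C.σ j p = 0 ∧ C.χ j p = 0 ∧ C.ψ j p = 0 ∧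
      C.θ j p = 0

/-- JOB E1a.  Contrapositive form of the reach. -/
theorem Rch.support {C : Cov W X} {q q' : ℕ} {Q : VV C q →L[ℂ] VV C q'} {r : ℝ} (h : Rch Q r)
    (v : VV C q) (p : X) (hp : Q v p ≠ 0) : ∃ p', dist p p' ≤ r ∧ v p' ≠ 0 := by
  by_contra hcon
  push Not at hcon
  exact hp (h v p hcon)

end

end FB
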