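import Pool.Agent.H.MP_fb873c_an.G1b

/-! # Part G1: calculus of forms on manifolds (preferred chart formalism) (G1d) -/

namespace FB

open scoped Topology ContDiff Manifold

universe u


section

variable {W : Type} [NormedAddCommGroup W] [NormedSpace ℝ W]
variable {X : Type u} [TopologicalSpace X] [ChartedSpace W X] [IsManifold 𝓘(ℝ, W) ∞ X]

theorem G1d_rep_add {q : ℕ} (x0 : X) (η η' : X → Lam W q) :
    rep x0 (fun p => η p + η' p) = fun z => rep x0 η z + rep x0 η' z := by
  funext z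
  ext v
  rfl

theorem G1d_rep_smul {q : ℕ} (x0 : X) (c : ℂ) (η : X → Lam W q) :
    rep x0 (fun p => c • η p) = fun z => c • rep x0 η z := by
  funext z
  ext v
  rfl

theorem G1d_rep_fsmul {q : ℕ} (x0 : X) (f : X → ℝ) (η : X → Lam W q) :
    rep x0 (fun p => f p • η p) = fun z => (f ∘ (chartAt W x0).symm) z • rep x0 η z := by
  funext z
  ext v
  rfl

theorem G1d_fun {f : X → ℝ} (hf : ContMDiff 𝓘(ℝ, W) 𝓘(ℝ, ℝ) ∞ f) (x0 : X) :
    ContDiffOn ℝ ∞ (f ∘ (chartAt W x0).symm) (chartAt W x0).target := by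
  rw [← contMDiffOn_iff_contDiffOn]
  exact hf.comp_contMDiffOn (contMDiffOn_chart_symm (I := 𝓘(ℝ, W)))

theorem G1d_funAt {f : X → ℝ} (hf : ContMDiff 𝓘(ℝ, W) 𝓘(ℝ, ℝ) ∞ f) (x0 p : X)
    (h0 : p ∈ (chartAt W x0).source) :
    DifferentiableAt ℝ (f ∘ (chartAt W x0).symm) (chartAt W x0 p) := by
  have h1 : (chartAt W x0).target ∈ 𝓝 (chartAt W x0 p) :=
    (chartAt W x0).open_target.mem_nhds ((chartAt W x0).map_source h0)
  exact ((G1d_fun hf x0).contDiffAt h1).differentiableAt (by simp)

theorem G1d_repAt {q : ℕ} {η : X → Lam W q} (h : SmoothForm η) (p : X) :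
    DifferentiableAt ℝ (rep p η) (chartAt W p p) :=
  (h.contDiffAt p p (mem_chart_source W p)).differentiableAt (by simp)

/-- JOB G1d. Linearity. -/
theorem SmoothForm.add {q : ℕ} {η η' : X → Lam W q} (h : SmoothForm η) (h' : SmoothForm η') :
    SmoothForm (fun p => η p + η' p) := by
  intro x0
  rw [G1d_rep_add]
  exact (h x0).add (h' x0)

theorem SmoothForm.smul {q : ℕ} {η : X → Lam W q} (c : ℂ) (h : SmoothForm η) :
    SmoothForm (fun p => c • η p) := by
  intro x0
  rw [G1d_rep_smul]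
  exact (h x0).const_smul c

theorem smoothForm_zero {q : ℕ} : SmoothForm (fun _ : X => (0 : Lam W q)) := by
  intro x0
  have h1 : rep x0 (fun _ : X => (0 : Lam W q)) = fun _ => 0 := by
    funext z
    ext v
    rfl
  rw [h1]
  exact contDiffOn_const

theorem dform_add {q : ℕ} {η η' : X → Lam W q} (h : SmoothForm η) (h' : SmoothForm η') (p : X) :
    FB.dform (fun p => η p + η' p) p = FB.dform η p + FB.dform η' p := by
  unfold FB.dform
  rw [G1d_rep_add]
  exact extDeriv_fun_add (G1d_repAt h p) (G1d_repAt h' p)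

theorem dform_smul {q : ℕ} {η : X → Lam W q} (c : ℂ) (h : SmoothForm η) (p : X) :
    FB.dform (fun p => c • η p) p = c • FB.dform η p := by
  unfold FB.dform
  rw [G1d_rep_smul]
  unfold extDeriv
  have h1 : fderiv ℝ (fun z => c • rep p η z) (chartAt W p p) =
      c • fderiv ℝ (rep p η) (chartAt W p p) := fderiv_fun_const_smul (G1d_repAt h p) c
  rw [h1, ContinuousAlternatingMap.alternatizeUncurryFin_smul]

/-- Differential of a function at `p` in the chart at `x0`. -/
noncomputable def dfun (x0 : X) (h : X → ℝ) (p : X) : W →L[ℝ] ℝ :=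
  fderiv ℝ (h ∘ (chartAt W x0).symm) (chartAt W x0 p)

/-- JOB G1d.  Multiplication by a smooth function. -/
theorem SmoothForm.fsmul {q : ℕ} {η : X → Lam W q} {f : X → ℝ}
    (hf : ContMDiff 𝓘(ℝ, W) 𝓘(ℝ, ℝ) ∞ f) (h : SmoothForm η) : SmoothForm (fun p => f p • η p) := by
  intro x0
  rw [G1d_rep_fsmul]
  exact (G1d_fun hf x0).smul (h x0)

/-- JOB G1d.  Leibniz rule. -/
theorem dform_fsmul {q : ℕ} {η : X → Lam W q} {f : X → ℝ}
    (hf : ContMDiff 𝓘(ℝ, W) 𝓘(ℝ, ℝ) ∞ f) (h : SmoothForm η) (p : X) :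
    FB.dform (fun p => f p • η p) p
      = f p • FB.dform η p + ContinuousAlternatingMap.alternatizeUncurryFin ((dfun p f p).smulRight (η p)) := by
  unfold FB.dform
  rw [G1d_rep_fsmul]
  unfold extDeriv
  have h1 : fderiv ℝ (fun z => (f ∘ (chartAt W p).symm) z • rep p η z) (chartAt W p p) =
      (f ∘ (chartAt W p).symm) (chartAt W p p) • fderiv ℝ (rep p η) (chartAt W p p) +
        (fderiv ℝ (f ∘ (chartAt W p).symm) (chartAt W p p)).smulRight
          (rep p η (chartAt W p p)) :=
    fderiv_fun_smul (G1d_funAt hf p p (mem_chart_source W p)) (G1d_repAt h p)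
  have h2 : (f ∘ (chartAt W p).symm) (chartAt W p p) = f p :=
    congrArg f ((chartAt W p).left_inv (mem_chart_source W p))
  rw [h1, h2, rep_chart η p p (mem_chart_source W p), val_self,
    ContinuousAlternatingMap.alternatizeUncurryFin_add,
    ContinuousAlternatingMap.alternatizeUncurryFin_smul]
  rfl

theorem G1d_dfun {f : X → ℝ} (hf : ContMDiff 𝓘(ℝ, W) 𝓘(ℝ, ℝ) ∞ f)
    (x0 p : X) (h0 : p ∈ (chartAt W x0).source) :
    dfun (W := W) x0 f p = (dfun (W := W) p f p).comp (trd x0 p p) := by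
  have hs : (chartAt W x0).symm (chartAt W x0 p) = p := (chartAt W x0).left_inv h0
  have hmem : chartAt W x0 p ∈
      (chartAt W x0).target ∩ (chartAt W x0).symm ⁻¹' (chartAt W p).source := by
    refine ⟨(chartAt W x0).map_source h0, ?_⟩
    rw [Set.mem_preimage, hs]
    exact mem_chart_source W p
  have h1 : DifferentiableAt ℝ (chartAt W p ∘ (chartAt W x0).symm) (chartAt W x0 p) :=
    ((contDiffOn_transition x0 p).contDiffAt ((isOpen_ovl x0 p).mem_nhds hmem)).differentiableAt
      (by simp)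
  have h2 : (chartAt W p ∘ (chartAt W x0).symm) (chartAt W x0 p) = chartAt W p p := by
    show chartAt W p ((chartAt W x0).symm (chartAt W x0 p)) = _
    rw [hs]
  have h3 : DifferentiableAt ℝ (f ∘ (chartAt W p).symm)
      ((chartAt W p ∘ (chartAt W x0).symm) (chartAt W x0 p)) := by
    rw [h2]
    exact G1d_funAt hf p p (mem_chart_source W p)
  have h4 : f ∘ (chartAt W x0).symm =ᶠ[𝓝 (chartAt W x0 p)]
      (f ∘ (chartAt W p).symm) ∘ (chartAt W p ∘ (chartAt W x0).symm) := by
    filter_upwards [(isOpen_ovl x0 p).mem_nhds hmem] with z hz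
    show f ((chartAt W x0).symm z) = f ((chartAt W p).symm (chartAt W p ((chartAt W x0).symm z)))
    rw [(chartAt W p).left_inv hz.2]
  unfold dfun trd
  rw [h4.fderiv_eq, fderiv_comp _ h3 h1, h2]

theorem G1d_wedge {q : ℕ} (φ : W →L[ℝ] ℝ) (α : Lam W q) (L : W →L[ℝ] W) :
    (ContinuousAlternatingMap.alternatizeUncurryFin (φ.smulRight α)).compContinuousLinearMap L =
      ContinuousAlternatingMap.alternatizeUncurryFin
        ((φ.comp L).smulRight (α.compContinuousLinearMap L)) := by
  ext v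
  rw [ContinuousAlternatingMap.compContinuousLinearMap_apply,
    ContinuousAlternatingMap.alternatizeUncurryFin_apply,
    ContinuousAlternatingMap.alternatizeUncurryFin_apply]
  rfl

/-- Behaviour of the wedge term under change of chart. -/
theorem val_wedge {q : ℕ} (η : X → Lam W q) {f : X → ℝ} (hf : ContMDiff 𝓘(ℝ, W) 𝓘(ℝ, ℝ) ∞ f)
    (x0 p : X) (h0 : p ∈ (chartAt W x0).source) :
    (ContinuousAlternatingMap.alternatizeUncurryFin
        ((dfun p f p).smulRight (η p))).compContinuousLinearMap (trd x0 p p)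
      = ContinuousAlternatingMap.alternatizeUncurryFin ((dfun x0 f p).smulRight (val x0 η p)) := by
  rw [G1d_wedge, G1d_dfun hf x0 p h0]
  rfl

end

end FB
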