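import Pool.Agent.H.MP_fb873c_an.G1c
import Pool.Agent.H.MP_fb873c_an.G1d
import Pool.Agent.H.MP_fb873c_an.G1f

/-! # Part G2a: the complex of smooth forms of type `T` on a manifold with charts of type `T` -/

namespace FB

open scoped Topology ContDiff Manifold

universe u

section

variable {W : Type} [NormedAddCommGroup W] [InnerProductSpace ℝ W]
variable {X : Type u} [TopologicalSpace X] [ChartedSpace W X] [IsManifold 𝓘(ℝ, W) ∞ X]

/-- The derivatives of the transition maps are admissible for the type `T`. -/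
def TGood (T : Ty W) (X : Type u) [TopologicalSpace X] [ChartedSpace W X] : Prop :=
  ∀ x0 x1 p : X, p ∈ (chartAt W x0).source → p ∈ (chartAt W x1).source → trd x0 x1 p ∈ T.good

/-- JOB G2a. -/
theorem val_pi {T : Ty W} (hX : TGood T X) {q : ℕ} (η : X → Lam W q) (x0 p : X)
    (h0 : p ∈ (chartAt W x0).source) :
    val x0 (fun p => T.pi q (η p)) p = T.pi q (val x0 η p) := by
  unfold val
  exact (T.nat q _ (hX x0 p p h0 (mem_chart_source W p)) (η p)).symm

theorem G2a_rep_pi {T : Ty W} (hX : TGood T X) {q : ℕ} (η : X → Lam W q) (x0 : X) {z : W}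
    (hz : z ∈ (chartAt W x0).target) :
    rep x0 (fun p => T.pi q (η p)) z = T.pi q (rep x0 η z) :=
  val_pi hX η x0 _ ((chartAt W x0).map_target hz)

theorem smoothForm_pi {T : Ty W} (hX : TGood T X) {q : ℕ} {η : X → Lam W q} (h : SmoothForm η) :
    SmoothForm (fun p => T.pi q (η p)) := by
  intro x0
  have h1 := (h x0).continuousLinearMap_comp ((T.pi q).restrictScalars ℝ)
  exact h1.congr fun z hz => G2a_rep_pi hX η x0 hz

/-- `pi d pi = pi d`. -/
theorem pi_dform_pi {T : Ty W} (hX : TGood T X) {q : ℕ} {η : X → Lam W q} (h : SmoothForm η) (p : X) :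
    T.pi (q + 1) (dform (fun p => T.pi q (η p)) p) = T.pi (q + 1) (dform η p) := by
  have ht : (chartAt W p).target ∈ 𝓝 (chartAt W p p) :=
    (chartAt W p).open_target.mem_nhds ((chartAt W p).map_source (mem_chart_source W p))
  have hev : rep p (fun p => T.pi q (η p)) =ᶠ[𝓝 (chartAt W p p)]
      fun z => (T.pi q).restrictScalars ℝ (rep p η z) := by
    filter_upwards [ht] with z hz
    exact G2a_rep_pi hX η p hz
  have hd : DifferentiableAt ℝ (rep p η) (chartAt W p p) := G1d_repAt h p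
  have hfd : fderiv ℝ (rep p (fun p => T.pi q (η p))) (chartAt W p p) =
      ((T.pi q).restrictScalars ℝ).comp (fderiv ℝ (rep p η) (chartAt W p p)) := by
    rw [hev.fderiv_eq]
    exact (((T.pi q).restrictScalars ℝ).hasFDerivAt.comp _ hd.hasFDerivAt).fderiv
  have hpp : ((T.pi q).restrictScalars ℝ).comp (((T.pi q).restrictScalars ℝ).comp
      (fderiv ℝ (rep p η) (chartAt W p p))) =
      ((T.pi q).restrictScalars ℝ).comp (fderiv ℝ (rep p η) (chartAt W p p)) := by
    ext1 v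
    exact T.pi_pi q _
  unfold dform extDeriv
  rw [hfd]
  have k1 := T.key q (((T.pi q).restrictScalars ℝ).comp (fderiv ℝ (rep p η) (chartAt W p p)))
  have k2 := T.key q (fderiv ℝ (rep p η) (chartAt W p p))
  rw [hpp] at k1
  exact k1.trans k2.symm

/-- Smooth forms of type `T`. -/
def SFm (T : Ty W) (X : Type u) [TopologicalSpace X] [ChartedSpace W X] [IsManifold 𝓘(ℝ, W) ∞ X]
    (q : ℕ) : Submodule ℂ (X → Lam W q) where
  carrier := {η | SmoothForm η ∧ ∀ p, T.pi q (η p) = η p}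
  add_mem' {a b} ha hb := ⟨ha.1.add hb.1, fun p => by
    simp only [Pi.add_apply, map_add, ha.2 p, hb.2 p]⟩
  zero_mem' := ⟨smoothForm_zero, fun p => by simp only [Pi.zero_apply, map_zero]⟩
  smul_mem' c a ha := ⟨ha.1.smul c, fun p => by
    simp only [Pi.smul_apply, map_smul, ha.2 p]⟩

/-- The differential. -/
noncomputable def Dm (T : Ty W) (hX : TGood T X) (q : ℕ) : SFm T X q →ₗ[ℂ] SFm T X (q + 1) where
  toFun η := ⟨fun p => T.pi (q + 1) (dform η.1 p),
    smoothForm_pi hX η.2.1.dform, fun p => T.pi_pi _ _⟩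
  map_add' a b := by
    apply Subtype.ext
    funext p
    show T.pi (q + 1) (dform (fun p => a.1 p + b.1 p) p) = _
    rw [dform_add a.2.1 b.2.1, map_add]
    rfl
  map_smul' c a := by
    apply Subtype.ext
    funext p
    show T.pi (q + 1) (dform (fun p => c • a.1 p) p) = _
    rw [dform_smul c a.2.1, map_smul]
    rfl

theorem Dm_apply (T : Ty W) (hX : TGood T X) (q : ℕ) (η : SFm T X q) (p : X) :
    (Dm T hX q η).1 p = T.pi (q + 1) (dform η.1 p) := rfl

/-- JOB G2a. -/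
theorem Dm_Dm (T : Ty W) (hX : TGood T X) (q : ℕ) (η : SFm T X q) :
    Dm T hX (q + 1) (Dm T hX q η) = 0 := by
  apply Subtype.ext
  funext p
  show T.pi (q + 1 + 1) (dform (fun p => T.pi (q + 1) (dform η.1 p)) p) = 0
  rw [pi_dform_pi hX η.2.1.dform p, dform_dform η.2.1 p, map_zero]

/-- JOB G2a.  The differential in a chart. -/
theorem rep_Dm (T : Ty W) (hX : TGood T X) (q : ℕ) (η : SFm T X q) (x0 : X) (z : W)
    (hz : z ∈ (chartAt W x0).target) :
    rep x0 (Dm T hX q η).1 z = T.D (rep x0 η.1) z := by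
  have h1 : rep x0 (Dm T hX q η).1 z = T.pi (q + 1) (rep x0 (dform η.1) z) :=
    G2a_rep_pi hX (dform η.1) x0 hz
  rw [h1, rep_dform η.2.1 x0 z hz]
  rfl

/-- JOB G2a.  `rep x0 η` is `pi`-invariant on the target. -/
theorem pi_rep (T : Ty W) (hX : TGood T X) (q : ℕ) (η : SFm T X q) (x0 : X) (z : W)
    (hz : z ∈ (chartAt W x0).target) : T.pi q (rep x0 η.1 z) = rep x0 η.1 z := by
  rw [← G2a_rep_pi hX η.1 x0 hz]
  have h1 : (fun p => T.pi q (η.1 p)) = η.1 := funext η.2.2
  rw [h1]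

/-- Pull-back by a smooth map of type `T`. -/
noncomputable def Fm (T : Ty W) (F : X → X) (hF : ContMDiff 𝓘(ℝ, W) 𝓘(ℝ, W) ∞ F)
    (hFT : ∀ p, fd (W := W) (W' := W) F p ∈ T.good) (q : ℕ) : SFm T X q →ₗ[ℂ] SFm T X q where
  toFun η := ⟨pb F η.1, η.2.1.pb hF, fun p => by
    show T.pi q ((η.1 (F p)).compContinuousLinearMap _) = (η.1 (F p)).compContinuousLinearMap _
    rw [T.nat q _ (hFT p), η.2.2]⟩
  map_add' a b := rfl
  map_smul' c a := rfl

theorem Fm_apply (T : Ty W) (F : X → X) (hF : ContMDiff 𝓘(ℝ, W) 𝓘(ℝ, W) ∞ F)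
    (hFT : ∀ p, fd (W := W) (W' := W) F p ∈ T.good) (q : ℕ) (η : SFm T X q) (p : X) :
    (Fm T F hF hFT q η).1 p = pb F η.1 p := rfl

/-- JOB G2a. -/
theorem Dm_Fm (T : Ty W) (hX : TGood T X) (F : X → X) (hF : ContMDiff 𝓘(ℝ, W) 𝓘(ℝ, W) ∞ F)
    (hFT : ∀ p, fd (W := W) (W' := W) F p ∈ T.good) (q : ℕ) (η : SFm T X q) :
    Dm T hX q (Fm T F hF hFT q η) = Fm T F hF hFT (q + 1) (Dm T hX q η) := by
  apply Subtype.ext
  funext p
  show T.pi (q + 1) (dform (pb F η.1) p) = pb F (fun p => T.pi (q + 1) (dform η.1 p)) p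
  rw [dform_pb η.2.1 hF p]
  unfold pb
  exact T.nat (q + 1) _ (hFT p) _

end

end FB
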