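import Pool.Agent.H.MP_fb873c_an.C1
import Pool.Agent.H.MP_fb873c_an.G2a

/-! # Cohomology and Lefschetz number of the complex of type `T`

Performance remark: give terms such as `HCmap (A := fun q => SFm T X q) …` in tactic mode by
`have h := …; exact h` (elaboration against the expected type is extremely slow). -/

namespace FB

open scoped Topology ContDiff Manifold

universe u

section

variable {W : Type} [NormedAddCommGroup W] [InnerProductSpace ℝ W]
variable {X : Type u} [TopologicalSpace X] [ChartedSpace W X] [IsManifold 𝓘(ℝ, W) ∞ X]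

/-- Cohomology of the complex of smooth forms of type `T`. -/
abbrev HT (T : Ty W) (hX : TGood T X) (q : ℕ) : Type u :=
  HC (A := fun q => SFm T X q) (Dm T hX) q

/-- The map on cohomology induced by a map of type `T`. -/
noncomputable def FT (T : Ty W) (hX : TGood T X) (F : X → X)
    (hF : ContMDiff 𝓘(ℝ, W) 𝓘(ℝ, W) ∞ F) (hFT : ∀ p, fd (W := W) (W' := W) F p ∈ T.good) (q : ℕ) :
    HT T hX q →ₗ[ℂ] HT T hX q := by
  have h := HCmap (A := fun q => SFm T X q) (A' := fun q => SFm T X q) (Dm T hX) (Dm T hX)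
    (Fm T F hF hFT) (Dm_Fm T hX F hF hFT) q
  exact h

/-- The Lefschetz number. -/
noncomputable def Lef (T : Ty W) (hX : TGood T X) (F : X → X)
    (hF : ContMDiff 𝓘(ℝ, W) 𝓘(ℝ, W) ∞ F) (hFT : ∀ p, fd (W := W) (W' := W) F p ∈ T.good) : ℂ :=
  ∑ q ∈ Finset.range (Module.finrank ℝ W + 1),
    (-1 : ℂ) ^ q * LinearMap.trace ℂ (HT T hX q) (FT T hX F hF hFT q)

/-- The class of a closed form. -/
noncomputable def HT.mk (T : Ty W) (hX : TGood T X) (q : ℕ) (η : SFm T X q)
    (h : Dm T hX q η = 0) : HT T hX q := by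
  have h' := HC.mk (A := fun q => SFm T X q) (Dm T hX) q ⟨η, h⟩
  exact h'

end

end FB
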