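import Pool.Agent.H.MP_fb873c_an.G2i6
import Pool.Agent.H.MP_fb873c_an.G2z
import Pool.Agent.H.MP_fb873c_an.G4c
import Pool.Agent.H.MP_fb873c_an.G5b
import Pool.Agent.H.MP_fb873c_an.G5s

/-! # Part G5: the trace formula (G5c) -/

namespace FB

open MeasureTheory
open scoped Topology ContDiff Manifold BoundedContinuousFunction

universe u


section abs

theorem G5c_abs {A V : ℕ → Type*} [∀ q, AddCommGroup (A q)] [∀ q, Module ℂ (A q)]
    [∀ q, NormedAddCommGroup (V q)] [∀ q, NormedSpace ℂ (V q)] [∀ q, CompleteSpace (V q)]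
    (d : ∀ q, A q →ₗ[ℂ] A (q + 1)) (dd : ∀ q a, d (q + 1) (d q a) = 0)
    (F : ∀ q, A q →ₗ[ℂ] A q) (dF : ∀ q a, d q (F q a) = F (q + 1) (d q a))
    (io : ∀ q, A q →ₗ[ℂ] V q) (s : ∀ q, V q →ₗ[ℂ] A q) (p : ∀ q, A (q + 1) →ₗ[ℂ] A q)
    (ph : ∀ q, V (q + 1) →L[ℂ] V q) (Fh : ∀ q, V q →L[ℂ] V q)
    (hp : ∀ q a, io q (p q a) = ph q (io (q + 1) a)) (hF : ∀ q a, io q (F q a) = Fh q (io q a))
    (h0 : ∀ a, a - s 0 (io 0 a) = p 0 (d 0 a))
    (h1 : ∀ q a, a - s (q + 1) (io (q + 1) a) = d q (p q a) + p (q + 1) (d (q + 1) a))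
    (sh : ∀ q, V q →L[ℂ] V q) (hs : ∀ q v, sh q v = io q (s q v))
    (dh : ∀ q, V q →L[ℂ] V (q + 1)) (hd : ∀ q v, dh q v = io (q + 1) (d q (s q v)))
    (nd : ∀ q, Nonempty (Nuc (dh q))) (N : ℕ)
    (hN : ∀ q, N < q → Subsingleton (A q))
    (t : ℕ → ℂ) (ns : ∀ q, ∃ D : Nuc (sh q), trN D (Fh q * sh q) = t q) :
    (∀ q, FiniteDimensional ℂ (HC d q)) ∧
    ∑ q ∈ Finset.range (N + 1), (-1 : ℂ) ^ q * LinearMap.trace ℂ (HC d q) (HCmap d d F dF q) =
      ∑ q ∈ Finset.range (N + 1), (-1 : ℂ) ^ q * t q := by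
  have h := abstract_lefschetz' (A := A) (V := V) ⟨d, dd, F, dF, io, s, p, ph, Fh, hp, hF, h0, h1,
    sh, hs, dh, hd, fun q => (ns q).choose, fun q => (nd q).some, N, hN⟩
  refine ⟨h.1, h.2.trans ?_⟩
  exact Finset.sum_congr rfl fun q _ => congrArg (fun z => (-1 : ℂ) ^ q * z) (ns q).choose_spec

end abs

section

variable {W : Type} [NormedAddCommGroup W] [InnerProductSpace ℝ W] [FiniteDimensional ℝ W]
  [MeasurableSpace W] [BorelSpace W]
variable {X : Type u} [MetricSpace X] [ChartedSpace W X] [IsManifold 𝓘(ℝ, W) ∞ X]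
  [CompactSpace X]

theorem G5c_sub (T : Ty W) {q : ℕ} (hq : Module.finrank ℝ W < q) : Subsingleton (SFm T X q) := by
  have h := lam_subsingleton (W := W) hq
  exact ⟨fun a b => Subtype.ext (funext fun p => Subsingleton.elim _ _)⟩

theorem G5c_full (T : Ty W) (C : Cov W X) {b : W → ℝ} {ε r : ℝ} (hb : IsBump b ε)
    (hs : Small C ε r) {q : ℕ} (v : VV C q) :
    ∑ i : Fin C.N, mulV C q (C.ρ i) (ShL T C hb (lpre C i) q (NI T C hb i q
        (ShL T C hb (lsuf C i) q v))) = ShL T C hb (List.finRange C.N) q v :=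
  ShL_full T C hb hs.hr.le hs.h3 hs.h2 hs.h4 v

theorem G5c_sio (T : Ty W) (hX : TGood T X) (C : Cov W X) {b : W → ℝ} {ε r : ℝ} (hb : IsBump b ε)
    (hs : Small C ε r) {q : ℕ} (η : SFm T X q) :
    sV T hX C hb q (ioV T C q η) = SL T hX C hb (List.finRange C.N) q η := by
  apply ioV_injective T hX C q
  rw [ioV_sV, G5c_full T C hb hs, ShL_ioV T hX]

theorem G5c_op (T : Ty W) (C : Cov W X) {b : W → ℝ} {ε r : ℝ} (hb : IsBump b ε)
    (hs : Small C ε r) (q : ℕ) :
    ∑ i : Fin C.N, (mulV C q (C.ρ i)).comp ((ShL T C hb (lpre C i) q).comp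
        ((NI T C hb i q).comp (ShL T C hb (lsuf C i) q))) = ShL T C hb (List.finRange C.N) q := by
  apply ContinuousLinearMap.ext
  intro v
  rw [ContinuousLinearMap.sum_apply]
  exact G5c_full T C hb hs v

/-- JOB G5c.  The trace formula: assemble `CData` with `A q = SFm T X q`, `V q = VV C q`,
`d = Dm`, `F = Fm`, `io = ioV`, `s = sV`, `p = PL (finRange N)`, `ph = PhL (finRange N)`, `Fh = FV`,
`sh = ∑_i ρ_i Ŝ_{<i} N_i Ŝ_{>i}` (the operator of `exists_nuc_S`, equal to `ShL (finRange N)` by `ShL_full`),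
`dh = dV`.  The homotopy identities: `s ι η = SL (finRange N) η`, because `ι` is injective and
`ι s ι η = ShL (ι η) = ι (SL η)`; then `SL_homotopy`.  `N = finrank W` (`lam_subsingleton`).
Performance: give `HCmap (A := fun q => SFm T X q) …` by `have h := …; exact h`.
Then `abstract_lefschetz'` (file C1) and the trace formula of `exists_nuc_S`. -/
theorem trace_formula (T : Ty W) (hX : TGood T X) (C : Cov W X) {F : X → X}
    (hF : ContMDiff 𝓘(ℝ, W) 𝓘(ℝ, W) ∞ F) (hFT : ∀ p, fd (W := W) (W' := W) F p ∈ T.good)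
    {b : W → ℝ} {ε r : ℝ} (hb : IsBump b ε) (hs : Small C ε r) :
    (∀ q, FiniteDimensional ℂ (HT T hX q)) ∧
    Lef T hX F hF hFT =
      ∑ q ∈ Finset.range (Module.finrank ℝ W + 1), (-1 : ℂ) ^ q *
        ∑ i : Fin C.N, ∫ y in (chartAt W (C.c i)) '' tsupport (C.χ i),
          trInt T C hb i q ((FV T hX C hF q).comp (ShL T C hb (List.finRange C.N) q)) y := by
  have key := G5c_abs (A := fun q => SFm T X q) (V := fun q => VV C q) (Dm T hX) (Dm_Dm T hX)
    (Fm T F hF hFT) (Dm_Fm T hX F hF hFT) (ioV T C) (sV T hX C hb)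
    (PL T hX C hb (List.finRange C.N)) (PhL T C hb (List.finRange C.N)) (FV T hX C hF)
    (fun q a => (PhL_ioV T hX C hb (List.finRange C.N) a).symm)
    (fun q a => (FV_ioV T hX C hF hFT a).symm)
    (fun a => by
      rw [G5c_sio T hX C hb hs]
      exact SL_homotopy_zero T hX C hb hs.h1 (List.finRange C.N) a)
    (fun q a => by
      rw [G5c_sio T hX C hb hs]
      exact SL_homotopy T hX C hb hs.h1 (List.finRange C.N) a)
    (fun q => ShL T C hb (List.finRange C.N) q)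
    (fun q v => by rw [ioV_sV, G5c_full T C hb hs])
    (fun q => dV T C hb q) (fun q v => (ioV_Dm_sV T hX C hb hs.h1 v).symm)
    (fun q => nuc_dV T C hb q) (Module.finrank ℝ W) (fun q hq => G5c_sub T hq)
    (fun q => ∑ i : Fin C.N, ∫ y in (chartAt W (C.c i)) '' tsupport (C.χ i),
          trInt T C hb i q ((FV T hX C hF q).comp (ShL T C hb (List.finRange C.N) q)) y)
    (fun q => by
      have h := exists_nuc_S T C hb q
      rw [G5c_op T C hb hs q] at h
      obtain ⟨D, hD⟩ := h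
      exact ⟨D, hD _⟩)
  exact key

end

end FB
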