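import Pool.Agent.H.MP_fb873c_an.E1d
import Pool.Agent.H.MP_fb873c_an.G5c

/-! # Part E2: the Lefschetz number as a sum of local integrals, and the limit `ε → 0` (E2b) -/

namespace FB

open MeasureTheory
open scoped Topology ContDiff Manifold BoundedContinuousFunction

universe u

private theorem e2b_unif {X : Type u} (Z : Finset X) {P : X → ℝ → Prop}
    (hP : ∀ z ∈ Z, ∃ s : ℝ, 0 < s ∧ P z s) (mono : ∀ z s s', s' ≤ s → P z s → P z s') :
    ∃ s : ℝ, 0 < s ∧ ∀ z ∈ Z, P z s := by
  classical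
  induction Z using Finset.induction_on with
  | empty => exact ⟨1, one_pos, fun z hz => absurd hz (Finset.notMem_empty z)⟩
  | insert a S ha ih =>
    obtain ⟨s, hs, h⟩ := ih fun z hz => hP z (Finset.mem_insert_of_mem hz)
    obtain ⟨t, ht, h'⟩ := hP a (Finset.mem_insert_self a S)
    refine ⟨min s t, lt_min hs ht, fun z hz => ?_⟩
    rcases Finset.mem_insert.1 hz with rfl | hz
    · exact mono _ t _ (min_le_right _ _) h'
    · exact mono _ s _ (min_le_left _ _) (h z hz)


section

variable {W : Type} [NormedAddCommGroup W] [InnerProductSpace ℝ W] [FiniteDimensional ℝ W]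
  [MeasurableSpace W] [BorelSpace W]
variable {X : Type u} [MetricSpace X] [ChartedSpace W X] [IsManifold 𝓘(ℝ, W) ∞ X]
  [CompactSpace X]

private theorem e2b_core (C : Cov W X) {Z : Set X} (hC : C.Adapted Z) {z : X} (hz : z ∈ Z) :
    ∃ s : ℝ, 0 < s ∧ ∃ i, Core C i z s := by
  obtain ⟨i, h1, h2, h3⟩ := hC z hz
  have h4 : ∀ᶠ y in 𝓝 z, (C.ρ i y = 1 ∧ C.σ i y = 1 ∧ C.χ i y = 1 ∧ C.ψ i y = 1 ∧
      C.θ i y = 1) ∧ ∀ j, j ≠ i → C.ρ j y = 0 ∧ C.σ j y = 0 ∧ C.χ j y = 0 ∧ C.ψ j y = 0 ∧
        C.θ j y = 0 := by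
    refine h2.and ?_
    rw [Filter.eventually_all]
    intro j
    by_cases hj : j = i
    · exact Filter.Eventually.of_forall fun y h => absurd hj h
    · filter_upwards [h3 j hj] with y hy _
      exact hy
  obtain ⟨s, hs, h5⟩ := Metric.eventually_nhds_iff_ball.1 h4
  exact ⟨s, hs, i, h1, fun p hp => (h5 p hp).1, fun j hj p hp => (h5 p hp).2 j hj⟩

private theorem e2b_supp (C : Cov W X) (i : Fin C.N) :
    tsupport (C.χ i) ⊆ (chartAt W (C.c i)).source := by
  intro p hp
  apply C.ψs i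
  apply subset_tsupport
  rw [Function.mem_support, (C.χψ i p hp).self_of_nhds]
  exact one_ne_zero

/-- JOB E2b.  The Lefschetz number as a sum of local integrals.  Choose `C` adapted to the finite set
`Z` of fixed points (`exists_cov`), `s > 0` with `Core C (i z) z s` and pairwise disjoint balls `B(z,s)`,
`δ ≤ δ0`, `4 δ < s`, with `F (B(z,2δ)) ⊆ B(z,s)`, `η > 0` with `dist p (F p) > η` whenever
`dist z p ≥ δ` for all `z ∈ Z` (compactness), `r` small (`(3N+1) r < min η δ`), `ε0` from `exists_small`.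
If the integrand `trI` at `Y` is non-zero then by `trI_far` there is `p'` with
`dist Y p' < δ`, `dist p' (F p') < η`, so `dist z p' < δ`, `dist z Y < 2δ` for some `z`; if `i ≠ i z` then
`trI_wrong` gives zero (`ρ_i = 0` on `B(z,s)`).  So the integral over `chart '' tsupport χ_i` reduces to
`chart '' B(z,2δ)` with `i = i z`, where `trI_near` applies.  (`i z` is injective in `z`; indices `i` which
are not of the form `i z` contribute zero.)  The statement is with `2δ` renamed `δ`. -/
theorem lef_local (T : Ty W) (hX : TGood T X) {F : X → X}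
    (hF : ContMDiff 𝓘(ℝ, W) 𝓘(ℝ, W) ∞ F) (hFT : ∀ p, fd (W := W) (W' := W) F p ∈ T.good)
    (Z : Finset X) (hZ : ∀ p, F p = p ↔ p ∈ Z) (δ0 : ℝ) (hδ0 : 0 < δ0) :
    ∃ δ : ℝ, 0 < δ ∧ δ ≤ δ0 ∧ (∀ z ∈ Z, Metric.closedBall z δ ⊆ (chartAt W z).source ∧
        ∀ p ∈ Metric.closedBall z δ, F p ∈ (chartAt W z).source) ∧
      ∃ ε0 : ℝ, 0 < ε0 ∧ ∀ ε ≤ ε0, ∀ b : W → ℝ, IsBump b ε →
      (∀ q, FiniteDimensional ℂ (HT T hX q)) ∧
      Lef T hX F hF hFT = ∑ q ∈ Finset.range (Module.finrank ℝ W + 1), (-1 : ℂ) ^ q *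
        ∑ z ∈ Z, ∫ y in (chartAt W z) '' Metric.ball z δ,
          (bb b (Floc F z y - y) : ℂ) * T.sig q (fderiv ℝ (Floc F z) y) := by
  classical
  obtain ⟨C, hC⟩ := exists_cov (W := W) X (Z : Set X) Z.finite_toSet
  obtain ⟨s, hs0, hs⟩ := e2b_unif Z (P := fun z s => ∃ i, Core C i z s)
    (fun z hz => e2b_core C hC hz)
    (fun z s s' hss h => by
      obtain ⟨i, h1, h2, h3⟩ := h
      exact ⟨i, h1, fun p hp => h2 p (Metric.ball_subset_ball hss hp),
        fun j hj p hp => h3 j hj p (Metric.ball_subset_ball hss hp)⟩)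
  choose I hI using hs
  have hFc : Continuous F := hF.continuous
  obtain ⟨δ1, hδ1, hδ1'⟩ := e2b_unif Z (P := fun z δ => ∀ p ∈ Metric.closedBall z δ,
      p ∈ (chartAt W z).source ∧ F p ∈ (chartAt W z).source ∧ dist z (F p) < s)
    (fun z hz => by
      have hz' : F z = z := (hZ z).2 hz
      have h1 : ∀ᶠ p in 𝓝 z, p ∈ (chartAt W z).source :=
        (chartAt W z).open_source.mem_nhds (mem_chart_source W z)
      have h2 : ∀ᶠ p in 𝓝 z, F p ∈ (chartAt W z).source := by
        apply hFc.continuousAt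
        rw [hz']
        exact h1
      have h3 : ∀ᶠ p in 𝓝 z, dist z (F p) < s := by
        have h4 : ContinuousAt (fun p => dist z (F p)) z := by fun_prop
        apply h4.eventually_lt_const
        show dist z (F z) < s
        rw [hz', dist_self]
        exact hs0
      obtain ⟨δ, hδ, h5⟩ := Metric.nhds_basis_closedBall.eventually_iff.1 (h1.and (h2.and h3))
      exact ⟨δ, hδ, fun p hp => h5 hp⟩)
    (fun z s s' hss h p hp => h p (Metric.closedBall_subset_closedBall hss hp))
  obtain ⟨δ, hδ⟩ : ∃ δ, δ = min (min δ1 δ0) (s / 4) := ⟨_, rfl⟩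
  have hδp : 0 < δ := by
    rw [hδ]
    exact lt_min (lt_min hδ1 hδ0) (by linarith)
  have hδa : δ ≤ δ1 := by rw [hδ]; exact (min_le_left _ _).trans (min_le_left _ _)
  have hδb : δ ≤ δ0 := by rw [hδ]; exact (min_le_left _ _).trans (min_le_right _ _)
  have hδc : δ ≤ s / 4 := by rw [hδ]; exact min_le_right _ _
  have hδd : ∀ z ∈ Z, ∀ p ∈ Metric.closedBall z δ,
      p ∈ (chartAt W z).source ∧ F p ∈ (chartAt W z).source ∧ dist z (F p) < s :=
    fun z hz p hp => hδ1' z hz p (Metric.closedBall_subset_closedBall hδa hp)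
  -- separation from the fixed points
  obtain ⟨η, hη, hη'⟩ : ∃ η : ℝ, 0 < η ∧ ∀ p : X, (∀ z ∈ Z, δ / 2 ≤ dist z p) → η ≤ dist p (F p) := by
    have hK : IsCompact {p : X | ∀ z ∈ Z, δ / 2 ≤ dist z p} := by
      apply IsClosed.isCompact
      have h1 : {p : X | ∀ z ∈ Z, δ / 2 ≤ dist z p} = ⋂ z ∈ Z, {p | δ / 2 ≤ dist z p} := by
        ext p
        simp
      rw [h1]
      exact isClosed_biInter fun z _ => isClosed_le continuous_const (by fun_prop)
    obtain ⟨η, h1, h2⟩ := hK.exists_forall_le' (f := fun p => dist p (F p)) (a := (0 : ℝ))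
      (by fun_prop) (fun p hp => by
        apply dist_pos.2
        intro h
        have h3 := hp p ((hZ p).1 h.symm)
        rw [dist_self] at h3
        linarith)
    exact ⟨η, h1, fun p hp => h2 p hp⟩
  obtain ⟨r0, hr0, hr0'⟩ := exists_small C
  obtain ⟨κ, hκ⟩ : ∃ κ, κ = min η δ := ⟨_, rfl⟩
  have hκ0 : 0 < κ := by rw [hκ]; exact lt_min hη hδp
  have hκ1 : κ ≤ η := by rw [hκ]; exact min_le_left _ _
  have hκ2 : κ ≤ δ := by rw [hκ]; exact min_le_right _ _
  have hN : (0 : ℝ) < 3 * C.N + 4 := by positivity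
  obtain ⟨r, hr⟩ : ∃ r, r = min r0 (κ / (2 * (3 * C.N + 4))) := ⟨_, rfl⟩
  have hrp : 0 < r := by
    rw [hr]
    exact lt_min hr0 (by positivity)
  have hr1 : r ≤ r0 := by rw [hr]; exact min_le_left _ _
  have hr2 : (3 * C.N + 4) * r ≤ κ / 2 := by
    have h1 : r ≤ κ / (2 * (3 * C.N + 4)) := by rw [hr]; exact min_le_right _ _
    rw [le_div_iff₀ (by positivity)] at h1
    linarith
  have hNr : 0 ≤ (C.N : ℝ) * r := by positivity
  obtain ⟨ε0, hε0, hε0'⟩ := hr0' r hrp hr1
  refine ⟨δ, hδp, hδb, fun z hz => ⟨fun p hp => (hδd z hz p hp).1,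
    fun p hp => (hδd z hz p hp).2.1⟩, ε0, hε0, fun ε hε b hb => ?_⟩
  have hsm := hε0' ε hε
  obtain ⟨hfd, htr⟩ := trace_formula T hX C hF hFT hb hsm
  refine ⟨hfd, ?_⟩
  rw [htr]
  refine Finset.sum_congr rfl fun q _ => ?_
  congr 1
  -- where the integrand is not zero
  have key : ∀ (i : Fin C.N) (Y : X), Y ∈ tsupport (C.χ i) →
      trI T hX C hF hb i q (chartAt W (C.c i) Y) ≠ 0 →
      ∃ (z : X) (hz : z ∈ Z), dist z Y < δ ∧ I z hz = i := by
    intro i Y hY hne
    obtain ⟨p', h1, h2⟩ := trI_far T hX C hF hb hsm i q Y hY hne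
    have h3 : ∃ z ∈ Z, dist z p' < δ / 2 := by
      by_contra hcon
      push Not at hcon
      have h4 := hη' p' hcon
      linarith
    obtain ⟨z, hz, h4⟩ := h3
    have h5 : dist z Y < δ := by
      have h6 := dist_triangle z p' Y
      rw [dist_comm p' Y] at h6
      linarith
    refine ⟨z, hz, h5, ?_⟩
    by_contra hcon
    apply hne
    apply trI_wrong T hX C hF hb hsm i q Y hY
    intro p hp
    have h6 : p ∈ Metric.ball z s := by
      rw [Metric.mem_ball, dist_comm]
      have h7 := dist_triangle z Y p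
      linarith
    exact ((hI z hz).2.2 i (Ne.symm hcon) p h6).1
  have hG : ∀ (z : X) (hz : z ∈ Z),
      ∫ y in (chartAt W (C.c (I z hz))) '' tsupport (C.χ (I z hz)),
        trI T hX C hF hb (I z hz) q y =
      ∫ y in (chartAt W z) '' Metric.ball z δ,
          (bb b (Floc F z y - y) : ℂ) * T.sig q (fderiv ℝ (Floc F z) y) := by
    intro z hz
    obtain ⟨i, hi⟩ : ∃ i, i = I z hz := ⟨_, rfl⟩
    have hc : Core C i z s := by rw [hi]; exact hI z hz
    have hcz : C.c i = z := hc.1
    rw [← hi, hcz]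
    have hsub : tsupport (C.χ i) ⊆ (chartAt W z).source := by
      rw [← hcz]
      exact e2b_supp C i
    have hms : MeasurableSet ((chartAt W z) '' tsupport (C.χ i)) :=
      ((isClosed_tsupport (C.χ i)).isCompact.image_of_continuousOn
        ((chartAt W z).continuousOn.mono hsub)).measurableSet
    have hbs : Metric.ball z δ ⊆ (chartAt W z).source := fun p hp =>
      (hδd z hz p (Metric.ball_subset_closedBall hp)).1
    have hmb : MeasurableSet ((chartAt W z) '' Metric.ball z δ) :=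
      ((chartAt W z).isOpen_image_of_subset_source Metric.isOpen_ball hbs).measurableSet
    have hss : (chartAt W z) '' Metric.ball z δ ⊆ (chartAt W z) '' tsupport (C.χ i) := by
      apply Set.image_mono
      intro p hp
      apply subset_tsupport
      rw [Function.mem_support, (hc.2.1 p (Metric.ball_subset_ball (by linarith) hp)).2.2.1]
      exact one_ne_zero
    rw [setIntegral_eq_of_subset_of_forall_diff_eq_zero hms hss]
    · refine setIntegral_congr_fun hmb ?_
      rintro _ ⟨Y, hY, rfl⟩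
      rw [Metric.mem_ball, dist_comm] at hY
      exact trI_near T hX C hF hFT hb hsm i hc q Y (by linarith)
        (hδd z hz Y (by rw [Metric.mem_closedBall, dist_comm]; exact hY.le)).2.2
    · rintro _ ⟨⟨Y, hY, rfl⟩, hY2⟩
      by_contra hne
      rw [← hcz] at hne
      obtain ⟨z', hz', h1, h2⟩ := key i Y hY hne
      have h3 : z' = z := by
        rw [← hcz, ← h2]
        exact (hI z' hz').1.symm
      apply hY2
      refine ⟨Y, ?_, rfl⟩
      rw [Metric.mem_ball, dist_comm, ← h3]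
      exact h1
  have hG0 : ∀ i : Fin C.N, (∀ (z : X) (hz : z ∈ Z), I z hz ≠ i) →
      ∫ y in (chartAt W (C.c i)) '' tsupport (C.χ i), trI T hX C hF hb i q y = 0 := by
    intro i hi
    apply setIntegral_eq_zero_of_forall_eq_zero
    rintro _ ⟨Y, hY, rfl⟩
    by_contra hne
    obtain ⟨z, hz, -, h2⟩ := key i Y hY hne
    exact hi z hz h2
  have hinj : ∀ z ∈ Z.attach, ∀ z' ∈ Z.attach, I z.1 z.2 = I z'.1 z'.2 → z = z' := by
    intro z _ z' _ h
    apply Subtype.ext
    rw [← (hI z.1 z.2).1, h]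
    exact (hI z'.1 z'.2).1
  calc ∑ i : Fin C.N, ∫ y in (chartAt W (C.c i)) '' tsupport (C.χ i), trI T hX C hF hb i q y
      = ∑ i ∈ Z.attach.image (fun z => I z.1 z.2),
          ∫ y in (chartAt W (C.c i)) '' tsupport (C.χ i), trI T hX C hF hb i q y := by
        symm
        apply Finset.sum_subset (Finset.subset_univ _)
        intro i _ hi
        apply hG0
        intro z hz h
        apply hi
        rw [Finset.mem_image]
        exact ⟨⟨z, hz⟩, Finset.mem_attach _ _, h⟩
    _ = ∑ z ∈ Z.attach, ∫ y in (chartAt W (C.c (I z.1 z.2))) '' tsupport (C.χ (I z.1 z.2)),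
          trI T hX C hF hb (I z.1 z.2) q y := Finset.sum_image hinj
    _ = ∑ z ∈ Z.attach, ∫ y in (chartAt W z.1) '' Metric.ball z.1 δ,
          (bb b (Floc F z.1 y - y) : ℂ) * T.sig q (fderiv ℝ (Floc F z.1) y) :=
        Finset.sum_congr rfl fun z _ => hG z.1 z.2
    _ = ∑ z ∈ Z, ∫ y in (chartAt W z) '' Metric.ball z δ,
          (bb b (Floc F z y - y) : ℂ) * T.sig q (fderiv ℝ (Floc F z) y) :=
        Finset.sum_attach Z (fun z => ∫ y in (chartAt W z) '' Metric.ball z δ,
          (bb b (Floc F z y - y) : ℂ) * T.sig q (fderiv ℝ (Floc F z) y))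

end

end FB
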