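import Pool.Agent.H.MP_fb873c_an.E2a
import Pool.Agent.H.MP_fb873c_an.E2b

/-! # Part E2: the Lefschetz number as a sum of local integrals, and the limit `ε → 0` (E2c) -/

namespace FB

open MeasureTheory
open scoped Topology ContDiff Manifold BoundedContinuousFunction

universe u


section

variable {W : Type} [NormedAddCommGroup W] [InnerProductSpace ℝ W] [FiniteDimensional ℝ W]
  [MeasurableSpace W] [BorelSpace W]

/-- `sig` is continuous. -/
theorem E2c_sig (T : Ty W) (q : ℕ) : Continuous (T.sig q) := by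
  classical
  have : FiniteDimensional ℂ (Lam W q) := lam_finite (W := W) q
  let b := Module.finBasis ℂ (Lam W q)
  have h : T.sig q = fun L => ∑ i, b.coord i (T.pi q (pbk L q (b i))) := by
    funext L
    unfold Ty.sig
    rw [LinearMap.trace_eq_matrix_trace ℂ b, Matrix.trace]
    refine Finset.sum_congr rfl fun i _ => ?_
    rw [Matrix.diag_apply, LinearMap.toMatrix_apply]
    rfl
  rw [h]
  refine continuous_finsetSum _ fun i _ => ?_
  have h1 : Continuous (b.coord i) := (b.coord i).continuous_of_finiteDimensional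
  have h2 : Continuous fun L : W →L[ℝ] W => pbk L q (b i) :=
    (ContinuousAlternatingMap.continuous_compContinuousLinearMapCLM (𝕜 := ℝ) (E := W) (F := W)
      (G := ℂ) (ι := Fin q)).clm_apply continuous_const
  exact h1.comp ((T.pi q).continuous.comp h2)

end

section

variable {W : Type} [NormedAddCommGroup W] [InnerProductSpace ℝ W] [FiniteDimensional ℝ W]
  [MeasurableSpace W] [BorelSpace W]
variable {X : Type u} [MetricSpace X] [ChartedSpace W X] [IsManifold 𝓘(ℝ, W) ∞ X]
  [CompactSpace X]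

/-- The limit for one fixed point. -/
theorem E2c_point (T : Ty W) {F : X → X} (hF : ContMDiff 𝓘(ℝ, W) 𝓘(ℝ, W) ∞ F)
    (Z : Finset X) (hZ : ∀ p, F p = p ↔ p ∈ Z) {z : X} (hz : z ∈ Z) {δ : ℝ} (hδ : 0 < δ)
    (hsep : ∀ z' ∈ Z, z' ≠ z → δ < dist z z')
    (h1 : Metric.closedBall z δ ⊆ (chartAt W z).source)
    (h2 : ∀ p ∈ Metric.closedBall z δ, F p ∈ (chartAt W z).source)
    (hnd : LinearMap.det (fderiv ℝ (Floc F z) (chartAt W z z)
      - ContinuousLinearMap.id ℝ W : W →L[ℝ] W).toLinearMap ≠ 0) (q : ℕ) (ξ : ℝ) (hξ : 0 < ξ) :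
    ∃ ε0 : ℝ, 0 < ε0 ∧ ∀ ε ≤ ε0, ∀ b : W → ℝ, IsBump b ε →
      ‖(∫ y in (chartAt W z) '' Metric.ball z δ,
          (bb b (Floc F z y - y) : ℂ) * T.sig q (fderiv ℝ (Floc F z) y)) -
        T.sig q (fderiv ℝ (Floc F z) (chartAt W z z)) /
          |LinearMap.det (fderiv ℝ (Floc F z) (chartAt W z z)
            - ContinuousLinearMap.id ℝ W : W →L[ℝ] W).toLinearMap|‖ < ξ := by
  have hFz : F z = z := (hZ z).2 hz
  have hzc : z ∈ Metric.closedBall z δ := Metric.mem_closedBall_self hδ.le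
  have hbs : Metric.ball z δ ⊆ (chartAt W z).source := Metric.ball_subset_closedBall.trans h1
  have hAo : IsOpen ((chartAt W z) '' Metric.ball z δ) :=
    (chartAt W z).isOpen_image_of_subset_source Metric.isOpen_ball hbs
  have haA : (chartAt W z) '' Metric.ball z δ ∈ 𝓝 (chartAt W z z) :=
    hAo.mem_nhds (Set.mem_image_of_mem _ (Metric.mem_ball_self hδ))
  have hsm : ∀ p ∈ Metric.closedBall z δ, ContDiffAt ℝ ∞ (Floc F z) (chartAt W z p) :=
    fun p hp => contDiffAt_charts hF z z p (h1 hp) (h2 p hp)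
  have hua : ContDiffAt ℝ ∞ (Floc F z) (chartAt W z z) := hsm z hzc
  have hder : fderiv ℝ (fun y => Floc F z y - y) (chartAt W z z) =
      fderiv ℝ (Floc F z) (chartAt W z z) - ContinuousLinearMap.id ℝ W := by
    have := fderiv_fun_sub (hua.differentiableAt (by simp)) (differentiableAt_id (𝕜 := ℝ)
      (x := chartAt W z z))
    rw [show (fun y => Floc F z y - y) = fun y => Floc F z y - id y from rfl, this]
    rw [fderiv_id]
  have hval : ∀ p ∈ Metric.closedBall z δ, Floc F z (chartAt W z p) = chartAt W z (F p) := by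
    intro p hp
    show chartAt W z (F ((chartAt W z).symm (chartAt W z p))) = _
    rw [(chartAt W z).left_inv (h1 hp)]
  have key := approx_limit (fun y => Floc F z y - y) ((chartAt W z) '' Metric.ball z δ)
    hAo.measurableSet (chartAt W z z) haA
    ((hua.of_le (by exact_mod_cast le_top)).sub contDiffAt_id)
    (by
      show Floc F z (chartAt W z z) - chartAt W z z = 0
      rw [hval z hzc, hFz, sub_self])
    (by rw [hder]; exact hnd)
    (by
      intro U hU
      have hK : IsCompact ((chartAt W z) '' Metric.closedBall z δ) :=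
        (isCompact_closedBall z δ).image_of_continuousOn ((chartAt W z).continuousOn.mono h1)
      have hK' : IsCompact ((chartAt W z) '' Metric.closedBall z δ \ interior U) :=
        hK.diff isOpen_interior
      have hc : ContinuousOn (fun y => ‖Floc F z y - y‖)
          ((chartAt W z) '' Metric.closedBall z δ \ interior U) := by
        rintro y ⟨⟨p, hp, rfl⟩, -⟩
        exact (((hsm p hp).continuousAt.sub continuousAt_id).norm).continuousWithinAt
      rcases Set.eq_empty_or_nonempty ((chartAt W z) '' Metric.closedBall z δ \ interior U) with h0 | h0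
      · refine ⟨1, one_pos, ?_⟩
        rintro y ⟨p, hp, rfl⟩ hy
        exfalso
        have : chartAt W z p ∈ (chartAt W z) '' Metric.closedBall z δ \ interior U :=
          ⟨Set.mem_image_of_mem _ (Metric.ball_subset_closedBall hp),
            fun h => hy (interior_subset h)⟩
        rw [h0] at this
        exact this
      · obtain ⟨y0, hy0, hmin⟩ := hK'.exists_isMinOn h0 hc
        refine ⟨‖Floc F z y0 - y0‖, ?_, ?_⟩
        · rw [norm_pos_iff]
          intro h3
          obtain ⟨⟨p, hp, rfl⟩, hp'⟩ := hy0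
          rw [hval p hp, sub_eq_zero] at h3
          have h4 : F p = p := (chartAt W z).injOn (h2 p hp) (h1 hp) h3
          have h5 : p ∈ Z := (hZ p).1 h4
          by_cases h6 : p = z
          · subst h6
            exact hp' (mem_interior_iff_mem_nhds.2 hU)
          · have h7 := hsep p h5 h6
            rw [Metric.mem_closedBall, dist_comm] at hp
            linarith
        · rintro y ⟨p, hp, rfl⟩ hy
          exact hmin ⟨Set.mem_image_of_mem _ (Metric.ball_subset_closedBall hp),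
            fun h => hy (interior_subset h)⟩)
    (fun y => T.sig q (fderiv ℝ (Floc F z) y))
    (by
      have h3 : ContinuousAt (fderiv ℝ (Floc F z)) (chartAt W z z) :=
        hua.continuousAt_fderiv (by simp)
      exact (E2c_sig T q).continuousAt.comp h3)
    (by
      refine ⟨_, haA, ?_⟩
      rintro y ⟨p, hp, rfl⟩
      have h3 : ContinuousAt (fderiv ℝ (Floc F z)) (chartAt W z p) :=
        (hsm p (Metric.ball_subset_closedBall hp)).continuousAt_fderiv (by simp)
      exact ((E2c_sig T q).continuousAt.comp h3).continuousWithinAt)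
    ξ hξ
  rw [hder] at key
  exact key

/-- JOB E2c.  The fixed point formula (metric version): `approx_limit` with `u y = F̃ y - y`,
`A = chart '' ball z δ`, `δ` small, `g y = T.sig q (D F̃ y)` (continuous: `sig` is linear-algebraic in the
linear map, i.e. `L ↦ trace (pi ∘ pbk L)` is continuous). Separation: compactness of `closedBall z δ` and
`F p ≠ p` on it except at `z` (for `δ` less than half the distances between fixed points). -/
theorem lefschetz_metric (T : Ty W) (hX : TGood T X) {F : X → X}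
    (hF : ContMDiff 𝓘(ℝ, W) 𝓘(ℝ, W) ∞ F) (hFT : ∀ p, fd (W := W) (W' := W) F p ∈ T.good)
    (Z : Finset X) (hZ : ∀ p, F p = p ↔ p ∈ Z)
    (hnd : ∀ z ∈ Z, LinearMap.det (fderiv ℝ (Floc F z) (chartAt W z z)
      - ContinuousLinearMap.id ℝ W : W →L[ℝ] W).toLinearMap ≠ 0) :
    (∀ q, FiniteDimensional ℂ (HT T hX q)) ∧
    Lef T hX F hF hFT = ∑ z ∈ Z, (∑ q ∈ Finset.range (Module.finrank ℝ W + 1),
        (-1 : ℂ) ^ q * T.sig q (fderiv ℝ (Floc F z) (chartAt W z z))) /
      |LinearMap.det (fderiv ℝ (Floc F z) (chartAt W z z)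
        - ContinuousLinearMap.id ℝ W : W →L[ℝ] W).toLinearMap| := by
  -- a radius which separates the fixed points
  have hev : ∀ᶠ δ in 𝓝[>] (0 : ℝ), ∀ z ∈ Z, ∀ z' ∈ Z, z' ≠ z → δ < dist z z' := by
    rw [Filter.eventually_all_finset]
    intro z _
    rw [Filter.eventually_all_finset]
    intro z' _
    by_cases h : z' = z
    · exact Filter.Eventually.of_forall fun δ h' => absurd h h'
    · have h1 : 0 < dist z z' := dist_pos.2 (Ne.symm h)
      filter_upwards [mem_nhdsWithin_of_mem_nhds (Iio_mem_nhds h1)] with δ hδ _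
      exact hδ
  obtain ⟨δ0, hδ0, hδ0pos⟩ := (hev.and self_mem_nhdsWithin).exists
  obtain ⟨δ, hδ, hδδ0, hcl, ε0, hε0, hloc⟩ := lef_local T hX hF hFT Z hZ δ0 hδ0pos
  set N : ℕ := Module.finrank ℝ W + 1 with hN
  set I : (W → ℝ) → X → ℕ → ℂ := fun b z q => ∫ y in (chartAt W z) '' Metric.ball z δ,
          (bb b (Floc F z y - y) : ℂ) * T.sig q (fderiv ℝ (Floc F z) y) with hI
  set J : X → ℕ → ℂ := fun z q => T.sig q (fderiv ℝ (Floc F z) (chartAt W z z)) /
          |LinearMap.det (fderiv ℝ (Floc F z) (chartAt W z z)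
            - ContinuousLinearMap.id ℝ W : W →L[ℝ] W).toLinearMap| with hJ
  have hlim : ∀ ξ : ℝ, 0 < ξ → ∀ᶠ ε in 𝓝[>] (0 : ℝ), ∀ z ∈ Z, ∀ q ∈ Finset.range N,
      ∀ b : W → ℝ, IsBump b ε → ‖I b z q - J z q‖ < ξ := by
    intro ξ hξ
    rw [Filter.eventually_all_finset]
    intro z hz
    rw [Filter.eventually_all_finset]
    intro q _
    obtain ⟨ε1, hε1, h⟩ := E2c_point T hF Z hZ hz hδ
      (fun z' hz' hne => lt_of_le_of_lt hδδ0 (hδ0 z hz z' hz' hne)) (hcl z hz).1 (hcl z hz).2
      (hnd z hz) q ξ hξ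
    filter_upwards [mem_nhdsWithin_of_mem_nhds (Iio_mem_nhds hε1)] with ε hε b hb
    exact h ε (le_of_lt hε) b hb
  have hε0ev : ∀ᶠ ε in 𝓝[>] (0 : ℝ), ε < ε0 :=
    mem_nhdsWithin_of_mem_nhds (Iio_mem_nhds hε0)
  have hfin : ∀ q, FiniteDimensional ℂ (HT T hX q) := by
    obtain ⟨ε, h1, h2⟩ := (hε0ev.and self_mem_nhdsWithin).exists
    obtain ⟨b, hb⟩ := exists_isBump (W := W) (ε := ε) h2
    exact (hloc ε h1.le b hb).1
  refine ⟨hfin, ?_⟩
  have hR : (∑ z ∈ Z, (∑ q ∈ Finset.range N,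
        (-1 : ℂ) ^ q * T.sig q (fderiv ℝ (Floc F z) (chartAt W z z))) /
      |LinearMap.det (fderiv ℝ (Floc F z) (chartAt W z z)
        - ContinuousLinearMap.id ℝ W : W →L[ℝ] W).toLinearMap| : ℂ) =
      ∑ q ∈ Finset.range N, (-1 : ℂ) ^ q * ∑ z ∈ Z, J z q := by
    have h1 : ∀ q ∈ Finset.range N, (-1 : ℂ) ^ q * ∑ z ∈ Z, J z q =
        ∑ z ∈ Z, (-1 : ℂ) ^ q * J z q := fun q _ => Finset.mul_sum _ _ _
    rw [Finset.sum_congr rfl h1, Finset.sum_comm]
    refine Finset.sum_congr rfl fun z _ => ?_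
    rw [Finset.sum_div]
    refine Finset.sum_congr rfl fun q _ => ?_
    simp only [hJ]
    rw [mul_div_assoc]
  rw [hR]
  by_contra hne
  have hD : 0 < ‖Lef T hX F hF hFT - ∑ q ∈ Finset.range N, (-1 : ℂ) ^ q * ∑ z ∈ Z, J z q‖ :=
    norm_pos_iff.2 (sub_ne_zero.2 hne)
  set D := ‖Lef T hX F hF hFT - ∑ q ∈ Finset.range N, (-1 : ℂ) ^ q * ∑ z ∈ Z, J z q‖ with hDdef
  have hpos : (0 : ℝ) < (N : ℝ) * (Z.card : ℝ) + 1 := by positivity
  obtain ⟨ε, ⟨h1, h2⟩, h3⟩ := (((hlim (D / ((N : ℝ) * (Z.card : ℝ) + 1)) (by positivity)).and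
    hε0ev).and self_mem_nhdsWithin).exists
  obtain ⟨b, hb⟩ := exists_isBump (W := W) (ε := ε) h3
  have hL := (hloc ε h2.le b hb).2
  have hL' : Lef T hX F hF hFT = ∑ q ∈ Finset.range N, (-1 : ℂ) ^ q * ∑ z ∈ Z, I b z q := hL
  have hDL : D = ‖∑ q ∈ Finset.range N, ((-1 : ℂ) ^ q * ∑ z ∈ Z, I b z q -
      (-1 : ℂ) ^ q * ∑ z ∈ Z, J z q)‖ := by
    rw [hDdef, hL', ← Finset.sum_sub_distrib]
  have hbound : D ≤ ∑ q ∈ Finset.range N, ∑ z ∈ Z, (D / ((N : ℝ) * (Z.card : ℝ) + 1)) := by
    refine hDL.le.trans ?_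
    refine (norm_sum_le _ _).trans (Finset.sum_le_sum fun q hq => ?_)
    rw [← mul_sub, ← Finset.sum_sub_distrib, norm_mul, norm_pow, norm_neg, norm_one, one_pow,
      one_mul]
    refine (norm_sum_le _ _).trans (Finset.sum_le_sum fun z hz => ?_)
    exact (h1 z hz q hq b hb).le
  rw [Finset.sum_const, Finset.sum_const, Finset.card_range, nsmul_eq_mul, nsmul_eq_mul] at hbound
  have : D * ((N : ℝ) * (Z.card : ℝ) + 1) ≤ (N : ℝ) * (Z.card : ℝ) * D := by
    have h4 := mul_le_mul_of_nonneg_right hbound hpos.le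
    have h5 : (N : ℝ) * ((Z.card : ℝ) * (D / ((N : ℝ) * (Z.card : ℝ) + 1))) *
        ((N : ℝ) * (Z.card : ℝ) + 1) = (N : ℝ) * (Z.card : ℝ) * D := by
      field_simp
    linarith
  nlinarith

end

end FB
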