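import Pool.Agent.H.MP_fb873c_an.E2c

/-! # Part E2: the Lefschetz number as a sum of local integrals, and the limit `ε → 0` (E2d) -/

namespace FB

open MeasureTheory
open scoped Topology ContDiff Manifold BoundedContinuousFunction

universe u


section

variable {W : Type} [NormedAddCommGroup W] [InnerProductSpace ℝ W] [FiniteDimensional ℝ W]
  [MeasurableSpace W] [BorelSpace W]
variable {X : Type u} [MetricSpace X] [ChartedSpace W X] [IsManifold 𝓘(ℝ, W) ∞ X]
  [CompactSpace X]

/-- Finite dimensionality, metric version: the trace formula for the identity. -/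
theorem E2d_fin (T : Ty W) (hX : TGood T X)
    (hid : ContinuousLinearMap.id ℝ W ∈ T.good) (q : ℕ) : FiniteDimensional ℂ (HT T hX q) := by
  obtain ⟨C, -⟩ := exists_cov (W := W) X (∅ : Set X) Set.finite_empty
  obtain ⟨r0, hr0, h1⟩ := exists_small C
  obtain ⟨ε0, hε0, h2⟩ := h1 r0 hr0 le_rfl
  obtain ⟨b, hb⟩ := exists_isBump (W := W) (ε := ε0) hε0
  have hF : ContMDiff 𝓘(ℝ, W) 𝓘(ℝ, W) ∞ (id : X → X) := contMDiff_id
  have hFT : ∀ p, fd (W := W) (W' := W) (id : X → X) p ∈ T.good := by
    intro p
    rw [fd_id]
    exact hid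
  exact (trace_formula T hX C hF hFT hb (h2 ε0 le_rfl)).1 q

end

section

variable {W : Type} [NormedAddCommGroup W] [InnerProductSpace ℝ W] [FiniteDimensional ℝ W]
  [MeasurableSpace W] [BorelSpace W]
variable {X : Type u} [TopologicalSpace X] [ChartedSpace W X] [IsManifold 𝓘(ℝ, W) ∞ X]
  [CompactSpace X] [T2Space X]

/-- JOB E2d.  The fixed point formula of type `T` (choose a metric:
`TopologicalSpace.metrizableSpaceMetric X`, `X` is metrizable as a compact Hausdorff second countable
space: `ChartedSpace.secondCountable_of_sigmaCompact`).  Nondegenerate fixed points are isolated, so there are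
finitely many (or take the finite set as given). -/
theorem lefschetz_formula (T : Ty W) (hX : TGood T X) {F : X → X}
    (hF : ContMDiff 𝓘(ℝ, W) 𝓘(ℝ, W) ∞ F) (hFT : ∀ p, fd (W := W) (W' := W) F p ∈ T.good)
    (Z : Finset X) (hZ : ∀ p, F p = p ↔ p ∈ Z)
    (hnd : ∀ z ∈ Z, LinearMap.det (fderiv ℝ (Floc F z) (chartAt W z z)
      - ContinuousLinearMap.id ℝ W : W →L[ℝ] W).toLinearMap ≠ 0) :
    Lef T hX F hF hFT = ∑ z ∈ Z, (∑ q ∈ Finset.range (Module.finrank ℝ W + 1),
        (-1 : ℂ) ^ q * T.sig q (fderiv ℝ (Floc F z) (chartAt W z z))) /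
      |LinearMap.det (fderiv ℝ (Floc F z) (chartAt W z z)
        - ContinuousLinearMap.id ℝ W : W →L[ℝ] W).toLinearMap| := by
  haveI : SecondCountableTopology X := ChartedSpace.secondCountable_of_sigmaCompact W X
  letI : MetricSpace X := TopologicalSpace.metrizableSpaceMetric X
  exact (lefschetz_metric T hX hF hFT Z hZ hnd).2

/-- JOB E2d.  Finite dimensionality of the cohomology (`trace_formula` for `F = id`, for which
`fd id p = id`; if `id ∉ T.good` one cannot apply it directly, so the hypothesis `hid` is included). -/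
theorem finiteDimensional_HT (T : Ty W) (hX : TGood T X)
    (hid : ContinuousLinearMap.id ℝ W ∈ T.good) (q : ℕ) : FiniteDimensional ℂ (HT T hX q) := by
  haveI : SecondCountableTopology X := ChartedSpace.secondCountable_of_sigmaCompact W X
  letI : MetricSpace X := TopologicalSpace.metrizableSpaceMetric X
  exact E2d_fin T hX hid q

end

end FB
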