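import Pool.Agent.H.MP_fb873c_an.E1o

/-! # Part E2: the Lefschetz number as a sum of local integrals, and the limit `ε → 0` (E2a) -/

namespace FB

open MeasureTheory
open scoped Topology ContDiff Manifold BoundedContinuousFunction

universe u


section

variable {W : Type} [NormedAddCommGroup W] [InnerProductSpace ℝ W] [FiniteDimensional ℝ W]
  [MeasurableSpace W] [BorelSpace W]

/-- JOB E2a.  Approximate identity and change of variables.  `u` is `C^1` near `a`, `u a = 0`,
`det Du(a) ≠ 0`; on `A` (a neighbourhood of `a`, measurable) `u` is bounded away from zero outside every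
neighbourhood of `a`.  Then `∫_A (b*b)(u y) g(y) dy → g(a)/|det Du(a)|` as `ε → 0`.
(Inverse function theorem: `u` restricted to a small open ball `B` around `a` is injective, open, `C^1`;
`∫_B β(u y) g(y) dy = ∫_{u B} β(x) g(u⁻¹x)/|det Du(u⁻¹ x)| dx`
(`integral_image_eq_integral_abs_det_fderiv_smul`), `β` is an approximate identity at `0 ∈ u B`
(`IsBump.conv`) and the function is continuous at `0`; outside `B` the integrand is zero for small `ε`.) -/
theorem approx_limit (u : W → W) (A : Set W) (hA : MeasurableSet A) (a : W) (haA : A ∈ 𝓝 a)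
    (hu : ContDiffAt ℝ 1 u a) (hua : u a = 0)
    (hdet : LinearMap.det (fderiv ℝ u a).toLinearMap ≠ 0)
    (hsep : ∀ U ∈ 𝓝 a, ∃ c : ℝ, 0 < c ∧ ∀ y ∈ A, y ∉ U → c ≤ ‖u y‖)
    (g : W → ℂ) (hg : ContinuousAt g a) (hgi : ∃ U ∈ 𝓝 a, ContinuousOn g U) :
    ∀ ξ : ℝ, 0 < ξ → ∃ ε0 : ℝ, 0 < ε0 ∧ ∀ ε ≤ ε0, ∀ b : W → ℝ, IsBump b ε →
      ‖(∫ y in A, (bb b (u y) : ℂ) * g y) - g a / |LinearMap.det (fderiv ℝ u a).toLinearMap|‖ < ξ := by
  intro ξ hξ
  set J : W → ℝ := fun y => |(fderiv ℝ u y).det| with hJ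
  have hJa : J a ≠ 0 := abs_ne_zero.2 hdet
  have hJdef : |LinearMap.det (fderiv ℝ u a).toLinearMap| = J a := rfl
  rw [hJdef]
  -- regularity near `a`
  obtain ⟨S, hS, huS⟩ := hu.contDiffOn (m := 1) le_rfl (by simp)
  obtain ⟨Ug, hUg, hgc⟩ := hgi
  have hS' : IsOpen (interior S) := isOpen_interior
  have huS' : ContDiffOn ℝ 1 u (interior S) := huS.mono interior_subset
  have hJc : ContinuousOn J (interior S) :=
    (ContinuousLinearMap.continuous_det.comp_continuousOn
      (huS'.continuousOn_fderiv_of_isOpen hS' le_rfl)).abs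
  have haS : a ∈ interior S := mem_interior_iff_mem_nhds.2 hS
  have hJca : ContinuousAt J a := hJc.continuousAt (hS'.mem_nhds haS)
  set G : W → ℂ := fun y => g y / (J y : ℂ) with hG
  have hGa : ContinuousAt G a := by
    refine hg.div ?_ (by exact_mod_cast hJa)
    exact Complex.continuous_ofReal.continuousAt.comp hJca
  have hstr : HasStrictFDerivAt u (fderiv ℝ u a) a := hu.hasStrictFDerivAt (by simp)
  have hdet' : (fderiv ℝ u a).det ≠ 0 := hdet
  have hstr' : HasStrictFDerivAt u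
      (((fderiv ℝ u a).toContinuousLinearEquivOfDetNeZero hdet' : W ≃L[ℝ] W) : W →L[ℝ] W) a := by
    rw [ContinuousLinearMap.coe_toContinuousLinearEquivOfDetNeZero]
    exact hstr
  have hinj : ∃ V ∈ 𝓝 a, Set.InjOn u V := by
    refine ⟨(hstr'.toOpenPartialHomeomorph u).source, ?_, ?_⟩
    · exact (hstr'.toOpenPartialHomeomorph u).open_source.mem_nhds
        hstr'.mem_toOpenPartialHomeomorph_source
    · have := (hstr'.toOpenPartialHomeomorph u).injOn
      rwa [hstr'.toOpenPartialHomeomorph_coe] at this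
  obtain ⟨V, hV, hVinj⟩ := hinj
  -- a small ball
  have hball : ∀ᶠ y in 𝓝 a, y ∈ A ∧ y ∈ interior S ∧ y ∈ Ug ∧ y ∈ V ∧ J y ≠ 0 ∧
      ‖G y - G a‖ < ξ / 2 := by
    have e1 : ∀ᶠ y in 𝓝 a, y ∈ A := haA
    have e2 : ∀ᶠ y in 𝓝 a, y ∈ interior S := hS'.mem_nhds haS
    have e3 : ∀ᶠ y in 𝓝 a, y ∈ Ug := hUg
    have e4 : ∀ᶠ y in 𝓝 a, y ∈ V := hV
    have e5 : ∀ᶠ y in 𝓝 a, J y ≠ 0 := hJca.eventually_ne hJa
    have e6 : ∀ᶠ y in 𝓝 a, ‖G y - G a‖ < ξ / 2 := by
      have := (Metric.continuousAt_iff'.1 hGa) (ξ / 2) (by linarith)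
      filter_upwards [this] with y hy
      rwa [dist_eq_norm] at hy
    filter_upwards [e1, e2, e3, e4, e5, e6] with y h1 h2 h3 h4 h5 h6
    exact ⟨h1, h2, h3, h4, h5, h6⟩
  obtain ⟨ρ, hρ, hρB⟩ := Metric.eventually_nhds_iff_ball.1 hball
  set B : Set W := Metric.ball a ρ with hBdef
  have hBo : IsOpen B := Metric.isOpen_ball
  have haB : a ∈ B := Metric.mem_ball_self hρ
  have hBm : MeasurableSet B := hBo.measurableSet
  have hBn : B ∈ 𝓝 a := hBo.mem_nhds haB
  have hder : ∀ y ∈ B, HasFDerivWithinAt u (fderiv ℝ u y) B y := by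
    intro y hy
    have h1 : DifferentiableAt ℝ u y :=
      (huS'.differentiableOn (by simp)).differentiableAt (hS'.mem_nhds (hρB y hy).2.1)
    exact h1.hasFDerivAt.hasFDerivWithinAt
  have hinjB : Set.InjOn u B := hVinj.mono fun y hy => (hρB y hy).2.2.2.1
  have himg : u '' B ∈ 𝓝 (0 : W) := by
    have h1 := hstr'.map_nhds_eq_of_equiv
    rw [hua] at h1
    rw [← h1]
    exact Filter.image_mem_map hBn
  obtain ⟨δ, hδ, hδB⟩ := Metric.mem_nhds_iff.1 himg
  obtain ⟨c, hc, hcA⟩ := hsep B hBn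
  refine ⟨min c δ / 4, by positivity, ?_⟩
  intro ε hε b hb
  have hεpos := hb.pos
  have hεc : 2 * ε < c := by
    have := min_le_left c δ
    linarith
  have hεδ : 2 * ε < δ := by
    have := min_le_right c δ
    linarith
  obtain ⟨hβc, hβ0, hβs, hβ1⟩ := hb.conv
  have hbb : ∀ x, bb b x = ∫ w, b (x - w) * b w := fun x => rfl
  have hβc' : Continuous (bb b) := hβc
  have hβ0' : ∀ x, 0 ≤ bb b x := hβ0
  have hβs' : ∀ x, 2 * ε < ‖x‖ → bb b x = 0 := hβs
  have hβ1' : ∫ x, bb b x = 1 := hβ1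
  -- reduction to `B`
  have hstep1 : (∫ y in A, (bb b (u y) : ℂ) * g y) = ∫ y in B, (bb b (u y) : ℂ) * g y := by
    refine setIntegral_eq_of_subset_of_forall_sdiff_eq_zero hA (fun y hy => (hρB y hy).1) ?_
    rintro y ⟨hyA, hyB⟩
    rw [hβs' _ (lt_of_lt_of_le hεc (hcA y hyA hyB))]
    simp
  -- the integral of `β` over `u(B)`
  have hint : Integrable (bb b) := by
    apply hβc'.integrable_of_hasCompactSupport
    refine HasCompactSupport.of_support_subset_isCompact (isCompact_closedBall (0 : W) (2 * ε)) ?_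
    intro x hx
    rw [mem_closedBall_zero_iff]
    by_contra h
    exact hx (hβs' x (not_le.1 h))
  have hmass : ∫ x in u '' B, bb b x = 1 := by
    rw [← hβ1']
    apply setIntegral_eq_integral_of_forall_compl_eq_zero
    intro x hx
    apply hβs'
    by_contra h
    apply hx
    apply hδB
    rw [mem_ball_zero_iff]
    linarith [not_lt.1 h]
  have hchange : ∫ y in B, J y • bb b (u y) = 1 := by
    rw [← hmass]
    exact (integral_image_eq_integral_abs_det_fderiv_smul volume hBm hder hinjB (bb b)).symm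
  have hintB : IntegrableOn (fun y => J y • bb b (u y)) B := by
    have := (integrableOn_image_iff_integrableOn_abs_det_fderiv_smul volume hBm hder hinjB
      (bb b)).1 hint.integrableOn
    exact this
  have hGc : ContinuousOn G B := by
    have h1 : ContinuousOn (fun y => (J y : ℂ)) B :=
      Complex.continuous_ofReal.comp_continuousOn (hJc.mono fun y hy => (hρB y hy).2.1)
    exact (hgc.mono fun y hy => (hρB y hy).2.2.1).div h1
      (fun y hy => by exact_mod_cast (hρB y hy).2.2.2.2.1)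
  have hintBc : IntegrableOn (fun y => ((J y * bb b (u y) : ℝ) : ℂ)) B := hintB.ofReal
  have hintG : IntegrableOn (fun y => ((J y * bb b (u y) : ℝ) : ℂ) * G y) B := by
    refine Integrable.mul_bdd (c := ‖G a‖ + ξ / 2) hintBc (hGc.aestronglyMeasurable hBm) ?_
    refine (ae_restrict_iff' hBm).2 (Filter.Eventually.of_forall fun y hy => ?_)
    have h1 := (hρB y hy).2.2.2.2.2
    have h2 : G y = G a + (G y - G a) := by ring
    calc ‖G y‖ = ‖G a + (G y - G a)‖ := by rw [← h2]
      _ ≤ ‖G a‖ + ‖G y - G a‖ := norm_add_le _ _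
      _ ≤ _ := by linarith
  have hstep2 : (∫ y in B, (bb b (u y) : ℂ) * g y) =
      ∫ y in B, ((J y * bb b (u y) : ℝ) : ℂ) * G y := by
    refine setIntegral_congr_fun hBm fun y hy => ?_
    have h1 : (J y : ℂ) ≠ 0 := by exact_mod_cast (hρB y hy).2.2.2.2.1
    simp only [hG]
    push_cast
    field_simp
  have hstep3 : g a / (J a : ℂ) = ∫ y in B, ((J y * bb b (u y) : ℝ) : ℂ) * G a := by
    rw [integral_mul_const, integral_complex_ofReal]
    have : (∫ y in B, J y * bb b (u y)) = 1 := hchange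
    rw [this]
    simp [hG]
  rw [hstep1, hstep2, hstep3, ← integral_sub hintG (hintBc.mul_const _)]
  have hbound : ‖∫ y in B, (((J y * bb b (u y) : ℝ) : ℂ) * G y -
      ((J y * bb b (u y) : ℝ) : ℂ) * G a)‖ ≤ ∫ y in B, (J y * bb b (u y)) * (ξ / 2) := by
    refine norm_integral_le_of_norm_le (hintB.mul_const _) ?_
    refine (ae_restrict_iff' hBm).2 (Filter.Eventually.of_forall fun y hy => ?_)
    rw [← mul_sub, norm_mul, Complex.norm_real, Real.norm_of_nonneg
      (mul_nonneg (abs_nonneg _) (hβ0' _))]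
    exact mul_le_mul_of_nonneg_left (hρB y hy).2.2.2.2.2.le
      (mul_nonneg (abs_nonneg _) (hβ0' _))
  have hval : ∫ y in B, (J y * bb b (u y)) * (ξ / 2) = ξ / 2 := by
    rw [integral_mul_const]
    have : (∫ y in B, J y * bb b (u y)) = 1 := hchange
    rw [this, one_mul]
  rw [hval] at hbound
  linarith

end

end FB
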