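import Pool.Agent.H.MP_fb873c_an.G1a

/-! # Part G1: calculus of forms on manifolds (preferred chart formalism) (G1b) -/

namespace FB

open scoped Topology ContDiff Manifold

universe u


section

variable {W : Type} [NormedAddCommGroup W] [NormedSpace ℝ W]

private theorem g1b_alt_bound {q : ℕ} (f : ContinuousMultilinearMap ℝ (fun _ : Fin q => W) ℂ)
    (v : Fin q → W) :
    ‖ContinuousMultilinearMap.alternatization f v‖ ≤ ((q.factorial : ℝ) * ‖f‖) * ∏ i, ‖v i‖ := by
  rw [ContinuousMultilinearMap.alternatization_apply_apply]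
  refine (norm_sum_le _ _).trans ?_
  have h1 : ∀ σ ∈ (Finset.univ : Finset (Equiv.Perm (Fin q))),
      ‖Equiv.Perm.sign σ • f (v ∘ σ)‖ ≤ ‖f‖ * ∏ i, ‖v i‖ := by
    intro σ _
    have h2 : ‖Equiv.Perm.sign σ • f (v ∘ σ)‖ = ‖f (v ∘ σ)‖ := by
      rcases Int.units_eq_one_or (Equiv.Perm.sign σ) with h | h
      · rw [h, one_smul]
      · rw [h, Units.neg_smul, one_smul, norm_neg]
    rw [h2]
    refine (f.le_opNorm _).trans (le_of_eq ?_)
    congr 1
    exact Equiv.prod_comp σ fun i => ‖v i‖
  refine (Finset.sum_le_sum h1).trans (le_of_eq ?_)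
  rw [Finset.sum_const, Finset.card_univ, Fintype.card_perm, Fintype.card_fin, nsmul_eq_mul]
  ring

/-- alternatization as a continuous linear map -/
private noncomputable def g1b_alt (W : Type) [NormedAddCommGroup W] [NormedSpace ℝ W] (q : ℕ) :
    ContinuousMultilinearMap ℝ (fun _ : Fin q => W) ℂ →L[ℝ] Lam W q :=
  LinearMap.mkContinuous
    { toFun := fun f => ContinuousMultilinearMap.alternatization f
      map_add' := fun f g => map_add _ f g
      map_smul' := fun c f => by
        ext v
        rw [RingHom.id_apply, ContinuousAlternatingMap.smul_apply,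
          ContinuousMultilinearMap.alternatization_apply_apply,
          ContinuousMultilinearMap.alternatization_apply_apply, Finset.smul_sum]
        refine Finset.sum_congr rfl fun σ _ => ?_
        rw [ContinuousMultilinearMap.smul_apply, smul_comm] }
    (q.factorial : ℝ) fun f =>
      ContinuousAlternatingMap.opNorm_le_bound _ (by positivity) fun v => g1b_alt_bound f v

private theorem g1b_alt_eq {q : ℕ} (h : Lam W q) :
    g1b_alt W q h.toContinuousMultilinearMap = (q.factorial : ℝ) • h := by
  ext v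
  show ContinuousMultilinearMap.alternatization h.toContinuousMultilinearMap v = _
  rw [ContinuousMultilinearMap.alternatization_apply_apply, ContinuousAlternatingMap.smul_apply]
  have h1 : ∀ σ ∈ (Finset.univ : Finset (Equiv.Perm (Fin q))),
      Equiv.Perm.sign σ • h.toContinuousMultilinearMap (v ∘ σ) = h v := by
    intro σ _
    have h2 : h.toContinuousMultilinearMap (v ∘ σ) = Equiv.Perm.sign σ • h v :=
      h.toAlternatingMap.map_perm v σ
    rw [h2, smul_smul, Int.units_mul_self, one_smul]
  rw [Finset.sum_congr rfl h1, Finset.sum_const, Finset.card_univ, Fintype.card_perm,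
    Fintype.card_fin, ← Nat.cast_smul_eq_nsmul ℝ]

private theorem g1b_comp {q : ℕ} {f : W → Lam W q} {g : W → W →L[ℝ] W} {z : W}
    (hf : ContDiffAt ℝ ∞ f z) (hg : ContDiffAt ℝ ∞ g z) :
    ContDiffAt ℝ ∞ (fun z => (f z).compContinuousLinearMap (g z)) z := by
  have h1 : (fun z => (f z).compContinuousLinearMap (g z)) = fun z =>
      (q.factorial : ℝ)⁻¹ • g1b_alt W q
        (ContinuousMultilinearMap.compContinuousLinearMapContinuousMultilinear ℝ
          (fun _ : Fin q => W) (fun _ : Fin q => W) ℂ (fun _ => g z)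
          (ContinuousAlternatingMap.toContinuousMultilinearMapCLM ℝ (f z))) := by
    funext z
    have h2 : ContinuousMultilinearMap.compContinuousLinearMapContinuousMultilinear ℝ
          (fun _ : Fin q => W) (fun _ : Fin q => W) ℂ (fun _ => g z)
          (ContinuousAlternatingMap.toContinuousMultilinearMapCLM ℝ (f z)) =
        ((f z).compContinuousLinearMap (g z)).toContinuousMultilinearMap := by
      ext v
      rfl
    rw [h2, g1b_alt_eq, smul_smul, inv_mul_cancel₀, one_smul]
    exact_mod_cast q.factorial_ne_zero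
  rw [h1]
  refine ContDiffAt.const_smul _ ((g1b_alt W q).contDiff.contDiffAt.comp z ?_)
  refine ContDiffAt.clm_apply ?_ ?_
  · have hM : ContDiff ℝ ∞ (fun m : Fin q → (W →L[ℝ] W) =>
        ContinuousMultilinearMap.compContinuousLinearMapContinuousMultilinear ℝ
          (fun _ : Fin q => W) (fun _ : Fin q => W) ℂ m) :=
      ContinuousMultilinearMap.contDiff (𝕜 := ℝ) (E := fun _ : Fin q => W →L[ℝ] W)
        (F := ContinuousMultilinearMap ℝ (fun _ : Fin q => W) ℂ →L[ℝ]
          ContinuousMultilinearMap ℝ (fun _ : Fin q => W) ℂ) _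
    exact hM.contDiffAt.comp z (contDiffAt_pi.2 fun _ => hg)
  · exact (ContinuousAlternatingMap.toContinuousMultilinearMapCLM ℝ).contDiff.contDiffAt.comp z hf

end

section

variable {W : Type} [NormedAddCommGroup W] [NormedSpace ℝ W]
variable {X : Type u} [TopologicalSpace X] [ChartedSpace W X] [IsManifold 𝓘(ℝ, W) ∞ X]

omit [IsManifold 𝓘(ℝ, W) ∞ X] in
private theorem g1b_rep_congr {q : ℕ} {η η' : X → Lam W q} {p : X}
    (h : ∀ᶠ y in 𝓝 p, η y = η' y) : rep p η =ᶠ[𝓝 (chartAt W p p)] rep p η' := by
  have h1 : ContinuousAt (chartAt W p).symm (chartAt W p p) :=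
    (chartAt W p).continuousAt_symm ((chartAt W p).map_source (mem_chart_source W p))
  have h2 : Filter.Tendsto (chartAt W p).symm (𝓝 (chartAt W p p)) (𝓝 p) := by
    have h3 := h1.tendsto
    rwa [(chartAt W p).left_inv (mem_chart_source W p)] at h3
  filter_upwards [h2.eventually h] with z hz
  unfold rep val
  rw [hz]

/-- JOB G1b.  Smoothness at a point does not depend on the chart. -/
theorem contDiffAt_rep_change {q : ℕ} (η : X → Lam W q) (x0 x1 p : X)
    (h0 : p ∈ (chartAt W x0).source) (h1 : p ∈ (chartAt W x1).source)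
    (h : ContDiffAt ℝ ∞ (rep x0 η) (chartAt W x0 p)) :
    ContDiffAt ℝ ∞ (rep x1 η) (chartAt W x1 p) := by
  have hz : chartAt W x1 p ∈ (chartAt W x1).target := (chartAt W x1).map_source h1
  have hz' : (chartAt W x1).symm (chartAt W x1 p) = p := (chartAt W x1).left_inv h1
  have hmem : chartAt W x1 p ∈
      (chartAt W x1).target ∩ (chartAt W x1).symm ⁻¹' (chartAt W x0).source := by
    refine ⟨hz, ?_⟩
    show (chartAt W x1).symm (chartAt W x1 p) ∈ (chartAt W x0).source
    rwa [hz']
  have hnhds := (isOpen_ovl (W := W) x1 x0).mem_nhds hmem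
  have hT : ContDiffAt ℝ ∞ (chartAt W x0 ∘ (chartAt W x1).symm) (chartAt W x1 p) :=
    (contDiffOn_transition (W := W) x1 x0).contDiffAt hnhds
  have hTz : (chartAt W x0 ∘ (chartAt W x1).symm) (chartAt W x1 p) = chartAt W x0 p := by
    show chartAt W x0 ((chartAt W x1).symm (chartAt W x1 p)) = _
    rw [hz']
  have hdT : ContDiffAt ℝ ∞ (fderiv ℝ (chartAt W x0 ∘ (chartAt W x1).symm)) (chartAt W x1 p) :=
    hT.fderiv_right (by simp)
  have hf : ContDiffAt ℝ ∞ (fun z => rep x0 η ((chartAt W x0 ∘ (chartAt W x1).symm) z))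
      (chartAt W x1 p) := by
    refine ContDiffAt.comp (chartAt W x1 p) (g := rep x0 η) ?_ hT
    rw [hTz]
    exact h
  refine (g1b_comp hf hdT).congr_of_eventuallyEq ?_
  filter_upwards [hnhds] with z hz
  exact rep_change η x0 x1 z hz.1 hz.2

/-- JOB G1b.  Criterion. -/
theorem smoothForm_iff {q : ℕ} (η : X → Lam W q) :
    SmoothForm η ↔ ∀ p : X, ContDiffAt ℝ ∞ (rep p η) (chartAt W p p) := by
  constructor
  · intro h p
    exact (h p).contDiffAt ((chartAt W p).open_target.mem_nhds
      ((chartAt W p).map_source (mem_chart_source W p)))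
  · intro h x0 z hz
    have hp : (chartAt W x0).symm z ∈ (chartAt W x0).source := (chartAt W x0).map_target hz
    have h1 := contDiffAt_rep_change η ((chartAt W x0).symm z) x0 ((chartAt W x0).symm z)
      (mem_chart_source W ((chartAt W x0).symm z)) hp (h ((chartAt W x0).symm z))
    rw [(chartAt W x0).right_inv hz] at h1
    exact h1.contDiffWithinAt

theorem SmoothForm.contDiffAt {q : ℕ} {η : X → Lam W q} (h : SmoothForm η) (x0 p : X)
    (h0 : p ∈ (chartAt W x0).source) : ContDiffAt ℝ ∞ (rep x0 η) (chartAt W x0 p) := by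
  exact (h x0).contDiffAt ((chartAt W x0).open_target.mem_nhds ((chartAt W x0).map_source h0))

/-- JOB G1b.  Locality of smoothness: `η` agrees near `p` with a smooth form. -/
theorem smoothForm_of_local {q : ℕ} (η : X → Lam W q)
    (h : ∀ p : X, ∃ η' : X → Lam W q, SmoothForm η' ∧ ∀ᶠ y in 𝓝 p, η y = η' y) : SmoothForm η := by
  rw [smoothForm_iff]
  intro p
  obtain ⟨η', h1, h2⟩ := h p
  refine (h1.contDiffAt p p (mem_chart_source W p)).congr_of_eventuallyEq ?_
  exact g1b_rep_congr h2

theorem dform_congr {q : ℕ} {η η' : X → Lam W q} {p : X} (h : ∀ᶠ y in 𝓝 p, η y = η' y) :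
    dform η p = dform η' p := by
  unfold dform
  exact (g1b_rep_congr h).extDeriv_eq

end

end FB
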