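import Pool.Agent.H.MP_fb873c_an.G1b

/-! # Part G1: calculus of forms on manifolds (preferred chart formalism) (G1c) -/

namespace FB

open scoped Topology ContDiff Manifold

universe u


section

variable {W : Type} [NormedAddCommGroup W] [NormedSpace ℝ W]
variable {X : Type u} [TopologicalSpace X] [ChartedSpace W X] [IsManifold 𝓘(ℝ, W) ∞ X]

theorem G1c_two : minSmoothness ℝ 2 ≤ (∞ : WithTop ℕ∞) := by
  rw [minSmoothness_of_isRCLikeNormedField]
  exact WithTop.coe_le_coe.2 le_top

/-- JOB G1c.  The exterior derivative in an arbitrary chart (`extDeriv_pullback` for the transition map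
from the chart at `x0` to the chart at `p`). -/
theorem rep_dform {q : ℕ} {η : X → Lam W q} (h : SmoothForm η) (x0 : X) (z : W)
    (hz : z ∈ (chartAt W x0).target) : rep x0 (dform η) z = extDeriv (rep x0 η) z := by
  obtain ⟨p, hp⟩ : ∃ p, p = (chartAt W x0).symm z := ⟨_, rfl⟩
  have hps : p ∈ (chartAt W x0).source := hp ▸ (chartAt W x0).map_target hz
  have hpz : chartAt W x0 p = z := by rw [hp, (chartAt W x0).right_inv hz]
  have hpp : p ∈ (chartAt W p).source := mem_chart_source W p
  have hzo : z ∈ (chartAt W x0).target ∩ (chartAt W x0).symm ⁻¹' (chartAt W p).source :=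
    ⟨hz, by rw [Set.mem_preimage, ← hp]; exact hpp⟩
  have hopen := isOpen_ovl (W := W) x0 p
  have hτz : (chartAt W p ∘ (chartAt W x0).symm) z = chartAt W p p := by
    rw [Function.comp_apply, ← hp]
  have hev : rep x0 η =ᶠ[𝓝 z] fun z' =>
      (rep p η ((chartAt W p ∘ (chartAt W x0).symm) z')).compContinuousLinearMap
        (fderiv ℝ (chartAt W p ∘ (chartAt W x0).symm) z') := by
    filter_upwards [hopen.mem_nhds hzo] with z' hz'
    exact rep_change η p x0 z' hz'.1 hz'.2
  rw [hev.extDeriv_eq]
  have hd : DifferentiableAt ℝ (rep p η) ((chartAt W p ∘ (chartAt W x0).symm) z) := by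
    rw [hτz]
    exact (h.contDiffAt p p hpp).differentiableAt (by simp)
  have hc : ContDiffAt ℝ ∞ (chartAt W p ∘ (chartAt W x0).symm) z :=
    (contDiffOn_transition x0 p).contDiffAt (hopen.mem_nhds hzo)
  rw [extDeriv_pullback hd hc G1c_two, hτz]
  show (dform η ((chartAt W x0).symm z)).compContinuousLinearMap
    (trd x0 ((chartAt W x0).symm z) ((chartAt W x0).symm z)) = _
  rw [← hp, dform, trd, hpz]

/-- JOB G1c. -/
theorem SmoothForm.dform {q : ℕ} {η : X → Lam W q} (h : SmoothForm η) : SmoothForm (dform η) := by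
  intro x0
  have h1 : ContDiffOn ℝ ∞ (fderiv ℝ (rep x0 η)) (chartAt W x0).target :=
    (h x0).fderiv_of_isOpen (chartAt W x0).open_target le_rfl
  have h2 := h1.continuousLinearMap_comp
    (ContinuousAlternatingMap.alternatizeUncurryFinCLM (n := q) ℝ W ℂ)
  exact h2.congr fun z hz => rep_dform h x0 z hz

/-- JOB G1c. -/
theorem dform_dform {q : ℕ} {η : X → Lam W q} (h : SmoothForm η) (p : X) :
    FB.dform (FB.dform η) p = 0 := by
  have hp : p ∈ (chartAt W p).source := mem_chart_source W p
  have ht : chartAt W p p ∈ (chartAt W p).target := (chartAt W p).map_source hp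
  have hev : rep p (FB.dform η) =ᶠ[𝓝 (chartAt W p p)] extDeriv (rep p η) := by
    filter_upwards [(chartAt W p).open_target.mem_nhds ht] with z hz
    exact rep_dform h p z hz
  rw [FB.dform, hev.extDeriv_eq]
  exact extDeriv_extDeriv_apply (h.contDiffAt p p hp) G1c_two

end

end FB
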