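import Pool.Agent.H.MP_fb873c_an.S0

/-! # Part G1: calculus of forms on manifolds (preferred chart formalism) (G1a) -/

namespace FB

open scoped Topology ContDiff Manifold

universe u


section

variable {W : Type} [NormedAddCommGroup W] [NormedSpace ℝ W]
variable {X : Type u} [TopologicalSpace X] [ChartedSpace W X] [IsManifold 𝓘(ℝ, W) ∞ X]

/-- JOB G1a.  Domain of the transition map from the chart at `x0` to the chart at `x1`. -/
theorem isOpen_ovl (x0 x1 : X) :
    IsOpen ((chartAt W x0).target ∩ (chartAt W x0).symm ⁻¹' (chartAt W x1).source) :=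
  (chartAt W x0).isOpen_inter_preimage_symm (chartAt W x1).open_source

/-- JOB G1a.  Transition maps are smooth. -/
theorem contDiffOn_transition (x0 x1 : X) :
    ContDiffOn ℝ ∞ (chartAt W x1 ∘ (chartAt W x0).symm)
      ((chartAt W x0).target ∩ (chartAt W x0).symm ⁻¹' (chartAt W x1).source) := by
  have h := StructureGroupoid.compatible (contDiffGroupoid ∞ 𝓘(ℝ, W))
    (chart_mem_atlas W x0) (chart_mem_atlas W x1)
  rw [contDiffGroupoid, mem_groupoid_of_pregroupoid] at h
  have h2 := h.1
  simpa [contDiffPregroupoid] using h2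

omit [IsManifold 𝓘(ℝ, W) ∞ X] in
private theorem g1a_mem (x0 x1 p : X) (h0 : p ∈ (chartAt W x0).source)
    (h1 : p ∈ (chartAt W x1).source) : chartAt W x0 p ∈
      (chartAt W x0).target ∩ (chartAt W x0).symm ⁻¹' (chartAt W x1).source := by
  refine ⟨(chartAt W x0).map_source h0, ?_⟩
  rw [Set.mem_preimage, (chartAt W x0).left_inv h0]
  exact h1

private theorem g1a_diff (x0 x1 p : X) (h0 : p ∈ (chartAt W x0).source)
    (h1 : p ∈ (chartAt W x1).source) :
    DifferentiableAt ℝ (chartAt W x1 ∘ (chartAt W x0).symm) (chartAt W x0 p) :=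
  ((contDiffOn_transition x0 x1).contDiffAt
    ((isOpen_ovl x0 x1).mem_nhds (g1a_mem x0 x1 p h0 h1))).differentiableAt (by simp)

theorem trd_self (x0 p : X) (hp : p ∈ (chartAt W x0).source) :
    trd (W := W) x0 x0 p = ContinuousLinearMap.id ℝ W := by
  unfold trd
  have h : (chartAt W x0 ∘ (chartAt W x0).symm) =ᶠ[𝓝 (chartAt W x0 p)] id := by
    filter_upwards [(chartAt W x0).open_target.mem_nhds ((chartAt W x0).map_source hp)] with z hz
    exact (chartAt W x0).right_inv hz
  rw [h.fderiv_eq, fderiv_id]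

/-- JOB G1a.  Cocycle property (chain rule). -/
theorem trd_comp (x0 x1 x2 p : X) (h0 : p ∈ (chartAt W x0).source)
    (h1 : p ∈ (chartAt W x1).source) (h2 : p ∈ (chartAt W x2).source) :
    (trd (W := W) x1 x2 p).comp (trd x0 x1 p) = trd x0 x2 p := by
  unfold trd
  have e1 : (chartAt W x1 ∘ (chartAt W x0).symm) (chartAt W x0 p) = chartAt W x1 p := by
    show chartAt W x1 ((chartAt W x0).symm (chartAt W x0 p)) = _
    rw [(chartAt W x0).left_inv h0]
  have h3 : DifferentiableAt ℝ (chartAt W x2 ∘ (chartAt W x1).symm)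
      ((chartAt W x1 ∘ (chartAt W x0).symm) (chartAt W x0 p)) := by
    rw [e1]
    exact g1a_diff x1 x2 p h1 h2
  have h4 := fderiv_comp (chartAt W x0 p) h3 (g1a_diff x0 x1 p h0 h1)
  rw [e1] at h4
  rw [← h4]
  apply Filter.EventuallyEq.fderiv_eq
  filter_upwards [(isOpen_ovl x0 x1).mem_nhds (g1a_mem x0 x1 p h0 h1)] with z hz
  show chartAt W x2 ((chartAt W x1).symm (chartAt W x1 ((chartAt W x0).symm z))) =
    chartAt W x2 ((chartAt W x0).symm z)
  rw [(chartAt W x1).left_inv hz.2]

/-- JOB G1a.  `p ↦ trd x0 x1 p` is continuous on the common domain. -/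
theorem continuousOn_trd (x0 x1 : X) :
    ContinuousOn (fun p : X => trd (W := W) x0 x1 p)
      ((chartAt W x0).source ∩ (chartAt W x1).source) := by
  have h1 := (contDiffOn_transition (W := W) x0 x1).continuousOn_fderiv_of_isOpen
    (isOpen_ovl x0 x1) (by simp)
  have h2 : ContinuousOn (chartAt W x0) ((chartAt W x0).source ∩ (chartAt W x1).source) :=
    (chartAt W x0).continuousOn.mono Set.inter_subset_left
  exact h1.comp h2 fun p hp => g1a_mem x0 x1 p hp.1 hp.2

theorem val_self {q : ℕ} (η : X → Lam W q) (p : X) : val p η p = η p := by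
  unfold val
  rw [trd_self p p (mem_chart_source W p)]
  ext v
  rfl

/-- Change of chart. -/
theorem val_change {q : ℕ} (η : X → Lam W q) (x0 x1 p : X) (h0 : p ∈ (chartAt W x0).source)
    (h1 : p ∈ (chartAt W x1).source) :
    val x1 η p = (val x0 η p).compContinuousLinearMap (trd x1 x0 p) := by
  unfold val
  rw [← trd_comp x1 x0 p p h1 h0 (mem_chart_source W p)]
  ext v
  rfl

omit [IsManifold 𝓘(ℝ, W) ∞ X] in
private theorem g1a_rep_chart {q : ℕ} (η : X → Lam W q) (x0 p : X)
    (h0 : p ∈ (chartAt W x0).source) : rep x0 η (chartAt W x0 p) = val x0 η p := by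
  unfold rep
  rw [(chartAt W x0).left_inv h0]

theorem rep_chart {q : ℕ} (η : X → Lam W q) (x0 p : X) (h0 : p ∈ (chartAt W x0).source) :
    rep x0 η (chartAt W x0 p) = val x0 η p :=
  g1a_rep_chart η x0 p h0

/-- Change of chart for representations. -/
theorem rep_change {q : ℕ} (η : X → Lam W q) (x0 x1 : X) (z : W)
    (hz : z ∈ (chartAt W x1).target) (hz' : (chartAt W x1).symm z ∈ (chartAt W x0).source) :
    rep x1 η z = (rep x0 η ((chartAt W x0 ∘ (chartAt W x1).symm) z)).compContinuousLinearMap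
      (fderiv ℝ (chartAt W x0 ∘ (chartAt W x1).symm) z) := by
  have h1 : (chartAt W x1).symm z ∈ (chartAt W x1).source := (chartAt W x1).map_target hz
  have h2 := val_change η x0 x1 ((chartAt W x1).symm z) hz' h1
  have h3 : rep x0 η ((chartAt W x0 ∘ (chartAt W x1).symm) z) =
      val x0 η ((chartAt W x1).symm z) := g1a_rep_chart η x0 _ hz'
  rw [h3]
  show val x1 η ((chartAt W x1).symm z) = _
  rw [h2]
  unfold trd
  rw [(chartAt W x1).right_inv hz]

end

end FB
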