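import Mathlib

/-! # Part G2b: three kinds of bounded operators on spaces of continuous functions -/

namespace FB

open scoped Topology ContDiff Manifold BoundedContinuousFunction

universe u

section

variable {X : Type u} [TopologicalSpace X] [CompactSpace X] [T2Space X]
variable {E F : Type} [NormedAddCommGroup E] [NormedSpace ℂ E] [FiniteDimensional ℂ E]
  [NormedAddCommGroup F] [NormedSpace ℂ F] [FiniteDimensional ℂ F]

theorem G2b_cont (Φ : X → E →ₗ[ℂ] F) (hΦ : ∀ e, Continuous (fun p => Φ p e)) :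
    Continuous (fun p => LinearMap.toContinuousLinearMap (Φ p)) :=
  continuous_clm_apply.2 hΦ

theorem G2b_joint (Φ : X → E →ₗ[ℂ] F) (hΦ : ∀ e, Continuous (fun p => Φ p e)) :
    Continuous (fun q : X × E => Φ q.1 q.2) :=
  ((G2b_cont Φ hΦ).comp continuous_fst).clm_apply continuous_snd

theorem G2b_bound (Φ : X → E →ₗ[ℂ] F) (hΦ : ∀ e, Continuous (fun p => Φ p e)) :
    ∃ C : ℝ, 0 ≤ C ∧ ∀ p e, ‖Φ p e‖ ≤ C * ‖e‖ := by
  obtain ⟨C, hC⟩ := isCompact_univ.exists_bound_of_continuousOn (G2b_cont Φ hΦ).continuousOn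
  refine ⟨max C 0, le_max_right _ _, fun p e => ?_⟩
  have h1 := (LinearMap.toContinuousLinearMap (Φ p)).le_opNorm e
  have h2 := hC p (Set.mem_univ _)
  calc ‖Φ p e‖ ≤ ‖LinearMap.toContinuousLinearMap (Φ p)‖ * ‖e‖ := h1
    _ ≤ max C 0 * ‖e‖ := mul_le_mul_of_nonneg_right (h2.trans (le_max_left _ _)) (norm_nonneg _)

/-- JOB G2b.  Multiplication operators.  Pointwise continuity of `p ↦ Φ p e` gives joint continuity of
`(p, e) ↦ Φ p e` and a uniform bound because `E` is finite dimensional (`continuous_clm_apply`). -/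
theorem exists_mulOp (Φ : X → E →ₗ[ℂ] F) (hΦ : ∀ e, Continuous (fun p => Φ p e)) :
    ∃ A : C(X, E) →L[ℂ] C(X, F), ∀ v p, A v p = Φ p (v p) := by
  obtain ⟨C, hC0, hC⟩ := G2b_bound Φ hΦ
  have hJ := G2b_joint Φ hΦ
  let L : C(X, E) →ₗ[ℂ] C(X, F) :=
    { toFun := fun v => ⟨fun p => Φ p (v p), hJ.comp (continuous_id.prodMk v.continuous)⟩
      map_add' := fun v w => by
        ext p
        exact map_add (Φ p) (v p) (w p)
      map_smul' := fun c v => by
        ext p
        exact map_smul (Φ p) c (v p) }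
  have hL : ∀ v p, L v p = Φ p (v p) := fun v p => rfl
  refine ⟨L.mkContinuous C fun v => ?_, fun v p => rfl⟩
  rw [ContinuousMap.norm_le _ (mul_nonneg hC0 (norm_nonneg v))]
  intro p
  rw [hL]
  exact (hC p (v p)).trans (mul_le_mul_of_nonneg_left (v.norm_coe_le_norm p) hC0)

variable {W : Type} [TopologicalSpace W]

/-- JOB G2b.  Restriction to a chart (an `OpenPartialHomeomorph` `φ`), with `Φ` supported in a compact
subset `K` of the source. -/
theorem exists_resOp (φ : OpenPartialHomeomorph X W) [T2Space W] (Φ : X → E →ₗ[ℂ] F)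
    (hΦ : ∀ e, Continuous (fun p => Φ p e)) (K : Set X) (hK : IsCompact K) (hKφ : K ⊆ φ.source)
    (h0 : ∀ p, p ∉ K → Φ p = 0) :
    ∃ A : C(X, E) →L[ℂ] (W →ᵇ F), ∀ v z,
      A v z = Set.indicator φ.target (fun z => Φ (φ.symm z) (v (φ.symm z))) z := by
  obtain ⟨C, hC0, hC⟩ := G2b_bound Φ hΦ
  have hJ := G2b_joint Φ hΦ
  have hcl : IsClosed (φ '' K) := (hK.image_of_continuousOn (φ.continuousOn.mono hKφ)).isClosed
  -- continuity
  have hcont : ∀ v : C(X, E), Continuous
      (Set.indicator φ.target (fun z => Φ (φ.symm z) (v (φ.symm z)))) := by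
    intro v
    rw [continuous_iff_continuousAt]
    intro z
    by_cases hz : z ∈ φ.target
    · have h1 : ContinuousOn (fun z => Φ (φ.symm z) (v (φ.symm z))) φ.target :=
        hJ.comp_continuousOn (φ.continuousOn_symm.prodMk
          (v.continuous.comp_continuousOn φ.continuousOn_symm))
      have h2 : φ.target ∈ 𝓝 z := φ.open_target.mem_nhds hz
      refine (h1.continuousAt h2).congr ?_
      filter_upwards [h2] with w hw
      rw [Set.indicator_of_mem hw]
    · have h2 : (φ '' K)ᶜ ∈ 𝓝 z := by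
        refine hcl.isOpen_compl.mem_nhds ?_
        rintro ⟨p, hp, rfl⟩
        exact hz (φ.map_source (hKφ hp))
      refine (continuousAt_const (y := (0 : F))).congr ?_
      filter_upwards [h2] with w hw
      by_cases hw' : w ∈ φ.target
      · rw [Set.indicator_of_mem hw']
        have h3 : φ.symm w ∉ K := fun h => hw ⟨φ.symm w, h, φ.right_inv hw'⟩
        rw [h0 _ h3, LinearMap.zero_apply]
      · rw [Set.indicator_of_notMem hw']
  have hbd : ∀ (v : C(X, E)) z,
      ‖Set.indicator φ.target (fun z => Φ (φ.symm z) (v (φ.symm z))) z‖ ≤ C * ‖v‖ := by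
    intro v z
    by_cases hz : z ∈ φ.target
    · rw [Set.indicator_of_mem hz]
      exact (hC _ _).trans (mul_le_mul_of_nonneg_left (v.norm_coe_le_norm _) hC0)
    · rw [Set.indicator_of_notMem hz, norm_zero]
      exact mul_nonneg hC0 (norm_nonneg v)
  let L : C(X, E) →ₗ[ℂ] (W →ᵇ F) :=
    { toFun := fun v => BoundedContinuousFunction.ofNormedAddCommGroup _ (hcont v) _ (hbd v)
      map_add' := fun v w => by
        ext z
        show Set.indicator φ.target (fun z => Φ (φ.symm z) ((v + w) (φ.symm z))) z =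
          Set.indicator φ.target (fun z => Φ (φ.symm z) (v (φ.symm z))) z +
          Set.indicator φ.target (fun z => Φ (φ.symm z) (w (φ.symm z))) z
        by_cases hz : z ∈ φ.target
        · rw [Set.indicator_of_mem hz, Set.indicator_of_mem hz, Set.indicator_of_mem hz]
          exact map_add (Φ _) _ _
        · rw [Set.indicator_of_notMem hz, Set.indicator_of_notMem hz, Set.indicator_of_notMem hz,
            add_zero]
      map_smul' := fun c v => by
        ext z
        show Set.indicator φ.target (fun z => Φ (φ.symm z) ((c • v) (φ.symm z))) z =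
          c • Set.indicator φ.target (fun z => Φ (φ.symm z) (v (φ.symm z))) z
        by_cases hz : z ∈ φ.target
        · rw [Set.indicator_of_mem hz, Set.indicator_of_mem hz]
          exact map_smul (Φ _) _ _
        · rw [Set.indicator_of_notMem hz, Set.indicator_of_notMem hz, smul_zero] }
  refine ⟨L.mkContinuous C fun v => ?_, fun v p => rfl⟩
  rw [BoundedContinuousFunction.norm_le (mul_nonneg hC0 (norm_nonneg v))]
  exact hbd v

/-- JOB G2b.  Extension from a chart. -/
theorem exists_extOp (φ : OpenPartialHomeomorph X W) (Φ : X → E →ₗ[ℂ] F)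
    (hΦ : ∀ e, Continuous (fun p => Φ p e)) (K : Set X) (hK : IsCompact K) (hKφ : K ⊆ φ.source)
    (h0 : ∀ p, p ∉ K → Φ p = 0) :
    ∃ A : (W →ᵇ E) →L[ℂ] C(X, F), ∀ u p, A u p = Φ p (u (φ p)) := by
  obtain ⟨C, hC0, hC⟩ := G2b_bound Φ hΦ
  have hJ := G2b_joint Φ hΦ
  have hcont : ∀ u : W →ᵇ E, Continuous (fun p => Φ p (u (φ p))) := by
    intro u
    rw [continuous_iff_continuousAt]
    intro p
    by_cases hp : p ∈ φ.source
    · have h1 : ContinuousOn (fun p => Φ p (u (φ p))) φ.source :=
        hJ.comp_continuousOn (continuousOn_id.prodMk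
          (u.continuous.comp_continuousOn φ.continuousOn))
      exact h1.continuousAt (φ.open_source.mem_nhds hp)
    · have h2 : Kᶜ ∈ 𝓝 p := hK.isClosed.isOpen_compl.mem_nhds fun h => hp (hKφ h)
      refine (continuousAt_const (y := (0 : F))).congr ?_
      filter_upwards [h2] with q hq
      rw [h0 q hq, LinearMap.zero_apply]
  let L : (W →ᵇ E) →ₗ[ℂ] C(X, F) :=
    { toFun := fun u => ⟨fun p => Φ p (u (φ p)), hcont u⟩
      map_add' := fun v w => by
        ext p
        exact map_add (Φ p) _ _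
      map_smul' := fun c v => by
        ext p
        exact map_smul (Φ p) _ _ }
  have hL : ∀ u p, L u p = Φ p (u (φ p)) := fun u p => rfl
  refine ⟨L.mkContinuous C fun u => ?_, fun u p => rfl⟩
  rw [ContinuousMap.norm_le _ (mul_nonneg hC0 (norm_nonneg u))]
  intro p
  rw [hL]
  exact (hC p _).trans (mul_le_mul_of_nonneg_left (u.norm_coe_le_norm _) hC0)

end

end FB
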