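import Pool.Agent.H.MP_fb873c_an.L0

/-! Part L5: properties of `K`, `b*`, `C_k` on smooth compactly supported forms and on bounded continuous
forms. -/

namespace FB

open MeasureTheory
open scoped Topology ContDiff BoundedContinuousFunction

section

variable {W : Type} [NormedAddCommGroup W] [InnerProductSpace ℝ W] [MeasurableSpace W]
  [BorelSpace W] [FiniteDimensional ℝ W]

/-- JOB L5a.  `Lam W q` is finite dimensional over `ℂ` (evaluation on the tuples of basis vectors is an
injective linear map to a function space). -/
theorem lam_finite (q : ℕ) : FiniteDimensional ℂ (Lam W q) := by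
  let b := Module.finBasis ℝ W
  let L : Lam W q →ₗ[ℂ] ((Fin q → Fin (Module.finrank ℝ W)) → ℂ) :=
    { toFun := fun α v => α (fun i => b (v i))
      map_add' := fun α β => rfl
      map_smul' := fun r α => rfl }
  refine Module.Finite.of_injective L ?_
  intro α β h
  apply ContinuousAlternatingMap.toAlternatingMap_injective
  apply Module.Basis.ext_alternating b
  intro v _
  exact congrFun h v

/-- Forms of degree larger than the dimension vanish. -/
theorem lam_subsingleton {q : ℕ} (hq : Module.finrank ℝ W < q) : Subsingleton (Lam W q) := by
  refine ⟨fun α β => ?_⟩
  have h : ∀ (γ : Lam W q) (v : Fin q → W), γ v = 0 := by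
    intro γ v
    have hv : ¬ LinearIndependent ℝ v := by
      intro hv
      have h1 := hv.fintype_card_le_finrank
      rw [Fintype.card_fin] at h1
      omega
    exact γ.toAlternatingMap.map_linearDependent v hv
  ext v
  rw [h, h]

end

end FB
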