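import Pool.Agent.H.MP_fb873c_an.L2b

/-! Part L5: properties of `K`, `b*`, `C_k` on smooth compactly supported forms and on bounded continuous
forms. -/

namespace FB

open MeasureTheory
open scoped Topology ContDiff BoundedContinuousFunction

section

variable {W : Type} [NormedAddCommGroup W] [InnerProductSpace ℝ W] [MeasurableSpace W]
  [BorelSpace W] [FiniteDimensional ℝ W]

private theorem l5b_clm {q q' : ℕ} (ε : ℝ) {w : ℝ × W → W} (hw : Continuous w)
    {L : ℝ × W → Lam W q →L[ℝ] Lam W q'} (hL : Continuous L)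
    (hLC : ∀ θ (c : ℂ) α, L θ (c • α) = c • L θ α) :
    ∃ A : (W →ᵇ Lam W q) →L[ℂ] (W →ᵇ Lam W q'), ∀ u x, A u x = Avg ε w L u x := by
  obtain ⟨M, hM0, hM⟩ := avg_norm_le ε hw hL
  have hb : ∀ (u : W →ᵇ Lam W q) (x : W), ‖Avg ε w L u x‖ ≤ M * ‖u‖ := fun u x =>
    hM u ‖u‖ (norm_nonneg _) (fun z => u.norm_coe_le_norm z) x
  let lin : (W →ᵇ Lam W q) →ₗ[ℂ] (W →ᵇ Lam W q') :=
    { toFun := fun u => BoundedContinuousFunction.ofNormedAddCommGroup (Avg ε w L u)
        (avg_continuous ε hw hL u.continuous) (M * ‖u‖) (hb u)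
      map_add' := by
        intro u v
        ext1 x
        exact avg_add ε hw hL u.continuous v.continuous x
      map_smul' := by
        intro c u
        ext1 x
        show Avg ε w L (fun z => c • u z) x = c • Avg ε w L u x
        unfold Avg
        rw [← integral_smul]
        simp only [hLC] }
  refine ⟨lin.mkContinuous M fun u => ?_, fun u x => rfl⟩
  exact BoundedContinuousFunction.norm_ofNormedAddCommGroup_le _
    (mul_nonneg hM0 (norm_nonneg _)) (hb u)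

private theorem l5b_ctr {q : ℕ} : Continuous (fun y : W => (ctr y : Lam W (q + 1) →L[ℝ] Lam W q)) := by
  unfold ctr
  exact ContinuousLinearMap.continuous _

/-- JOB L5b.  `K`: smooth, invariant, reach `ε`. -/
theorem kop_props (T : Ty W) {b : W → ℝ} {ε : ℝ} (hb : IsBump b ε) (q : ℕ) :
    (∀ u : W → Lam W (q + 1), ContDiff ℝ ∞ u → ContDiff ℝ ∞ (Kop T b ε u)) ∧
    (∀ u : W → Lam W (q + 1), Continuous u → (∀ x, T.pi (q + 1) (u x) = u x) →
      ∀ x, T.pi q (Kop T b ε u x) = Kop T b ε u x) ∧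
    (∀ (u u' : W → Lam W (q + 1)) (x : W), (∀ z, ‖z - x‖ ≤ ε → u z = u' z) →
      Kop T b ε u x = Kop T b ε u' x) ∧
    (∃ A : (W →ᵇ Lam W (q + 1)) →L[ℂ] (W →ᵇ Lam W q), ∀ u x, A u x = Kop T b ε u x) := by
  have hw : Continuous (fun θ : ℝ × W => θ.1 • θ.2) := continuous_fst.smul continuous_snd
  have hL : Continuous (fun θ : ℝ × W => (T.lam⁻¹ * b θ.2) •
      (ctr θ.2 : Lam W (q + 1) →L[ℝ] Lam W q)) :=
    (continuous_const.mul (hb.smooth.continuous.comp continuous_snd)).smul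
      (l5b_ctr.comp continuous_snd)
  refine ⟨fun u hu => avg_contDiff ε hw hL ⊤ hu, fun u hu hpi x => ?_, fun u u' x h => ?_,
    l5b_clm ε hw hL fun θ c α => ?_⟩
  · have h1 := avg_comp ε hw hL hu ((T.pi q).restrictScalars ℝ) x
    unfold Kop
    refine h1.trans ?_
    unfold Avg
    congr 1
    funext θ
    show T.pi q ((T.lam⁻¹ * b θ.2) • ctr θ.2 (u (x - θ.1 • θ.2))) =
      (T.lam⁻¹ * b θ.2) • ctr θ.2 (u (x - θ.1 • θ.2))
    have h2 := ((T.pi q).restrictScalars ℝ).map_smul (T.lam⁻¹ * b θ.2)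
      (ctr θ.2 (u (x - θ.1 • θ.2)))
    have h3 := T.contr q (u (x - θ.1 • θ.2)) θ.2 (hpi _)
    refine h2.trans ?_
    show (T.lam⁻¹ * b θ.2) • T.pi q (ctr θ.2 (u (x - θ.1 • θ.2))) = _
    rw [h3]
  · refine avg_congr ε (fun θ hθ => ?_) x h
    obtain ⟨h1, h2⟩ := hθ
    rw [mem_closedBall_zero_iff] at h2
    rw [norm_smul, Real.norm_eq_abs, abs_of_nonneg h1.1]
    exact (mul_le_of_le_one_left (norm_nonneg _) h1.2).trans h2
  · show (T.lam⁻¹ * b θ.2) • ctr θ.2 (c • α) = c • ((T.lam⁻¹ * b θ.2) • ctr θ.2 α)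
    have h1 : ctr θ.2 (c • α) = c • (ctr θ.2 α : Lam W q) := by
      ext v
      rfl
    rw [h1, smul_comm]

/-- JOB L5b.  General convolution operators with complex-linear kernel supported in the `ε`-ball. -/
theorem cop_props {q q' : ℕ} {k : W → Lam W q →L[ℝ] Lam W q'} (hk : Continuous k) {ε : ℝ}
    (hε : 0 < ε) (hkC : ∀ y (c : ℂ) α, k y (c • α) = c • k y α) :
    (∀ u : W → Lam W q, ContDiff ℝ ∞ u → ContDiff ℝ ∞ (Cop k ε u)) ∧
    (∀ (u u' : W → Lam W q) (x : W), (∀ z, ‖z - x‖ ≤ ε → u z = u' z) →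
      Cop k ε u x = Cop k ε u' x) ∧
    (∃ A : (W →ᵇ Lam W q) →L[ℂ] (W →ᵇ Lam W q'), ∀ u x, A u x = Cop k ε u x) := by
  have hw : Continuous (fun θ : ℝ × W => θ.2) := continuous_snd
  have hL : Continuous (fun θ : ℝ × W => k θ.2) := hk.comp continuous_snd
  refine ⟨fun u hu => avg_contDiff ε hw hL ⊤ hu, fun u u' x h => ?_,
    l5b_clm ε hw hL fun θ c α => hkC _ _ _⟩
  refine avg_congr ε (fun θ hθ => ?_) x h
  exact mem_closedBall_zero_iff.1 hθ.2

end

end FB
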