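import Pool.Agent.H.MP_fb873c_an.G2b
import Pool.Agent.H.MP_fb873c_an.G2d
import Pool.Agent.H.MP_fb873c_an.L5a
import Pool.Agent.H.MP_fb873c_an.L5b

/-! # Part G2e: the bounded operators on `V q = C(X, Fin N → Lam W q)` -/

namespace FB

open scoped Topology ContDiff Manifold BoundedContinuousFunction

universe u

section

variable {W : Type} [NormedAddCommGroup W] [InnerProductSpace ℝ W] [FiniteDimensional ℝ W]
  [MeasurableSpace W] [BorelSpace W]
variable {X : Type u} [TopologicalSpace X] [ChartedSpace W X] [IsManifold 𝓘(ℝ, W) ∞ X]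
  [CompactSpace X] [T2Space X]

/-- The Banach space `V q`. -/
abbrev VV (C : Cov W X) (q : ℕ) : Type u := C(X, Fin C.N → Lam W q)

theorem G2e_smul {ι : Type*} {q : ℕ} (r : ℝ) (e : ι → Lam W q) : ((r : ℝ) : ℂ) • e = r • e := by
  funext j
  ext v
  show ((r : ℝ) : ℂ) * e j v = r • e j v
  rw [Complex.real_smul]

omit [MeasurableSpace W] [BorelSpace W] [FiniteDimensional ℝ W] in
theorem G2e_wdg_zero (T : Ty W) {q : ℕ} : wdg T (0 : W →L[ℝ] ℝ) = (0 : Lam W q →ₗ[ℂ] _) := by
  refine LinearMap.ext fun α => ?_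
  show T.pi (q + 1) (alt ((0 : W →L[ℝ] ℝ).smulRight α)) = 0
  rw [ContinuousLinearMap.zero_smulRight]
  have h4 : alt (0 : W →L[ℝ] Lam W q) = 0 :=
    map_zero (ContinuousAlternatingMap.alternatizeUncurryFinCLM ℝ W ℂ)
  rw [h4, map_zero]

/-- JOB G2e (all existence statements: `exists_mulOp`, `exists_resOp`, `exists_extOp` with the continuity
lemmas of G2d; `lam_finite`; `K = tsupport f`, compact because `X` is compact). -/
theorem exists_eV (T : Ty W) (C : Cov W X) (q : ℕ) :
    ∃ A : VV C q →L[ℂ] VV C q, ∀ v p, A v p = eL T C p (v p) := by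
  haveI := lam_finite (W := W) q
  exact exists_mulOp (fun p => eL T C p) (continuous_eL T C)

theorem exists_mulV (C : Cov W X) (q : ℕ) (f : X → ℝ) (hf : Continuous f) :
    ∃ A : VV C q →L[ℂ] VV C q, ∀ v p, A v p = f p • v p := by
  haveI := lam_finite (W := W) q
  obtain ⟨A, hA⟩ := exists_mulOp (X := X) (E := Fin C.N → Lam W q) (F := Fin C.N → Lam W q)
    (fun p => ((f p : ℝ) : ℂ) • LinearMap.id)
    (fun e => (Complex.continuous_ofReal.comp hf).smul continuous_const)
  refine ⟨A, fun v p => ?_⟩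
  rw [hA]
  exact G2e_smul (f p) (v p)

theorem exists_Rop (T : Ty W) (C : Cov W X) (q : ℕ) (i : Fin C.N) (f : X → ℝ) (hf : Continuous f)
    (h0 : tsupport f ⊆ (chartAt W (C.c i)).source) :
    ∃ A : VV C q →L[ℂ] (W →ᵇ Lam W q), ∀ v z, A v z =
      Set.indicator (chartAt W (C.c i)).target (fun z => f ((chartAt W (C.c i)).symm z) •
        kapL T C (C.c i) ((chartAt W (C.c i)).symm z) (v ((chartAt W (C.c i)).symm z))) z := by
  haveI := lam_finite (W := W) q
  obtain ⟨A, hA⟩ := exists_resOp (chartAt W (C.c i)) (E := Fin C.N → Lam W q) (F := Lam W q)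
    (fun p => ((f p : ℝ) : ℂ) • kapL T C (C.c i) p)
    (fun e => continuous_kapL T C (C.c i) f hf h0 e) (tsupport f) (isClosed_tsupport f).isCompact h0
    (fun p hp => by
      have h1 : f p = 0 := image_eq_zero_of_notMem_tsupport hp
      rw [h1, Complex.ofReal_zero, zero_smul])
  refine ⟨A, fun v z => ?_⟩
  rw [hA]
  refine congrArg (fun g => Set.indicator (chartAt W (C.c i)).target g z) (funext fun z => ?_)
  rfl

theorem exists_Wop (T : Ty W) (C : Cov W X) (q : ℕ) (i : Fin C.N) (f : X → ℝ)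
    (hf : ContMDiff 𝓘(ℝ, W) 𝓘(ℝ, ℝ) ∞ f) (h0 : tsupport f ⊆ (chartAt W (C.c i)).source) :
    ∃ A : VV C q →L[ℂ] (W →ᵇ Lam W (q + 1)), ∀ v z, A v z =
      Set.indicator (chartAt W (C.c i)).target (fun z =>
        WL T C i f ((chartAt W (C.c i)).symm z) (v ((chartAt W (C.c i)).symm z))) z := by
  haveI := lam_finite (W := W) q
  haveI := lam_finite (W := W) (q + 1)
  exact exists_resOp (chartAt W (C.c i)) (E := Fin C.N → Lam W q) (F := Lam W (q + 1))
    (fun p => WL T C i f p) (fun e => continuous_WL T C i f hf h0 e) (tsupport f)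
    (isClosed_tsupport f).isCompact h0
    (fun p hp => by
      have h1 : dfc (W := W) (C.c i) f p = 0 := by
        unfold dfc
        rw [Set.indicator_of_notMem hp]
      show wdg T (dfc (C.c i) f p) ∘ₗ kapL T C (C.c i) p = 0
      rw [h1, G2e_wdg_zero, LinearMap.zero_comp])

theorem exists_Eop (T : Ty W) (C : Cov W X) (q : ℕ) (i : Fin C.N) (f : X → ℝ) (hf : Continuous f)
    (h0 : tsupport f ⊆ (chartAt W (C.c i)).source) :
    ∃ A : (W →ᵇ Lam W q) →L[ℂ] VV C q, ∀ u p,
      A u p = EL T C i f p (u (chartAt W (C.c i) p)) := by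
  haveI := lam_finite (W := W) q
  exact exists_extOp (chartAt W (C.c i)) (E := Lam W q) (F := Fin C.N → Lam W q)
    (fun p => EL T C i f p) (fun e => continuous_EL T C i f hf h0 e) (tsupport f)
    (isClosed_tsupport f).isCompact h0
    (fun p hp => by
      have h1 : f p = 0 := image_eq_zero_of_notMem_tsupport hp
      refine LinearMap.ext fun α => funext fun j => ?_
      show ((C.θ j p * f p : ℝ) : ℂ) • _ = (0 : Lam W q)
      rw [h1, mul_zero, Complex.ofReal_zero]
      exact zero_smul ℂ (((pbk (trd (C.c j) (C.c i) p) q) ∘ₗ (T.pi q).toLinearMap) α))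

theorem exists_WX (T : Ty W) (C : Cov W X) (q : ℕ) (f : X → ℝ)
    (hf : ContMDiff 𝓘(ℝ, W) 𝓘(ℝ, ℝ) ∞ f) :
    ∃ A : VV C q →L[ℂ] VV C (q + 1), ∀ v p, A v p = WXL T C f p (v p) := by
  haveI := lam_finite (W := W) q
  haveI := lam_finite (W := W) (q + 1)
  exact exists_mulOp (fun p => WXL T C f p) (continuous_WXL T C f hf)

/-- `ι κ` on `V q`. -/
noncomputable def eV (T : Ty W) (C : Cov W X) (q : ℕ) : VV C q →L[ℂ] VV C q :=
  (exists_eV T C q).choose

theorem eV_apply (T : Ty W) (C : Cov W X) (q : ℕ) (v : VV C q) (p : X) :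
    eV T C q v p = eL T C p (v p) := (exists_eV T C q).choose_spec v p

open Classical in
/-- Multiplication by a continuous function. -/
noncomputable def mulV (C : Cov W X) (q : ℕ) (f : X → ℝ) : VV C q →L[ℂ] VV C q :=
  if hf : Continuous f then (exists_mulV C q f hf).choose else 0

theorem mulV_apply (C : Cov W X) (q : ℕ) {f : X → ℝ} (hf : Continuous f) (v : VV C q) (p : X) :
    mulV C q f v p = f p • v p := by
  rw [mulV, dif_pos hf]; exact (exists_mulV C q f hf).choose_spec v p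

/-- Restriction of `f κ v` to the chart `i`, `f` one of the cutoffs of the chart. -/
noncomputable def Rop (T : Ty W) (C : Cov W X) (q : ℕ) (i : Fin C.N) : VV C q →L[ℂ] (W →ᵇ Lam W q) :=
  (exists_Rop T C q i (C.χ i) (C.smχ i).continuous
    ((closure_mono (fun p hp => by
      by_contra h
      have := (C.χψ i p (subset_tsupport _ hp)).self_of_nhds
      exact h (by simp [Function.mem_support, this]))).trans (C.ψs i))).choose

theorem tsupport_χ_subset (C : Cov W X) (i : Fin C.N) :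
    tsupport (C.χ i) ⊆ (chartAt W (C.c i)).source :=
  (closure_mono (fun p hp => by
      by_contra h
      have := (C.χψ i p (subset_tsupport _ hp)).self_of_nhds
      exact h (by simp [Function.mem_support, this]))).trans (C.ψs i)

theorem Rop_apply (T : Ty W) (C : Cov W X) (q : ℕ) (i : Fin C.N) (v : VV C q) (z : W) :
    Rop T C q i v z = Set.indicator (chartAt W (C.c i)).target
      (fun z => C.χ i ((chartAt W (C.c i)).symm z) •
        kapL T C (C.c i) ((chartAt W (C.c i)).symm z) (v ((chartAt W (C.c i)).symm z))) z :=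
  (exists_Rop T C q i (C.χ i) (C.smχ i).continuous (tsupport_χ_subset C i)).choose_spec v z

/-- `dχ_i ∧ κ v` in the chart `i`. -/
noncomputable def Wop (T : Ty W) (C : Cov W X) (q : ℕ) (i : Fin C.N) :
    VV C q →L[ℂ] (W →ᵇ Lam W (q + 1)) :=
  (exists_Wop T C q i (C.χ i) (C.smχ i) (tsupport_χ_subset C i)).choose

theorem Wop_apply (T : Ty W) (C : Cov W X) (q : ℕ) (i : Fin C.N) (v : VV C q) (z : W) :
    Wop T C q i v z = Set.indicator (chartAt W (C.c i)).target (fun z =>
        WL T C i (C.χ i) ((chartAt W (C.c i)).symm z) (v ((chartAt W (C.c i)).symm z))) z :=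
  (exists_Wop T C q i (C.χ i) (C.smχ i) (tsupport_χ_subset C i)).choose_spec v z

/-- Extension from the chart `i` with the cutoff `ψ_i`. -/
noncomputable def Eop (T : Ty W) (C : Cov W X) (q : ℕ) (i : Fin C.N) : (W →ᵇ Lam W q) →L[ℂ] VV C q :=
  (exists_Eop T C q i (C.ψ i) (C.smψ i).continuous (C.ψs i)).choose

theorem Eop_apply (T : Ty W) (C : Cov W X) (q : ℕ) (i : Fin C.N) (u : W →ᵇ Lam W q) (p : X) :
    Eop T C q i u p = EL T C i (C.ψ i) p (u (chartAt W (C.c i) p)) :=
  (exists_Eop T C q i (C.ψ i) (C.smψ i).continuous (C.ψs i)).choose_spec u p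

open Classical in
/-- `ι (df ∧ κ v)`. -/
noncomputable def WX (T : Ty W) (C : Cov W X) (q : ℕ) (f : X → ℝ) : VV C q →L[ℂ] VV C (q + 1) :=
  if hf : ContMDiff 𝓘(ℝ, W) 𝓘(ℝ, ℝ) ∞ f then (exists_WX T C q f hf).choose else 0

theorem WX_apply (T : Ty W) (C : Cov W X) (q : ℕ) {f : X → ℝ}
    (hf : ContMDiff 𝓘(ℝ, W) 𝓘(ℝ, ℝ) ∞ f) (v : VV C q) (p : X) :
    WX T C q f v p = WXL T C f p (v p) := by
  rw [WX, dif_pos hf]; exact (exists_WX T C q f hf).choose_spec v p

/-- The homotopy operator on bounded continuous forms. -/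
noncomputable def KB (T : Ty W) {b : W → ℝ} {ε : ℝ} (hb : IsBump b ε) (q : ℕ) :
    (W →ᵇ Lam W (q + 1)) →L[ℂ] (W →ᵇ Lam W q) := (kop_props T hb q).2.2.2.choose

theorem KB_apply (T : Ty W) {b : W → ℝ} {ε : ℝ} (hb : IsBump b ε) (q : ℕ)
    (u : W →ᵇ Lam W (q + 1)) (x : W) : KB T hb q u x = Kop T b ε u x :=
  (kop_props T hb q).2.2.2.choose_spec u x

/-- Convolution operators on bounded continuous forms. -/
noncomputable def CB {q q' : ℕ} {k : W → Lam W q →L[ℝ] Lam W q'} (hk : Continuous k) {ε : ℝ}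
    (hε : 0 < ε) (hkC : ∀ y (c : ℂ) α, k y (c • α) = c • k y α) :
    (W →ᵇ Lam W q) →L[ℂ] (W →ᵇ Lam W q') := (cop_props hk hε hkC).2.2.choose

theorem CB_apply {q q' : ℕ} {k : W → Lam W q →L[ℝ] Lam W q'} (hk : Continuous k) {ε : ℝ}
    (hε : 0 < ε) (hkC : ∀ y (c : ℂ) α, k y (c • α) = c • k y α) (u : W →ᵇ Lam W q) (x : W) :
    CB hk hε hkC u x = Cop k ε u x := (cop_props hk hε hkC).2.2.choose_spec u x

theorem bump_kernel_continuous {b : W → ℝ} {ε : ℝ} (hb : IsBump b ε) (q : ℕ) :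
    Continuous (fun y => b y • ContinuousLinearMap.id ℝ (Lam W q)) :=
  hb.smooth.continuous.smul continuous_const

theorem bump_kernel_smul {b : W → ℝ} (q : ℕ) (y : W) (c : ℂ) (α : Lam W q) :
    (b y • ContinuousLinearMap.id ℝ (Lam W q)) (c • α)
      = c • (b y • ContinuousLinearMap.id ℝ (Lam W q)) α := by
  simp only [ContinuousLinearMap.coe_smul', ContinuousLinearMap.coe_id', Pi.smul_apply, id_eq]
  exact smul_comm _ _ _

/-- Mollification on bounded continuous forms. -/
noncomputable def BB {b : W → ℝ} {ε : ℝ} (hb : IsBump b ε) (q : ℕ) :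
    (W →ᵇ Lam W q) →L[ℂ] (W →ᵇ Lam W q) :=
  CB (bump_kernel_continuous hb q) hb.pos (bump_kernel_smul q)

theorem BB_apply {b : W → ℝ} {ε : ℝ} (hb : IsBump b ε) (q : ℕ) (u : W →ᵇ Lam W q) (x : W) :
    BB hb q u x = Bop b ε u x := CB_apply _ _ _ u x

/-- The operators `Ŝ_i` and `P̂_i` on `V`. -/
noncomputable def ShI (T : Ty W) (C : Cov W X) {b : W → ℝ} {ε : ℝ} (hb : IsBump b ε) (i : Fin C.N)
    (q : ℕ) : VV C q →L[ℂ] VV C q :=
  (mulV C q (fun p => 1 - C.χ i p)).comp (eV T C q) +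
    (Eop T C q i).comp ((BB hb q).comp (Rop T C q i) + (KB T hb q).comp (Wop T C q i))

noncomputable def PhI (T : Ty W) (C : Cov W X) {b : W → ℝ} {ε : ℝ} (hb : IsBump b ε) (i : Fin C.N)
    (q : ℕ) : VV C (q + 1) →L[ℂ] VV C q :=
  (Eop T C q i).comp ((KB T hb q).comp (Rop T C (q + 1) i))

end

end FB
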