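import Pool.Agent.H.MP_fb873c_an.G2a
import Pool.Agent.H.MP_fb873c_an.G2e

/-! # Part G2f3 -/

namespace FB

open scoped Topology ContDiff Manifold BoundedContinuousFunction

universe u

section

variable {W : Type} [NormedAddCommGroup W] [InnerProductSpace ℝ W] [FiniteDimensional ℝ W]
  [MeasurableSpace W] [BorelSpace W]
variable {X : Type u} [TopologicalSpace X] [ChartedSpace W X] [IsManifold 𝓘(ℝ, W) ∞ X]
  [CompactSpace X] [T2Space X]

omit [FiniteDimensional ℝ W] [MeasurableSpace W] [BorelSpace W] in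
theorem G2f3_pi_smul (T : Ty W) {q : ℕ} (r : ℝ) (α : Lam W q) :
    T.pi q (r • α) = r • T.pi q α := by
  have h1 : ∀ β : Lam W q, r • β = (r : ℂ) • β := fun β => by
    ext v
    simp
  rw [h1 α, h1 (T.pi q α), map_smul]

omit [FiniteDimensional ℝ W] [MeasurableSpace W] [BorelSpace W] [CompactSpace X] [T2Space X] in
theorem G2f3_smooth {f : X → ℝ} (hf : ContMDiff 𝓘(ℝ, W) 𝓘(ℝ, ℝ) ∞ f) {q : ℕ}
    {η : X → Lam W q} (h : SmoothForm η) :
    SmoothForm (fun p : X => alt ((dfun p f p).smulRight (η p))) := by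
  have h1 : (fun p : X => alt ((dfun (W := W) p f p).smulRight (η p))) =
      fun p => dform (fun p => f p • η p) p + (-1 : ℂ) • (f p • dform η p) := by
    funext p
    rw [dform_fsmul hf h p]
    ext v
    simp
  rw [h1]
  exact (SmoothForm.fsmul hf h).dform.add ((SmoothForm.fsmul hf h.dform).smul (-1))

/-- JOB G2f3. -/
theorem exists_mulA (T : Ty W) (f : X → ℝ) (hf : ContMDiff 𝓘(ℝ, W) 𝓘(ℝ, ℝ) ∞ f) (q : ℕ) :
    ∃ A : SFm T X q →ₗ[ℂ] SFm T X q, ∀ η p, (A η).1 p = f p • η.1 p := by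
  refine ⟨{
    toFun := fun η => ⟨fun p => f p • η.1 p, SmoothForm.fsmul hf η.2.1, fun p => by
      rw [G2f3_pi_smul, η.2.2 p]⟩
    map_add' := fun a b => by
      apply Subtype.ext
      funext p
      exact smul_add _ _ _
    map_smul' := fun c a => by
      apply Subtype.ext
      funext p
      exact smul_comm (f p) c (a.1 p) }, fun η p => rfl⟩

theorem exists_WXA (T : Ty W) (hX : TGood T X) (f : X → ℝ) (hf : ContMDiff 𝓘(ℝ, W) 𝓘(ℝ, ℝ) ∞ f)
    (q : ℕ) :
    ∃ A : SFm T X q →ₗ[ℂ] SFm T X (q + 1), ∀ η p, (A η).1 p = wdg T (dfun p f p) (η.1 p) := by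
  refine ⟨{
    toFun := fun η => ⟨fun p => wdg T (dfun p f p) (η.1 p),
      smoothForm_pi hX (G2f3_smooth hf η.2.1), fun p => T.pi_pi _ _⟩
    map_add' := fun a b => by
      apply Subtype.ext
      funext p
      exact map_add (wdg T (dfun p f p)) _ _
    map_smul' := fun c a => by
      apply Subtype.ext
      funext p
      exact map_smul (wdg T (dfun p f p)) _ _ }, fun η p => rfl⟩

theorem exists_ioV (T : Ty W) (C : Cov W X) (q : ℕ) :
    ∃ A : SFm T X q →ₗ[ℂ] VV C q, ∀ η p, A η p = ioF C η.1 p := by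
  refine ⟨{
    toFun := fun η => ⟨ioF C η.1, continuous_ioF C η.2.1⟩
    map_add' := fun a b => by
      apply ContinuousMap.ext
      intro p
      funext i
      exact smul_add (C.θ i p) (val (C.c i) a.1 p) (val (C.c i) b.1 p)
    map_smul' := fun c a => by
      apply ContinuousMap.ext
      intro p
      funext i
      exact smul_comm (C.θ i p) c (val (C.c i) a.1 p) }, fun η p => rfl⟩

end

end FB
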