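import Pool.Agent.H.MP_fb873c_an.G2f2
import Pool.Agent.H.MP_fb873c_an.G2f3

/-! # Part G2f: the operators on smooth forms, definitions -/

namespace FB

open scoped Topology ContDiff Manifold BoundedContinuousFunction

universe u

section

variable {W : Type} [NormedAddCommGroup W] [InnerProductSpace ℝ W] [FiniteDimensional ℝ W]
  [MeasurableSpace W] [BorelSpace W]
variable {X : Type u} [TopologicalSpace X] [ChartedSpace W X] [IsManifold 𝓘(ℝ, W) ∞ X]
  [CompactSpace X] [T2Space X]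

noncomputable def incl (T : Ty W) (q : ℕ) : SW T q →ₗ[ℂ] (W →ᵇ Lam W q) := (exists_incl T q).choose
theorem incl_apply (T : Ty W) (q : ℕ) (u : SW T q) (x : W) : incl T q u x = u.1 x :=
  (exists_incl T q).choose_spec u x

noncomputable def DW (T : Ty W) (q : ℕ) : SW T q →ₗ[ℂ] SW T (q + 1) := (exists_DW T q).choose
theorem DW_apply (T : Ty W) (q : ℕ) (u : SW T q) (x : W) : (DW T q u).1 x = T.D u.1 x :=
  (exists_DW T q).choose_spec u x

noncomputable def KA (T : Ty W) {b : W → ℝ} {ε : ℝ} (hb : IsBump b ε) (q : ℕ) :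
    SW T (q + 1) →ₗ[ℂ] SW T q := (exists_KA T hb q).choose
theorem KA_apply (T : Ty W) {b : W → ℝ} {ε : ℝ} (hb : IsBump b ε) (q : ℕ) (u : SW T (q + 1))
    (x : W) : (KA T hb q u).1 x = Kop T b ε u.1 x := (exists_KA T hb q).choose_spec u x

noncomputable def BA (T : Ty W) {b : W → ℝ} {ε : ℝ} (hb : IsBump b ε) (q : ℕ) :
    SW T q →ₗ[ℂ] SW T q := (exists_BA T hb q).choose
theorem BA_apply (T : Ty W) {b : W → ℝ} {ε : ℝ} (hb : IsBump b ε) (q : ℕ) (u : SW T q)
    (x : W) : (BA T hb q u).1 x = Bop b ε u.1 x := (exists_BA T hb q).choose_spec u x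

noncomputable def RA (T : Ty W) (hX : TGood T X) (C : Cov W X) (q : ℕ) (i : Fin C.N) :
    SFm T X q →ₗ[ℂ] SW T q := (exists_RA T hX C q i).choose
theorem RA_apply (T : Ty W) (hX : TGood T X) (C : Cov W X) (q : ℕ) (i : Fin C.N) (η : SFm T X q)
    (z : W) : (RA T hX C q i η).1 z =
      Set.indicator (chartAt W (C.c i)).target (fun z => C.χ i ((chartAt W (C.c i)).symm z) •
        rep (C.c i) η.1 z) z := (exists_RA T hX C q i).choose_spec η z

noncomputable def WA (T : Ty W) (hX : TGood T X) (C : Cov W X) (q : ℕ) (i : Fin C.N) :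
    SFm T X q →ₗ[ℂ] SW T (q + 1) := (exists_WA T hX C q i).choose
theorem WA_apply (T : Ty W) (hX : TGood T X) (C : Cov W X) (q : ℕ) (i : Fin C.N) (η : SFm T X q)
    (z : W) : (WA T hX C q i η).1 z =
      Set.indicator (chartAt W (C.c i)).target (fun z =>
        wdg T (dfc (C.c i) (C.χ i) ((chartAt W (C.c i)).symm z)) (rep (C.c i) η.1 z)) z :=
  (exists_WA T hX C q i).choose_spec η z

noncomputable def EA (T : Ty W) (hX : TGood T X) (C : Cov W X) (q : ℕ) (i : Fin C.N) :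
    SW T q →ₗ[ℂ] SFm T X q := (exists_EA T hX C q i).choose
theorem EA_apply (T : Ty W) (hX : TGood T X) (C : Cov W X) (q : ℕ) (i : Fin C.N) (u : SW T q)
    (p : X) : (EA T hX C q i u).1 p =
      C.ψ i p • (u.1 (chartAt W (C.c i) p)).compContinuousLinearMap (trd p (C.c i) p) :=
  (exists_EA T hX C q i).choose_spec u p

open Classical in
noncomputable def mulA (T : Ty W) (f : X → ℝ) (q : ℕ) : SFm T X q →ₗ[ℂ] SFm T X q :=
  if hf : ContMDiff 𝓘(ℝ, W) 𝓘(ℝ, ℝ) ∞ f then (exists_mulA T f hf q).choose else 0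
theorem mulA_apply (T : Ty W) {f : X → ℝ} (hf : ContMDiff 𝓘(ℝ, W) 𝓘(ℝ, ℝ) ∞ f) (q : ℕ)
    (η : SFm T X q) (p : X) : (mulA T f q η).1 p = f p • η.1 p := by
  rw [mulA, dif_pos hf]; exact (exists_mulA T f hf q).choose_spec η p

open Classical in
noncomputable def WXA (T : Ty W) (hX : TGood T X) (f : X → ℝ) (q : ℕ) :
    SFm T X q →ₗ[ℂ] SFm T X (q + 1) :=
  if hf : ContMDiff 𝓘(ℝ, W) 𝓘(ℝ, ℝ) ∞ f then (exists_WXA T hX f hf q).choose else 0
theorem WXA_apply (T : Ty W) (hX : TGood T X) {f : X → ℝ} (hf : ContMDiff 𝓘(ℝ, W) 𝓘(ℝ, ℝ) ∞ f)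
    (q : ℕ) (η : SFm T X q) (p : X) : (WXA T hX f q η).1 p = wdg T (dfun p f p) (η.1 p) := by
  rw [WXA, dif_pos hf]; exact (exists_WXA T hX f hf q).choose_spec η p

noncomputable def ioV (T : Ty W) (C : Cov W X) (q : ℕ) : SFm T X q →ₗ[ℂ] VV C q :=
  (exists_ioV T C q).choose
theorem ioV_apply (T : Ty W) (C : Cov W X) (q : ℕ) (η : SFm T X q) (p : X) :
    ioV T C q η p = ioF C η.1 p := (exists_ioV T C q).choose_spec η p

/-- The operators `S_i` and `P_i` on smooth forms. -/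
noncomputable def SI (T : Ty W) (hX : TGood T X) (C : Cov W X) {b : W → ℝ} {ε : ℝ} (hb : IsBump b ε)
    (i : Fin C.N) (q : ℕ) : SFm T X q →ₗ[ℂ] SFm T X q :=
  mulA T (fun p => 1 - C.χ i p) q +
    (EA T hX C q i) ∘ₗ ((BA T hb q) ∘ₗ (RA T hX C q i) + (KA T hb q) ∘ₗ (WA T hX C q i))

noncomputable def PI (T : Ty W) (hX : TGood T X) (C : Cov W X) {b : W → ℝ} {ε : ℝ} (hb : IsBump b ε)
    (i : Fin C.N) (q : ℕ) : SFm T X (q + 1) →ₗ[ℂ] SFm T X q :=
  (EA T hX C q i) ∘ₗ (KA T hb q) ∘ₗ (RA T hX C (q + 1) i)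

end

end FB
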