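import Pool.Agent.H.MP_fb873c_an.L2a
import Pool.Agent.H.MP_fb873c_an.L3

/-! Part L5: properties of `K`, `b*`, `C_k` on smooth compactly supported forms and on bounded continuous
forms. -/

namespace FB

open MeasureTheory
open scoped Topology ContDiff BoundedContinuousFunction

section

variable {W : Type} [NormedAddCommGroup W] [InnerProductSpace ℝ W] [MeasurableSpace W]
  [BorelSpace W] [FiniteDimensional ℝ W]

theorem l5c_compact {b : W → ℝ} {ε : ℝ} (hb : IsBump b ε) : HasCompactSupport b := by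
  refine HasCompactSupport.intro (isCompact_closedBall (0 : W) ε) fun y hy => hb.supp y ?_
  rw [Metric.mem_closedBall, dist_zero_right, not_le] at hy
  exact hy.le

section gen

variable {F G : Type} [NormedAddCommGroup F] [NormedSpace ℝ F] [CompleteSpace F]
  [NormedAddCommGroup G] [NormedSpace ℝ G] [CompleteSpace G]

omit [CompleteSpace F] in
theorem l5c_gen_contDiff {b : W → ℝ} (hcs : HasCompactSupport b) (hb : ContDiff ℝ ∞ b)
    {u : W → F} (hu : Continuous u) : ContDiff ℝ ∞ fun x => ∫ y, b (x - y) • u y :=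
  hcs.contDiff_convolution_right (ContinuousLinearMap.lsmul ℝ ℝ (E := F)).flip
    (μ := (volume : Measure W)) hu.locallyIntegrable hb

theorem l5c_gen_fderiv {b : W → ℝ} (hcs : HasCompactSupport b) (hb : ContDiff ℝ 1 b)
    {u : W → F} (hu : Continuous u) (M : (W →L[ℝ] F) →L[ℝ] G) (x : W) :
    M (fderiv ℝ (fun x => ∫ y, b (x - y) • u y) x) =
      ∫ t, M ((fderiv ℝ b (x - t)).smulRight (u t)) := by
  have hfd : Continuous (fderiv ℝ b) := hb.continuous_fderiv one_ne_zero
  have h1 := hcs.hasFDerivAt_convolution_right (ContinuousLinearMap.lsmul ℝ ℝ (E := F)).flip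
    (μ := (volume : Measure W)) hu.locallyIntegrable hb x
  have h2 : fderiv ℝ (fun x => ∫ y, b (x - y) • u y) x =
      ∫ t, ((ContinuousLinearMap.lsmul ℝ ℝ (E := F)).flip.precompR W) (u t)
        (fderiv ℝ b (x - t)) := h1.fderiv
  have hint : Integrable (fun t => ((ContinuousLinearMap.lsmul ℝ ℝ (E := F)).flip.precompR W) (u t)
      (fderiv ℝ b (x - t))) (volume : Measure W) :=
    (hcs.fderiv ℝ).convolutionExists_right
      ((ContinuousLinearMap.lsmul ℝ ℝ (E := F)).flip.precompR W) hu.locallyIntegrable hfd x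
  rw [h2, ← ContinuousLinearMap.integral_comp_comm M hint]
  refine integral_congr_ae (Filter.Eventually.of_forall fun t => ?_)
  show M (((ContinuousLinearMap.lsmul ℝ ℝ (E := F)).flip.precompR W) (u t)
    (fderiv ℝ b (x - t))) = M ((fderiv ℝ b (x - t)).smulRight (u t))
  congr 1

end gen

/-- the derivative vanishes outside the open ball -/
theorem l5c_fderiv {b : W → ℝ} {ε : ℝ} (hb : IsBump b ε) {y : W} (hy : ε ≤ ‖y‖) :
    fderiv ℝ b y = 0 := by
  have h1 : IsLocalMin b y := by
    refine Filter.Eventually.of_forall fun z => ?_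
    rw [hb.supp y hy]
    exact hb.nonneg z
  exact h1.fderiv_eq_zero

/-- the bounded operator `pi ∘ alt` -/
noncomputable def l5cM (T : Ty W) (q : ℕ) : (W →L[ℝ] Lam W q) →L[ℝ] Lam W (q + 1) :=
  ((T.pi (q + 1)).restrictScalars ℝ).comp
    (ContinuousAlternatingMap.alternatizeUncurryFinCLM ℝ W ℂ)

omit [MeasurableSpace W] [BorelSpace W] [FiniteDimensional ℝ W] in
theorem l5cM_apply (T : Ty W) {q : ℕ} (f : W →L[ℝ] Lam W q) :
    l5cM T q f = T.pi (q + 1) (alt f) := rfl

/-- the kernel -/
noncomputable def l5cK (T : Ty W) (b : W → ℝ) (q : ℕ) (y : W) : Lam W q →L[ℝ] Lam W (q + 1) :=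
  (l5cM T q).comp (ContinuousLinearMap.smulRightL ℝ W (Lam W q) (fderiv ℝ b y))

omit [MeasurableSpace W] [BorelSpace W] [FiniteDimensional ℝ W] in
theorem l5cK_apply (T : Ty W) (b : W → ℝ) {q : ℕ} (y : W) (α : Lam W q) :
    l5cK T b q y α = T.pi (q + 1) (alt ((fderiv ℝ b y).smulRight α)) := rfl

/-- JOB L5c.  Mollification of a merely continuous function is smooth and invariant; its differential is a
convolution operator with the kernel `k'(y) α = pi (alt (Db(y) ⊗ α))`. -/
theorem bop_props (T : Ty W) {b : W → ℝ} {ε : ℝ} (hb : IsBump b ε) (q : ℕ) :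
    (∀ u : W → Lam W q, Continuous u → ContDiff ℝ ∞ (Bop b ε u)) ∧
    (∀ u : W → Lam W q, Continuous u → (∀ x, T.pi q (u x) = u x) →
      ∀ x, T.pi q (Bop b ε u x) = Bop b ε u x) ∧
    (∃ k : W → Lam W q →L[ℝ] Lam W (q + 1), Continuous k ∧ (∀ y (c : ℂ) α, k y (c • α) = c • k y α) ∧
      (∀ y, ε ≤ ‖y‖ → k y = 0) ∧
      ∀ u : W → Lam W q, Continuous u → ∀ x, T.D (Bop b ε u) x = Cop k ε u x) := by
  have hcs := l5c_compact hb
  have hb1 : ContDiff ℝ 1 b := hb.smooth.of_le (by exact_mod_cast le_top)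
  have hfd : Continuous (fderiv ℝ b) := hb1.continuous_fderiv one_ne_zero
  have hk : Continuous (l5cK T b q) := by
    have h1 : Continuous fun y => ContinuousLinearMap.smulRightL ℝ W (Lam W q) (fderiv ℝ b y) :=
      (ContinuousLinearMap.smulRightL ℝ W (Lam W q)).continuous.comp hfd
    exact (ContinuousLinearMap.compL ℝ (Lam W q) (W →L[ℝ] Lam W q) (Lam W (q + 1))
      (l5cM T q)).continuous.comp h1
  have hk0 : ∀ y, ε ≤ ‖y‖ → l5cK T b q y = 0 := by
    intro y hy
    unfold l5cK
    rw [l5c_fderiv hb hy, map_zero, ContinuousLinearMap.comp_zero]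
  have hbop : ∀ u : W → Lam W q, Continuous u →
      Bop b ε u = fun x => ∫ y, b (x - y) • u y := fun u hu => funext fun x => bop_eq hb hu x
  refine ⟨fun u hu => ?_, fun u hu hinv x => ?_, l5cK T b q, hk, fun y a α => ?_, hk0,
    fun u hu x => ?_⟩
  · rw [hbop u hu]
    exact l5c_gen_contDiff hcs hb.smooth hu
  · have hL : Continuous fun θ : ℝ × W => b θ.2 • ContinuousLinearMap.id ℝ (Lam W q) :=
      (hb.smooth.continuous.comp continuous_snd).smul continuous_const
    have h1 := avg_comp ε (w := fun θ : ℝ × W => θ.2) continuous_snd hL hu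
      ((T.pi q).restrictScalars ℝ) x
    refine h1.trans ?_
    unfold Bop Cop Avg
    refine integral_congr_ae (Filter.Eventually.of_forall fun θ => ?_)
    show T.pi q (b θ.2 • u (x - θ.2)) = b θ.2 • u (x - θ.2)
    have h2 : T.pi q (b θ.2 • u (x - θ.2)) = b θ.2 • T.pi q (u (x - θ.2)) :=
      ((T.pi q).restrictScalars ℝ).map_smul (b θ.2) (u (x - θ.2))
    rw [h2, hinv]
  · rw [l5cK_apply, l5cK_apply]
    have h1 : (fderiv ℝ b y).smulRight (a • α) = a • (fderiv ℝ b y).smulRight α := by
      ext v : 1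
      show fderiv ℝ b y v • (a • α) = a • (fderiv ℝ b y v • α)
      rw [smul_comm]
    have h2 : alt (a • (fderiv ℝ b y).smulRight α) = a • alt ((fderiv ℝ b y).smulRight α) :=
      ContinuousAlternatingMap.alternatizeUncurryFin_smul a _
    rw [h1, h2, map_smul]
  · have h2 : T.D (Bop b ε u) x = l5cM T q (fderiv ℝ (fun x => ∫ y, b (x - y) • u y) x) := by
      rw [hbop u hu]
      rfl
    rw [h2, l5c_gen_fderiv hcs hb1 hu (l5cM T q) x,
      cop_eq hk ε (fun y hy => hk0 y hy.le) hu x,
      ← integral_sub_left_eq_self (fun y => l5cK T b q y (u (x - y))) volume x]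
    refine integral_congr_ae (Filter.Eventually.of_forall fun t => ?_)
    show l5cM T q ((fderiv ℝ b (x - t)).smulRight (u t)) =
      l5cK T b q (x - t) (u (x - (x - t)))
    rw [sub_sub_cancel]
    rfl

end

end FB
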