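import Pool.Agent.H.MP_fb873c_an.G2e
import Pool.Agent.H.MP_fb873c_an.L5c

/-! # Part G2f1: operators on smooth compactly supported forms on W -/

namespace FB

open scoped Topology ContDiff Manifold BoundedContinuousFunction

universe u

section

variable {W : Type} [NormedAddCommGroup W] [InnerProductSpace ℝ W] [FiniteDimensional ℝ W]
  [MeasurableSpace W] [BorelSpace W]
variable {X : Type u} [TopologicalSpace X] [ChartedSpace W X] [IsManifold 𝓘(ℝ, W) ∞ X]
  [CompactSpace X] [T2Space X]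

/-- Smooth compactly supported invariant forms on `W`. -/
def SW (T : Ty W) (q : ℕ) : Submodule ℂ (W → Lam W q) where
  carrier := {u | ContDiff ℝ ∞ u ∧ HasCompactSupport u ∧ ∀ x, T.pi q (u x) = u x}
  add_mem' {a b} ha hb := ⟨ha.1.add hb.1, ha.2.1.add hb.2.1, fun p => by
    simp only [Pi.add_apply, map_add, ha.2.2 p, hb.2.2 p]⟩
  zero_mem' := ⟨contDiff_const, HasCompactSupport.zero, fun p => by
    simp only [Pi.zero_apply, map_zero]⟩
  smul_mem' c a ha := ⟨ha.1.const_smul c, ha.2.1.smul_left (f := fun _ => c), fun p => by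
    simp only [Pi.smul_apply, map_smul, ha.2.2 p]⟩

/-- JOB G2f (all existence statements). -/
theorem exists_incl (T : Ty W) (q : ℕ) :
    ∃ A : SW T q →ₗ[ℂ] (W →ᵇ Lam W q), ∀ u x, A u x = u.1 x := by
  refine ⟨{ toFun := fun u => BoundedContinuousFunction.ofNormedAddCommGroup u.1
              u.2.1.continuous _ (u.2.2.1.exists_bound_of_continuous u.2.1.continuous).choose_spec
            map_add' := fun u v => ?_
            map_smul' := fun c u => ?_ }, fun u x => rfl⟩
  · ext x : 1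
    rfl
  · ext x : 1
    rfl

theorem G2f1_supp {q q' : ℕ} {ε : ℝ} {P : (W → Lam W q) → W → Lam W q'}
    (hloc : ∀ (u u' : W → Lam W q) (x : W), (∀ z, ‖z - x‖ ≤ ε → u z = u' z) → P u x = P u' x)
    (h0 : ∀ x, P 0 x = 0) {u : W → Lam W q} (hu : HasCompactSupport u) :
    HasCompactSupport (P u) := by
  have hK : IsCompact (Metric.cthickening ε (tsupport u)) := IsCompact.cthickening hu
  refine HasCompactSupport.intro hK fun x hx => ?_
  rw [hloc u 0 x, h0]
  intro z hz
  refine image_eq_zero_of_notMem_tsupport fun h => hx ?_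
  exact Metric.mem_cthickening_of_dist_le x z ε _ h (by rw [dist_comm, dist_eq_norm]; exact hz)

theorem G2f1_gen (T : Ty W) {q q' : ℕ} {ε : ℝ} {P : (W → Lam W q) → W → Lam W q'}
    (h1 : ∀ u : W → Lam W q, ContDiff ℝ ∞ u → ContDiff ℝ ∞ (P u))
    (h2 : ∀ u : W → Lam W q, Continuous u → (∀ x, T.pi q (u x) = u x) →
      ∀ x, T.pi q' (P u x) = P u x)
    (h3 : ∀ (u u' : W → Lam W q) (x : W), (∀ z, ‖z - x‖ ≤ ε → u z = u' z) → P u x = P u' x)
    (B : (W →ᵇ Lam W q) →L[ℂ] (W →ᵇ Lam W q')) (hB : ∀ u x, B u x = P u x) :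
    ∃ A : SW T q →ₗ[ℂ] SW T q', ∀ u x, (A u).1 x = P u.1 x := by
  obtain ⟨I, hI⟩ := exists_incl T q
  have h0 : ∀ x, P 0 x = 0 := by
    intro x
    have h := hB 0 x
    rw [map_zero] at h
    exact h.symm
  have hP : ∀ (u : SW T q) x, P u.1 x = B (I u) x := by
    intro u x
    rw [hB]
    have e : ((I u : W →ᵇ Lam W q) : W → Lam W q) = u.1 := funext fun z => hI u z
    rw [e]
  refine ⟨{ toFun := fun u => ⟨P u.1, h1 _ u.2.1, G2f1_supp h3 h0 u.2.2.1,
              h2 _ u.2.1.continuous u.2.2.2⟩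
            map_add' := fun u v => Subtype.ext (funext fun x => ?_)
            map_smul' := fun c u => Subtype.ext (funext fun x => ?_) }, fun u x => rfl⟩
  · show P (u + v).1 x = P u.1 x + P v.1 x
    rw [hP, hP, hP, map_add, map_add]
    rfl
  · show P (c • u).1 x = c • P u.1 x
    rw [hP, hP, map_smul, map_smul]
    rfl

theorem exists_DW (T : Ty W) (q : ℕ) :
    ∃ A : SW T q →ₗ[ℂ] SW T (q + 1), ∀ u x, (A u).1 x = T.D u.1 x := by
  have hD : ∀ (u : W → Lam W q) x, T.D u x = l5cM T q (fderiv ℝ u x) := fun u x => rfl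
  refine ⟨{ toFun := fun u => ⟨T.D u.1, ?_, ?_, fun x => T.pi_pi _ _⟩
            map_add' := fun u v => Subtype.ext (funext fun x => ?_)
            map_smul' := fun c u => Subtype.ext (funext fun x => ?_) }, fun u x => rfl⟩
  · have h1 : ContDiff ℝ ∞ (fderiv ℝ u.1) := u.2.1.fderiv_right (by exact_mod_cast le_rfl)
    exact (l5cM T q).contDiff.comp h1
  · have h1 : HasCompactSupport (fderiv ℝ u.1) := u.2.2.1.fderiv ℝ
    exact h1.comp_left (g := l5cM T q) (map_zero _)
  · have hu : DifferentiableAt ℝ u.1 x := (u.2.1.differentiable (by simp)) x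
    have hv : DifferentiableAt ℝ v.1 x := (v.2.1.differentiable (by simp)) x
    show l5cM T q (fderiv ℝ (u.1 + v.1) x) = l5cM T q (fderiv ℝ u.1 x) + l5cM T q (fderiv ℝ v.1 x)
    rw [fderiv_add hu hv, map_add]
  · have hu : DifferentiableAt ℝ u.1 x := (u.2.1.differentiable (by simp)) x
    show T.pi (q + 1) (alt (fderiv ℝ (c • u.1) x)) = c • T.pi (q + 1) (alt (fderiv ℝ u.1 x))
    have h2 : alt (c • fderiv ℝ u.1 x) = c • alt (fderiv ℝ u.1 x) :=
      ContinuousAlternatingMap.alternatizeUncurryFin_smul c _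
    rw [fderiv_const_smul hu, h2, map_smul]

theorem exists_KA (T : Ty W) {b : W → ℝ} {ε : ℝ} (hb : IsBump b ε) (q : ℕ) :
    ∃ A : SW T (q + 1) →ₗ[ℂ] SW T q, ∀ u x, (A u).1 x = Kop T b ε u.1 x := by
  obtain ⟨h1, h2, h3, B, hB⟩ := kop_props T hb q
  exact G2f1_gen T h1 h2 h3 B hB

theorem exists_BA (T : Ty W) {b : W → ℝ} {ε : ℝ} (hb : IsBump b ε) (q : ℕ) :
    ∃ A : SW T q →ₗ[ℂ] SW T q, ∀ u x, (A u).1 x = Bop b ε u.1 x := by
  obtain ⟨h1, h2, -⟩ := bop_props T hb q
  exact G2f1_gen T (P := Bop b ε) (fun u hu => h1 u hu.continuous) h2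
    (cop_props (bump_kernel_continuous hb q) hb.pos (bump_kernel_smul q)).2.1 (BB hb q)
    (BB_apply hb q)

end

end FB
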