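import Pool.Agent.H.MP_fb873c_an.G2a
import Pool.Agent.H.MP_fb873c_an.G2f1

/-! # Part G2f2: restriction and extension of smooth forms -/

namespace FB

open scoped Topology ContDiff Manifold BoundedContinuousFunction

universe u

section

variable {W : Type} [NormedAddCommGroup W] [InnerProductSpace ℝ W] [FiniteDimensional ℝ W]
  [MeasurableSpace W] [BorelSpace W]
variable {X : Type u} [TopologicalSpace X] [ChartedSpace W X] [IsManifold 𝓘(ℝ, W) ∞ X]
  [CompactSpace X] [T2Space X]

private theorem g2f2_ext {E : Type} [NormedAddCommGroup E] [NormedSpace ℝ E] (x0 : X) (K : Set X)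
    (hK : IsCompact K) (hKs : K ⊆ (chartAt W x0).source) (g : W → E)
    (hg : ContDiffOn ℝ ∞ g (chartAt W x0).target)
    (h0 : ∀ z ∈ (chartAt W x0).target, (chartAt W x0).symm z ∉ K → g z = 0) :
    ContDiff ℝ ∞ (Set.indicator (chartAt W x0).target g) ∧
      HasCompactSupport (Set.indicator (chartAt W x0).target g) := by
  have hc : IsCompact (chartAt W x0 '' K) :=
    hK.image_of_continuousOn ((chartAt W x0).continuousOn.mono hKs)
  have hz : ∀ z, z ∉ chartAt W x0 '' K → Set.indicator (chartAt W x0).target g z = 0 := by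
    intro z hz
    by_cases ht : z ∈ (chartAt W x0).target
    · rw [Set.indicator_of_mem ht]
      refine h0 z ht fun h => hz ⟨_, h, (chartAt W x0).right_inv ht⟩
    · exact Set.indicator_of_notMem ht _
  refine ⟨?_, HasCompactSupport.intro hc hz⟩
  rw [contDiff_iff_contDiffAt]
  intro z
  by_cases ht : z ∈ (chartAt W x0).target
  · have h1 := (chartAt W x0).open_target.mem_nhds ht
    refine (hg.contDiffAt h1).congr_of_eventuallyEq ?_
    filter_upwards [h1] with w hw
    exact Set.indicator_of_mem hw _
  · have h1 : (chartAt W x0 '' K)ᶜ ∈ 𝓝 z := by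
      refine hc.isClosed.isOpen_compl.mem_nhds ?_
      rintro ⟨p, hp, rfl⟩
      exact ht ((chartAt W x0).map_source (hKs hp))
    refine (contDiffAt_const (c := (0 : E))).congr_of_eventuallyEq ?_
    filter_upwards [h1] with w hw
    exact hz w hw

private theorem g2f2_pi (T : Ty W) {q : ℕ} (a : ℝ) (α : Lam W q) (h : T.pi q α = α) :
    T.pi q (a • α) = a • α := by
  rw [ContinuousLinearMap.map_smul_of_tower, h]

private theorem g2f2_ind_pi (T : Ty W) {q : ℕ} (s : Set W) (g : W → Lam W q)
    (h : ∀ z ∈ s, T.pi q (g z) = g z) (z : W) :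
    T.pi q (Set.indicator s g z) = Set.indicator s g z := by
  by_cases hz : z ∈ s
  · rw [Set.indicator_of_mem hz, h z hz]
  · rw [Set.indicator_of_notMem hz, map_zero]

private theorem g2f2_dfc {f : X → ℝ} (hf : ContMDiff 𝓘(ℝ, W) 𝓘(ℝ, ℝ) ∞ f) (x0 : X) (z : W)
    (hz : z ∈ (chartAt W x0).target) :
    dfc x0 f ((chartAt W x0).symm z) = fderiv ℝ (f ∘ (chartAt W x0).symm) z := by
  unfold dfc
  by_cases h : (chartAt W x0).symm z ∈ tsupport f
  · rw [Set.indicator_of_mem h]
    unfold dfun
    rw [(chartAt W x0).right_inv hz]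
  · rw [Set.indicator_of_notMem h]
    have h1 : ∀ᶠ y in 𝓝 ((chartAt W x0).symm z), f y = 0 :=
      notMem_tsupport_iff_eventuallyEq.mp h
    have h2 : (f ∘ (chartAt W x0).symm) =ᶠ[𝓝 z] fun _ => 0 :=
      ((chartAt W x0).continuousAt_symm hz).eventually h1
    rw [h2.fderiv_eq]
    exact (fderiv_const_apply (0 : ℝ)).symm

private theorem g2f2_wdg_contDiff (T : Ty W) {q : ℕ} {ℓ : W → W →L[ℝ] ℝ} {u : W → Lam W q} {s : Set W}
    (hℓ : ContDiffOn ℝ ∞ ℓ s) (hu : ContDiffOn ℝ ∞ u s) :
    ContDiffOn ℝ ∞ (fun z => wdg T (ℓ z) (u z)) s := by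
  have h1 : ContDiffOn ℝ ∞ (fun z => (ℓ z).smulRight (u z)) s := hℓ.smulRight hu
  have h2 := h1.continuousLinearMap_comp
    (ContinuousAlternatingMap.alternatizeUncurryFinCLM (n := q) ℝ W ℂ)
  exact h2.continuousLinearMap_comp ((T.pi (q + 1)).restrictScalars ℝ)

private theorem g2f2_rep_add {q : ℕ} (x0 : X) (η η' : X → Lam W q) (z : W) :
    rep x0 (η + η') z = rep x0 η z + rep x0 η' z := by
  ext v
  rfl

private theorem g2f2_rep_smul {q : ℕ} (x0 : X) (c : ℂ) (η : X → Lam W q) (z : W) :
    rep x0 (c • η) z = c • rep x0 η z := by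
  ext v
  rfl

/-- JOB G2f2.  Smoothness: on the target the representation is smooth, and the cutoff has compact support in
the chart domain. -/
theorem exists_RA (T : Ty W) (hX : TGood T X) (C : Cov W X) (q : ℕ) (i : Fin C.N) :
    ∃ A : SFm T X q →ₗ[ℂ] SW T q, ∀ η z, (A η).1 z =
      Set.indicator (chartAt W (C.c i)).target (fun z => C.χ i ((chartAt W (C.c i)).symm z) •
        rep (C.c i) η.1 z) z := by
  have hK : IsCompact (tsupport (C.χ i)) := (isClosed_tsupport _).isCompact
  have key := fun η : SFm T X q => g2f2_ext (C.c i) (tsupport (C.χ i)) hK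
    (tsupport_χ_subset C i)
    (fun z => C.χ i ((chartAt W (C.c i)).symm z) • rep (C.c i) η.1 z)
    ((G1d_fun (C.smχ i) (C.c i)).smul (η.2.1 (C.c i)))
    (fun z _ hz => by
      have h1 : C.χ i ((chartAt W (C.c i)).symm z) = 0 := image_eq_zero_of_notMem_tsupport hz
      rw [h1]
      ext v
      exact zero_smul ℝ (rep (C.c i) η.1 z v))
  refine ⟨{ toFun := fun η => ⟨Set.indicator (chartAt W (C.c i)).target
              (fun z => C.χ i ((chartAt W (C.c i)).symm z) • rep (C.c i) η.1 z),
              (key η).1, (key η).2, g2f2_ind_pi T _ _ fun z hz => g2f2_pi T _ _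
                (pi_rep T hX q η (C.c i) z hz)⟩
            map_add' := ?_
            map_smul' := ?_ }, fun η z => rfl⟩
  · intro η η'
    apply Subtype.ext
    funext z
    show Set.indicator (chartAt W (C.c i)).target
        (fun z => C.χ i ((chartAt W (C.c i)).symm z) • rep (C.c i) (η.1 + η'.1) z) z =
      Set.indicator (chartAt W (C.c i)).target
        (fun z => C.χ i ((chartAt W (C.c i)).symm z) • rep (C.c i) (η.1) z) z +
      Set.indicator (chartAt W (C.c i)).target
        (fun z => C.χ i ((chartAt W (C.c i)).symm z) • rep (C.c i) (η'.1) z) z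
    by_cases hz : z ∈ (chartAt W (C.c i)).target
    · rw [Set.indicator_of_mem hz, Set.indicator_of_mem hz, Set.indicator_of_mem hz]
      ext v
      exact smul_add _ _ _
    · rw [Set.indicator_of_notMem hz, Set.indicator_of_notMem hz, Set.indicator_of_notMem hz,
        add_zero]
  · intro c η
    apply Subtype.ext
    funext z
    show Set.indicator (chartAt W (C.c i)).target
        (fun z => C.χ i ((chartAt W (C.c i)).symm z) • rep (C.c i) (c • η.1) z) z =
      c • Set.indicator (chartAt W (C.c i)).target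
        (fun z => C.χ i ((chartAt W (C.c i)).symm z) • rep (C.c i) (η.1) z) z
    by_cases hz : z ∈ (chartAt W (C.c i)).target
    · rw [Set.indicator_of_mem hz, Set.indicator_of_mem hz, smul_comm]
      congr 1
    · rw [Set.indicator_of_notMem hz, Set.indicator_of_notMem hz]
      ext v
      exact (mul_zero c).symm

theorem exists_WA (T : Ty W) (hX : TGood T X) (C : Cov W X) (q : ℕ) (i : Fin C.N) :
    ∃ A : SFm T X q →ₗ[ℂ] SW T (q + 1), ∀ η z, (A η).1 z =
      Set.indicator (chartAt W (C.c i)).target (fun z =>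
        wdg T (dfc (C.c i) (C.χ i) ((chartAt W (C.c i)).symm z)) (rep (C.c i) η.1 z)) z := by
  have hK : IsCompact (tsupport (C.χ i)) := (isClosed_tsupport _).isCompact
  have key := fun η : SFm T X q => g2f2_ext (C.c i) (tsupport (C.χ i)) hK
    (tsupport_χ_subset C i)
    (fun z => wdg T (dfc (C.c i) (C.χ i) ((chartAt W (C.c i)).symm z)) (rep (C.c i) η.1 z))
    ((g2f2_wdg_contDiff T ((G1d_fun (C.smχ i) (C.c i)).fderiv_of_isOpen
      (chartAt W (C.c i)).open_target le_rfl) (η.2.1 (C.c i))).congr fun z hz => by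
        rw [g2f2_dfc (C.smχ i) (C.c i) z hz])
    (fun z _ hz => by
      have h1 : dfc (C.c i) (C.χ i) ((chartAt W (C.c i)).symm z) = 0 :=
        Set.indicator_of_notMem hz (fun p => dfun (W := W) (C.c i) (C.χ i) p)
      rw [h1]
      show T.pi (q + 1) (alt ((0 : W →L[ℝ] ℝ).smulRight _)) = 0
      have h2 : (0 : W →L[ℝ] ℝ).smulRight (rep (C.c i) η.1 z) = 0 := by
        ext v
        simp
      rw [h2]
      have h3 : alt (0 : W →L[ℝ] Lam W q) = 0 :=
        map_zero (ContinuousAlternatingMap.alternatizeUncurryFinCLM (n := q) ℝ W ℂ)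
      rw [h3, map_zero])
  refine ⟨{ toFun := fun η => ⟨Set.indicator (chartAt W (C.c i)).target
              (fun z => wdg T (dfc (C.c i) (C.χ i) ((chartAt W (C.c i)).symm z))
                (rep (C.c i) η.1 z)),
              (key η).1, (key η).2, g2f2_ind_pi T _ _ fun z hz => T.pi_pi _ _⟩
            map_add' := ?_
            map_smul' := ?_ }, fun η z => rfl⟩
  · intro η η'
    apply Subtype.ext
    funext z
    show Set.indicator (chartAt W (C.c i)).target
        (fun z => wdg T (dfc (C.c i) (C.χ i) ((chartAt W (C.c i)).symm z)) (rep (C.c i) (η.1 + η'.1) z)) z =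
      Set.indicator (chartAt W (C.c i)).target
        (fun z => wdg T (dfc (C.c i) (C.χ i) ((chartAt W (C.c i)).symm z)) (rep (C.c i) (η.1) z)) z +
      Set.indicator (chartAt W (C.c i)).target
        (fun z => wdg T (dfc (C.c i) (C.χ i) ((chartAt W (C.c i)).symm z)) (rep (C.c i) (η'.1) z)) z
    by_cases hz : z ∈ (chartAt W (C.c i)).target
    · rw [Set.indicator_of_mem hz, Set.indicator_of_mem hz, Set.indicator_of_mem hz, ← map_add]
      congr 1
    · rw [Set.indicator_of_notMem hz, Set.indicator_of_notMem hz, Set.indicator_of_notMem hz,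
        add_zero]
  · intro c η
    apply Subtype.ext
    funext z
    show Set.indicator (chartAt W (C.c i)).target
        (fun z => wdg T (dfc (C.c i) (C.χ i) ((chartAt W (C.c i)).symm z)) (rep (C.c i) (c • η.1) z)) z =
      c • Set.indicator (chartAt W (C.c i)).target
        (fun z => wdg T (dfc (C.c i) (C.χ i) ((chartAt W (C.c i)).symm z)) (rep (C.c i) (η.1) z)) z
    by_cases hz : z ∈ (chartAt W (C.c i)).target
    · rw [Set.indicator_of_mem hz, Set.indicator_of_mem hz, ← map_smul]
      congr 1
    · rw [Set.indicator_of_notMem hz, Set.indicator_of_notMem hz]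
      ext v
      exact (mul_zero c).symm

theorem exists_EA (T : Ty W) (hX : TGood T X) (C : Cov W X) (q : ℕ) (i : Fin C.N) :
    ∃ A : SW T q →ₗ[ℂ] SFm T X q, ∀ u p, (A u).1 p =
      C.ψ i p • (u.1 (chartAt W (C.c i) p)).compContinuousLinearMap (trd p (C.c i) p) := by
  have key : ∀ u : SW T q, SmoothForm (fun p : X =>
      C.ψ i p • (u.1 (chartAt W (C.c i) p)).compContinuousLinearMap (trd p (C.c i) p)) := by
    intro u
    rw [smoothForm_iff]
    intro p
    by_cases hp : p ∈ (chartAt W (C.c i)).source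
    · refine contDiffAt_rep_change _ (C.c i) p p hp (mem_chart_source W p) ?_
      have hz := (chartAt W (C.c i)).map_source hp
      have h1 : ContDiffOn ℝ ∞ (fun z => (C.ψ i ∘ (chartAt W (C.c i)).symm) z • u.1 z)
          (chartAt W (C.c i)).target :=
        (G1d_fun (C.smψ i) (C.c i)).smul u.2.1.contDiffOn
      refine (h1.contDiffAt ((chartAt W (C.c i)).open_target.mem_nhds hz)).congr_of_eventuallyEq ?_
      filter_upwards [(chartAt W (C.c i)).open_target.mem_nhds hz] with z hz'
      obtain ⟨y, hy⟩ : ∃ y, y = (chartAt W (C.c i)).symm z := ⟨_, rfl⟩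
      have hys : y ∈ (chartAt W (C.c i)).source := hy ▸ (chartAt W (C.c i)).map_target hz'
      have hyz : chartAt W (C.c i) y = z := by rw [hy, (chartAt W (C.c i)).right_inv hz']
      have h2 : (trd (W := W) y (C.c i) y).comp (trd (C.c i) y y) = ContinuousLinearMap.id ℝ W := by
        rw [trd_comp (C.c i) y (C.c i) y hys (mem_chart_source W y) hys, trd_self (C.c i) y hys]
      show val (C.c i) _ ((chartAt W (C.c i)).symm z) = C.ψ i ((chartAt W (C.c i)).symm z) • u.1 z
      rw [← hy]
      unfold val
      ext v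
      have h3 : ∀ w : W, trd (W := W) y (C.c i) y (trd (C.c i) y y w) = w := fun w => by
        have := congrArg (fun L : W →L[ℝ] W => L w) h2
        exact this
      show C.ψ i y • u.1 (chartAt W (C.c i) y)
        (fun j => trd (W := W) y (C.c i) y (trd (C.c i) y y (v j))) = C.ψ i y • u.1 z v
      rw [hyz]
      congr 2
      funext j
      exact h3 (v j)
    · have h1 : ∀ᶠ y in 𝓝 p, C.ψ i y = 0 :=
        notMem_tsupport_iff_eventuallyEq.mp fun h => hp (C.ψs i h)
      have h2 : ContinuousAt (chartAt W p).symm (chartAt W p p) :=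
        (chartAt W p).continuousAt_symm ((chartAt W p).map_source (mem_chart_source W p))
      have h3 : Filter.Tendsto (chartAt W p).symm (𝓝 (chartAt W p p)) (𝓝 p) := by
        have h4 := h2.tendsto
        rwa [(chartAt W p).left_inv (mem_chart_source W p)] at h4
      refine (contDiffAt_const (c := (0 : Lam W q))).congr_of_eventuallyEq ?_
      filter_upwards [h3.eventually h1] with z hz
      ext v
      show C.ψ i ((chartAt W p).symm z) • _ = (0 : ℂ)
      rw [hz]
      exact zero_smul ℝ _
  refine ⟨{ toFun := fun u => ⟨fun p : X => C.ψ i p •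
              (u.1 (chartAt W (C.c i) p)).compContinuousLinearMap (trd p (C.c i) p), key u, ?_⟩
            map_add' := ?_
            map_smul' := ?_ }, fun η z => rfl⟩
  · intro p
    by_cases hp : p ∈ (chartAt W (C.c i)).source
    · refine g2f2_pi T _ _ ?_
      rw [T.nat q _ (hX p (C.c i) p (mem_chart_source W p) hp), u.2.2.2]
    · have h1 : C.ψ i p = 0 := image_eq_zero_of_notMem_tsupport fun h => hp (C.ψs i h)
      have h2 : C.ψ i p • (u.1 (chartAt W (C.c i) p)).compContinuousLinearMap
          (trd p (C.c i) p) = 0 := by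
        rw [h1]
        ext v
        exact zero_smul ℝ (_ : ℂ)
      show T.pi q (C.ψ i p • (u.1 (chartAt W (C.c i) p)).compContinuousLinearMap
          (trd p (C.c i) p)) = C.ψ i p • (u.1 (chartAt W (C.c i) p)).compContinuousLinearMap
          (trd p (C.c i) p)
      rw [h2, map_zero]
  · intro u u'
    apply Subtype.ext
    funext p
    ext v
    show C.ψ i p • (u.1 _ _ + u'.1 _ _) = C.ψ i p • u.1 _ _ + C.ψ i p • u'.1 _ _
    exact smul_add _ _ _
  · intro c u
    apply Subtype.ext
    funext p
    ext v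
    show C.ψ i p • (c • u.1 _ _) = c • (C.ψ i p • u.1 _ _)
    exact smul_comm _ _ _

end

end FB
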