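import Pool.Agent.H.MP_fb873c_an.G2f

/-! # Part G2h: the homotopy identities for `S_i`, `P_i` (G2h2) -/

namespace FB

open scoped Topology ContDiff Manifold BoundedContinuousFunction

universe u


section

variable {W : Type} [NormedAddCommGroup W] [InnerProductSpace ℝ W] [FiniteDimensional ℝ W]
  [MeasurableSpace W] [BorelSpace W]
variable {X : Type u} [TopologicalSpace X] [ChartedSpace W X] [IsManifold 𝓘(ℝ, W) ∞ X]
  [CompactSpace X] [T2Space X]

omit [FiniteDimensional ℝ W] [MeasurableSpace W] [BorelSpace W] in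
theorem g2h2_zero_smul {q : ℕ} (α : Lam W q) : (0 : ℝ) • α = 0 := zero_smul ℝ α

omit [FiniteDimensional ℝ W] [MeasurableSpace W] [BorelSpace W] in
theorem g2h2_zero_csmul {q : ℕ} (α : Lam W q) : (0 : ℂ) • α = 0 := zero_smul ℂ α

omit [FiniteDimensional ℝ W] [MeasurableSpace W] [BorelSpace W] in
theorem g2h2_D_congr (T : Ty W) {q : ℕ} {u u' : W → Lam W q} {z : W} (h : u =ᶠ[𝓝 z] u') :
    T.D u z = T.D u' z := by
  unfold Ty.D extDeriv
  rw [h.fderiv_eq]

omit [FiniteDimensional ℝ W] [MeasurableSpace W] [BorelSpace W] in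
theorem g2h2_D_zero (T : Ty W) {q : ℕ} {u : W → Lam W q} {z : W}
    (h : ∀ᶠ y in 𝓝 z, u y = 0) : T.D u z = 0 := by
  have h1 : T.D u z = T.D (fun _ => (0 : Lam W q)) z := g2h2_D_congr T h
  rw [h1]
  unfold Ty.D extDeriv
  rw [fderiv_fun_const]
  show T.pi (q + 1) (alt (0 : W →L[ℝ] Lam W q)) = 0
  have h2 : alt (0 : W →L[ℝ] Lam W q) = 0 :=
    map_zero (ContinuousAlternatingMap.alternatizeUncurryFinCLM ℝ W ℂ)
  rw [h2, map_zero]

/-- The differential vanishes where the form vanishes locally. -/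
theorem g2h2_Dm_zero (T : Ty W) (hX : TGood T X) {q : ℕ} (η : SFm T X q) {p : X}
    (h : ∀ᶠ y in 𝓝 p, η.1 y = 0) : (Dm T hX q η).1 p = 0 := by
  rw [Dm_apply, dform_congr (η' := fun _ => (0 : Lam W q)) h]
  have h1 : dform (fun _ : X => (0 : Lam W q)) p = 0 := by
    have h2 := dform_smul (0 : ℂ) (smoothForm_zero (X := X) (W := W) (q := q)) p
    rw [g2h2_zero_csmul, g2h2_zero_csmul] at h2
    exact h2
  rw [h1, map_zero]

/-- JOB G2h2.  `D E w = E D w` when `supp w` lies in the region `ψ_i = 1`. -/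
theorem Dm_EA (T : Ty W) (hX : TGood T X) (C : Cov W X) {q : ℕ} (i : Fin C.N) (w : SW T q)
    (hw : ∀ z ∈ tsupport w.1, z ∈ (chartAt W (C.c i)).target ∧
      ∀ᶠ y in 𝓝 ((chartAt W (C.c i)).symm z), C.ψ i y = 1) :
    Dm T hX q (EA T hX C q i w) = EA T hX C (q + 1) i (DW T q w) := by
  apply Subtype.ext
  funext p
  rw [EA_apply]
  by_cases hp : p ∈ (chartAt W (C.c i)).source
  · by_cases hpw : chartAt W (C.c i) p ∈ tsupport w.1
    · have hs : (chartAt W (C.c i)).symm (chartAt W (C.c i) p) = p :=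
        (chartAt W (C.c i)).left_inv hp
      have ht : chartAt W (C.c i) p ∈ (chartAt W (C.c i)).target :=
        (chartAt W (C.c i)).map_source hp
      have hψ : ∀ᶠ y in 𝓝 ((chartAt W (C.c i)).symm (chartAt W (C.c i) p)), C.ψ i y = 1 :=
        (hw _ hpw).2
      have h1 : rep (C.c i) (EA T hX C q i w).1 =ᶠ[𝓝 (chartAt W (C.c i) p)] w.1 := by
        filter_upwards [(chartAt W (C.c i)).open_target.mem_nhds ht,
          ((chartAt W (C.c i)).continuousAt_symm ht).tendsto.eventually hψ] with z hz hz1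
        have hzs : (chartAt W (C.c i)).symm z ∈ (chartAt W (C.c i)).source :=
          (chartAt W (C.c i)).map_target hz
        unfold rep val
        rw [EA_apply, hz1, one_smul, (chartAt W (C.c i)).right_inv hz]
        have h2 := trd_comp (W := W) (C.c i) ((chartAt W (C.c i)).symm z) (C.c i)
          ((chartAt W (C.c i)).symm z) hzs (mem_chart_source W _) hzs
        rw [trd_self (C.c i) _ hzs] at h2
        ext v
        show w.1 z (fun k => trd ((chartAt W (C.c i)).symm z) (C.c i)
          ((chartAt W (C.c i)).symm z) (trd (C.c i) ((chartAt W (C.c i)).symm z)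
            ((chartAt W (C.c i)).symm z) (v k))) = w.1 z v
        congr 1
        funext k
        exact DFunLike.congr_fun h2 (v k)
      have h3 : rep (C.c i) (Dm T hX q (EA T hX C q i w)).1 (chartAt W (C.c i) p) =
          T.D w.1 (chartAt W (C.c i) p) := by
        rw [rep_Dm T hX q _ (C.c i) _ ht]
        exact g2h2_D_congr T h1
      have h4 : (Dm T hX q (EA T hX C q i w)).1 p =
          (val (C.c i) (Dm T hX q (EA T hX C q i w)).1 p).compContinuousLinearMap
            (trd p (C.c i) p) := by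
        rw [← val_change _ (C.c i) p p hp (mem_chart_source W p), val_self]
      rw [hs] at hψ
      rw [h4, ← rep_chart _ (C.c i) p hp, h3, hψ.self_of_nhds, one_smul, DW_apply]
    · have h0 : ∀ᶠ z in 𝓝 (chartAt W (C.c i) p), w.1 z = 0 :=
        notMem_tsupport_iff_eventuallyEq.mp hpw
      have h1 : (DW T q w).1 (chartAt W (C.c i) p) = 0 := by
        rw [DW_apply]
        exact g2h2_D_zero T h0
      have h2 : ∀ᶠ y in 𝓝 p, (EA T hX C q i w).1 y = 0 := by
        have h3 := ((chartAt W (C.c i)).continuousAt hp).tendsto.eventually h0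
        filter_upwards [h3] with y hy
        rw [EA_apply, hy]
        ext v
        show C.ψ i y • (0 : ℂ) = 0
        rw [smul_zero]
      rw [g2h2_Dm_zero T hX _ h2, h1]
      ext v
      show (0 : ℂ) = C.ψ i p • (0 : ℂ)
      rw [smul_zero]
  · have h0 : p ∉ tsupport (C.ψ i) := fun h => hp (C.ψs i h)
    have h1 : ∀ᶠ y in 𝓝 p, C.ψ i y = 0 := notMem_tsupport_iff_eventuallyEq.mp h0
    have h2 : ∀ᶠ y in 𝓝 p, (EA T hX C q i w).1 y = 0 := by
      filter_upwards [h1] with y hy
      rw [EA_apply, hy, g2h2_zero_smul]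
    rw [g2h2_Dm_zero T hX _ h2, h1.self_of_nhds, g2h2_zero_smul]

end

end FB
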