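import Pool.Agent.H.MP_fb873c_an.G2h1
import Pool.Agent.H.MP_fb873c_an.G2h2

/-! # Part G2h: the homotopy identities for `S_i`, `P_i` (G2h3) -/

namespace FB

open scoped Topology ContDiff Manifold BoundedContinuousFunction

universe u


section

variable {W : Type} [NormedAddCommGroup W] [InnerProductSpace ℝ W] [FiniteDimensional ℝ W]
  [MeasurableSpace W] [BorelSpace W]
variable {X : Type u} [TopologicalSpace X] [ChartedSpace W X] [IsManifold 𝓘(ℝ, W) ∞ X]
  [CompactSpace X] [T2Space X]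

omit [CompactSpace X] [T2Space X] [FiniteDimensional ℝ W] [MeasurableSpace W] [BorelSpace W]
  [IsManifold 𝓘(ℝ, W) ∞ X] in
private theorem g2h3_source (C : Cov W X) (i : Fin C.N) :
    tsupport (C.χ i) ⊆ (chartAt W (C.c i)).source := by
  intro p hp
  apply C.ψs i
  apply subset_tsupport
  have h := (C.χψ i p hp).self_of_nhds
  rw [Function.mem_support, h]
  exact one_ne_zero

private theorem g2h3_kop_zero (T : Ty W) {b : W → ℝ} {ε : ℝ} {q : ℕ}
    (u : W → Lam W (q + 1)) (x : W) (h : ∀ z, ‖z - x‖ ≤ ε → u z = 0) : Kop T b ε u x = 0 := by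
  have h1 : Kop T b ε u x = Kop T b ε (fun _ => (0 : Lam W (q + 1))) x := by
    refine avg_congr ε ?_ x h
    rintro ⟨t, y⟩ ⟨ht, hy⟩
    rw [mem_closedBall_zero_iff] at hy
    rw [norm_smul, Real.norm_of_nonneg ht.1]
    calc t * ‖y‖ ≤ 1 * ε := mul_le_mul ht.2 hy (norm_nonneg _) zero_le_one
      _ = ε := one_mul ε
  rw [h1]
  unfold Kop Avg
  simp only [map_zero, MeasureTheory.integral_zero]

/-- the support of `K R η` is in the `ε`-neighbourhood of the image of `supp χ` -/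
private theorem g2h3_supp (T : Ty W) (hX : TGood T X) (C : Cov W X) {b : W → ℝ} {ε : ℝ}
    (hb : IsBump b ε) (i : Fin C.N) {q : ℕ} (η : SFm T X (q + 1)) :
    ∀ z ∈ tsupport (KA T hb q (RA T hX C (q + 1) i η)).1,
      ∃ p ∈ tsupport (C.χ i), ‖z - chartAt W (C.c i) p‖ ≤ ε := by
  have hcomp : IsCompact (chartAt W (C.c i) '' tsupport (C.χ i)) :=
    (isClosed_tsupport _).isCompact.image_of_continuousOn
      ((chartAt W (C.c i)).continuousOn.mono (g2h3_source C i))
  have hprop : ProperSpace W := FiniteDimensional.proper_real W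
  have hS : IsClosed {z : W | ∃ p ∈ tsupport (C.χ i), ‖z - chartAt W (C.c i) p‖ ≤ ε} := by
    have h1 : {z : W | ∃ p ∈ tsupport (C.χ i), ‖z - chartAt W (C.c i) p‖ ≤ ε} =
        (fun z : W × W => z.1 + z.2) ''
          ((chartAt W (C.c i) '' tsupport (C.χ i)) ×ˢ Metric.closedBall (0 : W) ε) := by
      ext z
      constructor
      · rintro ⟨p, hp, hz⟩
        refine ⟨(chartAt W (C.c i) p, z - chartAt W (C.c i) p), ⟨⟨p, hp, rfl⟩, ?_⟩, ?_⟩
        · rw [mem_closedBall_zero_iff]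
          exact hz
        · exact add_sub_cancel _ _
      · rintro ⟨⟨x, y⟩, ⟨⟨p, hp, rfl⟩, hy⟩, rfl⟩
        refine ⟨p, hp, ?_⟩
        rw [mem_closedBall_zero_iff] at hy
        simpa using hy
    rw [h1]
    exact ((hcomp.prod (isCompact_closedBall 0 ε)).image continuous_add).isClosed
  refine closure_minimal ?_ hS
  intro z hz
  by_contra hcon
  apply hz
  rw [KA_apply]
  apply g2h3_kop_zero T
  intro z' hz'
  by_contra hne
  apply hcon
  rw [RA_apply] at hne
  have hzt : z' ∈ (chartAt W (C.c i)).target := by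
    by_contra h
    exact hne (Set.indicator_of_notMem h _)
  rw [Set.indicator_of_mem hzt] at hne
  have hχ : C.χ i ((chartAt W (C.c i)).symm z') ≠ 0 := by
    intro h
    rw [h] at hne
    apply hne
    ext v
    show ((0 : ℝ) • _ : ℂ) = 0
    exact zero_smul ℝ _
  refine ⟨(chartAt W (C.c i)).symm z', subset_tsupport _ hχ, ?_⟩
  rw [(chartAt W (C.c i)).right_inv hzt, norm_sub_rev]
  exact hz'

private theorem g2h3_mul (T : Ty W) (C : Cov W X) (i : Fin C.N) {q : ℕ} (η : SFm T X q) :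
    mulA T (fun p => 1 - C.χ i p) q η = η - mulA T (C.χ i) q η := by
  apply Subtype.ext
  funext p
  rw [mulA_apply T (contMDiff_const.sub (C.smχ i))]
  show (1 - C.χ i p) • η.1 p = η.1 p - (mulA T (C.χ i) q η).1 p
  rw [mulA_apply T (C.smχ i)]
  have h := sub_smul (1 : ℝ) (C.χ i p) (η.1 p)
  rw [one_smul] at h
  exact h

private theorem g2h3_alg {M : Type*} [AddCommGroup M] {η m a1 a2 a3 a4 : M}
    (h : a1 + a2 = m - a3) : η - (η - m + (a3 + a4)) = a1 + (a2 - a4) := by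
  have h1 : a1 + (a2 - a4) = a1 + a2 - a4 := by abel
  rw [h1, h]
  abel

private theorem g2h3_alg0 {M : Type*} [AddCommGroup M] {η m a3 a4 : M} :
    η - (η - m + (a3 + a4)) = m - a3 - a4 := by
  abel

/-- JOB G2h3.  The homotopy identities.  With `u = RA η`:
`Dm (EA (KA u)) = EA (DW (KA u))` (`Dm_EA`; `supp (KA u)` is in the `ε`-neighbourhood of
`chart (tsupport χ)`, use `EpsC`), `PI (Dm η) = EA (KA (DW u - WA η))`, the sum is
`EA (u - BA u - KA (WA η)) = χ η - EA (BA u + KA (WA η))` by `DW_KA`, `EA_RA`. -/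
theorem SI_homotopy (T : Ty W) (hX : TGood T X) (C : Cov W X) {b : W → ℝ} {ε : ℝ} (hb : IsBump b ε)
    (i : Fin C.N) (hε : EpsC C i (C.χ i) (C.ψ i) ε) {q : ℕ} (η : SFm T X (q + 1)) :
    η - SI T hX C hb i (q + 1) η
      = Dm T hX q (PI T hX C hb i q η) + PI T hX C hb i (q + 1) (Dm T hX (q + 1) η) := by
  have h1 : Dm T hX q (PI T hX C hb i q η) =
      EA T hX C (q + 1) i (DW T q (KA T hb q (RA T hX C (q + 1) i η))) := by
    refine Dm_EA T hX C i _ ?_
    intro z hz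
    obtain ⟨p, hp, hpz⟩ := g2h3_supp T hX C hb i η z hz
    exact hε p hp z hpz
  have h2 : PI T hX C hb i (q + 1) (Dm T hX (q + 1) η) =
      EA T hX C (q + 1) i (KA T hb (q + 1) (RA T hX C (q + 1 + 1) i (Dm T hX (q + 1) η))) := rfl
  have h3 : SI T hX C hb i (q + 1) η = mulA T (fun p => 1 - C.χ i p) (q + 1) η +
      EA T hX C (q + 1) i (BA T hb (q + 1) (RA T hX C (q + 1) i η) +
        KA T hb (q + 1) (WA T hX C (q + 1) i η)) := rfl
  have h4 := congrArg (EA T hX C (q + 1) i) (DW_KA T hb (RA T hX C (q + 1) i η))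
  have e1 : EA T hX C (q + 1) i (DW T q (KA T hb q (RA T hX C (q + 1) i η)) +
      KA T hb (q + 1) (DW T (q + 1) (RA T hX C (q + 1) i η))) =
      EA T hX C (q + 1) i (DW T q (KA T hb q (RA T hX C (q + 1) i η))) +
      EA T hX C (q + 1) i (KA T hb (q + 1) (DW T (q + 1) (RA T hX C (q + 1) i η))) :=
    map_add _ _ _
  have e2 : EA T hX C (q + 1) i (RA T hX C (q + 1) i η - BA T hb (q + 1) (RA T hX C (q + 1) i η)) =
      EA T hX C (q + 1) i (RA T hX C (q + 1) i η) -
        EA T hX C (q + 1) i (BA T hb (q + 1) (RA T hX C (q + 1) i η)) :=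
    map_sub (EA T hX C (q + 1) i) (RA T hX C (q + 1) i η)
      (BA T hb (q + 1) (RA T hX C (q + 1) i η))
  have e3 : EA T hX C (q + 1) i (KA T hb (q + 1) (DW T (q + 1) (RA T hX C (q + 1) i η) -
      WA T hX C (q + 1) i η)) =
      EA T hX C (q + 1) i (KA T hb (q + 1) (DW T (q + 1) (RA T hX C (q + 1) i η))) -
        EA T hX C (q + 1) i (KA T hb (q + 1) (WA T hX C (q + 1) i η)) :=
    (congrArg (EA T hX C (q + 1) i) (map_sub (KA T hb (q + 1))
      (DW T (q + 1) (RA T hX C (q + 1) i η)) (WA T hX C (q + 1) i η))).trans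
      (map_sub (EA T hX C (q + 1) i) (KA T hb (q + 1) (DW T (q + 1) (RA T hX C (q + 1) i η)))
        (KA T hb (q + 1) (WA T hX C (q + 1) i η)))
  have e4 : EA T hX C (q + 1) i (BA T hb (q + 1) (RA T hX C (q + 1) i η) +
      KA T hb (q + 1) (WA T hX C (q + 1) i η)) =
      EA T hX C (q + 1) i (BA T hb (q + 1) (RA T hX C (q + 1) i η)) +
        EA T hX C (q + 1) i (KA T hb (q + 1) (WA T hX C (q + 1) i η)) := map_add _ _ _
  rw [e1, e2, EA_RA] at h4
  rw [h1, h2, RA_Dm, h3, g2h3_mul, e3, e4]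
  generalize EA T hX C (q + 1) i (DW T q (KA T hb q (RA T hX C (q + 1) i η))) = a1 at *
  generalize EA T hX C (q + 1) i (KA T hb (q + 1) (DW T (q + 1) (RA T hX C (q + 1) i η))) = a2 at *
  generalize EA T hX C (q + 1) i (BA T hb (q + 1) (RA T hX C (q + 1) i η)) = a3 at *
  generalize EA T hX C (q + 1) i (KA T hb (q + 1) (WA T hX C (q + 1) i η)) = a4 at *
  exact g2h3_alg (M := SFm T X (q + 1)) h4

theorem SI_homotopy_zero (T : Ty W) (hX : TGood T X) (C : Cov W X) {b : W → ℝ} {ε : ℝ}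
    (hb : IsBump b ε) (i : Fin C.N) (η : SFm T X 0) :
    η - SI T hX C hb i 0 η = PI T hX C hb i 0 (Dm T hX 0 η) := by
  have h2 : PI T hX C hb i 0 (Dm T hX 0 η) =
      EA T hX C 0 i (KA T hb 0 (RA T hX C (0 + 1) i (Dm T hX 0 η))) := rfl
  have h3 : SI T hX C hb i 0 η = mulA T (fun p => 1 - C.χ i p) 0 η +
      EA T hX C 0 i (BA T hb 0 (RA T hX C 0 i η) + KA T hb 0 (WA T hX C 0 i η)) := rfl
  have h4 := congrArg (EA T hX C 0 i) (KA_DW T hb (RA T hX C 0 i η))
  have e2 : EA T hX C 0 i (RA T hX C 0 i η - BA T hb 0 (RA T hX C 0 i η)) =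
      EA T hX C 0 i (RA T hX C 0 i η) -
        EA T hX C 0 i (BA T hb 0 (RA T hX C 0 i η)) :=
    map_sub (EA T hX C 0 i) (RA T hX C 0 i η) (BA T hb 0 (RA T hX C 0 i η))
  have e3 : EA T hX C 0 i (KA T hb 0 (DW T 0 (RA T hX C 0 i η) - WA T hX C 0 i η)) =
      EA T hX C 0 i (KA T hb 0 (DW T 0 (RA T hX C 0 i η))) -
        EA T hX C 0 i (KA T hb 0 (WA T hX C 0 i η)) :=
    (congrArg (EA T hX C 0 i) (map_sub (KA T hb 0) (DW T 0 (RA T hX C 0 i η))
      (WA T hX C 0 i η))).trans (map_sub (EA T hX C 0 i) (KA T hb 0 (DW T 0 (RA T hX C 0 i η)))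
        (KA T hb 0 (WA T hX C 0 i η)))
  have e4 : EA T hX C 0 i (BA T hb 0 (RA T hX C 0 i η) + KA T hb 0 (WA T hX C 0 i η)) =
      EA T hX C 0 i (BA T hb 0 (RA T hX C 0 i η)) +
        EA T hX C 0 i (KA T hb 0 (WA T hX C 0 i η)) := map_add _ _ _
  rw [e2, EA_RA] at h4
  rw [h2, RA_Dm, h3, g2h3_mul, e3, e4, h4]
  exact g2h3_alg0 (M := SFm T X 0)

end

end FB
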