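import Pool.Agent.H.MP_fb873c_an.L2a

/-! Part L2: averaging operators. -/

namespace FB

open MeasureTheory
open scoped Topology ContDiff

section

variable {W : Type} [NormedAddCommGroup W] [InnerProductSpace ℝ W] [MeasurableSpace W]
  [BorelSpace W] [FiniteDimensional ℝ W]
variable {E F G : Type} [NormedAddCommGroup E] [NormedSpace ℝ E]
    [NormedAddCommGroup F] [NormedSpace ℝ F] [CompleteSpace F]
    [NormedAddCommGroup G] [NormedSpace ℝ G] [CompleteSpace G]

private theorem dom_compact (W : Type) [NormedAddCommGroup W] [InnerProductSpace ℝ W]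
    [MeasurableSpace W] [BorelSpace W] [FiniteDimensional ℝ W] (ε : ℝ) :
    IsCompact (Dom W ε) := by
  have h1 : ProperSpace W := FiniteDimensional.proper_real W
  exact isCompact_Icc.prod (isCompact_closedBall (0 : W) ε)

/-- JOB L2b.  Differentiation under the integral
(`hasFDerivAt_integral_of_dominated_of_fderiv_le`; bounds on a compact neighbourhood). -/
theorem avg_hasFDerivAt (ε : ℝ) {w : ℝ × W → W} (hw : Continuous w) {L : ℝ × W → E →L[ℝ] F}
    (hL : Continuous L) {u : W → E} (hu : ContDiff ℝ 1 u) (x : W) :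
    HasFDerivAt (Avg ε w L u)
      (Avg ε w (fun θ => ContinuousLinearMap.compL ℝ W E F (L θ)) (fderiv ℝ u) x) x := by
  have hprop : ProperSpace W := FiniteDimensional.proper_real W
  have hcd := dom_compact W ε
  have hmeas : MeasurableSet (Dom W ε) := hcd.isClosed.measurableSet
  have hud : Continuous (fderiv ℝ u) := hu.continuous_fderiv one_ne_zero
  have hdiff : Differentiable ℝ u := hu.differentiable one_ne_zero
  -- joint continuity of the derivative
  have hF' : Continuous (fun q : W × (ℝ × W) =>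
      ContinuousLinearMap.compL ℝ W E F (L q.2) (fderiv ℝ u (q.1 - w q.2))) := by
    have h1 : Continuous (fun q : W × (ℝ × W) => L q.2) := hL.comp continuous_snd
    have h2 : Continuous (fun q : W × (ℝ × W) => fderiv ℝ u (q.1 - w q.2)) :=
      hud.comp (continuous_fst.sub (hw.comp continuous_snd))
    exact (((ContinuousLinearMap.compL ℝ W E F).continuous.comp h1).clm_apply h2)
  obtain ⟨C, hC⟩ := ((isCompact_closedBall x 1).prod hcd).exists_bound_of_continuousOn
    hF'.continuousOn
  have hkey := hasFDerivAt_integral_of_dominated_of_fderiv_le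
    (μ := volume.restrict (Dom W ε)) (𝕜 := ℝ) (s := Metric.closedBall x 1) (x₀ := x)
    (F := fun y θ => L θ (u (y - w θ)))
    (F' := fun y θ => ContinuousLinearMap.compL ℝ W E F (L θ) (fderiv ℝ u (y - w θ)))
    (bound := fun _ => C)
    (Metric.closedBall_mem_nhds x one_pos)
    (Filter.Eventually.of_forall (fun y =>
      (avg_integrable ε hw hL hu.continuous y).aestronglyMeasurable))
    (avg_integrable ε hw hL hu.continuous x)
    ?_ ?_ ?_ ?_
  · exact hkey
  · have h1 : Continuous (fun θ : ℝ × W =>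
        ContinuousLinearMap.compL ℝ W E F (L θ) (fderiv ℝ u (x - w θ))) :=
      hF'.comp (continuous_const.prodMk continuous_id)
    exact h1.continuousOn.aestronglyMeasurable_of_isCompact hcd hmeas
  · refine (ae_restrict_iff' hmeas).2 (Filter.Eventually.of_forall ?_)
    intro θ hθ y hy
    exact hC (y, θ) ⟨hy, hθ⟩
  · exact integrableOn_const hcd.measure_lt_top.ne
  · refine Filter.Eventually.of_forall ?_
    intro θ y _
    have h1 : HasFDerivAt (fun z : W => z - w θ) (ContinuousLinearMap.id ℝ W) y :=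
      (hasFDerivAt_id y).sub_const (w θ)
    have h2 : HasFDerivAt u (fderiv ℝ u (y - w θ)) (y - w θ) := (hdiff _).hasFDerivAt
    have h3 := (L θ).hasFDerivAt.comp y (h2.comp y h1)
    have h4 : ContinuousLinearMap.compL ℝ W E F (L θ) (fderiv ℝ u (y - w θ))
        = (L θ).comp ((fderiv ℝ u (y - w θ)).comp (ContinuousLinearMap.id ℝ W)) := by
      ext z; simp
    rw [h4]
    exact h3

private theorem avg_contDiff_nat (ε : ℝ) {w : ℝ × W → W} (hw : Continuous w) (n : ℕ) :
    ∀ (E F : Type) [NormedAddCommGroup E] [NormedSpace ℝ E]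
      [NormedAddCommGroup F] [NormedSpace ℝ F] [CompleteSpace F] (L : ℝ × W → E →L[ℝ] F)
      (_ : Continuous L) (u : W → E) (_ : ContDiff ℝ n u),
      ContDiff ℝ n (Avg ε w L u) := by
  induction n with
  | zero =>
    intro E F _ _ _ _ _ L hL u hu
    have hu' : Continuous u := hu.continuous
    exact contDiff_zero.2 (avg_continuous ε hw hL hu')
  | succ n ih =>
    intro E F _ _ _ _ _ L hL u hu
    have hn1 : ((n + 1 : ℕ) : WithTop ℕ∞) = (n : WithTop ℕ∞) + 1 := by push_cast; rfl
    rw [hn1] at hu ⊢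
    have hu1 : ContDiff ℝ 1 u := hu.of_le (by
      have : (0 : WithTop ℕ∞) ≤ (n : WithTop ℕ∞) := bot_le
      calc (1 : WithTop ℕ∞) = 0 + 1 := (zero_add 1).symm
        _ ≤ (n : WithTop ℕ∞) + 1 := by gcongr)
    have hu2 : ContDiff ℝ n (fderiv ℝ u) := (contDiff_succ_iff_fderiv.1 hu).2.2
    have hd : ∀ x, HasFDerivAt (Avg ε w L u)
        (Avg ε w (fun θ => ContinuousLinearMap.compL ℝ W E F (L θ)) (fderiv ℝ u) x) x :=
      fun x => avg_hasFDerivAt ε hw hL hu1 x
    have hfd : fderiv ℝ (Avg ε w L u)
        = Avg ε w (fun θ => ContinuousLinearMap.compL ℝ W E F (L θ)) (fderiv ℝ u) := by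
      funext x
      exact (hd x).fderiv
    refine contDiff_succ_iff_fderiv.2 ⟨fun x => (hd x).differentiableAt, ?_, ?_⟩
    · intro h
      exact absurd h (by simp)
    · rw [hfd]
      exact ih (W →L[ℝ] E) (W →L[ℝ] F) _
        ((ContinuousLinearMap.compL ℝ W E F).continuous.comp hL) _ hu2

/-- JOB L2b.  Smoothness, by induction on the order (for all `E F` in `Type`). -/
theorem avg_contDiff (ε : ℝ) {w : ℝ × W → W} (hw : Continuous w) {L : ℝ × W → E →L[ℝ] F}
    (hL : Continuous L) {u : W → E} (n : ℕ∞) (hu : ContDiff ℝ n u) :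
    ContDiff ℝ n (Avg ε w L u) := by
  rw [contDiff_iff_forall_nat_le]
  intro m hm
  have hu' : ContDiff ℝ m u := (contDiff_iff_forall_nat_le.1 hu) m hm
  exact avg_contDiff_nat ε hw m E F L hL u hu'

end

end FB
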