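import Pool.Agent.H.MP_fb873c_an.L3

/-! Part L4: the local homotopy identity. -/

namespace FB

open MeasureTheory
open scoped Topology ContDiff

section

variable {W : Type} [NormedAddCommGroup W] [InnerProductSpace ℝ W] [MeasurableSpace W]
  [BorelSpace W] [FiniteDimensional ℝ W]
variable {E : Type} [NormedAddCommGroup E] [NormedSpace ℝ E] [CompleteSpace E]

omit [MeasurableSpace W] [BorelSpace W] in
theorem isCompact_dom (ε : ℝ) : IsCompact (Dom W ε) :=
  isCompact_Icc.prod (isCompact_closedBall 0 ε)

omit [MeasurableSpace W] [BorelSpace W] [FiniteDimensional ℝ W] [CompleteSpace E] in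
theorem continuous_radial {b : W → ℝ} (hb : Continuous b) {u : W → E}
    (hu : ContDiff ℝ 1 u) (x : W) :
    Continuous fun θ : ℝ × W => b θ.2 • (fderiv ℝ u (x - θ.1 • θ.2) θ.2) := by
  have h1 : Continuous (fderiv ℝ u) := hu.continuous_fderiv one_ne_zero
  fun_prop

/-- JOB L4a.  Integration of the radial part: for `C^1` functions `u`,
`∫_{t∈[0,1]} ∫ b(y) Du(x-ty)(y) dy dt = ∫ b(y) (u(x) - u(x-y)) dy = u(x) - (b*u)(x)`
(Fubini, fundamental theorem of calculus for `t ↦ - u(x - t y)`). -/
theorem radial_part {b : W → ℝ} {ε : ℝ} (hb : IsBump b ε) {u : W → E} (hu : ContDiff ℝ 1 u)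
    (x : W) :
    ∫ θ in Dom W ε, b θ.2 • (fderiv ℝ u (x - θ.1 • θ.2) θ.2) = u x - ∫ y, b y • u (x - y) := by
  have hbc : Continuous b := hb.smooth.continuous
  have hcont := continuous_radial hbc hu x
  have hint : IntegrableOn (fun θ : ℝ × W => b θ.2 • (fderiv ℝ u (x - θ.1 • θ.2) θ.2))
      (Set.Icc (0 : ℝ) 1 ×ˢ Metric.closedBall (0 : W) ε) (volume.prod volume) :=
    hcont.continuousOn.integrableOn_compact (isCompact_dom ε)
  have h1 : ∫ θ in Dom W ε, b θ.2 • (fderiv ℝ u (x - θ.1 • θ.2) θ.2) =
      ∫ t in Set.Icc (0 : ℝ) 1, ∫ y in Metric.closedBall (0 : W) ε,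
        b y • (fderiv ℝ u (x - t • y) y) :=
    setIntegral_prod _ hint
  have hint2 : Integrable (Function.uncurry fun (t : ℝ) (y : W) =>
      b y • (fderiv ℝ u (x - t • y) y))
      ((volume.restrict (Set.Icc (0 : ℝ) 1)).prod
        (volume.restrict (Metric.closedBall (0 : W) ε))) := by
    rw [Measure.prod_restrict]
    exact hint
  rw [h1, integral_integral_swap hint2]
  have h2 : ∀ y : W, ∫ t in Set.Icc (0 : ℝ) 1, b y • (fderiv ℝ u (x - t • y) y) =
      b y • u x - b y • u (x - y) := by
    intro y
    rw [integral_smul, integral_Icc_eq_integral_Ioc, ← intervalIntegral.integral_of_le zero_le_one]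
    have h3 : ∀ t : ℝ, HasDerivAt (fun t : ℝ => -u (x - t • y)) (fderiv ℝ u (x - t • y) y) t := by
      intro t
      have h4 : HasDerivAt (fun t : ℝ => x - t • y) (-y) t := by
        have h5 := ((hasDerivAt_id t).smul_const y).const_sub x
        simpa using h5
      have h6 : HasFDerivAt u (fderiv ℝ u (x - t • y)) (x - t • y) :=
        (hu.differentiable one_ne_zero _).hasFDerivAt
      have h7 : HasDerivAt (fun t : ℝ => -u (x - t • y)) (-(fderiv ℝ u (x - t • y) (-y))) t :=
        (h6.comp_hasDerivAt t h4).neg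
      rwa [map_neg, neg_neg] at h7
    have hc : Continuous fun t : ℝ => fderiv ℝ u (x - t • y) y := by
      have h1 : Continuous (fderiv ℝ u) := hu.continuous_fderiv one_ne_zero
      fun_prop
    rw [intervalIntegral.integral_eq_sub_of_hasDerivAt (fun t _ => h3 t)
      (hc.intervalIntegrable 0 1)]
    simp only [one_smul, zero_smul, sub_zero]
    rw [← smul_sub]
    congr 1
    abel
  rw [setIntegral_congr_fun measurableSet_closedBall (fun y _ => h2 y)]
  have hc1 : IntegrableOn (fun y => b y • u x) (Metric.closedBall (0 : W) ε) :=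
    (hbc.smul continuous_const).continuousOn.integrableOn_compact (isCompact_closedBall 0 ε)
  have hc2 : IntegrableOn (fun y => b y • u (x - y)) (Metric.closedBall (0 : W) ε) :=
    (hbc.smul (hu.continuous.comp (continuous_const.sub continuous_id))).continuousOn.integrableOn_compact
      (isCompact_closedBall 0 ε)
  rw [integral_sub hc1 hc2, integral_smul_const, hb.setIntegral, one_smul]
  congr 1
  apply setIntegral_eq_integral_of_forall_compl_eq_zero
  intro y hy
  rw [Metric.mem_closedBall, dist_zero_right, not_le] at hy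
  rw [hb.supp y hy.le, zero_smul]

end

end FB
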