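import Pool.Agent.H.MP_fb873c_an.L0

/-! Part L4: the local homotopy identity. -/

namespace FB

open MeasureTheory
open scoped Topology ContDiff

section

variable {W : Type} [NormedAddCommGroup W] [InnerProductSpace ℝ W] [MeasurableSpace W]
  [BorelSpace W] [FiniteDimensional ℝ W]
variable {E : Type} [NormedAddCommGroup E] [NormedSpace ℝ E] [CompleteSpace E]

omit [CompleteSpace E] in
private lemma rotation_slice {b : W → ℝ} {ε : ℝ} (hb : IsBump b ε) (J : W →L[ℝ] W)
    (hJ : ∀ t : ℝ, ∃ R : W ≃ₗᵢ[ℝ] W, ∀ x, R x = Real.cos t • x + Real.sin t • J x)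
    {u : W → E} (hu : ContDiff ℝ 1 u) (x : W) (t : ℝ) :
    t • ∫ y in Metric.closedBall (0 : W) ε, b y • (fderiv ℝ u (x - t • y) (J y)) = 0 := by
  have hbc : Continuous b := hb.smooth.continuous
  have hfc : Continuous (fderiv ℝ u) := hu.continuous_fderiv one_ne_zero
  have huc : Continuous u := hu.continuous
  -- the function of the angle
  let F : ℝ → W → E := fun s y => b y • u (x - t • (Real.cos s • y + Real.sin s • J y))
  let F' : ℝ → W → E := fun s y => b y • fderiv ℝ u (x - t • (Real.cos s • y + Real.sin s • J y))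
    (-(t • (-Real.sin s • y + Real.cos s • J y)))
  have hconst : ∀ s, ∫ y in Metric.closedBall (0 : W) ε, F s y =
      ∫ y in Metric.closedBall (0 : W) ε, b y • u (x - t • y) := by
    intro s
    obtain ⟨R, hR⟩ := hJ s
    have h1 : ∀ y, F s y = (fun z => b z • u (x - t • z)) (R y) := by
      intro y
      show b y • u (x - t • (Real.cos s • y + Real.sin s • J y)) = b (R y) • u (x - t • R y)
      rw [hb.radial (R y) y (R.norm_map y), hR y]
    have h2 : R ⁻¹' (Metric.closedBall (0 : W) ε) = Metric.closedBall (0 : W) ε := by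
      ext y
      simp
    have h3 := R.measurePreserving.setIntegral_preimage_emb
      R.toHomeomorph.measurableEmbedding (fun z => b z • u (x - t • z))
      (Metric.closedBall (0 : W) ε)
    rw [h2] at h3
    rw [← h3]
    exact setIntegral_congr_fun measurableSet_closedBall fun y _ => h1 y
  have hF'c : Continuous (Function.uncurry F') := by
    show Continuous fun p : ℝ × W => b p.2 • fderiv ℝ u
      (x - t • (Real.cos p.1 • p.2 + Real.sin p.1 • J p.2))
      (-(t • (-Real.sin p.1 • p.2 + Real.cos p.1 • J p.2)))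
    fun_prop
  obtain ⟨M, hM⟩ := ((isCompact_Icc (a := (-1 : ℝ)) (b := 1)).prod
    (isCompact_closedBall (0 : W) ε)).exists_bound_of_continuousOn hF'c.continuousOn
  have hderiv := hasDerivAt_integral_of_dominated_loc_of_deriv_le
    (μ := volume.restrict (Metric.closedBall (0 : W) ε)) (F := F) (F' := F') (x₀ := (0 : ℝ))
    (s := Set.Icc (-1 : ℝ) 1) (bound := fun _ => M) (Icc_mem_nhds (by norm_num) (by norm_num))
    (Filter.Eventually.of_forall fun s => by
      apply Continuous.aestronglyMeasurable
      show Continuous fun y => b y • u (x - t • (Real.cos s • y + Real.sin s • J y))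
      fun_prop)
    (by
      apply (Continuous.continuousOn _).integrableOn_compact (isCompact_closedBall 0 ε)
      show Continuous fun y => b y • u (x - t • (Real.cos 0 • y + Real.sin 0 • J y))
      fun_prop)
    (by
      apply Continuous.aestronglyMeasurable
      exact hF'c.comp (Continuous.prodMk_right (0 : ℝ)))
    ((ae_restrict_iff' measurableSet_closedBall).2 (Filter.Eventually.of_forall fun y hy s hs =>
      hM (s, y) ⟨hs, hy⟩))
    (by
      have : IsFiniteMeasure (volume.restrict (Metric.closedBall (0 : W) ε)) :=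
        ⟨by
          rw [Measure.restrict_apply_univ]
          exact (isCompact_closedBall (0 : W) ε).measure_lt_top⟩
      exact integrable_const M)
    (Filter.Eventually.of_forall fun y s _ => by
      have h1 : HasDerivAt (fun s : ℝ => x - t • (Real.cos s • y + Real.sin s • J y))
          (-(t • (-Real.sin s • y + Real.cos s • J y))) s :=
        ((((Real.hasDerivAt_cos s).smul_const y).add
          ((Real.hasDerivAt_sin s).smul_const (J y))).const_smul t).const_sub x
      have h2 : HasFDerivAt u (fderiv ℝ u (x - t • (Real.cos s • y + Real.sin s • J y)))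
          (x - t • (Real.cos s • y + Real.sin s • J y)) :=
        (hu.differentiable one_ne_zero _).hasFDerivAt
      exact (h2.comp_hasDerivAt s h1).const_smul (b y))
  have h1 : HasDerivAt (fun s => ∫ y in Metric.closedBall (0 : W) ε, F s y) 0 0 := by
    have h2 : (fun s => ∫ y in Metric.closedBall (0 : W) ε, F s y) =
        fun _ => ∫ y in Metric.closedBall (0 : W) ε, b y • u (x - t • y) := funext hconst
    rw [h2]
    exact hasDerivAt_const _ _
  have h2 := hderiv.2.unique h1
  have h3 : ∫ y in Metric.closedBall (0 : W) ε, F' 0 y =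
      -(t • ∫ y in Metric.closedBall (0 : W) ε, b y • (fderiv ℝ u (x - t • y) (J y))) := by
    rw [← integral_smul, ← integral_neg]
    refine setIntegral_congr_fun measurableSet_closedBall fun y _ => ?_
    show b y • fderiv ℝ u (x - t • (Real.cos 0 • y + Real.sin 0 • J y))
      (-(t • (-Real.sin 0 • y + Real.cos 0 • J y))) =
      -(t • b y • (fderiv ℝ u (x - t • y)) (J y))
    rw [Real.cos_zero, Real.sin_zero, one_smul, zero_smul, add_zero, neg_zero, zero_smul,
      zero_add, one_smul, map_neg, map_smul, smul_neg, smul_comm]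
  rw [h3, neg_eq_zero] at h2
  exact h2

/-- JOB L4b.  The rotation part vanishes: if `R_s = cos s + sin s J` is a linear isometry for all `s`,
then `∫_{t∈[0,1]} ∫ b(y) Du(x-ty)(Jy) dy dt = 0`.
For `t ∈ (0,1]`, `g(s) = ∫ b(y) u(x - t R_s y) dy` is constant in `s` (`b` is radial, `R_s` is measure
preserving), and `g'(0) = -t ∫ b(y) Du(x-ty)(Jy) dy`. -/
theorem rotation_part {b : W → ℝ} {ε : ℝ} (hb : IsBump b ε) (J : W →L[ℝ] W)
    (hJ : ∀ t : ℝ, ∃ R : W ≃ₗᵢ[ℝ] W, ∀ x, R x = Real.cos t • x + Real.sin t • J x)
    {u : W → E} (hu : ContDiff ℝ 1 u) (x : W) :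
    ∫ θ in Dom W ε, b θ.2 • (fderiv ℝ u (x - θ.1 • θ.2) (J θ.2)) = 0 := by
  have hbc : Continuous b := hb.smooth.continuous
  have hfc : Continuous (fderiv ℝ u) := hu.continuous_fderiv one_ne_zero
  have hcont : Continuous fun θ : ℝ × W => b θ.2 • (fderiv ℝ u (x - θ.1 • θ.2) (J θ.2)) := by
    fun_prop
  have hint : IntegrableOn (fun θ : ℝ × W => b θ.2 • (fderiv ℝ u (x - θ.1 • θ.2) (J θ.2)))
      (Set.Icc (0 : ℝ) 1 ×ˢ Metric.closedBall (0 : W) ε) (volume.prod volume) :=
    hcont.continuousOn.integrableOn_compact (isCompact_Icc.prod (isCompact_closedBall 0 ε))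
  have h1 : ∫ θ in Dom W ε, b θ.2 • (fderiv ℝ u (x - θ.1 • θ.2) (J θ.2)) =
      ∫ t in Set.Icc (0 : ℝ) 1, ∫ y in Metric.closedBall (0 : W) ε,
        b y • (fderiv ℝ u (x - t • y) (J y)) :=
    setIntegral_prod _ hint
  rw [h1, integral_Icc_eq_integral_Ioc]
  apply integral_eq_zero_of_ae
  refine (ae_restrict_iff' measurableSet_Ioc).2 (Filter.Eventually.of_forall fun t ht => ?_)
  have h2 := rotation_slice hb J hJ hu x t
  rcases smul_eq_zero.1 h2 with h | h
  · exact absurd h ht.1.ne'
  · exact h

end

end FB
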