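import Pool.Agent.H.MP_fb873c_an.L1
import Pool.Agent.H.MP_fb873c_an.L2b
import Pool.Agent.H.MP_fb873c_an.L4a
import Pool.Agent.H.MP_fb873c_an.L4b

/-! Part L4: the local homotopy identity. -/

namespace FB

open MeasureTheory
open scoped Topology ContDiff

section

variable {W : Type} [NormedAddCommGroup W] [InnerProductSpace ℝ W] [MeasurableSpace W]
  [BorelSpace W] [FiniteDimensional ℝ W]
variable {E : Type} [NormedAddCommGroup E] [NormedSpace ℝ E] [CompleteSpace E]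

omit [MeasurableSpace W] [BorelSpace W] [FiniteDimensional ℝ W] in
private lemma fderiv_invariant (T : Ty W) {q : ℕ} {u : W → Lam W q} (hu : ContDiff ℝ 1 u)
    (hpi : ∀ x, T.pi q (u x) = u x) (x v : W) :
    T.pi q (fderiv ℝ u x v) = fderiv ℝ u x v := by
  have h1 : HasFDerivAt u (fderiv ℝ u x) x := (hu.differentiable one_ne_zero x).hasFDerivAt
  have h2 : HasFDerivAt (fun x => (T.pi q).restrictScalars ℝ (u x))
      (((T.pi q).restrictScalars ℝ).comp (fderiv ℝ u x)) x :=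
    ((T.pi q).restrictScalars ℝ).hasFDerivAt.comp x h1
  have h3 : (fun x => (T.pi q).restrictScalars ℝ (u x)) = u := funext hpi
  rw [h3] at h2
  exact (congrArg (fun f : W →L[ℝ] Lam W q => f v) (h2.unique h1))

omit [MeasurableSpace W] [BorelSpace W] [FiniteDimensional ℝ W] in
private lemma continuous_ctr {q : ℕ} : Continuous (ctr : W → Lam W (q + 1) →L[ℝ] Lam W q) :=
  ((ContinuousAlternatingMap.curryLeftLI (𝕜 := ℝ) (E := W) (F := ℂ)
    (n := q)).toContinuousLinearMap.flip).continuous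

/-- the operator `g ↦ pi (alt g)`. -/
private noncomputable def MM (T : Ty W) (q : ℕ) : (W →L[ℝ] Lam W q) →L[ℝ] Lam W (q + 1) :=
  ((T.pi (q + 1)).restrictScalars ℝ).comp
    (ContinuousAlternatingMap.alternatizeUncurryFinCLM ℝ W ℂ)

omit [MeasurableSpace W] [BorelSpace W] [FiniteDimensional ℝ W] in
private lemma MM_apply (T : Ty W) (q : ℕ) (f : W →L[ℝ] Lam W q) :
    MM T q f = T.pi (q + 1) (alt f) := rfl

omit [MeasurableSpace W] [BorelSpace W] [FiniteDimensional ℝ W] in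
private lemma D_eq (T : Ty W) {q : ℕ} (u : W → Lam W q) (x : W) :
    T.D u x = MM T q (fderiv ℝ u x) := rfl

private lemma core_abs {F α : Type} [NormedAddCommGroup F] [NormedSpace ℝ F] [NormedSpace ℂ F]
    [SMulCommClass ℝ ℂ F] [MeasureSpace α] (s : Set α) (c : ℂ) {f g : α → F}
    (hf : IntegrableOn f s) (hg : IntegrableOn g s) (h0 : c = 0 ∨ ∫ θ in s, g θ = 0) :
    ∫ θ in s, (f θ + c • g θ) = ∫ θ in s, f θ := by
  have hg' : IntegrableOn (fun θ => c • g θ) s := hg.smul c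
  have h1 := integral_add hf hg'
  have h2 : ∫ θ in s, c • g θ = c • ∫ θ in s, g θ := integral_smul c g
  rw [h2] at h1
  refine h1.trans ?_
  rcases h0 with h | h
  · rw [h, zero_smul, add_zero]
  · rw [h, smul_zero, add_zero]

private lemma kop_core (T : Ty W) {b : W → ℝ} {ε : ℝ} (hb : IsBump b ε) {q : ℕ} {u : W → Lam W q}
    (hu : ContDiff ℝ 1 u) (x : W) :
    ∫ θ in Dom W ε, (T.lam⁻¹ * b θ.2) • tauG T.lam T.mu T.J (fderiv ℝ u (x - θ.1 • θ.2)) θ.2 =
      u x - Bop b ε u x := by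
  have hbc : Continuous b := hb.smooth.continuous
  have hfc : Continuous (fderiv ℝ u) := hu.continuous_fderiv one_ne_zero
  have hl : T.lam ≠ 0 := T.lam_pos.ne'
  have h1 : ∀ θ : ℝ × W,
      (T.lam⁻¹ * b θ.2) • tauG T.lam T.mu T.J (fderiv ℝ u (x - θ.1 • θ.2)) θ.2 =
      b θ.2 • fderiv ℝ u (x - θ.1 • θ.2) θ.2 +
      ((T.lam⁻¹ : ℂ) * ((T.mu : ℂ) * Complex.I)) •
        (b θ.2 • fderiv ℝ u (x - θ.1 • θ.2) (T.J θ.2)) := by
    intro θ
    show (T.lam⁻¹ * b θ.2) • (T.lam • fderiv ℝ u (x - θ.1 • θ.2) θ.2 +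
      ((T.mu : ℂ) * Complex.I) • fderiv ℝ u (x - θ.1 • θ.2) (T.J θ.2)) = _
    ext v
    simp only [ContinuousAlternatingMap.smul_apply, ContinuousAlternatingMap.add_apply,
      Complex.real_smul, smul_eq_mul]
    push_cast
    have hl' : (T.lam : ℂ) ≠ 0 := by exact_mod_cast hl
    field_simp
  have hc1 : Continuous fun θ : ℝ × W => b θ.2 • (fderiv ℝ u (x - θ.1 • θ.2) θ.2) := by
    fun_prop
  have hc2 : Continuous fun θ : ℝ × W => b θ.2 • (fderiv ℝ u (x - θ.1 • θ.2) (T.J θ.2)) := by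
    fun_prop
  have hi1 : IntegrableOn (fun θ : ℝ × W => b θ.2 • (fderiv ℝ u (x - θ.1 • θ.2) θ.2))
      (Dom W ε) :=
    hc1.continuousOn.integrableOn_compact (isCompact_dom ε)
  have hi2 : IntegrableOn (fun θ : ℝ × W => b θ.2 • (fderiv ℝ u (x - θ.1 • θ.2) (T.J θ.2)))
      (Dom W ε) :=
    hc2.continuousOn.integrableOn_compact (isCompact_dom ε)
  have hB : Bop b ε u x = ∫ y, b y • u (x - y) := by
    have := cop_eq (k := fun y => b y • ContinuousLinearMap.id ℝ (Lam W q))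
      (hbc.smul continuous_const) ε (fun y hy => by
        rw [hb.supp y hy.le]
        refine ContinuousLinearMap.ext fun v => ?_
        exact zero_smul ℝ (v : Lam W q)) hu.continuous x
    exact this
  calc ∫ θ in Dom W ε,
        (T.lam⁻¹ * b θ.2) • tauG T.lam T.mu T.J (fderiv ℝ u (x - θ.1 • θ.2)) θ.2
      = ∫ θ in Dom W ε, (b θ.2 • fderiv ℝ u (x - θ.1 • θ.2) θ.2 +
        ((T.lam⁻¹ : ℂ) * ((T.mu : ℂ) * Complex.I)) •
        (b θ.2 • fderiv ℝ u (x - θ.1 • θ.2) (T.J θ.2))) :=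
        integral_congr_ae (Filter.Eventually.of_forall h1)
    _ = ∫ θ in Dom W ε, b θ.2 • fderiv ℝ u (x - θ.1 • θ.2) θ.2 := by
        refine core_abs (F := Lam W q) (Dom W ε) _ hi1 hi2 ?_
        rcases T.rot with h | h
        · left
          rw [h, Complex.ofReal_zero, zero_mul, mul_zero]
        · right
          exact rotation_part hb T.J h hu x
    _ = u x - Bop b ε u x := by
        rw [radial_part hb hu x, hB]

omit [MeasurableSpace W] [BorelSpace W] [FiniteDimensional ℝ W] in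
private lemma continuous_D (T : Ty W) {q : ℕ} {u : W → Lam W q} (hu : ContDiff ℝ 1 u) :
    Continuous (T.D u) :=
  (MM T q).continuous.comp (hu.continuous_fderiv one_ne_zero)

/-- JOB L4c.  The homotopy identity in positive degree:
`D (K u) x = pi (alt (fderiv (K u) x))`, `fderiv (K u)` by `avg_hasFDerivAt`; the bounded operator
`g ↦ pi (alt g)` goes inside the integral (`avg_comp`); the sum of the two integrands is, by `cartan` with
`g = fderiv u (x - t y)` (with values in the invariant forms because `u` has), `(b(y)/lam) tau g y`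
`= b(y) g y + (mu/lam) i b(y) g (J y)`.  Then `radial_part`, `rotation_part` (or `mu = 0`). -/
theorem kop_succ (T : Ty W) {b : W → ℝ} {ε : ℝ} (hb : IsBump b ε) {q : ℕ} {u : W → Lam W (q + 1)}
    (hu : ContDiff ℝ ∞ u) (hpi : ∀ x, T.pi (q + 1) (u x) = u x) (x : W) :
    T.D (Kop T b ε u) x + Kop T b ε (T.D u) x = u x - Bop b ε u x := by
  have hu1 : ContDiff ℝ 1 u := hu.of_le (by exact_mod_cast le_top)
  have hbc : Continuous b := hb.smooth.continuous
  have hfc : Continuous (fderiv ℝ u) := hu1.continuous_fderiv one_ne_zero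
  have hw : Continuous fun θ : ℝ × W => θ.1 • θ.2 := continuous_fst.smul continuous_snd
  have hL : Continuous fun θ : ℝ × W =>
      (T.lam⁻¹ * b θ.2) • (ctr θ.2 : Lam W (q + 1) →L[ℝ] Lam W q) :=
    (continuous_const.mul (hbc.comp continuous_snd)).smul (continuous_ctr.comp continuous_snd)
  have hL' : Continuous fun θ : ℝ × W =>
      (T.lam⁻¹ * b θ.2) • (ctr θ.2 : Lam W (q + 1 + 1) →L[ℝ] Lam W (q + 1)) :=
    (continuous_const.mul (hbc.comp continuous_snd)).smul (continuous_ctr.comp continuous_snd)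
  have hLc : Continuous fun θ : ℝ × W => ContinuousLinearMap.compL ℝ W (Lam W (q + 1)) (Lam W q)
      ((T.lam⁻¹ * b θ.2) • (ctr θ.2 : Lam W (q + 1) →L[ℝ] Lam W q)) :=
    (ContinuousLinearMap.compL ℝ W (Lam W (q + 1)) (Lam W q)).continuous.comp hL
  have hd := (avg_hasFDerivAt ε hw hL hu1 x).fderiv
  have h1 : T.D (Kop T b ε u) x = Avg ε (fun θ : ℝ × W => θ.1 • θ.2)
      (fun θ => (MM T q).comp (ContinuousLinearMap.compL ℝ W (Lam W (q + 1)) (Lam W q)
      ((T.lam⁻¹ * b θ.2) • (ctr θ.2 : Lam W (q + 1) →L[ℝ] Lam W q)))) (fderiv ℝ u) x := by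
    have h2 := avg_comp (E := W →L[ℝ] Lam W (q + 1)) (F := W →L[ℝ] Lam W q) (G := Lam W (q + 1))
      ε hw hLc hfc (MM T q) x
    rw [D_eq, ← h2]
    exact congrArg (MM T q) hd
  have hi1 := avg_integrable (E := W →L[ℝ] Lam W (q + 1)) (F := Lam W (q + 1)) ε hw (L := fun θ => (MM T q).comp
      (ContinuousLinearMap.compL ℝ W (Lam W (q + 1)) (Lam W q)
      ((T.lam⁻¹ * b θ.2) • (ctr θ.2 : Lam W (q + 1) →L[ℝ] Lam W q))))
      (continuous_const.clm_comp hLc) hfc x
  have hi2 := avg_integrable (E := Lam W (q + 1 + 1)) (F := Lam W (q + 1)) ε hw hL' (continuous_D T hu1) x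
  rw [h1]
  unfold Kop Avg
  rw [← integral_add hi1 hi2, ← kop_core T hb hu1 x]
  refine integral_congr_ae (Filter.Eventually.of_forall fun θ => ?_)
  have h2 := cartan T (fderiv ℝ u (x - θ.1 • θ.2))
    (fun v => fderiv_invariant T hu1 hpi _ v) θ.2
  show T.pi (q + 1) (alt (((T.lam⁻¹ * b θ.2) • (ctr θ.2 : Lam W (q + 1) →L[ℝ] Lam W q)).comp
      (fderiv ℝ u (x - θ.1 • θ.2)))) +
    (T.lam⁻¹ * b θ.2) • ctr θ.2 (T.pi (q + 2) (alt (fderiv ℝ u (x - θ.1 • θ.2)))) =
    (T.lam⁻¹ * b θ.2) • tauG T.lam T.mu T.J (fderiv ℝ u (x - θ.1 • θ.2)) θ.2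
  rw [← h2, smul_add]
  congr 1
  have h3 : ((T.lam⁻¹ * b θ.2) • (ctr θ.2 : Lam W (q + 1) →L[ℝ] Lam W q)).comp
      (fderiv ℝ u (x - θ.1 • θ.2)) =
      (T.lam⁻¹ * b θ.2) • ((ctr θ.2).comp (fderiv ℝ u (x - θ.1 • θ.2))) :=
    ContinuousLinearMap.smul_comp _ _ _
  rw [h3, ← MM_apply, ← MM_apply, map_smul]

/-- JOB L4c.  Degree zero. -/
theorem kop_zero (T : Ty W) {b : W → ℝ} {ε : ℝ} (hb : IsBump b ε) {u : W → Lam W 0}
    (hu : ContDiff ℝ ∞ u) (hpi : ∀ x, T.pi 0 (u x) = u x) (x : W) :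
    Kop T b ε (T.D u) x = u x - Bop b ε u x := by
  have hu1 : ContDiff ℝ 1 u := hu.of_le (by exact_mod_cast le_top)
  unfold Kop Avg
  rw [← kop_core T hb hu1 x]
  refine integral_congr_ae (Filter.Eventually.of_forall fun θ => ?_)
  have h2 := cartan_zero T (fderiv ℝ u (x - θ.1 • θ.2))
    (fun v => fderiv_invariant T hu1 hpi _ v) θ.2
  show (T.lam⁻¹ * b θ.2) • ctr θ.2 (T.pi 1 (alt (fderiv ℝ u (x - θ.1 • θ.2)))) =
    (T.lam⁻¹ * b θ.2) • tauG T.lam T.mu T.J (fderiv ℝ u (x - θ.1 • θ.2)) θ.2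
  rw [← h2]

end

end FB
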