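import Pool.Agent.H.MP_fb873c_an.G2f
import Pool.Agent.H.MP_fb873c_an.L4c

/-! # Part G2h: the homotopy identities for `S_i`, `P_i` (G2h1) -/

namespace FB

open scoped Topology ContDiff Manifold BoundedContinuousFunction

universe u


section

variable {W : Type} [NormedAddCommGroup W] [InnerProductSpace ℝ W] [FiniteDimensional ℝ W]
  [MeasurableSpace W] [BorelSpace W]
variable {X : Type u} [TopologicalSpace X] [ChartedSpace W X] [IsManifold 𝓘(ℝ, W) ∞ X]
  [CompactSpace X] [T2Space X]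

/-- In the chart `i`, the `ε`-neighbourhood of the support of `f` is contained in the region where
`g = 1`. -/
def EpsC (C : Cov W X) (i : Fin C.N) (f g : X → ℝ) (ε : ℝ) : Prop :=
  ∀ p ∈ tsupport f, ∀ z : W, ‖z - chartAt W (C.c i) p‖ ≤ ε →
    z ∈ (chartAt W (C.c i)).target ∧ ∀ᶠ y in 𝓝 ((chartAt W (C.c i)).symm z), g y = 1

omit [FiniteDimensional ℝ W] [MeasurableSpace W] [BorelSpace W] in
theorem g2h1_zero_smul {q : ℕ} (α : Lam W q) : (0 : ℝ) • α = 0 := zero_smul ℝ α

omit [FiniteDimensional ℝ W] [MeasurableSpace W] [BorelSpace W] in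
theorem g2h1_D_congr (T : Ty W) {q : ℕ} {u u' : W → Lam W q} {z : W} (h : u =ᶠ[𝓝 z] u') :
    T.D u z = T.D u' z := by
  unfold Ty.D extDeriv
  rw [h.fderiv_eq]

omit [FiniteDimensional ℝ W] [MeasurableSpace W] [BorelSpace W] in
theorem g2h1_D_zero (T : Ty W) {q : ℕ} {u : W → Lam W q} {z : W}
    (h : ∀ᶠ y in 𝓝 z, u y = 0) : T.D u z = 0 := by
  have h1 : T.D u z = T.D (fun _ => (0 : Lam W q)) z := g2h1_D_congr T h
  rw [h1]
  unfold Ty.D extDeriv
  rw [fderiv_fun_const]
  show T.pi (q + 1) (alt (0 : W →L[ℝ] Lam W q)) = 0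
  have h2 : alt (0 : W →L[ℝ] Lam W q) = 0 :=
    map_zero (ContinuousAlternatingMap.alternatizeUncurryFinCLM ℝ W ℂ)
  rw [h2, map_zero]

omit [FiniteDimensional ℝ W] [MeasurableSpace W] [BorelSpace W] in
theorem g2h1_D_smul (T : Ty W) {q : ℕ} {f : W → ℝ} {u : W → Lam W q} {z : W}
    (hf : DifferentiableAt ℝ f z) (hu : DifferentiableAt ℝ u z) :
    T.D (fun z => f z • u z) z = f z • T.D u z + wdg T (fderiv ℝ f z) (u z) := by
  have h1 : fderiv ℝ (fun z => f z • u z) z =
      f z • fderiv ℝ u z + (fderiv ℝ f z).smulRight (u z) := fderiv_fun_smul hf hu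
  have h2 : T.D (fun z => f z • u z) z =
      T.pi (q + 1) (alt (f z • fderiv ℝ u z + (fderiv ℝ f z).smulRight (u z))) := by
    unfold Ty.D extDeriv
    rw [h1]
  have h3 : alt (f z • fderiv ℝ u z + (fderiv ℝ f z).smulRight (u z)) =
      f z • alt (fderiv ℝ u z) + alt ((fderiv ℝ f z).smulRight (u z)) := by
    have h4 := ContinuousAlternatingMap.alternatizeUncurryFin_add (f z • fderiv ℝ u z)
      ((fderiv ℝ f z).smulRight (u z))
    have h5 := ContinuousAlternatingMap.alternatizeUncurryFin_smul (f z) (fderiv ℝ u z)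
    exact h4.trans (congrArg (· + _) h5)
  rw [h2, h3, map_add]
  congr 1
  exact ((T.pi (q + 1)).restrictScalars ℝ).map_smul (f z) (alt (fderiv ℝ u z))

omit [FiniteDimensional ℝ W] [MeasurableSpace W] [BorelSpace W] in
theorem g2h1_wdg_zero (T : Ty W) {q : ℕ} (α : Lam W q) : wdg T (0 : W →L[ℝ] ℝ) α = 0 := by
  have h1 : (0 : W →L[ℝ] ℝ).smulRight α = 0 := by
    ext1 v
    exact g2h1_zero_smul α
  show T.pi (q + 1) (alt ((0 : W →L[ℝ] ℝ).smulRight α)) = 0
  have h2 : alt (0 : W →L[ℝ] Lam W q) = 0 :=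
    map_zero (ContinuousAlternatingMap.alternatizeUncurryFinCLM ℝ W ℂ)
  rw [h1, h2, map_zero]

omit [MeasurableSpace W] [BorelSpace W] in
/-- a function supported in a chart vanishes near the points outside of the target -/
theorem g2h1_off (x0 : X) {f : X → ℝ} (hf : tsupport f ⊆ (chartAt W x0).source) {z : W}
    (hz : z ∉ (chartAt W x0).target) :
    ∀ᶠ w in 𝓝 z, w ∈ (chartAt W x0).target → f ((chartAt W x0).symm w) = 0 := by
  have hK : IsCompact (chartAt W x0 '' tsupport f) :=
    (isClosed_tsupport f).isCompact.image_of_continuousOn ((chartAt W x0).continuousOn.mono hf)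
  have h2 : (chartAt W x0 '' tsupport f)ᶜ ∈ 𝓝 z := by
    refine hK.isClosed.isOpen_compl.mem_nhds ?_
    rintro ⟨p, hp, rfl⟩
    exact hz ((chartAt W x0).map_source (hf hp))
  filter_upwards [h2] with w hw hwt
  refine image_eq_zero_of_notMem_tsupport fun h => hw ⟨_, h, (chartAt W x0).right_inv hwt⟩

/-- JOB G2h1.  Compactness: `chartAt (c i) '' tsupport f` is a compact subset of the open set
`{z ∈ target | g = 1 near symm z}`. -/
theorem exists_epsC (C : Cov W X) (i : Fin C.N) (f g : X → ℝ)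
    (hf : tsupport f ⊆ (chartAt W (C.c i)).source) (hfg : ∀ p ∈ tsupport f, ∀ᶠ y in 𝓝 p, g y = 1) :
    ∃ ε0 : ℝ, 0 < ε0 ∧ ∀ ε ≤ ε0, EpsC C i f g ε := by
  have hK : IsCompact (chartAt W (C.c i) '' tsupport f) :=
    (isClosed_tsupport f).isCompact.image_of_continuousOn
      ((chartAt W (C.c i)).continuousOn.mono hf)
  have hU : IsOpen ((chartAt W (C.c i)).target ∩
      (chartAt W (C.c i)).symm ⁻¹' (interior {y | g y = 1})) :=
    (chartAt W (C.c i)).isOpen_inter_preimage_symm isOpen_interior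
  have hKU : chartAt W (C.c i) '' tsupport f ⊆ (chartAt W (C.c i)).target ∩
      (chartAt W (C.c i)).symm ⁻¹' (interior {y | g y = 1}) := by
    rintro z ⟨p, hp, rfl⟩
    refine ⟨(chartAt W (C.c i)).map_source (hf hp), ?_⟩
    rw [Set.mem_preimage, (chartAt W (C.c i)).left_inv (hf hp)]
    exact mem_interior_iff_mem_nhds.2 (hfg p hp)
  obtain ⟨δ, hδ, hsub⟩ := hK.exists_cthickening_subset_open hU hKU
  refine ⟨δ, hδ, fun ε hε p hp z hz => ?_⟩
  have h1 : z ∈ Metric.closedBall (chartAt W (C.c i) p) δ := by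
    rw [Metric.mem_closedBall, dist_eq_norm]
    exact hz.trans hε
  have h2 := hsub (Metric.closedBall_subset_cthickening (Set.mem_image_of_mem _ hp) δ h1)
  exact ⟨h2.1, mem_interior_iff_mem_nhds.1 h2.2⟩

/-- JOB G2h1.  `E R = χ`. -/
theorem EA_RA (T : Ty W) (hX : TGood T X) (C : Cov W X) {q : ℕ} (i : Fin C.N) (η : SFm T X q) :
    EA T hX C q i (RA T hX C q i η) = mulA T (C.χ i) q η := by
  apply Subtype.ext
  funext p
  rw [EA_apply, mulA_apply T (C.smχ i)]
  by_cases hp : p ∈ (chartAt W (C.c i)).source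
  · have h1 : (RA T hX C q i η).1 (chartAt W (C.c i) p) = C.χ i p • val (C.c i) η.1 p := by
      rw [RA_apply, Set.indicator_of_mem ((chartAt W (C.c i)).map_source hp),
        (chartAt W (C.c i)).left_inv hp, rep_chart η.1 (C.c i) p hp]
    have h2 : (val (C.c i) η.1 p).compContinuousLinearMap (trd p (C.c i) p) = η.1 p := by
      rw [← val_change η.1 (C.c i) p p hp (mem_chart_source W p), val_self]
    rw [h1]
    have h3 : (C.χ i p • val (C.c i) η.1 p).compContinuousLinearMap (trd p (C.c i) p) =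
        C.χ i p • η.1 p := by
      rw [← h2]
      rfl
    rw [h3]
    by_cases h4 : C.χ i p = 0
    · rw [h4, g2h1_zero_smul]
      exact smul_zero (A := Lam W q) (C.ψ i p)
    · rw [(C.χψ i p (subset_tsupport _ h4)).self_of_nhds, one_smul]
  · have h1 : C.ψ i p = 0 := image_eq_zero_of_notMem_tsupport fun h => hp (C.ψs i h)
    have h2 : C.χ i p = 0 :=
      image_eq_zero_of_notMem_tsupport fun h => hp (tsupport_χ_subset C i h)
    rw [h1, h2, g2h1_zero_smul, g2h1_zero_smul]

/-- JOB G2h1.  `R (D η) = D (R η) - dχ ∧ η` (Leibniz rule; off the target both sides vanish). -/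
theorem RA_Dm (T : Ty W) (hX : TGood T X) (C : Cov W X) {q : ℕ} (i : Fin C.N) (η : SFm T X q) :
    RA T hX C (q + 1) i (Dm T hX q η) = DW T q (RA T hX C q i η) - WA T hX C q i η := by
  apply Subtype.ext
  funext z
  show (RA T hX C (q + 1) i (Dm T hX q η)).1 z =
    (DW T q (RA T hX C q i η)).1 z - (WA T hX C q i η).1 z
  rw [RA_apply, DW_apply, WA_apply]
  have hRA : (RA T hX C q i η).1 = fun z => Set.indicator (chartAt W (C.c i)).target
      (fun z => C.χ i ((chartAt W (C.c i)).symm z) • rep (C.c i) η.1 z) z :=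
    funext fun z => RA_apply T hX C q i η z
  by_cases hz : z ∈ (chartAt W (C.c i)).target
  · have hnh : (chartAt W (C.c i)).target ∈ 𝓝 z := (chartAt W (C.c i)).open_target.mem_nhds hz
    have hsrc : (chartAt W (C.c i)).symm z ∈ (chartAt W (C.c i)).source :=
      (chartAt W (C.c i)).map_target hz
    have h1 : T.D (RA T hX C q i η).1 z =
        T.D (fun z => (C.χ i ∘ (chartAt W (C.c i)).symm) z • rep (C.c i) η.1 z) z := by
      apply g2h1_D_congr
      rw [hRA]
      filter_upwards [hnh] with w hw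
      rw [Set.indicator_of_mem hw]
      rfl
    have h2 : DifferentiableAt ℝ (C.χ i ∘ (chartAt W (C.c i)).symm) z := by
      have := G1d_funAt (C.smχ i) (C.c i) ((chartAt W (C.c i)).symm z) hsrc
      rwa [(chartAt W (C.c i)).right_inv hz] at this
    have h3 : DifferentiableAt ℝ (rep (C.c i) η.1) z :=
      ((η.2.1 (C.c i)).contDiffAt hnh).differentiableAt (by simp)
    rw [h1, g2h1_D_smul T h2 h3, Set.indicator_of_mem hz, Set.indicator_of_mem hz,
      rep_Dm T hX q η (C.c i) z hz]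
    have h4 : dfc (C.c i) (C.χ i) ((chartAt W (C.c i)).symm z) =
        fderiv ℝ (C.χ i ∘ (chartAt W (C.c i)).symm) z := by
      unfold dfc
      by_cases h5 : (chartAt W (C.c i)).symm z ∈ tsupport (C.χ i)
      · rw [Set.indicator_of_mem h5]
        unfold dfun
        rw [(chartAt W (C.c i)).right_inv hz]
      · rw [Set.indicator_of_notMem h5]
        have h6 : (C.χ i ∘ (chartAt W (C.c i)).symm) =ᶠ[𝓝 z] fun _ => (0 : ℝ) := by
          have h7 : ∀ᶠ y in 𝓝 ((chartAt W (C.c i)).symm z), C.χ i y = 0 :=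
            notMem_tsupport_iff_eventuallyEq.mp h5
          exact ((chartAt W (C.c i)).continuousAt_symm hz).tendsto.eventually h7
        rw [h6.fderiv_eq, fderiv_fun_const]
        rfl
    rw [h4]
    show C.χ i ((chartAt W (C.c i)).symm z) • T.D (rep (C.c i) η.1) z =
      C.χ i ((chartAt W (C.c i)).symm z) • T.D (rep (C.c i) η.1) z + _ - _
    rw [add_sub_cancel_right]
  · rw [Set.indicator_of_notMem hz, Set.indicator_of_notMem hz, sub_zero]
    symm
    apply g2h1_D_zero
    rw [hRA]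
    filter_upwards [g2h1_off (C.c i) (tsupport_χ_subset C i) hz] with w hw
    by_cases hwt : w ∈ (chartAt W (C.c i)).target
    · rw [Set.indicator_of_mem hwt, hw hwt, g2h1_zero_smul]
    · rw [Set.indicator_of_notMem hwt]

/-- JOB G2h1.  Local homotopy identities (`kop_succ`, `kop_zero`). -/
theorem DW_KA (T : Ty W) {b : W → ℝ} {ε : ℝ} (hb : IsBump b ε) {q : ℕ} (w : SW T (q + 1)) :
    DW T q (KA T hb q w) + KA T hb (q + 1) (DW T (q + 1) w) = w - BA T hb (q + 1) w := by
  apply Subtype.ext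
  funext x
  show (DW T q (KA T hb q w)).1 x + (KA T hb (q + 1) (DW T (q + 1) w)).1 x =
    w.1 x - (BA T hb (q + 1) w).1 x
  have h1 : (KA T hb q w).1 = Kop T b ε w.1 := funext fun x => KA_apply T hb q w x
  have h2 : (DW T (q + 1) w).1 = T.D w.1 := funext fun x => DW_apply T (q + 1) w x
  rw [DW_apply, KA_apply, BA_apply, h1, h2]
  exact kop_succ T hb w.2.1 w.2.2.2 x

theorem KA_DW (T : Ty W) {b : W → ℝ} {ε : ℝ} (hb : IsBump b ε) (w : SW T 0) :
    KA T hb 0 (DW T 0 w) = w - BA T hb 0 w := by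
  apply Subtype.ext
  funext x
  show (KA T hb 0 (DW T 0 w)).1 x = w.1 x - (BA T hb 0 w).1 x
  have h2 : (DW T 0 w).1 = T.D w.1 := funext fun x => DW_apply T 0 w x
  rw [KA_apply, BA_apply, h2]
  exact kop_zero T hb w.2.1 w.2.2.2 x

end

end FB
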