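import Pool.Agent.H.MP_fb873c_an.G2f

/-! # Part G2i: compositions over lists of charts; the smoothing operator `s` (G2i0) -/

namespace FB

open scoped Topology ContDiff Manifold BoundedContinuousFunction

universe u


section

variable {W : Type} [NormedAddCommGroup W] [InnerProductSpace ℝ W] [FiniteDimensional ℝ W]
  [MeasurableSpace W] [BorelSpace W]
variable {X : Type u} [TopologicalSpace X] [ChartedSpace W X] [IsManifold 𝓘(ℝ, W) ∞ X]
  [CompactSpace X] [T2Space X]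

/-- Composition of the `Ŝ_i` over a list. -/
noncomputable def ShL (T : Ty W) (C : Cov W X) {b : W → ℝ} {ε : ℝ} (hb : IsBump b ε)
    (l : List (Fin C.N)) (q : ℕ) : VV C q →L[ℂ] VV C q :=
  (l.map (fun i => ShI T C hb i q)).prod

/-- Composition of the `S_i` over a list. -/
noncomputable def SL (T : Ty W) (hX : TGood T X) (C : Cov W X) {b : W → ℝ} {ε : ℝ} (hb : IsBump b ε)
    (l : List (Fin C.N)) (q : ℕ) : Module.End ℂ (SFm T X q) :=
  (l.map (fun i => (SI T hX C hb i q : Module.End ℂ (SFm T X q)))).prod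

/-- Homotopy operator of a list. -/
noncomputable def PL (T : Ty W) (hX : TGood T X) (C : Cov W X) {b : W → ℝ} {ε : ℝ} (hb : IsBump b ε) :
    List (Fin C.N) → ∀ q : ℕ, SFm T X (q + 1) →ₗ[ℂ] SFm T X q
  | [], _ => 0
  | i :: l, q => PI T hX C hb i q + (SI T hX C hb i q) ∘ₗ (PL T hX C hb l q)

noncomputable def PhL (T : Ty W) (C : Cov W X) {b : W → ℝ} {ε : ℝ} (hb : IsBump b ε) :
    List (Fin C.N) → ∀ q : ℕ, VV C (q + 1) →L[ℂ] VV C q
  | [], _ => 0
  | i :: l, q => PhI T C hb i q + (ShI T C hb i q).comp (PhL T C hb l q)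

/-- The kernel of `D (b * ·)`. -/
noncomputable def kD (T : Ty W) {b : W → ℝ} {ε : ℝ} (hb : IsBump b ε) (q : ℕ) :
    W → Lam W q →L[ℝ] Lam W (q + 1) := (bop_props T hb q).2.2.choose

theorem kD_cont (T : Ty W) {b : W → ℝ} {ε : ℝ} (hb : IsBump b ε) (q : ℕ) :
    Continuous (kD T hb q) := (bop_props T hb q).2.2.choose_spec.1

theorem kD_smul (T : Ty W) {b : W → ℝ} {ε : ℝ} (hb : IsBump b ε) (q : ℕ) (y : W) (c : ℂ)
    (α : Lam W q) : kD T hb q y (c • α) = c • kD T hb q y α :=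
  (bop_props T hb q).2.2.choose_spec.2.1 y c α

theorem kD_supp (T : Ty W) {b : W → ℝ} {ε : ℝ} (hb : IsBump b ε) (q : ℕ) (y : W) (hy : ε ≤ ‖y‖) :
    kD T hb q y = 0 := (bop_props T hb q).2.2.choose_spec.2.2.1 y hy

theorem kD_spec (T : Ty W) {b : W → ℝ} {ε : ℝ} (hb : IsBump b ε) (q : ℕ) (u : W → Lam W q)
    (hu : Continuous u) (x : W) : T.D (Bop b ε u) x = Cop (kD T hb q) ε u x :=
  (bop_props T hb q).2.2.choose_spec.2.2.2 u hu x

noncomputable def NI (T : Ty W) (C : Cov W X) {b : W → ℝ} {ε : ℝ} (hb : IsBump b ε)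
    (i : Fin C.N) (q : ℕ) : VV C q →L[ℂ] VV C q :=
  (mulV C q (C.σ i)).comp ((Eop T C q i).comp ((BB hb q).comp (Rop T C q i)))

noncomputable def NdI (T : Ty W) (C : Cov W X) {b : W → ℝ} {ε : ℝ} (hb : IsBump b ε)
    (i : Fin C.N) (q : ℕ) : VV C q →L[ℂ] VV C (q + 1) :=
  (WX T C q (C.σ i)).comp ((Eop T C q i).comp ((BB hb q).comp (Rop T C q i))) +
  (mulV C (q + 1) (C.σ i)).comp ((Eop T C (q + 1) i).comp
    ((CB (kD_cont T hb q) hb.pos (kD_smul T hb q)).comp (Rop T C q i)))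

/-- Charts before and after `i`. -/
def lpre (C : Cov W X) (i : Fin C.N) : List (Fin C.N) := (List.finRange C.N).take i

def lsuf (C : Cov W X) (i : Fin C.N) : List (Fin C.N) := (List.finRange C.N).drop (i + 1)

/-- `δ̂`. -/
noncomputable def dV (T : Ty W) (C : Cov W X) {b : W → ℝ} {ε : ℝ} (hb : IsBump b ε)
    (q : ℕ) : VV C q →L[ℂ] VV C (q + 1) :=
  ∑ i : Fin C.N, ((WX T C q (C.ρ i)).comp ((ShL T C hb (lpre C i) q).comp
      ((NI T C hb i q).comp (ShL T C hb (lsuf C i) q))) +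
    (mulV C (q + 1) (C.ρ i)).comp ((ShL T C hb (lpre C i) (q + 1)).comp
      ((NdI T C hb i q).comp (ShL T C hb (lsuf C i) q))))

end

end FB
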