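import Pool.Agent.H.MP_fb873c_an.G2g3
import Pool.Agent.H.MP_fb873c_an.G2h3
import Pool.Agent.H.MP_fb873c_an.G2i0

/-! # Part G2i: compositions over lists of charts; the smoothing operator `s` (G2i1) -/

namespace FB

open scoped Topology ContDiff Manifold BoundedContinuousFunction

universe u


section

variable {W : Type} [NormedAddCommGroup W] [InnerProductSpace ℝ W] [FiniteDimensional ℝ W]
  [MeasurableSpace W] [BorelSpace W]
variable {X : Type u} [TopologicalSpace X] [ChartedSpace W X] [IsManifold 𝓘(ℝ, W) ∞ X]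
  [CompactSpace X] [T2Space X]

private theorem ShL_cons' (T : Ty W) (C : Cov W X) {b : W → ℝ} {ε : ℝ} (hb : IsBump b ε)
    (i : Fin C.N) (l : List (Fin C.N)) (q : ℕ) (x : VV C q) :
    ShL T C hb (i :: l) q x = ShI T C hb i q (ShL T C hb l q x) := by
  unfold ShL
  rw [List.map_cons, List.prod_cons]
  rfl

private theorem SL_cons' (T : Ty W) (hX : TGood T X) (C : Cov W X) {b : W → ℝ} {ε : ℝ}
    (hb : IsBump b ε) (i : Fin C.N) (l : List (Fin C.N)) (q : ℕ) (x : SFm T X q) :
    SL T hX C hb (i :: l) q x = SI T hX C hb i q (SL T hX C hb l q x) := by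
  unfold SL
  rw [List.map_cons, List.prod_cons]
  rfl

private theorem ShL_nil' (T : Ty W) (C : Cov W X) {b : W → ℝ} {ε : ℝ} (hb : IsBump b ε)
    (q : ℕ) (x : VV C q) : ShL T C hb [] q x = x := rfl

private theorem SL_nil' (T : Ty W) (hX : TGood T X) (C : Cov W X) {b : W → ℝ} {ε : ℝ}
    (hb : IsBump b ε) (q : ℕ) (x : SFm T X q) : SL T hX C hb [] q x = x := rfl

private theorem PL_nil' (T : Ty W) (hX : TGood T X) (C : Cov W X) {b : W → ℝ} {ε : ℝ}
    (hb : IsBump b ε) (q : ℕ) (x : SFm T X (q + 1)) : PL T hX C hb [] q x = 0 := rfl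

private theorem PL_cons' (T : Ty W) (hX : TGood T X) (C : Cov W X) {b : W → ℝ} {ε : ℝ}
    (hb : IsBump b ε) (i : Fin C.N) (l : List (Fin C.N)) (q : ℕ) (x : SFm T X (q + 1)) :
    PL T hX C hb (i :: l) q x = PI T hX C hb i q x + SI T hX C hb i q (PL T hX C hb l q x) := rfl

private theorem PhL_nil' (T : Ty W) (C : Cov W X) {b : W → ℝ} {ε : ℝ}
    (hb : IsBump b ε) (q : ℕ) (x : VV C (q + 1)) : PhL T C hb [] q x = 0 := rfl

private theorem PhL_cons' (T : Ty W) (C : Cov W X) {b : W → ℝ} {ε : ℝ}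
    (hb : IsBump b ε) (i : Fin C.N) (l : List (Fin C.N)) (q : ℕ) (x : VV C (q + 1)) :
    PhL T C hb (i :: l) q x = PhI T C hb i q x + ShI T C hb i q (PhL T C hb l q x) := rfl

omit [FiniteDimensional ℝ W] [MeasurableSpace W] [BorelSpace W] [CompactSpace X] [T2Space X] in
private theorem G2i1_eqsub (T : Ty W) {q : ℕ} {x y z : SFm T X q} (h : x + y = z) :
    x = z - y := by
  apply Subtype.ext
  funext p
  have h1 : x.1 p + y.1 p = z.1 p := congrFun (congrArg Subtype.val h) p
  exact eq_sub_of_add_eq h1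

omit [FiniteDimensional ℝ W] [MeasurableSpace W] [BorelSpace W] [CompactSpace X] [T2Space X] in
private theorem G2i1_sac (T : Ty W) {q : ℕ} (x y : SFm T X q) : x - y + y = x :=
  Subtype.ext (funext fun p => sub_add_cancel (x.1 p) (y.1 p))

omit [FiniteDimensional ℝ W] [MeasurableSpace W] [BorelSpace W] [CompactSpace X] [T2Space X] in
private theorem G2i1_sub (T : Ty W) {q r : ℕ} (f : SFm T X q →ₗ[ℂ] SFm T X r) (x y : SFm T X q) :
    f (x - y) = f x - f y := by
  have h := map_add f (x - y) y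
  rw [G2i1_sac T] at h
  exact G2i1_eqsub T h.symm

omit [FiniteDimensional ℝ W] [MeasurableSpace W] [BorelSpace W] [CompactSpace X] [T2Space X] in
private theorem G2i1_self (T : Ty W) {q : ℕ} (x : SFm T X q) : x - x = 0 :=
  Subtype.ext (funext fun p => sub_self (x.1 p))

omit [FiniteDimensional ℝ W] [MeasurableSpace W] [BorelSpace W] [CompactSpace X] [T2Space X] in
private theorem G2i1_inj (T : Ty W) {q : ℕ} {x y z : SFm T X q} (h : x - y = x - z) : y = z := by
  apply Subtype.ext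
  funext p
  have h1 : x.1 p - y.1 p = x.1 p - z.1 p := congrFun (congrArg Subtype.val h) p
  exact sub_right_injective h1

omit [FiniteDimensional ℝ W] [MeasurableSpace W] [BorelSpace W] [CompactSpace X] [T2Space X] in
private theorem G2i1_split (T : Ty W) {q : ℕ} (x y z : SFm T X q) :
    x - z = (x - y) + (y - z) :=
  Subtype.ext (funext fun p => (sub_add_sub_cancel (x.1 p) (y.1 p) (z.1 p)).symm)

private theorem Dm_SI' (T : Ty W) (hX : TGood T X) (C : Cov W X) {b : W → ℝ} {ε : ℝ}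
    (hb : IsBump b ε) (i : Fin C.N) (hε : EpsC C i (C.χ i) (C.ψ i) ε) {q : ℕ} (η : SFm T X q) :
    Dm T hX q (SI T hX C hb i q η) = SI T hX C hb i (q + 1) (Dm T hX q η) := by
  have h2 := SI_homotopy T hX C hb i hε (Dm T hX q η)
  rw [Dm_Dm, map_zero, add_zero] at h2
  have h3 : Dm T hX q (η - SI T hX C hb i q η) = Dm T hX q (PI T hX C hb i q (Dm T hX q η)) := by
    cases q with
    | zero => exact congrArg (Dm T hX 0) (SI_homotopy_zero T hX C hb i η)
    | succ q =>
      refine (congrArg (Dm T hX (q + 1)) (SI_homotopy T hX C hb i hε η)).trans ?_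
      rw [map_add, Dm_Dm, zero_add]
  rw [G2i1_sub T, ← h2] at h3
  exact G2i1_inj T h3

/-- JOB G2i1 (inductions over the list). -/
theorem ShL_ioV (T : Ty W) (hX : TGood T X) (C : Cov W X) {b : W → ℝ} {ε : ℝ} (hb : IsBump b ε)
    (l : List (Fin C.N)) {q : ℕ} (η : SFm T X q) :
    ShL T C hb l q (ioV T C q η) = ioV T C q (SL T hX C hb l q η) := by
  induction l with
  | nil => rw [ShL_nil', SL_nil']
  | cons i l ih => rw [ShL_cons', SL_cons', ih, ShI_ioV]

theorem PhL_ioV (T : Ty W) (hX : TGood T X) (C : Cov W X) {b : W → ℝ} {ε : ℝ} (hb : IsBump b ε)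
    (l : List (Fin C.N)) {q : ℕ} (η : SFm T X (q + 1)) :
    PhL T C hb l q (ioV T C (q + 1) η) = ioV T C q (PL T hX C hb l q η) := by
  induction l with
  | nil => rw [PhL_nil', PL_nil', map_zero]
  | cons i l ih => rw [PhL_cons', PL_cons', ih, PhI_ioV T hX, ShI_ioV T hX, map_add]

theorem SL_homotopy (T : Ty W) (hX : TGood T X) (C : Cov W X) {b : W → ℝ} {ε : ℝ} (hb : IsBump b ε)
    (hε : ∀ i, EpsC C i (C.χ i) (C.ψ i) ε) (l : List (Fin C.N)) {q : ℕ} (η : SFm T X (q + 1)) :
    η - SL T hX C hb l (q + 1) η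
      = Dm T hX q (PL T hX C hb l q η) + PL T hX C hb l (q + 1) (Dm T hX (q + 1) η) := by
  induction l with
  | nil => rw [SL_nil', PL_nil', PL_nil', map_zero, G2i1_self T, add_zero]
  | cons i l ih =>
    have h1 := SI_homotopy T hX C hb i (hε i) η
    have h2 := congrArg (SI T hX C hb i (q + 1)) ih
    rw [G2i1_sub T, map_add, ← Dm_SI' T hX C hb i (hε i)] at h2
    rw [SL_cons', PL_cons', PL_cons', map_add]
    rw [G2i1_split T η (SI T hX C hb i (q + 1) η), h1, h2]
    exact add_add_add_comm _ _ _ _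

theorem SL_homotopy_zero (T : Ty W) (hX : TGood T X) (C : Cov W X) {b : W → ℝ} {ε : ℝ}
    (hb : IsBump b ε) (hε : ∀ i, EpsC C i (C.χ i) (C.ψ i) ε) (l : List (Fin C.N)) (η : SFm T X 0) :
    η - SL T hX C hb l 0 η = PL T hX C hb l 0 (Dm T hX 0 η) := by
  induction l with
  | nil => rw [SL_nil', PL_nil', G2i1_self T]
  | cons i l ih =>
    have h1 := SI_homotopy_zero T hX C hb i η
    have h2 := congrArg (SI T hX C hb i 0) ih
    rw [G2i1_sub T] at h2
    rw [SL_cons', PL_cons', ← h1, ← h2]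
    exact G2i1_split T _ _ _

theorem Dm_SL (T : Ty W) (hX : TGood T X) (C : Cov W X) {b : W → ℝ} {ε : ℝ} (hb : IsBump b ε)
    (hε : ∀ i, EpsC C i (C.χ i) (C.ψ i) ε) (l : List (Fin C.N)) {q : ℕ} (η : SFm T X q) :
    Dm T hX q (SL T hX C hb l q η) = SL T hX C hb l (q + 1) (Dm T hX q η) := by
  induction l with
  | nil => rw [SL_nil', SL_nil']
  | cons i l ih => rw [SL_cons', SL_cons', Dm_SI' T hX C hb i (hε i), ih]

end

end FB
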