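import Pool.Agent.H.MP_fb873c_an.G2f1
import Pool.Agent.H.MP_fb873c_an.G2g1

/-! # Part G2i: compositions over lists of charts; the smoothing operator `s` (G2i2) -/

namespace FB

open scoped Topology ContDiff Manifold BoundedContinuousFunction

universe u


section

variable {W : Type} [NormedAddCommGroup W] [InnerProductSpace ℝ W] [FiniteDimensional ℝ W]
  [MeasurableSpace W] [BorelSpace W]
variable {X : Type u} [TopologicalSpace X] [ChartedSpace W X] [IsManifold 𝓘(ℝ, W) ∞ X]
  [CompactSpace X] [T2Space X]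

theorem G2i2_supp (T : Ty W) (C : Cov W X) (q : ℕ) (i : Fin C.N) (v : VV C q) :
    HasCompactSupport (fun z => Rop T C q i v z) := by
  have hK : IsCompact (tsupport (C.χ i)) := (isClosed_tsupport (C.χ i)).isCompact
  have hs := tsupport_χ_subset C i
  have hK' : IsCompact (chartAt W (C.c i) '' tsupport (C.χ i)) :=
    hK.image_of_continuousOn ((chartAt W (C.c i)).continuousOn.mono hs)
  refine HasCompactSupport.intro hK' fun z hz => ?_
  rw [Rop_apply]
  by_cases hz' : z ∈ (chartAt W (C.c i)).target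
  · rw [Set.indicator_of_mem hz']
    have h1 : (chartAt W (C.c i)).symm z ∉ tsupport (C.χ i) := fun h =>
      hz ⟨_, h, (chartAt W (C.c i)).right_inv hz'⟩
    have h2 : ∀ α : Lam W q, (0 : ℝ) • α = 0 := fun α => zero_smul ℝ α
    rw [image_eq_zero_of_notMem_tsupport h1]
    exact h2 _
  · rw [Set.indicator_of_notMem hz']

theorem G2i2_pi (T : Ty W) (C : Cov W X) (q : ℕ) (i : Fin C.N) (v : VV C q) (z : W) :
    T.pi q (Rop T C q i v z) = Rop T C q i v z := by
  rw [Rop_apply]
  by_cases hz' : z ∈ (chartAt W (C.c i)).target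
  · rw [Set.indicator_of_mem hz']
    have h2 := ((T.pi q).restrictScalars ℝ).map_smul (C.χ i ((chartAt W (C.c i)).symm z))
      (kapL T C (C.c i) ((chartAt W (C.c i)).symm z) (v ((chartAt W (C.c i)).symm z)))
    refine h2.trans ?_
    show C.χ i ((chartAt W (C.c i)).symm z) • T.pi q (kapL T C (C.c i)
      ((chartAt W (C.c i)).symm z) (v ((chartAt W (C.c i)).symm z))) = _
    rw [pi_kapL]
  · rw [Set.indicator_of_notMem hz', map_zero]

/-- JOB G2i2.  `b * (R_i v)` is a smooth compactly supported invariant form. -/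
theorem exists_BR (T : Ty W) (hX : TGood T X) (C : Cov W X) {b : W → ℝ} {ε : ℝ} (hb : IsBump b ε)
    (i : Fin C.N) (q : ℕ) :
    ∃ A : VV C q →ₗ[ℂ] SW T q, ∀ v x, (A v).1 x = Bop b ε (Rop T C q i v) x := by
  have hl : ∀ (u u' : W → Lam W q) (x : W), (∀ z, ‖z - x‖ ≤ ε → u z = u' z) →
      Bop b ε u x = Bop b ε u' x :=
    (cop_props (bump_kernel_continuous hb q) hb.pos (bump_kernel_smul q)).2.1
  have h0 : ∀ x, Bop b ε (0 : W → Lam W q) x = 0 := by
    intro x
    have h := BB_apply hb q (0 : W →ᵇ Lam W q) x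
    rw [map_zero] at h
    exact h.symm
  obtain ⟨h1, h2, -⟩ := bop_props T hb q
  refine ⟨{ toFun := fun v => ⟨Bop b ε (Rop T C q i v), h1 _ (Rop T C q i v).continuous,
              G2f1_supp (P := Bop b ε) hl h0 (G2i2_supp T C q i v),
              h2 _ (Rop T C q i v).continuous (G2i2_pi T C q i v)⟩
            map_add' := fun u v => Subtype.ext (funext fun x => ?_)
            map_smul' := fun c u => Subtype.ext (funext fun x => ?_) }, fun v x => rfl⟩
  · show Bop b ε (Rop T C q i (u + v)) x =
      Bop b ε (Rop T C q i u) x + Bop b ε (Rop T C q i v) x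
    rw [← BB_apply hb, ← BB_apply hb, ← BB_apply hb, map_add, map_add]
    rfl
  · show Bop b ε (Rop T C q i (c • u)) x = c • Bop b ε (Rop T C q i u) x
    rw [← BB_apply hb, ← BB_apply hb, map_smul, map_smul]
    rfl

end

end FB
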