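import Pool.Agent.H.MP_fb873c_an.G2i0
import Pool.Agent.H.MP_fb873c_an.G2i2

/-! # Part G2i: compositions over lists of charts; the smoothing operator `s` (G2i3) -/

namespace FB

open scoped Topology ContDiff Manifold BoundedContinuousFunction

universe u


section

variable {W : Type} [NormedAddCommGroup W] [InnerProductSpace ℝ W] [FiniteDimensional ℝ W]
  [MeasurableSpace W] [BorelSpace W]
variable {X : Type u} [TopologicalSpace X] [ChartedSpace W X] [IsManifold 𝓘(ℝ, W) ∞ X]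
  [CompactSpace X] [T2Space X]

noncomputable def BR (T : Ty W) (hX : TGood T X) (C : Cov W X) {b : W → ℝ} {ε : ℝ} (hb : IsBump b ε)
    (i : Fin C.N) (q : ℕ) : VV C q →ₗ[ℂ] SW T q := (exists_BR T hX C hb i q).choose

theorem BR_apply (T : Ty W) (hX : TGood T X) (C : Cov W X) {b : W → ℝ} {ε : ℝ} (hb : IsBump b ε)
    (i : Fin C.N) (q : ℕ) (v : VV C q) (x : W) :
    (BR T hX C hb i q v).1 x = Bop b ε (Rop T C q i v) x := (exists_BR T hX C hb i q).choose_spec v x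

/-- The smoothing operator localised in the chart `i`. -/
noncomputable def nI (T : Ty W) (hX : TGood T X) (C : Cov W X) {b : W → ℝ} {ε : ℝ} (hb : IsBump b ε)
    (i : Fin C.N) (q : ℕ) : VV C q →ₗ[ℂ] SFm T X q :=
  (mulA T (C.σ i) q) ∘ₗ (EA T hX C q i) ∘ₗ (BR T hX C hb i q)

/-- `s = ∑_i ρ_i S_{<i} n_i Ŝ_{>i}`. -/
noncomputable def sV (T : Ty W) (hX : TGood T X) (C : Cov W X) {b : W → ℝ} {ε : ℝ} (hb : IsBump b ε)
    (q : ℕ) : VV C q →ₗ[ℂ] SFm T X q :=
  ∑ i : Fin C.N, (mulA T (C.ρ i) q) ∘ₗ (SL T hX C hb (lpre C i) q) ∘ₗ (nI T hX C hb i q) ∘ₗ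
    (ShL T C hb (lsuf C i) q).toLinearMap

end

end FB
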