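import Pool.Agent.H.MP_fb873c_an.G2g2
import Pool.Agent.H.MP_fb873c_an.G2i3

/-! # Part G2i: compositions over lists of charts; the smoothing operator `s` (G2i4) -/

namespace FB

open scoped Topology ContDiff Manifold BoundedContinuousFunction

universe u


section

variable {W : Type} [NormedAddCommGroup W] [InnerProductSpace ℝ W] [FiniteDimensional ℝ W]
  [MeasurableSpace W] [BorelSpace W]
variable {X : Type u} [TopologicalSpace X] [ChartedSpace W X] [IsManifold 𝓘(ℝ, W) ∞ X]
  [CompactSpace X] [T2Space X]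

/-- JOB G2i2. -/
theorem ioV_nI (T : Ty W) (hX : TGood T X) (C : Cov W X) {b : W → ℝ} {ε : ℝ} (hb : IsBump b ε)
    (i : Fin C.N) {q : ℕ} (v : VV C q) : ioV T C q (nI T hX C hb i q v) = NI T C hb i q v := by
  have h1 : incl T q (BR T hX C hb i q v) = BB hb q (Rop T C q i v) := by
    apply BoundedContinuousFunction.ext
    intro x
    rw [incl_apply, BR_apply, BB_apply]
  show ioV T C q (mulA T (C.σ i) q (EA T hX C q i (BR T hX C hb i q v))) =
    mulV C q (C.σ i) (Eop T C q i (BB hb q (Rop T C q i v)))
  rw [← mulV_ioV T C (C.smσ i), ← Eop_incl, h1]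

end

end FB
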