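import Pool.Agent.H.MP_fb873c_an.G2g2
import Pool.Agent.H.MP_fb873c_an.G2h1
import Pool.Agent.H.MP_fb873c_an.G2h2
import Pool.Agent.H.MP_fb873c_an.G2i3

/-! # Part G2i: compositions over lists of charts; the smoothing operator `s` (G2i5) -/

namespace FB

open scoped Topology ContDiff Manifold BoundedContinuousFunction

universe u


section

variable {W : Type} [NormedAddCommGroup W] [InnerProductSpace ℝ W] [FiniteDimensional ℝ W]
  [MeasurableSpace W] [BorelSpace W]
variable {X : Type u} [TopologicalSpace X] [ChartedSpace W X] [IsManifold 𝓘(ℝ, W) ∞ X]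
  [CompactSpace X] [T2Space X]

/-- the mollification vanishes where the form vanishes on the closed `ε`-ball -/
theorem g2i5_bop_zero {b : W → ℝ} {ε : ℝ} (hb : IsBump b ε) {q : ℕ}
    (u : W → Lam W q) (x : W) (h : ∀ z, ‖z - x‖ ≤ ε → u z = 0) : Bop b ε u x = 0 := by
  have h1 := (cop_props (bump_kernel_continuous hb q) hb.pos (bump_kernel_smul q)).2.1 u
    (fun _ => 0) x h
  have h2 : Cop (fun y => b y • ContinuousLinearMap.id ℝ (Lam W q)) ε
      (fun _ : W => (0 : Lam W q)) x = 0 := by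
    unfold Cop Avg
    simp only [map_zero, MeasureTheory.integral_zero]
  exact h1.trans h2

/-- the restriction vanishes off the image of the support of `χ` -/
theorem g2i5_Rop_zero (T : Ty W) (C : Cov W X) {q : ℕ} (i : Fin C.N) (v : VV C q) (z : W)
    (hz : z ∉ chartAt W (C.c i) '' tsupport (C.χ i)) : Rop T C q i v z = 0 := by
  rw [Rop_apply]
  by_cases h : z ∈ (chartAt W (C.c i)).target
  · rw [Set.indicator_of_mem h]
    have h1 : C.χ i ((chartAt W (C.c i)).symm z) = 0 :=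
      image_eq_zero_of_notMem_tsupport fun h2 => hz ⟨_, h2, (chartAt W (C.c i)).right_inv h⟩
    rw [h1]
    exact g2h1_zero_smul _
  · rw [Set.indicator_of_notMem h]

theorem g2i5_supp (T : Ty W) (hX : TGood T X) (C : Cov W X) {b : W → ℝ} {ε : ℝ} (hb : IsBump b ε)
    (i : Fin C.N) (hε : EpsC C i (C.χ i) (C.ψ i) ε) {q : ℕ} (v : VV C q) :
    ∀ z ∈ tsupport (BR T hX C hb i q v).1, z ∈ (chartAt W (C.c i)).target ∧
      ∀ᶠ y in 𝓝 ((chartAt W (C.c i)).symm z), C.ψ i y = 1 := by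
  have hK : IsCompact (chartAt W (C.c i) '' tsupport (C.χ i)) :=
    (isClosed_tsupport (C.χ i)).isCompact.image_of_continuousOn
      ((chartAt W (C.c i)).continuousOn.mono (tsupport_χ_subset C i))
  have hc := hK.cthickening_eq_biUnion_closedBall hb.pos.le
  have hsub : tsupport (BR T hX C hb i q v).1 ⊆
      Metric.cthickening ε (chartAt W (C.c i) '' tsupport (C.χ i)) := by
    refine closure_minimal ?_ Metric.isClosed_cthickening
    intro x hx
    by_contra hcon
    apply hx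
    rw [BR_apply]
    refine g2i5_bop_zero hb _ x fun z hz => g2i5_Rop_zero T C i v z fun hzK => hcon ?_
    rw [hc, Set.mem_iUnion₂]
    refine ⟨z, hzK, ?_⟩
    rw [Metric.mem_closedBall, dist_eq_norm, norm_sub_rev]
    exact hz
  intro z hz
  have h1 := hsub hz
  rw [hc, Set.mem_iUnion₂] at h1
  obtain ⟨k, ⟨p, hp, rfl⟩, hk⟩ := h1
  rw [Metric.mem_closedBall, dist_eq_norm] at hk
  exact hε p hp z hk

/-- JOB G2i3.  Leibniz rule `Dm (mulA f η) = WXA f η + mulA f (Dm η)`. -/
theorem Dm_mulA (T : Ty W) (hX : TGood T X) {f : X → ℝ} (hf : ContMDiff 𝓘(ℝ, W) 𝓘(ℝ, ℝ) ∞ f)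
    {q : ℕ} (η : SFm T X q) :
    Dm T hX q (mulA T f q η) = WXA T hX f q η + mulA T f (q + 1) (Dm T hX q η) := by
  apply Subtype.ext
  funext p
  have h1 : (mulA T f q η).1 = fun p => f p • η.1 p := funext fun p => mulA_apply T hf q η p
  have h2 : (WXA T hX f q η + mulA T f (q + 1) (Dm T hX q η)).1 p =
      (WXA T hX f q η).1 p + (mulA T f (q + 1) (Dm T hX q η)).1 p := rfl
  have h3 : T.pi (q + 1) (f p • dform η.1 p) = f p • T.pi (q + 1) (dform η.1 p) :=
    ((T.pi (q + 1)).restrictScalars ℝ).map_smul (f p) (dform η.1 p)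
  rw [h2, Dm_apply, h1, dform_fsmul hf η.2.1 p, WXA_apply T hX hf, mulA_apply T hf, Dm_apply,
    map_add, h3]
  exact add_comm (f p • T.pi (q + 1) (dform η.1 p)) (wdg T (dfun p f p) (η.1 p))

/-- JOB G2i3.  `ι D n_i = NdI` (`Dm_mulA`, `Dm_EA` with `EpsC`, `kD_spec`). -/
theorem ioV_Dm_nI (T : Ty W) (hX : TGood T X) (C : Cov W X) {b : W → ℝ} {ε : ℝ} (hb : IsBump b ε)
    (hε : ∀ i, EpsC C i (C.χ i) (C.ψ i) ε)
    (i : Fin C.N) {q : ℕ} (v : VV C q) :
    ioV T C (q + 1) (Dm T hX q (nI T hX C hb i q v)) = NdI T C hb i q v := by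
  have e1 : incl T q (BR T hX C hb i q v) = BB hb q (Rop T C q i v) := by
    ext1 x
    rw [incl_apply, BR_apply, BB_apply]
  have e2 : incl T (q + 1) (DW T q (BR T hX C hb i q v)) =
      CB (kD_cont T hb q) hb.pos (kD_smul T hb q) (Rop T C q i v) := by
    ext1 x
    have h1 : (BR T hX C hb i q v).1 = Bop b ε (Rop T C q i v) :=
      funext fun x => BR_apply T hX C hb i q v x
    rw [incl_apply, DW_apply, CB_apply, h1]
    exact kD_spec T hb q _ (Rop T C q i v).continuous x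
  have e3 : Dm T hX q (EA T hX C q i (BR T hX C hb i q v)) =
      EA T hX C (q + 1) i (DW T q (BR T hX C hb i q v)) :=
    Dm_EA T hX C i _ (g2i5_supp T hX C hb i (hε i) v)
  show ioV T C (q + 1) (Dm T hX q (mulA T (C.σ i) q (EA T hX C q i (BR T hX C hb i q v)))) =
    WX T C q (C.σ i) (Eop T C q i (BB hb q (Rop T C q i v))) +
    mulV C (q + 1) (C.σ i) (Eop T C (q + 1) i
      (CB (kD_cont T hb q) hb.pos (kD_smul T hb q) (Rop T C q i v)))
  rw [Dm_mulA T hX (C.smσ i), map_add, ← WX_ioV T hX C (C.smσ i), ← Eop_incl T hX C, e3,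
    ← mulV_ioV T C (C.smσ i), ← Eop_incl T hX C, e1, e2]

end

end FB
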