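import Pool.Agent.H.MP_fb873c_an.G2i1
import Pool.Agent.H.MP_fb873c_an.G2i4
import Pool.Agent.H.MP_fb873c_an.G2i5

/-! # Part G2i: compositions over lists of charts; the smoothing operator `s` (G2i6) -/

namespace FB

open scoped Topology ContDiff Manifold BoundedContinuousFunction

universe u


section

variable {W : Type} [NormedAddCommGroup W] [InnerProductSpace ℝ W] [FiniteDimensional ℝ W]
  [MeasurableSpace W] [BorelSpace W]
variable {X : Type u} [TopologicalSpace X] [ChartedSpace W X] [IsManifold 𝓘(ℝ, W) ∞ X]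
  [CompactSpace X] [T2Space X]

theorem g2i6_sV (T : Ty W) (hX : TGood T X) (C : Cov W X) {b : W → ℝ} {ε : ℝ} (hb : IsBump b ε)
    {q : ℕ} (v : VV C q) : sV T hX C hb q v =
      ∑ i : Fin C.N, mulA T (C.ρ i) q (SL T hX C hb (lpre C i) q (nI T hX C hb i q
        (ShL T C hb (lsuf C i) q v))) := by
  unfold sV
  rw [LinearMap.sum_apply]
  rfl

theorem g2i6_io (T : Ty W) (hX : TGood T X) (C : Cov W X) {b : W → ℝ} {ε : ℝ} (hb : IsBump b ε)
    (i : Fin C.N) {q : ℕ} (x : VV C q) :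
    ioV T C q (SL T hX C hb (lpre C i) q (nI T hX C hb i q x)) =
      ShL T C hb (lpre C i) q (NI T C hb i q x) := by
  rw [← ShL_ioV, ioV_nI]

/-- JOB G2i4. -/
theorem ioV_sV (T : Ty W) (hX : TGood T X) (C : Cov W X) {b : W → ℝ} {ε : ℝ} (hb : IsBump b ε)
    {q : ℕ} (v : VV C q) : ioV T C q (sV T hX C hb q v) =
      ∑ i : Fin C.N, mulV C q (C.ρ i) (ShL T C hb (lpre C i) q (NI T C hb i q
        (ShL T C hb (lsuf C i) q v))) := by
  rw [g2i6_sV, map_sum]
  refine Finset.sum_congr rfl fun i _ => ?_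
  rw [← mulV_ioV T C (C.smρ i), g2i6_io]

/-- JOB G2i4. -/
theorem ioV_Dm_sV (T : Ty W) (hX : TGood T X) (C : Cov W X) {b : W → ℝ} {ε : ℝ} (hb : IsBump b ε)
    (hε : ∀ i, EpsC C i (C.χ i) (C.ψ i) ε) {q : ℕ} (v : VV C q) :
    ioV T C (q + 1) (Dm T hX q (sV T hX C hb q v)) = dV T C hb q v := by
  rw [g2i6_sV, map_sum, map_sum]
  unfold dV
  rw [ContinuousLinearMap.sum_apply]
  refine Finset.sum_congr rfl fun i _ => ?_
  rw [Dm_mulA T hX (C.smρ i), map_add, ← WX_ioV T hX C (C.smρ i), ← mulV_ioV T C (C.smρ i),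
    g2i6_io, Dm_SL T hX C hb hε, ← ShL_ioV, ioV_Dm_nI T hX C hb hε]
  rfl

end

end FB
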