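import Pool.Agent.H.MP_fb873c_an.G2i0
import Pool.Agent.H.MP_fb873c_an.G2i1
import Pool.Agent.H.MP_fb873c_an.G2i2
import Pool.Agent.H.MP_fb873c_an.G2i3
import Pool.Agent.H.MP_fb873c_an.G2i4
import Pool.Agent.H.MP_fb873c_an.G2i5
import Pool.Agent.H.MP_fb873c_an.G2i6
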