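import Pool.Agent.H.MP_fb873c_an.G3a

/-! # Part G3: reach of the operators, decomposition of `Ŝ` (G3b) -/

namespace FB

open scoped Topology ContDiff Manifold BoundedContinuousFunction

universe u


section

variable {W : Type} [NormedAddCommGroup W] [InnerProductSpace ℝ W] [FiniteDimensional ℝ W]
  [MeasurableSpace W] [BorelSpace W]
variable {X : Type u} [MetricSpace X] [ChartedSpace W X] [IsManifold 𝓘(ℝ, W) ∞ X]
  [CompactSpace X]

/-- In the chart `i`, points of the supports at chart distance `≤ ε` are at distance `≤ r`. -/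
def EpsR (C : Cov W X) (i : Fin C.N) (ε r : ℝ) : Prop :=
  ∀ p ∈ tsupport (C.ψ i), ∀ p' ∈ tsupport (C.χ i),
    ‖chartAt W (C.c i) p - chartAt W (C.c i) p'‖ ≤ ε → dist p p' ≤ r

/-- JOB G3b.  Compactness. -/
theorem exists_epsR (C : Cov W X) (i : Fin C.N) {r : ℝ} (hr : 0 < r) :
    ∃ ε0 : ℝ, 0 < ε0 ∧ ∀ ε ≤ ε0, EpsR C i ε r := by
  have hK : IsCompact (tsupport (C.ψ i)) := (isClosed_tsupport _).isCompact
  have hL : IsCompact (tsupport (C.χ i)) := (isClosed_tsupport _).isCompact
  have hKs := C.ψs i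
  have hLs := tsupport_χ_subset C i
  have hS : IsCompact ((tsupport (C.ψ i) ×ˢ tsupport (C.χ i)) ∩ {x : X × X | r ≤ dist x.1 x.2}) :=
    (hK.prod hL).inter_right (isClosed_le continuous_const (continuous_fst.dist continuous_snd))
  have hcont : ContinuousOn
      (fun x : X × X => ‖chartAt W (C.c i) x.1 - chartAt W (C.c i) x.2‖)
      ((tsupport (C.ψ i) ×ˢ tsupport (C.χ i)) ∩ {x : X × X | r ≤ dist x.1 x.2}) := by
    refine ContinuousOn.norm (ContinuousOn.sub ?_ ?_)
    · exact (chartAt W (C.c i)).continuousOn.comp continuousOn_fst (fun x hx => hKs hx.1.1)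
    · exact (chartAt W (C.c i)).continuousOn.comp continuousOn_snd (fun x hx => hLs hx.1.2)
  rcases Set.eq_empty_or_nonempty
    ((tsupport (C.ψ i) ×ˢ tsupport (C.χ i)) ∩ {x : X × X | r ≤ dist x.1 x.2}) with hE | hne
  · refine ⟨1, one_pos, fun ε _ p hp p' hp' _ => ?_⟩
    by_contra h
    have hm : (p, p') ∈ ((tsupport (C.ψ i) ×ˢ tsupport (C.χ i)) ∩
        {x : X × X | r ≤ dist x.1 x.2}) := ⟨⟨hp, hp'⟩, (not_le.1 h).le⟩
    rw [hE] at hm
    exact hm
  · obtain ⟨x, hx, hmin⟩ := hS.exists_isMinOn hne hcont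
    have hpos : 0 < ‖chartAt W (C.c i) x.1 - chartAt W (C.c i) x.2‖ := by
      rw [norm_pos_iff, sub_ne_zero]
      intro h
      have h1 : x.1 = x.2 := (chartAt W (C.c i)).injOn (hKs hx.1.1) (hLs hx.1.2) h
      have h2 : r ≤ dist x.1 x.2 := hx.2
      rw [h1, dist_self] at h2
      exact absurd h2 (not_le.2 hr)
    refine ⟨‖chartAt W (C.c i) x.1 - chartAt W (C.c i) x.2‖ / 2, half_pos hpos,
      fun ε hε p hp p' hp' h => ?_⟩
    by_contra hc
    have hm : (p, p') ∈ ((tsupport (C.ψ i) ×ˢ tsupport (C.χ i)) ∩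
        {x : X × X | r ≤ dist x.1 x.2}) := ⟨⟨hp, hp'⟩, (not_le.1 hc).le⟩
    have h3 : ‖chartAt W (C.c i) x.1 - chartAt W (C.c i) x.2‖ ≤
        ‖chartAt W (C.c i) p - chartAt W (C.c i) p'‖ := hmin hm
    linarith

theorem g3b_s1 {E : Type*} [AddCommGroup E] [Module ℝ E] (a : ℝ) : a • (0 : E) = 0 := smul_zero a

theorem g3b_s2 {E : Type*} [AddCommGroup E] [Module ℝ E] (a : E) : (0 : ℝ) • a = 0 := zero_smul ℝ a

theorem g3b_s3 {E : Type*} [AddCommGroup E] [Module ℂ E] (a : E) : (0 : ℂ) • a = 0 := zero_smul ℂ a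

theorem g3b_EL_zero (T : Ty W) (C : Cov W X) (i : Fin C.N) (f : X → ℝ) {q : ℕ} (p : X)
    (hf : f p = 0) (α : Lam W q) : EL T C i f p α = 0 := by
  funext j
  have e : EL T C i f p α j = ((C.θ j p * f p : ℝ) : ℂ) •
      ((pbk (trd (C.c j) (C.c i) p) q ∘ₗ (T.pi q).toLinearMap) α) := rfl
  rw [e, hf, mul_zero, Complex.ofReal_zero]
  exact g3b_s3 (E := Lam W q) _

theorem g3b_WL_zero (T : Ty W) (C : Cov W X) (i : Fin C.N) (f : X → ℝ) {q : ℕ} (p : X)
    (hp : p ∉ tsupport f) (e : Fin C.N → Lam W q) : WL T C i f p e = 0 := by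
  have h3 : dfc (W := W) (C.c i) f p = 0 := by
    unfold dfc
    rw [Set.indicator_of_notMem hp]
  show wdg T (dfc (C.c i) f p) (kapL T C (C.c i) p e) = 0
  rw [h3]
  show T.pi (q + 1) (alt ((0 : W →L[ℝ] ℝ).smulRight (kapL T C (C.c i) p e))) = 0
  rw [ContinuousLinearMap.zero_smulRight]
  have h4 : alt (0 : W →L[ℝ] Lam W q) = 0 :=
    map_zero (ContinuousAlternatingMap.alternatizeUncurryFinCLM ℝ W ℂ)
  rw [h4, map_zero]

/-- JOB G3b.  Reach of `Ŝ_i`: `Eop` is local (value at `p ∈ supp ψ_i` depends on `u (chart p)`), `KB`, `BB`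
have reach `ε` in the chart, `Rop`, `Wop` are local with support in `chart (tsupport χ_i)`. -/
theorem ShI_rch (T : Ty W) (C : Cov W X) {b : W → ℝ} {ε : ℝ} (hb : IsBump b ε) (i : Fin C.N) {q : ℕ}
    {r : ℝ} (hr : 0 ≤ r) (h : EpsR C i ε r) : Rch (ShI T C hb i q) r := by
  intro v p hv
  have hvp : v p = 0 := hv p (by rw [dist_self]; exact hr)
  have e0 : ShI T C hb i q v p = mulV C q (fun p => 1 - C.χ i p) (eV T C q v) p +
      Eop T C q i (BB hb q (Rop T C q i v) + KB T hb q (Wop T C q i v)) p := rfl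
  have e1 : mulV C q (fun p => 1 - C.χ i p) (eV T C q v) p = 0 := by
    have hc : Continuous (fun p => 1 - C.χ i p) :=
      continuous_const.sub (C.smχ i).continuous
    rw [mulV_apply C q hc, eV_apply, hvp, map_zero]
    exact g3b_s1 (E := Fin C.N → Lam W q) _
  have e2 : Eop T C q i (BB hb q (Rop T C q i v) + KB T hb q (Wop T C q i v)) p = 0 := by
    rw [Eop_apply]
    by_cases hp : p ∈ tsupport (C.ψ i)
    · -- points near `chart p`
      have hnear : ∀ z, ‖z - chartAt W (C.c i) p‖ ≤ ε → z ∈ (chartAt W (C.c i)).target →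
          (chartAt W (C.c i)).symm z ∈ tsupport (C.χ i) →
          v ((chartAt W (C.c i)).symm z) = 0 := by
        intro z hz hzt hzs
        refine hv _ (h p hp _ hzs ?_)
        rw [(chartAt W (C.c i)).right_inv hzt, norm_sub_rev]
        exact hz
      have hR : ∀ z, ‖z - chartAt W (C.c i) p‖ ≤ ε → Rop T C q i v z = (0 : W → Lam W q) z := by
        intro z hz
        rw [Rop_apply, Pi.zero_apply]
        by_cases hzt : z ∈ (chartAt W (C.c i)).target
        · rw [Set.indicator_of_mem hzt]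
          by_cases hzs : (chartAt W (C.c i)).symm z ∈ tsupport (C.χ i)
          · rw [hnear z hz hzt hzs, map_zero]
            exact g3b_s1 (E := Lam W q) _
          · rw [image_eq_zero_of_notMem_tsupport hzs]
            exact g3b_s2 (E := Lam W q) _
        · rw [Set.indicator_of_notMem hzt]
      have hWo : ∀ z, ‖z - chartAt W (C.c i) p‖ ≤ ε →
          Wop T C q i v z = (0 : W → Lam W (q + 1)) z := by
        intro z hz
        rw [Wop_apply, Pi.zero_apply]
        by_cases hzt : z ∈ (chartAt W (C.c i)).target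
        · rw [Set.indicator_of_mem hzt]
          by_cases hzs : (chartAt W (C.c i)).symm z ∈ tsupport (C.χ i)
          · rw [hnear z hz hzt hzs, map_zero]
          · exact g3b_WL_zero T C i (C.χ i) _ hzs _
        · rw [Set.indicator_of_notMem hzt]
      have hB : BB hb q (Rop T C q i v) (chartAt W (C.c i) p) = 0 := by
        rw [BB_apply]
        have h1 := (cop_props (bump_kernel_continuous hb q) hb.pos (bump_kernel_smul q)).2.1
          (Rop T C q i v) (0 : W → Lam W q) (chartAt W (C.c i) p) hR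
        have h2 : Bop b ε (0 : W → Lam W q) (chartAt W (C.c i) p) = 0 := by
          have h3 := BB_apply hb q (0 : W →ᵇ Lam W q) (chartAt W (C.c i) p)
          rw [map_zero] at h3
          exact h3.symm
        exact h1.trans h2
      have hKB : KB T hb q (Wop T C q i v) (chartAt W (C.c i) p) = 0 := by
        rw [KB_apply]
        have h1 := (kop_props T hb q).2.2.1
          (Wop T C q i v) (0 : W → Lam W (q + 1)) (chartAt W (C.c i) p) hWo
        have h2 : Kop T b ε (0 : W → Lam W (q + 1)) (chartAt W (C.c i) p) = 0 := by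
          have h3 := KB_apply T hb q (0 : W →ᵇ Lam W (q + 1)) (chartAt W (C.c i) p)
          rw [map_zero] at h3
          exact h3.symm
        exact h1.trans h2
      have hsum : (BB hb q (Rop T C q i v) + KB T hb q (Wop T C q i v)) (chartAt W (C.c i) p)
          = 0 := by
        rw [BoundedContinuousFunction.add_apply, hB, hKB, add_zero]
      rw [hsum, map_zero]
    · exact g3b_EL_zero T C i (C.ψ i) p (image_eq_zero_of_notMem_tsupport hp) _
  rw [e0, e1, e2, add_zero]

end

end FB
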