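import Pool.Agent.H.MP_fb873c_an.G2h1
import Pool.Agent.H.MP_fb873c_an.G2i0

/-! # Part G3: reach of the operators, decomposition of `Ŝ` (G3c) -/

namespace FB

open scoped Topology ContDiff Manifold BoundedContinuousFunction

universe u


section

variable {W : Type} [NormedAddCommGroup W] [InnerProductSpace ℝ W] [FiniteDimensional ℝ W]
  [MeasurableSpace W] [BorelSpace W]
variable {X : Type u} [MetricSpace X] [ChartedSpace W X] [IsManifold 𝓘(ℝ, W) ∞ X]
  [CompactSpace X]

private theorem g3c_kop_zero (T : Ty W) {b : W → ℝ} {ε : ℝ} {q : ℕ} (x : W) :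
    Kop T b ε (fun _ : W => (0 : Lam W (q + 1))) x = 0 := by
  unfold Kop Avg
  simp only [map_zero, MeasureTheory.integral_zero]

private theorem g3c_wdg_zero (T : Ty W) {q : ℕ} (α : Lam W q) :
    wdg T (0 : W →L[ℝ] ℝ) α = 0 := by
  show T.pi (q + 1) (alt ((0 : W →L[ℝ] ℝ).smulRight α)) = 0
  rw [ContinuousLinearMap.zero_smulRight]
  have h4 : alt (0 : W →L[ℝ] Lam W q) = 0 :=
    map_zero (ContinuousAlternatingMap.alternatizeUncurryFinCLM ℝ W ℂ)
  rw [h4, map_zero]

private theorem g3c_dfc {f : X → ℝ} (x0 p : X) (h0 : p ∈ (chartAt W x0).source)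
    (hp : ∀ᶠ y in 𝓝 p, f y = 1) : dfc (W := W) x0 f p = 0 := by
  unfold dfc
  by_cases hpf : p ∈ tsupport f
  · rw [Set.indicator_of_mem hpf]
    unfold dfun
    have hs : (chartAt W x0).symm (chartAt W x0 p) = p := (chartAt W x0).left_inv h0
    have h2 : ContinuousAt (chartAt W x0).symm (chartAt W x0 p) :=
      (chartAt W x0).continuousAt_symm ((chartAt W x0).map_source h0)
    have h3 : (f ∘ (chartAt W x0).symm) =ᶠ[𝓝 (chartAt W x0 p)] fun _ => (1 : ℝ) := by
      have h4 : Filter.Tendsto (chartAt W x0).symm (𝓝 (chartAt W x0 p)) (𝓝 p) := by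
        have := h2.tendsto
        rwa [hs] at this
      exact h4.eventually hp
    rw [h3.fderiv_eq]
    exact congrFun (fderiv_fun_const (1 : ℝ)) _
  · rw [Set.indicator_of_notMem hpf]

/-- JOB G3c.  Where `σ_i = 1`, `Ŝ_i v = N_i v`: there `χ_i = 1` nearby, and `Wop v = 0` on the `ε`-ball
(`EpsC` for `σ_i, χ_i`: `dfc χ_i = 0` there). -/
theorem ShI_eq_NI (T : Ty W) (C : Cov W X) {b : W → ℝ} {ε : ℝ} (hb : IsBump b ε) (i : Fin C.N)
    {q : ℕ} (h : EpsC C i (C.σ i) (C.χ i) ε) (v : VV C q) (p : X) (hp : C.σ i p = 1) :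
    ShI T C hb i q v p = NI T C hb i q v p := by
  have hps : p ∈ tsupport (C.σ i) := by
    apply subset_tsupport
    rw [Function.mem_support, hp]
    exact one_ne_zero
  have hχ : C.χ i p = 1 := (C.σχ i p hps).self_of_nhds
  have hW : ∀ z : W, ‖z - chartAt W (C.c i) p‖ ≤ ε → Wop T C q i v z = 0 := by
    intro z hz
    obtain ⟨hzt, hz1⟩ := h p hps z hz
    rw [Wop_apply, Set.indicator_of_mem hzt]
    show wdg T (dfc (C.c i) (C.χ i) ((chartAt W (C.c i)).symm z)) _ = 0
    rw [g3c_dfc (C.c i) _ ((chartAt W (C.c i)).map_target hzt) hz1, g3c_wdg_zero]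
  have hK : KB T hb q (Wop T C q i v) (chartAt W (C.c i) p) = 0 := by
    rw [KB_apply]
    refine ((kop_props T hb q).2.2.1 _ (fun _ => 0) _ hW).trans ?_
    exact g3c_kop_zero T _
  have h1 : ShI T C hb i q v p = mulV C q (fun p => 1 - C.χ i p) (eV T C q v) p +
      Eop T C q i (BB hb q (Rop T C q i v) + KB T hb q (Wop T C q i v)) p := rfl
  have h2 : NI T C hb i q v p = mulV C q (C.σ i) (Eop T C q i (BB hb q (Rop T C q i v))) p := rfl
  have hc : Continuous (fun p => 1 - C.χ i p) := continuous_const.sub (C.smχ i).continuous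
  rw [h1, h2, mulV_apply C q hc, mulV_apply C q (C.smσ i).continuous, hχ, hp, sub_self]
  have e0 : (0 : ℝ) • (eV T C q v p) = 0 := by
    funext j
    exact zero_smul ℝ (eV T C q v p j)
  have e1 : (1 : ℝ) • (Eop T C q i (BB hb q (Rop T C q i v)) p) =
      Eop T C q i (BB hb q (Rop T C q i v)) p := by
    funext j
    exact one_smul ℝ (Eop T C q i (BB hb q (Rop T C q i v)) p j)
  refine (congrArg₂ (· + ·) e0 rfl).trans ?_
  refine Eq.trans ?_ e1.symm
  rw [zero_add, Eop_apply, Eop_apply, BoundedContinuousFunction.add_apply, hK, add_zero]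

end

end FB
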