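import Pool.Agent.H.MP_fb873c_an.G3b
import Pool.Agent.H.MP_fb873c_an.G3c

/-! # Part G3: reach of the operators, decomposition of `Ŝ` (G3d) -/

namespace FB

open scoped Topology ContDiff Manifold BoundedContinuousFunction

universe u


section

variable {W : Type} [NormedAddCommGroup W] [InnerProductSpace ℝ W] [FiniteDimensional ℝ W]
  [MeasurableSpace W] [BorelSpace W]
variable {X : Type u} [MetricSpace X] [ChartedSpace W X] [IsManifold 𝓘(ℝ, W) ∞ X]
  [CompactSpace X]

/-- Smallness of the total reach `N r`. -/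
def RadR (C : Cov W X) (r : ℝ) : Prop :=
  ∀ i, ∀ p ∈ tsupport (C.ρ i), ∀ p', dist p p' ≤ C.N * r → C.σ i p' = 1

/-- JOB G3b.  Compactness. -/
theorem exists_radR (C : Cov W X) : ∃ r0 : ℝ, 0 < r0 ∧ ∀ r, r ≤ r0 → RadR C r := by
  have h0 : ∀ i : Fin C.N, ∃ δ : ℝ, 0 < δ ∧ ∀ p ∈ tsupport (C.ρ i), ∀ p', dist p p' < δ →
      C.σ i p' = 1 := by
    intro i
    have hK : IsCompact (tsupport (C.ρ i)) := (isClosed_tsupport _).isCompact
    have hU : tsupport (C.ρ i) ⊆ interior {y | C.σ i y = 1} := fun p hp =>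
      mem_interior_iff_mem_nhds.2 (C.ρσ i p hp)
    obtain ⟨δ, hδ, h1⟩ := hK.exists_thickening_subset_open isOpen_interior hU
    refine ⟨δ, hδ, fun p hp p' hd => ?_⟩
    have h2 : p' ∈ Metric.thickening δ (tsupport (C.ρ i)) :=
      Metric.mem_thickening_iff.2 ⟨p, hp, by rwa [dist_comm]⟩
    have h3 := interior_subset (h1 h2)
    exact h3
  choose δ hδ hδ' using h0
  have h1 : ∀ᶠ t in 𝓝[>] (0 : ℝ), ∀ i, t < δ i := by
    rw [Filter.eventually_all]
    intro i
    exact (eventually_lt_nhds (hδ i)).filter_mono nhdsWithin_le_nhds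
  obtain ⟨t, ht, ht0⟩ := (h1.and self_mem_nhdsWithin).exists
  have ht0' : 0 < t := ht0
  have hN : (0 : ℝ) < C.N + 1 := by positivity
  refine ⟨t / (C.N + 1), div_pos ht0' hN, fun r hr i p hp p' hd => hδ' i p hp p' ?_⟩
  refine lt_of_le_of_lt hd (lt_of_le_of_lt ?_ (ht i))
  have h2 : (C.N : ℝ) * r ≤ C.N * (t / (C.N + 1)) :=
    mul_le_mul_of_nonneg_left hr (Nat.cast_nonneg _)
  have h3 : (C.N : ℝ) * (t / (C.N + 1)) ≤ t := by
    rw [← mul_div_assoc, div_le_iff₀ hN]
    nlinarith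
  exact h2.trans h3

private theorem g3d_split (T : Ty W) (C : Cov W X) {b : W → ℝ} {ε : ℝ} (hb : IsBump b ε) {q : ℕ}
    (i : Fin C.N) (v : VV C q) :
    ShL T C hb (List.finRange C.N) q v =
      ShL T C hb (lpre C i) q (ShI T C hb i q (ShL T C hb (lsuf C i) q v)) := by
  have h : List.finRange C.N = lpre C i ++ (i :: lsuf C i) := by
    unfold lpre lsuf
    have h1 : (i : ℕ) < (List.finRange C.N).length := by
      rw [List.length_finRange]
      exact i.2
    have h2 := List.drop_eq_getElem_cons h1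
    rw [List.getElem_finRange] at h2
    have h3 : Fin.cast (List.length_finRange) ⟨(i : ℕ), h1⟩ = i := Fin.ext rfl
    conv_lhs => rw [← List.take_append_drop (i : ℕ) (List.finRange C.N), h2]
    rfl
  conv_lhs => rw [h]
  unfold ShL
  rw [List.map_append, List.prod_append, List.map_cons, List.prod_cons]
  rfl

private theorem g3d_i (T : Ty W) (C : Cov W X) {b : W → ℝ} {ε : ℝ} (hb : IsBump b ε) {q : ℕ} {r : ℝ}
    (hr : 0 ≤ r) (hR : ∀ i, EpsR C i ε r) (hC : ∀ i, EpsC C i (C.σ i) (C.χ i) ε) (hr' : RadR C r)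
    (v : VV C q) (i : Fin C.N) :
    mulV C q (C.ρ i) (ShL T C hb (lpre C i) q (NI T C hb i q (ShL T C hb (lsuf C i) q v))) =
      mulV C q (C.ρ i) (ShL T C hb (List.finRange C.N) q v) := by
  refine ContinuousMap.ext fun p => ?_
  rw [mulV_apply C q (C.smρ i).continuous, mulV_apply C q (C.smρ i).continuous, g3d_split T C hb i v]
  by_cases hp : p ∈ tsupport (C.ρ i)
  · congr 1
    have h1 := ShL_rch T C hb (q := q) hr (fun j => ShI_rch T C hb j hr (hR j)) (lpre C i)
    have h2 : ShL T C hb (lpre C i) q (ShI T C hb i q (ShL T C hb (lsuf C i) q v) -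
        NI T C hb i q (ShL T C hb (lsuf C i) q v)) p = 0 := by
      refine h1 _ p fun p' hp' => ?_
      have hl : (((lpre C i).length : ℕ) : ℝ) ≤ C.N := by
        have h3 : (lpre C i).length ≤ C.N := by
          unfold lpre
          rw [List.length_take, List.length_finRange]
          exact min_le_right _ _
        exact_mod_cast h3
      have h3 : dist p p' ≤ C.N * r := hp'.trans (mul_le_mul_of_nonneg_right hl hr)
      have h4 := ShI_eq_NI T C hb i (hC i) (ShL T C hb (lsuf C i) q v) p' (hr' i p hp p' h3)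
      show ShI T C hb i q (ShL T C hb (lsuf C i) q v) p' -
        NI T C hb i q (ShL T C hb (lsuf C i) q v) p' = 0
      rw [h4, sub_self]
    rw [map_sub] at h2
    exact (sub_eq_zero.1 h2).symm
  · have h1 : C.ρ i p = 0 := image_eq_zero_of_notMem_tsupport hp
    rw [h1]
    funext j
    ext w
    exact (zero_smul ℝ (_ : ℂ)).trans (zero_smul ℝ (_ : ℂ)).symm

/-- JOB G3d.  Decomposition of the total smoothing operator: since `∑ ρ_i = 1` it suffices that
`ρ_i Ŝ_{<i} (Ŝ_i - N_i) Ŝ_{>i} v = 0`; at `p ∈ supp ρ_i` this follows from the reach of `Ŝ_{<i}` (`ShL_rch`,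
length `≤ N`) and `ShI_eq_NI` at the points at distance `≤ N r` (`RadR`).
`ShL (finRange N) = ShL (lpre i) * ShI i * ShL (lsuf i)` (`List.take_append_drop` etc.). -/
theorem ShL_full (T : Ty W) (C : Cov W X) {b : W → ℝ} {ε : ℝ} (hb : IsBump b ε) {q : ℕ} {r : ℝ}
    (hr : 0 ≤ r) (hR : ∀ i, EpsR C i ε r) (hC : ∀ i, EpsC C i (C.σ i) (C.χ i) ε) (hr' : RadR C r)
    (v : VV C q) :
    ∑ i : Fin C.N, mulV C q (C.ρ i) (ShL T C hb (lpre C i) q (NI T C hb i q
        (ShL T C hb (lsuf C i) q v))) = ShL T C hb (List.finRange C.N) q v := by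
  rw [Finset.sum_congr rfl fun i _ => g3d_i T C hb hr hR hC hr' v i]
  refine ContinuousMap.ext fun p => ?_
  rw [ContinuousMap.sum_apply]
  have h1 : ∀ i : Fin C.N, mulV C q (C.ρ i) (ShL T C hb (List.finRange C.N) q v) p =
      C.ρ i p • ShL T C hb (List.finRange C.N) q v p := fun i =>
    mulV_apply C q (C.smρ i).continuous _ p
  rw [Finset.sum_congr rfl fun i _ => h1 i, ← Finset.sum_smul, C.sum_ρ p, one_smul]

end

end FB
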