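import Pool.Agent.H.MP_fb873c_an.G2i0

/-! # Part G3: reach of the operators, decomposition of `Ŝ` (G3a) -/

namespace FB

open scoped Topology ContDiff Manifold BoundedContinuousFunction

universe u


section

variable {W : Type} [NormedAddCommGroup W] [InnerProductSpace ℝ W] [FiniteDimensional ℝ W]
  [MeasurableSpace W] [BorelSpace W]
variable {X : Type u} [MetricSpace X] [ChartedSpace W X] [IsManifold 𝓘(ℝ, W) ∞ X]
  [CompactSpace X]

/-- The operator has reach `≤ r`: its value at `p` depends only on the values at distance `≤ r`. -/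
def Rch {C : Cov W X} {q q' : ℕ} (Q : VV C q →L[ℂ] VV C q') (r : ℝ) : Prop :=
  ∀ (v : VV C q) (p : X), (∀ p', dist p p' ≤ r → v p' = 0) → Q v p = 0

/-- JOB G3a.  Compositions. -/
theorem Rch.comp {C : Cov W X} {q q' q'' : ℕ} {Q : VV C q' →L[ℂ] VV C q''}
    {Q' : VV C q →L[ℂ] VV C q'} {r r' : ℝ} (h : Rch Q r) (h' : Rch Q' r') :
    Rch (Q.comp Q') (r + r') := by
  intro v p hv
  change Q (Q' v) p = 0
  refine h (Q' v) p fun p' hp' => h' v p' fun p'' hp'' => hv p'' ?_
  calc dist p p'' ≤ dist p p' + dist p' p'' := dist_triangle _ _ _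
    _ ≤ r + r' := add_le_add hp' hp''

theorem Rch.mono {C : Cov W X} {q q' : ℕ} {Q : VV C q →L[ℂ] VV C q'} {r r' : ℝ} (h : Rch Q r)
    (hr : r ≤ r') : Rch Q r' := by
  intro v p hv
  exact h v p fun p' hp' => hv p' (hp'.trans hr)

theorem ShL_rch (T : Ty W) (C : Cov W X) {b : W → ℝ} {ε : ℝ} (hb : IsBump b ε) {q : ℕ} {r : ℝ}
    (hr : 0 ≤ r) (h : ∀ i, Rch (ShI T C hb i q) r) (l : List (Fin C.N)) :
    Rch (ShL T C hb l q) (l.length * r) := by
  induction l with
  | nil =>
    intro v p hv
    have h1 : ShL T C hb [] q = 1 := rfl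
    rw [h1]
    change v p = 0
    refine hv p ?_
    rw [dist_self]
    positivity
  | cons i l ih =>
    have h1 : ShL T C hb (i :: l) q = (ShI T C hb i q).comp (ShL T C hb l q) := by
      unfold ShL
      rw [List.map_cons, List.prod_cons]
      rfl
    rw [h1]
    refine ((h i).comp ih).mono (le_of_eq ?_)
    rw [List.length_cons]
    push_cast
    ring

end

end FB
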