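import Pool.Agent.H.MP_fb873c_an.H1f1

/-! # Part H (H1f): maps close to `f` act as `f` on cohomology -/

namespace FB

open scoped Topology ContDiff Manifold
open Filter

universe u v

section

variable {W : Type} [NormedAddCommGroup W] [NormedSpace ℝ W]
variable {X : Type u} [TopologicalSpace X] [ChartedSpace W X]
variable {ι : Type v} {l : Filter ι}

variable [IsManifold 𝓘(ℝ, W) ∞ X]

/-- JOB H1f.  Induction on the list of moves: `mv_same`, `mv_eq_of_one`, `mv_eq_of_eq`, `MD.ok`, `MD.cc`. -/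
theorem chain_MD {f : X → X} (hf : ContMDiff 𝓘(ℝ, W) 𝓘(ℝ, W) ∞ f) {G : ι → X → X} (hG : CC l G f)
    (hGs : ∀ᶠ i in l, ContMDiff 𝓘(ℝ, W) 𝓘(ℝ, W) ∞ (G i)) (L : List (MD W f)) :
    ∃ F : ι → X → X, CC l F f ∧ ∀ᶠ i in l, ContMDiff 𝓘(ℝ, W) 𝓘(ℝ, W) ∞ (F i) ∧
      SameH W f (F i) ∧ ∀ x, (∃ D ∈ L, D.χ x = 1) → F i x = G i x := by
  induction L with
  | nil =>
    refine ⟨fun _ => f, ?_, Filter.Eventually.of_forall fun i => ⟨hf, SameH.refl f, ?_⟩⟩
    · intro x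
      exact (hf.continuous.tendsto x).comp tendsto_snd
    · rintro x ⟨D, hD, -⟩
      simp at hD
  | cons D L ih =>
    obtain ⟨F, hF, hF2⟩ := ih
    refine ⟨fun i => mv W D.y0 D.χ (F i) (G i), D.cc hF hG, ?_⟩
    filter_upwards [hF2, D.ok hF hG (hF2.mono fun i h => h.1) hGs] with i h1 h2
    obtain ⟨h3, h4⟩ := mv_same h2
    refine ⟨h4, h1.2.1.trans h3, ?_⟩
    rintro x ⟨D', hD', hx⟩
    rcases List.mem_cons.1 hD' with rfl | h5
    · exact mv_eq_of_one h2 hx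
    · exact mv_eq_of_eq h2 (h1.2.2 x ⟨D', h5, hx⟩)

/-- JOB H1f. -/
theorem same_of_CC [FiniteDimensional ℝ W] [CompactSpace X] [T2Space X] {f : X → X}
    (hf : ContMDiff 𝓘(ℝ, W) 𝓘(ℝ, W) ∞ f) {G : ι → X → X} (hG : CC l G f)
    (hGs : ∀ᶠ i in l, ContMDiff 𝓘(ℝ, W) 𝓘(ℝ, W) ∞ (G i)) :
    ∀ᶠ i in l, SameH W f (G i) := by
  classical
  choose D hD using fun x => exists_MD (W := W) hf.continuous x
  obtain ⟨t, ht⟩ := CompactSpace.elim_nhds_subcover (fun x => {x' | (D x).χ x' = 1}) (fun x => hD x)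
  obtain ⟨F, hF, hF2⟩ := chain_MD hf hG hGs (t.toList.map D)
  filter_upwards [hF2] with i h1
  have h2 : F i = G i := by
    funext x
    apply h1.2.2 x
    have h3 : x ∈ (⊤ : Set X) := trivial
    rw [← ht] at h3
    simp only [Set.mem_iUnion, Set.mem_setOf_eq] at h3
    obtain ⟨y, hy, hy1⟩ := h3
    exact ⟨D y, List.mem_map.2 ⟨y, Finset.mem_toList.2 hy, rfl⟩, hy1⟩
  rw [← h2]
  exact h1.2.1

end

end FB
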