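import Pool.Agent.H.MP_fb873c_an.D1c
import Pool.Agent.H.MP_fb873c_an.H1f

/-! # Part H: homotopy invariance of de Rham cohomology.  Interface -/

namespace FB

open scoped Topology ContDiff Manifold

universe u

section

variable {n : ℕ} {M : Type u} [TopologicalSpace M] [ChartedSpace (Er n) M]
  [IsManifold (𝓡 n) ∞ M] [CompactSpace M] [T2Space M]

/-- MAIN H.  Diffeomorphisms `C^1`-close (in fact `C^0`-close) to `f` act on de Rham cohomology as `f`. -/
theorem homotopy_main (f : Dif n M) :
    ∃ N : Set (Dif n M), IsOpen[crTop n M 1] N ∧ f ∈ N ∧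
      ∀ g ∈ N, ∀ (q : ℕ) (η : M → Lam (Er n) q), SmoothForm η → (∀ x, dform η x = 0) →
        IsExactForm (W := Er n) (fun x : M => pb (W := Er n) (g : M → M) η x
          - pb (W := Er n) (f : M → M) η x) := by
  have h1 : CV n (@nhds _ (crTop n M 1) f) (fun g' : Dif n M => (g' : M → M)) f :=
    CV.of_crTop le_rfl
  have h2 : CC (@nhds _ (crTop n M 1) f) (fun g' : Dif n M => (g' : M → M)) f := h1.tend
  have h3 := same_of_CC (W := Er n) (X := M) f.contMDiff_toFun h2
    (Filter.Eventually.of_forall fun g => g.contMDiff_toFun)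
  obtain ⟨N, hN1, hN2, hN3⟩ := (@eventually_nhds_iff _ (crTop n M 1) _ _).1 h3
  exact ⟨N, hN2, hN3, fun g hg => hN1 g hg⟩

end

end FB
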