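import Pool.Agent.H.MP_fb873c_an.L0

/-! # Part H (H1a): linear algebra of forms on `ℝ × W` -/

namespace FB

open scoped Topology ContDiff Manifold

section

variable {W : Type} [NormedAddCommGroup W] [NormedSpace ℝ W]

/-- Restriction to `W` of a form on `ℝ × W`. -/
noncomputable def resW (q : ℕ) : Lam (ℝ × W) q →L[ℝ] Lam W q :=
  ContinuousAlternatingMap.compContinuousLinearMapCLM (ContinuousLinearMap.inr ℝ ℝ W)

/-- Contraction with `∂_t`, restricted to `W`. -/
noncomputable def cyc (q : ℕ) : Lam (ℝ × W) (q + 1) →L[ℝ] Lam W q :=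
  (resW q).comp ((ContinuousAlternatingMap.curryLeftLI (𝕜 := ℝ) (E := ℝ × W) (F := ℂ)
    (n := q)).toContinuousLinearMap.flip (1, 0))

theorem resW_apply (q : ℕ) (α : Lam (ℝ × W) q) :
    resW q α = α.compContinuousLinearMap (ContinuousLinearMap.inr ℝ ℝ W) := rfl

theorem cyc_apply (q : ℕ) (α : Lam (ℝ × W) (q + 1)) (v : Fin q → W) :
    cyc q α v = α (Matrix.vecCons ((1 : ℝ), (0 : W)) (fun i => ((0 : ℝ), v i))) := rfl

/-- `id × L` on `ℝ × W`. -/
noncomputable def idx (L : W →L[ℝ] W) : ℝ × W →L[ℝ] ℝ × W :=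
  (ContinuousLinearMap.id ℝ ℝ).prodMap L

/-- JOB H1a. Naturality of `cyc` and `resW` under `id × L`. -/
theorem cyc_idx (q : ℕ) (α : Lam (ℝ × W) (q + 1)) (L : W →L[ℝ] W) :
    cyc q (α.compContinuousLinearMap (idx L)) = (cyc q α).compContinuousLinearMap L := by
  ext v
  rw [cyc_apply, ContinuousAlternatingMap.compContinuousLinearMap_apply,
    ContinuousAlternatingMap.compContinuousLinearMap_apply, cyc_apply]
  congr 1
  funext i
  refine Fin.cases ?_ (fun j => ?_) i
  · simp [idx]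
  · simp [idx]

theorem resW_idx (q : ℕ) (α : Lam (ℝ × W) q) (L : W →L[ℝ] W) :
    resW q (α.compContinuousLinearMap (idx L)) = (resW q α).compContinuousLinearMap L := by
  ext v
  simp only [resW_apply, ContinuousAlternatingMap.compContinuousLinearMap_apply]
  congr 1

/-- JOB H1a. Cartan's formula in the linear form: if `D : ℝ × W → Λ^{q+1}` has zero alternatization, then
`D(∂_t)|_W = alt (v ↦ ι_{∂_t} D(0,v)|_W)`.
PROOF. Evaluate `alternatizeUncurryFin D` at `((1,0),(0,v_0),…,(0,v_q))`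
(`ContinuousAlternatingMap.alternatizeUncurryFin_apply`, `Fin.sum_univ_succ`). -/
theorem cartan_lin (q : ℕ) (D : ℝ × W →L[ℝ] Lam (ℝ × W) (q + 1))
    (hD : ContinuousAlternatingMap.alternatizeUncurryFin D = 0) :
    ContinuousAlternatingMap.alternatizeUncurryFin
      (((cyc q).comp D).comp (ContinuousLinearMap.inr ℝ ℝ W)) = resW (q + 1) (D (1, 0)) := by
  ext v
  have h := congrArg
    (fun β : Lam (ℝ × W) (q + 2) => β (Matrix.vecCons ((1 : ℝ), (0 : W)) (fun i => ((0 : ℝ), v i)))) hD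
  simp only [ContinuousAlternatingMap.alternatizeUncurryFin_apply,
    ContinuousAlternatingMap.coe_zero, Pi.zero_apply] at h
  rw [Fin.sum_univ_succ] at h
  have h0 : Fin.removeNth (0 : Fin (q + 2))
      (Matrix.vecCons ((1 : ℝ), (0 : W)) (fun i => ((0 : ℝ), v i))) = fun i => ((0 : ℝ), v i) := by
    funext i
    simp [Fin.removeNth]
  have hs : ∀ j : Fin (q + 1), Fin.removeNth j.succ
      (Matrix.vecCons ((1 : ℝ), (0 : W)) (fun i => ((0 : ℝ), v i))) =
      Matrix.vecCons ((1 : ℝ), (0 : W)) (fun i => ((0 : ℝ), Fin.removeNth j v i)) := by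
    intro j
    funext i
    refine Fin.cases ?_ (fun k => ?_) i
    · simp [Fin.removeNth]
    · simp [Fin.removeNth]
  rw [ContinuousAlternatingMap.alternatizeUncurryFin_apply]
  simp only [h0, hs] at h
  have h1 : resW (q + 1) (D (1, 0)) v = D (1, 0) (fun i => ((0 : ℝ), v i)) := rfl
  rw [h1]
  have h2 : ∀ j : Fin (q + 1), (-1 : ℤ) ^ (j : ℕ) •
      (((cyc q).comp D).comp (ContinuousLinearMap.inr ℝ ℝ W)) (v j) (Fin.removeNth j v) =
      -((-1 : ℤ) ^ (j.succ : ℕ) • D (0, v j)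
        (Matrix.vecCons ((1 : ℝ), (0 : W)) (fun i => ((0 : ℝ), Fin.removeNth j v i)))) := by
    intro j
    have h3 : (((cyc q).comp D).comp (ContinuousLinearMap.inr ℝ ℝ W)) (v j) (Fin.removeNth j v) =
        D (0, v j) (Matrix.vecCons ((1 : ℝ), (0 : W)) (fun i => ((0 : ℝ), Fin.removeNth j v i))) := rfl
    rw [h3, Fin.val_succ, pow_succ]
    simp
  rw [Finset.sum_congr rfl fun j _ => h2 j, Finset.sum_neg_distrib]
  simp only [Fin.val_zero, pow_zero, one_smul, Matrix.cons_val_zero, Matrix.cons_val_succ] at h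
  rw [eq_comm, eq_neg_iff_add_eq_zero]
  exact h

end

end FB
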