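import Pool.Agent.H.MP_fb873c_an.G1a
import Pool.Agent.H.MP_fb873c_an.H1a

/-! # Part H (H1b): the manifold `ℝ × X` -/

namespace FB

open scoped Topology ContDiff Manifold

universe u

section

variable {W : Type} [NormedAddCommGroup W] [NormedSpace ℝ W]
variable {X : Type u} [TopologicalSpace X] [ChartedSpace W X]

/-- `ℝ × X` is modelled on `ℝ × W` (product charts). -/
noncomputable instance instCyl : ChartedSpace (ℝ × W) (ℝ × X) :=
  prodChartedSpace ℝ ℝ W X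

/-- JOB H1b.  The preferred charts. -/
theorem cyl_chart (p : ℝ × X) : (chartAt (ℝ × W) p : ℝ × X → ℝ × W)
    = fun p' => (p'.1, chartAt W p.2 p'.2) := rfl

theorem cyl_chart_symm (p : ℝ × X) : ((chartAt (ℝ × W) p).symm : ℝ × W → ℝ × X)
    = fun z => (z.1, (chartAt W p.2).symm z.2) := rfl

theorem cyl_source (p : ℝ × X) : (chartAt (ℝ × W) p).source
    = Set.univ ×ˢ (chartAt W p.2).source := rfl

theorem cyl_target (p : ℝ × X) : (chartAt (ℝ × W) p).target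
    = Set.univ ×ˢ (chartAt W p.2).target := rfl

variable [IsManifold 𝓘(ℝ, W) ∞ X]

/-- JOB H1b.  `IsManifold.prod` and `modelWithCornersSelf_prod`. -/
instance instCylM : IsManifold 𝓘(ℝ, ℝ × W) ∞ (ℝ × X) := by
  have h : @IsManifold ℝ _ (ℝ × W) _ _ (ModelProd ℝ W) _ (𝓘(ℝ, ℝ).prod 𝓘(ℝ, W)) ∞ (ℝ × X) _
      (prodChartedSpace ℝ ℝ W X) := inferInstance
  rw [← modelWithCornersSelf_prod] at h
  exact h

/-- JOB H1b.  `contMDiff_fst`, `contMDiff_snd` and `modelWithCornersSelf_prod`. -/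
theorem cyl_fst : ContMDiff 𝓘(ℝ, ℝ × W) 𝓘(ℝ, ℝ) ∞ (Prod.fst : ℝ × X → ℝ) := by
  have h : ContMDiff (𝓘(ℝ, ℝ).prod 𝓘(ℝ, W)) 𝓘(ℝ, ℝ) ∞ (Prod.fst : ℝ × X → ℝ) := contMDiff_fst
  rw [← modelWithCornersSelf_prod] at h
  exact h

theorem cyl_snd : ContMDiff 𝓘(ℝ, ℝ × W) 𝓘(ℝ, W) ∞ (Prod.snd : ℝ × X → X) := by
  have h : ContMDiff (𝓘(ℝ, ℝ).prod 𝓘(ℝ, W)) 𝓘(ℝ, W) ∞ (Prod.snd : ℝ × X → X) := contMDiff_snd
  rw [← modelWithCornersSelf_prod] at h
  exact h

/-- The slice `x ↦ (t, x)`. -/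
def sl (t : ℝ) (x : X) : ℝ × X := (t, x)

theorem cyl_sl (t : ℝ) : ContMDiff 𝓘(ℝ, W) 𝓘(ℝ, ℝ × W) ∞ (sl (X := X) t) := by
  have h : ContMDiff 𝓘(ℝ, W) (𝓘(ℝ, ℝ).prod 𝓘(ℝ, W)) ∞ (fun x : X => ((t, x) : ℝ × X)) :=
    contMDiff_const.prodMk contMDiff_id
  rw [← modelWithCornersSelf_prod] at h
  exact h

/-- JOB H1b. Transition derivatives of `ℝ × X`. -/
theorem cyl_trd (p0 p1 p : ℝ × X) (h0 : p.2 ∈ (chartAt W p0.2).source)
    (h1 : p.2 ∈ (chartAt W p1.2).source) :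
    trd (W := ℝ × W) p0 p1 p = idx (trd (W := W) p0.2 p1.2 p.2) := by
  have h2 : DifferentiableAt ℝ (chartAt W p1.2 ∘ (chartAt W p0.2).symm) (chartAt W p0.2 p.2) := by
    have h3 : chartAt W p0.2 p.2 ∈
        (chartAt W p0.2).target ∩ (chartAt W p0.2).symm ⁻¹' (chartAt W p1.2).source := by
      refine ⟨(chartAt W p0.2).map_source h0, ?_⟩
      rw [Set.mem_preimage, (chartAt W p0.2).left_inv h0]
      exact h1
    exact ((contDiffOn_transition (W := W) p0.2 p1.2).contDiffAt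
      ((isOpen_ovl (W := W) p0.2 p1.2).mem_nhds h3)).differentiableAt (by simp)
  have h4 : HasFDerivAt (fun z : ℝ × W => ((z.1, (chartAt W p1.2 ∘ (chartAt W p0.2).symm) z.2) :
      ℝ × W)) (idx (trd (W := W) p0.2 p1.2 p.2)) (p.1, chartAt W p0.2 p.2) :=
    HasFDerivAt.prodMap (p.1, chartAt W p0.2 p.2) (hasFDerivAt_id _) h2.hasFDerivAt
  exact h4.fderiv

/-- JOB H1b. Pull-back by the slice. -/
theorem pb_sl {q : ℕ} (Ω : ℝ × X → Lam (ℝ × W) q) (t : ℝ) (x : X) :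
    pb (W := W) (W' := ℝ × W) (sl t) Ω x = resW q (Ω (t, x)) := by
  have h1 : fd (W := W) (W' := ℝ × W) (sl (X := X) t) x = ContinuousLinearMap.inr ℝ ℝ W := by
    have h2 : HasFDerivAt (fun z : W => ((t, z) : ℝ × W)) (ContinuousLinearMap.inr ℝ ℝ W)
        (chartAt W x x) := hasFDerivAt_prodMk_right t _
    have h3 : (chartAt (ℝ × W) (sl t x) ∘ sl t ∘ (chartAt W x).symm : W → ℝ × W) =ᶠ[
        𝓝 (chartAt W x x)] fun z => (t, z) := by
      filter_upwards [(chartAt W x).open_target.mem_nhds (mem_chart_target W x)] with z hz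
      show ((t, chartAt W x ((chartAt W x).symm z)) : ℝ × W) = (t, z)
      rw [(chartAt W x).right_inv hz]
    exact (h2.congr_of_eventuallyEq h3).fderiv
  show (Ω (sl t x)).compContinuousLinearMap (fd (W := W) (W' := ℝ × W) (sl (X := X) t) x) = _
  rw [h1]
  rfl

end

end FB
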