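import Mathlib

/-! # Part H (H1c): integrals depending on a parameter -/

namespace FB

open MeasureTheory
open scoped Topology ContDiff Manifold

section

variable {W : Type} [NormedAddCommGroup W] [NormedSpace ℝ W]
variable {E : Type} [NormedAddCommGroup E] [NormedSpace ℝ E] [CompleteSpace E]

/-- JOB H1c.  `z ↦ ∫_0^1 R(t,z) dt` is smooth.
PROOF. Take `b : ℝ → ℝ` smooth with compact support and `b = 1` on `[0,1]`; apply
`contDiffOn_convolution_right_with_param` (μ = volume on `ℝ`, `f` = indicator of `Icc (-1) 0` with value 1,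
`L = ContinuousLinearMap.lsmul ℝ ℝ`, `g z s = b s • R (s, z)`, parameter space `W`, `s = U`), evaluated at the
point `(z, 0)` : `(f ⋆ g z) 0 = ∫ f(t) • g z (-t) dt = ∫_0^1 R(s,z) ds`; compose with `z ↦ (z,0)`. -/
theorem smooth_param {R : ℝ × W → E} {U : Set W} (hU : IsOpen U)
    (hR : ContDiffOn ℝ ∞ R (Set.univ ×ˢ U)) :
    ContDiffOn ℝ ∞ (fun z => ∫ t in (0 : ℝ)..1, R (t, z)) U := by
  let b : ContDiffBump (0 : ℝ) := ⟨2, 3, by norm_num, by norm_num⟩
  let f : ℝ → ℝ := Set.indicator (Set.Ico (-1 : ℝ) 0) (fun _ => (1 : ℝ))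
  have hf : LocallyIntegrable f volume :=
    (locallyIntegrable_const (1 : ℝ)).indicator measurableSet_Ico
  let g : W → ℝ → E := fun z s => b s • R (s, z)
  have hgs : ∀ p, ∀ x, p ∈ U → x ∉ Metric.closedBall (0 : ℝ) 3 → g p x = 0 := by
    intro p x _ hx
    have h0 : b x = 0 := by
      apply b.zero_of_le_dist
      have : ¬ dist x 0 ≤ 3 := hx
      exact (not_le.mp this).le
    change b x • R (x, p) = 0
    rw [h0, zero_smul]
  have hg : ContDiffOn ℝ ∞ (↿g) (U ×ˢ Set.univ) := by
    change ContDiffOn ℝ ∞ (fun q : W × ℝ => b q.2 • R (q.2, q.1)) (U ×ˢ Set.univ)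
    apply ContDiffOn.smul
    · exact (b.contDiff.comp contDiff_snd).contDiffOn
    · refine hR.comp (contDiff_snd.prodMk contDiff_fst).contDiffOn ?_
      intro q hq
      exact ⟨Set.mem_univ _, hq.1⟩
  have key := contDiffOn_convolution_right_with_param_comp (μ := (volume : Measure ℝ)) (n := ⊤)
    (ContinuousLinearMap.lsmul ℝ ℝ) (v := fun _ : W => (0 : ℝ)) contDiffOn_const (f := f)
    (g := g) hU (isCompact_closedBall (0 : ℝ) 3) hgs hf hg
  refine key.congr ?_
  intro z _
  rw [convolution_def, ← integral_neg_eq_self, intervalIntegral.integral_of_le zero_le_one,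
    ← integral_indicator measurableSet_Ioc]
  apply integral_congr_ae
  filter_upwards with t
  rw [zero_sub, neg_neg]
  change _ = f (-t) • (b t • R (t, z))
  by_cases ht : t ∈ Set.Ioc (0 : ℝ) 1
  · have hft : f (-t) = 1 := by
      apply Set.indicator_of_mem
      exact ⟨by linarith [ht.2], by linarith [ht.1]⟩
    have hbt : b t = 1 := by
      apply b.one_of_mem_closedBall
      rw [Metric.mem_closedBall, Real.dist_eq, sub_zero, abs_of_pos ht.1]
      change t ≤ 2
      linarith [ht.2]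
    rw [Set.indicator_of_mem ht, hft, hbt, one_smul, one_smul]
  · have hft : f (-t) = 0 := by
      apply Set.indicator_of_notMem
      intro h
      exact ht ⟨by linarith [h.2], by linarith [h.1]⟩
    rw [Set.indicator_of_notMem ht, hft, zero_smul]

/-- JOB H1c.  Derivative under the integral sign.
PROOF. `intervalIntegral.hasFDerivAt_integral_of_dominated_of_fderiv_le`; the bound: the derivative
`(t,y) ↦ fderiv ℝ R (t,y)` is continuous on the open set `univ ×ˢ U`, so it is bounded on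
`[0,1] × ball z ε` for some `ε > 0` (compactness of `[0,1]`, tube lemma). -/
theorem hasFDerivAt_param {R : ℝ × W → E} {U : Set W} (hU : IsOpen U)
    (hR : ContDiffOn ℝ ∞ R (Set.univ ×ˢ U)) {z : W} (hz : z ∈ U) :
    HasFDerivAt (fun z => ∫ t in (0 : ℝ)..1, R (t, z))
      (∫ t in (0 : ℝ)..1, (fderiv ℝ R (t, z)).comp (ContinuousLinearMap.inr ℝ ℝ W)) z := by
  have hO : IsOpen ((Set.univ : Set ℝ) ×ˢ U) := isOpen_univ.prod hU
  have hfd : ContinuousOn (fun p : ℝ × W => fderiv ℝ R p) (Set.univ ×ˢ U) :=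
    hR.continuousOn_fderiv_of_isOpen hO (by simp)
  have hF' : ContinuousOn (fun p : ℝ × W => (fderiv ℝ R p).comp (ContinuousLinearMap.inr ℝ ℝ W))
      (Set.univ ×ˢ U) := hfd.clm_comp continuousOn_const
  have hnorm : ContinuousOn (fun p : ℝ × W =>
      ‖(fderiv ℝ R p).comp (ContinuousLinearMap.inr ℝ ℝ W)‖) (Set.univ ×ˢ U) := hF'.norm
  have hcomp : IsCompact ((Set.Icc (0 : ℝ) 1) ×ˢ ({z} : Set W)) :=
    isCompact_Icc.prod isCompact_singleton
  have hsub : (Set.Icc (0 : ℝ) 1) ×ˢ ({z} : Set W) ⊆ Set.univ ×ˢ U := by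
    rintro ⟨t, y⟩ ⟨_, hy⟩
    rw [Set.mem_singleton_iff] at hy
    exact ⟨Set.mem_univ _, by rw [hy]; exact hz⟩
  obtain ⟨C, hC⟩ := hcomp.exists_bound_of_continuousOn (hF'.mono hsub)
  have hN : IsOpen ((Set.univ ×ˢ U) ∩ (fun p : ℝ × W =>
      ‖(fderiv ℝ R p).comp (ContinuousLinearMap.inr ℝ ℝ W)‖) ⁻¹' Set.Iio (C + 1)) :=
    hnorm.isOpen_inter_preimage hO isOpen_Iio
  obtain ⟨u, v, _, hvo, hu, hv, huv⟩ := generalized_tube_lemma isCompact_Icc
    (isCompact_singleton (x := z)) hN (by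
      intro p hp
      refine ⟨hsub hp, ?_⟩
      have := hC p hp
      change _ < C + 1
      linarith)
  have hvz : v ∈ 𝓝 z := hvo.mem_nhds (hv rfl)
  have hcont : ∀ y ∈ U, Continuous fun t : ℝ => R (t, y) := by
    intro y hy
    rw [← continuousOn_univ]
    refine hR.continuousOn.comp (Continuous.continuousOn (by fun_prop)) ?_
    intro t _
    exact ⟨Set.mem_univ _, hy⟩
  have hcont' : Continuous fun t : ℝ =>
      (fderiv ℝ R (t, z)).comp (ContinuousLinearMap.inr ℝ ℝ W) := by
    rw [← continuousOn_univ]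
    refine hF'.comp (f := fun t : ℝ => (t, z)) (Continuous.continuousOn (by fun_prop)) ?_
    intro t _
    exact ⟨Set.mem_univ _, hz⟩
  refine intervalIntegral.hasFDerivAt_integral_of_dominated_of_fderiv_le (𝕜 := ℝ)
    (F := fun y t => R (t, y))
    (F' := fun y t => (fderiv ℝ R (t, y)).comp (ContinuousLinearMap.inr ℝ ℝ W))
    (bound := fun _ => C + 1) hvz ?_ ?_ ?_ ?_ ?_ ?_
  · filter_upwards [hU.mem_nhds hz] with y hy
    exact (hcont y hy).aestronglyMeasurable
  · exact (hcont z hz).intervalIntegrable _ _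
  · exact hcont'.aestronglyMeasurable
  · refine Filter.Eventually.of_forall ?_
    intro t ht y hy
    rw [Set.uIoc_of_le zero_le_one] at ht
    have : (t, y) ∈ u ×ˢ v := ⟨hu ⟨ht.1.le, ht.2⟩, hy⟩
    exact (huv this).2.le
  · exact intervalIntegrable_const
  · refine Filter.Eventually.of_forall ?_
    intro t ht y hy
    rw [Set.uIoc_of_le zero_le_one] at ht
    have hm : (t, y) ∈ u ×ˢ v := ⟨hu ⟨ht.1.le, ht.2⟩, hy⟩
    have hmU := (huv hm).1
    have hd : HasFDerivAt R (fderiv ℝ R (t, y)) (t, y) :=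
      ((hR.contDiffAt (hO.mem_nhds hmU)).differentiableAt (by simp)).hasFDerivAt
    exact hd.comp y (hasFDerivAt_prodMk_right t y)

end

end FB
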