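import Pool.Agent.H.MP_fb873c_an.H1a
import Pool.Agent.H.MP_fb873c_an.H1c

/-! # Part H (H1d1): the homotopy formula on open sets of `ℝ × W` -/

namespace FB

open MeasureTheory
open scoped Topology ContDiff Manifold

section

variable {W : Type} [NormedAddCommGroup W] [NormedSpace ℝ W]

theorem H1d1_diffAt {E0 : Type} [NormedAddCommGroup E0] [NormedSpace ℝ E0]
    {R : ℝ × W → E0} {U : Set W} (hU : IsOpen U)
    (hR : ContDiffOn ℝ ∞ R (Set.univ ×ˢ U)) (t : ℝ) {z : W} (hz : z ∈ U) :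
    HasFDerivAt R (fderiv ℝ R (t, z)) (t, z) := by
  have hO : IsOpen ((Set.univ : Set ℝ) ×ˢ U) := isOpen_univ.prod hU
  exact ((hR.contDiffAt (hO.mem_nhds ⟨Set.mem_univ _, hz⟩)).differentiableAt (by simp)).hasFDerivAt

theorem H1d1_derivAt {E0 : Type} [NormedAddCommGroup E0] [NormedSpace ℝ E0]
    {R : ℝ × W → E0} {U : Set W} (hU : IsOpen U)
    (hR : ContDiffOn ℝ ∞ R (Set.univ ×ˢ U)) (t : ℝ) {z : W} (hz : z ∈ U) :
    HasDerivAt (fun t : ℝ => R (t, z)) (fderiv ℝ R (t, z) (1, 0)) t := by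
  have h1 : HasDerivAt (fun t : ℝ => (t, z)) ((1 : ℝ), (0 : W)) t :=
    (hasDerivAt_id t).prodMk (hasDerivAt_const t z)
  exact (H1d1_diffAt hU hR t hz).comp_hasDerivAt t h1

theorem H1d1_cont {E0 : Type} [NormedAddCommGroup E0] [NormedSpace ℝ E0]
    {R : ℝ × W → E0} {U : Set W} (hU : IsOpen U)
    (hR : ContDiffOn ℝ ∞ R (Set.univ ×ˢ U)) {z : W} (hz : z ∈ U) :
    Continuous fun t : ℝ => fderiv ℝ R (t, z) := by
  have hO : IsOpen ((Set.univ : Set ℝ) ×ˢ U) := isOpen_univ.prod hU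
  have hfd : ContinuousOn (fun p : ℝ × W => fderiv ℝ R p) (Set.univ ×ˢ U) :=
    hR.continuousOn_fderiv_of_isOpen hO (by simp)
  rw [← continuousOn_univ]
  refine hfd.comp (f := fun t : ℝ => (t, z)) (Continuous.continuousOn (by fun_prop)) ?_
  intro t _
  exact ⟨Set.mem_univ _, hz⟩

theorem H1d1_abs {E0 E B : Type} [NormedAddCommGroup E0] [NormedSpace ℝ E0]
    [NormedAddCommGroup E] [NormedSpace ℝ E] [CompleteSpace E]
    [NormedAddCommGroup B] [NormedSpace ℝ B] [CompleteSpace B]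
    (c : E0 →L[ℝ] E) (S : E0 →L[ℝ] B) (L : (W →L[ℝ] E) →L[ℝ] B)
    {R : ℝ × W → E0} {U : Set W} (hU : IsOpen U)
    (hR : ContDiffOn ℝ ∞ R (Set.univ ×ˢ U)) {z : W} (hz : z ∈ U)
    (h : ∀ t : ℝ, L ((c.comp (fderiv ℝ R (t, z))).comp (ContinuousLinearMap.inr ℝ ℝ W))
      = S (fderiv ℝ R (t, z) (1, 0))) :
    L (fderiv ℝ (fun z => ∫ t in (0 : ℝ)..1, c (R (t, z))) z) = S (R (1, z)) - S (R (0, z)) := by
  have hc : ContDiff ℝ ∞ (fun α : E0 => c α) := c.contDiff
  have hC : ContDiffOn ℝ ∞ (fun p : ℝ × W => c (R p)) (Set.univ ×ˢ U) :=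
    hc.comp_contDiffOn hR
  have h1 := hasFDerivAt_param hU hC hz
  have h2 : ∀ t : ℝ, fderiv ℝ (fun p : ℝ × W => c (R p)) (t, z)
      = c.comp (fderiv ℝ R (t, z)) := by
    intro t
    exact (c.hasFDerivAt.comp (t, z) (H1d1_diffAt hU hR t hz)).fderiv
  have hci : Continuous fun t : ℝ =>
      (fderiv ℝ (fun p : ℝ × W => c (R p)) (t, z)).comp (ContinuousLinearMap.inr ℝ ℝ W) := by
    have h4 : (fun t : ℝ =>
        (fderiv ℝ (fun p : ℝ × W => c (R p)) (t, z)).comp (ContinuousLinearMap.inr ℝ ℝ W))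
        = fun t : ℝ => (c.comp (fderiv ℝ R (t, z))).comp
            (ContinuousLinearMap.inr ℝ ℝ W) := by
      funext t
      rw [h2 t]
    rw [h4]
    exact (continuous_const.clm_comp (H1d1_cont hU hR hz)).clm_comp continuous_const
  have h6 : ∀ t : ℝ, HasDerivAt (fun t : ℝ => S (R (t, z)))
      (S (fderiv ℝ R (t, z) (1, 0))) t := by
    intro t
    exact S.hasFDerivAt.comp_hasDerivAt t (H1d1_derivAt hU hR t hz)
  have h7 : Continuous fun t : ℝ => S (fderiv ℝ R (t, z) (1, 0)) :=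
    S.continuous.comp ((H1d1_cont hU hR hz).clm_apply continuous_const)
  rw [h1.fderiv, ← ContinuousLinearMap.intervalIntegral_comp_comm L (hci.intervalIntegrable 0 1),
    ← intervalIntegral.integral_eq_sub_of_hasDerivAt (fun t _ => h6 t)
      (h7.intervalIntegrable 0 1)]
  apply intervalIntegral.integral_congr
  intro t _
  change L ((fderiv ℝ (fun p : ℝ × W => c (R p)) (t, z)).comp
    (ContinuousLinearMap.inr ℝ ℝ W)) = _
  rw [h2 t]
  exact h t

/-- JOB H1d. Local version.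
PROOF. `extDeriv β z = alternatizeUncurryFin (fderiv β z)`; by `hasFDerivAt_param` for `cyc q ∘ R` (smooth),
`fderiv β z = ∫_0^1 ((cyc q) ∘ (fderiv R (t,z)) ∘ inr) dt`; `alternatizeUncurryFin` is continuous linear
(`ContinuousAlternatingMap.alternatizeUncurryFinCLM`), so it goes inside the integral
(`ContinuousLinearMap.intervalIntegral_comp_comm`); by `cartan_lin` with `D = fderiv R (t,z)` (`hd`) the
integrand is `resW (q+1) (fderiv R (t,z) (1,0)) = d/dt (resW (q+1) (R (t,z)))`;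
`intervalIntegral.integral_eq_sub_of_hasDerivAt`. -/
theorem local_cyl {q : ℕ} {R : ℝ × W → Lam (ℝ × W) (q + 1)} {U : Set W} (hU : IsOpen U)
    (hR : ContDiffOn ℝ ∞ R (Set.univ ×ˢ U)) (hd : ∀ t : ℝ, ∀ z ∈ U, extDeriv R (t, z) = 0)
    {z : W} (hz : z ∈ U) :
    extDeriv (fun z => ∫ t in (0 : ℝ)..1, cyc q (R (t, z))) z
      = resW (q + 1) (R (1, z)) - resW (q + 1) (R (0, z)) := by
  have h9 : ∀ t : ℝ, ContinuousAlternatingMap.alternatizeUncurryFinCLM ℝ W ℂ
      (((cyc q).comp (fderiv ℝ R (t, z))).comp (ContinuousLinearMap.inr ℝ ℝ W))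
      = resW (q + 1) (fderiv ℝ R (t, z) (1, 0)) := fun t =>
    cartan_lin q (fderiv ℝ R (t, z)) (hd t z hz)
  exact H1d1_abs (E0 := Lam (ℝ × W) (q + 1)) (E := Lam W q) (B := Lam W (q + 1))
    (cyc q) (resW (q + 1)) (ContinuousAlternatingMap.alternatizeUncurryFinCLM ℝ W ℂ)
    hU hR hz h9

/-- JOB H1d. Degree zero: a closed `0`-form is locally constant, in particular constant in `t`. -/
theorem local_cyl0 {R : ℝ × W → Lam (ℝ × W) 0} {U : Set W} (hU : IsOpen U)
    (hR : ContDiffOn ℝ ∞ R (Set.univ ×ˢ U)) (hd : ∀ t : ℝ, ∀ z ∈ U, extDeriv R (t, z) = 0)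
    {z : W} (hz : z ∈ U) : R (1, z) = R (0, z) := by
  have h0 : ∀ t : ℝ, fderiv ℝ R (t, z) = 0 := by
    intro t
    have h := hd t z hz
    change ContinuousAlternatingMap.alternatizeUncurryFin (fderiv ℝ R (t, z)) = 0 at h
    apply ContinuousLinearMap.ext
    intro w
    apply ContinuousAlternatingMap.ext
    intro v
    have h1 := congrArg (fun α => α (fun _ : Fin 1 => w)) h
    simp only [ContinuousAlternatingMap.alternatizeUncurryFin_apply] at h1
    have hv : v = (0 : Fin 1).removeNth (fun _ : Fin 1 => w) := Subsingleton.elim _ _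
    rw [hv]
    simpa using h1
  have h1 : ∀ t : ℝ, HasDerivAt (fun t : ℝ => R (t, z)) 0 t := by
    intro t
    have h := H1d1_derivAt hU hR t hz
    rw [h0 t] at h
    simpa using h
  have h2 := is_const_of_deriv_eq_zero (𝕜 := ℝ) (f := fun t : ℝ => R (t, z))
    (fun t => (h1 t).differentiableAt) (fun t => (h1 t).deriv)
  exact h2 1 0

end

end FB
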