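import Pool.Agent.H.MP_fb873c_an.G1c
import Pool.Agent.H.MP_fb873c_an.H1b
import Pool.Agent.H.MP_fb873c_an.H1d1

/-! # Part H (H1d): closed forms on `ℝ × X`: the two end restrictions are cohomologous -/

namespace FB

open MeasureTheory
open scoped Topology ContDiff Manifold

universe u

section

variable {W : Type} [NormedAddCommGroup W] [NormedSpace ℝ W]
variable {X : Type u} [TopologicalSpace X] [ChartedSpace W X] [IsManifold 𝓘(ℝ, W) ∞ X]

/-- The homotopy form `∫_0^1 ι_{∂_t} Ω dt`. -/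
noncomputable def hof {q : ℕ} (Ω : ℝ × X → Lam (ℝ × W) (q + 1)) (x : X) : Lam W q :=
  ∫ t in (0 : ℝ)..1, cyc q (Ω (t, x))

/-- The representation of a form on `ℝ × X` in the chart at `(0, x0)`. -/
private theorem H1d_rep {q : ℕ} (Ω : ℝ × X → Lam (ℝ × W) q) (x0 : X) (t : ℝ) (z : W)
    (hz : z ∈ (chartAt W x0).target) :
    rep (W := ℝ × W) ((0 : ℝ), x0) Ω (t, z) =
      (Ω (t, (chartAt W x0).symm z)).compContinuousLinearMap
        (idx (trd x0 ((chartAt W x0).symm z) ((chartAt W x0).symm z))) := by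
  have h1 : (chartAt (ℝ × W) ((0 : ℝ), x0)).symm (t, z) = (t, (chartAt W x0).symm z) :=
    congrFun (cyl_chart_symm (W := W) ((0 : ℝ), x0)) (t, z)
  have h2 := cyl_trd (W := W) ((0 : ℝ), x0) (t, (chartAt W x0).symm z) (t, (chartAt W x0).symm z)
    ((chartAt W x0).map_target hz) (mem_chart_source W _)
  unfold rep val
  rw [h1, h2]

/-- The value in the preferred chart. -/
private theorem H1d_val {q : ℕ} (Ω : ℝ × X → Lam (ℝ × W) q) (p : X) (t : ℝ) :
    rep (W := ℝ × W) ((0 : ℝ), p) Ω (t, chartAt W p p) = Ω (t, p) := by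
  rw [H1d_rep Ω p t _ (mem_chart_target W p), (chartAt W p).left_inv (mem_chart_source W p),
    trd_self (W := W) p p (mem_chart_source W p)]
  have h : idx (ContinuousLinearMap.id ℝ W) = ContinuousLinearMap.id ℝ (ℝ × W) := by
    ext v <;> rfl
  rw [h]
  rfl

omit [IsManifold 𝓘(ℝ, W) ∞ X] in
private theorem H1d_smooth {q : ℕ} {Ω : ℝ × X → Lam (ℝ × W) q}
    (hΩ : SmoothForm (W := ℝ × W) Ω) (x0 : X) :
    ContDiffOn ℝ ∞ (rep (W := ℝ × W) ((0 : ℝ), x0) Ω) (Set.univ ×ˢ (chartAt W x0).target) := by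
  have h := hΩ ((0 : ℝ), x0)
  rwa [cyl_target] at h

private theorem H1d_cont {q : ℕ} {Ω : ℝ × X → Lam (ℝ × W) q}
    (hΩ : SmoothForm (W := ℝ × W) Ω) (p : X) : Continuous fun t : ℝ => Ω (t, p) := by
  have h1 : (fun t : ℝ => Ω (t, p)) =
      fun t : ℝ => rep (W := ℝ × W) ((0 : ℝ), p) Ω (t, chartAt W p p) := by
    funext t
    rw [H1d_val]
  rw [h1]
  exact (H1d_smooth hΩ p).continuousOn.comp_continuous (by fun_prop)
    fun t => ⟨Set.mem_univ _, mem_chart_target W p⟩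

/-- JOB H1d. The homotopy form in a chart.
PROOF. Unfold `rep`, `val`, `hof`; `ContinuousLinearMap.intervalIntegral_comp_comm` for the continuous
linear map `compContinuousLinearMapCLM (trd x0 p p)`, `cyc_idx`, `cyl_trd`.  The integrand is continuous in
`t` for `z` in the target: `Ω` is smooth, and `Ω (t, p) = val (t,p) Ω (t,p)` is `rep (0,p) Ω (t, chart p)`
as the charts at `(t,p)` and at `(0,p)` coincide. -/
theorem rep_hof {q : ℕ} {Ω : ℝ × X → Lam (ℝ × W) (q + 1)} (hΩ : SmoothForm (W := ℝ × W) Ω)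
    (x0 : X) (z : W) (hz : z ∈ (chartAt W x0).target) :
    rep x0 (hof Ω) z = ∫ t in (0 : ℝ)..1, cyc q (rep (W := ℝ × W) ((0 : ℝ), x0) Ω (t, z)) := by
  obtain ⟨p, hp⟩ : ∃ p, p = (chartAt W x0).symm z := ⟨_, rfl⟩
  have h1 : ∀ t : ℝ, cyc q (rep (W := ℝ × W) ((0 : ℝ), x0) Ω (t, z)) =
      (cyc q (Ω (t, p))).compContinuousLinearMap (trd x0 p p) := by
    intro t
    rw [H1d_rep Ω x0 t z hz, cyc_idx, hp]
  have h2 : Continuous fun t : ℝ => cyc q (Ω (t, p)) :=
    (cyc q).continuous.comp (H1d_cont hΩ p)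
  let L : Lam W q →L[ℝ] Lam W q :=
    ContinuousAlternatingMap.compContinuousLinearMapCLM (trd x0 p p)
  have h3 : (∫ t in (0 : ℝ)..1, L (cyc q (Ω (t, p)))) = L (∫ t in (0 : ℝ)..1, cyc q (Ω (t, p))) :=
    ContinuousLinearMap.intervalIntegral_comp_comm L (h2.intervalIntegrable (μ := volume) 0 1)
  calc rep x0 (hof Ω) z = (hof Ω p).compContinuousLinearMap (trd x0 p p) := by
        unfold rep val
        rw [hp]
    _ = ∫ t in (0 : ℝ)..1, (cyc q (Ω (t, p))).compContinuousLinearMap (trd x0 p p) := h3.symm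
    _ = _ := by simp only [h1]

/-- JOB H1d. -/
theorem SmoothForm.hof {q : ℕ} {Ω : ℝ × X → Lam (ℝ × W) (q + 1)}
    (hΩ : SmoothForm (W := ℝ × W) Ω) : SmoothForm (W := W) (hof Ω) := by
  intro x0
  have h1 : ContDiffOn ℝ ∞ (fun w : ℝ × W => cyc q (rep (W := ℝ × W) ((0 : ℝ), x0) Ω w))
      (Set.univ ×ˢ (chartAt W x0).target) := by
    have h0 : ContDiff ℝ ∞ (cyc (W := W) q) := (cyc (W := W) q).contDiff
    exact h0.comp_contDiffOn (H1d_smooth hΩ x0)
  exact (smooth_param (chartAt W x0).open_target h1).congr fun z hz => rep_hof hΩ x0 z hz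

private theorem H1d_closed {q : ℕ} {Ω : ℝ × X → Lam (ℝ × W) q}
    (hΩ : SmoothForm (W := ℝ × W) Ω) (hd : ∀ p, dform (W := ℝ × W) Ω p = 0) (x0 : X) (t : ℝ)
    (z : W) (hz : z ∈ (chartAt W x0).target) :
    extDeriv (rep (W := ℝ × W) ((0 : ℝ), x0) Ω) (t, z) = 0 := by
  have hz' : (t, z) ∈ (chartAt (ℝ × W) ((0 : ℝ), x0)).target := by
    rw [cyl_target]
    exact ⟨Set.mem_univ _, hz⟩
  rw [← rep_dform hΩ ((0 : ℝ), x0) (t, z) hz']
  unfold rep val
  rw [hd]
  rfl

/-- JOB H1d.  Closed smooth forms on `ℝ × X`. -/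
theorem cyl_exact {q : ℕ} {Ω : ℝ × X → Lam (ℝ × W) q} (hΩ : SmoothForm (W := ℝ × W) Ω)
    (hd : ∀ p, dform (W := ℝ × W) Ω p = 0) :
    IsExactForm (W := W) (fun x : X => resW q (Ω (1, x)) - resW q (Ω (0, x))) := by
  cases q with
  | zero =>
    intro x
    have h1 := local_cyl0 (chartAt W x).open_target (H1d_smooth hΩ x)
      (fun t z hz => H1d_closed hΩ hd x t z hz) (mem_chart_target W x)
    rw [H1d_val, H1d_val] at h1
    show resW 0 (Ω (1, x)) - resW 0 (Ω (0, x)) = 0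
    rw [h1, sub_self]
  | succ q =>
    refine ⟨FB.hof Ω, hΩ.hof, fun x => ?_⟩
    have h1 := local_cyl (chartAt W x).open_target (H1d_smooth hΩ x)
      (fun t z hz => H1d_closed hΩ hd x t z hz) (mem_chart_target W x)
    rw [H1d_val, H1d_val] at h1
    have hev : rep x (FB.hof Ω) =ᶠ[𝓝 (chartAt W x x)]
        fun z => ∫ t in (0 : ℝ)..1, cyc q (rep (W := ℝ × W) ((0 : ℝ), x) Ω (t, z)) := by
      filter_upwards [(chartAt W x).open_target.mem_nhds (mem_chart_target W x)] with z hz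
      exact rep_hof hΩ x z hz
    show resW (q + 1) (Ω (1, x)) - resW (q + 1) (Ω (0, x)) =
      extDeriv (rep x (FB.hof Ω)) (chartAt W x x)
    rw [hev.extDeriv_eq, h1]

end

end FB
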