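import Pool.Agent.H.MP_fb873c_an.H1e1

/-! # Part H (H1e): one move -/

namespace FB

open scoped Topology ContDiff Manifold

universe u

section

variable {W : Type} [NormedAddCommGroup W] [NormedSpace ℝ W]
variable {X : Type u} [TopologicalSpace X] [ChartedSpace W X] [IsManifold 𝓘(ℝ, W) ∞ X]

/-- Move `F` towards `G` in the chart at `y0`: where `χ = 1` the result is `G`. -/
noncomputable def mv (W : Type) [NormedAddCommGroup W] [NormedSpace ℝ W] {X : Type u}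
    [TopologicalSpace X] [ChartedSpace W X] (y0 : X) (χ : X → ℝ) (F G : X → X) (x : X) : X :=
  open Classical in
  if F x ∈ (chartAt W y0).source ∧ G x ∈ (chartAt W y0).source then
    (chartAt W y0).symm (chartAt W y0 (F x) + χ x • (chartAt W y0 (G x) - chartAt W y0 (F x)))
  else F x

omit [IsManifold 𝓘(ℝ, W) ∞ X] in
/-- JOB H1e.  Where `χ = 0` nothing moves. -/
theorem mv_eq_of_zero (y0 : X) {χ : X → ℝ} (F G : X → X) {x : X} (hx : χ x = 0) :
    mv W y0 χ F G x = F x := by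
  unfold mv
  split_ifs with h
  · rw [hx, zero_smul, add_zero, (chartAt W y0).left_inv h.1]
  · rfl

/-- The conditions under which the move is defined. -/
structure MvOK (W : Type) [NormedAddCommGroup W] [NormedSpace ℝ W] {X : Type u}
    [TopologicalSpace X] [ChartedSpace W X] (y0 : X) (χ : X → ℝ) (F G : X → X) : Prop where
  χs : ContMDiff 𝓘(ℝ, W) 𝓘(ℝ, ℝ) ∞ χ
  χ0 : ∀ x, 0 ≤ χ x
  χ1 : ∀ x, χ x ≤ 1
  Fs : ContMDiff 𝓘(ℝ, W) 𝓘(ℝ, W) ∞ F
  Gs : ContMDiff 𝓘(ℝ, W) 𝓘(ℝ, W) ∞ G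
  Fm : ∀ x ∈ tsupport χ, F x ∈ (chartAt W y0).source
  Gm : ∀ x ∈ tsupport χ, G x ∈ (chartAt W y0).source
  seg : ∀ x ∈ tsupport χ, ∀ s : ℝ, 0 ≤ s → s ≤ 1 →
    chartAt W y0 (F x) + s • (chartAt W y0 (G x) - chartAt W y0 (F x)) ∈ (chartAt W y0).target

theorem H1e_chart {Z : Type*} [TopologicalSpace Z] {E : Type*} [NormedAddCommGroup E]
    [NormedSpace ℝ E] [ChartedSpace E Z] {F : Z → X} {p : Z} {y0 : X}
    (hF : ContMDiffAt 𝓘(ℝ, E) 𝓘(ℝ, W) ∞ F p) (h0 : F p ∈ (chartAt W y0).source) :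
    ContMDiffAt 𝓘(ℝ, E) 𝓘(ℝ, W) ∞ (fun p => chartAt W y0 (F p)) p := by
  have h1 : ContMDiffAt 𝓘(ℝ, W) 𝓘(ℝ, W) ∞ (chartAt W y0) (F p) :=
    (contMDiffOn_chart (I := 𝓘(ℝ, W)) (n := ∞) (x := y0)).contMDiffAt
      ((chartAt W y0).open_source.mem_nhds h0)
  exact ContMDiffAt.comp p h1 hF

/-- JOB H1e.  The homotopy `h(t,x)` = move with `θ(t) χ(x)` instead of `χ(x)`, `θ = Real.smoothTransition`.
PROOF. Smooth at `(t,x)`: if `x ∉ tsupport χ` (closed) then `h = F ∘ snd` near `(t,x)` (`cyl_snd`,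
`mv_eq_of_zero`); if `x ∈ tsupport χ` then for `(t',x')` near `(t,x)` : `F x'`, `G x'` are in the source,
`h(t',x') = chart⁻¹(chart (F x') + (θ(t') χ(x')) • (chart (G x') - chart (F x')))`; the argument is a
smooth function of `(t',x')` and lies in the (open) target at `(t,x)` by `seg` with `s = θ(t) χ(x) ∈ [0,1]`;
`contMDiffOn_chart`, `contMDiffOn_chart_symm`, `cyl_fst`, `cyl_snd`, `Real.smoothTransition.contDiff`. -/
theorem mv_homotopy {y0 : X} {χ : X → ℝ} {F G : X → X} (h : MvOK W y0 χ F G) :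
    ContMDiff 𝓘(ℝ, ℝ × W) 𝓘(ℝ, W) ∞
      (fun p : ℝ × X => mv W y0 (fun x => Real.smoothTransition p.1 * χ x) F G p.2) := by
  intro p0
  by_cases hx : p0.2 ∈ tsupport χ
  · have hF0 := h.Fm p0.2 hx
    have hG0 := h.Gm p0.2 hx
    have hFc : ContMDiffAt 𝓘(ℝ, ℝ × W) 𝓘(ℝ, W) ∞ (fun p : ℝ × X => F p.2) p0 :=
      (h.Fs.comp cyl_snd).contMDiffAt
    have hGc : ContMDiffAt 𝓘(ℝ, ℝ × W) 𝓘(ℝ, W) ∞ (fun p : ℝ × X => G p.2) p0 :=
      (h.Gs.comp cyl_snd).contMDiffAt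
    have hcF : ContMDiffAt 𝓘(ℝ, ℝ × W) 𝓘(ℝ, W) ∞ (fun p : ℝ × X => chartAt W y0 (F p.2)) p0 :=
      H1e_chart hFc hF0
    have hcG : ContMDiffAt 𝓘(ℝ, ℝ × W) 𝓘(ℝ, W) ∞ (fun p : ℝ × X => chartAt W y0 (G p.2)) p0 :=
      H1e_chart hGc hG0
    have hθ : ContMDiffAt 𝓘(ℝ, ℝ × W) 𝓘(ℝ, ℝ) ∞
        (fun p : ℝ × X => Real.smoothTransition p.1 * χ p.2) p0 := by
      have h1 : ContMDiff 𝓘(ℝ, ℝ × W) 𝓘(ℝ, ℝ) ∞ (fun p : ℝ × X => Real.smoothTransition p.1) :=
        (Real.smoothTransition.contDiff.contMDiff).comp cyl_fst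
      have h2 : ContMDiff 𝓘(ℝ, ℝ × W) 𝓘(ℝ, ℝ) ∞ (fun p : ℝ × X => χ p.2) :=
        h.χs.comp cyl_snd
      exact (h1.smul h2).contMDiffAt
    have hA : ContMDiffAt 𝓘(ℝ, ℝ × W) 𝓘(ℝ, W) ∞ (fun p : ℝ × X => chartAt W y0 (F p.2) +
        (Real.smoothTransition p.1 * χ p.2) • (chartAt W y0 (G p.2) - chartAt W y0 (F p.2))) p0 :=
      hcF.add (hθ.smul (hcG.sub hcF))
    have hmem : chartAt W y0 (F p0.2) + (Real.smoothTransition p0.1 * χ p0.2) •
        (chartAt W y0 (G p0.2) - chartAt W y0 (F p0.2)) ∈ (chartAt W y0).target := by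
      refine h.seg p0.2 hx _ (mul_nonneg (Real.smoothTransition.nonneg _) (h.χ0 _)) ?_
      exact mul_le_one₀ (Real.smoothTransition.le_one _) (h.χ0 _) (h.χ1 _)
    have hs : ContMDiffAt 𝓘(ℝ, W) 𝓘(ℝ, W) ∞ (chartAt W y0).symm
        (chartAt W y0 (F p0.2) + (Real.smoothTransition p0.1 * χ p0.2) •
        (chartAt W y0 (G p0.2) - chartAt W y0 (F p0.2))) :=
      (contMDiffOn_chart_symm (I := 𝓘(ℝ, W)) (n := ∞) (x := y0)).contMDiffAt
        ((chartAt W y0).open_target.mem_nhds hmem)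
    have hcomp := ContMDiffAt.comp p0 hs hA
    refine hcomp.congr_of_eventuallyEq ?_
    have e1 : ∀ᶠ p in 𝓝 p0, F p.2 ∈ (chartAt W y0).source :=
      hFc.continuousAt.eventually ((chartAt W y0).open_source.mem_nhds hF0)
    have e2 : ∀ᶠ p in 𝓝 p0, G p.2 ∈ (chartAt W y0).source :=
      hGc.continuousAt.eventually ((chartAt W y0).open_source.mem_nhds hG0)
    filter_upwards [e1, e2] with p hp1 hp2
    show mv W y0 (fun x => Real.smoothTransition p.1 * χ x) F G p.2 = _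
    unfold mv
    rw [if_pos ⟨hp1, hp2⟩]
    rfl
  · have h1 : ∀ᶠ x in 𝓝 p0.2, χ x = 0 := notMem_tsupport_iff_eventuallyEq.1 hx
    have h2 : ∀ᶠ p in 𝓝 p0, χ p.2 = 0 := continuous_snd.continuousAt.eventually h1
    have h3 : ContMDiffAt 𝓘(ℝ, ℝ × W) 𝓘(ℝ, W) ∞ (fun p : ℝ × X => F p.2) p0 :=
      (h.Fs.comp cyl_snd).contMDiffAt
    refine h3.congr_of_eventuallyEq ?_
    filter_upwards [h2] with p hp
    exact mv_eq_of_zero y0 F G (by rw [hp, mul_zero])

/-- JOB H1e.  Moving does not change the action on cohomology, and the result is smooth.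
PROOF. `mv_homotopy` at `t = 0, 1` (`Real.smoothTransition.zero`, `.one`); smoothness: compose with `cyl_sl 1`. -/
theorem mv_same {y0 : X} {χ : X → ℝ} {F G : X → X} (h : MvOK W y0 χ F G) :
    SameH W F (mv W y0 χ F G) ∧ ContMDiff 𝓘(ℝ, W) 𝓘(ℝ, W) ∞ (mv W y0 χ F G) := by
  have h1 := mv_homotopy h
  have e0 : (fun x => mv W y0 (fun x => Real.smoothTransition ((0 : ℝ), x).1 * χ x) F G
      ((0 : ℝ), x).2) = F := by
    funext x
    exact mv_eq_of_zero y0 F G (by rw [Real.smoothTransition.zero, zero_mul])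
  have e1 : (fun x => mv W y0 (fun x => Real.smoothTransition ((1 : ℝ), x).1 * χ x) F G
      ((1 : ℝ), x).2) = mv W y0 χ F G := by
    funext x
    have e2 : (fun x => Real.smoothTransition (1 : ℝ) * χ x) = χ := by
      funext y
      rw [Real.smoothTransition.one, one_mul]
    show mv W y0 (fun x => Real.smoothTransition (1 : ℝ) * χ x) F G x = _
    rw [e2]
  constructor
  · have h2 := sameH_of_homotopy h1
    have h3 : SameH W (fun x => mv W y0 (fun x => Real.smoothTransition ((0 : ℝ), x).1 * χ x) F G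
        ((0 : ℝ), x).2) (fun x => mv W y0 (fun x => Real.smoothTransition ((1 : ℝ), x).1 * χ x) F G
        ((1 : ℝ), x).2) := h2
    rw [e0, e1] at h3
    exact h3
  · have h2 := h1.comp (cyl_sl (W := W) (X := X) 1)
    have h3 : ContMDiff 𝓘(ℝ, W) 𝓘(ℝ, W) ∞ (fun x => mv W y0 (fun x =>
      Real.smoothTransition ((1 : ℝ), x).1 * χ x) F G ((1 : ℝ), x).2) := h2
    rw [e1] at h3
    exact h3

/-- JOB H1e. -/
theorem mv_eq_of_one {y0 : X} {χ : X → ℝ} {F G : X → X} (h : MvOK W y0 χ F G) {x : X}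
    (hx : χ x = 1) : mv W y0 χ F G x = G x := by
  have h1 : x ∈ tsupport χ := subset_tsupport _ (by
    rw [Function.mem_support, hx]
    exact one_ne_zero)
  unfold mv
  rw [if_pos ⟨h.Fm x h1, h.Gm x h1⟩, hx, one_smul, add_sub_cancel,
    (chartAt W y0).left_inv (h.Gm x h1)]

/-- JOB H1e. -/
theorem mv_eq_of_eq {y0 : X} {χ : X → ℝ} {F G : X → X} (h : MvOK W y0 χ F G) {x : X}
    (hx : F x = G x) : mv W y0 χ F G x = G x := by
  unfold mv
  rw [hx, sub_self, smul_zero, add_zero]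
  split_ifs with h1
  · exact (chartAt W y0).left_inv h1.1
  · rfl

end

end FB
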