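import Pool.Agent.H.MP_fb873c_an.G1d
import Pool.Agent.H.MP_fb873c_an.G1f
import Pool.Agent.H.MP_fb873c_an.H1d

/-! # Part H (H1e1): homotopic maps -/

namespace FB

open scoped Topology ContDiff Manifold

universe u

section

variable {W : Type} [NormedAddCommGroup W] [NormedSpace ℝ W]
variable {X : Type u} [TopologicalSpace X] [ChartedSpace W X] [IsManifold 𝓘(ℝ, W) ∞ X]

/-- Two maps act in the same way on cohomology. -/
def SameH (W : Type) [NormedAddCommGroup W] [NormedSpace ℝ W] {X : Type u} [TopologicalSpace X]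
    [ChartedSpace W X] (F G : X → X) : Prop :=
  ∀ (q : ℕ) (η : X → Lam W q), SmoothForm η → (∀ x, dform η x = 0) →
    IsExactForm (W := W) (fun x : X => pb (W := W) G η x - pb (W := W) F η x)

omit [IsManifold 𝓘(ℝ, W) ∞ X] in
/-- The derivative of the zero form. -/
theorem H1e1_dform_zero {q : ℕ} (p : X) : FB.dform (fun _ : X => (0 : Lam W q)) p = 0 := by
  have h1 : rep p (fun _ : X => (0 : Lam W q)) = fun _ => 0 := by
    funext z
    ext v
    rfl
  unfold FB.dform
  rw [h1]
  unfold extDeriv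
  have h2 : fderiv ℝ (fun _ : W => (0 : Lam W q)) (chartAt W p p) = 0 := fderiv_const_apply _
  rw [h2]
  ext v
  rw [ContinuousAlternatingMap.alternatizeUncurryFin_apply]
  simp

/-- The zero form is exact. -/
theorem H1e1_exact_zero {q : ℕ} : IsExactForm (W := W) (fun _ : X => (0 : Lam W q)) := by
  cases q with
  | zero => exact fun _ => rfl
  | succ q => exact ⟨fun _ => 0, smoothForm_zero, fun x => (H1e1_dform_zero x).symm⟩

/-- Sums of exact forms are exact. -/
theorem H1e1_exact_add {q : ℕ} {γ γ' : X → Lam W q} (h : IsExactForm (W := W) γ)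
    (h' : IsExactForm (W := W) γ') : IsExactForm (W := W) (fun x => γ x + γ' x) := by
  cases q with
  | zero =>
    intro x
    show γ x + γ' x = 0
    rw [h x, h' x, add_zero]
  | succ q =>
    obtain ⟨β, hβ, hγ⟩ := h
    obtain ⟨β', hβ', hγ'⟩ := h'
    exact ⟨fun x => β x + β' x, hβ.add hβ', fun x => by
      rw [dform_add hβ hβ' x, ← hγ x, ← hγ' x]⟩

/-- JOB H1e. -/
theorem SameH.refl (F : X → X) : SameH W F F := by
  intro q η _ _
  have h : (fun x : X => pb (W := W) F η x - pb (W := W) F η x) = fun _ => (0 : Lam W q) := by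
    funext x
    exact sub_self _
  rw [h]
  exact H1e1_exact_zero

/-- JOB H1e.  (`SmoothForm.add`, `dform_add`.) -/
theorem SameH.trans {F G K : X → X} (h1 : SameH W F G) (h2 : SameH W G K) : SameH W F K := by
  intro q η hη hd
  have h3 := H1e1_exact_add (h1 q η hη hd) (h2 q η hη hd)
  have h4 : (fun x : X => pb (W := W) K η x - pb (W := W) F η x) =
      fun x : X => (pb (W := W) G η x - pb (W := W) F η x) +
        (pb (W := W) K η x - pb (W := W) G η x) := by
    funext x
    abel
  rw [h4]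
  exact h3

/-- JOB H1e.  A smooth homotopy.
PROOF. `Ω = pb h η` is a closed smooth form on `ℝ × X` (`SmoothForm.pb`, `dform_pb`); `cyl_exact`; `pb_sl` and
`pb_comp` identify `resW q (Ω (t,x))` with `pb (h ∘ sl t) η x`. -/
theorem sameH_of_homotopy {h : ℝ × X → X} (hh : ContMDiff 𝓘(ℝ, ℝ × W) 𝓘(ℝ, W) ∞ h) :
    SameH W (fun x => h (0, x)) (fun x => h (1, x)) := by
  intro q η hη hd
  have h1 : SmoothForm (W := ℝ × W) (pb (W := ℝ × W) (W' := W) h η) := hη.pb hh
  have h2 : ∀ p, FB.dform (W := ℝ × W) (pb (W := ℝ × W) (W' := W) h η) p = 0 := by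
    intro p
    rw [dform_pb hη hh p]
    unfold pb
    rw [hd]
    rfl
  have h3 := cyl_exact h1 h2
  have h4 : ∀ (t : ℝ) (x : X), resW q (pb (W := ℝ × W) (W' := W) h η (t, x)) =
      pb (W := W) (fun x => h (t, x)) η x := by
    intro t x
    rw [← pb_sl (pb (W := ℝ × W) (W' := W) h η) t x]
    exact (pb_comp η (cyl_sl t) hh x).symm
  simp only [h4] at h3
  exact h3

end

end FB
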