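import Pool.Agent.H.MP_fb873c_an.H1e

/-! # Part H (H1f1): families of maps converging to `f` -/

namespace FB

open scoped Topology ContDiff Manifold
open Filter

universe u v

section

variable {W : Type} [NormedAddCommGroup W] [NormedSpace ℝ W]
variable {X : Type u} [TopologicalSpace X] [ChartedSpace W X]

/-- Continuous convergence of the family `F i` to `f`. -/
def CC {ι : Type v} (l : Filter ι) (F : ι → X → X) (f : X → X) : Prop :=
  ∀ x, Tendsto (fun p : ι × X => F p.1 p.2) (l ×ˢ 𝓝 x) (𝓝 (f x))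

/-- Data of a move near `f`. -/
structure MD (W : Type) [NormedAddCommGroup W] [NormedSpace ℝ W] {X : Type u}
    [TopologicalSpace X] [ChartedSpace W X] (f : X → X) where
  y0 : X
  χ : X → ℝ
  c : W
  r : ℝ
  χs : ContMDiff 𝓘(ℝ, W) 𝓘(ℝ, ℝ) ∞ χ
  χ0 : ∀ x, 0 ≤ χ x
  χ1 : ∀ x, χ x ≤ 1
  cpt : IsCompact (tsupport χ)
  fm : ∀ x ∈ tsupport χ, f x ∈ (chartAt W y0).source
  fb : ∀ x ∈ tsupport χ, chartAt W y0 (f x) ∈ Metric.ball c r
  bt : Metric.ball c r ⊆ (chartAt W y0).target

/-- JOB H1f.  Bumps.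
PROOF. `y0 = f x`, `c = chartAt W (f x) (f x)`, `r` with `ball c r ⊆ target`, `U` the open set of `x'` with
`f x'` in the source and `chart (f x') ∈ ball c r`; a `SmoothBumpFunction 𝓘(ℝ, W) x` with
`tsupport ⊆ U` (`SmoothBumpFunction.nhds_basis_tsupport`), `SmoothBumpFunction.eventuallyEq_one`,
`SmoothBumpFunction.contMDiff`, `.nonneg`, `.le_one`, `.hasCompactSupport`. -/
theorem exists_MD [FiniteDimensional ℝ W] [IsManifold 𝓘(ℝ, W) ∞ X] [T2Space X] {f : X → X}
    (hf : Continuous f) (x : X) : ∃ D : MD W f, ∀ᶠ x' in 𝓝 x, D.χ x' = 1 := by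
  have hs0 : f x ∈ (chartAt W (f x)).source := mem_chart_source W (f x)
  obtain ⟨r, hr, hball⟩ := Metric.mem_nhds_iff.1
    ((chartAt W (f x)).open_target.mem_nhds ((chartAt W (f x)).map_source hs0))
  have hU : (chartAt W (f x)).source ∩ chartAt W (f x) ⁻¹'
      Metric.ball (chartAt W (f x) (f x)) r ∈ 𝓝 (f x) :=
    ((chartAt W (f x)).isOpen_inter_preimage Metric.isOpen_ball).mem_nhds
      ⟨hs0, Metric.mem_ball_self hr⟩
  have hU' := hf.continuousAt.preimage_mem_nhds hU
  obtain ⟨φ, -, hφ⟩ := (SmoothBumpFunction.nhds_basis_tsupport (I := 𝓘(ℝ, W)) x).mem_iff.1 hU'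
  refine ⟨{ y0 := f x, χ := φ, c := chartAt W (f x) (f x), r := r, χs := φ.contMDiff,
            χ0 := fun x => φ.nonneg, χ1 := fun x => φ.le_one, cpt := φ.hasCompactSupport,
            fm := fun x' hx' => (hφ hx').1, fb := fun x' hx' => (hφ hx').2, bt := hball }, ?_⟩
  filter_upwards [φ.eventuallyEq_one] with y hy
  exact hy

variable {ι : Type v} {l : Filter ι}

/-- JOB H1f.  Uniformity on compact sets: an open condition satisfied by `f` on a compact set.
PROOF. `IsCompact` induction on the statement `∀ᶠ i in l, ∀ x ∈ K, F i x ∈ V`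
(`IsCompact.induction_on` or `IsCompact.eventually_forall_of_forall_eventually`). -/
theorem CC.eventually_forall {F : ι → X → X} {f : X → X} (h : CC l F f) {K : Set X}
    (hK : IsCompact K) {V : Set X} (hV : IsOpen V) (hf : ∀ x ∈ K, f x ∈ V) :
    ∀ᶠ i in l, ∀ x ∈ K, F i x ∈ V := by
  refine hK.induction_on (p := fun s => ∀ᶠ i in l, ∀ x ∈ s, F i x ∈ V) ?_ ?_ ?_ ?_
  · exact Filter.Eventually.of_forall fun i x hx => absurd hx (Set.notMem_empty x)
  · intro s t hst ht
    exact ht.mono fun i hi x hx => hi x (hst hx)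
  · intro s t hs ht
    filter_upwards [hs, ht] with i h1 h2 x hx
    rcases hx with hx | hx
    · exact h1 x hx
    · exact h2 x hx
  · intro x hx
    have h1 := (h x).eventually (hV.mem_nhds (hf x hx))
    obtain ⟨pa, hpa, pb, hpb, hp⟩ := Filter.eventually_prod_iff.1 h1
    exact ⟨{x' | pb x'}, mem_nhdsWithin_of_mem_nhds hpb,
      hpa.mono fun i hi x' hx' => hp hi hx'⟩

/-- JOB H1f.  The move is defined eventually (convexity of the ball for `seg`). -/
theorem MD.ok {f : X → X} (D : MD W f) {F G : ι → X → X} (hF : CC l F f) (hG : CC l G f)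
    (hFs : ∀ᶠ i in l, ContMDiff 𝓘(ℝ, W) 𝓘(ℝ, W) ∞ (F i))
    (hGs : ∀ᶠ i in l, ContMDiff 𝓘(ℝ, W) 𝓘(ℝ, W) ∞ (G i)) :
    ∀ᶠ i in l, MvOK W D.y0 D.χ (F i) (G i) := by
  have hV : IsOpen ((chartAt W D.y0).source ∩ chartAt W D.y0 ⁻¹' Metric.ball D.c D.r) :=
    (chartAt W D.y0).isOpen_inter_preimage Metric.isOpen_ball
  have h1 := hF.eventually_forall D.cpt hV fun x hx => ⟨D.fm x hx, D.fb x hx⟩
  have h2 := hG.eventually_forall D.cpt hV fun x hx => ⟨D.fm x hx, D.fb x hx⟩
  filter_upwards [h1, h2, hFs, hGs] with i hi1 hi2 hi3 hi4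
  exact { χs := D.χs, χ0 := D.χ0, χ1 := D.χ1, Fs := hi3, Gs := hi4,
          Fm := fun x hx => (hi1 x hx).1, Gm := fun x hx => (hi2 x hx).1,
          seg := fun x hx s hs0 hs1 => D.bt ((convex_ball D.c D.r).add_smul_sub_mem
            (hi1 x hx).2 (hi2 x hx).2 ⟨hs0, hs1⟩) }

/-- JOB H1f.  Continuous convergence is preserved by a move.
PROOF. If `f x` is not in the source of the chart at `y0` then `x ∉ tsupport χ`, so `χ = 0` near `x` and the
move is `F i` there.  If it is, then eventually `F i x'`, `G i x'` are in the source, and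
`chart (F i x') + χ x' • (chart (G i x') - chart (F i x')) → chart (f x)` as `0 ≤ χ ≤ 1`; continuity of the
inverse chart at `chart (f x)`. -/
theorem MD.cc {f : X → X} (D : MD W f) {F G : ι → X → X} (hF : CC l F f) (hG : CC l G f) :
    CC l (fun i => mv W D.y0 D.χ (F i) (G i)) f := by
  intro x
  by_cases hx : f x ∈ (chartAt W D.y0).source
  · have hcF : Tendsto (fun p : ι × X => chartAt W D.y0 (F p.1 p.2)) (l ×ˢ 𝓝 x)
        (𝓝 (chartAt W D.y0 (f x))) :=
      ((chartAt W D.y0).continuousAt hx).tendsto.comp (hF x)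
    have hcG : Tendsto (fun p : ι × X => chartAt W D.y0 (G p.1 p.2)) (l ×ˢ 𝓝 x)
        (𝓝 (chartAt W D.y0 (f x))) :=
      ((chartAt W D.y0).continuousAt hx).tendsto.comp (hG x)
    have hd : Tendsto (fun p : ι × X => chartAt W D.y0 (G p.1 p.2) - chartAt W D.y0 (F p.1 p.2))
        (l ×ˢ 𝓝 x) (𝓝 0) := by
      have h1 := hcG.sub hcF
      rwa [sub_self] at h1
    have hd' : Tendsto (fun p : ι × X => D.χ p.2 •
        (chartAt W D.y0 (G p.1 p.2) - chartAt W D.y0 (F p.1 p.2))) (l ×ˢ 𝓝 x) (𝓝 0) := by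
      refine squeeze_zero_norm (fun p => ?_) (by simpa using hd.norm)
      rw [norm_smul, Real.norm_of_nonneg (D.χ0 _)]
      exact mul_le_of_le_one_left (norm_nonneg _) (D.χ1 _)
    have hs := hcF.add hd'
    rw [add_zero] at hs
    have hsymm : Tendsto (chartAt W D.y0).symm (𝓝 (chartAt W D.y0 (f x))) (𝓝 (f x)) := by
      have h1 := ((chartAt W D.y0).continuousAt_symm ((chartAt W D.y0).map_source hx)).tendsto
      rwa [(chartAt W D.y0).left_inv hx] at h1
    refine (hsymm.comp hs).congr' ?_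
    have e1 := (hF x).eventually ((chartAt W D.y0).open_source.mem_nhds hx)
    have e2 := (hG x).eventually ((chartAt W D.y0).open_source.mem_nhds hx)
    filter_upwards [e1, e2] with p hp1 hp2
    show _ = mv W D.y0 D.χ (F p.1) (G p.1) p.2
    unfold mv
    rw [if_pos ⟨hp1, hp2⟩]
    rfl
  · have h1 : x ∉ tsupport D.χ := fun h => hx (D.fm x h)
    have h2 : ∀ᶠ x' in 𝓝 x, D.χ x' = 0 := notMem_tsupport_iff_eventuallyEq.1 h1
    refine (hF x).congr' ?_
    filter_upwards [h2.prod_inr l] with p hp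
    exact (mv_eq_of_zero D.y0 (F p.1) (G p.1) hp).symm

end

end FB
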