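import Pool.Agent.H.MP_fb873c_an.K00

/-!
# Part J (non-hyperbolic periodic points): local definitions

`F` is the return map in a chart, `0` the periodic point, `A` its derivative, `ι : ℂ → E` parametrises the plane of the
eigenvalue `lam` (a root of unity of order `b ≥ 5`), `π : E → ℂ` is the equivariant projection.
-/

namespace FB

namespace JT

open scoped Topology ContDiff
open Filter KT

variable {E : Type} [NormedAddCommGroup E] [NormedSpace ℝ E]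

/-- Resonance data: `lam` is a primitive `b`-th root of unity, `b ≥ 5`, a simple eigenvalue of `A`, and no other
eigenvalue of `A` is a `b`-th root of unity. -/
structure RD (A : E →L[ℝ] E) (lam : ℂ) (b : ℕ) (ι : ℂ →L[ℝ] E) (π : E →L[ℝ] ℂ) : Prop where
  pi : ∀ w, π (ι w) = w
  Ai : ∀ w, A (ι w) = ι (lam * w)
  pA : ∀ v, π (A v) = lam * π v
  b5 : 5 ≤ b
  one : lam ^ b = 1
  prim : ∀ j, 0 < j → j < b → lam ^ j ≠ 1
  inj : ∀ v, π v = 0 → (A ^ b) v = v → v = 0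

/-- `F` is smooth near `0`, fixes `0`, with derivative `A`. -/
structure Loc (F : E → E) (A : E →L[ℝ] E) : Prop where
  smooth : ContDiffAt ℝ ∞ F 0
  zero : F 0 = 0
  der : fderiv ℝ F 0 = A

/-- The linear perturbation in the plane. -/
noncomputable def hmu (ι : ℂ →L[ℝ] E) (π : E →L[ℝ] ℂ) (μ : ℂ) (x : E) : E := x + ι (μ * π x)

/-- The cubic perturbation in the plane. -/
noncomputable def hep (ι : ℂ →L[ℝ] E) (π : E →L[ℝ] ℂ) (ε : ℝ) (x : E) : E :=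
  x + ι (((ε * ‖π x‖ ^ 2 : ℝ) : ℂ) * π x)

/-- The iterates of `F ∘ hmu`, as functions of the parameter and the point. -/
noncomputable def GG (F : E → E) (ι : ℂ →L[ℝ] E) (π : E →L[ℝ] ℂ) (j : ℕ) (p : ℂ × E) : E :=
  (fun y => F (hmu ι π p.1 y))^[j] p.2

/-- The reduced displacement. -/
noncomputable def RR (F : E → E) (ι : ℂ →L[ℝ] E) (π : E →L[ℝ] ℂ) (b : ℕ) (q : ℂ × ℂ → E)
    (p : ℂ × ℂ) : ℂ :=
  π (GG F ι π b (p.1, q p)) - p.2

/-- The derivative of the reduced displacement in the second variable. -/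
noncomputable def QQ (F : E → E) (ι : ℂ →L[ℝ] E) (π : E →L[ℝ] ℂ) (b : ℕ) (q : ℂ × ℂ → E)
    (p : ℂ × ℂ) : ℂ →L[ℝ] ℂ :=
  fderiv ℝ (fun w => RR F ι π b q (p.1, w)) p.2

/-- `q` is the solution of the equation transversal to the plane (reduction of Liapunov and Schmidt). -/
structure LS (F : E → E) (ι : ℂ →L[ℝ] E) (π : E →L[ℝ] ℂ) (b : ℕ) (q : ℂ × ℂ → E) : Prop where
  smooth : ContDiffAt ℝ ∞ q 0
  zero : ∀ᶠ μ : ℂ in 𝓝 0, q (μ, 0) = 0
  pi : ∀ᶠ p : ℂ × ℂ in 𝓝 0, π (q p) = p.2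
  eq : ∀ᶠ p : ℂ × ℂ in 𝓝 0, GG F ι π b (p.1, q p) = q p + ι (RR F ι π b q p)
  unq : ∃ C : ℝ, ∀ᶠ x in 𝓝 (0 : E), ‖x - q (0, π x)‖ ≤
    C * ‖GG F ι π b (0, x) - x - ι (π (GG F ι π b (0, x) - x))‖

/-- `v ↦ c (2 v + conj v)`. -/
noncomputable def Tc (c : ℂ) : ℂ →L[ℝ] ℂ :=
  mulc (2 * c) + mulc c ∘L (Complex.conjCLE : ℂ →L[ℝ] ℂ)

/-- `v ↦ c (v + conj v)`. -/
noncomputable def Rc (c : ℂ) : ℂ →L[ℝ] ℂ :=
  mulc c + mulc c ∘L (Complex.conjCLE : ℂ →L[ℝ] ℂ)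

theorem mulc_apply (a v : ℂ) : mulc a v = a * v := rfl

theorem Tc_apply (c v : ℂ) : Tc c v = c * (2 * v + (starRingEnd ℂ) v) := by
  have h : Tc c v = 2 * c * v + c * (starRingEnd ℂ) v := rfl
  rw [h]
  ring

theorem Rc_apply (c v : ℂ) : Rc c v = c * (v + (starRingEnd ℂ) v) := by
  have h : Rc c v = c * v + c * (starRingEnd ℂ) v := rfl
  rw [h]
  ring

end JT

end FB
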