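import Pool.Agent.H.MP_fb873c_an.J0

/-!
# Part J1: linear algebra of the resonance data
-/

namespace FB

namespace JT

open scoped Topology ContDiff
open Filter KT

variable {E : Type} [NormedAddCommGroup E] [NormedSpace ℝ E] {A : E →L[ℝ] E} {lam : ℂ} {b : ℕ}
  {ι : ℂ →L[ℝ] E} {π : E →L[ℝ] ℂ} {F : E → E} {q : ℂ × ℂ → E}

/-- `‖lam‖ ^ b = 1` and `‖lam‖ ≥ 0` (`pow_eq_one_iff_of_nonneg`). -/
theorem RD.norm (h : RD A lam b ι π) : ‖lam‖ = 1 := by
  have hb : b ≠ 0 := by
    have := h.b5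
    omega
  have h1 : ‖lam‖ ^ b = 1 := by
    rw [← norm_pow, h.one, norm_one]
  exact (pow_eq_one_iff_of_nonneg (norm_nonneg _) hb).1 h1

theorem RD.ne_zero (h : RD A lam b ι π) : lam ≠ 0 := by
  intro h0
  have h1 := h.norm
  rw [h0, norm_zero] at h1
  exact zero_ne_one h1

/-- Induction on `j` (`pow_succ'` : `A ^ (j+1) = A * A ^ j`, `A * B` is the composition). -/
theorem RD.Apow (h : RD A lam b ι π) (j : ℕ) (w : ℂ) : (A ^ j) (ι w) = ι (lam ^ j * w) := by
  induction j with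
  | zero => simp
  | succ j ih =>
    rw [pow_succ']
    change A ((A ^ j) (ι w)) = _
    rw [ih, h.Ai, pow_succ', mul_assoc]

theorem RD.piA (h : RD A lam b ι π) (j : ℕ) (v : E) : π ((A ^ j) v) = lam ^ j * π v := by
  induction j with
  | zero => simp
  | succ j ih =>
    rw [pow_succ']
    change π (A ((A ^ j) v)) = _
    rw [h.pA, ih, pow_succ', mul_assoc]

/-- `L x = ι (π x) + (A^b x - x)` is injective: if `L x = 0` then `0 = π (L x) = π x + (lam^b - 1) π x = π x`, so `A^b x = x` and `x = 0` by `RD.inj`.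
Finite dimension: `LinearEquiv.ofInjectiveEndo`, `LinearEquiv.toContinuousLinearEquiv`. -/
theorem exists_L [FiniteDimensional ℝ E] (h : RD A lam b ι π) :
    ∃ L : E ≃L[ℝ] E, ∀ x, L x = ι (π x) + ((A ^ b) x - x) := by
  let f : E →ₗ[ℝ] E :=
    ((ι ∘L π + (A ^ b - ContinuousLinearMap.id ℝ E) : E →L[ℝ] E) : E →ₗ[ℝ] E)
  have hf : ∀ x, f x = ι (π x) + ((A ^ b) x - x) := fun x => rfl
  have hinj : Function.Injective f := by
    refine (injective_iff_map_eq_zero f).2 ?_
    intro x hx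
    rw [hf] at hx
    have h1 : π x = 0 := by
      have h2 : π (ι (π x) + ((A ^ b) x - x)) = 0 := by
        rw [hx, map_zero]
      rw [map_add, map_sub, h.pi, h.piA, h.one, one_mul, sub_self, add_zero] at h2
      exact h2
    rw [h1, map_zero, zero_add, sub_eq_zero] at hx
    exact h.inj x h1 hx
  refine ⟨(LinearEquiv.ofInjectiveEndo f hinj).toContinuousLinearEquiv, fun x => ?_⟩
  exact hf x

/-- `L (ι w) = ι w`: `A^b (ι w) = ι (lam^b w) = ι w`. -/
theorem L_iota (h : RD A lam b ι π) {L : E ≃L[ℝ] E} (hL : ∀ x, L x = ι (π x) + ((A ^ b) x - x))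
    (w : ℂ) : L (ι w) = ι w := by
  rw [hL, h.pi, h.Apow, h.one, one_mul, sub_self, add_zero]

end JT

end FB
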