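import Pool.Agent.H.MP_fb873c_an.J9

/-!
# Part J10: the parameter
-/

namespace FB

namespace JT

open scoped Topology ContDiff
open Filter KT

variable {E : Type} [NormedAddCommGroup E] [NormedSpace ℝ E] {A : E →L[ℝ] E} {lam : ℂ} {b : ℕ}
  {ι : ℂ →L[ℝ] E} {π : E →L[ℝ] ℂ} {F : E → E} {q : ℂ × ℂ → E}

/-- Existence of a zero in a small closed ball by the contraction principle. -/
theorem J10_zero {K : ℂ → ℂ} {B c : ℂ} (hB : B ≠ 0) {η ρ : ℝ} (hρ : 0 < ρ)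
    (hη1 : η ≤ ‖B‖ / 2) (hη2 : η * ‖-c / B‖ ≤ ‖B‖ * ρ / 4)
    (hK : ∀ m m' : ℂ, ‖m‖ ≤ ‖-c / B‖ + ρ → ‖m'‖ ≤ ‖-c / B‖ + ρ →
      ‖K m - K m' - B * (m - m')‖ ≤ η * ‖m - m'‖)
    (h0 : ‖K 0 - c‖ ≤ ‖B‖ * ρ / 4) :
    ∃ m : ℂ, ‖m - (-c / B)‖ ≤ ρ ∧ K m = 0 := by
  have hBn : 0 < ‖B‖ := norm_pos_iff.mpr hB
  set m0 : ℂ := -c / B with hm0
  set T : ℂ → ℂ := fun m => m - K m / B with hT
  set s : Set ℂ := Metric.closedBall m0 ρ with hs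
  have hball : ∀ m ∈ s, ‖m‖ ≤ ‖m0‖ + ρ := by
    intro m hm
    have h1 : ‖m - m0‖ ≤ ρ := by simpa [hs, dist_eq_norm] using hm
    have h2 : m = m0 + (m - m0) := by ring
    calc ‖m‖ = ‖m0 + (m - m0)‖ := by rw [← h2]
      _ ≤ ‖m0‖ + ‖m - m0‖ := norm_add_le _ _
      _ ≤ ‖m0‖ + ρ := by linarith
  have hm0s : m0 ∈ s := by simp [hs, hρ.le]
  have hlip : ∀ m ∈ s, ∀ m' ∈ s, ‖T m - T m'‖ ≤ (1 / 2) * ‖m - m'‖ := by
    intro m hm m' hm'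
    have h1 := hK m m' (hball m hm) (hball m' hm')
    have h2 : T m - T m' = -((K m - K m' - B * (m - m')) / B) := by
      simp only [hT]
      field_simp
      ring
    rw [h2, norm_neg, norm_div, div_le_iff₀ hBn]
    calc ‖K m - K m' - B * (m - m')‖ ≤ η * ‖m - m'‖ := h1
      _ ≤ (‖B‖ / 2) * ‖m - m'‖ := mul_le_mul_of_nonneg_right hη1 (norm_nonneg _)
      _ = 1 / 2 * ‖m - m'‖ * ‖B‖ := by ring
  have hTm0 : ‖T m0 - m0‖ ≤ ρ / 2 := by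
    have h1 := hK m0 0 (hball m0 hm0s) (by simpa using add_nonneg (norm_nonneg m0) hρ.le)
    have h2 : T m0 - m0 = -(K m0 / B) := by simp only [hT]; ring
    rw [h2, norm_neg, norm_div, div_le_iff₀ hBn]
    have h3 : K m0 = (K m0 - K 0 - B * (m0 - 0)) + (K 0 - c) := by
      have : B * m0 = -c := by rw [hm0]; field_simp
      rw [sub_zero, this]
      ring
    calc ‖K m0‖ = ‖(K m0 - K 0 - B * (m0 - 0)) + (K 0 - c)‖ := by rw [← h3]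
      _ ≤ ‖K m0 - K 0 - B * (m0 - 0)‖ + ‖K 0 - c‖ := norm_add_le _ _
      _ ≤ η * ‖m0 - 0‖ + ‖B‖ * ρ / 4 := add_le_add h1 h0
      _ = η * ‖m0‖ + ‖B‖ * ρ / 4 := by rw [sub_zero]
      _ ≤ ‖B‖ * ρ / 4 + ‖B‖ * ρ / 4 := by linarith
      _ = ρ / 2 * ‖B‖ := by ring
  have hmaps : Set.MapsTo T s s := by
    intro m hm
    have h1 := hlip m hm m0 hm0s
    have h4 : ‖m - m0‖ ≤ ρ := by simpa [hs, dist_eq_norm] using hm
    have h2 : ‖T m - m0‖ ≤ ρ := by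
      calc ‖T m - m0‖ = ‖(T m - T m0) + (T m0 - m0)‖ := by ring_nf
        _ ≤ ‖T m - T m0‖ + ‖T m0 - m0‖ := norm_add_le _ _
        _ ≤ 1 / 2 * ‖m - m0‖ + ρ / 2 := add_le_add h1 hTm0
        _ ≤ ρ := by linarith
    simpa [hs, dist_eq_norm] using h2
  have hcontr : ContractingWith (1 / 2 : NNReal) (hmaps.restrict T s s) := by
    refine ⟨by norm_num, ?_⟩
    refine LipschitzWith.of_dist_le_mul ?_
    rintro ⟨m, hm⟩ ⟨m', hm'⟩
    have h1 := hlip m hm m' hm'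
    simpa [Subtype.dist_eq, dist_eq_norm] using h1
  obtain ⟨y, hys, hy, -⟩ := ContractingWith.exists_fixedPoint'
    (Metric.isClosed_closedBall.isComplete) hmaps hcontr hm0s (edist_ne_top _ _)
  refine ⟨y, by simpa [hs, dist_eq_norm] using hys, ?_⟩
  have h1 : y - K y / B = y := hy
  have h2 : K y / B = 0 := by
    have := sub_eq_self.mp h1
    exact this
  rcases div_eq_zero_iff.mp h2 with h3 | h3
  · exact h3
  · exact absurd h3 hB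

/-- The abstract statement: a family of maps, close to `m ↦ c + B m`. -/
theorem J10_family {K : ℝ → ℂ → ℂ} {B c : ℂ} (hB : B ≠ 0)
    (hK : ∀ M : ℝ, ∀ η : ℝ, 0 < η → ∀ᶠ r : ℝ in 𝓝[>] 0, ∀ m m' : ℂ, ‖m‖ ≤ M → ‖m'‖ ≤ M →
      ‖K r m - K r m' - B * (m - m')‖ ≤ η * ‖m - m'‖)
    (h0 : Tendsto (fun r => K r 0) (𝓝[>] 0) (𝓝 c)) :
    ∃ m : ℝ → ℂ, Tendsto m (𝓝[>] 0) (𝓝 (-c / B)) ∧ ∀ᶠ r : ℝ in 𝓝[>] 0, K r (m r) = 0 := by
  classical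
  have hBn : 0 < ‖B‖ := norm_pos_iff.mpr hB
  set m0 : ℂ := -c / B with hm0
  -- existence in the ball of radius `ρ`
  have hex : ∀ ρ : ℝ, 0 < ρ → ∀ᶠ r : ℝ in 𝓝[>] 0, ∃ m : ℂ, ‖m - m0‖ ≤ ρ ∧ K r m = 0 := by
    intro ρ hρ
    set η : ℝ := min (‖B‖ / 2) (‖B‖ * ρ / (4 * (‖m0‖ + 1))) with hη
    have hm0n : 0 ≤ ‖m0‖ := norm_nonneg _
    have hηpos : 0 < η := by
      rw [hη]
      refine lt_min (by positivity) (by positivity)
    have hη1 : η ≤ ‖B‖ / 2 := min_le_left _ _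
    have hη2 : η * ‖m0‖ ≤ ‖B‖ * ρ / 4 := by
      have h1 : η ≤ ‖B‖ * ρ / (4 * (‖m0‖ + 1)) := min_le_right _ _
      calc η * ‖m0‖ ≤ η * (‖m0‖ + 1) := by nlinarith
        _ ≤ ‖B‖ * ρ / (4 * (‖m0‖ + 1)) * (‖m0‖ + 1) :=
            mul_le_mul_of_nonneg_right h1 (by linarith)
        _ = ‖B‖ * ρ / 4 := by field_simp
    have h1 := hK (‖m0‖ + ρ) η hηpos
    have h2 : ∀ᶠ r : ℝ in 𝓝[>] 0, ‖K r 0 - c‖ ≤ ‖B‖ * ρ / 4 := by
      have h3 : (0 : ℝ) < ‖B‖ * ρ / 4 := by positivity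
      have h4 := (Metric.tendsto_nhds.mp h0) _ h3
      filter_upwards [h4] with r hr
      rw [dist_eq_norm] at hr
      exact hr.le
    filter_upwards [h1, h2] with r hr1 hr2
    exact J10_zero hB hρ hη1 hη2 hr1 hr2
  -- uniqueness in the ball of radius one
  have huniq : ∀ᶠ r : ℝ in 𝓝[>] 0, ∀ m m' : ℂ, ‖m - m0‖ ≤ 1 → ‖m' - m0‖ ≤ 1 →
      K r m = 0 → K r m' = 0 → m = m' := by
    have h1 := hK (‖m0‖ + 1) (‖B‖ / 2) (by positivity)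
    filter_upwards [h1] with r hr m m' hm hm' h2 h3
    have hb : ∀ z : ℂ, ‖z - m0‖ ≤ 1 → ‖z‖ ≤ ‖m0‖ + 1 := by
      intro z hz
      calc ‖z‖ = ‖m0 + (z - m0)‖ := by ring_nf
        _ ≤ ‖m0‖ + ‖z - m0‖ := norm_add_le _ _
        _ ≤ ‖m0‖ + 1 := by linarith
    have h4 := hr m m' (hb m hm) (hb m' hm')
    rw [h2, h3, sub_zero, zero_sub, norm_neg, norm_mul] at h4
    by_contra hne
    have h5 : 0 < ‖m - m'‖ := norm_pos_iff.mpr (sub_ne_zero.mpr hne)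
    nlinarith [mul_pos hBn h5]
  refine ⟨fun r => if hr : ∃ m : ℂ, ‖m - m0‖ ≤ 1 ∧ K r m = 0 then hr.choose else m0, ?_, ?_⟩
  · rw [Metric.tendsto_nhds]
    intro ε hε
    have hρ : 0 < min (ε / 2) 1 := lt_min (by linarith) one_pos
    filter_upwards [hex _ hρ, huniq] with r hr hu
    obtain ⟨m, hm1, hm2⟩ := hr
    have hm1' : ‖m - m0‖ ≤ 1 := hm1.trans (min_le_right _ _)
    have hr' : ∃ m : ℂ, ‖m - m0‖ ≤ 1 ∧ K r m = 0 := ⟨m, hm1', hm2⟩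
    rw [dif_pos hr']
    have h1 := hu _ _ hr'.choose_spec.1 hm1' hr'.choose_spec.2 hm2
    rw [h1, dist_eq_norm]
    have h2 : ‖m - m0‖ ≤ ε / 2 := hm1.trans (min_le_left _ _)
    linarith
  · filter_upwards [hex 1 one_pos] with r hr
    rw [dif_pos hr]
    exact hr.choose_spec.2

/-- For small `r > 0` let `K r m = RR (r^2 m, r) / r^3`.  `RR_strict` (divide by `r^3`): for every `η > 0`, for all small `r > 0` and all `m, m'` with `‖m‖, ‖m'‖ ≤ M`: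
`‖K r m - K r m' - b (m - m')‖ ≤ η ‖m - m'‖` (`M = ‖c‖ / b + 2`); and `K r 0 → c` by `hc`.  Put `m0 = - c / b`, `T m = m - K r m / b`: `‖T m - T m'‖ ≤ (η / b) ‖m - m'‖` and
`‖T m0 - m0‖ = ‖K r m0‖ / b ≤ (‖K r 0 - c‖ + η ‖m0‖) / b`.  For `η` small, `T` is a contraction of the closed ball around `m0` of radius `1` (a complete space), with a fixed point `m r`:
`K r (m r) = 0`, and `‖m r - m0‖ ≤ 2 (‖K r 0 - c‖ + η ‖m0‖) / b`, for every `η > 0` and `r` small enough; uniqueness of the fixed point in the ball is clear (contraction), so one function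
`m` works for all `η`. -/
theorem exists_mu (hF : Loc F A) (h : RD A lam b ι π) (hq : LS F ι π b q) {c : ℂ}
    (hc : Tendsto (fun r : ℝ => RR F ι π b q (0, (r : ℂ)) / (r : ℂ) ^ 3) (𝓝[>] 0) (𝓝 c)) :
    ∃ m : ℝ → ℂ, Tendsto m (𝓝[>] 0) (𝓝 (-c / b)) ∧
      ∀ᶠ r : ℝ in 𝓝[>] 0, RR F ι π b q ((r : ℂ) ^ 2 * m r, (r : ℂ)) = 0 := by
  have hb : (b : ℂ) ≠ 0 := by
    have := h.b5
    exact_mod_cast (by omega : b ≠ 0)
  have hK : ∀ M : ℝ, ∀ η : ℝ, 0 < η → ∀ᶠ r : ℝ in 𝓝[>] 0, ∀ m m' : ℂ, ‖m‖ ≤ M → ‖m'‖ ≤ M →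
      ‖RR F ι π b q ((r : ℂ) ^ 2 * m, (r : ℂ)) / (r : ℂ) ^ 3 -
        RR F ι π b q ((r : ℂ) ^ 2 * m', (r : ℂ)) / (r : ℂ) ^ 3 - (b : ℂ) * (m - m')‖ ≤
        η * ‖m - m'‖ := by
    intro M η hη
    obtain ⟨δ, hδ, hδ2⟩ := Metric.eventually_nhds_iff.mp (RR_strict hF h hq hη)
    have hMpos : 0 < |M| + 1 := by positivity
    have h1 : ∀ᶠ r : ℝ in 𝓝[>] 0, r < δ := by
      have : ∀ᶠ r : ℝ in 𝓝 (0 : ℝ), r < δ := eventually_lt_nhds hδ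
      exact this.filter_mono nhdsWithin_le_nhds
    have h2 : ∀ᶠ r : ℝ in 𝓝[>] 0, r ^ 2 * (|M| + 1) < δ := by
      have hcont : Continuous (fun r : ℝ => r ^ 2 * (|M| + 1)) := by fun_prop
      have h3 : ∀ᶠ r : ℝ in 𝓝 (0 : ℝ), r ^ 2 * (|M| + 1) < δ := by
        have h4 : Tendsto (fun r : ℝ => r ^ 2 * (|M| + 1)) (𝓝 0) (𝓝 0) := by
          have := hcont.tendsto 0
          simpa using this
        exact h4.eventually (eventually_lt_nhds hδ)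
      exact h3.filter_mono nhdsWithin_le_nhds
    have h3 : ∀ᶠ r : ℝ in 𝓝[>] 0, 0 < r := eventually_mem_nhdsWithin
    filter_upwards [h1, h2, h3] with r hr1 hr2 hr3 m m' hm hm'
    have hM : ∀ z : ℂ, ‖z‖ ≤ M → ‖(r : ℂ) ^ 2 * z‖ < δ := by
      intro z hz
      rw [norm_mul, norm_pow, Complex.norm_real, Real.norm_of_nonneg hr3.le]
      calc r ^ 2 * ‖z‖ ≤ r ^ 2 * (|M| + 1) := by
            refine mul_le_mul_of_nonneg_left ?_ (by positivity)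
            linarith [le_abs_self M]
        _ < δ := hr2
    have hrn : ‖(r : ℂ)‖ < δ := by
      rw [Complex.norm_real, Real.norm_of_nonneg hr3.le]
      exact hr1
    have h5 := @hδ2 (((r : ℂ) ^ 2 * m, (r : ℂ) ^ 2 * m'), (r : ℂ)) (by
      rw [dist_zero_right, Prod.norm_def, Prod.norm_def]
      exact max_lt (max_lt (hM m hm) (hM m' hm')) hrn)
    simp only at h5
    have hr0 : (r : ℂ) ≠ 0 := by exact_mod_cast hr3.ne'
    have h6 : RR F ι π b q ((r : ℂ) ^ 2 * m, (r : ℂ)) / (r : ℂ) ^ 3 -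
        RR F ι π b q ((r : ℂ) ^ 2 * m', (r : ℂ)) / (r : ℂ) ^ 3 - (b : ℂ) * (m - m') =
        (RR F ι π b q ((r : ℂ) ^ 2 * m, (r : ℂ)) - RR F ι π b q ((r : ℂ) ^ 2 * m', (r : ℂ)) -
          b * ((r : ℂ) ^ 2 * m - (r : ℂ) ^ 2 * m') * (r : ℂ)) / (r : ℂ) ^ 3 := by
      field_simp
    rw [h6, norm_div, norm_pow, Complex.norm_real, Real.norm_of_nonneg hr3.le,
      div_le_iff₀ (by positivity)]
    refine h5.trans (le_of_eq ?_)
    rw [← mul_sub, norm_mul, norm_pow, Complex.norm_real, Real.norm_of_nonneg hr3.le]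
    ring
  have h0 : Tendsto (fun r : ℝ => RR F ι π b q ((r : ℂ) ^ 2 * 0, (r : ℂ)) / (r : ℂ) ^ 3)
      (𝓝[>] 0) (𝓝 c) := by
    simpa using hc
  obtain ⟨m, hm1, hm2⟩ := J10_family (K := fun r m => RR F ι π b q ((r : ℂ) ^ 2 * m, (r : ℂ)) /
    (r : ℂ) ^ 3) hb hK h0
  refine ⟨m, hm1, ?_⟩
  filter_upwards [hm2, (eventually_mem_nhdsWithin : ∀ᶠ r : ℝ in 𝓝[>] 0, r ∈ Set.Ioi 0)] with r hr hr3
  have hr0 : (r : ℂ) ≠ 0 := by
    have : (0 : ℝ) < r := hr3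
    exact_mod_cast this.ne'
  rcases div_eq_zero_iff.mp hr with h7 | h7
  · exact h7
  · exact absurd h7 (pow_ne_zero 3 hr0)

end JT

end FB
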