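import Pool.Agent.H.MP_fb873c_an.J4b

/-!
# Part J11: the limit of the reduced derivative
-/

namespace FB

namespace JT

open scoped Topology ContDiff
open Filter KT

variable {E : Type} [NormedAddCommGroup E] [NormedSpace ℝ E] {A : E →L[ℝ] E} {lam : ℂ} {b : ℕ}
  {ι : ℂ →L[ℝ] E} {π : E →L[ℝ] ℂ} {F : E → E} {q : ℂ × ℂ → E}

/-- `QQ_strict` with `μ = r^2 m r`, `μ' = 0`, `w = r` (all tend to `0`): for every `η > 0`, eventually `‖QQ (r^2 m r, r) - QQ (0, r) - mulc (b r^2 m r)‖ ≤ η r^2 ‖m r‖`.  Divide by `r^2`: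
`(1/r^2) QQ (r^2 m r, r) = (1/r^2) QQ (0, r) + mulc (b m r) + o(1) → Tc c + mulc (-c) = Rc c`. -/
theorem QQ_limit (hF : Loc F A) (h : RD A lam b ι π) (hq : LS F ι π b q) {c : ℂ}
    (hQ : Tendsto (fun r : ℝ => (1 / r ^ 2 : ℝ) • QQ F ι π b q (0, (r : ℂ))) (𝓝[>] 0)
      (𝓝 (Tc c))) {m : ℝ → ℂ} (hm : Tendsto m (𝓝[>] 0) (𝓝 (-c / b))) :
    Tendsto (fun r : ℝ => (1 / r ^ 2 : ℝ) • QQ F ι π b q ((r : ℂ) ^ 2 * m r, (r : ℂ))) (𝓝[>] 0)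
      (𝓝 (Rc c)) := by
  have hb : (b : ℂ) ≠ 0 := by
    have h5 := h.b5
    exact_mod_cast (show b ≠ 0 by omega)
  have hr0 : Tendsto (fun r : ℝ => (r : ℂ)) (𝓝[>] 0) (𝓝 0) := by
    have h1 : Tendsto (fun r : ℝ => (r : ℂ)) (𝓝 0) (𝓝 ((0 : ℝ) : ℂ)) :=
      (Complex.continuous_ofReal).tendsto 0
    rw [Complex.ofReal_zero] at h1
    exact h1.mono_left nhdsWithin_le_nhds
  have hmu : Tendsto (fun r : ℝ => (r : ℂ) ^ 2 * m r) (𝓝[>] 0) (𝓝 0) := by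
    have h1 := (hr0.pow 2).mul hm
    simpa using h1
  have hp : Tendsto (fun r : ℝ => ((((r : ℂ) ^ 2 * m r, (0 : ℂ)), (r : ℂ)) : (ℂ × ℂ) × ℂ)) (𝓝[>] 0)
      (𝓝 0) := by
    have h1 := (hmu.prodMk_nhds (tendsto_const_nhds (x := (0 : ℂ)))).prodMk_nhds hr0
    exact h1
  -- the error term
  have herr : Tendsto (fun r : ℝ => (1 / r ^ 2 : ℝ) • QQ F ι π b q ((r : ℂ) ^ 2 * m r, (r : ℂ)) -
      (1 / r ^ 2 : ℝ) • QQ F ι π b q (0, (r : ℂ)) - mulc (b * m r)) (𝓝[>] 0) (𝓝 0) := by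
    rw [Metric.tendsto_nhds]
    intro ε hε
    obtain ⟨M, hM0, hM⟩ : ∃ M : ℝ, 0 < M ∧ ∀ᶠ r in 𝓝[>] (0 : ℝ), ‖m r‖ < M := by
      refine ⟨‖-c / b‖ + 1, by positivity, ?_⟩
      exact hm.norm.eventually_lt_const (lt_add_one _)
    have hη : 0 < ε / (2 * M) := by positivity
    filter_upwards [hp.eventually (QQ_strict hF h hq hη), hM, self_mem_nhdsWithin] with r h1 h2 h3
    have h3' : (0 : ℝ) < r := h3
    have hr2 : (r : ℝ) ^ 2 ≠ 0 := by positivity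
    rw [dist_zero_right]
    have h4 : (1 / r ^ 2 : ℝ) • QQ F ι π b q ((r : ℂ) ^ 2 * m r, (r : ℂ)) -
        (1 / r ^ 2 : ℝ) • QQ F ι π b q (0, (r : ℂ)) - mulc (b * m r) =
        (1 / r ^ 2 : ℝ) • (QQ F ι π b q ((r : ℂ) ^ 2 * m r, (r : ℂ)) - QQ F ι π b q (0, (r : ℂ)) -
          mulc (b * ((r : ℂ) ^ 2 * m r - 0))) := by
      have h5 : mulc (b * m r) = (1 / r ^ 2 : ℝ) • mulc (b * ((r : ℂ) ^ 2 * m r - 0)) := by
        ext v
        · rw [ContinuousLinearMap.smul_apply, mulc_apply, mulc_apply, Complex.real_smul]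
          have hrc : (r : ℂ) ≠ 0 := by exact_mod_cast h3'.ne'
          push_cast
          field_simp
          ring
      rw [smul_sub, smul_sub, h5]
    rw [h4, norm_smul]
    have h6 : ‖(r : ℂ) ^ 2 * m r - 0‖ = r ^ 2 * ‖m r‖ := by
      rw [sub_zero, norm_mul, norm_pow, Complex.norm_real, Real.norm_eq_abs, sq_abs]
    have h7 : ‖(1 / r ^ 2 : ℝ)‖ = 1 / r ^ 2 := by
      rw [Real.norm_eq_abs, abs_of_pos (by positivity)]
    have h1' : ‖QQ F ι π b q ((r : ℂ) ^ 2 * m r, (r : ℂ)) - QQ F ι π b q (0, (r : ℂ)) -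
          mulc (b * ((r : ℂ) ^ 2 * m r - 0))‖ ≤ ε / (2 * M) * ‖(r : ℂ) ^ 2 * m r - 0‖ := h1
    rw [h6] at h1'
    rw [h7]
    calc 1 / r ^ 2 * ‖QQ F ι π b q ((r : ℂ) ^ 2 * m r, (r : ℂ)) - QQ F ι π b q (0, (r : ℂ)) -
          mulc (b * ((r : ℂ) ^ 2 * m r - 0))‖ ≤ 1 / r ^ 2 * (ε / (2 * M) * (r ^ 2 * ‖m r‖)) := by
          gcongr
      _ = ε / (2 * M) * ‖m r‖ := by field_simp
      _ ≤ ε / (2 * M) * M := by gcongr
      _ = ε / 2 := by field_simp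
      _ < ε := by linarith
  have hmul : Tendsto (fun r : ℝ => mulc (b * m r)) (𝓝[>] 0) (𝓝 (mulc (-c))) := by
    have h1 : Tendsto (fun r : ℝ => (b : ℂ) * m r) (𝓝[>] 0) (𝓝 (b * (-c / b))) := hm.const_mul _
    rw [mul_div_cancel₀ _ hb] at h1
    exact ((ContinuousLinearMap.mul ℝ ℂ).continuous.tendsto _).comp h1
  have hsum := (herr.add hmul).add hQ
  have hfin : (0 : ℂ →L[ℝ] ℂ) + mulc (-c) + Tc c = Rc c := by
    ext v
    · rw [zero_add, ContinuousLinearMap.add_apply, mulc_apply, Tc_apply, Rc_apply]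
      ring
  rw [hfin] at hsum
  refine hsum.congr fun r => ?_
  abel

end JT

end FB
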