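import Pool.Agent.H.MP_fb873c_an.K0

/-!
# Part K13a: simple real eigenvalues (simpleReal_nhds)
-/


namespace FB

namespace KT

open scoped Topology
open Filter Polynomial

section

/-- persistence of simple roots, in the form used below -/
theorem K13a2_root {Y : Type*} [TopologicalSpace Y] (P : Y → ℝ[X])
    (h0 : ∀ x, Continuous fun B => (P B).eval x)
    (h1 : Continuous fun z : Y × ℝ => (derivative (P z.1)).eval z.2) {A : Y} {μ : ℝ}
    (hμ : (P A).eval μ = 0) (hd : (derivative (P A)).eval μ ≠ 0) :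
    ∀ᶠ B in 𝓝 A, ∃ x, (P B).eval x = 0 ∧ (derivative (P B)).eval x ≠ 0 := by
  set c := (derivative (P A)).eval μ with hc
  have h2 : ∀ᶠ z in 𝓝 (A, μ), (derivative (P z.1)).eval z.2 ≠ 0 :=
    h1.continuousAt.eventually_ne hd
  rw [nhds_prod_eq] at h2
  obtain ⟨U, hU, V, hV, hUV⟩ := Filter.eventually_prod_iff.1 h2
  have h3 : HasDerivAt (fun x => (P A).eval x) c μ := (P A).hasDerivAt μ
  have h4 : ∀ᶠ x in 𝓝[≠] μ, 0 < slope (fun x => (P A).eval x) μ x * c := by
    have h5 := (h3.tendsto_slope.mul_const c).eventually_const_lt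
      (show (0 : ℝ) < c * c from mul_self_pos.2 hd)
    exact h5
  obtain ⟨ε, hε, hball⟩ := Metric.eventually_nhds_iff.1
    (hV.and (eventually_nhdsWithin_iff.1 h4))
  have hsl : ∀ x, x ≠ μ → |x - μ| < ε → 0 < (x - μ)⁻¹ * (P A).eval x * c := by
    intro x hx hx'
    have h6 := (hball (y := x) (by rw [Real.dist_eq]; exact hx')).2 hx
    rw [slope_def_field, hμ, sub_zero, div_eq_inv_mul] at h6
    exact h6
  have hx1 : (P A).eval (μ - ε / 2) * c < 0 := by
    have h8 : μ - ε / 2 - μ = -(ε / 2) := by ring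
    have h6 := hsl (μ - ε / 2) (by linarith) (by
      rw [h8, abs_neg, abs_of_pos (by linarith)]
      linarith)
    rw [h8, mul_assoc] at h6
    have h7 : (-(ε / 2))⁻¹ < 0 := inv_lt_zero.2 (by linarith)
    by_contra h9
    have h10 := mul_nonpos_of_nonpos_of_nonneg h7.le (not_lt.1 h9)
    linarith
  have hx2 : 0 < (P A).eval (μ + ε / 2) * c := by
    have h8 : μ + ε / 2 - μ = ε / 2 := by ring
    have h6 := hsl (μ + ε / 2) (by linarith) (by
      rw [h8, abs_of_pos (by linarith)]
      linarith)
    rw [h8, mul_assoc] at h6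
    exact pos_of_mul_pos_right h6 (inv_nonneg.2 (by linarith))
  have e1 : ∀ᶠ B in 𝓝 A, (P B).eval (μ - ε / 2) * c < 0 :=
    ((h0 _).mul continuous_const).continuousAt.eventually_lt_const hx1
  have e2 : ∀ᶠ B in 𝓝 A, 0 < (P B).eval (μ + ε / 2) * c :=
    ((h0 _).mul continuous_const).continuousAt.eventually_const_lt hx2
  filter_upwards [hU, e1, e2] with B hB h6 h7
  have h8 : ContinuousOn (fun x => (P B).eval x * c) (Set.Icc (μ - ε / 2) (μ + ε / 2)) :=
    ((P B).continuous.mul continuous_const).continuousOn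
  obtain ⟨x, hx, hx0⟩ := intermediate_value_Icc (by linarith) h8 ⟨h6.le, h7.le⟩
  have hx' : |x - μ| < ε := by
    rw [abs_lt]
    constructor <;> linarith [hx.1, hx.2]
  refine ⟨x, (mul_eq_zero.1 hx0).resolve_right hd, ?_⟩
  exact hUV hB (hball (y := x) (by rw [Real.dist_eq]; exact hx')).1

variable {n : ℕ}

theorem K13a2_coeff (i : ℕ) :
    Continuous fun B : Er n →L[ℝ] Er n => (LinearMap.charpoly B.toLinearMap).coeff i := by
  let b := (EuclideanSpace.basisFun (Fin n) ℝ).toBasis
  have h1 : ∀ B : Er n →L[ℝ] Er n, (LinearMap.charpoly B.toLinearMap).coeff i =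
      MvPolynomial.eval (fun z : Fin n × Fin n => LinearMap.toMatrix b b B.toLinearMap z.1 z.2)
        ((Matrix.charpoly.univ ℝ (Fin n)).coeff i) := by
    intro B
    have h2 := Matrix.charpoly.univ_coeff_eval₂Hom (n := Fin n) (RingHom.id ℝ)
      (fun z : Fin n × Fin n => LinearMap.toMatrix b b B.toLinearMap z.1 z.2) i
    have h3 : Matrix.of (Function.curry
        (fun z : Fin n × Fin n => LinearMap.toMatrix b b B.toLinearMap z.1 z.2)) =
        LinearMap.toMatrix b b B.toLinearMap := rfl
    rw [h3, LinearMap.charpoly_toMatrix] at h2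
    exact h2.symm
  simp_rw [h1]
  refine (MvPolynomial.continuous_eval _).comp (continuous_pi fun z => ?_)
  have h4 : (fun B : Er n →L[ℝ] Er n => LinearMap.toMatrix b b B.toLinearMap z.1 z.2) =
      fun B => (B (b z.2)) z.1 := by
    funext B
    rw [LinearMap.toMatrix_apply]
    rfl
  rw [h4]
  fun_prop

theorem K13a2_eval : Continuous fun z : (Er n →L[ℝ] Er n) × ℝ =>
    (LinearMap.charpoly z.1.toLinearMap).eval z.2 := by
  have h1 : ∀ z : (Er n →L[ℝ] Er n) × ℝ, (LinearMap.charpoly z.1.toLinearMap).eval z.2 =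
      ∑ i ∈ Finset.range (n + 1), (LinearMap.charpoly z.1.toLinearMap).coeff i * z.2 ^ i := by
    intro z
    refine eval_eq_sum_range' ?_ _
    rw [LinearMap.charpoly_natDegree, finrank_euclideanSpace_fin]
    omega
  simp_rw [h1]
  refine continuous_finsetSum _ fun i _ => ?_
  exact ((K13a2_coeff i).comp continuous_fst).mul (continuous_snd.pow i)

theorem K13a2_deriv : Continuous fun z : (Er n →L[ℝ] Er n) × ℝ =>
    (derivative (LinearMap.charpoly z.1.toLinearMap)).eval z.2 := by
  have h1 : ∀ z : (Er n →L[ℝ] Er n) × ℝ,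
      (derivative (LinearMap.charpoly z.1.toLinearMap)).eval z.2 =
      ∑ i ∈ Finset.range (n + 1),
        ((LinearMap.charpoly z.1.toLinearMap).coeff (i + 1) * (i + 1)) * z.2 ^ i := by
    intro z
    rw [eval_eq_sum_range' (n := n + 1)]
    · simp_rw [coeff_derivative]
    · refine (natDegree_derivative_le _).trans_lt ?_
      rw [LinearMap.charpoly_natDegree, finrank_euclideanSpace_fin]
      omega
  simp_rw [h1]
  refine continuous_finsetSum _ fun i _ => ?_
  exact (((K13a2_coeff (i + 1)).comp continuous_fst).mul continuous_const).mul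
    (continuous_snd.pow i)

/-- The simple real root persists: say `P = charpoly A`, `P(μ) = 0`, `P'(μ) > 0` (otherwise consider `-P`).  Choose `δ > 0` with `P' > 0` on `[μ - δ, μ + δ]`; then
`P(μ - δ) < 0 < P(μ + δ)`.  `(B, x) ↦ charpoly B (x)` and `(B, x) ↦ (charpoly B)' (x)` are continuous (the coefficients of the characteristic polynomial depend continuously on `B`; the
degree is `n`; for instance `charpoly B (x) = det (x - B)`, and the derivative: by Lagrange interpolation at `n + 1` points, or the coefficients as polynomials in the matrix entries,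
`Matrix.charpoly`, `Matrix.charpoly.univ`).  For `B` near `A`: `P_B(μ - δ) < 0 < P_B(μ + δ)` and `P_B' > 0` on the compact interval; intermediate value theorem. -/
theorem simpleReal_nhds {A : Er n →L[ℝ] Er n} (h : SimpleReal A) : ∀ᶠ B in 𝓝 A, SimpleReal B := by
  obtain ⟨μ, h0, h1⟩ := h
  exact K13a2_root (fun B : Er n →L[ℝ] Er n => LinearMap.charpoly B.toLinearMap)
    (fun x => K13a2_eval.comp (Continuous.prodMk_left x)) K13a2_deriv h0 h1

end

end KT

end FB
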