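import Pool.Agent.H.MP_fb873c_an.J12a1
import Pool.Agent.H.MP_fb873c_an.K13a2

/-!
# Part J12a: simple real roots of pencils persist
-/

namespace FB

namespace JT

open scoped Topology ContDiff
open Filter KT

variable {n : ℕ}

/-- coefficients of products of polynomials with continuous coefficients -/
theorem J12a_mul {Z : Type*} [TopologicalSpace Z] {P Q : Z → Polynomial ℝ}
    (hP : ∀ i, Continuous fun z => (P z).coeff i) (hQ : ∀ i, Continuous fun z => (Q z).coeff i) (i : ℕ) :
    Continuous fun z => (P z * Q z).coeff i := by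
  simp_rw [Polynomial.coeff_mul]
  exact continuous_finsetSum _ fun j _ => (hP _).mul (hQ _)

theorem J12a_prod {Z ι' : Type*} [TopologicalSpace Z] {P : ι' → Z → Polynomial ℝ} (s : Finset ι')
    (hP : ∀ j i, Continuous fun z => (P j z).coeff i) (i : ℕ) :
    Continuous fun z => (∏ j ∈ s, P j z).coeff i := by
  classical
  induction s using Finset.induction_on generalizing i with
  | empty => simp only [Finset.prod_empty]; exact continuous_const
  | insert a s ha ih =>
    simp_rw [Finset.prod_insert ha]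
    exact J12a_mul (hP a) ih i

theorem J12a_entry (j k : Fin n) : Continuous fun B : Er n →L[ℝ] Er n =>
    LinearMap.toMatrix (EuclideanSpace.basisFun (Fin n) ℝ).toBasis
      (EuclideanSpace.basisFun (Fin n) ℝ).toBasis B.toLinearMap j k := by
  let b := (EuclideanSpace.basisFun (Fin n) ℝ).toBasis
  have h4 : (fun B : Er n →L[ℝ] Er n => LinearMap.toMatrix b b B.toLinearMap j k) =
      fun B => (B (b k)) j := by
    funext B
    rw [LinearMap.toMatrix_apply]
    rfl
  change Continuous (fun B : Er n →L[ℝ] Er n => LinearMap.toMatrix b b B.toLinearMap j k)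
  rw [h4]
  fun_prop

theorem J12a_coeff (i : ℕ) : Continuous fun z : (Er n →L[ℝ] Er n) × (Er n →L[ℝ] Er n) =>
    (PD z.1 z.2).coeff i := by
  unfold PD
  simp_rw [Matrix.det_apply, Polynomial.finsetSum_coeff]
  refine continuous_finsetSum _ fun σ _ => ?_
  have h1 : ∀ (P : Polynomial ℝ), (Equiv.Perm.sign σ • P).coeff i =
      ((Equiv.Perm.sign σ : ℤ) : ℝ) * P.coeff i := by
    intro P
    rw [Units.smul_def, Polynomial.coeff_smul, zsmul_eq_mul]
  simp_rw [h1]
  refine continuous_const.mul (J12a_prod _ (fun j m => ?_) i)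
  simp only [Matrix.sub_apply, Matrix.smul_apply, Matrix.map_apply, smul_eq_mul, Polynomial.coeff_sub]
  refine Continuous.sub ?_ ?_
  · rcases Nat.eq_zero_or_pos m with rfl | hm
    · simp only [Polynomial.coeff_C_zero]
      exact (J12a_entry _ _).comp continuous_fst
    · simp only [Polynomial.coeff_C_ne_zero hm.ne']
      exact continuous_const
  · rcases m with _ | m
    · simp only [Polynomial.coeff_X_mul_zero]
      exact continuous_const
    · simp only [Polynomial.coeff_X_mul]
      rcases Nat.eq_zero_or_pos m with rfl | hm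
      · simp only [Polynomial.coeff_C_zero]
        exact (J12a_entry _ _).comp continuous_snd
      · simp only [Polynomial.coeff_C_ne_zero hm.ne']
        exact continuous_const

theorem J12a_deg (X Y : Er n →L[ℝ] Er n) : (PD X Y).natDegree ≤ n := by
  have h := Polynomial.natDegree_det_X_add_C_le
    (-(LinearMap.toMatrix (EuclideanSpace.basisFun (Fin n) ℝ).toBasis
      (EuclideanSpace.basisFun (Fin n) ℝ).toBasis Y.toLinearMap))
    (LinearMap.toMatrix (EuclideanSpace.basisFun (Fin n) ℝ).toBasis
      (EuclideanSpace.basisFun (Fin n) ℝ).toBasis X.toLinearMap)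
  rw [Fintype.card_fin] at h
  refine le_trans (le_of_eq ?_) h
  unfold PD
  congr 2
  ext1 j k
  simp only [Matrix.sub_apply, Matrix.add_apply, Matrix.smul_apply, Matrix.map_apply, smul_eq_mul,
    Matrix.neg_apply, map_neg, mul_neg]
  ring

theorem J12a_eval (x : ℝ) : Continuous fun z : (Er n →L[ℝ] Er n) × (Er n →L[ℝ] Er n) =>
    (PD z.1 z.2).eval x := by
  have h1 : ∀ z : (Er n →L[ℝ] Er n) × (Er n →L[ℝ] Er n), (PD z.1 z.2).eval x =
      ∑ i ∈ Finset.range (n + 1), (PD z.1 z.2).coeff i * x ^ i := by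
    intro z
    exact Polynomial.eval_eq_sum_range' (Nat.lt_succ_of_le (J12a_deg z.1 z.2)) _
  simp_rw [h1]
  exact continuous_finsetSum _ fun i _ => (J12a_coeff i).mul continuous_const

theorem J12a_deriv : Continuous fun z : ((Er n →L[ℝ] Er n) × (Er n →L[ℝ] Er n)) × ℝ =>
    (Polynomial.derivative (PD z.1.1 z.1.2)).eval z.2 := by
  have h1 : ∀ z : ((Er n →L[ℝ] Er n) × (Er n →L[ℝ] Er n)) × ℝ,
      (Polynomial.derivative (PD z.1.1 z.1.2)).eval z.2 =
      ∑ i ∈ Finset.range (n + 1), ((PD z.1.1 z.1.2).coeff (i + 1) * (i + 1)) * z.2 ^ i := by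
    intro z
    rw [Polynomial.eval_eq_sum_range' (n := n + 1)]
    · simp_rw [Polynomial.coeff_derivative]
    · have h2 := Polynomial.natDegree_derivative_le (PD z.1.1 z.1.2)
      have h3 := J12a_deg z.1.1 z.1.2
      omega
  simp_rw [h1]
  refine continuous_finsetSum _ fun i _ => ?_
  exact (((J12a_coeff (i + 1)).comp continuous_fst).mul continuous_const).mul
    (continuous_snd.pow i)

/-- The simple real root persists: `K13a2_root` (file K13a2, namespace `FB.KT`) with `Y = (Er n →L[ℝ] Er n) × (Er n →L[ℝ] Er n)`, `P z = PD z.1 z.2`.  Continuity of `z ↦ (P z).eval x`: `PD_eval`,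
continuity of `det`.  Continuity of `(z, x) ↦ (derivative (P z)).eval x`: the degree of `P z` is at most `n` (`Matrix.det` of linear polynomials), the coefficients are continuous in `z` (for instance polynomials
in the entries of the matrices, `Matrix.det_apply`), the derivative is the sum of `(i+1) a_(i+1) x^i` for `i < n` (see `K13a2_coeff`, `K13a2_deriv` in file K13a2). -/
theorem PD_nhds {κ : Type*} {l : Filter κ} {X Y : κ → (Er n →L[ℝ] Er n)}
    {X0 Y0 : Er n →L[ℝ] Er n} (hX : Tendsto X l (𝓝 X0)) (hY : Tendsto Y l (𝓝 Y0)) {ξ : ℝ}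
    (h0 : (PD X0 Y0).eval ξ = 0) (h1 : (Polynomial.derivative (PD X0 Y0)).eval ξ ≠ 0) :
    ∀ᶠ i in l, ∃ ξ' : ℝ, (PD (X i) (Y i)).eval ξ' = 0 ∧
      (Polynomial.derivative (PD (X i) (Y i))).eval ξ' ≠ 0 := by
  have h := K13a2_root (fun z : (Er n →L[ℝ] Er n) × (Er n →L[ℝ] Er n) => PD z.1 z.2)
    J12a_eval J12a_deriv (A := (X0, Y0)) (μ := ξ) h0 h1
  exact (hX.prodMk_nhds hY).eventually h

end JT

end FB
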