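import Pool.Agent.H.MP_fb873c_an.L6

/-!
# PROJECT LEFSCHETZ (MP_fb873c_an), part S: definitions used in the final statement

Manifolds are modelled on a real normed space `W` (no boundary).  A form of degree `q` is a function
`X → Lam W q`, its value at `p` being taken in the preferred chart `chartAt W p`.
-/

namespace FB

open MeasureTheory
open scoped Topology ContDiff Manifold

universe u

section forms

variable {W : Type} [NormedAddCommGroup W] [NormedSpace ℝ W]
variable {X : Type u} [TopologicalSpace X] [ChartedSpace W X]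

/-- Derivative at `p` of the transition map from the chart at `x0` to the chart at `x1`. -/
noncomputable def trd (x0 x1 p : X) : W →L[ℝ] W :=
  fderiv ℝ (chartAt W x1 ∘ (chartAt W x0).symm) (chartAt W x0 p)

/-- Value at `p` of the form `η` in the chart at `x0` (for `p` in its domain). -/
noncomputable def val {q : ℕ} (x0 : X) (η : X → Lam W q) (p : X) : Lam W q :=
  (η p).compContinuousLinearMap (trd x0 p p)

/-- Coordinate representation of a form in the chart at `x0`. -/
noncomputable def rep {q : ℕ} (x0 : X) (η : X → Lam W q) (z : W) : Lam W q :=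
  val x0 η ((chartAt W x0).symm z)

/-- Smooth forms. -/
def SmoothForm {q : ℕ} (η : X → Lam W q) : Prop :=
  ∀ x0 : X, ContDiffOn ℝ ∞ (rep x0 η) (chartAt W x0).target

/-- Exterior derivative. -/
noncomputable def dform {q : ℕ} (η : X → Lam W q) (p : X) : Lam W (q + 1) :=
  extDeriv (rep p η) (chartAt W p p)

/-- Exact forms. -/
def IsExactForm : ∀ {q : ℕ}, (X → Lam W q) → Prop
  | 0, γ => ∀ x, γ x = 0
  | q + 1, γ => ∃ β : X → Lam W q, SmoothForm β ∧ ∀ x, γ x = dform β x

variable {W' : Type} [NormedAddCommGroup W'] [NormedSpace ℝ W']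
variable {Y : Type u} [TopologicalSpace Y] [ChartedSpace W' Y]

/-- Derivative of a map at `p` in the preferred charts at `p` and `F p`. -/
noncomputable def fd (F : X → Y) (p : X) : W →L[ℝ] W' :=
  fderiv ℝ (chartAt W' (F p) ∘ F ∘ (chartAt W p).symm) (chartAt W p p)

/-- Pull-back of forms. -/
noncomputable def pb {q : ℕ} (F : X → Y) (η : Y → Lam W' q) (p : X) : Lam W q :=
  (η (F p)).compContinuousLinearMap (fd (W := W) (W' := W') F p)

end forms

section edge

/-- The class (H'): the map `H^q(X,ℂ) → H^q(X,O) = H^{0,q}(X)` is onto for every `q`.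
Every smooth `q`-form `α` with `(dα)^{0,q+1} = 0` agrees up to forms without `(0,q)`-part with
a closed form plus an exact form. -/
def EdgeOnto (m : ℕ) (X : Type u) [TopologicalSpace X] [ChartedSpace (Ec m) X] : Prop :=
  ∀ (q : ℕ) (α : X → Lam (Ec m) q), SmoothForm α → (∀ x v, oq (q + 1) (dform α x) v = 0) →
    ∃ η γ : X → Lam (Ec m) q, SmoothForm η ∧ (∀ x, dform η x = 0) ∧ IsExactForm γ ∧
      ∀ x v, oq q (α x - η x - γ x) v = 0

end edge

section diffeos

/-- `ℝ^n`. -/
abbrev Er (n : ℕ) : Type := EuclideanSpace ℝ (Fin n)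

variable {n : ℕ} {M : Type u} [TopologicalSpace M] [ChartedSpace (Er n) M]

/-- `Diff^∞(M)`. -/
abbrev Dif (n : ℕ) (M : Type u) [TopologicalSpace M] [ChartedSpace (Er n) M] : Type u :=
  Diffeomorph (𝓡 n) (𝓡 n) M M ∞

/-- The set `N^k(f; (φ,U), (ψ,V), K, ε)` of all diffeomorphisms `g` with `g(K) ⊆ V` and
`‖D^j(ψ g φ⁻¹)(φ x) - D^j(ψ f φ⁻¹)(φ x)‖ < ε` for all `x ∈ K` and `j ≤ k`. -/
def cnbhd (k : ℕ) (f : Dif n M) (φ ψ : OpenPartialHomeomorph M (Er n)) (K : Set M) (ε : ℝ) :
    Set (Dif n M) :=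
  {g | (∀ x ∈ K, g x ∈ ψ.source) ∧ ∀ j ≤ k, ∀ x ∈ K,
    ‖iteratedFDeriv ℝ j (ψ ∘ g ∘ φ.symm) (φ x) - iteratedFDeriv ℝ j (ψ ∘ f ∘ φ.symm) (φ x)‖ < ε}

/-- The `C^r` topology on `Diff^∞(M)`, generated by the sets `cnbhd k f φ ψ K ε`, `k ≤ r`, `K` compact in the
domain of the chart `φ`, `f(K)` in the domain of the chart `ψ`. -/
@[instance_reducible] def crTop (n : ℕ) (M : Type u) [TopologicalSpace M] [ChartedSpace (Er n) M] (r : ℕ∞) :
    TopologicalSpace (Dif n M) :=
  TopologicalSpace.generateFrom {s | ∃ (k : ℕ) (f : Dif n M) (φ ψ : OpenPartialHomeomorph M (Er n))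
    (K : Set M) (ε : ℝ), (k : ℕ∞) ≤ r ∧ φ ∈ atlas (Er n) M ∧ ψ ∈ atlas (Er n) M ∧ IsCompact K ∧
    K ⊆ φ.source ∧ (∀ x ∈ K, f x ∈ ψ.source) ∧ 0 < ε ∧ s = cnbhd k f φ ψ K ε}

/-- Derivative of `F` at a fixed point `x`, in the preferred chart at `x`. -/
noncomputable def dfix (F : M → M) (x : M) : Er n →L[ℝ] Er n :=
  fderiv ℝ (chartAt (Er n) x ∘ F ∘ (chartAt (Er n) x).symm) (chartAt (Er n) x x)

/-- The possible values at `1` of the monic complex polynomials `p` with `p · conj p = charpoly A`. -/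
def Fac {E : Type*} [AddCommGroup E] [Module ℝ E] [Module.Finite ℝ E] [Module.Free ℝ E]
    (A : E →ₗ[ℝ] E) : Set ℂ :=
  {c | ∃ p : Polynomial ℂ, p.Monic ∧
    p * p.map (starRingEnd ℂ) = (LinearMap.charpoly A).map (algebraMap ℝ ℂ) ∧ c = p.eval 1}

/-- All fixed points of `g^k` are nondegenerate, and for every choice of factorisations, constant along
orbits, the Lefschetz sum avoids the set `R`. -/
def GoodAt (g : Dif n M) (k : ℕ) (R : Set ℂ) : Prop :=
  (∀ x, (g : M → M)^[k] x = x → LinearMap.det ((dfix ((g : M → M)^[k]) x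
      - ContinuousLinearMap.id ℝ (Er n) : Er n →L[ℝ] Er n)).toLinearMap ≠ 0) ∧
  ∀ c : M → ℂ, (∀ x, (g : M → M)^[k] x = x →
      c x ∈ Fac (dfix (n := n) ((g : M → M)^[k]) x).toLinearMap ∧ c (g x) = c x) →
    (∑ᶠ x ∈ {x | (g : M → M)^[k] x = x}, (c x)⁻¹) ∉ R

end diffeos

end FB
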