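import Pool.Agent.H.MP_fb873c_an.K00
import Pool.Agent.H.MP_fb873c_an.S0

/-!
# Part J12a1: the polynomial of a pencil
-/

namespace FB

namespace JT

open scoped Topology ContDiff
open Filter KT

variable {n : ℕ}

/-- The polynomial `ξ ↦ det (X - ξ Y)`. -/
noncomputable def PD (X Y : Er n →L[ℝ] Er n) : Polynomial ℝ :=
  Matrix.det ((LinearMap.toMatrix (EuclideanSpace.basisFun (Fin n) ℝ).toBasis
      (EuclideanSpace.basisFun (Fin n) ℝ).toBasis X.toLinearMap).map Polynomial.C -
    (Polynomial.X : Polynomial ℝ) • (LinearMap.toMatrix (EuclideanSpace.basisFun (Fin n) ℝ).toBasis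
      (EuclideanSpace.basisFun (Fin n) ℝ).toBasis Y.toLinearMap).map Polynomial.C)

/-- `Polynomial.evalRingHom ξ` commutes with `Matrix.det` (`RingHom.map_det`), `LinearMap.det_toMatrix`. -/
theorem PD_eval (X Y : Er n →L[ℝ] Er n) (ξ : ℝ) :
    (PD X Y).eval ξ = LinearMap.det ((X - ξ • Y : Er n →L[ℝ] Er n)).toLinearMap := by
  have h1 : (PD X Y).eval ξ = (Polynomial.evalRingHom ξ) (PD X Y) := rfl
  rw [h1, PD, RingHom.map_det,
    ← LinearMap.det_toMatrix (EuclideanSpace.basisFun (Fin n) ℝ).toBasis]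
  congr 1
  ext i j
  have h2 : ((X - ξ • Y : Er n →L[ℝ] Er n)).toLinearMap = X.toLinearMap - ξ • Y.toLinearMap := rfl
  have h3 : LinearMap.toMatrix (EuclideanSpace.basisFun (Fin n) ℝ).toBasis
      (EuclideanSpace.basisFun (Fin n) ℝ).toBasis ((X - ξ • Y : Er n →L[ℝ] Er n)).toLinearMap =
      LinearMap.toMatrix (EuclideanSpace.basisFun (Fin n) ℝ).toBasis
      (EuclideanSpace.basisFun (Fin n) ℝ).toBasis X.toLinearMap -
      ξ • LinearMap.toMatrix (EuclideanSpace.basisFun (Fin n) ℝ).toBasis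
      (EuclideanSpace.basisFun (Fin n) ℝ).toBasis Y.toLinearMap := by
    rw [h2, map_sub, LinearEquiv.map_smul]
  rw [h3]
  simp only [RingHom.mapMatrix_apply, Matrix.map_apply, Matrix.sub_apply, Matrix.smul_apply,
    smul_eq_mul, map_sub, Polynomial.coe_evalRingHom, Polynomial.eval_mul, Polynomial.eval_X,
    Polynomial.eval_C]

end JT

end FB
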