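import Pool.Agent.H.MP_fb873c_an.B0
import Pool.Agent.H.MP_fb873c_an.DA

/-!
# Part K (transverse homoclinic points): definitions of the statement
-/

namespace FB

open scoped Topology ContDiff Manifold
open Filter

universe u

section

variable {n : ℕ}

/-- `A` has a real eigenvalue which is a simple root of the characteristic polynomial. -/
def SimpleReal (A : Er n →L[ℝ] Er n) : Prop :=
  ∃ μ : ℝ, (LinearMap.charpoly A.toLinearMap).eval μ = 0 ∧
    (Polynomial.derivative (LinearMap.charpoly A.toLinearMap)).eval μ ≠ 0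

end

section

variable {n : ℕ} {M : Type u} [TopologicalSpace M] [ChartedSpace (Er n) M]

/-- The iterate `f^k`. -/
noncomputable def itr (f : Dif n M) (k : ℕ) : M → M := (f : M → M)^[k]

/-- `p` is a periodic point of `f` of minimal period `k`. -/
def MinPer (f : Dif n M) (p : M) (k : ℕ) : Prop :=
  0 < k ∧ itr f k p = p ∧ ∀ i, 0 < i → i < k → itr f i p ≠ p

/-- The derivative of `F` at `q`, in the preferred charts at `q` and at `p`. -/
noncomputable def dpq (F : M → M) (q p : M) : Er n →L[ℝ] Er n :=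
  fderiv ℝ (chartAt (Er n) p ∘ F ∘ (chartAt (Er n) q).symm) (chartAt (Er n) q q)

/-- `F^j q → p` for `j → ∞`. -/
def Asy (F : M → M) (q p : M) : Prop := Tendsto (fun j : ℕ => F^[j] q) atTop (𝓝 p)

/-- The derivatives of the `F^j` at `q` (in the charts at `q` and `p`) applied to the tangent vector `v` tend to `0`
for `j → ∞`. -/
def Ctr (F : M → M) (q p : M) (v : Er n) : Prop :=
  Tendsto (fun j : ℕ => dpq (F^[j]) q p v) atTop (𝓝 0)

/-- `f` has a transverse homoclinic point `q` of a hyperbolic periodic point `p` of (minimal) period `k`: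
`f^(k j) q → p` for `j → ± ∞`, `q ≠ p`, and no tangent vector `v ≠ 0` at `q` is contracted to `0` both by the
derivatives of the `f^(k j)` and by those of the `f^(- k j)`, `j → ∞`. -/
def TransHom (f : Dif n M) : Prop :=
  ∃ (p q : M) (k : ℕ), MinPer f p k ∧ Hyp (dfix (n := n) (itr f k) p) ∧ q ≠ p ∧
    Asy (itr f k) q p ∧ Asy (itr f.symm k) q p ∧
    ∀ v : Er n, Ctr (itr f k) q p v → Ctr (itr f.symm k) q p v → v = 0

/-- The same, unfolded: `f` has a transverse homoclinic point `q` of a hyperbolic periodic point `p` of (minimal) period `k`: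
`f^(k j) q → p` for `j → ± ∞`, `q ≠ p`, and no tangent vector `v ≠ 0` at `q` is contracted to `0` both by the
derivatives of the `f^(k j)` and by those of the `f^(- k j)`, `j → ∞`. -/
def TransHomR (f : Dif n M) : Prop :=
  ∃ (p q : M) (k : ℕ), 0 < k ∧ (f : M → M)^[k] p = p ∧
    (∀ i, 0 < i → i < k → (f : M → M)^[i] p ≠ p) ∧
    Hyp (dfix (n := n) ((f : M → M)^[k]) p) ∧ q ≠ p ∧
    Tendsto (fun j : ℕ => ((f : M → M)^[k])^[j] q) atTop (𝓝 p) ∧
    Tendsto (fun j : ℕ => ((f.symm : M → M)^[k])^[j] q) atTop (𝓝 p) ∧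
    ∀ v : Er n,
      Tendsto (fun j : ℕ => fderiv ℝ (chartAt (Er n) p ∘ ((f : M → M)^[k])^[j] ∘
        (chartAt (Er n) q).symm) (chartAt (Er n) q q) v) atTop (𝓝 0) →
      Tendsto (fun j : ℕ => fderiv ℝ (chartAt (Er n) p ∘ ((f.symm : M → M)^[k])^[j] ∘
        (chartAt (Er n) q).symm) (chartAt (Er n) q q) v) atTop (𝓝 0) → v = 0

theorem TransHom.raw {f : Dif n M} (h : TransHom f) : TransHomR f := by
  obtain ⟨p, q, k, ⟨hk, hp, hm⟩, hH, hne, ha, hb, hv⟩ := h
  exact ⟨p, q, k, hk, hp, hm, hH, hne, ha, hb, hv⟩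

/-- The diffeomorphisms with a nondegenerate periodic point whose return derivative has a real simple
eigenvalue. -/
def UR (n : ℕ) (M : Type u) [TopologicalSpace M] [ChartedSpace (Er n) M] : Set (Dif n M) :=
  {g | ∃ (x : M) (k : ℕ), 0 < k ∧ (g : M → M)^[k] x = x ∧ Ndg (n := n) ((g : M → M)^[k]) x ∧
    SimpleReal (dfix (n := n) ((g : M → M)^[k]) x)}

end

end FB
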