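import Mathlib

/-!
# Part K: pure definitions (sequences of linear maps)
-/

namespace FB

namespace KT

open scoped Topology
open Filter

section

variable {E : Type*} [NormedAddCommGroup E] [NormedSpace ℝ E]

/-- The recursion `x (j+1) = L j (x j)` has no bounded two-sided solution except zero. -/
def NoBdd (L : ℤ → E →L[ℝ] E) : Prop :=
  ∀ x : ℤ → E, (∃ C, ∀ j, ‖x j‖ ≤ C) → (∀ j, x (j + 1) = L j (x j)) → ∀ j, x j = 0

/-- Quantitative version, for bounded sequences. -/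
def BB (c : ℝ) (L : ℤ → E →L[ℝ] E) : Prop :=
  ∀ x : ℤ → E, (∃ C, ∀ j, ‖x j‖ ≤ C) → ∀ D, (∀ j, ‖x (j + 1) - L j (x j)‖ ≤ D) →
    ∀ j, c * ‖x j‖ ≤ D

/-- The sequence `L (-m), ..., L m` repeated periodically. -/
def cyc (m : ℕ) (L : ℤ → E →L[ℝ] E) (j : ℤ) : E →L[ℝ] E :=
  L ((j : ZMod (2 * m + 1)).valMinAbs)

/-- `fw D N = D (N-1) ∘ ... ∘ D 0`. -/
def fw (D : ℕ → E →L[ℝ] E) : ℕ → E →L[ℝ] E
  | 0 => ContinuousLinearMap.id ℝ E
  | i + 1 => D i ∘L fw D i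

/-- `bw D N = D 0 ∘ ... ∘ D (N-1)`. -/
def bw (D : ℕ → E →L[ℝ] E) : ℕ → E →L[ℝ] E
  | 0 => ContinuousLinearMap.id ℝ E
  | i + 1 => bw D i ∘L D i

/-- Multiplication by a complex number, as a real linear map. -/
noncomputable def mulc (a : ℂ) : ℂ →L[ℝ] ℂ := ContinuousLinearMap.mul ℝ ℂ a

/-- `A` has a strictly dominating pair of simple eigenvalues `lam`, `conj lam` with `‖lam‖ = ρ`; `ι` is the
inclusion of the corresponding plane, `π` the projection. -/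
structure TP (A : E →L[ℝ] E) (ρ : ℝ) (lam : ℂ) (ι : ℂ →L[ℝ] E) (π : E →L[ℝ] ℂ) (C τ : ℝ) : Prop where
  pos : 0 < ρ
  nrm : ‖lam‖ = ρ
  tau0 : 0 < τ
  tau1 : τ < 1
  C0 : 0 ≤ C
  pi : ∀ w, π (ι w) = w
  Ai : ∀ w, A (ι w) = ι (lam * w)
  pA : ∀ v, π (A v) = lam * π v
  bd : ∀ (j : ℕ) (v : E), ‖(A ^ j) (v - ι (π v))‖ ≤ C * (τ * ρ) ^ j * ‖v‖

end

end KT

end FB
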