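import Pool.Agent.H.MP_fb873c_an.J12a1
import Pool.Agent.H.MP_fb873c_an.K0
import Pool.Agent.H.MP_fb873c_an.K00

/-!
# Part J12b: from the pencil to a simple real eigenvalue
-/

namespace FB

namespace JT

open scoped Topology ContDiff
open Filter KT

variable {n : ℕ}

theorem J12b_eval (S : Er n →L[ℝ] Er n) (t : ℝ) :
    (LinearMap.charpoly (ContinuousLinearMap.id ℝ (Er n) + S).toLinearMap).eval (1 + t) =
      (-1) ^ n * LinearMap.det (S - t • ContinuousLinearMap.id ℝ (Er n)).toLinearMap := by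
  rw [LinearMap.eval_charpoly]
  have h1 : algebraMap ℝ (Module.End ℝ (Er n)) (1 + t) -
      (ContinuousLinearMap.id ℝ (Er n) + S).toLinearMap =
      (-1 : ℝ) • (S - t • ContinuousLinearMap.id ℝ (Er n)).toLinearMap := by
    apply LinearMap.ext
    intro v
    change (1 + t) • v - (v + S v) = (-1 : ℝ) • (S v - t • v)
    module
  rw [h1, LinearMap.det_smul, finrank_euclideanSpace_fin]

/-- For all real `ξ`: with `P = charpoly (1 + S)`, `P (1 + s ξ) = det ((1 + s ξ) - (1 + S)) = (-1)^n det (S - s ξ)` (`LinearMap.eval_charpoly`-like: see `DF1b_charpoly` (file DF1b) or `D1h_charpoly` (file D1h)),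
and `det (S - s ξ) det W = det (X - ξ Y) = PD ξ` (`PD_eval`).  So `PD = (-1)^n det W • P.comp (1 + s X)` (polynomials which agree at all points), and the derivatives:
`PD' ξ = (-1)^n det W s P' (1 + s ξ)`.  So `μ = 1 + s ξ` is a simple root of `P`. -/
theorem simpleReal_of_PD {S W X Y : Er n →L[ℝ] Er n} {s : ℝ} (hs : s ≠ 0)
    (hW : LinearMap.det W.toLinearMap ≠ 0)
    (h : ∀ ξ : ℝ, (S - (s * ξ) • ContinuousLinearMap.id ℝ (Er n)) ∘L W = X - ξ • Y) {ξ : ℝ}
    (h0 : (PD X Y).eval ξ = 0) (h1 : (Polynomial.derivative (PD X Y)).eval ξ ≠ 0) :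
    SimpleReal (ContinuousLinearMap.id ℝ (Er n) + S) := by
  set P := LinearMap.charpoly (ContinuousLinearMap.id ℝ (Er n) + S).toLinearMap with hP
  set c : ℝ := (-1) ^ n * LinearMap.det W.toLinearMap with hc
  have hc0 : ((-1 : ℝ) ^ n) * (-1) ^ n = 1 := by
    rw [← mul_pow]
    norm_num
  have he : ∀ z : ℝ, (PD X Y).eval z = c * P.eval (1 + s * z) := by
    intro z
    rw [PD_eval, ← h z, hP, J12b_eval S (s * z), hc]
    have h2 : ((S - (s * z) • ContinuousLinearMap.id ℝ (Er n)) ∘L W).toLinearMap =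
        (S - (s * z) • ContinuousLinearMap.id ℝ (Er n)).toLinearMap ∘ₗ W.toLinearMap := rfl
    rw [h2, LinearMap.det_comp]
    linear_combination (-(LinearMap.det (S - (s * z) • ContinuousLinearMap.id ℝ (Er n)).toLinearMap *
      LinearMap.det W.toLinearMap)) * hc0
  have hp : PD X Y = Polynomial.C c * P.comp (Polynomial.C 1 + Polynomial.C s * Polynomial.X) := by
    refine Polynomial.funext fun z => ?_
    rw [he z, Polynomial.eval_mul, Polynomial.eval_C, Polynomial.eval_comp, Polynomial.eval_add,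
      Polynomial.eval_C, Polynomial.eval_mul, Polynomial.eval_C, Polynomial.eval_X]
  have hcne : c ≠ 0 := mul_ne_zero (pow_ne_zero _ (by norm_num)) hW
  refine ⟨1 + s * ξ, ?_, ?_⟩
  · have h2 := he ξ
    rw [h0] at h2
    exact (mul_eq_zero.1 h2.symm).resolve_left hcne
  · intro h3
    apply h1
    rw [hp, Polynomial.derivative_mul, Polynomial.derivative_C, zero_mul, zero_add,
      Polynomial.derivative_comp, Polynomial.eval_mul, Polynomial.eval_mul, Polynomial.eval_comp,
      Polynomial.eval_add, Polynomial.eval_C, Polynomial.eval_C, Polynomial.eval_mul,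
      Polynomial.eval_C, Polynomial.eval_X, h3]
    ring

end JT

end FB
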