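import Pool.Agent.H.MP_fb873c_an.J12a1
import Pool.Agent.H.MP_fb873c_an.K00

/-!
# Part J12c1: the determinant of a pencil supported in a plane
-/

namespace FB

namespace JT

open scoped Topology ContDiff
open Filter KT

variable {n : ℕ}

theorem J12c1_det (f : ℂ →ₗ[ℝ] Er n) (g : Er n →ₗ[ℝ] ℂ) :
    LinearMap.det (LinearMap.id + f ∘ₗ g) = LinearMap.det (LinearMap.id + g ∘ₗ f) := by
  classical
  have b1 := (EuclideanSpace.basisFun (Fin n) ℝ).toBasis
  have b2 := Complex.basisOneI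
  rw [← LinearMap.det_toMatrix b1, ← LinearMap.det_toMatrix b2, map_add, map_add,
    LinearMap.toMatrix_comp b1 b2 b1, LinearMap.toMatrix_comp b2 b1 b2, LinearMap.toMatrix_id,
    LinearMap.toMatrix_id]
  exact Matrix.det_one_add_mul_comm _ _

/-- `PD_eval`, and `det (1 + ι T' π) = det (1 + T' π ι) = det (1 + T')` over `ℝ` for `T' : ℂ → ℂ` (`Matrix.det_one_add_mul_comm` for the matrices in bases, or a `LinearMap` version).
Here `T' = T - 1 - ξ`. -/
theorem det_plane {ι : ℂ →L[ℝ] Er n} {π : Er n →L[ℝ] ℂ} (hπ : ∀ w, π (ι w) = w)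
    (T : ℂ →L[ℝ] ℂ) (ξ : ℝ) :
    (PD (ContinuousLinearMap.id ℝ (Er n) - ι ∘L π + ι ∘L T ∘L π) (ι ∘L π)).eval ξ =
      LinearMap.det ((T - ξ • ContinuousLinearMap.id ℝ ℂ : ℂ →L[ℝ] ℂ)).toLinearMap := by
  rw [PD_eval]
  have e1 : (ContinuousLinearMap.id ℝ (Er n) - ι ∘L π + ι ∘L T ∘L π - ξ • (ι ∘L π) :
      Er n →L[ℝ] Er n).toLinearMap = LinearMap.id +
      ι.toLinearMap ∘ₗ (((T - ξ • ContinuousLinearMap.id ℝ ℂ : ℂ →L[ℝ] ℂ)).toLinearMap ∘ₗ
        π.toLinearMap - π.toLinearMap) := by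
    ext x : 1
    simp only [ContinuousLinearMap.coe_coe, LinearMap.add_apply, LinearMap.id_apply,
      LinearMap.comp_apply, LinearMap.sub_apply, _root_.sub_apply,
      _root_.add_apply, _root_.smul_apply,
      ContinuousLinearMap.comp_apply, ContinuousLinearMap.id_apply, map_sub, map_smul]
    abel
  have e2 : LinearMap.id + (((T - ξ • ContinuousLinearMap.id ℝ ℂ : ℂ →L[ℝ] ℂ)).toLinearMap ∘ₗ
        π.toLinearMap - π.toLinearMap) ∘ₗ ι.toLinearMap =
      ((T - ξ • ContinuousLinearMap.id ℝ ℂ : ℂ →L[ℝ] ℂ)).toLinearMap := by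
    ext x : 1
    simp only [ContinuousLinearMap.coe_coe, LinearMap.add_apply, LinearMap.id_apply,
      LinearMap.comp_apply, LinearMap.sub_apply, hπ]
    abel
  rw [e1, J12c1_det, e2]

end JT

end FB
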