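import Pool.Agent.H.MP_fb873c_an.J0
import Pool.Agent.H.MP_fb873c_an.J12c1

/-!
# Part J12c: the limit pencil
-/

namespace FB

namespace JT

open scoped Topology ContDiff
open Filter KT

variable {n : ℕ}

/-- In the basis `1, i` (`Complex.basisOneI`): `1 ↦ 2 c - ξ`, `i ↦ - ξ i`; the determinant is `(2 Re c - ξ)(- ξ)`. -/
theorem det_Rc (c : ℂ) (ξ : ℝ) :
    LinearMap.det ((Rc c - ξ • ContinuousLinearMap.id ℝ ℂ : ℂ →L[ℝ] ℂ)).toLinearMap =
      ξ * (ξ - 2 * c.re) := by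
  rw [← LinearMap.det_toMatrix Complex.basisOneI, Matrix.det_fin_two]
  simp only [LinearMap.toMatrix_apply, Complex.coe_basisOneI, Complex.coe_basisOneI_repr,
    ContinuousLinearMap.coe_coe, ContinuousLinearMap.sub_apply, ContinuousLinearMap.smul_apply,
    ContinuousLinearMap.id_apply, Rc_apply, Matrix.cons_val_zero, Matrix.cons_val_one]
  simp
  ring

/-- `PD = X (X - 2 Re c)` (`det_plane`, `det_Rc`: agreement at all points), derivative `2 ξ - 2 Re c`, at `ξ = 2 Re c` it is `2 Re c`. -/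
theorem PD_plane {ι : ℂ →L[ℝ] Er n} {π : Er n →L[ℝ] ℂ} (hπ : ∀ w, π (ι w) = w) {c : ℂ}
    (hc : c.re ≠ 0) :
    (PD (ContinuousLinearMap.id ℝ (Er n) - ι ∘L π + ι ∘L Rc c ∘L π) (ι ∘L π)).eval (2 * c.re) = 0 ∧
      (Polynomial.derivative (PD (ContinuousLinearMap.id ℝ (Er n) - ι ∘L π + ι ∘L Rc c ∘L π)
        (ι ∘L π))).eval (2 * c.re) ≠ 0 := by
  have hP : PD (ContinuousLinearMap.id ℝ (Er n) - ι ∘L π + ι ∘L Rc c ∘L π) (ι ∘L π) =
      Polynomial.X * (Polynomial.X - Polynomial.C (2 * c.re)) := by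
    apply Polynomial.funext
    intro ξ
    rw [det_plane hπ (Rc c) ξ, det_Rc]
    simp
  rw [hP]
  constructor
  · simp
  · simp [hc]

end JT

end FB
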