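import Pool.Agent.H.MP_fb873c_an.J4b

/-!
# Part J13a: the derivative of the iterate along the solution
-/

namespace FB

namespace JT

open scoped Topology ContDiff
open Filter KT

variable {E : Type} [NormedAddCommGroup E] [NormedSpace ℝ E] {A : E →L[ℝ] E} {lam : ℂ} {b : ℕ}
  {ι : ℂ →L[ℝ] E} {π : E →L[ℝ] ℂ} {F : E → E} {q : ℂ × ℂ → E}

theorem J13a_q0 (hq : LS F ι π b q) : q 0 = 0 := hq.zero.self_of_nhds

/-- The map `p ↦ (p.1, q p)` tends to `0` at `0`. -/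
theorem J13a_tend (hq : LS F ι π b q) :
    Tendsto (fun p : ℂ × ℂ => ((p.1, q p) : ℂ × E)) (𝓝 0) (𝓝 0) := by
  have h1 : ContinuousAt (fun p : ℂ × ℂ => ((p.1, q p) : ℂ × E)) 0 :=
    continuousAt_fst.prodMk hq.smooth.continuousAt
  have h2 := h1.tendsto
  rw [J13a_q0 hq] at h2
  exact h2

/-- Differentiate `LS.eq` in the second variable at `p` near `0`: chain rule (`GG b (p.1, .)` is differentiable at `q p`, `q (p.1, .)` at `p.2`, `RR_hasDeriv`).  `LS.eq` holds near `0`, so near every `p` near `0`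
(`Filter.Eventually.eventually_nhds`). -/
theorem SV_eq (hF : Loc F A) (hq : LS F ι π b q) :
    ∀ᶠ p : ℂ × ℂ in 𝓝 0,
      (fderiv ℝ (fun x => GG F ι π b (p.1, x)) (q p) - ContinuousLinearMap.id ℝ E) ∘L
        (fderiv ℝ (fun w => q (p.1, w)) p.2) = ι ∘L QQ F ι π b q p := by
  have hG1 : ContDiffAt ℝ 1 (GG F ι π b) 0 := (GG_smooth hF b).of_le (by simp)
  have hq1 : ContDiffAt ℝ 1 q 0 := hq.smooth.of_le (by simp)
  have hGe : ∀ᶠ p : ℂ × ℂ in 𝓝 0, ContDiffAt ℝ 1 (GG F ι π b) (p.1, q p) :=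
    (J13a_tend hq).eventually (hG1.eventually (by simp))
  filter_upwards [hGe, hq1.eventually (by simp), hq.eq.eventually_nhds, RR_hasDeriv hF hq] with
    p h1 h2 h3 h4
  have hV : HasFDerivAt (fun w => q (p.1, w)) (fderiv ℝ (fun w => q (p.1, w)) p.2) p.2 := by
    have h5 : HasFDerivAt (fun y : ℂ => (p.1, y)) (ContinuousLinearMap.inr ℝ ℂ ℂ) p.2 :=
      hasFDerivAt_prodMk_right p.1 p.2
    have h6 : HasFDerivAt q (fderiv ℝ q p) (p.1, p.2) := (h2.differentiableAt (by simp)).hasFDerivAt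
    have h7 : DifferentiableAt ℝ (fun w => q (p.1, w)) p.2 :=
      (HasFDerivAt.comp p.2 h6 h5).differentiableAt
    exact h7.hasFDerivAt
  have hS : HasFDerivAt (fun x => GG F ι π b (p.1, x))
      (fderiv ℝ (fun x => GG F ι π b (p.1, x)) (q p)) (q (p.1, p.2)) := by
    have h5 : HasFDerivAt (fun y : E => (p.1, y)) (ContinuousLinearMap.inr ℝ ℂ E) (q p) :=
      hasFDerivAt_prodMk_right p.1 (q p)
    have h6 : HasFDerivAt (GG F ι π b) (fderiv ℝ (GG F ι π b) (p.1, q p)) (p.1, q p) :=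
      (h1.differentiableAt (by simp)).hasFDerivAt
    have h7 : DifferentiableAt ℝ (fun x => GG F ι π b (p.1, x)) (q p) :=
      (HasFDerivAt.comp (q p) h6 h5).differentiableAt
    exact h7.hasFDerivAt
  have hL : HasFDerivAt (fun w => GG F ι π b (p.1, q (p.1, w)))
      ((fderiv ℝ (fun x => GG F ι π b (p.1, x)) (q p)) ∘L
        (fderiv ℝ (fun w => q (p.1, w)) p.2)) p.2 :=
    HasFDerivAt.comp (g := fun x => GG F ι π b (p.1, x)) (f := fun w => q (p.1, w)) p.2 hS hV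
  have hι : HasFDerivAt (fun w => ι (RR F ι π b q (p.1, w))) (ι ∘L QQ F ι π b q p) p.2 :=
    ι.hasFDerivAt.comp p.2 h4
  have hR := hV.add hι
  have hev : (fun w => GG F ι π b (p.1, q (p.1, w))) =ᶠ[𝓝 p.2]
      ((fun w => q (p.1, w)) + fun w => ι (RR F ι π b q (p.1, w))) := by
    have h5 : Tendsto (fun y : ℂ => (p.1, y)) (𝓝 p.2) (𝓝 p) :=
      (Continuous.prodMk_right p.1).tendsto p.2
    exact h5.eventually h3
  have hR' : HasFDerivAt (fun w => GG F ι π b (p.1, q (p.1, w)))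
      (fderiv ℝ (fun w => q (p.1, w)) p.2 + ι ∘L QQ F ι π b q p) p.2 :=
    hR.congr_of_eventuallyEq hev
  have h8 := hL.unique hR'
  rw [ContinuousLinearMap.sub_comp, h8, ContinuousLinearMap.id_comp, add_sub_cancel_left]

/-- `slice_fderiv_continuousAt` (file D2a, namespace `FB`) at `(0, 0)`, `GG_smooth`, composed with `p ↦ (p.1, q p)`; the value at `0` is `A^b` (`GG_deriv0`). -/
theorem S_tendsto (hF : Loc F A) (hq : LS F ι π b q) :
    Tendsto (fun p : ℂ × ℂ => fderiv ℝ (fun x => GG F ι π b (p.1, x)) (q p)) (𝓝 0)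
      (𝓝 (A ^ b)) := by
  have h1 : ContinuousAt (fun r : ℂ × E => fderiv ℝ (fun y => GG F ι π b (r.1, y)) r.2)
      ((0 : ℂ), (0 : E)) := slice_fderiv_continuousAt (GG_smooth hF b)
  have h2 := h1.tendsto.comp (J13a_tend hq)
  have h3 : fderiv ℝ (fun y => GG F ι π b (0, y)) 0 = A ^ b := (GG_deriv0 hF b).fderiv
  have h5 : Tendsto ((fun r : ℂ × E => fderiv ℝ (fun y => GG F ι π b (r.1, y)) r.2) ∘
      fun p : ℂ × ℂ => (p.1, q p)) (𝓝 0) (𝓝 (fderiv ℝ (fun y => GG F ι π b (0, y)) 0)) := h2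
  rw [h3] at h5
  exact h5

/-- `slice_fderiv_continuousAt` for `q`, the value at `0` is `ι` (`q_deriv`). -/
theorem V_tendsto (hF : Loc F A) (h : RD A lam b ι π) (hq : LS F ι π b q) :
    Tendsto (fun p : ℂ × ℂ => fderiv ℝ (fun w => q (p.1, w)) p.2) (𝓝 0) (𝓝 ι) := by
  have h1 : ContinuousAt (fun r : ℂ × ℂ => fderiv ℝ (fun y => q (r.1, y)) r.2)
      ((0 : ℂ), (0 : ℂ)) := slice_fderiv_continuousAt hq.smooth
  have h2 := h1.tendsto
  have h3 : fderiv ℝ (fun y => q (0, y)) 0 = ι := (q_deriv hF h hq).fderiv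
  have h5 : Tendsto (fun r : ℂ × ℂ => fderiv ℝ (fun y => q (r.1, y)) r.2) (𝓝 0)
      (𝓝 (fderiv ℝ (fun y => q (0, y)) 0)) := h2
  rw [h3] at h5
  exact h5

end JT

end FB
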