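import Pool.Agent.H.MP_fb873c_an.J1
import Pool.Agent.H.MP_fb873c_an.S0

/-!
# Part J13b1: a right inverse transversal to the plane
-/

namespace FB

namespace JT

open scoped Topology ContDiff
open Filter KT

variable {n : ℕ} {A : Er n →L[ℝ] Er n} {lam : ℂ} {b : ℕ} {ι : ℂ →L[ℝ] Er n} {π : Er n →L[ℝ] ℂ}
  {F : Er n → Er n} {q : ℂ × ℂ → Er n}

/-- `L` from `exists_L`, `K = L⁻¹ ∘ (1 - ι π)`.  For `y = (1 - ι π) v`, `x = L⁻¹ y`: `ι π x + (A^b x - x) = y`, apply `π`: `π x = 0` (`π (A^b x - x) = 0` by `RD.piA`, `π y = 0`), so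
`A^b x - x = y`.  `K ι = 0`.  `ι π + K = L⁻¹` because `L⁻¹ ι = ι` (`L_iota`): `L⁻¹ v = L⁻¹ (ι π v) + L⁻¹ ((1 - ι π) v)`; the determinant of an isomorphism is not `0`. -/
theorem exists_K (h : RD A lam b ι π) : ∃ K : Er n →L[ℝ] Er n,
    (A ^ b - ContinuousLinearMap.id ℝ (Er n)) ∘L K = ContinuousLinearMap.id ℝ (Er n) - ι ∘L π ∧
      K ∘L ι = 0 ∧ LinearMap.det ((ι ∘L π + K : Er n →L[ℝ] Er n)).toLinearMap ≠ 0 := by
  obtain ⟨L, hL⟩ := exists_L h
  have hLi : ∀ w, L.symm (ι w) = ι w := fun w => by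
    rw [ContinuousLinearEquiv.symm_apply_eq, L_iota h hL w]
  have hb : ∀ v, π ((A ^ b) v) = π v := fun v => by rw [h.piA, h.one, one_mul]
  have hπ : ∀ v, π (L.symm (v - ι (π v))) = 0 := by
    intro v
    have h1 := hL (L.symm (v - ι (π v)))
    rw [ContinuousLinearEquiv.apply_symm_apply] at h1
    have h2 : π (v - ι (π v)) = 0 := by rw [map_sub, h.pi, sub_self]
    generalize L.symm (v - ι (π v)) = y at h1 ⊢
    rw [h1, map_add, h.pi, map_sub, hb, sub_self, add_zero] at h2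
    exact h2
  let K : Er n →L[ℝ] Er n :=
    (L.symm : Er n →L[ℝ] Er n) ∘L (ContinuousLinearMap.id ℝ (Er n) - ι ∘L π)
  have hK : ∀ v, K v = L.symm (v - ι (π v)) := fun v => rfl
  refine ⟨K, ?_, ?_, ?_⟩
  · ext1 v
    have h1 := hL (L.symm (v - ι (π v)))
    rw [ContinuousLinearEquiv.apply_symm_apply, hπ, map_zero, zero_add] at h1
    change (A ^ b) (K v) - K v = v - ι (π v)
    rw [hK]
    exact h1.symm
  · ext1 w
    change K (ι w) = 0
    rw [hK, h.pi, sub_self, map_zero]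
  · have h1 : (ι ∘L π + K : Er n →L[ℝ] Er n) = (L.symm : Er n →L[ℝ] Er n) := by
      ext1 v
      change ι (π v) + K v = L.symm v
      rw [hK, map_sub, hLi]
      abel
    rw [h1]
    have h2 : ((L.symm : Er n →L[ℝ] Er n)).toLinearMap = (L.symm.toLinearEquiv : Er n →ₗ[ℝ] Er n) := rfl
    rw [h2]
    exact (LinearEquiv.isUnit_det' L.symm.toLinearEquiv).ne_zero

end JT

end FB
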