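import Pool.Agent.H.MP_fb873c_an.K00
import Pool.Agent.H.MP_fb873c_an.S0

/-!
# Part J13b2: invertibility of the comparison map
-/

namespace FB

namespace JT

open scoped Topology ContDiff
open Filter KT

variable {n : ℕ} {A : Er n →L[ℝ] Er n} {lam : ℂ} {b : ℕ} {ι : ℂ →L[ℝ] Er n} {π : Er n →L[ℝ] ℂ}
  {F : Er n → Er n} {q : ℂ × ℂ → Er n}

/-- `(1/s) V π + K = (V π + K) ∘ ((1/s) ι π + (1 - ι π))` (use `π ι = 1`, `K ι = 0`).  The second factor is invertible, its inverse is `s ι π + (1 - ι π)`; the first tends to `ι π + K`, whose determinant is not `0`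
(`det` is continuous: `ContinuousLinearMap.continuous_det` or the matrix). -/
theorem det_W {κ : Type*} {l : Filter κ} {K : Er n →L[ℝ] Er n} (hπ : ∀ w, π (ι w) = w)
    (hK : K ∘L ι = 0) (hd : LinearMap.det ((ι ∘L π + K : Er n →L[ℝ] Er n)).toLinearMap ≠ 0)
    {V : κ → ℂ →L[ℝ] Er n} (hV : Tendsto V l (𝓝 ι)) {s : κ → ℝ} (hs : ∀ᶠ i in l, s i ≠ 0) :
    ∀ᶠ i in l, LinearMap.det
      (((1 / s i : ℝ) • (V i ∘L π) + K : Er n →L[ℝ] Er n)).toLinearMap ≠ 0 := by
  have h1 : Tendsto (fun i => (V i ∘L π + K : Er n →L[ℝ] Er n)) l (𝓝 (ι ∘L π + K)) :=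
    Tendsto.add ((((ContinuousLinearMap.compL ℝ (Er n) ℂ (Er n)).flip π).continuous.tendsto ι).comp
      hV) tendsto_const_nhds
  have h2 : Tendsto (fun i => (V i ∘L π + K : Er n →L[ℝ] Er n).det) l (𝓝 (ι ∘L π + K).det) :=
    (ContinuousLinearMap.continuous_det.tendsto _).comp h1
  have h3 : ∀ᶠ i in l, (V i ∘L π + K : Er n →L[ℝ] Er n).det ≠ 0 :=
    h2.eventually_ne hd
  filter_upwards [h3, hs] with i h3 hs
  have hKι : ∀ w, K (ι w) = 0 := fun w => by
    have := congrArg (fun f : ℂ →L[ℝ] Er n => f w) hK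
    simpa using this
  have e1 : (((1 / s i : ℝ) • (V i ∘L π) + K : Er n →L[ℝ] Er n)).toLinearMap =
      ((V i ∘L π + K : Er n →L[ℝ] Er n)).toLinearMap ∘ₗ
        (((1 / s i : ℝ) • (ι ∘L π) + (ContinuousLinearMap.id ℝ (Er n) - ι ∘L π) :
          Er n →L[ℝ] Er n)).toLinearMap := by
    ext x : 1
    simp only [ContinuousLinearMap.coe_coe, LinearMap.comp_apply, add_apply,
      smul_apply, ContinuousLinearMap.comp_apply,
      sub_apply, ContinuousLinearMap.id_apply, map_add, map_sub, map_smul,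
      hπ, hKι]
    abel_nf
  have e2 : (((1 / s i : ℝ) • (ι ∘L π) + (ContinuousLinearMap.id ℝ (Er n) - ι ∘L π) :
          Er n →L[ℝ] Er n)).toLinearMap ∘ₗ
        (((s i : ℝ) • (ι ∘L π) + (ContinuousLinearMap.id ℝ (Er n) - ι ∘L π) :
          Er n →L[ℝ] Er n)).toLinearMap = LinearMap.id := by
    ext x : 1
    simp only [ContinuousLinearMap.coe_coe, LinearMap.comp_apply, add_apply,
      smul_apply, ContinuousLinearMap.comp_apply,
      sub_apply, ContinuousLinearMap.id_apply, map_add, map_sub, map_smul,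
      hπ, LinearMap.id_apply, sub_self, add_zero]
    rw [smul_smul, mul_one_div_cancel hs, one_smul]
    abel
  rw [e1, LinearMap.det_comp]
  refine mul_ne_zero h3 ?_
  intro h0
  have h4 := congrArg LinearMap.det e2
  rw [LinearMap.det_comp, h0, zero_mul, LinearMap.det_id] at h4
  exact zero_ne_one h4

end JT

end FB
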