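import Pool.Agent.H.MP_fb873c_an.J12a
import Pool.Agent.H.MP_fb873c_an.J12b
import Pool.Agent.H.MP_fb873c_an.J12c
import Pool.Agent.H.MP_fb873c_an.J13a
import Pool.Agent.H.MP_fb873c_an.J13b1
import Pool.Agent.H.MP_fb873c_an.J13b2

/-!
# Part J13b: a simple real eigenvalue of the iterate
-/

namespace FB

namespace JT

open scoped Topology ContDiff
open Filter KT

variable {n : ℕ} {A : Er n →L[ℝ] Er n} {lam : ℂ} {b : ℕ} {ι : ℂ →L[ℝ] Er n} {π : Er n →L[ℝ] ℂ}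
  {F : Er n → Er n} {q : ℂ × ℂ → Er n}

theorem J13b_comp {κ E F G : Type*} [NormedAddCommGroup E] [NormedSpace ℝ E]
    [NormedAddCommGroup F] [NormedSpace ℝ F] [NormedAddCommGroup G] [NormedSpace ℝ G]
    {l : Filter κ} {f : κ → F →L[ℝ] G} {g : κ → E →L[ℝ] F} {f0 : F →L[ℝ] G} {g0 : E →L[ℝ] F}
    (hf : Tendsto f l (𝓝 f0)) (hg : Tendsto g l (𝓝 g0)) :
    Tendsto (fun i => f i ∘L g i) l (𝓝 (f0 ∘L g0)) :=
  ((isBoundedBilinearMap_comp (𝕜 := ℝ) (E := E) (F := F) (G := G)).continuous.tendsto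
    (f0, g0)).comp (hf.prodMk_nhds hg)

/-- Let `p r = (μ r, r) → 0`, `S r = fderiv (GG b (μ r, .)) (q (p r)) - 1 → A^b - 1` (`S_tendsto`), `V r = fderiv (q (μ r, .)) r → ι` (`V_tendsto`), `M r = QQ (p r)`, `S r ∘ V r = ι ∘ M r` (`SV_eq`).
`K` from `exists_K`.  For `r > 0` put `s = r^2`, `W r = (1/s) V r π + K`, `X r = ι ((1/s) M r) π + S r K`, `Y r = V r π + s K`: then `(S r - s ξ) W r = X r - ξ Y r`.
`X r → ι (Rc c) π + (1 - ι π)`, `Y r → ι π`, `det (W r) ≠ 0` eventually (`det_W`).  `PD_plane`, `PD_nhds`, `simpleReal_of_PD`. -/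
theorem simple_at (hF : Loc F A) (h : RD A lam b ι π) (hq : LS F ι π b q) {c : ℂ} (hc : c.re ≠ 0)
    {μ : ℝ → ℂ} (hμ : Tendsto μ (𝓝[>] 0) (𝓝 0))
    (hM : Tendsto (fun r : ℝ => (1 / r ^ 2 : ℝ) • QQ F ι π b q (μ r, (r : ℂ))) (𝓝[>] 0)
      (𝓝 (Rc c))) :
    ∀ᶠ r : ℝ in 𝓝[>] 0,
      SimpleReal (fderiv ℝ (fun x => GG F ι π b (μ r, x)) (q (μ r, (r : ℂ)))) := by
  obtain ⟨K, hK1, hK2, hK3⟩ := exists_K h
  have hp : Tendsto (fun r : ℝ => ((μ r, (r : ℂ)) : ℂ × ℂ)) (𝓝[>] 0) (𝓝 0) := by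
    have h1 : Tendsto (fun r : ℝ => (r : ℂ)) (𝓝[>] 0) (𝓝 0) := by
      have h2 : Tendsto (fun r : ℝ => (r : ℂ)) (𝓝 0) (𝓝 ((0 : ℝ) : ℂ)) :=
        Complex.continuous_ofReal.tendsto 0
      rw [Complex.ofReal_zero] at h2
      exact h2.mono_left nhdsWithin_le_nhds
    exact hμ.prodMk_nhds h1
  obtain ⟨D, hD⟩ : ∃ D : ℝ → (Er n →L[ℝ] Er n), ∀ r, D r =
      fderiv ℝ (fun x => GG F ι π b (μ r, x)) (q (μ r, (r : ℂ))) := ⟨_, fun _ => rfl⟩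
  obtain ⟨V, hV⟩ : ∃ V : ℝ → (ℂ →L[ℝ] Er n), ∀ r, V r =
      fderiv ℝ (fun w => q (μ r, w)) (r : ℂ) := ⟨_, fun _ => rfl⟩
  obtain ⟨Q, hQ⟩ : ∃ Q : ℝ → (ℂ →L[ℝ] ℂ), ∀ r, Q r =
      QQ F ι π b q (μ r, (r : ℂ)) := ⟨_, fun _ => rfl⟩
  have hDt : Tendsto D (𝓝[>] 0) (𝓝 (A ^ b)) := by
    have h1 := (S_tendsto (b := b) (ι := ι) (π := π) hF hq).comp hp
    refine h1.congr fun r => ?_
    rw [hD]
    rfl
  have hVt : Tendsto V (𝓝[>] 0) (𝓝 ι) := by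
    have h1 := (V_tendsto hF h hq).comp hp
    refine h1.congr fun r => ?_
    rw [hV]
    rfl
  have hQt : Tendsto (fun r : ℝ => (1 / r ^ 2 : ℝ) • Q r) (𝓝[>] 0) (𝓝 (Rc c)) := by
    refine hM.congr fun r => ?_
    rw [hQ]
  have hSV : ∀ᶠ r : ℝ in 𝓝[>] 0,
      (D r - ContinuousLinearMap.id ℝ (Er n)) ∘L V r = ι ∘L Q r := by
    have h1 := hp.eventually (SV_eq (b := b) (ι := ι) (π := π) hF hq)
    filter_upwards [h1] with r hr
    rw [hD, hV, hQ]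
    exact hr
  have hs : ∀ᶠ r : ℝ in 𝓝[>] 0, r ^ 2 ≠ 0 := by
    filter_upwards [self_mem_nhdsWithin] with r hr
    exact pow_ne_zero 2 (ne_of_gt hr)
  have hs0 : Tendsto (fun r : ℝ => r ^ 2) (𝓝[>] 0) (𝓝 0) := by
    have h1 : Tendsto (fun r : ℝ => r ^ 2) (𝓝 0) (𝓝 (0 ^ 2)) := (continuous_pow 2).tendsto 0
    rw [zero_pow two_ne_zero] at h1
    exact h1.mono_left nhdsWithin_le_nhds
  have hX : Tendsto (fun r : ℝ => ι ∘L ((1 / r ^ 2 : ℝ) • Q r) ∘L π +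
      (D r - ContinuousLinearMap.id ℝ (Er n)) ∘L K) (𝓝[>] 0)
      (𝓝 (ContinuousLinearMap.id ℝ (Er n) - ι ∘L π + ι ∘L Rc c ∘L π)) := by
    rw [← hK1, add_comm]
    exact (J13b_comp tendsto_const_nhds (J13b_comp hQt tendsto_const_nhds)).add
      (J13b_comp (hDt.sub tendsto_const_nhds) tendsto_const_nhds)
  have hY : Tendsto (fun r : ℝ => V r ∘L π + (r ^ 2) • K) (𝓝[>] 0) (𝓝 (ι ∘L π)) := by
    have h1 := (J13b_comp hVt (tendsto_const_nhds (x := π))).add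
      (hs0.smul (tendsto_const_nhds (x := K)))
    rw [zero_smul, add_zero] at h1
    exact h1
  obtain ⟨h0, h1⟩ := PD_plane (ι := ι) (π := π) h.pi hc
  have hW := det_W (K := K) h.pi hK2 hK3 hVt hs
  filter_upwards [PD_nhds hX hY h0 h1, hW, hSV, hs] with r hr hWr hSVr hsr
  obtain ⟨ξ, hξ0, hξ1⟩ := hr
  have key := simpleReal_of_PD (S := D r - ContinuousLinearMap.id ℝ (Er n)) hsr hWr ?_ hξ0 hξ1
  · rw [← hD]
    have e : ContinuousLinearMap.id ℝ (Er n) + (D r - ContinuousLinearMap.id ℝ (Er n)) = D r := by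
      abel
    rw [e] at key
    exact key
  · intro x
    ext1 v
    have h2 := congrArg (fun T : ℂ →L[ℝ] Er n => T (π v)) hSVr
    simp only [ContinuousLinearMap.comp_apply, ContinuousLinearMap.sub_apply,
      ContinuousLinearMap.id_apply] at h2
    simp only [ContinuousLinearMap.comp_apply, ContinuousLinearMap.sub_apply,
      ContinuousLinearMap.id_apply, ContinuousLinearMap.add_apply, ContinuousLinearMap.smul_apply,
      map_add, map_smul]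
    rw [h2, smul_sub, smul_smul, smul_add, smul_smul x]
    have h4 : (1 / r ^ 2 : ℝ) * (r ^ 2 * x) = x := by
      rw [← mul_assoc, one_div, inv_mul_cancel₀ hsr, one_mul]
    rw [h4, mul_comm x (r ^ 2)]
    abel

end JT

end FB
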