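import Pool.Agent.H.MP_fb873c_an.J4a

/-!
# Part J14a: the orbit is small
-/

namespace FB

namespace JT

open scoped Topology ContDiff
open Filter KT

variable {E : Type} [NormedAddCommGroup E] [NormedSpace ℝ E] {A : E →L[ℝ] E} {lam : ℂ} {b : ℕ}
  {ι : ℂ →L[ℝ] E} {π : E →L[ℝ] ℂ} {F : E → E} {q : ℂ × ℂ → E}

/-- `GG j` is continuous at `0` with value `0` (`GG_smooth`, `GG_zero`), `q` is continuous at `0` with value `0`. -/
theorem orbit_small (hF : Loc F A) (hq : LS F ι π b q) {μ : ℝ → ℂ}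
    (hμ : Tendsto μ (𝓝[>] 0) (𝓝 0)) {δ : ℝ} (hδ : 0 < δ) :
    ∀ᶠ r : ℝ in 𝓝[>] 0, ∀ j ≤ b, ‖GG F ι π j (μ r, q (μ r, (r : ℂ)))‖ < δ := by
  have h1 : Tendsto (fun r : ℝ => (r : ℂ)) (𝓝[>] 0) (𝓝 0) := by
    have h2 : Tendsto (fun r : ℝ => (r : ℂ)) (𝓝 0) (𝓝 ((0 : ℝ) : ℂ)) :=
      Complex.continuous_ofReal.tendsto 0
    rw [Complex.ofReal_zero] at h2
    exact h2.mono_left nhdsWithin_le_nhds
  have h3 : Tendsto (fun r : ℝ => (μ r, (r : ℂ))) (𝓝[>] 0) (𝓝 (0 : ℂ × ℂ)) := by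
    rw [← Prod.mk_zero_zero]
    exact hμ.prodMk_nhds h1
  have h4 : Tendsto (fun r : ℝ => q (μ r, (r : ℂ))) (𝓝[>] 0) (𝓝 (0 : E)) := by
    have h5 : Tendsto q (𝓝 0) (𝓝 (q 0)) := hq.smooth.continuousAt.tendsto
    rw [hq.q0] at h5
    exact h5.comp h3
  have h6 : Tendsto (fun r : ℝ => (μ r, q (μ r, (r : ℂ)))) (𝓝[>] 0) (𝓝 (0 : ℂ × E)) := by
    rw [← Prod.mk_zero_zero]
    exact hμ.prodMk_nhds h4
  have h7 : ∀ j : ℕ, ∀ᶠ r : ℝ in 𝓝[>] 0, ‖GG F ι π j (μ r, q (μ r, (r : ℂ)))‖ < δ := by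
    intro j
    have h8 : Tendsto (GG F ι π j) (𝓝 0) (𝓝 (GG F ι π j 0)) :=
      (GG_smooth hF j).continuousAt.tendsto
    have h9 : GG F ι π j 0 = 0 := GG_zero hF.zero j 0
    rw [h9] at h8
    have h10 := (h8.comp h6).norm
    rw [norm_zero] at h10
    exact h10.eventually (gt_mem_nhds hδ)
  have h11 := (Set.finite_Iic b).eventually_all (l := 𝓝[>] (0 : ℝ))
    (p := fun j r => ‖GG F ι π j (μ r, q (μ r, ((r : ℝ) : ℂ)))‖ < δ)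
  filter_upwards [h11.2 fun j _ => h7 j] with r hr j hj
  exact hr j hj

end JT

end FB
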