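import Pool.Agent.H.MP_fb873c_an.J4a

/-!
# Part J14b: the points of the orbit are distinct
-/

namespace FB

namespace JT

open scoped Topology ContDiff
open Filter KT

variable {E : Type} [NormedAddCommGroup E] [NormedSpace ℝ E] {A : E →L[ℝ] E} {lam : ℂ} {b : ℕ}
  {ι : ℂ →L[ℝ] E} {π : E →L[ℝ] ℂ} {F : E → E} {q : ℂ × ℂ → E}

/-- The function `(μ, w) ↦ π (GG j (μ, q (μ, w)) - q (μ, w))` has the strict derivative
`(μ, w) ↦ (lam^j - 1) w` at `0`. -/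
theorem J14b_strict (hF : Loc F A) (h : RD A lam b ι π) (hq : LS F ι π b q) (j : ℕ) :
    HasStrictFDerivAt (fun p : ℂ × ℂ => π (GG F ι π j (p.1, q p) - q p))
      ((mulc (lam ^ j - 1)) ∘L ContinuousLinearMap.snd ℝ ℂ ℂ) 0 := by
  have h1 : HasStrictFDerivAt q (ι ∘L ContinuousLinearMap.snd ℝ ℂ ℂ) 0 := q_strict hF h hq
  have h0 : q 0 = 0 := hq.q0
  have h2 : HasStrictFDerivAt (fun p : ℂ × ℂ => (p.1, q p))
      ((ContinuousLinearMap.fst ℝ ℂ ℂ).prod (ι ∘L ContinuousLinearMap.snd ℝ ℂ ℂ)) 0 :=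
    ((ContinuousLinearMap.fst ℝ ℂ ℂ).hasStrictFDerivAt).prodMk h1
  have h3 : HasStrictFDerivAt (GG F ι π j) ((A ^ j) ∘L ContinuousLinearMap.snd ℝ ℂ E)
      ((fun p : ℂ × ℂ => (p.1, q p)) 0) := by
    have h4 : (fun p : ℂ × ℂ => (p.1, q p)) 0 = 0 := by
      simp only [h0]
      rfl
    rw [h4]
    exact GG_strict hF j
  have h5 := h3.comp (0 : ℂ × ℂ) h2
  have h6 := (π.hasStrictFDerivAt (x := (GG F ι π j ((0 : ℂ × ℂ).1, q 0) - q 0))).comp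
    (0 : ℂ × ℂ) (h5.sub h1)
  have h7 : π ∘L (((A ^ j) ∘L ContinuousLinearMap.snd ℝ ℂ E) ∘L
      ((ContinuousLinearMap.fst ℝ ℂ ℂ).prod (ι ∘L ContinuousLinearMap.snd ℝ ℂ ℂ)) -
      ι ∘L ContinuousLinearMap.snd ℝ ℂ ℂ) =
      (mulc (lam ^ j - 1)) ∘L ContinuousLinearMap.snd ℝ ℂ ℂ := by
    refine ContinuousLinearMap.ext fun v => ?_
    change π ((A ^ j) (ι v.2) - ι v.2) = (lam ^ j - 1) * v.2
    rw [map_sub, h.piA, h.pi]
    ring
  rw [h7] at h6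
  exact h6

/-- `q (μ, r) = ι r + o(r)` (`q_strict` at the points `(μ, r)`, `(μ, 0)`, `LS.zero`), `GG j (μ, x) = A^j x + o(x)` (`GG_strict` at `(μ, x)`, `(μ, 0)`, `GG_zero`); so
`π (GG j (μ r, q (μ r, r))) / r → lam^j`, and for `j = 0` the limit is `1 ≠ lam^j` for `0 < j < b` (`RD.prim`). -/
theorem orbit_distinct (hF : Loc F A) (h : RD A lam b ι π) (hq : LS F ι π b q) {μ : ℝ → ℂ}
    (hμ : Tendsto μ (𝓝[>] 0) (𝓝 0)) :
    ∀ᶠ r : ℝ in 𝓝[>] 0, ∀ j, 0 < j → j < b →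
      GG F ι π j (μ r, q (μ r, (r : ℂ))) ≠ q (μ r, (r : ℂ)) := by
  have hr : Tendsto (fun r : ℝ => (r : ℂ)) (𝓝[>] 0) (𝓝 0) := by
    have h1 : Tendsto (fun r : ℝ => (r : ℂ)) (𝓝 0) (𝓝 ((0 : ℝ) : ℂ)) :=
      Complex.continuous_ofReal.tendsto 0
    rw [Complex.ofReal_zero] at h1
    exact h1.mono_left nhdsWithin_le_nhds
  have hp : Tendsto (fun r : ℝ => ((μ r, (r : ℂ)), (μ r, (0 : ℂ)))) (𝓝[>] 0)
      (𝓝 ((0 : ℂ × ℂ), (0 : ℂ × ℂ))) := by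
    have h1 : Tendsto (fun r : ℝ => (μ r, (r : ℂ))) (𝓝[>] 0) (𝓝 ((0 : ℂ), (0 : ℂ))) :=
      hμ.prodMk_nhds hr
    have h2 : Tendsto (fun r : ℝ => (μ r, (0 : ℂ))) (𝓝[>] 0) (𝓝 ((0 : ℂ), (0 : ℂ))) :=
      hμ.prodMk_nhds tendsto_const_nhds
    exact h1.prodMk_nhds h2
  have hz : ∀ᶠ r : ℝ in 𝓝[>] 0, q (μ r, 0) = 0 := hμ.eventually hq.zero
  have hpos : ∀ᶠ r : ℝ in 𝓝[>] 0, 0 < r := eventually_mem_nhdsWithin
  have key : ∀ j ∈ Finset.range b, ∀ᶠ r : ℝ in 𝓝[>] 0, 0 < j →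
      GG F ι π j (μ r, q (μ r, (r : ℂ))) ≠ q (μ r, (r : ℂ)) := by
    intro j hj
    rcases Nat.eq_zero_or_pos j with h0 | h0
    · exact Eventually.of_forall fun r h1 => absurd h1 (by omega)
    · have hne : lam ^ j - 1 ≠ 0 := sub_ne_zero.2 (h.prim j h0 (Finset.mem_range.1 hj))
      have hc : 0 < ‖lam ^ j - 1‖ / 2 := by
        have := norm_pos_iff.2 hne
        linarith
      have hs := (J14b_strict hF h hq j).isLittleO
      have h1 := hp.eventually (hs.def hc)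
      filter_upwards [h1, hz, hpos] with r h2 h3 h4 _ h5
      simp only [h5, h3, GG_zero hF.zero, sub_self, map_zero, zero_sub] at h2
      change ‖-((lam ^ j - 1) * ((r : ℂ) - 0))‖ ≤
        ‖lam ^ j - 1‖ / 2 * ‖((μ r, (r : ℂ)) - (μ r, (0 : ℂ)) : ℂ × ℂ)‖ at h2
      have h6 : ‖((μ r, (r : ℂ)) - (μ r, (0 : ℂ)) : ℂ × ℂ)‖ = r := by
        rw [Prod.mk_sub_mk, sub_self, sub_zero, Prod.norm_def]
        simp only [norm_zero, Complex.norm_real, Real.norm_eq_abs]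
        rw [abs_of_pos h4, max_eq_right h4.le]
      rw [h6, norm_neg, norm_mul, sub_zero, Complex.norm_real, Real.norm_eq_abs,
        abs_of_pos h4] at h2
      have h7 : 0 < ‖lam ^ j - 1‖ * r := mul_pos (norm_pos_iff.2 hne) h4
      nlinarith
  have h8 := (eventually_all_finset (Finset.range b)).2 key
  filter_upwards [h8] with r h9 j h10 h11
  exact h9 j (Finset.mem_range.2 h11) h10

end JT

end FB
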