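import Pool.Agent.H.MP_fb873c_an.J0

/-!
# Part J15a1: the cubic perturbation
-/

namespace FB

namespace JT

open scoped Topology ContDiff
open Filter KT

variable {E : Type} [NormedAddCommGroup E] [NormedSpace ℝ E] {A : E →L[ℝ] E} {lam : ℂ} {b : ℕ}
  {ι : ℂ →L[ℝ] E} {π : E →L[ℝ] ℂ} {F : E → E} {q : ℂ × ℂ → E}

theorem hep_zero (ι : ℂ →L[ℝ] E) (π : E →L[ℝ] ℂ) (ε : ℝ) : hep ι π ε 0 = 0 := by
  simp [hep]

theorem hep_id (ι : ℂ →L[ℝ] E) (π : E →L[ℝ] ℂ) (x : E) : hep ι π 0 x = x := by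
  simp [hep]

theorem hmu_id (ι : ℂ →L[ℝ] E) (π : E →L[ℝ] ℂ) (x : E) : hmu ι π 0 x = x := by
  simp [hmu]

/-- The cubic map in all variables is smooth. -/
theorem J15a1_hep_smooth {V : Type} [NormedAddCommGroup V] [NormedSpace ℝ V] (ι : ℂ →L[ℝ] E)
    (π : E →L[ℝ] ℂ) {ε : V → ℝ} {x : V → E} (hε : ContDiff ℝ ∞ ε) (hx : ContDiff ℝ ∞ x) :
    ContDiff ℝ ∞ (fun p => hep ι π (ε p) (x p)) := by
  unfold hep
  have h1 : ContDiff ℝ ∞ (fun p => π (x p)) := π.contDiff.comp hx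
  have h2 : ContDiff ℝ ∞ (fun p => ε p * ‖π (x p)‖ ^ 2) := hε.mul (h1.norm_sq ℝ)
  have h3 : ContDiff ℝ ∞ (fun p => ((ε p * ‖π (x p)‖ ^ 2 : ℝ) : ℂ)) :=
    Complex.ofRealCLM.contDiff.comp h2
  exact hx.add (ι.contDiff.comp (h3.mul h1))

/-- The perturbation of both kinds is smooth in all variables (`‖π x‖ ^ 2` is smooth: `ContDiff.norm_sq`). -/
theorem pert_smooth (ι : ℂ →L[ℝ] E) (π : E →L[ℝ] ℂ) : ContDiff ℝ ∞
    (fun p : (ℂ × ℝ) × E => hep ι π p.1.2 (hmu ι π p.1.1 p.2) - p.2) := by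
  have h1 : ContDiff ℝ ∞ (fun p : (ℂ × ℝ) × E => hmu ι π p.1.1 p.2) := by
    unfold hmu
    exact contDiff_snd.add (ι.contDiff.comp ((contDiff_fst.comp contDiff_fst).mul
      (π.contDiff.comp contDiff_snd)))
  exact (J15a1_hep_smooth ι π (contDiff_snd.comp contDiff_fst) h1).sub contDiff_snd

/-- The derivative of the cubic map at the origin. -/
theorem J15a1_hasFDerivAt (ι : ℂ →L[ℝ] E) (π : E →L[ℝ] ℂ) (ε : ℝ) :
    HasFDerivAt (hep ι π ε) (ContinuousLinearMap.id ℝ E) 0 := by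
  have h1 : HasFDerivAt (fun x : E => π x) π 0 := π.hasFDerivAt
  have h2 := h1.norm_sq
  have h3 : HasFDerivAt (fun x : E => ε * ‖π x‖ ^ 2) (0 : E →L[ℝ] ℝ) 0 := by
    have h4 := h2.const_mul ε
    refine h4.congr_fderiv ?_
    ext v
    simp
  have h5 : HasFDerivAt (fun x : E => ((ε * ‖π x‖ ^ 2 : ℝ) : ℂ)) (0 : E →L[ℝ] ℂ) 0 := by
    have h6 := Complex.ofRealCLM.hasFDerivAt.comp (0 : E) h3
    refine h6.congr_fderiv ?_
    ext v
    simp
  have h7 := h5.mul h1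
  have h8 := ι.hasFDerivAt.comp (0 : E) h7
  have h9 := (hasFDerivAt_id (0 : E)).add h8
  refine h9.congr_fderiv ?_
  ext v
  simp

/-- `hep` is smooth with `hep 0 = 0` and derivative `1` at `0` (`hep x - x = O(x^3)`). -/
theorem loc_hep (hF : Loc F A) (ι : ℂ →L[ℝ] E) (π : E →L[ℝ] ℂ) (ε : ℝ) :
    Loc (fun y => F (hep ι π ε y)) A := by
  have hz : hep ι π ε 0 = 0 := hep_zero ι π ε
  have hs : ContDiff ℝ ∞ (fun x : E => hep ι π ε x) :=
    J15a1_hep_smooth ι π contDiff_const contDiff_id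
  refine ⟨?_, ?_, ?_⟩
  · have h1 : ContDiffAt ℝ ∞ F (hep ι π ε 0) := by
      rw [hz]
      exact hF.smooth
    exact h1.comp (0 : E) hs.contDiffAt
  · simp only [hz, hF.zero]
  · have h1 : HasFDerivAt F A 0 := by
      have h2 := (hF.smooth.differentiableAt (by simp)).hasFDerivAt
      rwa [hF.der] at h2
    have h3 : HasFDerivAt F A (hep ι π ε 0) := by
      rw [hz]
      exact h1
    have h4 := h3.comp (0 : E) (J15a1_hasFDerivAt ι π ε)
    have h5 := h4.fderiv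
    rw [ContinuousLinearMap.comp_id] at h5
    exact h5

end JT

end FB
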