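import Pool.Agent.H.MP_fb873c_an.J1
import Pool.Agent.H.MP_fb873c_an.J15a1

/-!
# Part J15a: the cubic perturbation: iterates
-/

namespace FB

namespace JT

open scoped Topology ContDiff
open Filter KT

variable {E : Type} [NormedAddCommGroup E] [NormedSpace ℝ E] {A : E →L[ℝ] E} {lam : ℂ} {b : ℕ}
  {ι : ℂ →L[ℝ] E} {π : E →L[ℝ] ℂ} {F : E → E} {q : ℂ × ℂ → E}

/-- The cube `w ↦ ‖w‖ ^ 2 w` is locally Lipschitz. -/
theorem J15a_cube (w p : ℂ) :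
    ‖((‖w‖ ^ 2 : ℝ) : ℂ) * w - ((‖p‖ ^ 2 : ℝ) : ℂ) * p‖ ≤
      ‖w - p‖ * (‖w‖ ^ 2 + ‖w‖ * ‖p‖ + ‖p‖ ^ 2) := by
  have e : ((‖w‖ ^ 2 : ℝ) : ℂ) * w - ((‖p‖ ^ 2 : ℝ) : ℂ) * p =
      ((‖w‖ ^ 2 : ℝ) : ℂ) * (w - p) + (((‖w‖ - ‖p‖) * (‖w‖ + ‖p‖) : ℝ) : ℂ) * p := by
    push_cast
    ring
  rw [e]
  have h1 : ‖((‖w‖ ^ 2 : ℝ) : ℂ) * (w - p)‖ = ‖w‖ ^ 2 * ‖w - p‖ := by
    rw [norm_mul, Complex.norm_real, Real.norm_eq_abs, abs_of_nonneg (by positivity)]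
  have h2 : ‖(((‖w‖ - ‖p‖) * (‖w‖ + ‖p‖) : ℝ) : ℂ) * p‖ ≤ ‖w - p‖ * (‖w‖ + ‖p‖) * ‖p‖ := by
    rw [norm_mul, Complex.norm_real, Real.norm_eq_abs, abs_mul,
      abs_of_nonneg (by positivity : (0 : ℝ) ≤ ‖w‖ + ‖p‖)]
    gcongr
    exact abs_norm_sub_norm_le w p
  calc _ ≤ ‖w‖ ^ 2 * ‖w - p‖ + ‖w - p‖ * (‖w‖ + ‖p‖) * ‖p‖ :=
        (norm_add_le _ _).trans (by rw [h1]; gcongr)
    _ = ‖w - p‖ * (‖w‖ ^ 2 + ‖w‖ * ‖p‖ + ‖p‖ ^ 2) := by ring

/-- Induction on `j`.  Let `Fe = F ∘ hep`, `y = Fe^[j] x`, `Δ = y - F^[j] x = ι (j ε ‖π x‖^2 lam^j π x) + o(x^3)` (induction).  `y = A^j x + O(x^2)` (the iterate is smooth, derivative `A^j`), so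
`π y = lam^j π x + O(x^2)` and `ε ‖π y‖^2 π y = ε ‖π x‖^2 lam^j π x + O(x^4)` (`‖lam‖ = 1`): `hep y = F^[j] x + Δ'`, `Δ' = ι ((j+1) ε ‖π x‖^2 lam^j π x) + o(x^3)`.
(It is enough that `y = A^j x + o(x)`: then `π y = lam^j π x + o(x)` and `ε ‖π y‖^2 π y = ε ‖π x‖^2 lam^j π x + o(x^3)`.)
`F` is strictly differentiable at `0`: `F (F^[j] x + Δ') = F^[j+1] x + A Δ' + o(Δ')`, and `A Δ' = ι ((j+1) ε ‖π x‖^2 lam^(j+1) π x) + o(x^3)`, `o(Δ') = o(x^3)`. -/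
theorem iter_hep (hF : Loc F A) (h : RD A lam b ι π) (ε : ℝ) (j : ℕ) :
    (fun x => (fun y => F (hep ι π ε y))^[j] x - F^[j] x -
      ι (((j * ε * ‖π x‖ ^ 2 : ℝ) : ℂ) * (lam ^ j * π x))) =o[𝓝 0] (fun x => ‖x‖ ^ 3) := by
  have hFe : Loc (fun y => F (hep ι π ε y)) A := loc_hep hF ι π ε
  have hd : HasFDerivAt (fun y => F (hep ι π ε y)) A 0 := by
    have := (hFe.smooth.differentiableAt (by simp)).hasFDerivAt
    rwa [hFe.der] at this
  have hs : HasStrictFDerivAt F A 0 := by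
    have := hF.smooth.hasStrictFDerivAt (by simp)
    rwa [hF.der] at this
  have hdF : HasFDerivAt F A 0 := hs.hasFDerivAt
  induction j with
  | zero => simp
  | succ j ih =>
    set Fe : E → E := fun y => F (hep ι π ε y) with hFedef
    -- the iterates
    have hdj : HasFDerivAt (Fe^[j]) (A ^ j) 0 := hd.iterate hFe.zero j
    have hdFj : HasFDerivAt (F^[j]) (A ^ j) 0 := hdF.iterate hF.zero j
    have h0e : Fe^[j] 0 = 0 := Function.iterate_fixed hFe.zero j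
    have h0F : F^[j] 0 = 0 := Function.iterate_fixed hF.zero j
    have hy0 : Tendsto (Fe^[j]) (𝓝 0) (𝓝 0) := by
      have := hdj.continuousAt.tendsto
      rwa [h0e] at this
    have hz0 : Tendsto (F^[j]) (𝓝 0) (𝓝 0) := by
      have := hdFj.continuousAt.tendsto
      rwa [h0F] at this
    have hyo : (fun x => Fe^[j] x - (A ^ j) x) =o[𝓝 0] (fun x => x) := by
      have := hdj.isLittleO
      simpa [h0e] using this
    have hr : (fun x => π (Fe^[j] x) - lam ^ j * π x) =o[𝓝 0] (fun x => ‖x‖) := by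
      have h1 : (fun x => π (Fe^[j] x - (A ^ j) x)) =o[𝓝 0] (fun x => x) :=
        (π.isBigO_comp _ _).trans_isLittleO hyo
      have h2 := h1.norm_right
      refine h2.congr_left (fun x => ?_)
      rw [map_sub, h.piA]
    -- bounds for `π y` and `lam ^ j π x`
    have hpx : (fun x => lam ^ j * π x) =O[𝓝 0] (fun x : E => ‖x‖) := by
      have : (fun x : E => π x) =O[𝓝 0] (fun x : E => ‖x‖) := (π.isBigO_id _).norm_right
      exact this.const_mul_left _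
    have hpy : (fun x => π (Fe^[j] x)) =O[𝓝 0] (fun x : E => ‖x‖) := by
      have := hr.isBigO.add hpx
      simpa using this
    have hn : ∀ x : E, ‖lam ^ j * π x‖ = ‖π x‖ := by
      intro x
      rw [norm_mul, norm_pow, h.norm, one_pow, one_mul]
    -- the cubic terms
    have hcub : (fun x => ((‖π (Fe^[j] x)‖ ^ 2 : ℝ) : ℂ) * π (Fe^[j] x) -
        ((‖lam ^ j * π x‖ ^ 2 : ℝ) : ℂ) * (lam ^ j * π x)) =o[𝓝 0] (fun x : E => ‖x‖ ^ 3) := by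
      have hb : (fun x => ((‖π (Fe^[j] x)‖ ^ 2 : ℝ) : ℂ) * π (Fe^[j] x) -
          ((‖lam ^ j * π x‖ ^ 2 : ℝ) : ℂ) * (lam ^ j * π x)) =O[𝓝 0]
          (fun x => ‖π (Fe^[j] x) - lam ^ j * π x‖ * (‖π (Fe^[j] x)‖ ^ 2 +
            ‖π (Fe^[j] x)‖ * ‖lam ^ j * π x‖ + ‖lam ^ j * π x‖ ^ 2)) := by
        refine Asymptotics.IsBigO.of_bound 1 (Eventually.of_forall (fun x => ?_))
        rw [one_mul, Real.norm_of_nonneg (by positivity)]
        exact J15a_cube _ _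
      refine hb.trans_isLittleO ?_
      have hq : (fun x => ‖π (Fe^[j] x)‖ ^ 2 +
            ‖π (Fe^[j] x)‖ * ‖lam ^ j * π x‖ + ‖lam ^ j * π x‖ ^ 2) =O[𝓝 0]
            (fun x : E => ‖x‖ ^ 2) := by
        have a1 : (fun x => ‖π (Fe^[j] x)‖ ^ 2) =O[𝓝 0] (fun x : E => ‖x‖ ^ 2) :=
          hpy.norm_left.pow 2
        have a2 : (fun x => ‖π (Fe^[j] x)‖ * ‖lam ^ j * π x‖) =O[𝓝 0] (fun x : E => ‖x‖ ^ 2) := by
          have := hpy.norm_left.mul hpx.norm_left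
          exact this.congr_right (fun x => by ring)
        have a3 : (fun x => ‖lam ^ j * π x‖ ^ 2) =O[𝓝 0] (fun x : E => ‖x‖ ^ 2) :=
          hpx.norm_left.pow 2
        exact (a1.add a2).add a3
      have := hr.norm_left.mul_isBigO hq
      exact this.congr_right (fun x => by ring)
    -- `Δ'`
    have hΔ : (fun x => hep ι π ε (Fe^[j] x) - F^[j] x -
        ι ((((j + 1 : ℝ) * ε * ‖π x‖ ^ 2 : ℝ) : ℂ) * (lam ^ j * π x))) =o[𝓝 0]
        (fun x => ‖x‖ ^ 3) := by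
      have h3 : (fun x => ι ((ε : ℂ) * (((‖π (Fe^[j] x)‖ ^ 2 : ℝ) : ℂ) * π (Fe^[j] x) -
        ((‖lam ^ j * π x‖ ^ 2 : ℝ) : ℂ) * (lam ^ j * π x)))) =o[𝓝 0] (fun x : E => ‖x‖ ^ 3) :=
        (ι.isBigO_comp _ _).trans_isLittleO (hcub.const_mul_left _)
      refine (ih.add h3).congr_left (fun x => ?_)
      simp only [hep]
      rw [hn]
      have e1 : ι ((ε : ℂ) * (((‖π (Fe^[j] x)‖ ^ 2 : ℝ) : ℂ) * π (Fe^[j] x) -
          ((‖π x‖ ^ 2 : ℝ) : ℂ) * (lam ^ j * π x))) =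
          ι (((ε * ‖π (Fe^[j] x)‖ ^ 2 : ℝ) : ℂ) * π (Fe^[j] x)) -
            ι (((ε * ‖π x‖ ^ 2 : ℝ) : ℂ) * (lam ^ j * π x)) := by
        rw [← map_sub]
        congr 1
        push_cast
        ring
      have e2 : ι ((((j + 1 : ℝ) * ε * ‖π x‖ ^ 2 : ℝ) : ℂ) * (lam ^ j * π x)) =
          ι (((j * ε * ‖π x‖ ^ 2 : ℝ) : ℂ) * (lam ^ j * π x)) +
            ι (((ε * ‖π x‖ ^ 2 : ℝ) : ℂ) * (lam ^ j * π x)) := by
        rw [← map_add]
        congr 1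
        push_cast
        ring
      rw [e1, e2]
      abel
    have hmain : (fun x => ι ((((j + 1 : ℝ) * ε * ‖π x‖ ^ 2 : ℝ) : ℂ) * (lam ^ j * π x)))
        =O[𝓝 0] (fun x : E => ‖x‖ ^ 3) := by
      refine (ι.isBigO_comp _ _).trans ?_
      have a1 : (fun x : E => (((j + 1 : ℝ) * ε * ‖π x‖ ^ 2 : ℝ) : ℂ)) =O[𝓝 0]
          (fun x : E => ‖x‖ ^ 2) := by
        have b1 : (fun x : E => ‖π x‖ ^ 2) =O[𝓝 0] (fun x : E => ‖x‖ ^ 2) :=
          ((π.isBigO_id _).norm_right.norm_left).pow 2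
        have b2 := b1.const_mul_left ((j + 1 : ℝ) * ε)
        refine Asymptotics.IsBigO.trans ?_ b2
        refine Asymptotics.IsBigO.of_bound 1 (Eventually.of_forall (fun x => ?_))
        rw [Complex.norm_real, one_mul]
      have := a1.mul hpx
      exact this.congr_right (fun x => by ring)
    have hΔO : (fun x => hep ι π ε (Fe^[j] x) - F^[j] x) =O[𝓝 0] (fun x : E => ‖x‖ ^ 3) := by
      have := hΔ.isBigO.add hmain
      simpa using this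
    -- `hep y → 0`
    have hu0 : Tendsto (fun x => hep ι π ε (Fe^[j] x)) (𝓝 0) (𝓝 0) := by
      have h3 : Tendsto (fun x : E => ‖x‖ ^ 3) (𝓝 0) (𝓝 0) := by
        have : Continuous (fun x : E => ‖x‖ ^ 3) := by fun_prop
        have := this.tendsto 0
        simpa using this
      have h4 := (hΔO.trans_tendsto h3).add hz0
      simpa using h4
    -- strict differentiability
    have hst : (fun x => F (hep ι π ε (Fe^[j] x)) - F (F^[j] x) -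
        A (hep ι π ε (Fe^[j] x) - F^[j] x)) =o[𝓝 0] (fun x : E => ‖x‖ ^ 3) := by
      have h1 := hs.isLittleO
      have h2 : Tendsto (fun x => (hep ι π ε (Fe^[j] x), F^[j] x)) (𝓝 0) (𝓝 ((0 : E), (0 : E))) := by
        rw [nhds_prod_eq]
        exact hu0.prodMk hz0
      exact (h1.comp_tendsto h2).trans_isBigO hΔO
    have hA : (fun x => A (hep ι π ε (Fe^[j] x) - F^[j] x -
        ι ((((j + 1 : ℝ) * ε * ‖π x‖ ^ 2 : ℝ) : ℂ) * (lam ^ j * π x)))) =o[𝓝 0]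
        (fun x : E => ‖x‖ ^ 3) := (A.isBigO_comp _ _).trans_isLittleO hΔ
    refine (hst.add hA).congr_left (fun x => ?_)
    rw [Function.iterate_succ_apply', Function.iterate_succ_apply', map_sub A _ (ι _), h.Ai]
    have e3 : lam * ((((j + 1 : ℝ) * ε * ‖π x‖ ^ 2 : ℝ) : ℂ) * (lam ^ j * π x)) =
        ((((j + 1 : ℕ) : ℝ) * ε * ‖π x‖ ^ 2 : ℝ) : ℂ) * (lam ^ (j + 1) * π x) := by
      push_cast
      ring
    rw [e3]
    simp only [hFedef]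
    abel

end JT

end FB
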