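import Pool.Agent.H.MP_fb873c_an.J4a

/-!
# Part J5a: approximate solutions
-/

namespace FB

namespace JT

open scoped Topology ContDiff
open Filter KT

variable {E : Type} [NormedAddCommGroup E] [NormedSpace ℝ E] {A : E →L[ℝ] E} {lam : ℂ} {b : ℕ}
  {ι : ℂ →L[ℝ] E} {π : E →L[ℝ] ℂ} {F : E → E} {q : ℂ × ℂ → E}

/-- `q (0, w) = ι w + o(w)` (`q_deriv`), `F y = A y + o(y)`, `π A ι w = lam w`. -/
theorem step_w (hF : Loc F A) (h : RD A lam b ι π) (hq : LS F ι π b q) :
    (fun w => π (F (q (0, w))) - lam * w) =o[𝓝 0] (fun w : ℂ => w) := by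
  have hq0 : q (0, (0 : ℂ)) = 0 := hq.q0
  have hFd : HasFDerivAt F A 0 := by
    have h1 : DifferentiableAt ℝ F 0 := hF.smooth.differentiableAt (by simp)
    have h2 := h1.hasFDerivAt
    rwa [hF.der] at h2
  have hFd' : HasFDerivAt F A (q (0, (0 : ℂ))) := by rwa [hq0]
  have h3 : HasFDerivAt (fun w : ℂ => F (q (0, w))) (A ∘L ι) 0 :=
    HasFDerivAt.comp (0 : ℂ) hFd' (q_deriv hF h hq)
  have h4 : HasFDerivAt (fun w : ℂ => π (F (q (0, w)))) (π ∘L (A ∘L ι)) 0 :=
    π.hasFDerivAt.comp (0 : ℂ) h3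
  have h5 := h4.isLittleO
  have h6 : π (F (q (0, (0 : ℂ)))) = 0 := by rw [hq0, hF.zero, map_zero]
  have h7 : ∀ w : ℂ, π (A (ι w)) = lam * w := fun w => by rw [h.pA, h.pi]
  simpa [h6, h7] using h5

/-- Write `G z = GG b (0, z)`, `D = G y - y - ι ρ = o(α)`.  `G y - y - ι π (G y - y) = D - ι π D = o(α)` (`π ι = 1`), so by `LS.unq` `y - q (0, π y) = o(α)`.
The map `z ↦ G z - z` is Lipschitz near `0` (`GG_smooth`; `q (0, π y) → 0`), so `RR (0, π y) = π (G (q (0, π y)) - q (0, π y)) = π (G y - y) + o(α) = ρ + o(α)` (`LS.pi` at (0, π y)). -/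
theorem LS_approx {κ : Type*} {l : Filter κ} (hF : Loc F A) (h : RD A lam b ι π)
    (hq : LS F ι π b q) {y : κ → E} {ρ : κ → ℂ} {α : κ → ℝ} (hy : Tendsto y l (𝓝 0))
    (h1 : (fun i => GG F ι π b (0, y i) - y i - ι (ρ i)) =o[l] α) :
    (fun i => RR F ι π b q (0, π (y i)) - ρ i) =o[l] α := by
  set D : κ → E := fun i => GG F ι π b (0, y i) - y i - ι (ρ i) with hD
  have hπD : (fun i => π (D i)) =o[l] α := (π.isBigO_comp D l).trans_isLittleO h1
  have hιπD : (fun i => ι (π (D i))) =o[l] α :=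
    (ι.isBigO_comp (fun i => π (D i)) l).trans_isLittleO hπD
  have hDD : (fun i => D i - ι (π (D i))) =o[l] α := h1.sub hιπD
  have e1 : ∀ i, GG F ι π b (0, y i) - y i - ι (π (GG F ι π b (0, y i) - y i)) =
      D i - ι (π (D i)) := by
    intro i
    have e2 : GG F ι π b (0, y i) - y i = D i + ι (ρ i) := by simp [hD]
    rw [e2, map_add, h.pi, map_add]
    abel
  -- convergence of `π y` and of `q (0, π y)`
  have hπy : Tendsto (fun i => π (y i)) l (𝓝 0) := by
    have h2 := (π.continuous.tendsto (0 : E)).comp hy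
    rw [map_zero] at h2
    exact h2
  have hp : Tendsto (fun i => ((0 : ℂ), π (y i))) l (𝓝 (0 : ℂ × ℂ)) := by
    have h2 := (tendsto_const_nhds (x := (0 : ℂ)) (f := l)).prodMk_nhds hπy
    exact h2
  have hqy : Tendsto (fun i => q (0, π (y i))) l (𝓝 0) := by
    have h2 : ContinuousAt q 0 := hq.smooth.continuousAt
    have h3 := h2.tendsto.comp hp
    rw [hq.q0] at h3
    exact h3
  -- the distance of `y` to the graph
  obtain ⟨C, hC⟩ := hq.unq
  have hyq : (fun i => y i - q (0, π (y i))) =o[l] α := by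
    have h2 : (fun i => y i - q (0, π (y i))) =O[l] (fun i => D i - ι (π (D i))) := by
      refine Asymptotics.IsBigO.of_bound C ?_
      filter_upwards [hy.eventually hC] with i hi
      rw [e1 i] at hi
      exact hi
    exact h2.trans_isLittleO hDD
  -- the Lipschitz estimate
  have hG : ContDiffAt ℝ 1 (fun z : E => GG F ι π b ((0 : ℂ), z) - z) 0 := by
    have h2 : ContDiffAt ℝ 1 (GG F ι π b) ((0 : ℂ), (0 : E)) :=
      (GG_smooth (ι := ι) (π := π) hF b).of_le (by norm_cast)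
    have h3 : ContDiffAt ℝ 1 (fun z : E => ((0 : ℂ), z)) 0 :=
      contDiffAt_const.prodMk contDiffAt_id
    exact (h2.comp (0 : E) h3).sub contDiffAt_id
  obtain ⟨K, t, ht, hK⟩ := hG.exists_lipschitzOnWith
  have hL : (fun i => (GG F ι π b (0, q (0, π (y i))) - q (0, π (y i))) -
      (GG F ι π b (0, y i) - y i)) =o[l] α := by
    have h2 : (fun i => (GG F ι π b (0, q (0, π (y i))) - q (0, π (y i))) -
        (GG F ι π b (0, y i) - y i)) =O[l] (fun i => y i - q (0, π (y i))) := by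
      refine Asymptotics.IsBigO.of_bound K ?_
      filter_upwards [hy.eventually ht, hqy.eventually ht] with i hi1 hi2
      have h3 := hK.dist_le_mul _ hi2 _ hi1
      rw [dist_eq_norm, dist_eq_norm] at h3
      rw [← norm_neg (y i - q (0, π (y i))), neg_sub]
      exact h3
    exact h2.trans_isLittleO hyq
  have hπL := (π.isBigO_comp (fun i => (GG F ι π b (0, q (0, π (y i))) - q (0, π (y i))) -
      (GG F ι π b (0, y i) - y i)) l).trans_isLittleO hL
  have hsum := hπL.add hπD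
  refine hsum.congr' ?_ (EventuallyEq.refl _ _)
  filter_upwards [hp.eventually hq.pi] with i hi
  have hi' : π (q (0, π (y i))) = π (y i) := hi
  simp only [RR, hD, map_sub, h.pi, hi']
  ring

end JT

end FB
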