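import Pool.Agent.H.MP_fb873c_an.J15a
import Pool.Agent.H.MP_fb873c_an.J5a

/-!
# Part J15b: the cubic perturbation: change of the coefficient
-/

namespace FB

namespace JT

open scoped Topology ContDiff
open Filter KT

variable {E : Type} [NormedAddCommGroup E] [NormedSpace ℝ E] {A : E →L[ℝ] E} {lam : ℂ} {b : ℕ}
  {ι : ℂ →L[ℝ] E} {π : E →L[ℝ] ℂ} {F : E → E} {q : ℂ × ℂ → E}

/-- Write `G = F^[b]`, `Ge = (F ∘ hep)^[b]`; `Ge x = G x + ι (b ε ‖π x‖^2 π x) + o(x^3)` (`iter_hep` with `j = b`, `lam^b = 1`; `GG_self`).  Let `y = q' (0, r)`, so `π y = r`, `y = ι r + o(r)` (`q_deriv` for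
`F ∘ hep`, `loc_hep`), `Ge y = y + ι R'`, `R' = RR' (0, r)` (`LS.eq` for `q'`).  So `G y - y - ι (R' - b ε r^3) = o(r^3)`, and `LS_approx` for `F` (filter `𝓝[>] 0`, `α r = r^3`) gives
`RR (0, r) = R' - b ε r^3 + o(r^3)`.  Divide by `r^3`. -/
theorem coeff_hep (hF : Loc F A) (h : RD A lam b ι π) (hq : LS F ι π b q) {c : ℂ}
    (hc : Tendsto (fun r : ℝ => RR F ι π b q (0, (r : ℂ)) / (r : ℂ) ^ 3) (𝓝[>] 0) (𝓝 c)) {ε : ℝ}
    {q' : ℂ × ℂ → E} (hq' : LS (fun y => F (hep ι π ε y)) ι π b q') :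
    Tendsto (fun r : ℝ => RR (fun y => F (hep ι π ε y)) ι π b q' (0, (r : ℂ)) / (r : ℂ) ^ 3)
      (𝓝[>] 0) (𝓝 (c + b * ε)) := by
  set Fe : E → E := fun y => F (hep ι π ε y) with hFe_def
  have hFe : Loc Fe A := loc_hep hF ι π ε
  set y : ℝ → E := fun r => q' (0, (r : ℂ)) with hy_def
  set R' : ℝ → ℂ := fun r => RR Fe ι π b q' (0, (r : ℂ)) with hR'_def
  -- limits
  have hr0 : Tendsto (fun r : ℝ => (r : ℂ)) (𝓝[>] 0) (𝓝 0) := by
    have h1 : Continuous (fun r : ℝ => (r : ℂ)) := Complex.continuous_ofReal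
    have h2 := (h1.tendsto 0).mono_left (nhdsWithin_le_nhds (s := Set.Ioi 0))
    simpa using h2
  have hp : Tendsto (fun r : ℝ => ((0 : ℂ), (r : ℂ))) (𝓝[>] 0) (𝓝 (0 : ℂ × ℂ)) :=
    (tendsto_const_nhds (x := (0 : ℂ)) (f := 𝓝[>] (0 : ℝ))).prodMk_nhds hr0
  have hy0 : Tendsto y (𝓝[>] 0) (𝓝 0) := by
    have h3 := hq'.smooth.continuousAt.tendsto.comp hp
    rw [hq'.q0] at h3
    exact h3
  have hpi : ∀ᶠ r : ℝ in 𝓝[>] 0, π (y r) = (r : ℂ) := hp.eventually hq'.pi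
  have heq : ∀ᶠ r : ℝ in 𝓝[>] 0, GG Fe ι π b (0, y r) = y r + ι (R' r) := hp.eventually hq'.eq
  -- `y r = O(r)`
  have hyO : y =O[𝓝[>] 0] (fun r : ℝ => r) := by
    have h1 := (q_deriv hFe h hq').isBigO_sub
    have h2 := h1.comp_tendsto hr0
    have h3 : q' (0, (0 : ℂ)) = 0 := hq'.q0
    have h4 : y =O[𝓝[>] 0] (fun r : ℝ => (r : ℂ)) := by
      refine h2.congr ?_ ?_
      · intro r
        simp only [Function.comp_apply, h3, sub_zero, hy_def]
      · intro r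
        simp only [Function.comp_apply, sub_zero]
    refine h4.trans ?_
    refine Asymptotics.IsBigO.of_bound 1 (Eventually.of_forall (fun r => ?_))
    simp
  have hα : (fun r : ℝ => ‖y r‖ ^ 3) =O[𝓝[>] 0] (fun r : ℝ => r ^ 3) := hyO.norm_left.pow 3
  -- the iterates
  have hit := ((iter_hep hF h ε b).comp_tendsto hy0).trans_isBigO hα
  have hD : (fun r : ℝ => GG F ι π b (0, y r) - y r -
      ι (R' r - ((b * ε * r ^ 3 : ℝ) : ℂ))) =o[𝓝[>] 0] (fun r : ℝ => r ^ 3) := by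
    refine hit.neg_left.congr' ?_ (EventuallyEq.refl _ _)
    filter_upwards [hpi, heq, self_mem_nhdsWithin] with r h1 h2 h3
    have h3' : (0 : ℝ) < r := h3
    rw [GG_self] at h2 ⊢
    simp only [Function.comp_apply]
    have e1 : (fun y => F (hep ι π ε y))^[b] (y r) = y r + ι (R' r) := h2
    rw [e1, h1, h.one, one_mul]
    have e2 : ‖(r : ℂ)‖ = r := by
      rw [Complex.norm_real, Real.norm_eq_abs, abs_of_pos h3']
    rw [e2, map_sub]
    have e3 : ((b * ε * r ^ 2 : ℝ) : ℂ) * (r : ℂ) = ((b * ε * r ^ 3 : ℝ) : ℂ) := by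
      push_cast
      ring
    rw [e3]
    abel
  have hmain := LS_approx hF h hq hy0 hD
  have hdiv : Tendsto (fun r : ℝ => (RR F ι π b q (0, (r : ℂ)) -
      (R' r - ((b * ε * r ^ 3 : ℝ) : ℂ))) / (r : ℂ) ^ 3) (𝓝[>] 0) (𝓝 0) := by
    have h1 : (fun r : ℝ => RR F ι π b q (0, (r : ℂ)) -
        (R' r - ((b * ε * r ^ 3 : ℝ) : ℂ))) =o[𝓝[>] 0] (fun r : ℝ => (r : ℂ) ^ 3) := by
      refine Asymptotics.IsLittleO.trans_isBigO (g := fun r : ℝ => r ^ 3) ?_ ?_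
      · refine hmain.congr' ?_ (EventuallyEq.refl _ _)
        filter_upwards [hpi] with r h1
        rw [h1]
      · refine Asymptotics.IsBigO.of_bound 1 (Eventually.of_forall (fun r => ?_))
        simp
    exact h1.tendsto_div_nhds_zero
  have hfin := (hc.sub hdiv).add_const ((b : ℂ) * ε)
  rw [sub_zero] at hfin
  refine hfin.congr' ?_
  filter_upwards [self_mem_nhdsWithin] with r h3
  have h3' : (r : ℂ) ≠ 0 := by
    have h4 : (0 : ℝ) < r := h3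
    exact_mod_cast h4.ne'
  have h4 : ((b * ε * r ^ 3 : ℝ) : ℂ) = b * ε * (r : ℂ) ^ 3 := by
    push_cast
    ring
  rw [h4]
  field_simp
  ring

end JT

end FB
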