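import Pool.Agent.H.MP_fb873c_an.J10
import Pool.Agent.H.MP_fb873c_an.J11
import Pool.Agent.H.MP_fb873c_an.J13b
import Pool.Agent.H.MP_fb873c_an.J14a
import Pool.Agent.H.MP_fb873c_an.J14b

/-!
# Part J16a: the local theorem for one map
-/

namespace FB

namespace JT

open scoped Topology ContDiff
open Filter KT

variable {n : ℕ} {A : Er n →L[ℝ] Er n} {lam : ℂ} {b : ℕ} {ι : ℂ →L[ℝ] Er n} {π : Er n →L[ℝ] ℂ}
  {F : Er n → Er n} {q : ℂ × ℂ → Er n}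

/-- One map with `Re c ≠ 0`. `exists_mu` gives `m`, `μ r = r^2 m r → 0`; `QQ_limit`, `simple_at`, `orbit_small`, `orbit_distinct`; `GG b (μ r, q) = q + ι 0` by `LS.eq`.  Take `r > 0` small. -/
theorem local_main (hF : Loc F A) (h : RD A lam b ι π) (hq : LS F ι π b q) {c : ℂ}
    (hc : c.re ≠ 0)
    (h1 : Tendsto (fun r : ℝ => RR F ι π b q (0, (r : ℂ)) / (r : ℂ) ^ 3) (𝓝[>] 0) (𝓝 c))
    (h2 : Tendsto (fun r : ℝ => (1 / r ^ 2 : ℝ) • QQ F ι π b q (0, (r : ℂ))) (𝓝[>] 0)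
      (𝓝 (Tc c))) {δ : ℝ} (hδ : 0 < δ) :
    ∃ (μ : ℂ) (x : Er n), ‖μ‖ < δ ∧ (∀ j ≤ b, ‖GG F ι π j (μ, x)‖ < δ) ∧
      GG F ι π b (μ, x) = x ∧ (∀ j, 0 < j → j < b → GG F ι π j (μ, x) ≠ x) ∧
      SimpleReal (fderiv ℝ (fun y => GG F ι π b (μ, y)) x) := by
  obtain ⟨m, hm, hR⟩ := exists_mu hF h hq h1
  have hr0 : Tendsto (fun r : ℝ => (r : ℂ)) (𝓝[>] 0) (𝓝 0) := by
    have h3 : Tendsto (fun r : ℝ => (r : ℂ)) (𝓝 0) (𝓝 ((0 : ℝ) : ℂ)) :=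
      Complex.continuous_ofReal.tendsto 0
    rw [Complex.ofReal_zero] at h3
    exact h3.mono_left nhdsWithin_le_nhds
  have hμ : Tendsto (fun r : ℝ => (r : ℂ) ^ 2 * m r) (𝓝[>] 0) (𝓝 0) := by
    have h3 := (hr0.pow 2).mul hm
    rwa [zero_pow two_ne_zero, zero_mul] at h3
  have hQ := QQ_limit hF h hq h2 hm
  have hS := simple_at hF h hq hc hμ hQ
  have ho := orbit_small hF hq hμ hδ
  have hd := orbit_distinct hF h hq hμ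
  have hp : Tendsto (fun r : ℝ => (((r : ℂ) ^ 2 * m r, (r : ℂ)) : ℂ × ℂ)) (𝓝[>] 0)
      (𝓝 (0 : ℂ × ℂ)) := hμ.prodMk_nhds hr0
  have he := hp.eventually hq.eq
  have hn : ∀ᶠ r : ℝ in 𝓝[>] 0, ‖(r : ℂ) ^ 2 * m r‖ < δ := by
    have h3 := hμ.norm
    rw [norm_zero] at h3
    exact h3.eventually (gt_mem_nhds hδ)
  obtain ⟨r, e1, e2, e3, e4, e5, e6⟩ :=
    (hR.and (hS.and (ho.and (hd.and (he.and hn))))).exists
  refine ⟨(r : ℂ) ^ 2 * m r, q ((r : ℂ) ^ 2 * m r, (r : ℂ)), e6, e3, ?_, e4, e2⟩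
  rw [e5, e1, map_zero, add_zero]

end JT

end FB
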