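import Pool.Agent.H.MP_fb873c_an.J3a

/-!
# Part J3: Liapunov-Schmidt reduction
-/

namespace FB

namespace JT

open scoped Topology ContDiff
open Filter KT

variable {E : Type} [NormedAddCommGroup E] [NormedSpace ℝ E] {A : E →L[ℝ] E} {lam : ℂ} {b : ℕ}
  {ι : ℂ →L[ℝ] E} {π : E →L[ℝ] ℂ} {F : E → E} {q : ℂ × ℂ → E}

/-- The algebra of the equation `Psi u = (μ, ι w)`. -/
theorem J3_alg (h : RD A lam b ι π) {u : ℂ × E} {μ w : ℂ} (hu : Psi F ι π b u = (μ, ι w)) :
    u.1 = μ ∧ π u.2 = w ∧ GG F ι π b u = u.2 + ι (π (GG F ι π b u) - w) := by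
  have h1 : u.1 = μ := congrArg Prod.fst hu
  have h2 : ι (π u.2) + (GG F ι π b u - u.2 - ι (π (GG F ι π b u - u.2))) = ι w :=
    congrArg Prod.snd hu
  have h3 : π u.2 = w := by
    have h4 := congrArg π h2
    rw [map_add, h.pi, map_sub, h.pi, h.pi, sub_self, add_zero] at h4
    exact h4
  refine ⟨h1, h3, ?_⟩
  rw [h3] at h2
  have h5 : GG F ι π b u - u.2 - ι (π (GG F ι π b u - u.2)) = 0 := by
    have h6 := congrArg (fun x => x - ι w) h2
    simpa using h6
  have h7 : π (GG F ι π b u - u.2) = π (GG F ι π b u) - w := by rw [map_sub, h3]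
  rw [h7] at h5
  have h8 := sub_eq_zero.1 h5
  rw [← h8]
  abel

/-- `exists_inv` gives the local inverse `g` of `Psi`.  Put `q (μ, w) = (g (μ, ι w)).2`.
`Psi (g (μ, ι w)) = (μ, ι w)` gives `(g (μ, ι w)).1 = μ` and `ι π q + (1 - ι π)(GG b (μ, q) - q) = ι w`; apply `π` (`π (1 - ι π) = 0`): `π q = w`, so `(1 - ι π)(GG b (μ, q) - q) = 0`, that is
`GG b (μ, q) = q + ι (π (GG b (μ, q)) - π q)`: the field `eq`.  `zero`: `Psi (μ, 0) = (μ, 0)`, so `g (μ, 0) = (μ, 0)`.  `unq`: for `x` near `0`, with `e = GG b (0, x) - x - ι (π (..))`,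
`(0, x) = g (0, ι π x + e)` and `(0, q (0, π x)) = g (0, ι π x)` (first component by the above); `g` is Lipschitz near `0` (`ContDiffAt.exists_lipschitzOnWith` or strict derivative;
`e → 0` for `x → 0`). -/
theorem exists_LS [FiniteDimensional ℝ E] (hF : Loc F A) (h : RD A lam b ι π) :
    ∃ q : ℂ × ℂ → E, LS F ι π b q := by
  obtain ⟨g, hgs, hg0, hgr, hgl⟩ := exists_inv hF h
  obtain ⟨emb, hemb⟩ : ∃ emb : ℂ × ℂ →L[ℝ] ℂ × E, ∀ p, emb p = (p.1, ι p.2) :=
    ⟨(ContinuousLinearMap.fst ℝ ℂ ℂ).prod (ι ∘L ContinuousLinearMap.snd ℝ ℂ ℂ), fun p => rfl⟩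
  have hembt : Tendsto emb (𝓝 0) (𝓝 0) := by
    have h1 := emb.continuous.tendsto 0
    rwa [map_zero] at h1
  have hr : ∀ᶠ p : ℂ × ℂ in 𝓝 0, (g (emb p)).1 = p.1 ∧ π (g (emb p)).2 = p.2 ∧
      GG F ι π b (g (emb p)) = (g (emb p)).2 + ι (π (GG F ι π b (g (emb p))) - p.2) := by
    filter_upwards [hembt.eventually hgr] with p hp
    refine J3_alg h ?_
    rw [hp, hemb]
  have hpair : Tendsto (fun x : E => ((0 : ℂ), x)) (𝓝 0) (𝓝 0) := by
    have h1 : Continuous (fun x : E => ((0 : ℂ), x)) := by fun_prop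
    exact h1.tendsto 0
  refine ⟨fun p => (g (emb p)).2, ⟨?_, ?_, ?_, ?_, ?_⟩⟩
  · have h1 : ContDiffAt ℝ ∞ g (emb 0) := by rwa [map_zero]
    exact contDiffAt_snd.comp (0 : ℂ × ℂ) (h1.comp (0 : ℂ × ℂ) emb.contDiff.contDiffAt)
  · have hpair2 : Tendsto (fun μ : ℂ => (μ, (0 : E))) (𝓝 0) (𝓝 0) := by
      have h1 : Continuous (fun μ : ℂ => (μ, (0 : E))) := by fun_prop
      exact h1.tendsto 0
    filter_upwards [hpair2.eventually hgl] with μ hμ
    have h1 : Psi F ι π b (μ, (0 : E)) = emb (μ, 0) := by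
      rw [hemb]
      unfold Psi
      have h2 : GG F ι π b (μ, (0 : E)) = 0 := GG_zero hF.zero b μ
      rw [h2]
      simp
    rw [h1] at hμ
    show (g (emb (μ, 0))).2 = 0
    rw [hμ]
  · filter_upwards [hr] with p hp
    exact hp.2.1
  · filter_upwards [hr] with p hp
    obtain ⟨h1, -, h3⟩ := hp
    have h4 : (p.1, (g (emb p)).2) = g (emb p) := by
      rw [← h1]
    show GG F ι π b (p.1, (g (emb p)).2) = (g (emb p)).2 +
      ι (π (GG F ι π b (p.1, (g (emb p)).2)) - p.2)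
    rw [h4]
    exact h3
  · obtain ⟨K, t, ht, hK⟩ := (hgs.of_le (by simp : (1 : WithTop ℕ∞) ≤ ∞)).exists_lipschitzOnWith
    refine ⟨K, ?_⟩
    have hG : ContinuousAt (GG F ι π b) (0 : ℂ × E) := (GG_smooth hF b).continuousAt
    have hGt : Tendsto (fun x : E => GG F ι π b ((0 : ℂ), x)) (𝓝 0) (𝓝 0) := by
      have h1 : Tendsto (GG F ι π b) (𝓝 (0 : ℂ × E)) (𝓝 0) := by
        have h2 := hG.tendsto
        have h3 : GG F ι π b (0 : ℂ × E) = 0 := GG_zero hF.zero b 0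
        rwa [h3] at h2
      exact h1.comp hpair
    have hD : Tendsto (fun x : E => GG F ι π b ((0 : ℂ), x) - x) (𝓝 0) (𝓝 0) := by
      have h1 := hGt.sub (tendsto_id (α := E) (x := 𝓝 0))
      simpa using h1
    have hPt : Tendsto (fun x : E => Psi F ι π b ((0 : ℂ), x)) (𝓝 0) (𝓝 0) := by
      have h1 : Tendsto (fun x : E => ι (π x) + (GG F ι π b ((0 : ℂ), x) - x -
          ι (π (GG F ι π b ((0 : ℂ), x) - x)))) (𝓝 0) (𝓝 0) := by
        have e1 : Tendsto (fun x : E => ι (π x)) (𝓝 0) (𝓝 0) := by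
          have e2 : Continuous (fun x : E => ι (π x)) := by fun_prop
          have e3 := e2.tendsto 0
          simpa using e3
        have e4 := e1.comp hD
        have e5 := e1.add (hD.sub e4)
        simpa using e5
      have h2 : Tendsto (fun x : E => ((0 : ℂ), ι (π x) + (GG F ι π b ((0 : ℂ), x) - x -
          ι (π (GG F ι π b ((0 : ℂ), x) - x))))) (𝓝 0) (𝓝 ((0 : ℂ), (0 : E))) :=
        tendsto_const_nhds.prodMk_nhds h1
      exact h2
    have hEt : Tendsto (fun x : E => emb (0, π x)) (𝓝 0) (𝓝 0) := by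
      have h1 : Continuous (fun x : E => emb (0, π x)) := by fun_prop
      have h2 := h1.tendsto 0
      have h3 : emb ((0 : ℂ), π (0 : E)) = 0 := by
        rw [map_zero]
        exact map_zero emb
      rwa [h3] at h2
    filter_upwards [hpair.eventually hgl, hPt ht, hEt ht] with x hx1 hx2 hx3
    have h1 : x - (g (emb (0, π x))).2 =
        (g (Psi F ι π b ((0 : ℂ), x)) - g (emb (0, π x))).2 := by
      rw [hx1]
      rfl
    have h2 : Psi F ι π b ((0 : ℂ), x) - emb (0, π x) =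
        ((0 : ℂ), GG F ι π b ((0 : ℂ), x) - x - ι (π (GG F ι π b ((0 : ℂ), x) - x))) := by
      rw [hemb]
      unfold Psi
      ext
      · simp
      · show ι (π x) + (GG F ι π b ((0 : ℂ), x) - x - ι (π (GG F ι π b ((0 : ℂ), x) - x))) -
          ι (π x) = _
        abel_nf
    have h3 := hK.norm_sub_le hx2 hx3
    rw [h2] at h3
    show ‖x - (g (emb (0, π x))).2‖ ≤ _
    rw [h1]
    refine (norm_snd_le _).trans (h3.trans ?_)
    have h4 : ‖(((0 : ℂ), GG F ι π b ((0 : ℂ), x) - x -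
        ι (π (GG F ι π b ((0 : ℂ), x) - x))) : ℂ × E)‖ =
        ‖GG F ι π b ((0 : ℂ), x) - x - ι (π (GG F ι π b ((0 : ℂ), x) - x))‖ := by
      rw [Prod.norm_mk, norm_zero]
      exact max_eq_right (norm_nonneg _)
    rw [h4]

end JT

end FB
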