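import Pool.Agent.H.MP_fb873c_an.J5a

/-!
# Part J5: approximate commutation with the rotation
-/

namespace FB

namespace JT

open scoped Topology ContDiff
open Filter KT

variable {E : Type} [NormedAddCommGroup E] [NormedSpace ℝ E] {A : E →L[ℝ] E} {lam : ℂ} {b : ℕ}
  {ι : ℂ →L[ℝ] E} {π : E →L[ℝ] ℂ} {F : E → E} {q : ℂ × ℂ → E}

/-- `LS_approx` with `l = 𝓝 0`, `y w = F (q (0, w))` (`→ F 0 = 0`), `ρ w = lam * RR (0, w)`, `α w = ‖RR (0, w)‖`:
write `G z = F^[b] z = GG b (0, z)` (`GG_self`).  By `LS.eq`, `G (q (0, w)) = q (0, w) + ι (RR (0, w))`, so `G (F (q (0, w))) = F (G (q (0, w))) = F (q (0, w) + ι (RR (0, w)))`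
(`Function.iterate_succ_apply`, `Function.iterate_succ_apply'`), and `F` is strictly differentiable at `0` with derivative `A`, so
`G (F (q (0, w))) - F (q (0, w)) = A (ι (RR (0, w))) + o(RR (0, w)) = ι (lam RR (0, w)) + o(RR (0, w))` for `w → 0` (`RR (0, w) → 0` by `RR_smooth`, `RR_zero`). -/
theorem commute (hF : Loc F A) (h : RD A lam b ι π) (hq : LS F ι π b q) :
    (fun w => RR F ι π b q (0, π (F (q (0, w)))) - lam * RR F ι π b q (0, w)) =o[𝓝 0]
      (fun w : ℂ => RR F ι π b q (0, w)) := by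
  have hF0 : HasStrictFDerivAt F A 0 := by
    have h1 := hF.smooth.hasStrictFDerivAt (by simp)
    rwa [hF.der] at h1
  have hpair : Tendsto (fun w : ℂ => ((0 : ℂ), w)) (𝓝 0) (𝓝 (0 : ℂ × ℂ)) := by
    have h1 : Continuous (fun w : ℂ => ((0 : ℂ), w)) := by fun_prop
    exact h1.tendsto 0
  have hq0 : Tendsto (fun w : ℂ => q (0, w)) (𝓝 0) (𝓝 0) := by
    have h1 : Tendsto q (𝓝 0) (𝓝 (q 0)) := hq.smooth.continuousAt
    rw [LS.q0 hq] at h1
    exact h1.comp hpair
  have hR0 : Tendsto (fun w : ℂ => RR F ι π b q (0, w)) (𝓝 0) (𝓝 0) := by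
    have h1 : Tendsto (RR F ι π b q) (𝓝 0) (𝓝 (RR F ι π b q 0)) :=
      (RR_smooth hF hq).continuousAt
    have h2 : RR F ι π b q 0 = 0 := by
      exact (RR_zero hF hq).self_of_nhds
    rw [h2] at h1
    exact h1.comp hpair
  have hiR : Tendsto (fun w : ℂ => ι (RR F ι π b q (0, w))) (𝓝 0) (𝓝 0) := by
    have h1 : Tendsto (fun v : ℂ => ι v) (𝓝 0) (𝓝 (ι 0)) := ι.continuous.tendsto 0
    rw [map_zero] at h1
    exact h1.comp hR0
  have hFc : Tendsto F (𝓝 0) (𝓝 0) := by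
    have h1 : Tendsto F (𝓝 0) (𝓝 (F 0)) := hF.smooth.continuousAt
    rwa [hF.zero] at h1
  have hy : Tendsto (fun w : ℂ => F (q (0, w))) (𝓝 0) (𝓝 0) := hFc.comp hq0
  -- strict derivative
  have hst : (fun w : ℂ => F (q (0, w) + ι (RR F ι π b q (0, w))) - F (q (0, w)) -
      A (ι (RR F ι π b q (0, w)))) =o[𝓝 0] (fun w : ℂ => ι (RR F ι π b q (0, w))) := by
    have h1 := hF0.isLittleO
    have h2 : Tendsto (fun w : ℂ => (q (0, w) + ι (RR F ι π b q (0, w)), q (0, w))) (𝓝 0)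
        (𝓝 ((0 : E), (0 : E))) := by
      have h3 : Tendsto (fun w : ℂ => q (0, w) + ι (RR F ι π b q (0, w))) (𝓝 0) (𝓝 0) := by
        simpa using hq0.add hiR
      exact h3.prodMk_nhds hq0
    have h3 := h1.comp_tendsto h2
    refine h3.congr ?_ ?_
    · intro w
      simp
    · intro w
      simp
  have hO : (fun w : ℂ => ι (RR F ι π b q (0, w))) =O[𝓝 0]
      (fun w : ℂ => ‖RR F ι π b q (0, w)‖) :=
    (ι.isBigO_comp (fun w : ℂ => RR F ι π b q (0, w)) (𝓝 0)).norm_right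
  have heq : ∀ᶠ w : ℂ in 𝓝 0, GG F ι π b (0, q (0, w)) =
      q (0, w) + ι (RR F ι π b q (0, w)) := hpair.eventually hq.eq
  have h1 : (fun w : ℂ => GG F ι π b (0, F (q (0, w))) - F (q (0, w)) -
      ι (lam * RR F ι π b q (0, w))) =o[𝓝 0] (fun w : ℂ => ‖RR F ι π b q (0, w)‖) := by
    refine (hst.trans_isBigO hO).congr' ?_ (Eventually.of_forall fun _ => rfl)
    filter_upwards [heq] with w hw
    have e1 : GG F ι π b (0, F (q (0, w))) = F (GG F ι π b (0, q (0, w))) := by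
      rw [GG_self, GG_self, ← Function.iterate_succ_apply, Function.iterate_succ_apply']
    rw [e1, hw, h.Ai]
  have h2 := LS_approx hF h hq hy h1
  exact h2.of_norm_right

end JT

end FB
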