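import Pool.Agent.H.MP_fb873c_an.J6a
import Pool.Agent.H.MP_fb873c_an.K00

/-!
# Part J6: Taylor expansion of order three
-/

namespace FB

namespace JT

open scoped Topology ContDiff
open Filter KT

/-- `D1 = fderiv f`, `D2 = fderiv D1`, `B2 = D2 0`, `B3 = fderiv D2 0`.  Symmetry: `D2 x u v = D2 x v u` for `x` near `0` (`second_derivative_symmetric` or
`ContDiffAt.isSymmSndFDerivAt`), so `B2` is symmetric and (differentiate) `B3 u v w = B3 u w v`; `B3 u v = B3 v u` is the symmetry of the second derivative of `D1`.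
`D2 x = B2 + B3 x + o(x)` (differentiability of `D2` at `0`).  The derivative of `x ↦ D1 x - (B2 x + 1/2 B3 x x)` in direction `u` is `D2 x u - B2 u - 1/2 (B3 u x + B3 x u) =
D2 x u - B2 u - B3 x u`, so it is `o(x)`; by `isLittleO_of_deriv` `D1 x - (B2 x + 1/2 B3 x x) = o(x^2)` (`D1 0 = 0`).  The derivative of `x ↦ f x - (1/2 B2 x x + 1/6 B3 x x x)` is
`D1 x - (B2 x + 1/2 B3 x x)` by the symmetries; again `isLittleO_of_deriv`. -/
theorem taylor3 {V W : Type} [NormedAddCommGroup V] [NormedSpace ℝ V] [NormedAddCommGroup W]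
    [NormedSpace ℝ W] {f : V → W} (hf : ContDiffAt ℝ ∞ f 0) (h0 : f 0 = 0)
    (h1 : fderiv ℝ f 0 = 0) :
    ∃ (B2 : V →L[ℝ] V →L[ℝ] W) (B3 : V →L[ℝ] V →L[ℝ] V →L[ℝ] W),
      (∀ u v, B2 u v = B2 v u) ∧ (∀ u v w, B3 u v w = B3 v u w) ∧
      (∀ u v w, B3 u v w = B3 u w v) ∧
      (fun x => f x - ((1 / 2 : ℝ) • B2 x x + (1 / 6 : ℝ) • B3 x x x)) =o[𝓝 0]
        (fun x => ‖x‖ ^ 3) ∧
      (fun x => fderiv ℝ f x - (B2 x + (1 / 2 : ℝ) • B3 x x)) =o[𝓝 0] (fun x => ‖x‖ ^ 2) := by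
  -- the derivatives
  have hD1 : ContDiffAt ℝ ∞ (fderiv ℝ f) 0 := hf.fderiv_right (m := ∞) (by simp)
  have hD2 : ContDiffAt ℝ ∞ (fderiv ℝ (fderiv ℝ f)) 0 := hD1.fderiv_right (m := ∞) (by simp)
  have two_le : ((2 : ℕ) : WithTop ℕ∞) ≤ ∞ := by
    have h : ((2 : ℕ∞) : WithTop ℕ∞) ≤ ((⊤ : ℕ∞) : WithTop ℕ∞) := WithTop.coe_le_coe.2 le_top
    exact h
  have hf2 : ContDiffAt ℝ ((2 : ℕ) : WithTop ℕ∞) f 0 := hf.of_le two_le
  have hD12 : ContDiffAt ℝ ((2 : ℕ) : WithTop ℕ∞) (fderiv ℝ f) 0 := hD1.of_le two_le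
  have hne : ((2 : ℕ) : WithTop ℕ∞) ≠ ∞ := by
    intro h
    exact absurd h (by decide +revert)
  have e1 : ∀ᶠ x in 𝓝 (0 : V), ContDiffAt ℝ ((2 : ℕ) : WithTop ℕ∞) f x := hf2.eventually hne
  have e2 : ∀ᶠ x in 𝓝 (0 : V), ContDiffAt ℝ ((2 : ℕ) : WithTop ℕ∞) (fderiv ℝ f) x :=
    hD12.eventually hne
  have hmin : minSmoothness ℝ 2 ≤ ((2 : ℕ) : WithTop ℕ∞) := by
    rw [minSmoothness_of_isRCLikeNormedField]; exact le_rfl
  have es : ∀ᶠ x in 𝓝 (0 : V), ∀ u v, fderiv ℝ (fderiv ℝ f) x u v = fderiv ℝ (fderiv ℝ f) x v u := by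
    filter_upwards [e1] with x hx
    exact fun u v => hx.isSymmSndFDerivAt hmin u v
  have ed1 : ∀ᶠ x in 𝓝 (0 : V), HasFDerivAt f (fderiv ℝ f x) x := by
    filter_upwards [e1] with x hx
    exact (hx.differentiableAt (by simp)).hasFDerivAt
  have ed2 : ∀ᶠ x in 𝓝 (0 : V), HasFDerivAt (fderiv ℝ f) (fderiv ℝ (fderiv ℝ f) x) x := by
    filter_upwards [e2] with x hx
    exact (hx.differentiableAt (by simp)).hasFDerivAt
  obtain ⟨D1, hD1e⟩ : ∃ D1 : V → (V →L[ℝ] W), D1 = fderiv ℝ f := ⟨_, rfl⟩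
  obtain ⟨D2, hD2e⟩ : ∃ D2 : V → (V →L[ℝ] V →L[ℝ] W), D2 = fderiv ℝ (fderiv ℝ f) := ⟨_, rfl⟩
  rw [← hD2e] at hD2 es ed2
  rw [← hD1e] at ed1 ed2
  obtain ⟨B2, hB2⟩ : ∃ B2 : V →L[ℝ] V →L[ℝ] W, B2 = D2 0 := ⟨_, rfl⟩
  obtain ⟨B3, hB3⟩ : ∃ B3 : V →L[ℝ] V →L[ℝ] V →L[ℝ] W, B3 = fderiv ℝ D2 0 := ⟨_, rfl⟩
  have hd3 : HasFDerivAt D2 B3 0 := by
    rw [hB3]
    exact (hD2.differentiableAt (by simp)).hasFDerivAt
  have s2 : ∀ u v, B2 u v = B2 v u := by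
    rw [hB2]
    exact es.self_of_nhds
  have s31 : ∀ u v, B3 u v = B3 v u := by
    intro u v
    have h := hD12.isSymmSndFDerivAt hmin u v
    rw [← hD2e, ← hB3] at h
    exact h
  have s32 : ∀ u v w, B3 u v w = B3 u w v := by
    intro u v w
    let L1 : (V →L[ℝ] V →L[ℝ] W) →L[ℝ] W :=
      (ContinuousLinearMap.apply ℝ W w).comp (ContinuousLinearMap.apply ℝ (V →L[ℝ] W) v)
    let L2 : (V →L[ℝ] V →L[ℝ] W) →L[ℝ] W :=
      (ContinuousLinearMap.apply ℝ W v).comp (ContinuousLinearMap.apply ℝ (V →L[ℝ] W) w)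
    have h2 : HasFDerivAt (fun x => (L1 - L2) (D2 x)) ((L1 - L2).comp B3) 0 :=
      HasFDerivAt.comp (𝕜 := ℝ) (f := D2) (f' := B3) (g := fun A => (L1 - L2) A) (g' := L1 - L2)
        (0 : V) (L1 - L2).hasFDerivAt hd3
    have h3 : (fun x => (L1 - L2) (D2 x)) =ᶠ[𝓝 0] fun _ => (0 : W) := by
      filter_upwards [es] with x hx
      change D2 x v w - D2 x w v = 0
      rw [hx v w, sub_self]
    have h4 : HasFDerivAt (fun x => (L1 - L2) (D2 x)) (0 : V →L[ℝ] W) 0 :=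
      (hasFDerivAt_const (0 : W) (0 : V)).congr_of_eventuallyEq h3
    have h5 := h2.unique h4
    have h6 : ((L1 - L2).comp B3) u = (0 : V →L[ℝ] W) u := by rw [h5]
    change B3 u v w - B3 u w v = 0 at h6
    exact sub_eq_zero.1 h6
  have flip3 : ∀ x, B3.flip x = B3 x := fun x => by
    ext u w
    change B3 u x w = B3 x u w
    rw [s31]
  have flip2 : ∀ x, B2.flip x = B2 x := fun x => by
    ext u
    exact s2 u x
  -- derivative of the quadratic map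
  have q3 : ∀ x, HasFDerivAt (fun x => B3 x x) ((2 : ℝ) • B3 x) x := fun x => by
    have h := (B3.hasFDerivAt (x := x)).clm_apply (hasFDerivAt_id x)
    have e : ((B3 x).comp (ContinuousLinearMap.id ℝ V) + B3.flip (id x)) = (2 : ℝ) • B3 x := by
      rw [ContinuousLinearMap.comp_id, id, flip3]
      exact (two_smul ℝ (B3 x)).symm
    rw [← e]
    exact h
  have q2 : ∀ x, HasFDerivAt (fun x => B2 x x) ((2 : ℝ) • B2 x) x := fun x => by
    have h := (B2.hasFDerivAt (x := x)).clm_apply (hasFDerivAt_id x)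
    have e : ((B2 x).comp (ContinuousLinearMap.id ℝ V) + B2.flip (id x)) = (2 : ℝ) • B2 x := by
      rw [ContinuousLinearMap.comp_id, id, flip2]
      exact (two_smul ℝ (B2 x)).symm
    rw [← e]
    exact h
  have c3 : ∀ x, HasFDerivAt (fun x => B3 x x x) ((3 : ℝ) • B3 x x) x := fun x => by
    have h := (q3 x).clm_apply (hasFDerivAt_id x)
    have e : ((B3 x x).comp (ContinuousLinearMap.id ℝ V) + ((2 : ℝ) • B3 x).flip (id x))
        = (3 : ℝ) • B3 x x := by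
      ext u
      change B3 x x u + (2 : ℝ) • B3 x u x = (3 : ℝ) • B3 x x u
      rw [s32 x u x]
      module
    rw [← e]
    exact h
  -- first step
  have g1d : ∀ᶠ x in 𝓝 (0 : V), HasFDerivAt (fun x => D1 x - (B2 x + (1 / 2 : ℝ) • B3 x x))
      (D2 x - (B2 + B3 x)) x := by
    filter_upwards [ed2] with x hx
    have h := hx.sub ((B2.hasFDerivAt (x := x)).add ((q3 x).const_smul (1 / 2 : ℝ)))
    have e : D2 x - (B2 + (1 / 2 : ℝ) • (2 : ℝ) • B3 x) = D2 x - (B2 + B3 x) := by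
      rw [smul_smul]; norm_num
    rw [← e]
    exact h
  have g1o : (fun x => D2 x - (B2 + B3 x)) =o[𝓝 0] (fun x : V => ‖x‖ ^ 1) := by
    have h := HasFDerivAt.isLittleO (𝕜 := ℝ) (f := D2) (f' := B3) (x := (0 : V)) hd3
    have h2 : (fun x => D2 x - (B2 + B3 x)) =o[𝓝 0] (fun x : V => x) := by
      refine (h.congr_left fun x => ?_).congr_right fun x => ?_
      · rw [sub_zero, hB2]; abel
      · rw [sub_zero]
    simpa using h2.norm_right
  have g1 := isLittleO_of_deriv g1d g1o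
  have g1z : D1 0 - (B2 0 + (1 / 2 : ℝ) • B3 0 0) = 0 := by
    rw [hD1e, h1]; simp
  have g1' : (fun x => D1 x - (B2 x + (1 / 2 : ℝ) • B3 x x)) =o[𝓝 0] (fun x : V => ‖x‖ ^ 2) := by
    refine g1.congr_left fun x => ?_
    rw [g1z, sub_zero]
  -- second step
  have g0d : ∀ᶠ x in 𝓝 (0 : V),
      HasFDerivAt (fun x => f x - ((1 / 2 : ℝ) • B2 x x + (1 / 6 : ℝ) • B3 x x x))
      (D1 x - (B2 x + (1 / 2 : ℝ) • B3 x x)) x := by
    filter_upwards [ed1] with x hx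
    have h := hx.sub (((q2 x).const_smul (1 / 2 : ℝ)).add ((c3 x).const_smul (1 / 6 : ℝ)))
    have e : D1 x - ((1 / 2 : ℝ) • (2 : ℝ) • B2 x + (1 / 6 : ℝ) • (3 : ℝ) • B3 x x)
        = D1 x - (B2 x + (1 / 2 : ℝ) • B3 x x) := by
      rw [smul_smul, smul_smul]; norm_num
    rw [← e]
    exact h
  have g0 := isLittleO_of_deriv g0d g1'
  have g0z : f 0 - ((1 / 2 : ℝ) • B2 0 0 + (1 / 6 : ℝ) • B3 0 0 0) = 0 := by
    rw [h0]; simp
  refine ⟨B2, B3, s2, fun u v w => by rw [s31], s32, ?_, ?_⟩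
  · refine g0.congr_left fun x => ?_
    rw [g0z, sub_zero]
  · rw [← hD1e]
    exact g1'

end JT

end FB
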