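import Pool.Agent.H.MP_fb873c_an.K00

/-!
# Part J7a: quadratic maps commuting with a rotation
-/

namespace FB

namespace JT

open scoped Topology ContDiff
open Filter KT

/-- the quadratic map in real coordinates -/
theorem J7a_real {B2 : ℂ →L[ℝ] ℂ →L[ℝ] ℂ} (hs : ∀ u v, B2 u v = B2 v u) (x y : ℝ) :
    B2 (x • (1 : ℂ) + y • Complex.I) (x • (1 : ℂ) + y • Complex.I) =
      (x : ℂ) ^ 2 * B2 1 1 + 2 * (x : ℂ) * (y : ℂ) * B2 1 Complex.I +
        (y : ℂ) ^ 2 * B2 Complex.I Complex.I := by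
  simp only [map_add, map_smul, ContinuousLinearMap.add_apply, ContinuousLinearMap.smul_apply]
  rw [hs Complex.I 1]
  simp only [Complex.real_smul]
  ring

/-- the quadratic map in the coordinates `w, conj w` -/
theorem J7a_form {B2 : ℂ →L[ℝ] ℂ →L[ℝ] ℂ} (hs : ∀ u v, B2 u v = B2 v u) (w : ℂ) :
    B2 w w = ((B2 1 1 - B2 Complex.I Complex.I) / 4 - Complex.I * B2 1 Complex.I / 2) * w ^ 2 +
      ((B2 1 1 + B2 Complex.I Complex.I) / 2) * (w * (starRingEnd ℂ) w) +
      ((B2 1 1 - B2 Complex.I Complex.I) / 4 + Complex.I * B2 1 Complex.I / 2) *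
        (starRingEnd ℂ) w ^ 2 := by
  obtain ⟨x, y, hw⟩ : ∃ x y : ℝ, w = x • (1 : ℂ) + y • Complex.I :=
    ⟨w.re, w.im, by apply Complex.ext <;> simp⟩
  have e3 : (starRingEnd ℂ) w = (x : ℂ) - (y : ℂ) * Complex.I := by
    rw [hw]
    apply Complex.ext <;> simp
  have e2 : w = (x : ℂ) + (y : ℂ) * Complex.I := by
    rw [hw]
    simp
  have hI : Complex.I ^ 2 = -1 := Complex.I_sq
  rw [e3]
  have e1 := J7a_real hs x y
  rw [← hw] at e1
  rw [e1]
  clear e1 e3
  rw [e2]
  generalize B2 1 1 = a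
  generalize B2 1 Complex.I = b
  generalize B2 Complex.I Complex.I = c
  clear hw e2
  linear_combination ((x : ℂ) * y * b * 2 + ((y : ℂ) ^ 2 * (a + c) / 2) -
    ((a - c) / 2) * (y : ℂ) ^ 2) * hI

theorem J7a_coef {P Q R : ℂ}
    (h : ∀ w : ℂ, P * w ^ 2 + Q * (w * (starRingEnd ℂ) w) + R * (starRingEnd ℂ) w ^ 2 = 0) :
    P = 0 ∧ Q = 0 ∧ R = 0 := by
  have a1 := h 1
  have a2 := h Complex.I
  have a3 := h (1 + Complex.I)
  have hI : Complex.I ^ 2 = -1 := Complex.I_sq
  simp only [map_one, Complex.conj_I, map_add] at a1 a2 a3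
  have b2 : -P + Q - R = 0 := by linear_combination a2 - (P - Q + R) * hI
  have hQ : Q = 0 := by linear_combination (a1 + b2) / 2
  have b3 : 2 * Complex.I * (P - R) = 0 := by
    linear_combination a3 - (P - Q + R) * hI - 2 * hQ
  have hPR : P - R = 0 := by
    rcases mul_eq_zero.1 b3 with h' | h'
    · simp at h'
    · exact h'
  refine ⟨?_, hQ, ?_⟩
  · linear_combination (a1 - hQ + hPR) / 2
  · linear_combination (a1 - hQ - hPR) / 2

/-- With `w = x + i y`: `B2 w w = B2 1 1 x^2 + 2 B2 1 i x y + B2 i i y^2 = α w^2 + β w conj w + γ (conj w)^2` with complex `α, β, γ`.  The hypothesis gives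
`(lam^2 - lam) α w^2 + (lam conj lam - lam) β w conj w + (conj lam^2 - lam) γ (conj w)^2 = 0` for all `w`, so all three coefficients vanish (take `w = 1, i, 1 + i`);
`lam conj lam = 1`, so `lam^2 ≠ lam`, `1 ≠ lam`, and `conj lam^2 = lam` would give `lam^3 = 1`. -/
theorem quad_zero {lam : ℂ} (hn : ‖lam‖ = 1) (h1 : lam ≠ 1) (h3 : lam ^ 3 ≠ 1)
    {B2 : ℂ →L[ℝ] ℂ →L[ℝ] ℂ} (hs : ∀ u v, B2 u v = B2 v u)
    (he : ∀ w, B2 (lam * w) (lam * w) = lam * B2 w w) : ∀ w, B2 w w = 0 := by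
  set α : ℂ := (B2 1 1 - B2 Complex.I Complex.I) / 4 - Complex.I * B2 1 Complex.I / 2 with hα
  set β : ℂ := (B2 1 1 + B2 Complex.I Complex.I) / 2 with hβ
  set γ : ℂ := (B2 1 1 - B2 Complex.I Complex.I) / 4 + Complex.I * B2 1 Complex.I / 2 with hγ
  have hf : ∀ w, B2 w w = α * w ^ 2 + β * (w * (starRingEnd ℂ) w) + γ * (starRingEnd ℂ) w ^ 2 :=
    fun w => J7a_form hs w
  have hll : lam * (starRingEnd ℂ) lam = 1 := by
    rw [Complex.mul_conj, Complex.normSq_eq_norm_sq, hn]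
    simp
  have h0 : lam ≠ 0 := by
    rintro rfl
    simp at hn
  obtain ⟨hP, hQ, hR⟩ := J7a_coef (P := (lam ^ 2 - lam) * α) (Q := (1 - lam) * β)
    (R := ((starRingEnd ℂ) lam ^ 2 - lam) * γ) (by
      intro w
      have := he w
      rw [hf, hf, map_mul] at this
      linear_combination this - β * (w * (starRingEnd ℂ) w) * hll)
  have hα0 : α = 0 := by
    rcases mul_eq_zero.1 hP with h' | h'
    · exfalso
      have : lam * (lam - 1) = 0 := by linear_combination h'
      rcases mul_eq_zero.1 this with h'' | h''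
      · exact h0 h''
      · exact h1 (sub_eq_zero.1 h'')
    · exact h'
  have hβ0 : β = 0 := by
    rcases mul_eq_zero.1 hQ with h' | h'
    · exact absurd (sub_eq_zero.1 h').symm h1
    · exact h'
  have hγ0 : γ = 0 := by
    rcases mul_eq_zero.1 hR with h' | h'
    · exfalso
      apply h3
      have e : (lam * (starRingEnd ℂ) lam) ^ 2 = lam ^ 3 := by
        linear_combination lam ^ 2 * h'
      rw [hll] at e
      linear_combination -e
    · exact h'
  intro w
  rw [hf, hα0, hβ0, hγ0]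
  ring

/-- Polarisation. -/
theorem quad_zero' {B2 : ℂ →L[ℝ] ℂ →L[ℝ] ℂ} (hs : ∀ u v, B2 u v = B2 v u)
    (h : ∀ w, B2 w w = 0) : B2 = 0 := by
  refine ContinuousLinearMap.ext fun u => ContinuousLinearMap.ext fun v => ?_
  have e := h (u + v)
  simp only [map_add, ContinuousLinearMap.add_apply] at e
  rw [h u, h v, hs v u] at e
  have e2 : (2 : ℂ) * B2 u v = 0 := by linear_combination e
  rcases mul_eq_zero.1 e2 with h' | h'
  · norm_num at h'
  · simpa using h'

end JT

end FB
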