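import Pool.Agent.H.MP_fb873c_an.K00

/-!
# Part J8a: homogeneous leading terms
-/

namespace FB

namespace JT

open scoped Topology ContDiff
open Filter KT

/-- Fix `w`, let `t → 0+`.  `s (t w) / t → lam w` and `s (t w) → 0`, so `R (s (t w)) = Q (s (t w)) + o(t^k)` (`‖s (t w)‖^k = O(t^k)`) and `Q (s (t w)) / t^k = Q (s (t w) / t) → Q (lam w)` (`hh`, continuity).
`R (t w) / t^k → Q w`, so `(R (s (t w)) - lam R (t w)) / t^k → 0` by `hc`, and it tends to `Q (lam w) - lam Q w`. -/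
theorem limit_sym {R s Q : ℂ → ℂ} {lam : ℂ} {k : ℕ} (hQ : Continuous Q)
    (hh : ∀ (t : ℝ) (w : ℂ), Q (t * w) = (t : ℂ) ^ k * Q w)
    (hR : (fun w => R w - Q w) =o[𝓝 0] fun w : ℂ => ‖w‖ ^ k)
    (hs : (fun w => s w - lam * w) =o[𝓝 0] fun w : ℂ => w)
    (hc : (fun w => R (s w) - lam * R w) =o[𝓝 0] R) (w : ℂ) : Q (lam * w) = lam * Q w := by
  let l : Filter ℝ := 𝓝[>] 0
  have hpos : ∀ᶠ t : ℝ in l, 0 < t := eventually_mem_nhdsWithin
  have ht0 : Tendsto (fun t : ℝ => (t : ℂ)) l (𝓝 0) := by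
    have h1 : Tendsto (fun t : ℝ => (t : ℂ)) (𝓝 0) (𝓝 ((0 : ℝ) : ℂ)) :=
      Complex.continuous_ofReal.tendsto 0
    rw [Complex.ofReal_zero] at h1
    exact h1.mono_left nhdsWithin_le_nhds
  have ht : Tendsto (fun t : ℝ => (t : ℂ) * w) l (𝓝 0) := by
    have h1 := ht0.mul_const w
    rwa [zero_mul] at h1
  have hO1 : (fun t : ℝ => (t : ℂ) * w) =O[l] fun t : ℝ => (t : ℂ) := by
    have h1 := (Asymptotics.isBigO_refl (fun t : ℝ => (t : ℂ)) l).const_mul_left w
    refine h1.congr_left fun t => ?_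
    ring
  have h1 : (fun t : ℝ => s (t * w) - lam * (t * w)) =o[l] fun t : ℝ => (t : ℂ) :=
    (hs.comp_tendsto ht).trans_isBigO hO1
  have h2 : Tendsto (fun t : ℝ => s (t * w) / (t : ℂ)) l (𝓝 (lam * w)) := by
    have h3 := h1.tendsto_div_nhds_zero.add_const (lam * w)
    rw [zero_add] at h3
    refine h3.congr' ?_
    filter_upwards [hpos] with t hp
    have : (t : ℂ) ≠ 0 := by exact_mod_cast hp.ne'
    field_simp
    ring
  have hst : Tendsto (fun t : ℝ => s (t * w)) l (𝓝 0) := by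
    have h3 := h2.mul ht0
    rw [mul_zero] at h3
    refine h3.congr' ?_
    filter_upwards [hpos] with t hp
    have : (t : ℂ) ≠ 0 := by exact_mod_cast hp.ne'
    exact div_mul_cancel₀ _ this
  have hOs : (fun t : ℝ => s (t * w)) =O[l] fun t : ℝ => (t : ℂ) := by
    have h3 : (fun t : ℝ => s (t * w) / (t : ℂ)) =O[l] fun _ : ℝ => (1 : ℂ) := h2.isBigO_one ℂ
    have h4 := h3.mul (Asymptotics.isBigO_refl (fun t : ℝ => (t : ℂ)) l)
    refine (h4.congr_right fun t => one_mul _).congr' ?_ (EventuallyEq.refl _ _)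
    filter_upwards [hpos] with t hp
    have : (t : ℂ) ≠ 0 := by exact_mod_cast hp.ne'
    exact div_mul_cancel₀ _ this
  have hk : ∀ {u : ℝ → ℂ}, (u =O[l] fun t : ℝ => (t : ℂ)) →
      (fun t : ℝ => ‖u t‖ ^ k) =O[l] fun t : ℝ => (t : ℂ) ^ k := fun hu => hu.norm_left.pow k
  -- the two expansions
  have h5 : Tendsto (fun t : ℝ => R (t * w) / (t : ℂ) ^ k) l (𝓝 (Q w)) := by
    have h6 : (fun t : ℝ => R (t * w) - Q (t * w)) =o[l] fun t : ℝ => (t : ℂ) ^ k :=
      (hR.comp_tendsto ht).trans_isBigO (hk hO1)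
    have h7 := h6.tendsto_div_nhds_zero.add_const (Q w)
    rw [zero_add] at h7
    refine h7.congr' ?_
    filter_upwards [hpos] with t hp
    have : (t : ℂ) ≠ 0 := by exact_mod_cast hp.ne'
    rw [hh]
    field_simp
    ring
  have h8 : Tendsto (fun t : ℝ => R (s (t * w)) / (t : ℂ) ^ k) l (𝓝 (Q (lam * w))) := by
    have h6 : (fun t : ℝ => R (s (t * w)) - Q (s (t * w))) =o[l] fun t : ℝ => (t : ℂ) ^ k :=
      (hR.comp_tendsto hst).trans_isBigO (hk hOs)
    have h9 : Tendsto (fun t : ℝ => Q (s (t * w) / (t : ℂ))) l (𝓝 (Q (lam * w))) :=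
      (hQ.tendsto _).comp h2
    have h7 := h6.tendsto_div_nhds_zero.add h9
    rw [zero_add] at h7
    refine h7.congr' ?_
    filter_upwards [hpos] with t hp
    have h0 : (t : ℂ) ≠ 0 := by exact_mod_cast hp.ne'
    have h10 : Q (s (t * w)) = (t : ℂ) ^ k * Q (s (t * w) / (t : ℂ)) := by
      rw [← hh, mul_div_cancel₀ _ h0]
    rw [h10]
    field_simp
    ring
  have h11 : (fun t : ℝ => R (t * w)) =O[l] fun t : ℝ => (t : ℂ) ^ k := by
    have h3 : (fun t : ℝ => R (t * w) / (t : ℂ) ^ k) =O[l] fun _ : ℝ => (1 : ℂ) := h5.isBigO_one ℂ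
    have h4 := h3.mul (Asymptotics.isBigO_refl (fun t : ℝ => (t : ℂ) ^ k) l)
    refine (h4.congr_right fun t => one_mul _).congr' ?_ (EventuallyEq.refl _ _)
    filter_upwards [hpos] with t hp
    have : (t : ℂ) ^ k ≠ 0 := pow_ne_zero _ (by exact_mod_cast hp.ne')
    exact div_mul_cancel₀ _ this
  have h12 : (fun t : ℝ => R (s (t * w)) - lam * R (t * w)) =o[l] fun t : ℝ => (t : ℂ) ^ k :=
    (hc.comp_tendsto ht).trans_isBigO h11
  have h13 := h12.tendsto_div_nhds_zero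
  have h14 : Tendsto (fun t : ℝ => (R (s (t * w)) - lam * R (t * w)) / (t : ℂ) ^ k) l
      (𝓝 (Q (lam * w) - lam * Q w)) := by
    refine (h8.sub (h5.const_mul lam)).congr fun t => ?_
    ring
  have h15 := tendsto_nhds_unique h14 h13
  exact sub_eq_zero.1 h15

end JT

end FB
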