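import Pool.Agent.H.MP_fb873c_an.J4b
import Pool.Agent.H.MP_fb873c_an.J5
import Pool.Agent.H.MP_fb873c_an.J6
import Pool.Agent.H.MP_fb873c_an.J7a
import Pool.Agent.H.MP_fb873c_an.J8a

/-!
# Part J8b: symmetry of the Taylor expansion
-/

namespace FB

namespace JT

open scoped Topology ContDiff
open Filter KT

variable {E : Type} [NormedAddCommGroup E] [NormedSpace ℝ E] {A : E →L[ℝ] E} {lam : ℂ} {b : ℕ}
  {ι : ℂ →L[ℝ] E} {π : E →L[ℝ] ℂ} {F : E → E} {q : ℂ × ℂ → E}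

/-- The map `w ↦ RR (0, w)` satisfies the hypotheses of `taylor3`. -/
theorem J8b_hyp (hF : Loc F A) (h : RD A lam b ι π) (hq : LS F ι π b q) :
    ContDiffAt ℝ ∞ (fun w : ℂ => RR F ι π b q (0, w)) 0 ∧ RR F ι π b q (0, 0) = 0 ∧
      fderiv ℝ (fun w : ℂ => RR F ι π b q (0, w)) 0 = 0 := by
  refine ⟨?_, (RR_zero hF hq).self_of_nhds, ?_⟩
  · have h1 : ContDiffAt ℝ ∞ (RR F ι π b q) ((fun w : ℂ => ((0 : ℂ), w)) 0) := RR_smooth hF hq
    have h2 : ContDiffAt ℝ ∞ (fun w : ℂ => ((0 : ℂ), w)) 0 := contDiffAt_const.prodMk contDiffAt_id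
    exact h1.comp (0 : ℂ) h2
  · have h1 : QQ F ι π b q (0, 0) = mulc ((1 + 0) ^ b - 1) := (QQ_at hF h hq).self_of_nhds
    have h2 : QQ F ι π b q (0, 0) = fderiv ℝ (fun w : ℂ => RR F ι π b q (0, w)) 0 := rfl
    rw [← h2, h1]
    ext v
    simp [mulc_apply]

theorem J8b_hom2 (B2 : ℂ →L[ℝ] ℂ →L[ℝ] ℂ) (t : ℝ) (w : ℂ) :
    (1 / 2 : ℝ) • B2 (t * w) (t * w) = (t : ℂ) ^ 2 * ((1 / 2 : ℝ) • B2 w w) := by
  have h1 : (t : ℂ) * w = t • w := (Complex.real_smul).symm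
  have h2 : B2 (t • w) (t • w) = t • t • B2 w w := by
    have a1 : B2 (t • w) = t • B2 w := map_smul B2 t w
    have a2 : B2 w (t • w) = t • B2 w w := map_smul (B2 w) t w
    have a3 : (t • B2 w) (t • w) = t • B2 w (t • w) := rfl
    rw [a1, a3, a2]
  rw [h1, h2]
  simp only [Complex.real_smul]
  ring

theorem J8b_hom3 (B3 : ℂ →L[ℝ] ℂ →L[ℝ] ℂ →L[ℝ] ℂ) (t : ℝ) (w : ℂ) :
    (1 / 6 : ℝ) • B3 (t * w) (t * w) (t * w) = (t : ℂ) ^ 3 * ((1 / 6 : ℝ) • B3 w w w) := by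
  have h1 : (t : ℂ) * w = t • w := (Complex.real_smul).symm
  have h2 : B3 (t • w) (t • w) (t • w) = t • t • t • B3 w w w := by
    have a1 : B3 (t • w) = t • B3 w := map_smul B3 t w
    have a2 : B3 w (t • w) = t • B3 w w := map_smul (B3 w) t w
    have a3 : B3 w w (t • w) = t • B3 w w w := map_smul (B3 w w) t w
    have a4 : (t • B3 w) (t • w) (t • w) = t • B3 w (t • w) (t • w) := rfl
    have a5 : (t • B3 w w) (t • w) = t • B3 w w (t • w) := rfl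
    rw [a1, a4, a2, a5, a3]
  rw [h1, h2]
  simp only [Complex.real_smul]
  ring

/-- The cubic term is `o(w^2)`. -/
theorem J8b_cubic (B3 : ℂ →L[ℝ] ℂ →L[ℝ] ℂ →L[ℝ] ℂ) :
    (fun w : ℂ => (1 / 6 : ℝ) • B3 w w w) =o[𝓝 0] (fun w : ℂ => ‖w‖ ^ 2) := by
  have hc : Continuous (fun w : ℂ => (1 / 6 : ℝ) • B3 w w w) := by fun_prop
  obtain ⟨M, hM⟩ := (isCompact_closedBall (0 : ℂ) 1).exists_bound_of_continuousOn hc.continuousOn
  have h1 : (fun w : ℂ => (1 / 6 : ℝ) • B3 w w w) =O[𝓝 0] (fun w : ℂ => ‖w‖ ^ 3) := by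
    refine Asymptotics.IsBigO.of_bound M (Eventually.of_forall fun w => ?_)
    rcases eq_or_ne w 0 with rfl | hw
    · simp
    · have hw' : (‖w‖ : ℂ) ≠ 0 := by
        rw [Ne, Complex.ofReal_eq_zero, norm_eq_zero]
        exact hw
      have e1 : ((‖w‖ : ℝ) : ℂ) * (w / (‖w‖ : ℂ)) = w := mul_div_cancel₀ _ hw'
      have e2 := J8b_hom3 B3 ‖w‖ (w / (‖w‖ : ℂ))
      rw [e1] at e2
      have e3 : w / (‖w‖ : ℂ) ∈ Metric.closedBall (0 : ℂ) 1 := by
        rw [mem_closedBall_zero_iff, norm_div, Complex.norm_real, norm_norm,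
          div_self (norm_ne_zero_iff.mpr hw)]
      have e4 := hM _ e3
      rw [e2, norm_mul, norm_pow, Complex.norm_real, norm_norm, norm_pow, norm_norm, mul_comm]
      exact mul_le_mul_of_nonneg_right e4 (by positivity)
  have h5 : (fun w : ℂ => ‖w‖ ^ 3) =o[𝓝 0] (fun w : ℂ => ‖w‖ ^ 2) := by
    have := Asymptotics.isLittleO_norm_pow_norm_pow (E' := ℂ) (m := 2) (n := 3) (by norm_num)
    exact this
  exact h1.trans_isLittleO h5

/-- `R w = RR (0, w)` satisfies the hypotheses of `taylor3` (`RR_smooth` composed with `w ↦ (0, w)`, `RR_zero`, `QQ_at` at `μ = 0`).  Let `s w = π (F (q (0, w)))` (`step_w`, `commute`).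
First step: `limit_sym` with `k = 2`, `Q w = 1/2 B2 w w` (the cubic term is `o(w^2)`): `B2 (lam w) (lam w) = lam B2 w w`; `quad_zero` (`RD.prim` for `j = 1, 3`), `quad_zero'`: `B2 = 0`.
Second step: `limit_sym` with `k = 3`, `Q w = 1/6 B3 w w w`. -/
theorem taylor_sym (hF : Loc F A) (h : RD A lam b ι π) (hq : LS F ι π b q) :
    ∃ B3 : ℂ →L[ℝ] ℂ →L[ℝ] ℂ →L[ℝ] ℂ, (∀ u v w, B3 u v w = B3 v u w) ∧
      (∀ u v w, B3 u v w = B3 u w v) ∧
      (∀ w, B3 (lam * w) (lam * w) (lam * w) = lam * B3 w w w) ∧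
      (fun w : ℂ => RR F ι π b q (0, w) - (1 / 6 : ℝ) • B3 w w w) =o[𝓝 0] (fun w => ‖w‖ ^ 3) ∧
      (fun w : ℂ => QQ F ι π b q (0, w) - (1 / 2 : ℝ) • B3 w w) =o[𝓝 0] (fun w => ‖w‖ ^ 2) := by
  obtain ⟨hR, hR0, hR1⟩ := J8b_hyp hF h hq
  obtain ⟨B2, B3, hs2, hs3, hs3', hT, hD⟩ := taylor3 hR hR0 hR1
  have hstep := step_w hF h hq
  have hcom := commute hF h hq
  have hQ2c : Continuous (fun w : ℂ => (1 / 2 : ℝ) • B2 w w) := by fun_prop
  have hQ3c : Continuous (fun w : ℂ => (1 / 6 : ℝ) • B3 w w w) := by fun_prop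
  have hR2 : (fun w : ℂ => RR F ι π b q (0, w) - (1 / 2 : ℝ) • B2 w w) =o[𝓝 0]
      (fun w : ℂ => ‖w‖ ^ 2) := by
    have h5 : (fun w : ℂ => ‖w‖ ^ 3) =o[𝓝 0] (fun w : ℂ => ‖w‖ ^ 2) := by
      have := Asymptotics.isLittleO_norm_pow_norm_pow (E' := ℂ) (m := 2) (n := 3) (by norm_num)
      exact this
    have h6 := (hT.trans h5).add (J8b_cubic B3)
    refine h6.congr_left fun w => ?_
    ring
  have h1 : lam ≠ 1 := by
    have := h.prim 1 (by norm_num) (by have := h.b5; omega)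
    simpa using this
  have h3 : lam ^ 3 ≠ 1 := h.prim 3 (by norm_num) (by have := h.b5; omega)
  have hB2 : B2 = 0 := by
    have e1 : ∀ w, B2 (lam * w) (lam * w) = lam * B2 w w := by
      intro w
      have e2 := limit_sym (k := 2) hQ2c (fun t w => J8b_hom2 B2 t w) hR2 hstep hcom w
      simp only [Complex.real_smul] at e2
      have e3 : ((1 / 2 : ℝ) : ℂ) ≠ 0 := by
        rw [Ne, Complex.ofReal_eq_zero]
        norm_num
      apply mul_left_cancel₀ e3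
      rw [e2]
      ring
    exact quad_zero' hs2 (quad_zero h.norm h1 h3 hs2 e1)
  have hR3 : (fun w : ℂ => RR F ι π b q (0, w) - (1 / 6 : ℝ) • B3 w w w) =o[𝓝 0]
      (fun w : ℂ => ‖w‖ ^ 3) := by
    refine hT.congr_left fun w => ?_
    rw [hB2]
    simp
  refine ⟨B3, hs3, hs3', ?_, hR3, ?_⟩
  · intro w
    have e2 := limit_sym (k := 3) hQ3c (fun t w => J8b_hom3 B3 t w) hR3 hstep hcom w
    simp only [Complex.real_smul] at e2
    have e3 : ((1 / 6 : ℝ) : ℂ) ≠ 0 := by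
      rw [Ne, Complex.ofReal_eq_zero]
      norm_num
    apply mul_left_cancel₀ e3
    rw [e2]
    ring
  · refine hD.congr_left fun w => ?_
    rw [hB2]
    simp only [zero_apply, zero_add]
    rfl

end JT

end FB
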