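import Pool.Agent.H.MP_fb873c_an.J7b
import Pool.Agent.H.MP_fb873c_an.J8b

/-!
# Part J8: the cubic coefficient
-/

namespace FB

namespace JT

open scoped Topology ContDiff
open Filter KT

variable {E : Type} [NormedAddCommGroup E] [NormedSpace ℝ E] {A : E →L[ℝ] E} {lam : ℂ} {b : ℕ}
  {ι : ℂ →L[ℝ] E} {π : E →L[ℝ] ℂ} {F : E → E} {q : ℂ × ℂ → E}

theorem J8_tendsto : Tendsto (fun r : ℝ => (r : ℂ)) (𝓝[>] 0) (𝓝 0) := by
  have h := (Complex.continuous_ofReal.tendsto 0).mono_left (nhdsWithin_le_nhds (s := Set.Ioi 0))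
  simpa using h

/-- `taylor_sym` and `cubic_form` (`RD.prim` for `j = 2, 4`): for real `r`, `B3 r r r = r^3 B3 1 1 1 = 6 c r^3`, `B3 r r v = r^2 B3 1 1 v = 2 c r^2 (2 v + conj v)` (`Tc_apply`). -/
theorem exists_c (hF : Loc F A) (h : RD A lam b ι π) (hq : LS F ι π b q) :
    ∃ c : ℂ, Tendsto (fun r : ℝ => RR F ι π b q (0, (r : ℂ)) / (r : ℂ) ^ 3) (𝓝[>] 0) (𝓝 c) ∧
      Tendsto (fun r : ℝ => (1 / r ^ 2 : ℝ) • QQ F ι π b q (0, (r : ℂ))) (𝓝[>] 0)
        (𝓝 (Tc c)) := by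
  obtain ⟨B3, hs1, hs2, he, hR, hQ⟩ := taylor_sym hF h hq
  have h2 : lam ^ 2 ≠ 1 := h.prim 2 (by norm_num) (by have := h.b5; omega)
  have h4 : lam ^ 4 ≠ 1 := h.prim 4 (by norm_num) (by have := h.b5; omega)
  obtain ⟨c, hc⟩ := cubic_form h.norm h2 h4 hs1 hs2 he
  have hr1 : ∀ r : ℝ, B3 (r : ℂ) (r : ℂ) = (r ^ 2 : ℝ) • B3 1 1 := by
    intro r
    have e1 : (r : ℂ) = r • (1 : ℂ) := by rw [Complex.real_smul, mul_one]
    have a1 : B3 (r • (1 : ℂ)) = r • B3 1 := map_smul B3 r 1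
    have a2 : B3 1 (r • (1 : ℂ)) = r • B3 1 1 := map_smul (B3 1) r 1
    have a3 : (r • B3 1) (r • (1 : ℂ)) = r • B3 1 (r • (1 : ℂ)) := rfl
    rw [e1, a1, a3, a2, smul_smul, ← pow_two]
  have hr2 : ∀ r : ℝ, (1 / 6 : ℝ) • B3 (r : ℂ) (r : ℂ) (r : ℂ) = (r : ℂ) ^ 3 * c := by
    intro r
    rw [hr1, smul_apply, hc, Complex.conj_ofReal]
    simp only [Complex.real_smul]
    push_cast
    ring
  have hr3 : (1 / 2 : ℝ) • B3 1 1 = Tc c := by
    ext v
    rw [smul_apply, hc, Tc_apply, Complex.real_smul]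
    push_cast
    ring
  refine ⟨c, ?_, ?_⟩
  · have k1 := (hR.comp_tendsto J8_tendsto)
    have k2 : (fun r : ℝ => RR F ι π b q (0, (r : ℂ)) - (r : ℂ) ^ 3 * c) =o[𝓝[>] 0]
        (fun r : ℝ => (r : ℂ) ^ 3) := by
      refine (k1.congr_left (fun r => ?_)).trans_isBigO ?_
      · simp only [Function.comp_apply]
        rw [hr2]
      · refine Asymptotics.IsBigO.of_bound 1 (Eventually.of_forall fun r => ?_)
        simp
    have k3 := k2.tendsto_div_nhds_zero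
    have k4 := k3.add_const c
    rw [zero_add] at k4
    refine k4.congr' ?_
    filter_upwards [self_mem_nhdsWithin] with r hr
    have hr' : (r : ℂ) ≠ 0 := by
      rw [Ne, Complex.ofReal_eq_zero]
      exact ne_of_gt hr
    have hr3' : (r : ℂ) ^ 3 ≠ 0 := pow_ne_zero 3 hr'
    rw [sub_div, mul_div_cancel_left₀ _ hr3', sub_add_cancel]
  · have k1 := (hQ.comp_tendsto J8_tendsto)
    have k2 : (fun r : ℝ => QQ F ι π b q (0, (r : ℂ)) - (r ^ 2 : ℝ) • Tc c) =o[𝓝[>] 0]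
        (fun r : ℝ => r ^ 2) := by
      refine (k1.congr_left (fun r => ?_)).trans_isBigO ?_
      · simp only [Function.comp_apply]
        rw [hr1, smul_comm, hr3]
      · refine Asymptotics.IsBigO.of_bound 1 (Eventually.of_forall fun r => ?_)
        simp
    have k3 : Tendsto (fun r : ℝ => (1 / r ^ 2 : ℝ) • (QQ F ι π b q (0, (r : ℂ)) - (r ^ 2 : ℝ) • Tc c))
        (𝓝[>] 0) (𝓝 0) := by
      rw [tendsto_zero_iff_norm_tendsto_zero]
      have k4 := k2.norm_norm.tendsto_div_nhds_zero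
      refine k4.congr fun r => ?_
      rw [norm_smul, norm_div, norm_one, one_div, div_eq_inv_mul]
    have k4 := k3.add_const (Tc c)
    rw [zero_add] at k4
    refine k4.congr' ?_
    filter_upwards [self_mem_nhdsWithin] with r hr
    have hr' : (r ^ 2 : ℝ) ≠ 0 := pow_ne_zero 2 (ne_of_gt hr)
    rw [smul_sub, smul_smul, one_div_mul_cancel hr', one_smul, sub_add_cancel]

end JT

end FB
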