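import Pool.Agent.H.MP_fb873c_an.J15b
import Pool.Agent.H.MP_fb873c_an.J16a
import Pool.Agent.H.MP_fb873c_an.J3
import Pool.Agent.H.MP_fb873c_an.J8

/-!
# Part J16: the local theorem
-/

namespace FB

namespace JT

open scoped Topology ContDiff
open Filter KT

variable {n : ℕ} {A : Er n →L[ℝ] Er n} {lam : ℂ} {b : ℕ} {ι : ℂ →L[ℝ] Er n} {π : Er n →L[ℝ] ℂ}
  {F : Er n → Er n} {q : ℂ × ℂ → Er n}

/-- `exists_LS`, `exists_c` for `F` give `c`.  If `Re c ≠ 0` take `ε = 0` (`hep_id`), otherwise `ε = δ / 2`: by `coeff_hep` the coefficient of `F ∘ hep` is `c + b ε` (`exists_LS`, `exists_c` for `F ∘ hep` (`loc_hep`) and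
uniqueness of limits), with real part `b ε ≠ 0`.  `local_main` for `F ∘ hep`; `GG (F ∘ hep) j (μ, x)` is the iterate in the statement by definition. -/
theorem local_res (hF : Loc F A) (h : RD A lam b ι π) {δ : ℝ} (hδ : 0 < δ) :
    ∃ (μ : ℂ) (ε : ℝ) (x : Er n), ‖μ‖ < δ ∧ |ε| < δ ∧
      (∀ j ≤ b, ‖(fun y => F (hep ι π ε (hmu ι π μ y)))^[j] x‖ < δ) ∧
      (fun y => F (hep ι π ε (hmu ι π μ y)))^[b] x = x ∧
      (∀ j, 0 < j → j < b → (fun y => F (hep ι π ε (hmu ι π μ y)))^[j] x ≠ x) ∧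
      SimpleReal (fderiv ℝ ((fun y => F (hep ι π ε (hmu ι π μ y)))^[b]) x) := by
  -- one map with a coefficient of nonzero real part
  have key : ∀ ε : ℝ, |ε| < δ → ∀ (q' : ℂ × ℂ → Er n) (c' : ℂ),
      LS (fun y => F (hep ι π ε y)) ι π b q' → c'.re ≠ 0 →
      Tendsto (fun r : ℝ => RR (fun y => F (hep ι π ε y)) ι π b q' (0, (r : ℂ)) / (r : ℂ) ^ 3)
        (𝓝[>] 0) (𝓝 c') →
      Tendsto (fun r : ℝ => (1 / r ^ 2 : ℝ) • QQ (fun y => F (hep ι π ε y)) ι π b q' (0, (r : ℂ)))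
        (𝓝[>] 0) (𝓝 (Tc c')) →
      ∃ (μ : ℂ) (ε : ℝ) (x : Er n), ‖μ‖ < δ ∧ |ε| < δ ∧
        (∀ j ≤ b, ‖(fun y => F (hep ι π ε (hmu ι π μ y)))^[j] x‖ < δ) ∧
        (fun y => F (hep ι π ε (hmu ι π μ y)))^[b] x = x ∧
        (∀ j, 0 < j → j < b → (fun y => F (hep ι π ε (hmu ι π μ y)))^[j] x ≠ x) ∧
        SimpleReal (fderiv ℝ ((fun y => F (hep ι π ε (hmu ι π μ y)))^[b]) x) := by
    intro ε hε q' c' hq' hc' h1 h2
    obtain ⟨μ, x, hμ, hsm, hfix, hne, hsr⟩ :=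
      local_main (loc_hep hF ι π ε) h hq' hc' h1 h2 hδ
    exact ⟨μ, ε, x, hμ, hε, hsm, hfix, hne, hsr⟩
  obtain ⟨q, hq⟩ := exists_LS hF h
  obtain ⟨c, hc1, hc2⟩ := exists_c hF h hq
  by_cases hc : c.re = 0
  · have hε : |δ / 2| < δ := by
      rw [abs_of_pos (by positivity)]
      linarith
    obtain ⟨q', hq'⟩ := exists_LS (loc_hep hF ι π (δ / 2)) h
    obtain ⟨c', hc1', hc2'⟩ := exists_c (loc_hep hF ι π (δ / 2)) h hq'
    have hcc : c' = c + b * ((δ / 2 : ℝ) : ℂ) :=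
      tendsto_nhds_unique hc1' (coeff_hep hF h hq hc1 hq')
    refine key (δ / 2) hε q' c' hq' ?_ hc1' hc2'
    have hre : c'.re = b * (δ / 2) := by
      rw [hcc, Complex.add_re, hc, zero_add, ← Complex.ofReal_natCast, ← Complex.ofReal_mul,
        Complex.ofReal_re]
    rw [hre]
    have hb : (0 : ℝ) < b := by
      have := h.b5
      exact_mod_cast (by omega : 0 < b)
    positivity
  · have h0 : (fun y => F (hep ι π 0 y)) = F := by
      funext y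
      rw [hep_id]
    refine key 0 (by simpa using hδ) q c ?_ hc ?_ ?_
    · rw [h0]
      exact hq
    · rw [h0]
      exact hc1
    · rw [h0]
      exact hc2

end JT

end FB
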