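import Pool.Agent.H.MP_fb873c_an.D2b
import Pool.Agent.H.MP_fb873c_an.D2g
import Pool.Agent.H.MP_fb873c_an.D2i
import Pool.Agent.H.MP_fb873c_an.K00

/-!
# Part J17: local perturbations near a periodic point
-/

namespace FB

namespace JT

open scoped Topology ContDiff Manifold
open Filter KT Metric

universe u

variable {n : ℕ} {M : Type u} [TopologicalSpace M] [ChartedSpace (Er n) M]
  [IsManifold (𝓡 n) ∞ M] [T2Space M]

/-- The proof of `exists_pert` (file D2j): `exists_ball` (file D2i) with `V = univ` gives `r`; `β` a `ContDiffBump` with center `φ p` and radii `r/2, r`, `w' s z = β z • w s (z - φ p)`, `exists_family` (file D2g)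
with `K = closedBall (φ p) r` gives `h`; `H s = (h s).trans f`, i.e. `H s x = f (h s x)` (`smF_comp`, `smF_const`), `ρ = r/2`.  For small `s` and `z ∈ ball (φ p) ρ`: `β z = 1`,
`h s (φ.symm z) = φ.symm (z + w s (z - φ p)) ∈ B = φ.symm '' closedBall (φ p) r`; `iterate_supp` (file D2i): `(H s)^[i] x = f^[i] (h s x)` for `x ∈ B`, `0 < i ≤ k`, and `f^[i] (h s x) ∉ B` for `0 < i < k`. -/
theorem family_ball {P : Type} [NormedAddCommGroup P] [NormedSpace ℝ P] {k : ℕ} (hk : 0 < k)
    (f : Dif n M) {p : M} (hp : (f : M → M)^[k] p = p)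
    (hmin : ∀ i, 0 < i → i < k → (f : M → M)^[i] p ≠ p) (w : P → Er n → Er n)
    (hw : ContDiff ℝ ∞ (fun q : P × Er n => w q.1 q.2)) (h0 : ∀ z, w 0 z = 0) :
    ∃ (H : P → Dif n M) (ρ : ℝ), 0 < ρ ∧ (∀ x, SmF n (fun s => (H s : M → M)) x) ∧
      (∀ x, H 0 x = f x) ∧ ball (chartAt (Er n) p p) ρ ⊆ (chartAt (Er n) p).target ∧
      ∀ᶠ s in 𝓝 (0 : P), ∀ z ∈ ball (chartAt (Er n) p p) ρ,
        (H s : M → M)^[k] ((chartAt (Er n) p).symm z) =
          (f : M → M)^[k] ((chartAt (Er n) p).symm (z + w s (z - chartAt (Er n) p p))) ∧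
        ∀ i, 0 < i → i < k → (H s : M → M)^[i] ((chartAt (Er n) p).symm z) ∉
          (chartAt (Er n) p).symm '' ball (chartAt (Er n) p p) ρ := by
  obtain ⟨φ, hφe⟩ : ∃ φ : OpenPartialHomeomorph M (Er n), φ = chartAt (Er n) p := ⟨_, rfl⟩
  rw [← hφe]
  have hφ : φ ∈ atlas (Er n) M := by rw [hφe]; exact chart_mem_atlas _ _
  have hpφ : p ∈ φ.source := by rw [hφe]; exact mem_chart_source _ _
  obtain ⟨r, hr, hrφ, -, hd⟩ := exists_ball (g := (f : M → M)) f.continuous hmin hpφ
    (Filter.univ_mem)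
  let β : ContDiffBump (φ p) := ⟨r / 2, r, half_pos hr, half_lt_self hr⟩
  let w' : P → Er n → Er n := fun s z => β z • w s (z - φ p)
  have hw' : ContDiff ℝ ∞ (fun q : P × Er n => w' q.1 q.2) := by
    refine ContDiff.smul (β.contDiff.comp contDiff_snd) ?_
    exact hw.comp (contDiff_fst.prodMk (contDiff_snd.sub contDiff_const))
  have hw0 : ∀ z, w' 0 z = 0 := fun z => by simp [w', h0]
  have hws : ∀ s, ∀ z ∉ closedBall (φ p) r, w' s z = 0 := by
    intro s z hz
    have h1 : β z = 0 := by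
      apply β.zero_of_le_dist
      rw [mem_closedBall, not_le] at hz
      exact hz.le
    simp [w', h1]
  have hw1 : ∀ s, ∀ z ∈ ball (φ p) (r / 2), w' s z = w s (z - φ p) := by
    intro s z hz
    have h1 : β z = 1 := β.one_of_mem_closedBall (ball_subset_closedBall hz)
    simp [w', h1]
  obtain ⟨h, hsm, h00, hoff, hon⟩ := exists_family hφ (isCompact_closedBall (φ p) r) hrφ w' hw'
    hw0 hws
  have hb : ball (φ p) (r / 2) ⊆ closedBall (φ p) r := fun z hz =>
    closedBall_subset_closedBall (by linarith) (ball_subset_closedBall hz)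
  refine ⟨fun s => (h s).trans f, r / 2, half_pos hr, fun x => ?_, fun x => ?_,
    fun z hz => hrφ (hb hz), ?_⟩
  · exact smF_comp (F := fun s => (h s : M → M)) (G := fun _ => (f : M → M)) (hsm x)
      (smF_const f _)
  · show f (h 0 x) = f x
    rw [h00]
  · filter_upwards [hon] with s hs z hz
    have hzK : z ∈ closedBall (φ p) r := hb hz
    have hB : ∀ x ∈ φ.symm '' closedBall (φ p) r, h s x ∈ φ.symm '' closedBall (φ p) r := by
      rintro x ⟨y, hy, rfl⟩
      rw [(hs y hy).2]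
      exact ⟨_, (hs y hy).1, rfl⟩
    have key : ∀ i, 0 < i → i ≤ k → (((h s).trans f : Dif n M) : M → M)^[i] (φ.symm z) =
        (f : M → M)^[i] (h s (φ.symm z)) := fun i hi hik =>
      iterate_supp (g := (f : M → M)) (h := (h s : M → M))
        (B := φ.symm '' closedBall (φ p) r) (fun x hx => hoff s x hx) hB hd hi hik
        (x := φ.symm z) ⟨z, hzK, rfl⟩
    refine ⟨?_, ?_⟩
    · have h1 := key k hk le_rfl
      rw [(hs z hzK).2, hw1 s z hz] at h1
      exact h1
    · intro i hi hik hmem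
      have h1 := key i hi hik.le
      refine hd i hi hik (h s (φ.symm z)) (hB _ ⟨z, hzK, rfl⟩) ?_
      rw [← h1]
      obtain ⟨y, hy, hy2⟩ := hmem
      exact ⟨y, hb hy, hy2⟩

end JT

end FB
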