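import Pool.Agent.H.MP_fb873c_an.K00

/-!
# Part J18a: roots of unity near a unit number
-/

namespace FB

namespace JT

open scoped Topology ContDiff
open Filter KT

/-- `‖exp (i x) - exp (i y)‖ ≤ |x - y|` -/
theorem J18a_exp (x y : ℝ) :
    ‖Complex.exp (Complex.I * x) - Complex.exp (Complex.I * y)‖ ≤ |x - y| := by
  have h1 : Complex.exp (Complex.I * x) - Complex.exp (Complex.I * y)
      = Complex.exp (Complex.I * y) * (Complex.exp (Complex.I * ((x - y : ℝ) : ℂ)) - 1) := by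
    rw [mul_sub, ← Complex.exp_add, mul_one]
    congr 2
    push_cast
    ring
  have h2 : ‖Complex.exp (Complex.I * y)‖ = 1 := by
    rw [mul_comm]
    exact Complex.norm_exp_ofReal_mul_I y
  rw [h1, norm_mul, h2, one_mul]
  have h3 := Real.norm_exp_I_mul_ofReal_sub_one_le (x := x - y)
  rwa [Real.norm_eq_abs] at h3

/-- `l = exp (i θ)`, `0 ≤ θ < 2 π` (for instance `θ = arg l`, any real).  Let `b` be a prime `≥ 5`, `b > 20 / δ` (`Nat.exists_infinite_primes`), `a` the integer nearest to `b θ / (2 π)`, replaced by `a + 1` if it is divisible by `b`;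
`lam = exp (2 π i a / b)`: `|θ - 2 π a / b| ≤ 2 π (3/2) / b < δ / 2`... (`‖exp (i x) - exp (i y)‖ ≤ |x - y|`).  `lam^b = 1`; `lam^j = 1` iff `b ∣ j a`, impossible for `0 < j < b` (`b` prime, `b ∤ a`).
(`Complex.isPrimitiveRoot_exp_of_coprime`.) -/
theorem exists_unity {l : ℂ} (hl : ‖l‖ = 1) {δ : ℝ} (hδ : 0 < δ) :
    ∃ (b : ℕ) (lam : ℂ), 5 ≤ b ∧ lam ^ b = 1 ∧ (∀ j, 0 < j → j < b → lam ^ j ≠ 1) ∧
      ‖lam - l‖ < δ := by
  obtain ⟨b, hb, hbp⟩ := Nat.exists_infinite_primes (max 5 (⌈20 / δ⌉₊ + 1))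
  have hb5 : 5 ≤ b := (le_max_left _ _).trans hb
  have hbδ : 20 / δ < b := by
    have h1 : ⌈20 / δ⌉₊ + 1 ≤ b := (le_max_right _ _).trans hb
    have h2 : (20 / δ : ℝ) ≤ ⌈20 / δ⌉₊ := Nat.le_ceil _
    have h3 : ((⌈20 / δ⌉₊ + 1 : ℕ) : ℝ) ≤ b := by exact_mod_cast h1
    push_cast at h3
    linarith
  have hb0 : (0 : ℝ) < b := by
    have : (5 : ℝ) ≤ b := by exact_mod_cast hb5
    linarith
  have hpi := Real.pi_pos
  obtain ⟨θ, hθ⟩ : ∃ θ : ℝ, l = Complex.exp (Complex.I * θ) := by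
    refine ⟨Complex.arg l, ?_⟩
    have h := Complex.norm_mul_exp_arg_mul_I l
    rw [hl, Complex.ofReal_one, one_mul, mul_comm] at h
    exact h.symm
  obtain ⟨a, ha, hab⟩ : ∃ a : ℤ, ¬ (b : ℤ) ∣ a ∧ |b * θ / (2 * Real.pi) - a| ≤ 3 / 2 := by
    have h1 := abs_sub_round (b * θ / (2 * Real.pi))
    by_cases hd : (b : ℤ) ∣ round (b * θ / (2 * Real.pi))
    · refine ⟨round (b * θ / (2 * Real.pi)) + 1, fun hd' => ?_, ?_⟩
      · have h2 : (b : ℤ) ∣ 1 := by
          have := dvd_sub hd' hd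
          rwa [add_sub_cancel_left] at this
        have h3 := Int.le_of_dvd one_pos h2
        omega
      · push_cast
        rw [abs_le] at h1 ⊢
        constructor <;> linarith [h1.1, h1.2]
    · exact ⟨_, hd, h1.trans (by norm_num)⟩
  refine ⟨b, Complex.exp (Complex.I * ((2 * Real.pi * a / b : ℝ) : ℂ)), hb5, ?_, ?_, ?_⟩
  · rw [← Complex.exp_nat_mul]
    have e : (b : ℂ) * (Complex.I * ((2 * Real.pi * a / b : ℝ) : ℂ))
        = a * (2 * Real.pi * Complex.I) := by
      have : (b : ℂ) ≠ 0 := by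
        have : (b : ℝ) ≠ 0 := hb0.ne'
        exact_mod_cast this
      push_cast
      field_simp
    rw [e]
    exact Complex.exp_int_mul_two_pi_mul_I a
  · intro j hj hjb h1
    rw [← Complex.exp_nat_mul, Complex.exp_eq_one_iff] at h1
    obtain ⟨m, hm⟩ := h1
    have hbC : (b : ℂ) ≠ 0 := by
      have : (b : ℝ) ≠ 0 := hb0.ne'
      exact_mod_cast this
    have hpC : (2 * Real.pi * Complex.I : ℂ) ≠ 0 := Complex.two_pi_I_ne_zero
    have h2 : ((j * a : ℤ) : ℂ) = ((m * b : ℤ) : ℂ) := by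
      have h3 : (2 * Real.pi * Complex.I : ℂ) * ((j : ℂ) * a)
          = (2 * Real.pi * Complex.I : ℂ) * ((m : ℂ) * b) := by
        have h4 : (j : ℂ) * (Complex.I * ((2 * Real.pi * a / b : ℝ) : ℂ)) * b
            = m * (2 * Real.pi * Complex.I) * b := by rw [hm]
        push_cast at h4
        field_simp at h4
        linear_combination (2 * Real.pi * Complex.I : ℂ) * h4
      have h5 := mul_left_cancel₀ hpC h3
      push_cast
      exact h5
    have h3 : (j : ℤ) * a = m * b := by exact_mod_cast h2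
    have h4 : (b : ℤ) ∣ j * a := ⟨m, by rw [h3, mul_comm]⟩
    rcases (Nat.prime_iff_prime_int.1 hbp).dvd_or_dvd h4 with h5 | h5
    · have h6 := Int.le_of_dvd (by exact_mod_cast hj) h5
      omega
    · exact ha h5
  · rw [hθ]
    refine (J18a_exp _ _).trans_lt ?_
    have e : 2 * Real.pi * a / b - θ = -(2 * Real.pi / b * (b * θ / (2 * Real.pi) - a)) := by
      field_simp
      ring
    have h1 : 0 < 2 * Real.pi / b := by positivity
    rw [e, abs_neg, abs_mul, abs_of_pos h1]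
    have h2 : 2 * Real.pi / b * |b * θ / (2 * Real.pi) - a| ≤ 2 * Real.pi / b * (3 / 2) :=
      mul_le_mul_of_nonneg_left hab h1.le
    refine h2.trans_lt ?_
    have h3 := Real.pi_lt_d2
    have h4 : 20 < δ * b := by
      rw [div_lt_iff₀ hδ] at hbδ
      linarith
    rw [div_mul_eq_mul_div, div_lt_iff₀ hb0]
    linarith

end JT

end FB
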