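import Pool.Agent.H.MP_fb873c_an.K00

/-!
# Part J18b1: the perturbed linear map
-/

namespace FB

namespace JT

open scoped Topology ContDiff
open Filter KT

variable {E : Type} [NormedAddCommGroup E] [NormedSpace ℝ E] {A : E →L[ℝ] E} {lam : ℂ} {b : ℕ}
  {ι : ℂ →L[ℝ] E} {π : E →L[ℝ] ℂ} {F : E → E} {q : ℂ × ℂ → E}

/-- Here `κ = ι a π0 + ε (1 - ι π0)`, `A' = A (1 + κ)`. -/
noncomputable def kap (ι : ℂ →L[ℝ] E) (π0 : E →L[ℝ] ℂ) (a : ℂ) (ε : ℝ) : E →L[ℝ] E :=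
  ι ∘L mulc a ∘L π0 + ε • (ContinuousLinearMap.id ℝ E - ι ∘L π0)

theorem kap_norm (ι : ℂ →L[ℝ] E) (π0 : E →L[ℝ] ℂ) (a : ℂ) (ε : ℝ) :
    ‖kap ι π0 a ε‖ ≤ ‖ι‖ * ‖a‖ * ‖π0‖ + |ε| * (1 + ‖ι‖ * ‖π0‖) := by
  refine ContinuousLinearMap.opNorm_le_bound _ (by positivity) ?_
  intro v
  have h1 : kap ι π0 a ε v = ι (a * π0 v) + ε • (v - ι (π0 v)) := rfl
  have h2 : ‖ι (a * π0 v)‖ ≤ ‖ι‖ * (‖a‖ * (‖π0‖ * ‖v‖)) := by
    refine (ι.le_opNorm _).trans ?_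
    rw [norm_mul]
    exact mul_le_mul_of_nonneg_left
      (mul_le_mul_of_nonneg_left (π0.le_opNorm v) (norm_nonneg a)) (norm_nonneg ι)
  have h3 : ‖ι (π0 v)‖ ≤ ‖ι‖ * (‖π0‖ * ‖v‖) :=
    (ι.le_opNorm _).trans (mul_le_mul_of_nonneg_left (π0.le_opNorm v) (norm_nonneg ι))
  have h4 : ‖v - ι (π0 v)‖ ≤ ‖v‖ + ‖ι‖ * (‖π0‖ * ‖v‖) :=
    (norm_sub_le _ _).trans (by linarith)
  have h5 : ‖ε • (v - ι (π0 v))‖ ≤ |ε| * (‖v‖ + ‖ι‖ * (‖π0‖ * ‖v‖)) := by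
    rw [norm_smul, Real.norm_eq_abs]
    exact mul_le_mul_of_nonneg_left h4 (abs_nonneg ε)
  rw [h1]
  calc ‖ι (a * π0 v) + ε • (v - ι (π0 v))‖ ≤ ‖ι (a * π0 v)‖ + ‖ε • (v - ι (π0 v))‖ :=
        norm_add_le _ _
    _ ≤ ‖ι‖ * (‖a‖ * (‖π0‖ * ‖v‖)) + |ε| * (‖v‖ + ‖ι‖ * (‖π0‖ * ‖v‖)) := add_le_add h2 h5
    _ = (‖ι‖ * ‖a‖ * ‖π0‖ + |ε| * (1 + ‖ι‖ * ‖π0‖)) * ‖v‖ := by ring

/-- `A' (ι z) = A (ι z + ι (a z) + ε (ι z - ι z)) = ι (l (1 + a) z)`. -/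
theorem kap_iota {l a : ℂ} {ε : ℝ} {π0 : E →L[ℝ] ℂ} (hA : ∀ z, A (ι z) = ι (l * z))
    (hπ : ∀ z, π0 (ι z) = z) (z : ℂ) :
    (A ∘L (ContinuousLinearMap.id ℝ E + kap ι π0 a ε)) (ι z) = ι (l * (1 + a) * z) := by
  have h1 : (A ∘L (ContinuousLinearMap.id ℝ E + kap ι π0 a ε)) (ι z) =
      A (ι z + (ι (a * π0 (ι z)) + ε • (ι z - ι (π0 (ι z))))) := rfl
  rw [h1, hπ, sub_self, smul_zero, add_zero, map_add, hA, hA, ← map_add]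
  congr 1
  ring

/-- `P = 1 - ι π0`.  `P A ι = 0` (as `A ι = ι l`, `P ι = 0`), so `P A = P A P` and `P A' = (1 + ε) P A`, and by induction on `j` `P A'^j = (1 + ε)^j P A^j`
(`P A'^(j+1) = (1 + ε) P A A'^j = (1 + ε) P A P A'^j = (1 + ε)^(j+1) P A P A^j = (1 + ε)^(j+1) P A^(j+1)`). -/
theorem kap_pow {l a : ℂ} {ε : ℝ} {π0 : E →L[ℝ] ℂ} (hA : ∀ z, A (ι z) = ι (l * z))
    (hπ : ∀ z, π0 (ι z) = z) (j : ℕ) :
    (ContinuousLinearMap.id ℝ E - ι ∘L π0) ∘L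
        ((A ∘L (ContinuousLinearMap.id ℝ E + kap ι π0 a ε)) ^ j) =
      ((1 + ε) ^ j : ℝ) • ((ContinuousLinearMap.id ℝ E - ι ∘L π0) ∘L (A ^ j)) := by
  set P : E →L[ℝ] E := ContinuousLinearMap.id ℝ E - ι ∘L π0 with hP
  set A' : E →L[ℝ] E := A ∘L (ContinuousLinearMap.id ℝ E + kap ι π0 a ε) with hA'
  have hPv : ∀ v, P v = v - ι (π0 v) := fun v => rfl
  have hPi : ∀ w, P (ι w) = 0 := by
    intro w
    rw [hPv, hπ, sub_self]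
  have hA'v : ∀ v, A' v = A (v + (ι (a * π0 v) + ε • (v - ι (π0 v)))) := fun v => rfl
  have hPA : ∀ v, P (A (P v)) = P (A v) := by
    intro v
    rw [hPv v, map_sub, hA, map_sub, hPi, sub_zero]
  have hPA' : ∀ v, P (A' v) = (1 + ε) • P (A v) := by
    intro v
    have e1 : A (v + (ι (a * π0 v) + ε • (v - ι (π0 v)))) =
        A v + (ι (l * (a * π0 v)) + ε • (A v - ι (l * π0 v))) := by
      rw [map_add, map_add, map_smul, map_sub, hA, hA]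
    have e2 : P (A v + (ι (l * (a * π0 v)) + ε • (A v - ι (l * π0 v)))) =
        P (A v) + (P (ι (l * (a * π0 v))) + ε • (P (A v) - P (ι (l * π0 v)))) := by
      rw [map_add, map_add, map_smul, map_sub]
    rw [hA'v, e1, e2, hPi, hPi, sub_zero, zero_add, add_smul, one_smul]
  have key : ∀ (j : ℕ) (v : E), P ((A' ^ j) v) = ((1 + ε) ^ j : ℝ) • P ((A ^ j) v) := by
    intro j
    induction j with
    | zero => intro v; simp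
    | succ j ih =>
      intro v
      have e1 : (A' ^ (j + 1)) v = A' ((A' ^ j) v) := by
        rw [pow_succ']
        rfl
      have e2 : (A ^ (j + 1)) v = A ((A ^ j) v) := by
        rw [pow_succ']
        rfl
      rw [e1, e2, hPA', ← hPA, ih, map_smul, map_smul, hPA, smul_smul, pow_succ']
  ext v
  exact key j v

end JT

end FB
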