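import Pool.Agent.H.MP_fb873c_an.K00

/-!
# Part J18b2: finitely many eigenvalues
-/

namespace FB

namespace JT

open scoped Topology ContDiff
open Filter KT

variable {E : Type} [NormedAddCommGroup E] [NormedSpace ℝ E] {A : E →L[ℝ] E} {lam : ℂ} {b : ℕ}
  {ι : ℂ →L[ℝ] E} {π : E →L[ℝ] ℂ} {F : E → E} {q : ℂ × ℂ → E}

/-- The operator `B` has finitely many real eigenvalues (finite dimension); `ε ↦ ((1 + ε)^b)⁻¹` is injective on `ε > 0`, so for `ε > 0` small `((1 + ε)^b)⁻¹` is not one of them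
(eventually in `𝓝[>] 0` a point avoids a finite set). -/
theorem eventually_inj [FiniteDimensional ℝ E] (B : E →L[ℝ] E) {b : ℕ} (hb : 0 < b) :
    ∀ᶠ ε : ℝ in 𝓝[>] 0, ∀ y : E, ((1 + ε) ^ b : ℝ) • B y = y → y = 0 := by
  have hS : Set.Finite {μ : ℝ | Module.End.HasEigenvalue (B : E →ₗ[ℝ] E) μ} :=
    Module.End.finite_hasEigenvalue _
  have hT : Set.Finite {ε : ℝ | 0 < ε ∧
      Module.End.HasEigenvalue (B : E →ₗ[ℝ] E) (((1 + ε) ^ b)⁻¹)} := by
    refine Set.Finite.of_finite_image (f := fun ε : ℝ => ((1 + ε) ^ b)⁻¹) (hS.subset ?_) ?_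
    · rintro μ ⟨ε, hε, rfl⟩
      exact hε.2
    · intro x hx y hy hxy
      have hx0 : 0 < x := hx.1
      have hy0 : 0 < y := hy.1
      have h1 : (1 + x) ^ b = (1 + y) ^ b := inv_injective hxy
      have h2 := (pow_left_inj₀ (by linarith : (0 : ℝ) ≤ 1 + x) (by linarith) hb.ne').1 h1
      linarith
  have hO : {ε : ℝ | 0 < ε ∧
      Module.End.HasEigenvalue (B : E →ₗ[ℝ] E) (((1 + ε) ^ b)⁻¹)}ᶜ ∈ 𝓝 (0 : ℝ) := by
    refine hT.isClosed.isOpen_compl.mem_nhds ?_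
    intro h
    exact lt_irrefl _ h.1
  filter_upwards [mem_nhdsWithin_of_mem_nhds hO, self_mem_nhdsWithin] with ε h1 h2 y hy
  by_contra hy0
  refine h1 ⟨h2, ?_⟩
  have h2' : (0 : ℝ) < ε := h2
  have hpos : (0 : ℝ) < (1 + ε) ^ b := pow_pos (by linarith) b
  refine Module.End.hasEigenvalue_of_hasEigenvector (x := y) ⟨?_, hy0⟩
  rw [Module.End.mem_eigenspace_iff]
  have h3 : B y = ((1 + ε) ^ b : ℝ)⁻¹ • y := by
    rw [← hy, smul_smul, inv_mul_cancel₀ hpos.ne', one_smul]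
    rw [hy]
  exact h3

end JT

end FB
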