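import Pool.Agent.H.MP_fb873c_an.J0

/-!
# Part J18b3: the equivariant projection
-/

namespace FB

namespace JT

open scoped Topology ContDiff
open Filter KT

variable {E : Type} [NormedAddCommGroup E] [NormedSpace ℝ E] {A : E →L[ℝ] E} {lam : ℂ} {b : ℕ}
  {ι : ℂ →L[ℝ] E} {π : E →L[ℝ] ℂ} {F : E → E} {q : ℂ × ℂ → E}

/-- `T = A'^b`, `P = 1 - ι π0`; `hP` says: `P T y = P y → P y = 0`.  `L0 x = ι π0 x + (T x - x)` is injective:
`L0 x = 0` gives `P (T x - x) = 0`, so `P x = 0`, `x = ι z` (`z = π0 x`), `T x = x` (`T ι = ι lam^b = ι`), `L0 x = ι z = 0`, `x = 0`.  So it is an isomorphism (`LinearEquiv.ofInjectiveEndo`); `L0 ι = ι`.  `π = π0 ∘ L0⁻¹`: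
`π ι = 1`.  `π (T u - u) = 0`: let `y = L0⁻¹ (T u - u)`, `ι π0 y + T y - y = T u - u`, so `P (T (u - y) - (u - y)) = 0`, `P (u - y) = 0`, `u - y ∈ ι ℂ`, `T (u - y) = u - y`, so `ι π0 y = 0`.
Every `v` is `L0 x = ι π0 x + (T x - x)`, so `π v = π0 x`, and `A' v = ι (lam π0 x) + (T A' x - A' x)`, `π (A' v) = lam π0 x = lam π v`.  If `π v = 0` and `T v = v`, `v = L0 x`: `π0 x = 0`, `v = T x - x`, and
`P (T v - v) = 0` gives `P v = 0`, `v = ι (π0 v)`, `π v = π0 v`, so `v = 0`. -/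
theorem exists_pi [FiniteDimensional ℝ E] {A' : E →L[ℝ] E} {π0 : E →L[ℝ] ℂ}
    (hA : ∀ z, A' (ι z) = ι (lam * z)) (hπ : ∀ z, π0 (ι z) = z) (hb5 : 5 ≤ b) (hb : lam ^ b = 1)
    (hprim : ∀ j, 0 < j → j < b → lam ^ j ≠ 1)
    (hP : ∀ y, (A' ^ b) y - ι (π0 ((A' ^ b) y)) = y - ι (π0 y) → y - ι (π0 y) = 0) :
    ∃ π : E →L[ℝ] ℂ, RD A' lam b ι π := by
  have hTi : ∀ z, (A' ^ b) (ι z) = ι z := by
    have h : ∀ n : ℕ, ∀ z, (A' ^ n) (ι z) = ι (lam ^ n * z) := by
      intro n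
      induction n with
      | zero => intro z; simp
      | succ n ih =>
        intro z
        rw [pow_succ', ContinuousLinearMap.mul_apply, ih, hA]
        congr 1
        ring
    intro z
    rw [h b z, hb, one_mul]
  have hTA : ∀ x, (A' ^ b) (A' x) = A' ((A' ^ b) x) := by
    intro x
    have h : (A' ^ b) * A' = A' * (A' ^ b) := by
      rw [← pow_succ, ← pow_succ']
    have h2 := congrArg (fun f : E →L[ℝ] E => f x) h
    simpa using h2
  set T : E →L[ℝ] E := A' ^ b with hT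
  -- the basic step
  have hstep : ∀ d y, T d = d + ι (π0 y) → d = ι (π0 d) ∧ π0 y = 0 := by
    intro d y hd
    have h1 : T d - ι (π0 (T d)) = d - ι (π0 d) := by
      rw [hd, map_add, map_add, hπ]
      abel
    have h2 := hP d h1
    have h3 : d = ι (π0 d) := sub_eq_zero.mp h2
    refine ⟨h3, ?_⟩
    have h4 : T d = d := by rw [h3, hTi]
    rw [h4] at hd
    have h5 : ι (π0 y) = 0 := by
      have := sub_eq_zero.mpr hd.symm
      simpa using this
    have h6 := congrArg (fun v => π0 v) h5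
    simpa [hπ] using h6
  let L0 : E →ₗ[ℝ] E := (ι ∘L π0 + (T - ContinuousLinearMap.id ℝ E) : E →L[ℝ] E)
  have hL0 : ∀ x, L0 x = ι (π0 x) + (T x - x) := fun x => rfl
  have hinj : Function.Injective L0 := by
    rw [injective_iff_map_eq_zero]
    intro x hx
    rw [hL0] at hx
    have h1 : T x = x + ι (π0 (-x)) := by
      rw [map_neg, map_neg]
      have h2 : T x = x - ι (π0 x) + (ι (π0 x) + (T x - x)) := by abel
      rw [hx, add_zero] at h2
      rw [h2]
      abel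
    obtain ⟨h3, h4⟩ := hstep x (-x) h1
    rw [map_neg, neg_eq_zero] at h4
    rw [h3, h4, map_zero]
  let L : E ≃ₗ[ℝ] E := LinearEquiv.ofInjectiveEndo L0 hinj
  have hL : ∀ x, L x = ι (π0 x) + (T x - x) := by
    intro x
    rw [← hL0 x]
    rfl
  let π : E →L[ℝ] ℂ := LinearMap.toContinuousLinearMap ((π0 : E →ₗ[ℝ] ℂ) ∘ₗ (L.symm : E →ₗ[ℝ] E))
  have hpi : ∀ v, π v = π0 (L.symm v) := fun v => rfl
  have hpiL : ∀ x, π (L x) = π0 x := by
    intro x
    rw [hpi, LinearEquiv.symm_apply_apply]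
  have hpii : ∀ w, π (ι w) = w := by
    intro w
    have h1 : L (ι w) = ι w := by
      rw [hL, hTi, hπ, sub_self, add_zero]
    rw [← h1, hpiL, hπ]
  have hpiT : ∀ u, π (T u - u) = 0 := by
    intro u
    rw [hpi]
    set y := L.symm (T u - u) with hy
    have h1 : L y = T u - u := by rw [hy, LinearEquiv.apply_symm_apply]
    rw [hL] at h1
    have h2 : T (u - y) = (u - y) + ι (π0 y) := by
      rw [map_sub]
      have h3 : T u = u + (T u - u) := by abel
      rw [h3, ← h1]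
      abel
    exact (hstep (u - y) y h2).2
  refine ⟨π, ⟨hpii, hA, ?_, hb5, hb, hprim, ?_⟩⟩
  · intro v
    obtain ⟨x, rfl⟩ := L.surjective v
    rw [hpiL, hL, map_add, hA, map_sub, ← hTA, map_add, hpiT, hpii, add_zero]
  · intro v hv hTv
    have h1 : T v = v + ι (π0 0) := by
      rw [map_zero, map_zero, add_zero]
      exact hTv
    have h2 := (hstep v 0 h1).1
    rw [h2, hpii] at hv
    rw [h2, hv, map_zero]

end JT

end FB
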