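import Pool.Agent.H.MP_fb873c_an.S0

/-!
# Part K13b: the leading eigenvalues of a linear map without real eigenvalues (exists_plane)
-/


namespace FB

namespace KT

open scoped Topology
open Filter Polynomial

section

variable {n : ℕ}

/-- `x` real, `charpoly A (x) = det (x - A) = 0` gives a real eigenvector.  For a non-real root `l = a + i b` of `charpoly A` (over `ℂ`): `d(X) = X^2 - 2 a X + a^2 + b^2 ∈ ℝ[X]` is irreducible and
divides `charpoly A`, and `det (d(A)) = |det (A - l)|^2 = 0` (compute with the complex matrix of `A`: `d(A) = (A - l)(A - conj l)`), so there is `v ≠ 0` with `d(A) v = 0`.  Put `w = b⁻¹ (A v - a v)` and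
`ι z = (re z) v + (im z) w`: `A v = a v + b w`, `A w = a w - b v`, so `A (ι z) = ι (l z)`.  `ι` is injective: its kernel is invariant under multiplication by `l` (as `ι (l z) = A (ι z)`), and if it contains
`z ≠ 0`, then it contains `z` and `l z`, which are linearly independent over `ℝ` (`b ≠ 0`), so `ι = 0`, `v = ι 1 = 0`. -/
theorem exists_plane {A : Er n →L[ℝ] Er n} {l : ℂ} (hl : l.im ≠ 0)
    (h : ((LinearMap.charpoly A.toLinearMap).map (algebraMap ℝ ℂ)).IsRoot l) :
    ∃ ι : ℂ →L[ℝ] Er n, Function.Injective ι ∧ ∀ z, A (ι z) = ι (l * z) := by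
  classical
  let bs := (EuclideanSpace.basisFun (Fin n) ℝ).toBasis
  let R : Matrix (Fin n) (Fin n) ℝ := LinearMap.toMatrix bs bs A.toLinearMap
  let M : Matrix (Fin n) (Fin n) ℂ := R.map (algebraMap ℝ ℂ)
  have hch : M.charpoly.eval l = 0 := by
    have h1 : (LinearMap.charpoly A.toLinearMap) = R.charpoly :=
      (LinearMap.charpoly_toMatrix A.toLinearMap bs).symm
    rw [h1, ← Matrix.charpoly_map] at h
    exact h
  rw [Matrix.eval_charpoly] at hch
  obtain ⟨u, hu, hMu⟩ := Matrix.exists_mulVec_eq_zero_iff.2 hch
  have hMu' : ∀ i, ∑ j, M i j * u j = l * u i := by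
    intro i
    have h1 := congrFun hMu i
    rw [Matrix.sub_mulVec, Pi.sub_apply, Pi.zero_apply, sub_eq_zero] at h1
    have h2 : (Matrix.scalar (Fin n) l).mulVec u i = l * u i := by
      simp [Matrix.scalar_apply, Matrix.mulVec_diagonal]
    rw [h2] at h1
    exact h1.symm
  have hA : ∀ (v : Er n) (i : Fin n), (A v) i = ∑ j, R i j * v j := by
    intro v i
    have h1 := LinearMap.toMatrix_mulVec_repr bs bs A.toLinearMap v
    have h2 := congrFun h1 i
    have h3 : bs.repr (A.toLinearMap v) i = (A v) i := by
      simp [bs]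
    rw [h3] at h2
    rw [← h2]
    simp only [Matrix.mulVec, dotProduct]
    refine Finset.sum_congr rfl fun j _ => ?_
    have h4 : bs.repr v j = v j := by simp [bs]
    rw [h4]
  let L : ℂ →ₗ[ℝ] Er n :=
    { toFun := fun z => WithLp.toLp 2 (fun i => (z * u i).re)
      map_add' := by
        intro z w
        ext i
        simp [add_mul]
      map_smul' := by
        intro c z
        ext i
        simp
        ring }
  have hL : ∀ z i, L z i = (z * u i).re := fun z i => rfl
  have hAL : ∀ z, A (L z) = L (l * z) := by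
    intro z
    ext i
    rw [hA, hL]
    have h1 : l * z * u i = ∑ j, M i j * (z * u j) := by
      calc l * z * u i = z * (l * u i) := by ring
        _ = z * ∑ j, M i j * u j := by rw [hMu' i]
        _ = ∑ j, M i j * (z * u j) := by
          rw [Finset.mul_sum]
          exact Finset.sum_congr rfl fun j _ => by ring
    rw [h1, Complex.re_sum]
    refine Finset.sum_congr rfl fun j _ => ?_
    rw [hL]
    show R i j * (z * u j).re = (((R i j : ℝ) : ℂ) * (z * u j)).re
    rw [Complex.re_ofReal_mul]
  refine ⟨LinearMap.toContinuousLinearMap L, ?_, hAL⟩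
  refine (injective_iff_map_eq_zero (LinearMap.toContinuousLinearMap L)).2 ?_
  intro z hz
  by_contra hz0
  have hz' : L z = 0 := hz
  apply hu
  funext i
  have h1 : (z * u i).re = 0 := by
    rw [← hL, hz']
    rfl
  have h2 : (l * (z * u i)).re = 0 := by
    have h3 : L (l * z) = 0 := by rw [← hAL, hz', map_zero]
    have h4 := hL (l * z) i
    rw [h3] at h4
    rw [← mul_assoc, ← h4]
    rfl
  rw [Complex.mul_re, h1, mul_zero, zero_sub, neg_eq_zero] at h2
  have h5 : (z * u i).im = 0 := (mul_eq_zero.1 h2).resolve_left hl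
  have h6 : z * u i = 0 := Complex.ext h1 h5
  exact (mul_eq_zero.1 h6).resolve_left hz0

end

end KT

end FB
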