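import Pool.Agent.H.MP_fb873c_an.J18a
import Pool.Agent.H.MP_fb873c_an.J18b1
import Pool.Agent.H.MP_fb873c_an.J18b2
import Pool.Agent.H.MP_fb873c_an.J18b3
import Pool.Agent.H.MP_fb873c_an.K13b1

/-!
# Part J18c: the direction
-/

namespace FB

namespace JT

open scoped Topology ContDiff
open Filter KT

/-- `exists_plane` (file K13b1, namespace `FB.KT`) gives `ι` with `A ι = ι l`; `π0` a left inverse (`LinearMap.exists_leftInverse_of_injective`, continuous in finite dimension).  `exists_unity` with a small `δ'` gives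
`b, lam`; `a = lam / l - 1`, `‖a‖ = ‖lam - l‖ < δ'`, `l (1 + a) = lam`.  For `ε > 0` small `‖kap ι π0 a ε‖ < δ` (`kap_norm`), and, with `P = 1 - ι π0`, `B = P A^b`, `eventually_inj` holds for `ε`:
by `kap_pow`, `P A'^b y = (1 + ε)^b P A^b y`; `P A^b ι = 0`, so `P A^b y = P A^b (P y)`; if `P A'^b y = P y` then `(1 + ε)^b P A^b (P y) = P y`, so `P y = 0`.  `exists_pi`. -/
theorem exists_RD {n : ℕ} {A : Er n →L[ℝ] Er n} {l : ℂ} (hl : l.im ≠ 0) (hn : ‖l‖ = 1)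
    (hr : ((LinearMap.charpoly A.toLinearMap).map (algebraMap ℝ ℂ)).IsRoot l) {δ : ℝ}
    (hδ : 0 < δ) :
    ∃ (K : Er n →L[ℝ] Er n) (lam : ℂ) (b : ℕ) (ι : ℂ →L[ℝ] Er n) (π : Er n →L[ℝ] ℂ), ‖K‖ < δ ∧
      RD (A ∘L (ContinuousLinearMap.id ℝ (Er n) + K)) lam b ι π := by
  obtain ⟨ι, hinj, hA⟩ := exists_plane hl hr
  obtain ⟨g, hg⟩ := LinearMap.exists_leftInverse_of_injective (ι : ℂ →ₗ[ℝ] Er n)
    (LinearMap.ker_eq_bot.2 hinj)
  let π0 : Er n →L[ℝ] ℂ := LinearMap.toContinuousLinearMap g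
  have hπ : ∀ z, π0 (ι z) = z := by
    intro z
    have h := congrArg (fun f : ℂ →ₗ[ℝ] ℂ => f z) hg
    exact h
  have hC0 : 0 ≤ ‖ι‖ * ‖π0‖ := by positivity
  have hd' : 0 < δ / (2 * (‖ι‖ * ‖π0‖ + 1)) := by positivity
  obtain ⟨b, lam, hb5, hb, hprim, hlam⟩ := exists_unity hn hd'
  have hl0 : l ≠ 0 := by
    intro h
    rw [h, norm_zero] at hn
    exact zero_ne_one hn
  have ha1 : l * (1 + (lam / l - 1)) = lam := by
    field_simp
    ring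
  have ha : ‖lam / l - 1‖ < δ / (2 * (‖ι‖ * ‖π0‖ + 1)) := by
    have h : lam / l - 1 = (lam - l) / l := by
      field_simp
    rw [h, norm_div, hn, div_one]
    exact hlam
  set a : ℂ := lam / l - 1 with hadef
  set P : Er n →L[ℝ] Er n := ContinuousLinearMap.id ℝ (Er n) - ι ∘L π0 with hP
  have hPv : ∀ v, P v = v - ι (π0 v) := fun v => rfl
  have hPi : ∀ w, P (ι w) = 0 := by
    intro w
    rw [hPv, hπ, sub_self]
  have hAb : ∀ (j : ℕ) (z : ℂ), (A ^ j) (ι z) = ι (l ^ j * z) := by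
    intro j
    induction j with
    | zero => intro z; simp
    | succ j ih =>
      intro z
      have e : (A ^ (j + 1)) (ι z) = A ((A ^ j) (ι z)) := by
        rw [pow_succ']
        rfl
      rw [e, ih, hA]
      congr 1
      ring
  have hev1 : ∀ᶠ ε : ℝ in 𝓝[>] 0, ε < δ / (2 * (‖ι‖ * ‖π0‖ + 1)) :=
    mem_nhdsWithin_of_mem_nhds (Iio_mem_nhds hd')
  have hev2 := eventually_inj (P ∘L (A ^ b)) (b := b) (by omega)
  have hev3 : ∀ᶠ ε : ℝ in 𝓝[>] 0, 0 < ε := self_mem_nhdsWithin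
  obtain ⟨ε, ⟨hε1, hε2⟩, hε3⟩ := ((hev1.and hev2).and hev3).exists
  have hkap : ‖kap ι π0 a ε‖ < δ := by
    refine (kap_norm ι π0 a ε).trans_lt ?_
    rw [abs_of_pos hε3]
    have h1 : ‖ι‖ * ‖a‖ * ‖π0‖ ≤ (‖ι‖ * ‖π0‖) * (δ / (2 * (‖ι‖ * ‖π0‖ + 1))) := by
      have : ‖ι‖ * ‖a‖ * ‖π0‖ = (‖ι‖ * ‖π0‖) * ‖a‖ := by ring
      rw [this]
      exact mul_le_mul_of_nonneg_left ha.le hC0
    have h2 : ε * (1 + ‖ι‖ * ‖π0‖) < (δ / (2 * (‖ι‖ * ‖π0‖ + 1))) * (1 + ‖ι‖ * ‖π0‖) :=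
      mul_lt_mul_of_pos_right hε1 (by linarith)
    have h3 : (δ / (2 * (‖ι‖ * ‖π0‖ + 1))) * (1 + ‖ι‖ * ‖π0‖) = δ / 2 := by
      have : ‖ι‖ * ‖π0‖ + 1 ≠ 0 := by positivity
      field_simp
      ring
    have h4 : (‖ι‖ * ‖π0‖) * (δ / (2 * (‖ι‖ * ‖π0‖ + 1))) ≤ δ / 2 := by
      rw [← h3, mul_comm]
      exact mul_le_mul_of_nonneg_left (by linarith) hd'.le
    linarith
  have hA' : ∀ z, (A ∘L (ContinuousLinearMap.id ℝ (Er n) + kap ι π0 a ε)) (ι z) =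
      ι (lam * z) := by
    intro z
    rw [kap_iota hA hπ z, ha1]
  have hPA : ∀ y, ((A ∘L (ContinuousLinearMap.id ℝ (Er n) + kap ι π0 a ε)) ^ b) y -
      ι (π0 (((A ∘L (ContinuousLinearMap.id ℝ (Er n) + kap ι π0 a ε)) ^ b) y)) =
        y - ι (π0 y) → y - ι (π0 y) = 0 := by
    intro y hy
    have h1 := congrArg (fun f : Er n →L[ℝ] Er n => f y) (kap_pow (ε := ε) (a := a) hA hπ b)
    have h2 : P (((A ∘L (ContinuousLinearMap.id ℝ (Er n) + kap ι π0 a ε)) ^ b) y) =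
        ((1 + ε) ^ b : ℝ) • P ((A ^ b) y) := h1
    have h3 : P ((A ^ b) (P y)) = P ((A ^ b) y) := by
      rw [hPv y, map_sub, hAb, map_sub, hPi, sub_zero]
    have h4 : ((1 + ε) ^ b : ℝ) • (P ∘L (A ^ b)) (P y) = P y := by
      have h5 : (P ∘L (A ^ b)) (P y) = P ((A ^ b) (P y)) := rfl
      rw [h5, h3, ← h2, hPv, hPv y]
      exact hy
    exact hε2 (P y) h4
  obtain ⟨π, hπR⟩ := exists_pi (A' := A ∘L (ContinuousLinearMap.id ℝ (Er n) + kap ι π0 a ε))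
    hA' hπ hb5 hb hprim hPA
  exact ⟨kap ι π0 a ε, lam, b, ι, π, hkap, hπR⟩

end JT

end FB
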