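import Pool.Agent.H.MP_fb873c_an.D2c
import Pool.Agent.H.MP_fb873c_an.J17
import Pool.Agent.H.MP_fb873c_an.J18c

/-!
# Part J19a: first stage: the eigenvalue becomes a root of unity
-/

namespace FB

namespace JT

open scoped Topology ContDiff Manifold
open Filter KT Metric

universe u

variable {n : ℕ} {M : Type u} [TopologicalSpace M] [ChartedSpace (Er n) M]
  [IsManifold (𝓡 n) ∞ M] [T2Space M]

/-- `family_ball` with `P = Er n →L[ℝ] Er n`, `w K z = K z`: `H K` is in `O` for `K` near `0` (`eventually_mem_open`, file D2c).  For `z = φ p`: `(H K)^[k] p = f^[k] p = p`, `(H K)^[i] p ≠ p` (as `p ∈ φ.symm '' ball`).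
`φ ∘ (H K)^[k] ∘ φ.symm = (φ ∘ f^[k] ∘ φ.symm) ∘ (z ↦ z + K (z - φ p))` near `φ p`, so the derivative at `φ p` is `A ∘ (1 + K)` (chain rule, as in the proof of `final_pert`, file K15).  `exists_RD` with `δ`. -/
theorem stage_one {k : ℕ} (hk : 0 < k) (f : Dif n M) {O : Set (Dif n M)}
    (hO : IsOpen[crTop n M ⊤] O) (hfO : f ∈ O) {p : M} (hp : (f : M → M)^[k] p = p)
    (hmin : ∀ i, 0 < i → i < k → (f : M → M)^[i] p ≠ p) {l : ℂ} (hl : l.im ≠ 0) (hn : ‖l‖ = 1)
    (hr : ((LinearMap.charpoly (dfix (n := n) ((f : M → M)^[k]) p).toLinearMap).map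
      (algebraMap ℝ ℂ)).IsRoot l) :
    ∃ g ∈ O, (g : M → M)^[k] p = p ∧ (∀ i, 0 < i → i < k → (g : M → M)^[i] p ≠ p) ∧
      ∃ (lam : ℂ) (b : ℕ) (ι : ℂ →L[ℝ] Er n) (π : Er n →L[ℝ] ℂ),
        RD (dfix (n := n) ((g : M → M)^[k]) p) lam b ι π := by
  have hw : ContDiff ℝ ∞ (fun q : (Er n →L[ℝ] Er n) × Er n =>
      (fun (K : Er n →L[ℝ] Er n) (z : Er n) => K z) q.1 q.2) :=
    contDiff_fst.clm_apply contDiff_snd
  obtain ⟨H, ρ, hρ, hsm, hH0, hball, hev⟩ := family_ball (P := Er n →L[ℝ] Er n) hk f hp hmin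
    (fun K z => K z) hw (fun z => by simp)
  have hO1 := eventually_mem_open f H hH0 hsm hO hfO
  obtain ⟨δ, hδ, hδ'⟩ := Metric.eventually_nhds_iff.1 (hO1.and hev)
  obtain ⟨K, lam, b, ι, π, hK, hRD⟩ := exists_RD hl hn hr hδ
  have hK' : dist K 0 < δ := by rwa [dist_zero_right]
  obtain ⟨h1, h2⟩ := hδ' hK'
  obtain ⟨φ, hφdef⟩ : ∃ φ : OpenPartialHomeomorph M (Er n), φ = chartAt (Er n) p := ⟨_, rfl⟩
  have hφ : φ ∈ atlas (Er n) M := by
    rw [hφdef]
    exact chart_mem_atlas (Er n) p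
  have hps : p ∈ φ.source := by
    rw [hφdef]
    exact mem_chart_source (Er n) p
  rw [← hφdef] at h2 hball
  have hpc : φ.symm (φ p) = p := φ.left_inv hps
  obtain ⟨h3, h4⟩ := h2 (φ p) (mem_ball_self hρ)
  rw [hpc, sub_self, map_zero, add_zero, hpc, hp] at h3
  refine ⟨H K, h1, h3, ?_, lam, b, ι, π, ?_⟩
  · intro i hi hik hc
    apply h4 i hi hik
    rw [hpc, hc]
    exact ⟨φ p, mem_ball_self hρ, hpc⟩
  · have e : dfix (n := n) ((H K : M → M)^[k]) p = (dfix (n := n) ((f : M → M)^[k]) p) ∘L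
        (ContinuousLinearMap.id ℝ (Er n) + K) := by
      unfold dfix
      rw [← hφdef]
      obtain ⟨F, hF⟩ : ∃ F : Er n → Er n, F = φ ∘ (f : M → M)^[k] ∘ φ.symm := ⟨_, rfl⟩
      have hFd : DifferentiableAt ℝ F (φ p) := by
        have g1 := smF_iterate (P := ℝ) (F := fun _ => (f : M → M)) (fun x => smF_const f x) k p
        have g2 := smF_chart g1 hφ hφ hps (by rw [hp]; exact hps)
        have g3 : ContDiffAt ℝ ∞ (fun z : Er n => ((0 : ℝ), z)) (φ p) := by fun_prop
        have g4 := ContDiffAt.comp (φ p) (f := fun z : Er n => ((0 : ℝ), z)) g2 g3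
        rw [hF]
        exact g4.differentiableAt (by simp)
      have hA0 : φ p + K (φ p - φ p) = φ p := by simp
      have hev : φ ∘ (H K : M → M)^[k] ∘ φ.symm =ᶠ[𝓝 (φ p)]
          fun z => F (z + K (z - φ p)) := by
        filter_upwards [Metric.isOpen_ball.mem_nhds (mem_ball_self hρ)] with z hz
        rw [hF]
        exact congrArg φ (h2 z hz).1
      rw [hev.fderiv_eq, ← hF]
      have hA : HasFDerivAt (fun z : Er n => z + K (z - φ p))
          (ContinuousLinearMap.id ℝ (Er n) + K) (φ p) := by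
        have g1 : HasFDerivAt (fun z : Er n => z - φ p) (ContinuousLinearMap.id ℝ (Er n))
            (φ p) :=
          (hasFDerivAt_id _).sub_const _
        have g2 : HasFDerivAt (fun z : Er n => K (z - φ p)) K (φ p) := by
          have := K.hasFDerivAt.comp (φ p) g1
          rwa [ContinuousLinearMap.comp_id] at this
        exact (hasFDerivAt_id _).add g2
      have hF1 : HasFDerivAt F (fderiv ℝ F (φ p)) (φ p + K (φ p - φ p)) := by
        rw [hA0]
        exact hFd.hasFDerivAt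
      exact (hF1.comp (φ p) hA).fderiv
    rw [e]
    exact hRD

end JT

end FB
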