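import Pool.Agent.H.MP_fb873c_an.J15a1
import Pool.Agent.H.MP_fb873c_an.J17

/-!
# Part J19b2: the return map in the chart
-/

namespace FB

namespace JT

open scoped Topology ContDiff Manifold
open Filter KT Metric

universe u

variable {n : ℕ} {M : Type u} [TopologicalSpace M] [ChartedSpace (Er n) M]
  [IsManifold (𝓡 n) ∞ M] [T2Space M]

/-- The return map in the chart. -/
noncomputable def Ret (g : Dif n M) (k : ℕ) (p : M) (x : Er n) : Er n :=
  chartAt (Er n) p ((g : M → M)^[k] ((chartAt (Er n) p).symm (chartAt (Er n) p p + x))) -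
    chartAt (Er n) p p

/-- Smoothness: `contMDiff_iterate` (file D2b), `smF_chart` with `smF_const`, `smF_iterate`, or directly; derivative: `fderiv_comp_add_left`-like. -/
theorem loc_Ret (g : Dif n M) {k : ℕ} {p : M} (hp : (g : M → M)^[k] p = p) :
    Loc (Ret g k p) (dfix (n := n) ((g : M → M)^[k]) p) := by
  have hsrc : p ∈ (chartAt (Er n) p).source := mem_chart_source (Er n) p
  have hl : (chartAt (Er n) p).symm (chartAt (Er n) p p) = p :=
    (chartAt (Er n) p).left_inv hsrc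
  have hsm : ContDiffAt ℝ ∞ (fun z : Er n => chartAt (Er n) p
      ((g : M → M)^[k] ((chartAt (Er n) p).symm z))) (chartAt (Er n) p p) := by
    have h1 : SmF n (fun _ : ℝ => (g : M → M)^[k]) p :=
      smF_iterate (F := fun _ : ℝ => (g : M → M)) (fun x => smF_const g x) k p
    have h2 := smF_chart h1 (chart_mem_atlas (Er n) p) (chart_mem_atlas (Er n) p) hsrc
      (by show (g : M → M)^[k] p ∈ _; rw [hp]; exact hsrc)
    have h3 : ContDiffAt ℝ ∞ (fun z : Er n => ((0 : ℝ), z)) (chartAt (Er n) p p) :=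
      contDiffAt_const.prodMk contDiffAt_id
    exact h2.comp (chartAt (Er n) p p) h3
  refine ⟨?_, ?_, ?_⟩
  · have h4 : ContDiffAt ℝ ∞ (fun x : Er n => chartAt (Er n) p p + x) 0 :=
      contDiffAt_const.add contDiffAt_id
    have h5 : ContDiffAt ℝ ∞ (fun z : Er n => chartAt (Er n) p
        ((g : M → M)^[k] ((chartAt (Er n) p).symm z))) (chartAt (Er n) p p + 0) := by
      rw [add_zero]
      exact hsm
    exact (ContDiffAt.comp (0 : Er n) h5 h4).sub contDiffAt_const
  · show chartAt (Er n) p ((g : M → M)^[k] ((chartAt (Er n) p).symm (chartAt (Er n) p p + 0))) -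
      chartAt (Er n) p p = 0
    rw [add_zero, hl, hp, sub_self]
  · have h6 : Ret g k p = fun x : Er n => (fun z : Er n => chartAt (Er n) p
        ((g : M → M)^[k] ((chartAt (Er n) p).symm z))) (chartAt (Er n) p p + x) -
          chartAt (Er n) p p := rfl
    have h7 := fderiv_comp_add_left (𝕜 := ℝ) (f := fun z : Er n => chartAt (Er n) p
        ((g : M → M)^[k] ((chartAt (Er n) p).symm z))) (x := (0 : Er n)) (chartAt (Er n) p p)
    rw [add_zero] at h7
    rw [h6, fderiv_sub_const]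
    exact h7

/-- `family_ball` with `P = ℂ × ℝ`, `w s x = hep ι π s.2 (hmu ι π s.1 x) - x` (`pert_smooth`, `hep_id`, `hmu_id`) gives `H` and a radius `ρ0`.  By continuity at `(s, z) = (0, φ p)` there is `ρ ≤ ρ0` such that for small `s` and
`z ∈ ball (φ p) ρ`: `g^[k] (φ.symm (z + w s (z - φ p))) ∈ φ.source` (at `(0, φ p)` it is `p`), and `z + w s (z - φ p) = φ p + hep (hmu (z - φ p))`. -/
theorem res_family {k : ℕ} (hk : 0 < k) (g : Dif n M) {p : M} (hp : (g : M → M)^[k] p = p)
    (hmin : ∀ i, 0 < i → i < k → (g : M → M)^[i] p ≠ p) (ι : ℂ →L[ℝ] Er n) (π : Er n →L[ℝ] ℂ) :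
    ∃ (H : ℂ × ℝ → Dif n M) (ρ : ℝ), 0 < ρ ∧ (∀ x, SmF n (fun s => (H s : M → M)) x) ∧
      (∀ x, H 0 x = g x) ∧ ball (chartAt (Er n) p p) ρ ⊆ (chartAt (Er n) p).target ∧
      ∀ᶠ s in 𝓝 (0 : ℂ × ℝ), ∀ z ∈ ball (chartAt (Er n) p p) ρ,
        (H s : M → M)^[k] ((chartAt (Er n) p).symm z) ∈ (chartAt (Er n) p).source ∧
        Ret g k p (hep ι π s.2 (hmu ι π s.1 (z - chartAt (Er n) p p))) =
          chartAt (Er n) p ((H s : M → M)^[k] ((chartAt (Er n) p).symm z)) -
            chartAt (Er n) p p ∧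
        ∀ i, 0 < i → i < k → (H s : M → M)^[i] ((chartAt (Er n) p).symm z) ∉
          (chartAt (Er n) p).symm '' ball (chartAt (Er n) p p) ρ := by
  have hsrc : p ∈ (chartAt (Er n) p).source := mem_chart_source (Er n) p
  have hl : (chartAt (Er n) p).symm (chartAt (Er n) p p) = p :=
    (chartAt (Er n) p).left_inv hsrc
  obtain ⟨w, hw⟩ : ∃ w : ℂ × ℝ → Er n → Er n,
      w = fun s x => hep ι π s.2 (hmu ι π s.1 x) - x := ⟨_, rfl⟩
  have hws : ContDiff ℝ ∞ (fun q : (ℂ × ℝ) × Er n => w q.1 q.2) := by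
    rw [hw]
    exact pert_smooth ι π
  have hw0 : ∀ z, w 0 z = 0 := by
    intro z
    rw [hw]
    show hep ι π 0 (hmu ι π 0 z) - z = 0
    rw [hmu_id, hep_id, sub_self]
  obtain ⟨H, ρ0, hρ0, hH1, hH2, hH3, hH4⟩ := family_ball hk g hp hmin w hws hw0
  -- the point stays in the chart
  have hcont : ContinuousAt (fun q : (ℂ × ℝ) × Er n => (g : M → M)^[k]
      ((chartAt (Er n) p).symm (q.2 + w q.1 (q.2 - chartAt (Er n) p p))))
      ((0 : ℂ × ℝ), chartAt (Er n) p p) := by
    have c1 : Continuous (fun q : (ℂ × ℝ) × Er n =>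
        q.2 + w q.1 (q.2 - chartAt (Er n) p p)) := by
      have c2 : Continuous (fun q : (ℂ × ℝ) × Er n => (q.1, q.2 - chartAt (Er n) p p)) :=
        continuous_fst.prodMk (continuous_snd.sub continuous_const)
      exact continuous_snd.add (hws.continuous.comp c2)
    have e1 : (fun q : (ℂ × ℝ) × Er n => q.2 + w q.1 (q.2 - chartAt (Er n) p p))
        ((0 : ℂ × ℝ), chartAt (Er n) p p) = chartAt (Er n) p p := by
      show chartAt (Er n) p p + w 0 (chartAt (Er n) p p - chartAt (Er n) p p) = _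
      rw [hw0, add_zero]
    have c3 : ContinuousAt (chartAt (Er n) p).symm
        ((fun q : (ℂ × ℝ) × Er n => q.2 + w q.1 (q.2 - chartAt (Er n) p p))
          ((0 : ℂ × ℝ), chartAt (Er n) p p)) := by
      rw [e1]
      exact (chartAt (Er n) p).continuousAt_symm (mem_chart_target (Er n) p)
    have c4 : Continuous ((g : M → M)^[k]) := (contMDiff_iterate g k).continuous
    exact c4.continuousAt.comp (ContinuousAt.comp
      (f := fun q : (ℂ × ℝ) × Er n => q.2 + w q.1 (q.2 - chartAt (Er n) p p)) c3 c1.continuousAt)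
  have hev : ∀ᶠ q : (ℂ × ℝ) × Er n in 𝓝 ((0 : ℂ × ℝ), chartAt (Er n) p p),
      (g : M → M)^[k] ((chartAt (Er n) p).symm (q.2 + w q.1 (q.2 - chartAt (Er n) p p))) ∈
        (chartAt (Er n) p).source := by
    refine hcont.eventually (?_ : ∀ᶠ y in 𝓝 _, y ∈ (chartAt (Er n) p).source)
    refine (chartAt (Er n) p).open_source.mem_nhds ?_
    show (g : M → M)^[k] ((chartAt (Er n) p).symm
      (chartAt (Er n) p p + w 0 (chartAt (Er n) p p - chartAt (Er n) p p))) ∈ _
    rw [hw0, add_zero, hl, hp]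
    exact hsrc
  rw [nhds_prod_eq, Filter.eventually_prod_iff] at hev
  obtain ⟨pa, hpa, pb, hpb, hab⟩ := hev
  obtain ⟨ρ1, hρ1, hball⟩ := Metric.eventually_nhds_iff_ball.1 hpb
  refine ⟨H, min ρ0 ρ1, lt_min hρ0 hρ1, hH1, hH2,
    (ball_subset_ball (min_le_left _ _)).trans hH3, ?_⟩
  filter_upwards [hH4, hpa] with s hs hpas z hz
  have hz0 : z ∈ ball (chartAt (Er n) p p) ρ0 := ball_subset_ball (min_le_left _ _) hz
  have hz1 : z ∈ ball (chartAt (Er n) p p) ρ1 := ball_subset_ball (min_le_right _ _) hz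
  obtain ⟨h1, h2⟩ := hs z hz0
  refine ⟨?_, ?_, ?_⟩
  · rw [h1]
    exact hab hpas (hball z hz1)
  · rw [h1]
    have h3 : z + w s (z - chartAt (Er n) p p) =
        chartAt (Er n) p p + hep ι π s.2 (hmu ι π s.1 (z - chartAt (Er n) p p)) := by
      have h4 : w s (z - chartAt (Er n) p p) =
          hep ι π s.2 (hmu ι π s.1 (z - chartAt (Er n) p p)) - (z - chartAt (Er n) p p) := by
        rw [hw]
      rw [h4]
      abel
    rw [h3]
    rfl
  · intro i hi hik hmem
    refine h2 i hi hik ?_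
    exact Set.image_mono (ball_subset_ball (min_le_left _ _)) hmem

end JT

end FB
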