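import Pool.Agent.H.MP_fb873c_an.K00
import Pool.Agent.H.MP_fb873c_an.S0

/-!
# Part J19b1: orbits in a chart
-/

namespace FB

namespace JT

open scoped Topology ContDiff Manifold
open Filter KT Metric

universe u

variable {n : ℕ} {M : Type u} [TopologicalSpace M]

/-- Induction on `j` (`Function.iterate_succ_apply'`). -/
theorem chart_iter {φ : OpenPartialHomeomorph M (Er n)} {G : M → M} {Φ : Er n → Er n} {c : Er n}
    {ρ : ℝ} (hG : ∀ z ∈ ball c ρ, G (φ.symm z) = φ.symm (c + Φ (z - c))) {x : Er n} {j : ℕ}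
    (hx : ∀ i < j, ‖Φ^[i] x‖ < ρ) : G^[j] (φ.symm (c + x)) = φ.symm (c + Φ^[j] x) := by
  induction j with
  | zero => rfl
  | succ j ih =>
    have h1 := ih (fun i hi => hx i (by omega))
    have h2 := hx j (by omega)
    rw [Function.iterate_succ_apply', h1, Function.iterate_succ_apply']
    have h3 := hG (c + Φ^[j] x) (by rw [mem_ball, dist_eq_norm, add_sub_cancel_left]; exact h2)
    rw [h3, add_sub_cancel_left]

/-- `G^[k * b] = (G^[k])^[b]` (`Function.iterate_mul`), `chart_iter`.  Let `0 < i < k b`, `i = k j + t`, `t < k`, `j < b`; `G^[i] y = G^[t] (φ.symm (c + Φ^[j] x))`; if `t > 0` this is not in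
`φ.symm '' ball c ρ`, which contains `y = φ.symm (c + x)`; if `t = 0` then `j > 0` and `Φ^[j] x ≠ x`, and `φ.symm` is injective on the ball (in `φ.target`). -/
theorem per_iter {φ : OpenPartialHomeomorph M (Er n)} {G : M → M} {Φ : Er n → Er n} {c : Er n}
    {ρ : ℝ} {k b : ℕ} (hk : 0 < k) (hb : 0 < b) (hball : ball c ρ ⊆ φ.target)
    (hG : ∀ z ∈ ball c ρ, G^[k] (φ.symm z) = φ.symm (c + Φ (z - c)))
    (hoff : ∀ z ∈ ball c ρ, ∀ i, 0 < i → i < k → G^[i] (φ.symm z) ∉ φ.symm '' ball c ρ)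
    {x : Er n} (hx : ∀ j ≤ b, ‖Φ^[j] x‖ < ρ) (hb' : Φ^[b] x = x)
    (hmin : ∀ j, 0 < j → j < b → Φ^[j] x ≠ x) :
    G^[k * b] (φ.symm (c + x)) = φ.symm (c + x) ∧
      ∀ i, 0 < i → i < k * b → G^[i] (φ.symm (c + x)) ≠ φ.symm (c + x) := by
  have key : ∀ j ≤ b, G^[k * j] (φ.symm (c + x)) = φ.symm (c + Φ^[j] x) := by
    intro j hj
    rw [Function.iterate_mul]
    exact chart_iter hG (fun i hi => hx i (by omega))
  have hm : ∀ j ≤ b, c + Φ^[j] x ∈ ball c ρ := by
    intro j hj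
    rw [mem_ball, dist_eq_norm, add_sub_cancel_left]
    exact hx j hj
  have hm0 : c + x ∈ ball c ρ := hm 0 (Nat.zero_le _)
  refine ⟨by rw [key b le_rfl, hb'], ?_⟩
  intro i hi0 hi heq
  have hdiv : i / k < b := Nat.div_lt_of_lt_mul hi
  have h1 : G^[i] (φ.symm (c + x)) = G^[i % k] (φ.symm (c + Φ^[i / k] x)) := by
    conv_lhs => rw [← Nat.mod_add_div i k]
    rw [Function.iterate_add_apply, key _ hdiv.le]
  rw [h1] at heq
  rcases Nat.eq_zero_or_pos (i % k) with ht | ht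
  · rw [ht, Function.iterate_zero, id] at heq
    have hj0 : 0 < i / k := by
      rcases Nat.eq_zero_or_pos (i / k) with h2 | h2
      · exfalso
        have h3 := Nat.mod_add_div i k
        rw [ht, h2, mul_zero] at h3
        omega
      · exact h2
    have h2 := φ.symm.injOn (hball (hm _ hdiv.le)) (hball hm0) heq
    exact hmin _ hj0 hdiv (add_left_cancel h2)
  · apply hoff _ (hm _ hdiv.le) (i % k) ht (Nat.mod_lt _ hk)
    rw [heq]
    exact ⟨c + x, hm0, rfl⟩

end JT

end FB
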