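import Pool.Agent.H.MP_fb873c_an.K0

/-!
# Part K13a: simple real eigenvalues (simpleReal_smul, simpleReal_conj)
-/


namespace FB

namespace KT

open scoped Topology
open Filter Polynomial

section

variable {n : ℕ}

/-- `charpoly (c A) (c X) = c^n charpoly A (X)`; compare at all real points (`LinearMap.eval_charpoly`-like, see `DF1b_charpoly` (file DF1b) or `D1h_charpoly` (file D1h)), so the
derivative at `c μ` is `c^(n-1)` times the derivative of `charpoly A` at `μ`. -/
theorem simpleReal_smul {A : Er n →L[ℝ] Er n} {c : ℝ} (hc : c ≠ 0) (h : SimpleReal A) :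
    SimpleReal (c • A) := by
  obtain ⟨μ, h0, h1⟩ := h
  have key : (LinearMap.charpoly (c • A).toLinearMap).comp (C c * X) =
      C (c ^ Module.finrank ℝ (Er n)) * LinearMap.charpoly A.toLinearMap := by
    refine Polynomial.funext fun x => ?_
    rw [eval_comp, eval_mul, eval_mul, eval_C, eval_X, eval_C, LinearMap.eval_charpoly,
      LinearMap.eval_charpoly, ← LinearMap.det_smul]
    congr 1
    ext v : 1
    simp [smul_sub, smul_comm x c v]
  have key2 := congrArg derivative key
  rw [derivative_comp, derivative_C_mul, derivative_C_mul, derivative_X, mul_one] at key2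
  refine ⟨c * μ, ?_, ?_⟩
  · have h2 := congrArg (eval μ) key
    rw [eval_comp, eval_mul, eval_mul, eval_C, eval_X, eval_C, h0, mul_zero] at h2
    exact h2
  · have h2 := congrArg (eval μ) key2
    rw [eval_mul, eval_C, eval_comp, eval_mul, eval_mul, eval_C, eval_X, eval_C] at h2
    intro h3
    rw [h3, mul_zero] at h2
    exact mul_ne_zero (pow_ne_zero _ hc) h1 h2.symm

/-- `LinearEquiv.charpoly_conj`. -/
theorem simpleReal_conj {A : Er n →L[ℝ] Er n} (e : Er n ≃L[ℝ] Er n) (h : SimpleReal A) :
    SimpleReal ((e : Er n →L[ℝ] Er n) ∘L A ∘L (e.symm : Er n →L[ℝ] Er n)) := by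
  have h1 : ((e : Er n →L[ℝ] Er n) ∘L A ∘L (e.symm : Er n →L[ℝ] Er n)).toLinearMap =
      e.toLinearEquiv.conj A.toLinearMap := by
    ext v : 1
    rfl
  unfold SimpleReal
  rw [h1, LinearEquiv.charpoly_conj]
  exact h

end

end KT

end FB
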