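import Pool.Agent.H.MP_fb873c_an.D1d
import Pool.Agent.H.MP_fb873c_an.J19b1
import Pool.Agent.H.MP_fb873c_an.K13a1

/-!
# Part J19b3: the derivative along the orbit
-/

namespace FB

namespace JT

open scoped Topology ContDiff Manifold
open Filter KT Metric

universe u

variable {n : ℕ} {M : Type u} [TopologicalSpace M] [ChartedSpace (Er n) M]
  [IsManifold (𝓡 n) ∞ M]

/-- `Φ x' = φ (G (φ.symm (c + x'))) - c` for `‖x'‖ < ρ`, so `Φ` is continuous on the ball and `Φ^[i]` is continuous at `x` for `i ≤ b` (induction, `hx`); so for `x'` near `x`, `‖Φ^[i] x'‖ < ρ` for all `i ≤ b`, and by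
`chart_iter` `G^[b] (φ.symm (c + x')) = φ.symm (c + Φ^[b] x')`, `c + Φ^[b] x' ∈ ball c ρ ⊆ φ.target`: `φ ∘ G^[b] ∘ φ.symm = z ↦ c + Φ^[b] (z - c)` near `c + x = φ y`, `y = φ.symm (c + x)`.  So its derivative at `φ y` is
`fderiv (Φ^[b]) x`.  `D1_conj` (file D1d) and `simpleReal_conj` (file K13a1). -/
theorem der_iter {φ : OpenPartialHomeomorph M (Er n)} (hφ : φ ∈ atlas (Er n) M) {G : M → M}
    (hGc : Continuous G) {Φ : Er n → Er n} {c : Er n} {ρ : ℝ} {b : ℕ} (hball : ball c ρ ⊆ φ.target)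
    (hG : ∀ z ∈ ball c ρ, G (φ.symm z) ∈ φ.source ∧ Φ (z - c) = φ (G (φ.symm z)) - c) {x : Er n}
    (hx : ∀ j ≤ b, ‖Φ^[j] x‖ < ρ) (hb : Φ^[b] x = x)
    (hsm : ContMDiffAt (𝓡 n) (𝓡 n) 1 (G^[b]) (φ.symm (c + x)))
    (hs : SimpleReal (fderiv ℝ (Φ^[b]) x)) :
    SimpleReal (dfix (n := n) (G^[b]) (φ.symm (c + x))) := by
  have hG' : ∀ z ∈ ball c ρ, G (φ.symm z) = φ.symm (c + Φ (z - c)) := by
    intro z hz
    obtain ⟨h1, h2⟩ := hG z hz
    rw [h2, add_sub_cancel, φ.left_inv h1]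
  have hin : ∀ x' : Er n, ‖x'‖ < ρ → c + x' ∈ ball c ρ := by
    intro x' hx'
    rw [mem_ball, dist_eq_norm, add_sub_cancel_left]
    exact hx'
  have hΦ : ∀ x' : Er n, ‖x'‖ < ρ → Φ x' = φ (G (φ.symm (c + x'))) - c := by
    intro x' hx'
    have h1 := (hG (c + x') (hin x' hx')).2
    rwa [add_sub_cancel_left] at h1
  -- continuity of the map in the ball
  have hcont : ∀ x' : Er n, ‖x'‖ < ρ → ContinuousAt Φ x' := by
    intro x' hx'
    have h1 : Φ =ᶠ[𝓝 x'] fun z => φ (G (φ.symm (c + z))) - c := by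
      have h2 : ∀ᶠ z in 𝓝 x', ‖z‖ < ρ := continuous_norm.continuousAt.eventually (gt_mem_nhds hx')
      filter_upwards [h2] with z hz
      exact hΦ z hz
    refine ContinuousAt.congr ?_ h1.symm
    have h3 : ContinuousAt (fun z : Er n => φ.symm (c + z)) x' := by
      refine ContinuousAt.comp (g := φ.symm) ?_ (continuous_const.add continuous_id).continuousAt
      exact φ.continuousAt_symm (hball (hin x' hx'))
    have h4 : ContinuousAt (fun z : Er n => G (φ.symm (c + z))) x' :=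
      ContinuousAt.comp (g := G) hGc.continuousAt h3
    have h5 : ContinuousAt φ (G (φ.symm (c + x'))) := φ.continuousAt (hG _ (hin x' hx')).1
    exact (ContinuousAt.comp (g := φ) (f := fun z : Er n => G (φ.symm (c + z))) h5 h4).sub
      continuousAt_const
  have hit : ∀ i ≤ b, ContinuousAt (Φ^[i]) x := by
    intro i
    induction i with
    | zero => intro _; exact continuousAt_id
    | succ i ih =>
      intro hi
      rw [Function.iterate_succ']
      exact ContinuousAt.comp (hcont _ (hx i (by omega))) (ih (by omega))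
  have hev : ∀ᶠ x' in 𝓝 x, ∀ i ≤ b, ‖Φ^[i] x'‖ < ρ := by
    have h1 : ∀ᶠ x' in 𝓝 x, ∀ i ∈ Set.Iic b, ‖Φ^[i] x'‖ < ρ := by
      rw [Filter.eventually_all_finite (Set.finite_Iic b)]
      intro i hi
      exact ((hit i hi).norm).eventually (gt_mem_nhds (hx i hi))
    filter_upwards [h1] with x' h i hi
    exact h i hi
  -- the base point
  have hx0 : ‖x‖ < ρ := hx 0 (Nat.zero_le b)
  obtain ⟨y, hy⟩ : ∃ y, y = φ.symm (c + x) := ⟨_, rfl⟩
  have hyt : c + x ∈ φ.target := hball (hin x hx0)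
  have hys : y ∈ φ.source := by
    rw [hy]
    exact φ.map_target hyt
  have hφy : φ y = c + x := by
    rw [hy]
    exact φ.right_inv hyt
  have hfix : G^[b] y = y := by
    rw [hy, chart_iter hG' (fun i hi => hx i hi.le), hb]
  rw [← hy] at hsm ⊢
  obtain ⟨e, he⟩ := D1_conj hsm hfix hφ hys
  have hloc : (φ ∘ G^[b] ∘ φ.symm) =ᶠ[𝓝 (φ y)] fun z => c + Φ^[b] (z - c) := by
    have h1 : Tendsto (fun z : Er n => z - c) (𝓝 (φ y)) (𝓝 x) := by
      have h2 : ContinuousAt (fun z : Er n => z - c) (φ y) :=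
        (continuous_id.sub continuous_const).continuousAt
      have h3 : φ y - c = x := by rw [hφy, add_sub_cancel_left]
      have h4 : Tendsto (fun z : Er n => z - c) (𝓝 (φ y)) (𝓝 (φ y - c)) := h2
      rwa [h3] at h4
    filter_upwards [h1.eventually hev] with z hz
    have h4 : c + (z - c) = z := by abel
    show φ (G^[b] (φ.symm z)) = c + Φ^[b] (z - c)
    have h5 := chart_iter hG' (x := z - c) (j := b) (fun i hi => hz i hi.le)
    rw [h4] at h5
    rw [h5]
    exact φ.right_inv (hball (hin _ (hz b le_rfl)))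
  have hder : fderiv ℝ (φ ∘ G^[b] ∘ φ.symm) (φ y) = fderiv ℝ (Φ^[b]) x := by
    rw [hloc.fderiv_eq, fderiv_const_add, fderiv_comp_sub, hφy, add_sub_cancel_left]
  rw [hder] at he
  have hd : dfix (n := n) (G^[b]) y = (e.symm : Er n →L[ℝ] Er n) ∘L (fderiv ℝ (Φ^[b]) x) ∘L
      (e.symm.symm : Er n →L[ℝ] Er n) := by
    rw [he]
    ext1 v
    simp
  rw [hd]
  exact simpleReal_conj e.symm hs

end JT

end FB
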