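import Pool.Agent.H.MP_fb873c_an.D2c
import Pool.Agent.H.MP_fb873c_an.D2j
import Pool.Agent.H.MP_fb873c_an.DF2
import Pool.Agent.H.MP_fb873c_an.K13a1

/-!
# Part K16: make the periodic point nondegenerate
-/

namespace FB

namespace KT

open scoped Topology ContDiff Manifold
open Filter Metric

universe u

section

variable {n : ℕ} {M : Type u} [TopologicalSpace M] [ChartedSpace (Er n) M]
  [IsManifold (𝓡 n) ∞ M] [T2Space M]

omit [ChartedSpace (Er n) M] [IsManifold (𝓡 n) ∞ M] in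
/-- A neighbourhood of `p` without the other points of the orbit. -/
theorem K16_nhds (g : M → M) {p : M} {k : ℕ} (hmin : ∀ i, 0 < i → i < k → g^[i] p ≠ p) :
    {x : M | ∀ i, 0 < i → i < k → x ≠ g^[i] p} ∈ 𝓝 p := by
  classical
  have h1 : ∀ᶠ x in 𝓝 p, ∀ i ∈ Finset.range k, 0 < i → x ≠ g^[i] p := by
    rw [Filter.eventually_all_finset]
    intro i hi
    by_cases h0 : 0 < i
    · have h2 : {x : M | x ≠ g^[i] p} ∈ 𝓝 p :=
        isOpen_ne.mem_nhds (hmin i h0 (Finset.mem_range.1 hi)).symm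
      filter_upwards [h2] with x hx _ using hx
    · exact Filter.Eventually.of_forall fun x h => absurd h h0
  filter_upwards [h1] with x hx i h0 hi using hx i (Finset.mem_range.2 hi) h0

omit [ChartedSpace (Er n) M] [IsManifold (𝓡 n) ∞ M] [T2Space M] [TopologicalSpace M] in
/-- The orbit of `p` does not change. -/
theorem K16_iter {g h : M → M} {p : M} {k : ℕ} {S : Set M}
    (hSV : S ⊆ {x : M | ∀ i, 0 < i → i < k → x ≠ g^[i] p}) (hoff : ∀ x ∉ S, h x = g x)
    (hp : h p = g p) : ∀ i, i ≤ k → h^[i] p = g^[i] p := by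
  intro i
  induction i with
  | zero => intro _; rfl
  | succ i ih =>
    intro hi
    rw [Function.iterate_succ_apply', Function.iterate_succ_apply', ih (by omega)]
    rcases Nat.eq_zero_or_pos i with h0 | h0
    · subst h0
      exact hp
    · exact hoff _ fun hmem => hSV hmem i h0 (by omega) rfl

/-- The proof of `exists_ndg` (file D2k), with the additional condition: the derivative is `(1 + s) A`, `simpleReal_smul`. -/
theorem exists_UR {g : Dif n M} {O : Set (Dif n M)} (hO : IsOpen[crTop n M ⊤] O) (hg : g ∈ O)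
    {x : M} {N : ℕ} (hN : 0 < N) (hx : (g : M → M)^[N] x = x)
    (hmin : ∀ i, 0 < i → i < N → (g : M → M)^[i] x ≠ x)
    (hs : SimpleReal (dfix (n := n) ((g : M → M)^[N]) x)) : ∃ g' ∈ O, g' ∈ UR n M := by
  obtain ⟨H, hHs, hH0, S, -, hSV, hoff, hev⟩ := exists_pert hN g hx hmin
    (chart_mem_atlas (Er n) x) (mem_chart_source (Er n) x) (K16_nhds (g : M → M) hmin)
    (ContinuousLinearMap.id ℝ (Er n))
  have hdet := eventually_det_ne
    (fderiv ℝ (chartAt (Er n) x ∘ (g : M → M)^[N] ∘ (chartAt (Er n) x).symm)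
      (chartAt (Er n) x x)).toLinearMap
  have hopen := eventually_mem_open g H hH0 hHs hO hg
  have h1s : ∀ᶠ s in 𝓝 (0 : ℝ), 1 + s ≠ 0 := by
    have hc : Tendsto (fun s : ℝ => 1 + s) (𝓝 0) (𝓝 (1 + 0)) :=
      (continuous_const.add continuous_id).tendsto 0
    rw [add_zero] at hc
    exact hc.eventually_ne one_ne_zero
  have hall := (((hev.and hopen).and h1s).filter_mono nhdsWithin_le_nhds).and hdet
  obtain ⟨s, ⟨⟨⟨hs1, hs2⟩, hs3⟩, hs4⟩, hs5⟩ := hall.exists
  have hd : dfix (n := n) ((H s : M → M)^[N]) x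
      = (1 + s) • dfix (n := n) ((g : M → M)^[N]) x := by
    unfold dfix
    rw [hs2]
    ext1 v
    simp [add_smul]
  refine ⟨H s, hs3, x, N, hN, ?_, ?_, ?_⟩
  · rw [K16_iter hSV (hoff s) hs1 N le_rfl, hx]
  · unfold Ndg
    have e : (dfix (n := n) ((H s : M → M)^[N]) x
        - ContinuousLinearMap.id ℝ (Er n) : Er n →L[ℝ] Er n).toLinearMap =
        (1 + s) • (fderiv ℝ (chartAt (Er n) x ∘ (g : M → M)^[N] ∘ (chartAt (Er n) x).symm)
          (chartAt (Er n) x x)).toLinearMap - 1 := by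
      rw [hd]
      rfl
    rw [e]
    exact hs5
  · rw [hd]
    exact simpleReal_smul hs4 hs

/-- `exists_pert` (file D2j) with `φ` the chart at `p` and a neighbourhood `V` of `p` without the points `f^i p`, `0 < i < k`, as in the proof of `exists_ndg` (file D2k): `(H s)^i p = f^i p` for `i ≤ k`. -/
theorem family_at {k : ℕ} (hk : 0 < k) (f : Dif n M) {p : M} (hp : (f : M → M)^[k] p = p)
    (hmin : ∀ i, 0 < i → i < k → (f : M → M)^[i] p ≠ p) (K : Er n →L[ℝ] Er n) :
    ∃ H : ℝ → Dif n M, (∀ x, SmF n (fun s => (H s : M → M)) x) ∧ (∀ x, H 0 x = f x) ∧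
      ∀ᶠ s in 𝓝 (0 : ℝ), (H s : M → M)^[k] p = p ∧
        (∀ i, 0 < i → i < k → (H s : M → M)^[i] p ≠ p) ∧
        dfix (n := n) ((H s : M → M)^[k]) p =
          (dfix (n := n) ((f : M → M)^[k]) p) ∘L (ContinuousLinearMap.id ℝ (Er n) + s • K) := by
  obtain ⟨H, hHs, hH0, S, -, hSV, hoff, hev⟩ := exists_pert hk f hp hmin
    (chart_mem_atlas (Er n) p) (mem_chart_source (Er n) p) (K16_nhds (f : M → M) hmin) K
  refine ⟨H, hHs, hH0, ?_⟩
  filter_upwards [hev] with s hs
  obtain ⟨hs1, hs2⟩ := hs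
  refine ⟨?_, ?_, ?_⟩
  · rw [K16_iter hSV (hoff s) hs1 k le_rfl, hp]
  · intro i hi hik
    rw [K16_iter hSV (hoff s) hs1 i hik.le]
    exact hmin i hi hik
  · unfold dfix
    exact hs2

end

end KT

end FB
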