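import Pool.Agent.H.MP_fb873c_an.J16
import Pool.Agent.H.MP_fb873c_an.J19b2
import Pool.Agent.H.MP_fb873c_an.J19b3
import Pool.Agent.H.MP_fb873c_an.K16

/-!
# Part J19b: second stage: a periodic point with a simple real eigenvalue
-/

namespace FB

namespace JT

open scoped Topology ContDiff Manifold
open Filter KT Metric

universe u

variable {n : ℕ} {M : Type u} [TopologicalSpace M] [ChartedSpace (Er n) M]
  [IsManifold (𝓡 n) ∞ M] [T2Space M]

/-- `φ` the chart at `p`, `c = φ p`, `F = Ret g k p` (`loc_Ret`), `H, ρ` from `res_family`.  `H s ∈ O` for `s` near `0` (`eventually_mem_open`, file D2c).  Choose `0 < δ ≤ ρ` such that `‖s‖ < δ` implies `H s ∈ O` and the statement of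
`res_family`; `local_res` gives `μ, ε, x`; `s = (μ, ε)`, `Φ x = F (hep (hmu x))`, `y = φ.symm (c + x)`.  `per_iter` with `G = H s` (`G^[k] (φ.symm z) = φ.symm (φ (..)) = φ.symm (c + Φ (z - c))` as `G^[k] (φ.symm z) ∈ φ.source`):
`y` has minimal period `k b`.  `der_iter` with `G = (H s)^[k]`, `G^[b] = (H s)^[k * b]` (`Function.iterate_mul`; smoothness: `contMDiff_iterate`, file D2b).  `exists_UR` (file K16). -/
theorem stage_two {k : ℕ} (hk : 0 < k) (g : Dif n M) {O : Set (Dif n M)}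
    (hO : IsOpen[crTop n M ⊤] O) (hgO : g ∈ O) {p : M} (hp : (g : M → M)^[k] p = p)
    (hmin : ∀ i, 0 < i → i < k → (g : M → M)^[i] p ≠ p) {lam : ℂ} {b : ℕ}
    {ι : ℂ →L[ℝ] Er n} {π : Er n →L[ℝ] ℂ} (h : RD (dfix (n := n) ((g : M → M)^[k]) p) lam b ι π) :
    ∃ g' ∈ O, g' ∈ UR n M := by
  obtain ⟨H, ρ, hρ, hsm, hH0, hball, hev⟩ := res_family hk g hp hmin ι π
  have hev2 := eventually_mem_open g H hH0 hsm hO hgO
  obtain ⟨r, hr, hrs⟩ := Metric.eventually_nhds_iff.1 (hev.and hev2)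
  have hb : 0 < b := by have := h.b5; omega
  obtain ⟨μ, ε, x, hμ, hε, hx, hxb, hxmin, hSR⟩ :=
    local_res (loc_Ret g hp) h (δ := min ρ r) (lt_min hρ hr)
  have hs : dist ((μ, ε) : ℂ × ℝ) 0 < r := by
    rw [dist_zero_right, Prod.norm_mk, max_lt_iff]
    exact ⟨hμ.trans_le (min_le_right _ _), by
      rw [Real.norm_eq_abs]
      exact hε.trans_le (min_le_right _ _)⟩
  obtain ⟨hz, hmem⟩ := hrs hs
  have hx' : ∀ j ≤ b, ‖(fun y => Ret g k p (hep ι π ε (hmu ι π μ y)))^[j] x‖ < ρ :=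
    fun j hj => (hx j hj).trans_le (min_le_left _ _)
  have hper := per_iter (G := (H (μ, ε) : M → M))
    (Φ := fun y => Ret g k p (hep ι π ε (hmu ι π μ y))) hk hb hball
    (fun z hzb => by
      obtain ⟨h1, h2, -⟩ := hz z hzb
      rw [h2, add_sub_cancel, (chartAt (Er n) p).left_inv h1])
    (fun z hzb => (hz z hzb).2.2) hx' hxb hxmin
  have hder := der_iter (chart_mem_atlas (Er n) p) (G := (H (μ, ε) : M → M)^[k])
    (Φ := fun y => Ret g k p (hep ι π ε (hmu ι π μ y)))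
    ((H (μ, ε)).continuous.iterate k) hball
    (fun z hzb => ⟨(hz z hzb).1, (hz z hzb).2.1⟩) hx' hxb
    (by
      rw [← Function.iterate_mul]
      exact ((contMDiff_iterate (H (μ, ε)) (k * b)).contMDiffAt).of_le (by exact_mod_cast le_top)) hSR
  rw [← Function.iterate_mul] at hder
  exact exists_UR hO hmem (Nat.mul_pos hk hb) hper.1 hper.2 hder

end JT

end FB
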