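import Pool.Agent.H.MP_fb873c_an.J0

/-!
# Part J2: the iterates `GG`
-/

namespace FB

namespace JT

open scoped Topology ContDiff
open Filter KT

variable {E : Type} [NormedAddCommGroup E] [NormedSpace ℝ E] {A : E →L[ℝ] E} {lam : ℂ} {b : ℕ}
  {ι : ℂ →L[ℝ] E} {π : E →L[ℝ] ℂ} {F : E → E} {q : ℂ × ℂ → E}

/-- `Function.iterate_succ_apply'`. -/
theorem GG_succ (F : E → E) (ι : ℂ →L[ℝ] E) (π : E →L[ℝ] ℂ) (j : ℕ) (p : ℂ × E) :
    GG F ι π (j + 1) p = F (hmu ι π p.1 (GG F ι π j p)) := by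
  unfold GG
  rw [Function.iterate_succ_apply']

/-- Induction on `j`. -/
theorem GG_zero (h0 : F 0 = 0) (j : ℕ) (μ : ℂ) : GG F ι π j (μ, 0) = 0 := by
  induction j with
  | zero => rfl
  | succ j ih =>
    rw [GG_succ, ih]
    simp [hmu, h0]

theorem GG_self (F : E → E) (ι : ℂ →L[ℝ] E) (π : E →L[ℝ] ℂ) (j : ℕ) (x : E) :
    GG F ι π j (0, x) = F^[j] x := by
  induction j with
  | zero => rfl
  | succ j ih =>
    rw [GG_succ, ih, Function.iterate_succ_apply']
    simp [hmu]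

/-- The function `(μ, x) ↦ hmu μ (g (μ, x))` is smooth if `g` is. -/
theorem J2_hmu_smooth {g : ℂ × E → E} {p : ℂ × E} (hg : ContDiffAt ℝ ∞ g p) :
    ContDiffAt ℝ ∞ (fun p : ℂ × E => hmu ι π p.1 (g p)) p := by
  unfold hmu
  have h1 : ContDiffAt ℝ ∞ (fun p : ℂ × E => p.1) p := contDiffAt_fst
  have h2 : ContDiffAt ℝ ∞ (fun p : ℂ × E => π (g p)) p :=
    π.contDiff.contDiffAt.comp p hg
  exact hg.add (ι.contDiff.contDiffAt.comp p (h1.mul h2))

/-- Induction on `j` with `GG_succ`: `(μ, x) ↦ hmu μ x` is smooth, `GG j 0 = 0`, `ContDiffAt.comp`. -/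
theorem GG_smooth (hF : Loc F A) (j : ℕ) : ContDiffAt ℝ ∞ (GG F ι π j) 0 := by
  induction j with
  | zero =>
    have : GG F ι π 0 = fun p : ℂ × E => p.2 := rfl
    rw [this]
    exact contDiffAt_snd
  | succ j ih =>
    have h : GG F ι π (j + 1) = F ∘ (fun p : ℂ × E => hmu ι π p.1 (GG F ι π j p)) := by
      funext p
      exact GG_succ F ι π j p
    rw [h]
    have h0 : hmu ι π (0 : ℂ × E).1 (GG F ι π j 0) = 0 := by
      have := GG_zero (ι := ι) (π := π) hF.zero j 0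
      have h00 : GG F ι π j 0 = 0 := this
      rw [h00]
      simp [hmu]
    refine ContDiffAt.comp (0 : ℂ × E) ?_ (J2_hmu_smooth ih)
    show ContDiffAt ℝ ∞ F (hmu ι π (0 : ℂ × E).1 (GG F ι π j 0))
    rw [h0]
    exact hF.smooth

/-- Induction on `j` with `GG_succ`, chain rule: `hmu μ` is affine with derivative `1 + ι μ π`, `GG j (μ, 0) = 0`, `hmu μ 0 = 0`, `F` has the derivative `A` at `0`. -/
theorem GG_deriv (hF : Loc F A) (j : ℕ) (μ : ℂ) :
    HasFDerivAt (fun x => GG F ι π j (μ, x))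
      ((A ∘L (ContinuousLinearMap.id ℝ E + ι ∘L mulc μ ∘L π)) ^ j) 0 := by
  induction j with
  | zero =>
    have : (fun x => GG F ι π 0 (μ, x)) = fun x : E => x := rfl
    rw [this, pow_zero]
    exact hasFDerivAt_id (𝕜 := ℝ) (0 : E)
  | succ j ih =>
    have h : (fun x => GG F ι π (j + 1) (μ, x))
        = F ∘ ((fun y => hmu ι π μ y) ∘ (fun x => GG F ι π j (μ, x))) := by
      funext x
      exact GG_succ F ι π j (μ, x)
    have hh : (fun y : E => hmu ι π μ y)
        = ⇑(ContinuousLinearMap.id ℝ E + ι ∘L mulc μ ∘L π) := by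
      funext y
      simp [hmu, mulc]
    rw [h, pow_succ']
    have hz : GG F ι π j (μ, 0) = 0 := GG_zero hF.zero j μ
    have h1 : HasFDerivAt ((fun y : E => hmu ι π μ y) ∘ (fun x => GG F ι π j (μ, x)))
        ((ContinuousLinearMap.id ℝ E + ι ∘L mulc μ ∘L π) ∘L
          ((A ∘L (ContinuousLinearMap.id ℝ E + ι ∘L mulc μ ∘L π)) ^ j)) 0 := by
      refine HasFDerivAt.comp (0 : E) ?_ ih
      rw [hh]
      exact ContinuousLinearMap.hasFDerivAt _
    have h2 : HasFDerivAt F A (((fun y : E => hmu ι π μ y) ∘ (fun x => GG F ι π j (μ, x))) 0) := by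
      have : ((fun y : E => hmu ι π μ y) ∘ (fun x => GG F ι π j (μ, x))) 0 = 0 := by
        show hmu ι π μ (GG F ι π j (μ, 0)) = 0
        rw [hz]
        simp [hmu]
      rw [this]
      have hd : DifferentiableAt ℝ F 0 := hF.smooth.differentiableAt (by simp)
      have := hd.hasFDerivAt
      rwa [hF.der] at this
    have h3 := HasFDerivAt.comp (0 : E) h2 h1
    have h4 : A ∘L (ContinuousLinearMap.id ℝ E + ι ∘L mulc μ ∘L π) ∘L
          ((A ∘L (ContinuousLinearMap.id ℝ E + ι ∘L mulc μ ∘L π)) ^ j)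
        = (A ∘L (ContinuousLinearMap.id ℝ E + ι ∘L mulc μ ∘L π)) *
          ((A ∘L (ContinuousLinearMap.id ℝ E + ι ∘L mulc μ ∘L π)) ^ j) := by
      ext x
      rfl
    rw [← h4]
    exact h3

theorem GG_deriv0 (hF : Loc F A) (j : ℕ) : HasFDerivAt (fun x => GG F ι π j (0, x)) (A ^ j) 0 := by
  have h := GG_deriv (ι := ι) (π := π) hF j 0
  have h1 : A ∘L (ContinuousLinearMap.id ℝ E + ι ∘L mulc 0 ∘L π) = A := by
    ext x
    simp [mulc]
  rwa [h1] at h

/-- The derivative of `GG j` at `0` in both variables: `(μ, x) ↦ A^j x`. (`GG_smooth` gives the derivative `D`; `D (0, x) = A^j x` by `GG_deriv0`, `D (μ, 0) = 0` by `GG_zero`.) -/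
theorem GG_strict (hF : Loc F A) (j : ℕ) :
    HasStrictFDerivAt (GG F ι π j) ((A ^ j) ∘L ContinuousLinearMap.snd ℝ ℂ E) 0 := by
  have hs : ContDiffAt ℝ ∞ (GG F ι π j) 0 := GG_smooth hF j
  have hst : HasStrictFDerivAt (GG F ι π j) (fderiv ℝ (GG F ι π j) 0) 0 :=
    hs.hasStrictFDerivAt (by simp)
  have hD : fderiv ℝ (GG F ι π j) 0 = (A ^ j) ∘L ContinuousLinearMap.snd ℝ ℂ E := by
    set D := fderiv ℝ (GG F ι π j) 0 with hDdef
    have hfd : HasFDerivAt (GG F ι π j) D 0 := hst.hasFDerivAt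
    have hx : ∀ x : E, D (0, x) = (A ^ j) x := by
      have hc : HasFDerivAt (fun x : E => GG F ι π j (0, x))
          (D ∘L ContinuousLinearMap.inr ℝ ℂ E) 0 := by
        have hi : HasFDerivAt (fun x : E => ((0 : ℂ), x)) (ContinuousLinearMap.inr ℝ ℂ E) 0 :=
          (ContinuousLinearMap.inr ℝ ℂ E).hasFDerivAt
        exact HasFDerivAt.comp (0 : E) (show HasFDerivAt (GG F ι π j) D ((0 : ℂ), (0 : E)) from hfd) hi
      have := hc.unique (GG_deriv0 hF j)
      intro x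
      have h2 := congrArg (fun L : E →L[ℝ] E => L x) this
      simpa using h2
    have hm : ∀ μ : ℂ, D (μ, 0) = 0 := by
      have hc : HasFDerivAt (fun μ : ℂ => GG F ι π j (μ, 0))
          (D ∘L ContinuousLinearMap.inl ℝ ℂ E) 0 := by
        have hi : HasFDerivAt (fun μ : ℂ => (μ, (0 : E))) (ContinuousLinearMap.inl ℝ ℂ E) 0 :=
          (ContinuousLinearMap.inl ℝ ℂ E).hasFDerivAt
        exact HasFDerivAt.comp (0 : ℂ) (show HasFDerivAt (GG F ι π j) D ((0 : ℂ), (0 : E)) from hfd) hi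
      have hz : (fun μ : ℂ => GG F ι π j (μ, 0)) = fun _ => 0 := by
        funext μ
        exact GG_zero hF.zero j μ
      rw [hz] at hc
      have := hc.unique (hasFDerivAt_const (0 : E) (0 : ℂ))
      intro μ
      have h2 := congrArg (fun L : ℂ →L[ℝ] E => L μ) this
      simpa using h2
    refine ContinuousLinearMap.ext fun p => ?_
    obtain ⟨μ, x⟩ := p
    have hsplit : ((μ, x) : ℂ × E) = (μ, 0) + (0, x) := by simp
    rw [hsplit, map_add, hx, hm]
    simp
  rw [← hD]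
  exact hst

end JT

end FB
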