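import Pool.Agent.H.MP_fb873c_an.D2b
import Pool.Agent.H.MP_fb873c_an.K00

/-!
# Part J20a2: the derivative of iterates at a periodic point
-/

namespace FB

namespace JT

open scoped Topology ContDiff Manifold
open Filter KT Metric

universe u

variable {n : ℕ} {M : Type u} [TopologicalSpace M] [ChartedSpace (Er n) M]
  [IsManifold (𝓡 n) ∞ M]

theorem J20a2_diff {G : M → M} {p : M} (hG : ContMDiffAt (𝓡 n) (𝓡 n) ∞ G p) (hp : G p = p) :
    DifferentiableAt ℝ (chartAt (Er n) p ∘ G ∘ (chartAt (Er n) p).symm) (chartAt (Er n) p p) := by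
  set φ := chartAt (Er n) p with hφd
  have hφ' : φ ∈ IsManifold.maximalAtlas (𝓡 n) ∞ M :=
    IsManifold.subset_maximalAtlas (chart_mem_atlas (Er n) p)
  have hx : p ∈ φ.source := mem_chart_source (Er n) p
  have h1 : ContMDiffAt (𝓡 n) (𝓡 n) ∞ φ.symm (φ p) :=
    (contMDiffOn_symm_of_mem_maximalAtlas hφ').contMDiffAt
      (φ.open_target.mem_nhds (φ.map_source hx))
  have h2 : ContMDiffAt (𝓡 n) (𝓡 n) ∞ G (φ.symm (φ p)) := by
    rw [φ.left_inv hx]
    exact hG
  have h3 : ContMDiffAt (𝓡 n) (𝓡 n) ∞ (fun z => G (φ.symm z)) (φ p) :=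
    ContMDiffAt.comp (g := G) (f := φ.symm) (φ p) h2 h1
  have h4 : ContMDiffAt (𝓡 n) (𝓡 n) ∞ φ (G (φ.symm (φ p))) := by
    rw [φ.left_inv hx, hp]
    exact contMDiffAt_of_mem_maximalAtlas hφ' hx
  have h5 : ContMDiffAt (𝓡 n) (𝓡 n) ∞ (fun z => φ (G (φ.symm z))) (φ p) :=
    ContMDiffAt.comp (g := φ) (f := fun z => G (φ.symm z)) (φ p) h4 h3
  exact (contMDiffAt_iff_contDiffAt.1 h5).differentiableAt (by simp)

theorem J20a2_comp {G H : M → M} {p : M} (hG : ContMDiffAt (𝓡 n) (𝓡 n) ∞ G p)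
    (hH : ContMDiffAt (𝓡 n) (𝓡 n) ∞ H p) (hGp : G p = p) (hHp : H p = p) :
    dfix (n := n) (G ∘ H) p = dfix (n := n) G p * dfix (n := n) H p := by
  have hx : p ∈ (chartAt (Er n) p).source := mem_chart_source (Er n) p
  have h0 : ((chartAt (Er n) p) ∘ H ∘ (chartAt (Er n) p).symm) (chartAt (Er n) p p) =
      chartAt (Er n) p p := by
    simp only [Function.comp_apply]
    rw [(chartAt (Er n) p).left_inv hx, hHp]
  have hsy : ContinuousAt (chartAt (Er n) p).symm (chartAt (Er n) p p) :=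
    (chartAt (Er n) p).continuousAt_symm ((chartAt (Er n) p).map_source hx)
  have hev : (chartAt (Er n) p ∘ (G ∘ H) ∘ (chartAt (Er n) p).symm) =ᶠ[𝓝 (chartAt (Er n) p p)]
      ((chartAt (Er n) p ∘ G ∘ (chartAt (Er n) p).symm) ∘
        (chartAt (Er n) p ∘ H ∘ (chartAt (Er n) p).symm)) := by
    have hc : ContinuousAt (fun z => H ((chartAt (Er n) p).symm z)) (chartAt (Er n) p p) := by
      have h1 : ContinuousAt H ((chartAt (Er n) p).symm (chartAt (Er n) p p)) := by
        rw [(chartAt (Er n) p).left_inv hx]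
        exact hH.continuousAt
      exact ContinuousAt.comp (g := H) h1 hsy
    have h2 : H ((chartAt (Er n) p).symm (chartAt (Er n) p p)) ∈ (chartAt (Er n) p).source := by
      rw [(chartAt (Er n) p).left_inv hx, hHp]
      exact hx
    filter_upwards [hc.eventually ((chartAt (Er n) p).open_source.mem_nhds h2)] with z hz
    simp only [Function.comp_apply]
    rw [(chartAt (Er n) p).left_inv hz]
  unfold dfix
  rw [hev.fderiv_eq]
  have hdG := J20a2_diff hG hGp
  have hdH := J20a2_diff hH hHp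
  have h3 : DifferentiableAt ℝ (chartAt (Er n) p ∘ G ∘ (chartAt (Er n) p).symm)
      ((chartAt (Er n) p ∘ H ∘ (chartAt (Er n) p).symm) (chartAt (Er n) p p)) := by
    rw [h0]
    exact hdG
  rw [fderiv_comp _ h3 hdH, h0]
  rfl

theorem J20a2_id (p : M) : dfix (n := n) (id : M → M) p = 1 := by
  have hx : p ∈ (chartAt (Er n) p).source := mem_chart_source (Er n) p
  have hev : (chartAt (Er n) p ∘ (id : M → M) ∘ (chartAt (Er n) p).symm)
      =ᶠ[𝓝 (chartAt (Er n) p p)] (fun z => z) := by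
    filter_upwards [(chartAt (Er n) p).open_target.mem_nhds
      ((chartAt (Er n) p).map_source hx)] with z hz
    simp only [Function.comp_apply, id_eq]
    exact (chartAt (Er n) p).right_inv hz
  unfold dfix
  rw [hev.fderiv_eq, fderiv_fun_id]
  rfl

/-- Chain rule in the chart at `p` (`F^[m] p = p` for `F = f^[k]`), induction on `m`: `φ ∘ F^[m+1] ∘ φ.symm = (φ ∘ F ∘ φ.symm) ∘ (φ ∘ F^[m] ∘ φ.symm)` near `φ p`.  (`contMDiff_iterate`, file D2b.) -/
theorem dfix_iterate (f : Dif n M) {p : M} {k : ℕ} (hp : (f : M → M)^[k] p = p) (m : ℕ) :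
    dfix (n := n) ((f : M → M)^[k * m]) p = (dfix (n := n) ((f : M → M)^[k]) p) ^ m := by
  induction m with
  | zero =>
    rw [Nat.mul_zero, Function.iterate_zero, pow_zero]
    exact J20a2_id p
  | succ m ih =>
    have h1 : (f : M → M)^[k * (m + 1)] = (f : M → M)^[k] ∘ (f : M → M)^[k * m] := by
      rw [← Function.iterate_add]
      congr 1
      ring
    have h2 : (f : M → M)^[k * m] p = p := by
      rw [Function.iterate_mul]
      exact Function.iterate_fixed hp m
    rw [h1, J20a2_comp (contMDiff_iterate f k).contMDiffAt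
      (contMDiff_iterate f (k * m)).contMDiffAt hp h2, ih, pow_succ']

end JT

end FB
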