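import Pool.Agent.H.MP_fb873c_an.J20a1
import Pool.Agent.H.MP_fb873c_an.J20a2
import Pool.Agent.H.MP_fb873c_an.K00

/-!
# Part J20a: minimal periods
-/

namespace FB

namespace JT

open scoped Topology ContDiff Manifold
open Filter KT Metric

universe u

variable {n : ℕ} {M : Type u} [TopologicalSpace M] [ChartedSpace (Er n) M]
  [IsManifold (𝓡 n) ∞ M]

/-- `k0 = Function.minimalPeriod f p`; `k = k0 m`, `m > 0`; `dfix_iterate`, `hyp_pow`. -/
theorem exists_min_period (f : Dif n M) {p : M} {k : ℕ} (hk : 0 < k)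
    (hp : (f : M → M)^[k] p = p) (hH : ¬ Hyp (dfix (n := n) ((f : M → M)^[k]) p)) :
    ∃ k0, 0 < k0 ∧ (f : M → M)^[k0] p = p ∧ (∀ i, 0 < i → i < k0 → (f : M → M)^[i] p ≠ p) ∧
      ¬ Hyp (dfix (n := n) ((f : M → M)^[k0]) p) := by
  have hper : Function.IsPeriodicPt (f : M → M) k p := hp
  set k0 := Function.minimalPeriod (f : M → M) p with hk0
  have h0 : 0 < k0 := hper.minimalPeriod_pos hk
  have h1 : (f : M → M)^[k0] p = p := Function.isPeriodicPt_minimalPeriod (f : M → M) p
  obtain ⟨m, hm⟩ := hper.minimalPeriod_dvd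
  rw [← hk0] at hm
  have hm0 : 0 < m := by
    rcases Nat.eq_zero_or_pos m with h | h
    · rw [h, mul_zero] at hm
      omega
    · exact h
  refine ⟨k0, h0, h1, fun i hi hlt hi2 => ?_, fun hH0 => hH ?_⟩
  · exact Function.not_isPeriodicPt_of_pos_of_lt_minimalPeriod (by omega) (by rw [← hk0]; exact hlt)
      hi2
  · rw [hm, dfix_iterate f h1 m]
    exact hyp_pow hH0 hm0

end JT

end FB
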