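import Pool.Agent.H.MP_fb873c_an.K0

/-!
# Part K13a: simple real eigenvalues (simple_of_real_eigen)
-/


namespace FB

namespace KT

open scoped Topology
open Filter Polynomial

section

variable {n : ℕ}

/-- `A v = l v`, `v ≠ 0`, `l ≠ 0`.  Let `ell` be a linear functional with `ell v = 1` and `K x = ell x • v`.  Then `(A ∘ (1 + s K)) x = A x + s l ell(x) v`; in a basis with first vector `v`
(or by the matrix determinant lemma) `charpoly (A ∘ (1 + s K)) = (X - l (1 + s)) Q`, where `charpoly A = (X - l) Q` (`Q` is the characteristic polynomial of the map induced on the quotient by `v`):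
for real `x` not an eigenvalue: `det (x - A - s l v ⊗ ell) = det (x - A) (1 - s l ell((x - A)⁻¹ v)) = det (x - A) (1 - s l / (x - l))`, as `(x - A)⁻¹ v = v / (x - l)`
(`LinearMap.det` of `1 + v ⊗ ell`: `Matrix.det_one_add_replicateCol_mul_replicateRow` or similar).  So
`(X - l) charpoly (A ∘ (1 + s K)) = (X - l (1 + s)) charpoly A` (agreement at infinitely many points).  For small `s > 0` the number `l (1 + s)` is not a root of `Q` (finitely many roots, `s ↦ l (1+s)` injective)
hence a simple root. -/
theorem simple_of_real_eigen {A : Er n →L[ℝ] Er n} {l : ℝ} (hl : l ≠ 0) {v : Er n} (hv : v ≠ 0)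
    (hA : A v = l • v) : ∃ K : Er n →L[ℝ] Er n, ∀ᶠ s in 𝓝[>] (0 : ℝ),
      SimpleReal (A ∘L (ContinuousLinearMap.id ℝ (Er n) + s • K)) := by
  have hv' : ‖v‖ ≠ 0 := norm_ne_zero_iff.2 hv
  obtain ⟨g, -, hg⟩ := exists_dual_vector ℝ v hv'
  let ell : Er n →L[ℝ] ℝ := ‖v‖⁻¹ • g
  have hell : ell v = 1 := by
    show ‖v‖⁻¹ * g v = 1
    rw [hg]
    exact inv_mul_cancel₀ hv'
  let K : Er n →L[ℝ] Er n := ell.smulRight v
  let P := LinearMap.charpoly A.toLinearMap
  have hP0 : P ≠ 0 := (LinearMap.charpoly_monic _).ne_zero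
  have hdet : ∀ s x : ℝ, x ≠ l →
      (x - l) * (LinearMap.charpoly
        (A ∘L (ContinuousLinearMap.id ℝ (Er n) + s • K)).toLinearMap).eval x =
        (x - l * (1 + s)) * P.eval x := by
    intro s x hx
    have hx' : x - l ≠ 0 := sub_ne_zero.2 hx
    rw [LinearMap.eval_charpoly, LinearMap.eval_charpoly]
    have h1 : algebraMap ℝ (Module.End ℝ (Er n)) x -
        (A ∘L (ContinuousLinearMap.id ℝ (Er n) + s • K)).toLinearMap =
        (algebraMap ℝ (Module.End ℝ (Er n)) x - A.toLinearMap) *
          LinearMap.transvection (-(s * l / (x - l)) • ell.toLinearMap) v := by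
      ext w : 1
      have h2 : A (ell w • v) = ell w • l • v := by rw [map_smul, hA]
      have h3 : (A ∘L (ContinuousLinearMap.id ℝ (Er n) + s • K)) w =
          A w + (s * ell w * l) • v := by
        show A (w + s • (ell w • v)) = _
        rw [map_add, map_smul, h2, smul_smul, smul_smul]
      show x • w - (A ∘L (ContinuousLinearMap.id ℝ (Er n) + s • K)) w =
        x • (w + (-(s * l / (x - l)) * ell w) • v) - A (w + (-(s * l / (x - l)) * ell w) • v)
      rw [h3, map_add, map_smul, hA, smul_add, smul_smul, smul_smul]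
      have h4 : x * (-(s * l / (x - l)) * ell w) - (-(s * l / (x - l)) * ell w) * l =
          -(s * ell w * l) := by
        field_simp
        ring
      have h5 : (-(s * ell w * l)) • v = (x * (-(s * l / (x - l)) * ell w)) • v -
          ((-(s * l / (x - l)) * ell w) * l) • v := by
        rw [← sub_smul, h4]
      rw [neg_smul] at h5
      have h6 : (s * ell w * l) • v = ((-(s * l / (x - l)) * ell w) * l) • v -
          (x * (-(s * l / (x - l)) * ell w)) • v := by
        rw [← neg_inj, h5]
        abel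
      rw [h6]
      abel
    rw [h1, map_mul, LinearMap.transvection.det]
    have h7 : (-(s * l / (x - l)) • ell.toLinearMap) v = -(s * l / (x - l)) := by
      show -(s * l / (x - l)) * ell v = _
      rw [hell, mul_one]
    rw [h7]
    field_simp
    ring
  have hPl : P.eval l = 0 := by
    have h1 : Module.End.HasEigenvalue A.toLinearMap l :=
      Module.End.hasEigenvalue_of_hasEigenvector ⟨Module.End.mem_eigenspace_iff.2 hA, hv⟩
    exact (Module.End.hasEigenvalue_iff_isRoot_charpoly _ _).1 h1
  obtain ⟨Q, hQ⟩ := dvd_iff_isRoot.2 hPl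
  have hQ0 : Q ≠ 0 := by
    rintro rfl
    rw [mul_zero] at hQ
    exact hP0 hQ
  have hfac : ∀ s : ℝ, LinearMap.charpoly
      (A ∘L (ContinuousLinearMap.id ℝ (Er n) + s • K)).toLinearMap = (X - C (l * (1 + s))) * Q := by
    intro s
    apply mul_left_cancel₀ (X_sub_C_ne_zero l)
    refine Polynomial.funext fun x => ?_
    have h1 : (x - l) * ((x - l * (1 + s)) * Q.eval x) = (x - l * (1 + s)) * P.eval x := by
      rw [hQ, eval_mul, eval_sub, eval_X, eval_C]
      ring
    have h2 : ((X - C l) * ((X - C (l * (1 + s))) * Q)).eval x =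
        (x - l * (1 + s)) * P.eval x := by
      rw [eval_mul, eval_mul, eval_sub, eval_sub, eval_X, eval_C, eval_C, h1]
    rw [h2, eval_mul, eval_sub, eval_X, eval_C]
    by_cases hx : x = l
    · rw [hx, sub_self, zero_mul, hPl, mul_zero]
    · exact hdet s x hx
  refine ⟨K, ?_⟩
  have hfin : Set.Finite {s : ℝ | Q.IsRoot (l * (1 + s))} := by
    refine (Polynomial.finite_setOfPred_isRoot hQ0).preimage (f := fun s => l * (1 + s)) ?_
    intro a _ b _ hab
    have h1 := mul_left_cancel₀ hl hab
    linarith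
  have h1 : ∀ᶠ s in 𝓝 (0 : ℝ), s ∉ {s : ℝ | Q.IsRoot (l * (1 + s))} \ {0} :=
    (hfin.subset Set.sdiff_subset).isClosed.isOpen_compl.mem_nhds (by simp)
  filter_upwards [h1.filter_mono nhdsWithin_le_nhds, self_mem_nhdsWithin] with s h2 h3
  have h4 : Q.eval (l * (1 + s)) ≠ 0 := fun h5 => h2 ⟨h5, ne_of_gt h3⟩
  refine ⟨l * (1 + s), ?_, ?_⟩
  · rw [hfac, eval_mul, eval_sub, eval_X, eval_C, sub_self, zero_mul]
  · rw [hfac, derivative_mul, eval_add, eval_mul, eval_mul, eval_sub, eval_X, eval_C, sub_self,
      zero_mul, add_zero, derivative_sub, derivative_X, derivative_C, sub_zero, eval_one, one_mul]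
    exact h4

end

end KT

end FB
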