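import Pool.Agent.H.MP_fb873c_an.S0

/-!
# Part K13b: the leading eigenvalues of a linear map without real eigenvalues (exists_max_root, eigen_of_root)
-/


namespace FB

namespace KT

open scoped Topology
open Filter Polynomial

section

variable {n : ℕ}

/-- Finitely many roots (at least one, the degree is `n > 0`): take one of maximal norm (`Multiset`/`Finset.exists_max_image`). -/
theorem exists_max_root (hn : 0 < n) (A : Er n →L[ℝ] Er n) :
    ∃ l : ℂ, ((LinearMap.charpoly A.toLinearMap).map (algebraMap ℝ ℂ)).IsRoot l ∧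
      ∀ l' : ℂ, ((LinearMap.charpoly A.toLinearMap).map (algebraMap ℝ ℂ)).IsRoot l' → ‖l'‖ ≤ ‖l‖ := by
  classical
  have hmon : ((LinearMap.charpoly A.toLinearMap).map (algebraMap ℝ ℂ)).Monic :=
    (LinearMap.charpoly_monic A.toLinearMap).map _
  have hdeg : ((LinearMap.charpoly A.toLinearMap).map (algebraMap ℝ ℂ)).degree ≠ 0 := by
    intro h
    have h1 := natDegree_eq_of_degree_eq_some h
    rw [(LinearMap.charpoly_monic A.toLinearMap).natDegree_map,
      LinearMap.charpoly_natDegree] at h1
    have h2 : Module.finrank ℝ (Er n) = n := by simp [Er]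
    have h3 : Module.finrank ℝ (Er n) = 0 := h1
    omega
  obtain ⟨l₀, hl₀⟩ := Complex.exists_root (f := (LinearMap.charpoly A.toLinearMap).map
    (algebraMap ℝ ℂ)) (by
      rcases lt_trichotomy 0 ((LinearMap.charpoly A.toLinearMap).map (algebraMap ℝ ℂ)).degree
        with h | h | h
      · exact h
      · exact absurd h.symm hdeg
      · rw [Polynomial.degree_eq_natDegree hmon.ne_zero] at h
        exact absurd h (by simp))
  have hmem : ∀ l : ℂ, l ∈ ((LinearMap.charpoly A.toLinearMap).map (algebraMap ℝ ℂ)).roots.toFinset ↔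
      ((LinearMap.charpoly A.toLinearMap).map (algebraMap ℝ ℂ)).IsRoot l := by
    intro l
    rw [Multiset.mem_toFinset, mem_roots hmon.ne_zero]
  obtain ⟨l, hl, h⟩ := Finset.exists_max_image _ (fun z : ℂ => ‖z‖) ⟨l₀, (hmem l₀).2 hl₀⟩
  exact ⟨l, (hmem l).1 hl, fun l' hl' => h l' ((hmem l').2 hl')⟩

/-- A real root of the characteristic polynomial is an eigenvalue. -/
theorem eigen_of_root {A : Er n →L[ℝ] Er n} {l : ℂ} (hl : l.im = 0)
    (h : ((LinearMap.charpoly A.toLinearMap).map (algebraMap ℝ ℂ)).IsRoot l) :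
    ∃ v : Er n, v ≠ 0 ∧ A v = l.re • v := by
  have h1 : l = algebraMap ℝ ℂ l.re := by
    apply Complex.ext
    · simp
    · simp [hl]
  rw [h1] at h
  have h2 : (LinearMap.charpoly A.toLinearMap).IsRoot l.re := by
    rw [IsRoot.def, eval_map_algebraMap, aeval_algebraMap_apply] at h
    rw [IsRoot.def]
    have h3 : algebraMap ℝ ℂ (eval l.re (LinearMap.charpoly A.toLinearMap)) = 0 := by
      simpa using h
    simpa using h3
  have h3 : Module.End.HasEigenvalue A.toLinearMap l.re :=
    (Module.End.hasEigenvalue_iff_isRoot_charpoly _ _).2 h2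
  obtain ⟨v, hv⟩ := h3.exists_hasEigenvector
  exact ⟨v, hv.2, hv.apply_eq_smul⟩

end

end KT

end FB
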