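import Pool.Agent.H.MP_fb873c_an.J19a
import Pool.Agent.H.MP_fb873c_an.J19b
import Pool.Agent.H.MP_fb873c_an.J20a
import Pool.Agent.H.MP_fb873c_an.K13a3
import Pool.Agent.H.MP_fb873c_an.K13b2

/-!
# Part J20: diffeomorphisms with a non-hyperbolic periodic point
-/

namespace FB

namespace JT

open scoped Topology ContDiff Manifold
open Filter KT Metric

universe u

variable {n : ℕ} {M : Type u} [TopologicalSpace M] [ChartedSpace (Er n) M]
  [IsManifold (𝓡 n) ∞ M] [T2Space M]

/-- `exists_min_period` gives the minimal period `k0` and a root `l` with `‖l‖ = 1` of the characteristic polynomial of `A = dfix (f^[k0]) p`.  If `l.im = 0`: `eigen_of_root` (file K13b2), `l.re ≠ 0`,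
`simple_of_real_eigen` (file K13a3) gives `K`, `family_at` (file K16), `eventually_mem_open` (file D2c), then `exists_UR` (file K16) for a small `s > 0`.  If `l.im ≠ 0`: `stage_one`, `stage_two`. -/
theorem closure_NH (f : Dif n M) {p : M} {k : ℕ} (hk : 0 < k) (hp : (f : M → M)^[k] p = p)
    (hH : ¬ Hyp (dfix (n := n) ((f : M → M)^[k]) p)) {O : Set (Dif n M)}
    (hO : IsOpen[crTop n M ⊤] O) (hfO : f ∈ O) : ∃ g' ∈ O, g' ∈ UR n M := by
  obtain ⟨k0, hk0, hp0, hmin, hH0⟩ := exists_min_period f hk hp hH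
  unfold Hyp at hH0
  push Not at hH0
  obtain ⟨l, hl, hn⟩ := hH0
  by_cases him : l.im = 0
  · obtain ⟨v, hv, hAv⟩ := eigen_of_root him hl
    have hre : l.re ≠ 0 := by
      intro h0
      have h1 : l = 0 := Complex.ext h0 him
      rw [h1, norm_zero] at hn
      exact zero_ne_one hn
    obtain ⟨K, hK⟩ := simple_of_real_eigen hre hv hAv
    obtain ⟨H, hsm, hH00, hev⟩ := family_at hk0 f hp0 hmin K
    have hO1 := eventually_mem_open f H hH00 hsm hO hfO
    obtain ⟨s, ⟨⟨h1, h2, h3⟩, h4⟩, h5⟩ :=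
      (((hev.and hO1).filter_mono nhdsWithin_le_nhds).and hK).exists
    exact exists_UR hO h4 hk0 h1 h2 (by rw [h3]; exact h5)
  · obtain ⟨g, hg, hgp, hgm, lam, b, ι, π, hRD⟩ := stage_one hk0 f hO hfO hp0 hmin him hn hl
    exact stage_two hk0 g hO hg hgp hgm hRD

end JT

end FB
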