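import Pool.Agent.H.MP_fb873c_an.B0
import Pool.Agent.H.MP_fb873c_an.K00

/-!
# Part J20a1: hyperbolicity of powers
-/

namespace FB

namespace JT

open scoped Topology ContDiff Manifold
open Filter KT Metric

universe u

/-- If `l` is a root of `charpoly (A^m)`, there is a root `l'` of `charpoly A` with `l = l'^m` (spectral mapping for complex matrices: the spectrum of `T^m` is the set of `m`-th powers of the spectrum of `T`,
`spectrum.map_pow_of_pos` or `spectrum.map_polynomial_aeval_of_degree_pos`, for the complex matrix `T` of `A`; `Matrix.mem_spectrum_iff_isRoot_charpoly`-like), so `‖l‖ = ‖l'‖^m ≠ 1`. -/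
theorem hyp_pow {n : ℕ} {A : Er n →L[ℝ] Er n} (h : Hyp A) {m : ℕ} (hm : 0 < m) : Hyp (A ^ m) := by
  classical
  intro l hl h1
  set b := Module.finBasis ℝ (Er n) with hb
  have key : ∀ C : Er n →L[ℝ] Er n,
      Matrix.charpoly ((LinearMap.toMatrix b b C.toLinearMap).map (algebraMap ℝ ℂ)) =
        (LinearMap.charpoly C.toLinearMap).map (algebraMap ℝ ℂ) := by
    intro C
    rw [Matrix.charpoly_map, LinearMap.charpoly_toMatrix]
  set T : Matrix _ _ ℂ := (LinearMap.toMatrix b b A.toLinearMap).map (algebraMap ℝ ℂ) with hT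
  have h2 : (LinearMap.toMatrix b b (A ^ m).toLinearMap).map (algebraMap ℝ ℂ) = T ^ m := by
    have h3 : (A ^ m).toLinearMap = A.toLinearMap ^ m := ContinuousLinearMap.toLinearMap_pow A m
    rw [h3, ← LinearMap.toMatrix_pow, hT]
    exact map_pow (algebraMap ℝ ℂ).mapMatrix (LinearMap.toMatrix b b A.toLinearMap) m
  rw [← key, h2, ← Matrix.mem_spectrum_iff_isRoot_charpoly, spectrum.map_pow_of_pos T hm] at hl
  obtain ⟨l', hl', hlm⟩ := hl
  have h4 : ((LinearMap.charpoly A.toLinearMap).map (algebraMap ℝ ℂ)).IsRoot l' := by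
    rw [← key, ← Matrix.mem_spectrum_iff_isRoot_charpoly]
    exact hl'
  refine h l' h4 ?_
  have h5 : ‖l'‖ ^ m = 1 := by
    rw [← norm_pow]
    have h7 : l' ^ m = l := hlm
    rw [h7, h1]
  exact (pow_eq_one_iff_of_nonneg (norm_nonneg l') hm.ne').1 h5

end JT

end FB
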