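import Pool.Agent.H.MP_fb873c_an.K17
import Pool.Agent.H.MP_fb873c_an.J20

/-!
# Part J21: assembly
-/

namespace FB

namespace JT

open scoped Topology ContDiff Manifold

universe u

theorem closure_nonhyp {n : ℕ} {M : Type u} [TopologicalSpace M] [ChartedSpace (Er n) M]
    [IsManifold (𝓡 n) ∞ M] [CompactSpace M] [T2Space M] (f : Dif n M)
    (hf : ∃ (x : M) (k : ℕ), 0 < k ∧ itr f k x = x ∧ ¬ Hyp (dfix (n := n) (itr f k) x)) :
    f ∈ closure[crTop n M ⊤] (UR n M) := by
  obtain ⟨x, k, hk, hx, hH⟩ := hf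
  letI T := crTop n M ⊤
  rw [mem_closure_iff]
  intro V hV hfV
  exact closure_NH f hk hx hH hV hfV

end JT

end FB
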