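import Pool.Agent.H.MP_fb873c_an.J1
import Pool.Agent.H.MP_fb873c_an.J2

/-!
# Part J3a: Liapunov-Schmidt reduction: the local inverse
-/

namespace FB

namespace JT

open scoped Topology ContDiff
open Filter KT

variable {E : Type} [NormedAddCommGroup E] [NormedSpace ℝ E] {A : E →L[ℝ] E} {lam : ℂ} {b : ℕ}
  {ι : ℂ →L[ℝ] E} {π : E →L[ℝ] ℂ} {F : E → E} {q : ℂ × ℂ → E}

/-- The map whose local inverse gives `q`. -/
noncomputable def Psi (F : E → E) (ι : ℂ →L[ℝ] E) (π : E →L[ℝ] ℂ) (b : ℕ) (p : ℂ × E) : ℂ × E :=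
  (p.1, ι (π p.2) + (GG F ι π b p - p.2 - ι (π (GG F ι π b p - p.2))))

/-- `Psi` is smooth at `0` (`GG_smooth`), `Psi 0 = 0`, and its derivative at `0` is `(μ, x) ↦ (μ, L x)` with `L` from `exists_L` (`GG_strict`;
`(1 - ι π)(A^b x - x) = A^b x - x` because `π (A^b x - x) = (lam^b - 1) π x = 0`), an isomorphism of `ℂ × E` (build it as a `ContinuousLinearEquiv`, for instance `ContinuousLinearEquiv.prodCongr (refl) L`).
The local inverse: `ContDiffAt.localInverse`, `ContDiffAt.to_localInverse`, `HasStrictFDerivAt.eventually_right_inverse`, `HasStrictFDerivAt.eventually_left_inverse`. -/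
theorem exists_inv [FiniteDimensional ℝ E] (hF : Loc F A) (h : RD A lam b ι π) :
    ∃ g : ℂ × E → ℂ × E, ContDiffAt ℝ ∞ g 0 ∧ g 0 = 0 ∧
      (∀ᶠ y in 𝓝 (0 : ℂ × E), Psi F ι π b (g y) = y) ∧
      (∀ᶠ x in 𝓝 (0 : ℂ × E), g (Psi F ι π b x) = x) := by
  have : CompleteSpace E := FiniteDimensional.complete ℝ E
  obtain ⟨L, hL⟩ := exists_L h
  have hG : ContDiffAt ℝ ∞ (GG F ι π b) 0 := GG_smooth hF b
  have hD : ContDiffAt ℝ ∞ (fun p : ℂ × E => GG F ι π b p - p.2) 0 :=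
    hG.sub contDiffAt_snd
  have hP : ContDiffAt ℝ ∞ (Psi F ι π b) 0 := by
    unfold Psi
    refine contDiffAt_fst.prodMk ?_
    refine ContDiffAt.add ?_ (hD.sub ?_)
    · exact ι.contDiff.contDiffAt.comp _ (π.contDiff.contDiffAt.comp _ contDiffAt_snd)
    · exact ι.contDiff.contDiffAt.comp _ (π.contDiff.contDiffAt.comp _ hD)
  have h0 : Psi F ι π b 0 = 0 := by
    have h1 : GG F ι π b (0 : ℂ × E) = 0 := GG_zero hF.zero b 0
    unfold Psi
    rw [h1]
    simp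
  have hGd : HasFDerivAt (GG F ι π b) ((A ^ b) ∘L ContinuousLinearMap.snd ℝ ℂ E) 0 :=
    (GG_strict hF b).hasFDerivAt
  have hDd : HasFDerivAt (fun p : ℂ × E => GG F ι π b p - p.2)
      ((A ^ b) ∘L ContinuousLinearMap.snd ℝ ℂ E - ContinuousLinearMap.snd ℝ ℂ E) 0 :=
    hGd.sub hasFDerivAt_snd
  have hPd0 : HasFDerivAt (Psi F ι π b)
      ((ContinuousLinearMap.fst ℝ ℂ E).prod
        (ι ∘L (π ∘L ContinuousLinearMap.snd ℝ ℂ E) +
          (((A ^ b) ∘L ContinuousLinearMap.snd ℝ ℂ E - ContinuousLinearMap.snd ℝ ℂ E) -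
            ι ∘L (π ∘L ((A ^ b) ∘L ContinuousLinearMap.snd ℝ ℂ E -
              ContinuousLinearMap.snd ℝ ℂ E))))) 0 := by
    unfold Psi
    refine hasFDerivAt_fst.prodMk ?_
    refine HasFDerivAt.add ?_ (hDd.sub ?_)
    · exact ι.hasFDerivAt.comp _ (π.hasFDerivAt.comp _ hasFDerivAt_snd)
    · exact ι.hasFDerivAt.comp _ (π.hasFDerivAt.comp _ hDd)
  have hPd : HasFDerivAt (Psi F ι π b)
      (((ContinuousLinearEquiv.refl ℝ ℂ).prodCongr L : (ℂ × E) ≃L[ℝ] (ℂ × E)) :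
        (ℂ × E) →L[ℝ] (ℂ × E)) 0 := by
    refine hPd0.congr_fderiv ?_
    refine ContinuousLinearMap.ext fun p => ?_
    have h1 : π ((A ^ b) p.2 - p.2) = 0 := by
      rw [map_sub, h.piA, h.one, one_mul, sub_self]
    show (p.1, ι (π p.2) + (((A ^ b) p.2 - p.2) - ι (π ((A ^ b) p.2 - p.2)))) = (p.1, L p.2)
    rw [h1, map_zero, sub_zero, hL]
  have hn : (∞ : WithTop ℕ∞) ≠ 0 := by simp
  have hS := hP.hasStrictFDerivAt' hPd hn
  refine ⟨hP.localInverse hPd hn, ?_, ?_, ?_, ?_⟩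
  · have h1 := hP.to_localInverse hPd hn
    rwa [h0] at h1
  · have h1 := hP.localInverse_apply_image hPd hn
    rwa [h0] at h1
  · have h1 := hS.eventually_right_inverse
    rw [h0] at h1
    exact h1
  · exact hS.eventually_left_inverse

end JT

end FB
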