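import Pool.Agent.H.MP_fb873c_an.J1
import Pool.Agent.H.MP_fb873c_an.J2

/-!
# Part J4a: first properties of `q` and `RR`
-/

namespace FB

namespace JT

open scoped Topology ContDiff
open Filter KT

variable {E : Type} [NormedAddCommGroup E] [NormedSpace ℝ E] {A : E →L[ℝ] E} {lam : ℂ} {b : ℕ}
  {ι : ℂ →L[ℝ] E} {π : E →L[ℝ] ℂ} {F : E → E} {q : ℂ × ℂ → E}

theorem LS.q0 (hq : LS F ι π b q) : q 0 = 0 := by
  have h := hq.zero.self_of_nhds
  exact h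

/-- `GG_smooth` composed with the smooth map `p ↦ (p.1, q p)` (value `0` at `0`). -/
theorem RR_smooth (hF : Loc F A) (hq : LS F ι π b q) : ContDiffAt ℝ ∞ (RR F ι π b q) 0 := by
  have hq0 : q 0 = 0 := hq.q0
  have h1 : ContDiffAt ℝ ∞ (fun p : ℂ × ℂ => ((p.1, q p) : ℂ × E)) 0 :=
    contDiffAt_fst.prodMk hq.smooth
  have h2 : ContDiffAt ℝ ∞ (GG F ι π b) ((fun p : ℂ × ℂ => ((p.1, q p) : ℂ × E)) 0) := by
    have e : ((fun p : ℂ × ℂ => ((p.1, q p) : ℂ × E)) 0) = 0 := by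
      show (((0 : ℂ × ℂ).1, q 0) : ℂ × E) = 0
      rw [hq0]
      rfl
    rw [e]
    exact GG_smooth hF b
  have h3 : ContDiffAt ℝ ∞ (GG F ι π b ∘ (fun p : ℂ × ℂ => ((p.1, q p) : ℂ × E))) 0 :=
    ContDiffAt.comp (0 : ℂ × ℂ) h2 h1
  have h4 : ContDiffAt ℝ ∞ (⇑π ∘ (GG F ι π b ∘ (fun p : ℂ × ℂ => ((p.1, q p) : ℂ × E)))) 0 :=
    π.contDiff.contDiffAt.comp 0 h3
  exact h4.sub contDiffAt_snd

/-- `LS.zero`, `GG_zero`. -/
theorem RR_zero (hF : Loc F A) (hq : LS F ι π b q) :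
    ∀ᶠ μ : ℂ in 𝓝 0, RR F ι π b q (μ, 0) = 0 := by
  filter_upwards [hq.zero] with μ hμ
  unfold RR
  simp only
  rw [hμ, GG_zero hF.zero, map_zero, sub_zero]

/-- Let `V` be the derivative of `w ↦ q (0, w)` at `0` (`LS.smooth`).  `π (q (0, w)) = w` near `0`: `π V = 1`.  Differentiate `GG b (0, q (0, w)) = q (0, w) + ι (RR (0, w))` at `w = 0`
(`GG_deriv0`): `A^b V = V + ι R'`, `R' = π A^b V - 1 = lam^b π V - 1 = 0`.  So `A^b (V v - ι v) = V v - ι v` (`RD.Apow`) and `π (V v - ι v) = 0`; `RD.inj` gives `V = ι`. -/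
theorem q_deriv (hF : Loc F A) (h : RD A lam b ι π) (hq : LS F ι π b q) :
    HasFDerivAt (fun w => q (0, w)) ι 0 := by
  have hsl : Tendsto (fun w : ℂ => ((0 : ℂ), w)) (𝓝 0) (𝓝 (0 : ℂ × ℂ)) := by
    have hc : Continuous (fun w : ℂ => ((0 : ℂ), w)) := by fun_prop
    exact hc.tendsto 0
  have hin : HasFDerivAt (fun w : ℂ => ((0 : ℂ), w)) (ContinuousLinearMap.inr ℝ ℂ ℂ) 0 :=
    (ContinuousLinearMap.inr ℝ ℂ ℂ).hasFDerivAt
  have hqd : HasFDerivAt q (fderiv ℝ q 0) 0 :=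
    (hq.smooth.differentiableAt (by simp)).hasFDerivAt
  obtain ⟨V, hV⟩ : ∃ V : ℂ →L[ℝ] E, HasFDerivAt (fun w : ℂ => q (0, w)) V 0 :=
    ⟨_, HasFDerivAt.comp (0 : ℂ) (show HasFDerivAt q (fderiv ℝ q 0) ((0 : ℂ), (0 : ℂ)) from hqd)
      hin⟩
  -- `π V = 1`
  have hpi : ∀ v, π (V v) = v := by
    have h1 : HasFDerivAt (fun w : ℂ => π (q (0, w))) (π ∘L V) 0 :=
      π.hasFDerivAt.comp (0 : ℂ) hV
    have h2 : (fun w : ℂ => π (q (0, w))) =ᶠ[𝓝 0] fun w => w := by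
      have h3 := hsl.eventually hq.pi
      filter_upwards [h3] with w hw
      exact hw
    have h4 : HasFDerivAt (fun w : ℂ => w) (π ∘L V) 0 := h1.congr_of_eventuallyEq h2.symm
    have h5 := h4.unique (hasFDerivAt_id (𝕜 := ℝ) (0 : ℂ))
    intro v
    have h6 := congrArg (fun L : ℂ →L[ℝ] ℂ => L v) h5
    simpa using h6
  have hq00 : q (0, 0) = 0 := hq.q0
  have hG : HasFDerivAt (fun w : ℂ => GG F ι π b (0, q (0, w))) ((A ^ b) ∘L V) 0 := by
    have h1 : HasFDerivAt (fun x => GG F ι π b (0, x)) (A ^ b) (q (0, (0 : ℂ))) := by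
      rw [hq00]
      exact GG_deriv0 hF b
    exact HasFDerivAt.comp (0 : ℂ) h1 hV
  have hR : HasFDerivAt (fun w : ℂ => RR F ι π b q (0, w))
      (π ∘L ((A ^ b) ∘L V) - ContinuousLinearMap.id ℝ ℂ) 0 := by
    have h1 : HasFDerivAt (fun w : ℂ => π (GG F ι π b (0, q (0, w)))) (π ∘L ((A ^ b) ∘L V)) 0 :=
      π.hasFDerivAt.comp (0 : ℂ) hG
    exact h1.sub (hasFDerivAt_id (𝕜 := ℝ) (0 : ℂ))
  have hRHS : HasFDerivAt (fun w : ℂ => q (0, w) + ι (RR F ι π b q (0, w)))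
      (V + ι ∘L (π ∘L ((A ^ b) ∘L V) - ContinuousLinearMap.id ℝ ℂ)) 0 :=
    hV.add (ι.hasFDerivAt.comp (0 : ℂ) hR)
  have heq : (fun w : ℂ => GG F ι π b (0, q (0, w))) =ᶠ[𝓝 0]
      fun w : ℂ => q (0, w) + ι (RR F ι π b q (0, w)) := by
    have h3 := hsl.eventually hq.eq
    filter_upwards [h3] with w hw
    exact hw
  have hU := (hRHS.congr_of_eventuallyEq heq).unique hG
  have hAV : ∀ v, (A ^ b) (V v) = V v := by
    intro v
    have h6 := congrArg (fun L : ℂ →L[ℝ] E => L v) hU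
    have h7 : V v + ι (π ((A ^ b) (V v)) - v) = (A ^ b) (V v) := by simpa using h6
    rw [h.piA, h.one, one_mul, hpi, sub_self, map_zero, add_zero] at h7
    exact h7.symm
  have hVι : V = ι := by
    ext1 v
    have h1 : V v - ι v = 0 := by
      apply h.inj
      · rw [map_sub, hpi, h.pi, sub_self]
      · rw [map_sub, hAV, h.Apow, h.one, one_mul]
    exact sub_eq_zero.1 h1
  rw [← hVι]
  exact hV

/-- The derivative in both variables is `(μ, w) ↦ ι w` (`q_deriv`, `LS.zero`), strict by smoothness. -/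
theorem q_strict (hF : Loc F A) (h : RD A lam b ι π) (hq : LS F ι π b q) :
    HasStrictFDerivAt q (ι ∘L ContinuousLinearMap.snd ℝ ℂ ℂ) 0 := by
  have hst : HasStrictFDerivAt q (fderiv ℝ q 0) 0 :=
    hq.smooth.hasStrictFDerivAt (by simp)
  have hD : fderiv ℝ q 0 = ι ∘L ContinuousLinearMap.snd ℝ ℂ ℂ := by
    set D := fderiv ℝ q 0 with hDdef
    have hfd : HasFDerivAt q D 0 := hst.hasFDerivAt
    have hx : ∀ x : ℂ, D (0, x) = ι x := by
      have hc : HasFDerivAt (fun x : ℂ => q (0, x))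
          (D ∘L ContinuousLinearMap.inr ℝ ℂ ℂ) 0 := by
        have hi : HasFDerivAt (fun x : ℂ => ((0 : ℂ), x)) (ContinuousLinearMap.inr ℝ ℂ ℂ) 0 :=
          (ContinuousLinearMap.inr ℝ ℂ ℂ).hasFDerivAt
        exact HasFDerivAt.comp (0 : ℂ) (show HasFDerivAt q D ((0 : ℂ), (0 : ℂ)) from hfd) hi
      have h1 := hc.unique (q_deriv hF h hq)
      intro x
      have h2 := congrArg (fun L : ℂ →L[ℝ] E => L x) h1
      simpa using h2
    have hm : ∀ μ : ℂ, D (μ, 0) = 0 := by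
      have hc : HasFDerivAt (fun μ : ℂ => q (μ, 0))
          (D ∘L ContinuousLinearMap.inl ℝ ℂ ℂ) 0 := by
        have hi : HasFDerivAt (fun μ : ℂ => (μ, (0 : ℂ))) (ContinuousLinearMap.inl ℝ ℂ ℂ) 0 :=
          (ContinuousLinearMap.inl ℝ ℂ ℂ).hasFDerivAt
        exact HasFDerivAt.comp (0 : ℂ) (show HasFDerivAt q D ((0 : ℂ), (0 : ℂ)) from hfd) hi
      have hz : (fun μ : ℂ => q (μ, 0)) =ᶠ[𝓝 0] fun _ => 0 := by
        filter_upwards [hq.zero] with μ hμ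
        exact hμ
      have hc2 : HasFDerivAt (fun _ : ℂ => (0 : E)) (D ∘L ContinuousLinearMap.inl ℝ ℂ ℂ) 0 :=
        hc.congr_of_eventuallyEq hz.symm
      have h1 := hc2.unique (hasFDerivAt_const (0 : E) (0 : ℂ))
      intro μ
      have h2 := congrArg (fun L : ℂ →L[ℝ] E => L μ) h1
      simpa using h2
    refine ContinuousLinearMap.ext fun p => ?_
    obtain ⟨μ, x⟩ := p
    have hsplit : ((μ, x) : ℂ × ℂ) = (μ, 0) + (0, x) := by simp
    rw [hsplit, map_add, hx, hm]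
    simp
  rw [← hD]
  exact hst

end JT

end FB
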