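import Pool.Agent.H.MP_fb873c_an.D2a
import Pool.Agent.H.MP_fb873c_an.J4a

/-!
# Part J4b: the derivative of `RR` in the second variable
-/

namespace FB

namespace JT

open scoped Topology ContDiff
open Filter KT

variable {E : Type} [NormedAddCommGroup E] [NormedSpace ℝ E] {A : E →L[ℝ] E} {lam : ℂ} {b : ℕ}
  {ι : ℂ →L[ℝ] E} {π : E →L[ℝ] ℂ} {F : E → E} {q : ℂ × ℂ → E}

theorem J4b_piB (h : RD A lam b ι π) (μ : ℂ) (j : ℕ) (v : E) :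
    π (((A ∘L (ContinuousLinearMap.id ℝ E + ι ∘L mulc μ ∘L π)) ^ j) v) =
      (lam * (1 + μ)) ^ j * π v := by
  induction j with
  | zero => simp
  | succ j ih =>
    rw [pow_succ']
    change π (A ((((A ∘L (ContinuousLinearMap.id ℝ E + ι ∘L mulc μ ∘L π)) ^ j) v) +
      ι (μ * π (((A ∘L (ContinuousLinearMap.id ℝ E + ι ∘L mulc μ ∘L π)) ^ j) v)))) = _
    rw [h.pA, map_add, h.pi, ih]
    ring

theorem J4b_diff (hF : Loc F A) (hq : LS F ι π b q) :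
    ∀ᶠ p : ℂ × ℂ in 𝓝 0, DifferentiableAt ℝ (RR F ι π b q) p := by
  have h1 : ContDiffAt ℝ 1 (RR F ι π b q) 0 := (RR_smooth hF hq).of_le (by simp)
  filter_upwards [h1.eventually (by simp)] with p hp
  exact hp.differentiableAt (by simp)

/-- For `μ` near `0`: let `V` be the derivative of `w ↦ q (μ, w)` at `0` (`LS.smooth` near `0`); `π V = 1` by `LS.pi` (`Filter.Eventually.curry_nhds`), `q (μ, 0) = 0`.
Chain rule (`GG_deriv`): the derivative of `RR (μ, .)` at `0` is `π B V - 1`, `B = (A (1 + ι μ π))^b`, and `π B = (1 + μ)^b π` (`π A (1 + ι μ π) = lam (1 + μ) π`, `lam^b = 1`). -/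
theorem QQ_at (hF : Loc F A) (h : RD A lam b ι π) (hq : LS F ι π b q) :
    ∀ᶠ μ : ℂ in 𝓝 0, QQ F ι π b q (μ, 0) = mulc ((1 + μ) ^ b - 1) := by
  have ht : Tendsto (fun μ : ℂ => ((μ, 0) : ℂ × ℂ)) (𝓝 0) (𝓝 (0 : ℂ × ℂ)) := by
    have : Continuous (fun μ : ℂ => ((μ, 0) : ℂ × ℂ)) := by fun_prop
    exact this.tendsto' _ _ rfl
  have h1 : ContDiffAt ℝ 1 q 0 := hq.smooth.of_le (by simp)
  have h2 : ∀ᶠ μ : ℂ in 𝓝 0, ContDiffAt ℝ 1 q (μ, 0) := ht.eventually (h1.eventually (by simp))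
  have h3 : ∀ᶠ μ : ℂ in 𝓝 0, ∀ᶠ w : ℂ in 𝓝 0, π (q (μ, w)) = w := by
    have h30 := hq.pi
    rw [show (0 : ℂ × ℂ) = (0, 0) from rfl] at h30
    exact h30.curry_nhds
  filter_upwards [h2, h3, hq.zero] with μ h2 h3 h4
  have hd : DifferentiableAt ℝ q (μ, 0) := h2.differentiableAt (by simp)
  have hV : HasFDerivAt (fun w : ℂ => q (μ, w))
      ((fderiv ℝ q (μ, 0)) ∘L ContinuousLinearMap.inr ℝ ℂ ℂ) 0 :=
    HasFDerivAt.comp (0 : ℂ) hd.hasFDerivAt (hasFDerivAt_prodMk_right μ (0 : ℂ))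
  set V : ℂ →L[ℝ] E := (fderiv ℝ q (μ, 0)) ∘L ContinuousLinearMap.inr ℝ ℂ ℂ with hVd
  have hpV : ∀ v, π (V v) = v := by
    have a1 : HasFDerivAt (fun w : ℂ => π (q (μ, w))) (π ∘L V) 0 :=
      HasFDerivAt.comp (0 : ℂ) π.hasFDerivAt hV
    have a2 : HasFDerivAt (fun w : ℂ => π (q (μ, w))) (ContinuousLinearMap.id ℝ ℂ) 0 :=
      (hasFDerivAt_id (𝕜 := ℝ) (0 : ℂ)).congr_of_eventuallyEq h3
    intro v
    exact congrArg (fun L : ℂ →L[ℝ] ℂ => L v) (a1.unique a2)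
  have hG : HasFDerivAt (fun x => GG F ι π b (μ, x))
      ((A ∘L (ContinuousLinearMap.id ℝ E + ι ∘L mulc μ ∘L π)) ^ b) (q (μ, 0)) := by
    rw [h4]
    exact GG_deriv hF b μ
  set B : E →L[ℝ] E := (A ∘L (ContinuousLinearMap.id ℝ E + ι ∘L mulc μ ∘L π)) ^ b with hBd
  have hR : HasFDerivAt (fun w => RR F ι π b q (μ, w))
      (π ∘L (B ∘L V) - ContinuousLinearMap.id ℝ ℂ) 0 := by
    have a1 : HasFDerivAt (fun w : ℂ => GG F ι π b (μ, q (μ, w))) (B ∘L V) 0 :=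
      HasFDerivAt.comp (g := fun x => GG F ι π b (μ, x)) (f := fun w : ℂ => q (μ, w)) (0 : ℂ) hG hV
    have a2 : HasFDerivAt (fun w : ℂ => π (GG F ι π b (μ, q (μ, w)))) (π ∘L (B ∘L V)) 0 :=
      HasFDerivAt.comp (0 : ℂ) π.hasFDerivAt a1
    exact a2.sub (hasFDerivAt_id (𝕜 := ℝ) (0 : ℂ))
  have hQ : QQ F ι π b q (μ, 0) = π ∘L (B ∘L V) - ContinuousLinearMap.id ℝ ℂ := hR.fderiv
  rw [hQ]
  ext1 v
  change π (B (V v)) - v = ((1 + μ) ^ b - 1) * v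
  rw [hBd, J4b_piB h μ b (V v), hpV, mul_pow, h.one, one_mul]
  ring

/-- `QQ p = (fderiv (RR) p) ∘ inr` near `0` (`D2a_eventually`, `D2a_contDiffAt` in file D2a, namespace `FB`; `RR_smooth`). -/
theorem QQ_smooth (hF : Loc F A) (hq : LS F ι π b q) : ContDiffAt ℝ ∞ (QQ F ι π b q) 0 := by
  exact (D2a_contDiffAt (RR_smooth hF hq)).congr_of_eventuallyEq
    (D2a_eventually (RR_smooth hF hq))

/-- `RR (μ, .)` is differentiable near `0`, with derivative `QQ`. -/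
theorem RR_hasDeriv (hF : Loc F A) (hq : LS F ι π b q) :
    ∀ᶠ p : ℂ × ℂ in 𝓝 0, HasFDerivAt (fun w => RR F ι π b q (p.1, w)) (QQ F ι π b q p) p.2 := by
  filter_upwards [J4b_diff hF hq] with p hp
  have h1 : DifferentiableAt ℝ (fun w => RR F ι π b q (p.1, w)) p.2 := by
    have h2 : HasFDerivAt (fun w : ℂ => (p.1, w)) (ContinuousLinearMap.inr ℝ ℂ ℂ) p.2 :=
      hasFDerivAt_prodMk_right p.1 p.2
    have h3 : HasFDerivAt (RR F ι π b q) (fderiv ℝ (RR F ι π b q) p) (p.1, p.2) :=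
      hp.hasFDerivAt
    exact (HasFDerivAt.comp p.2 h3 h2).differentiableAt
  exact h1.hasFDerivAt

/-- `QQ` is strictly differentiable at `0` (`QQ_smooth`) with derivative `D`, and `D (μ, 0) = mulc (b μ)`: derivative at `μ = 0` of `mulc ((1 + μ)^b - 1)` (`QQ_at`).
`‖QQ x - QQ y - D (x - y)‖ ≤ η ‖x - y‖` for `x = (μ, w)`, `y = (μ', w)` near `0` (`p = ((μ, μ'), w)`). -/
theorem QQ_strict (hF : Loc F A) (h : RD A lam b ι π) (hq : LS F ι π b q) {η : ℝ} (hη : 0 < η) :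
    ∀ᶠ p : (ℂ × ℂ) × ℂ in 𝓝 0,
      ‖QQ F ι π b q (p.1.1, p.2) - QQ F ι π b q (p.1.2, p.2) - mulc (b * (p.1.1 - p.1.2))‖ ≤
        η * ‖p.1.1 - p.1.2‖ := by
  have hs : HasStrictFDerivAt (QQ F ι π b q) (fderiv ℝ (QQ F ι π b q) 0) 0 :=
    (QQ_smooth hF hq).hasStrictFDerivAt (by simp)
  set D := fderiv ℝ (QQ F ι π b q) 0 with hDd
  have hD : ∀ μ : ℂ, D (μ, 0) = mulc (b * μ) := by
    have a1 : HasFDerivAt (fun μ : ℂ => QQ F ι π b q (μ, 0))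
        (D ∘L ContinuousLinearMap.inl ℝ ℂ ℂ) 0 := by
      have hi : HasFDerivAt (fun μ : ℂ => (μ, (0 : ℂ))) (ContinuousLinearMap.inl ℝ ℂ ℂ) 0 :=
        (ContinuousLinearMap.inl ℝ ℂ ℂ).hasFDerivAt
      exact HasFDerivAt.comp (g := QQ F ι π b q) (f := fun μ : ℂ => (μ, (0 : ℂ))) (0 : ℂ)
        (show HasFDerivAt (QQ F ι π b q) D ((0 : ℂ), (0 : ℂ)) from hs.hasFDerivAt) hi
    have a2 : HasDerivAt (fun μ : ℂ => (1 + μ) ^ b - 1) (b : ℂ) 0 := by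
      have c1 : HasDerivAt (fun μ : ℂ => 1 + μ) 1 0 := (hasDerivAt_id (0 : ℂ)).const_add 1
      have c2 := (c1.pow b).sub_const 1
      have c3 : (b : ℂ) * (1 + 0) ^ (b - 1) * 1 = (b : ℂ) := by simp
      rw [c3] at c2
      exact c2
    have a3 : HasFDerivAt (fun μ : ℂ => (1 + μ) ^ b - 1)
        ((ContinuousLinearMap.toSpanSingleton ℂ (b : ℂ)).restrictScalars ℝ) 0 :=
      a2.hasFDerivAt.restrictScalars ℝ
    have a4 : HasFDerivAt (fun μ : ℂ => mulc ((1 + μ) ^ b - 1))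
        ((ContinuousLinearMap.mul ℝ ℂ) ∘L
          ((ContinuousLinearMap.toSpanSingleton ℂ (b : ℂ)).restrictScalars ℝ)) 0 :=
      HasFDerivAt.comp (0 : ℂ) (ContinuousLinearMap.mul ℝ ℂ).hasFDerivAt a3
    have a5 := a4.congr_of_eventuallyEq (QQ_at hF h hq)
    have a6 := a1.unique a5
    intro μ
    have a7 := congrArg (fun L : ℂ →L[ℝ] (ℂ →L[ℝ] ℂ) => L μ) a6
    have a8 : D (μ, 0) = ContinuousLinearMap.mul ℝ ℂ (μ • (b : ℂ)) := a7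
    rw [a8, smul_eq_mul, mul_comm]
    rfl
  have h1 := hs.isLittleO.def hη
  have ht : Tendsto (fun p : (ℂ × ℂ) × ℂ => (((p.1.1, p.2), (p.1.2, p.2)) :
      (ℂ × ℂ) × (ℂ × ℂ))) (𝓝 0) (𝓝 ((0 : ℂ × ℂ), (0 : ℂ × ℂ))) := by
    have : Continuous (fun p : (ℂ × ℂ) × ℂ => (((p.1.1, p.2), (p.1.2, p.2)) :
      (ℂ × ℂ) × (ℂ × ℂ))) := by fun_prop
    exact this.tendsto' _ _ rfl
  filter_upwards [ht.eventually h1] with p hp
  have h2 : ((p.1.1, p.2) : ℂ × ℂ) - (p.1.2, p.2) = (p.1.1 - p.1.2, 0) := by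
    ext <;> simp
  change ‖QQ F ι π b q (p.1.1, p.2) - QQ F ι π b q (p.1.2, p.2) -
    D ((p.1.1, p.2) - (p.1.2, p.2))‖ ≤ η * ‖((p.1.1, p.2) : ℂ × ℂ) - (p.1.2, p.2)‖ at hp
  rw [h2, hD] at hp
  have h3 : ‖((p.1.1 - p.1.2, 0) : ℂ × ℂ)‖ = ‖p.1.1 - p.1.2‖ := by
    rw [Prod.norm_mk, norm_zero, max_eq_left (norm_nonneg _)]
  rw [h3] at hp
  exact hp

end JT

end FB
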