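import Pool.Agent.H.MP_fb873c_an.K00

/-!
# Part J6a: integration of little o
-/

namespace FB

namespace JT

open scoped Topology ContDiff
open Filter KT

/-- If `g` has the derivative `g' x` for `x` near `0` and `g' = o(‖x‖^k)`, then `g x - g 0 = o(‖x‖^(k+1))` (mean value inequality on small balls). -/
theorem isLittleO_of_deriv {V W : Type} [NormedAddCommGroup V] [NormedSpace ℝ V]
    [NormedAddCommGroup W] [NormedSpace ℝ W] {g : V → W} {g' : V → (V →L[ℝ] W)} {k : ℕ}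
    (hg : ∀ᶠ x in 𝓝 (0 : V), HasFDerivAt g (g' x) x)
    (ho : g' =o[𝓝 0] (fun x : V => ‖x‖ ^ k)) :
    (fun x => g x - g 0) =o[𝓝 0] (fun x : V => ‖x‖ ^ (k + 1)) := by
  rw [Asymptotics.isLittleO_iff]
  intro c hc
  have h1 := (Asymptotics.isLittleO_iff.1 ho) hc
  obtain ⟨ε, hε, hb⟩ := Metric.eventually_nhds_iff_ball.1 (hg.and h1)
  refine Metric.eventually_nhds_iff_ball.2 ⟨ε, hε, fun x hx => ?_⟩
  have hx' : ‖x‖ < ε := by rwa [mem_ball_zero_iff] at hx
  have hs : ∀ y ∈ Metric.closedBall (0 : V) ‖x‖, y ∈ Metric.ball (0 : V) ε := by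
    intro y hy
    rw [mem_closedBall_zero_iff] at hy
    rw [mem_ball_zero_iff]
    exact hy.trans_lt hx'
  have h2 := Convex.norm_image_sub_le_of_norm_hasFDerivWithin_le (𝕜 := ℝ) (f := g) (f' := g')
    (C := c * ‖x‖ ^ k) (s := Metric.closedBall (0 : V) ‖x‖) (x := 0) (y := x)
    (fun y hy => (hb y (hs y hy)).1.hasFDerivWithinAt)
    (fun y hy => by
      have h3 := (hb y (hs y hy)).2
      rw [mem_closedBall_zero_iff] at hy
      have h4 : ‖‖y‖ ^ k‖ = ‖y‖ ^ k := by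
        rw [norm_pow, norm_norm]
      rw [h4] at h3
      exact h3.trans (mul_le_mul_of_nonneg_left (pow_le_pow_left₀ (norm_nonneg y) hy k) hc.le))
    (convex_closedBall 0 ‖x‖)
    (by rw [mem_closedBall_zero_iff, norm_zero]; exact norm_nonneg x)
    (by rw [mem_closedBall_zero_iff])
  have h5 : ‖‖x‖ ^ (k + 1)‖ = ‖x‖ ^ k * ‖x‖ := by
    rw [norm_pow, norm_norm, pow_succ]
  rw [h5]
  rw [sub_zero] at h2
  refine h2.trans (le_of_eq ?_)
  ring

end JT

end FB
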