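import Pool.Agent.H.MP_fb873c_an.K00

/-!
# Part J7b: cubic maps commuting with a rotation
-/

namespace FB

namespace JT

open scoped Topology ContDiff
open Filter KT

/-- With `w = x + i y`: `B3 w w w = B3 1 1 1 x^3 + 3 B3 1 1 i x^2 y + 3 B3 1 i i x y^2 + B3 i i i y^3 = p w^3 + 6 c w^2 conj w + r w (conj w)^2 + s (conj w)^3`.  The hypothesis gives
`(lam^3 - lam) p w^3 + (conj lam - lam) r w (conj w)^2 + (conj lam^3 - lam) s (conj w)^3 = 0` for all `w` (`lam conj lam = 1`), so these coefficients vanish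
(`w = 1, i, 1 + i, 1 - i`); `lam^3 = lam`, `conj lam = lam` would give `lam^2 = 1`, `conj lam^3 = lam` would give `lam^4 = 1`.  So `p = r = s = 0`; comparing coefficients of `x^3`, `x^2 y`:
`B3 1 1 1 = 6 c`, `3 B3 1 1 i = 6 c i`.  So `B3 1 1 v = 2 c (2 v + conj v)` for `v = 1, i`, hence for all `v`. -/
theorem cubic_form {lam : ℂ} (hn : ‖lam‖ = 1) (h2 : lam ^ 2 ≠ 1) (h4 : lam ^ 4 ≠ 1)
    {B3 : ℂ →L[ℝ] ℂ →L[ℝ] ℂ →L[ℝ] ℂ} (hs1 : ∀ u v w, B3 u v w = B3 v u w)
    (hs2 : ∀ u v w, B3 u v w = B3 u w v)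
    (he : ∀ w, B3 (lam * w) (lam * w) (lam * w) = lam * B3 w w w) :
    ∃ c : ℂ, ∀ v, B3 1 1 v = 2 * c * (2 * v + (starRingEnd ℂ) v) := by
  obtain ⟨a, ha⟩ : ∃ a : ℂ, a = B3 1 1 1 := ⟨_, rfl⟩
  obtain ⟨b, hb⟩ : ∃ b : ℂ, b = B3 1 1 Complex.I := ⟨_, rfl⟩
  obtain ⟨c, hc⟩ : ∃ c : ℂ, c = B3 1 Complex.I Complex.I := ⟨_, rfl⟩
  obtain ⟨d, hd⟩ : ∃ d : ℂ, d = B3 Complex.I Complex.I Complex.I := ⟨_, rfl⟩
  have hb2 : B3 1 Complex.I 1 = b := by rw [hb, hs2]
  have hb3 : B3 Complex.I 1 1 = b := by rw [hb, hs1, hs2]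
  have hc2 : B3 Complex.I 1 Complex.I = c := by rw [hc, hs1]
  have hc3 : B3 Complex.I Complex.I 1 = c := by rw [hs2, hc2]
  have hI : Complex.I ^ 2 = -1 := Complex.I_sq
  have hw : ∀ w : ℂ, 8 * B3 w w w = (a - 3 * Complex.I * b - 3 * c + Complex.I * d) * w ^ 3
      + 3 * (a - Complex.I * b + c - Complex.I * d) * w ^ 2 * (starRingEnd ℂ) w
      + 3 * (a + Complex.I * b + c + Complex.I * d) * w * ((starRingEnd ℂ) w) ^ 2
      + (a + 3 * Complex.I * b - 3 * c - Complex.I * d) * ((starRingEnd ℂ) w) ^ 3 := by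
    intro w
    obtain ⟨x, hx⟩ : ∃ x : ℝ, x = w.re := ⟨_, rfl⟩
    obtain ⟨y, hy⟩ : ∃ y : ℝ, y = w.im := ⟨_, rfl⟩
    have h1 : w = x • (1 : ℂ) + y • Complex.I := by
      rw [Complex.real_smul, Complex.real_smul, mul_one, hx, hy]
      exact (Complex.re_add_im w).symm
    have h2 : (starRingEnd ℂ) w = (x : ℂ) - y * Complex.I := by
      rw [h1]
      simp only [Complex.real_smul, map_add, map_mul, Complex.conj_ofReal, Complex.conj_I, map_one]
      ring
    have h3 : B3 w w w = (x : ℂ) ^ 3 * a + 3 * (x : ℂ) ^ 2 * y * b + 3 * x * (y : ℂ) ^ 2 * c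
        + (y : ℂ) ^ 3 * d := by
      rw [h1]
      simp only [map_add, map_smul, ContinuousLinearMap.add_apply, ContinuousLinearMap.smul_apply]
      rw [hb2, hb3, hc2, hc3, ← ha, ← hb, ← hc, ← hd]
      simp only [Complex.real_smul]
      ring
    have h4 : w = (x : ℂ) + y * Complex.I := by
      rw [h1, Complex.real_smul, Complex.real_smul, mul_one]
    rw [h3, h2]
    rw [h4]
    linear_combination (24 * (x : ℂ) ^ 2 * y * b + 24 * x * (y : ℂ) ^ 2 * c
      - 8 * (y : ℂ) ^ 3 * (Complex.I ^ 2 - 1) * d) * hI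
  obtain ⟨p, hp⟩ : ∃ p : ℂ, p = a - 3 * Complex.I * b - 3 * c + Complex.I * d := ⟨_, rfl⟩
  obtain ⟨q, hq⟩ : ∃ q : ℂ, q = a - Complex.I * b + c - Complex.I * d := ⟨_, rfl⟩
  obtain ⟨r, hr⟩ : ∃ r : ℂ, r = a + Complex.I * b + c + Complex.I * d := ⟨_, rfl⟩
  obtain ⟨s, hs⟩ : ∃ s : ℂ, s = a + 3 * Complex.I * b - 3 * c - Complex.I * d := ⟨_, rfl⟩
  rw [← hp, ← hq, ← hr, ← hs] at hw
  obtain ⟨M, hM⟩ : ∃ M : ℂ, M = (starRingEnd ℂ) lam := ⟨_, rfl⟩
  have hLM : lam * M = 1 := by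
    rw [hM, Complex.mul_conj, Complex.normSq_eq_norm_sq, hn]
    simp
  have hE : ∀ w : ℂ, p * (lam ^ 3 - lam) * w ^ 3 + 3 * r * (M - lam) * w * ((starRingEnd ℂ) w) ^ 2
      + s * (M ^ 3 - lam) * ((starRingEnd ℂ) w) ^ 3 = 0 := by
    intro w
    have h1 := hw (lam * w)
    have h2 := hw w
    rw [he w, map_mul, ← hM] at h1
    generalize (starRingEnd ℂ) w = v at *
    linear_combination lam * h2 - h1 - (3 * q * lam * w ^ 2 * v + 3 * r * M * w * v ^ 2) * hLM
  have e1 := hE 1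
  have e2 := hE Complex.I
  have e3 := hE (1 + Complex.I)
  rw [map_one] at e1
  rw [Complex.conj_I] at e2
  rw [map_add, map_one, Complex.conj_I] at e3
  have hI0 : Complex.I ≠ 0 := Complex.I_ne_zero
  have f2 : p * (lam ^ 3 - lam) + 3 * r * (M - lam) - s * (M ^ 3 - lam) = 0 := by
    have h1 : Complex.I ^ 3 * (p * (lam ^ 3 - lam) + 3 * r * (M - lam) - s * (M ^ 3 - lam)) = 0 := by
      linear_combination e2
    rcases mul_eq_zero.1 h1 with h | h
    · exact absurd h (pow_ne_zero 3 hI0)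
    · exact h
  have fs : s * (M ^ 3 - lam) = 0 := by
    linear_combination (1 / 2) * e1 - (1 / 2) * f2
  have f1 : p * (lam ^ 3 - lam) + 3 * r * (M - lam) = 0 := by
    linear_combination (1 / 2) * e1 + (1 / 2) * f2
  have hJ1 : Complex.I - 1 ≠ 0 := by
    intro h
    have h1 : Complex.I = 1 := by linear_combination h
    rw [h1] at hI
    norm_num at hI
  have f3 : p * (lam ^ 3 - lam) - 3 * r * (M - lam) = 0 := by
    have h1 : (Complex.I - 1) * (p * (lam ^ 3 - lam) - 3 * r * (M - lam)) = 0 := by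
      linear_combination (1 / 2) * e3 - (1 / 2) * (1 - Complex.I) ^ 3 * fs
        - (1 / 2) * (p * (lam ^ 3 - lam) * (Complex.I + 3) + 3 * r * (M - lam) * (Complex.I - 1)) * hI
    rcases mul_eq_zero.1 h1 with h | h
    · exact absurd h hJ1
    · exact h
  have hlam0 : lam ≠ 0 := by
    intro h
    rw [h, zero_mul] at hLM
    exact zero_ne_one hLM
  have hML : M - lam ≠ 0 := by
    intro h
    apply h2
    linear_combination hLM - lam * h
  have hM3 : M ^ 3 - lam ≠ 0 := by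
    intro h
    apply h4
    have h1 : lam ^ 3 * M ^ 3 = 1 := by
      rw [← mul_pow, hLM, one_pow]
    linear_combination h1 - lam ^ 3 * h
  have hL3 : lam ^ 3 - lam ≠ 0 := by
    intro h
    have h1 : lam * (lam ^ 2 - 1) = 0 := by linear_combination h
    rcases mul_eq_zero.1 h1 with h3 | h3
    · exact hlam0 h3
    · exact h2 (sub_eq_zero.1 h3)
  have hs0 : s = 0 := by
    rcases mul_eq_zero.1 fs with h | h
    · exact h
    · exact absurd h hM3
  have hp0 : p = 0 := by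
    have h1 : p * (lam ^ 3 - lam) = 0 := by linear_combination (1 / 2) * f1 + (1 / 2) * f3
    rcases mul_eq_zero.1 h1 with h | h
    · exact h
    · exact absurd h hL3
  have hr0 : r = 0 := by
    have h1 : r * (M - lam) = 0 := by linear_combination (1 / 6) * f1 - (1 / 6) * f3
    rcases mul_eq_zero.1 h1 with h | h
    · exact h
    · exact absurd h hML
  rw [hs0] at hs
  rw [hp0] at hp
  rw [hr0] at hr
  have g1 : c = a / 3 := by linear_combination (1 / 6) * hp + (1 / 6) * hs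
  have g2 : Complex.I * d = 3 * (Complex.I * b) := by linear_combination (1 / 2) * hs - (1 / 2) * hp
  have g3 : Complex.I * b = -(a / 3) := by linear_combination -(1 / 4) * hr - (1 / 4) * g1 - (1 / 4) * g2
  have g4 : b = Complex.I * (a / 3) := by linear_combination -Complex.I * g3 + b * hI
  refine ⟨a / 6, fun v => ?_⟩
  obtain ⟨x, hx⟩ : ∃ x : ℝ, x = v.re := ⟨_, rfl⟩
  obtain ⟨y, hy⟩ : ∃ y : ℝ, y = v.im := ⟨_, rfl⟩
  have k1 : v = x • (1 : ℂ) + y • Complex.I := by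
    rw [Complex.real_smul, Complex.real_smul, mul_one, hx, hy]
    exact (Complex.re_add_im v).symm
  have k2 : (starRingEnd ℂ) v = (x : ℂ) - y * Complex.I := by
    rw [k1]
    simp only [Complex.real_smul, map_add, map_mul, Complex.conj_ofReal, Complex.conj_I, map_one]
    ring
  rw [k2, k1, map_add, map_smul, map_smul, ← ha, ← hb, g4]
  simp only [Complex.real_smul]
  ring

end JT

end FB
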