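import Pool.Agent.H.MP_fb873c_an.J4b

/-!
# Part J9: increments in the parameter
-/

namespace FB

namespace JT

open scoped Topology ContDiff
open Filter KT

variable {E : Type} [NormedAddCommGroup E] [NormedSpace ℝ E] {A : E →L[ℝ] E} {lam : ℂ} {b : ℕ}
  {ι : ℂ →L[ℝ] E} {π : E →L[ℝ] ℂ} {F : E → E} {q : ℂ × ℂ → E}

/-- Fix `η`.  There is `δ > 0` with `QQ_strict`, `RR_hasDeriv`, `RR_zero` for all `μ, μ', w` of norm `< δ`.  On the ball of radius `δ` the function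
`g t = RR (μ, t) - RR (μ', t) - b (μ - μ') t` has a derivative of norm `≤ η ‖μ - μ'‖`, and `g 0 = 0`: `Convex.norm_image_sub_le_of_norm_hasFDerivWithin_le` between `0` and `w`. -/
theorem RR_strict (hF : Loc F A) (h : RD A lam b ι π) (hq : LS F ι π b q) {η : ℝ} (hη : 0 < η) :
    ∀ᶠ p : (ℂ × ℂ) × ℂ in 𝓝 0,
      ‖RR F ι π b q (p.1.1, p.2) - RR F ι π b q (p.1.2, p.2) - b * (p.1.1 - p.1.2) * p.2‖ ≤
        η * ‖p.1.1 - p.1.2‖ * ‖p.2‖ := by
  obtain ⟨d1, hd1, h1⟩ := Metric.eventually_nhds_iff.1 (QQ_strict hF h hq hη)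
  obtain ⟨d2, hd2, h2⟩ := Metric.eventually_nhds_iff.1 (RR_hasDeriv hF hq)
  obtain ⟨d3, hd3, h3⟩ := Metric.eventually_nhds_iff.1 (RR_zero hF hq)
  have hd : 0 < min d1 (min d2 d3) := lt_min hd1 (lt_min hd2 hd3)
  refine Metric.eventually_nhds_iff.2 ⟨min d1 (min d2 d3), hd, fun p hp => ?_⟩
  obtain ⟨⟨m, m'⟩, w⟩ := p
  rw [dist_zero_right] at hp
  simp only [Prod.norm_mk, max_lt_iff] at hp
  obtain ⟨⟨hm, hm'⟩, hw⟩ := hp
  have e1 : min d1 (min d2 d3) ≤ d1 := min_le_left _ _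
  have e2 : min d1 (min d2 d3) ≤ d2 := (min_le_right _ _).trans (min_le_left _ _)
  have e3 : min d1 (min d2 d3) ≤ d3 := (min_le_right _ _).trans (min_le_right _ _)
  simp only
  have hz : RR F ι π b q (m, 0) = 0 := h3 (by rw [dist_zero_right]; exact hm.trans_le e3)
  have hz' : RR F ι π b q (m', 0) = 0 := h3 (by rw [dist_zero_right]; exact hm'.trans_le e3)
  have hder : ∀ t ∈ Metric.ball (0 : ℂ) (min d1 (min d2 d3)),
      HasFDerivWithinAt (fun t : ℂ => RR F ι π b q (m, t) - RR F ι π b q (m', t)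
        - mulc (b * (m - m')) t)
        (QQ F ι π b q (m, t) - QQ F ι π b q (m', t) - mulc (b * (m - m')))
        (Metric.ball (0 : ℂ) (min d1 (min d2 d3))) t := by
    intro t ht
    rw [mem_ball_zero_iff] at ht
    have a1 := h2 (y := (m, t)) (by
      rw [dist_zero_right, Prod.norm_mk, max_lt_iff]
      exact ⟨hm.trans_le e2, ht.trans_le e2⟩)
    have a2 := h2 (y := (m', t)) (by
      rw [dist_zero_right, Prod.norm_mk, max_lt_iff]
      exact ⟨hm'.trans_le e2, ht.trans_le e2⟩)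
    exact ((a1.sub a2).sub (mulc (b * (m - m'))).hasFDerivAt).hasFDerivWithinAt
  have hbd : ∀ t ∈ Metric.ball (0 : ℂ) (min d1 (min d2 d3)),
      ‖QQ F ι π b q (m, t) - QQ F ι π b q (m', t) - mulc (b * (m - m'))‖ ≤ η * ‖m - m'‖ := by
    intro t ht
    rw [mem_ball_zero_iff] at ht
    exact h1 (y := ((m, m'), t)) (by
      rw [dist_zero_right, Prod.norm_mk, Prod.norm_mk, max_lt_iff, max_lt_iff]
      exact ⟨⟨hm.trans_le e1, hm'.trans_le e1⟩, ht.trans_le e1⟩)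
  have key := (convex_ball (0 : ℂ) (min d1 (min d2 d3))).norm_image_sub_le_of_norm_hasFDerivWithin_le
    hder hbd (Metric.mem_ball_self hd) (mem_ball_zero_iff.2 hw)
  simp only [hz, hz', map_zero, sub_zero, mulc_apply] at key
  exact key

end JT

end FB
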