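import Pool.Agent.H.MP_fb873c_an.K4a

/-!
# Part K10: the derivatives along the closed orbits, and their limits (CO_limit)
-/


namespace FB

namespace KT

open scoped Topology ContDiff Manifold
open Filter Metric

universe u

section

variable {n : ℕ} {M : Type u} [TopologicalSpace M] [ChartedSpace (Er n) M]
  [IsManifold (𝓡 n) ∞ M]
variable {f : Dif n M} {k : ℕ} {p : M} {q : ℤ → M} {ψ : ℤ → OpenPartialHomeomorph M (Er n)} {J : ℕ}
  {g : Dif n M}

/-- For every `j` the sequence `X m j` is a Cauchy sequence (`cauchySeq_of_le_geometric`-like, or `Metric.cauchySeq_iff`), the limit lies in the closed ball; the derivative of `Fh g k ψ j` is continuous at the points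
of this ball (`Cls`, `Fh_contDiffAt`) and injective there (`Fh_injective`). -/
theorem CO_limit (h : HO f k p q ψ J) {η r : ℝ} (hcls : Cls f k q ψ η r g) {κ : ℝ} (hκ : 0 < κ)
    (C : ℝ) (X : ℕ → ℤ → Er n) (hX : ∀ᶠ m in atTop, CO g k q ψ r m (X m))
    (hC : ∀ m m' : ℕ, m ≤ m' → CO g k q ψ r m (X m) → CO g k q ψ r m' (X m') →
      ∀ j : ℤ, |j| ≤ m → ‖X m j - X m' j‖ ≤ C * Real.exp (-(κ * ((m : ℝ) - ((|j| : ℤ) : ℝ))))) :
    ∃ Y : ℤ → Er n, (∀ j, Y j ∈ closedBall (ψ j (q j)) r) ∧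
      (∀ j, Tendsto (fun m => X m j) atTop (𝓝 (Y j))) ∧
      (∀ j, Tendsto (fun m => fderiv ℝ (Fh g k ψ j) (X m j)) atTop
        (𝓝 (fderiv ℝ (Fh g k ψ j) (Y j)))) ∧
      ∀ j, Function.Injective (fderiv ℝ (Fh g k ψ j) (Y j)) := by
  obtain ⟨m1, hm1⟩ := eventually_atTop.1 hX
  have hlim : ∀ j : ℤ, ∃ y : Er n, Tendsto (fun m => X m j) atTop (𝓝 y) := by
    intro j
    set m0 : ℕ := max m1 (|j|).toNat with hm0
    have hj : |j| ≤ (m0 : ℤ) := by
      have h1 : ((|j|).toNat : ℤ) ≤ (m0 : ℤ) := by exact_mod_cast le_max_right _ _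
      have h2 : |j| ≤ ((|j|).toNat : ℤ) := Int.self_le_toNat _
      exact h2.trans h1
    have hcau : CauchySeq (fun m => X (m + m0) j) := by
      refine cauchySeq_of_le_tendsto_0'
        (fun m : ℕ => C * Real.exp (-(κ * (((m + m0 : ℕ) : ℝ) - ((|j| : ℤ) : ℝ)))))
        (fun m m' hmm => ?_) ?_
      · rw [dist_eq_norm]
        refine hC (m + m0) (m' + m0) (by omega) (hm1 _ ?_) (hm1 _ ?_) j ?_
        · exact (le_max_left m1 (|j|).toNat).trans (Nat.le_add_left _ _)
        · exact (le_max_left m1 (|j|).toNat).trans (Nat.le_add_left _ _)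
        · refine hj.trans ?_
          push_cast
          omega
      · rw [show (0 : ℝ) = C * 0 by ring]
        refine Tendsto.const_mul C (Real.tendsto_exp_neg_atTop_nhds_zero.comp ?_)
        refine Tendsto.const_mul_atTop hκ ?_
        have h1 : Tendsto (fun m : ℕ => ((m : ℕ) : ℝ) + ((m0 : ℝ) - ((|j| : ℤ) : ℝ))) atTop atTop :=
          tendsto_atTop_add_const_right _ _ tendsto_natCast_atTop_atTop
        refine h1.congr fun m => ?_
        push_cast
        ring
    obtain ⟨y, hy⟩ := cauchySeq_tendsto_of_complete hcau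
    exact ⟨y, (tendsto_add_atTop_iff_nat m0).1 hy⟩
  choose Y hY using hlim
  have hmem : ∀ j, Y j ∈ closedBall (ψ j (q j)) r := by
    intro j
    refine isClosed_closedBall.mem_of_tendsto (hY j) ?_
    filter_upwards [hX, eventually_ge_atTop (|j|).toNat] with m h1 h2
    refine h1.1 j ?_
    have h3 : |j| ≤ ((|j|).toNat : ℤ) := Int.self_le_toNat _
    have h4 : ((|j|).toNat : ℤ) ≤ (m : ℤ) := by exact_mod_cast h2
    exact h3.trans h4
  refine ⟨Y, hmem, hY, fun j => ?_, fun j => ?_⟩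
  · obtain ⟨h1, h2, -⟩ := hcls j (Y j) (hmem j)
    have h3 : ContDiffAt ℝ ∞ (Fh g k ψ j) (Y j) := Fh_contDiffAt g k h.atl h1 h2
    have h4 : ContDiffAt ℝ 0 (fderiv ℝ (Fh g k ψ j)) (Y j) :=
      h3.fderiv_right (m := 0) (by simp)
    exact h4.continuousAt.tendsto.comp (hY j)
  · obtain ⟨h1, h2, -⟩ := hcls j (Y j) (hmem j)
    exact Fh_injective g k h.atl h1 h2

end

end KT

end FB
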