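import Pool.Agent.H.MP_fb873c_an.K4a

/-!
# Part K10: the derivatives along the closed orbits, and their limits (deriv_decay)
-/


namespace FB

namespace KT

open scoped Topology ContDiff Manifold
open Filter Metric

universe u

section

variable {n : ℕ} {M : Type u} [TopologicalSpace M] [ChartedSpace (Er n) M]
  [IsManifold (𝓡 n) ∞ M]
variable {f : Dif n M} {k : ℕ} {p : M} {q : ℤ → M} {ψ : ℤ → OpenPartialHomeomorph M (Er n)} {J : ℕ}
  {g : Dif n M}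

/-- Let `φ` be the chart at `p`, `G = φ ∘ g^k ∘ φ.symm`; its derivative is differentiable at `φ p` (`Fh_contDiffAt` for `|j| ≥ J + 1`, `ContDiffAt.fderiv_right`), so there are `ρ > 0` and `Λ'` with
`‖fderiv G z - fderiv G (φ p)‖ ≤ Λ' ‖z - φ p‖` for `‖z - φ p‖ ≤ ρ` (`DifferentiableAt.isBigO_sub`), and `fderiv G (φ p) = dfix (g^k) p`.  Let `J2 ≥ J1`, `J2 ≥ J + 1`, `|C| exp (-κ J2) ≤ ρ`.  For
`|j| ≥ J2` (then `Fh g k ψ j = G`): the norm is `≤ Λ' |C| exp (-κ |j|)`.  For `|j| < J2` it is `≤ ‖Lh j‖ + η + ‖dfix (g^k) p‖ ≤ K0` (`Cls`; the `‖Lh j‖` are bounded by `Lh_tendsto`, or as there are finitely many `j`) and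
`exp (-κ |j|) ≥ exp (-κ J2)`. -/
theorem deriv_decay (h : HO f k p q ψ J) (hg : (g : M → M)^[k] p = p) {η r : ℝ}
    (hcls : Cls f k q ψ η r g) {κ : ℝ} (hκ : 0 < κ) (C : ℝ) (J1 : ℕ) :
    ∃ K : ℝ, 0 ≤ K ∧ ∀ (m : ℕ) (x : ℤ → Er n), CO g k q ψ r m x →
      (∀ j : ℤ, (J1 : ℤ) ≤ |j| → |j| ≤ m →
        ‖x j - chartAt (Er n) p p‖ ≤ C * Real.exp (-(κ * ((|j| : ℤ) : ℝ)))) →
      ∀ j : ℤ, |j| ≤ m → ‖fderiv ℝ (Fh g k ψ j) (x j) - dfix (n := n) ((g : M → M)^[k]) p‖ ≤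
        K * Real.exp (-(κ * ((|j| : ℤ) : ℝ))) := by
  have hFh : ∀ j : ℤ, (J : ℤ) + 1 ≤ |j| → Fh g k ψ j =
      chartAt (Er n) p ∘ (g : M → M)^[k] ∘ (chartAt (Er n) p).symm := by
    intro j hj
    have e1 : ψ j = chartAt (Er n) p := h.eqp j (by omega)
    have e2 : ψ (j + 1) = chartAt (Er n) p := by
      apply h.eqp
      have h1 : |j| ≤ |j + 1| + 1 := by
        have h2 := abs_sub (j + 1) 1
        simpa using h2
      omega
    funext z
    unfold Fh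
    rw [e1, e2]
    rfl
  have hj0 : (J : ℤ) + 1 ≤ |((J : ℤ) + 1)| := le_abs_self _
  have hj1 : (J : ℤ) ≤ |((J : ℤ) + 1)| := by omega
  have hj2 : (J : ℤ) ≤ |((J : ℤ) + 1 + 1)| := by
    have := le_abs_self ((J : ℤ) + 1 + 1)
    omega
  have hsm : ContDiffAt ℝ ∞ (Fh g k ψ ((J : ℤ) + 1)) (chartAt (Er n) p p) := by
    apply Fh_contDiffAt g k h.atl
    · rw [h.eqp _ hj1]
      exact mem_chart_target _ _
    · rw [h.eqp _ hj1, h.eqp _ hj2, (chartAt (Er n) p).left_inv (mem_chart_source _ _), hg]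
      exact mem_chart_source _ _
  rw [hFh _ hj0] at hsm
  set G : Er n → Er n := chartAt (Er n) p ∘ (g : M → M)^[k] ∘ (chartAt (Er n) p).symm with hG
  have hd : DifferentiableAt ℝ (fderiv ℝ G) (chartAt (Er n) p p) :=
    (hsm.fderiv_right (m := ∞) (by simp)).differentiableAt (by simp)
  obtain ⟨Λ', hΛ', hO⟩ := hd.isBigO_sub.exists_pos
  obtain ⟨ρ, hρ, hρ'⟩ := Metric.eventually_nhds_iff_ball.1 hO.bound
  obtain ⟨J2, h1J, h2J, h3J⟩ : ∃ J2 : ℕ, J1 ≤ J2 ∧ J + 1 ≤ J2 ∧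
      |C| * Real.exp (-(κ * (J2 : ℝ))) < ρ := by
    have h1 : Tendsto (fun i : ℕ => |C| * Real.exp (-(κ * (i : ℝ)))) atTop (𝓝 0) := by
      have h2 := (Real.tendsto_exp_neg_atTop_nhds_zero.comp
        (tendsto_natCast_atTop_atTop.const_mul_atTop hκ)).const_mul |C|
      rw [mul_zero] at h2
      exact h2
    obtain ⟨i, hi⟩ := ((h1.eventually (gt_mem_nhds hρ)).and
      ((eventually_ge_atTop J1).and (eventually_ge_atTop (J + 1)))).exists
    exact ⟨i, hi.2.1, hi.2.2, hi.1⟩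
  obtain ⟨S, hS⟩ : ∃ S : ℝ, S = ∑ i ∈ Finset.Icc (-(J2 : ℤ)) J2, ‖Lh f k q ψ i‖ := ⟨_, rfl⟩
  have hS0 : 0 ≤ S := by rw [hS]; exact Finset.sum_nonneg fun i _ => norm_nonneg _
  obtain ⟨D, hD⟩ : ∃ D, D = dfix (n := n) ((g : M → M)^[k]) p := ⟨_, rfl⟩
  have hD' : fderiv ℝ G (chartAt (Er n) p p) = D := by rw [hD]; rfl
  refine ⟨Λ' * |C| + (|η| + S + ‖D‖) * Real.exp (κ * J2), by positivity, ?_⟩
  intro m x hCO hx j hj
  rw [← hD]
  have hexp : 0 < Real.exp (-(κ * ((|j| : ℤ) : ℝ))) := Real.exp_pos _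
  rcases le_or_gt ((J2 : ℤ)) |j| with hc | hc
  · have h1 := hx j (by omega) hj
    have h2 : ‖x j - chartAt (Er n) p p‖ ≤ |C| * Real.exp (-(κ * ((|j| : ℤ) : ℝ))) :=
      h1.trans (mul_le_mul_of_nonneg_right (le_abs_self C) hexp.le)
    have h3 : |C| * Real.exp (-(κ * ((|j| : ℤ) : ℝ))) ≤ |C| * Real.exp (-(κ * (J2 : ℝ))) := by
      apply mul_le_mul_of_nonneg_left _ (abs_nonneg C)
      apply Real.exp_le_exp.2
      have h4 : (J2 : ℝ) ≤ ((|j| : ℤ) : ℝ) := by exact_mod_cast hc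
      have h5 := mul_le_mul_of_nonneg_left h4 hκ.le
      linarith
    have h4 : x j ∈ Metric.ball (chartAt (Er n) p p) ρ := by
      rw [Metric.mem_ball, dist_eq_norm]
      exact (h2.trans h3).trans_lt h3J
    have h5 := hρ' (x j) h4
    rw [hD'] at h5
    rw [hFh j (by omega)]
    refine h5.trans ?_
    have h6 := mul_le_mul_of_nonneg_left h2 hΛ'.le
    refine h6.trans ?_
    rw [add_mul, ← mul_assoc]
    have h7 : 0 ≤ (|η| + S + ‖D‖) * Real.exp (κ * J2) * Real.exp (-(κ * ((|j| : ℤ) : ℝ))) := by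
      positivity
    linarith
  · have h1 := (hcls j (x j) (hCO.1 j hj)).2.2
    have h2 : ‖Lh f k q ψ j‖ ≤ S := by
      rw [hS]
      apply Finset.single_le_sum (f := fun i => ‖Lh f k q ψ i‖) (fun i _ => norm_nonneg _)
      rw [Finset.mem_Icc]
      exact abs_le.1 hc.le
    have h3 : ‖fderiv ℝ (Fh g k ψ j) (x j) - D‖ ≤ |η| + S + ‖D‖ := by
      have e : fderiv ℝ (Fh g k ψ j) (x j) - D =
          (fderiv ℝ (Fh g k ψ j) (x j) - Lh f k q ψ j) + Lh f k q ψ j - D := by abel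
      rw [e]
      refine (norm_sub_le _ _).trans (add_le_add ((norm_add_le _ _).trans
        (add_le_add (h1.trans (le_abs_self η)) h2)) le_rfl)
    have h4 : 1 ≤ Real.exp (κ * J2) * Real.exp (-(κ * ((|j| : ℤ) : ℝ))) := by
      rw [← Real.exp_add]
      apply Real.one_le_exp
      have h4 : ((|j| : ℤ) : ℝ) ≤ (J2 : ℝ) := by exact_mod_cast hc.le
      have h5 := mul_le_mul_of_nonneg_left h4 hκ.le
      linarith
    have h5 : 0 ≤ |η| + S + ‖D‖ := by positivity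
    have h6 := mul_le_mul_of_nonneg_left h4 h5
    have h7 : 0 ≤ Λ' * |C| * Real.exp (-(κ * ((|j| : ℤ) : ℝ))) := by positivity
    rw [add_mul]
    nlinarith [h3, h6, h7]

end

end KT

end FB
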