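import Pool.Agent.H.MP_fb873c_an.K12a1

/-!
# Part K12a: bounds for products of linear maps which converge geometrically to `A` (fw_bound, bw_bound)
-/


namespace FB

namespace KT

open scoped Topology
open Filter

theorem K12a2_geom {K θ : ℝ} (hK : 0 ≤ K) (hθ : 0 ≤ θ) (hθ1 : θ < 1) (n : ℕ) :
    ∑ i ∈ Finset.range n, K * θ ^ i ≤ K * (1 - θ)⁻¹ := by
  rw [← Finset.mul_sum, ← tsum_geometric_of_lt_one hθ hθ1]
  exact mul_le_mul_of_nonneg_left ((summable_geometric_of_lt_one hθ hθ1).sum_le_tsum _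
    fun i _ => pow_nonneg hθ i) hK

section

variable {E : Type*} [NormedAddCommGroup E] [NormedSpace ℝ E]

theorem K12a2_aux {A : E →L[ℝ] E} {C0 K θ : ℝ} (hA : ∀ j : ℕ, ‖A ^ j‖ ≤ C0) (hK : 0 ≤ K)
    (hθ : 0 ≤ θ) (hθ1 : θ < 1) (D W : ℕ → E →L[ℝ] E) (N : ℕ)
    (hD : ∀ i < N, ‖D i - A‖ ≤ K * θ ^ i)
    (hW : ∀ n ≤ N, ‖W n‖ ≤ ‖A ^ n‖ +
      ∑ i ∈ Finset.range n, ‖A ^ (n - 1 - i)‖ * (‖D i - A‖ * ‖W i‖)) :
    ∀ i ≤ N, ‖W i‖ ≤ C0 * Real.exp (C0 * (K * (1 - θ)⁻¹)) := by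
  have hC0 : 0 ≤ C0 := (norm_nonneg _).trans (hA 0)
  have h1 := gronwall hC0 (fun i => K * θ ^ i) (fun i => ‖W i‖) (fun i => by positivity) N
    (fun n hn => by
      refine (hW n hn).trans ?_
      rw [mul_add, mul_one, Finset.mul_sum]
      refine add_le_add (hA n) (Finset.sum_le_sum fun i hi => ?_)
      rw [Finset.mem_range] at hi
      exact mul_le_mul (hA _) (mul_le_mul_of_nonneg_right (hD i (by omega)) (norm_nonneg _))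
        (by positivity) hC0)
  intro i hi
  refine (h1 i hi).trans (mul_le_mul_of_nonneg_left ?_ hC0)
  exact Real.exp_le_exp.2 (mul_le_mul_of_nonneg_left (K12a2_geom hK hθ hθ1 i) hC0)

/-- `gronwall` with `e i = K θ^i`, `∑ e i ≤ K / (1 - θ)` and `fw_duhamel`. -/
theorem fw_bound {A : E →L[ℝ] E} {C0 K θ : ℝ} (hA : ∀ j : ℕ, ‖A ^ j‖ ≤ C0) (hK : 0 ≤ K)
    (hθ : 0 ≤ θ) (hθ1 : θ < 1) : ∃ C1 : ℝ, 0 ≤ C1 ∧ ∀ (D : ℕ → E →L[ℝ] E) (N : ℕ),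
      (∀ i < N, ‖D i - A‖ ≤ K * θ ^ i) → ∀ i ≤ N, ‖fw D i‖ ≤ C1 := by
  have hC0 : 0 ≤ C0 := (norm_nonneg _).trans (hA 0)
  refine ⟨C0 * Real.exp (C0 * (K * (1 - θ)⁻¹)), by positivity, fun D N hD => ?_⟩
  refine K12a2_aux hA hK hθ hθ1 D (fw D) N hD fun n _ => ?_
  rw [fw_duhamel A D n]
  refine (norm_add_le _ _).trans (add_le_add le_rfl ((norm_sum_le _ _).trans
    (Finset.sum_le_sum fun i _ => ?_)))
  exact ((A ^ (n - 1 - i)).opNorm_comp_le _).trans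
    (mul_le_mul_of_nonneg_left ((D i - A).opNorm_comp_le _) (norm_nonneg _))

theorem bw_bound {A : E →L[ℝ] E} {C0 K θ : ℝ} (hA : ∀ j : ℕ, ‖A ^ j‖ ≤ C0) (hK : 0 ≤ K)
    (hθ : 0 ≤ θ) (hθ1 : θ < 1) : ∃ C1 : ℝ, 0 ≤ C1 ∧ ∀ (D : ℕ → E →L[ℝ] E) (N : ℕ),
      (∀ i < N, ‖D i - A‖ ≤ K * θ ^ i) → ∀ i ≤ N, ‖bw D i‖ ≤ C1 := by
  have hC0 : 0 ≤ C0 := (norm_nonneg _).trans (hA 0)
  refine ⟨C0 * Real.exp (C0 * (K * (1 - θ)⁻¹)), by positivity, fun D N hD => ?_⟩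
  refine K12a2_aux hA hK hθ hθ1 D (bw D) N hD fun n _ => ?_
  rw [bw_duhamel A D n]
  refine (norm_add_le _ _).trans (add_le_add le_rfl ((norm_sum_le _ _).trans
    (Finset.sum_le_sum fun i _ => ?_)))
  refine ((bw D i).opNorm_comp_le _).trans ((mul_le_mul_of_nonneg_left
    ((D i - A).opNorm_comp_le _) (norm_nonneg _)).trans (le_of_eq ?_))
  ring

end

end KT

end FB
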