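import Pool.Agent.H.MP_fb873c_an.K12a1
import Pool.Agent.H.MP_fb873c_an.K12a2

/-! # Part K12a: bounds for products of linear maps which converge geometrically to `A`: collects the files above -/
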