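import Pool.Agent.H.MP_fb873c_an.K00

/-!
# Part K12a: bounds for products of linear maps which converge geometrically to `A` (gronwall, fw_duhamel, bw_duhamel, fw_add, bw_add, TP.pow_bound)
-/


namespace FB

namespace KT

open scoped Topology
open Filter

theorem K12a1_tel (C : ℝ) (e : ℕ → ℝ) (N : ℕ) :
    1 + ∑ i ∈ Finset.range N, e i * (C * ∏ l ∈ Finset.range i, (1 + C * e l)) =
      ∏ i ∈ Finset.range N, (1 + C * e i) := by
  induction N with
  | zero => simp
  | succ N ih =>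
    rw [Finset.sum_range_succ, Finset.prod_range_succ, ← add_assoc, ih]
    ring

section

variable {E : Type*} [NormedAddCommGroup E] [NormedSpace ℝ E]

/-- `e i ≥ 0`, `u N ≤ C (1 + ∑_{i<N} e i u i)` for all `N ≤ N0` implies `u N ≤ C exp (C ∑_{i<N} e i)` for `N ≤ N0`: discrete Gronwall inequality.  (By strong induction
`u N ≤ C ∏_{i<N} (1 + C e i)`, using `1 + ∑_{i<N} e i C ∏_{l<i} (1 + C e l) = ∏_{i<N} (1 + C e i)`, and `1 + x ≤ exp x`.) -/
theorem gronwall {C : ℝ} (hC : 0 ≤ C) (e u : ℕ → ℝ) (he : ∀ i, 0 ≤ e i) (N0 : ℕ)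
    (h : ∀ N ≤ N0, u N ≤ C * (1 + ∑ i ∈ Finset.range N, e i * u i)) :
    ∀ N ≤ N0, u N ≤ C * Real.exp (C * ∑ i ∈ Finset.range N, e i) := by
  have key : ∀ N ≤ N0, u N ≤ C * ∏ i ∈ Finset.range N, (1 + C * e i) := by
    intro N
    induction N using Nat.strong_induction_on with
    | _ N ih =>
      intro hN
      refine (h N hN).trans (mul_le_mul_of_nonneg_left ?_ hC)
      rw [← K12a1_tel]
      gcongr with i hi
      · exact he i
      · rw [Finset.mem_range] at hi
        exact ih i hi (by omega)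
  intro N hN
  refine (key N hN).trans (mul_le_mul_of_nonneg_left ?_ hC)
  rw [Finset.mul_sum, Real.exp_sum]
  refine Finset.prod_le_prod (fun i _ => ?_) fun i _ => ?_
  · have := mul_nonneg hC (he i)
    linarith
  · rw [add_comm]
    exact Real.add_one_le_exp _

/-- `fw D (N+1) = A fw D N + (D N - A) fw D N`, so `fw D N = A^N + ∑_{i<N} A^(N-1-i) (D i - A) fw D i` (induction on `N`). -/
theorem fw_duhamel (A : E →L[ℝ] E) (D : ℕ → E →L[ℝ] E) (N : ℕ) :
    fw D N = A ^ N + ∑ i ∈ Finset.range N, (A ^ (N - 1 - i)) ∘L (D i - A) ∘L fw D i := by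
  induction N with
  | zero => simp [fw, ContinuousLinearMap.one_def]
  | succ N ih =>
    have h1 : fw D (N + 1) = A * fw D N + (D N - A) * fw D N := by
      rw [← add_mul, add_sub_cancel]
      rfl
    have h2 : A * fw D N = A ^ (N + 1) +
        ∑ i ∈ Finset.range N, (A ^ (N + 1 - 1 - i)) ∘L (D i - A) ∘L fw D i := by
      rw [ih, mul_add, ← pow_succ', Finset.mul_sum]
      congr 1
      refine Finset.sum_congr rfl fun i hi => ?_
      rw [Finset.mem_range] at hi
      have h3 : N + 1 - 1 - i = (N - 1 - i) + 1 := by omega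
      rw [h3, pow_succ']
      rfl
    rw [h1, h2, Finset.sum_range_succ, add_assoc]
    congr 2
    simp [ContinuousLinearMap.mul_def, ContinuousLinearMap.one_def]

/-- `bw D N = A^N + ∑_{i<N} bw D i (D i - A) A^(N-1-i)` (induction on `N`). -/
theorem bw_duhamel (A : E →L[ℝ] E) (D : ℕ → E →L[ℝ] E) (N : ℕ) :
    bw D N = A ^ N + ∑ i ∈ Finset.range N, bw D i ∘L (D i - A) ∘L (A ^ (N - 1 - i)) := by
  induction N with
  | zero => simp [bw, ContinuousLinearMap.one_def]
  | succ N ih =>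
    have h1 : bw D (N + 1) = bw D N * A + bw D N * (D N - A) := by
      rw [← mul_add, add_sub_cancel]
      rfl
    have h2 : bw D N * A = A ^ (N + 1) +
        ∑ i ∈ Finset.range N, bw D i ∘L (D i - A) ∘L (A ^ (N + 1 - 1 - i)) := by
      rw [ih, add_mul, ← pow_succ, Finset.sum_mul]
      congr 1
      refine Finset.sum_congr rfl fun i hi => ?_
      rw [Finset.mem_range] at hi
      have h3 : N + 1 - 1 - i = (N - 1 - i) + 1 := by omega
      rw [h3, pow_succ]
      rfl
    rw [h1, h2, Finset.sum_range_succ, add_assoc]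
    congr 2
    simp [ContinuousLinearMap.mul_def, ContinuousLinearMap.one_def]

theorem K12a1_pow {A : E →L[ℝ] E} {lam : ℂ} {ι : ℂ →L[ℝ] E} (h : ∀ w, A (ι w) = ι (lam * w))
    (j : ℕ) (w : ℂ) : (A ^ j) (ι w) = ι (lam ^ j * w) := by
  induction j generalizing w with
  | zero => simp
  | succ j ih =>
    rw [pow_succ, ContinuousLinearMap.mul_apply, h, ih, pow_succ, mul_assoc]

/-- Powers of `A` are bounded: `A^j v = A^j (v - ι π v) + ι (lam^j π v)`. -/
theorem TP.pow_bound {A : E →L[ℝ] E} {lam : ℂ} {ι : ℂ →L[ℝ] E} {π : E →L[ℝ] ℂ} {C τ : ℝ}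
    (h : TP A 1 lam ι π C τ) : ∀ j : ℕ, ‖A ^ j‖ ≤ C + ‖ι‖ * ‖π‖ := by
  intro j
  have hC := h.C0
  refine ContinuousLinearMap.opNorm_le_bound _ (by positivity) fun v => ?_
  have h1 : (A ^ j) v = (A ^ j) (v - ι (π v)) + ι (lam ^ j * π v) := by
    rw [← K12a1_pow h.Ai j (π v), ← map_add, sub_add_cancel]
  have h2 : ‖(A ^ j) (v - ι (π v))‖ ≤ C * ‖v‖ := by
    refine (h.bd j v).trans ?_
    have h3 : (τ * 1) ^ j ≤ 1 := by
      rw [mul_one]
      exact pow_le_one₀ h.tau0.le h.tau1.le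
    calc C * (τ * 1) ^ j * ‖v‖ ≤ C * 1 * ‖v‖ := by gcongr
      _ = C * ‖v‖ := by rw [mul_one]
  have h4 : ‖ι (lam ^ j * π v)‖ ≤ ‖ι‖ * ‖π‖ * ‖v‖ := by
    refine (ι.le_opNorm _).trans ?_
    rw [norm_mul, norm_pow, h.nrm, one_pow, one_mul, mul_assoc]
    gcongr
    exact π.le_opNorm v
  rw [h1, add_mul]
  exact (norm_add_le _ _).trans (add_le_add h2 h4)

/-- Splitting of a long product: `fw D (i + N) = fw (D (i + ·)) N ∘ fw D i`. -/
theorem fw_add (D : ℕ → E →L[ℝ] E) (i N : ℕ) :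
    fw D (i + N) = fw (fun l => D (i + l)) N ∘L fw D i := by
  induction N with
  | zero => simp [fw]
  | succ N ih =>
    show D (i + N) ∘L fw D (i + N) = (D (i + N) ∘L fw (fun l => D (i + l)) N) ∘L fw D i
    rw [ih, ContinuousLinearMap.comp_assoc]

theorem bw_add (D : ℕ → E →L[ℝ] E) (i N : ℕ) :
    bw D (i + N) = bw D i ∘L bw (fun l => D (i + l)) N := by
  induction N with
  | zero => simp [bw]
  | succ N ih =>
    show bw D (i + N) ∘L D (i + N) = bw D i ∘L (bw (fun l => D (i + l)) N ∘L D (i + N))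
    rw [ih, ContinuousLinearMap.comp_assoc]

end

end KT

end FB
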