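import Pool.Agent.H.MP_fb873c_an.K12a2

/-!
# Part K12b: asymptotics of long products (forward) (fw_limit_compl)
-/


namespace FB

namespace KT

open scoped Topology
open Filter

section

variable {E : Type*} [NormedAddCommGroup E] [NormedSpace ℝ E] [FiniteDimensional ℝ E]

theorem K12b2_pow_iota {A : E →L[ℝ] E} {u : ℂ} {ι : ℂ →L[ℝ] E} {π : E →L[ℝ] ℂ} {C τ : ℝ}
    (h : TP A 1 u ι π C τ) (j : ℕ) (w : ℂ) : (A ^ j) (ι w) = ι (u ^ j * w) := by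
  induction j generalizing w with
  | zero => simp
  | succ j ih =>
    rw [pow_succ, ContinuousLinearMap.mul_apply, h.Ai, ih, pow_succ, mul_assoc]

theorem K12b2_pi_pow {A : E →L[ℝ] E} {u : ℂ} {ι : ℂ →L[ℝ] E} {π : E →L[ℝ] ℂ} {C τ : ℝ}
    (h : TP A 1 u ι π C τ) (j : ℕ) (v : E) : π ((A ^ j) v) = u ^ j * π v := by
  induction j generalizing v with
  | zero => simp
  | succ j ih =>
    rw [pow_succ, ContinuousLinearMap.mul_apply, ih, h.pA, pow_succ, mul_assoc]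

theorem K12b2_norm {A : E →L[ℝ] E} {u : ℂ} {ι : ℂ →L[ℝ] E} {π : E →L[ℝ] ℂ} {C τ : ℝ}
    (h : TP A 1 u ι π C τ) (j : ℕ) (v : E) :
    ‖(A ^ j) v - ι (π ((A ^ j) v))‖ ≤ C * τ ^ j * ‖v‖ := by
  have h1 : (A ^ j) v - ι (π ((A ^ j) v)) = (A ^ j) (v - ι (π v)) := by
    rw [K12b2_pi_pow h, map_sub, K12b2_pow_iota h]
  rw [h1]
  have h2 := h.bd j v
  rwa [mul_one] at h2

theorem K12b2_tendsto (a b τ ρ : ℝ) (hτ : 0 ≤ τ) (hτ1 : τ < 1) (hρ : 0 < ρ) (hρ1 : ρ < 1) :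
    Tendsto (fun n : ℕ => a * τ ^ n + n * (b * ρ ^ (n - 1))) atTop (𝓝 0) := by
  have h1 : Tendsto (fun n : ℕ => a * τ ^ n + b / ρ * (n * ρ ^ n)) atTop (𝓝 (a * 0 + b / ρ * 0)) :=
    ((tendsto_pow_atTop_nhds_zero_of_lt_one hτ hτ1).const_mul a).add
      ((tendsto_self_mul_const_pow_of_lt_one hρ.le hρ1).const_mul (b / ρ))
  rw [mul_zero, mul_zero, add_zero] at h1
  refine h1.congr (fun n => ?_)
  rcases n with _ | n
  · simp
  · simp only [Nat.add_sub_cancel, pow_succ]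
    field_simp

theorem K12b2_bound {A : E →L[ℝ] E} {u : ℂ} {ι : ℂ →L[ℝ] E} {π : E →L[ℝ] ℂ} {C τ : ℝ}
    (h : TP A 1 u ι π C τ) {K θ C1 ρ : ℝ} (hK : 0 ≤ K) (hθ : 0 ≤ θ)
    (hC1 : 0 ≤ C1) (hτρ : τ ≤ ρ) (hθρ : θ ≤ ρ)
    (D : ℕ → E →L[ℝ] E) (N : ℕ) (hD : ∀ i < N, ‖D i - A‖ ≤ K * θ ^ i)
    (hfw : ∀ i ≤ N, ‖fw D i‖ ≤ C1) :
    ‖fw D N - ι ∘L π ∘L fw D N‖ ≤ C * τ ^ N + N * (C * K * C1 * ρ ^ (N - 1)) := by
  have hC := h.C0
  have hτ := h.tau0.le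
  have hρ : 0 ≤ ρ := hτ.trans hτρ
  refine ContinuousLinearMap.opNorm_le_bound _ (by positivity) (fun v => ?_)
  have e1 : fw D N v = (A ^ N) v +
      ∑ i ∈ Finset.range N, (A ^ (N - 1 - i)) ((D i - A) (fw D i v)) := by
    conv_lhs => rw [fw_duhamel A D N]
    simp [ContinuousLinearMap.sum_apply]
  have e2 : (fw D N - ι ∘L π ∘L fw D N) v = ((A ^ N) v - ι (π ((A ^ N) v))) +
      ∑ i ∈ Finset.range N, ((A ^ (N - 1 - i)) ((D i - A) (fw D i v)) -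
        ι (π ((A ^ (N - 1 - i)) ((D i - A) (fw D i v))))) := by
    have : (fw D N - ι ∘L π ∘L fw D N) v = fw D N v - ι (π (fw D N v)) := rfl
    rw [this, e1, map_add, map_add, map_sum, map_sum, Finset.sum_sub_distrib]
    abel
  rw [e2]
  refine (norm_add_le _ _).trans ?_
  have e3 : ‖∑ i ∈ Finset.range N, ((A ^ (N - 1 - i)) ((D i - A) (fw D i v)) -
        ι (π ((A ^ (N - 1 - i)) ((D i - A) (fw D i v)))))‖ ≤
      ∑ i ∈ Finset.range N, C * K * C1 * ρ ^ (N - 1) * ‖v‖ := by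
    refine (norm_sum_le _ _).trans (Finset.sum_le_sum (fun i hi => ?_))
    have hiN : i < N := Finset.mem_range.1 hi
    refine (K12b2_norm h _ _).trans ?_
    have f1 : ‖(D i - A) (fw D i v)‖ ≤ K * θ ^ i * (C1 * ‖v‖) := by
      refine ((D i - A).le_opNorm _).trans ?_
      refine mul_le_mul (hD i hiN) ?_ (norm_nonneg _) (by positivity)
      refine ((fw D i).le_opNorm _).trans ?_
      exact mul_le_mul_of_nonneg_right (hfw i hiN.le) (norm_nonneg _)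
    have f2 : τ ^ (N - 1 - i) * θ ^ i ≤ ρ ^ (N - 1) := by
      calc τ ^ (N - 1 - i) * θ ^ i ≤ ρ ^ (N - 1 - i) * ρ ^ i :=
            mul_le_mul (pow_le_pow_left₀ hτ hτρ _) (pow_le_pow_left₀ hθ hθρ _) (by positivity)
              (by positivity)
        _ = ρ ^ (N - 1) := by
            rw [← pow_add]
            congr 1
            omega
    calc C * τ ^ (N - 1 - i) * ‖(D i - A) (fw D i v)‖
        ≤ C * τ ^ (N - 1 - i) * (K * θ ^ i * (C1 * ‖v‖)) :=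
          mul_le_mul_of_nonneg_left f1 (by positivity)
      _ = C * K * C1 * ‖v‖ * (τ ^ (N - 1 - i) * θ ^ i) := by ring
      _ ≤ C * K * C1 * ‖v‖ * ρ ^ (N - 1) := mul_le_mul_of_nonneg_left f2 (by positivity)
      _ = C * K * C1 * ρ ^ (N - 1) * ‖v‖ := by ring
  rw [Finset.sum_const, Finset.card_range, nsmul_eq_mul] at e3
  have e4 := K12b2_norm h N v
  calc _ ≤ C * τ ^ N * ‖v‖ + N * (C * K * C1 * ρ ^ (N - 1) * ‖v‖) := add_le_add e4 e3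
    _ = (C * τ ^ N + N * (C * K * C1 * ρ ^ (N - 1))) * ‖v‖ := by ring

/-- `(1 - ι π) fw (D m) (N m) → 0`: with `fw_duhamel`, `(1 - ιπ) A^j = A^j (1 - ιπ)` has norm `≤ C τ^j`, so for `N = N m` the norm is
`≤ C τ^N + ∑_{i<N} C τ^(N-1-i) K θ^i C1 → 0` (convolution of two geometric sequences: `≤ N max(τ,θ)^(N-1)` times a constant). -/
theorem fw_limit_compl {A : E →L[ℝ] E} {u : ℂ} {ι : ℂ →L[ℝ] E} {π : E →L[ℝ] ℂ} {C τ : ℝ}
    (h : TP A 1 u ι π C τ) {K θ : ℝ} (hK : 0 ≤ K) (hθ : 0 ≤ θ) (hθ1 : θ < 1)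
    (D : ℕ → ℕ → E →L[ℝ] E) (N : ℕ → ℕ) (hN : Tendsto N atTop atTop)
    (hD : ∀ᶠ m in atTop, ∀ i < N m, ‖D m i - A‖ ≤ K * θ ^ i) :
    Tendsto (fun m => fw (D m) (N m) - ι ∘L π ∘L fw (D m) (N m)) atTop (𝓝 0) := by
  have hA := h.pow_bound
  obtain ⟨C1, hC1, hb⟩ := fw_bound hA hK hθ hθ1
  have hτ := h.tau0
  have hρ : 0 < max τ θ := lt_max_of_lt_left hτ
  have hρ1 : max τ θ < 1 := max_lt h.tau1 hθ1
  have ht := (K12b2_tendsto C (C * K * C1) τ (max τ θ) hτ.le h.tau1 hρ hρ1).comp hN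
  refine squeeze_zero_norm' ?_ ht
  filter_upwards [hD] with m hm
  exact K12b2_bound h hK hθ hC1 (le_max_left _ _) (le_max_right _ _) (D m) (N m) hm
    (hb (D m) (N m) hm)

end

end KT

end FB
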