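import Pool.Agent.H.MP_fb873c_an.K12a2

/-!
# Part K12b: asymptotics of long products (forward) (fw_limit_surj)
-/


namespace FB

namespace KT

open scoped Topology
open Filter

section

variable {E : Type*} [NormedAddCommGroup E] [NormedSpace ℝ E] [FiniteDimensional ℝ E]

theorem K12b3_inj (D : ℕ → E →L[ℝ] E) (hinj : ∀ i, Function.Injective (D i)) (N : ℕ) :
    Function.Injective (fw D N) := by
  induction N with
  | zero => exact fun _ _ hxy => hxy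
  | succ N ih => exact fun x y hxy => ih (hinj N hxy)

theorem K12b3_tel {A : E →L[ℝ] E} {u : ℂ} {ι : ℂ →L[ℝ] E} {π : E →L[ℝ] ℂ} {C τ : ℝ}
    (h : TP A 1 u ι π C τ) {K θ : ℝ} (hK : 0 ≤ K) (hθ : 0 ≤ θ) (hθ1 : θ < 1)
    (D : ℕ → E →L[ℝ] E) (hD : ∀ i, ‖D i - A‖ ≤ K * θ ^ i) {C1 : ℝ} (hC1 : 0 ≤ C1)
    (hb : ∀ i, ‖fw D i‖ ≤ C1) (v : E) (N : ℕ) :
    ‖(u ^ N)⁻¹ * π (fw D N v) - π v‖ ≤ ‖π‖ * C1 * ‖v‖ * (K * (1 - θ)⁻¹) := by
  have hu0 : u ≠ 0 := by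
    intro h0
    have := h.nrm
    rw [h0, norm_zero] at this
    exact zero_ne_one this
  have key : ‖(u ^ N)⁻¹ * π (fw D N v) - π v‖ ≤
      ‖π‖ * C1 * ‖v‖ * ∑ i ∈ Finset.range N, K * θ ^ i := by
    induction N with
    | zero => simp [fw]
    | succ N ih =>
      have h1 : (u ^ (N + 1))⁻¹ * π (fw D (N + 1) v) - π v =
          (u ^ (N + 1))⁻¹ * π ((D N - A) (fw D N v)) + ((u ^ N)⁻¹ * π (fw D N v) - π v) := by
        have h2 : π (fw D (N + 1) v) = π ((D N - A) (fw D N v)) + u * π (fw D N v) := by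
          rw [← h.pA, ← map_add]
          congr 1
          show D N (fw D N v) = (D N (fw D N v) - A (fw D N v)) + A (fw D N v)
          rw [sub_add_cancel]
        rw [h2, mul_add, ← mul_assoc (u ^ (N + 1))⁻¹ u, pow_succ, mul_inv, mul_assoc (u ^ N)⁻¹ u⁻¹ u,
          inv_mul_cancel₀ hu0, mul_one]
        ring
      have h3 : ‖(u ^ (N + 1))⁻¹ * π ((D N - A) (fw D N v))‖ ≤
          ‖π‖ * C1 * ‖v‖ * (K * θ ^ N) := by
        rw [norm_mul, norm_inv, norm_pow, h.nrm, one_pow, inv_one, one_mul]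
        calc ‖π ((D N - A) (fw D N v))‖ ≤ ‖π‖ * ‖(D N - A) (fw D N v)‖ := π.le_opNorm _
          _ ≤ ‖π‖ * (‖D N - A‖ * ‖fw D N v‖) := by
            gcongr
            exact (D N - A).le_opNorm _
          _ ≤ ‖π‖ * ((K * θ ^ N) * (C1 * ‖v‖)) := by
            gcongr
            · exact hD N
            · exact ((fw D N).le_opNorm v).trans
                (mul_le_mul_of_nonneg_right (hb N) (norm_nonneg _))
          _ = _ := by ring
      rw [h1, Finset.sum_range_succ, mul_add, add_comm]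
      exact (norm_add_le _ _).trans (add_le_add ih h3)
  exact key.trans (mul_le_mul_of_nonneg_left (K12a2_geom hK hθ hθ1 N) (by positivity))

/-- `D'` satisfies `‖D' i - A‖ ≤ K θ^i` for all `i` (limit of `hD`).  Put `Z_J = lim_N mulc (u^(-N)) π fw (D' (J + ·)) N` (`fw_limit_pi` applied to the constant family `D' (J + ·)`, with `K θ^J` in place
of `K`, `N m = m`); then (`fw_add`) `Z = mulc (u^(-J)) Z_J fw D' J`.  By the telescoping estimate `‖Z_J - π‖ ≤ ‖π‖ K θ^J C1 / (1-θ) → 0`, so for `J` large `‖Z_J ι - 1‖ < 1` and `Z_J ι` is invertible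
(`NormedRing.oneSub`/`Units.oneSub`, or injective + finite dimensional), `Z_J` is surjective; `fw D' J` is bijective (injective, finite dimension). -/
theorem fw_limit_surj {A : E →L[ℝ] E} {u : ℂ} {ι : ℂ →L[ℝ] E} {π : E →L[ℝ] ℂ} {C τ : ℝ}
    (h : TP A 1 u ι π C τ) {K θ : ℝ} (hK : 0 ≤ K) (hθ : 0 ≤ θ) (hθ1 : θ < 1)
    (D' : ℕ → E →L[ℝ] E) (hD : ∀ i, ‖D' i - A‖ ≤ K * θ ^ i) (hinj : ∀ i, Function.Injective (D' i))
    {Z : E →L[ℝ] ℂ} (hZ : Tendsto (fun i => mulc ((u ^ i)⁻¹) ∘L π ∘L fw D' i) atTop (𝓝 Z)) :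
    Function.Surjective Z := by
  obtain ⟨C1, hC1, hb⟩ := fw_bound h.pow_bound hK hθ hθ1
  have hu0 : u ≠ 0 := by
    intro h0
    have := h.nrm
    rw [h0, norm_zero] at this
    exact zero_ne_one this
  obtain ⟨J, hJ⟩ : ∃ J : ℕ, ‖π‖ * C1 * ‖ι‖ * (K * (1 - θ)⁻¹) * θ ^ J < 1 / 2 := by
    have h1 : Tendsto (fun J : ℕ => ‖π‖ * C1 * ‖ι‖ * (K * (1 - θ)⁻¹) * θ ^ J) atTop (𝓝 0) := by
      have := (tendsto_pow_atTop_nhds_zero_of_lt_one hθ hθ1).const_mul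
        (‖π‖ * C1 * ‖ι‖ * (K * (1 - θ)⁻¹))
      rwa [mul_zero] at this
    exact (h1.eventually (gt_mem_nhds (by norm_num))).exists
  have hDJ : ∀ i, ‖D' (J + i) - A‖ ≤ (K * θ ^ J) * θ ^ i := by
    intro i
    refine (hD (J + i)).trans (le_of_eq ?_)
    rw [pow_add]
    ring
  have hDJ' : ∀ i, ‖D' (J + i) - A‖ ≤ K * θ ^ i := by
    intro i
    refine (hDJ i).trans ?_
    have : θ ^ J ≤ 1 := pow_le_one₀ hθ hθ1.le
    calc K * θ ^ J * θ ^ i ≤ K * 1 * θ ^ i := by gcongr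
      _ = K * θ ^ i := by rw [mul_one]
  have hfin : Function.Injective (fw D' J) := K12b3_inj D' hinj J
  have hpt : ∀ x w : E, fw D' J x = w → ∀ N, mulc ((u ^ (J + N))⁻¹) (π (fw D' (J + N) x)) =
      (u ^ J)⁻¹ * ((u ^ N)⁻¹ * π (fw (fun l => D' (J + l)) N w)) := by
    intro x w hx N
    rw [fw_add, ContinuousLinearMap.comp_apply, hx]
    show (u ^ (J + N))⁻¹ * _ = _
    rw [pow_add, mul_inv, mul_assoc]
  have hlim : ∀ (x : E) (w0 : ℂ), fw D' J x = ι w0 → ‖u ^ J * Z x - w0‖ ≤ 1 / 2 * ‖w0‖ := by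
    intro x w0 hx
    have h1 : Tendsto (fun N => mulc ((u ^ (J + N))⁻¹) (π (fw D' (J + N) x))) atTop (𝓝 (Z x)) := by
      have h2 : Tendsto (fun i => (mulc ((u ^ i)⁻¹) ∘L π ∘L fw D' i) x) atTop (𝓝 (Z x)) :=
        ((ContinuousLinearMap.apply ℝ ℂ x).continuous.tendsto Z).comp hZ
      have h3 : Tendsto (fun N : ℕ => J + N) atTop atTop :=
        tendsto_atTop_mono (fun N => Nat.le_add_left N J) tendsto_id
      exact h2.comp h3
    have h4 : Tendsto (fun N => u ^ J * mulc ((u ^ (J + N))⁻¹) (π (fw D' (J + N) x)) - w0) atTop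
        (𝓝 (u ^ J * Z x - w0)) := (h1.const_mul _).sub_const _
    refine le_of_tendsto h4.norm (Eventually.of_forall fun N => ?_)
    rw [hpt x (ι w0) hx N, ← mul_assoc, mul_inv_cancel₀ (pow_ne_zero _ hu0), one_mul]
    have h5 := K12b3_tel h (by positivity : (0 : ℝ) ≤ K * θ ^ J) hθ hθ1 (fun l => D' (J + l)) hDJ
      hC1 (fun i => hb (fun l => D' (J + l)) i (fun l _ => hDJ' l) i le_rfl) (ι w0) N
    rw [h.pi] at h5
    refine h5.trans ?_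
    have h6 : ‖ι w0‖ ≤ ‖ι‖ * ‖w0‖ := ι.le_opNorm w0
    have h7 : (0 : ℝ) ≤ (1 - θ)⁻¹ := inv_nonneg.2 (by linarith)
    calc ‖π‖ * C1 * ‖ι w0‖ * (K * θ ^ J * (1 - θ)⁻¹)
        ≤ ‖π‖ * C1 * (‖ι‖ * ‖w0‖) * (K * θ ^ J * (1 - θ)⁻¹) := by gcongr
      _ = (‖π‖ * C1 * ‖ι‖ * (K * (1 - θ)⁻¹) * θ ^ J) * ‖w0‖ := by ring
      _ ≤ 1 / 2 * ‖w0‖ := mul_le_mul_of_nonneg_right hJ.le (norm_nonneg _)
  obtain ⟨e, he⟩ : ∃ e : E ≃ₗ[ℝ] E, ∀ x, e x = fw D' J x :=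
    ⟨LinearEquiv.ofInjectiveEndo (fw D' J : E →ₗ[ℝ] E) hfin, fun _ => rfl⟩
  obtain ⟨T, hT⟩ : ∃ T : ℂ →ₗ[ℝ] ℂ, ∀ w, T w = Z (e.symm (ι w)) :=
    ⟨(Z : E →ₗ[ℝ] ℂ) ∘ₗ (e.symm : E →ₗ[ℝ] E) ∘ₗ (ι : ℂ →ₗ[ℝ] E), fun _ => rfl⟩
  have hTi : Function.Injective T := by
    rw [injective_iff_map_eq_zero]
    intro w hw
    have h1 := hlim (e.symm (ι w)) w (by rw [← he, LinearEquiv.apply_symm_apply])
    rw [hT] at hw
    rw [hw, mul_zero, zero_sub, norm_neg] at h1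
    have h2 : ‖w‖ ≤ 0 := by linarith [norm_nonneg w]
    exact norm_le_zero_iff.1 h2
  have hTs : Function.Surjective T := LinearMap.injective_iff_surjective.1 hTi
  intro w
  obtain ⟨w0, hw0⟩ := hTs w
  exact ⟨e.symm (ι w0), by rw [← hT]; exact hw0⟩

end

end KT

end FB
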