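import Pool.Agent.H.MP_fb873c_an.K12b1
import Pool.Agent.H.MP_fb873c_an.K12b2
import Pool.Agent.H.MP_fb873c_an.K12b3

/-!
# Part K12b: asymptotics of long products (forward) (fw_limit)
-/


namespace FB

namespace KT

open scoped Topology
open Filter

section

variable {E : Type*} [NormedAddCommGroup E] [NormedSpace ℝ E] [FiniteDimensional ℝ E]

/-- Combination of the three statements: `fw = ι π fw + (1 - ι π) fw` and `ι π fw = ι mulc (u^N) (mulc (u^(-N)) π fw)`, `‖mulc (u^N)‖ = 1`. -/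
theorem fw_limit {A : E →L[ℝ] E} {u : ℂ} {ι : ℂ →L[ℝ] E} {π : E →L[ℝ] ℂ} {C τ : ℝ}
    (h : TP A 1 u ι π C τ) {K θ : ℝ} (hK : 0 ≤ K) (hθ : 0 ≤ θ) (hθ1 : θ < 1)
    (D : ℕ → ℕ → E →L[ℝ] E) (D' : ℕ → E →L[ℝ] E) (N : ℕ → ℕ) (hN : Tendsto N atTop atTop)
    (hD : ∀ᶠ m in atTop, ∀ i < N m, ‖D m i - A‖ ≤ K * θ ^ i)
    (hlim : ∀ i, Tendsto (fun m => D m i) atTop (𝓝 (D' i)))
    (hinj : ∀ i, Function.Injective (D' i)) :
    ∃ Z : E →L[ℝ] ℂ, Function.Surjective Z ∧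
      Tendsto (fun m => fw (D m) (N m) - ι ∘L mulc (u ^ (N m)) ∘L Z) atTop (𝓝 0) := by
  obtain ⟨Z, hZ1, hZ2⟩ := fw_limit_pi h hK hθ hθ1 D D' N hN hD hlim
  have hD' : ∀ i, ‖D' i - A‖ ≤ K * θ ^ i := by
    intro i
    refine le_of_tendsto ((hlim i).sub_const A).norm ?_
    filter_upwards [hD, hN.eventually_gt_atTop i] with m h1 h2
    exact h1 i h2
  have hsurj := fw_limit_surj h hK hθ hθ1 D' hD' hinj hZ2
  have hcompl := fw_limit_compl h hK hθ hθ1 D N hN hD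
  refine ⟨Z, hsurj, ?_⟩
  have hu : ‖u‖ = 1 := h.nrm
  have hu0 : u ≠ 0 := by
    intro h0
    rw [h0, norm_zero] at hu
    exact zero_ne_one hu
  have hdec : ∀ m, fw (D m) (N m) - ι ∘L mulc (u ^ (N m)) ∘L Z =
      (fw (D m) (N m) - ι ∘L π ∘L fw (D m) (N m)) +
        ι ∘L mulc (u ^ (N m)) ∘L (mulc ((u ^ (N m))⁻¹) ∘L π ∘L fw (D m) (N m) - Z) := by
    intro m
    ext v
    have h1 : mulc (u ^ (N m)) (mulc ((u ^ (N m))⁻¹) (π (fw (D m) (N m) v)) - Z v) =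
        π (fw (D m) (N m) v) - mulc (u ^ (N m)) (Z v) := by
      rw [map_sub]
      congr 1
      show u ^ (N m) * ((u ^ (N m))⁻¹ * π (fw (D m) (N m) v)) = π (fw (D m) (N m) v)
      rw [mul_inv_cancel_left₀ (pow_ne_zero _ hu0)]
    show fw (D m) (N m) v - ι (mulc (u ^ (N m)) (Z v)) =
      (fw (D m) (N m) v - ι (π (fw (D m) (N m) v))) +
        ι (mulc (u ^ (N m)) (mulc ((u ^ (N m))⁻¹) (π (fw (D m) (N m) v)) - Z v))
    rw [h1, map_sub]
    abel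
  have h2 : Tendsto (fun m => ι ∘L mulc (u ^ (N m)) ∘L
      (mulc ((u ^ (N m))⁻¹) ∘L π ∘L fw (D m) (N m) - Z)) atTop (𝓝 0) := by
    have h3 : Tendsto (fun m => ‖ι‖ * ‖mulc ((u ^ (N m))⁻¹) ∘L π ∘L fw (D m) (N m) - Z‖) atTop
        (𝓝 0) := by
      have h4 := (tendsto_iff_norm_sub_tendsto_zero.1 hZ1).const_mul ‖ι‖
      rwa [mul_zero] at h4
    refine squeeze_zero_norm (fun m => ?_) h3
    have h5 : ‖mulc (u ^ (N m))‖ ≤ 1 := by
      refine (ContinuousLinearMap.opNorm_mul_apply_le ℝ ℂ (u ^ (N m))).trans ?_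
      rw [norm_pow, hu, one_pow]
    refine (ContinuousLinearMap.opNorm_comp_le _ _).trans ?_
    refine mul_le_mul_of_nonneg_left ?_ (norm_nonneg _)
    refine (ContinuousLinearMap.opNorm_comp_le _ _).trans ?_
    exact (mul_le_mul_of_nonneg_right h5 (norm_nonneg _)).trans (one_mul _).le
  have h6 := hcompl.add h2
  rw [add_zero] at h6
  exact h6.congr fun m => (hdec m).symm

end

end KT

end FB
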