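import Pool.Agent.H.MP_fb873c_an.K12a2

/-!
# Part K12b: asymptotics of long products (forward) (fw_limit_pi)
-/


namespace FB

namespace KT

open scoped Topology
open Filter

section

variable {E : Type*} [NormedAddCommGroup E] [NormedSpace ℝ E] [FiniteDimensional ℝ E]

/-- The step of the sequence `mulc (u^(-i)) ∘ π ∘ fw D i`. -/
theorem K12b1_step {A : E →L[ℝ] E} {u : ℂ} {π : E →L[ℝ] ℂ} (hu : ‖u‖ = 1)
    (pA : ∀ v, π (A v) = u * π v) (D : ℕ → E →L[ℝ] E) (i : ℕ) {K θ C1 : ℝ} (hK : 0 ≤ K)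
    (hθ : 0 ≤ θ) (hDi : ‖D i - A‖ ≤ K * θ ^ i) (hC : ‖fw D i‖ ≤ C1) :
    ‖mulc ((u ^ (i + 1))⁻¹) ∘L π ∘L fw D (i + 1) - mulc ((u ^ i)⁻¹) ∘L π ∘L fw D i‖ ≤
      ‖π‖ * K * C1 * θ ^ i := by
  have hu0 : u ≠ 0 := by
    intro h0
    rw [h0, norm_zero] at hu
    exact zero_ne_one hu
  have hC1 : 0 ≤ C1 := (norm_nonneg _).trans hC
  have e : mulc ((u ^ (i + 1))⁻¹) ∘L π ∘L fw D (i + 1) - mulc ((u ^ i)⁻¹) ∘L π ∘L fw D i =
      mulc ((u ^ (i + 1))⁻¹) ∘L (π ∘L ((D i - A) ∘L fw D i)) := by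
    ext v
    have e1 : (mulc ((u ^ (i + 1))⁻¹) ∘L π ∘L fw D (i + 1) -
        mulc ((u ^ i)⁻¹) ∘L π ∘L fw D i) v =
        (u ^ (i + 1))⁻¹ * π (D i (fw D i v)) - (u ^ i)⁻¹ * π (fw D i v) := rfl
    have e2 : (mulc ((u ^ (i + 1))⁻¹) ∘L (π ∘L ((D i - A) ∘L fw D i))) v =
        (u ^ (i + 1))⁻¹ * π ((D i - A) (fw D i v)) := rfl
    rw [e1, e2, sub_apply, map_sub, pA]
    have e3 : (u ^ (i + 1))⁻¹ * (π (D i (fw D i v)) - u * π (fw D i v)) =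
        (u ^ (i + 1))⁻¹ * π (D i (fw D i v)) - ((u ^ (i + 1))⁻¹ * u) * π (fw D i v) := by ring
    have e4 : (u ^ (i + 1))⁻¹ * u = (u ^ i)⁻¹ := by
      rw [pow_succ, mul_inv, mul_assoc, inv_mul_cancel₀ hu0, mul_one]
    rw [e3, e4]
  rw [e]
  have n1 : ‖mulc ((u ^ (i + 1))⁻¹)‖ ≤ 1 := by
    refine ContinuousLinearMap.opNorm_le_bound _ zero_le_one fun v => ?_
    have : mulc ((u ^ (i + 1))⁻¹) v = (u ^ (i + 1))⁻¹ * v := rfl
    rw [this, norm_mul, norm_inv, norm_pow, hu, one_pow, inv_one]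
  have n2 : ‖(D i - A) ∘L fw D i‖ ≤ (K * θ ^ i) * C1 :=
    (ContinuousLinearMap.opNorm_comp_le _ _).trans
      (mul_le_mul hDi hC (norm_nonneg _) (by positivity))
  have n3 : ‖π ∘L ((D i - A) ∘L fw D i)‖ ≤ ‖π‖ * ((K * θ ^ i) * C1) :=
    (ContinuousLinearMap.opNorm_comp_le _ _).trans
      (mul_le_mul_of_nonneg_left n2 (norm_nonneg _))
  calc ‖mulc ((u ^ (i + 1))⁻¹) ∘L (π ∘L ((D i - A) ∘L fw D i))‖
      ≤ ‖mulc ((u ^ (i + 1))⁻¹)‖ * ‖π ∘L ((D i - A) ∘L fw D i)‖ :=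
        ContinuousLinearMap.opNorm_comp_le _ _
    _ ≤ 1 * (‖π‖ * ((K * θ ^ i) * C1)) :=
        mul_le_mul n1 n3 (norm_nonneg _) zero_le_one
    _ = ‖π‖ * K * C1 * θ ^ i := by ring

theorem K12b1_comp {F G : Type*} [NormedAddCommGroup F] [NormedSpace ℝ F]
    [NormedAddCommGroup G] [NormedSpace ℝ G] {f : ℕ → F →L[ℝ] G} {f' : F →L[ℝ] G}
    {g : ℕ → E →L[ℝ] F} {g' : E →L[ℝ] F} (hf : Tendsto f atTop (𝓝 f'))
    (hg : Tendsto g atTop (𝓝 g')) :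
    Tendsto (fun m => f m ∘L g m) atTop (𝓝 (f' ∘L g')) :=
  (isBoundedBilinearMap_comp (𝕜 := ℝ) (E := E) (F := F) (G := G)).continuous.continuousAt.tendsto.comp
    (hf.prodMk_nhds hg)

theorem K12b1_fw_tendsto (D : ℕ → ℕ → E →L[ℝ] E) (D' : ℕ → E →L[ℝ] E)
    (hlim : ∀ i, Tendsto (fun m => D m i) atTop (𝓝 (D' i))) (i : ℕ) :
    Tendsto (fun m => fw (D m) i) atTop (𝓝 (fw D' i)) := by
  induction i with
  | zero => exact tendsto_const_nhds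
  | succ i ih => exact K12b1_comp (hlim i) ih

theorem K12b1_Z_tendsto (D : ℕ → ℕ → E →L[ℝ] E) (D' : ℕ → E →L[ℝ] E)
    (hlim : ∀ i, Tendsto (fun m => D m i) atTop (𝓝 (D' i))) (a : ℂ) (π : E →L[ℝ] ℂ) (i : ℕ) :
    Tendsto (fun m => mulc a ∘L π ∘L fw (D m) i) atTop (𝓝 (mulc a ∘L π ∘L fw D' i)) :=
  K12b1_comp tendsto_const_nhds (K12b1_comp tendsto_const_nhds (K12b1_fw_tendsto D D' hlim i))

/-- Let `Z m i = mulc (u^(-i)) ∘ π ∘ fw (D m) i`.  Since `π A = u π`: `Z m (i+1) - Z m i = mulc (u^(-(i+1))) π (D m i - A) fw (D m) i`, of norm `≤ C2 θ^i`, `C2 = ‖π‖ K C1` (`fw_bound`,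
`TP.pow_bound`) for `i < N m`.  For fixed `i`, `Z m i` converges for `m → ∞` to `Z∞ i` (the same expression for `D∞`: continuity of composition, induction).  So `Z m (N m)` converges, with
`Z = lim_i Z∞ i` (`‖Z m (N m) - Z m i‖ ≤ C2 θ^i / (1 - θ)`, `‖Z∞ i' - Z∞ i‖ ≤ C2 θ^i/(1-θ)` for `i' ≥ i`; `E →L[ℝ] ℂ` is complete). -/
theorem fw_limit_pi {A : E →L[ℝ] E} {u : ℂ} {ι : ℂ →L[ℝ] E} {π : E →L[ℝ] ℂ} {C τ : ℝ}
    (h : TP A 1 u ι π C τ) {K θ : ℝ} (hK : 0 ≤ K) (hθ : 0 ≤ θ) (hθ1 : θ < 1)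
    (D : ℕ → ℕ → E →L[ℝ] E) (D' : ℕ → E →L[ℝ] E) (N : ℕ → ℕ) (hN : Tendsto N atTop atTop)
    (hD : ∀ᶠ m in atTop, ∀ i < N m, ‖D m i - A‖ ≤ K * θ ^ i)
    (hlim : ∀ i, Tendsto (fun m => D m i) atTop (𝓝 (D' i))) :
    ∃ Z : E →L[ℝ] ℂ, Tendsto (fun m => mulc ((u ^ (N m))⁻¹) ∘L π ∘L fw (D m) (N m)) atTop (𝓝 Z) ∧
      Tendsto (fun i => mulc ((u ^ i)⁻¹) ∘L π ∘L fw D' i) atTop (𝓝 Z) := by
  obtain ⟨C1, hC1, hfw⟩ := fw_bound h.pow_bound hK hθ hθ1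
  -- the limit sequence satisfies the same bounds
  have hD' : ∀ i, ‖D' i - A‖ ≤ K * θ ^ i := by
    intro i
    have ht : Tendsto (fun m => ‖D m i - A‖) atTop (𝓝 ‖D' i - A‖) :=
      ((hlim i).sub_const A).norm
    refine le_of_tendsto ht ?_
    filter_upwards [hD, hN.eventually_gt_atTop i] with m hm hi
    exact hm i hi
  set C2 : ℝ := ‖π‖ * K * C1 with hC2
  have hC20 : 0 ≤ C2 := by positivity
  let Z : ℕ → ℕ → (E →L[ℝ] ℂ) := fun m i => mulc ((u ^ i)⁻¹) ∘L π ∘L fw (D m) i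
  let Z' : ℕ → (E →L[ℝ] ℂ) := fun i => mulc ((u ^ i)⁻¹) ∘L π ∘L fw D' i
  have hZ' : ∀ i, ‖Z' (i + 1) - Z' i‖ ≤ C2 * θ ^ i := fun i =>
    K12b1_step h.nrm h.pA D' i hK hθ (hD' i) (hfw D' i (fun j _ => hD' j) i le_rfl)
  let f : ℕ → ℕ → (E →L[ℝ] ℂ) := fun m i => if i < N m then Z m (i + 1) - Z m i else 0
  let g : ℕ → (E →L[ℝ] ℂ) := fun i => Z' (i + 1) - Z' i
  have hsum : Summable (fun i : ℕ => C2 * θ ^ i) :=
    (summable_geometric_of_lt_one hθ hθ1).mul_left C2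
  have hfg : ∀ i, Tendsto (fun m => f m i) atTop (𝓝 (g i)) := by
    intro i
    have h1 : Tendsto (fun m => Z m (i + 1) - Z m i) atTop (𝓝 (g i)) :=
      (K12b1_Z_tendsto D D' hlim _ π (i + 1)).sub (K12b1_Z_tendsto D D' hlim _ π i)
    refine h1.congr' ?_
    filter_upwards [hN.eventually_gt_atTop i] with m hi
    simp only [f, if_pos hi]
  have hbd : ∀ᶠ m in atTop, ∀ i, ‖f m i‖ ≤ C2 * θ ^ i := by
    filter_upwards [hD] with m hm i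
    by_cases hi : i < N m
    · simp only [f, if_pos hi]
      exact K12b1_step h.nrm h.pA (D m) i hK hθ (hm i hi) (hfw (D m) (N m) hm i hi.le)
    · simp only [f, if_neg hi, norm_zero]
      positivity
  have hts := tendsto_tsum_of_dominated_convergence hsum hfg hbd
  have hfs : ∀ m, ∑' i, f m i = Z m (N m) - Z m 0 := by
    intro m
    rw [tsum_eq_sum (s := Finset.range (N m)) (fun i hi => by
      simp only [f, if_neg (fun hh => hi (Finset.mem_range.2 hh))])]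
    rw [← Finset.sum_range_sub (Z m) (N m)]
    exact Finset.sum_congr rfl fun i hi => by simp only [f, if_pos (Finset.mem_range.1 hi)]
  have hg : Summable g := Summable.of_norm_bounded hsum hZ'
  have hZ0 : ∀ m, Z m 0 = Z' 0 := fun m => rfl
  refine ⟨∑' i, g i + Z' 0, ?_, ?_⟩
  · have h2 := hts.add_const (Z' 0)
    refine h2.congr fun m => ?_
    rw [hfs, hZ0, sub_add_cancel]
  · have h3 := hg.hasSum.tendsto_sum_nat.add_const (Z' 0)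
    refine h3.congr fun n => ?_
    rw [Finset.sum_range_sub, sub_add_cancel]

end

end KT

end FB
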