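import Pool.Agent.H.MP_fb873c_an.K12a2

/-!
# Part K12c: asymptotics of long products (backward) (bw_limit_inj)
-/


namespace FB

namespace KT

open scoped Topology
open Filter

section

variable {E : Type*} [NormedAddCommGroup E] [NormedSpace ℝ E]

theorem K12c2_bwinj (D : ℕ → E →L[ℝ] E) (h : ∀ i, Function.Injective (D i)) (N : ℕ) :
    Function.Injective (bw D N) := by
  induction N with
  | zero =>
    intro x y hxy
    simpa [bw] using hxy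
  | succ N ih =>
    intro x y hxy
    exact h N (ih hxy)

theorem K12c2_ne {A : E →L[ℝ] E} {u : ℂ} {ι : ℂ →L[ℝ] E} {π : E →L[ℝ] ℂ} {C τ : ℝ}
    (h : TP A 1 u ι π C τ) : u ≠ 0 := by
  intro h0
  have h1 := h.nrm
  rw [h0, norm_zero] at h1
  exact zero_ne_one h1

theorem K12c2_step {A : E →L[ℝ] E} {u : ℂ} {ι : ℂ →L[ℝ] E} {π : E →L[ℝ] ℂ} {C τ : ℝ}
    (h : TP A 1 u ι π C τ) (D : ℕ → E →L[ℝ] E) (i : ℕ) :
    bw D (i + 1) ∘L ι ∘L mulc ((u ^ (i + 1))⁻¹) - bw D i ∘L ι ∘L mulc ((u ^ i)⁻¹) =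
      bw D i ∘L (D i - A) ∘L ι ∘L mulc ((u ^ (i + 1))⁻¹) := by
  have hu := K12c2_ne h
  refine ContinuousLinearMap.ext fun w => ?_
  have h1 : A (ι ((u ^ (i + 1))⁻¹ * w)) = ι ((u ^ i)⁻¹ * w) := by
    rw [h.Ai]
    congr 1
    field_simp
    ring
  show bw D i (D i (ι ((u ^ (i + 1))⁻¹ * w))) - bw D i (ι ((u ^ i)⁻¹ * w)) =
    bw D i (D i (ι ((u ^ (i + 1))⁻¹ * w)) - A (ι ((u ^ (i + 1))⁻¹ * w)))
  rw [h1, map_sub]

theorem K12c2_bound {A : E →L[ℝ] E} {u : ℂ} {ι : ℂ →L[ℝ] E} {π : E →L[ℝ] ℂ} {C τ : ℝ}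
    (h : TP A 1 u ι π C τ) {K θ C1 : ℝ} (hK : 0 ≤ K) (hθ : 0 ≤ θ) (D : ℕ → E →L[ℝ] E)
    (hC1 : ∀ i, ‖bw D i‖ ≤ C1) (hD : ∀ i, ‖D i - A‖ ≤ K * θ ^ i) (i : ℕ) :
    dist (bw D i ∘L ι ∘L mulc ((u ^ i)⁻¹)) (bw D (i + 1) ∘L ι ∘L mulc ((u ^ (i + 1))⁻¹)) ≤
      (C1 * K * ‖ι‖) * θ ^ i := by
  rw [dist_comm, dist_eq_norm, K12c2_step h]
  have h0 : (0 : ℝ) ≤ C1 := (norm_nonneg _).trans (hC1 0)
  have h1 : ‖mulc ((u ^ (i + 1))⁻¹)‖ ≤ 1 := by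
    refine (ContinuousLinearMap.opNorm_mul_apply_le ℝ ℂ _).trans ?_
    rw [norm_inv, norm_pow, h.nrm, one_pow, inv_one]
  have h2 : ‖ι ∘L mulc ((u ^ (i + 1))⁻¹)‖ ≤ ‖ι‖ := by
    refine (ι.opNorm_comp_le _).trans ?_
    calc ‖ι‖ * ‖mulc ((u ^ (i + 1))⁻¹)‖ ≤ ‖ι‖ * 1 := by gcongr
      _ = ‖ι‖ := mul_one _
  have h3 : ‖(D i - A) ∘L ι ∘L mulc ((u ^ (i + 1))⁻¹)‖ ≤ K * θ ^ i * ‖ι‖ :=
    ((D i - A).opNorm_comp_le _).trans (mul_le_mul (hD i) h2 (norm_nonneg _) (by positivity))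
  refine ((bw D i).opNorm_comp_le _).trans ((mul_le_mul (hC1 i) h3 (norm_nonneg _) h0).trans
    (le_of_eq ?_))
  ring

end

section

variable {E : Type*} [NormedAddCommGroup E] [NormedSpace ℝ E] [FiniteDimensional ℝ E]

/-- Put `V_J = lim_N bw (D' (J + ·)) N ι mulc (u^(-N))` (`bw_limit_iota` for the constant family `D' (J + ·)`); then (`bw_add`) `V = bw D' J V_J mulc (u^(-J))`.
By the telescoping estimate `‖V_J - ι‖ ≤ C1 K θ^J ‖ι‖ / (1-θ) → 0`, so for `J` large `‖π V_J - 1‖ < 1`, so `π V_J` is injective, hence `V_J` is injective; `bw D' J` is a composition of injective maps. -/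
theorem bw_limit_inj {A : E →L[ℝ] E} {u : ℂ} {ι : ℂ →L[ℝ] E} {π : E →L[ℝ] ℂ} {C τ : ℝ}
    (h : TP A 1 u ι π C τ) {K θ : ℝ} (hK : 0 ≤ K) (hθ : 0 ≤ θ) (hθ1 : θ < 1)
    (D' : ℕ → E →L[ℝ] E) (hD : ∀ i, ‖D' i - A‖ ≤ K * θ ^ i) (hinj : ∀ i, Function.Injective (D' i))
    {V : ℂ →L[ℝ] E} (hV : Tendsto (fun i => bw D' i ∘L ι ∘L mulc ((u ^ i)⁻¹)) atTop (𝓝 V)) :
    Function.Injective V := by
  have hu := K12c2_ne h
  have : CompleteSpace E := FiniteDimensional.complete ℝ E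
  obtain ⟨C1, hC1, hb⟩ := bw_bound h.pow_bound hK hθ hθ1
  have hDJ : ∀ J i, ‖D' (J + i) - A‖ ≤ K * θ ^ i := fun J i =>
    (hD (J + i)).trans (mul_le_mul_of_nonneg_left
      (pow_le_pow_of_le_one hθ hθ1.le (by omega)) hK)
  have hbJ : ∀ J i, ‖bw (fun l => D' (J + l)) i‖ ≤ C1 := fun J i =>
    hb _ i (fun l _ => hDJ J l) i le_rfl
  have hDJ' : ∀ J i, ‖D' (J + i) - A‖ ≤ (K * θ ^ J) * θ ^ i := fun J i =>
    (hD (J + i)).trans (le_of_eq (by rw [pow_add, mul_assoc]))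
  have hstep : ∀ J i, dist (bw (fun l => D' (J + l)) i ∘L ι ∘L mulc ((u ^ i)⁻¹))
      (bw (fun l => D' (J + l)) (i + 1) ∘L ι ∘L mulc ((u ^ (i + 1))⁻¹)) ≤
      (C1 * (K * θ ^ J) * ‖ι‖) * θ ^ i := fun J i =>
    K12c2_bound h (by positivity) hθ _ (hbJ J) (hDJ' J) i
  have hex : ∀ J, ∃ W : ℂ →L[ℝ] E, Tendsto (fun i => bw (fun l => D' (J + l)) i ∘L ι ∘L
      mulc ((u ^ i)⁻¹)) atTop (𝓝 W) := fun J =>
    cauchySeq_tendsto_of_complete (cauchySeq_of_le_geometric θ _ hθ1 (hstep J))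
  choose W hW using hex
  have hdist : ∀ J, ‖W J - ι‖ ≤ (C1 * (K * θ ^ J) * ‖ι‖) / (1 - θ) := by
    intro J
    have h1 := dist_le_of_le_geometric_of_tendsto₀ θ _ hθ1 (hstep J) (hW J)
    have h2 : bw (fun l => D' (J + l)) 0 ∘L ι ∘L mulc ((u ^ 0)⁻¹) = ι := by
      refine ContinuousLinearMap.ext fun w => ?_
      show ι ((u ^ 0)⁻¹ * w) = ι w
      simp
    rw [h2, dist_comm, dist_eq_norm] at h1
    exact h1
  have hlim : Tendsto (fun J : ℕ => ‖π‖ * ((C1 * (K * θ ^ J) * ‖ι‖) / (1 - θ))) atTop (𝓝 0) := by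
    have h1 : Tendsto (fun J : ℕ => θ ^ J) atTop (𝓝 0) := tendsto_pow_atTop_nhds_zero_of_lt_one hθ hθ1
    have h2 := h1.const_mul (‖π‖ * (C1 * K * ‖ι‖ / (1 - θ)))
    rw [mul_zero] at h2
    refine h2.congr fun J => ?_
    ring
  obtain ⟨J, hJ⟩ := ((tendsto_order.1 hlim).2 1 one_pos).exists
  have hWinj : Function.Injective (W J) := by
    rw [injective_iff_map_eq_zero]
    intro w hw
    by_contra hne
    have h1 : ‖π ((W J - ι) w)‖ < ‖w‖ := by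
      have h2 : ‖π ((W J - ι) w)‖ ≤ ‖π‖ * (‖W J - ι‖ * ‖w‖) :=
        (π.le_opNorm _).trans (mul_le_mul_of_nonneg_left ((W J - ι).le_opNorm w) (norm_nonneg _))
      have h3 : ‖π‖ * ‖W J - ι‖ < 1 :=
        (mul_le_mul_of_nonneg_left (hdist J) (norm_nonneg _)).trans_lt hJ
      have h4 : 0 < ‖w‖ := norm_pos_iff.2 hne
      nlinarith
    have h5 : π ((W J - ι) w) = -w := by
      rw [ContinuousLinearMap.sub_apply, hw, zero_sub, map_neg, h.pi]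
    rw [h5, norm_neg] at h1
    exact lt_irrefl _ h1
  have hVe : V = bw D' J ∘L W J ∘L mulc ((u ^ J)⁻¹) := by
    have h1 : Tendsto (fun i => bw D' (i + J) ∘L ι ∘L mulc ((u ^ (i + J))⁻¹)) atTop (𝓝 V) :=
      (tendsto_add_atTop_iff_nat J).2 hV
    refine ContinuousLinearMap.ext fun w => ?_
    have h2 : Tendsto (fun i => (bw D' (i + J) ∘L ι ∘L mulc ((u ^ (i + J))⁻¹)) w) atTop (𝓝 (V w)) :=
      (((ContinuousLinearMap.apply ℝ E w).continuous.tendsto V).comp h1)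
    have h3 : Tendsto (fun i => (bw (fun l => D' (J + l)) i ∘L ι ∘L mulc ((u ^ i)⁻¹))
        ((u ^ J)⁻¹ * w)) atTop (𝓝 (W J ((u ^ J)⁻¹ * w))) :=
      (((ContinuousLinearMap.apply ℝ E ((u ^ J)⁻¹ * w)).continuous.tendsto (W J)).comp (hW J))
    have h4 := ((bw D' J).continuous.tendsto _).comp h3
    refine tendsto_nhds_unique (h2.congr fun i => ?_) h4
    show bw D' (i + J) (ι ((u ^ (i + J))⁻¹ * w)) =
      bw D' J (bw (fun l => D' (J + l)) i (ι ((u ^ i)⁻¹ * ((u ^ J)⁻¹ * w))))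
    rw [add_comm i J, bw_add, pow_add, mul_inv, mul_comm ((u ^ J)⁻¹) ((u ^ i)⁻¹), mul_assoc]
    rfl
  rw [hVe]
  intro x y hxy
  have h1 : W J ((u ^ J)⁻¹ * x) = W J ((u ^ J)⁻¹ * y) := K12c2_bwinj D' hinj J hxy
  exact mul_left_cancel₀ (inv_ne_zero (pow_ne_zero _ hu)) (hWinj h1)

end

end KT

end FB
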