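import Pool.Agent.H.MP_fb873c_an.K12c1
import Pool.Agent.H.MP_fb873c_an.K12c2

/-!
# Part K12c: asymptotics of long products (backward) (bw_limit)
-/


namespace FB

namespace KT

open scoped Topology
open Filter

section

variable {E : Type*} [NormedAddCommGroup E] [NormedSpace ℝ E] [FiniteDimensional ℝ E]

/-- Combination (`D'` satisfies `‖D' i - A‖ ≤ K θ^i` by passing to the limit; `‖mulc (u^N)‖ = 1`). -/
theorem bw_limit {A : E →L[ℝ] E} {u : ℂ} {ι : ℂ →L[ℝ] E} {π : E →L[ℝ] ℂ} {C τ : ℝ}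
    (h : TP A 1 u ι π C τ) {K θ : ℝ} (hK : 0 ≤ K) (hθ : 0 ≤ θ) (hθ1 : θ < 1)
    (D : ℕ → ℕ → E →L[ℝ] E) (D' : ℕ → E →L[ℝ] E) (N : ℕ → ℕ) (hN : Tendsto N atTop atTop)
    (hD : ∀ᶠ m in atTop, ∀ i < N m, ‖D m i - A‖ ≤ K * θ ^ i)
    (hlim : ∀ i, Tendsto (fun m => D m i) atTop (𝓝 (D' i)))
    (hinj : ∀ i, Function.Injective (D' i)) :
    ∃ V : ℂ →L[ℝ] E, Function.Injective V ∧
      Tendsto (fun m => bw (D m) (N m) ∘L ι - V ∘L mulc (u ^ (N m))) atTop (𝓝 0) := by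
  obtain ⟨V, hV1, hV2⟩ := bw_limit_iota h hK hθ hθ1 D D' N hN hD hlim
  have hD' : ∀ i, ‖D' i - A‖ ≤ K * θ ^ i := by
    intro i
    refine le_of_tendsto ((hlim i).sub_const A).norm ?_
    filter_upwards [hD, hN.eventually_gt_atTop i] with m h1 h2
    exact h1 i h2
  refine ⟨V, bw_limit_inj h hK hθ hθ1 D' hD' hinj hV2, ?_⟩
  have hu : u ≠ 0 := by
    intro hu
    have := h.nrm
    rw [hu, norm_zero] at this
    exact zero_ne_one this
  rw [tendsto_zero_iff_norm_tendsto_zero]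
  have h1 : Tendsto (fun m => ‖bw (D m) (N m) ∘L ι ∘L mulc ((u ^ (N m))⁻¹) - V‖) atTop (𝓝 0) := by
    rw [← tendsto_iff_norm_sub_tendsto_zero]
    exact hV1
  refine squeeze_zero (fun m => norm_nonneg _) (fun m => ?_) h1
  have e : bw (D m) (N m) ∘L ι - V ∘L mulc (u ^ (N m)) =
      (bw (D m) (N m) ∘L ι ∘L mulc ((u ^ (N m))⁻¹) - V) ∘L mulc (u ^ (N m)) := by
    ext w
    have e1 : (u ^ (N m))⁻¹ * (u ^ (N m) * w) = w := by
      rw [← mul_assoc, inv_mul_cancel₀ (pow_ne_zero _ hu), one_mul]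
    simp only [ContinuousLinearMap.comp_apply, sub_apply, K12c1_mulc_apply, e1]
  rw [e]
  calc ‖(bw (D m) (N m) ∘L ι ∘L mulc ((u ^ (N m))⁻¹) - V) ∘L mulc (u ^ (N m))‖
      ≤ ‖bw (D m) (N m) ∘L ι ∘L mulc ((u ^ (N m))⁻¹) - V‖ * ‖mulc (u ^ (N m))‖ :=
        ContinuousLinearMap.opNorm_comp_le _ _
    _ ≤ ‖bw (D m) (N m) ∘L ι ∘L mulc ((u ^ (N m))⁻¹) - V‖ * 1 := by
        refine mul_le_mul_of_nonneg_left ?_ (norm_nonneg _)
        refine (K12c1_mulc_norm _).trans ?_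
        rw [norm_pow, h.nrm, one_pow]
    _ = ‖bw (D m) (N m) ∘L ι ∘L mulc ((u ^ (N m))⁻¹) - V‖ := mul_one _

end

end KT

end FB
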