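import Pool.Agent.H.MP_fb873c_an.K12c1
import Pool.Agent.H.MP_fb873c_an.K12c2
import Pool.Agent.H.MP_fb873c_an.K12c3

/-! # Part K12c: asymptotics of long products (backward): collects the files above -/
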