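import Pool.Agent.H.MP_fb873c_an.K12a2

/-!
# Part K12c: asymptotics of long products (backward) (bw_limit_iota)
-/


namespace FB

namespace KT

open scoped Topology
open Filter

section

variable {E : Type*} [NormedAddCommGroup E] [NormedSpace ℝ E] [FiniteDimensional ℝ E]

/-- Interchange of limits for double sequences with geometrically small increments. -/
theorem K12c1_abs {X : Type*} [PseudoMetricSpace X] [CompleteSpace X] {C2 θ : ℝ} (hC : 0 ≤ C2)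
    (hθ : 0 ≤ θ) (hθ1 : θ < 1) (V : ℕ → ℕ → X) (W : ℕ → X) (N : ℕ → ℕ)
    (hN : Tendsto N atTop atTop)
    (hV : ∀ᶠ m in atTop, ∀ i < N m, dist (V m i) (V m (i + 1)) ≤ C2 * θ ^ i)
    (hlim : ∀ i, Tendsto (fun m => V m i) atTop (𝓝 (W i))) :
    ∃ L : X, Tendsto (fun m => V m (N m)) atTop (𝓝 L) ∧ Tendsto W atTop (𝓝 L) := by
  have hW : ∀ i, dist (W i) (W (i + 1)) ≤ C2 * θ ^ i := by
    intro i
    refine le_of_tendsto ((hlim i).dist (hlim (i + 1))) ?_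
    filter_upwards [hV, hN.eventually_gt_atTop i] with m h1 h2
    exact h1 i h2
  obtain ⟨L, hL⟩ := cauchySeq_tendsto_of_complete (cauchySeq_of_le_geometric θ C2 hθ1 hW)
  have hWL : ∀ i, dist (W i) L ≤ C2 * θ ^ i / (1 - θ) := fun i =>
    dist_le_of_le_geometric_of_tendsto θ C2 hθ1 hW hL i
  have hVN : ∀ᶠ m in atTop, ∀ i ≤ N m, dist (V m i) (V m (N m)) ≤ C2 * θ ^ i / (1 - θ) := by
    filter_upwards [hV] with m hm i hi
    have h1 : ∀ l, dist (V m (min l (N m))) (V m (min (l + 1) (N m))) ≤ C2 * θ ^ l := by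
      intro l
      rcases lt_or_ge l (N m) with hl | hl
      · rw [min_eq_left hl.le, min_eq_left (Nat.succ_le_of_lt hl)]
        exact hm l hl
      · rw [min_eq_right hl, min_eq_right (by omega), dist_self]
        positivity
    have h2 : Tendsto (fun l => V m (min l (N m))) atTop (𝓝 (V m (N m))) := by
      refine tendsto_const_nhds.congr' ?_
      filter_upwards [eventually_ge_atTop (N m)] with l hl
      rw [min_eq_right hl]
    have h3 := dist_le_of_le_geometric_of_tendsto θ C2 hθ1 h1 h2 i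
    rwa [min_eq_left hi] at h3
  refine ⟨L, ?_, hL⟩
  rw [Metric.tendsto_atTop']
  intro ε hε
  have ht : Tendsto (fun i : ℕ => C2 * θ ^ i / (1 - θ)) atTop (𝓝 0) := by
    have := ((tendsto_pow_atTop_nhds_zero_of_lt_one hθ hθ1).const_mul C2).div_const (1 - θ)
    simpa using this
  obtain ⟨i, hi⟩ := (ht.eventually (gt_mem_nhds (show (0 : ℝ) < ε / 4 by positivity))).exists
  have h4 : ∀ᶠ m in atTop, dist (V m i) (W i) < ε / 4 :=
    (hlim i).eventually (Metric.ball_mem_nhds _ (by positivity))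
  obtain ⟨m0, hm0⟩ := eventually_atTop.1 ((hVN.and h4).and (hN.eventually_ge_atTop i))
  refine ⟨m0, fun m hm => ?_⟩
  obtain ⟨⟨h5, h6⟩, h7⟩ := hm0 m hm.le
  have h8 := h5 i h7
  have h9 := hWL i
  have h10 : dist (V m (N m)) L ≤ dist (V m (N m)) (V m i) + dist (V m i) (W i) + dist (W i) L :=
    dist_triangle4 _ _ _ _
  rw [dist_comm (V m (N m)) (V m i)] at h10
  linarith

omit [FiniteDimensional ℝ E] in
theorem K12c1_bw_tendsto (D : ℕ → ℕ → E →L[ℝ] E) (D' : ℕ → E →L[ℝ] E)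
    (hlim : ∀ i, Tendsto (fun m => D m i) atTop (𝓝 (D' i))) (i : ℕ) :
    Tendsto (fun m => bw (D m) i) atTop (𝓝 (bw D' i)) := by
  induction i with
  | zero => exact tendsto_const_nhds
  | succ i ih => exact ih.mul (hlim i)

theorem K12c1_mulc_norm (z : ℂ) : ‖mulc z‖ ≤ ‖z‖ := ContinuousLinearMap.opNorm_mul_apply_le ℝ ℂ z

theorem K12c1_mulc_apply (z w : ℂ) : mulc z w = z * w := rfl

/-- Let `V m i = bw (D m) i ∘ ι ∘ mulc (u^(-i))`.  Since `A ι = ι u`: `V m (i+1) - V m i = bw (D m) i (D m i - A) ι mulc (u^(-(i+1)))`, of norm `≤ C2 θ^i`, `C2 = ‖ι‖ K C1` (`bw_bound`,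
`TP.pow_bound`) for `i < N m`.  For fixed `i`, `V m i` converges for `m → ∞` to the same expression for `D'`.  So `V m (N m)` converges, with
`V = lim_i` of the expressions for `D'`. -/
theorem bw_limit_iota {A : E →L[ℝ] E} {u : ℂ} {ι : ℂ →L[ℝ] E} {π : E →L[ℝ] ℂ} {C τ : ℝ}
    (h : TP A 1 u ι π C τ) {K θ : ℝ} (hK : 0 ≤ K) (hθ : 0 ≤ θ) (hθ1 : θ < 1)
    (D : ℕ → ℕ → E →L[ℝ] E) (D' : ℕ → E →L[ℝ] E) (N : ℕ → ℕ) (hN : Tendsto N atTop atTop)
    (hD : ∀ᶠ m in atTop, ∀ i < N m, ‖D m i - A‖ ≤ K * θ ^ i)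
    (hlim : ∀ i, Tendsto (fun m => D m i) atTop (𝓝 (D' i))) :
    ∃ V : ℂ →L[ℝ] E, Tendsto (fun m => bw (D m) (N m) ∘L ι ∘L mulc ((u ^ (N m))⁻¹)) atTop (𝓝 V) ∧
      Tendsto (fun i => bw D' i ∘L ι ∘L mulc ((u ^ i)⁻¹)) atTop (𝓝 V) := by
  have hcs : CompleteSpace E := FiniteDimensional.complete ℝ E
  obtain ⟨C1, hC1, hbd⟩ := bw_bound (A := A) h.pow_bound hK hθ hθ1
  have hu : u ≠ 0 := by
    intro hu
    have := h.nrm
    rw [hu, norm_zero] at this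
    exact zero_ne_one this
  have hun : ∀ i : ℕ, ‖(u ^ i)⁻¹‖ = 1 := by
    intro i
    rw [norm_inv, norm_pow, h.nrm, one_pow, inv_one]
  refine K12c1_abs (C2 := C1 * K * ‖ι‖) (by positivity) hθ hθ1
    (fun m i => bw (D m) i ∘L ι ∘L mulc ((u ^ i)⁻¹))
    (fun i => bw D' i ∘L ι ∘L mulc ((u ^ i)⁻¹)) N hN ?_ ?_
  · filter_upwards [hD] with m hm i hi
    have e : bw (D m) (i + 1) ∘L ι ∘L mulc ((u ^ (i + 1))⁻¹) - bw (D m) i ∘L ι ∘L mulc ((u ^ i)⁻¹) =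
        bw (D m) i ∘L ((D m i - A) ∘L (ι ∘L mulc ((u ^ (i + 1))⁻¹))) := by
      ext w
      have e1 : A (ι ((u ^ (i + 1))⁻¹ * w)) = ι ((u ^ i)⁻¹ * w) := by
        have e2 : u * ((u ^ (i + 1))⁻¹ * w) = (u ^ i)⁻¹ * w := by
          rw [pow_succ', mul_inv, ← mul_assoc, ← mul_assoc, mul_inv_cancel₀ hu, one_mul]
        rw [h.Ai, e2]
      simp only [bw, ContinuousLinearMap.comp_apply, sub_apply,
        K12c1_mulc_apply, map_sub, e1]
    rw [dist_comm, dist_eq_norm, e]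
    have h1 : ‖bw (D m) i‖ ≤ C1 := hbd (D m) (N m) hm i hi.le
    have h2 : ‖D m i - A‖ ≤ K * θ ^ i := hm i hi
    have h3 : ‖ι ∘L mulc ((u ^ (i + 1))⁻¹)‖ ≤ ‖ι‖ := by
      calc ‖ι ∘L mulc ((u ^ (i + 1))⁻¹)‖ ≤ ‖ι‖ * ‖mulc ((u ^ (i + 1))⁻¹)‖ :=
            ContinuousLinearMap.opNorm_comp_le _ _
        _ ≤ ‖ι‖ * 1 := by
            refine mul_le_mul_of_nonneg_left ?_ (norm_nonneg _)
            exact (K12c1_mulc_norm _).trans (hun _).le
        _ = ‖ι‖ := mul_one _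
    calc ‖bw (D m) i ∘L ((D m i - A) ∘L (ι ∘L mulc ((u ^ (i + 1))⁻¹)))‖
        ≤ ‖bw (D m) i‖ * ‖(D m i - A) ∘L (ι ∘L mulc ((u ^ (i + 1))⁻¹))‖ :=
          ContinuousLinearMap.opNorm_comp_le _ _
      _ ≤ ‖bw (D m) i‖ * (‖D m i - A‖ * ‖ι ∘L mulc ((u ^ (i + 1))⁻¹)‖) :=
          mul_le_mul_of_nonneg_left (ContinuousLinearMap.opNorm_comp_le _ _) (norm_nonneg _)
      _ ≤ C1 * ((K * θ ^ i) * ‖ι‖) := by
          refine mul_le_mul h1 (mul_le_mul h2 h3 (norm_nonneg _) (by positivity)) (by positivity) hC1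
      _ = C1 * K * ‖ι‖ * θ ^ i := by ring
  · intro i
    have h1 := K12c1_bw_tendsto D D' hlim i
    have h2 : Continuous (fun T : E →L[ℝ] E => T ∘L (ι ∘L mulc ((u ^ i)⁻¹))) :=
      ((ContinuousLinearMap.compL ℝ ℂ E E).flip (ι ∘L mulc ((u ^ i)⁻¹))).continuous
    exact (h2.tendsto _).comp h1

end

end KT

end FB
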