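import Pool.Agent.H.MP_fb873c_an.K12b4
import Pool.Agent.H.MP_fb873c_an.K12c3

/-!
# Part K12d: asymptotics of the products along the closed orbits
-/

namespace FB

namespace KT

open scoped Topology
open Filter

theorem K12d_mulc_apply (a w : ℂ) : mulc a w = a * w := rfl

theorem K12d_norm_mulc_comp {E : Type*} [NormedAddCommGroup E] [NormedSpace ℝ E] {a : ℂ}
    (ha : ‖a‖ = 1) (Z : E →L[ℝ] ℂ) : ‖mulc a ∘L Z‖ ≤ ‖Z‖ := by
  refine ContinuousLinearMap.opNorm_le_bound _ (norm_nonneg _) fun v => ?_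
  rw [ContinuousLinearMap.comp_apply, K12d_mulc_apply, norm_mul, ha, one_mul]
  exact Z.le_opNorm v

theorem K12d_fw_smul {E : Type*} [NormedAddCommGroup E] [NormedSpace ℝ E] (c : ℝ)
    (D : ℕ → E →L[ℝ] E) (N : ℕ) : fw (fun i => c • D i) N = c ^ N • fw D N := by
  induction N with
  | zero => simp [fw]
  | succ N ih =>
    show (c • D N) ∘L fw (fun i => c • D i) N = c ^ (N + 1) • (D N ∘L fw D N)
    rw [ih, ContinuousLinearMap.smul_comp, ContinuousLinearMap.comp_smul, smul_smul, ← pow_succ']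

theorem K12d_bw_smul {E : Type*} [NormedAddCommGroup E] [NormedSpace ℝ E] (c : ℝ)
    (D : ℕ → E →L[ℝ] E) (N : ℕ) : bw (fun i => c • D i) N = c ^ N • bw D N := by
  induction N with
  | zero => simp [bw]
  | succ N ih =>
    show bw (fun i => c • D i) N ∘L (c • D N) = c ^ (N + 1) • (bw D N ∘L D N)
    rw [ih, ContinuousLinearMap.smul_comp, ContinuousLinearMap.comp_smul, smul_smul, pow_succ]

theorem K12d_pow_smul {E : Type*} [NormedAddCommGroup E] [NormedSpace ℝ E] (c : ℝ)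
    (A : E →L[ℝ] E) (j : ℕ) (v : E) : ((c • A) ^ j) v = c ^ j • (A ^ j) v := by
  rw [smul_pow]
  rfl

theorem K12d_scale {E : Type*} [NormedAddCommGroup E] [NormedSpace ℝ E] {A : E →L[ℝ] E} {ρ : ℝ}
    {lam : ℂ} {ι : ℂ →L[ℝ] E} {π : E →L[ℝ] ℂ} {C τ : ℝ} (h : TP A ρ lam ι π C τ) :
    TP (ρ⁻¹ • A) 1 (lam / ρ) ι π C τ where
  pos := one_pos
  nrm := by
    rw [norm_div, h.nrm, Complex.norm_real, Real.norm_of_nonneg h.pos.le]
    exact div_self h.pos.ne'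
  tau0 := h.tau0
  tau1 := h.tau1
  C0 := h.C0
  pi := h.pi
  Ai w := by
    rw [ContinuousLinearMap.smul_apply, h.Ai, ← map_smul]
    congr 1
    rw [Complex.real_smul, Complex.ofReal_inv]
    ring
  pA v := by
    rw [ContinuousLinearMap.smul_apply, map_smul, h.pA, Complex.real_smul, Complex.ofReal_inv]
    ring
  bd j v := by
    rw [K12d_pow_smul, norm_smul, norm_pow, norm_inv, Real.norm_of_nonneg h.pos.le]
    have h1 := h.bd j v
    have hp := h.pos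
    calc ρ⁻¹ ^ j * ‖(A ^ j) (v - ι (π v))‖ ≤ ρ⁻¹ ^ j * (C * (τ * ρ) ^ j * ‖v‖) :=
          mul_le_mul_of_nonneg_left h1 (by positivity)
      _ = C * (τ * 1) ^ j * ‖v‖ := by
          rw [mul_one, mul_pow, inv_pow]
          field_simp

section

variable {E : Type*} [NormedAddCommGroup E] [NormedSpace ℝ E] [FiniteDimensional ℝ E]

/-- The case `ρ = 1`.  `fw_limit` with `D m i := D m (i : ℤ)`, `N m = m + 1`, and `bw_limit` with `D m (-(i+1))`, `N m = m` (`θ = exp (-κ)`, `K' = K`; `|i| ≤ m`, `|-(i+1)| ≤ m`).  With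
`F = fw`, `B = bw`: `B F - V mulc (u^(2m+1)) Z = B (F - ι mulc (u^(m+1)) Z) + (B ι - V mulc (u^m)) mulc (u^(m+1)) Z`, `‖B‖` bounded (`bw_bound`), `‖mulc (u^(m+1))‖ = 1`. -/
theorem product_limit_one {A : E →L[ℝ] E} {u : ℂ} {ι : ℂ →L[ℝ] E} {π : E →L[ℝ] ℂ} {C τ : ℝ}
    (h : TP A 1 u ι π C τ) {K κ : ℝ} (hK : 0 ≤ K) (hκ : 0 < κ)
    (D : ℕ → ℤ → E →L[ℝ] E) (D' : ℤ → E →L[ℝ] E)
    (hD : ∀ᶠ m : ℕ in atTop, ∀ j : ℤ, |j| ≤ m →
      ‖D m j - A‖ ≤ K * Real.exp (-(κ * ((|j| : ℤ) : ℝ))))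
    (hlim : ∀ j, Tendsto (fun m => D m j) atTop (𝓝 (D' j)))
    (hinj : ∀ j, Function.Injective (D' j)) :
    ∃ (V : ℂ →L[ℝ] E) (Z : E →L[ℝ] ℂ), Function.Injective V ∧ Function.Surjective Z ∧
      Tendsto (fun m : ℕ => bw (fun i : ℕ => D m (-((i : ℤ) + 1))) m ∘L
        fw (fun i : ℕ => D m (i : ℤ)) (m + 1) - V ∘L mulc (u ^ (2 * m + 1)) ∘L Z) atTop (𝓝 0) := by
  have hθ : 0 ≤ Real.exp (-κ) := (Real.exp_pos _).le
  have hθ1 : Real.exp (-κ) < 1 := Real.exp_lt_one_iff.mpr (by linarith)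
  have hpow : ∀ i : ℕ, Real.exp (-κ) ^ i = Real.exp (-(κ * (i : ℝ))) := by
    intro i
    rw [← Real.exp_nat_mul]
    congr 1
    ring
  obtain ⟨Z, hZs, hZ⟩ := fw_limit h hK hθ hθ1 (fun m i => D m (i : ℤ)) (fun i => D' (i : ℤ))
    (fun m => m + 1) (tendsto_add_atTop_nat 1) (by
      filter_upwards [hD] with m hm i hi
      have h1 := hm (i : ℤ) (by rw [abs_of_nonneg (by positivity)]; omega)
      rw [hpow]
      rw [abs_of_nonneg (by positivity : (0 : ℤ) ≤ (i : ℤ))] at h1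
      exact_mod_cast h1)
    (fun i => hlim _) (fun i => hinj _)
  have hD2 : ∀ᶠ m : ℕ in atTop, ∀ i < m,
      ‖D m (-((i : ℤ) + 1)) - A‖ ≤ K * Real.exp (-κ) ^ i := by
    filter_upwards [hD] with m hm i hi
    have habs : |(-((i : ℤ) + 1))| = (i : ℤ) + 1 := by
      rw [abs_neg, abs_of_nonneg (by positivity)]
    have h1 := hm (-((i : ℤ) + 1)) (by rw [habs]; omega)
    rw [habs] at h1
    rw [hpow]
    refine h1.trans (mul_le_mul_of_nonneg_left (Real.exp_le_exp.mpr ?_) hK)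
    push_cast
    nlinarith
  obtain ⟨V, hVi, hV⟩ := bw_limit h hK hθ hθ1 (fun m i => D m (-((i : ℤ) + 1)))
    (fun i => D' (-((i : ℤ) + 1))) (fun m => m) tendsto_id hD2 (fun i => hlim _)
    (fun i => hinj _)
  obtain ⟨C1, hC1, hbw⟩ := bw_bound (C0 := C + ‖ι‖ * ‖π‖) h.pow_bound hK hθ hθ1
  refine ⟨V, Z, hVi, hZs, ?_⟩
  have hu : ∀ k : ℕ, ‖u ^ k‖ = 1 := fun k => by rw [norm_pow, h.nrm, one_pow]
  have hz1 := tendsto_zero_iff_norm_tendsto_zero.mp hZ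
  have hv1 := tendsto_zero_iff_norm_tendsto_zero.mp hV
  have hlim0 : Tendsto (fun m : ℕ =>
      C1 * ‖fw (fun i : ℕ => D m (i : ℤ)) (m + 1) - ι ∘L mulc (u ^ (m + 1)) ∘L Z‖
      + ‖bw (fun i : ℕ => D m (-((i : ℤ) + 1))) m ∘L ι - V ∘L mulc (u ^ m)‖ * ‖Z‖)
      atTop (𝓝 0) := by
    have := (hz1.const_mul C1).add (hv1.mul_const ‖Z‖)
    simpa using this
  rw [tendsto_zero_iff_norm_tendsto_zero]
  refine squeeze_zero' (Eventually.of_forall fun m => norm_nonneg _) ?_ hlim0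
  filter_upwards [hD2] with m hm
  have hB : ‖bw (fun i : ℕ => D m (-((i : ℤ) + 1))) m‖ ≤ C1 :=
    hbw (fun i : ℕ => D m (-((i : ℤ) + 1))) m hm m le_rfl
  have hsplit : bw (fun i : ℕ => D m (-((i : ℤ) + 1))) m ∘L
      fw (fun i : ℕ => D m (i : ℤ)) (m + 1) - V ∘L mulc (u ^ (2 * m + 1)) ∘L Z
      = bw (fun i : ℕ => D m (-((i : ℤ) + 1))) m ∘L
          (fw (fun i : ℕ => D m (i : ℤ)) (m + 1) - ι ∘L mulc (u ^ (m + 1)) ∘L Z)
        + (bw (fun i : ℕ => D m (-((i : ℤ) + 1))) m ∘L ι - V ∘L mulc (u ^ m)) ∘L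
          (mulc (u ^ (m + 1)) ∘L Z) := by
    ext v
    simp only [ContinuousLinearMap.sub_apply, ContinuousLinearMap.add_apply,
      ContinuousLinearMap.comp_apply, map_sub, K12d_mulc_apply]
    have h3 : u ^ (2 * m + 1) * Z v = u ^ m * (u ^ (m + 1) * Z v) := by
      rw [← mul_assoc, ← pow_add]
      congr 2
      ring
    rw [h3]
    abel
  rw [hsplit]
  refine (norm_add_le _ _).trans (add_le_add ?_ ?_)
  · exact (ContinuousLinearMap.opNorm_comp_le _ _).trans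
      (mul_le_mul_of_nonneg_right hB (norm_nonneg _))
  · exact (ContinuousLinearMap.opNorm_comp_le _ _).trans
      (mul_le_mul_of_nonneg_left (K12d_norm_mulc_comp (hu _) Z) (norm_nonneg _))

/-- `product_limit_one` for `ρ⁻¹ • A`, `ρ⁻¹ • D m j`, `u = lam / ρ`: `TP (ρ⁻¹ • A) 1 (lam / ρ) ι π C τ` and `fw (fun i => ρ⁻¹ • D i) N = (ρ^N)⁻¹ • fw D N`. -/
theorem product_limit {A : E →L[ℝ] E} {ρ : ℝ} {lam : ℂ} {ι : ℂ →L[ℝ] E} {π : E →L[ℝ] ℂ} {C τ : ℝ}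
    (h : TP A ρ lam ι π C τ) {K κ : ℝ} (hK : 0 ≤ K) (hκ : 0 < κ)
    (D : ℕ → ℤ → E →L[ℝ] E) (D' : ℤ → E →L[ℝ] E)
    (hD : ∀ᶠ m : ℕ in atTop, ∀ j : ℤ, |j| ≤ m →
      ‖D m j - A‖ ≤ K * Real.exp (-(κ * ((|j| : ℤ) : ℝ))))
    (hlim : ∀ j, Tendsto (fun m => D m j) atTop (𝓝 (D' j)))
    (hinj : ∀ j, Function.Injective (D' j)) :
    ∃ (V : ℂ →L[ℝ] E) (Z : E →L[ℝ] ℂ), Function.Injective V ∧ Function.Surjective Z ∧
      Tendsto (fun m : ℕ => (ρ ^ (2 * m + 1))⁻¹ • (bw (fun i : ℕ => D m (-((i : ℤ) + 1))) m ∘L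
        fw (fun i : ℕ => D m (i : ℤ)) (m + 1)) - V ∘L mulc ((lam / ρ) ^ (2 * m + 1)) ∘L Z)
        atTop (𝓝 0) := by
  have hp := h.pos
  obtain ⟨V, Z, hV, hZ, hlim1⟩ := product_limit_one (K12d_scale h) (K := ρ⁻¹ * K) (κ := κ)
    (by positivity) hκ (fun m j => ρ⁻¹ • D m j) (fun j => ρ⁻¹ • D' j)
    (by
      filter_upwards [hD] with m hm j hj
      rw [← smul_sub, norm_smul, norm_inv, Real.norm_of_nonneg hp.le, mul_assoc]
      exact mul_le_mul_of_nonneg_left (hm j hj) (by positivity))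
    (fun j => (hlim j).const_smul _)
    (fun j v w hvw => hinj j (by
      have h1 : ρ⁻¹ • D' j v = ρ⁻¹ • D' j w := hvw
      exact smul_right_injective E (inv_ne_zero hp.ne') h1))
  refine ⟨V, Z, hV, hZ, ?_⟩
  refine hlim1.congr fun m => ?_
  rw [K12d_bw_smul, K12d_fw_smul, ContinuousLinearMap.smul_comp, ContinuousLinearMap.comp_smul,
    smul_smul, ← pow_add, inv_pow]
  congr 4
  ring

end

end KT

end FB
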