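import Pool.Agent.H.MP_fb873c_an.S0

/-!
# Part K13b: the leading eigenvalues of a linear map without real eigenvalues (pow_bound)
-/


namespace FB

namespace KT

open scoped Topology
open Filter Polynomial

section

variable {n : ℕ}

/-- From Gelfand's formula in a complex Banach algebra. -/
theorem K13b3_gelfand {R : Type*} [NormedRing R] [NormedAlgebra ℂ R] [CompleteSpace R]
    (a : R) {ρ0 σ : ℝ} (h : ∀ l ∈ spectrum ℂ a, ‖l‖ ≤ ρ0) (hσ : ρ0 < σ) (hpos : 0 < σ) :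
    ∃ C : ℝ, 0 ≤ C ∧ ∀ j : ℕ, ‖a ^ j‖ ≤ C * σ ^ j := by
  have hr : spectralRadius ℂ a < ENNReal.ofReal σ := by
    refine lt_of_le_of_lt ?_ ((ENNReal.ofReal_lt_ofReal_iff hpos).2 hσ)
    refine iSup₂_le fun l hl => ?_
    have h1 : (‖l‖₊ : ENNReal) = ENNReal.ofReal ‖l‖ := by
      rw [← coe_nnnorm, ENNReal.ofReal_coe_nnreal]
    rw [h1]
    exact ENNReal.ofReal_le_ofReal (h l hl)
  have ht := spectrum.pow_norm_pow_one_div_tendsto_nhds_spectralRadius a
  have hev := (tendsto_order.1 ht).2 _ hr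
  obtain ⟨N, hN⟩ := (hev.and (eventually_ge_atTop 1)).exists_forall_of_atTop
  have hbig : ∀ j, N ≤ j → ‖a ^ j‖ ≤ σ ^ j := by
    intro j hj
    obtain ⟨h1, h2⟩ := hN j hj
    have h3 : ‖a ^ j‖ ^ (1 / (j : ℝ)) < σ := (ENNReal.ofReal_lt_ofReal_iff hpos).1 h1
    have h4 : (‖a ^ j‖ ^ (1 / (j : ℝ))) ^ j = ‖a ^ j‖ := by
      rw [← Real.rpow_natCast, ← Real.rpow_mul (norm_nonneg _), one_div,
        inv_mul_cancel₀ (by exact_mod_cast (by omega : j ≠ 0)), Real.rpow_one]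
    rw [← h4]
    exact pow_le_pow_left₀ (Real.rpow_nonneg (norm_nonneg _) _) h3.le j
  refine ⟨1 + ∑ i ∈ Finset.range N, ‖a ^ i‖ / σ ^ i, ?_, ?_⟩
  · have : 0 ≤ ∑ i ∈ Finset.range N, ‖a ^ i‖ / σ ^ i :=
      Finset.sum_nonneg fun i _ => div_nonneg (norm_nonneg _) (pow_nonneg hpos.le _)
    linarith
  · intro j
    have hs : 0 ≤ ∑ i ∈ Finset.range N, ‖a ^ i‖ / σ ^ i :=
      Finset.sum_nonneg fun i _ => div_nonneg (norm_nonneg _) (pow_nonneg hpos.le _)
    have hp : 0 < σ ^ j := pow_pos hpos j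
    rcases le_or_gt N j with hj | hj
    · have := hbig j hj
      nlinarith [mul_nonneg hs hp.le]
    · have h1 : ‖a ^ j‖ / σ ^ j ≤ ∑ i ∈ Finset.range N, ‖a ^ i‖ / σ ^ i :=
        Finset.single_le_sum (f := fun i => ‖a ^ i‖ / σ ^ i)
          (fun i _ => div_nonneg (norm_nonneg _) (pow_nonneg hpos.le _)) (Finset.mem_range.2 hj)
      have h2 : ‖a ^ j‖ = ‖a ^ j‖ / σ ^ j * σ ^ j := by field_simp
      nlinarith

/-- A linear map from a finite dimensional normed space is bounded. -/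
theorem K13b3_bound {E F : Type*} [NormedAddCommGroup E] [NormedSpace ℝ E] [FiniteDimensional ℝ E]
    [NormedAddCommGroup F] [NormedSpace ℝ F] (L : E →ₗ[ℝ] F) :
    ∃ K : ℝ, 0 ≤ K ∧ ∀ x, ‖L x‖ ≤ K * ‖x‖ :=
  ⟨‖LinearMap.toContinuousLinearMap L‖, norm_nonneg _,
    fun x => (LinearMap.toContinuousLinearMap L).le_opNorm x⟩

attribute [local instance] Matrix.linftyOpNormedAddCommGroup Matrix.linftyOpNormedSpace
  Matrix.linftyOpNormedRing Matrix.linftyOpNormedAlgebra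

/-- Gelfand's formula for the complex matrix of `A` (the characteristic polynomial of the matrix is the one of `A`; its spectrum consists of the roots, all of norm `≤ ρ0`, so the spectral radius is `≤ ρ0 < σ`):
`spectrum.pow_nnnorm_pow_one_div_tendsto_nhds_spectralRadius` for the complex Banach algebra of `n × n` matrices with an operator norm (or for `EuclideanSpace ℂ (Fin n) →L[ℂ] EuclideanSpace ℂ (Fin n)`);
so `‖A^j‖ ≤ σ^j` for large `j`.  (All norms on matrices are equivalent.) -/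
theorem pow_bound {A : Er n →L[ℝ] Er n} {ρ0 σ : ℝ}
    (h : ∀ l' : ℂ, ((LinearMap.charpoly A.toLinearMap).map (algebraMap ℝ ℂ)).IsRoot l' → ‖l'‖ ≤ ρ0)
    (hσ : ρ0 < σ) : ∃ C : ℝ, 0 ≤ C ∧ ∀ j : ℕ, ‖A ^ j‖ ≤ C * σ ^ j := by
  classical
  rcases Nat.eq_zero_or_pos n with hn | hn
  · subst hn
    refine ⟨0, le_refl _, fun j => ?_⟩
    have : A ^ j = 0 := by
      ext v i
      exact i.elim0
    simp [this]
  -- the matrices
  set b := (EuclideanSpace.basisFun (Fin n) ℝ).toBasis with hb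
  set M : Matrix (Fin n) (Fin n) ℝ := LinearMap.toMatrix b b A.toLinearMap with hM
  set Mc : Matrix (Fin n) (Fin n) ℂ := M.map (algebraMap ℝ ℂ) with hMc
  have hchar : Mc.charpoly = (LinearMap.charpoly A.toLinearMap).map (algebraMap ℝ ℂ) := by
    rw [hMc, Matrix.charpoly_map, hM, LinearMap.charpoly_toMatrix]
  have hspec : ∀ l ∈ spectrum ℂ Mc, ‖l‖ ≤ ρ0 := by
    intro l hl
    apply h
    rw [← hchar]
    exact Matrix.mem_spectrum_iff_isRoot_charpoly.1 hl
  have hpos : 0 < σ := by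
    have hdeg : Mc.charpoly.degree ≠ 0 := by
      rw [Matrix.charpoly_degree_eq_dim]
      simp only [Fintype.card_fin]
      exact_mod_cast hn.ne'
    obtain ⟨l, hl⟩ := IsAlgClosed.exists_root Mc.charpoly hdeg
    have := h l (hchar ▸ hl)
    have := norm_nonneg l
    linarith
  obtain ⟨C, hC0, hC⟩ := K13b3_gelfand Mc hspec hσ hpos
  -- the real linear map from complex matrices to operators
  let L : Matrix (Fin n) (Fin n) ℂ →ₗ[ℝ] (Er n →L[ℝ] Er n) :=
    (LinearMap.toContinuousLinearMap : (Er n →ₗ[ℝ] Er n) ≃ₗ[ℝ] (Er n →L[ℝ] Er n)).toLinearMap ∘ₗ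
      (Matrix.toLin b b).toLinearMap ∘ₗ LinearMap.mapMatrix Complex.reLm
  have hL : ∀ j : ℕ, L (Mc ^ j) = A ^ j := by
    intro j
    have h1 : Mc ^ j = (M ^ j).map (algebraMap ℝ ℂ) := by
      rw [hMc]
      exact ((algebraMap ℝ ℂ).mapMatrix.map_pow M j).symm
    have h2 : (LinearMap.mapMatrix Complex.reLm) (Mc ^ j) = M ^ j := by
      rw [h1]
      ext i k
      simp [LinearMap.mapMatrix]
    have h3 : M ^ j = LinearMap.toMatrix b b (A.toLinearMap ^ j) := by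
      rw [hM, LinearMap.toMatrix_pow]
    apply ContinuousLinearMap.coe_injective
    have h4 : ((L (Mc ^ j) : Er n →L[ℝ] Er n) : Er n →ₗ[ℝ] Er n) = Matrix.toLin b b (M ^ j) := by
      change ((LinearMap.toContinuousLinearMap (Matrix.toLin b b
        ((LinearMap.mapMatrix Complex.reLm) (Mc ^ j))) : Er n →L[ℝ] Er n) : Er n →ₗ[ℝ] Er n) = _
      rw [h2]
      rfl
    rw [h4, h3, Matrix.toLin_toMatrix]
    exact (ContinuousLinearMap.toLinearMap_pow A j).symm
  obtain ⟨K, hK0, hK⟩ := K13b3_bound L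
  refine ⟨K * C, mul_nonneg hK0 hC0, fun j => ?_⟩
  calc ‖A ^ j‖ = ‖L (Mc ^ j)‖ := by rw [← hL j]
    _ ≤ K * ‖Mc ^ j‖ := hK _
    _ ≤ K * (C * σ ^ j) := mul_le_mul_of_nonneg_left (hC j) hK0
    _ = K * C * σ ^ j := by ring

end

end KT

end FB
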