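import Pool.Agent.H.MP_fb873c_an.K00

/-!
# Part K13c: a perturbation with a strictly dominating pair of eigenvalues
-/

namespace FB

namespace KT

open scoped Topology
open Filter

section

variable {E : Type*} [NormedAddCommGroup E] [NormedSpace ℝ E] [FiniteDimensional ℝ E]

/-- Let `K = ι ∘ mulc a ∘ π0`, `A' = A ∘ (1 + K)`, `lam = l (1 + a)`, `P = 1 - ι π0`, `B = P A`.
(1) `A' ι = ι lam`: `(1 + K) ι z = ι ((1 + a) z)`.
(2) `P ι = 0`, `P A ι = P ι l = 0`, so `P A P = P A = B`, `P A' = P A + P A K = B`, `B P = B`; by induction `B^(j+1) = P A^(j+1)` (`B^(j+1) = P A P A^j = P A A^j`), so `‖B^j‖ ≤ C1 σ^j`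
(`C1 = max 1 (‖P‖ C0)`).
(3) `π0 A' = π0 A + π0 A K = π0 A + l a π0` and `π0 A = π0 A (ι π0 + P) = l π0 + π0 A P`, so `π0 A' = lam π0 + π0 A P`.
(4) `X = ∑_{i ≥ 0} mulc (lam^(-(i+1))) ∘ π0 ∘ A ∘ P ∘ B^i` converges absolutely as `σ < ‖lam‖`, and `X B = lam X P - π0 A P` (here `B^i P = B^i` for `i ≥ 1`; use `X P`).
(5) `π := π0 + X P`: `π ι = id`; `π A' = lam π0 + π0 A P + X P A' = lam π0 + π0 A P + X B = lam π0 + lam X P = lam π`.
(6) For `v` let `y = A'^j (v - ι π v)`: `π y = lam^j π (v - ι π v) = 0`, so `π0 y = - X P y` and `y = ι π0 y + P y = P y - ι X P y`, and `P y = P A'^j (..) = B^j P (v - ι π v)` (from `P A' = B = B P`), so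
`‖y‖ ≤ (1 + ‖ι‖ ‖X‖) C1 σ^j ‖P‖ (1 + ‖ι‖ ‖π‖) ‖v‖`; `τ = σ / ‖lam‖`, `ρ = ‖lam‖`. -/
theorem exists_TP {A : E →L[ℝ] E} {l a : ℂ} {ι : ℂ →L[ℝ] E} {π0 : E →L[ℝ] ℂ}
    (hA : ∀ z, A (ι z) = ι (l * z)) (hπ : ∀ z, π0 (ι z) = z) {C0 σ : ℝ} (hC0 : 0 ≤ C0) (hσ0 : 0 < σ)
    (hσ : σ < ‖l * (1 + a)‖) (hpow : ∀ j : ℕ, ‖A ^ j‖ ≤ C0 * σ ^ j) :
    ∃ (π : E →L[ℝ] ℂ) (C τ : ℝ),
      TP (A ∘L (ContinuousLinearMap.id ℝ E + ι ∘L mulc a ∘L π0)) ‖l * (1 + a)‖ (l * (1 + a)) ι π C τ := by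
  classical
  haveI : CompleteSpace E := FiniteDimensional.complete ℝ E
  obtain ⟨lam, hlam⟩ : ∃ lam : ℂ, lam = l * (1 + a) := ⟨_, rfl⟩
  rw [← hlam] at hσ ⊢
  have hl0 : 0 < ‖lam‖ := lt_trans hσ0 hσ
  have hlne : lam ≠ 0 := norm_pos_iff.1 hl0
  obtain ⟨P, hPdef⟩ : ∃ P : E →L[ℝ] E, ∀ v, P v = v - ι (π0 v) :=
    ⟨ContinuousLinearMap.id ℝ E - ι ∘L π0, fun v => rfl⟩
  obtain ⟨B, hBdef⟩ : ∃ B : E →L[ℝ] E, ∀ v, B v = P (A v) := ⟨P ∘L A, fun v => rfl⟩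
  have hPι : ∀ z, P (ι z) = 0 := by
    intro z
    rw [hPdef, hπ, sub_self]
  have hPP : ∀ v, P (P v) = P v := by
    intro v
    conv_lhs => rw [hPdef v, map_sub, hPι, sub_zero]
  have hBP : ∀ v, B (P v) = B v := by
    intro v
    rw [hBdef, hBdef, hPdef v, map_sub, map_sub, hA, hPι, sub_zero]
  have hBpow : ∀ (j : ℕ) (v : E), (B ^ (j + 1)) v = P ((A ^ (j + 1)) v) := by
    intro j
    induction j with
    | zero =>
      intro v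
      simp only [zero_add, pow_one]
      exact hBdef v
    | succ j ih =>
      intro v
      rw [pow_succ' B (j + 1), pow_succ' A (j + 1)]
      change B ((B ^ (j + 1)) v) = P (A ((A ^ (j + 1)) v))
      rw [ih, hBP, hBdef]
  obtain ⟨C1, hC1⟩ : ∃ C1 : ℝ, C1 = max 1 (‖P‖ * C0) := ⟨_, rfl⟩
  have hC1pos : 0 ≤ C1 := by
    rw [hC1]
    exact le_trans zero_le_one (le_max_left _ _)
  have hBbd : ∀ (j : ℕ) (v : E), ‖(B ^ j) v‖ ≤ C1 * σ ^ j * ‖v‖ := by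
    intro j v
    cases j with
    | zero =>
      have h1 : (1 : ℝ) ≤ C1 := by
        rw [hC1]
        exact le_max_left _ _
      simp only [pow_zero, mul_one]
      change ‖v‖ ≤ C1 * ‖v‖
      nlinarith [norm_nonneg v]
    | succ j =>
      rw [hBpow]
      have h1 : ‖P ((A ^ (j + 1)) v)‖ ≤ ‖P‖ * ‖(A ^ (j + 1)) v‖ := P.le_opNorm _
      have h2 : ‖(A ^ (j + 1)) v‖ ≤ C0 * σ ^ (j + 1) * ‖v‖ :=
        le_trans ((A ^ (j + 1)).le_opNorm v) (mul_le_mul_of_nonneg_right (hpow _) (norm_nonneg _))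
      have h3 : ‖P‖ * C0 ≤ C1 := by
        rw [hC1]
        exact le_max_right _ _
      have h4 : 0 ≤ σ ^ (j + 1) * ‖v‖ := by positivity
      calc ‖P ((A ^ (j + 1)) v)‖ ≤ ‖P‖ * (C0 * σ ^ (j + 1) * ‖v‖) :=
            le_trans h1 (mul_le_mul_of_nonneg_left h2 (norm_nonneg _))
        _ = (‖P‖ * C0) * (σ ^ (j + 1) * ‖v‖) := by ring
        _ ≤ C1 * (σ ^ (j + 1) * ‖v‖) := mul_le_mul_of_nonneg_right h3 h4
        _ = C1 * σ ^ (j + 1) * ‖v‖ := by ring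
  obtain ⟨T, hT⟩ : ∃ T : ℕ → E →L[ℝ] ℂ, ∀ i v,
      T i v = (lam ^ (i + 1))⁻¹ * π0 (A (P ((B ^ i) v))) :=
    ⟨fun i => mulc ((lam ^ (i + 1))⁻¹) ∘L π0 ∘L A ∘L P ∘L (B ^ i), fun i v => rfl⟩
  have hTn : ∀ i, ‖T i‖ ≤ (‖lam‖⁻¹ * ‖π0‖ * ‖A‖ * ‖P‖ * C1) * (σ / ‖lam‖) ^ i := by
    intro i
    have h0 : 0 ≤ (‖lam‖⁻¹ * ‖π0‖ * ‖A‖ * ‖P‖ * C1) * (σ / ‖lam‖) ^ i := by positivity
    refine ContinuousLinearMap.opNorm_le_bound _ h0 ?_
    intro v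
    rw [hT, norm_mul, norm_inv, norm_pow]
    have h1 : ‖π0 (A (P ((B ^ i) v)))‖ ≤ ‖π0‖ * (‖A‖ * (‖P‖ * (C1 * σ ^ i * ‖v‖))) := by
      refine le_trans (π0.le_opNorm _) (mul_le_mul_of_nonneg_left ?_ (norm_nonneg _))
      refine le_trans (A.le_opNorm _) (mul_le_mul_of_nonneg_left ?_ (norm_nonneg _))
      refine le_trans (P.le_opNorm _) (mul_le_mul_of_nonneg_left ?_ (norm_nonneg _))
      exact hBbd i v
    have h2 : 0 ≤ (‖lam‖ ^ (i + 1))⁻¹ := by positivity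
    refine le_trans (mul_le_mul_of_nonneg_left h1 h2) (le_of_eq ?_)
    rw [div_pow, pow_succ, mul_inv]
    field_simp
  have hτ0 : 0 < σ / ‖lam‖ := div_pos hσ0 hl0
  have hτ1 : σ / ‖lam‖ < 1 := (div_lt_one hl0).2 hσ
  have hsum : Summable T := by
    refine Summable.of_norm_bounded ?_ hTn
    exact (summable_geometric_of_lt_one hτ0.le hτ1).mul_left _
  obtain ⟨X, hX⟩ : ∃ X : E →L[ℝ] ℂ, X = ∑' i, T i := ⟨_, rfl⟩
  have hsumv : ∀ v, Summable (fun i => T i v) := by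
    intro v
    exact (ContinuousLinearMap.apply ℝ ℂ v).summable hsum
  have hXv : ∀ v, X v = ∑' i, T i v := by
    intro v
    rw [hX]
    exact (ContinuousLinearMap.apply ℝ ℂ v).map_tsum hsum
  have hkey : ∀ v, lam * X (P v) = π0 (A (P v)) + X (B v) := by
    intro v
    rw [hXv, hXv, ← tsum_mul_left, ((hsumv (P v)).mul_left lam).tsum_eq_zero_add]
    congr 1
    · rw [hT]
      simp only [zero_add, pow_one, pow_zero]
      change lam * (lam⁻¹ * π0 (A (P (P v)))) = π0 (A (P v))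
      rw [hPP, ← mul_assoc, mul_inv_cancel₀ hlne, one_mul]
    · refine tsum_congr ?_
      intro i
      rw [hT, hT, pow_succ B i]
      change lam * ((lam ^ (i + 1 + 1))⁻¹ * π0 (A (P ((B ^ i) (B (P v)))))) = _
      rw [hBP, pow_succ lam (i + 1), mul_inv, ← mul_assoc]
      congr 1
      field_simp
  obtain ⟨π, hπdef⟩ : ∃ π : E →L[ℝ] ℂ, ∀ v, π v = π0 v + X (P v) := ⟨π0 + X ∘L P, fun v => rfl⟩
  obtain ⟨A', hA'⟩ : ∃ A' : E →L[ℝ] E,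
      A' = A ∘L (ContinuousLinearMap.id ℝ E + ι ∘L mulc a ∘L π0) := ⟨_, rfl⟩
  rw [← hA']
  have hA'v : ∀ v, A' v = A v + ι (l * (a * π0 v)) := by
    intro v
    rw [hA']
    change A (v + ι (a * π0 v)) = _
    rw [map_add, hA]
  have hπι : ∀ z, π (ι z) = z := by
    intro z
    rw [hπdef, hπ, hPι, map_zero, add_zero]
  have hAi : ∀ w, A' (ι w) = ι (lam * w) := by
    intro w
    rw [hA'v, hA, hπ, ← map_add, hlam]
    congr 1
    ring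
  have hPA' : ∀ v, P (A' v) = B v := by
    intro v
    rw [hA'v, map_add, hPι, add_zero, hBdef]
  have hpA : ∀ v, π (A' v) = lam * π v := by
    intro v
    rw [hπdef, hπdef, hPA', mul_add, hkey, hA'v, map_add, hπ]
    have h1 : π0 (A v) = π0 (A (P v)) + l * π0 v := by
      have h2 : v = P v + ι (π0 v) := by
        rw [hPdef, sub_add_cancel]
      conv_lhs => rw [h2]
      rw [map_add, map_add, hA, hπ]
    rw [h1, hlam]
    ring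
  obtain ⟨C, hC⟩ : ∃ C : ℝ, C = (1 + ‖ι‖ * ‖X‖) * C1 * ‖P‖ * (1 + ‖ι‖ * ‖π‖) := ⟨_, rfl⟩
  refine ⟨π, C, σ / ‖lam‖, ⟨hl0, rfl, hτ0, hτ1, ?_, hπι, hAi, hpA, ?_⟩⟩
  · rw [hC]
    positivity
  · intro j v
    obtain ⟨w, hw⟩ : ∃ w : E, w = v - ι (π v) := ⟨_, rfl⟩
    rw [← hw, div_mul_cancel₀ _ hl0.ne']
    have hπw : π w = 0 := by
      rw [hw, map_sub, hπι, sub_self]
    have hπj : ∀ j : ℕ, π ((A' ^ j) w) = 0 := by
      intro j
      induction j with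
      | zero => exact hπw
      | succ j ih =>
        rw [pow_succ' A' j]
        change π (A' ((A' ^ j) w)) = 0
        rw [hpA, ih, mul_zero]
    have hPj : ∀ j : ℕ, P ((A' ^ j) w) = (B ^ j) (P w) := by
      intro j
      induction j with
      | zero => rfl
      | succ j ih =>
        rw [pow_succ' A' j, pow_succ' B j]
        change P (A' ((A' ^ j) w)) = B ((B ^ j) (P w))
        rw [hPA', ← ih, hBP]
    obtain ⟨y, hy⟩ : ∃ y : E, y = (A' ^ j) w := ⟨_, rfl⟩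
    rw [← hy]
    have h1 : π0 y = - X (P y) := by
      have h2 := hπj j
      rw [← hy, hπdef] at h2
      exact eq_neg_of_add_eq_zero_left h2
    have h3 : y = P y - ι (X (P y)) := by
      have h4 : y = P y + ι (π0 y) := by
        rw [hPdef, sub_add_cancel]
      conv_lhs => rw [h4, h1, map_neg]
      rw [sub_eq_add_neg]
    have h5 : ‖P y‖ ≤ C1 * σ ^ j * (‖P‖ * ‖w‖) := by
      rw [hy, hPj]
      refine le_trans (hBbd j _) (mul_le_mul_of_nonneg_left (P.le_opNorm w) (by positivity))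
    have h6 : ‖w‖ ≤ (1 + ‖ι‖ * ‖π‖) * ‖v‖ := by
      rw [hw]
      refine le_trans (norm_sub_le _ _) ?_
      have h7 : ‖ι (π v)‖ ≤ ‖ι‖ * (‖π‖ * ‖v‖) :=
        le_trans (ι.le_opNorm _) (mul_le_mul_of_nonneg_left (π.le_opNorm v) (norm_nonneg _))
      nlinarith [h7]
    have h8 : ‖y‖ ≤ (1 + ‖ι‖ * ‖X‖) * ‖P y‖ := by
      conv_lhs => rw [h3]
      refine le_trans (norm_sub_le _ _) ?_
      have h9 : ‖ι (X (P y))‖ ≤ ‖ι‖ * (‖X‖ * ‖P y‖) :=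
        le_trans (ι.le_opNorm _) (mul_le_mul_of_nonneg_left (X.le_opNorm _) (norm_nonneg _))
      nlinarith [h9]
    have h10 : 0 ≤ 1 + ‖ι‖ * ‖X‖ := by positivity
    have h11 : 0 ≤ (1 + ‖ι‖ * ‖X‖) * C1 * ‖P‖ * σ ^ j := by positivity
    calc ‖y‖ ≤ (1 + ‖ι‖ * ‖X‖) * (C1 * σ ^ j * (‖P‖ * ‖w‖)) :=
          le_trans h8 (mul_le_mul_of_nonneg_left h5 h10)
      _ = ((1 + ‖ι‖ * ‖X‖) * C1 * ‖P‖ * σ ^ j) * ‖w‖ := by ring
      _ ≤ ((1 + ‖ι‖ * ‖X‖) * C1 * ‖P‖ * σ ^ j) * ((1 + ‖ι‖ * ‖π‖) * ‖v‖) :=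
          mul_le_mul_of_nonneg_left h6 h11
      _ = C * σ ^ j * ‖v‖ := by
          rw [hC]
          ring

end

end KT

end FB
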