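import Mathlib

/-!
# Part K13d: arguments which are not roots of unity (frequently_not_root)
-/


namespace FB

namespace KT

open scoped Topology
open Filter

section

theorem K13d1_inj {l : ℂ} (hl : l ≠ 0) {s t : ℝ} (hs : 0 < s) (ht : 0 < t)
    (h : l * (1 + (s : ℂ) * (1 + Complex.I)) /
        ((‖l * (1 + (s : ℂ) * (1 + Complex.I))‖ : ℝ) : ℂ) =
      l * (1 + (t : ℂ) * (1 + Complex.I)) /
        ((‖l * (1 + (t : ℂ) * (1 + Complex.I))‖ : ℝ) : ℂ)) : s = t := by
  have key : ∀ r : ℝ, 0 < r → l * (1 + (r : ℂ) * (1 + Complex.I)) ≠ 0 := by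
    intro r hr
    refine mul_ne_zero hl ?_
    intro h0
    have := congrArg Complex.im h0
    simp at this
    exact hr.ne' this
  have hns := norm_pos_iff.mpr (key s hs)
  have hnt := norm_pos_iff.mpr (key t ht)
  set a := ‖l * (1 + (s : ℂ) * (1 + Complex.I))‖ with ha
  set b := ‖l * (1 + (t : ℂ) * (1 + Complex.I))‖ with hb
  have hac : (a : ℂ) ≠ 0 := by exact_mod_cast hns.ne'
  have hbc : (b : ℂ) ≠ 0 := by exact_mod_cast hnt.ne'
  rw [div_eq_div_iff hac hbc] at h
  have h2 : (1 + (s : ℂ) * (1 + Complex.I)) * b = (1 + (t : ℂ) * (1 + Complex.I)) * a := by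
    apply mul_left_cancel₀ hl
    linear_combination h
  have him := congrArg Complex.im h2
  have hre := congrArg Complex.re h2
  simp at him hre
  have hab : a = b := by nlinarith
  rw [hab] at him
  exact mul_right_cancel₀ hnt.ne' him

/-- The numbers `s > 0` for which `(l (1 + s (1 + i)) / ‖·‖)^j = 1` for some `j > 0` form a countable set: the unit numbers `ζ` with `ζ^j = 1` for some `j > 0` are countably many, and the map
`s ↦ l (1 + s (1+i)) / ‖l (1 + s (1+i))‖` is injective on `s > 0` (if `1 + s (1+i) = t (1 + s' (1+i))` with `t > 0` real then `s = t s'` (imaginary parts) and `1 + s = t (1 + s')`, so `t = 1`).  The complement of a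
countable set is dense (`Set.Countable.dense_compl ℝ`), so it meets every interval `(0, ε)`. -/
theorem frequently_not_root (l : ℂ) (hl : l ≠ 0) :
    ∃ᶠ s : ℝ in 𝓝[>] (0 : ℝ), ∀ j : ℕ, 0 < j →
      (l * (1 + (s : ℂ) * (1 + Complex.I)) /
        ((‖l * (1 + (s : ℂ) * (1 + Complex.I))‖ : ℝ) : ℂ)) ^ j ≠ 1 := by
  classical
  set g : ℝ → ℂ := fun s => l * (1 + (s : ℂ) * (1 + Complex.I)) /
        ((‖l * (1 + (s : ℂ) * (1 + Complex.I))‖ : ℝ) : ℂ) with hg
  have hinj : Set.InjOn g (Set.Ioi 0) := fun s hs t ht h => K13d1_inj hl hs ht h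
  have hfin : ∀ j : ℕ, 0 < j → {z : ℂ | z ^ j = 1}.Finite := by
    intro j hj
    refine ((Polynomial.nthRoots j (1 : ℂ)).toFinset.finite_toSet).subset ?_
    intro z hz
    simp only [Finset.mem_coe, Multiset.mem_toFinset]
    exact (Polynomial.mem_nthRoots hj).mpr hz
  have hcount : (⋃ j : ℕ, {s : ℝ | 0 < s ∧ 0 < j ∧ g s ^ j = 1}).Countable := by
    refine Set.countable_iUnion fun j => ?_
    rcases Nat.eq_zero_or_pos j with rfl | hj
    · simp
    · refine Set.Finite.countable ?_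
      refine Set.Finite.of_finite_image (f := g) ((hfin j hj).subset ?_) ?_
      · rintro _ ⟨s, hs, rfl⟩
        exact hs.2.2
      · intro s hs t ht h
        exact hinj hs.1 ht.1 h
  rw [frequently_iff]
  intro U hU
  obtain ⟨u, hu, hsub⟩ := mem_nhdsGT_iff_exists_Ioo_subset.mp hU
  have hd := hcount.dense_compl ℝ
  obtain ⟨s, hs, hs2⟩ := hd.exists_mem_open (isOpen_Ioo (a := (0 : ℝ)) (b := u))
    (Set.nonempty_Ioo.mpr hu)
  refine ⟨s, hsub hs2, ?_⟩
  intro j hj h1
  apply hs
  exact Set.mem_iUnion.mpr ⟨j, hs2.1, hj, h1⟩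

end

end KT

end FB
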