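import Pool.Agent.H.MP_fb873c_an.K13a3
import Pool.Agent.H.MP_fb873c_an.K13b1
import Pool.Agent.H.MP_fb873c_an.K13b2
import Pool.Agent.H.MP_fb873c_an.K13b3
import Pool.Agent.H.MP_fb873c_an.K13c
import Pool.Agent.H.MP_fb873c_an.K13d1

/-!
# Part K13: the direction of the first perturbation
-/

namespace FB

namespace KT

open scoped Topology
open Filter

section

/-- Take a root `l` of maximal norm (`exists_max_root`), `l ≠ 0` as `A` is invertible.  If `l` is real: `eigen_of_root`, `simple_of_real_eigen`.  Otherwise `exists_plane` gives `ι`; `π0` is a left inverse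
(`LinearMap.exists_leftInverse_of_injective`, continuous in finite dimension); `K = ι ∘ mulc (1 + i) ∘ π0`, `s • K = ι ∘ mulc (s (1 + i)) ∘ π0`.  For `s > 0`, `‖l (1 + s (1+i))‖ > ‖l‖`; take `σ` in between,
`pow_bound` and `exists_TP` with `a = s (1 + i)`.  `frequently_not_root`. -/
theorem exists_direction {n : ℕ} (hn : 0 < n) (A : Er n ≃L[ℝ] Er n) :
    ∃ K : Er n →L[ℝ] Er n,
      (∀ᶠ s in 𝓝[>] (0 : ℝ),
        SimpleReal ((A : Er n →L[ℝ] Er n) ∘L (ContinuousLinearMap.id ℝ (Er n) + s • K))) ∨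
      ∃ᶠ s in 𝓝[>] (0 : ℝ), ∃ (ρ : ℝ) (lam : ℂ) (ι : ℂ →L[ℝ] Er n) (π : Er n →L[ℝ] ℂ) (C τ : ℝ),
        TP ((A : Er n →L[ℝ] Er n) ∘L (ContinuousLinearMap.id ℝ (Er n) + s • K)) ρ lam ι π C τ ∧
          ∀ j : ℕ, 0 < j → (lam / ρ) ^ j ≠ 1 := by
  obtain ⟨l, hl, hmax⟩ := exists_max_root hn (A : Er n →L[ℝ] Er n)
  have hinj : ∀ v : Er n, v ≠ 0 → A v ≠ 0 := by
    intro v hv h
    exact hv (A.injective (by rw [h, map_zero]))
  by_cases him : l.im = 0
  · obtain ⟨v, hv, hAv⟩ := eigen_of_root him hl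
    have hre : l.re ≠ 0 := by
      intro h
      rw [h, zero_smul] at hAv
      exact hinj v hv hAv
    obtain ⟨K, hK⟩ := simple_of_real_eigen hre hv hAv
    exact ⟨K, Or.inl hK⟩
  · have hl0 : l ≠ 0 := by
      intro h
      rw [h] at him
      exact him rfl
    obtain ⟨ι, hι, hAι⟩ := exists_plane him hl
    obtain ⟨g, hg⟩ := LinearMap.exists_leftInverse_of_injective (ι : ℂ →ₗ[ℝ] Er n)
      (LinearMap.ker_eq_bot.2 hι)
    have hg' : ∀ z, g (ι z) = z := fun z => congrArg (fun f : ℂ →ₗ[ℝ] ℂ => f z) hg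
    refine ⟨ι ∘L mulc (1 + Complex.I) ∘L LinearMap.toContinuousLinearMap g, Or.inr ?_⟩
    have hpos : ∀ᶠ s : ℝ in 𝓝[>] (0 : ℝ), 0 < s := self_mem_nhdsWithin
    refine ((frequently_not_root l hl0).and_eventually hpos).mono ?_
    rintro s ⟨hs, hs0⟩
    have hlt : ‖l‖ < ‖l * (1 + (s : ℂ) * (1 + Complex.I))‖ := by
      rw [norm_mul]
      have h1 : 1 < ‖(1 + (s : ℂ) * (1 + Complex.I))‖ := by
        have h2 : ((1 + (s : ℂ) * (1 + Complex.I))).re = 1 + s := by simp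
        have h3 := Complex.re_le_norm (1 + (s : ℂ) * (1 + Complex.I))
        rw [h2] at h3
        linarith
      exact lt_mul_of_one_lt_right (norm_pos_iff.2 hl0) h1
    obtain ⟨σ, hσ1, hσ2⟩ := exists_between hlt
    obtain ⟨C, hC, hpow⟩ := pow_bound hmax hσ1
    obtain ⟨π, C', τ, hTP⟩ := exists_TP (A := (A : Er n →L[ℝ] Er n))
      (π0 := LinearMap.toContinuousLinearMap g) hAι (fun z => hg' z) hC
      (lt_of_le_of_lt (norm_nonneg l) hσ1) hσ2 hpow
    have hK : s • (ι ∘L mulc (1 + Complex.I) ∘L LinearMap.toContinuousLinearMap g) =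
        ι ∘L mulc ((s : ℂ) * (1 + Complex.I)) ∘L LinearMap.toContinuousLinearMap g := by
      ext1 x
      have h1 : ((s : ℂ) * (1 + Complex.I)) * g x = s • ((1 + Complex.I) * g x) := by
        rw [Complex.real_smul]
        ring
      show s • ι ((1 + Complex.I) * g x) = ι (((s : ℂ) * (1 + Complex.I)) * g x)
      rw [h1, map_smul]
    rw [hK]
    exact ⟨_, _, ι, π, C', τ, hTP, hs⟩

end

end KT

end FB
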