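import Mathlib

/-!
# Part K13d: arguments which are not roots of unity (frequently_pow)
-/


namespace FB

namespace KT

open scoped Topology
open Filter

section

theorem K13d2_dense {w : Circle} (hw : ∀ j : ℕ, 0 < j → w ^ j ≠ 1) (t : Circle) {ε : ℝ}
    (hε : 0 < ε) : ∃ n : ℤ, dist (w ^ n) t < ε := by
  classical
  have : Fact ((0 : ℝ) < 1) := ⟨one_pos⟩
  set e := AddCircle.homeomorphCircle (T := (1 : ℝ)) one_ne_zero with he
  set a := e.symm w with ha
  have hea : ∀ x, e x = AddCircle.toCircle x := fun x => AddCircle.homeomorphCircle_apply _ x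
  have hwa : AddCircle.toCircle a = w := by rw [← hea, ha, Homeomorph.apply_symm_apply]
  have hord : addOrderOf a = 0 := by
    rw [addOrderOf_eq_zero_iff']
    intro n hn h0
    apply hw n hn
    rw [← hwa, ← AddCircle.toCircle_nsmul, h0, AddCircle.toCircle_zero]
  have hd := AddCircle.denseRange_zsmul_iff.mpr hord
  have hopen : IsOpen (e ⁻¹' Metric.ball t ε) := Metric.isOpen_ball.preimage e.continuous
  have hne : (e ⁻¹' Metric.ball t ε).Nonempty :=
    ⟨e.symm t, by simp [hε]⟩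
  obtain ⟨n, hn⟩ := hd.exists_mem_open hopen hne
  refine ⟨n, ?_⟩
  have h2 : e (n • a) ∈ Metric.ball t ε := hn
  rw [hea, AddCircle.toCircle_zsmul, hwa] at h2
  exact h2

theorem K13d2_rec {w : ℂ} (hw : ‖w‖ = 1) (K : ℕ) {δ : ℝ} (hδ : 0 < δ) :
    ∃ k : ℕ, K ≤ k ∧ ‖w ^ k - 1‖ < δ := by
  have hcomp : IsCompact (Metric.sphere (0 : ℂ) 1) := isCompact_sphere 0 1
  have hmem : ∀ n : ℕ, w ^ n ∈ Metric.sphere (0 : ℂ) 1 := by
    intro n
    simp [norm_pow, hw]
  obtain ⟨a, _, φ, hφ, hlim⟩ := hcomp.tendsto_subseq hmem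
  rw [Metric.tendsto_atTop] at hlim
  obtain ⟨N, hN⟩ := hlim (δ / 2) (by positivity)
  have h1 := hN N le_rfl
  have h2 := hN (N + K) (by omega)
  have h3 : φ N + K ≤ φ (N + K) := by
    clear h1 h2 hN hlim
    induction K with
    | zero => simp
    | succ k ih =>
      have := hφ (show N + k < N + (k + 1) by omega)
      omega
  refine ⟨φ (N + K) - φ N, by omega, ?_⟩
  have h4 : w ^ φ (N + K) = w ^ φ N * w ^ (φ (N + K) - φ N) := by
    rw [← pow_add]
    congr 1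
    omega
  have h5 : ‖w ^ φ (N + K) - w ^ φ N‖ < δ := by
    rw [← dist_eq_norm]
    simp only [Function.comp_apply] at h1 h2
    calc dist (w ^ φ (N + K)) (w ^ φ N) ≤ dist (w ^ φ (N + K)) a + dist (w ^ φ N) a :=
          dist_triangle_right _ _ _
      _ < δ / 2 + δ / 2 := add_lt_add h2 h1
      _ = δ := by ring
  have h6 : w ^ φ (N + K) - w ^ φ N = w ^ φ N * (w ^ (φ (N + K) - φ N) - 1) := by
    rw [h4]; ring
  rw [h6, norm_mul, norm_pow, hw, one_pow, one_mul] at h5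
  exact h5

/-- If `u` is not a root of unity, `‖u‖ = 1`, the powers `u^(2m+1)` come arbitrarily close to every unit number infinitely often.  (`u^2` is not a root of unity, so its powers are dense: in the additive circle,
`AddCircle`/`dense_zmultiples_iff`-like statements; or by hand: by compactness there are `i < j` with `0 < ‖(u^2)^(j-i) - 1‖ < ε`, so `v = u^(2(j-i))` is `≠ 1`, close to `1`, and the powers of `v` form an `ε`-net of
the circle, going around infinitely often; to reach `ζ` multiply the target by `u⁻¹`.) -/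
theorem frequently_pow {u : ℂ} (hu : ‖u‖ = 1) (hu1 : ∀ j : ℕ, 0 < j → u ^ j ≠ 1) {z : ℂ}
    (hz : ‖z‖ = 1) {ε : ℝ} (hε : 0 < ε) : ∃ᶠ m : ℕ in atTop, ‖u ^ (2 * m + 1) - z‖ < ε := by
  rw [frequently_atTop]
  intro M
  have hu0 : u ≠ 0 := by
    intro h; rw [h, norm_zero] at hu; exact zero_ne_one hu
  set U : Circle := ⟨u, by simp [Submonoid.unitSphere, hu]⟩ with hU
  set Z : Circle := ⟨z, by simp [Submonoid.unitSphere, hz]⟩ with hZ
  have hUc : (U : ℂ) = u := rfl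
  have hZc : (Z : ℂ) = z := rfl
  have hW : ∀ j : ℕ, 0 < j → (U ^ 2) ^ j ≠ 1 := by
    intro j hj h
    apply hu1 (2 * j) (by omega)
    rw [← pow_mul] at h
    have := congrArg (fun c : Circle => (c : ℂ)) h
    simpa [hUc] using this
  obtain ⟨n, hn⟩ := K13d2_dense hW (Z * U⁻¹) (half_pos hε)
  have hw : ‖u ^ 2‖ = 1 := by rw [norm_pow, hu, one_pow]
  obtain ⟨k, hk, hk2⟩ := K13d2_rec hw (M + n.natAbs) (half_pos hε)
  have hmn : 0 ≤ n + k := by omega
  obtain ⟨m, hm⟩ := Int.eq_ofNat_of_zero_le hmn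
  refine ⟨m, by omega, ?_⟩
  have h1 : ‖(u ^ 2) ^ n - z * u⁻¹‖ < ε / 2 := by
    have h : dist (((U ^ 2) ^ n : Circle) : ℂ) ((Z * U⁻¹ : Circle) : ℂ) < ε / 2 := hn
    rw [dist_eq_norm] at h
    simpa [hUc, hZc] using h
  have h2 : (u ^ 2) ^ m = (u ^ 2) ^ n * (u ^ 2) ^ k := by
    have hu2 : u ^ 2 ≠ 0 := pow_ne_zero _ hu0
    rw [← zpow_natCast (u ^ 2) m, ← zpow_natCast (u ^ 2) k, ← zpow_add₀ hu2, hm]
  have h3 : u ^ (2 * m + 1) - z
      = u * ((u ^ 2) ^ n * ((u ^ 2) ^ k - 1) + ((u ^ 2) ^ n - z * u⁻¹)) := by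
    rw [pow_succ, pow_mul, h2]
    field_simp
    ring
  rw [h3, norm_mul, hu, one_mul]
  calc ‖(u ^ 2) ^ n * ((u ^ 2) ^ k - 1) + ((u ^ 2) ^ n - z * u⁻¹)‖
      ≤ ‖(u ^ 2) ^ n * ((u ^ 2) ^ k - 1)‖ + ‖(u ^ 2) ^ n - z * u⁻¹‖ := norm_add_le _ _
    _ < ε / 2 + ε / 2 := by
        refine add_lt_add ?_ h1
        rw [norm_mul, norm_zpow, hw, one_zpow, one_mul]
        exact hk2
    _ = ε := by ring

end

end KT

end FB
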