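import Pool.Agent.H.MP_fb873c_an.K0

/-!
# Part K14: the direction of the second perturbation (charpoly_two, charpoly_comm, simpleReal_comp, real_linear_form)
-/


namespace FB

namespace KT

open scoped Topology
open Filter Polynomial

section

variable {n : ℕ}

/-- `T z = α z + β conj z` with `α` real has characteristic polynomial `(X - α)^2 - |β|^2` (trace `2 α`, determinant `α^2 - |β|^2`; matrix in the basis `1, i`, `Complex.basisOneI`). -/
theorem charpoly_two (T : ℂ →ₗ[ℝ] ℂ) (α : ℝ) (β : ℂ)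
    (h : ∀ z, T z = α * z + β * (starRingEnd ℂ) z) :
    LinearMap.charpoly T = (X - C α) ^ 2 - C (‖β‖ ^ 2) := by
  rw [← LinearMap.charpoly_toMatrix T Complex.basisOneI, Matrix.charpoly_fin_two]
  have e : LinearMap.toMatrix Complex.basisOneI Complex.basisOneI T =
      !![α + β.re, β.im; β.im, α - β.re] := by
    ext i j
    rw [LinearMap.toMatrix_apply, Complex.coe_basisOneI_repr, Complex.coe_basisOneI]
    fin_cases i <;> fin_cases j <;> simp [h, sub_eq_add_neg]
  have hn : ‖β‖ ^ 2 = β.re ^ 2 + β.im ^ 2 := by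
    rw [Complex.sq_norm, Complex.normSq_apply]
    ring
  rw [e, Matrix.trace_fin_two, Matrix.det_fin_two, hn]
  simp only [Matrix.of_apply, Matrix.cons_val', Matrix.cons_val_zero, Matrix.cons_val_one,
    Matrix.cons_val_fin_one]
  simp only [map_add, map_sub, map_mul, map_pow]
  ring

/-- `X^2 charpoly (V W) = X^n charpoly (W V)` for `V : ℂ → Er n`, `W : Er n → ℂ` (`Matrix.charpoly_mul_comm'` or similar for the matrices of `V`, `W`). -/
theorem charpoly_comm (V : ℂ →ₗ[ℝ] Er n) (W : Er n →ₗ[ℝ] ℂ) :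
    X ^ 2 * LinearMap.charpoly (V ∘ₗ W) = X ^ n * LinearMap.charpoly (W ∘ₗ V) := by
  have h := Matrix.charpoly_mul_comm'
    (LinearMap.toMatrix Complex.basisOneI (EuclideanSpace.basisFun (Fin n) ℝ).toBasis V)
    (LinearMap.toMatrix (EuclideanSpace.basisFun (Fin n) ℝ).toBasis Complex.basisOneI W)
  rw [← LinearMap.toMatrix_comp, ← LinearMap.toMatrix_comp, LinearMap.charpoly_toMatrix,
    LinearMap.charpoly_toMatrix, Fintype.card_fin, Fintype.card_fin] at h
  exact h

/-- `μ = α + |β|` or `μ = α - |β|` is not `0`; it is a simple root of `d = (X - α)^2 - |β|^2` (`charpoly_two`).  By `charpoly_comm`, `X^2 P = X^n d`, `P = charpoly (V W)`: `P(μ) = 0`, and deriving,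
`μ^2 P'(μ) = μ^n d'(μ) ≠ 0`. -/
theorem simpleReal_comp (V : ℂ →L[ℝ] Er n) (W : Er n →L[ℝ] ℂ) {α : ℝ} {β : ℂ} (hβ : β ≠ 0)
    (h : ∀ z, W (V z) = α * z + β * (starRingEnd ℂ) z) : SimpleReal (V ∘L W) := by
  have hb : 0 < ‖β‖ := norm_pos_iff.mpr hβ
  obtain ⟨s, hs, hs0, hμ⟩ : ∃ s : ℝ, s ^ 2 = ‖β‖ ^ 2 ∧ s ≠ 0 ∧ α + s ≠ 0 := by
    by_cases h0 : α + ‖β‖ = 0
    · refine ⟨-‖β‖, by ring, by simpa using hβ, ?_⟩
      intro h1
      have : 2 * ‖β‖ = 0 := by linarith
      linarith
    · exact ⟨‖β‖, rfl, hb.ne', h0⟩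
  have hc := charpoly_comm V.toLinearMap W.toLinearMap
  have hd := charpoly_two (W.toLinearMap ∘ₗ V.toLinearMap) α β h
  rw [hd] at hc
  obtain ⟨P, hP⟩ : ∃ P, P = LinearMap.charpoly (V.toLinearMap ∘ₗ W.toLinearMap) := ⟨_, rfl⟩
  rw [← hP] at hc
  have e1 : (α + s) ^ 2 * P.eval (α + s) = 0 := by
    have := congrArg (Polynomial.eval (α + s)) hc
    simp only [eval_mul, eval_pow, eval_X, eval_sub, eval_C] at this
    rw [this, add_sub_cancel_left, hs]
    ring
  have e2 : P.eval (α + s) = 0 := by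
    rcases mul_eq_zero.mp e1 with h1 | h1
    · exact absurd h1 (pow_ne_zero 2 hμ)
    · exact h1
  have e3 : (α + s) ^ 2 * (derivative P).eval (α + s) = (α + s) ^ n * (2 * s) := by
    have := congrArg (fun p => Polynomial.eval (α + s) (derivative p)) hc
    simp only [derivative_mul, derivative_sub, derivative_pow, derivative_X,
      derivative_C, eval_add, eval_mul, eval_pow, eval_X, eval_sub, eval_C] at this
    rw [e2] at this
    simp only [add_sub_cancel_left, hs, sub_self, mul_zero, zero_add] at this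
    rw [this]
    simp
  refine ⟨α + s, ?_, ?_⟩
  · change (LinearMap.charpoly (V.toLinearMap ∘ₗ W.toLinearMap)).eval (α + s) = 0
    rw [← hP]
    exact e2
  · change (derivative (LinearMap.charpoly (V.toLinearMap ∘ₗ W.toLinearMap))).eval (α + s) ≠ 0
    rw [← hP]
    intro h0
    rw [h0, mul_zero] at e3
    exact (mul_ne_zero (pow_ne_zero n hμ) (mul_ne_zero two_ne_zero hs0)) e3.symm

/-- A real linear map `ℂ → ℂ` is `z ↦ α z + β conj z`. -/
theorem real_linear_form (T : ℂ →L[ℝ] ℂ) :
    ∃ α β : ℂ, ∀ z, T z = α * z + β * (starRingEnd ℂ) z := by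
  refine ⟨(T 1 - Complex.I * T Complex.I) / 2, (T 1 + Complex.I * T Complex.I) / 2, fun z => ?_⟩
  have hz : z = z.re • (1 : ℂ) + z.im • Complex.I := by
    rw [Complex.real_smul, Complex.real_smul, mul_one]
    exact (Complex.re_add_im z).symm
  have h1 : T z = z.re • T 1 + z.im • T Complex.I := by
    conv_lhs => rw [hz]
    rw [map_add, map_smul, map_smul]
  have h2 : (starRingEnd ℂ) z = z.re - z.im * Complex.I := by
    apply Complex.ext <;> simp
  rw [h1, h2, Complex.real_smul, Complex.real_smul]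
  conv_rhs => rw [← Complex.re_add_im z]
  simp only [Complex.add_re, Complex.ofReal_re, Complex.mul_re, Complex.I_re, mul_zero,
    Complex.ofReal_im, Complex.I_im, mul_one, sub_self, add_zero, Complex.add_im, Complex.mul_im,
    zero_add]
  have hI : Complex.I ^ 2 = -1 := Complex.I_sq
  linear_combination (T Complex.I * (z.im : ℂ)) * hI

end

end KT

end FB
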