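import Pool.Agent.H.MP_fb873c_an.K00
import Pool.Agent.H.MP_fb873c_an.K13a1
import Pool.Agent.H.MP_fb873c_an.K13a2
import Pool.Agent.H.MP_fb873c_an.K13d2
import Pool.Agent.H.MP_fb873c_an.K14a

/-!
# Part K14: the direction of the second perturbation (exists_B1)
-/


namespace FB

namespace KT

open scoped Topology
open Filter Polynomial

section

variable {n : ℕ}

/-- `V` has a left inverse `V⁺`, `Z` a right inverse `Z⁺` (`LinearMap.exists_leftInverse_of_injective`, `LinearMap.exists_rightInverse_of_surjective`, continuous in finite dimension);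
`B1 = Z⁺ ∘ conj ∘ V⁺`.  Write `Z V z = α z + β conj z` (`real_linear_form`).  For `t > 0` small, `β + t ≠ 0` (if `β = 0` clear, otherwise `t < ‖β‖`).  Fix such `t`.
Let `z0`, `‖z0‖ = 1`, with `z0 α` real (`z0 = conj α / ‖α‖` or `z0 = 1`).  With `W = z0 (Z + t conj V⁺)`: `W V z = z0 α z + z0 (β + t) conj z`, so `V ∘ W` is `SimpleReal` by
`simpleReal_comp`.  By `simpleReal_nhds` there is `ε > 0` such that all `T` with `‖T - V W‖ < ε` are `SimpleReal`.  Now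
`(ρ^(2m+1))⁻¹ • S m ∘ (1 + t B1) = R m ∘ (1 + t B1) + V mulc (u^(2m+1)) (Z + t conj V⁺)`, `R m → 0`, `Z B1 = conj V⁺`.  By `frequently_pow` for infinitely many `m` this is `ε`-close to `V W`; then
`simpleReal_smul` with `ρ^(2m+1)`. -/
theorem exists_B1 {V : ℂ →L[ℝ] Er n} {Z : Er n →L[ℝ] ℂ} (hV : Function.Injective V)
    (hZ : Function.Surjective Z) {u : ℂ} (hu : ‖u‖ = 1) (hu1 : ∀ j : ℕ, 0 < j → u ^ j ≠ 1)
    (S : ℕ → Er n →L[ℝ] Er n) {ρ : ℝ} (hρ : 0 < ρ)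
    (hS : Tendsto (fun m : ℕ => (ρ ^ (2 * m + 1))⁻¹ • S m - V ∘L mulc (u ^ (2 * m + 1)) ∘L Z)
      atTop (𝓝 0)) :
    ∃ B1 : Er n →L[ℝ] Er n, ∀ᶠ t in 𝓝[>] (0 : ℝ), ∃ᶠ m : ℕ in atTop,
      SimpleReal (S m ∘L (ContinuousLinearMap.id ℝ (Er n) + t • B1)) := by
  obtain ⟨Vl, hVl⟩ := LinearMap.exists_leftInverse_of_injective V.toLinearMap
    (LinearMap.ker_eq_bot.2 hV)
  obtain ⟨Zl, hZl⟩ := LinearMap.exists_rightInverse_of_surjective Z.toLinearMap
    (LinearMap.range_eq_top.2 hZ)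
  have hVp : ∀ z, Vl (V z) = z := fun z => LinearMap.congr_fun hVl z
  have hZp : ∀ z, Z (Zl z) = z := fun z => LinearMap.congr_fun hZl z
  let Vp : Er n →L[ℝ] ℂ := LinearMap.toContinuousLinearMap Vl
  let Zp : ℂ →L[ℝ] Er n := LinearMap.toContinuousLinearMap Zl
  let cj : ℂ →L[ℝ] ℂ := (Complex.conjCLE : ℂ ≃L[ℝ] ℂ).toContinuousLinearMap
  obtain ⟨α, β, hαβ⟩ := real_linear_form (Z ∘L V)
  refine ⟨Zp ∘L cj ∘L Vp, ?_⟩
  have hev : ∀ᶠ t : ℝ in 𝓝[>] (0 : ℝ), β + (t : ℂ) ≠ 0 := by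
    by_cases hb : β = 0
    · filter_upwards [self_mem_nhdsWithin] with t ht
      rw [hb, zero_add]
      exact_mod_cast (ne_of_gt ht)
    · have hc : Tendsto (fun t : ℝ => β + (t : ℂ)) (𝓝 0) (𝓝 (β + ((0 : ℝ) : ℂ))) := by
        exact (continuous_const.add Complex.continuous_ofReal).tendsto 0
      rw [Complex.ofReal_zero, add_zero] at hc
      exact nhdsWithin_le_nhds (hc.eventually_ne hb)
  filter_upwards [hev] with t ht
  obtain ⟨z0, hz0, a, ha⟩ : ∃ z0 : ℂ, ‖z0‖ = 1 ∧ ∃ a : ℝ, z0 * α = (a : ℂ) := by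
    by_cases h0 : α = 0
    · exact ⟨1, by simp, 0, by simp [h0]⟩
    · have hn : (‖α‖ : ℂ) ≠ 0 := by
        exact_mod_cast norm_ne_zero_iff.2 h0
      refine ⟨(starRingEnd ℂ) α / (‖α‖ : ℂ), ?_, ‖α‖, ?_⟩
      · rw [norm_div, Complex.norm_conj, Complex.norm_real, norm_norm]
        exact div_self (norm_ne_zero_iff.2 h0)
      · rw [div_mul_eq_mul_div, div_eq_iff hn, mul_comm, Complex.mul_conj,
          Complex.normSq_eq_norm_sq]
        push_cast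
        ring
  set Y : Er n →L[ℝ] ℂ := Z + t • (cj ∘L Vp) with hY
  set D : Er n →L[ℝ] Er n := ContinuousLinearMap.id ℝ (Er n) + t • (Zp ∘L cj ∘L Vp) with hD
  have hZD : Z ∘L D = Y := by
    ext v
    simp only [hY, hD, ContinuousLinearMap.comp_apply, ContinuousLinearMap.add_apply,
      ContinuousLinearMap.smul_apply, ContinuousLinearMap.id_apply, map_add, map_smul]
    change Z v + t • Z (Zl (cj (Vp v))) = _
    rw [hZp]
  have hsr : SimpleReal (V ∘L (mulc z0 ∘L Y)) := by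
    refine simpleReal_comp V (mulc z0 ∘L Y) (α := a) (β := z0 * (β + t)) ?_ ?_
    · refine mul_ne_zero ?_ ht
      intro h
      rw [h, norm_zero] at hz0
      exact zero_ne_one hz0
    · intro z
      have e1 : Y (V z) = α * z + β * (starRingEnd ℂ) z + t * (starRingEnd ℂ) z := by
        have e2 : Y (V z) = Z (V z) + t • (starRingEnd ℂ) (Vl (V z)) := rfl
        have e3 : Z (V z) = α * z + β * (starRingEnd ℂ) z := hαβ z
        rw [e2, e3, hVp, Complex.real_smul]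
      have e4 : (mulc z0 ∘L Y) (V z) = z0 * Y (V z) := rfl
      rw [e4, e1, ← ha]
      ring
  obtain ⟨ε, hε, hball⟩ := Metric.eventually_nhds_iff.1 (simpleReal_nhds hsr)
  set c : ℝ := ‖V‖ * ‖Y‖ + 1 with hc
  have hcpos : 0 < c := by positivity
  have hR : ∀ᶠ m : ℕ in atTop,
      ‖(ρ ^ (2 * m + 1))⁻¹ • S m - V ∘L mulc (u ^ (2 * m + 1)) ∘L Z‖ < ε / (2 * (‖D‖ + 1)) := by
    have h1 := hS.norm
    rw [norm_zero] at h1
    exact h1.eventually_lt_const (by positivity)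
  have hfr : ∃ᶠ m : ℕ in atTop, ‖u ^ (2 * m + 1) - z0‖ < ε / (2 * c) :=
    frequently_pow hu hu1 hz0 (by positivity)
  refine (hfr.and_eventually hR).mono ?_
  rintro m ⟨h1, h2⟩
  set R := (ρ ^ (2 * m + 1))⁻¹ • S m - V ∘L mulc (u ^ (2 * m + 1)) ∘L Z with hRdef
  have hρm : ρ ^ (2 * m + 1) ≠ 0 := (pow_pos hρ _).ne'
  have hdiff : (ρ ^ (2 * m + 1))⁻¹ • (S m ∘L D) - V ∘L (mulc z0 ∘L Y)
      = R ∘L D + V ∘L mulc (u ^ (2 * m + 1) - z0) ∘L Y := by
    rw [hRdef, ← hZD]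
    ext1 v
    have q1 : ∀ w : ℂ, mulc (u ^ (2 * m + 1) - z0) w
        = mulc (u ^ (2 * m + 1)) w - mulc z0 w := by
      intro w
      change (u ^ (2 * m + 1) - z0) * w = u ^ (2 * m + 1) * w - z0 * w
      ring
    simp only [ContinuousLinearMap.sub_apply, ContinuousLinearMap.add_apply,
      ContinuousLinearMap.smul_apply, ContinuousLinearMap.comp_apply, q1, map_sub]
    abel
  have hmulc : ∀ b : ℂ, ‖mulc b‖ ≤ ‖b‖ := fun b =>
    ContinuousLinearMap.opNorm_le_bound _ (norm_nonneg _) fun w => by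
      change ‖b * w‖ ≤ _
      rw [norm_mul]
  have hsmall : ‖(ρ ^ (2 * m + 1))⁻¹ • (S m ∘L D) - V ∘L (mulc z0 ∘L Y)‖ < ε := by
    rw [hdiff]
    have b1 : ‖R ∘L D‖ ≤ ‖R‖ * (‖D‖ + 1) := by
      refine (ContinuousLinearMap.opNorm_comp_le _ _).trans ?_
      gcongr
      linarith
    have b2 : ‖V ∘L mulc (u ^ (2 * m + 1) - z0) ∘L Y‖ ≤ ‖u ^ (2 * m + 1) - z0‖ * c := by
      refine (ContinuousLinearMap.opNorm_comp_le _ _).trans ?_
      have b3 : ‖mulc (u ^ (2 * m + 1) - z0) ∘L Y‖ ≤ ‖u ^ (2 * m + 1) - z0‖ * ‖Y‖ :=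
        (ContinuousLinearMap.opNorm_comp_le _ _).trans (by gcongr; exact hmulc _)
      calc ‖V‖ * ‖mulc (u ^ (2 * m + 1) - z0) ∘L Y‖
          ≤ ‖V‖ * (‖u ^ (2 * m + 1) - z0‖ * ‖Y‖) := by gcongr
        _ = ‖u ^ (2 * m + 1) - z0‖ * (‖V‖ * ‖Y‖) := by ring
        _ ≤ ‖u ^ (2 * m + 1) - z0‖ * c := by
            gcongr
            rw [hc]
            linarith
    have b4 : ‖R‖ * (‖D‖ + 1) < ε / 2 := by
      have h3 : ‖R‖ * (‖D‖ + 1) < ε / (2 * (‖D‖ + 1)) * (‖D‖ + 1) :=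
        mul_lt_mul_of_pos_right h2 (by positivity)
      have h4 : ε / (2 * (‖D‖ + 1)) * (‖D‖ + 1) = ε / 2 := by
        field_simp
      rwa [h4] at h3
    have b5 : ‖u ^ (2 * m + 1) - z0‖ * c < ε / 2 := by
      have h3 : ‖u ^ (2 * m + 1) - z0‖ * c < ε / (2 * c) * c :=
        mul_lt_mul_of_pos_right h1 hcpos
      have h4 : ε / (2 * c) * c = ε / 2 := by
        field_simp
      rwa [h4] at h3
    calc ‖R ∘L D + V ∘L mulc (u ^ (2 * m + 1) - z0) ∘L Y‖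
        ≤ ‖R ∘L D‖ + ‖V ∘L mulc (u ^ (2 * m + 1) - z0) ∘L Y‖ := norm_add_le _ _
      _ < ε := by linarith
  have hSR : SimpleReal ((ρ ^ (2 * m + 1))⁻¹ • (S m ∘L D)) := by
    refine hball ?_
    rw [dist_eq_norm]
    exact hsmall
  have hfin := simpleReal_smul hρm hSR
  rwa [smul_smul, mul_inv_cancel₀ hρm, one_smul] at hfin

end

end KT

end FB
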