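import Pool.Agent.H.MP_fb873c_an.D2c
import Pool.Agent.H.MP_fb873c_an.D2g
import Pool.Agent.H.MP_fb873c_an.D2i

/-!
# Part K15: perturbation of the derivative at a periodic point whose orbit avoids a neighbourhood
-/

namespace FB

namespace KT

open scoped Topology ContDiff Manifold
open Filter Metric

universe u

/-- Iterates of `g ∘ h` at a point whose later orbit avoids the support of `h`. -/
theorem K15_iter {X : Type*} {g h : X → X} {S : Set X} (h1 : ∀ x ∉ S, h x = x) {i : ℕ}
    (hi : 0 < i) {x : X} (hx : ∀ j, 0 < j → j < i → g^[j] (h x) ∉ S) :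
    (fun y => g (h y))^[i] x = g^[i] (h x) := by
  obtain ⟨m, rfl⟩ : ∃ m, i = m + 1 := ⟨i - 1, by omega⟩
  rw [Function.iterate_succ_apply, Function.iterate_succ_apply]
  refine iterate_off h1 fun j hj => ?_
  rw [← Function.iterate_succ_apply g j (h x)]
  exact hx (j + 1) (Nat.succ_pos j) (by omega)

section

variable {n : ℕ} {M : Type u} [TopologicalSpace M] [ChartedSpace (Er n) M]
  [IsManifold (𝓡 n) ∞ M] [T2Space M]

/-- Let `b = φ y0`, `r > 0` with `closedBall b r ⊆ φ.target` and `φ.symm '' closedBall b r ⊆ V`, `β` a `ContDiffBump` with center `b` and radii `r/2`, `r`, `P = ℝ × Er n`,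
`w (t, e) z = β z • t • B (z - b - e)`; `exists_family` (file D2g) with `K = closedBall b r` gives `h : P → Dif n M`; `G (t, e) = (h (t, e)).trans g`, i.e. `x ↦ g (h (t, e) x)`, is a smooth family
(`smF_comp`, `smF_const`) with `G 0 = g`, so `G (t, e) ∈ O` for `(t, e)` near `0` (`eventually_mem_open`, file D2c).
For `y` near `y0` put `e = φ y - b` (small; `‖e‖ < r/2`).  Let `S = φ.symm '' K` (compact, so closed; `h` is the identity outside).  `h y = y` as `w (t, e) (φ y) = 0`, and for `z` near `φ y` (in the open ball of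
radius `r/2`, `β = 1`) `h (φ.symm z) = φ.symm (z + t B (z - φ y))`.  The points `g^i y`, `0 < i < N`, are not in `V`, so not in `S`; so for `g' = G (t, e)`: `g'^i y = g^i y ∉ V` for `0 < i < N` and `g'^N y = g^N y = y`
(`y ∈ V`, so `g'^i y ≠ y`); for `z` near `φ y` the points `g^i (h (φ.symm z))`, `0 < i < N`, are not in `S` (continuity, `S` closed), so `g'^N (φ.symm z) = g^N (h (φ.symm z)) = g^N (φ.symm (z + t B (z - φ y)))`
(`iterate_off`, file D2i, applied at the point `g (h x)`).  Chain rule; the derivative of `z ↦ z + t B (z - φ y)` at `φ y` is `1 + t B`.  See the proof of `exists_pert` in file D2j. -/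
theorem final_pert (g : Dif n M) {O : Set (Dif n M)} (hO : IsOpen[crTop n M ⊤] O) (hg : g ∈ O)
    {y0 : M} {φ : OpenPartialHomeomorph M (Er n)} (hφ : φ ∈ atlas (Er n) M) (hy : y0 ∈ φ.source)
    {V : Set M} (hV : V ∈ 𝓝 y0) (B : Er n →L[ℝ] Er n) :
    ∀ᶠ t in 𝓝 (0 : ℝ), ∀ᶠ y in 𝓝 y0, ∀ N : ℕ, 0 < N → (g : M → M)^[N] y = y →
      (∀ i, 0 < i → i < N → (g : M → M)^[i] y ∉ V) →
      ∃ g' ∈ O, (g' : M → M)^[N] y = y ∧ (∀ i, 0 < i → i < N → (g' : M → M)^[i] y ≠ y) ∧
        fderiv ℝ (φ ∘ (g' : M → M)^[N] ∘ φ.symm) (φ y) =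
          (fderiv ℝ (φ ∘ (g : M → M)^[N] ∘ φ.symm) (φ y)) ∘L
            (ContinuousLinearMap.id ℝ (Er n) + t • B) := by
  have h4 : φ.target ∩ φ.symm ⁻¹' V ∈ 𝓝 (φ y0) := by
    refine Filter.inter_mem (φ.open_target.mem_nhds (φ.map_source hy)) ?_
    have hc := φ.continuousAt_symm (φ.map_source hy)
    refine hc.preimage_mem_nhds ?_
    rw [φ.left_inv hy]
    exact hV
  obtain ⟨r, hr, hball⟩ := Metric.nhds_basis_closedBall.mem_iff.mp h4
  have hrφ : Metric.closedBall (φ y0) r ⊆ φ.target := fun y hy => (hball hy).1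
  have hrV : φ.symm '' Metric.closedBall (φ y0) r ⊆ V := by
    rintro x ⟨y, hy, rfl⟩
    exact (hball hy).2
  let β : ContDiffBump (φ y0) := ⟨r / 2, r, half_pos hr, half_lt_self hr⟩
  let w : ℝ × Er n → Er n → Er n := fun p z => (p.1 * β z) • B (z - φ y0 - p.2)
  have hw : ContDiff ℝ ∞ (fun q : (ℝ × Er n) × Er n => w q.1 q.2) := by
    refine ContDiff.smul ((contDiff_fst.comp contDiff_fst).mul
      (β.contDiff.comp contDiff_snd)) ?_
    exact B.contDiff.comp ((contDiff_snd.sub contDiff_const).sub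
      (contDiff_snd.comp contDiff_fst))
  have hw0 : ∀ z, w 0 z = 0 := fun z => by simp [w]
  have hws : ∀ p, ∀ z ∉ Metric.closedBall (φ y0) r, w p z = 0 := by
    intro s z hz
    have h1 : β z = 0 := by
      apply β.zero_of_le_dist
      rw [Metric.mem_closedBall, not_le] at hz
      exact hz.le
    simp [w, h1]
  obtain ⟨h, hsm, h0, hoff, hon⟩ := exists_family hφ (isCompact_closedBall (φ y0) r) hrφ w hw
    hw0 hws
  have hScl : IsClosed (φ.symm '' Metric.closedBall (φ y0) r) :=
    ((isCompact_closedBall (φ y0) r).image_of_continuousOn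
      (φ.continuousOn_symm.mono hrφ)).isClosed
  have hO1 : ∀ᶠ p in 𝓝 (0 : ℝ × Er n), (h p).trans g ∈ O := by
    refine eventually_mem_open g (fun p => (h p).trans g) (fun x => ?_) (fun x => ?_) hO hg
    · show g (h 0 x) = g x
      rw [h0]
    · exact smF_comp (F := fun s => (h s : M → M)) (G := fun _ => (g : M → M)) (hsm x)
        (smF_const g _)
  have hcur : ∀ᶠ t in 𝓝 (0 : ℝ), ∀ᶠ e in 𝓝 (0 : Er n), ((h (t, e)).trans g ∈ O ∧
      ∀ z ∈ Metric.closedBall (φ y0) r, z + w (t, e) z ∈ Metric.closedBall (φ y0) r ∧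
        h (t, e) (φ.symm z) = φ.symm (z + w (t, e) z)) :=
    (hO1.and hon).curry_nhds
  have htend : Tendsto (fun y => φ y - φ y0) (𝓝 y0) (𝓝 0) := by
    have h5 : Tendsto (fun y => φ y - φ y0) (𝓝 y0) (𝓝 (φ y0 - φ y0)) :=
      (φ.continuousAt hy).sub continuousAt_const
    rwa [sub_self] at h5
  filter_upwards [hcur] with t ht
  have e1 := htend.eventually ht
  have e2 : ∀ᶠ y in 𝓝 y0, φ y ∈ Metric.ball (φ y0) (r / 2) :=
    (φ.continuousAt hy).eventually (Metric.ball_mem_nhds _ (half_pos hr))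
  have e3 : ∀ᶠ y in 𝓝 y0, y ∈ φ.source := φ.open_source.mem_nhds hy
  have e4 : ∀ᶠ y in 𝓝 y0, y ∈ V := hV
  filter_upwards [e1, e2, e3, e4] with y hy1 hy2 hy3 hy4
  intro N hN hper hav
  obtain ⟨hmem, hz⟩ := hy1
  have hwy : ∀ z, w (t, φ y - φ y0) z = (t * β z) • B (z - φ y) := by
    intro z
    have h6 : z - φ y0 - (φ y - φ y0) = z - φ y := by abel
    simp only [w, h6]
  obtain ⟨hh, hhdef⟩ : ∃ hh : M → M, hh = (h (t, φ y - φ y0) : M → M) := ⟨_, rfl⟩
  have hK : φ y ∈ Metric.closedBall (φ y0) r :=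
    Metric.closedBall_subset_closedBall (by linarith) (Metric.ball_subset_closedBall hy2)
  have hhy : hh y = y := by
    have h1 := (hz (φ y) hK).2
    rw [hwy, sub_self, map_zero, smul_zero, add_zero, φ.left_inv hy3] at h1
    rw [hhdef]
    exact h1
  have hhoff : ∀ x ∉ φ.symm '' Metric.closedBall (φ y0) r, hh x = x := by
    intro x hx
    rw [hhdef]
    exact hoff _ x hx
  have hit : ∀ i, 0 < i → i ≤ N → (fun x => g (hh x))^[i] y = (g : M → M)^[i] y := by
    intro i hi hiN
    have h7 := K15_iter (g := (g : M → M)) (h := hh) hhoff hi (x := y) (by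
      intro j hj hji
      rw [hhy]
      exact fun hc => hav j hj (by omega) (hrV hc))
    rw [hhy] at h7
    exact h7
  have hcoe : ((h (t, φ y - φ y0)).trans g : M → M) = fun x => g (hh x) := by
    rw [hhdef]
    rfl
  refine ⟨(h (t, φ y - φ y0)).trans g, hmem, ?_, ?_, ?_⟩
  · rw [hcoe, hit N hN le_rfl, hper]
  · intro i hi hiN hc
    rw [hcoe, hit i hi hiN.le] at hc
    apply hav i hi hiN
    rw [hc]
    exact hy4
  · rw [hcoe]
    obtain ⟨F, hF⟩ : ∃ F : Er n → Er n, F = φ ∘ (g : M → M)^[N] ∘ φ.symm := ⟨_, rfl⟩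
    have hFd : DifferentiableAt ℝ F (φ y) := by
      have h1 := smF_iterate (P := ℝ) (F := fun _ => (g : M → M)) (fun x => smF_const g x) N y
      have h2 := smF_chart h1 hφ hφ hy3 (by rw [hper]; exact hy3)
      have h3 : ContDiffAt ℝ ∞ (fun z : Er n => ((0 : ℝ), z)) (φ y) := by fun_prop
      have h4 := ContDiffAt.comp (φ y) (f := fun z : Er n => ((0 : ℝ), z)) h2 h3
      rw [hF]
      exact h4.differentiableAt (by simp)
    have hA0 : φ y + t • B (φ y - φ y) = φ y := by simp
    have hcontA : ContinuousAt (fun z : Er n => z + t • B (z - φ y)) (φ y) := by fun_prop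
    have hcontS : ContinuousAt (fun z : Er n => φ.symm (z + t • B (z - φ y))) (φ y) := by
      refine ContinuousAt.comp (g := φ.symm) (f := fun z : Er n => z + t • B (z - φ y)) ?_ hcontA
      rw [hA0]
      exact φ.continuousAt_symm (φ.map_source hy3)
    have hev2 : ∀ᶠ z in 𝓝 (φ y), ∀ j ∈ Set.Iio N, 0 < j →
        (g : M → M)^[j] (φ.symm (z + t • B (z - φ y))) ∉
          φ.symm '' Metric.closedBall (φ y0) r := by
      rw [Filter.eventually_all_finite (Set.finite_Iio N)]
      intro j hj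
      by_cases hj0 : 0 < j
      · have h8 : ContinuousAt (fun z : Er n => (g : M → M)^[j]
            (φ.symm (z + t • B (z - φ y)))) (φ y) :=
          ContinuousAt.comp (g := (g : M → M)^[j])
            (f := fun z : Er n => φ.symm (z + t • B (z - φ y)))
            (g.continuous.iterate j).continuousAt hcontS
        have h9 : (g : M → M)^[j] (φ.symm (φ y + t • B (φ y - φ y))) ∈
            (φ.symm '' Metric.closedBall (φ y0) r)ᶜ := by
          rw [hA0, φ.left_inv hy3]
          exact fun hc => hav j hj0 hj (hrV hc)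
        filter_upwards [h8.eventually_mem (hScl.isOpen_compl.mem_nhds h9)] with z hz' _
        exact hz'
      · exact Filter.Eventually.of_forall fun z h => absurd h hj0
    have hev : φ ∘ (fun x => g (hh x))^[N] ∘ φ.symm =ᶠ[𝓝 (φ y)]
        fun z => F (z + t • B (z - φ y)) := by
      filter_upwards [Metric.isOpen_ball.mem_nhds hy2, hev2] with z hz1 hz2
      have hzK : z ∈ Metric.closedBall (φ y0) r :=
        Metric.closedBall_subset_closedBall (by linarith) (Metric.ball_subset_closedBall hz1)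
      have hb1 : β z = 1 := β.one_of_mem_closedBall (Metric.ball_subset_closedBall hz1)
      have hhz : hh (φ.symm z) = φ.symm (z + t • B (z - φ y)) := by
        have h1 := (hz z hzK).2
        rw [hwy, hb1, mul_one] at h1
        rw [hhdef]
        exact h1
      have h1 := K15_iter (g := (g : M → M)) (h := hh) hhoff hN (x := φ.symm z) (by
        intro j hj hjN
        rw [hhz]
        exact hz2 j hjN hj)
      rw [hhz] at h1
      rw [hF]
      exact congrArg φ h1
    rw [hev.fderiv_eq, ← hF]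
    have hA : HasFDerivAt (fun z : Er n => z + t • B (z - φ y))
        (ContinuousLinearMap.id ℝ (Er n) + t • B) (φ y) := by
      have h1 : HasFDerivAt (fun z : Er n => z - φ y) (ContinuousLinearMap.id ℝ (Er n)) (φ y) :=
        (hasFDerivAt_id _).sub_const _
      have h2 : HasFDerivAt (fun z : Er n => B (z - φ y)) B (φ y) := by
        have := B.hasFDerivAt.comp (φ y) h1
        rwa [ContinuousLinearMap.comp_id] at this
      exact (hasFDerivAt_id _).add (h2.const_smul t)
    have hF1 : HasFDerivAt F (fderiv ℝ F (φ y)) (φ y + t • B (φ y - φ y)) := by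
      rw [hA0]
      exact hFd.hasFDerivAt
    exact (hF1.comp (φ y) hA).fderiv

end

end KT

end FB
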