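import Pool.Agent.H.MP_fb873c_an.D1c
import Pool.Agent.H.MP_fb873c_an.D1f
import Pool.Agent.H.MP_fb873c_an.K13a1
import Pool.Agent.H.MP_fb873c_an.K13a2

/-!
# Part K17: the set `UR` is open for the `C^1` topology
-/

namespace FB

namespace KT

open scoped Topology ContDiff Manifold
open Filter Metric

universe u

section

variable {n : ℕ} {M : Type u} [TopologicalSpace M] [ChartedSpace (Er n) M]
  [IsManifold (𝓡 n) ∞ M] [CompactSpace M] [T2Space M]

/-- See the proof of `goodAt_open_aux` (file D1g).  Let `g ∈ UR`, with `x`, `k`; `l` the neighbourhood filter of `g` for `crTop n M 1`; `CV.of_crTop`, `CV.iterate` : `F i = i^[k] → g^[k]` in the sense `CV`.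
`D1_cont` (file D1f): `y i → x`, `F i (y i) = y i`.  With `φ` the chart at `x`: `fderiv (φ ∘ F i ∘ φ.symm) (φ (y i)) → dfix (g^[k]) x` (`CV.tendD`), so for `i` near `g` it is `SimpleReal` (`simpleReal_nhds`) and
`det (. - 1) ≠ 0` (`ContinuousLinearMap.continuous_det`); pass to the chart at `y i` with `D1_conj`, `ND_iff` (file D1d), `simpleReal_conj`. -/
theorem isOpen_UR : IsOpen[crTop n M 1] (UR n M) := by
  let _ := crTop n M 1
  rw [isOpen_iff_mem_nhds]
  rintro g ⟨x, k, hk, hx, hnd, hsr⟩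
  have hcv : CV n (𝓝 g) (fun g' : Dif n M => (g' : M → M)) g := CV.of_crTop le_rfl
  have sG : ∀ g' : Dif n M, C1 n (g' : M → M) := fun g' => g'.contMDiff_toFun.of_le (by norm_cast)
  have hF : CV n (𝓝 g) (fun g' : Dif n M => (g' : M → M)^[k]) ((g : M → M)^[k]) :=
    hcv.iterate sG (sG g) k
  have sF : ∀ g' : Dif n M, C1 n ((g' : M → M)^[k]) := fun g' => (sG g').iterate k
  have hnd' : ND n ((g : M → M)^[k]) x := hnd
  obtain ⟨B, hB, y, hy1, hy2, -⟩ := D1_cont hF sF hx hnd'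
  obtain ⟨φ, hφ⟩ : ∃ φ, φ = chartAt (Er n) x := ⟨_, rfl⟩
  have hφ1 : φ ∈ atlas (Er n) M := hφ ▸ chart_mem_atlas _ _
  have h2 : x ∈ φ.source := hφ ▸ mem_chart_source _ _
  have t1 := (hF.tendD x φ φ hφ1 hφ1 h2 (by rw [hx]; exact h2)).comp
    (tendsto_id.prodMk hy1)
  have hsr' : SimpleReal (fderiv ℝ (φ ∘ (g : M → M)^[k] ∘ φ.symm) (φ x)) := by
    rw [hφ]
    exact hsr
  have e1 := t1.eventually (simpleReal_nhds hsr')
  have h4 : Continuous fun A : Er n →L[ℝ] Er n =>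
      (A - ContinuousLinearMap.id ℝ (Er n) : Er n →L[ℝ] Er n).det :=
    ContinuousLinearMap.continuous_det.comp (continuous_id.sub continuous_const)
  have e2 := ((h4.tendsto _).comp t1).eventually_ne ((ND_iff (sF g x) hx hφ1 h2).1 hnd')
  filter_upwards [e1, e2, hy2, hy1.eventually_mem (φ.open_source.mem_nhds h2)] with g' q1 q2 q3 q4
  refine ⟨y g', k, hk, q3, ?_, ?_⟩
  · exact (ND_iff (sF g' _) q3 hφ1 q4).2 q2
  · obtain ⟨e, he⟩ := D1_conj (sF g' _) q3 hφ1 q4
    have q5 : SimpleReal (fderiv ℝ (φ ∘ (g' : M → M)^[k] ∘ φ.symm) (φ (y g'))) := q1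
    have q6 := simpleReal_conj e.symm q5
    rw [he] at q6
    have e3 : (e.symm : Er n →L[ℝ] Er n) ∘L ((e : Er n →L[ℝ] Er n).comp
        ((dfix (n := n) ((g' : M → M)^[k]) (y g')).comp (e.symm : Er n →L[ℝ] Er n))) ∘L
        (e.symm.symm : Er n →L[ℝ] Er n) = dfix (n := n) ((g' : M → M)^[k]) (y g') := by
      ext v
      simp
    rw [e3] at q6
    exact q6

end

end KT

end FB
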