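import Pool.Agent.H.MP_fb873c_an.L0

/-! Part L6a: de Rham type -/

namespace FB

open MeasureTheory
open scoped Topology ContDiff

/-- JOB L6a.  The de Rham type. -/
theorem exists_drTy (W : Type) [NormedAddCommGroup W] [InnerProductSpace ℝ W] :
    ∃ T : Ty W, T.lam = 1 ∧ T.mu = 0 ∧ T.good = Set.univ ∧ ∀ q α, T.pi q α = α := by
  refine ⟨{ lam := 1, mu := 0, J := 0, good := Set.univ,
            pi := fun q => ContinuousLinearMap.id ℂ (Lam W q),
            lam_pos := one_pos, rot := Or.inl rfl,
            pi_pi := fun _ _ => rfl, nat := fun _ _ _ _ => rfl,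
            key := ?_, contr := fun _ _ _ _ => rfl }, rfl, rfl, rfl, fun _ _ => rfl⟩
  intro q f
  have h : tauG 1 0 0 (((ContinuousLinearMap.id ℂ (Lam W q)).restrictScalars ℝ).comp f) = f := by
    apply ContinuousLinearMap.ext
    intro v
    have e : f.comp (0 : W →L[ℝ] W) = 0 := by
      apply ContinuousLinearMap.ext
      intro v
      exact map_zero f
    unfold tauG
    rw [ContinuousLinearMap.add_apply, one_smul]
    have e2 : (((0 : ℝ) : ℂ) * Complex.I) = 0 := by simp
    rw [e2]
    apply ContinuousAlternatingMap.ext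
    intro w
    simp
  rw [h]
  rfl

end FB
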