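import Pool.Agent.H.MP_fb873c_an.S1

/-! # Part Z1: linear algebra (Z1a2) -/

namespace FB

open scoped Topology ContDiff Manifold

universe u

section

open Polynomial

/-- JOB Z1a. -/
theorem charpoly_eval_one {m : ℕ} (L : Ec m →ₗ[ℂ] Ec m) :
    L.charpoly.eval 1 = LinearMap.det (1 - L) := by
  rw [LinearMap.eval_charpoly, map_one]

/-- determinant of a polynomial in `L` -/
private theorem det_aeval_aux {m : ℕ} (L : Ec m →ₗ[ℂ] Ec m) (q : Polynomial ℂ) :
    LinearMap.det (aeval L q) = (L.charpoly.roots.map (fun l => q.eval l)).prod := by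
  have hs : q.Splits := IsAlgClosed.splits q
  have hc : L.charpoly.Splits := IsAlgClosed.splits _
  have hcard : L.charpoly.roots.card = m := by
    rw [← hc.natDegree_eq_card_roots, LinearMap.charpoly_natDegree, finrank_euclideanSpace,
      Fintype.card_fin]
  have hpow : ∀ c : ℂ, c ^ m = (L.charpoly.roots.map (fun _ => c)).prod := by
    intro c
    rw [Multiset.map_const', Multiset.prod_replicate, hcard]
  have hlin : ∀ r : ℂ, LinearMap.det (aeval L (X - C r)) =
      (L.charpoly.roots.map (fun l => (X - C r).eval l)).prod := by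
    intro r
    have h1 : aeval L (X - C r) = (-1 : ℂ) • (algebraMap ℂ (Module.End ℂ (Ec m)) r - L) := by
      rw [map_sub, aeval_X, aeval_C, neg_one_smul, neg_sub]
    rw [h1, LinearMap.det_smul, finrank_euclideanSpace, Fintype.card_fin,
      ← LinearMap.eval_charpoly, hc.eval_eq_prod_roots_of_monic (LinearMap.charpoly_monic L),
      hpow, ← Multiset.prod_map_mul]
    congr 1
    apply Multiset.map_congr rfl
    intro l _
    simp
  have key : ∀ s : Multiset ℂ, LinearMap.det (aeval L ((s.map (fun r => X - C r)).prod)) =
      (L.charpoly.roots.map (fun l => ((s.map (fun r => X - C r)).prod).eval l)).prod := by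
    intro s
    induction s using Multiset.induction_on with
    | empty => simp
    | cons a s ih =>
      rw [Multiset.map_cons, Multiset.prod_cons, map_mul, map_mul, hlin, ih,
        ← Multiset.prod_map_mul]
      congr 1
      apply Multiset.map_congr rfl
      intro l _
      rw [eval_mul]
  have hq := hs.eq_prod_roots
  rw [hq, map_mul, map_mul, key, aeval_C]
  rw [Algebra.algebraMap_eq_smul_one, LinearMap.det_smul, finrank_euclideanSpace, Fintype.card_fin,
    map_one, mul_one, hpow, ← Multiset.prod_map_mul]
  congr 1
  apply Multiset.map_congr rfl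
  intro l _
  rw [eval_mul, eval_C]

/-- JOB Z1a.  `∏ (1 - λ^k) = det (1 - L^k)` (eigenvalues with multiplicity). -/
theorem powEv_charpoly {m : ℕ} (L : Ec m →ₗ[ℂ] Ec m) (k : ℕ) :
    PowEv L.charpoly k = LinearMap.det (1 - L ^ k) := by
  have h := det_aeval_aux L (1 - X ^ k)
  rw [map_sub, map_one, map_pow, aeval_X] at h
  rw [h, PowEv]
  congr 1
  apply Multiset.map_congr rfl
  intro l _
  simp

end

end FB
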