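import Mathlib

/-! # Part Z1: linear algebra (Z1d) -/

namespace FB

open scoped Topology ContDiff Manifold

universe u


section

/-- JOB Z1d.  Toeplitz determinants of trace sequences.  With `p = ∏_q charpoly (T q)` of degree
`d = ∑ finrank (H q) ≤ B`, monic, `p(T q) = 0` for all `q` (Cayley-Hamilton and commutativity), so
`∑_{l ≤ d} p_l L(a + l) = ∑_q (-1)^q tr(T_q^a p(T_q)) = 0` for `a ≥ 1`: a nontrivial relation between the rows
`0,…,d` of the matrix `(L(N+i-j))` (for the column `j` take `a = N - j ≥ 1`). -/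
theorem toeplitz_singular (R B N : ℕ) (hN : B < N) (H : ℕ → Type*) [∀ q, AddCommGroup (H q)]
    [∀ q, Module ℂ (H q)] [∀ q, FiniteDimensional ℂ (H q)] (T : ∀ q, H q →ₗ[ℂ] H q)
    (hB : ∑ q ∈ Finset.range (R + 1), Module.finrank ℂ (H q) ≤ B) (L : ℕ → ℂ)
    (hL : ∀ k, 1 ≤ k → L k = ∑ q ∈ Finset.range (R + 1),
      (-1 : ℂ) ^ q * LinearMap.trace ℂ (H q) (T q ^ k)) :
    (Matrix.of (fun i j : Fin (B + 1) => L (N + i - j))).det = 0 := by
  classical
  obtain ⟨p, hp⟩ : ∃ p : Polynomial ℂ, p = ∏ q ∈ Finset.range (R + 1), (T q).charpoly := ⟨_, rfl⟩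
  have hmon : p.Monic := by
    rw [hp]
    exact Polynomial.monic_prod_of_monic _ _ fun q _ => LinearMap.charpoly_monic (T q)
  have hdeg : p.natDegree ≤ B := by
    rw [hp, Polynomial.natDegree_prod_of_monic _ _ fun q _ => LinearMap.charpoly_monic (T q)]
    refine le_trans (le_of_eq ?_) hB
    exact Finset.sum_congr rfl fun q _ => LinearMap.charpoly_natDegree (T q)
  have hzero : ∀ q ∈ Finset.range (R + 1),
      ∑ i ∈ Finset.range (B + 1), p.coeff i • (T q) ^ i = 0 := by
    intro q hq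
    rw [← Polynomial.aeval_eq_sum_range' (Nat.lt_succ_of_le hdeg) (T q)]
    have hdvd : (T q).charpoly ∣ p := by
      rw [hp]
      exact Finset.dvd_prod_of_mem _ hq
    obtain ⟨r, hr⟩ := hdvd
    rw [hr, map_mul, LinearMap.aeval_self_charpoly, zero_mul]
  rw [← Matrix.exists_vecMul_eq_zero_iff]
  refine ⟨fun i => p.coeff i, ?_, ?_⟩
  · intro h
    have h1 := congrFun h ⟨p.natDegree, Nat.lt_succ_of_le hdeg⟩
    simp only [Pi.zero_apply] at h1
    have h2 : p.coeff p.natDegree = 1 := hmon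
    rw [h2] at h1
    exact one_ne_zero h1
  · funext j
    rw [Pi.zero_apply]
    show ∑ i : Fin (B + 1), p.coeff (i : ℕ) * L (N + i - j) = 0
    have hj : (j : ℕ) < N := lt_of_lt_of_le j.2 hN
    have h1 : ∀ i : Fin (B + 1), p.coeff (i : ℕ) * L (N + i - j) =
        ∑ q ∈ Finset.range (R + 1), (-1 : ℂ) ^ q *
          (p.coeff (i : ℕ) * LinearMap.trace ℂ (H q) (T q ^ ((N - j) + (i : ℕ)))) := by
      intro i
      have e : N + (i : ℕ) - (j : ℕ) = (N - j) + i := by omega
      rw [e, hL _ (by omega), Finset.mul_sum]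
      refine Finset.sum_congr rfl fun q _ => ?_
      ring
    rw [Finset.sum_congr rfl fun i _ => h1 i, Finset.sum_comm]
    refine Finset.sum_eq_zero fun q hq => ?_
    rw [← Finset.mul_sum]
    have h2 : ∑ i : Fin (B + 1), p.coeff (i : ℕ) *
        LinearMap.trace ℂ (H q) (T q ^ ((N - j) + (i : ℕ))) =
        LinearMap.trace ℂ (H q) (T q ^ (N - (j : ℕ)) *
          ∑ i ∈ Finset.range (B + 1), p.coeff i • (T q) ^ i) := by
      rw [Finset.mul_sum, map_sum, ← Fin.sum_univ_eq_sum_range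
        (fun i => LinearMap.trace ℂ (H q) (T q ^ (N - (j : ℕ)) * p.coeff i • (T q) ^ i))]
      refine Finset.sum_congr rfl fun i _ => ?_
      rw [mul_smul_comm, map_smul, smul_eq_mul, pow_add]
    rw [h2, hzero q hq, mul_zero, map_zero, mul_zero]

end

end FB
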