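import Mathlib

/-! # Part Z1: linear algebra (Z1e) -/

namespace FB

open scoped Topology ContDiff Manifold

universe u


section

private theorem charpoly_eval_zero_ne {V : Type*} [AddCommGroup V] [Module ℂ V]
    [FiniteDimensional ℂ V] (T : V →ₗ[ℂ] V) (h : Function.Bijective T) :
    T.charpoly.eval 0 ≠ 0 := by
  rw [← Polynomial.coeff_zero_eq_eval_zero]
  intro h0
  have hdet : LinearMap.det T = 0 := by
    rw [LinearMap.det_eq_sign_charpoly_coeff, h0, mul_zero]
  have hu : IsUnit (LinearMap.det T) := by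
    have := LinearEquiv.isUnit_det' (LinearEquiv.ofBijective T h)
    exact this
  rw [hdet] at hu
  exact not_isUnit_zero hu

/-- JOB Z1d.  Fuller's argument: if all the alternating traces of the positive powers of invertible maps
vanish then the Euler characteristic vanishes.  `p = ∏ charpoly (T q)`, `p(0) ≠ 0`,
`Q = 1 - p/p(0)` has `Q(0) = 0` and `Q(T q) = 1`; take alternating traces. -/
theorem euler_zero (R : ℕ) (H : ℕ → Type*) [∀ q, AddCommGroup (H q)]
    [∀ q, Module ℂ (H q)] [∀ q, FiniteDimensional ℂ (H q)] (T : ∀ q, H q →ₗ[ℂ] H q)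
    (hinv : ∀ q, Function.Bijective (T q))
    (hL : ∀ k, 1 ≤ k → ∑ q ∈ Finset.range (R + 1),
      (-1 : ℂ) ^ q * LinearMap.trace ℂ (H q) (T q ^ k) = 0) :
    ∑ q ∈ Finset.range (R + 1), (-1 : ℤ) ^ q * (Module.finrank ℂ (H q) : ℤ) = 0 := by
  classical
  set p : Polynomial ℂ := ∏ q ∈ Finset.range (R + 1), (T q).charpoly with hp
  have hp0 : p.eval 0 ≠ 0 := by
    rw [hp, Polynomial.eval_prod]
    exact Finset.prod_ne_zero_iff.2 fun q _ => charpoly_eval_zero_ne (T q) (hinv q)
  set Q : Polynomial ℂ := 1 - Polynomial.C (p.eval 0)⁻¹ * p with hQ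
  have hQ0 : Q.coeff 0 = 0 := by
    rw [Polynomial.coeff_zero_eq_eval_zero, hQ]
    simp only [Polynomial.eval_sub, Polynomial.eval_one, Polynomial.eval_mul, Polynomial.eval_C]
    rw [inv_mul_cancel₀ hp0, sub_self]
  have hpT : ∀ q ∈ Finset.range (R + 1), Polynomial.aeval (T q) p = 0 := by
    intro q hq
    obtain ⟨r, hr⟩ := Finset.dvd_prod_of_mem (fun q => (T q).charpoly) hq
    rw [hp, hr, map_mul, LinearMap.aeval_self_charpoly, zero_mul]
  have hQT : ∀ q ∈ Finset.range (R + 1), Polynomial.aeval (T q) Q = 1 := by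
    intro q hq
    rw [hQ, map_sub, map_mul, hpT q hq, mul_zero, sub_zero, map_one]
  have htr : ∀ q ∈ Finset.range (R + 1), (Module.finrank ℂ (H q) : ℂ) =
      ∑ i ∈ Finset.range (Q.natDegree + 1), Q.coeff i * LinearMap.trace ℂ (H q) (T q ^ i) := by
    intro q hq
    have h1 : LinearMap.trace ℂ (H q) (Polynomial.aeval (T q) Q) = (Module.finrank ℂ (H q) : ℂ) := by
      rw [hQT q hq, LinearMap.trace_one]
    rw [← h1, Polynomial.aeval_eq_sum_range, map_sum]
    refine Finset.sum_congr rfl fun i _ => ?_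
    rw [map_smul, smul_eq_mul]
  have hfin : ∑ q ∈ Finset.range (R + 1), (-1 : ℂ) ^ q * (Module.finrank ℂ (H q) : ℂ) = 0 := by
    calc ∑ q ∈ Finset.range (R + 1), (-1 : ℂ) ^ q * (Module.finrank ℂ (H q) : ℂ)
        = ∑ q ∈ Finset.range (R + 1), ∑ i ∈ Finset.range (Q.natDegree + 1),
            Q.coeff i * ((-1 : ℂ) ^ q * LinearMap.trace ℂ (H q) (T q ^ i)) := by
          refine Finset.sum_congr rfl fun q hq => ?_
          rw [htr q hq, Finset.mul_sum]
          refine Finset.sum_congr rfl fun i _ => ?_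
          ring
      _ = ∑ i ∈ Finset.range (Q.natDegree + 1), ∑ q ∈ Finset.range (R + 1),
            Q.coeff i * ((-1 : ℂ) ^ q * LinearMap.trace ℂ (H q) (T q ^ i)) := Finset.sum_comm
      _ = ∑ i ∈ Finset.range (Q.natDegree + 1), 0 := by
          refine Finset.sum_congr rfl fun i _ => ?_
          rw [← Finset.mul_sum]
          rcases Nat.eq_zero_or_pos i with rfl | hi
          · rw [hQ0, zero_mul]
          · rw [hL i hi, mul_zero]
      _ = 0 := Finset.sum_const_zero
  have hcast : ((∑ q ∈ Finset.range (R + 1), (-1 : ℤ) ^ q * (Module.finrank ℂ (H q) : ℤ) : ℤ) : ℂ) =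
      ((0 : ℤ) : ℂ) := by
    push_cast
    exact hfin
  exact Int.cast_injective hcast

end

end FB
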