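import Pool.Agent.H.MP_fb873c_an.S0

/-! # Part Z2: complex manifolds, derivatives (Z2a) -/

namespace FB

open scoped Topology ContDiff Manifold

universe u


section

variable {m : ℕ} {X : Type u} [TopologicalSpace X] [ChartedSpace (Ec m) X]

private theorem z2a_trans (hX : IsManifold 𝓘(ℂ, Ec m) ω X) {e e' : OpenPartialHomeomorph X (Ec m)}
    (he : e ∈ atlas (Ec m) X) (he' : e' ∈ atlas (Ec m) X) :
    ContDiffOn ℂ ω (e' ∘ e.symm) (e.symm ≫ₕ e').source := by
  have h := StructureGroupoid.compatible (contDiffGroupoid ω 𝓘(ℂ, Ec m)) he he'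
  rw [contDiffGroupoid, mem_groupoid_of_pregroupoid] at h
  have h2 := h.1
  simpa [contDiffPregroupoid] using h2

/-- JOB Z2a.  A complex manifold is a real manifold (`isManifold_of_contDiffOn`, transition maps are `ContDiffOn ℂ ω`,
hence `ContDiffOn ℝ ∞` by `restrict_scalars`). -/
theorem isManifold_real (hX : IsManifold 𝓘(ℂ, Ec m) ω X) : IsManifold 𝓘(ℝ, Ec m) ∞ X := by
  refine isManifold_of_contDiffOn 𝓘(ℝ, Ec m) ∞ X fun e e' he he' => ?_
  have h := z2a_trans hX he he'
  have h2 : ContDiffOn ℝ ∞ (e' ∘ e.symm) (e.symm ≫ₕ e').source :=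
    (h.restrict_scalars ℝ).of_le le_top
  simpa using h2

/-- JOB Z2a.  The derivatives of the transition maps are complex linear. -/
theorem trd_complex (hX : IsManifold 𝓘(ℂ, Ec m) ω X) (x0 x1 p : X)
    (h0 : p ∈ (chartAt (Ec m) x0).source) (h1 : p ∈ (chartAt (Ec m) x1).source) (v : Ec m) :
    trd (W := Ec m) x0 x1 p (Complex.I • v) = Complex.I • trd (W := Ec m) x0 x1 p v := by
  have h := z2a_trans hX (chart_mem_atlas (Ec m) x0) (chart_mem_atlas (Ec m) x1)
  have hmem : chartAt (Ec m) x0 p ∈ ((chartAt (Ec m) x0).symm ≫ₕ (chartAt (Ec m) x1)).source := by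
    rw [OpenPartialHomeomorph.trans_source, OpenPartialHomeomorph.symm_source]
    refine ⟨(chartAt (Ec m) x0).map_source h0, ?_⟩
    rw [Set.mem_preimage, (chartAt (Ec m) x0).left_inv h0]
    exact h1
  have hd : DifferentiableAt ℂ (chartAt (Ec m) x1 ∘ (chartAt (Ec m) x0).symm)
      (chartAt (Ec m) x0 p) :=
    (h.contDiffAt (((chartAt (Ec m) x0).symm ≫ₕ (chartAt (Ec m) x1)).open_source.mem_nhds
      hmem)).differentiableAt (by simp)
  unfold trd
  rw [hd.fderiv_restrictScalars ℝ]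
  exact (fderiv ℂ (chartAt (Ec m) x1 ∘ (chartAt (Ec m) x0).symm) (chartAt (Ec m) x0 p)).map_smul
    Complex.I v

end

end FB
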