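import Pool.Agent.H.MP_fb873c_an.Z2c

/-! # Part Z2: complex manifolds, derivatives (Z2d) -/

namespace FB

open scoped Topology ContDiff Manifold

universe u


section

variable {m : ℕ} {X : Type u} [TopologicalSpace X] [ChartedSpace (Ec m) X]
  [IsManifold 𝓘(ℝ, Ec m) ∞ X]

/-- JOB Z2d.  The characteristic polynomial of `DG_z`, `G = F^k`, is constant along the orbit of the fixed point `z` of `G`
(`DG_{Fz} ∘ DF_z = DF_z ∘ DG_z`, and `DF_z` is invertible because `F' ∘ F = id`). -/
theorem charpoly_cfd_orbit (hX : IsManifold 𝓘(ℂ, Ec m) ω X) {F F' : X → X} (hF : Holo m F)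
    (hF' : ContMDiff 𝓘(ℝ, Ec m) 𝓘(ℝ, Ec m) ∞ F') (hinv : ∀ z, F' (F z) = z) (k : ℕ) {z : X}
    (hz : F^[k] z = z) :
    (cfd (m := m) (F^[k]) (F z)).toLinearMap.charpoly = (cfd (m := m) (F^[k]) z).toLinearMap.charpoly := by
  have hG : Holo m (F^[k]) := hF.iterate k
  -- the derivative of `F` at `z` is injective
  have e1 : fd (W := Ec m) (W' := Ec m) (F' ∘ F) z =
      (fd (W := Ec m) (W' := Ec m) F' (F z)).comp (fd (W := Ec m) (W' := Ec m) F z) :=
    fd_comp hF.2 hF' z
  have e2 : F' ∘ F = (id : X → X) := funext hinv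
  rw [e2, fd_id (W := Ec m) z, fd_eq_cfd hX hF.1 z] at e1
  have hinj : Function.Injective (cfd (m := m) F z).toLinearMap := by
    intro u v huv
    have h1 := congrArg (fun L : Ec m →L[ℝ] Ec m => L u) e1
    have h2 := congrArg (fun L : Ec m →L[ℝ] Ec m => L v) e1
    have h3 : u = fd (W := Ec m) (W' := Ec m) F' (F z) (cfd (m := m) F z u) := h1
    have h4 : v = fd (W := Ec m) (W' := Ec m) F' (F z) (cfd (m := m) F z v) := h2
    have h5 : cfd (m := m) F z u = cfd (m := m) F z v := huv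
    rw [h3, h4, h5]
  let A : Ec m ≃ₗ[ℂ] Ec m := LinearEquiv.ofInjectiveEndo (cfd (m := m) F z).toLinearMap hinj
  -- the two compositions
  have c1 : cfd (m := m) (F ∘ F^[k]) z =
      (cfd (m := m) F (F^[k] z)).comp (cfd (m := m) (F^[k]) z) := cfd_comp hX hG hF z
  have c2 : cfd (m := m) (F^[k] ∘ F) z =
      (cfd (m := m) (F^[k]) (F z)).comp (cfd (m := m) F z) := cfd_comp hX hF hG z
  have c3 : F ∘ F^[k] = F^[k] ∘ F := by
    rw [← Function.iterate_succ, ← Function.iterate_succ']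
  rw [hz, c3, c2] at c1
  have c4 : (cfd (m := m) (F^[k]) (F z)).toLinearMap =
      A.conj (cfd (m := m) (F^[k]) z).toLinearMap := by
    refine LinearMap.ext fun v => ?_
    obtain ⟨u, rfl⟩ := A.surjective v
    rw [LinearEquiv.conj_apply_apply, A.symm_apply_apply]
    exact congrArg (fun L : Ec m →L[ℂ] Ec m => L u) c1
  rw [c4, LinearEquiv.charpoly_conj]

end

end FB
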