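import Pool.Agent.H.MP_fb873c_an.L0

/-! Part L6: the de Rham and Dolbeault types; traces. -/

namespace FB

open MeasureTheory
open scoped Topology ContDiff

/-- Pull-back of forms by a real-linear map, as a complex-linear map. -/
noncomputable def pbk {W W' : Type} [NormedAddCommGroup W] [NormedSpace ℝ W]
    [NormedAddCommGroup W'] [NormedSpace ℝ W'] (L : W →L[ℝ] W') (q : ℕ) : Lam W' q →ₗ[ℂ] Lam W q where
  toFun α := α.compContinuousLinearMap L
  map_add' _ _ := rfl
  map_smul' _ _ := rfl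

/-- The trace of `α ↦ pi (L^* α)` on `q`-forms. -/
noncomputable def Ty.sig {W : Type} [NormedAddCommGroup W] [InnerProductSpace ℝ W] (T : Ty W)
    (q : ℕ) (L : W →L[ℝ] W) : ℂ :=
  LinearMap.trace ℂ (Lam W q) ((T.pi q).toLinearMap ∘ₗ pbk L q)

/-- `ℂ^m` as a Euclidean space. -/
abbrev Ec (m : ℕ) : Type := EuclideanSpace ℂ (Fin m)

/-- Multiplication by `i` on `ℂ^m` as a real-linear map. -/
noncomputable def JE (m : ℕ) : Ec m →L[ℝ] Ec m :=
  (Complex.I • ContinuousLinearMap.id ℂ (Ec m)).restrictScalars ℝ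

/-- `2^q` times the value of the `(0,q)`-part of `α` at `v`:
`∑_{s ⊆ {1..q}} i^{|s|} α(v with i v_j in the slots j ∈ s)`. -/
noncomputable def oq {m : ℕ} (q : ℕ) (α : Lam (Ec m) q) (v : Fin q → Ec m) : ℂ :=
  ∑ s : Finset (Fin q), Complex.I ^ s.card *
    α (fun i => if i ∈ s then Complex.I • v i else v i)

end FB
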