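import Mathlib

/-! Part L6d: principal minors -/

namespace FB

open MeasureTheory
open scoped Topology ContDiff

/-- JOB L6d.  Expansion of `det (1 - A)` in principal minors. -/
theorem det_one_sub_eq {m : ℕ} (A : Matrix (Fin m) (Fin m) ℂ) :
    (1 - A).det = ∑ S : Finset (Fin m), (-1 : ℂ) ^ S.card *
      (A.submatrix (fun i : S => (i : Fin m)) (fun i : S => (i : Fin m))).det := by
  have h1 : (1 - A).det = A.charpoly.eval 1 := by
    rw [Matrix.eval_charpoly, map_one]
  have hdeg : A.charpoly.natDegree = m := by
    rw [Matrix.charpoly_natDegree_eq_dim, Fintype.card_fin]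
  rw [h1, Polynomial.eval_eq_sum_range, hdeg]
  rw [← Finset.powerset_univ, Finset.sum_powerset, Finset.card_univ, Fintype.card_fin]
  rw [← Finset.sum_range_reflect]
  refine Finset.sum_congr rfl fun k hk => ?_
  rw [Finset.mem_range] at hk
  have h2 : m + 1 - 1 - k = Fintype.card (Fin m) - k := by rw [Fintype.card_fin]; omega
  rw [h2, Matrix.charpoly_coeff_eq_sum_minors A k (by rw [Fintype.card_fin]; omega), one_pow,
    mul_one, Finset.mul_sum]
  refine Finset.sum_congr rfl fun S hS => ?_
  rw [(Finset.mem_powersetCard.1 hS).2]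

end FB
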