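import Pool.Agent.H.MP_fb873c_an.L5a
import Pool.Agent.H.MP_fb873c_an.L6
import Pool.Agent.H.MP_fb873c_an.L6d

/-! Part L6c: trace formula -/

namespace FB

open MeasureTheory
open scoped Topology ContDiff

section aux

variable {m q : ℕ}

/-- the sum of the principal minors, over sequences of indices -/
private theorem minors_sum (A : Matrix (Fin m) (Fin m) ℂ) (q : ℕ) :
    ∑ f : Fin q → Fin m, (A.submatrix f f).det = (q.factorial : ℂ) *
      ∑ S ∈ Finset.univ.filter (fun S : Finset (Fin m) => S.card = q),
        (A.submatrix (fun i : S => (i : Fin m)) (fun i : S => (i : Fin m))).det := by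
  classical
  have h0 : ∑ f : Fin q → Fin m, (A.submatrix f f).det =
      ∑ f ∈ Finset.univ.filter (fun f : Fin q → Fin m => Function.Injective f),
        (A.submatrix f f).det := by
    symm
    refine Finset.sum_subset (Finset.filter_subset _ _) ?_
    intro f _ hf
    rw [Finset.mem_filter] at hf
    have hf' : ¬ Function.Injective f := fun h => hf ⟨Finset.mem_univ _, h⟩
    unfold Function.Injective at hf'
    push Not at hf'
    obtain ⟨i, j, hij, hne⟩ := hf'
    refine Matrix.det_zero_of_row_eq hne ?_
    funext k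
    rw [Matrix.submatrix_apply, Matrix.submatrix_apply, hij]
  have hmaps : ∀ f ∈ Finset.univ.filter (fun f : Fin q → Fin m => Function.Injective f),
      Finset.univ.image f ∈ Finset.univ.filter (fun S : Finset (Fin m) => S.card = q) := by
    intro f hf
    rw [Finset.mem_filter] at hf ⊢
    refine ⟨Finset.mem_univ _, ?_⟩
    rw [Finset.card_image_of_injective _ hf.2, Finset.card_univ, Fintype.card_fin]
  rw [h0, ← Finset.sum_fiberwise_of_maps_to hmaps, Finset.mul_sum]
  refine Finset.sum_congr rfl fun S hS => ?_
  have hSc : S.card = q := (Finset.mem_filter.1 hS).2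
  have hcard : Fintype.card (Fin q ≃ S) = q.factorial := by
    rw [Fintype.card_equiv (Fintype.equivOfCardEq (by simp [hSc])), Fintype.card_fin]
  have h1 : ∑ e : Fin q ≃ S, (A.submatrix (fun i : S => (i : Fin m))
      (fun i : S => (i : Fin m))).det = ∑ f ∈ (Finset.univ.filter
        (fun f : Fin q → Fin m => Function.Injective f)).filter
          (fun f => Finset.univ.image f = S), (A.submatrix f f).det := by
    refine Finset.sum_bij (fun (e : Fin q ≃ S) _ => fun i => ((e i : S) : Fin m)) ?_ ?_ ?_ ?_
    · intro e _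
      rw [Finset.mem_filter, Finset.mem_filter]
      refine ⟨⟨Finset.mem_univ _, Subtype.val_injective.comp e.injective⟩, ?_⟩
      ext x
      rw [Finset.mem_image]
      constructor
      · rintro ⟨i, _, rfl⟩
        exact (e i).2
      · intro hx
        exact ⟨e.symm ⟨x, hx⟩, Finset.mem_univ _, by rw [Equiv.apply_symm_apply]⟩
    · intro e _ e' _ h
      ext i
      exact congrArg Fin.val (congrFun h i)
    · intro f hf
      rw [Finset.mem_filter, Finset.mem_filter] at hf
      obtain ⟨⟨_, hinj⟩, him⟩ := hf
      have hmem : ∀ i, f i ∈ S := by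
        intro i
        rw [← him]
        exact Finset.mem_image_of_mem _ (Finset.mem_univ _)
      have hb : Function.Bijective (fun i : Fin q => (⟨f i, hmem i⟩ : S)) := by
        refine ⟨fun i j h => hinj (congrArg Subtype.val h), ?_⟩
        rintro ⟨x, hx⟩
        rw [← him, Finset.mem_image] at hx
        obtain ⟨i, _, hi⟩ := hx
        exact ⟨i, Subtype.ext hi⟩
      exact ⟨Equiv.ofBijective _ hb, Finset.mem_univ _, rfl⟩
    · intro e _
      exact (Matrix.det_submatrix_equiv_self e
        (A.submatrix (fun i : S => (i : Fin m)) (fun i : S => (i : Fin m)))).symm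
  rw [← h1, Finset.sum_const, Finset.card_univ, hcard, nsmul_eq_mul]

/-- conjugate-linear in every slot -/
private def CL (β : Lam (Ec m) q) : Prop :=
  ∀ (v : Fin q → Ec m) (i : Fin q) (x : Ec m),
    β (Function.update v i (Complex.I • x)) = -Complex.I * β (Function.update v i x)

private theorem oq_cl (γ : Lam (Ec m) q) (v : Fin q → Ec m) (i : Fin q) (x : Ec m) :
    oq q γ (Function.update v i (Complex.I • x)) =
      -Complex.I * oq q γ (Function.update v i x) := by
  classical
  have hb1 : ∀ (t : Finset (Fin q)) (y : Ec m), i ∉ t →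
      (fun j => if j ∈ t then Complex.I • Function.update v i y j else Function.update v i y j) =
        Function.update (fun j => if j ∈ t then Complex.I • v j else v j) i y := by
    intro t y ht
    funext j
    by_cases hj : j = i
    · subst hj
      simp [ht]
    · simp [hj]
  have hb2 : ∀ (t : Finset (Fin q)) (y : Ec m), i ∉ t →
      (fun j => if j ∈ insert i t then Complex.I • Function.update v i y j
        else Function.update v i y j) =
        Function.update (fun j => if j ∈ t then Complex.I • v j else v j) i (Complex.I • y) := by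
    intro t y ht
    funext j
    by_cases hj : j = i
    · subst hj
      simp
    · simp [hj]
  have hsplit : ∀ y : Ec m, oq q γ (Function.update v i y) =
      ∑ t ∈ (Finset.univ.erase i).powerset, (Complex.I ^ t.card *
        γ (Function.update (fun j => if j ∈ t then Complex.I • v j else v j) i y) +
        Complex.I ^ (t.card + 1) *
        γ (Function.update (fun j => if j ∈ t then Complex.I • v j else v j) i
          (Complex.I • y))) := by
    intro y
    unfold oq
    have h1 : (Finset.univ : Finset (Finset (Fin q))) =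
        (insert i (Finset.univ.erase i)).powerset := by
      rw [Finset.insert_erase (Finset.mem_univ i), Finset.powerset_univ]
    rw [h1, Finset.sum_powerset_insert (Finset.notMem_erase i _), ← Finset.sum_add_distrib]
    refine Finset.sum_congr rfl fun t ht => ?_
    have hit : i ∉ t := fun h => Finset.notMem_erase i _ (Finset.mem_powerset.1 ht h)
    rw [hb1 t y hit, hb2 t y hit, Finset.card_insert_of_notMem hit]
  rw [hsplit, hsplit, Finset.mul_sum]
  refine Finset.sum_congr rfl fun t _ => ?_
  have h2 : Complex.I • Complex.I • x = (-1 : ℝ) • x := by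
    rw [smul_smul, Complex.I_mul_I, neg_smul, neg_smul, one_smul, one_smul]
  have h3 : γ (Function.update (fun j => if j ∈ t then Complex.I • v j else v j) i
      (Complex.I • Complex.I • x)) =
      - γ (Function.update (fun j => if j ∈ t then Complex.I • v j else v j) i x) := by
    rw [h2, γ.map_update_smul, neg_smul, one_smul]
  rw [h3, pow_succ]
  linear_combination (Complex.I ^ t.card * γ (Function.update
    (fun j => if j ∈ t then Complex.I • v j else v j) i (Complex.I • x))) * Complex.I_mul_I

private theorem CL.smul {β : Lam (Ec m) q} (hβ : CL β) (v : Fin q → Ec m) (i : Fin q) (c : ℂ)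
    (x : Ec m) : β (Function.update v i (c • x)) =
      (starRingEnd ℂ) c * β (Function.update v i x) := by
  have h1 : c • x = (c.re : ℝ) • x + (c.im : ℝ) • (Complex.I • x) := by
    have h2 : c = (c.re : ℂ) + (c.im : ℂ) * Complex.I := (Complex.re_add_im c).symm
    conv_lhs => rw [h2]
    rw [add_smul, mul_smul]
    rfl
  rw [h1, β.map_update_add, β.map_update_smul, β.map_update_smul, hβ]
  have h3 : (starRingEnd ℂ) c = (c.re : ℂ) - (c.im : ℂ) * Complex.I := by
    apply Complex.ext <;> simp
  rw [h3, Complex.real_smul, Complex.real_smul]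
  ring

private theorem CL.univ {β : Lam (Ec m) q} (hβ : CL β) (c : Fin q → ℂ) (w : Fin q → Ec m) :
    β (fun i => c i • w i) = (∏ i, (starRingEnd ℂ) (c i)) * β w := by
  classical
  have H : ∀ s : Finset (Fin q), β (s.piecewise (fun i => c i • w i) w) =
      (∏ i ∈ s, (starRingEnd ℂ) (c i)) * β w := by
    intro s
    induction s using Finset.induction_on with
    | empty => simp
    | insert a s ha ih =>
      rw [Finset.piecewise_insert, hβ.smul, Finset.prod_insert ha]
      have h1 : Function.update (s.piecewise (fun i => c i • w i) w) a (w a) =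
          s.piecewise (fun i => c i • w i) w := by
        rw [Function.update_eq_self_iff]
        exact (Finset.piecewise_eq_of_notMem _ _ _ ha).symm
      rw [h1, ih]
      ring
  have h2 := H Finset.univ
  rw [Finset.piecewise_univ] at h2
  exact h2

/-- standard basis vector -/
private noncomputable def e (j : Fin m) : Ec m := EuclideanSpace.single j (1 : ℂ)

private theorem expand (v : Ec m) : v = ∑ j, v j • e j := by
  have h := (EuclideanSpace.basisFun (Fin m) ℂ).sum_repr v
  conv_lhs => rw [← h]
  refine Finset.sum_congr rfl fun j _ => ?_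
  rw [EuclideanSpace.basisFun_apply, EuclideanSpace.basisFun_repr]
  rfl

private theorem CL.expand {β : Lam (Ec m) q} (hβ : CL β) (v : Fin q → Ec m) :
    β v = ∑ f : Fin q → Fin m, (∏ i, (starRingEnd ℂ) (v i (f i))) * β (fun i => e (f i)) := by
  have h1 : v = fun i => ∑ j, v i j • e j := by
    funext i
    exact FB.expand (v i)
  conv_lhs => rw [h1]
  rw [β.map_sum]
  exact Finset.sum_congr rfl fun f _ => hβ.univ (fun i => v i (f i)) (fun i => e (f i))

/-- determinant as a continuous alternating form -/
private noncomputable def detC (q : ℕ) : (Fin q → ℂ) [⋀^Fin q]→L[ℂ] ℂ :=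
  { Matrix.detRowAlternating (n := Fin q) (R := ℂ) with
    cont := Continuous.matrix_det continuous_id }

/-- conjugate of some coordinates -/
private noncomputable def cj (f : Fin q → Fin m) : Ec m →L[ℝ] (Fin q → ℂ) :=
  ContinuousLinearMap.pi fun j => (Complex.conjCLE : ℂ →L[ℝ] ℂ).comp
    ((EuclideanSpace.proj (𝕜 := ℂ) (f j) : Ec m →L[ℂ] ℂ).restrictScalars ℝ)

private noncomputable def eps (f : Fin q → Fin m) : Lam (Ec m) q :=
  ((detC q).restrictScalars ℝ).compContinuousLinearMap (cj f)

private theorem eps_apply (f : Fin q → Fin m) (v : Fin q → Ec m) :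
    eps f v = Matrix.det (Matrix.of fun i j => (starRingEnd ℂ) (v i (f j))) := rfl

private theorem eps_cl (f : Fin q → Fin m) : CL (eps f) := by
  classical
  intro v i x
  rw [eps_apply, eps_apply]
  have h1 : ∀ y : Ec m, (Matrix.of fun k j => (starRingEnd ℂ) (Function.update v i y k (f j))) =
      Matrix.updateRow (Matrix.of fun k j => (starRingEnd ℂ) (v k (f j))) i
        (fun j => (starRingEnd ℂ) (y (f j))) := by
    intro y
    ext k j
    by_cases hk : k = i
    · subst hk
      simp
    · simp [Matrix.updateRow_ne hk, Function.update_of_ne hk]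
  rw [h1, h1]
  have h2 : (fun j => (starRingEnd ℂ) ((Complex.I • x) (f j))) =
      (-Complex.I) • fun j => (starRingEnd ℂ) (x (f j)) := by
    funext j
    simp
  rw [h2, Matrix.det_updateRow_smul]

private theorem CL.comp {β : Lam (Ec m) q} (hβ : CL β) (L : Ec m →L[ℂ] Ec m) :
    CL (β.compContinuousLinearMap (L.restrictScalars ℝ)) := by
  intro v i x
  have h1 : ∀ y : Ec m, (β.compContinuousLinearMap (L.restrictScalars ℝ))
      (Function.update v i y) = β (Function.update (fun j => L (v j)) i (L y)) := by
    intro y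
    rw [ContinuousAlternatingMap.compContinuousLinearMap_apply]
    congr 1
    funext j
    by_cases hj : j = i
    · subst hj
      simp
    · simp [Function.update_of_ne hj]
  rw [h1, h1, map_smul, hβ]

private theorem CL.recon {β : Lam (Ec m) q} (hβ : CL β) :
    β = ((q.factorial : ℂ)⁻¹) • ∑ f : Fin q → Fin m, β (fun i => e (f i)) • eps f := by
  ext v
  rw [ContinuousAlternatingMap.smul_apply, ContinuousAlternatingMap.sum_apply, smul_eq_mul]
  have h1 : ∀ f : Fin q → Fin m, (β (fun i => e (f i)) • eps f) v =
      ∑ σ : Equiv.Perm (Fin q), ((Equiv.Perm.sign σ : ℤ) : ℂ) *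
        ((∏ i, (starRingEnd ℂ) (v (σ i) (f i))) * β (fun i => e (f i))) := by
    intro f
    rw [ContinuousAlternatingMap.smul_apply, eps_apply, Matrix.det_apply', smul_eq_mul,
      Finset.mul_sum]
    refine Finset.sum_congr rfl fun σ _ => ?_
    simp only [Matrix.of_apply]
    ring
  rw [Finset.sum_congr rfl fun f _ => h1 f, Finset.sum_comm]
  have h2 : ∀ σ : Equiv.Perm (Fin q), ∑ f : Fin q → Fin m, ((Equiv.Perm.sign σ : ℤ) : ℂ) *
      ((∏ i, (starRingEnd ℂ) (v (σ i) (f i))) * β (fun i => e (f i))) = β v := by
    intro σ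
    rw [← Finset.mul_sum, ← hβ.expand (fun i => v (σ i))]
    have h3 := β.toAlternatingMap.map_perm v σ
    have h4 : β (fun i => v (σ i)) = (Equiv.Perm.sign σ : ℤ) • β v := h3
    rw [h4, zsmul_eq_mul, ← mul_assoc, ← Int.cast_mul, Int.units_coe_mul_self, Int.cast_one,
      one_mul]
  rw [Finset.sum_congr rfl fun σ _ => h2 σ, Finset.sum_const, Finset.card_univ,
    Fintype.card_perm, Fintype.card_fin, nsmul_eq_mul, ← mul_assoc, inv_mul_cancel₀, one_mul]
  exact_mod_cast q.factorial_ne_zero

variable {T : Ty (Ec m)}
  (hT : ∀ (q : ℕ) (α : Lam (Ec m) q) (v : Fin q → Ec m), T.pi q α v = ((2 : ℂ) ^ q)⁻¹ * oq q α v)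

include hT in
private theorem pi_cl (γ : Lam (Ec m) q) : CL (T.pi q γ) := by
  intro v i x
  rw [hT, hT, oq_cl]
  ring

include hT in
private theorem CL.pi {β : Lam (Ec m) q} (hβ : CL β) : T.pi q β = β := by
  ext v
  rw [hT]
  unfold oq
  have h1 : ∀ s : Finset (Fin q), Complex.I ^ s.card *
      β (fun i => if i ∈ s then Complex.I • v i else v i) = β v := by
    intro s
    have h2 : (fun i => if i ∈ s then Complex.I • v i else v i) =
        fun i => (if i ∈ s then Complex.I else 1) • v i := by
      funext i
      split_ifs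
      · rfl
      · rw [one_smul]
    rw [h2, hβ.univ]
    have h3 : ∏ i, (starRingEnd ℂ) (if i ∈ s then Complex.I else 1) = (-Complex.I) ^ s.card := by
      have h4 : ∀ i, (starRingEnd ℂ) (if i ∈ s then Complex.I else 1) =
          if i ∈ s then -Complex.I else 1 := by
        intro i
        split_ifs <;> simp
      rw [Finset.prod_congr rfl fun i _ => h4 i, Finset.prod_ite_mem, Finset.univ_inter,
        Finset.prod_const]
    rw [h3, ← mul_assoc, ← mul_pow]
    have h5 : Complex.I * -Complex.I = 1 := by
      rw [mul_neg, Complex.I_mul_I, neg_neg]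
    rw [h5, one_pow, one_mul]
  rw [Finset.sum_congr rfl fun s _ => h1 s, Finset.sum_const, Finset.card_univ,
    Fintype.card_finset, Fintype.card_fin, nsmul_eq_mul]
  push_cast
  rw [← mul_assoc, inv_mul_cancel₀ (pow_ne_zero _ two_ne_zero), one_mul]

/-- matrix of `L` -/
private noncomputable def mat (L : Ec m →L[ℂ] Ec m) : Matrix (Fin m) (Fin m) ℂ :=
  Matrix.of fun i j => L (e j) i

include hT in
private theorem sig_eq (L : Ec m →L[ℂ] Ec m) : T.sig q (L.restrictScalars ℝ) =
    (q.factorial : ℂ)⁻¹ * ∑ f : Fin q → Fin m,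
      (starRingEnd ℂ) (((mat L).submatrix f f).det) := by
  have hfin : FiniteDimensional ℂ (Lam (Ec m) q) := lam_finite (W := Ec m) q
  let ι : ((Fin q → Fin m) → ℂ) →ₗ[ℂ] Lam (Ec m) q :=
    (q.factorial : ℂ)⁻¹ • Fintype.linearCombination ℂ (fun f => eps f)
  let κ : Lam (Ec m) q →ₗ[ℂ] ((Fin q → Fin m) → ℂ) :=
    { toFun := fun β f => β (fun i => e (f i))
      map_add' := fun _ _ => rfl
      map_smul' := fun _ _ => rfl }
  have hι : ∀ c, ι c = (q.factorial : ℂ)⁻¹ • ∑ f, c f • eps f := fun c => rfl
  have hPM : (T.pi q).toLinearMap ∘ₗ pbk (L.restrictScalars ℝ) q =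
      ι ∘ₗ (κ ∘ₗ (T.pi q).toLinearMap ∘ₗ pbk (L.restrictScalars ℝ) q) := by
    ext1 γ
    exact (pi_cl hT (pbk (L.restrictScalars ℝ) q γ)).recon
  unfold Ty.sig
  rw [hPM, LinearMap.trace_comp_comm', LinearMap.trace_eq_matrix_trace ℂ (Pi.basisFun ℂ _),
    Matrix.trace, Finset.mul_sum]
  refine Finset.sum_congr rfl fun f _ => ?_
  rw [Matrix.diag_apply, LinearMap.toMatrix_apply, Pi.basisFun_repr, Pi.basisFun_apply]
  have h1 : ι (Pi.single f 1) = (q.factorial : ℂ)⁻¹ • eps f := by
    rw [hι]
    congr 1
    rw [Finset.sum_eq_single f]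
    · rw [Pi.single_eq_same, one_smul]
    · intro g _ hg
      rw [Pi.single_eq_of_ne hg]
      exact zero_smul ℂ (eps g)
    · intro h
      exact absurd (Finset.mem_univ _) h
  have h2 : T.pi q (pbk (L.restrictScalars ℝ) q (eps f)) =
      (eps f).compContinuousLinearMap (L.restrictScalars ℝ) := ((eps_cl f).comp L).pi hT
  show T.pi q (pbk (L.restrictScalars ℝ) q (ι (Pi.single f 1))) (fun i => e (f i)) = _
  rw [h1, map_smul, map_smul, h2, ContinuousAlternatingMap.smul_apply, smul_eq_mul,
    ContinuousAlternatingMap.compContinuousLinearMap_apply, eps_apply]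
  congr 1
  rw [← Matrix.det_transpose ((mat L).submatrix f f), RingHom.map_det]
  rfl

end aux

/-- JOB L6c.  Trace formula.  The image of `pi` is the space of `q`-forms conjugate-linear in every slot
(`α(J v_i) = - i α(v)`), with basis `ε_S(v) = det (conj (v_i)_{s_j})` indexed by `q`-subsets
`S = {s_1<…<s_q}` of `{1..m}`; the coefficient of `ε_S` in `β` is `β(e_{s_1},…,e_{s_q})`, so
`sig q L = ∑_S conj det (L_{s_i s_j})`, zero for `q > m`, and
`∑_S (-1)^{|S|} det (L_{SS}) = det (1 - L)` (expand the determinant of `1 - L`).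
(The trace of `pi ∘ L^*` on all forms is its trace on the image of `pi`.) -/
theorem sig_dolb {m : ℕ} (T : Ty (Ec m))
    (hT : ∀ (q : ℕ) (α : Lam (Ec m) q) (v : Fin q → Ec m), T.pi q α v = ((2 : ℂ) ^ q)⁻¹ * oq q α v)
    (L : Ec m →L[ℂ] Ec m) :
    ∑ q ∈ Finset.range (2 * m + 1), (-1 : ℂ) ^ q * T.sig q (L.restrictScalars ℝ)
      = (starRingEnd ℂ) (LinearMap.det ((1 : Ec m →L[ℂ] Ec m) - L : Ec m →L[ℂ] Ec m).toLinearMap) := by
  classical
  have hq : ∀ q ∈ Finset.range (2 * m + 1), (-1 : ℂ) ^ q * T.sig q (L.restrictScalars ℝ) =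
      ∑ S ∈ Finset.univ.filter (fun S : Finset (Fin m) => S.card = q), (starRingEnd ℂ)
        ((-1 : ℂ) ^ S.card * ((mat L).submatrix (fun i : S => (i : Fin m))
          (fun i : S => (i : Fin m))).det) := by
    intro q _
    rw [sig_eq hT, ← map_sum, minors_sum, map_mul, map_natCast, ← mul_assoc _ (q.factorial : ℂ),
      inv_mul_cancel₀ (by exact_mod_cast q.factorial_ne_zero), one_mul, map_sum, Finset.mul_sum]
    refine Finset.sum_congr rfl fun S hS => ?_
    rw [(Finset.mem_filter.1 hS).2, map_mul, map_pow, map_neg, map_one]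
  rw [Finset.sum_congr rfl hq]
  have hmaps : ∀ S ∈ (Finset.univ : Finset (Finset (Fin m))), S.card ∈ Finset.range (2 * m + 1) := by
    intro S _
    have h := Finset.card_le_univ S
    rw [Fintype.card_fin] at h
    rw [Finset.mem_range]
    omega
  rw [Finset.sum_fiberwise_of_maps_to hmaps, ← map_sum, ← det_one_sub_eq]
  congr 1
  rw [← LinearMap.det_toMatrix (EuclideanSpace.basisFun (Fin m) ℂ).toBasis]
  congr 1
  ext i j
  rw [LinearMap.toMatrix_apply, OrthonormalBasis.coe_toBasis, EuclideanSpace.basisFun_apply,
    OrthonormalBasis.coe_toBasis_repr_apply, EuclideanSpace.basisFun_repr]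
  simp only [Matrix.sub_apply, Matrix.one_apply, mat, Matrix.of_apply, e]
  simp

end FB
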