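import Pool.Agent.H.MP_fb873c_an.L6

/-! # Part Z1: linear algebra (Z1b) -/

namespace FB

open scoped Topology ContDiff Manifold

universe u


section

/-- JOB Z1b. -/
theorem det_real_eq {m : ℕ} (L : Ec m →L[ℂ] Ec m) :
    LinearMap.det ((L.restrictScalars ℝ) - ContinuousLinearMap.id ℝ (Ec m)
      : Ec m →L[ℝ] Ec m).toLinearMap
      = Complex.normSq (LinearMap.det ((1 : Ec m →L[ℂ] Ec m) - L : Ec m →L[ℂ] Ec m).toLinearMap) := by
  have h1 : ((L.restrictScalars ℝ) - ContinuousLinearMap.id ℝ (Ec m)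
      : Ec m →L[ℝ] Ec m).toLinearMap =
      (((-1 : ℂ) • ((1 : Ec m →L[ℂ] Ec m) - L : Ec m →L[ℂ] Ec m).toLinearMap)).restrictScalars
        ℝ := by
    ext v i
    simp
  rw [h1, LinearMap.det_restrictScalars, Algebra.norm_complex_apply, LinearMap.det_smul,
    Complex.normSq_mul, map_pow, Complex.normSq_neg, Complex.normSq_one, one_pow, one_mul]

/-- JOB Z1b.  `conj d / |d|² = 1/d`. -/
theorem conj_div_normSq (d : ℂ) :
    (starRingEnd ℂ) d / ((|Complex.normSq d| : ℝ) : ℂ) = d⁻¹ := by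
  rw [abs_of_nonneg (Complex.normSq_nonneg d), Complex.inv_def, div_eq_mul_inv,
    Complex.ofReal_inv]

end

end FB
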