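import Pool.Agent.H.MP_fb873c_an.L6

/-! # Part Z2: complex manifolds, derivatives (Z2o) -/

namespace FB

open scoped Topology ContDiff Manifold

universe u


section

variable {m : ℕ} {X : Type u} [TopologicalSpace X] [ChartedSpace (Ec m) X]

/-- Complex derivative in the preferred charts. -/
noncomputable def cfd (F : X → X) (p : X) : Ec m →L[ℂ] Ec m :=
  fderiv ℂ (chartAt (Ec m) (F p) ∘ F ∘ (chartAt (Ec m) p).symm) (chartAt (Ec m) p p)

end

section

variable {m : ℕ} {X : Type u} [TopologicalSpace X] [ChartedSpace (Ec m) X]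
  [IsManifold 𝓘(ℝ, Ec m) ∞ X]

/-- A holomorphic map which is also smooth (automatic, but both facts are carried along). -/
def Holo (m : ℕ) {X : Type u} [TopologicalSpace X] [ChartedSpace (Ec m) X] (F : X → X) : Prop :=
  MDifferentiable 𝓘(ℂ, Ec m) 𝓘(ℂ, Ec m) F ∧ ContMDiff 𝓘(ℝ, Ec m) 𝓘(ℝ, Ec m) ∞ F

end

end FB
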