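import Pool.Agent.H.MP_fb873c_an.S0
import Pool.Agent.H.MP_fb873c_an.Z2o

/-! # Part Z2: complex manifolds, derivatives (Z2b) -/

namespace FB

open scoped Topology ContDiff Manifold

universe u


section

variable {m : ℕ} {X : Type u} [TopologicalSpace X] [ChartedSpace (Ec m) X]

/-- JOB Z2b.  For holomorphic maps the real derivative is the complex derivative. -/
theorem fd_eq_cfd (hX : IsManifold 𝓘(ℂ, Ec m) ω X) {F : X → X}
    (hF : MDifferentiable 𝓘(ℂ, Ec m) 𝓘(ℂ, Ec m) F) (p : X) :
    fd (W := Ec m) (W' := Ec m) F p = (cfd (m := m) F p).restrictScalars ℝ := by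
  have h1 : DifferentiableAt ℂ (chartAt (Ec m) (F p) ∘ F ∘ (chartAt (Ec m) p).symm)
      (chartAt (Ec m) p p) := by
    have h2 := ((mdifferentiableAt_iff F p).1 (hF p)).2
    rw [modelWithCornersSelf_coe, Set.range_id] at h2
    exact h2.differentiableAt Filter.univ_mem
  exact (h1.hasFDerivAt.restrictScalars ℝ).fderiv

end

end FB
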