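import Pool.Agent.H.MP_fb873c_an.E2d
import Pool.Agent.H.MP_fb873c_an.L6c
import Pool.Agent.H.MP_fb873c_an.Z1b
import Pool.Agent.H.MP_fb873c_an.Z2b

/-! # Part Z2: complex manifolds, derivatives (Z2e) -/

namespace FB

open scoped Topology ContDiff Manifold

universe u


section

variable {m : ℕ} {X : Type u} [TopologicalSpace X] [ChartedSpace (Ec m) X]
  [IsManifold 𝓘(ℝ, Ec m) ∞ X]

/-- JOB Z2e.  The fixed point formula for the Dolbeault type: with `D = DF_z` (complex),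
`∑_q (-1)^q sig_q(D) / |det_ℝ (D - 1)| = conj det_ℂ(1 - D) / |det_ℂ(1-D)|² = 1 / det_ℂ (1 - D)`
(`lefschetz_formula`, `sig_dolb`, `det_real_eq`, `conj_div_normSq`, `finrank ℝ (Ec m) = 2 m`;
`fderiv ℝ (Floc F z) (chart z z) = fd F z` at a fixed point). -/
theorem lef_holo [CompactSpace X] [T2Space X] (hXc : IsManifold 𝓘(ℂ, Ec m) ω X) (T : Ty (Ec m))
    (hT : ∀ (q : ℕ) (α : Lam (Ec m) q) (v : Fin q → Ec m), T.pi q α v = ((2 : ℂ) ^ q)⁻¹ * oq q α v)
    (hX : TGood T X) {F : X → X} (hFh : Holo m F)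
    (hF : ContMDiff 𝓘(ℝ, Ec m) 𝓘(ℝ, Ec m) ∞ F)
    (hFT : ∀ p, fd (W := Ec m) (W' := Ec m) F p ∈ T.good)
    (hfin : {z | F z = z}.Finite)
    (hnd : ∀ z, F z = z → LinearMap.det ((1 : Ec m →L[ℂ] Ec m) - cfd (m := m) F z
      : Ec m →L[ℂ] Ec m).toLinearMap ≠ 0) :
    Lef T hX F hF hFT = ∑ᶠ z ∈ {z | F z = z},
      (LinearMap.det ((1 : Ec m →L[ℂ] Ec m) - cfd (m := m) F z : Ec m →L[ℂ] Ec m).toLinearMap)⁻¹ := by
  have hZ : ∀ p, F p = p ↔ p ∈ hfin.toFinset := fun p => by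
    rw [Set.Finite.mem_toFinset]
    rfl
  have hfl : ∀ z, F z = z → fderiv ℝ (Floc F z) (chartAt (Ec m) z z) =
      (cfd (m := m) F z).restrictScalars ℝ := by
    intro z hz
    rw [← fd_eq_cfd hXc hFh.1 z]
    unfold fd Floc
    rw [hz]
  have hnd' : ∀ z ∈ hfin.toFinset, LinearMap.det (fderiv ℝ (Floc F z) (chartAt (Ec m) z z)
      - ContinuousLinearMap.id ℝ (Ec m) : Ec m →L[ℝ] Ec m).toLinearMap ≠ 0 := by
    intro z hz
    have hz' := (hZ z).2 hz
    rw [hfl z hz', det_real_eq]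
    exact (Complex.normSq_pos.2 (hnd z hz')).ne'
  have hfr : Module.finrank ℝ (Ec m) = 2 * m := by
    have h := finrank_real_of_complex (Ec m)
    rw [finrank_euclideanSpace_fin] at h
    exact h
  rw [lefschetz_formula T hX hF hFT hfin.toFinset hZ hnd',
    finsum_mem_eq_finite_toFinset_sum _ hfin]
  refine Finset.sum_congr rfl fun z hz => ?_
  have hz' := (hZ z).2 hz
  rw [hfl z hz', hfr, sig_dolb T hT, det_real_eq, conj_div_normSq]

end

end FB
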