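import Pool.Agent.H.MP_fb873c_an.G1e

/-! # Part Z2: complex manifolds, derivatives (Z2f) -/

namespace FB

open scoped Topology ContDiff Manifold

universe u


section

variable {n : ℕ} {M : Type u} [TopologicalSpace M] [ChartedSpace (Er n) M] [IsManifold (𝓡 n) ∞ M]
variable {m : ℕ} {X : Type u} [TopologicalSpace X] [ChartedSpace (Ec m) X]
  [IsManifold 𝓘(ℝ, Ec m) ∞ X]

/-- JOB Z2f.  The derivative at a fixed point and the derivative of the conjugate map
(`e = fd Φ x`, inverse `fd Φ.symm (Φ x)`; `fd_comp`; `dfix φ x = fd φ x` since `φ x = x`). -/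
theorem dfix_conj (Φ : Diffeomorph (𝓡 n) 𝓘(ℝ, Ec m) M X ∞) (φ : M → M)
    (hφ : ContMDiff (𝓡 n) (𝓡 n) ∞ φ) (F : X → X) (hF : ∀ x, F (Φ x) = Φ (φ x)) (x : M) (hx : φ x = x) :
    ∃ e : Er n ≃ₗ[ℝ] Ec m, e.conj (dfix (n := n) φ x).toLinearMap
      = (fd (W := Ec m) (W' := Ec m) F (Φ x)).toLinearMap := by
  have hΦ : ContMDiff (𝓡 n) 𝓘(ℝ, Ec m) ∞ (Φ : M → X) := Φ.contMDiff
  have hΨ : ContMDiff 𝓘(ℝ, Ec m) (𝓡 n) ∞ (Φ.symm : X → M) := Φ.symm.contMDiff
  have hFe : F = (Φ : M → X) ∘ φ ∘ (Φ.symm : X → M) := by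
    funext y
    have := hF (Φ.symm y)
    rw [Diffeomorph.apply_symm_apply] at this
    exact this
  have hFs : ContMDiff 𝓘(ℝ, Ec m) 𝓘(ℝ, Ec m) ∞ F := by
    rw [hFe]
    exact hΦ.comp (hφ.comp hΨ)
  -- the two compositions
  have hc : F ∘ (Φ : M → X) = (Φ : M → X) ∘ φ := by
    funext y
    exact hF y
  have h1 := fd_comp (W := Er n) (W' := Ec m) (W'' := Ec m) hΦ hFs x
  have h2 := fd_comp (W := Er n) (W' := Er n) (W'' := Ec m) hφ hΦ x
  rw [hc, h2, hx] at h1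
  have hd : dfix (n := n) φ x = fd (W := Er n) (W' := Er n) φ x := by
    unfold dfix fd
    rw [hx]
  -- the inverse
  have h3 := fd_comp (W := Er n) (W' := Ec m) (W'' := Er n) hΦ hΨ x
  have h3' : (Φ.symm : X → M) ∘ (Φ : M → X) = id := by
    funext y
    simp
  rw [h3', fd_id] at h3
  have h4 := fd_comp (W := Ec m) (W' := Er n) (W'' := Ec m) hΨ hΦ (Φ x)
  have h4' : (Φ : M → X) ∘ (Φ.symm : X → M) = id := by
    funext y
    simp
  rw [h4', fd_id, Diffeomorph.symm_apply_apply] at h4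
  refine ⟨LinearEquiv.ofLinear (fd (W := Er n) (W' := Ec m) (Φ : M → X) x).toLinearMap
    (fd (W := Ec m) (W' := Er n) (Φ.symm : X → M) (Φ x)).toLinearMap ?_ ?_, ?_⟩
  · ext1 v
    have := congrArg (fun L : Ec m →L[ℝ] Ec m => L v) h4
    simpa using this.symm
  · ext1 v
    have := congrArg (fun L : Er n →L[ℝ] Er n => L v) h3
    simpa using this.symm
  · rw [hd]
    ext1 v
    have k1 := congrArg (fun L : Er n →L[ℝ] Ec m =>
      L (fd (W := Ec m) (W' := Er n) (Φ.symm : X → M) (Φ x) v)) h1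
    have k2 := congrArg (fun L : Ec m →L[ℝ] Ec m => L v) h4
    simp only [ContinuousLinearMap.comp_apply, ContinuousLinearMap.id_apply] at k1 k2
    rw [← k2] at k1
    simpa [LinearEquiv.conj_apply_apply] using k1

end

end FB
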