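import Pool.Agent.H.MP_fb873c_an.Z2b
import Pool.Agent.H.MP_fb873c_an.Z2f

/-! # Part Z2: complex manifolds, derivatives (Z2g) -/

namespace FB

open scoped Topology ContDiff Manifold

universe u


theorem Z2g_cp {m : ℕ} (A : Ec m →ₗ[ℂ] Ec m) :
    A.charpoly * A.charpoly.map (starRingEnd ℂ)
      = (LinearMap.charpoly (A.restrictScalars ℝ)).map (algebraMap ℝ ℂ) := by
  refine Polynomial.eq_of_infinite_eval_eq _ _ ?_
  refine (Set.infinite_range_of_injective Complex.ofReal_injective).mono ?_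
  rintro _ ⟨t, rfl⟩
  show (A.charpoly * A.charpoly.map (starRingEnd ℂ)).eval (t : ℂ) =
    ((LinearMap.charpoly (A.restrictScalars ℝ)).map (algebraMap ℝ ℂ)).eval (t : ℂ)
  have h1 : (A.charpoly.map (starRingEnd ℂ)).eval (t : ℂ) = (starRingEnd ℂ) (A.charpoly.eval (t : ℂ)) := by
    have h := Polynomial.eval₂_hom (p := A.charpoly) (starRingEnd ℂ) (t : ℂ)
    rw [Complex.conj_ofReal] at h
    rw [Polynomial.eval_map]
    exact h
  have h2 : ((LinearMap.charpoly (A.restrictScalars ℝ)).map (algebraMap ℝ ℂ)).eval (t : ℂ) =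
      (((LinearMap.charpoly (A.restrictScalars ℝ)).eval t : ℝ) : ℂ) := by
    rw [Polynomial.eval_map]
    exact Polynomial.eval₂_hom (algebraMap ℝ ℂ) t
  have h3 : (algebraMap ℝ (Module.End ℝ (Ec m)) t - A.restrictScalars ℝ) =
      (algebraMap ℂ (Module.End ℂ (Ec m)) (t : ℂ) - A).restrictScalars ℝ := by
    ext v
    simp
  rw [Polynomial.eval_mul, h1, h2, LinearMap.eval_charpoly, LinearMap.eval_charpoly, h3,
    LinearMap.det_restrictScalars, Algebra.norm_complex_apply, Complex.mul_conj]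

section

variable {n : ℕ} {M : Type u} [TopologicalSpace M] [ChartedSpace (Er n) M] [IsManifold (𝓡 n) ∞ M]
variable {m : ℕ} {X : Type u} [TopologicalSpace X] [ChartedSpace (Ec m) X]
  [IsManifold 𝓘(ℝ, Ec m) ∞ X]

/-- JOB Z2g.  Consequences for a holomorphic `F = Φ φ Φ⁻¹`. -/
theorem charpoly_dfix (hXc : IsManifold 𝓘(ℂ, Ec m) ω X) (Φ : Diffeomorph (𝓡 n) 𝓘(ℝ, Ec m) M X ∞)
    (φ : M → M) (hφ : ContMDiff (𝓡 n) (𝓡 n) ∞ φ) (F : X → X) (hFh : Holo m F)
    (hF : ∀ x, F (Φ x) = Φ (φ x)) (x : M) (hx : φ x = x) :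
    (cfd (m := m) F (Φ x)).toLinearMap.charpoly * (cfd (m := m) F (Φ x)).toLinearMap.charpoly.map (starRingEnd ℂ)
      = (LinearMap.charpoly (dfix (n := n) φ x).toLinearMap).map (algebraMap ℝ ℂ) := by
  obtain ⟨e, he⟩ := dfix_conj Φ φ hφ F hF x hx
  have h1 : LinearMap.charpoly (dfix (n := n) φ x).toLinearMap =
      LinearMap.charpoly (fd (W := Ec m) (W' := Ec m) F (Φ x)).toLinearMap := by
    rw [← he, LinearEquiv.charpoly_conj]
  rw [h1, fd_eq_cfd hXc hFh.1 (Φ x)]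
  exact Z2g_cp _

/-- JOB Z2g. -/
theorem det_ne_of_dfix (hXc : IsManifold 𝓘(ℂ, Ec m) ω X) (Φ : Diffeomorph (𝓡 n) 𝓘(ℝ, Ec m) M X ∞)
    (φ : M → M) (hφ : ContMDiff (𝓡 n) (𝓡 n) ∞ φ) (F : X → X) (hFh : Holo m F)
    (hF : ∀ x, F (Φ x) = Φ (φ x)) (x : M) (hx : φ x = x)
    (hnd : LinearMap.det ((dfix (n := n) φ x - ContinuousLinearMap.id ℝ (Er n)
      : Er n →L[ℝ] Er n)).toLinearMap ≠ 0) :
    LinearMap.det ((1 : Ec m →L[ℂ] Ec m) - cfd (m := m) F (Φ x) : Ec m →L[ℂ] Ec m).toLinearMap ≠ 0 := by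
  intro h0
  have h1 := charpoly_dfix hXc Φ φ hφ F hFh hF x hx
  have h2 := congrArg (Polynomial.eval (1 : ℂ)) h1
  rw [Polynomial.eval_mul, LinearMap.eval_charpoly, map_one] at h2
  have h3 : LinearMap.det ((1 : Module.End ℂ (Ec m)) - (cfd (m := m) F (Φ x)).toLinearMap) = 0 := h0
  rw [h3, zero_mul] at h2
  have h4 : ((LinearMap.charpoly (dfix (n := n) φ x).toLinearMap).map (algebraMap ℝ ℂ)).eval (1 : ℂ) =
      (((LinearMap.charpoly (dfix (n := n) φ x).toLinearMap).eval 1 : ℝ) : ℂ) := by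
    rw [Polynomial.eval_map, Polynomial.eval₂_at_one]
    rfl
  rw [h4, LinearMap.eval_charpoly, map_one] at h2
  have h5 : LinearMap.det ((1 : Module.End ℝ (Er n)) - (dfix (n := n) φ x).toLinearMap) = 0 := by
    exact_mod_cast h2.symm
  apply hnd
  have h6 : ((dfix (n := n) φ x - ContinuousLinearMap.id ℝ (Er n) : Er n →L[ℝ] Er n)).toLinearMap =
      (-1 : ℝ) • ((1 : Module.End ℝ (Er n)) - (dfix (n := n) φ x).toLinearMap) := by
    ext v
    simp
  rw [h6, LinearMap.det_smul, h5, mul_zero]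

end

end FB
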