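import Pool.Agent.H.MP_fb873c_an.Z3a

/-! # Part Z3: functoriality and comparison of the cohomology groups

Performance: see the remark in G2z.lean. (Z3b) -/

namespace FB

open scoped Topology ContDiff Manifold

universe u


section

variable {W : Type} [NormedAddCommGroup W] [InnerProductSpace ℝ W]
variable {X : Type u} [TopologicalSpace X] [ChartedSpace W X] [IsManifold 𝓘(ℝ, W) ∞ X]

/-- JOB Z3b.  (`FT_comp`, `FT_id`, induction on `k`, `Function.iterate_succ'` or `iterate_succ`.) -/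
theorem FT_iterate (T : Ty W) (hX : TGood T X) {F : X → X}
    (hF : ContMDiff 𝓘(ℝ, W) 𝓘(ℝ, W) ∞ F) (hFT : ∀ p, fd (W := W) (W' := W) F p ∈ T.good)
    (hs : ∀ k, ContMDiff 𝓘(ℝ, W) 𝓘(ℝ, W) ∞ (F^[k]))
    (hg : ∀ k p, fd (W := W) (W' := W) (F^[k]) p ∈ T.good) (k q : ℕ) :
    FT T hX (F^[k]) (hs k) (hg k) q = (FT T hX F hF hFT q) ^ k := by
  induction k with
  | zero =>
    refine LinearMap.ext fun a => ?_
    exact FT_id T hX (F := F^[0]) (fun x => rfl) (hs 0) (hg 0) q a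
  | succ k ih =>
    refine LinearMap.ext fun a => ?_
    have h := FT_comp T hX (F := F) (G := F^[k]) hF hFT (hs k) (hg k) (hs (k + 1)) (hg (k + 1)) q a
    rw [ih] at h
    rw [pow_succ']
    exact h

/-- JOB Z3b.  (`FT_comp` and `FT_id`.) -/
theorem FT_bijective (T : Ty W) (hX : TGood T X) {F G : X → X}
    (hF : ContMDiff 𝓘(ℝ, W) 𝓘(ℝ, W) ∞ F) (hFT : ∀ p, fd (W := W) (W' := W) F p ∈ T.good)
    (hG : ContMDiff 𝓘(ℝ, W) 𝓘(ℝ, W) ∞ G) (hGT : ∀ p, fd (W := W) (W' := W) G p ∈ T.good)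
    (hid : ContinuousLinearMap.id ℝ W ∈ T.good)
    (h1 : ∀ x, G (F x) = x) (h2 : ∀ x, F (G x) = x) (q : ℕ) :
    Function.Bijective (FT T hX F hF hFT q) := by
  have e1 : G ∘ F = id := funext h1
  have e2 : F ∘ G = id := funext h2
  have g1 : ∀ p, fd (W := W) (W' := W) (G ∘ F) p ∈ T.good := by
    intro p
    rw [e1, fd_id]
    exact hid
  have g2 : ∀ p, fd (W := W) (W' := W) (F ∘ G) p ∈ T.good := by
    intro p
    rw [e2, fd_id]
    exact hid
  have r1 : ∀ a, FT T hX F hF hFT q (FT T hX G hG hGT q a) = a := by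
    intro a
    rw [← FT_comp T hX hF hFT hG hGT (hG.comp hF) g1 q a]
    exact FT_id T hX (F := G ∘ F) h1 (hG.comp hF) g1 q a
  have r2 : ∀ a, FT T hX G hG hGT q (FT T hX F hF hFT q a) = a := by
    intro a
    rw [← FT_comp T hX hG hGT hF hFT (hF.comp hG) g2 q a]
    exact FT_id T hX (F := F ∘ G) h2 (hF.comp hG) g2 q a
  refine ⟨?_, ?_⟩
  · intro a b hab
    rw [← r2 a, ← r2 b, hab]
  · intro a
    exact ⟨_, r1 a⟩

end

end FB
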