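import Pool.Agent.H.MP_fb873c_an.S0

/-! # Part S2: cohomology groups and invariant complex structures (statement-level definitions)

A complex structure on the smooth manifold `M` is given by a complex manifold `X` (holomorphic atlas with model
`ℂ^m`) and a diffeomorphism `Φ : M → X`; `f` preserves it when `Φ ∘ f ∘ Φ⁻¹` is holomorphic. -/

namespace FB

open scoped Topology ContDiff Manifold

universe u

section forms

variable {W : Type} [NormedAddCommGroup W] [NormedSpace ℝ W]
variable {X : Type u} [TopologicalSpace X] [ChartedSpace W X]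

theorem S2_rep_add {q : ℕ} (x0 : X) (η η' : X → Lam W q) :
    rep x0 (η + η') = fun z => rep x0 η z + rep x0 η' z := by
  funext z
  ext v
  rfl

theorem S2_rep_smul {q : ℕ} (x0 : X) (c : ℂ) (η : X → Lam W q) :
    rep x0 (c • η) = fun z => c • rep x0 η z := by
  funext z
  ext v
  rfl

theorem S2_add {q : ℕ} {η η' : X → Lam W q} (h : SmoothForm η) (h' : SmoothForm η') :
    SmoothForm (η + η') := by
  intro x0
  rw [S2_rep_add]
  exact (h x0).add (h' x0)

theorem S2_smul {q : ℕ} {η : X → Lam W q} (c : ℂ) (h : SmoothForm η) : SmoothForm (c • η) := by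
  intro x0
  rw [S2_rep_smul]
  exact (h x0).const_smul c

theorem S2_rep_zero {q : ℕ} (x0 : X) : rep x0 (0 : X → Lam W q) = fun _ => 0 := by
  funext z
  ext v
  rfl

theorem S2_zero {q : ℕ} : SmoothForm (0 : X → Lam W q) := by
  intro x0
  rw [S2_rep_zero]
  exact contDiffOn_const

theorem S2_at {q : ℕ} {η : X → Lam W q} (h : SmoothForm η) (p : X) :
    DifferentiableAt ℝ (rep p η) (chartAt W p p) :=
  ((h p).contDiffAt ((chartAt W p).open_target.mem_nhds
      ((chartAt W p).map_source (mem_chart_source W p)))).differentiableAt (by simp)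

theorem S2_dform_add {q : ℕ} {η η' : X → Lam W q} (h : SmoothForm η) (h' : SmoothForm η') (p : X) :
    dform (η + η') p = dform η p + dform η' p := by
  unfold dform
  rw [S2_rep_add]
  exact extDeriv_fun_add (S2_at h p) (S2_at h' p)

theorem S2_dform_smul {q : ℕ} {η : X → Lam W q} (c : ℂ) (h : SmoothForm η) (p : X) :
    dform (c • η) p = c • dform η p := by
  unfold dform
  rw [S2_rep_smul]
  unfold extDeriv
  have h1 : fderiv ℝ (fun z => c • rep p η z) (chartAt W p p) =
      c • fderiv ℝ (rep p η) (chartAt W p p) := fderiv_fun_const_smul (S2_at h p) c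
  rw [h1, ContinuousAlternatingMap.alternatizeUncurryFin_smul]

theorem S2_dform_zero {q : ℕ} (p : X) : dform (0 : X → Lam W q) p = 0 := by
  have h := S2_dform_add (S2_zero (W := W) (X := X) (q := q)) S2_zero p
  rw [add_zero] at h
  ext v
  have h' := congrArg (fun β : Lam W (q + 1) => β v) h
  have h2 : dform (0 : X → Lam W q) p v = dform (0 : X → Lam W q) p v + dform (0 : X → Lam W q) p v := h'
  show dform (0 : X → Lam W q) p v = 0
  exact left_eq_add.mp h2

end forms

section derham

/-- Closed complex valued smooth `q`-forms. -/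
def Zdr (n : ℕ) (M : Type u) [TopologicalSpace M] [ChartedSpace (Er n) M] (q : ℕ) :
    Submodule ℂ (M → Lam (Er n) q) where
  carrier := {α | SmoothForm α ∧ ∀ x, dform α x = 0}
  add_mem' {a b} ha hb := ⟨S2_add ha.1 hb.1, fun x => by
    rw [S2_dform_add ha.1 hb.1, ha.2, hb.2, add_zero]⟩
  zero_mem' := ⟨S2_zero, fun x => S2_dform_zero x⟩
  smul_mem' c a ha := ⟨S2_smul c ha.1, fun x => by
    rw [S2_dform_smul c ha.1, ha.2]
    ext v
    exact mul_zero c⟩

/-- Exact forms. -/
noncomputable def Bdr (n : ℕ) (M : Type u) [TopologicalSpace M] [ChartedSpace (Er n) M] :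
    ∀ q : ℕ, Submodule ℂ (M → Lam (Er n) q)
  | 0 => ⊥
  | q + 1 =>
    { carrier := {γ | ∃ β : M → Lam (Er n) q, SmoothForm β ∧ ∀ x, γ x = dform β x}
      add_mem' := by
        rintro a b ⟨β, h1, h2⟩ ⟨β', h3, h4⟩
        refine ⟨β + β', S2_add h1 h3, fun x => ?_⟩
        rw [S2_dform_add h1 h3, Pi.add_apply, h2, h4]
      zero_mem' := ⟨0, S2_zero, fun x => (S2_dform_zero x).symm⟩
      smul_mem' := by
        rintro c a ⟨β, h1, h2⟩
        refine ⟨c • β, S2_smul c h1, fun x => ?_⟩
        rw [S2_dform_smul c h1, Pi.smul_apply, h2] }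

/-- The Betti numbers: dimension of the de Rham cohomology with complex coefficients, the image of the closed
forms in the quotient of the space of forms by the exact forms. -/
noncomputable def betti (n : ℕ) (M : Type u) [TopologicalSpace M] [ChartedSpace (Er n) M] (q : ℕ) : ℕ :=
  Module.finrank ℂ ((Zdr n M q).map (Bdr n M q).mkQ)

/-- The Euler characteristic. -/
noncomputable def euler (n : ℕ) (M : Type u) [TopologicalSpace M] [ChartedSpace (Er n) M] : ℤ :=
  ∑ q ∈ Finset.range (n + 1), (-1 : ℤ) ^ q * (betti n M q : ℤ)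

end derham

section dolbeault

/-- `α` is of type `(0,q)`: conjugate-linear in every slot. -/
def IsType0 {m q : ℕ} (α : Lam (Ec m) q) : Prop :=
  ∀ (v : Fin q → Ec m) (j : Fin q) (x : Ec m),
    α (Function.update v j (Complex.I • x)) = -Complex.I * α (Function.update v j x)

theorem IsType0.add {m q : ℕ} {α β : Lam (Ec m) q} (h : IsType0 α) (h' : IsType0 β) :
    IsType0 (α + β) := fun v j x => by
  rw [ContinuousAlternatingMap.add_apply, ContinuousAlternatingMap.add_apply, h v j x, h' v j x, mul_add]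

theorem IsType0.smul {m q : ℕ} {α : Lam (Ec m) q} (c : ℂ) (h : IsType0 α) :
    IsType0 (c • α) := fun v j x => by
  rw [ContinuousAlternatingMap.smul_apply, ContinuousAlternatingMap.smul_apply, h v j x, smul_eq_mul,
    smul_eq_mul]
  ring

theorem isType0_zero {m q : ℕ} : IsType0 (0 : Lam (Ec m) q) := fun _ _ _ =>
  (mul_zero (-Complex.I)).symm

theorem oq_add {m q : ℕ} (α β : Lam (Ec m) q) (v : Fin q → Ec m) :
    oq q (α + β) v = oq q α v + oq q β v := by
  unfold oq
  rw [← Finset.sum_add_distrib]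
  refine Finset.sum_congr rfl fun s _ => ?_
  rw [ContinuousAlternatingMap.add_apply, mul_add]

theorem oq_smul {m q : ℕ} (c : ℂ) (α : Lam (Ec m) q) (v : Fin q → Ec m) :
    oq q (c • α) v = c * oq q α v := by
  unfold oq
  rw [Finset.mul_sum]
  refine Finset.sum_congr rfl fun s _ => ?_
  rw [ContinuousAlternatingMap.smul_apply, smul_eq_mul]
  ring

theorem oq_zero {m q : ℕ} (v : Fin q → Ec m) : oq q (0 : Lam (Ec m) q) v = 0 :=
  Finset.sum_eq_zero fun _ _ => mul_zero _

/-- `∂̄`-closed smooth `(0,q)`-forms: the `(0,q+1)`-part of `dα` vanishes. -/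
def Zdb (m : ℕ) (X : Type u) [TopologicalSpace X] [ChartedSpace (Ec m) X] (q : ℕ) :
    Submodule ℂ (X → Lam (Ec m) q) where
  carrier := {α | SmoothForm α ∧ (∀ x, IsType0 (α x)) ∧ ∀ x v, oq (q + 1) (dform α x) v = 0}
  add_mem' {a b} ha hb := ⟨S2_add ha.1 hb.1, fun x => (ha.2.1 x).add (hb.2.1 x), fun x v => by
    rw [S2_dform_add ha.1 hb.1, oq_add, ha.2.2, hb.2.2, add_zero]⟩
  zero_mem' := ⟨S2_zero, fun x => isType0_zero, fun x v => by rw [S2_dform_zero, oq_zero]⟩
  smul_mem' c a ha := ⟨S2_smul c ha.1, fun x => (ha.2.1 x).smul c, fun x v => by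
    rw [S2_dform_smul c ha.1, oq_smul, ha.2.2, mul_zero]⟩

/-- `∂̄`-exact `(0,q)`-forms: `γ` is the `(0,q)`-part `2^{-q} oq q (dβ)` of `dβ`, `β` of type `(0,q-1)`. -/
noncomputable def Bdb (m : ℕ) (X : Type u) [TopologicalSpace X] [ChartedSpace (Ec m) X] :
    ∀ q : ℕ, Submodule ℂ (X → Lam (Ec m) q)
  | 0 => ⊥
  | q + 1 =>
    { carrier := {γ | ∃ β : X → Lam (Ec m) q, SmoothForm β ∧ (∀ x, IsType0 (β x)) ∧
        ∀ x v, γ x v = ((2 : ℂ) ^ (q + 1))⁻¹ * oq (q + 1) (dform β x) v}
      add_mem' := by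
        rintro a b ⟨β, h1, h2, h3⟩ ⟨β', h1', h2', h3'⟩
        refine ⟨β + β', S2_add h1 h1', fun x => (h2 x).add (h2' x), fun x v => ?_⟩
        rw [S2_dform_add h1 h1', Pi.add_apply, ContinuousAlternatingMap.add_apply, h3, h3', oq_add,
          mul_add]
      zero_mem' := ⟨0, S2_zero, fun x => isType0_zero, fun x v => by
        rw [S2_dform_zero, oq_zero, mul_zero]; rfl⟩
      smul_mem' := by
        rintro c a ⟨β, h1, h2, h3⟩
        refine ⟨c • β, S2_smul c h1, fun x => (h2 x).smul c, fun x v => ?_⟩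
        rw [S2_dform_smul c h1, Pi.smul_apply, ContinuousAlternatingMap.smul_apply, h3, oq_smul,
          smul_eq_mul]
        ring }

/-- `h^{0,q}(X)`, the dimension of the Dolbeault cohomology group `H^{0,q}(X)` (image of the `∂̄`-closed
`(0,q)`-forms in the quotient by the `∂̄`-exact ones). -/
noncomputable def hodge0 (m : ℕ) (X : Type u) [TopologicalSpace X] [ChartedSpace (Ec m) X] (q : ℕ) : ℕ :=
  Module.finrank ℂ ((Zdb m X q).map (Bdb m X q).mkQ)

end dolbeault

section preserves

variable {n : ℕ} {M : Type u} [TopologicalSpace M] [ChartedSpace (Er n) M]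

/-- `f` preserves a complex structure on `M` isomorphic to the complex manifold `X`: for some diffeomorphism
`Φ : M → X` the map `Φ ∘ f ∘ Φ⁻¹` is holomorphic. -/
def Preserves (f : Dif n M) (m : ℕ) (X : Type u) [TopologicalSpace X] [ChartedSpace (Ec m) X] : Prop :=
  ∃ Φ : Diffeomorph (𝓡 n) 𝓘(ℝ, Ec m) M X ∞,
    MDifferentiable 𝓘(ℂ, Ec m) 𝓘(ℂ, Ec m) (fun z : X => Φ (f (Φ.symm z)))

end preserves

end FB
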