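import Mathlib

/-! # Part Z3: functoriality and comparison of the cohomology groups

Performance: see the remark in G2z.lean. (Z3c) -/

namespace FB

open scoped Topology ContDiff Manifold

universe u


section

/-- JOB Z3c.  Two surjective linear maps with the same kernel have targets of the same dimension. -/
theorem finrank_eq_of_surj {K H1 H2 : Type*} [AddCommGroup K] [Module ℂ K] [AddCommGroup H1]
    [Module ℂ H1] [AddCommGroup H2] [Module ℂ H2] (f1 : K →ₗ[ℂ] H1) (f2 : K →ₗ[ℂ] H2)
    (h1 : Function.Surjective f1) (h2 : Function.Surjective f2) (h : ∀ a, f1 a = 0 ↔ f2 a = 0) :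
    Module.finrank ℂ H1 = Module.finrank ℂ H2 := by
  have hk : LinearMap.ker f1 = LinearMap.ker f2 := by
    ext a
    rw [LinearMap.mem_ker, LinearMap.mem_ker]
    exact h a
  have e1 := f1.quotKerEquivOfSurjective h1
  have e2 := f2.quotKerEquivOfSurjective h2
  rw [← e1.finrank_eq, ← e2.finrank_eq, hk]

end

end FB
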