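import Pool.Agent.H.MP_fb873c_an.G2z
import Pool.Agent.H.MP_fb873c_an.S2
import Pool.Agent.H.MP_fb873c_an.Z3c

/-! # Part Z3: functoriality and comparison of the cohomology groups

Performance: see the remark in G2z.lean. (Z3d) -/

namespace FB

open scoped Topology ContDiff Manifold

universe u


section

variable {n : ℕ} {M : Type u} [TopologicalSpace M] [ChartedSpace (Er n) M] [IsManifold (𝓡 n) ∞ M]

private theorem Z3d_ker (T : Ty (Er n)) (hT : ∀ q α, T.pi q α = α) (hM : TGood T M) (q : ℕ)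
    (η : SFm T M q) : Dm T hM q η = 0 ↔ ∀ x, dform η.1 x = 0 := by
  constructor
  · intro h x
    have h1 := congrFun (congrArg Subtype.val h) x
    rw [Dm_apply, hT] at h1
    exact h1
  · intro h
    apply Subtype.ext
    funext x
    rw [Dm_apply, hT, h x]
    rfl

private theorem Z3d_Bd (T : Ty (Er n)) (hT : ∀ q α, T.pi q α = α) (hM : TGood T M) (q : ℕ)
    (η : SFm T M q) : η ∈ Bd (A := fun q => SFm T M q) (Dm T hM) q ↔ η.1 ∈ Bdr n M q := by
  cases q with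
  | zero =>
    constructor
    · intro h
      have h1 : η = 0 := h
      rw [h1]
      exact Submodule.zero_mem _
    · intro h
      have h1 : η.1 = 0 := h
      have h2 : η = 0 := Subtype.ext h1
      exact h2
  | succ q =>
    constructor
    · rintro ⟨β, hβ⟩
      refine ⟨β.1, β.2.1, fun x => ?_⟩
      rw [← hβ, Dm_apply, hT]
    · rintro ⟨β, h1, h2⟩
      refine ⟨⟨β, h1, fun p => hT _ _⟩, ?_⟩
      apply Subtype.ext
      funext x
      rw [Dm_apply, hT]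
      exact (h2 x).symm

private theorem Z3d_gen {A : ℕ → Type*} [∀ q, AddCommGroup (A q)] [∀ q, Module ℂ (A q)]
    (d : ∀ q, A q →ₗ[ℂ] A (q + 1)) (q : ℕ) {H2 : Type*} [AddCommGroup H2] [Module ℂ H2]
    (g : LinearMap.ker (d q) →ₗ[ℂ] H2) (hg : Function.Surjective g)
    (h : ∀ a, g a = 0 ↔ (a : A q) ∈ Bd d q) : Module.finrank ℂ (HC d q) = Module.finrank ℂ H2 :=
  finrank_eq_of_surj (HC.mk d q) g (HC.mk_surjective d q) hg fun a => by
    rw [HC.mk_eq_zero, h]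

private theorem Z3d_main (T : Ty (Er n)) (hT : ∀ q α, T.pi q α = α) (hM : TGood T M) (q : ℕ)
    (g : LinearMap.ker (Dm T hM q) →ₗ[ℂ] (Zdr n M q).map (Bdr n M q).mkQ)
    (hg : ∀ a, (g a : (M → Lam (Er n) q) ⧸ Bdr n M q) = (Bdr n M q).mkQ a.1.1) :
    Function.Surjective g ∧ ∀ a : LinearMap.ker (Dm T hM q), g a = 0 ↔ a.1.1 ∈ Bdr n M q := by
  constructor
  · rintro ⟨_, α, hα, rfl⟩
    refine ⟨⟨⟨α, hα.1, fun p => hT _ _⟩, ?_⟩, ?_⟩
    · rw [LinearMap.mem_ker]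
      exact (Z3d_ker T hT hM q _).2 hα.2
    · apply Subtype.ext
      exact hg _
  · intro a
    constructor
    · intro h
      have h1 := congrArg Subtype.val h
      rw [hg a] at h1
      exact (Submodule.Quotient.mk_eq_zero _).1 h1
    · intro h
      apply Subtype.ext
      rw [hg a]
      exact (Submodule.Quotient.mk_eq_zero _).2 h

private theorem Z3d_ex (T : Ty (Er n)) (hT : ∀ q α, T.pi q α = α) (hM : TGood T M) (q : ℕ) :
    ∃ g : LinearMap.ker (Dm T hM q) →ₗ[ℂ] (Zdr n M q).map (Bdr n M q).mkQ,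
      ∀ a, (g a : (M → Lam (Er n) q) ⧸ Bdr n M q) = (Bdr n M q).mkQ a.1.1 :=
  ⟨LinearMap.codRestrict _ ((Bdr n M q).mkQ ∘ₗ (SFm T M q).subtype ∘ₗ
    (LinearMap.ker (Dm T hM q)).subtype) fun a =>
      ⟨a.1.1, ⟨a.1.2.1, (Z3d_ker T hT hM q a.1).1 a.2⟩, rfl⟩, fun _ => rfl⟩

/-- JOB Z3d.  De Rham: `finrank_eq_of_surj` for `HC.mk : ker (Dm T hM q) → HT` and
`ker (Dm T hM q) → (Zdr n M q).map (Bdr n M q).mkQ`, `a ↦ [a.1.1]`. -/
theorem finrank_dr (T : Ty (Er n)) (hT : ∀ q α, T.pi q α = α) (hM : TGood T M) (q : ℕ) :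
    Module.finrank ℂ (HT T hM q) = betti n M q := by
  obtain ⟨g, hg⟩ := Z3d_ex T hT hM q
  obtain ⟨h1, h2⟩ := Z3d_main T hT hM q g hg
  have h3 : ∀ a : LinearMap.ker (Dm T hM q), g a = 0 ↔
      a.1 ∈ Bd (A := fun q => SFm T M q) (Dm T hM) q := fun a => by
    rw [h2 a, Z3d_Bd T hT hM q a.1]
  have h := Z3d_gen (A := fun q => SFm T M q) (Dm T hM) q g h1 h3
  exact h

end

end FB
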