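import Pool.Agent.H.MP_fb873c_an.L6b
import Pool.Agent.H.MP_fb873c_an.S2

/-! # Part Z3: functoriality and comparison of the cohomology groups

Performance: see the remark in G2z.lean. (Z3e1) -/

namespace FB

open scoped Topology ContDiff Manifold

universe u


section

variable {m : ℕ} {X : Type u} [TopologicalSpace X] [ChartedSpace (Ec m) X]
  [IsManifold 𝓘(ℝ, Ec m) ∞ X]

/-- JOB Z3e.  `T.pi q α = α` iff `α` is of type `(0,q)` (L6b_conj, L6b_id, L6b_vs_val). -/
theorem pi_eq_self_iff (T : Ty (Ec m))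
    (hT : ∀ (q : ℕ) (α : Lam (Ec m) q) (v : Fin q → Ec m), T.pi q α v = ((2 : ℂ) ^ q)⁻¹ * oq q α v)
    (q : ℕ) (α : Lam (Ec m) q) : T.pi q α = α ↔ IsType0 α := by
  constructor
  · intro h v j x
    have e : ∀ w : Fin q → Ec m, α w = ((2 : ℂ) ^ q)⁻¹ * oq q α w := by
      intro w
      rw [← hT q α w, h]
    rw [e (Function.update v j (Complex.I • x)), e (Function.update v j x), L6b_conj α v j x]
    ring
  · intro h
    ext v
    rw [hT q α v]
    exact L6b_id α h v

end

end FB
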