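import Pool.Agent.H.MP_fb873c_an.G2z
import Pool.Agent.H.MP_fb873c_an.Z3c
import Pool.Agent.H.MP_fb873c_an.Z3e1

/-! # Part Z3: functoriality and comparison of the cohomology groups

Performance: see the remark in G2z.lean. (Z3e) -/

namespace FB

open scoped Topology ContDiff Manifold

universe u

section

/-- Comparison of `HC d q` with the image of cocycles `Z` in the quotient by the coboundaries `B`. -/
theorem Z3e_gen {A : ℕ → Type*} [∀ q, AddCommGroup (A q)] [∀ q, Module ℂ (A q)]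
    (d : ∀ q, A q →ₗ[ℂ] A (q + 1)) (q : ℕ) {V : Type*} [AddCommGroup V] [Module ℂ V]
    (Z B : Submodule ℂ V) (i : A q →ₗ[ℂ] V) (h1 : ∀ a, d q a = 0 → i a ∈ Z)
    (h2 : ∀ z ∈ Z, ∃ a, d q a = 0 ∧ i a = z)
    (h3 : ∀ a, d q a = 0 → (a ∈ Bd d q ↔ i a ∈ B)) :
    Module.finrank ℂ (HC d q) = Module.finrank ℂ (Z.map B.mkQ) := by
  let f2 : LinearMap.ker (d q) →ₗ[ℂ] Z.map B.mkQ :=
    LinearMap.codRestrict (Z.map B.mkQ) (B.mkQ ∘ₗ i ∘ₗ (LinearMap.ker (d q)).subtype)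
      fun a => ⟨i a.1, h1 a.1 a.2, rfl⟩
  refine finrank_eq_of_surj (HC.mk d q) f2 (HC.mk_surjective d q) ?_ ?_
  · rintro ⟨y, z, hz, rfl⟩
    obtain ⟨a, ha, rfl⟩ := h2 z hz
    exact ⟨⟨a, ha⟩, rfl⟩
  · intro a
    rw [HC.mk_eq_zero, h3 a.1 a.2]
    have h4 : f2 a = 0 ↔ B.mkQ (i a.1) = 0 := by
      rw [← Subtype.coe_inj]
      rfl
    rw [h4, Submodule.mkQ_apply, Submodule.Quotient.mk_eq_zero]

end

section

variable {m : ℕ} {X : Type u} [TopologicalSpace X] [ChartedSpace (Ec m) X]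
  [IsManifold 𝓘(ℝ, Ec m) ∞ X]

theorem Z3e_pi_zero (T : Ty (Ec m))
    (hT : ∀ (q : ℕ) (α : Lam (Ec m) q) (v : Fin q → Ec m), T.pi q α v = ((2 : ℂ) ^ q)⁻¹ * oq q α v)
    (q : ℕ) (α : Lam (Ec m) q) : T.pi q α = 0 ↔ ∀ v, oq q α v = 0 := by
  have h2 : ((2 : ℂ) ^ q)⁻¹ ≠ 0 := inv_ne_zero (pow_ne_zero _ two_ne_zero)
  constructor
  · intro h v
    have h1 := hT q α v
    rw [h] at h1
    have h3 : ((2 : ℂ) ^ q)⁻¹ * oq q α v = 0 := h1.symm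
    exact (mul_eq_zero.1 h3).resolve_left h2
  · intro h
    ext v
    rw [hT, h, mul_zero]
    rfl

theorem Z3e_ker (T : Ty (Ec m))
    (hT : ∀ (q : ℕ) (α : Lam (Ec m) q) (v : Fin q → Ec m), T.pi q α v = ((2 : ℂ) ^ q)⁻¹ * oq q α v)
    (hX : TGood T X) (q : ℕ) (a : SFm T X q) : Dm T hX q a = 0 ↔
      ∀ x v, oq (q + 1) (dform a.1 x) v = 0 := by
  constructor
  · intro h x
    refine (Z3e_pi_zero T hT (q + 1) _).1 ?_
    have h1 := congrArg (fun b : SFm T X (q + 1) => b.1 x) h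
    exact h1
  · intro h
    apply Subtype.ext
    funext x
    exact (Z3e_pi_zero T hT (q + 1) _).2 (h x)

/-- a type `(0,q)` form as an element of `SFm` -/
def Z3e_el (T : Ty (Ec m))
    (hT : ∀ (q : ℕ) (α : Lam (Ec m) q) (v : Fin q → Ec m), T.pi q α v = ((2 : ℂ) ^ q)⁻¹ * oq q α v)
    (q : ℕ) (z : X → Lam (Ec m) q) (h1 : SmoothForm z) (h2 : ∀ x, IsType0 (z x)) : SFm T X q :=
  ⟨z, h1, fun x => (pi_eq_self_iff T hT q _).2 (h2 x)⟩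

theorem Z3e_type (T : Ty (Ec m))
    (hT : ∀ (q : ℕ) (α : Lam (Ec m) q) (v : Fin q → Ec m), T.pi q α v = ((2 : ℂ) ^ q)⁻¹ * oq q α v)
    (q : ℕ) (a : SFm T X q) (x : X) : IsType0 (a.1 x) :=
  (pi_eq_self_iff T hT q _).1 (a.2.2 x)

theorem Z3e_bd_zero (T : Ty (Ec m)) (hX : TGood T X) (a : SFm T X 0) :
    a ∈ Bd (A := fun q => SFm T X q) (Dm T hX) 0 ↔ a.1 ∈ Bdb m X 0 := by
  constructor
  · intro h
    have h1 : a = 0 := h
    have h2 : a.1 = 0 := by rw [h1]; rfl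
    exact h2
  · intro h
    have h2 : a.1 = 0 := h
    have h1 : a = 0 := Subtype.ext h2
    exact h1

theorem Z3e_bd_succ (T : Ty (Ec m))
    (hT : ∀ (q : ℕ) (α : Lam (Ec m) q) (v : Fin q → Ec m), T.pi q α v = ((2 : ℂ) ^ q)⁻¹ * oq q α v)
    (hX : TGood T X) (q : ℕ) (a : SFm T X (q + 1)) :
    a ∈ Bd (A := fun q => SFm T X q) (Dm T hX) (q + 1) ↔ a.1 ∈ Bdb m X (q + 1) := by
  constructor
  · intro h
    obtain ⟨b, hb⟩ : ∃ b : SFm T X q, Dm T hX q b = a := h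
    have h5 : ∃ β : X → Lam (Ec m) q, SmoothForm β ∧ (∀ x, IsType0 (β x)) ∧
        ∀ x v, a.1 x v = ((2 : ℂ) ^ (q + 1))⁻¹ * oq (q + 1) (dform β x) v := by
      refine ⟨b.1, b.2.1, Z3e_type T hT q b, fun x v => ?_⟩
      rw [← hT, ← hb]
      rfl
    exact h5
  · intro h
    have h5 : ∃ β : X → Lam (Ec m) q, SmoothForm β ∧ (∀ x, IsType0 (β x)) ∧
        ∀ x v, a.1 x v = ((2 : ℂ) ^ (q + 1))⁻¹ * oq (q + 1) (dform β x) v := h
    obtain ⟨β, h1, h2, h3⟩ := h5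
    have h6 : Dm T hX q (Z3e_el T hT q β h1 h2) = a := by
      apply Subtype.ext
      funext x
      ext v
      have h4 := h3 x v
      rw [← hT] at h4
      exact h4.symm
    have h7 : ∃ b : SFm T X q, Dm T hX q b = a := ⟨_, h6⟩
    exact h7

theorem Z3e_bd (T : Ty (Ec m))
    (hT : ∀ (q : ℕ) (α : Lam (Ec m) q) (v : Fin q → Ec m), T.pi q α v = ((2 : ℂ) ^ q)⁻¹ * oq q α v)
    (hX : TGood T X) (q : ℕ) (a : SFm T X q) :
    a ∈ Bd (A := fun q => SFm T X q) (Dm T hX) q ↔ a.1 ∈ Bdb m X q := by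
  cases q with
  | zero => exact Z3e_bd_zero T hX a
  | succ q => exact Z3e_bd_succ T hT hX q a

theorem Z3e_mem (T : Ty (Ec m))
    (hT : ∀ (q : ℕ) (α : Lam (Ec m) q) (v : Fin q → Ec m), T.pi q α v = ((2 : ℂ) ^ q)⁻¹ * oq q α v)
    (hX : TGood T X) (q : ℕ) (a : SFm T X q) (ha : Dm T hX q a = 0) : a.1 ∈ Zdb m X q := by
  have h : SmoothForm a.1 ∧ (∀ x, IsType0 (a.1 x)) ∧ ∀ x v, oq (q + 1) (dform a.1 x) v = 0 :=
    ⟨a.2.1, Z3e_type T hT q a, (Z3e_ker T hT hX q a).1 ha⟩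
  exact h

theorem Z3e_surj (T : Ty (Ec m))
    (hT : ∀ (q : ℕ) (α : Lam (Ec m) q) (v : Fin q → Ec m), T.pi q α v = ((2 : ℂ) ^ q)⁻¹ * oq q α v)
    (hX : TGood T X) (q : ℕ) (z : X → Lam (Ec m) q) (hz : z ∈ Zdb m X q) :
    ∃ a : SFm T X q, Dm T hX q a = 0 ∧ a.1 = z := by
  have h : SmoothForm z ∧ (∀ x, IsType0 (z x)) ∧ ∀ x v, oq (q + 1) (dform z x) v = 0 := hz
  have h1 : Dm T hX q (Z3e_el T hT q z h.1 h.2.1) = 0 :=
    (Z3e_ker T hT hX q (Z3e_el T hT q z h.1 h.2.1)).2 h.2.2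
  exact ⟨Z3e_el T hT q z h.1 h.2.1, h1, rfl⟩

/-- JOB Z3e.  Dolbeault. -/
theorem finrank_dolb (T : Ty (Ec m))
    (hT : ∀ (q : ℕ) (α : Lam (Ec m) q) (v : Fin q → Ec m), T.pi q α v = ((2 : ℂ) ^ q)⁻¹ * oq q α v)
    (hX : TGood T X) (q : ℕ) : Module.finrank ℂ (HT T hX q) = hodge0 m X q := by
  have k1 := Z3e_mem T hT hX q
  have k2 := Z3e_surj T hT hX q
  have k3 := fun (a : SFm T X q) (_ : Dm T hX q a = 0) => Z3e_bd T hT hX q a
  have key := Z3e_gen (A := fun q => SFm T X q) (Dm T hX) q (Zdb m X q) (Bdb m X q)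
    (SFm T X q).subtype k1 k2 k3
  exact key

end

end FB
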