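import Pool.Agent.H.MP_fb873c_an.D2m1
import Pool.Agent.H.MP_fb873c_an.L6a
import Pool.Agent.H.MP_fb873c_an.Z1a2
import Pool.Agent.H.MP_fb873c_an.Z1d
import Pool.Agent.H.MP_fb873c_an.Z1e
import Pool.Agent.H.MP_fb873c_an.Z2a
import Pool.Agent.H.MP_fb873c_an.Z2d
import Pool.Agent.H.MP_fb873c_an.Z2e
import Pool.Agent.H.MP_fb873c_an.Z2g
import Pool.Agent.H.MP_fb873c_an.Z3b
import Pool.Agent.H.MP_fb873c_an.Z3d
import Pool.Agent.H.MP_fb873c_an.Z3e
import Pool.Agent.H.MP_fb873c_an.Z3f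

/-! # Part Z4: a diffeomorphism preserving a complex structure with small Hodge numbers is not good -/

namespace FB

open scoped Topology ContDiff Manifold

universe u

section

variable {n : ℕ} {M : Type u} [TopologicalSpace M] [ChartedSpace (Er n) M]
  [IsManifold (𝓡 n) ∞ M] [CompactSpace M] [T2Space M]

theorem Z4_iter {M : Type u} {X : Type u} (f : M → M) (Φ : M → X) (F : X → X)
    (h : ∀ x, F (Φ x) = Φ (f x)) (k : ℕ) (x : M) : F^[k] (Φ x) = Φ (f^[k] x) := by
  induction k generalizing x with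
  | zero => rfl
  | succ k ih =>
    rw [Function.iterate_succ_apply, Function.iterate_succ_apply, h, ih]

/-- The data provided by an invariant complex structure: for `G = f^n0` finite dimensional spaces `H q = H^{0,q}(X)` with
`T q = G^*`, the polynomials `P x = charpoly_ℂ (DG_x)` and the numbers `c k x = det_ℂ (1 - D(G^k)_x)`. -/
theorem holo_data (f : Dif n M) (m : ℕ) (X : Type u) [TopologicalSpace X] [ChartedSpace (Ec m) X]
    (hXc : IsManifold 𝓘(ℂ, Ec m) ω X) (h : Preserves f m X) (n0 : ℕ) :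
    ∃ (R : ℕ) (H : ℕ → Type u) (_ : ∀ q, AddCommGroup (H q))
      (_ : ∀ q, Module ℂ (H q)) (_ : ∀ q, FiniteDimensional ℂ (H q)) (T : ∀ q, H q →ₗ[ℂ] H q)
      (P : M → Polynomial ℂ) (c : ℕ → M → ℂ),
      (∑ q ∈ Finset.range (R + 1), Module.finrank ℂ (H q) = ∑ q ∈ Finset.range (m + 1), hodge0 m X q) ∧
      (∀ x, (f : M → M)^[n0] x = x →
        HalfPoly (dfix (n := n) ((f : M → M)^[n0]) x) (P x) ∧ P (f x) = P x) ∧
      (∀ k x, (f : M → M)^[n0 * k] x = x → c k x ∈ Fac (dfix (n := n) ((f : M → M)^[n0 * k]) x).toLinearMap) ∧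
      (∀ k x, (f : M → M)^[n0] x = x → c k x = PowEv (P x) k) ∧
      ∀ k, (∀ x, (f : M → M)^[n0 * k] x = x → Ndg (n := n) ((f : M → M)^[n0 * k]) x) →
        (∑ᶠ x ∈ {x | (f : M → M)^[n0 * k] x = x}, (c k x)⁻¹) = ∑ q ∈ Finset.range (R + 1),
          (-1 : ℂ) ^ q * LinearMap.trace ℂ (H q) (T q ^ k) := by
  obtain ⟨Φ, hΦ⟩ := h
  haveI : IsManifold 𝓘(ℝ, Ec m) ∞ X := isManifold_real hXc
  haveI : CompactSpace X := Φ.toHomeomorph.compactSpace
  haveI : T2Space X := Φ.toHomeomorph.t2Space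
  obtain ⟨F, hFdef⟩ : ∃ F : X → X, F = fun z => Φ (f (Φ.symm z)) := ⟨_, rfl⟩
  have hFΦ : ∀ x, F (Φ x) = Φ (f x) := fun x => by
    rw [hFdef]
    show Φ (f (Φ.symm (Φ x))) = _
    rw [Φ.symm_apply_apply]
  have hF : Holo m F := by
    refine ⟨?_, ?_⟩
    · rw [hFdef]; exact hΦ
    · rw [hFdef]; exact Φ.contMDiff.comp (f.contMDiff.comp Φ.symm.contMDiff)
  have hF'inv : ∀ z, (fun z => Φ (f.symm (Φ.symm z))) (F z) = z := fun z => by
    rw [hFdef]
    show Φ (f.symm (Φ.symm (Φ (f (Φ.symm z))))) = z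
    rw [Φ.symm_apply_apply, f.symm_apply_apply, Φ.apply_symm_apply]
  have hF's : ContMDiff 𝓘(ℝ, Ec m) 𝓘(ℝ, Ec m) ∞ (fun z => Φ (f.symm (Φ.symm z))) :=
    Φ.contMDiff.comp (f.symm.contMDiff.comp Φ.symm.contMDiff)
  have hFk : ∀ k, Holo m (F^[k]) := fun k => hF.iterate k
  have hit : ∀ k x, F^[k] (Φ x) = Φ ((f : M → M)^[k] x) := fun k x => Z4_iter f Φ F hFΦ k x
  have hfs : ∀ k, ContMDiff (𝓡 n) (𝓡 n) ∞ ((f : M → M)^[k]) := fun k => D2m1_iterate f k
  obtain ⟨T, -, -, -, hgood, hT⟩ := exists_dolbTy m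
  have hX : TGood T X := by
    intro x0 x1 p h0 h1
    rw [hgood]
    exact fun v => trd_complex hXc x0 x1 p h0 h1 v
  have hFT : ∀ k p, fd (W := Ec m) (W' := Ec m) (F^[k]) p ∈ T.good := by
    intro k p
    rw [hgood, fd_eq_cfd hXc (hFk k).1 p]
    intro v
    exact (cfd (m := m) (F^[k]) p).map_smul Complex.I v
  have hid : ContinuousLinearMap.id ℝ (Ec m) ∈ T.good := by
    rw [hgood]
    intro v
    rfl
  haveI hfd : ∀ q, FiniteDimensional ℂ (HT T hX q) := fun q => finiteDimensional_HT T hX hid q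
  have hbij : ∀ k, Set.BijOn Φ {x | (f : M → M)^[k] x = x} {z | F^[k] z = z} := by
    intro k
    refine ⟨fun x hx => ?_, Φ.injective.injOn, fun z hz => ?_⟩
    · show F^[k] (Φ x) = Φ x
      rw [hit, hx]
    · refine ⟨Φ.symm z, ?_, Φ.apply_symm_apply z⟩
      show (f : M → M)^[k] (Φ.symm z) = Φ.symm z
      have h1 : Φ ((f : M → M)^[k] (Φ.symm z)) = Φ (Φ.symm z) := by
        rw [← hit, Φ.apply_symm_apply]
        exact hz
      exact Φ.injective h1
  have hsum : ∑ q ∈ Finset.range (2 * m + 1), Module.finrank ℂ (HT T hX q) =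
      ∑ q ∈ Finset.range (m + 1), hodge0 m X q := by
    have h1 : ∑ q ∈ Finset.range (2 * m + 1), Module.finrank ℂ (HT T hX q) =
        ∑ q ∈ Finset.range (m + 1), Module.finrank ℂ (HT T hX q) := by
      symm
      apply Finset.sum_subset
      · intro q hq
        rw [Finset.mem_range] at hq ⊢
        omega
      · intro q _ hq
        rw [Finset.mem_range, not_lt] at hq
        exact finrank_dolb_zero T hT hX q (by omega)
    rw [h1]
    exact Finset.sum_congr rfl fun q _ => finrank_dolb T hT hX q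
  refine ⟨2 * m, fun q => HT T hX q, fun q => inferInstance, fun q => inferInstance, hfd,
    fun q => FT T hX (F^[n0]) (hFk _).2 (hFT _) q,
    fun x => (cfd (m := m) (F^[n0]) (Φ x)).toLinearMap.charpoly,
    fun k x => LinearMap.det ((1 : Ec m →L[ℂ] Ec m) - cfd (m := m) (F^[n0 * k]) (Φ x)
          : Ec m →L[ℂ] Ec m).toLinearMap, hsum, ?_, ?_, ?_, ?_⟩
  · intro x hx
    refine ⟨⟨LinearMap.charpoly_monic _, charpoly_dfix hXc Φ _ (hfs _) _ (hFk _) (hit _) x hx⟩, ?_⟩
    show (cfd (m := m) (F^[n0]) (Φ (f x))).toLinearMap.charpoly = _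
    rw [← hFΦ]
    refine charpoly_cfd_orbit hXc hF hF's hF'inv n0 ?_
    rw [hit, hx]
  · intro k x hx
    refine ⟨(cfd (m := m) (F^[n0 * k]) (Φ x)).toLinearMap.charpoly, LinearMap.charpoly_monic _,
      charpoly_dfix hXc Φ _ (hfs _) _ (hFk _) (hit _) x hx, ?_⟩
    rw [charpoly_eval_one]
    rfl
  · intro k x hx
    show LinearMap.det ((1 : Ec m →L[ℂ] Ec m) - cfd (m := m) (F^[n0 * k]) (Φ x)
          : Ec m →L[ℂ] Ec m).toLinearMap = PowEv (cfd (m := m) (F^[n0]) (Φ x)).toLinearMap.charpoly k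
    rw [powEv_charpoly]
    have hz : F^[n0] (Φ x) = Φ x := by rw [hit, hx]
    rw [← cfd_iterate hXc (hFk n0) hz k, ← Function.iterate_mul]
    rfl
  · intro k hnd
    have hnd' : ∀ z, F^[n0 * k] z = z →
        LinearMap.det ((1 : Ec m →L[ℂ] Ec m) - cfd (m := m) (F^[n0 * k]) z
          : Ec m →L[ℂ] Ec m).toLinearMap ≠ 0 := by
      intro z hz
      obtain ⟨x, rfl⟩ : ∃ x, Φ x = z := ⟨Φ.symm z, Φ.apply_symm_apply z⟩
      have hx : (f : M → M)^[n0 * k] x = x := by
        rw [hit] at hz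
        exact Φ.injective hz
      exact det_ne_of_dfix hXc Φ _ (hfs _) _ (hFk _) (hit _) x hx (hnd x hx)
    have hfinX : {z | F^[n0 * k] z = z}.Finite := by
      rw [← (hbij (n0 * k)).image_eq]
      exact (finite_fix fun x hx => hnd x hx).image _
    have h1 := lef_holo hXc T hT hX (hFk (n0 * k)) (hFk _).2 (hFT _) hfinX hnd'
    have h2 := finsum_mem_eq_of_bijOn (f := fun x => (LinearMap.det ((1 : Ec m →L[ℂ] Ec m)
      - cfd (m := m) (F^[n0 * k]) (Φ x) : Ec m →L[ℂ] Ec m).toLinearMap)⁻¹)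
      (g := fun z => (LinearMap.det ((1 : Ec m →L[ℂ] Ec m)
      - cfd (m := m) (F^[n0 * k]) z : Ec m →L[ℂ] Ec m).toLinearMap)⁻¹) Φ (hbij (n0 * k)) fun x _ => rfl
    rw [h2, ← h1]
    unfold Lef
    have hfr : Module.finrank ℝ (Ec m) = 2 * m := by
      have h1 := Module.finrank_mul_finrank ℝ ℂ (Ec m)
      rw [Complex.finrank_real_complex, finrank_euclideanSpace_fin] at h1
      omega
    rw [hfr]
    refine Finset.sum_congr rfl fun q _ => ?_
    have hk : ∀ k, (F^[n0])^[k] = F^[n0 * k] := fun k => (Function.iterate_mul F n0 k).symm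
    have h1 : ∀ k, ContMDiff 𝓘(ℝ, Ec m) 𝓘(ℝ, Ec m) ∞ ((F^[n0])^[k]) := fun k => by
      rw [hk]; exact (hFk _).2
    have h2 : ∀ k p, fd (W := Ec m) (W' := Ec m) ((F^[n0])^[k]) p ∈ T.good := fun k p => by
      rw [hk]; exact hFT _ p
    have h3 := FT_iterate T hX (hFk n0).2 (hFT n0) h1 h2 k q
    have h4 : FT T hX (F^[n0 * k]) (hFk _).2 (hFT _) q = FT T hX ((F^[n0])^[k]) (h1 k) (h2 k) q := by
      congr 1
      exact (hk k).symm
    rw [h4, h3]

/-- The key step: the Toeplitz determinant vanishes. -/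
theorem not_goodB (f : Dif n M) (m : ℕ) (X : Type u) [TopologicalSpace X] [ChartedSpace (Ec m) X]
    (hXc : IsManifold 𝓘(ℂ, Ec m) ω X) (h : Preserves f m X) (n0 N B : ℕ) (hN : B < N)
    (hB : ∑ q ∈ Finset.range (m + 1), hodge0 m X q ≤ B) : ¬ GoodB f n0 N B := by
  obtain ⟨R, H, i1, i2, i3, T, P, c, hdim, hP, hF, hc, hL⟩ := holo_data f m X hXc h n0
  rintro ⟨hnd, hgd⟩
  have htoe := toeplitz_singular R B N hN H T (hdim.trans_le hB)
    (fun k => ∑ q ∈ Finset.range (R + 1), (-1 : ℂ) ^ q * LinearMap.trace ℂ (H q) (T q ^ k))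
    (fun k _ => rfl)
  refine hgd P c hP (fun k _ _ => hF k) (fun k _ _ => hc k) ?_
  rw [← htoe]
  congr 1
  ext i j
  have hi := i.2
  have hj := j.2
  exact hL (N + i - j) fun x hx => hnd (N + i - j) (by omega) (by omega) x hx

/-- Fuller's theorem: a diffeomorphism without periodic points forces `χ(M) = 0`. -/
theorem euler_eq_zero (f : Dif n M) (h : ∀ (x : M) (k : ℕ), 0 < k → (f : M → M)^[k] x ≠ x) :
    euler n M = 0 := by
  obtain ⟨T, -, -, hgood, hT⟩ := exists_drTy (Er n)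
  have hM : TGood T M := by
    intro x0 x1 p _ _
    rw [hgood]
    trivial
  have hT1 : ∀ L : Er n →L[ℝ] Er n, L ∈ T.good := fun L => by rw [hgood]; trivial
  have hfs : ∀ k, ContMDiff (𝓡 n) (𝓡 n) ∞ ((f : M → M)^[k]) := fun k => D2m1_iterate f k
  haveI hfd : ∀ q, FiniteDimensional ℂ (HT T hM q) := fun q => finiteDimensional_HT T hM (hT1 _) q
  have hbij := fun q => FT_bijective T hM f.contMDiff (fun p => hT1 _) f.symm.contMDiff
    (fun p => hT1 _) (hT1 _) (fun x => f.symm_apply_apply x) (fun x => f.apply_symm_apply x) q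
  have h00 : ∀ k, 1 ≤ k → ∑ q ∈ Finset.range (n + 1), (-1 : ℂ) ^ q *
      LinearMap.trace ℂ (HT T hM q) (FT T hM f f.contMDiff (fun p => hT1 _) q ^ k) = 0 := by
    intro k hk
    have h1 := lefschetz_formula T hM (hfs k) (fun p => hT1 _) ∅ (fun p => by
      constructor
      · intro hp
        exact absurd hp (h p k hk)
      · intro hp
        exact absurd hp (Finset.notMem_empty p)) (fun z hz => absurd hz (Finset.notMem_empty z))
    rw [Finset.sum_empty] at h1
    unfold Lef at h1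
    rw [finrank_euclideanSpace_fin] at h1
    rw [← h1]
    refine Finset.sum_congr rfl fun q _ => ?_
    rw [FT_iterate T hM f.contMDiff (fun p => hT1 _) hfs (fun k p => hT1 _) k q]
  have h0 := @euler_zero n (fun q => HT T hM q) (fun q => inferInstance) (fun q => inferInstance) hfd
    (fun q => FT T hM f f.contMDiff (fun p => hT1 _) q) hbij h00
  unfold euler
  rw [← h0]
  refine Finset.sum_congr rfl fun q _ => ?_
  rw [finrank_dr T hT hM q]

end

end FB
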