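import Pool.Agent.H.MP_fb873c_an.K0
import Pool.Agent.H.MP_fb873c_an.Z4

/-!
# Part K17b: elements of `UR` preserve no complex structure
-/

namespace FB

namespace KT

open scoped Topology ContDiff Manifold

universe u

section

/-- `charpoly A = P * conj P` (`HalfPoly`, file S1): a real root `μ` satisfies `P(μ) conj (P(μ)) = 0`, so `P(μ) = 0`, and the derivative `P' conj P + P conj P'` vanishes at `μ`. -/
theorem halfPoly_not_simple {n : ℕ} {A : Er n →L[ℝ] Er n} {P : Polynomial ℂ} (h : HalfPoly A P) :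
    ¬ SimpleReal A := by
  rintro ⟨μ, h0, h1⟩
  obtain ⟨-, hP⟩ := h
  set Q : Polynomial ℝ := LinearMap.charpoly A.toLinearMap with hQ
  have hbar : (P.map (starRingEnd ℂ)).eval ((μ : ℝ) : ℂ) = (starRingEnd ℂ) (P.eval ((μ : ℝ) : ℂ)) := by
    rw [Polynomial.eval_map, Polynomial.eval, Polynomial.hom_eval₂, RingHom.comp_id,
      Complex.conj_ofReal]
  have e0 : P.eval ((μ : ℝ) : ℂ) * (P.map (starRingEnd ℂ)).eval ((μ : ℝ) : ℂ) = 0 := by
    rw [← Polynomial.eval_mul, hP, Polynomial.eval_map_algebraMap, ← Complex.coe_algebraMap, Polynomial.aeval_algebraMap_apply_eq_algebraMap_eval, h0,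
      map_zero]
  have e1 : P.eval ((μ : ℝ) : ℂ) = 0 := by
    rcases mul_eq_zero.1 e0 with h | h
    · exact h
    · rw [hbar] at h
      exact (map_eq_zero _).1 h
  have e2 : (P.map (starRingEnd ℂ)).eval ((μ : ℝ) : ℂ) = 0 := by
    rw [hbar, e1, map_zero]
  have e3 : (Polynomial.derivative (P * P.map (starRingEnd ℂ))).eval ((μ : ℝ) : ℂ) = 0 := by
    rw [Polynomial.derivative_mul, Polynomial.eval_add, Polynomial.eval_mul, Polynomial.eval_mul,
      e1, e2, mul_zero, zero_mul, add_zero]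
  rw [hP, Polynomial.derivative_map, Polynomial.eval_map_algebraMap, ← Complex.coe_algebraMap,
    Polynomial.aeval_algebraMap_apply_eq_algebraMap_eval] at e3
  exact h1 ((map_eq_zero _).1 e3)

variable {n : ℕ} {M : Type u} [TopologicalSpace M] [ChartedSpace (Er n) M]
  [IsManifold (𝓡 n) ∞ M] [CompactSpace M] [T2Space M]

theorem UR_not_preserves {f : Dif n M} (hf : f ∈ UR n M) (m : ℕ) (X : Type u)
    [TopologicalSpace X] [ChartedSpace (Ec m) X] [hX : IsManifold 𝓘(ℂ, Ec m) ω X] :
    ¬ Preserves f m X := by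
  intro h
  obtain ⟨x, k, hk, hx, -, hs⟩ := hf
  obtain ⟨R, H, i1, i2, i3, T, P, c, -, hP, -⟩ := holo_data f m X hX h k
  exact halfPoly_not_simple (hP x hx).1 hs

end

end KT

end FB
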