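import Pool.Agent.H.MP_fb873c_an.K4a

/-!
# Part K18: the periodic point given by a closed orbit in charts (CO_step, CO_seam, CO_iter, CO_periodic, CO_orbit)
-/


namespace FB

namespace KT

open scoped Topology ContDiff Manifold
open Filter Metric

universe u

section

variable {n : ℕ} {M : Type u} [TopologicalSpace M] [ChartedSpace (Er n) M]
  [IsManifold (𝓡 n) ∞ M]
variable {f : Dif n M} {k : ℕ} {p : M} {q : ℤ → M} {ψ : ℤ → OpenPartialHomeomorph M (Er n)} {J : ℕ}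
  {g : Dif n M} {η r : ℝ} {m : ℕ} {x : ℤ → Er n}

/-- `Fh g k ψ j (x j) = x (j+1)` means `ψ_(j+1) (g^k (ψ_j.symm (x j))) = x (j+1)` with `g^k (ψ_j.symm (x j))` in the domain of `ψ_(j+1)` (`Cls`). -/
theorem CO_step (hcls : Cls f k q ψ η r g) (hx : CO g k q ψ r m x) {j : ℤ} (h1 : -(m : ℤ) ≤ j)
    (h2 : j < m) : (g : M → M)^[k] ((ψ j).symm (x j)) = (ψ (j + 1)).symm (x (j + 1)) := by
  have hj : |j| ≤ (m : ℤ) := abs_le.mpr ⟨h1, h2.le⟩
  have hs := (hcls j (x j) (hx.1 j hj)).2.1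
  rw [hx.2.1 j h1 h2, Fh, (ψ (j + 1)).left_inv hs]

/-- For `m ≥ J` the charts `ψ_(m+1)` and `ψ_(-m)` are both the chart at `p`. -/
theorem CO_seam (h : HO f k p q ψ J) (hcls : Cls f k q ψ η r g) (hm : J ≤ m)
    (hx : CO g k q ψ r m x) :
    (g : M → M)^[k] ((ψ (m : ℤ)).symm (x m)) = (ψ (-(m : ℤ))).symm (x (-(m : ℤ))) := by
  have hJ : (J : ℤ) ≤ m := by exact_mod_cast hm
  have hm0 : (0 : ℤ) ≤ m := by positivity
  have e1 : ψ ((m : ℤ) + 1) = chartAt (Er n) p := by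
    apply h.eqp
    rw [abs_of_nonneg (by omega)]
    omega
  have e2 : ψ (-(m : ℤ)) = chartAt (Er n) p := by
    apply h.eqp
    rw [abs_neg, abs_of_nonneg hm0]
    exact hJ
  have hj : |(m : ℤ)| ≤ (m : ℤ) := by rw [abs_of_nonneg hm0]
  have hs := (hcls (m : ℤ) (x m) (hx.1 m hj)).2.1
  rw [e1] at hs
  rw [hx.2.2, Fh, e1, e2, (chartAt (Er n) p).left_inv hs]

/-- For `i ≤ m`: `g^(k i) (ψ_0.symm (x 0)) = ψ_i.symm (x i)`; for `m < i ≤ 2 m + 1` it is `ψ_l.symm (x l)` with `l = i - (2 m + 1)`. Induction on `i`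
(`Function.iterate_add_apply`, `CO_step`, `CO_seam`). -/
theorem CO_iter (h : HO f k p q ψ J) (hcls : Cls f k q ψ η r g) (hm : J ≤ m)
    (hx : CO g k q ψ r m x) :
    (∀ i : ℕ, i ≤ m → (g : M → M)^[k * i] ((ψ 0).symm (x 0)) = (ψ (i : ℤ)).symm (x i)) ∧
    ∀ i : ℕ, m < i → i ≤ 2 * m + 1 → (g : M → M)^[k * i] ((ψ 0).symm (x 0)) =
      (ψ ((i : ℤ) - (2 * m + 1))).symm (x ((i : ℤ) - (2 * m + 1))) := by
  have A : ∀ i : ℕ, i ≤ m → (g : M → M)^[k * i] ((ψ 0).symm (x 0)) = (ψ (i : ℤ)).symm (x i) := by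
    intro i
    induction i with
    | zero => intro _; simp
    | succ i ih =>
      intro hi
      have e : k * (i + 1) = k + k * i := by ring
      rw [e, Function.iterate_add_apply, ih (by omega), CO_step hcls hx (by omega) (by omega)]
      push_cast
      rfl
  refine ⟨A, ?_⟩
  intro i
  induction i with
  | zero => intro h0 _; omega
  | succ i ih =>
    intro h1 h2
    have e : k * (i + 1) = k + k * i := by ring
    rcases Nat.lt_or_ge m i with hmi | hmi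
    · rw [e, Function.iterate_add_apply, ih hmi (by omega), CO_step hcls hx (by omega) (by omega)]
      have e2 : (i : ℤ) - (2 * m + 1) + 1 = ((i + 1 : ℕ) : ℤ) - (2 * m + 1) := by push_cast; ring
      rw [e2]
    · have him : i = m := by omega
      subst him
      rw [e, Function.iterate_add_apply, A i le_rfl, CO_seam h hcls hm hx]
      have e2 : ((i + 1 : ℕ) : ℤ) - (2 * i + 1) = -(i : ℤ) := by push_cast; ring
      rw [e2]

/-- `i = 2 m + 1`. -/
theorem CO_periodic (h : HO f k p q ψ J) (hcls : Cls f k q ψ η r g) (hm : J ≤ m)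
    (hx : CO g k q ψ r m x) :
    (g : M → M)^[k * (2 * m + 1)] ((ψ 0).symm (x 0)) = (ψ 0).symm (x 0) := by
  have h1 := (CO_iter h hcls hm hx).2 (2 * m + 1) (by omega) le_rfl
  have h2 : (((2 * m + 1 : ℕ) : ℤ) - (2 * m + 1)) = 0 := by push_cast; ring
  rw [h2] at h1
  exact h1

/-- Write `i = k t + l`, `l < k`, `t ≤ 2 m`: `g^i = g^l ∘ g^(k t)`, `CO_iter`. -/
theorem CO_orbit (h : HO f k p q ψ J) (hcls : Cls f k q ψ η r g) (hm : J ≤ m)
    (hx : CO g k q ψ r m x) {i : ℕ} (hi : 0 < i) (hi' : i < k * (2 * m + 1)) :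
    ∃ (j : ℤ) (l : ℕ), |j| ≤ m ∧ l < k ∧ ¬ (j = 0 ∧ l = 0) ∧
      (g : M → M)^[i] ((ψ 0).symm (x 0)) = (g : M → M)^[l] ((ψ j).symm (x j)) := by
  have hk := h.kpos
  obtain ⟨t, ht⟩ : ∃ t, t = i / k := ⟨_, rfl⟩
  obtain ⟨l, hl⟩ : ∃ l, l = i % k := ⟨_, rfl⟩
  have e : i = l + k * t := by
    rw [ht, hl]; exact (Nat.mod_add_div i k).symm
  have hlk : l < k := by rw [hl]; exact Nat.mod_lt _ hk
  have htm : t < 2 * m + 1 := by
    rw [ht]; exact Nat.div_lt_of_lt_mul hi'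
  rcases Nat.lt_or_ge m t with hmt | hmt
  · refine ⟨(t : ℤ) - (2 * m + 1), l, ?_, hlk, ?_, ?_⟩
    · rw [abs_le]; constructor <;> omega
    · rintro ⟨h0, -⟩; omega
    · rw [e, Function.iterate_add_apply, (CO_iter h hcls hm hx).2 t hmt htm.le]
  · refine ⟨(t : ℤ), l, ?_, hlk, ?_, ?_⟩
    · rw [abs_le]; constructor <;> omega
    · rintro ⟨h0, h1⟩
      have ht0 : t = 0 := by exact_mod_cast h0
      rw [h1, ht0] at e
      omega
    · rw [e, Function.iterate_add_apply, (CO_iter h hcls hm hx).1 t hmt]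

end

end KT

end FB
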