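import Pool.Agent.H.MP_fb873c_an.K00
import Pool.Agent.H.MP_fb873c_an.K18a

/-!
# Part K18: the periodic point given by a closed orbit in charts (CO_deriv)
-/


namespace FB

namespace KT

open scoped Topology ContDiff Manifold
open Filter Metric

universe u

section

variable {n : ℕ} {M : Type u} [TopologicalSpace M] [ChartedSpace (Er n) M]
  [IsManifold (𝓡 n) ∞ M]
variable {f : Dif n M} {k : ℕ} {p : M} {q : ℤ → M} {ψ : ℤ → OpenPartialHomeomorph M (Er n)} {J : ℕ}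
  {g : Dif n M} {η r : ℝ} {m : ℕ} {x : ℤ → Er n}

omit [IsManifold (𝓡 n) ∞ M] in
/-- The points of the closed orbit are in the domains of the charts. -/
theorem K18b_target (hcls : Cls f k q ψ η r g) (hx : CO g k q ψ r m x) {j : ℤ}
    (hj : |j| ≤ m) : x j ∈ (ψ j).target :=
  (hcls j (x j) (hx.1 j hj)).1

omit [IsManifold (𝓡 n) ∞ M] in
/-- The points of the closed orbit are in the domains of the charts. -/
theorem K18b_source (hcls : Cls f k q ψ η r g) (hx : CO g k q ψ r m x) {j : ℤ}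
    (hj : |j| ≤ m) : (ψ j).symm (x j) ∈ (ψ j).source :=
  (ψ j).map_target (K18b_target hcls hx hj)

omit [IsManifold (𝓡 n) ∞ M] in
/-- The iterates are of class `C^1`. -/
theorem K18b_smooth (g : Dif n M) (i : ℕ) (y : M) :
    ContMDiffAt (𝓡 n) (𝓡 n) 1 ((g : M → M)^[i]) y :=
  ((g.contMDiff.iterate i).of_le (by norm_cast)) y

omit [ChartedSpace (Er n) M] [IsManifold (𝓡 n) ∞ M] in
/-- The derivative of the identity in a chart. -/
theorem K18b_id {φ : OpenPartialHomeomorph M (Er n)} {z : Er n} (hz : z ∈ φ.target) {F : M → M}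
    (hF : F = id) : fderiv ℝ (φ ∘ F ∘ φ.symm) z = ContinuousLinearMap.id ℝ (Er n) := by
  have he : (φ ∘ F ∘ φ.symm) =ᶠ[𝓝 z] id := by
    filter_upwards [φ.open_target.mem_nhds hz] with y hy
    rw [hF]
    exact φ.right_inv hy
  rw [he.fderiv_eq, fderiv_id]

omit [ChartedSpace (Er n) M] [IsManifold (𝓡 n) ∞ M] in
theorem K18b_Fh (G : M → M) (a b c : ℤ) (hb : b = a + 1) (hc : c = a) :
    (fun z => ψ (a + 1) (G ((ψ a).symm z))) = ψ b ∘ G ∘ (ψ c).symm := by
  subst hb hc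
  rfl

/-- The forward half of the closed orbit. -/
theorem K18b_fw (h : HO f k p q ψ J) (hcls : Cls f k q ψ η r g) (hm : J ≤ m)
    (hx : CO g k q ψ r m x) (i : ℕ) (hi : i ≤ m + 1) :
    fderiv ℝ (ψ (i : ℤ) ∘ (g : M → M)^[k * i] ∘ (ψ 0).symm) (x 0) =
      fw (fun i : ℕ => fderiv ℝ (Fh g k ψ (i : ℤ)) (x (i : ℤ))) i := by
  have hz0 : |(0 : ℤ)| ≤ m := by simp
  have ht0 := K18b_target hcls hx hz0
  have hs0 := K18b_source hcls hx hz0
  induction i with
  | zero =>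
    show _ = ContinuousLinearMap.id ℝ (Er n)
    exact K18b_id ht0 (by rw [Nat.mul_zero]; rfl)
  | succ i ih =>
    have hi' : i ≤ m := by omega
    have hai : |(i : ℤ)| ≤ m := by rw [abs_of_nonneg (by positivity)]; exact_mod_cast hi'
    have hFx := (CO_iter h hcls hm hx).1 i hi'
    have e1 : (g : M → M)^[k * (i + 1)] = (g : M → M)^[k] ∘ (g : M → M)^[k * i] := by
      rw [Nat.mul_succ, Nat.add_comm, Function.iterate_add]
    have hch := D1_chain (F := (g : M → M)^[k * i]) (G := (g : M → M)^[k])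
      (x := (ψ 0).symm (x 0)) (K18b_smooth g _ _) (K18b_smooth g _ _) (φ := ψ 0)
      (χ := ψ (i : ℤ)) (ψ := ψ ((i : ℤ) + 1)) (h.atl _) (h.atl _) (h.atl _) hs0
      (by rw [hFx]; exact K18b_source hcls hx hai)
      (by rw [hFx]; exact (hcls _ _ (hx.1 _ hai)).2.1)
    rw [(ψ 0).right_inv ht0, hFx, (ψ (i : ℤ)).right_inv (K18b_target hcls hx hai)] at hch
    have e2 : (((i + 1 : ℕ)) : ℤ) = (i : ℤ) + 1 := by push_cast; ring
    rw [e2, e1, hch, ih (by omega)]
    rfl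

/-- The orbit of the backward half. -/
theorem K18b_iter (hcls : Cls f k q ψ η r g)
    (hx : CO g k q ψ r m x) (i : ℕ) (hi : i ≤ m) :
    (g : M → M)^[k * i] ((ψ (-(i : ℤ))).symm (x (-(i : ℤ)))) = (ψ 0).symm (x 0) := by
  induction i with
  | zero => simp
  | succ i ih =>
    have e1 : (g : M → M)^[k * (i + 1)] = (g : M → M)^[k * i] ∘ (g : M → M)^[k] := by
      rw [Nat.mul_succ, Function.iterate_add]
    have h1 := CO_step hcls hx (j := -((i : ℤ) + 1)) (by omega) (by omega)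
    have e2 : -((i : ℤ) + 1) + 1 = -(i : ℤ) := by ring
    rw [e2] at h1
    have e3 : -(((i + 1 : ℕ)) : ℤ) = -((i : ℤ) + 1) := by push_cast; ring
    rw [e3, e1, Function.comp_apply, h1, ih (by omega)]

/-- The backward half of the closed orbit. -/
theorem K18b_bw (h : HO f k p q ψ J) (hcls : Cls f k q ψ η r g)
    (hx : CO g k q ψ r m x) (i : ℕ) (hi : i ≤ m) :
    fderiv ℝ (ψ 0 ∘ (g : M → M)^[k * i] ∘ (ψ (-(i : ℤ))).symm) (x (-(i : ℤ))) =
      bw (fun i : ℕ => fderiv ℝ (Fh g k ψ (-((i : ℤ) + 1))) (x (-((i : ℤ) + 1)))) i := by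
  have hz0 : |(0 : ℤ)| ≤ m := by simp
  have ht0 := K18b_target hcls hx hz0
  have hs0 := K18b_source hcls hx hz0
  induction i with
  | zero =>
    show _ = ContinuousLinearMap.id ℝ (Er n)
    have e0 : -((0 : ℕ) : ℤ) = 0 := by simp
    rw [e0]
    exact K18b_id ht0 (by rw [Nat.mul_zero]; rfl)
  | succ i ih =>
    have hai : |-(i : ℤ)| ≤ m := by
      rw [abs_neg, abs_of_nonneg (by positivity)]; exact_mod_cast (by omega : i ≤ m)
    have hai' : |-((i : ℤ) + 1)| ≤ m := by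
      rw [abs_neg, abs_of_nonneg (by positivity)]; exact_mod_cast hi
    have e1 : (g : M → M)^[k * (i + 1)] = (g : M → M)^[k * i] ∘ (g : M → M)^[k] := by
      rw [Nat.mul_succ, Function.iterate_add]
    have h1 := CO_step hcls hx (j := -((i : ℤ) + 1)) (by omega) (by omega)
    have e2 : -((i : ℤ) + 1) + 1 = -(i : ℤ) := by ring
    rw [e2] at h1
    have hit := K18b_iter hcls hx i (by omega)
    have hch := D1_chain (F := (g : M → M)^[k]) (G := (g : M → M)^[k * i])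
      (x := (ψ (-((i : ℤ) + 1))).symm (x (-((i : ℤ) + 1)))) (K18b_smooth g _ _)
      (K18b_smooth g _ _) (φ := ψ (-((i : ℤ) + 1)))
      (χ := ψ (-(i : ℤ))) (ψ := ψ 0) (h.atl _) (h.atl _) (h.atl _)
      (K18b_source hcls hx hai')
      (by rw [h1]; exact K18b_source hcls hx hai)
      (by rw [h1, hit]; exact hs0)
    rw [(ψ (-((i : ℤ) + 1))).right_inv (K18b_target hcls hx hai'), h1,
      (ψ (-(i : ℤ))).right_inv (K18b_target hcls hx hai)] at hch
    have e3 : -(((i + 1 : ℕ)) : ℤ) = -((i : ℤ) + 1) := by push_cast; ring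
    have e4 := K18b_Fh (ψ := ψ) ((g : M → M)^[k]) (-((i : ℤ) + 1)) (-(i : ℤ)) (-((i : ℤ) + 1))
      e2.symm rfl
    rw [e3, e1, hch, ih (by omega), ← e4]
    rfl

/-- Chain rule along the orbit.  For `i ≤ m + 1` (with `ψ_(m+1)`): the derivative at `x 0` of `ψ_i ∘ g^(k i) ∘ ψ_0.symm` is `fw D i` (`D1_chain`, file D1a, induction on `i`).  For `i ≤ m`:
the derivative at `x (-i)` of `ψ_0 ∘ g^(k i) ∘ ψ_(-i).symm` is `bw D' i`.  The composition: `ψ_(m+1) = ψ_(-m)` (the chart at `p`, `m ≥ J`) and `g^(k (m+1)) (ψ_0.symm (x 0)) = ψ_(-m).symm (x (-m))`. -/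
theorem CO_deriv (h : HO f k p q ψ J) (hcls : Cls f k q ψ η r g) (hm : J ≤ m)
    (hx : CO g k q ψ r m x) :
    fderiv ℝ (ψ 0 ∘ (g : M → M)^[k * (2 * m + 1)] ∘ (ψ 0).symm) (x 0) =
      bw (fun i : ℕ => fderiv ℝ (Fh g k ψ (-((i : ℤ) + 1))) (x (-((i : ℤ) + 1)))) m ∘L
        fw (fun i : ℕ => fderiv ℝ (Fh g k ψ (i : ℤ)) (x (i : ℤ))) (m + 1) := by
  have hz0 : |(0 : ℤ)| ≤ m := by simp
  have ht0 := K18b_target hcls hx hz0
  have hs0 := K18b_source hcls hx hz0
  have ham : |-(m : ℤ)| ≤ m := by rw [abs_neg, abs_of_nonneg (by positivity)]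
  have e1 : (g : M → M)^[k * (2 * m + 1)] = (g : M → M)^[k * m] ∘ (g : M → M)^[k * (m + 1)] := by
    rw [← Function.iterate_add]
    congr 1
    ring
  have e2 : (g : M → M)^[k * (m + 1)] = (g : M → M)^[k] ∘ (g : M → M)^[k * m] := by
    rw [Nat.mul_succ, Nat.add_comm, Function.iterate_add]
  have hFx : (g : M → M)^[k * (m + 1)] ((ψ 0).symm (x 0)) =
      (ψ (-(m : ℤ))).symm (x (-(m : ℤ))) := by
    rw [e2, Function.comp_apply, (CO_iter h hcls hm hx).1 m le_rfl, CO_seam h hcls hm hx]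
  have hit := K18b_iter hcls hx m le_rfl
  have hψ : ψ (((m + 1 : ℕ)) : ℤ) = ψ (-(m : ℤ)) := by
    rw [h.eqp _ (by rw [abs_of_nonneg (by positivity)]; exact_mod_cast (by omega : J ≤ m + 1)),
      h.eqp (-(m : ℤ)) (by rw [abs_neg, abs_of_nonneg (by positivity)]; exact_mod_cast hm)]
  have hfw := K18b_fw h hcls hm hx (m + 1) le_rfl
  rw [hψ] at hfw
  have hbw := K18b_bw h hcls hx m le_rfl
  have hch := D1_chain (F := (g : M → M)^[k * (m + 1)]) (G := (g : M → M)^[k * m])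
    (x := (ψ 0).symm (x 0)) (K18b_smooth g _ _)
    (K18b_smooth g _ _) (φ := ψ 0) (χ := ψ (-(m : ℤ))) (ψ := ψ 0) (h.atl _) (h.atl _) (h.atl _)
    hs0 (by rw [hFx]; exact K18b_source hcls hx ham)
    (by rw [hFx, hit]; exact hs0)
  rw [(ψ 0).right_inv ht0, hFx, (ψ (-(m : ℤ))).right_inv (K18b_target hcls hx ham)] at hch
  rw [e1, hch, hbw, hfw]

end

end KT

end FB
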