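import Pool.Agent.H.MP_fb873c_an.K18a
import Pool.Agent.H.MP_fb873c_an.K18b

/-! # Part K18: the periodic point given by a closed orbit in charts: collects the files above -/
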