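import Pool.Agent.H.MP_fb873c_an.K1b1

/-!
# Part K1b: uniform bounds for a sequence which converges at both ends, and for its periodic truncations (bb_cyc)
-/


namespace FB

namespace KT

open scoped Topology
open Filter

theorem K1b2_val {m : ℕ} {b : ℤ} (h : |b| ≤ m) : ((b : ℤ) : ZMod (2 * m + 1)).valMinAbs = b := by
  rw [ZMod.valMinAbs_spec]
  refine ⟨rfl, ?_⟩
  rw [abs_le] at h
  constructor
  · push_cast
    linarith [h.1]
  · push_cast
    linarith [h.2]

theorem K1b2_cyc (m : ℕ) {i b : ℤ} (j : ℤ)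
    (h : (i : ZMod (2 * m + 1)) = (b : ℤ)) (hb : |b + j| ≤ m) :
    ((i + j : ℤ) : ZMod (2 * m + 1)).valMinAbs = b + j := by
  have h1 : ((i + j : ℤ) : ZMod (2 * m + 1)) = ((b + j : ℤ) : ZMod (2 * m + 1)) := by
    push_cast
    rw [h]
  rw [h1, K1b2_val hb]

section

variable {E : Type*} [NormedAddCommGroup E] [NormedSpace ℝ E]

variable [FiniteDimensional ℝ E]

/-- `bb_of_limits` with `L m = cyc m L`.  Let `a t = ((i t : ZMod (2 * m t + 1))).valMinAbs`, so `|a t| ≤ m t` (`ZMod.valMinAbs_mem_Ioc` or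
`ZMod.natAbs_valMinAbs_le`) and `cyc (m t) L (i t + j) = cyc (m t) L (a t + j)` (`ZMod.coe_valMinAbs`).  By `int_ultra` for `a`:
(1) `a t = b` almost surely: for `|b + j| ≤ m t`, true almost surely, `((b + j : ℤ) : ZMod _).valMinAbs = b + j` (`ZMod.valMinAbs_spec`), so the limit is
`j ↦ L (b + j)`, and `NoBdd` is invariant under shifts; (2) `a t → cofinite`: then `((i t + j : ZMod)).valMinAbs → cofinite` for every `j`, because it is
`a t + j` or `a t + j ± (2 m t + 1)` with absolute value `≤ m t`; in the second case its absolute value is `≥ 2 m t + 1 - |a t + j| ≥ m t + 1 - |j|`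
(or simply: if `((i t + j)).valMinAbs = b` almost surely, then `a t = (b - j : ZMod).valMinAbs = b - j` almost surely, contradiction); the
limit is `A`. -/
theorem bb_cyc {L : ℤ → E →L[ℝ] E} {A : E →L[ℝ] E} (hL : Tendsto L cofinite (𝓝 A))
    (h1 : NoBdd L) (h2 : NoBdd (fun _ => A)) : ∃ c : ℝ, 0 < c ∧ ∀ᶠ m in atTop, BB c (cyc m L) := by
  obtain ⟨Λ, hΛ⟩ := bounded_of_tendsto hL
  refine bb_of_limits (fun m => cyc m L) (Λ := Λ) (fun m j => hΛ _) ?_
  intro m i U B hm hB
  have hbig : ∀ b : ℤ, ∀ᶠ t in (U : Filter ℕ), |b| ≤ m t := by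
    intro b
    have h3 := hm.eventually_ge_atTop b.natAbs
    refine h3.mono fun t ht => ?_
    rw [Int.abs_eq_natAbs]
    exact_mod_cast ht
  rcases int_ultra U (fun t => ((i t : ℤ) : ZMod (2 * m t + 1)).valMinAbs) with ⟨b, hb⟩ | ha
  · have h4 : B = fun j => L (b + j) := funext fun j => by
      refine tendsto_nhds_unique (hB j) (tendsto_const_nhds.congr' ?_)
      filter_upwards [hb, hbig (b + j)] with t h5 h6
      show L (b + j) = L (((i t + j : ℤ) : ZMod (2 * m t + 1)).valMinAbs)
      rw [K1b2_cyc (m t) j _ h6]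
      rw [← h5, ZMod.coe_valMinAbs]
    rw [h4]
    exact K1b1_shift h1 b
  · have h4 : B = fun _ => A := funext fun j => by
      have h5 : Tendsto (fun t => ((i t + j : ℤ) : ZMod (2 * m t + 1)).valMinAbs) U cofinite := by
        rcases int_ultra U (fun t => ((i t + j : ℤ) : ZMod (2 * m t + 1)).valMinAbs) with
          ⟨b, hb⟩ | h
        · exfalso
          have h6 : ∀ᶠ t in (U : Filter ℕ),
              ((i t : ℤ) : ZMod (2 * m t + 1)).valMinAbs ∈ ({b - j} : Set ℤ)ᶜ :=
            ha ((Set.finite_singleton (b - j)).compl_mem_cofinite)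
          obtain ⟨t, h7, h8, h9⟩ := (h6.and (hb.and (hbig (b - j)))).exists
          apply h7
          rw [Set.mem_singleton_iff]
          have h10 : ((i t : ℤ) : ZMod (2 * m t + 1)) = ((b - j : ℤ) : ZMod (2 * m t + 1)) := by
            have h11 : (b : ZMod (2 * m t + 1)) = ((i t + j : ℤ) : ZMod (2 * m t + 1)) := by
              rw [← h8, ZMod.coe_valMinAbs]
            push_cast at h11 ⊢
            rw [h11]
            ring
          rw [h10]
          exact K1b2_val h9
        · exact h
      exact tendsto_nhds_unique (hB j) (hL.comp h5)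
    rw [h4]
    exact h2

end

end KT

end FB
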