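import Pool.Agent.H.MP_fb873c_an.B0
import Pool.Agent.H.MP_fb873c_an.K00

/-!
# Part K3: a hyperbolic linear map has no bounded two-sided orbits except zero
-/

namespace FB

namespace KT

open scoped Topology
open Filter

section

/-- the shift on sequences -/
def K3_shift : Module.End ℂ (ℤ → ℂ) where
  toFun a := fun j => a (j + 1)
  map_add' _ _ := rfl
  map_smul' _ _ := rfl

theorem K3_shift_pow (i : ℕ) (a : ℤ → ℂ) (j : ℤ) : (K3_shift ^ i) a j = a (j + i) := by
  induction i generalizing j with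
  | zero => simp
  | succ i ih =>
    rw [pow_succ', Module.End.mul_apply]
    change (K3_shift ^ i) a (j + 1) = _
    rw [ih]
    congr 1
    push_cast
    ring

theorem K3_aeval (P : Polynomial ℂ) (a : ℤ → ℂ) (j : ℤ) :
    (Polynomial.aeval K3_shift P) a j =
      ∑ i ∈ Finset.range (P.natDegree + 1), P.coeff i * a (j + i) := by
  rw [Polynomial.aeval_eq_sum_range, LinearMap.sum_apply, Finset.sum_apply]
  refine Finset.sum_congr rfl fun i _ => ?_
  rw [LinearMap.smul_apply, Pi.smul_apply, K3_shift_pow, smul_eq_mul]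

theorem K3_one (l : ℂ) (hl : ‖l‖ ≠ 1) (a : ℤ → ℂ) (ha : ∃ C, ∀ j, ‖a j‖ ≤ C)
    (h : ∀ j : ℤ, a (j + 1) = l * a j) : ∀ j, a j = 0 := by
  obtain ⟨C, hC⟩ := ha
  have hC0 : 0 ≤ C := (norm_nonneg _).trans (hC 0)
  have hi : ∀ (i : ℕ) (j : ℤ), a (j + i) = l ^ i * a j := by
    intro i
    induction i with
    | zero => intro j; simp
    | succ i ih =>
      intro j
      have h1 : (j + ((i + 1 : ℕ) : ℤ)) = (j + i) + 1 := by push_cast; ring
      rw [h1, h, ih, pow_succ]
      ring
  intro j
  rcases lt_or_gt_of_ne hl with h1 | h1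
  · have h2 : ∀ i : ℕ, ‖a j‖ ≤ ‖l‖ ^ i * C := by
      intro i
      have h3 := hi i (j - i)
      rw [sub_add_cancel] at h3
      rw [h3, norm_mul, norm_pow]
      exact mul_le_mul_of_nonneg_left (hC _) (by positivity)
    have h3 : Tendsto (fun i : ℕ => ‖l‖ ^ i * C) atTop (𝓝 (0 * C)) :=
      (tendsto_pow_atTop_nhds_zero_of_lt_one (norm_nonneg _) h1).mul_const C
    rw [zero_mul] at h3
    have h4 : ‖a j‖ ≤ 0 := ge_of_tendsto' h3 h2
    exact norm_le_zero_iff.1 h4
  · by_contra h0
    have h2 : 0 < ‖a j‖ := norm_pos_iff.2 h0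
    obtain ⟨i, hiC⟩ := pow_unbounded_of_one_lt (C / ‖a j‖) h1
    have h3 := hC (j + i)
    rw [hi, norm_mul, norm_pow] at h3
    rw [div_lt_iff₀ h2] at hiC
    linarith

theorem K3_main (s : Multiset ℂ) : (∀ l ∈ s, ‖l‖ ≠ 1) → ∀ (a : ℤ → ℂ), (∃ C, ∀ j, ‖a j‖ ≤ C) →
    (Polynomial.aeval K3_shift (s.map (fun l => Polynomial.X - Polynomial.C l)).prod) a = 0 →
    a = 0 := by
  induction s using Multiset.induction_on with
  | empty =>
    intro _ a _ h
    simpa using h
  | cons l s ih =>
    intro hs a ha h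
    obtain ⟨C, hC⟩ := ha
    rw [Multiset.map_cons, Multiset.prod_cons, mul_comm, map_mul, Module.End.mul_apply] at h
    have hb := ih (fun l' hl' => hs l' (Multiset.mem_cons_of_mem hl')) _ ?_ h
    · have h1 : ∀ j : ℤ, a (j + 1) = l * a j := by
        intro j
        have h2 := congrFun hb j
        rw [map_sub, Polynomial.aeval_X, Polynomial.aeval_C, LinearMap.sub_apply, Pi.sub_apply,
          Module.algebraMap_end_apply, Pi.smul_apply, Pi.zero_apply, smul_eq_mul] at h2
        exact sub_eq_zero.1 h2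
      funext j
      exact K3_one l (hs l (Multiset.mem_cons_self _ _)) a ⟨C, hC⟩ h1 j
    · refine ⟨C + ‖l‖ * C, fun j => ?_⟩
      rw [map_sub, Polynomial.aeval_X, Polynomial.aeval_C, LinearMap.sub_apply, Pi.sub_apply,
          Module.algebraMap_end_apply, Pi.smul_apply, smul_eq_mul]
      refine (norm_sub_le _ _).trans (add_le_add (hC _) ?_)
      rw [norm_mul]
      exact mul_le_mul_of_nonneg_left (hC _) (norm_nonneg _)

/-- Scalar recurrences: a bounded two-sided sequence of complex numbers annihilated by a product of factors `S - l` (`S` the shift), `‖l‖ ≠ 1`, is zero.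
`lin P a j = ∑ coeff i * a (j + i)`.  Induction over the multiset of roots: for `P = (X - l) Q` the sequence `b j = a (j+1) - l a j` is bounded and annihilated by `Q`
so `b = 0`, `a (j+1) = l a j`: if `‖l‖ > 1`, `‖a j‖ = ‖l‖^(-i) ‖a (j+i)‖ ≤ ‖l‖^(-i) C → 0`; if `‖l‖ < 1`, `‖a j‖ = ‖l‖^i ‖a (j-i)‖ → 0`. -/
theorem rec_zero (s : Multiset ℂ) (hs : ∀ l ∈ s, ‖l‖ ≠ 1) (a : ℤ → ℂ) (ha : ∃ C, ∀ j, ‖a j‖ ≤ C)
    (h : ∀ j : ℤ, ∑ i ∈ Finset.range ((s.map (fun l => Polynomial.X - Polynomial.C l)).prod.natDegree + 1),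
      (s.map (fun l => Polynomial.X - Polynomial.C l)).prod.coeff i * a (j + i) = 0) : ∀ j, a j = 0 := by
  have h0 := K3_main s hs a ha ?_
  · intro j
    rw [h0]
    rfl
  · funext j
    rw [K3_aeval]
    exact h j

/-- Let `x (j+1) = A (x j)`, `x` bounded.  By Cayley-Hamilton (`LinearMap.aeval_self_charpoly`) `∑ coeff i • x (j + i) = 0` with the coefficients of
`charpoly A` (`x (j + i) = A^i (x j)`).  Apply a coordinate functional (`fun v => ((v k : ℝ) : ℂ)`) and `rec_zero` with the multiset of the complex roots of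
`charpoly A` (the polynomial is monic and splits over `ℂ`, `IsAlgClosed.splits`), none of which has norm one. -/
theorem noBdd_hyp {n : ℕ} {A : Er n →L[ℝ] Er n} (h : Hyp A) : NoBdd (fun _ => A) := by
  intro x ⟨C, hC⟩ hx
  classical
  set T : Module.End ℝ (Er n) := A.toLinearMap with hT
  have hxi : ∀ (i : ℕ) (j : ℤ), x (j + i) = (T ^ i) (x j) := by
    intro i
    induction i with
    | zero => intro j; simp
    | succ i ih =>
      intro j
      have h1 : (j + ((i + 1 : ℕ) : ℤ)) = (j + i) + 1 := by push_cast; ring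
      rw [h1, hx, ih, pow_succ', Module.End.mul_apply]
      rfl
  set P : Polynomial ℂ := (LinearMap.charpoly T).map (algebraMap ℝ ℂ) with hP
  have hmon : (LinearMap.charpoly T).Monic := LinearMap.charpoly_monic T
  have hPm : P.Monic := hmon.map _
  have hsp : P = (P.roots.map (fun l => Polynomial.X - Polynomial.C l)).prod :=
    (IsAlgClosed.splits P).eq_prod_roots_of_monic hPm
  have hroot : ∀ l ∈ P.roots, ‖l‖ ≠ 1 := by
    intro l hl
    exact h l ((Polynomial.mem_roots hPm.ne_zero).1 hl)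
  have key : ∀ (k : Fin n) (j : ℤ), ((x j k : ℝ) : ℂ) = 0 := by
    intro k
    refine rec_zero P.roots hroot (fun j => ((x j k : ℝ) : ℂ)) ⟨C, fun j => ?_⟩ fun j => ?_
    · rw [Complex.norm_real]
      exact (PiLp.norm_apply_le (x j) k).trans (hC j)
    · rw [← hsp]
      have h1 : (Polynomial.aeval T (LinearMap.charpoly T)) (x j) = 0 := by
        rw [LinearMap.aeval_self_charpoly]
        rfl
      rw [Polynomial.aeval_eq_sum_range, LinearMap.sum_apply] at h1
      have h2 := congrArg (fun v : Er n => ((v k : ℝ) : ℂ)) h1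
      simp only [LinearMap.smul_apply, ← hxi] at h2
      have hdeg : P.natDegree = (LinearMap.charpoly T).natDegree := hmon.natDegree_map _
      rw [hdeg]
      have h3 : ∑ i ∈ Finset.range ((LinearMap.charpoly T).natDegree + 1),
          P.coeff i * ((x (j + i) k : ℝ) : ℂ) =
          (((∑ i ∈ Finset.range ((LinearMap.charpoly T).natDegree + 1),
            (LinearMap.charpoly T).coeff i • x (j + i) : Er n) k : ℝ) : ℂ) := by
        rw [WithLp.ofLp_sum, Finset.sum_apply, Complex.ofReal_sum]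
        refine Finset.sum_congr rfl fun i _ => ?_
        rw [hP, Polynomial.coeff_map]
        simp
      rw [h3]
      refine h2.trans ?_
      simp
  intro j
  ext k
  have := key k j
  simpa using this

end

end KT

end FB
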