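import Pool.Agent.H.MP_fb873c_an.D2a
import Pool.Agent.H.MP_fb873c_an.D2b

/-!
# Part K6: smooth families of diffeomorphisms, local uniformity
-/

namespace FB

namespace KT

open scoped Topology ContDiff Manifold
open Filter Metric

universe u

section

variable {n : ℕ} {M : Type u} [TopologicalSpace M] [ChartedSpace (Er n) M]

/-- A smooth one-parameter family with `H 0 = f`. -/
structure Fam (f : Dif n M) (H : ℝ → Dif n M) : Prop where
  sm : ∀ x, SmF n (fun s => (H s : M → M)) x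
  h0 : ∀ x, H 0 x = f x

variable [IsManifold (𝓡 n) ∞ M] {f : Dif n M} {H : ℝ → Dif n M}

/-- Joint continuity of the iterates in a chart. -/
theorem K6_cont (hH : Fam f H) (k : ℕ) {x : M} {φ : OpenPartialHomeomorph M (Er n)}
    (hx : x ∈ φ.source) :
    ContinuousAt (fun q : ℝ × Er n => (H q.1 : M → M)^[k] (φ.symm q.2)) (0, φ x) := by
  have hS : SmF n (fun s => (H s : M → M)^[k]) x := smF_iterate hH.sm k x
  have h1 : ContinuousAt (fun q : ℝ × M => (H q.1 : M → M)^[k] q.2) (0, x) := hS.continuousAt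
  have h2 : ContinuousAt (fun q : ℝ × Er n => (q.1, φ.symm q.2)) (0, φ x) :=
    continuousAt_fst.prodMk
      (((φ.continuousAt_symm (φ.map_source hx)).comp_of_eq continuousAt_snd rfl))
  exact h1.comp_of_eq h2 (by simp only [φ.left_inv hx])

/-- `smF_iterate`, `smF_chart` (file D2b) and `slice_fderiv_continuousAt` (file D2a) at `(0, φ x)`: all the four conditions hold for `(s, z)` near `(0, φ x)`
(`nhds_prod_eq`, `Filter.Eventually.prod_nhds`...: a neighbourhood of `(0, φ x)` contains a product of a neighbourhood of `0` and a closed ball, `Metric.nhds_basis_closedBall`). -/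
theorem local_close (hH : Fam f H) (k : ℕ) {x : M} {φ ψ : OpenPartialHomeomorph M (Er n)}
    (hφ : φ ∈ atlas (Er n) M) (hψ : ψ ∈ atlas (Er n) M) (hx : x ∈ φ.source)
    (hy : (f : M → M)^[k] x ∈ ψ.source) {η : ℝ} (hη : 0 < η) :
    ∃ r : ℝ, 0 < r ∧ ∀ᶠ s in 𝓝 (0 : ℝ), ∀ z ∈ closedBall (φ x) r, z ∈ φ.target ∧
      (H s : M → M)^[k] (φ.symm z) ∈ ψ.source ∧
      ‖fderiv ℝ (fun z => ψ ((H s : M → M)^[k] (φ.symm z))) z -
        fderiv ℝ (fun z => ψ ((f : M → M)^[k] (φ.symm z))) (φ x)‖ ≤ η ∧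
      ‖ψ ((H s : M → M)^[k] (φ.symm z)) - ψ ((f : M → M)^[k] x)‖ ≤ η := by
  have e0 : (H 0 : M → M) = f := funext hH.h0
  have hS : SmF n (fun s => (H s : M → M)^[k]) x := smF_iterate hH.sm k x
  have hy' : (H 0 : M → M)^[k] x ∈ ψ.source := by rw [e0]; exact hy
  have h1 : ContDiffAt ℝ ∞ (fun q : ℝ × Er n => ψ ((H q.1 : M → M)^[k] (φ.symm q.2)))
      (0, φ x) := smF_chart hS hφ hψ hx hy'
  have h2 : ContinuousAt (fun q : ℝ × Er n =>
      fderiv ℝ (fun y => ψ ((H q.1 : M → M)^[k] (φ.symm y))) q.2) (0, φ x) :=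
    slice_fderiv_continuousAt h1
  have h3 : ContinuousAt (fun q : ℝ × Er n => ψ ((H q.1 : M → M)^[k] (φ.symm q.2)))
      (0, φ x) := h1.continuousAt
  have h4 := K6_cont hH k hx
  have v0 : ψ ((H 0 : M → M)^[k] (φ.symm (φ x))) = ψ ((f : M → M)^[k] x) := by
    rw [e0, φ.left_inv hx]
  have a1 : ∀ᶠ q : ℝ × Er n in 𝓝 (0, φ x), q.2 ∈ φ.target :=
    continuousAt_snd.eventually (φ.open_target.mem_nhds (φ.map_source hx))
  have a2 : ∀ᶠ q : ℝ × Er n in 𝓝 (0, φ x), (H q.1 : M → M)^[k] (φ.symm q.2) ∈ ψ.source := by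
    refine h4.eventually (ψ.open_source.mem_nhds ?_)
    show (H 0 : M → M)^[k] (φ.symm (φ x)) ∈ ψ.source
    rw [φ.left_inv hx]
    exact hy'
  have a3 : ∀ᶠ q : ℝ × Er n in 𝓝 (0, φ x),
      ‖fderiv ℝ (fun y => ψ ((H q.1 : M → M)^[k] (φ.symm y))) q.2 -
        fderiv ℝ (fun z => ψ ((f : M → M)^[k] (φ.symm z))) (φ x)‖ ≤ η := by
    have h5 := h2.eventually (Metric.closedBall_mem_nhds _ hη)
    filter_upwards [h5] with q hq
    have hq' : dist (fderiv ℝ (fun y => ψ ((H q.1 : M → M)^[k] (φ.symm y))) q.2)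
        (fderiv ℝ (fun y => ψ ((H 0 : M → M)^[k] (φ.symm y))) (φ x)) ≤ η := hq
    rwa [e0, dist_eq_norm] at hq'
  have a4 : ∀ᶠ q : ℝ × Er n in 𝓝 (0, φ x),
      ‖ψ ((H q.1 : M → M)^[k] (φ.symm q.2)) - ψ ((f : M → M)^[k] x)‖ ≤ η := by
    have h5 := h3.eventually (Metric.closedBall_mem_nhds _ hη)
    filter_upwards [h5] with q hq
    have hq' : dist (ψ ((H q.1 : M → M)^[k] (φ.symm q.2)))
        (ψ ((H 0 : M → M)^[k] (φ.symm (φ x)))) ≤ η := hq
    rwa [v0, dist_eq_norm] at hq'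
  have hev := (a1.and (a2.and (a3.and a4)))
  obtain ⟨r, hr, hsub⟩ := Metric.nhds_basis_closedBall.mem_iff.1 hev
  refine ⟨r, hr, ?_⟩
  filter_upwards [Metric.closedBall_mem_nhds (0 : ℝ) hr] with s hs z hz
  have hmem : (s, z) ∈ closedBall ((0 : ℝ), φ x) r := by
    rw [← closedBall_prod_same]
    exact ⟨hs, hz⟩
  exact hsub hmem

/-- The same for a neighbourhood instead of charts: if `f^l x ≠ y` then `(H s)^l (φ.symm z)` stays away from `y`.
(Continuity of `(s, z) ↦ (H s)^l (φ.symm z)` at `(0, φ x)`: `smF_iterate`, `SmF.continuousAt`; disjoint neighbourhoods of `f^l x` and `y`.) -/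
theorem local_avoid [T2Space M] (hH : Fam f H) (l : ℕ) {x y : M}
    {φ : OpenPartialHomeomorph M (Er n)} (hx : x ∈ φ.source)
    (hy : (f : M → M)^[l] x ≠ y) :
    ∃ V ∈ 𝓝 y, ∃ r : ℝ, 0 < r ∧ ∀ᶠ s in 𝓝 (0 : ℝ), ∀ z ∈ closedBall (φ x) r,
      (H s : M → M)^[l] (φ.symm z) ∉ V := by
  have e0 : (H 0 : M → M) = f := funext hH.h0
  obtain ⟨U, V, hU, hV, hxU, hyV, hUV⟩ := t2_separation hy
  refine ⟨V, hV.mem_nhds hyV, ?_⟩
  have h4 := K6_cont hH l hx
  have hev : ∀ᶠ q : ℝ × Er n in 𝓝 (0, φ x), (H q.1 : M → M)^[l] (φ.symm q.2) ∈ U := by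
    refine h4.eventually (hU.mem_nhds ?_)
    show (H 0 : M → M)^[l] (φ.symm (φ x)) ∈ U
    rw [φ.left_inv hx, e0]
    exact hxU
  obtain ⟨r, hr, hsub⟩ := Metric.nhds_basis_closedBall.mem_iff.1 hev
  refine ⟨r, hr, ?_⟩
  filter_upwards [Metric.closedBall_mem_nhds (0 : ℝ) hr] with s hs z hz
  have hmem : (s, z) ∈ closedBall ((0 : ℝ), φ x) r := by
    rw [← closedBall_prod_same]
    exact ⟨hs, hz⟩
  exact fun hzV => Set.disjoint_left.1 hUV (hsub hmem) hzV

end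

end KT

end FB
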