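import Pool.Agent.H.MP_fb873c_an.K4a
import Pool.Agent.H.MP_fb873c_an.K6

/-!
# Part K6b: uniformity along the homoclinic orbit (orbit_ne, orbit_ne', avoid)
-/


namespace FB

namespace KT

open scoped Topology ContDiff Manifold
open Filter Metric

universe u

section

variable {n : ℕ} {M : Type u} [TopologicalSpace M] [ChartedSpace (Er n) M]
  [IsManifold (𝓡 n) ∞ M]
variable {f : Dif n M} {k : ℕ} {p : M} {q : ℤ → M} {ψ : ℤ → OpenPartialHomeomorph M (Er n)} {J : ℕ}
  {H : ℝ → Dif n M}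

omit [IsManifold (𝓡 n) ∞ M] in
/-- Iterating `f^k` along the orbit. -/
theorem K6b3_orb (h : HO f k p q ψ J) (j : ℤ) (i : ℕ) :
    ((f : M → M)^[k])^[i] (q j) = q (j + i) := by
  induction i with
  | zero => simp
  | succ i ih =>
    rw [Function.iterate_succ_apply', ih, h.orb]
    congr 1
    push_cast
    ring

omit [IsManifold (𝓡 n) ∞ M] in
theorem K6b3_lim (h : HO f k p q ψ J) (j : ℤ) :
    Tendsto (fun i : ℕ => q (j + i)) atTop (𝓝 p) := by
  rw [← Nat.cofinite_eq_atTop]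
  refine h.lim.comp (Function.Injective.tendsto_cofinite fun a b hab => ?_)
  have : j + (a : ℤ) = j + (b : ℤ) := hab
  omega

/-- The orbit of `q 0` is not hit by the other points: `f^l (q j) ≠ q 0` for `l < k`, `(j, l) ≠ (0, 0)`.  If `f^l (q j) = q 0`, then applying `f^(k i)`: `f^l (q (j+i)) = q i`, and for `i → ∞`:
`f^l p = p` (`tendsto_nhds_unique`, continuity of `f^l`), so `l = 0` by `minp`; then `q (j+i) = q i` for all `i ≥ 0` and for all `i` by injectivity of `f^k`, so if `j ≠ 0` the sequence `q` is periodic and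
converges to `p`, so `q 0 = p`, contradiction to `ne`. -/
theorem orbit_ne [T2Space M] (h : HO f k p q ψ J) {j : ℤ} {l : ℕ} (hl : l < k)
    (hjl : ¬ (j = 0 ∧ l = 0)) : (f : M → M)^[l] (q j) ≠ q 0 := by
  intro he
  have hcomm : ∀ i : ℕ, Function.Commute ((f : M → M)^[l]) (((f : M → M)^[k])^[i]) := fun i =>
    ((Function.Commute.refl (f : M → M)).iterate_iterate l k).iterate_right i
  have h1 : ∀ i : ℕ, (f : M → M)^[l] (q (j + i)) = q i := by
    intro i
    rw [← K6b3_orb h j i, (hcomm i).eq, he, K6b3_orb h 0 i, zero_add]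
  have hc : Continuous ((f : M → M)^[l]) := f.continuous.iterate l
  have h2 : Tendsto (fun i : ℕ => (f : M → M)^[l] (q (j + i))) atTop (𝓝 ((f : M → M)^[l] p)) :=
    (hc.tendsto p).comp (K6b3_lim h j)
  have h3 : Tendsto (fun i : ℕ => (f : M → M)^[l] (q (j + i))) atTop (𝓝 p) := by
    have h4 := K6b3_lim h 0
    refine h4.congr fun i => ?_
    rw [h1 i, zero_add]
  have h5 : (f : M → M)^[l] p = p := tendsto_nhds_unique h2 h3
  have hl0 : l = 0 := by
    by_contra hne
    exact h.minp l (Nat.pos_of_ne_zero hne) hl h5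
  have hj : j ≠ 0 := fun hj => hjl ⟨hj, hl0⟩
  have h6 : ∀ i : ℕ, q (j + i) = q i := by
    intro i
    have := h1 i
    rwa [hl0, Function.iterate_zero_apply] at this
  have hinj : Function.Injective ((f : M → M)^[k]) := f.injective.iterate k
  have h7 : ∀ i : ℤ, q (j + i) = q i := by
    intro i
    have h8 : ((f : M → M)^[k])^[i.natAbs] (q (j + i))
        = ((f : M → M)^[k])^[i.natAbs] (q i) := by
      rw [K6b3_orb h, K6b3_orb h]
      obtain ⟨N, hN⟩ : ∃ N : ℕ, i + (i.natAbs : ℤ) = N := ⟨(i + (i.natAbs : ℤ)).toNat, by omega⟩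
      rw [add_assoc, hN]
      exact h6 N
    exact hinj.iterate _ h8
  have h9 : ∀ m : ℕ, q (j * m) = q 0 := by
    intro m
    induction m with
    | zero => simp
    | succ m ih =>
      rw [← ih, ← h7 (j * m)]
      congr 1
      push_cast
      ring
  have h10 : Tendsto (fun m : ℕ => q (j * m)) atTop (𝓝 p) := by
    rw [← Nat.cofinite_eq_atTop]
    refine h.lim.comp (Function.Injective.tendsto_cofinite fun a b hab => ?_)
    have hab' : j * (a : ℤ) = j * (b : ℤ) := hab
    exact_mod_cast mul_left_cancel₀ hj hab'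
  have h11 : Tendsto (fun m : ℕ => q (j * m)) atTop (𝓝 (q 0)) :=
    tendsto_const_nhds.congr fun m => (h9 m).symm
  exact h.ne 0 (tendsto_nhds_unique h11 h10)

/-- `f^l p ≠ q 0`: otherwise `f^k (q 0) = q 0`, `q j = q 0` for all `j ≥ 0`, so `q 0 = p`. -/
theorem orbit_ne' [T2Space M] (h : HO f k p q ψ J) (l : ℕ) : (f : M → M)^[l] p ≠ q 0 := by
  intro he
  have hfix : (f : M → M)^[k] (q 0) = q 0 := by
    have hc := ((Function.Commute.refl (f : M → M)).iterate_iterate k l).eq p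
    rw [h.fixp, he] at hc
    exact hc
  have h1 : ∀ i : ℕ, q (0 + i) = q 0 := by
    intro i
    rw [← K6b3_orb h 0 i]
    exact Function.iterate_fixed hfix i
  have h2 : Tendsto (fun i : ℕ => q (0 + i)) atTop (𝓝 (q 0)) :=
    tendsto_const_nhds.congr fun i => (h1 i).symm
  exact h.ne 0 (tendsto_nhds_unique h2 (K6b3_lim h 0))

/-- `local_avoid` for finitely many exponents. -/
theorem K6b3_point [T2Space M] (hH : Fam f H) {x y : M}
    {φ : OpenPartialHomeomorph M (Er n)} (hx : x ∈ φ.source) (P : ℕ → Prop) (m : ℕ)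
    (hy : ∀ l < m, P l → (f : M → M)^[l] x ≠ y) :
    ∃ V ∈ 𝓝 y, ∃ r : ℝ, 0 < r ∧ ∀ᶠ s in 𝓝 (0 : ℝ), ∀ z ∈ closedBall (φ x) r,
      ∀ l < m, P l → (H s : M → M)^[l] (φ.symm z) ∉ V := by
  induction m with
  | zero =>
    exact ⟨Set.univ, univ_mem, 1, one_pos, Eventually.of_forall fun s z _ l hl =>
      absurd hl (Nat.not_lt_zero l)⟩
  | succ m ih =>
    obtain ⟨V, hV, r, hr, hs⟩ := ih fun l hl => hy l (Nat.lt_succ_of_lt hl)
    by_cases hP : P m
    · obtain ⟨V', hV', r', hr', hs'⟩ := local_avoid hH m hx (hy m (Nat.lt_succ_self m) hP)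
      refine ⟨V ∩ V', inter_mem hV hV', min r r', lt_min hr hr', ?_⟩
      filter_upwards [hs, hs'] with s h1 h2 z hz l hl hPl hmem
      rcases Nat.lt_succ_iff_lt_or_eq.1 hl with hl' | rfl
      · exact h1 z (closedBall_subset_closedBall (min_le_left _ _) hz) l hl' hPl hmem.1
      · exact h2 z (closedBall_subset_closedBall (min_le_right _ _) hz) hmem.2
    · refine ⟨V, hV, r, hr, ?_⟩
      filter_upwards [hs] with s h1 z hz l hl hPl hmem
      rcases Nat.lt_succ_iff_lt_or_eq.1 hl with hl' | rfl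
      · exact h1 z hz l hl' hPl hmem
      · exact hP hPl

/-- `local_avoid` for finitely many points of the homoclinic orbit. -/
theorem K6b3_finite [T2Space M] (h : HO f k p q ψ J) (hH : Fam f H) {S : Set ℤ} (hS : S.Finite) :
    ∃ V ∈ 𝓝 (q 0), ∃ r : ℝ, 0 < r ∧ ∀ᶠ s in 𝓝 (0 : ℝ), ∀ j ∈ S, ∀ z ∈ closedBall (ψ j (q j)) r,
      ∀ l < k, ¬ (j = 0 ∧ l = 0) → (H s : M → M)^[l] ((ψ j).symm z) ∉ V := by
  induction S, hS using Set.Finite.induction_on with
  | empty =>
    exact ⟨Set.univ, univ_mem, 1, one_pos, Eventually.of_forall fun s j hj =>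
      absurd hj (Set.notMem_empty j)⟩
  | @insert a S _ _ ih =>
    obtain ⟨V, hV, r, hr, hs⟩ := ih
    obtain ⟨V', hV', r', hr', hs'⟩ := K6b3_point hH (h.src a) (fun l => ¬ (a = 0 ∧ l = 0)) k
      (y := q 0) fun l hl hPl => orbit_ne h hl hPl
    refine ⟨V ∩ V', inter_mem hV hV', min r r', lt_min hr hr', ?_⟩
    filter_upwards [hs, hs'] with s h1 h2 j hj z hz l hl hPl hmem
    rcases Set.mem_insert_iff.1 hj with rfl | hj'
    · exact h2 z (closedBall_subset_closedBall (min_le_right _ _) hz) l hl hPl hmem.2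
    · exact h1 j hj' z (closedBall_subset_closedBall (min_le_left _ _) hz) l hl hPl hmem.1

/-- For every `l < k`, `local_avoid` with `x = p` (`orbit_ne'`), radius `r1`: for all `|j| ≥ J2` and `r ≤ r1/2` the ball around `ψ_j (q j)` is contained in the ball of radius `r1` around `φ p`
(`ψ j = φ` the chart at `p`).  For the finitely many other `j`: `local_avoid` with `x = q j` (`orbit_ne`).  Intersection of finitely many neighbourhoods, with the chart domain; the minimum of the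
radii.  `V'` open inside (`mem_nhds_iff`).  For the second statement `(ψ 0).symm` is continuous at `ψ 0 (q 0)`. -/
theorem avoid [T2Space M] (h : HO f k p q ψ J) (hH : Fam f H) :
    ∃ V : Set M, IsOpen V ∧ q 0 ∈ V ∧ ∃ r0 : ℝ, 0 < r0 ∧ ∀ r, 0 < r → r ≤ r0 →
      (∀ z ∈ closedBall (ψ 0 (q 0)) r, (ψ 0).symm z ∈ V) ∧
      ∀ᶠ s in 𝓝 (0 : ℝ), ∀ j : ℤ, ∀ z ∈ closedBall (ψ j (q j)) r, ∀ l < k, ¬ (j = 0 ∧ l = 0) →
        (H s : M → M)^[l] ((ψ j).symm z) ∉ V := by
  obtain ⟨V1, hV1, r1, hr1, hs1⟩ := K6b3_point hH (mem_chart_source (Er n) p) (fun _ => True) k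
    (y := q 0) fun l _ _ => orbit_ne' h l
  have hev : ∀ᶠ j in cofinite, dist (ψ j (q j)) (chartAt (Er n) p p) < r1 / 2 ∧ (J : ℤ) ≤ |j| := by
    refine (Metric.tendsto_nhds.1 (coord_tendsto h) (r1 / 2) (half_pos hr1)).and ?_
    rw [eventually_cofinite]
    refine (Set.finite_Ioo (-(J : ℤ)) J).subset fun j hj => ?_
    have hj' : |j| < J := not_le.1 hj
    exact ⟨(abs_lt.1 hj').1, (abs_lt.1 hj').2⟩
  obtain ⟨V2, hV2, r2, hr2, hs2⟩ := K6b3_finite h hH (eventually_cofinite.1 hev)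
  have hVo : IsOpen (interior (V1 ∩ V2)) := isOpen_interior
  have hV0 : q 0 ∈ interior (V1 ∩ V2) := mem_interior_iff_mem_nhds.2 (inter_mem hV1 hV2)
  have hsym : (ψ 0).symm ⁻¹' (interior (V1 ∩ V2)) ∈ 𝓝 (ψ 0 (q 0)) := by
    have hca : ContinuousAt (ψ 0).symm (ψ 0 (q 0)) :=
      (ψ 0).continuousAt_symm ((ψ 0).map_source (h.src 0))
    refine hca.preimage_mem_nhds ?_
    rw [(ψ 0).left_inv (h.src 0)]
    exact hVo.mem_nhds hV0
  obtain ⟨r3, hr3, hs3⟩ := Metric.nhds_basis_closedBall.mem_iff.1 hsym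
  refine ⟨interior (V1 ∩ V2), hVo, hV0, min (min (r1 / 2) r2) r3,
    lt_min (lt_min (half_pos hr1) hr2) hr3, fun r hr hr0 => ⟨fun z hz => ?_, ?_⟩⟩
  · exact hs3 (closedBall_subset_closedBall (hr0.trans (min_le_right _ _)) hz)
  · have hra : r ≤ r1 / 2 := hr0.trans ((min_le_left _ _).trans (min_le_left _ _))
    have hrb : r ≤ r2 := hr0.trans ((min_le_left _ _).trans (min_le_right _ _))
    filter_upwards [hs1, hs2] with s h1 h2 j z hz l hl hjl hmem
    have hmem' : (H s : M → M)^[l] ((ψ j).symm z) ∈ V1 ∩ V2 := interior_subset hmem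
    by_cases hj : dist (ψ j (q j)) (chartAt (Er n) p p) < r1 / 2 ∧ (J : ℤ) ≤ |j|
    · have hψ : ψ j = chartAt (Er n) p := h.eqp j hj.2
      have hz' : z ∈ closedBall (chartAt (Er n) p p) r1 := by
        rw [mem_closedBall] at hz ⊢
        calc dist z (chartAt (Er n) p p) ≤ dist z (ψ j (q j))
              + dist (ψ j (q j)) (chartAt (Er n) p p) := dist_triangle _ _ _
          _ ≤ r1 / 2 + r1 / 2 := add_le_add (hz.trans hra) hj.1.le
          _ = r1 := by ring
      rw [hψ] at hmem'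
      exact h1 z hz' l hl trivial hmem'.1
    · exact h2 j hj z (closedBall_subset_closedBall hrb hz) l hl hjl hmem'.2

end

end KT

end FB
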