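import Pool.Agent.H.MP_fb873c_an.K4a
import Pool.Agent.H.MP_fb873c_an.K6

/-!
# Part K6b: uniformity along the homoclinic orbit (unif_close)
-/


namespace FB

namespace KT

open scoped Topology ContDiff Manifold
open Filter Metric

universe u

section

variable {n : ℕ} {M : Type u} [TopologicalSpace M] [ChartedSpace (Er n) M]
  [IsManifold (𝓡 n) ∞ M]
variable {f : Dif n M} {k : ℕ} {p : M} {q : ℤ → M} {ψ : ℤ → OpenPartialHomeomorph M (Er n)} {J : ℕ}
  {H : ℝ → Dif n M}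

/-- Let `φ` be the chart at `p`.  `local_close` with `x = p`, both charts `φ` and `η/2` gives `r1`; by `Lh_tendsto` and `coord_tendsto` there is `J2 ≥ J + 1` with
`‖ψ_j (q j) - φ p‖ ≤ r1/2` and `‖Lh j - dfix (f^k) p‖ ≤ η/2` for `|j| ≥ J2` (the cofinite filter on `ℤ`: the exceptional set is finite, hence bounded); for these `j` and
`r ≤ r1/2` the ball around `ψ_j (q j)` is contained in the ball of radius `r1` around `φ p`.  For each of the finitely many `j` with `|j| < J2`: `local_close` with `x = q j`, charts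
`ψ j`, `ψ (j+1)`.  Minimum of the radii (`Finset.exists_le`-like, or induction), `Filter.eventually_all_finset`, `Cls.mono`. -/
theorem unif_close (h : HO f k p q ψ J) (hH : Fam f H) {η : ℝ} (hη : 0 < η) :
    ∃ r0 : ℝ, 0 < r0 ∧ ∀ r, 0 < r → r ≤ r0 → ∀ᶠ s in 𝓝 (0 : ℝ), Cls f k q ψ η r (H s) := by
  have hφ : chartAt (Er n) p ∈ atlas (Er n) M := chart_mem_atlas _ _
  have hpφ : p ∈ (chartAt (Er n) p).source := mem_chart_source _ _
  have hfp : (f : M → M)^[k] p ∈ (chartAt (Er n) p).source := by rw [h.fixp]; exact hpφ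
  obtain ⟨r1, hr1, ev1⟩ := local_close hH k hφ hφ hpφ hfp (half_pos hη)
  have key : ∀ j : ℤ, ∃ r : ℝ, 0 < r ∧ ∀ᶠ s in 𝓝 (0 : ℝ), ∀ z ∈ closedBall (ψ j (q j)) r,
      z ∈ (ψ j).target ∧ (H s : M → M)^[k] ((ψ j).symm z) ∈ (ψ (j + 1)).source ∧
      ‖fderiv ℝ (fun z => ψ (j + 1) ((H s : M → M)^[k] ((ψ j).symm z))) z -
        fderiv ℝ (fun z => ψ (j + 1) ((f : M → M)^[k] ((ψ j).symm z))) (ψ j (q j))‖ ≤ η ∧
      ‖ψ (j + 1) ((H s : M → M)^[k] ((ψ j).symm z)) - ψ (j + 1) ((f : M → M)^[k] (q j))‖ ≤ η := by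
    intro j
    refine local_close hH k (h.atl j) (h.atl (j + 1)) (h.src j) ?_ hη
    rw [h.orb]
    exact h.src (j + 1)
  choose rr hrr hev using key
  have g1 : ∀ᶠ j : ℤ in cofinite, ‖Lh f k q ψ j - dfix (n := n) ((f : M → M)^[k]) p‖ ≤ η / 2 := by
    have := (Metric.tendsto_nhds.1 (Lh_tendsto h)) (η / 2) (half_pos hη)
    refine this.mono fun j hj => ?_
    rw [← dist_eq_norm]
    exact hj.le
  have g2 : ∀ᶠ j : ℤ in cofinite, dist (ψ j (q j)) (chartAt (Er n) p p) ≤ r1 / 2 := by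
    have := (Metric.tendsto_nhds.1 (coord_tendsto h)) (r1 / 2) (half_pos hr1)
    exact this.mono fun j hj => hj.le
  have g3 : ∀ᶠ j : ℤ in cofinite, (J : ℤ) + 1 ≤ |j| := by
    rw [eventually_cofinite]
    refine (Set.finite_Icc (-(J : ℤ)) J).subset ?_
    intro j hj
    have hj' : |j| < (J : ℤ) + 1 := not_le.1 hj
    exact abs_le.1 (by omega)
  have hfin : {j : ℤ | ¬ ((‖Lh f k q ψ j - dfix (n := n) ((f : M → M)^[k]) p‖ ≤ η / 2 ∧
      dist (ψ j (q j)) (chartAt (Er n) p p) ≤ r1 / 2) ∧ (J : ℤ) + 1 ≤ |j|)}.Finite :=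
    eventually_cofinite.1 ((g1.and g2).and g3)
  set S := {j : ℤ | ¬ ((‖Lh f k q ψ j - dfix (n := n) ((f : M → M)^[k]) p‖ ≤ η / 2 ∧
      dist (ψ j (q j)) (chartAt (Er n) p p) ≤ r1 / 2) ∧ (J : ℤ) + 1 ≤ |j|)} with hS
  have hmin : ∃ ρ : ℝ, 0 < ρ ∧ ∀ j ∈ S, ρ ≤ rr j := by
    rcases S.eq_empty_or_nonempty with he | hne
    · exact ⟨1, one_pos, by simp [he]⟩
    · obtain ⟨j0, -, hj0⟩ := Set.exists_min_image S rr hfin hne
      exact ⟨rr j0, hrr j0, hj0⟩
  obtain ⟨ρ, hρ, hρS⟩ := hmin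
  refine ⟨min (r1 / 2) ρ, lt_min (half_pos hr1) hρ, fun r _ hr => ?_⟩
  have hall : ∀ᶠ s in 𝓝 (0 : ℝ), ∀ j ∈ S, ∀ z ∈ closedBall (ψ j (q j)) (rr j),
      z ∈ (ψ j).target ∧ (H s : M → M)^[k] ((ψ j).symm z) ∈ (ψ (j + 1)).source ∧
      ‖fderiv ℝ (fun z => ψ (j + 1) ((H s : M → M)^[k] ((ψ j).symm z))) z -
        fderiv ℝ (fun z => ψ (j + 1) ((f : M → M)^[k] ((ψ j).symm z))) (ψ j (q j))‖ ≤ η ∧
      ‖ψ (j + 1) ((H s : M → M)^[k] ((ψ j).symm z)) - ψ (j + 1) ((f : M → M)^[k] (q j))‖ ≤ η :=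
    (eventually_all_finite hfin).2 fun j _ => hev j
  filter_upwards [ev1, hall] with s hs1 hs2
  intro j z hz
  by_cases hj : j ∈ S
  · have hz' : z ∈ closedBall (ψ j (q j)) (rr j) :=
      closedBall_subset_closedBall ((hr.trans (min_le_right _ _)).trans (hρS j hj)) hz
    obtain ⟨a, b, c, -⟩ := hs2 j hj z hz'
    exact ⟨a, b, c⟩
  · have hj' : (‖Lh f k q ψ j - dfix (n := n) ((f : M → M)^[k]) p‖ ≤ η / 2 ∧
      dist (ψ j (q j)) (chartAt (Er n) p p) ≤ r1 / 2) ∧ (J : ℤ) + 1 ≤ |j| := by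
      by_contra hcon
      exact hj hcon
    obtain ⟨⟨b1, b2⟩, b3⟩ := hj'
    have e1 : ψ j = chartAt (Er n) p := h.eqp j (by omega)
    have e2 : ψ (j + 1) = chartAt (Er n) p := by
      refine h.eqp (j + 1) ?_
      have : |j| ≤ |j + 1| + 1 := by
        calc |j| = |(j + 1) - 1| := by ring_nf
          _ ≤ |j + 1| + |(1 : ℤ)| := abs_sub _ _
          _ = |j + 1| + 1 := by simp
      omega
    have hz1 : z ∈ closedBall (chartAt (Er n) p p) r1 := by
      rw [mem_closedBall] at hz ⊢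
      calc dist z (chartAt (Er n) p p) ≤ dist z (ψ j (q j)) +
            dist (ψ j (q j)) (chartAt (Er n) p p) := dist_triangle _ _ _
        _ ≤ r1 / 2 + r1 / 2 := add_le_add (hz.trans (hr.trans (min_le_left _ _))) b2
        _ = r1 := by ring
    obtain ⟨a, b, c, -⟩ := hs1 z hz1
    have hF : Fh (H s) k ψ j =
        fun z => chartAt (Er n) p ((H s : M → M)^[k] ((chartAt (Er n) p).symm z)) := by
      funext w
      simp only [Fh, e1, e2]
    refine ⟨by rw [e1]; exact a, by rw [e1, e2]; exact b, ?_⟩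
    rw [hF]
    have hd : dfix (n := n) ((f : M → M)^[k]) p =
        fderiv ℝ (fun z => chartAt (Er n) p ((f : M → M)^[k] ((chartAt (Er n) p).symm z)))
          (chartAt (Er n) p p) := rfl
    calc _ = ‖(fderiv ℝ (fun z => chartAt (Er n) p ((H s : M → M)^[k]
            ((chartAt (Er n) p).symm z))) z - dfix (n := n) ((f : M → M)^[k]) p) -
            (Lh f k q ψ j - dfix (n := n) ((f : M → M)^[k]) p)‖ := by
          congr 1; abel
      _ ≤ ‖fderiv ℝ (fun z => chartAt (Er n) p ((H s : M → M)^[k]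
            ((chartAt (Er n) p).symm z))) z - dfix (n := n) ((f : M → M)^[k]) p‖ +
            ‖Lh f k q ψ j - dfix (n := n) ((f : M → M)^[k]) p‖ := norm_sub_le _ _
      _ ≤ η / 2 + η / 2 := add_le_add (by rw [hd]; exact c) b1
      _ = η := by ring

end

end KT

end FB
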