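import Pool.Agent.H.MP_fb873c_an.K4a
import Pool.Agent.H.MP_fb873c_an.K6

/-!
# Part K6b: uniformity along the homoclinic orbit (small_err, small_seam)
-/


namespace FB

namespace KT

open scoped Topology ContDiff Manifold
open Filter Metric

universe u

section

variable {n : ℕ} {M : Type u} [TopologicalSpace M] [ChartedSpace (Er n) M]
  [IsManifold (𝓡 n) ∞ M]
variable {f : Dif n M} {k : ℕ} {p : M} {q : ℤ → M} {ψ : ℤ → OpenPartialHomeomorph M (Er n)} {J : ℕ}
  {H : ℝ → Dif n M}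

/-- As before, with the last statement of `local_close` (with `η = δ/2`), for all `j` with `|j|` large `‖ψ_(j+1) (q (j+1)) - φ p‖ ≤ δ/2`; for the finitely many other `j` the last statement of
`local_close` with `x = q j`, `z = ψ_j (q j)`, `η = δ`. -/
theorem small_err (h : HO f k p q ψ J) (hH : Fam f H) {δ : ℝ} (hδ : 0 < δ) :
    ∀ᶠ s in 𝓝 (0 : ℝ), ∀ j, ‖Fh (H s) k ψ j (ψ j (q j)) - ψ (j + 1) (q (j + 1))‖ ≤ δ := by
  have hφ : chartAt (Er n) p ∈ atlas (Er n) M := chart_mem_atlas _ _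
  have hpφ : p ∈ (chartAt (Er n) p).source := mem_chart_source _ _
  have hfp : (f : M → M)^[k] p ∈ (chartAt (Er n) p).source := by rw [h.fixp]; exact hpφ
  obtain ⟨r1, hr1, ev1⟩ := local_close hH k hφ hφ hpφ hfp (half_pos hδ)
  have key : ∀ j : ℤ, ∀ᶠ s in 𝓝 (0 : ℝ),
      ‖Fh (H s) k ψ j (ψ j (q j)) - ψ (j + 1) (q (j + 1))‖ ≤ δ := by
    intro j
    have hj : (f : M → M)^[k] (q j) ∈ (ψ (j + 1)).source := by
      rw [h.orb]
      exact h.src (j + 1)
    obtain ⟨r, hr, ev⟩ := local_close hH k (h.atl j) (h.atl (j + 1)) (h.src j) hj hδ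
    refine ev.mono fun s hs => ?_
    have := (hs (ψ j (q j)) (mem_closedBall_self hr.le)).2.2.2
    rw [h.orb] at this
    exact this
  have g1 : ∀ᶠ j : ℤ in cofinite, dist (ψ j (q j)) (chartAt (Er n) p p) ≤ min r1 (δ / 2) := by
    have := (Metric.tendsto_nhds.1 (coord_tendsto h)) (min r1 (δ / 2))
      (lt_min hr1 (half_pos hδ))
    exact this.mono fun j hj => hj.le
  have g2 : ∀ᶠ j : ℤ in cofinite,
      dist (ψ (j + 1) (q (j + 1))) (chartAt (Er n) p p) ≤ min r1 (δ / 2) :=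
    ((add_left_injective (1 : ℤ)).tendsto_cofinite).eventually g1
  have g3 : ∀ᶠ j : ℤ in cofinite, (J : ℤ) + 1 ≤ |j| := by
    rw [eventually_cofinite]
    refine (Set.finite_Icc (-(J : ℤ)) J).subset ?_
    intro j hj
    have hj' : |j| < (J : ℤ) + 1 := not_le.1 hj
    exact abs_le.1 (by omega)
  have hfin := eventually_cofinite.1 ((g1.and g2).and g3)
  have hall := (eventually_all_finite hfin).2 fun j _ => key j
  filter_upwards [ev1, hall] with s hs1 hs2 j
  by_cases hj : ((dist (ψ j (q j)) (chartAt (Er n) p p) ≤ min r1 (δ / 2) ∧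
      dist (ψ (j + 1) (q (j + 1))) (chartAt (Er n) p p) ≤ min r1 (δ / 2)) ∧ (J : ℤ) + 1 ≤ |j|)
  · obtain ⟨⟨ha, hb⟩, hc⟩ := hj
    have e1 : ψ j = chartAt (Er n) p := h.eqp j (by omega)
    have e2 : ψ (j + 1) = chartAt (Er n) p := by
      refine h.eqp (j + 1) ?_
      rcases abs_cases j with hh | hh <;> rcases abs_cases (j + 1) with hh' | hh' <;> omega
    rw [e1] at ha
    rw [e2] at hb
    have hz : chartAt (Er n) p (q j) ∈ closedBall (chartAt (Er n) p p) r1 :=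
      mem_closedBall.2 (ha.trans (min_le_left _ _))
    have h4 := (hs1 _ hz).2.2.2
    rw [h.fixp] at h4
    have h5 : ‖chartAt (Er n) p p - chartAt (Er n) p (q (j + 1))‖ ≤ δ / 2 := by
      rw [← dist_eq_norm, dist_comm]
      exact hb.trans (min_le_right _ _)
    unfold Fh
    rw [e1, e2]
    calc ‖chartAt (Er n) p ((H s : M → M)^[k] ((chartAt (Er n) p).symm (chartAt (Er n) p (q j)))) -
          chartAt (Er n) p (q (j + 1))‖
        = ‖(chartAt (Er n) p ((H s : M → M)^[k]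
            ((chartAt (Er n) p).symm (chartAt (Er n) p (q j)))) - chartAt (Er n) p p) +
            (chartAt (Er n) p p - chartAt (Er n) p (q (j + 1)))‖ := by
          rw [sub_add_sub_cancel]
      _ ≤ δ / 2 + δ / 2 := (norm_add_le _ _).trans (add_le_add h4 h5)
      _ = δ := by ring
  · exact hs2 j hj

/-- `small_err` with `δ/2` and `ψ_(m+1) (q (m+1)) - ψ_(-m) (q (-m)) → 0` (`coord_tendsto`). -/
theorem small_seam (h : HO f k p q ψ J) (hH : Fam f H) {δ : ℝ} (hδ : 0 < δ) :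
    ∀ᶠ s in 𝓝 (0 : ℝ), ∀ᶠ m : ℕ in atTop,
      ‖Fh (H s) k ψ m (ψ m (q m)) - ψ (-(m : ℤ)) (q (-(m : ℤ)))‖ ≤ δ := by
  have i1 : Function.Injective fun m : ℕ => ((m : ℤ) + 1) := fun a b hab => by
    simpa using hab
  have i2 : Function.Injective fun m : ℕ => (-(m : ℤ)) := fun a b hab => by
    simpa using hab
  have t1 : Tendsto (fun m : ℕ => ψ ((m : ℤ) + 1) (q ((m : ℤ) + 1))) atTop
      (𝓝 (chartAt (Er n) p p)) := by
    rw [← Nat.cofinite_eq_atTop]
    exact (coord_tendsto h).comp i1.tendsto_cofinite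
  have t2 : Tendsto (fun m : ℕ => ψ (-(m : ℤ)) (q (-(m : ℤ)))) atTop
      (𝓝 (chartAt (Er n) p p)) := by
    rw [← Nat.cofinite_eq_atTop]
    exact (coord_tendsto h).comp i2.tendsto_cofinite
  have t3 := t1.dist t2
  rw [dist_self] at t3
  have ev : ∀ᶠ m : ℕ in atTop, dist (ψ ((m : ℤ) + 1) (q ((m : ℤ) + 1)))
      (ψ (-(m : ℤ)) (q (-(m : ℤ)))) < δ / 2 := t3.eventually_lt_const (half_pos hδ)
  filter_upwards [small_err h hH (half_pos hδ)] with s hs
  filter_upwards [ev] with m hm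
  have h1 := hs (m : ℤ)
  calc ‖Fh (H s) k ψ m (ψ m (q m)) - ψ (-(m : ℤ)) (q (-(m : ℤ)))‖
      = ‖(Fh (H s) k ψ m (ψ m (q m)) - ψ ((m : ℤ) + 1) (q ((m : ℤ) + 1))) +
          (ψ ((m : ℤ) + 1) (q ((m : ℤ) + 1)) - ψ (-(m : ℤ)) (q (-(m : ℤ))))‖ := by
        rw [sub_add_sub_cancel]
    _ ≤ δ / 2 + δ / 2 := by
        refine (norm_add_le _ _).trans (add_le_add h1 ?_)
        rw [← dist_eq_norm]
        exact hm.le
    _ = δ := by ring

end

end KT

end FB
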