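import Pool.Agent.H.MP_fb873c_an.K5b
import Pool.Agent.H.MP_fb873c_an.K6b1
import Pool.Agent.H.MP_fb873c_an.K6b2

/-!
# Part K7: closed orbits near the homoclinic orbit
-/

namespace FB

namespace KT

open scoped Topology ContDiff Manifold
open Filter Metric

universe u

section

variable {n : ℕ} {M : Type u} [TopologicalSpace M] [ChartedSpace (Er n) M]
  [IsManifold (𝓡 n) ∞ M]
variable {f : Dif n M} {k : ℕ} {p : M} {q : ℤ → M} {ψ : ℤ → OpenPartialHomeomorph M (Er n)} {J : ℕ}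
  {H : ℝ → Dif n M}

/-- `η = c/2`, `r0` from `unif_close`; for `r ≤ r0` let `δ = c r / 2`.  `cyc_solve'` with `L = Lh`, `G j = Fh (H s) k ψ j`, `y j = ψ_j (q j)`; hypotheses from `unif_close` (differentiability:
`Fh_contDiffAt`), `small_err`, `small_seam`. -/
theorem exists_CO (h : HO f k p q ψ J) (hH : Fam f H) {c : ℝ} (hc : 0 < c)
    (hB : ∀ᶠ m in atTop, BB c (cyc m (Lh f k q ψ))) :
    ∃ r0 : ℝ, 0 < r0 ∧ ∀ r, 0 < r → r ≤ r0 → ∀ᶠ s in 𝓝 (0 : ℝ), ∀ᶠ m : ℕ in atTop,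
      ∃ x, CO (H s) k q ψ r m x := by
  obtain ⟨r0, hr0, hcl⟩ := unif_close h hH (η := c / 2) (by positivity)
  refine ⟨r0, hr0, fun r hr hrr => ?_⟩
  have hδ : 0 < c * r / 2 := by positivity
  filter_upwards [hcl r hr hrr, small_err h hH hδ, small_seam h hH hδ] with s h1 h2 h3
  filter_upwards [hB, h3] with m hBm h3m
  obtain ⟨x, hx1, hx2, hx3⟩ := cyc_solve' (Lh f k q ψ) m hc hBm (fun j => Fh (H s) k ψ j)
    (fun j => ψ j (q j)) hr (η := c / 2) le_rfl (δ := c * r / 2) (by linarith)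
    (fun j _ z hz => by
      obtain ⟨ht, hs, hd⟩ := h1 j z hz
      exact ⟨(Fh_contDiffAt (H s) k h.atl ht hs).differentiableAt (by simp), hd⟩)
    (fun j _ _ => h2 j) h3m
  exact ⟨x, hx1, hx2, hx3⟩

end

end KT

end FB
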