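import Pool.Agent.H.MP_fb873c_an.K2a

/-!
# Part K2b: exponential decay away from the end points
-/

namespace FB

namespace KT

open scoped Topology
open Filter

section

theorem exists_kappa {c Λ : ℝ} (hc : 0 < c) (hΛ : 0 ≤ Λ) : ∃ κ : ℝ, 0 < κ ∧ ∃ η : ℝ, 0 < η ∧
    Real.exp κ * η + (Real.exp κ - 1) * Λ ≤ c / 2 := by
  have hd : 0 < min 1 (c / (8 * (Λ + 1))) := lt_min one_pos (by positivity)
  have hd1 : min 1 (c / (8 * (Λ + 1))) ≤ 1 := min_le_left _ _
  have hd2 : min 1 (c / (8 * (Λ + 1))) ≤ c / (8 * (Λ + 1)) := min_le_right _ _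
  set δ := min 1 (c / (8 * (Λ + 1)))
  refine ⟨Real.log (1 + δ), Real.log_pos (by linarith), c / 8, by positivity, ?_⟩
  rw [Real.exp_log (by linarith)]
  have h1 : δ * Λ ≤ c / 8 := by
    have h2 : δ * (8 * (Λ + 1)) ≤ c := by
      rwa [le_div_iff₀ (by positivity)] at hd2
    nlinarith
  have h3 : (1 + δ) * (c / 8) ≤ 2 * (c / 8) := mul_le_mul_of_nonneg_right (by linarith)
    (by positivity)
  have h4 : (1 + δ - 1) * Λ = δ * Λ := by ring
  rw [h4]
  linarith

theorem K2b_abs_exp_sub_one {x y : ℝ} (h : |x| ≤ y) : |Real.exp x - 1| ≤ Real.exp y - 1 := by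
  have h1 := abs_le.mp h
  rw [abs_le]
  constructor
  · have h2 : Real.exp (-y) ≤ Real.exp x := Real.exp_le_exp.mpr h1.1
    have h3 : Real.exp (-y) * Real.exp y = 1 := by rw [← Real.exp_add]; simp
    have h4 := Real.exp_pos y
    have h5 := Real.exp_pos (-y)
    nlinarith [sq_nonneg (Real.exp y - 1), sq_nonneg (Real.exp y - Real.exp (-y)),
      sq_nonneg (Real.exp (-y) - 1)]
  · have h2 : Real.exp x ≤ Real.exp y := Real.exp_le_exp.mpr h1.2
    linarith

variable {E : Type*} [NormedAddCommGroup E] [NormedSpace ℝ E]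

/-- `bb_weight` with `w j = exp (κ min (j - a) (b - j))` and `Real.exp κ - 1` in the place of `κ`: the exponents of `w (j+1)` and `w j` differ by at most `κ` in absolute
value, and `|exp x - 1| ≤ exp |x| - 1`. At `a` and `b` the weight is `1`. -/
theorem bb_decay {L : ℤ → E →L[ℝ] E} {c Λ κ η R : ℝ} (hB : BB c L) (hc : 0 < c)
    (hΛ : ∀ j, ‖L j‖ ≤ Λ) (hκ : 0 ≤ κ) (hη : 0 ≤ η)
    (hs : Real.exp κ * η + (Real.exp κ - 1) * Λ ≤ c / 2) {a b : ℤ} (hab : a ≤ b) (z : ℤ → E)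
    (hz : ∀ j, a ≤ j → j < b → ‖z (j + 1) - L j (z j)‖ ≤ η * ‖z j‖)
    (ha : ‖z a‖ ≤ R) (hb : ‖z b‖ ≤ R) :
    ∀ j, a ≤ j → j ≤ b →
      c * (Real.exp (κ * ((min (j - a) (b - j) : ℤ) : ℝ)) * ‖z j‖) ≤ (1 + Λ) * R := by
  have hk0 : 0 ≤ Real.exp κ - 1 := by
    have := Real.one_le_exp hκ
    linarith
  refine bb_weight (κ := Real.exp κ - 1) hB hc hΛ hk0 hη (by
    have : 1 + (Real.exp κ - 1) = Real.exp κ := by ring
    rw [this]; exact hs) hab z
    (fun j => Real.exp (κ * ((min (j - a) (b - j) : ℤ) : ℝ)))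
    (fun j => (Real.exp_pos _).le) (fun j => ?_) hz ?_ ?_
  · have hm : |((min (j + 1 - a) (b - (j + 1)) : ℤ) : ℝ) - ((min (j - a) (b - j) : ℤ) : ℝ)| ≤ 1 := by
      have hm' : |(min (j + 1 - a) (b - (j + 1)) : ℤ) - (min (j - a) (b - j) : ℤ)| ≤ 1 := by
        rw [abs_le]
        constructor <;> omega
      exact_mod_cast hm'
    have hx : |κ * (((min (j + 1 - a) (b - (j + 1)) : ℤ) : ℝ)
        - ((min (j - a) (b - j) : ℤ) : ℝ))| ≤ κ := by
      rw [abs_mul, abs_of_nonneg hκ]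
      nlinarith
    have h1 := K2b_abs_exp_sub_one hx
    have h2 : Real.exp (κ * ((min (j + 1 - a) (b - (j + 1)) : ℤ) : ℝ))
        - Real.exp (κ * ((min (j - a) (b - j) : ℤ) : ℝ))
        = Real.exp (κ * ((min (j - a) (b - j) : ℤ) : ℝ))
          * (Real.exp (κ * (((min (j + 1 - a) (b - (j + 1)) : ℤ) : ℝ)
            - ((min (j - a) (b - j) : ℤ) : ℝ))) - 1) := by
      rw [mul_sub, ← Real.exp_add, mul_one]
      congr 2
      ring
    rw [h2, abs_mul, abs_of_pos (Real.exp_pos _), mul_comm (Real.exp κ - 1)]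
    exact mul_le_mul_of_nonneg_left h1 (Real.exp_pos _).le
  · have h0 : min (a - a) (b - a) = 0 := by omega
    simp only [h0]
    simpa using ha
  · have h0 : min (b - a) (b - b) = 0 := by omega
    simp only [h0]
    simpa using hb

end

end KT

end FB
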