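import Pool.Agent.H.MP_fb873c_an.K4a

/-!
# Part K4b: existence of the data of a homoclinic orbit (sol_pos, sol_neg)
-/


namespace FB

namespace KT

open scoped Topology ContDiff Manifold
open Filter

universe u

section

variable {n : ℕ} {M : Type u} [TopologicalSpace M] [ChartedSpace (Er n) M]
  [IsManifold (𝓡 n) ∞ M]

theorem K4b1_id (φ : OpenPartialHomeomorph M (Er n)) {y : M} (hy : y ∈ φ.source) (v : Er n) :
    fderiv ℝ (φ ∘ id ∘ φ.symm) (φ y) v = v := by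
  have h1 : (φ ∘ id ∘ φ.symm) =ᶠ[𝓝 (φ y)] id := by
    filter_upwards [φ.open_target.mem_nhds (φ.map_source hy)] with z hz
    exact φ.right_inv hz
  rw [h1.fderiv_eq, fderiv_id]
  rfl

theorem K4b1_smooth (g : Dif n M) (k j : ℕ) (y : M) :
    ContMDiffAt (𝓡 n) (𝓡 n) 1 (((g : M → M)^[k])^[j]) y := by
  rw [← Function.iterate_mul]
  exact (contMDiff_iterate g (k * j) _).of_le (by norm_cast)

theorem K4b1_smooth1 (g : Dif n M) (k : ℕ) (y : M) :
    ContMDiffAt (𝓡 n) (𝓡 n) 1 ((g : M → M)^[k]) y :=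
  (contMDiff_iterate g k _).of_le (by norm_cast)

theorem K4b1_orb {f : Dif n M} {k : ℕ} {p : M} {q : ℤ → M} {ψ : ℤ → OpenPartialHomeomorph M (Er n)}
    {J : ℕ} (h : HO f k p q ψ J) (j : ℕ) : ((f : M → M)^[k])^[j] (q 0) = q (j : ℤ) := by
  induction j with
  | zero => rfl
  | succ j ih =>
    rw [Function.iterate_succ_apply', ih, h.orb]
    push_cast
    rfl

theorem K4b1_back {f : Dif n M} {k : ℕ} {p : M} {q : ℤ → M}
    {ψ : ℤ → OpenPartialHomeomorph M (Er n)}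
    {J : ℕ} (h : HO f k p q ψ J) (m : ℤ) : (f.symm : M → M)^[k] (q (m + 1)) = q m := by
  rw [← h.orb m]
  exact (Function.LeftInverse.iterate (f := (f : M → M)) (g := (f.symm : M → M))
      (fun x => f.symm_apply_apply x) k) (q m)

theorem K4b1_orbneg {f : Dif n M} {k : ℕ} {p : M} {q : ℤ → M}
    {ψ : ℤ → OpenPartialHomeomorph M (Er n)}
    {J : ℕ} (h : HO f k p q ψ J) (j : ℕ) :
    ((f.symm : M → M)^[k])^[j] (q 0) = q (-(j : ℤ)) := by
  induction j with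
  | zero => rfl
  | succ j ih =>
    rw [Function.iterate_succ_apply', ih]
    have e : -(((j + 1 : ℕ) : ℤ)) + 1 = -(j : ℤ) := by push_cast; ring
    rw [← e]
    exact K4b1_back h _

theorem K4b1_Fh (g : Dif n M) (k : ℕ) (ψ : ℤ → OpenPartialHomeomorph M (Er n)) (j : ℤ) :
    Fh g k ψ j = ψ (j + 1) ∘ (g : M → M)^[k] ∘ (ψ j).symm := rfl

/-- Let `x (j+1) = Lh j (x j)`.  For `j : ℕ`: `x j = D(ψ_j ∘ (f^k)^j ∘ ψ_0⁻¹)(ψ_0 (q 0)) (x 0)`.  Induction on `j`, chain rule `D1_chain` (file D1a). -/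
theorem sol_pos {f : Dif n M} {k : ℕ} {p : M} {q : ℤ → M} {ψ : ℤ → OpenPartialHomeomorph M (Er n)}
    {J : ℕ} (h : HO f k p q ψ J) {x : ℤ → Er n} (hx : ∀ j, x (j + 1) = Lh f k q ψ j (x j)) (j : ℕ) :
    x (j : ℤ) = fderiv ℝ (ψ (j : ℤ) ∘ ((f : M → M)^[k])^[j] ∘ (ψ 0).symm) (ψ 0 (q 0)) (x 0) := by
  induction j with
  | zero => exact (K4b1_id (ψ 0) (h.src 0) (x 0)).symm
  | succ j ih =>
    have e : (((j + 1 : ℕ) : ℤ)) = (j : ℤ) + 1 := by push_cast; rfl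
    have h1 : x (((j + 1 : ℕ) : ℤ)) = Lh f k q ψ j (x j) := by rw [e]; exact hx j
    have h2 := D1_chain (n := n) (F := ((f : M → M)^[k])^[j]) (G := (f : M → M)^[k])
      (x := q 0) (K4b1_smooth f k j _) (K4b1_smooth1 f k _) (h.atl 0) (h.atl j) (h.atl (j + 1))
      (h.src 0) (by rw [K4b1_orb h]; exact h.src j)
      (by rw [K4b1_orb h, h.orb]; exact h.src (j + 1))
    rw [K4b1_orb h, ← Function.iterate_succ'] at h2
    rw [h1, ih, e, h2]
    rfl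

/-- One step backwards. -/
theorem K4b1_step {f : Dif n M} {k : ℕ} {p : M} {q : ℤ → M}
    {ψ : ℤ → OpenPartialHomeomorph M (Er n)}
    {J : ℕ} (h : HO f k p q ψ J) {x : ℤ → Er n} (hx : ∀ j, x (j + 1) = Lh f k q ψ j (x j))
    (m : ℤ) :
    x m = fderiv ℝ (ψ m ∘ (f.symm : M → M)^[k] ∘ (ψ (m + 1)).symm) (ψ (m + 1) (q (m + 1)))
      (x (m + 1)) := by
  have h1 := Fh_inv f k h.atl (j := m) (z := ψ m (q m)) ((ψ m).map_source (h.src m))
    (by rw [(ψ m).left_inv (h.src m), h.orb]; exact h.src (m + 1))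
  have h2 : Fh f k ψ m (ψ m (q m)) = ψ (m + 1) (q (m + 1)) := by
    rw [Fh, (ψ m).left_inv (h.src m), h.orb]
  rw [h2] at h1
  have h3 := congrArg (fun A : Er n →L[ℝ] Er n => A (x m)) h1
  simp only [ContinuousLinearMap.comp_apply, ContinuousLinearMap.id_apply] at h3
  rw [hx m]
  exact h3.symm

/-- For `j : ℕ`: `x (-j) = D(ψ_(-j) ∘ ((f⁻¹)^k)^j ∘ ψ_0⁻¹)(ψ_0 (q 0)) (x 0)`.  Induction on `j`, chain rule `D1_chain` (file D1a) and `Fh_inv` : apply the inverse of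
`Lh (-j-1)` to `x (-j) = Lh (-j-1) (x (-j-1))`. -/
theorem sol_neg {f : Dif n M} {k : ℕ} {p : M} {q : ℤ → M} {ψ : ℤ → OpenPartialHomeomorph M (Er n)}
    {J : ℕ} (h : HO f k p q ψ J) {x : ℤ → Er n} (hx : ∀ j, x (j + 1) = Lh f k q ψ j (x j)) (j : ℕ) :
    x (-(j : ℤ)) = fderiv ℝ (ψ (-(j : ℤ)) ∘ ((f.symm : M → M)^[k])^[j] ∘ (ψ 0).symm)
      (ψ 0 (q 0)) (x 0) := by
  induction j with
  | zero => exact (K4b1_id (ψ 0) (h.src 0) (x 0)).symm
  | succ j ih =>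
    have e : -(((j + 1 : ℕ) : ℤ)) + 1 = -(j : ℤ) := by push_cast; ring
    have h1 := K4b1_step h hx (-(((j + 1 : ℕ) : ℤ)))
    rw [e] at h1
    have hb : (f.symm : M → M)^[k] (q (-(j : ℤ))) = q (-(((j + 1 : ℕ) : ℤ))) := by
      rw [← e]
      exact K4b1_back h _
    have h2 := D1_chain (n := n) (F := ((f.symm : M → M)^[k])^[j]) (G := (f.symm : M → M)^[k])
      (x := q 0) (K4b1_smooth f.symm k j _) (K4b1_smooth1 f.symm k _) (h.atl 0)
      (h.atl (-(j : ℤ))) (h.atl (-(((j + 1 : ℕ) : ℤ))))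
      (h.src 0) (by rw [K4b1_orbneg h]; exact h.src _)
      (by rw [K4b1_orbneg h, hb]; exact h.src _)
    rw [K4b1_orbneg h, ← Function.iterate_succ'] at h2
    rw [h1, ih, h2]
    rfl

end

end KT

end FB
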