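import Pool.Agent.H.MP_fb873c_an.K0
import Pool.Agent.H.MP_fb873c_an.K4b1

/-!
# Part K4b: existence of the data of a homoclinic orbit (exists_HO)
-/


namespace FB

namespace KT

open scoped Topology ContDiff Manifold
open Filter

universe u

section

variable {n : ℕ} {M : Type u} [TopologicalSpace M] [ChartedSpace (Er n) M]
  [IsManifold (𝓡 n) ∞ M]

/-- The two-sided orbit. -/
noncomputable def K4b2_orb (f : Dif n M) (k : ℕ) (q0 : M) : ℤ → M
  | Int.ofNat j => ((f : M → M)^[k])^[j] q0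
  | Int.negSucc j => ((f.symm : M → M)^[k])^[j + 1] q0

omit [IsManifold (𝓡 n) ∞ M] in
theorem K4b2_nat (f : Dif n M) (k : ℕ) (q0 : M) (j : ℕ) :
    K4b2_orb f k q0 (j : ℤ) = ((f : M → M)^[k])^[j] q0 := rfl

omit [IsManifold (𝓡 n) ∞ M] in
theorem K4b2_neg (f : Dif n M) (k : ℕ) (q0 : M) (j : ℕ) :
    K4b2_orb f k q0 (-(j : ℤ)) = ((f.symm : M → M)^[k])^[j] q0 := by
  cases j with
  | zero => rfl
  | succ j => rfl

omit [IsManifold (𝓡 n) ∞ M] in
theorem K4b2_cancel (f : Dif n M) (k : ℕ) (x : M) :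
    (f : M → M)^[k] ((f.symm : M → M)^[k] x) = x :=
  Function.LeftInverse.iterate (fun y => f.apply_symm_apply y) k x

omit [IsManifold (𝓡 n) ∞ M] in
theorem K4b2_step (f : Dif n M) (k : ℕ) (q0 : M) (j : ℤ) :
    (f : M → M)^[k] (K4b2_orb f k q0 j) = K4b2_orb f k q0 (j + 1) := by
  rcases Int.eq_nat_or_neg j with ⟨i, rfl | rfl⟩
  · have e : ((i : ℤ) + 1) = ((i + 1 : ℕ) : ℤ) := by push_cast; rfl
    rw [e, K4b2_nat, K4b2_nat, Function.iterate_succ_apply']
  · cases i with
    | zero =>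
      have e : (-((0 : ℕ) : ℤ) + 1) = ((1 : ℕ) : ℤ) := by simp
      rw [e, K4b2_nat, K4b2_neg]
      rfl
    | succ i =>
      have e : (-((i + 1 : ℕ) : ℤ) + 1) = -((i : ℕ) : ℤ) := by push_cast; ring
      rw [e, K4b2_neg, K4b2_neg, Function.iterate_succ_apply', K4b2_cancel]

theorem K4b2_cof {α : Type*} {q : ℤ → α} {l : Filter α}
    (h1 : Tendsto (fun j : ℕ => q (j : ℤ)) atTop l)
    (h2 : Tendsto (fun j : ℕ => q (-(j : ℤ))) atTop l) : Tendsto q cofinite l := by
  rw [Int.cofinite_eq, tendsto_sup]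
  refine ⟨?_, ?_⟩
  · rw [← tendsto_comp_neg_atTop_iff, ← Nat.map_cast_int_atTop, tendsto_map'_iff]
    exact h2
  · rw [← Nat.map_cast_int_atTop, tendsto_map'_iff]
    exact h1

theorem K4b2_bound {P : ℤ → Prop} (h : ∀ᶠ j in (cofinite : Filter ℤ), P j) :
    ∃ J : ℕ, 0 < J ∧ ∀ j : ℤ, (J : ℤ) ≤ |j| → P j := by
  have hf : {j | ¬ P j}.Finite := h
  refine ⟨hf.toFinset.sup Int.natAbs + 1, Nat.succ_pos _, fun j hj => ?_⟩
  by_contra hn
  have h1 : j ∈ hf.toFinset := by simpa using hn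
  have h2 : j.natAbs ≤ hf.toFinset.sup Int.natAbs := Finset.le_sup (f := Int.natAbs) h1
  rw [Int.abs_eq_natAbs] at hj
  omega

/-- `p`, `q`, `k` from `TransHom`; `q j = (f^k)^j q` for `j ≥ 0` and `q (-j) = ((f⁻¹)^k)^j q`; `lim`: `Int.cofinite_eq` ; `J ≥ 1` such that `q j` is in the domain of the chart at `p` for
`|j| ≥ J`; `ψ j = chartAt p` for `|j| ≥ J` and `ψ j = chartAt (q j)` otherwise (so `ψ 0` is the chart at `q 0 = q`); `q j ≠ p`: otherwise all `q i = p`.
The last property: by `sol_pos`, `sol_neg` (for `j ≥ J` the chart `ψ (± j)` is the chart at `p`) the vector `x 0` is contracted in both directions, so `x 0 = 0`; then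
`x j = 0` by `sol_pos`, `sol_neg`. -/
theorem exists_HO {f : Dif n M} (hf : TransHomR f) :
    ∃ (k : ℕ) (p : M) (q : ℤ → M) (ψ : ℤ → OpenPartialHomeomorph M (Er n)) (J : ℕ),
      HO f k p q ψ J ∧ Hyp (dfix (n := n) ((f : M → M)^[k]) p) ∧
      ∀ x : ℤ → Er n, (∀ j, x (j + 1) = Lh f k q ψ j (x j)) → Tendsto x cofinite (𝓝 0) →
        ∀ j, x j = 0 := by
  obtain ⟨p, q0, k, hk, hp, hmin, hyp, hne, hpos, hneg, htr⟩ := hf
  have hlim : Tendsto (K4b2_orb f k q0) cofinite (𝓝 p) := by
    refine K4b2_cof hpos ?_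
    have e : (fun j : ℕ => K4b2_orb f k q0 (-(j : ℤ))) =
        fun j : ℕ => ((f.symm : M → M)^[k])^[j] q0 := funext fun j => K4b2_neg f k q0 j
    rw [e]
    exact hneg
  obtain ⟨J, hJ, hJs⟩ := K4b2_bound (hlim.eventually
    ((chartAt (Er n) p).open_source.mem_nhds (mem_chart_source (Er n) p)))
  have hinj : Function.Injective ((f : M → M)^[k]) := f.injective.iterate k
  have hiff : ∀ j, K4b2_orb f k q0 j = p ↔ K4b2_orb f k q0 (j + 1) = p := by
    intro j
    rw [← K4b2_step]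
    constructor
    · intro h
      rw [h, hp]
    · intro h
      exact hinj (h.trans hp.symm)
  have hall : ∀ j, K4b2_orb f k q0 j ≠ p := by
    intro j
    induction j using Int.induction_on with
    | zero => exact hne
    | succ i ih => exact fun h => ih ((hiff _).2 h)
    | pred i ih =>
      refine fun h => ih ?_
      have := (hiff _).1 h
      rwa [sub_add_cancel] at this
  have hψ0 : ¬ ((J : ℤ) ≤ |(0 : ℤ)|) := by
    rw [abs_zero]
    omega
  have hHO : HO f k p (K4b2_orb f k q0)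
      (fun j => if (J : ℤ) ≤ |j| then chartAt (Er n) p else chartAt (Er n) (K4b2_orb f k q0 j)) J := by
    refine ⟨hk, hJ, hp, hmin, fun j => K4b2_step f k q0 j, hlim, hall, fun j => ?_, fun j => ?_,
      fun j hj => if_pos hj⟩
    · split_ifs
      · exact chart_mem_atlas (Er n) p
      · exact chart_mem_atlas (Er n) _
    · split_ifs with h
      · exact hJs j h
      · exact mem_chart_source (Er n) _
  refine ⟨k, p, K4b2_orb f k q0, _, J, hHO, hyp, ?_⟩
  intro x hx hx0
  have h0 : x 0 = 0 := by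
    refine htr (x 0) ?_ ?_
    · have h1 : Tendsto (fun j : ℕ => x (j : ℤ)) atTop (𝓝 0) := by
        rw [← Nat.cofinite_eq_atTop]
        exact hx0.comp Nat.cast_injective.tendsto_cofinite
      refine h1.congr' ?_
      filter_upwards [eventually_ge_atTop J] with j hj
      have h2 := sol_pos hHO hx j
      rw [h2]
      have e1 : (J : ℤ) ≤ |(j : ℤ)| := by
        rw [abs_of_nonneg (by positivity)]
        exact_mod_cast hj
      rw [if_pos e1, if_neg hψ0]
      rfl
    · have h1 : Tendsto (fun j : ℕ => x (-(j : ℤ))) atTop (𝓝 0) := by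
        rw [← Nat.cofinite_eq_atTop]
        refine hx0.comp (Function.Injective.tendsto_cofinite ?_)
        intro a b hab
        have : (-(a : ℤ)) = -(b : ℤ) := hab
        omega
      refine h1.congr' ?_
      filter_upwards [eventually_ge_atTop J] with j hj
      have h2 := sol_neg hHO hx j
      rw [h2]
      have e1 : (J : ℤ) ≤ |(-(j : ℤ))| := by
        rw [abs_neg, abs_of_nonneg (by positivity)]
        exact_mod_cast hj
      rw [if_pos e1, if_neg hψ0]
      rfl
  intro j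
  rcases Int.eq_nat_or_neg j with ⟨i, rfl | rfl⟩
  · rw [sol_pos hHO hx i, h0, map_zero]
  · rw [sol_neg hHO hx i, h0, map_zero]

end

end KT

end FB
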