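import Pool.Agent.H.MP_fb873c_an.S0

/-!
# Part K8: the closed orbits are exponentially close to the periodic point (mean_value)
-/


namespace FB

namespace KT

open scoped Topology ContDiff Manifold
open Filter Metric

universe u

section

variable {n : ℕ} {M : Type u} [TopologicalSpace M] [ChartedSpace (Er n) M]
  [IsManifold (𝓡 n) ∞ M]

/-- Mean value inequality in the form needed: `G` differentiable on the convex set `B` with `‖fderiv G z - L‖ ≤ η` on `B` (`Convex.norm_image_sub_le_of_norm_fderiv_le` for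
`G - L`). -/
theorem mean_value {E : Type*} [NormedAddCommGroup E] [NormedSpace ℝ E] {G : E → E}
    {L : E →L[ℝ] E} {η : ℝ} {B : Set E} (hB : Convex ℝ B)
    (hd : ∀ z ∈ B, DifferentiableAt ℝ G z) (hη : ∀ z ∈ B, ‖fderiv ℝ G z - L‖ ≤ η) {z z' : E}
    (hz : z ∈ B) (hz' : z' ∈ B) : ‖G z - G z' - L (z - z')‖ ≤ η * ‖z - z'‖ := by
  have h1 : ∀ x ∈ B, HasFDerivWithinAt (fun y => G y - L y) (fderiv ℝ G x - L) B x := by
    intro x hx
    exact ((hd x hx).hasFDerivAt.sub L.hasFDerivAt).hasFDerivWithinAt
  have h2 := hB.norm_image_sub_le_of_norm_hasFDerivWithin_le h1 hη hz' hz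
  have h3 : G z - G z' - L (z - z') = (G z - L z) - (G z' - L z') := by
    rw [map_sub]; abel
  rw [h3]
  exact h2

end

end KT

end FB
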