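import Pool.Agent.H.MP_fb873c_an.K1b1
import Pool.Agent.H.MP_fb873c_an.K2b
import Pool.Agent.H.MP_fb873c_an.K4b2
import Pool.Agent.H.MP_fb873c_an.K6
import Pool.Agent.H.MP_fb873c_an.K8a

/-!
# Part K8: the closed orbits are exponentially close to the periodic point (CO_decay)
-/


namespace FB

namespace KT

open scoped Topology ContDiff Manifold
open Filter Metric

universe u

section

variable {n : ℕ} {M : Type u} [TopologicalSpace M] [ChartedSpace (Er n) M]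
  [IsManifold (𝓡 n) ∞ M]

variable {f : Dif n M} {k : ℕ} {p : M} {q : ℤ → M} {ψ : ℤ → OpenPartialHomeomorph M (Er n)} {J : ℕ}
  {H : ℝ → Dif n M}

theorem K8b_pt {m J1 : ℕ} {r r1 : ℝ} {x : ℤ → Er n} (hr : r ≤ r1 / 2)
    (hJ : ∀ j : ℤ, (J1 : ℤ) ≤ |j| → dist (ψ j (q j)) (chartAt (Er n) p p) ≤ r1 / 2)
    (hx : ∀ j : ℤ, |j| ≤ m → x j ∈ Metric.closedBall (ψ j (q j)) r) (j : ℤ)
    (h1 : (J1 : ℤ) ≤ |j|) (h2 : |j| ≤ m) : x j ∈ closedBall (chartAt (Er n) p p) r1 := by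
  rw [mem_closedBall]
  have h3 := hx j h2
  rw [mem_closedBall] at h3
  have h4 := dist_triangle (x j) (ψ j (q j)) (chartAt (Er n) p p)
  have h5 := hJ j h1
  linarith

/-- Let `φ` be the chart at `p`, `A = dfix (f^k) p`.  `c` from `bb_const`, `κ`, `η` from `exists_kappa` (`Λ = ‖A‖`), `r1` from `local_close` with `x = p`, both charts `φ`; `J1 ≥ J + 1` with
`‖ψ_j (q j) - φ p‖ ≤ r1/2` for `|j| ≥ J1` (`coord_tendsto`), `r0 = r1/2`.  Then for `|j| ≥ J1` (`ψ j = φ`) the point `x j` lies in `B = closedBall (φ p) r1`, and with `G z = φ ((H s)^k (φ.symm z))`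
`x (j+1) = G (x j)` if `j ≥ J1` or `j + 1 ≤ - J1` (`Fh (H s) k ψ j = G`), `x (-m) = G (x m)`, `G (φ p) = φ p`.  So `y j = x j - φ p` satisfies `‖y (j+1) - A (y j)‖ ≤ η ‖y j‖` for these `j` and `‖y (-m) - A (y m)‖ ≤ η ‖y m‖` (`mean_value`).
Put `z i = y i` for `i ≤ m`, `z i = y (i - (2 m + 1))` for `i > m`.  `bb_decay` for the constant sequence `A` on `[a, b] = [J1, 2 m + 1 - J1]`, `R = r1`:
`c exp (κ min (i - a) (b - i)) ‖z i‖ ≤ (1 + ‖A‖) r1`.  For `J1 ≤ j ≤ m`, `i = j`: the minimum is `j - J1`; for `-m ≤ j ≤ -J1`, `i = j + 2 m + 1`: the minimum is `|j| - J1`.  So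
`C = exp (κ J1) (1 + ‖A‖) r1 / c`. -/
theorem CO_decay (h : HO f k p q ψ J) (hH : Fam f H)
    (hA : NoBdd (fun _ => dfix (n := n) ((f : M → M)^[k]) p)) :
    ∃ r0 : ℝ, 0 < r0 ∧ ∃ κ : ℝ, 0 < κ ∧ ∃ C : ℝ, ∃ J1 : ℕ, ∀ r, 0 < r → r ≤ r0 →
      ∀ᶠ s in 𝓝 (0 : ℝ), (H s : M → M)^[k] p = p → ∀ m : ℕ, J1 ≤ m → ∀ x,
        CO (H s) k q ψ r m x → ∀ j : ℤ, (J1 : ℤ) ≤ |j| → |j| ≤ m →
          ‖x j - chartAt (Er n) p p‖ ≤ C * Real.exp (-(κ * ((|j| : ℤ) : ℝ))) := by
  set A : Er n →L[ℝ] Er n := dfix (n := n) ((f : M → M)^[k]) p with hAdef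
  obtain ⟨c, hc, hBB⟩ := bb_const hA
  obtain ⟨κ, hκ, η, hη, hs⟩ := exists_kappa hc (norm_nonneg A)
  have hpsrc : p ∈ (chartAt (Er n) p).source := mem_chart_source (Er n) p
  obtain ⟨r1, hr1, hev⟩ := local_close hH k (x := p) (chart_mem_atlas (Er n) p)
    (chart_mem_atlas (Er n) p) hpsrc (by rw [h.fixp]; exact hpsrc) hη
  obtain ⟨J0, hJ0, hJb⟩ := K4b2_bound (P := fun j => dist (ψ j (q j)) (chartAt (Er n) p p) ≤ r1 / 2)
    ((coord_tendsto h).eventually (Metric.closedBall_mem_nhds _ (half_pos hr1)))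
  refine ⟨r1 / 2, half_pos hr1, κ, hκ, Real.exp (κ * (max J0 (J + 1) : ℕ)) * ((1 + ‖A‖) * r1) / c,
    max J0 (J + 1), ?_⟩
  intro r hr hrr
  filter_upwards [hev] with s hs1 hps m hm x hx j hj1 hj2
  obtain ⟨hx1, hx2, hx3⟩ := hx
  set J1 : ℕ := max J0 (J + 1) with hJ1
  have hJJ1 : (J : ℤ) + 1 ≤ J1 := by
    have : J + 1 ≤ J1 := le_max_right _ _
    exact_mod_cast this
  have hJ0J1 : (J0 : ℤ) ≤ J1 := by
    have : J0 ≤ J1 := le_max_left _ _
    exact_mod_cast this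
  have hJ1m : (J1 : ℤ) ≤ m := by exact_mod_cast hm
  have hball : ∀ j : ℤ, (J1 : ℤ) ≤ |j| → |j| ≤ m → x j ∈ closedBall (chartAt (Er n) p p) r1 :=
    K8b_pt hrr (fun j hj => hJb j (hJ0J1.trans hj)) hx1
  -- the local map
  set G : Er n → Er n := fun z => chartAt (Er n) p ((H s : M → M)^[k] ((chartAt (Er n) p).symm z))
    with hG
  have hGp : G (chartAt (Er n) p p) = chartAt (Er n) p p := by
    show chartAt (Er n) p ((H s : M → M)^[k] ((chartAt (Er n) p).symm (chartAt (Er n) p p))) = _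
    rw [(chartAt (Er n) p).left_inv hpsrc, hps]
  have hmv : ∀ z ∈ closedBall (chartAt (Er n) p p) r1,
      ‖(G z - chartAt (Er n) p p) - A (z - chartAt (Er n) p p)‖ ≤
        η * ‖z - chartAt (Er n) p p‖ := by
    intro z hz
    have h1 := mean_value (G := G) (L := A) (η := η)
      (convex_closedBall (chartAt (Er n) p p) r1)
      (fun z hz => by
        have h2 := hs1 z hz
        have h3 := Fh_contDiffAt (H s) k (ψ := fun _ => chartAt (Er n) p) (j := 0)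
          (fun _ => chart_mem_atlas (Er n) p) h2.1 h2.2.1
        exact h3.differentiableAt (by simp))
      (fun z hz => (hs1 z hz).2.2.1) hz (mem_closedBall_self hr1.le)
    rw [hGp] at h1
    exact h1
  have hFG : ∀ j : ℤ, (J1 : ℤ) ≤ |j| → ∀ z, Fh (H s) k ψ j z = G z := by
    intro j hj z
    have e1 : ψ j = chartAt (Er n) p := h.eqp j (by omega)
    have e2 : ψ (j + 1) = chartAt (Er n) p := h.eqp (j + 1) (by
      rcases abs_cases j with h1 | h1 <;> rcases abs_cases (j + 1) with h2 | h2 <;> omega)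
    show ψ (j + 1) ((H s : M → M)^[k] ((ψ j).symm z)) = _
    rw [e1, e2]
  have hstep : ∀ j : ℤ, (J1 : ℤ) ≤ |j| → -(m : ℤ) ≤ j → j < m →
      ‖(x (j + 1) - chartAt (Er n) p p) - A (x j - chartAt (Er n) p p)‖ ≤
        η * ‖x j - chartAt (Er n) p p‖ := by
    intro j hj h1 h2
    rw [hx2 j h1 h2, hFG j hj]
    exact hmv _ (hball j hj (abs_le.2 ⟨h1, h2.le⟩))
  have habsm : |(m : ℤ)| = m := abs_of_nonneg (Int.natCast_nonneg m)
  have hseam : ‖(x (-(m : ℤ)) - chartAt (Er n) p p) - A (x m - chartAt (Er n) p p)‖ ≤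
        η * ‖x m - chartAt (Er n) p p‖ := by
    rw [hx3, hFG m (by rw [habsm]; exact hJ1m)]
    exact hmv _ (hball m (by rw [habsm]; exact hJ1m) (by rw [habsm]))
  set z : ℤ → Er n := fun i => if i ≤ m then x i - chartAt (Er n) p p
    else x (i - (2 * m + 1)) - chartAt (Er n) p p with hzdef
  have hz1 : ∀ i : ℤ, i ≤ m → z i = x i - chartAt (Er n) p p := fun i hi => if_pos hi
  have hz2 : ∀ i : ℤ, (m : ℤ) < i → z i = x (i - (2 * m + 1)) - chartAt (Er n) p p :=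
    fun i hi => if_neg (not_le.2 hi)
  have hdec := bb_decay (L := fun _ => A) (Λ := ‖A‖) (κ := κ) (η := η) (R := r1) hBB hc
    (fun _ => le_rfl) hκ.le hη.le hs (a := (J1 : ℤ)) (b := 2 * m + 1 - J1) (by omega) z
    (by
      intro i hi1 hi2
      rcases lt_trichotomy i (m : ℤ) with h1 | h1 | h1
      · rw [hz1 i h1.le, hz1 (i + 1) (by omega)]
        exact hstep i (by rw [abs_of_nonneg (by omega)]; exact hi1) (by omega) h1
      · subst h1
        rw [hz1 _ le_rfl, hz2 _ (by omega)]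
        have e : ((m : ℤ) + 1 - (2 * m + 1)) = -(m : ℤ) := by ring
        rw [e]
        exact hseam
      · rw [hz2 i h1, hz2 (i + 1) (by omega)]
        have e : (i + 1 - (2 * (m : ℤ) + 1)) = (i - (2 * m + 1)) + 1 := by ring
        rw [e]
        exact hstep _ (by rw [abs_of_nonpos (by omega)]; omega) (by omega) (by omega))
    (by
      rw [hz1 _ hJ1m, ← dist_eq_norm]
      have habs1 : |(J1 : ℤ)| = J1 := abs_of_nonneg (Int.natCast_nonneg J1)
      exact hball _ (by rw [habs1]) (by rw [habs1]; exact hJ1m))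
    (by
      rw [hz2 _ (by omega), ← dist_eq_norm]
      have e : (2 * (m : ℤ) + 1 - J1 - (2 * m + 1)) = -(J1 : ℤ) := by ring
      rw [e]
      have habs1 : |(-(J1 : ℤ))| = J1 := by
        rw [abs_neg]
        exact abs_of_nonneg (Int.natCast_nonneg J1)
      exact hball _ (by rw [habs1]) (by rw [habs1]; exact hJ1m))
  have key : c * (Real.exp (κ * ((|j| - J1 : ℤ) : ℝ)) * ‖x j - chartAt (Er n) p p‖) ≤
      (1 + ‖A‖) * r1 := by
    rcases abs_cases j with ⟨h1, h2⟩ | ⟨h1, h2⟩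
    · have h3 := hdec j (by omega) (by omega)
      rw [hz1 j (by omega)] at h3
      have e : min (j - (J1 : ℤ)) (2 * m + 1 - J1 - j) = |j| - J1 := by
        rw [min_eq_left (by omega), h1]
      rw [e] at h3
      exact h3
    · have h3 := hdec (j + (2 * m + 1)) (by omega) (by omega)
      rw [hz2 _ (by omega)] at h3
      have e : min (j + (2 * (m : ℤ) + 1) - (J1 : ℤ)) (2 * m + 1 - J1 - (j + (2 * m + 1))) =
          |j| - J1 := by
        rw [min_eq_right (by omega), h1]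
        ring
      have e2 : j + (2 * (m : ℤ) + 1) - (2 * m + 1) = j := by ring
      rw [e, e2] at h3
      exact h3
  have hexp : Real.exp (κ * ((|j| - J1 : ℤ) : ℝ)) =
      (Real.exp (κ * (J1 : ℕ)))⁻¹ * (Real.exp (-(κ * ((|j| : ℤ) : ℝ))))⁻¹ := by
    rw [← Real.exp_neg, ← Real.exp_neg, ← Real.exp_add]
    congr 1
    push_cast
    ring
  rw [hexp] at key
  have e1 := Real.exp_pos (κ * (J1 : ℕ))
  have e2 := Real.exp_pos (-(κ * ((|j| : ℤ) : ℝ)))
  have h5 : ‖x j - chartAt (Er n) p p‖ = (c * ((Real.exp (κ * (J1 : ℕ)))⁻¹ *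
      (Real.exp (-(κ * ((|j| : ℤ) : ℝ))))⁻¹ * ‖x j - chartAt (Er n) p p‖)) *
      (Real.exp (κ * (J1 : ℕ)) * Real.exp (-(κ * ((|j| : ℤ) : ℝ))) / c) := by
    field_simp
  rw [h5]
  refine (mul_le_mul_of_nonneg_right key (by positivity)).trans (le_of_eq ?_)
  ring

end

end KT

end FB
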