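import Pool.Agent.H.MP_fb873c_an.K1b1
import Pool.Agent.H.MP_fb873c_an.K2b
import Pool.Agent.H.MP_fb873c_an.K6b1
import Pool.Agent.H.MP_fb873c_an.K8a

/-!
# Part K8: the closed orbits are exponentially close to the periodic point (CO_cauchy)
-/


namespace FB

namespace KT

open scoped Topology ContDiff Manifold
open Filter Metric

universe u

section

variable {n : ℕ} {M : Type u} [TopologicalSpace M] [ChartedSpace (Er n) M]
  [IsManifold (𝓡 n) ∞ M]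

variable {f : Dif n M} {k : ℕ} {p : M} {q : ℤ → M} {ψ : ℤ → OpenPartialHomeomorph M (Er n)} {J : ℕ}
  {H : ℝ → Dif n M}

/-- `κ`, `η` from `exists_kappa` (`Λ` a bound of `‖Lh j‖`, `bounded_of_tendsto`, `Lh_tendsto`), `r0` from `unif_close`.  `z j = x j - x' j` satisfies `‖z (j+1) - Lh j (z j)‖ ≤ η ‖z j‖` for `-m ≤ j < m` by
`mean_value` on the ball of radius `r` around `ψ_j (q j)`, and `‖z j‖ ≤ 2 r ≤ 2 r0` for `|j| ≤ m`.  `bb_decay` on `[-m, m]`: `min (j + m) (m - j) = m - |j|`; `C = (1 + Λ) 2 r0 / c`. -/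
theorem CO_cauchy (h : HO f k p q ψ J) (hH : Fam f H) {c : ℝ} (hc : 0 < c)
    (hB : BB c (Lh f k q ψ)) :
    ∃ r0 : ℝ, 0 < r0 ∧ ∃ κ : ℝ, 0 < κ ∧ ∃ C : ℝ, ∀ r, 0 < r → r ≤ r0 →
      ∀ᶠ s in 𝓝 (0 : ℝ), ∀ (m m' : ℕ) (x x' : ℤ → Er n), m ≤ m' → CO (H s) k q ψ r m x →
        CO (H s) k q ψ r m' x' → ∀ j : ℤ, |j| ≤ m →
          ‖x j - x' j‖ ≤ C * Real.exp (-(κ * ((m : ℝ) - ((|j| : ℤ) : ℝ)))) := by
  obtain ⟨Λ, hΛ⟩ := bounded_of_tendsto (Lh_tendsto h)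
  have hΛ0 : 0 ≤ Λ := (norm_nonneg _).trans (hΛ 0)
  obtain ⟨κ, hκ, η, hη, hs⟩ := exists_kappa hc hΛ0
  obtain ⟨r0, hr0, hcl⟩ := unif_close h hH hη
  refine ⟨r0, hr0, κ, hκ, (1 + Λ) * (2 * r0) / c, fun r hr hrr => ?_⟩
  filter_upwards [hcl r hr hrr] with s hs'
  intro m m' x x' hmm hx hx' j hj
  have hmm' : (m : ℤ) ≤ m' := by exact_mod_cast hmm
  have hball : ∀ i : ℤ, |i| ≤ m → x i ∈ closedBall (ψ i (q i)) r ∧
      x' i ∈ closedBall (ψ i (q i)) r :=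
    fun i hi => ⟨hx.1 i hi, hx'.1 i (hi.trans hmm')⟩
  have hnorm : ∀ i : ℤ, |i| ≤ m → ‖x i - x' i‖ ≤ 2 * r0 := by
    intro i hi
    have h1 := mem_closedBall.1 (hball i hi).1
    have h2 := mem_closedBall.1 (hball i hi).2
    rw [← dist_eq_norm]
    have h3 := dist_triangle_right (x i) (x' i) (ψ i (q i))
    linarith
  have hstep : ∀ i : ℤ, -(m : ℤ) ≤ i → i < m →
      ‖(x (i + 1) - x' (i + 1)) - Lh f k q ψ i (x i - x' i)‖ ≤ η * ‖x i - x' i‖ := by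
    intro i h1 h2
    have hi : |i| ≤ m := abs_le.2 ⟨h1, h2.le⟩
    rw [hx.2.1 i h1 h2, hx'.2.1 i (by omega) (by omega)]
    exact mean_value (convex_closedBall _ _)
      (fun z hz => (Fh_contDiffAt (H s) k h.atl (hs' i z hz).1 (hs' i z hz).2.1).differentiableAt
        (by simp))
      (fun z hz => (hs' i z hz).2.2) (hball i hi).1 (hball i hi).2
  have hdec := bb_decay hB hc hΛ hκ.le hη.le hs (a := -(m : ℤ)) (b := m) (by omega)
    (fun i => x i - x' i) hstep (hnorm _ (by simp)) (hnorm _ (by simp)) j (abs_le.1 hj).1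
    (abs_le.1 hj).2
  have e : min (j - -(m : ℤ)) (m - j) = m - |j| := by
    rcases abs_cases j with ⟨h, h'⟩ | ⟨h, h'⟩ <;> rw [h] <;> omega
  rw [e] at hdec
  have hpos := Real.exp_pos (κ * (((m : ℤ) - |j| : ℤ) : ℝ))
  have e2 : κ * ((m : ℝ) - ((|j| : ℤ) : ℝ)) = κ * (((m : ℤ) - |j| : ℤ) : ℝ) := by
    push_cast
    ring
  rw [e2, Real.exp_neg, div_mul_eq_mul_div, ← div_eq_mul_inv, div_div,
    le_div_iff₀ (mul_pos hpos hc) |>.trans (by rfl)]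
  linarith

end

end KT

end FB
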