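import Pool.Agent.H.MP_fb873c_an.DC
import Pool.Agent.H.MP_fb873c_an.DCb
import Pool.Agent.H.MP_fb873c_an.K10a
import Pool.Agent.H.MP_fb873c_an.K10b
import Pool.Agent.H.MP_fb873c_an.K12d
import Pool.Agent.H.MP_fb873c_an.K13
import Pool.Agent.H.MP_fb873c_an.K14b
import Pool.Agent.H.MP_fb873c_an.K15
import Pool.Agent.H.MP_fb873c_an.K16
import Pool.Agent.H.MP_fb873c_an.K18b
import Pool.Agent.H.MP_fb873c_an.K1b2
import Pool.Agent.H.MP_fb873c_an.K2c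
import Pool.Agent.H.MP_fb873c_an.K3
import Pool.Agent.H.MP_fb873c_an.K6b3
import Pool.Agent.H.MP_fb873c_an.K7
import Pool.Agent.H.MP_fb873c_an.K8b
import Pool.Agent.H.MP_fb873c_an.K8c

/-!
# Part K19: assembly
-/

namespace FB

namespace KT

open scoped Topology ContDiff Manifold
open Filter Metric

universe u

section

variable {n : ℕ} {M : Type u} [TopologicalSpace M] [ChartedSpace (Er n) M]
  [IsManifold (𝓡 n) ∞ M]

/-- The situation for one fixed diffeomorphism `g` near `f`. -/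
theorem one_g [T2Space M] {f : Dif n M} {k : ℕ} {p : M} {q : ℤ → M}
    {ψ : ℤ → OpenPartialHomeomorph M (Er n)} {J : ℕ} (h : HO f k p q ψ J) {g : Dif n M}
    {O : Set (Dif n M)} (hO : IsOpen[crTop n M ⊤] O) (hgO : g ∈ O)
    (hgp : (g : M → M)^[k] p = p) {η r : ℝ} (hcls : Cls f k q ψ η r g)
    (hco : ∀ᶠ m : ℕ in atTop, ∃ x, CO g k q ψ r m x)
    {κ C : ℝ} (hκ : 0 < κ) {J1 : ℕ}
    (hdec : ∀ m : ℕ, J1 ≤ m → ∀ x, CO g k q ψ r m x → ∀ j : ℤ, (J1 : ℤ) ≤ |j| → |j| ≤ m →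
      ‖x j - chartAt (Er n) p p‖ ≤ C * Real.exp (-(κ * ((|j| : ℤ) : ℝ))))
    {κ' C' : ℝ} (hκ' : 0 < κ')
    (hcau : ∀ (m m' : ℕ) (x x' : ℤ → Er n), m ≤ m' → CO g k q ψ r m x →
      CO g k q ψ r m' x' → ∀ j : ℤ, |j| ≤ m →
        ‖x j - x' j‖ ≤ C' * Real.exp (-(κ' * ((m : ℝ) - ((|j| : ℤ) : ℝ)))))
    {V : Set M} (hV : IsOpen V) (hV1 : ∀ z ∈ closedBall (ψ 0 (q 0)) r, (ψ 0).symm z ∈ V)
    (hV2 : ∀ j : ℤ, ∀ z ∈ closedBall (ψ j (q j)) r, ∀ l < k, ¬ (j = 0 ∧ l = 0) →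
        (g : M → M)^[l] ((ψ j).symm z) ∉ V)
    {ρ : ℝ} {lam : ℂ} {ι : ℂ →L[ℝ] Er n} {π : Er n →L[ℝ] ℂ} {C1 τ : ℝ}
    (hTP : TP (dfix (n := n) ((g : M → M)^[k]) p) ρ lam ι π C1 τ)
    (hu : ∀ j : ℕ, 0 < j → (lam / ρ) ^ j ≠ 1) : ∃ g' ∈ O, g' ∈ UR n M := by
  classical
  -- a choice of closed orbits
  let X : ℕ → ℤ → Er n := fun m => if hm : ∃ x, CO g k q ψ r m x then hm.choose else fun _ => 0
  have hX : ∀ᶠ m in atTop, CO g k q ψ r m (X m) := by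
    filter_upwards [hco] with m hm
    simp only [X, dif_pos hm]
    exact hm.choose_spec
  obtain ⟨Y, hY, hXY, hD, hinj⟩ := CO_limit h hcls hκ' C' X hX
    (fun m m' hmm h1 h2 j hj => hcau m m' (X m) (X m') hmm h1 h2 j hj)
  obtain ⟨K, hK, hdd⟩ := deriv_decay h hgp hcls hκ C J1
  have hdd' : ∀ᶠ m : ℕ in atTop, ∀ j : ℤ, |j| ≤ m →
      ‖fderiv ℝ (Fh g k ψ j) (X m j) - dfix (n := n) ((g : M → M)^[k]) p‖ ≤
        K * Real.exp (-(κ * ((|j| : ℤ) : ℝ))) := by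
    filter_upwards [hX, eventually_ge_atTop J1] with m hm hm1
    exact hdd m (X m) hm (hdec m hm1 (X m) hm)
  obtain ⟨Vl, Z, hVl, hZ, hlim⟩ := product_limit hTP hK hκ
    (fun m j => fderiv ℝ (Fh g k ψ j) (X m j)) (fun j => fderiv ℝ (Fh g k ψ j) (Y j)) hdd' hD hinj
  have hun : ‖lam / (ρ : ℂ)‖ = 1 := by
    rw [norm_div, hTP.nrm, Complex.norm_real, Real.norm_eq_abs, abs_of_pos hTP.pos]
    exact div_self hTP.pos.ne'
  obtain ⟨B1, hB1⟩ := exists_B1 hVl hZ hun hu _ hTP.pos hlim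
  -- the last perturbation
  have hy0 : (ψ 0).symm (Y 0) ∈ (ψ 0).source := (ψ 0).map_target (hcls 0 (Y 0) (hY 0)).1
  have hV0 : V ∈ 𝓝 ((ψ 0).symm (Y 0)) := hV.mem_nhds (hV1 _ (hY 0))
  have hfin := final_pert g hO hgO (h.atl 0) hy0 hV0 B1
  have hfin' : ∀ᶠ t : ℝ in 𝓝[>] 0, _ := hfin.filter_mono nhdsWithin_le_nhds
  obtain ⟨t, ht1, ht2⟩ := (hfin'.and hB1).exists
  have hYt : Tendsto (fun m => (ψ 0).symm (X m 0)) atTop (𝓝 ((ψ 0).symm (Y 0))) :=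
    ((ψ 0).continuousAt_symm (hcls 0 (Y 0) (hY 0)).1).tendsto.comp (hXY 0)
  have ht1' := hYt.eventually ht1
  obtain ⟨m, hm, ⟨hm1, hm2⟩, hm3⟩ :=
    (ht2.and_eventually ((ht1'.and hX).and (eventually_ge_atTop J))).exists
  have hx0 : X m 0 ∈ closedBall (ψ 0 (q 0)) r := hm2.1 0 (by simp)
  have hx0t : X m 0 ∈ (ψ 0).target := (hcls 0 _ hx0).1
  obtain ⟨g', hg'O, hg1, hg2, hg3⟩ := hm1 (k * (2 * m + 1)) (Nat.mul_pos h.kpos (by omega))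
    (CO_periodic h hcls hm3 hm2) (by
      intro i hi hi'
      obtain ⟨j, l, hj, hl, hjl, he⟩ := CO_orbit h hcls hm3 hm2 hi hi'
      rw [he]
      exact hV2 j _ (hm2.1 j hj) l hl hjl)
  rw [(ψ 0).right_inv hx0t, CO_deriv h hcls hm3 hm2] at hg3
  -- the derivative at the periodic point is simple real
  have hsr : SimpleReal (dfix (n := n) ((g' : M → M)^[k * (2 * m + 1)]) ((ψ 0).symm (X m 0))) := by
    obtain ⟨T, hT⟩ := dfix_chart (F := (g' : M → M)^[k * (2 * m + 1)])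
      ((contMDiff_iterate g' _).contMDiffAt.of_le (by simp)) hg1 (h.atl 0) ((ψ 0).map_target hx0t)
    rw [(ψ 0).right_inv hx0t, hg3] at hT
    have h2 := simpleReal_conj T.symm hm
    rw [hT] at h2
    convert h2 using 1
    ext1 v
    simp
  exact exists_UR hO hg'O (Nat.mul_pos h.kpos (by omega)) hg1 hg2 hsr

/-- A diffeomorphism with a transverse homoclinic point lies in the `C^∞`-closure of `UR`. -/
theorem closure_UR [CompactSpace M] [T2Space M] (hn : 0 < n) {f : Dif n M} (hf : TransHomR f)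
    {O : Set (Dif n M)} (hO : IsOpen[crTop n M ⊤] O) (hfO : f ∈ O) : ∃ g' ∈ O, g' ∈ UR n M := by
  obtain ⟨k, p, q, ψ, J, h, hhyp, htr⟩ := exists_HO hf
  have hA := noBdd_hyp hhyp
  have hL := noBdd_of_tendsto (Lh_tendsto h) hA htr
  obtain ⟨c1, hc1, hB1⟩ := bb_line (Lh_tendsto h) hL hA
  obtain ⟨c2, hc2, hB2⟩ := bb_cyc (Lh_tendsto h) hL hA
  obtain ⟨A, hAe⟩ := dfix_equiv f k h.fixp
  obtain ⟨K, hKd⟩ := exists_direction hn A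
  obtain ⟨H, hH1, hH2, hH3⟩ := family_at h.kpos f h.fixp h.minp K
  have hH : Fam f H := ⟨hH1, hH2⟩
  have hHO := eventually_mem_open f H hH2 hH1 hO hfO
  rcases hKd with hKd | hKd
  · have e1 := (hH3.and hHO).filter_mono (nhdsWithin_le_nhds (s := Set.Ioi (0 : ℝ)))
    obtain ⟨s, ⟨⟨hs1, hs2, hs3⟩, hs4⟩, hs5⟩ := (e1.and hKd).exists
    rw [hAe, ← hs3] at hs5
    exact exists_UR hO hs4 h.kpos hs1 hs2 hs5
  · obtain ⟨r1, hr1, hco⟩ := exists_CO h hH hc2 hB2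
    obtain ⟨r2, hr2, κ, hκ, C, J1, hdec⟩ := CO_decay h hH hA
    obtain ⟨r3, hr3, κ', hκ', C', hcau⟩ := CO_cauchy h hH hc1 hB1
    obtain ⟨r4, hr4, hcls⟩ := unif_close h hH (η := 1) one_pos
    obtain ⟨V, hV, hqV, r5, hr5, hav⟩ := avoid h hH
    obtain ⟨r, hr, hra, hrb, hrc, hrd, hre⟩ : ∃ r : ℝ, 0 < r ∧ r ≤ r1 ∧ r ≤ r2 ∧ r ≤ r3 ∧ r ≤ r4 ∧
        r ≤ r5 := by
      refine ⟨min r1 (min r2 (min r3 (min r4 r5))), by positivity, ?_, ?_, ?_, ?_, ?_⟩ <;> simp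
    have e1 : ∀ᶠ s in 𝓝[>] (0 : ℝ), _ := ((((((hH3.and hHO).and (hco r hr hra)).and
      (hdec r hr hrb)).and (hcau r hr hrc)).and (hcls r hr hrd)).and
        (hav r hr hre).2).filter_mono nhdsWithin_le_nhds
    obtain ⟨s, ⟨ρ, lam, ι, π, C1, τ, hTP, hu⟩, ⟨⟨⟨⟨⟨⟨hs1, -, hs3⟩, hs4⟩, hs5⟩, hs6⟩, hs7⟩, hs8⟩, hs9⟩ :=
      (hKd.and_eventually e1).exists
    rw [hAe, ← hs3] at hTP
    exact one_g h hO hs4 hs1 hs8 hs5 hκ (hs6 hs1) hκ' hs7 hV (hav r hr hre).1 hs9 hTP hu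

end

end KT

end FB
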