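import Pool.Agent.H.MP_fb873c_an.K00

/-!
# Part K1a: uniform bounds from the absence of bounded solutions of all limit equations
-/

namespace FB

namespace KT

open scoped Topology
open Filter

section

variable {E : Type*} [NormedAddCommGroup E] [NormedSpace ℝ E] [FiniteDimensional ℝ E]

omit [FiniteDimensional ℝ E] in
theorem K1a_norm (M : ℤ → E →L[ℝ] E) (x : ℤ → E) (hx : ∃ C, ∀ j, ‖x j‖ ≤ C) {D c : ℝ} (hc : 0 < c)
    (hD : ∀ j, ‖x (j + 1) - M j (x j)‖ ≤ D) {j₀ : ℤ} (hj : D < c * ‖x j₀‖) :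
    ∃ (i : ℤ) (y : ℤ → E), (∀ j, ‖y j‖ ≤ 1) ∧ 1 / 2 ≤ ‖y 0‖ ∧
      ∀ j, ‖y (j + 1) - M (i + j) (y j)‖ ≤ c := by
  obtain ⟨C, hC⟩ := hx
  have hbd : BddAbove (Set.range fun j => ‖x j‖) := ⟨C, by
    rintro _ ⟨j, rfl⟩
    exact hC j⟩
  obtain ⟨s, hs⟩ : ∃ s, s = ⨆ j, ‖x j‖ := ⟨_, rfl⟩
  have hle : ∀ j, ‖x j‖ ≤ s := fun j => by
    rw [hs]
    exact le_ciSup hbd j
  have hD0 : 0 ≤ D := (norm_nonneg _).trans (hD 0)
  have hx0 : 0 < ‖x j₀‖ := by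
    by_contra hn
    have h0 : ‖x j₀‖ = 0 := le_antisymm (not_lt.1 hn) (norm_nonneg _)
    rw [h0, mul_zero] at hj
    linarith
  have hs0 : 0 < s := lt_of_lt_of_le hx0 (hle j₀)
  obtain ⟨i, hi⟩ : ∃ i, s / 2 < ‖x i‖ := by
    apply exists_lt_of_lt_ciSup
    rw [← hs]
    linarith
  refine ⟨i, fun j => s⁻¹ • x (i + j), fun j => ?_, ?_, fun j => ?_⟩
  · rw [norm_smul, norm_inv, Real.norm_eq_abs, abs_of_pos hs0, inv_mul_le_iff₀ hs0, mul_one]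
    exact hle _
  · rw [norm_smul, norm_inv, Real.norm_eq_abs, abs_of_pos hs0, le_inv_mul_iff₀ hs0, add_zero]
    linarith
  · have h1 : s⁻¹ • x (i + (j + 1)) - M (i + j) (s⁻¹ • x (i + j)) =
        s⁻¹ • (x ((i + j) + 1) - M (i + j) (x (i + j))) := by
      rw [map_smul, smul_sub, add_assoc]
    show ‖s⁻¹ • x (i + (j + 1)) - M (i + j) (s⁻¹ • x (i + j))‖ ≤ c
    rw [h1, norm_smul, norm_inv, Real.norm_eq_abs, abs_of_pos hs0, inv_mul_le_iff₀ hs0]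
    have h2 := hD (i + j)
    have h3 : c * ‖x j₀‖ ≤ c * s := mul_le_mul_of_nonneg_left (hle j₀) hc.le
    linarith

theorem K1a_lim {F : Type*} [NormedAddCommGroup F] [NormedSpace ℝ F] [FiniteDimensional ℝ F]
    (U : Ultrafilter ℕ) (f : ℕ → F) {R : ℝ} (hf : ∀ t, ‖f t‖ ≤ R) : ∃ a, Tendsto f U (𝓝 a) := by
  have := FiniteDimensional.proper_real F
  obtain ⟨a, _, ha⟩ := (isCompact_closedBall (0 : F) R).ultrafilter_le_nhds (U.map f) (by
    rw [le_principal_iff]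
    show ∀ᶠ t in (U : Filter ℕ), f t ∈ Metric.closedBall (0 : F) R
    exact Filter.Eventually.of_forall fun t => by
      rw [Metric.mem_closedBall, dist_zero_right]
      exact hf t)
  exact ⟨a, ha⟩

/-- Suppose not.  Then for every `t : ℕ` there are `m t ≥ t` and a bounded `x t : ℤ → E`, a number `D t` with
`‖x t (j+1) - L (m t) j (x t j)‖ ≤ D t` for all `j`, and `j t` with `(1/(t+1)) ‖x t (j t)‖ > D t` (`Filter.eventually_atTop`,
`push_neg`; so `x t (j t) ≠ 0` as `D t ≥ 0`).  Let `s t = sup_j ‖x t j‖ > 0` (`ciSup`, bounded) and choose `i t` with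
`‖x t (i t)‖ ≥ s t / 2`.  Put `y t j = (s t)⁻¹ • x t (i t + j)`: `‖y t j‖ ≤ 1`, `‖y t 0‖ ≥ 1/2` and
`‖y t (j+1) - L (m t) (i t + j) (y t j)‖ ≤ D t / s t ≤ 1/(t+1)`.
Let `U` be an ultrafilter `≤ atTop` on `ℕ` (`Filter.hyperfilter ℕ`, `Nat.hyperfilter_le_atTop`).  Closed balls of the finite dimensional
spaces `E` and `E →L[ℝ] E` are compact (`isCompact_closedBall`, `IsCompact.ultrafilter_le_nhds` applied to `U.map _`), so for every
`j` the limits `y∞ j` of `y t j` and `A j` of `L (m t) (i t + j)` along `U` exist.  Passing to the limit: `‖y∞ j‖ ≤ 1`,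
`‖y∞ 0‖ ≥ 1/2`, `y∞ (j+1) = A j (y∞ j)` (the evaluation of continuous linear maps is jointly continuous, `Filter.Tendsto.clm_apply`),
in contradiction with `NoBdd A`. -/
theorem bb_of_limits (L : ℕ → ℤ → E →L[ℝ] E) {Λ : ℝ} (hΛ : ∀ m j, ‖L m j‖ ≤ Λ)
    (h : ∀ (m : ℕ → ℕ) (i : ℕ → ℤ) (U : Ultrafilter ℕ) (A : ℤ → E →L[ℝ] E),
      Tendsto m U atTop → (∀ j, Tendsto (fun t => L (m t) (i t + j)) U (𝓝 (A j))) → NoBdd A) :
    ∃ c : ℝ, 0 < c ∧ ∀ᶠ m in atTop, BB c (L m) := by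
  by_contra hcon
  push Not at hcon
  have h1 : ∀ t : ℕ, ∃ (m : ℕ) (i : ℤ) (y : ℤ → E), t ≤ m ∧ (∀ j, ‖y j‖ ≤ 1) ∧ 1 / 2 ≤ ‖y 0‖ ∧
      ∀ j, ‖y (j + 1) - L m (i + j) (y j)‖ ≤ 1 / ((t : ℝ) + 1) := by
    intro t
    have hc : (0 : ℝ) < 1 / ((t : ℝ) + 1) := by positivity
    obtain ⟨m, hm, hb⟩ := (frequently_atTop.1 (hcon _ hc)) t
    unfold BB at hb
    push Not at hb
    obtain ⟨x, hx, D, hD, j, hj⟩ := hb
    obtain ⟨i, y, h2, h3, h4⟩ := K1a_norm (L m) x hx hc hD hj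
    exact ⟨m, i, y, hm, h2, h3, h4⟩
  choose m i y hm hy1 hy2 hy3 using h1
  obtain ⟨U, hU⟩ : ∃ U : Ultrafilter ℕ, (U : Filter ℕ) ≤ atTop :=
    ⟨hyperfilter ℕ, Nat.hyperfilter_le_atTop⟩
  have hmt : Tendsto m U atTop := (tendsto_atTop_mono hm tendsto_id).mono_left hU
  choose yl hyl using fun j : ℤ => K1a_lim U (fun t => y t j) (R := 1) (fun t => hy1 t j)
  choose A hA using fun j : ℤ => K1a_lim U (fun t => L (m t) (i t + j)) (R := Λ)
    (fun t => hΛ (m t) (i t + j))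
  have hno := h m i U A hmt hA
  have h5 : ∀ j, ‖yl j‖ ≤ 1 := fun j =>
    le_of_tendsto (hyl j).norm (Filter.Eventually.of_forall fun t => hy1 t j)
  have h6 : 1 / 2 ≤ ‖yl 0‖ :=
    ge_of_tendsto (hyl 0).norm (Filter.Eventually.of_forall fun t => hy2 t)
  have h7 : ∀ j, yl (j + 1) = A j (yl j) := by
    intro j
    have h8 : Tendsto (fun t => ‖y t (j + 1) - L (m t) (i t + j) (y t j)‖) U
        (𝓝 ‖yl (j + 1) - A j (yl j)‖) := ((hyl (j + 1)).sub (isBoundedBilinearMap_apply.continuous.continuousAt.tendsto.comp ((hA j).prodMk_nhds (hyl j)))).norm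
    have h9 : Tendsto (fun t : ℕ => 1 / ((t : ℝ) + 1)) U (𝓝 0) :=
      tendsto_one_div_add_atTop_nhds_zero_nat.mono_left hU
    have h10 : ‖yl (j + 1) - A j (yl j)‖ ≤ 0 :=
      le_of_tendsto_of_tendsto h8 h9 (Filter.Eventually.of_forall fun t => hy3 t j)
    exact sub_eq_zero.1 (norm_le_zero_iff.1 h10)
  have h11 := hno yl ⟨1, h5⟩ h7 0
  rw [h11, norm_zero] at h6
  norm_num at h6

end

end KT

end FB
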