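import Pool.Agent.H.MP_fb873c_an.K1a

/-!
# Part K1b: uniform bounds for a sequence which converges at both ends, and for its periodic truncations (int_ultra, bounded_of_tendsto, bb_const, bb_line)
-/


namespace FB

namespace KT

open scoped Topology
open Filter

section

variable {E : Type*} [NormedAddCommGroup E] [NormedSpace ℝ E]

/-- A sequence of integers along an ultrafilter is eventually constant or tends to `cofinite`. (If for some finite set `S` we have `i t ∈ S`
for `U`-almost all `t` then `i` is `U`-almost constant: `Ultrafilter.finite_biUnion_mem_iff` / `Ultrafilter.eventually_exists_mem_iff`; otherwise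
`i t ∉ S` `U`-almost surely for every finite `S`: `Ultrafilter.eventually_not`.) -/
theorem int_ultra (U : Ultrafilter ℕ) (i : ℕ → ℤ) :
    (∃ a, ∀ᶠ t in (U : Filter ℕ), i t = a) ∨ Tendsto i U cofinite := by
  by_cases h : ∃ a, ∀ᶠ t in (U : Filter ℕ), i t = a
  · exact Or.inl h
  · right
    intro S hS
    rw [mem_cofinite] at hS
    by_contra hc
    have h1 : ∀ᶠ t in (U : Filter ℕ), ¬ i t ∈ S := by
      rw [Ultrafilter.eventually_not]
      exact hc
    have h2 : ∀ᶠ t in (U : Filter ℕ), ∃ a ∈ Sᶜ, i t = a :=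
      h1.mono fun t ht => ⟨i t, ht, rfl⟩
    rw [Ultrafilter.eventually_exists_mem_iff hS] at h2
    obtain ⟨a, -, ha⟩ := h2
    exact h ⟨a, ha⟩

theorem bounded_of_tendsto {L : ℤ → E →L[ℝ] E} {A : E →L[ℝ] E} (hL : Tendsto L cofinite (𝓝 A)) :
    ∃ Λ : ℝ, ∀ j, ‖L j‖ ≤ Λ := by
  obtain ⟨Λ, hΛ⟩ := hL.norm.bddAbove_range_of_cofinite
  exact ⟨Λ, fun j => hΛ ⟨j, rfl⟩⟩

theorem K1b1_shift {L : ℤ → E →L[ℝ] E} (h : NoBdd L) (a : ℤ) : NoBdd (fun j => L (a + j)) := by
  rintro x ⟨C, hC⟩ hx j
  have h1 := h (fun j => x (j - a)) ⟨C, fun j => hC _⟩ (fun j => by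
    have h2 := hx (j - a)
    have h3 : j - a + 1 = j + 1 - a := by ring
    have h4 : a + (j - a) = j := by ring
    simp only [h3, h4] at h2
    exact h2) (j + a)
  simpa using h1

variable [FiniteDimensional ℝ E]

/-- `bb_of_limits` with `L m = const A`: all the limits are `A` (`tendsto_nhds_unique`, `tendsto_const_nhds`). -/
theorem bb_const {A : E →L[ℝ] E} (h : NoBdd (fun _ => A)) : ∃ c : ℝ, 0 < c ∧ BB c (fun _ => A) := by
  obtain ⟨c, hc, h1⟩ := bb_of_limits (fun _ _ => A) (Λ := ‖A‖) (fun _ _ => le_rfl) (by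
    intro m i U B _ hB
    have h2 : B = fun _ => A := funext fun j => tendsto_nhds_unique (hB j) tendsto_const_nhds
    rw [h2]
    exact h)
  obtain ⟨m, hm⟩ := h1.exists
  exact ⟨c, hc, hm⟩

/-- `bb_of_limits` with `L m = L`: by `int_ultra` either `i t = a` almost surely and the limit is `j ↦ L (a + j)` (`NoBdd` is invariant under shifts), or
`i t → cofinite`, `i t + j → cofinite`, and the limit is `A`. -/
theorem bb_line {L : ℤ → E →L[ℝ] E} {A : E →L[ℝ] E} (hL : Tendsto L cofinite (𝓝 A))
    (h1 : NoBdd L) (h2 : NoBdd (fun _ => A)) : ∃ c : ℝ, 0 < c ∧ BB c L := by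
  obtain ⟨Λ, hΛ⟩ := bounded_of_tendsto hL
  obtain ⟨c, hc, h3⟩ := bb_of_limits (fun _ => L) (Λ := Λ) (fun _ => hΛ) (by
    intro m i U B _ hB
    rcases int_ultra U i with ⟨a, ha⟩ | hi
    · have h4 : B = fun j => L (a + j) := funext fun j =>
        tendsto_nhds_unique (hB j) (tendsto_const_nhds.congr' (ha.mono fun t ht => by
          simp only [ht]))
      rw [h4]
      exact K1b1_shift h1 a
    · have h4 : B = fun _ => A := funext fun j => by
        have h5 : Tendsto (fun t => i t + j) U cofinite :=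
          (add_left_injective j).tendsto_cofinite.comp hi
        exact tendsto_nhds_unique (hB j) (hL.comp h5)
      rw [h4]
      exact h2)
  obtain ⟨m, hm⟩ := h3.exists
  exact ⟨c, hc, hm⟩

end

end KT

end FB
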