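import Pool.Agent.H.MP_fb873c_an.K00

/-!
# Part K2a: weighted estimates
-/

namespace FB

namespace KT

open scoped Topology
open Filter

section

variable {E : Type*} [NormedAddCommGroup E] [NormedSpace ℝ E]

/-- Put `y j = w j • z j` for `a ≤ j ≤ b` and `y j = 0` otherwise, `S = max_{a ≤ j ≤ b} ‖y j‖` (`Finset.exists_max_image` on `Finset.Icc a b`), so
`‖y j‖ ≤ S` for all `j`.  For `a ≤ j < b`: `y (j+1) - L j (y j) = w (j+1) • (z (j+1) - L j (z j)) + (w (j+1) - w j) • L j (z j)`, so its norm is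
`≤ (1+κ) w j η ‖z j‖ + κ w j Λ ‖z j‖ = ((1+κ) η + κ Λ) ‖y j‖ ≤ (c/2) S` (`w (j+1) ≤ (1+κ) w j`); for `j = a - 1` the norm is `‖y a‖ ≤ R`; for `j = b`
it is `‖L b (y b)‖ ≤ Λ R`; otherwise it is `0`.  So `BB` with `D = max ((c/2) S) ((1+Λ) R)` gives `c S ≤ D`, i.e. `c S ≤ (1+Λ) R` or `c S ≤ (c/2) S`; in the
second case `S ≤ 0`, so `c S ≤ 0 ≤ (1+Λ) R` (`R ≥ 0` as `0 ≤ w a ‖z a‖ ≤ R`, `Λ ≥ 0`). -/
theorem bb_weight {L : ℤ → E →L[ℝ] E} {c Λ κ η R : ℝ} (hB : BB c L) (hc : 0 < c)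
    (hΛ : ∀ j, ‖L j‖ ≤ Λ) (hκ : 0 ≤ κ) (hη : 0 ≤ η) (hs : (1 + κ) * η + κ * Λ ≤ c / 2) {a b : ℤ}
    (hab : a ≤ b) (z : ℤ → E) (w : ℤ → ℝ) (hw : ∀ j, 0 ≤ w j)
    (hw1 : ∀ j, |w (j + 1) - w j| ≤ κ * w j)
    (hz : ∀ j, a ≤ j → j < b → ‖z (j + 1) - L j (z j)‖ ≤ η * ‖z j‖)
    (ha : w a * ‖z a‖ ≤ R) (hb : w b * ‖z b‖ ≤ R) :
    ∀ j, a ≤ j → j ≤ b → c * (w j * ‖z j‖) ≤ (1 + Λ) * R := by
  have hΛ0 : 0 ≤ Λ := (norm_nonneg _).trans (hΛ 0)
  have hR : 0 ≤ R := (mul_nonneg (hw a) (norm_nonneg _)).trans ha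
  have hRR : 0 ≤ (1 + Λ) * R := by positivity
  set y : ℤ → E := fun j => if a ≤ j ∧ j ≤ b then w j • z j else 0 with hy
  have hyin : ∀ j, a ≤ j → j ≤ b → y j = w j • z j := fun j h1 h2 => by
    simp only [hy]
    rw [if_pos ⟨h1, h2⟩]
  have hyout : ∀ j, ¬ (a ≤ j ∧ j ≤ b) → y j = 0 := fun j h => by
    simp only [hy]
    rw [if_neg h]
  have hyn : ∀ j, a ≤ j → j ≤ b → ‖y j‖ = w j * ‖z j‖ := fun j h1 h2 => by
    rw [hyin j h1 h2, norm_smul, Real.norm_eq_abs, abs_of_nonneg (hw j)]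
  obtain ⟨j0, hj0, hmax⟩ := Finset.exists_max_image (Finset.Icc a b) (fun j => ‖y j‖)
    ⟨a, Finset.mem_Icc.2 ⟨le_refl a, hab⟩⟩
  have hS : ∀ j, ‖y j‖ ≤ ‖y j0‖ := by
    intro j
    by_cases hj : a ≤ j ∧ j ≤ b
    · exact hmax j (Finset.mem_Icc.2 hj)
    · rw [hyout j hj, norm_zero]
      exact norm_nonneg _
  have hD : ∀ j, ‖y (j + 1) - L j (y j)‖ ≤ max (c / 2 * ‖y j0‖) ((1 + Λ) * R) := by
    intro j
    by_cases h1 : a ≤ j ∧ j < b
    · refine le_max_of_le_left ?_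
      rw [hyin (j + 1) (by omega) (by omega), hyin j h1.1 (by omega)]
      have h2 : w (j + 1) • z (j + 1) - L j (w j • z j) =
          w (j + 1) • (z (j + 1) - L j (z j)) + (w (j + 1) - w j) • L j (z j) := by
        rw [map_smul, smul_sub, sub_smul]
        abel
      rw [h2]
      refine (norm_add_le _ _).trans ?_
      rw [norm_smul, norm_smul, Real.norm_eq_abs, Real.norm_eq_abs, abs_of_nonneg (hw (j + 1))]
      have h3 : w (j + 1) ≤ (1 + κ) * w j := by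
        have h4 := (abs_le.1 (hw1 j)).2
        linarith
      have h5 : w (j + 1) * ‖z (j + 1) - L j (z j)‖ ≤ (1 + κ) * w j * (η * ‖z j‖) :=
        mul_le_mul h3 (hz j h1.1 h1.2) (norm_nonneg _) (by
          have := hw j
          positivity)
      have h6 : ‖L j (z j)‖ ≤ Λ * ‖z j‖ := (L j).le_of_opNorm_le (hΛ j) (z j)
      have h7 : |w (j + 1) - w j| * ‖L j (z j)‖ ≤ κ * w j * (Λ * ‖z j‖) :=
        mul_le_mul (hw1 j) h6 (norm_nonneg _) (by
          have := hw j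
          positivity)
      have h8 : 0 ≤ w j * ‖z j‖ := mul_nonneg (hw j) (norm_nonneg _)
      have h9 : ((1 + κ) * η + κ * Λ) * (w j * ‖z j‖) ≤ c / 2 * (w j * ‖z j‖) :=
        mul_le_mul_of_nonneg_right hs h8
      have h10 : w j * ‖z j‖ ≤ ‖y j0‖ := by
        rw [← hyn j h1.1 (by omega)]
        exact hS j
      have h11 : c / 2 * (w j * ‖z j‖) ≤ c / 2 * ‖y j0‖ :=
        mul_le_mul_of_nonneg_left h10 (by positivity)
      calc w (j + 1) * ‖z (j + 1) - L j (z j)‖ + |w (j + 1) - w j| * ‖L j (z j)‖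
          ≤ (1 + κ) * w j * (η * ‖z j‖) + κ * w j * (Λ * ‖z j‖) := add_le_add h5 h7
        _ = ((1 + κ) * η + κ * Λ) * (w j * ‖z j‖) := by ring
        _ ≤ c / 2 * ‖y j0‖ := h9.trans h11
    · refine le_max_of_le_right ?_
      by_cases h2 : j + 1 = a
      · rw [hyout j (by omega), map_zero, sub_zero, h2, hyn a (le_refl a) hab]
        nlinarith
      · by_cases h3 : j = b
        · subst h3
          rw [hyout (j + 1) (by omega), zero_sub, norm_neg]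
          have h4 : ‖L j (y j)‖ ≤ Λ * ‖y j‖ := (L j).le_of_opNorm_le (hΛ j) (y j)
          rw [hyn j hab (le_refl j)] at h4
          have h5 : Λ * (w j * ‖z j‖) ≤ Λ * R := mul_le_mul_of_nonneg_left hb hΛ0
          linarith
        · rw [hyout (j + 1) (by omega), hyout j (by omega), map_zero, sub_zero, norm_zero]
          exact hRR
  have hmain : c * ‖y j0‖ ≤ (1 + Λ) * R := by
    have h1 := hB y ⟨‖y j0‖, hS⟩ _ hD j0
    rcases le_max_iff.1 h1 with h2 | h2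
    · have h3 : 0 ≤ c * ‖y j0‖ := by positivity
      linarith
    · exact h2
  intro j h1 h2
  rw [← hyn j h1 h2]
  exact (mul_le_mul_of_nonneg_left (hS j) hc.le).trans hmain

end

end KT

end FB
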