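import Pool.Agent.H.MP_fb873c_an.K1b1
import Pool.Agent.H.MP_fb873c_an.K2b

/-!
# Part K2c: solutions which tend to zero at both ends
-/

namespace FB

namespace KT

open scoped Topology
open Filter

section

variable {E : Type*} [NormedAddCommGroup E] [NormedSpace ℝ E] [FiniteDimensional ℝ E]

/-- A bounded solution tends to zero at both ends.  `c` from `bb_const`, `κ`, `η` from `exists_kappa` (with `Λ = ‖A‖`); for `|j| ≥ J`: `‖L j - A‖ ≤ η`, so
`‖x (j+1) - A (x j)‖ ≤ η ‖x j‖`, and `bb_decay` for the constant sequence `A` on `[J, J + 2 N]`, `N = j - J`, gives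
`c exp (κ (j - J)) ‖x j‖ ≤ (1+‖A‖) C` for `j ≥ J`; in the same way on `[-J - 2 N, -J]` for `j = - J - N`.  (`Int.cofinite_eq` : `cofinite = atBot ⊔ atTop`.) -/
theorem tendsto_of_bounded {L : ℤ → E →L[ℝ] E} {A : E →L[ℝ] E} (hL : Tendsto L cofinite (𝓝 A))
    (hA : NoBdd (fun _ => A)) (x : ℤ → E) (hx : ∃ C, ∀ j, ‖x j‖ ≤ C)
    (hr : ∀ j, x (j + 1) = L j (x j)) : Tendsto x cofinite (𝓝 0) := by
  obtain ⟨c, hc, hB⟩ := bb_const hA
  obtain ⟨κ, hκ, η, hη, hs⟩ := exists_kappa hc (norm_nonneg A)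
  obtain ⟨C, hC⟩ := hx
  -- far away the maps are close to the limit
  have hev : ∀ᶠ j in (cofinite : Filter ℤ), ‖L j - A‖ ≤ η := by
    have h1 := (tendsto_iff_norm_sub_tendsto_zero.1 hL).eventually (ge_mem_nhds hη)
    exact h1
  obtain ⟨J, hJ0, hJ⟩ : ∃ J : ℤ, 0 ≤ J ∧ ∀ j : ℤ, J ≤ |j| → ‖L j - A‖ ≤ η := by
    rw [Int.cofinite_eq, eventually_sup, eventually_atBot, eventually_atTop] at hev
    obtain ⟨⟨a, ha⟩, ⟨b, hb⟩⟩ := hev
    refine ⟨|a| + |b|, by positivity, fun j hj => ?_⟩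
    have e1 := neg_abs_le a
    have e2 := le_abs_self b
    have e3 := abs_nonneg a
    have e4 := abs_nonneg b
    rcases abs_cases j with ⟨h, h'⟩ | ⟨h, h'⟩
    · exact hb j (by omega)
    · exact ha j (by omega)
  have hstep : ∀ i : ℤ, J ≤ |i| → ‖x (i + 1) - A (x i)‖ ≤ η * ‖x i‖ := by
    intro i hi
    have e : x (i + 1) - A (x i) = (L i - A) (x i) := by
      rw [hr i]
      rfl
    rw [e]
    exact (ContinuousLinearMap.le_opNorm _ _).trans
      (mul_le_mul_of_nonneg_right (hJ i hi) (norm_nonneg _))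
  have key : ∀ j : ℤ, J ≤ |j| →
      c * (Real.exp (κ * ((|j| - J : ℤ) : ℝ)) * ‖x j‖) ≤ (1 + ‖A‖) * C := by
    intro j hj
    rcases abs_cases j with ⟨h, h'⟩ | ⟨h, h'⟩
    · have h1 := bb_decay hB hc (fun _ => le_rfl) hκ.le hη.le hs (a := J) (b := 2 * j - J)
        (by omega) x (fun i hi _ => hstep i (hi.trans (le_abs_self i))) (hC _) (hC _) j
        (by omega) (by omega)
      have e : min (j - J) (2 * j - J - j) = |j| - J := by
        rw [h]
        omega
      rwa [e] at h1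
    · have h1 := bb_decay hB hc (fun _ => le_rfl) hκ.le hη.le hs (a := 2 * j + J) (b := -J)
        (by omega) x (fun i _ hi => hstep i (by
          have := neg_abs_le i
          omega)) (hC _) (hC _) j
        (by omega) (by omega)
      have e : min (j - (2 * j + J)) (-J - j) = |j| - J := by
        rw [h]
        omega
      rwa [e] at h1
  -- conclusion
  rw [tendsto_zero_iff_norm_tendsto_zero]
  have habs : Tendsto (fun j : ℤ => |j|) cofinite atTop := by
    rw [Int.cofinite_eq]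
    exact tendsto_sup.2 ⟨tendsto_abs_atBot_atTop, tendsto_abs_atTop_atTop⟩
  have hg : Tendsto (fun j : ℤ => κ * ((|j| - J : ℤ) : ℝ)) cofinite atTop := by
    apply Tendsto.const_mul_atTop hκ
    refine (tendsto_intCast_atTop_atTop (R := ℝ)).comp ?_
    exact (tendsto_atTop_add_const_right _ (-J) habs).congr fun j => by ring
  have hg2 : Tendsto (fun j : ℤ => (1 + ‖A‖) * C / c *
      Real.exp (-(κ * ((|j| - J : ℤ) : ℝ)))) cofinite (𝓝 0) := by
    have h1 := (Real.tendsto_exp_neg_atTop_nhds_zero.comp hg).const_mul ((1 + ‖A‖) * C / c)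
    rw [mul_zero] at h1
    exact h1
  refine squeeze_zero' (Eventually.of_forall fun j => norm_nonneg _) ?_ hg2
  filter_upwards [habs.eventually (eventually_ge_atTop J)] with j hj
  have h1 := key j hj
  have hpos := Real.exp_pos (κ * ((|j| - J : ℤ) : ℝ))
  rw [Real.exp_neg, div_mul_eq_mul_div, ← div_eq_mul_inv, div_div,
    le_div_iff₀ (mul_pos hpos hc) |>.trans (by rfl)]
  linarith

theorem noBdd_of_tendsto {L : ℤ → E →L[ℝ] E} {A : E →L[ℝ] E} (hL : Tendsto L cofinite (𝓝 A))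
    (hA : NoBdd (fun _ => A))
    (h : ∀ x : ℤ → E, (∀ j, x (j + 1) = L j (x j)) → Tendsto x cofinite (𝓝 0) → ∀ j, x j = 0) :
    NoBdd L :=
  fun x hx hr => h x hr (tendsto_of_bounded hL hA x hx hr)

end

end KT

end FB
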