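import Pool.Agent.H.MP_fb873c_an.S0

/-!
# Part K4: a homoclinic orbit in charts
-/

namespace FB

namespace KT

open scoped Topology ContDiff Manifold
open Filter

universe u

section

variable {n : ℕ} {M : Type u} [TopologicalSpace M] [ChartedSpace (Er n) M]

/-- A homoclinic orbit `q` of `f^k` for the periodic point `p` of (minimal) period `k`, with charts `ψ j` at `q j`, which are the preferred chart at `p` for
`|j| ≥ J`. -/
structure HO (f : Dif n M) (k : ℕ) (p : M) (q : ℤ → M) (ψ : ℤ → OpenPartialHomeomorph M (Er n))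
    (J : ℕ) : Prop where
  kpos : 0 < k
  Jpos : 0 < J
  fixp : (f : M → M)^[k] p = p
  minp : ∀ i, 0 < i → i < k → (f : M → M)^[i] p ≠ p
  orb : ∀ j, (f : M → M)^[k] (q j) = q (j + 1)
  lim : Tendsto q cofinite (𝓝 p)
  ne : ∀ j, q j ≠ p
  atl : ∀ j, ψ j ∈ atlas (Er n) M
  src : ∀ j, q j ∈ (ψ j).source
  eqp : ∀ j, (J : ℤ) ≤ |j| → ψ j = chartAt (Er n) p

/-- The map `g^k` in the charts `ψ j`, `ψ (j+1)`. -/
noncomputable def Fh (g : Dif n M) (k : ℕ) (ψ : ℤ → OpenPartialHomeomorph M (Er n)) (j : ℤ) (z : Er n) : Er n :=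
  ψ (j + 1) ((g : M → M)^[k] ((ψ j).symm z))

/-- The derivatives along the homoclinic orbit. -/
noncomputable def Lh (f : Dif n M) (k : ℕ) (q : ℤ → M) (ψ : ℤ → OpenPartialHomeomorph M (Er n))
    (j : ℤ) : Er n →L[ℝ] Er n :=
  fderiv ℝ (Fh f k ψ j) (ψ j (q j))

/-- `g^k` is close to `f^k` on the balls of radius `r` around the points of the homoclinic orbit. -/
def Cls (f : Dif n M) (k : ℕ) (q : ℤ → M) (ψ : ℤ → OpenPartialHomeomorph M (Er n)) (η r : ℝ)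
    (g : Dif n M) : Prop :=
  ∀ j : ℤ, ∀ z ∈ Metric.closedBall (ψ j (q j)) r, z ∈ (ψ j).target ∧
    (g : M → M)^[k] ((ψ j).symm z) ∈ (ψ (j + 1)).source ∧
    ‖fderiv ℝ (Fh g k ψ j) z - Lh f k q ψ j‖ ≤ η

/-- A closed orbit `x (-m), ..., x m` (in charts) of `g^k`, of period `2 m + 1`, close to the homoclinic orbit. -/
def CO (g : Dif n M) (k : ℕ) (q : ℤ → M) (ψ : ℤ → OpenPartialHomeomorph M (Er n)) (r : ℝ) (m : ℕ)
    (x : ℤ → Er n) : Prop :=
  (∀ j : ℤ, |j| ≤ m → x j ∈ Metric.closedBall (ψ j (q j)) r) ∧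
    (∀ j : ℤ, -(m : ℤ) ≤ j → j < m → x (j + 1) = Fh g k ψ j (x j)) ∧
    x (-(m : ℤ)) = Fh g k ψ m (x m)

theorem Cls.mono {f : Dif n M} {k : ℕ} {q : ℤ → M} {ψ : ℤ → OpenPartialHomeomorph M (Er n)}
    {η r r' : ℝ} {g : Dif n M} (h : Cls f k q ψ η r g) (hr : r' ≤ r) : Cls f k q ψ η r' g :=
  fun j z hz => h j z (Metric.closedBall_subset_closedBall hr hz)

end

end KT

end FB
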