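import Pool.Agent.H.MP_fb873c_an.D1a
import Pool.Agent.H.MP_fb873c_an.D2b
import Pool.Agent.H.MP_fb873c_an.K4

/-!
# Part K4a: elementary properties of homoclinic orbits
-/

namespace FB

namespace KT

open scoped Topology ContDiff Manifold
open Filter

universe u

section

variable {n : ℕ} {M : Type u} [TopologicalSpace M] [ChartedSpace (Er n) M]
  [IsManifold (𝓡 n) ∞ M]

/-- Coordinate representations of smooth maps are smooth. -/
theorem K4a_cd {F : M → M} {x : M}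
    (hF : ContMDiffAt (𝓡 n) (𝓡 n) ∞ F x) {φ χ : OpenPartialHomeomorph M (Er n)}
    (hφ : φ ∈ atlas (Er n) M) (hχ : χ ∈ atlas (Er n) M) (hx : x ∈ φ.source)
    (hy : F x ∈ χ.source) : ContDiffAt ℝ ∞ (χ ∘ F ∘ φ.symm) (φ x) := by
  have h1 : ContMDiffAt (𝓡 n) (𝓡 n) ∞ φ.symm (φ x) :=
    contMDiffAt_symm_of_mem_maximalAtlas (IsManifold.subset_maximalAtlas hφ) (φ.map_source hx)
  have h2 : ContMDiffAt (𝓡 n) (𝓡 n) ∞ χ (F x) :=
    contMDiffAt_of_mem_maximalAtlas (IsManifold.subset_maximalAtlas hχ) hy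
  have h3 : φ.symm (φ x) = x := φ.left_inv hx
  have h4 : ContMDiffAt (𝓡 n) (𝓡 n) ∞ (F ∘ φ.symm) (φ x) :=
    ContMDiffAt.comp (φ x) (by rw [h3]; exact hF) h1
  have h5 : ContMDiffAt (𝓡 n) (𝓡 n) ∞ (χ ∘ (F ∘ φ.symm)) (φ x) :=
    ContMDiffAt.comp (φ x) (by simpa [h3] using h2) h4
  exact contMDiffAt_iff_contDiffAt.1 h5

theorem K4a_cofinite (J : ℕ) : ∀ᶠ j : ℤ in cofinite, (J : ℤ) + 1 ≤ |j| := by
  rw [Filter.eventually_cofinite]
  refine (Set.finite_Icc (-((J : ℤ) + 1)) ((J : ℤ) + 1)).subset ?_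
  intro j hj
  have hj' : ¬ (J : ℤ) + 1 ≤ |j| := hj
  rw [not_le] at hj'
  have := abs_lt.1 hj'
  exact ⟨by linarith [this.1], by linarith [this.2]⟩

/-- The expression in charts is smooth: `contMDiff_iterate` (file D2b); as in `smF_chart` (file D2b) or `D1_cda` (file D1a). -/
theorem Fh_contDiffAt (g : Dif n M) (k : ℕ) {ψ : ℤ → OpenPartialHomeomorph M (Er n)}
    (hψ : ∀ j, ψ j ∈ atlas (Er n) M) {j : ℤ} {z : Er n} (hz : z ∈ (ψ j).target)
    (hz' : (g : M → M)^[k] ((ψ j).symm z) ∈ (ψ (j + 1)).source) :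
    ContDiffAt ℝ ∞ (Fh g k ψ j) z := by
  have hx := (ψ j).map_target hz
  have h := K4a_cd (n := n) (F := (g : M → M)^[k]) (contMDiff_iterate g k _) (hψ j) (hψ (j + 1))
    hx hz'
  rw [(ψ j).right_inv hz] at h
  exact h

/-- `D1_chain` for `g^k` and its inverse `(g.symm)^[k]`, whose composition is the identity. -/
theorem Fh_inv (g : Dif n M) (k : ℕ) {ψ : ℤ → OpenPartialHomeomorph M (Er n)}
    (hψ : ∀ j, ψ j ∈ atlas (Er n) M) {j : ℤ} {z : Er n} (hz : z ∈ (ψ j).target)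
    (hz' : (g : M → M)^[k] ((ψ j).symm z) ∈ (ψ (j + 1)).source) :
    (fderiv ℝ (ψ j ∘ (g.symm : M → M)^[k] ∘ (ψ (j + 1)).symm) (Fh g k ψ j z)) ∘L
      (fderiv ℝ (Fh g k ψ j) z) = ContinuousLinearMap.id ℝ (Er n) := by
  have hx := (ψ j).map_target hz
  have hzz := (ψ j).right_inv hz
  have hGF : ((g.symm : M → M)^[k]) ∘ ((g : M → M)^[k]) = id := by
    funext x
    exact (Function.LeftInverse.iterate (f := (g : M → M)) (g := (g.symm : M → M))
      (fun x => g.symm_apply_apply x) k) x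
  have hF : ContMDiffAt (𝓡 n) (𝓡 n) 1 ((g : M → M)^[k]) ((ψ j).symm z) :=
    (contMDiff_iterate g k _).of_le (by norm_cast)
  have hG : ContMDiffAt (𝓡 n) (𝓡 n) 1 ((g.symm : M → M)^[k]) ((g : M → M)^[k] ((ψ j).symm z)) :=
    (contMDiff_iterate g.symm k _).of_le (by norm_cast)
  have hGx : (g.symm : M → M)^[k] ((g : M → M)^[k] ((ψ j).symm z)) = (ψ j).symm z :=
    congrFun hGF _
  have h := D1_chain (n := n) hF hG (hψ j) (hψ (j + 1)) (hψ j) hx hz' (by rw [hGx]; exact hx)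
  rw [hzz, hGF] at h
  have h1 : (ψ j ∘ id ∘ (ψ j).symm) =ᶠ[𝓝 z] id := by
    filter_upwards [(ψ j).open_target.mem_nhds hz] with y hy
    exact (ψ j).right_inv hy
  rw [h1.fderiv_eq, fderiv_id] at h
  exact h.symm

/-- From `Fh_inv`. -/
theorem Fh_injective (g : Dif n M) (k : ℕ) {ψ : ℤ → OpenPartialHomeomorph M (Er n)}
    (hψ : ∀ j, ψ j ∈ atlas (Er n) M) {j : ℤ} {z : Er n} (hz : z ∈ (ψ j).target)
    (hz' : (g : M → M)^[k] ((ψ j).symm z) ∈ (ψ (j + 1)).source) :
    Function.Injective (fderiv ℝ (Fh g k ψ j) z) := by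
  have h := Fh_inv g k hψ hz hz'
  intro v w hvw
  have hv := congrArg (fun A : Er n →L[ℝ] Er n => A v) h
  have hw := congrArg (fun A : Er n →L[ℝ] Er n => A w) h
  simp only [ContinuousLinearMap.comp_apply, ContinuousLinearMap.id_apply] at hv hw
  rw [← hv, ← hw, hvw]

variable {f : Dif n M} {k : ℕ} {p : M} {q : ℤ → M} {ψ : ℤ → OpenPartialHomeomorph M (Er n)} {J : ℕ}

/-- For `|j| ≥ J + 1` both `ψ j` and `ψ (j+1)` are the chart `φ` at `p`, `Lh j` is the derivative of `φ ∘ f^k ∘ φ.symm` at `φ (q j)`, this derivative is continuous at `φ p`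
(`D1_cda` or `Fh_contDiffAt`, `ContDiffAt.fderiv_right`) and `φ (q j) → φ p`. -/
theorem Lh_tendsto (h : HO f k p q ψ J) :
    Tendsto (Lh f k q ψ) cofinite (𝓝 (dfix (n := n) ((f : M → M)^[k]) p)) := by
  have hp : p ∈ (chartAt (Er n) p).source := mem_chart_source (Er n) p
  have hc : ContinuousAt (chartAt (Er n) p) p := (chartAt (Er n) p).continuousAt hp
  have h1 : Tendsto (fun j => chartAt (Er n) p (q j)) cofinite (𝓝 (chartAt (Er n) p p)) :=
    hc.tendsto.comp h.lim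
  have h2 : ContDiffAt ℝ ∞ (chartAt (Er n) p ∘ (f : M → M)^[k] ∘ (chartAt (Er n) p).symm)
      (chartAt (Er n) p p) :=
    K4a_cd (n := n) (contMDiff_iterate f k _) (chart_mem_atlas (Er n) p)
      (chart_mem_atlas (Er n) p) hp (by rw [h.fixp]; exact hp)
  have h3 : ContinuousAt
      (fderiv ℝ (chartAt (Er n) p ∘ (f : M → M)^[k] ∘ (chartAt (Er n) p).symm))
      (chartAt (Er n) p p) :=
    (h2.fderiv_right (m := 0) (by norm_cast)).continuousAt
  have h4 : Tendsto (fun j => fderiv ℝ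
      (chartAt (Er n) p ∘ (f : M → M)^[k] ∘ (chartAt (Er n) p).symm) (chartAt (Er n) p (q j)))
      cofinite (𝓝 (dfix (n := n) ((f : M → M)^[k]) p)) := h3.tendsto.comp h1
  refine h4.congr' ?_
  filter_upwards [K4a_cofinite J] with j hj
  have e1 : ψ j = chartAt (Er n) p := h.eqp j (by linarith)
  have e2 : ψ (j + 1) = chartAt (Er n) p := by
    refine h.eqp (j + 1) ?_
    have h5 : |j| ≤ |j + 1| + 1 := by
      calc |j| = |(j + 1) - 1| := by rw [add_sub_cancel_right]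
        _ ≤ |j + 1| + |(1 : ℤ)| := abs_sub _ _
        _ = |j + 1| + 1 := by norm_num
    linarith
  have e3 : Fh f k ψ j = chartAt (Er n) p ∘ (f : M → M)^[k] ∘ (chartAt (Er n) p).symm := by
    funext z
    simp only [Fh, e1, e2, Function.comp_apply]
  rw [Lh, e3, e1]

theorem Lh_injective (h : HO f k p q ψ J) (j : ℤ) : Function.Injective (Lh f k q ψ j) := by
  refine Fh_injective f k h.atl ((ψ j).map_source (h.src j)) ?_
  rw [(ψ j).left_inv (h.src j), h.orb]
  exact h.src (j + 1)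

/-- The coordinates of the homoclinic orbit converge: for `|j| ≥ J` the chart `ψ j` is the chart at `p`. -/
theorem coord_tendsto (h : HO f k p q ψ J) :
    Tendsto (fun j => ψ j (q j)) cofinite (𝓝 (chartAt (Er n) p p)) := by
  have hp : p ∈ (chartAt (Er n) p).source := mem_chart_source (Er n) p
  have hc : ContinuousAt (chartAt (Er n) p) p := (chartAt (Er n) p).continuousAt hp
  have h1 : Tendsto (fun j => chartAt (Er n) p (q j)) cofinite (𝓝 (chartAt (Er n) p p)) :=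
    hc.tendsto.comp h.lim
  refine h1.congr' ?_
  filter_upwards [K4a_cofinite J] with j hj
  rw [h.eqp j (by linarith)]

end

end KT

end FB
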