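import Pool.Agent.H.MP_fb873c_an.K4b1
import Pool.Agent.H.MP_fb873c_an.K4b2

/-! # Part K4b: existence of the data of a homoclinic orbit: collects the files above -/
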