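import Mathlib

/-!
# Part K5a: solution of a cyclic system of equations by the contraction principle
-/

namespace FB

namespace KT

open scoped Topology
open Filter Metric

section

variable {E : Type*} [NormedAddCommGroup E] [NormedSpace ℝ E] [FiniteDimensional ℝ E]

/-- Let `X = ZMod N → E` (finite dimensional, sup norm), `T : X →L[ℝ] X`, `(T x) i = x (i+1) - L i (x i)`.  By `hB`, `c ‖x‖ ≤ ‖T x‖`; so `T` is injective, hence bijective
(`LinearMap.injective_iff_surjective`), and for `u` there is `T⁻¹ u` with `c ‖T⁻¹ u‖ ≤ ‖u‖`.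
The map `e w i = y (i+1) - G i (y i + w i) + L i (w i)` satisfies on the closed ball of radius `r` around `0` in `X`: `‖e w - e w'‖ ≤ η ‖w - w'‖` (mean value inequality
`Convex.norm_image_sub_le_of_norm_fderiv_le` or `Convex.norm_image_sub_le_of_norm_hasFDerivWithin_le` for `G i - L i` on the convex set `closedBall (y i) r`) and
`‖e 0‖ ≤ δ`.  So `w ↦ - T⁻¹ (e w)` maps `closedBall 0 r` to itself (`(δ + η r) / c ≤ r/2 + r/2`) and is a contraction with constant `η / c ≤ 1/2`
(`ContractingWith.exists_fixedPoint'` on the complete subset, or `ContractingWith` on the subtype).  The fixed point `w` satisfies `T w = - e w`, i.e.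
`w (i+1) = - y (i+1) + G i (y i + w i)`; `x = y + w`. -/
theorem cyc_solve {N : ℕ} [NeZero N] (L : ZMod N → E →L[ℝ] E) {c η δ r : ℝ} (hc : 0 < c)
    (hB : ∀ x : ZMod N → E, ∀ D, (∀ i, ‖x (i + 1) - L i (x i)‖ ≤ D) → ∀ i, c * ‖x i‖ ≤ D)
    (G : ZMod N → E → E) (y : ZMod N → E) (hr : 0 < r) (hη : η ≤ c / 2) (hδ : 2 * δ ≤ c * r)
    (h1 : ∀ i, ∀ z ∈ closedBall (y i) r, DifferentiableAt ℝ (G i) z ∧ ‖fderiv ℝ (G i) z - L i‖ ≤ η)
    (h2 : ∀ i, ‖G i (y i) - y (i + 1)‖ ≤ δ) :
    ∃ x : ZMod N → E, (∀ i, x i ∈ closedBall (y i) r) ∧ ∀ i, x (i + 1) = G i (x i) := by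
  have hη0 : 0 ≤ η := (norm_nonneg _).trans (h1 0 (y 0) (mem_closedBall_self hr.le)).2
  have hδ0 : 0 ≤ δ := (norm_nonneg _).trans (h2 0)
  let T : (ZMod N → E) →ₗ[ℝ] (ZMod N → E) :=
    { toFun := fun x i => x (i + 1) - L i (x i)
      map_add' := by
        intro x z
        funext i
        simp only [Pi.add_apply, map_add]
        abel
      map_smul' := by
        intro a x
        funext i
        simp only [Pi.smul_apply, map_smul, RingHom.id_apply, smul_sub] }
  have hT : ∀ x i, T x i = x (i + 1) - L i (x i) := fun _ _ => rfl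
  have hTn : ∀ x : ZMod N → E, c * ‖x‖ ≤ ‖T x‖ := by
    intro x
    have h3 := hB x ‖T x‖ (fun i => by
      rw [← hT]
      exact norm_le_pi_norm (T x) i)
    have h4 : ‖x‖ ≤ ‖T x‖ / c := by
      refine (pi_norm_le_iff_of_nonneg (by positivity)).2 fun i => ?_
      rw [le_div_iff₀ hc]
      linarith [h3 i]
    rw [le_div_iff₀ hc] at h4
    linarith
  have hinj : Function.Injective T := by
    intro x z hxz
    have h3 : T (x - z) = 0 := by rw [map_sub, hxz, sub_self]
    have h4 := hTn (x - z)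
    rw [h3, norm_zero] at h4
    have h5 : ‖x - z‖ = 0 := by
      have h6 := norm_nonneg (x - z)
      nlinarith
    exact sub_eq_zero.1 (norm_eq_zero.1 h5)
  have hsurj : Function.Surjective T := LinearMap.injective_iff_surjective.1 hinj
  let S : (ZMod N → E) ≃ₗ[ℝ] (ZMod N → E) := LinearEquiv.ofBijective T ⟨hinj, hsurj⟩
  have hST : ∀ u, T (S.symm u) = u := fun u => S.apply_symm_apply u
  have hSn : ∀ u, c * ‖S.symm u‖ ≤ ‖u‖ := by
    intro u
    have h3 := hTn (S.symm u)
    rwa [hST] at h3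
  let e : (ZMod N → E) → (ZMod N → E) := fun w i => y (i + 1) - G i (y i + w i) + L i (w i)
  have he : ∀ w i, e w i = y (i + 1) - G i (y i + w i) + L i (w i) := fun _ _ => rfl
  have hball : ∀ w ∈ closedBall (0 : ZMod N → E) r, ∀ i, y i + w i ∈ closedBall (y i) r := by
    intro w hw i
    rw [mem_closedBall, dist_eq_norm, add_sub_cancel_left]
    exact (norm_le_pi_norm w i).trans (mem_closedBall_zero_iff.1 hw)
  have hlip : ∀ w ∈ closedBall (0 : ZMod N → E) r, ∀ w' ∈ closedBall (0 : ZMod N → E) r,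
      ‖e w - e w'‖ ≤ η * ‖w - w'‖ := by
    intro w hw w' hw'
    refine (pi_norm_le_iff_of_nonneg (by positivity)).2 fun i => ?_
    have h3 := Convex.norm_image_sub_le_of_norm_fderiv_le' (𝕜 := ℝ) (f := G i) (φ := L i) (C := η)
      (s := closedBall (y i) r) (fun z hz => (h1 i z hz).1) (fun z hz => (h1 i z hz).2)
      (convex_closedBall _ _) (hball w' hw' i) (hball w hw i)
    have h4 : (e w - e w') i =
        -(G i (y i + w i) - G i (y i + w' i) - L i (y i + w i - (y i + w' i))) := by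
      rw [Pi.sub_apply, he, he, add_sub_add_left_eq_sub, map_sub]
      abel
    rw [h4, norm_neg]
    refine h3.trans (mul_le_mul_of_nonneg_left ?_ hη0)
    rw [add_sub_add_left_eq_sub]
    exact norm_le_pi_norm (w - w') i
  have he0 : ‖e 0‖ ≤ δ := by
    refine (pi_norm_le_iff_of_nonneg hδ0).2 fun i => ?_
    rw [he, Pi.zero_apply, map_zero, add_zero, add_zero, norm_sub_rev]
    exact h2 i
  have h0mem : (0 : ZMod N → E) ∈ closedBall (0 : ZMod N → E) r := mem_closedBall_self hr.le
  let Φ : (ZMod N → E) → (ZMod N → E) := fun w => -(S.symm (e w))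
  have hmaps : Set.MapsTo Φ (closedBall (0 : ZMod N → E) r) (closedBall (0 : ZMod N → E) r) := by
    intro w hw
    rw [mem_closedBall_zero_iff]
    have h3 := hSn (e w)
    have h4 := hlip w hw 0 h0mem
    rw [sub_zero] at h4
    have h5 : ‖e w‖ ≤ ‖e w - e 0‖ + ‖e 0‖ := by
      have := norm_add_le (e w - e 0) (e 0)
      rwa [sub_add_cancel] at this
    have hw' := mem_closedBall_zero_iff.1 hw
    have h6 : η * ‖w‖ ≤ c / 2 * r := mul_le_mul hη hw' (norm_nonneg _) (by positivity)
    have h7 : c * ‖S.symm (e w)‖ ≤ c * r := by nlinarith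
    have h8 : ‖S.symm (e w)‖ ≤ r := le_of_mul_le_mul_left h7 hc
    show ‖-(S.symm (e w))‖ ≤ r
    rwa [norm_neg]
  have hcontr : ContractingWith (1 / 2 : NNReal)
      (hmaps.restrict Φ (closedBall (0 : ZMod N → E) r) (closedBall (0 : ZMod N → E) r)) := by
    refine ⟨?_, LipschitzWith.of_dist_le_mul fun w w' => ?_⟩
    · rw [← NNReal.coe_lt_coe]
      norm_num
    · rw [Subtype.dist_eq, Subtype.dist_eq, dist_eq_norm, dist_eq_norm]
      have h3 := hSn (e w.1 - e w'.1)
      have h4 := hlip w.1 w.2 w'.1 w'.2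
      have h5 : (hmaps.restrict Φ _ _ w : ZMod N → E) - (hmaps.restrict Φ _ _ w' : ZMod N → E) =
          -(S.symm (e w.1 - e w'.1)) := by
        rw [map_sub]
        show -(S.symm (e w.1)) - -(S.symm (e w'.1)) = _
        abel
      rw [h5, norm_neg]
      have h6 : η * ‖w.1 - w'.1‖ ≤ c / 2 * ‖w.1 - w'.1‖ :=
        mul_le_mul_of_nonneg_right hη (norm_nonneg _)
      have h7 : c * ‖S.symm (e w.1 - e w'.1)‖ ≤ c * (1 / 2 * ‖w.1 - w'.1‖) := by
        nlinarith
      have h8 := le_of_mul_le_mul_left h7 hc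
      have h9 : (((1 / 2 : NNReal)) : ℝ) = 1 / 2 := by push_cast; ring
      rw [h9]
      exact h8
  obtain ⟨w, hw, hfix, -⟩ := ContractingWith.exists_fixedPoint' (isClosed_closedBall.isComplete)
    hmaps hcontr h0mem (edist_ne_top _ _)
  have hw2 : T w = -(e w) := by
    have h3 : -(S.symm (e w)) = w := hfix
    calc T w = T (-(S.symm (e w))) := by rw [h3]
      _ = -(T (S.symm (e w))) := map_neg T _
      _ = -(e w) := by rw [hST]
  refine ⟨fun i => y i + w i, fun i => hball w hw i, fun i => ?_⟩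
  have h3 := congrFun hw2 i
  rw [hT, Pi.neg_apply, he] at h3
  have h4 : w (i + 1) = G i (y i + w i) - y (i + 1) := by
    have h5 : w (i + 1) = (w (i + 1) - L i (w i)) + L i (w i) := by abel
    rw [h5, h3]
    abel
  show y (i + 1) + w (i + 1) = G i (y i + w i)
  rw [h4]
  abel

end

end KT

end FB
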