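import Pool.Agent.H.MP_fb873c_an.K00
import Pool.Agent.H.MP_fb873c_an.K5a

/-!
# Part K5b: cyclic systems, indexed by the integers `-m, ..., m`
-/

namespace FB

namespace KT

open scoped Topology
open Filter Metric

section

variable {E : Type*} [NormedAddCommGroup E] [NormedSpace ℝ E] [FiniteDimensional ℝ E]

theorem K5b_range (m : ℕ) (i : ZMod (2 * m + 1)) :
    -(m : ℤ) ≤ i.valMinAbs ∧ i.valMinAbs ≤ m := by
  have h := ZMod.valMinAbs_mem_Ioc i
  rw [Set.mem_Ioc] at h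
  push_cast at h
  constructor <;> omega

theorem K5b_val (m : ℕ) (j : ℤ) (h1 : -(m : ℤ) ≤ j) (h2 : j ≤ m) :
    ((j : ZMod (2 * m + 1))).valMinAbs = j := by
  rw [ZMod.valMinAbs_spec]
  refine ⟨rfl, ?_⟩
  rw [Set.mem_Ioc]
  push_cast
  constructor <;> omega

theorem K5b_wrap (m : ℕ) : ((m : ℤ) : ZMod (2 * m + 1)) + 1 = ((-(m : ℤ) : ℤ) : ZMod (2 * m + 1)) := by
  have h : (((m : ℤ) + 1 - (-(m : ℤ)) : ℤ) : ZMod (2 * m + 1)) = 0 := by
    have h2 : ((m : ℤ) + 1 - (-(m : ℤ)) : ℤ) = ((2 * m + 1 : ℕ) : ℤ) := by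
      push_cast
      ring
    rw [h2, Int.cast_natCast, ZMod.natCast_self]
  rw [Int.cast_sub, sub_eq_zero] at h
  rw [← h]
  push_cast
  rfl

theorem K5b_succ (m : ℕ) (i : ZMod (2 * m + 1)) (h : i.valMinAbs < m) :
    (i + 1).valMinAbs = i.valMinAbs + 1 := by
  have h1 : ((i.valMinAbs + 1 : ℤ) : ZMod (2 * m + 1)) = i + 1 := by
    rw [Int.cast_add, ZMod.coe_valMinAbs, Int.cast_one]
  rw [← h1]
  have h2 := K5b_range m i
  exact K5b_val m _ (by omega) (by omega)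

theorem K5b_last (m : ℕ) (i : ZMod (2 * m + 1)) (h : i.valMinAbs = m) :
    (i + 1).valMinAbs = -(m : ℤ) := by
  have h1 : i = ((m : ℤ) : ZMod (2 * m + 1)) := by
    rw [← h, ZMod.coe_valMinAbs]
  rw [h1, K5b_wrap]
  exact K5b_val m _ le_rfl (by omega)

/-- `cyc_solve` with `N = 2 m + 1`, and `v i = ZMod.valMinAbs i` in the place of `i` (`|v i| ≤ m`): `L (v i)`, `G (v i)`, `y (v i)`.  The bound `hB` for a sequence `x` on `ZMod N`: apply
`BB c (cyc m L)` to `j ↦ x (j : ZMod N)`.  `v (i+1) = v i + 1` if `v i < m`, and `v (i+1) = -m` if `v i = m` (`ZMod.valMinAbs_spec`).  The result is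
`x j := x' (j : ZMod N)`. -/
theorem cyc_solve' (L : ℤ → E →L[ℝ] E) (m : ℕ) {c η δ r : ℝ} (hc : 0 < c)
    (hB : BB c (cyc m L)) (G : ℤ → E → E) (y : ℤ → E) (hr : 0 < r) (hη : η ≤ c / 2)
    (hδ : 2 * δ ≤ c * r)
    (h1 : ∀ j : ℤ, |j| ≤ m → ∀ z ∈ closedBall (y j) r,
      DifferentiableAt ℝ (G j) z ∧ ‖fderiv ℝ (G j) z - L j‖ ≤ η)
    (h2 : ∀ j : ℤ, -(m : ℤ) ≤ j → j < m → ‖G j (y j) - y (j + 1)‖ ≤ δ)
    (h3 : ‖G m (y m) - y (-(m : ℤ))‖ ≤ δ) :
    ∃ x : ℤ → E, (∀ j : ℤ, |j| ≤ m → x j ∈ closedBall (y j) r) ∧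
      (∀ j : ℤ, -(m : ℤ) ≤ j → j < m → x (j + 1) = G j (x j)) ∧ x (-(m : ℤ)) = G m (x m) := by
  have : NeZero (2 * m + 1) := ⟨by omega⟩
  have key := cyc_solve (N := 2 * m + 1) (fun i => L i.valMinAbs) (c := c) (η := η) (δ := δ)
    (r := r) hc ?_ (fun i => G i.valMinAbs) (fun i => y i.valMinAbs) hr hη hδ ?_ ?_
  · obtain ⟨x, hx1, hx2⟩ := key
    refine ⟨fun j => x (j : ZMod (2 * m + 1)), ?_, ?_, ?_⟩
    · intro j hj
      have h := hx1 (j : ZMod (2 * m + 1))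
      rw [abs_le] at hj
      rw [K5b_val m j hj.1 hj.2] at h
      exact h
    · intro j hj1 hj2
      have h := hx2 (j : ZMod (2 * m + 1))
      rw [K5b_val m j hj1 hj2.le] at h
      simp only
      rw [Int.cast_add, Int.cast_one]
      exact h
    · have h := hx2 ((m : ℤ) : ZMod (2 * m + 1))
      rw [K5b_val m m (by omega) le_rfl, K5b_wrap] at h
      exact h
  · intro x D hD i
    have h := hB (fun j => x (j : ZMod (2 * m + 1))) ⟨∑ i, ‖x i‖, fun j =>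
      Finset.single_le_sum (f := fun i => ‖x i‖) (fun i _ => norm_nonneg _) (Finset.mem_univ _)⟩
      D (fun j => by
        have h2 := hD (j : ZMod (2 * m + 1))
        rw [Int.cast_add, Int.cast_one]
        exact h2) i.valMinAbs
    rw [ZMod.coe_valMinAbs] at h
    exact h
  · intro i z hz
    have h2 := K5b_range m i
    exact h1 i.valMinAbs (abs_le.mpr h2) z hz
  · intro i
    have h4 := K5b_range m i
    rcases lt_or_eq_of_le h4.2 with h5 | h5
    · rw [K5b_succ m i h5]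
      exact h2 _ h4.1 h5
    · rw [K5b_last m i h5, h5]
      exact h3

end

end KT

end FB
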