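import Pool.Agent.H.MP_fb873c_an.K6b1
import Pool.Agent.H.MP_fb873c_an.K6b2
import Pool.Agent.H.MP_fb873c_an.K6b3

/-! # Part K6b: uniformity along the homoclinic orbit: collects the files above -/
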