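import Pool.Agent.H.MP_fb873c_an.K8a
import Pool.Agent.H.MP_fb873c_an.K8b
import Pool.Agent.H.MP_fb873c_an.K8c

/-! # Part K8: the closed orbits are exponentially close to the periodic point: collects the files above -/
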