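import Mathlib

/-!
# PROJECT LEFSCHETZ (MP_fb873c_an), part L: local operators on a Euclidean space `W`

`Lam W q`: complex valued alternating real-multilinear `q`-forms on `W`.
`Ty W`: the two types of complexes treated simultaneously, de Rham (`pi = 1`) and Dolbeault
(`pi` = projection on the forms which are conjugate-linear in every slot).
-/

namespace FB

open MeasureTheory
open scoped Topology ContDiff

/-- Complex valued alternating real-multilinear `q`-forms on `W`. -/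
abbrev Lam (W : Type) [NormedAddCommGroup W] [NormedSpace ℝ W] (q : ℕ) : Type :=
  W [⋀^Fin q]→L[ℝ] ℂ

section defs

variable {W : Type} [NormedAddCommGroup W] [InnerProductSpace ℝ W]

/-- Alternatization of a linear map with values in `q`-forms:
`alt f (v_0,…,v_q) = ∑ (-1)^i f(v_i)(v_0,…,v̂_i,…,v_q)`. -/
noncomputable abbrev alt {q : ℕ} (f : W →L[ℝ] Lam W q) : Lam W (q + 1) :=
  ContinuousAlternatingMap.alternatizeUncurryFin f

/-- Contraction with a vector, as a real-linear map. -/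
noncomputable def ctr {q : ℕ} (y : W) : Lam W (q + 1) →L[ℝ] Lam W q :=
  (ContinuousAlternatingMap.curryLeftLI (𝕜 := ℝ) (E := W) (F := ℂ)
    (n := q)).toContinuousLinearMap.flip y

theorem ctr_apply {q : ℕ} (y : W) (α : Lam W (q + 1)) :
    ctr y α = ContinuousAlternatingMap.curryLeft α y := rfl

/-- `(tau f)(v) = lam f(v) + mu i f(J v)`. -/
noncomputable def tauG (lam mu : ℝ) (J : W →L[ℝ] W) {q : ℕ} (f : W →L[ℝ] Lam W q) :
    W →L[ℝ] Lam W q :=
  lam • f + ((mu : ℂ) * Complex.I) • (f.comp J)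

/-- Type of a complex. -/
structure Ty (W : Type) [NormedAddCommGroup W] [InnerProductSpace ℝ W] where
  lam : ℝ
  mu : ℝ
  J : W →L[ℝ] W
  good : Set (W →L[ℝ] W)
  pi : ∀ q, Lam W q →L[ℂ] Lam W q
  lam_pos : 0 < lam
  rot : mu = 0 ∨ ∀ t : ℝ, ∃ R : W ≃ₗᵢ[ℝ] W, ∀ x, R x = Real.cos t • x + Real.sin t • J x
  pi_pi : ∀ q α, pi q (pi q α) = pi q α
  nat : ∀ q (L : W →L[ℝ] W), L ∈ good → ∀ α : Lam W q,
    pi q (α.compContinuousLinearMap L) = (pi q α).compContinuousLinearMap L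
  key : ∀ q (f : W →L[ℝ] Lam W q),
    pi (q + 1) (alt f) = alt (tauG lam mu J (((pi q).restrictScalars ℝ).comp f))
  contr : ∀ q (α : Lam W (q + 1)) (y : W), pi (q + 1) α = α → pi q (ctr y α) = ctr y α

/-- The differential of the complex of type `T` on forms on (an open subset of) `W`. -/
noncomputable def Ty.D (T : Ty W) {q : ℕ} (u : W → Lam W q) (x : W) : Lam W (q + 1) :=
  T.pi (q + 1) (extDeriv u x)

/-- Radial mollifiers. -/
structure IsBump (b : W → ℝ) (ε : ℝ) [MeasurableSpace W] [BorelSpace W] [FiniteDimensional ℝ W] :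
    Prop where
  pos : 0 < ε
  smooth : ContDiff ℝ ∞ b
  nonneg : ∀ y, 0 ≤ b y
  supp : ∀ y, ε ≤ ‖y‖ → b y = 0
  int : ∫ y, b y = 1
  radial : ∀ x y, ‖x‖ = ‖y‖ → b x = b y

/-- Parameter domain `[0,1] × closedBall 0 ε`. -/
def Dom (W : Type) [NormedAddCommGroup W] (ε : ℝ) : Set (ℝ × W) :=
  Set.Icc (0 : ℝ) 1 ×ˢ Metric.closedBall (0 : W) ε

/-- Averaging operator `u ↦ (x ↦ ∫_θ L_θ (u (x - w_θ)))`. -/
noncomputable def Avg {E F : Type*} [NormedAddCommGroup E] [NormedSpace ℝ E]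
    [NormedAddCommGroup F] [NormedSpace ℝ F] [MeasurableSpace W] [BorelSpace W]
    [FiniteDimensional ℝ W] (ε : ℝ) (w : ℝ × W → W) (L : ℝ × W → E →L[ℝ] F)
    (u : W → E) (x : W) : F :=
  ∫ θ in Dom W ε, L θ (u (x - w θ))

/-- The homotopy operator: `(K u)(x) = (1/lam) ∫_0^1 ∫ b(y) i_y u(x - t y) dy dt`. -/
noncomputable def Kop [MeasurableSpace W] [BorelSpace W] [FiniteDimensional ℝ W]
    (T : Ty W) (b : W → ℝ) (ε : ℝ) {q : ℕ} (u : W → Lam W (q + 1)) : W → Lam W q :=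
  Avg ε (fun θ => θ.1 • θ.2)
    (fun θ => (T.lam⁻¹ * b θ.2) • ctr θ.2) u

/-- Convolution with a kernel of operators: `(C_k u)(x) = ∫ k(y) (u (x - y)) dy`. -/
noncomputable def Cop [MeasurableSpace W] [BorelSpace W] [FiniteDimensional ℝ W]
    {E F : Type*} [NormedAddCommGroup E] [NormedSpace ℝ E] [NormedAddCommGroup F] [NormedSpace ℝ F]
    (k : W → E →L[ℝ] F) (ε : ℝ) (u : W → E) : W → F :=
  Avg ε (fun θ => θ.2) (fun θ => k θ.2) u

/-- Mollification. -/
noncomputable def Bop [MeasurableSpace W] [BorelSpace W] [FiniteDimensional ℝ W]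
    (b : W → ℝ) (ε : ℝ) {q : ℕ} (u : W → Lam W q) : W → Lam W q :=
  Cop (fun y => b y • ContinuousLinearMap.id ℝ (Lam W q)) ε u

end defs

end FB
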