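import Pool.Agent.H.MP_fb873c_an.L0

/-! Part L1: pointwise Cartan formula. -/

namespace FB

section

variable {W : Type} [NormedAddCommGroup W] [InnerProductSpace ℝ W]

theorem L1_rem {q : ℕ} (y : W) (v : Fin (q + 1) → W) (j : Fin (q + 1)) :
    j.succ.removeNth (Matrix.vecCons y v : Fin (q + 2) → W) = Matrix.vecCons y (j.removeNth v) := by
  funext i
  refine Fin.cases ?_ (fun i => ?_) i
  · show (Matrix.vecCons y v : Fin (q + 2) → W) (j.succ.succAbove 0) = y
    rw [Fin.succ_succAbove_zero]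
    rfl
  · show (Matrix.vecCons y v : Fin (q + 2) → W) (j.succ.succAbove i.succ) = v (j.succAbove i)
    rw [Fin.succ_succAbove_succ]
    rfl

theorem L1_ctr {q : ℕ} (y : W) (α : Lam W (q + 1)) (v : Fin q → W) :
    ctr y α v = α (Matrix.vecCons y v) := rfl

/-- JOB L1.  `i_y (alt f) = f y - alt (i_y ∘ f)`: expand with
`ContinuousAlternatingMap.alternatizeUncurryFin_apply` and `Fin.sum_univ_succ`. -/
theorem ctr_alt {q : ℕ} (f : W →L[ℝ] Lam W (q + 1)) (y : W) :
    ctr y (alt f) = f y - alt ((ctr y).comp f) := by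
  ext v
  rw [L1_ctr, ContinuousAlternatingMap.sub_apply,
    ContinuousAlternatingMap.alternatizeUncurryFin_apply,
    ContinuousAlternatingMap.alternatizeUncurryFin_apply, Fin.sum_univ_succ, sub_eq_add_neg,
    ← Finset.sum_neg_distrib]
  congr 1
  · show (-1 : ℤ) ^ (0 : ℕ) • f y v = f y v
    rw [pow_zero, one_smul]
  · refine Finset.sum_congr rfl fun j _ => ?_
    rw [L1_rem]
    show (-1 : ℤ) ^ (j.val + 1) • f (v j) (Matrix.vecCons y (j.removeNth v)) =
      -((-1 : ℤ) ^ j.val • f (v j) (Matrix.vecCons y (j.removeNth v)))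
    rw [pow_succ, mul_neg_one, neg_smul]

/-- Degree zero: `i_y (alt f) = f y` for `f : W → Lam W 0`. -/
theorem ctr_alt_zero (f : W →L[ℝ] Lam W 0) (y : W) : ctr y (alt f) = f y := by
  ext v
  rw [L1_ctr, ContinuousAlternatingMap.alternatizeUncurryFin_apply, Fin.sum_univ_one]
  show (-1 : ℤ) ^ (0 : ℕ) • f y _ = f y v
  rw [pow_zero, one_smul]
  congr 1

theorem L1_tau (T : Ty W) {q : ℕ} (g : W →L[ℝ] Lam W (q + 1)) (y : W) :
    tauG T.lam T.mu T.J ((ctr y).comp g) = (ctr y).comp (tauG T.lam T.mu T.J g) := by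
  ext x v
  rfl

theorem L1_pi (T : Ty W) {q : ℕ} (g : W →L[ℝ] Lam W q) (hg : ∀ v, T.pi q (g v) = g v) :
    ((T.pi q).restrictScalars ℝ).comp g = g := by
  ext1 v
  exact hg v

/-- JOB L1.  Cartan formula of type `T`: for `g` with values in the `pi`-invariant forms,
`pi (alt (i_y ∘ g)) + i_y (pi (alt g)) = tau g y`.
By `key`, `pi (alt g) = alt (tau (pi ∘ g)) = alt (tau g)`, so `i_y (pi (alt g)) = tau g y - alt (i_y ∘ tau g)`
by `ctr_alt`; the forms `i_y (g v)` are `pi`-invariant by `contr`, so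
`pi (alt (i_y ∘ g)) = alt (tau (i_y ∘ g))` and `tau (i_y ∘ g) = i_y ∘ tau g` because `i_y` is complex linear. -/
theorem cartan (T : Ty W) {q : ℕ} (g : W →L[ℝ] Lam W (q + 1))
    (hg : ∀ v, T.pi (q + 1) (g v) = g v) (y : W) :
    T.pi (q + 1) (alt ((ctr y).comp g)) + ctr y (T.pi (q + 2) (alt g))
      = tauG T.lam T.mu T.J g y := by
  have h1 : T.pi (q + 2) (alt g) = alt (tauG T.lam T.mu T.J g) := by
    rw [T.key, L1_pi T g hg]
  have h2 : T.pi (q + 1) (alt ((ctr y).comp g)) = alt ((ctr y).comp (tauG T.lam T.mu T.J g)) := by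
    rw [T.key, L1_pi T ((ctr y).comp g) (fun v => T.contr q (g v) y (hg v)), L1_tau]
  rw [h1, h2, ctr_alt]
  abel

theorem cartan_zero (T : Ty W) (g : W →L[ℝ] Lam W 0)
    (hg : ∀ v, T.pi 0 (g v) = g v) (y : W) :
    ctr y (T.pi 1 (alt g)) = tauG T.lam T.mu T.J g y := by
  have h1 : T.pi 1 (alt g) = alt (tauG T.lam T.mu T.J g) := by
    rw [T.key, L1_pi T g hg]
  rw [h1, ctr_alt_zero]

/-- `pi (alt (pi ∘ f)) = pi (alt f)` (from `key` and `pi_pi`). -/
theorem pi_alt_pi (T : Ty W) {q : ℕ} (f : W →L[ℝ] Lam W q) :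
    T.pi (q + 1) (alt (((T.pi q).restrictScalars ℝ).comp f)) = T.pi (q + 1) (alt f) := by
  rw [T.key, T.key, L1_pi T (((T.pi q).restrictScalars ℝ).comp f) (fun v => T.pi_pi q (f v))]

end

end FB
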