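import Pool.Agent.H.MP_fb873c_an.L0

/-! Part L2: averaging operators. -/

namespace FB

open MeasureTheory
open scoped Topology ContDiff

section

variable {W : Type} [NormedAddCommGroup W] [InnerProductSpace ℝ W] [MeasurableSpace W]
  [BorelSpace W] [FiniteDimensional ℝ W]
variable {E F G : Type} [NormedAddCommGroup E] [NormedSpace ℝ E]
    [NormedAddCommGroup F] [NormedSpace ℝ F] [CompleteSpace F]
    [NormedAddCommGroup G] [NormedSpace ℝ G] [CompleteSpace G]

omit [MeasurableSpace W] [BorelSpace W] in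
theorem L2a_compact (ε : ℝ) : IsCompact (Dom W ε) := by
  have : ProperSpace W := FiniteDimensional.proper_real W
  exact isCompact_Icc.prod (isCompact_closedBall 0 ε)

omit [MeasurableSpace W] [BorelSpace W] [FiniteDimensional ℝ W] [CompleteSpace F] in
theorem L2a_cont {w : ℝ × W → W} (hw : Continuous w) {L : ℝ × W → E →L[ℝ] F}
    (hL : Continuous L) {u : W → E} (hu : Continuous u) :
    Continuous (fun p : W × (ℝ × W) => L p.2 (u (p.1 - w p.2))) :=
  (hL.comp continuous_snd).clm_apply
    (hu.comp (continuous_fst.sub (hw.comp continuous_snd)))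

/-- JOB L2a.  The domain is compact; the integrand is continuous, hence integrable on it. -/
theorem avg_integrable (ε : ℝ) {w : ℝ × W → W} (hw : Continuous w) {L : ℝ × W → E →L[ℝ] F}
    (hL : Continuous L) {u : W → E} (hu : Continuous u) (x : W) :
    IntegrableOn (fun θ => L θ (u (x - w θ))) (Dom W ε) := by
  have h : Continuous (fun θ => L θ (u (x - w θ))) :=
    hL.clm_apply (hu.comp (continuous_const.sub hw))
  exact h.continuousOn.integrableOn_compact (L2a_compact ε)

theorem avg_continuous (ε : ℝ) {w : ℝ × W → W} (hw : Continuous w) {L : ℝ × W → E →L[ℝ] F}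
    (hL : Continuous L) {u : W → E} (hu : Continuous u) : Continuous (Avg ε w L u) := by
  have : ProperSpace W := FiniteDimensional.proper_real W
  exact continuous_parametric_integral_of_continuous (L2a_cont hw hL hu) (L2a_compact ε)

theorem avg_add (ε : ℝ) {w : ℝ × W → W} (hw : Continuous w) {L : ℝ × W → E →L[ℝ] F}
    (hL : Continuous L) {u u' : W → E} (hu : Continuous u) (hu' : Continuous u') (x : W) :
    Avg ε w L (fun z => u z + u' z) x = Avg ε w L u x + Avg ε w L u' x := by
  have h := integral_add (avg_integrable ε hw hL hu x) (avg_integrable ε hw hL hu' x)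
  rw [Avg, Avg, Avg, ← h]
  simp only [map_add]

/-- A bounded operator commutes with the averaging. -/
theorem avg_comp (ε : ℝ) {w : ℝ × W → W} (hw : Continuous w) {L : ℝ × W → E →L[ℝ] F}
    (hL : Continuous L) {u : W → E} (hu : Continuous u) (M : F →L[ℝ] G) (x : W) :
    M (Avg ε w L u x) = Avg ε w (fun θ => M.comp (L θ)) u x := by
  have h := M.integral_comp_comm (avg_integrable ε hw hL hu x)
  rw [Avg, Avg, ← h]
  rfl

/-- Norm bound. -/
theorem avg_norm_le (ε : ℝ) {w : ℝ × W → W} (hw : Continuous w) {L : ℝ × W → E →L[ℝ] F}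
    (hL : Continuous L) : ∃ M : ℝ, 0 ≤ M ∧ ∀ (u : W → E) (C : ℝ), 0 ≤ C → (∀ z, ‖u z‖ ≤ C) →
      ∀ x, ‖Avg ε w L u x‖ ≤ M * C := by
  have hi : IntegrableOn (fun θ => ‖L θ‖) (Dom W ε) :=
    hL.norm.continuousOn.integrableOn_compact (L2a_compact ε)
  refine ⟨∫ θ in Dom W ε, ‖L θ‖, integral_nonneg fun θ => norm_nonneg _, ?_⟩
  intro u C _ hu x
  rw [← integral_mul_const]
  refine norm_integral_le_of_norm_le (hi.mul_const C) ?_
  refine Filter.Eventually.of_forall fun θ => ?_
  exact ((L θ).le_opNorm _).trans (mul_le_mul_of_nonneg_left (hu _) (norm_nonneg _))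

/-- Reach: only the values of `u` on the closed `ε`-ball matter when `‖w‖ ≤ ε` on the domain. -/
theorem avg_congr (ε : ℝ) {w : ℝ × W → W} (hwε : ∀ θ ∈ Dom W ε, ‖w θ‖ ≤ ε)
    {L : ℝ × W → E →L[ℝ] F} {u u' : W → E} (x : W)
    (h : ∀ z, ‖z - x‖ ≤ ε → u z = u' z) : Avg ε w L u x = Avg ε w L u' x := by
  refine setIntegral_congr_fun (L2a_compact ε).measurableSet fun θ hθ => ?_
  have h1 : ‖x - w θ - x‖ ≤ ε := by
    rw [sub_sub_cancel_left, norm_neg]
    exact hwε θ hθ
  show L θ (u (x - w θ)) = L θ (u' (x - w θ))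
  rw [h _ h1]

end

end FB
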