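import Pool.Agent.H.MP_fb873c_an.L6

/-! Part L6b: Dolbeault type -/

namespace FB

open MeasureTheory
open scoped Topology ContDiff

/-- `v` with `i v_j` in the slots `j ∈ s`. -/
noncomputable def L6b_vs {m q : ℕ} (s : Finset (Fin q)) (v : Fin q → Ec m) : Fin q → Ec m :=
  fun i => if i ∈ s then Complex.I • v i else v i

theorem L6b_oq {m q : ℕ} (α : Lam (Ec m) q) (v : Fin q → Ec m) :
    oq q α v = ∑ s : Finset (Fin q), Complex.I ^ s.card * α (L6b_vs s v) := rfl

theorem L6b_split {q : ℕ} (j : Fin q) (F : Finset (Fin q) → ℂ) :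
    ∑ s : Finset (Fin q), F s =
      ∑ t ∈ ((Finset.univ : Finset (Fin q)).erase j).powerset, (F t + F (insert j t)) := by
  have h : (Finset.univ : Finset (Finset (Fin q))) =
      (insert j ((Finset.univ : Finset (Fin q)).erase j)).powerset := by
    rw [Finset.insert_erase (Finset.mem_univ j), Finset.powerset_univ]
  rw [h, Finset.sum_powerset_insert (Finset.notMem_erase j _), ← Finset.sum_add_distrib]

theorem L6b_vs_upd {m q : ℕ} (s : Finset (Fin q)) (v : Fin q → Ec m) (j : Fin q) (y : Ec m) :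
    L6b_vs s (Function.update v j y) =
      Function.update (L6b_vs s v) j (if j ∈ s then Complex.I • y else y) := by
  funext k
  unfold L6b_vs
  by_cases h : k = j
  · subst h
    simp
  · simp [Function.update_of_ne h]

theorem L6b_vs_insert {m q : ℕ} (s : Finset (Fin q)) (v : Fin q → Ec m) {j : Fin q}
    (hj : j ∉ s) : L6b_vs (insert j s) v = Function.update (L6b_vs s v) j (Complex.I • v j) := by
  funext k
  unfold L6b_vs
  by_cases h : k = j
  · subst h
    simp
  · simp [Function.update_of_ne h, h]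

theorem L6b_vs_self {m q : ℕ} (s : Finset (Fin q)) (v : Fin q → Ec m) {j : Fin q}
    (hj : j ∉ s) : Function.update (L6b_vs s v) j (v j) = L6b_vs s v := by
  funext k
  by_cases h : k = j
  · subst h
    unfold L6b_vs
    simp [hj]
  · rw [Function.update_of_ne h]

theorem L6b_II {m : ℕ} (x : Ec m) : Complex.I • Complex.I • x = (-1 : ℝ) • x := by
  rw [smul_smul, Complex.I_mul_I, neg_smul, one_smul, neg_smul, one_smul]

theorem L6b_conj {m q : ℕ} (α : Lam (Ec m) q) (v : Fin q → Ec m) (j : Fin q) (x : Ec m) :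
    oq q α (Function.update v j (Complex.I • x)) =
      -Complex.I * oq q α (Function.update v j x) := by
  rw [L6b_oq, L6b_oq, L6b_split j, L6b_split j, Finset.mul_sum]
  refine Finset.sum_congr rfl fun t ht => ?_
  have hj : j ∉ t := by
    intro h
    exact Finset.notMem_erase j _ (Finset.mem_powerset.1 ht h)
  rw [L6b_vs_upd, L6b_vs_upd, L6b_vs_upd, L6b_vs_upd, if_neg hj, if_pos (Finset.mem_insert_self j t),
    L6b_vs_insert t v hj, Function.update_idem, L6b_II, α.map_update_smul, Finset.card_insert_of_notMem hj]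
  rw [if_neg hj, if_pos (Finset.mem_insert_self j t), Function.update_idem, pow_succ]
  have hI := Complex.I_mul_I
  rw [neg_smul, one_smul]
  linear_combination (Complex.I ^ t.card * α (Function.update (L6b_vs t v) j (Complex.I • x))) * hI

theorem L6b_vs_val {m q : ℕ} (α : Lam (Ec m) q)
    (h : ∀ (v : Fin q → Ec m) (j : Fin q) (x : Ec m), α (Function.update v j (Complex.I • x)) =
      -Complex.I * α (Function.update v j x)) (v : Fin q → Ec m) (s : Finset (Fin q)) :
    α (L6b_vs s v) = (-Complex.I) ^ s.card * α v := by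
  induction s using Finset.induction_on with
  | empty =>
    have : L6b_vs ∅ v = v := by
      funext k
      unfold L6b_vs
      simp
    rw [this, Finset.card_empty, pow_zero, one_mul]
  | insert j s hj ih =>
    rw [L6b_vs_insert s v hj, h, L6b_vs_self s v hj, ih, Finset.card_insert_of_notMem hj, pow_succ]
    ring

theorem L6b_id {m q : ℕ} (α : Lam (Ec m) q)
    (h : ∀ (v : Fin q → Ec m) (j : Fin q) (x : Ec m), α (Function.update v j (Complex.I • x)) =
      -Complex.I * α (Function.update v j x)) (v : Fin q → Ec m) :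
    ((2 : ℂ) ^ q)⁻¹ * oq q α v = α v := by
  rw [L6b_oq]
  have h1 : ∀ s ∈ (Finset.univ : Finset (Finset (Fin q))),
      Complex.I ^ s.card * α (L6b_vs s v) = α v := by
    intro s _
    rw [L6b_vs_val α h, ← mul_assoc, ← mul_pow, mul_neg, Complex.I_mul_I, neg_neg, one_pow, one_mul]
  rw [Finset.sum_congr rfl h1, Finset.sum_const, Finset.card_univ, Fintype.card_finset,
    Fintype.card_fin, nsmul_eq_mul]
  push_cast
  rw [← mul_assoc, inv_mul_cancel₀ (pow_ne_zero _ two_ne_zero), one_mul]

theorem L6b_alt {m q : ℕ} (α : Lam (Ec m) q) (v : Fin q → Ec m) (i j : Fin q) (hv : v i = v j)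
    (hij : i ≠ j) : oq q α v = 0 := by
  rw [L6b_oq]
  let e : Finset (Fin q) ≃ Finset (Fin q) := Equiv.finsetCongr (Equiv.swap i j)
  have hvs : ∀ k, v (Equiv.swap i j k) = v k := by
    intro k
    rcases eq_or_ne k i with rfl | h1
    · rw [Equiv.swap_apply_left, hv]
    · rcases eq_or_ne k j with rfl | h2
      · rw [Equiv.swap_apply_right, hv]
      · rw [Equiv.swap_apply_of_ne_of_ne h1 h2]
  have h1 : ∀ s : Finset (Fin q), Complex.I ^ (e s).card * α (L6b_vs (e s) v) =
      -(Complex.I ^ s.card * α (L6b_vs s v)) := by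
    intro s
    have hc : (e s).card = s.card := Finset.card_map _
    have h2 : L6b_vs (e s) v = L6b_vs s v ∘ Equiv.swap i j := by
      funext k
      have h3 : k ∈ e s ↔ Equiv.swap i j k ∈ s := by
        constructor
        · intro hk
          obtain ⟨k', hk', rfl⟩ := Finset.mem_map.1 hk
          simpa using hk'
        · intro hk
          exact Finset.mem_map.2 ⟨_, hk, by simp⟩
      unfold L6b_vs
      simp only [Function.comp_apply, hvs, h3]
    have h3 : α (L6b_vs s v ∘ Equiv.swap i j) = -α (L6b_vs s v) :=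
      α.toAlternatingMap.map_swap _ hij
    rw [hc, h2, h3, mul_neg]
  have h2 : ∑ s : Finset (Fin q), Complex.I ^ s.card * α (L6b_vs s v) =
      -∑ s : Finset (Fin q), Complex.I ^ s.card * α (L6b_vs s v) := by
    rw [← Finset.sum_neg_distrib, ← Equiv.sum_comp e]
    exact Finset.sum_congr rfl fun s _ => h1 s
  exact self_eq_neg.1 h2

/-- The projection as a continuous multilinear map. -/
noncomputable def L6b_ml {m : ℕ} (q : ℕ) (α : Lam (Ec m) q) :
    ContinuousMultilinearMap ℝ (fun _ : Fin q => Ec m) ℂ :=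
  ((2 : ℂ) ^ q)⁻¹ • ∑ s : Finset (Fin q), (Complex.I ^ s.card) •
    α.toContinuousMultilinearMap.compContinuousLinearMap
      (fun i => if i ∈ s then JE m else ContinuousLinearMap.id ℝ (Ec m))

theorem L6b_ml_apply {m q : ℕ} (α : Lam (Ec m) q) (v : Fin q → Ec m) :
    L6b_ml q α v = ((2 : ℂ) ^ q)⁻¹ * oq q α v := by
  unfold L6b_ml
  rw [ContinuousMultilinearMap.smul_apply, ContinuousMultilinearMap.sum_apply, smul_eq_mul, L6b_oq]
  congr 1
  refine Finset.sum_congr rfl fun s _ => ?_
  rw [ContinuousMultilinearMap.smul_apply, smul_eq_mul,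
    ContinuousMultilinearMap.compContinuousLinearMap_apply]
  congr 1
  show α _ = α _
  congr 1
  funext i
  unfold L6b_vs
  split_ifs
  · rfl
  · rfl

/-- The projection as a continuous alternating map. -/
noncomputable def L6b_am {m : ℕ} (q : ℕ) (α : Lam (Ec m) q) : Lam (Ec m) q :=
  { L6b_ml q α with
    map_eq_zero_of_eq' := by
      intro v i j hv hij
      show L6b_ml q α v = 0
      rw [L6b_ml_apply, L6b_alt α v i j hv hij, mul_zero] }

theorem L6b_am_apply {m q : ℕ} (α : Lam (Ec m) q) (v : Fin q → Ec m) :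
    L6b_am q α v = ((2 : ℂ) ^ q)⁻¹ * oq q α v := L6b_ml_apply α v

theorem L6b_vs_norm {m q : ℕ} (s : Finset (Fin q)) (v : Fin q → Ec m) (i : Fin q) :
    ‖L6b_vs s v i‖ = ‖v i‖ := by
  unfold L6b_vs
  split_ifs
  · rw [norm_smul, Complex.norm_I, one_mul]
  · rfl

theorem L6b_bound {m q : ℕ} (α : Lam (Ec m) q) : ‖L6b_am q α‖ ≤ 1 * ‖α‖ := by
  rw [one_mul]
  refine ContinuousAlternatingMap.opNorm_le_bound _ (norm_nonneg _) fun v => ?_
  rw [L6b_am_apply, L6b_oq, norm_mul, norm_inv, norm_pow, RCLike.norm_ofNat]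
  have h1 : ‖∑ s : Finset (Fin q), Complex.I ^ s.card * α (L6b_vs s v)‖ ≤
      (2 : ℝ) ^ q * (‖α‖ * ∏ i, ‖v i‖) := by
    refine (norm_sum_le _ _).trans ?_
    have h2 : ∀ s ∈ (Finset.univ : Finset (Finset (Fin q))),
        ‖Complex.I ^ s.card * α (L6b_vs s v)‖ ≤ ‖α‖ * ∏ i, ‖v i‖ := by
      intro s _
      rw [norm_mul, norm_pow, Complex.norm_I, one_pow, one_mul]
      refine (α.le_opNorm _).trans (le_of_eq ?_)
      simp only [L6b_vs_norm]
    refine (Finset.sum_le_sum h2).trans (le_of_eq ?_)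
    rw [Finset.sum_const, Finset.card_univ, Fintype.card_finset, Fintype.card_fin, nsmul_eq_mul]
    push_cast
    ring
  calc ((2 : ℝ) ^ q)⁻¹ * ‖∑ s : Finset (Fin q), Complex.I ^ s.card * α (L6b_vs s v)‖ ≤
      ((2 : ℝ) ^ q)⁻¹ * ((2 : ℝ) ^ q * (‖α‖ * ∏ i, ‖v i‖)) :=
        mul_le_mul_of_nonneg_left h1 (by positivity)
    _ = ‖α‖ * ∏ i, ‖v i‖ := by
        rw [← mul_assoc, inv_mul_cancel₀ (by positivity), one_mul]

theorem L6b_oq_add {m q : ℕ} (α β : Lam (Ec m) q) (v : Fin q → Ec m) :
    oq q (α + β) v = oq q α v + oq q β v := by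
  rw [L6b_oq, L6b_oq, L6b_oq, ← Finset.sum_add_distrib]
  refine Finset.sum_congr rfl fun s _ => ?_
  rw [ContinuousAlternatingMap.add_apply, mul_add]

theorem L6b_oq_smul {m q : ℕ} (c : ℂ) (α : Lam (Ec m) q) (v : Fin q → Ec m) :
    oq q (c • α) v = c * oq q α v := by
  rw [L6b_oq, L6b_oq, Finset.mul_sum]
  refine Finset.sum_congr rfl fun s _ => ?_
  rw [ContinuousAlternatingMap.smul_apply, smul_eq_mul]
  ring

/-- The projection. -/
noncomputable def L6b_pi {m : ℕ} (q : ℕ) : Lam (Ec m) q →L[ℂ] Lam (Ec m) q :=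
  LinearMap.mkContinuous
    { toFun := L6b_am q
      map_add' := by
        intro α β
        apply ContinuousAlternatingMap.ext
        intro v
        rw [ContinuousAlternatingMap.add_apply, L6b_am_apply, L6b_am_apply, L6b_am_apply,
          L6b_oq_add, mul_add]
      map_smul' := by
        intro c α
        apply ContinuousAlternatingMap.ext
        intro v
        rw [RingHom.id_apply, ContinuousAlternatingMap.smul_apply, L6b_am_apply, L6b_am_apply,
          L6b_oq_smul, smul_eq_mul]
        ring } 1 L6b_bound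

theorem L6b_pi_apply {m q : ℕ} (α : Lam (Ec m) q) (v : Fin q → Ec m) :
    L6b_pi q α v = ((2 : ℂ) ^ q)⁻¹ * oq q α v := L6b_am_apply α v

theorem L6b_pi_conj {m q : ℕ} (α : Lam (Ec m) q) (v : Fin q → Ec m) (j : Fin q) (x : Ec m) :
    L6b_pi q α (Function.update v j (Complex.I • x)) =
      -Complex.I * L6b_pi q α (Function.update v j x) := by
  rw [L6b_pi_apply, L6b_pi_apply, L6b_conj]
  ring

theorem L6b_pi_id {m q : ℕ} (α : Lam (Ec m) q)
    (h : ∀ (v : Fin q → Ec m) (j : Fin q) (x : Ec m), α (Function.update v j (Complex.I • x)) =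
      -Complex.I * α (Function.update v j x)) : L6b_pi q α = α := by
  apply ContinuousAlternatingMap.ext
  intro v
  rw [L6b_pi_apply, L6b_id α h]

theorem L6b_split2 {q : ℕ} (i : Fin (q + 1)) (F : Finset (Fin (q + 1)) → ℂ) :
    ∑ s : Finset (Fin (q + 1)), F s =
      ∑ t : Finset (Fin q), (F (t.map i.succAboveEmb) + F (insert i (t.map i.succAboveEmb))) := by
  rw [L6b_split i]
  symm
  refine Finset.sum_bij (fun t _ => t.map i.succAboveEmb) ?_ ?_ ?_ ?_
  · intro t _
    rw [Finset.mem_powerset]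
    intro k hk
    obtain ⟨k', -, rfl⟩ := Finset.mem_map.1 hk
    rw [Finset.mem_erase]
    exact ⟨Fin.succAbove_ne i k', Finset.mem_univ _⟩
  · intro t _ t' _ h
    exact Finset.map_injective _ h
  · intro s hs
    rw [Finset.mem_powerset] at hs
    have h1 : s ⊆ Finset.univ.map i.succAboveEmb := by
      intro k hk
      have h2 := (Finset.mem_erase.1 (hs hk)).1
      obtain ⟨k', rfl⟩ := Fin.exists_succAbove_eq h2
      exact Finset.mem_map.2 ⟨k', Finset.mem_univ _, rfl⟩
    obtain ⟨t, -, rfl⟩ := Finset.subset_map_iff.1 h1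
    exact ⟨t, Finset.mem_univ _, rfl⟩
  · intro t _
    rfl

theorem L6b_notMem {q : ℕ} (i : Fin (q + 1)) (t : Finset (Fin q)) :
    i ∉ t.map i.succAboveEmb := by
  intro h
  obtain ⟨k, -, hk⟩ := Finset.mem_map.1 h
  exact Fin.succAbove_ne i k hk

theorem L6b_rem1 {m q : ℕ} (i : Fin (q + 1)) (t : Finset (Fin q)) (v : Fin (q + 1) → Ec m) :
    i.removeNth (L6b_vs (t.map i.succAboveEmb) v) = L6b_vs t (i.removeNth v) := by
  funext k
  have h1 : i.succAbove k ∈ t.map i.succAboveEmb ↔ k ∈ t := by
    constructor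
    · intro h
      obtain ⟨k', hk', h2⟩ := Finset.mem_map.1 h
      rwa [← Fin.succAbove_right_injective h2]
    · intro h
      exact Finset.mem_map.2 ⟨k, h, rfl⟩
  unfold L6b_vs Fin.removeNth
  simp only [h1]

theorem L6b_rem2 {m q : ℕ} (i : Fin (q + 1)) (t : Finset (Fin q)) (v : Fin (q + 1) → Ec m) :
    i.removeNth (L6b_vs (insert i (t.map i.succAboveEmb)) v) = L6b_vs t (i.removeNth v) := by
  rw [← L6b_rem1, L6b_vs_insert _ v (L6b_notMem i t)]
  funext k
  show Function.update _ i _ (i.succAbove k) = _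
  rw [Function.update_of_ne (Fin.succAbove_ne i k)]
  rfl

theorem L6b_at1 {m q : ℕ} (i : Fin (q + 1)) (t : Finset (Fin q)) (v : Fin (q + 1) → Ec m) :
    L6b_vs (t.map i.succAboveEmb) v i = v i := by
  unfold L6b_vs
  rw [if_neg (L6b_notMem i t)]

theorem L6b_at2 {m q : ℕ} (i : Fin (q + 1)) (t : Finset (Fin q)) (v : Fin (q + 1) → Ec m) :
    L6b_vs (insert i (t.map i.succAboveEmb)) v i = Complex.I • v i := by
  unfold L6b_vs
  rw [if_pos (Finset.mem_insert_self _ _)]

theorem L6b_key {m q : ℕ} (f : Ec m →L[ℝ] Lam (Ec m) q) :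
    L6b_pi (q + 1) (alt f) =
      alt (tauG (1 / 2) (1 / 2) (JE m) (((L6b_pi q).restrictScalars ℝ).comp f)) := by
  apply ContinuousAlternatingMap.ext
  intro v
  rw [L6b_pi_apply, L6b_oq, ContinuousAlternatingMap.alternatizeUncurryFin_apply]
  simp only [ContinuousAlternatingMap.alternatizeUncurryFin_apply, Finset.mul_sum]
  rw [Finset.sum_comm]
  refine Finset.sum_congr rfl fun i _ => ?_
  rw [L6b_split2 i]
  have h1 : tauG (1 / 2) (1 / 2) (JE m) (((L6b_pi q).restrictScalars ℝ).comp f) (v i)
      (i.removeNth v) = (1 / 2 : ℂ) * (((2 : ℂ) ^ q)⁻¹ * oq q (f (v i)) (i.removeNth v)) +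
        (1 / 2 : ℂ) * Complex.I *
          (((2 : ℂ) ^ q)⁻¹ * oq q (f (Complex.I • v i)) (i.removeNth v)) := by
    rw [← L6b_pi_apply, ← L6b_pi_apply]
    unfold tauG
    rw [ContinuousLinearMap.add_apply, ContinuousAlternatingMap.add_apply]
    congr 1
    · show ((1 / 2 : ℝ) • L6b_pi q (f (v i))) (i.removeNth v) = _
      rw [ContinuousAlternatingMap.smul_apply, Complex.real_smul]
      push_cast
      rfl
    · show ((((1 / 2 : ℝ) : ℂ) * Complex.I) • L6b_pi q (f (Complex.I • v i))) (i.removeNth v) = _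
      rw [ContinuousAlternatingMap.smul_apply, smul_eq_mul]
      push_cast
      rfl
  rw [h1, L6b_oq, L6b_oq]
  simp only [L6b_rem1, L6b_rem2, L6b_at1, L6b_at2, Finset.card_map,
    Finset.card_insert_of_notMem (L6b_notMem i _)]
  rw [Finset.mul_sum, Finset.mul_sum, Finset.mul_sum, Finset.mul_sum, ← Finset.sum_add_distrib,
    Finset.smul_sum]
  refine Finset.sum_congr rfl fun t _ => ?_
  rw [pow_succ (2 : ℂ), mul_inv, pow_succ Complex.I]
  simp only [zsmul_eq_mul, Int.cast_pow, Int.cast_neg, Int.cast_one]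
  ring

/-- JOB L6b.  The Dolbeault type.  `pi q α v = 2^{-q} ∑_s i^{|s|} α(v_s)` is alternating (if `v_i = v_j`
then exchanging `i` and `j` in `s` changes the sign when exactly one of them lies in `s`, and terms with
both or none vanish) and multilinear; it is conjugate-linear in every slot, and the identity on forms which
are, hence idempotent.
`key`: `pi (alt f) v = 2^{-(q+1)} ∑_i (-1)^i ∑_s i^{|s|} f((v_s)_i)(v_s without i)`; split the sum over `s`
according to `i ∈ s`: `= ∑_i (-1)^i (1/2) [ (pi (f v_i))(v̂_i) + i (pi (f (J v_i)))(v̂_i) ]`. -/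
theorem exists_dolbTy (m : ℕ) :
    ∃ T : Ty (Ec m), T.lam = 1 / 2 ∧ T.mu = 1 / 2 ∧ T.J = JE m ∧
      T.good = {L | ∀ x : Ec m, L (Complex.I • x) = Complex.I • L x} ∧
      ∀ (q : ℕ) (α : Lam (Ec m) q) (v : Fin q → Ec m), T.pi q α v = ((2 : ℂ) ^ q)⁻¹ * oq q α v := by
  refine ⟨{ lam := 1 / 2, mu := 1 / 2, J := JE m,
            good := {L | ∀ x : Ec m, L (Complex.I • x) = Complex.I • L x},
            pi := fun q => L6b_pi q,
            lam_pos := by norm_num
            rot := Or.inr ?_
            pi_pi := fun q α => L6b_pi_id _ (L6b_pi_conj α)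
            nat := ?_
            key := fun q f => L6b_key f
            contr := ?_ }, rfl, rfl, rfl, rfl, fun q α v => L6b_pi_apply α v⟩
  · intro t
    have hu : ‖Complex.exp (t * Complex.I)‖ = 1 := Complex.norm_exp_ofReal_mul_I t
    let c : Metric.sphere (0 : ℂ) 1 := ⟨Complex.exp (t * Complex.I), by simp [hu]⟩
    refine ⟨LinearIsometryEquiv.ofSurjective
      { toFun := fun x => Complex.exp (t * Complex.I) • x
        map_add' := fun x y => smul_add _ _ _
        map_smul' := fun r x => smul_comm _ _ _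
        norm_map' := fun x => by
          show ‖Complex.exp (t * Complex.I) • x‖ = ‖x‖
          rw [norm_smul, hu, one_mul] } ?_, ?_⟩
    · intro y
      refine ⟨(Complex.exp (t * Complex.I))⁻¹ • y, ?_⟩
      show Complex.exp (t * Complex.I) • (Complex.exp (t * Complex.I))⁻¹ • y = y
      rw [smul_smul, mul_inv_cancel₀ (Complex.exp_ne_zero _), one_smul]
    · intro x
      show Complex.exp (t * Complex.I) • x = Real.cos t • x + Real.sin t • (Complex.I • x)
      rw [Complex.exp_mul_I, add_smul, ← Complex.ofReal_cos, ← Complex.ofReal_sin, mul_smul]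
      rfl
  · intro q L hL α
    apply ContinuousAlternatingMap.ext
    intro v
    rw [ContinuousAlternatingMap.compContinuousLinearMap_apply, L6b_pi_apply, L6b_pi_apply]
    congr 1
    rw [L6b_oq, L6b_oq]
    refine Finset.sum_congr rfl fun s _ => ?_
    rw [ContinuousAlternatingMap.compContinuousLinearMap_apply]
    congr 2
    funext i
    unfold L6b_vs
    simp only [Function.comp_apply]
    split_ifs
    · exact hL _
    · rfl
  · intro q α y h
    apply L6b_pi_id
    intro v j x
    rw [ctr_apply, ContinuousAlternatingMap.curryLeft_apply_apply,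
      ContinuousAlternatingMap.curryLeft_apply_apply]
    have h1 := L6b_pi_conj α (Matrix.vecCons y v) j.succ x
    rw [h] at h1
    have h2 : ∀ z : Ec m, Function.update (Matrix.vecCons y v) j.succ z =
        Matrix.vecCons y (Function.update v j z) := fun z => (Fin.cons_update _ _ _ _).symm
    rw [h2, h2] at h1
    exact h1

end FB
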