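import Pool.Agent.H.MP_fb873c_an.S2

/-! # Part S3: Betti and Hodge numbers of manifolds modelled on a normed space `W` -/

namespace FB

open scoped Topology ContDiff Manifold

universe u

/-- The dimension of `A / (A ∩ B)`, as the image of `A` in the quotient by `B`. -/
noncomputable def qdim {E : Type u} [AddCommGroup E] [Module ℂ E] (A B : Submodule ℂ E) : ℕ :=
  Module.finrank ℂ (A.map B.mkQ)

section derham

variable (W : Type) [NormedAddCommGroup W] [NormedSpace ℝ W]
variable (X : Type u) [TopologicalSpace X] [ChartedSpace W X]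

/-- Closed complex valued smooth `q`-forms. -/
def Zcl (q : ℕ) : Submodule ℂ (X → Lam W q) where
  carrier := {α | SmoothForm α ∧ ∀ x, dform α x = 0}
  add_mem' {a b} ha hb := ⟨S2_add ha.1 hb.1, fun x => by
    rw [S2_dform_add ha.1 hb.1, ha.2, hb.2, add_zero]⟩
  zero_mem' := ⟨S2_zero, fun x => S2_dform_zero x⟩
  smul_mem' c a ha := ⟨S2_smul c ha.1, fun x => by
    rw [S2_dform_smul c ha.1, ha.2]
    ext v
    exact mul_zero c⟩

/-- Exact forms. -/
noncomputable def Bex : ∀ q : ℕ, Submodule ℂ (X → Lam W q)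
  | 0 => ⊥
  | q + 1 =>
    { carrier := {γ | ∃ β : X → Lam W q, SmoothForm β ∧ ∀ x, γ x = dform β x}
      add_mem' := by
        rintro a b ⟨β, h1, h2⟩ ⟨β', h3, h4⟩
        refine ⟨β + β', S2_add h1 h3, fun x => ?_⟩
        rw [S2_dform_add h1 h3, Pi.add_apply, h2, h4]
      zero_mem' := ⟨0, S2_zero, fun x => (S2_dform_zero x).symm⟩
      smul_mem' := by
        rintro c a ⟨β, h1, h2⟩
        refine ⟨c • β, S2_smul c h1, fun x => ?_⟩
        rw [S2_dform_smul c h1, Pi.smul_apply, h2] }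

/-- The Betti numbers: dimension of the de Rham cohomology (closed modulo exact forms) with complex
coefficients. -/
noncomputable def bnum (q : ℕ) : ℕ :=
  qdim (Zcl W X q) (Bex W X q)

/-- The Euler characteristic of the `n`-dimensional manifold `X`. -/
noncomputable def chi (n : ℕ) : ℤ :=
  ∑ q ∈ Finset.range (n + 1), (-1 : ℤ) ^ q * (bnum W X q : ℤ)

end derham

section dolbeault

variable {V : Type} [NormedAddCommGroup V] [NormedSpace ℝ V] [NormedSpace ℂ V]

/-- `α` is of type `(0,q)`: conjugate-linear in every slot. -/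
def Typ0 {q : ℕ} (α : Lam V q) : Prop :=
  ∀ (v : Fin q → V) (j : Fin q) (x : V),
    α (Function.update v j (Complex.I • x)) = -Complex.I * α (Function.update v j x)

/-- `2^q` times the value of the `(0,q)`-part of `α` at `v`:
`∑_{s ⊆ {1..q}} i^{|s|} α(v with i v_j in the slots j ∈ s)`. -/
noncomputable def part0 (q : ℕ) (α : Lam V q) (v : Fin q → V) : ℂ :=
  ∑ s : Finset (Fin q), Complex.I ^ s.card *
    α (fun i => if i ∈ s then Complex.I • v i else v i)

theorem Typ0.add {q : ℕ} {α β : Lam V q} (h : Typ0 α) (h' : Typ0 β) : Typ0 (α + β) := fun v j x => by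
  rw [ContinuousAlternatingMap.add_apply, ContinuousAlternatingMap.add_apply, h v j x, h' v j x, mul_add]

theorem Typ0.smul {q : ℕ} {α : Lam V q} (c : ℂ) (h : Typ0 α) : Typ0 (c • α) := fun v j x => by
  rw [ContinuousAlternatingMap.smul_apply, ContinuousAlternatingMap.smul_apply, h v j x, smul_eq_mul,
    smul_eq_mul]
  ring

theorem typ0_zero {q : ℕ} : Typ0 (0 : Lam V q) := fun _ _ _ => (mul_zero (-Complex.I)).symm

theorem part0_add {q : ℕ} (α β : Lam V q) (v : Fin q → V) :
    part0 q (α + β) v = part0 q α v + part0 q β v := by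
  unfold part0
  rw [← Finset.sum_add_distrib]
  refine Finset.sum_congr rfl fun s _ => ?_
  rw [ContinuousAlternatingMap.add_apply, mul_add]

theorem part0_smul {q : ℕ} (c : ℂ) (α : Lam V q) (v : Fin q → V) :
    part0 q (c • α) v = c * part0 q α v := by
  unfold part0
  rw [Finset.mul_sum]
  refine Finset.sum_congr rfl fun s _ => ?_
  rw [ContinuousAlternatingMap.smul_apply, smul_eq_mul]
  ring

theorem part0_zero {q : ℕ} (v : Fin q → V) : part0 q (0 : Lam V q) v = 0 :=
  Finset.sum_eq_zero fun _ _ => mul_zero _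

variable (V) (X : Type u) [TopologicalSpace X] [ChartedSpace V X]

/-- `∂̄`-closed smooth `(0,q)`-forms: the `(0,q+1)`-part of `dα` vanishes. -/
def ZDol (q : ℕ) : Submodule ℂ (X → Lam V q) where
  carrier := {α | SmoothForm α ∧ (∀ x, Typ0 (α x)) ∧ ∀ x v, part0 (q + 1) (dform α x) v = 0}
  add_mem' {a b} ha hb := ⟨S2_add ha.1 hb.1, fun x => (ha.2.1 x).add (hb.2.1 x), fun x v => by
    rw [S2_dform_add ha.1 hb.1, part0_add, ha.2.2, hb.2.2, add_zero]⟩
  zero_mem' := ⟨S2_zero, fun x => typ0_zero, fun x v => by rw [S2_dform_zero, part0_zero]⟩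
  smul_mem' c a ha := ⟨S2_smul c ha.1, fun x => (ha.2.1 x).smul c, fun x v => by
    rw [S2_dform_smul c ha.1, part0_smul, ha.2.2, mul_zero]⟩

/-- `∂̄`-exact `(0,q)`-forms: `γ` is the `(0,q)`-part `2^{-q} part0 q (dβ)` of `dβ`, `β` of type `(0,q-1)`. -/
noncomputable def BDol : ∀ q : ℕ, Submodule ℂ (X → Lam V q)
  | 0 => ⊥
  | q + 1 =>
    { carrier := {γ | ∃ β : X → Lam V q, SmoothForm β ∧ (∀ x, Typ0 (β x)) ∧
        ∀ x v, γ x v = ((2 : ℂ) ^ (q + 1))⁻¹ * part0 (q + 1) (dform β x) v}
      add_mem' := by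
        rintro a b ⟨β, h1, h2, h3⟩ ⟨β', h1', h2', h3'⟩
        refine ⟨β + β', S2_add h1 h1', fun x => (h2 x).add (h2' x), fun x v => ?_⟩
        rw [S2_dform_add h1 h1', Pi.add_apply, ContinuousAlternatingMap.add_apply, h3, h3', part0_add,
          mul_add]
      zero_mem' := ⟨0, S2_zero, fun x => typ0_zero, fun x v => by
        rw [S2_dform_zero, part0_zero, mul_zero]; rfl⟩
      smul_mem' := by
        rintro c a ⟨β, h1, h2, h3⟩
        refine ⟨c • β, S2_smul c h1, fun x => (h2 x).smul c, fun x v => ?_⟩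
        rw [S2_dform_smul c h1, Pi.smul_apply, ContinuousAlternatingMap.smul_apply, h3, part0_smul,
          smul_eq_mul]
        ring }

/-- `h^{0,q}(X)`, the dimension of the Dolbeault cohomology group `H^{0,q}(X)` (`∂̄`-closed modulo `∂̄`-exact
`(0,q)`-forms). -/
noncomputable def hnum (q : ℕ) : ℕ :=
  qdim (ZDol V X q) (BDol V X q)

end dolbeault

section compare

theorem Zcl_eq (n : ℕ) (M : Type u) [TopologicalSpace M] [ChartedSpace (Er n) M] (q : ℕ) :
    Zcl (Er n) M q = Zdr n M q := rfl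

theorem Bex_eq (n : ℕ) (M : Type u) [TopologicalSpace M] [ChartedSpace (Er n) M] (q : ℕ) :
    Bex (Er n) M q = Bdr n M q := by
  cases q <;> rfl

theorem bnum_eq (n : ℕ) (M : Type u) [TopologicalSpace M] [ChartedSpace (Er n) M] (q : ℕ) :
    bnum (Er n) M q = betti n M q := by
  unfold bnum betti qdim
  rw [Zcl_eq, Bex_eq]

theorem chi_eq (n : ℕ) (M : Type u) [TopologicalSpace M] [ChartedSpace (Er n) M] :
    chi (Er n) M n = euler n M :=
  Finset.sum_congr rfl fun q _ => by rw [bnum_eq]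

theorem ZDol_eq (m : ℕ) (X : Type u) [TopologicalSpace X] [ChartedSpace (Ec m) X] (q : ℕ) :
    ZDol (Ec m) X q = Zdb m X q := rfl

theorem BDol_eq (m : ℕ) (X : Type u) [TopologicalSpace X] [ChartedSpace (Ec m) X] (q : ℕ) :
    BDol (Ec m) X q = Bdb m X q := by
  cases q <;> rfl

theorem hnum_eq (m : ℕ) (X : Type u) [TopologicalSpace X] [ChartedSpace (Ec m) X] (q : ℕ) :
    hnum (Ec m) X q = hodge0 m X q := by
  unfold hnum hodge0 qdim
  rw [ZDol_eq, BDol_eq]

end compare

end FB
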