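import Pool.Agent.H.MP_fb873c_an.K0
import Pool.Agent.H.MP_fb873c_an.S3

/-!
# Part N0 (Euler characteristic): definitions
-/

namespace FB

open scoped Topology ContDiff Manifold
open Filter

universe u

section

variable {W : Type} [NormedAddCommGroup W] [NormedSpace ℝ W]
variable {X : Type u} [TopologicalSpace X] [ChartedSpace W X]

/-- `c` is an eigenvalue of `F^*` on the closed modulo the exact `q`-forms: there is a closed form `η` which is
not exact, such that `F^* η = c η + γ` with `γ` exact. -/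
def EigF (W : Type) [NormedAddCommGroup W] [NormedSpace ℝ W] {X : Type u} [TopologicalSpace X]
    [ChartedSpace W X] (F : X → X) (q : ℕ) (c : ℂ) : Prop :=
  ∃ η γ : X → Lam W q, SmoothForm η ∧ (∀ x, dform η x = 0) ∧ ¬ IsExactForm η ∧ IsExactForm γ ∧
    ∀ x v, pb F η x v = c * η x v + γ x v

theorem bex_iff {q : ℕ} {γ : X → Lam W q} : γ ∈ Bex W X q ↔ IsExactForm γ := by
  cases q with
  | zero =>
    constructor
    · intro h x
      have h1 : γ = 0 := (Submodule.mem_bot ℂ).1 h
      rw [h1]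
      rfl
    · intro h
      exact (Submodule.mem_bot ℂ).2 (funext h)
  | succ q => exact Iff.rfl

end

variable {n : ℕ} {M : Type u} [TopologicalSpace M] [ChartedSpace (Er n) M]

/-- `c` is an eigenvalue of `F^*` on the de Rham cohomology group `H^q(M; ℂ)`. -/
def EigH (n : ℕ) {M : Type u} [TopologicalSpace M] [ChartedSpace (Er n) M] (F : M → M) (q : ℕ)
    (c : ℂ) : Prop := EigF (Er n) F q c

theorem eigH_iff {F : M → M} {q : ℕ} {c : ℂ} : EigH n F q c ↔
    ∃ η ∈ Zcl (Er n) M q, η ∉ Bex (Er n) M q ∧ pb F η - c • η ∈ Bex (Er n) M q := by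
  constructor
  · rintro ⟨η, γ, h1, h2, h3, h4, h5⟩
    refine ⟨η, ⟨h1, h2⟩, fun h => h3 (bex_iff.1 h), ?_⟩
    have e : pb F η - c • η = γ := by
      funext x
      ext v
      have h6 := h5 x v
      show pb F η x v - c * η x v = γ x v
      rw [h6]
      ring
    rw [e]
    exact bex_iff.2 h4
  · rintro ⟨η, h1, h2, h3⟩
    refine ⟨η, _, h1.1, h1.2, fun h => h2 (bex_iff.2 h), bex_iff.1 h3, fun x v => ?_⟩
    show pb F η x v = c * η x v + (pb F η x v - c * η x v)
    ring

/-- There is a real number `ρ > 1` such that `ρ` and `1/ρ` are eigenvalues of `f^*` on the even de Rham cohomology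
of `M`. -/
def EvenPair (f : Dif n M) : Prop :=
  ∃ (ρ : ℝ) (q r : ℕ), 1 < ρ ∧ Even q ∧ Even r ∧ EigH n f q (ρ : ℂ) ∧ EigH n f r ((ρ : ℂ)⁻¹)

/-- The set of the periodic points of `f` is finite, and has `c` elements. -/
def PerCard (f : Dif n M) (c : ℤ) : Prop :=
  {x | ∃ k, 0 < k ∧ itr f k x = x}.Finite ∧ ({x | ∃ k, 0 < k ∧ itr f k x = x}.ncard : ℤ) = c

/-- The sum of the even Betti numbers of the `n`-dimensional manifold `M`. -/
noncomputable def bEven (n : ℕ) (M : Type u) [TopologicalSpace M] [ChartedSpace (Er n) M] : ℕ :=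
  ∑ q ∈ Finset.range (n + 1) with Even q, bnum (Er n) M q

end FB
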