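import Mathlib

/-!
# Part N1b: integer valued exponential sums with exponents of modulus one
-/

namespace FB

open Filter Topology

/-- vanishing of all power sums of order less than the number of points -/
theorem N1b_van (S : Finset ℂ) (c : ℂ → ℂ)
    (h : ∀ i : ℕ, i < S.card → ∑ z ∈ S, c z * z ^ i = 0) : ∀ z ∈ S, c z = 0 := by
  classical
  intro z0 hz0
  have hinj : Set.InjOn (id : ℂ → ℂ) (S : Set ℂ) := fun x _ y _ hxy => hxy
  set Q : Polynomial ℂ := Lagrange.basis S id z0 with hQ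
  have hpos : 0 < S.card := Finset.card_pos.2 ⟨z0, hz0⟩
  have hdeg : Q.natDegree < S.card := by
    have h1 : Q.degree = ((S.card - 1 : ℕ) : WithBot ℕ) := Lagrange.degree_basis hinj hz0
    have h2 : Q.natDegree = S.card - 1 := Polynomial.natDegree_eq_of_degree_eq_some h1
    omega
  have hsum : ∑ z ∈ S, c z * Q.eval z = 0 := by
    have h1 : ∀ z ∈ S, c z * Q.eval z = ∑ i ∈ Finset.range S.card, Q.coeff i * (c z * z ^ i) := by
      intro z _
      rw [Polynomial.eval_eq_sum_range' hdeg, Finset.mul_sum]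
      refine Finset.sum_congr rfl fun i _ => ?_
      ring
    rw [Finset.sum_congr rfl h1, Finset.sum_comm]
    refine Finset.sum_eq_zero fun i hi => ?_
    rw [← Finset.mul_sum, h i (Finset.mem_range.1 hi), mul_zero]
  rw [Finset.sum_eq_single z0] at hsum
  · have h1 : Q.eval z0 = 1 := by
      have := Lagrange.eval_basis_self (s := S) (v := id) hinj hz0
      simpa using this
    rwa [h1, mul_one] at hsum
  · intro z hz hne
    have h1 : Q.eval z = 0 := by
      have := Lagrange.eval_basis_of_ne (s := S) (v := id) (i := z0) (j := z) (Ne.symm hne) hz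
      simpa using this
    rw [h1, mul_zero]
  · intro hn
    exact absurd hz0 hn

/-- Kronecker's theorem for exponential sums.

Proof.  `|a k| ≤ C = ∑_{z ∈ S} |m z|` for all `k ≥ 1`.  Let `d = S.card`.  The vectors `(a (k + i))_{i < d}`, `k ≥ 1`, take finitely many values, so there
are `1 ≤ k < k'` with `a (k + i) = a (k' + i)` for all `i < d`.  With `P = k' - k`: `∑_{z ∈ S} (m z * (z^P - 1) * z^k) * z^i = 0` for `i < d`.  For a
polynomial `Q` of degree `< d` this gives `∑_{z ∈ S} (m z * (z^P - 1) * z^k) * Q(z) = 0`; take for `Q` the Lagrange basis polynomial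
`∏_{w ∈ S, w ≠ z} (X - w)` (or use that the Vandermonde determinant is not zero): `m z * (z^P - 1) * z^k = 0`, so `z^P = 1` for all `z ∈ S`. -/
theorem net_per (S : Finset ℂ) (m : ℂ → ℤ) (hm : ∀ z ∈ S, m z ≠ 0) (hS : ∀ z ∈ S, ‖z‖ = 1)
    (a : ℕ → ℤ) (h : ∀ k : ℕ, 0 < k → ∑ z ∈ S, (m z : ℂ) * z ^ k = (a k : ℂ)) :
    ∃ P : ℕ, 0 < P ∧ ∀ z ∈ S, z ^ P = 1 := by
  classical
  set C : ℤ := ∑ z ∈ S, |m z| with hC
  have hbd : ∀ k : ℕ, 0 < k → |a k| ≤ C := by
    intro k hk
    have h1 : ‖((a k : ℤ) : ℂ)‖ ≤ ∑ z ∈ S, ‖(m z : ℂ) * z ^ k‖ := by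
      rw [← h k hk]
      exact norm_sum_le _ _
    have h2 : ∑ z ∈ S, ‖(m z : ℂ) * z ^ k‖ = ((C : ℤ) : ℝ) := by
      rw [hC, Int.cast_sum]
      refine Finset.sum_congr rfl fun z hz => ?_
      rw [norm_mul, norm_pow, hS z hz, one_pow, mul_one, Complex.norm_intCast, Int.cast_abs]
    rw [h2, Complex.norm_intCast, ← Int.cast_abs] at h1
    exact_mod_cast h1
  obtain ⟨k, k', hne, heq⟩ := Finite.exists_ne_map_eq_of_infinite
    (fun k : ℕ => (fun i : Fin S.card =>
      (⟨a (k + 1 + i), Finset.mem_Icc.2 (abs_le.1 (hbd (k + 1 + i) (by omega)))⟩ : (Finset.Icc (-C) C))))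
  wlog hlt : k < k' generalizing k k'
  · exact this k' k (Ne.symm hne) heq.symm (by omega)
  refine ⟨k' - k, by omega, ?_⟩
  have hE : ∀ i : ℕ, i < S.card → a (k + 1 + i) = a (k' + 1 + i) := by
    intro i hi
    have := congrFun heq ⟨i, hi⟩
    exact congrArg Subtype.val this
  have hz := N1b_van S (fun z => (m z : ℂ) * (z ^ (k' - k) - 1) * z ^ (k + 1)) (by
    intro i hi
    have h1 := h (k + 1 + i) (by omega)
    have h2 := h (k' + 1 + i) (by omega)
    have h3 : ∀ z ∈ S, (m z : ℂ) * (z ^ (k' - k) - 1) * z ^ (k + 1) * z ^ i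
        = (m z : ℂ) * z ^ (k' + 1 + i) - (m z : ℂ) * z ^ (k + 1 + i) := by
      intro z _
      have e : z ^ (k' + 1 + i) = z ^ (k' - k) * z ^ (k + 1) * z ^ i := by
        rw [← pow_add, ← pow_add]
        congr 1
        omega
      rw [e, pow_add z (k + 1) i]
      ring
    rw [Finset.sum_congr rfl h3, Finset.sum_sub_distrib, h1, h2, hE i hi, sub_self])
  intro z hzS
  have h1 := hz z hzS
  have hz0 : z ≠ 0 := by
    intro h0
    have := hS z hzS
    rw [h0, norm_zero] at this
    exact zero_ne_one this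
  have h2 : z ^ (k' - k) - 1 = 0 := by
    rcases mul_eq_zero.1 h1 with h3 | h3
    · rcases mul_eq_zero.1 h3 with h4 | h4
      · exact absurd (by exact_mod_cast h4) (hm z hzS)
      · exact h4
    · exact absurd h3 (pow_ne_zero _ hz0)
  exact sub_eq_zero.1 h2

end FB
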