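import Pool.Agent.H.MP_fb873c_an.N1a
import Pool.Agent.H.MP_fb873c_an.N1b

/-!
# Part N1: an alternative for exponential sums with values in the natural numbers
-/

namespace FB

open Filter Topology

/-- net multiplicity -/
noncomputable def N1_m (E O : Multiset ℂ) (z : ℂ) : ℤ := (E.count z : ℤ) - O.count z

theorem N1_map_sum (E : Multiset ℂ) (U : Finset ℂ) (hU : E.toFinset ⊆ U) (φ : ℂ → ℂ) :
    (E.map φ).sum = ∑ z ∈ U, (E.count z : ℂ) * φ z := by
  rw [Finset.sum_multiset_map_count]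
  have h : ∑ m ∈ E.toFinset, E.count m • φ m = ∑ m ∈ E.toFinset, (E.count m : ℂ) * φ m :=
    Finset.sum_congr rfl fun z _ => by rw [nsmul_eq_mul]
  rw [h]
  refine Finset.sum_subset hU fun z _ hz => ?_
  rw [Multiset.mem_toFinset] at hz
  rw [Multiset.count_eq_zero_of_notMem hz]
  simp

theorem N1_diff (E O : Multiset ℂ) (U : Finset ℂ) (hE : E.toFinset ⊆ U) (hO : O.toFinset ⊆ U)
    (φ : ℂ → ℂ) :
    (E.map φ).sum - (O.map φ).sum = ∑ z ∈ U, (N1_m E O z : ℂ) * φ z := by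
  rw [N1_map_sum E U hE, N1_map_sum O U hO, ← Finset.sum_sub_distrib]
  refine Finset.sum_congr rfl fun z _ => ?_
  unfold N1_m
  push_cast
  ring

/-- Let `a k = ∑_{e ∈ E} e^k - ∑_{o ∈ O} o^k = ∑_{e ∈ E} e^(-k) - ∑_{o ∈ O} o^(-k)` be a natural number for all `k ≥ 1`.

Proof.  Let `m z = E.count z - O.count z` (an integer) and `S` the finite set of the `z ∈ E.toFinset ∪ O.toFinset` with `m z ≠ 0`.  Then for all
functions `φ`: `∑_{E} φ - ∑_{O} φ = ∑_{z ∈ S} m z φ z` (`Multiset.sum_map_count`-like lemmas: `Finset.sum_multiset_map_count`), in particular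
`card E - card O = ∑_{z ∈ S} m z`, `a k = ∑_{z ∈ S} m z z^k = ∑_{z ∈ S} m z (z⁻¹)^k`.  By `net_unique` (for the finite set `S ∪ S⁻¹` and the function `z ↦ m z - m z⁻¹`, where
`∑_{z ∈ S} m z (z⁻¹)^k = ∑_{z ∈ S⁻¹} m z⁻¹ z^k`) we get `m z⁻¹ = m z` for all `z ≠ 0`, so that `z ∈ S → z⁻¹ ∈ S`.
If `S` is empty: `a k = 0` and `card E = card O`, `P = 1`.  Otherwise let `R` be the maximum of the `‖z‖`, `z ∈ S`; `R ≥ 1` as `S = S⁻¹`.
If `R > 1`, then by `net_dom`: `m R > 0`, so `R ∈ E` (count positive), and `m R⁻¹ = m R > 0`, so `R⁻¹ ∈ E`.  If `R = 1` then all the elements of `S` have modulus `1` (as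
`S = S⁻¹`); `net_per` gives `P`, and `a (P j) = ∑_{z ∈ S} m z`. -/
theorem expsum_alt (E O : Multiset ℂ) (hE : (0 : ℂ) ∉ E) (hO : (0 : ℂ) ∉ O) (a : ℕ → ℕ)
    (h1 : ∀ k : ℕ, 0 < k → (E.map fun z => z ^ k).sum - (O.map fun z => z ^ k).sum = (a k : ℂ))
    (h2 : ∀ k : ℕ, 0 < k →
      (E.map fun z => z⁻¹ ^ k).sum - (O.map fun z => z⁻¹ ^ k).sum = (a k : ℂ)) :
    (∃ ρ : ℝ, 1 < ρ ∧ (ρ : ℂ) ∈ E ∧ ((ρ : ℂ)⁻¹) ∈ E) ∨
      ∃ P : ℕ, 0 < P ∧ ∀ j : ℕ, 0 < j → (a (P * j) : ℤ) = (Multiset.card E : ℤ) - Multiset.card O := by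
  classical
  set U : Finset ℂ := E.toFinset ∪ O.toFinset with hU
  have hEU : E.toFinset ⊆ U := Finset.subset_union_left
  have hOU : O.toFinset ⊆ U := Finset.subset_union_right
  have hU0 : (0 : ℂ) ∉ U := by
    rw [hU, Finset.mem_union, Multiset.mem_toFinset, Multiset.mem_toFinset]
    tauto
  have hmU : ∀ z, z ∉ U → N1_m E O z = 0 := by
    intro z hz
    rw [hU, Finset.mem_union, Multiset.mem_toFinset, Multiset.mem_toFinset] at hz
    push Not at hz
    unfold N1_m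
    rw [Multiset.count_eq_zero_of_notMem hz.1, Multiset.count_eq_zero_of_notMem hz.2]
    simp
  -- the finite set closed under inversion
  set T : Finset ℂ := U ∪ U.image (fun z => z⁻¹) with hT
  have hUT : U ⊆ T := Finset.subset_union_left
  have hT0 : (0 : ℂ) ∉ T := by
    rw [hT, Finset.mem_union, Finset.mem_image]
    rintro (h | ⟨z, hz, h⟩)
    · exact hU0 h
    · rw [inv_eq_zero] at h
      rw [h] at hz
      exact hU0 hz
  have hTinv : ∀ z ∈ T, z⁻¹ ∈ T := by
    intro z hz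
    rw [hT, Finset.mem_union, Finset.mem_image] at hz ⊢
    rcases hz with h | ⟨w, hw, rfl⟩
    · exact Or.inr ⟨z, h, rfl⟩
    · rw [inv_inv]
      exact Or.inl hw
  have hsumT : ∀ φ : ℂ → ℂ, ∑ z ∈ T, (N1_m E O z : ℂ) * φ z =
      (E.map φ).sum - (O.map φ).sum := by
    intro φ
    rw [N1_diff E O T (hEU.trans hUT) (hOU.trans hUT)]
  have hnet : ∀ z ∈ T, ((N1_m E O z : ℂ) - (N1_m E O z⁻¹ : ℂ)) = 0 := by
    refine net_unique T hT0 (fun z => (N1_m E O z : ℂ) - (N1_m E O z⁻¹ : ℂ)) ?_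
    intro k hk
    have e1 : ∑ z ∈ T, (N1_m E O z : ℂ) * z ^ k = a k := by
      rw [hsumT (fun z => z ^ k), h1 k hk]
    have e2 : ∑ z ∈ T, (N1_m E O z⁻¹ : ℂ) * z ^ k = a k := by
      rw [← h2 k hk, ← hsumT (fun z => z⁻¹ ^ k)]
      refine Finset.sum_bij' (fun z _ => z⁻¹) (fun z _ => z⁻¹) hTinv hTinv ?_ ?_ ?_
      · intro z _
        exact inv_inv z
      · intro z _
        exact inv_inv z
      · intro z _
        rw [inv_inv]
    have e3 : ∑ z ∈ T, ((N1_m E O z : ℂ) - (N1_m E O z⁻¹ : ℂ)) * z ^ k =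
        ∑ z ∈ T, (N1_m E O z : ℂ) * z ^ k - ∑ z ∈ T, (N1_m E O z⁻¹ : ℂ) * z ^ k := by
      rw [← Finset.sum_sub_distrib]
      refine Finset.sum_congr rfl fun z _ => ?_
      ring
    rw [e3, e1, e2, sub_self]
  have hinv : ∀ z, N1_m E O z⁻¹ = N1_m E O z := by
    intro z
    by_cases hz : z ∈ T
    · have h := hnet z hz
      rw [sub_eq_zero] at h
      exact_mod_cast h.symm
    · have hz1 : z ∉ U := fun h => hz (hUT h)
      have hz2 : z⁻¹ ∉ U := by
        intro h
        apply hz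
        have := hTinv _ (hUT h)
        rwa [inv_inv] at this
      rw [hmU _ hz1, hmU _ hz2]
  set S : Finset ℂ := U.filter (fun z => N1_m E O z ≠ 0) with hS
  have hSm : ∀ z ∈ S, N1_m E O z ≠ 0 := fun z hz => (Finset.mem_filter.1 hz).2
  have hmS : ∀ z, N1_m E O z ≠ 0 → z ∈ S := by
    intro z hz
    rw [hS, Finset.mem_filter]
    refine ⟨?_, hz⟩
    by_contra h
    exact hz (hmU z h)
  have hSinv : ∀ z ∈ S, z⁻¹ ∈ S := by
    intro z hz
    apply hmS
    rw [hinv]
    exact hSm z hz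
  have hsumS : ∀ φ : ℂ → ℂ, ∑ z ∈ S, (N1_m E O z : ℂ) * φ z =
      (E.map φ).sum - (O.map φ).sum := by
    intro φ
    rw [N1_diff E O U hEU hOU]
    refine Finset.sum_subset (Finset.filter_subset _ _) fun z hzU hz => ?_
    have : N1_m E O z = 0 := by
      by_contra h
      exact hz (hmS z h)
    rw [this]
    simp
  have hcard : ∑ z ∈ S, N1_m E O z = (Multiset.card E : ℤ) - Multiset.card O := by
    have h := hsumS (fun _ => 1)
    simp only [mul_one, Multiset.map_const', Multiset.sum_replicate, nsmul_eq_mul] at h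
    exact_mod_cast h
  rcases S.eq_empty_or_nonempty with hemp | hne
  · right
    refine ⟨1, one_pos, fun j hj => ?_⟩
    rw [one_mul]
    have h := hsumS (fun z => z ^ j)
    rw [h1 j hj, hemp, Finset.sum_empty] at h
    rw [hemp, Finset.sum_empty] at hcard
    rw [← hcard]
    exact_mod_cast h.symm
  · obtain ⟨z0, hz0, hmax⟩ := S.exists_max_image (fun z => ‖z‖) hne
    have hS0 : ∀ z ∈ S, z ≠ 0 := by
      rintro z hz rfl
      exact hU0 (Finset.mem_filter.1 hz).1
    have hpos : ∀ z ∈ S, 0 < ‖z‖ := fun z hz => norm_pos_iff.2 (hS0 z hz)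
    have hR0 := hpos z0 hz0
    have hR1 : 1 ≤ ‖z0‖ := by
      by_contra hlt
      push Not at hlt
      have h3 := hmax _ (hSinv z0 hz0)
      simp only [norm_inv] at h3
      have h4 : 1 < ‖z0‖⁻¹ := (one_lt_inv₀ hR0).2 hlt
      linarith
    rcases lt_or_eq_of_le hR1 with hlt | heq
    · left
      have hd := net_dom S (N1_m E O) hSm hR0 (fun z hz => hmax z hz) ⟨z0, hz0, rfl⟩
        (fun k => (a k : ℝ)) (fun k _ => Nat.cast_nonneg _) (fun k hk => by
          rw [hsumS (fun z => z ^ k), h1 k hk]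
          simp)
      have hmem : ∀ z, 0 < N1_m E O z → z ∈ E := by
        intro z hz
        unfold N1_m at hz
        rw [← Multiset.count_pos]
        omega
      refine ⟨‖z0‖, hlt, hmem _ hd.2, hmem _ ?_⟩
      rw [hinv]
      exact hd.2
    · right
      have hnorm : ∀ z ∈ S, ‖z‖ = 1 := by
        intro z hz
        have h3 := hmax z hz
        have h4 := hmax _ (hSinv z hz)
        simp only [norm_inv] at h3 h4
        rw [← heq] at h3 h4
        have h5 := hpos z hz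
        refine le_antisymm h3 ?_
        by_contra hlt
        push Not at hlt
        have h6 : 1 < ‖z‖⁻¹ := (one_lt_inv₀ h5).2 hlt
        linarith
      obtain ⟨P, hP, hPz⟩ := net_per S (N1_m E O) hSm hnorm (fun k => (a k : ℤ)) (fun k hk => by
        rw [hsumS (fun z => z ^ k), h1 k hk]
        simp)
      refine ⟨P, hP, fun j hj => ?_⟩
      have h := hsumS (fun z => z ^ (P * j))
      rw [h1 (P * j) (Nat.mul_pos hP hj)] at h
      have h3 : ∑ z ∈ S, (N1_m E O z : ℂ) * z ^ (P * j) = ∑ z ∈ S, (N1_m E O z : ℂ) := by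
        refine Finset.sum_congr rfl fun z hz => ?_
        rw [pow_mul, hPz z hz, one_pow, mul_one]
      rw [h3] at h
      rw [← hcard]
      exact_mod_cast h.symm

end FB
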