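import Pool.Agent.H.MP_fb873c_an.B1a

/-!
# Part N1a: the dominant term of a nonnegative exponential sum
-/

namespace FB

open Filter Topology

/-- Uniqueness of finite exponential sums.  (`exp_unique`, file B1a, for the type `S` of the elements of the finite set `S`: `c = m`, `γ =` the inclusion, `z ∈ S`.) -/
theorem net_unique (S : Finset ℂ) (h0 : (0 : ℂ) ∉ S) (m : ℂ → ℂ)
    (h : ∀ k : ℕ, 0 < k → ∑ z ∈ S, m z * z ^ k = 0) : ∀ z ∈ S, m z = 0 := by
  classical
  intro z hz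
  have hz0 : z ≠ 0 := fun e => h0 (e ▸ hz)
  have h1 : ∀ i : S, ‖m (i : ℂ)‖ ≤ ∑ z ∈ S, ‖m z‖ := fun i =>
    Finset.single_le_sum (f := fun z => ‖m z‖) (fun w _ => norm_nonneg _) i.2
  have h2 : Summable fun i : S => ‖(i : ℂ)‖ := (hasSum_fintype _).summable
  have h3 : ∀ j : ℕ, 0 < j → ∑' i : S, m (i : ℂ) * (i : ℂ) ^ j = 0 := by
    intro j hj
    rw [tsum_fintype, Finset.sum_coe_sort S (fun z => m z * z ^ j)]
    exact h j hj
  have key := exp_unique (ι := S) (fun i => m (i : ℂ)) (fun i => (i : ℂ)) (∑ z ∈ S, ‖m z‖)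
    h1 h2 h3 z hz0
  rw [tsum_fintype, Finset.sum_eq_single (⟨z, hz⟩ : S)] at key
  · rw [Set.indicator_of_mem (by simp)] at key
    exact key
  · intro b _ hb
    apply Set.indicator_of_notMem
    intro hbz
    exact hb (Subtype.ext hbz)
  · intro hn
    exact absurd (Finset.mem_univ _) hn

/-- Cesaro means of the powers of a number `z` of modulus at most one: `(1/K) ∑_{k < K} z^(k+1)` tends to `1` if `z = 1` and to
`0` otherwise (geometric series: the sum is bounded by `2 / ‖1 - z‖`). -/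
theorem cesaro_pow {z : ℂ} (hz : ‖z‖ ≤ 1) :
    Tendsto (fun K : ℕ => (K : ℂ)⁻¹ * ∑ k ∈ Finset.range K, z ^ (k + 1)) atTop
      (𝓝 (if z = 1 then 1 else 0)) := by
  by_cases h1 : z = 1
  · rw [if_pos h1, h1]
    refine tendsto_const_nhds.congr' ?_
    filter_upwards [eventually_gt_atTop 0] with K hK
    have hK0 : (K : ℂ) ≠ 0 := by exact_mod_cast hK.ne'
    simp [hK0]
  · rw [if_neg h1]
    have hz1 : z - 1 ≠ 0 := sub_ne_zero.mpr h1
    have hpos : 0 < ‖z - 1‖ := norm_pos_iff.mpr hz1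
    have hb : ∀ K : ℕ, ‖∑ k ∈ Finset.range K, z ^ (k + 1)‖ ≤ 2 / ‖z - 1‖ := by
      intro K
      have e1 : ∑ k ∈ Finset.range K, z ^ (k + 1) = z * ((z ^ K - 1) / (z - 1)) := by
        rw [← geom_sum_eq h1, Finset.mul_sum]
        refine Finset.sum_congr rfl fun k _ => ?_
        ring
      rw [e1, norm_mul, norm_div]
      have e2 : ‖z ^ K - 1‖ ≤ 2 := by
        refine (norm_sub_le _ _).trans ?_
        rw [norm_pow, norm_one]
        have : ‖z‖ ^ K ≤ 1 := pow_le_one₀ (norm_nonneg _) hz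
        linarith
      have e3 : ‖z ^ K - 1‖ / ‖z - 1‖ ≤ 2 / ‖z - 1‖ := by gcongr
      calc ‖z‖ * (‖z ^ K - 1‖ / ‖z - 1‖) ≤ 1 * (2 / ‖z - 1‖) := by gcongr
        _ = 2 / ‖z - 1‖ := one_mul _
    refine squeeze_zero_norm (a := fun K : ℕ => ((K : ℝ))⁻¹ * (2 / ‖z - 1‖)) ?_ ?_
    · intro K
      rw [norm_mul, norm_inv, Complex.norm_natCast]
      exact mul_le_mul_of_nonneg_left (hb K) (inv_nonneg.mpr (Nat.cast_nonneg K))
    · have h2 : Tendsto (fun K : ℕ => ((K : ℝ))⁻¹) atTop (𝓝 0) :=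
        tendsto_inv_atTop_zero.comp tendsto_natCast_atTop_atTop
      simpa using h2.mul_const (2 / ‖z - 1‖)

/-- Two numbers of the closed unit disc with `u * conj w = 1` are equal and of modulus one. -/
theorem N1a_conj {u w : ℂ} (hu : ‖u‖ ≤ 1) (hw : ‖w‖ ≤ 1) :
    u * (starRingEnd ℂ) w = 1 ↔ (u = w ∧ ‖u‖ = 1) := by
  constructor
  · intro h
    have h1 : ‖u‖ * ‖w‖ = 1 := by
      have := congrArg norm h
      rwa [norm_mul, Complex.norm_conj, norm_one] at this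
    have hu1 : ‖u‖ = 1 := by
      apply le_antisymm hu
      by_contra hlt
      push Not at hlt
      have : ‖u‖ * ‖w‖ < 1 := by
        calc ‖u‖ * ‖w‖ ≤ ‖u‖ * 1 := by gcongr
          _ = ‖u‖ := mul_one _
          _ < 1 := hlt
      linarith
    have hw1 : ‖w‖ = 1 := by rw [hu1, one_mul] at h1; exact h1
    refine ⟨?_, hu1⟩
    have h2 : (starRingEnd ℂ) w * w = 1 := by
      rw [mul_comm, Complex.mul_conj, Complex.normSq_eq_norm_sq, hw1]
      norm_num
    calc u = u * ((starRingEnd ℂ) w * w) := by rw [h2, mul_one]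
      _ = (u * (starRingEnd ℂ) w) * w := by ring
      _ = w := by rw [h, one_mul]
  · rintro ⟨rfl, h⟩
    rw [Complex.mul_conj, Complex.normSq_eq_norm_sq, h]
    norm_num

/-- The Cesaro means of a finite exponential sum with exponents in the closed unit disc. -/
theorem N1a_mean {ι : Type*} (T : Finset ι) (c u : ι → ℂ) (hu : ∀ i ∈ T, ‖u i‖ ≤ 1) :
    Tendsto (fun K : ℕ => (K : ℂ)⁻¹ * ∑ k ∈ Finset.range K, ∑ i ∈ T, c i * u i ^ (k + 1)) atTop
      (𝓝 (∑ i ∈ T, c i * (if u i = 1 then 1 else 0))) := by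
  have h1 : ∀ i ∈ T, Tendsto (fun K : ℕ => c i * ((K : ℂ)⁻¹ * ∑ k ∈ Finset.range K, u i ^ (k + 1)))
      atTop (𝓝 (c i * (if u i = 1 then 1 else 0))) := fun i hi =>
    (cesaro_pow (hu i hi)).const_mul (c i)
  refine (tendsto_finsetSum T h1).congr fun K => ?_
  rw [Finset.sum_comm, Finset.mul_sum]
  refine Finset.sum_congr rfl fun i _ => ?_
  rw [Finset.mul_sum, Finset.mul_sum, Finset.mul_sum]
  refine Finset.sum_congr rfl fun k _ => ?_
  ring

/-- A nonnegative exponential sum has a positive coefficient at the (positive real) number `R`, `R` the maximal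
modulus of the exponents.

Proof.  Put `s k = a k / R^k = ∑_{z ∈ S} m z * (z/R)^k` for `k ≥ 1`; `0 ≤ s k ≤ C`, `C = ∑ |m z|`.  Let `μ R = m R` if `R ∈ S` and `0` otherwise.
By `cesaro_pow` the means of the `s k` tend to `μ R`, and the means of `|s k|² = ∑_{z, w ∈ S} m z * m w * ((z * conj w)/R²)^k` tend to
`∑_{z, w ∈ S, z conj w = R²} m z * m w = ∑_{z ∈ S, ‖z‖ = R} (m z)²` (for `‖z‖, ‖w‖ ≤ R` the equation `z conj w = R²` holds only if
`z = w` and `‖z‖ = R`), which is `≥ 1`.  As `0 ≤ s k ≤ C` we have `|s k|² ≤ C s k`; passing to the limit of the means: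
`0 < ∑ (m z)² ≤ C μ R`.  So `0 < μ R`. -/
theorem net_dom (S : Finset ℂ) (m : ℂ → ℤ) (hm : ∀ z ∈ S, m z ≠ 0) {R : ℝ} (hR : 0 < R)
    (hle : ∀ z ∈ S, ‖z‖ ≤ R) (hex : ∃ z ∈ S, ‖z‖ = R) (a : ℕ → ℝ) (ha : ∀ k, 0 < k → 0 ≤ a k)
    (h : ∀ k : ℕ, 0 < k → ∑ z ∈ S, (m z : ℂ) * z ^ k = (a k : ℂ)) :
    (R : ℂ) ∈ S ∧ 0 < m (R : ℂ) := by
  classical
  have hRc : (R : ℂ) ≠ 0 := by exact_mod_cast hR.ne'
  set u : ℂ → ℂ := fun z => z / R with hu
  have hun : ∀ z ∈ S, ‖u z‖ ≤ 1 := by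
    intro z hz
    have e : ‖u z‖ = ‖z‖ / R := by
      rw [hu]
      simp [Complex.norm_real, abs_of_pos hR]
    rw [e, div_le_one hR]
    exact hle z hz
  set s : ℕ → ℝ := fun k => a (k + 1) / R ^ (k + 1) with hs
  have hs0 : ∀ k, 0 ≤ s k := fun k => div_nonneg (ha _ (Nat.succ_pos k)) (pow_pos hR _).le
  have hsc : ∀ k, ((s k : ℝ) : ℂ) = ∑ z ∈ S, (m z : ℂ) * u z ^ (k + 1) := by
    intro k
    rw [hs]
    simp only [Complex.ofReal_div, Complex.ofReal_pow]
    rw [← h (k + 1) (Nat.succ_pos k), Finset.sum_div]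
    refine Finset.sum_congr rfl fun z _ => ?_
    rw [hu, div_pow, mul_div_assoc]
  set C : ℝ := ∑ z ∈ S, |(m z : ℝ)| with hC
  have hsC : ∀ k, s k ≤ C := by
    intro k
    have h1 : ‖((s k : ℝ) : ℂ)‖ ≤ C := by
      rw [hsc k]
      refine (norm_sum_le _ _).trans (Finset.sum_le_sum fun z hz => ?_)
      rw [norm_mul, norm_pow]
      have e : ‖((m z : ℤ) : ℂ)‖ = |(m z : ℝ)| := Complex.norm_intCast _
      rw [e]
      have : ‖u z‖ ^ (k + 1) ≤ 1 := pow_le_one₀ (norm_nonneg _) (hun z hz)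
      calc |(m z : ℝ)| * ‖u z‖ ^ (k + 1) ≤ |(m z : ℝ)| * 1 := by gcongr
        _ = |(m z : ℝ)| := mul_one _
    rw [Complex.norm_real, Real.norm_eq_abs] at h1
    exact (le_abs_self _).trans h1
  -- the first mean
  have hm1 := N1a_mean S (fun z => (m z : ℂ)) u hun
  -- the second mean
  have hm2 := N1a_mean (S ×ˢ S) (fun p => (m p.1 : ℂ) * (m p.2 : ℂ))
    (fun p => u p.1 * (starRingEnd ℂ) (u p.2)) (by
      intro p hp
      rw [Finset.mem_product] at hp
      rw [norm_mul, Complex.norm_conj]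
      exact mul_le_one₀ (hun _ hp.1) (norm_nonneg _) (hun _ hp.2))
  -- values
  set μ : ℤ := if (R : ℂ) ∈ S then m (R : ℂ) else 0 with hμ
  have hv1 : ∑ z ∈ S, (m z : ℂ) * (if u z = 1 then 1 else 0) = (((μ : ℤ) : ℝ) : ℂ) := by
    have e1 : ∀ z ∈ S, (m z : ℂ) * (if u z = 1 then 1 else 0)
        = if z = (R : ℂ) then ((m z : ℤ) : ℂ) else 0 := by
      intro z _
      have : u z = 1 ↔ z = (R : ℂ) := by
        rw [hu]
        exact div_eq_one_iff_eq hRc
      by_cases hz : z = (R : ℂ)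
      · rw [if_pos (this.mpr hz), if_pos hz, mul_one]
      · rw [if_neg (fun e => hz (this.mp e)), if_neg hz, mul_zero]
    rw [Finset.sum_congr rfl e1, Finset.sum_ite_eq' S (R : ℂ) (fun z => ((m z : ℤ) : ℂ)), hμ]
    split_ifs <;> simp
  set B : ℤ := ∑ z ∈ S.filter (fun z => ‖u z‖ = 1), m z ^ 2 with hB
  have huinj : ∀ z w, u z = u w → z = w := by
    intro z w e
    rw [hu] at e
    exact (div_left_inj' hRc).mp e
  have hv2 : ∑ p ∈ S ×ˢ S, ((m p.1 : ℂ) * (m p.2 : ℂ)) *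
      (if u p.1 * (starRingEnd ℂ) (u p.2) = 1 then 1 else 0) = (((B : ℤ) : ℝ) : ℂ) := by
    rw [Finset.sum_product, hB]
    push_cast
    rw [Finset.sum_filter]
    refine Finset.sum_congr rfl fun z hz => ?_
    have e1 : ∀ w ∈ S, ((m z : ℂ) * (m w : ℂ)) *
        (if u z * (starRingEnd ℂ) (u w) = 1 then 1 else 0)
        = if w = z then (if ‖u z‖ = 1 then ((m z : ℤ) : ℂ) ^ 2 else 0) else 0 := by
      intro w hw
      have key := N1a_conj (hun z hz) (hun w hw)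
      by_cases hwz : w = z
      · subst hwz
        rw [if_pos rfl]
        by_cases hn : ‖u w‖ = 1
        · rw [if_pos (key.mpr ⟨rfl, hn⟩), if_pos hn]
          ring
        · rw [if_neg (fun e => hn (key.mp e).2), if_neg hn, mul_zero]
      · rw [if_neg (fun e => hwz (huinj _ _ (key.mp e).1).symm), if_neg hwz, mul_zero]
    rw [Finset.sum_congr rfl e1, Finset.sum_ite_eq' S z, if_pos hz]
  have hB1 : 1 ≤ B := by
    obtain ⟨z, hz, hzR⟩ := hex
    have hzf : z ∈ S.filter (fun z => ‖u z‖ = 1) := by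
      rw [Finset.mem_filter]
      refine ⟨hz, ?_⟩
      rw [hu]
      simp [Complex.norm_real, abs_of_pos hR, hzR, hR.ne']
    have h1 : m z ^ 2 ≤ B := by
      rw [hB]
      exact Finset.single_le_sum (f := fun z => m z ^ 2) (fun w _ => sq_nonneg _) hzf
    have h2 : 0 < m z ^ 2 := by
      have := hm z hz
      positivity
    omega
  -- real versions of the limits
  have hr1 : Tendsto (fun K : ℕ => (K : ℝ)⁻¹ * ∑ k ∈ Finset.range K, s k) atTop (𝓝 (μ : ℝ)) := by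
    rw [hv1] at hm1
    have := (Complex.continuous_re.tendsto _).comp hm1
    rw [Complex.ofReal_re] at this
    refine this.congr fun K => ?_
    rw [Function.comp_apply, ← Complex.ofReal_re ((K : ℝ)⁻¹ * ∑ k ∈ Finset.range K, s k)]
    congr 1
    push_cast
    congr 1
    exact Finset.sum_congr rfl fun k _ => (hsc k).symm
  have hr2 : Tendsto (fun K : ℕ => (K : ℝ)⁻¹ * ∑ k ∈ Finset.range K, s k ^ 2) atTop
      (𝓝 (B : ℝ)) := by
    rw [hv2] at hm2
    have := (Complex.continuous_re.tendsto _).comp hm2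
    rw [Complex.ofReal_re] at this
    refine this.congr fun K => ?_
    rw [Function.comp_apply, ← Complex.ofReal_re ((K : ℝ)⁻¹ * ∑ k ∈ Finset.range K, s k ^ 2)]
    congr 1
    push_cast
    congr 1
    refine Finset.sum_congr rfl fun k _ => ?_
    have e0 : ((s k : ℝ) : ℂ) ^ 2 = ((s k : ℝ) : ℂ) * (starRingEnd ℂ) ((s k : ℝ) : ℂ) := by
      rw [Complex.conj_ofReal, sq]
    rw [e0, hsc k, map_sum, Finset.sum_mul_sum, Finset.sum_product]
    refine Finset.sum_congr rfl fun z _ => Finset.sum_congr rfl fun w _ => ?_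
    rw [map_mul, map_pow, mul_pow]
    have : (starRingEnd ℂ) ((m w : ℤ) : ℂ) = ((m w : ℤ) : ℂ) := by simp
    rw [this]
    ring
  have hcmp : (B : ℝ) ≤ C * (μ : ℝ) := by
    refine le_of_tendsto_of_tendsto' hr2 (hr1.const_mul C) fun K => ?_
    have h1 : ∑ k ∈ Finset.range K, s k ^ 2 ≤ C * ∑ k ∈ Finset.range K, s k := by
      rw [Finset.mul_sum]
      refine Finset.sum_le_sum fun k _ => ?_
      rw [sq]
      exact mul_le_mul_of_nonneg_right (hsC k) (hs0 k)
    calc (K : ℝ)⁻¹ * ∑ k ∈ Finset.range K, s k ^ 2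
        ≤ (K : ℝ)⁻¹ * (C * ∑ k ∈ Finset.range K, s k) :=
          mul_le_mul_of_nonneg_left h1 (inv_nonneg.mpr (Nat.cast_nonneg K))
      _ = C * ((K : ℝ)⁻¹ * ∑ k ∈ Finset.range K, s k) := by ring
  have hC0 : 0 ≤ C := Finset.sum_nonneg fun z _ => abs_nonneg _
  have hμpos : 0 < μ := by
    by_contra hn
    push Not at hn
    have h1 : (μ : ℝ) ≤ 0 := by exact_mod_cast hn
    have h2 : C * (μ : ℝ) ≤ 0 := mul_nonpos_of_nonneg_of_nonpos hC0 h1
    have h3 : (1 : ℝ) ≤ (B : ℝ) := by exact_mod_cast hB1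
    linarith
  by_cases hRS : (R : ℂ) ∈ S
  · rw [hμ, if_pos hRS] at hμpos
    exact ⟨hRS, hμpos⟩
  · rw [hμ, if_neg hRS] at hμpos
    exact absurd hμpos (lt_irrefl _)

end FB
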