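import Pool.Agent.H.MP_fb873c_an.L5a
import Pool.Agent.H.MP_fb873c_an.L6d
import Pool.Agent.H.MP_fb873c_an.S0

/-!
# Part Y1: the trace formula for the de Rham type
-/

namespace FB

open scoped Topology ContDiff Manifold
open Filter

universe u

section Y1aux

variable {m q : ℕ}

/-- the sum of the principal minors, over sequences of indices -/
private theorem Y1_minors_sum (A : Matrix (Fin m) (Fin m) ℂ) (q : ℕ) :
    ∑ f : Fin q → Fin m, (A.submatrix f f).det = (q.factorial : ℂ) *
      ∑ S ∈ Finset.univ.filter (fun S : Finset (Fin m) => S.card = q),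
        (A.submatrix (fun i : S => (i : Fin m)) (fun i : S => (i : Fin m))).det := by
  classical
  have h0 : ∑ f : Fin q → Fin m, (A.submatrix f f).det =
      ∑ f ∈ Finset.univ.filter (fun f : Fin q → Fin m => Function.Injective f),
        (A.submatrix f f).det := by
    symm
    refine Finset.sum_subset (Finset.filter_subset _ _) ?_
    intro f _ hf
    rw [Finset.mem_filter] at hf
    have hf' : ¬ Function.Injective f := fun h => hf ⟨Finset.mem_univ _, h⟩
    unfold Function.Injective at hf'
    push Not at hf'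
    obtain ⟨i, j, hij, hne⟩ := hf'
    refine Matrix.det_zero_of_row_eq hne ?_
    funext k
    rw [Matrix.submatrix_apply, Matrix.submatrix_apply, hij]
  have hmaps : ∀ f ∈ Finset.univ.filter (fun f : Fin q → Fin m => Function.Injective f),
      Finset.univ.image f ∈ Finset.univ.filter (fun S : Finset (Fin m) => S.card = q) := by
    intro f hf
    rw [Finset.mem_filter] at hf ⊢
    refine ⟨Finset.mem_univ _, ?_⟩
    rw [Finset.card_image_of_injective _ hf.2, Finset.card_univ, Fintype.card_fin]
  rw [h0, ← Finset.sum_fiberwise_of_maps_to hmaps, Finset.mul_sum]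
  refine Finset.sum_congr rfl fun S hS => ?_
  have hSc : S.card = q := (Finset.mem_filter.1 hS).2
  have hcard : Fintype.card (Fin q ≃ S) = q.factorial := by
    rw [Fintype.card_equiv (Fintype.equivOfCardEq (by simp [hSc])), Fintype.card_fin]
  have h1 : ∑ e : Fin q ≃ S, (A.submatrix (fun i : S => (i : Fin m))
      (fun i : S => (i : Fin m))).det = ∑ f ∈ (Finset.univ.filter
        (fun f : Fin q → Fin m => Function.Injective f)).filter
          (fun f => Finset.univ.image f = S), (A.submatrix f f).det := by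
    refine Finset.sum_bij (fun (e : Fin q ≃ S) _ => fun i => ((e i : S) : Fin m)) ?_ ?_ ?_ ?_
    · intro e _
      rw [Finset.mem_filter, Finset.mem_filter]
      refine ⟨⟨Finset.mem_univ _, Subtype.val_injective.comp e.injective⟩, ?_⟩
      ext x
      rw [Finset.mem_image]
      constructor
      · rintro ⟨i, _, rfl⟩
        exact (e i).2
      · intro hx
        exact ⟨e.symm ⟨x, hx⟩, Finset.mem_univ _, by rw [Equiv.apply_symm_apply]⟩
    · intro e _ e' _ h
      ext i
      exact congrArg Fin.val (congrFun h i)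
    · intro f hf
      rw [Finset.mem_filter, Finset.mem_filter] at hf
      obtain ⟨⟨_, hinj⟩, him⟩ := hf
      have hmem : ∀ i, f i ∈ S := by
        intro i
        rw [← him]
        exact Finset.mem_image_of_mem _ (Finset.mem_univ _)
      have hb : Function.Bijective (fun i : Fin q => (⟨f i, hmem i⟩ : S)) := by
        refine ⟨fun i j h => hinj (congrArg Subtype.val h), ?_⟩
        rintro ⟨x, hx⟩
        rw [← him, Finset.mem_image] at hx
        obtain ⟨i, _, hi⟩ := hx
        exact ⟨i, Subtype.ext hi⟩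
      exact ⟨Equiv.ofBijective _ hb, Finset.mem_univ _, rfl⟩
    · intro e _
      exact (Matrix.det_submatrix_equiv_self e
        (A.submatrix (fun i : S => (i : Fin m)) (fun i : S => (i : Fin m)))).symm
  rw [← h1, Finset.sum_const, Finset.card_univ, hcard, nsmul_eq_mul]

/-- standard basis vector -/
private noncomputable def Y1_e (j : Fin m) : Er m := EuclideanSpace.single j (1 : ℝ)

private theorem Y1_expand (v : Er m) : v = ∑ j, v j • Y1_e j := by
  have h := (EuclideanSpace.basisFun (Fin m) ℝ).sum_repr v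
  conv_lhs => rw [← h]
  refine Finset.sum_congr rfl fun j _ => ?_
  rw [EuclideanSpace.basisFun_apply, EuclideanSpace.basisFun_repr]
  rfl

private theorem Y1_univ (β : Lam (Er m) q) (c : Fin q → ℝ) (w : Fin q → Er m) :
    β (fun i => c i • w i) = (∏ i, ((c i : ℝ) : ℂ)) * β w := by
  have h := β.toAlternatingMap.toMultilinearMap.map_smul_univ c w
  have h2 : β (fun i => c i • w i) = (∏ i, c i) • β w := h
  rw [h2, Complex.real_smul, Complex.ofReal_prod]

private theorem Y1_sum (β : Lam (Er m) q) (v : Fin q → Er m) :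
    β v = ∑ f : Fin q → Fin m, (∏ i, ((v i (f i) : ℝ) : ℂ)) * β (fun i => Y1_e (f i)) := by
  have h1 : v = fun i => ∑ j, v i j • Y1_e j := by
    funext i
    exact Y1_expand (v i)
  conv_lhs => rw [h1]
  rw [β.map_sum]
  exact Finset.sum_congr rfl fun f _ => Y1_univ β (fun i => v i (f i)) (fun i => Y1_e (f i))

/-- determinant as a continuous alternating form -/
private noncomputable def Y1_detC (q : ℕ) : (Fin q → ℂ) [⋀^Fin q]→L[ℂ] ℂ :=
  { Matrix.detRowAlternating (n := Fin q) (R := ℂ) with
    cont := Continuous.matrix_det continuous_id }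

/-- some coordinates -/
private noncomputable def Y1_cj (f : Fin q → Fin m) : Er m →L[ℝ] (Fin q → ℂ) :=
  ContinuousLinearMap.pi fun j => Complex.ofRealCLM.comp
    (EuclideanSpace.proj (𝕜 := ℝ) (f j) : Er m →L[ℝ] ℝ)

private noncomputable def Y1_eps (f : Fin q → Fin m) : Lam (Er m) q :=
  ((Y1_detC q).restrictScalars ℝ).compContinuousLinearMap (Y1_cj f)

private theorem Y1_eps_apply (f : Fin q → Fin m) (v : Fin q → Er m) :
    Y1_eps f v = Matrix.det (Matrix.of fun i j => ((v i (f j) : ℝ) : ℂ)) := rfl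

private theorem Y1_recon (β : Lam (Er m) q) :
    β = ((q.factorial : ℂ)⁻¹) • ∑ f : Fin q → Fin m, β (fun i => Y1_e (f i)) • Y1_eps f := by
  ext v
  rw [ContinuousAlternatingMap.smul_apply, ContinuousAlternatingMap.sum_apply, smul_eq_mul]
  have h1 : ∀ f : Fin q → Fin m, (β (fun i => Y1_e (f i)) • Y1_eps f) v =
      ∑ σ : Equiv.Perm (Fin q), ((Equiv.Perm.sign σ : ℤ) : ℂ) *
        ((∏ i, ((v (σ i) (f i) : ℝ) : ℂ)) * β (fun i => Y1_e (f i))) := by
    intro f
    rw [ContinuousAlternatingMap.smul_apply, Y1_eps_apply, Matrix.det_apply', smul_eq_mul,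
      Finset.mul_sum]
    refine Finset.sum_congr rfl fun σ _ => ?_
    simp only [Matrix.of_apply]
    ring
  rw [Finset.sum_congr rfl fun f _ => h1 f, Finset.sum_comm]
  have h2 : ∀ σ : Equiv.Perm (Fin q), ∑ f : Fin q → Fin m, ((Equiv.Perm.sign σ : ℤ) : ℂ) *
      ((∏ i, ((v (σ i) (f i) : ℝ) : ℂ)) * β (fun i => Y1_e (f i))) = β v := by
    intro σ
    rw [← Finset.mul_sum, ← Y1_sum β (fun i => v (σ i))]
    have h3 := β.toAlternatingMap.map_perm v σ
    have h4 : β (fun i => v (σ i)) = (Equiv.Perm.sign σ : ℤ) • β v := h3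
    rw [h4, zsmul_eq_mul, ← mul_assoc, ← Int.cast_mul, Int.units_coe_mul_self, Int.cast_one,
      one_mul]
  rw [Finset.sum_congr rfl fun σ _ => h2 σ, Finset.sum_const, Finset.card_univ,
    Fintype.card_perm, Fintype.card_fin, nsmul_eq_mul, ← mul_assoc, inv_mul_cancel₀, one_mul]
  exact_mod_cast q.factorial_ne_zero

/-- matrix of `L` -/
private noncomputable def Y1_mat (L : Er m →L[ℝ] Er m) : Matrix (Fin m) (Fin m) ℂ :=
  Matrix.of fun i j => ((L (Y1_e j) i : ℝ) : ℂ)

private theorem Y1_sig_eq (T : Ty (Er m)) (hT : ∀ q α, T.pi q α = α) (L : Er m →L[ℝ] Er m) :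
    T.sig q L = (q.factorial : ℂ)⁻¹ * ∑ f : Fin q → Fin m,
      ((Y1_mat L).submatrix f f).det := by
  have hfin : FiniteDimensional ℂ (Lam (Er m) q) := lam_finite (W := Er m) q
  let ι : ((Fin q → Fin m) → ℂ) →ₗ[ℂ] Lam (Er m) q :=
    (q.factorial : ℂ)⁻¹ • Fintype.linearCombination ℂ (fun f => Y1_eps f)
  let κ : Lam (Er m) q →ₗ[ℂ] ((Fin q → Fin m) → ℂ) :=
    { toFun := fun β f => β (fun i => Y1_e (f i))
      map_add' := fun _ _ => rfl
      map_smul' := fun _ _ => rfl }
  have hι : ∀ c, ι c = (q.factorial : ℂ)⁻¹ • ∑ f, c f • Y1_eps f := fun c => rfl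
  have hPM : (T.pi q).toLinearMap ∘ₗ pbk L q =
      ι ∘ₗ (κ ∘ₗ (T.pi q).toLinearMap ∘ₗ pbk L q) := by
    ext1 γ
    exact Y1_recon (T.pi q (pbk L q γ))
  unfold Ty.sig
  rw [hPM, LinearMap.trace_comp_comm', LinearMap.trace_eq_matrix_trace ℂ (Pi.basisFun ℂ _),
    Matrix.trace, Finset.mul_sum]
  refine Finset.sum_congr rfl fun f _ => ?_
  rw [Matrix.diag_apply, LinearMap.toMatrix_apply, Pi.basisFun_repr, Pi.basisFun_apply]
  have h1 : ι (Pi.single f 1) = (q.factorial : ℂ)⁻¹ • Y1_eps f := by
    rw [hι]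
    congr 1
    rw [Finset.sum_eq_single f]
    · rw [Pi.single_eq_same, one_smul]
    · intro g _ hg
      rw [Pi.single_eq_of_ne hg]
      exact zero_smul ℂ (Y1_eps g)
    · intro h
      exact absurd (Finset.mem_univ _) h
  have h2 : T.pi q (pbk L q (Y1_eps f)) = (Y1_eps f).compContinuousLinearMap L := hT q _
  show T.pi q (pbk L q (ι (Pi.single f 1))) (fun i => Y1_e (f i)) = _
  rw [h1, map_smul, map_smul, h2, ContinuousAlternatingMap.smul_apply, smul_eq_mul,
    ContinuousAlternatingMap.compContinuousLinearMap_apply, Y1_eps_apply]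
  congr 1
  rw [← Matrix.det_transpose ((Y1_mat L).submatrix f f)]
  rfl

end Y1aux

variable {n : ℕ}

/-- `T.sig q L` is the trace of the pull-back `L^*` on the complex valued alternating `q`-forms on `ℝ^n` (`T.pi q = 1`).  In the basis of the elementary forms
`e_S`, `S ⊆ Fin n`, `card S = q`, this is the sum of the principal minors `det A_S` of the matrix `A` of `L` (over `ℂ`); `det (1 - A) = ∑_S (-1)^(card S) det A_S` (`det_one_sub_eq`, file L6d).
For `q > n` there are no forms.  The proof is as in the file L6c (`sig_dolb`, there for forms conjugate-linear on `ℂ^m`). -/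
theorem sig_dr (T : Ty (Er n)) (hT : ∀ q α, T.pi q α = α) (L : Er n →L[ℝ] Er n) :
    ∑ q ∈ Finset.range (n + 1), (-1 : ℂ) ^ q * T.sig q L =
      ((LinearMap.det ((ContinuousLinearMap.id ℝ (Er n) - L :
        Er n →L[ℝ] Er n)).toLinearMap : ℝ) : ℂ) := by
  classical
  have hq : ∀ q ∈ Finset.range (n + 1), (-1 : ℂ) ^ q * T.sig q L =
      ∑ S ∈ Finset.univ.filter (fun S : Finset (Fin n) => S.card = q),
        ((-1 : ℂ) ^ S.card * ((Y1_mat L).submatrix (fun i : S => (i : Fin n))
          (fun i : S => (i : Fin n))).det) := by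
    intro q _
    rw [Y1_sig_eq T hT, Y1_minors_sum, ← mul_assoc _ (q.factorial : ℂ),
      inv_mul_cancel₀ (by exact_mod_cast q.factorial_ne_zero), one_mul, Finset.mul_sum]
    refine Finset.sum_congr rfl fun S hS => ?_
    rw [(Finset.mem_filter.1 hS).2]
  rw [Finset.sum_congr rfl hq]
  have hmaps : ∀ S ∈ (Finset.univ : Finset (Finset (Fin n))), S.card ∈ Finset.range (n + 1) := by
    intro S _
    have h := Finset.card_le_univ S
    rw [Fintype.card_fin] at h
    rw [Finset.mem_range]
    omega
  rw [Finset.sum_fiberwise_of_maps_to hmaps, ← det_one_sub_eq]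
  rw [← LinearMap.det_toMatrix (EuclideanSpace.basisFun (Fin n) ℝ).toBasis]
  have h5 : ∀ B : Matrix (Fin n) (Fin n) ℝ, ((B.det : ℝ) : ℂ) = (B.map (fun x : ℝ => (x : ℂ))).det := by
    intro B
    exact RingHom.map_det Complex.ofRealHom B
  rw [h5]
  congr 1
  ext i j
  rw [Matrix.map_apply, LinearMap.toMatrix_apply, OrthonormalBasis.coe_toBasis, EuclideanSpace.basisFun_apply,
    OrthonormalBasis.coe_toBasis_repr_apply, EuclideanSpace.basisFun_repr]
  simp only [Matrix.sub_apply, Matrix.one_apply, Y1_mat, Matrix.of_apply, Y1_e]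
  simp
  split_ifs <;> simp

end FB
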