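import Pool.Agent.H.MP_fb873c_an.E2d
import Pool.Agent.H.MP_fb873c_an.Y1

/-!
# Part Y2: the Lefschetz formula for maps with fixed points of index one
-/

namespace FB

open scoped Topology ContDiff Manifold
open Filter

universe u

variable {n : ℕ} {M : Type u} [TopologicalSpace M] [ChartedSpace (Er n) M]
  [IsManifold (𝓡 n) ∞ M] [CompactSpace M] [T2Space M]

theorem Y2_abs_det (A B : Er n →L[ℝ] Er n)
    (h : 0 < LinearMap.det ((A - B : Er n →L[ℝ] Er n)).toLinearMap) :
    |LinearMap.det ((B - A : Er n →L[ℝ] Er n)).toLinearMap| =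
      LinearMap.det ((A - B : Er n →L[ℝ] Er n)).toLinearMap := by
  have h1 : ((B - A : Er n →L[ℝ] Er n)).toLinearMap =
      (-1 : ℝ) • ((A - B : Er n →L[ℝ] Er n)).toLinearMap := by
    ext v
    simp
  rw [h1, LinearMap.det_smul, abs_mul, abs_pow, abs_neg, abs_one, one_pow, one_mul, abs_of_pos h]

/-- `lefschetz_formula` (file E2d) with `Z = hfin.toFinset`, `sig_dr`: every fixed point contributes `det (1 - D) / |det (D - 1)| = 1` (`|det (D - 1)| = |det (1 - D)|`: `det (-A) = (-1)^n det A`).  `Floc F z` is by definition the map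
in the definition of `dfix F z` (compare the use in Z2e). -/
theorem lef_pos (T : Ty (Er n)) (hT : ∀ q α, T.pi q α = α) (hM : TGood T M) {F : M → M}
    (hF : ContMDiff (𝓡 n) (𝓡 n) ∞ F) (hFT : ∀ p, fd (W := Er n) (W' := Er n) F p ∈ T.good)
    (hfin : {x | F x = x}.Finite)
    (hpos : ∀ x, F x = x → 0 < LinearMap.det ((ContinuousLinearMap.id ℝ (Er n) -
      dfix (n := n) F x : Er n →L[ℝ] Er n)).toLinearMap) :
    Lef T hM F hF hFT = (({x | F x = x}.ncard : ℕ) : ℂ) := by
  have hZ : ∀ p, F p = p ↔ p ∈ hfin.toFinset := fun p => by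
    rw [Set.Finite.mem_toFinset]
    rfl
  have hd : ∀ z, fderiv ℝ (Floc F z) (chartAt (Er n) z z) = dfix (n := n) F z := fun z => rfl
  have hnd : ∀ z ∈ hfin.toFinset, LinearMap.det (fderiv ℝ (Floc F z) (chartAt (Er n) z z)
      - ContinuousLinearMap.id ℝ (Er n) : Er n →L[ℝ] Er n).toLinearMap ≠ 0 := by
    intro z hz
    have hz' := hpos z ((hZ z).2 hz)
    rw [hd, ← abs_pos, Y2_abs_det _ _ hz']
    exact hz'
  have h := lefschetz_formula T hM hF hFT hfin.toFinset hZ hnd
  have hfr : Module.finrank ℝ (Er n) = n := finrank_euclideanSpace_fin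
  rw [h, Set.ncard_eq_toFinset_card _ hfin, Finset.card_eq_sum_ones, Nat.cast_sum]
  refine Finset.sum_congr rfl fun z hz => ?_
  have hz' := hpos z ((hZ z).2 hz)
  rw [hd, hfr, sig_dr T hT, Y2_abs_det _ _ hz', Nat.cast_one]
  exact div_self (Complex.ofReal_ne_zero.2 hz'.ne')

end FB
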