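import Pool.Agent.H.MP_fb873c_an.K0
import Pool.Agent.H.MP_fb873c_an.S3

/-!
# Part Y0: definitions: Lefschetz numbers
-/

namespace FB

open scoped Topology ContDiff Manifold
open Filter

universe u

section

variable {n : ℕ} {M : Type u} [TopologicalSpace M] [ChartedSpace (Er n) M]

/-- The pull-back `F^*` of complex valued `q`-forms on `M`. -/
noncomputable def pbl (F : M → M) (q : ℕ) : (M → Lam (Er n) q) →ₗ[ℂ] (M → Lam (Er n) q) where
  toFun η := pb F η
  map_add' _ _ := rfl
  map_smul' _ _ := rfl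

end

section

variable {E : Type u} [AddCommGroup E] [Module ℂ E]

theorem qtr_aux (A B : Submodule ℂ E) (φ : E →ₗ[ℂ] E) (h : A ≤ A.comap φ ∧ B ≤ B.comap φ) :
    ∀ x ∈ A.map B.mkQ, (B.mapQ B φ h.2) x ∈ A.map B.mkQ := by
  rintro x ⟨a, ha, rfl⟩
  exact ⟨φ a, h.1 ha, rfl⟩

open Classical in
/-- The trace of the linear map which `φ` induces on `A / (A ∩ B)` (the image of `A` in the quotient by `B`);
`0` if `φ` does not map `A` to `A` and `B` to `B`. -/
noncomputable def qtr (A B : Submodule ℂ E) (φ : E →ₗ[ℂ] E) : ℂ :=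
  if h : A ≤ A.comap φ ∧ B ≤ B.comap φ then
    LinearMap.trace ℂ (A.map B.mkQ) ((B.mapQ B φ h.2).restrict (qtr_aux A B φ h))
  else 0

end

section

variable {n : ℕ} {M : Type u} [TopologicalSpace M] [ChartedSpace (Er n) M]

/-- The Lefschetz number of `F`: the alternating sum of the traces of `F^*` on the de Rham cohomology (closed modulo
exact complex valued forms). -/
noncomputable def LefN (n : ℕ) {M : Type u} [TopologicalSpace M] [ChartedSpace (Er n) M]
    (F : M → M) : ℂ :=
  ∑ q ∈ Finset.range (n + 1), (-1 : ℂ) ^ q * qtr (Zcl (Er n) M q) (Bex (Er n) M q) (pbl F q)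

/-- `A` has no complex eigenvalue of modulus one and no real eigenvalue. -/
def NR (A : Er n →L[ℝ] Er n) : Prop :=
  ∀ l : ℂ, ((LinearMap.charpoly A.toLinearMap).map (algebraMap ℝ ℂ)).IsRoot l → ‖l‖ ≠ 1 ∧ l.im ≠ 0

/-- All periodic points of `g` are nondegenerate of index `1`. -/
def PosNd (g : Dif n M) : Prop :=
  ∀ (x : M) (k : ℕ), 0 < k → itr g k x = x → 0 < LinearMap.det
    ((ContinuousLinearMap.id ℝ (Er n) - dfix (n := n) (itr g k) x :
      Er n →L[ℝ] Er n)).toLinearMap

end

end FB
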