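import Pool.Agent.H.MP_fb873c_an.G1c
import Pool.Agent.H.MP_fb873c_an.G1f
import Pool.Agent.H.MP_fb873c_an.Y0

/-!
# Part Y3b: pull-back preserves closed and exact forms
-/

namespace FB

open scoped Topology ContDiff Manifold
open Filter

universe u

variable {n : ℕ} {M : Type u} [TopologicalSpace M] [ChartedSpace (Er n) M]
  [IsManifold (𝓡 n) ∞ M] [CompactSpace M] [T2Space M]

omit [CompactSpace M] [T2Space M] in
/-- `SmoothForm.pb`, `dform_pb`. -/
theorem pbl_Zcl {F : M → M} (hF : ContMDiff (𝓡 n) (𝓡 n) ∞ F) (q : ℕ) :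
    Zcl (Er n) M q ≤ (Zcl (Er n) M q).comap (pbl F q) := by
  intro η hη
  have h0 : SmoothForm (pb F η) := hη.1.pb hF
  refine ⟨h0, fun x => ?_⟩
  have h1 := dform_pb (W := Er n) (W' := Er n) hη.1 hF x
  refine h1.trans ?_
  show (dform η (F x)).compContinuousLinearMap _ = 0
  rw [hη.2 (F x)]
  rfl

omit [CompactSpace M] [T2Space M] in
theorem pbl_Bex {F : M → M} (hF : ContMDiff (𝓡 n) (𝓡 n) ∞ F) (q : ℕ) :
    Bex (Er n) M q ≤ (Bex (Er n) M q).comap (pbl F q) := by
  cases q with
  | zero =>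
    intro η hη
    have h1 : η = 0 := hη
    subst h1
    exact (Submodule.mem_bot ℂ).2 rfl
  | succ q =>
    rintro η ⟨β, h1, h2⟩
    refine ⟨pb F β, h1.pb hF, fun x => ?_⟩
    have h3 := dform_pb (W := Er n) (W' := Er n) h1 hF x
    refine Eq.trans ?_ h3.symm
    show (η (F x)).compContinuousLinearMap _ = (dform β (F x)).compContinuousLinearMap _
    rw [h2 (F x)]

omit [CompactSpace M] [T2Space M] in
/-- `dform_dform`; for `q = 0` trivial. -/
theorem Bex_le_Zcl (q : ℕ) : Bex (Er n) M q ≤ Zcl (Er n) M q := by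
  cases q with
  | zero => exact bot_le
  | succ q =>
    rintro η ⟨β, h1, h2⟩
    have h3 : η = dform β := funext h2
    subst h3
    exact ⟨h1.dform, fun x => dform_dform h1 x⟩

end FB
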