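import Pool.Agent.H.MP_fb873c_an.G2z
import Pool.Agent.H.MP_fb873c_an.Y3b

/-!
# Part Y3c: comparison of the two definitions of the Lefschetz number
-/

namespace FB

open scoped Topology ContDiff Manifold
open Filter

universe u

section

variable {A : ℕ → Type*} [∀ q, AddCommGroup (A q)] [∀ q, Module ℂ (A q)]

/-- the isomorphism from the cohomology given by a surjective map on cocycles with the right kernel -/
theorem Y3c_equiv (d : ∀ q, A q →ₗ[ℂ] A (q + 1)) (q : ℕ) {H2 : Type*} [AddCommGroup H2]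
    [Module ℂ H2] (g : LinearMap.ker (d q) →ₗ[ℂ] H2) (hg : Function.Surjective g)
    (h : ∀ a, g a = 0 ↔ (a : A q) ∈ Bd d q) :
    ∃ e : HC d q ≃ₗ[ℂ] H2, ∀ a, e (HC.mk d q a) = g a := by
  have h0 : (Bd d q).comap (LinearMap.ker (d q)).subtype ≤ LinearMap.ker g := by
    intro a ha
    exact (h a).2 ha
  let f : HH d q →ₗ[ℂ] H2 := Submodule.liftQ _ g h0
  have hf : ∀ a, f (Submodule.Quotient.mk a) = g a := fun a => Submodule.liftQ_apply _ _ _
  have hinj : Function.Injective f := by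
    rw [injective_iff_map_eq_zero]
    intro x hx
    obtain ⟨a, rfl⟩ := Submodule.Quotient.mk_surjective _ x
    rw [hf] at hx
    exact (Submodule.Quotient.mk_eq_zero _).2 ((h a).1 hx)
  have hsur : Function.Surjective f := by
    intro y
    obtain ⟨a, ha⟩ := hg y
    exact ⟨Submodule.Quotient.mk a, by rw [hf, ha]⟩
  let e : HH d q ≃ₗ[ℂ] H2 := LinearEquiv.ofBijective f ⟨hinj, hsur⟩
  exact ⟨e, fun a => hf a⟩

/-- the isomorphism is compatible with the maps induced by a chain map -/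
theorem Y3c_nat (d : ∀ q, A q →ₗ[ℂ] A (q + 1)) (φ : ∀ q, A q →ₗ[ℂ] A q)
    (hφ : ∀ q a, d q (φ q a) = φ (q + 1) (d q a)) (q : ℕ) {E : Type*} [AddCommGroup E]
    [Module ℂ E] (Z B : Submodule ℂ E) (ψ : E →ₗ[ℂ] E) (hB : B ≤ B.comap ψ) (i : A q →ₗ[ℂ] E)
    (hi : ∀ a, i (φ q a) = ψ (i a))
    (g : LinearMap.ker (d q) →ₗ[ℂ] Z.map B.mkQ) (hg : Function.Surjective g)
    (hgi : ∀ a, (g a : E ⧸ B) = B.mkQ (i a))
    (h : ∀ a, g a = 0 ↔ (a : A q) ∈ Bd d q) :
    ∃ e : HC d q ≃ₗ[ℂ] Z.map B.mkQ, ∀ x,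
      ((e (HCmap d d φ hφ q x) : Z.map B.mkQ) : E ⧸ B) = B.mapQ B ψ hB (e x) := by
  obtain ⟨e, he⟩ := Y3c_equiv d q g hg h
  refine ⟨e, fun x => ?_⟩
  obtain ⟨a, rfl⟩ := HC.mk_surjective d q x
  rw [HCmap_mk, he, he, hgi, hgi]
  show B.mkQ (i (φ q a)) = _
  rw [hi]
  rfl

end

section

variable {n : ℕ} {M : Type u} [TopologicalSpace M] [ChartedSpace (Er n) M]
  [IsManifold (𝓡 n) ∞ M]

theorem Y3c_ker (T : Ty (Er n)) (hT : ∀ q α, T.pi q α = α) (hM : TGood T M) (q : ℕ)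
    (η : SFm T M q) : Dm T hM q η = 0 ↔ ∀ x, dform η.1 x = 0 := by
  constructor
  · intro h x
    have h1 := congrFun (congrArg Subtype.val h) x
    rw [Dm_apply, hT] at h1
    exact h1
  · intro h
    apply Subtype.ext
    funext x
    rw [Dm_apply, hT, h x]
    rfl

theorem Y3c_Bd (T : Ty (Er n)) (hT : ∀ q α, T.pi q α = α) (hM : TGood T M) (q : ℕ)
    (η : SFm T M q) : η ∈ Bd (A := fun q => SFm T M q) (Dm T hM) q ↔ η.1 ∈ Bex (Er n) M q := by
  cases q with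
  | zero =>
    constructor
    · intro h
      have h1 : η = 0 := h
      rw [h1]
      exact Submodule.zero_mem _
    · intro h
      have h1 : η.1 = 0 := h
      have h2 : η = 0 := Subtype.ext h1
      exact h2
  | succ q =>
    constructor
    · rintro ⟨β, hβ⟩
      refine ⟨β.1, β.2.1, fun x => ?_⟩
      rw [← hβ, Dm_apply, hT]
    · rintro ⟨β, h1, h2⟩
      refine ⟨⟨β, h1, fun p => hT _ _⟩, ?_⟩
      apply Subtype.ext
      funext x
      rw [Dm_apply, hT]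
      exact (h2 x).symm

theorem Y3c_ex (T : Ty (Er n)) (hT : ∀ q α, T.pi q α = α) (hM : TGood T M) (q : ℕ) :
    ∃ g : LinearMap.ker (Dm T hM q) →ₗ[ℂ] (Zcl (Er n) M q).map (Bex (Er n) M q).mkQ,
      ∀ a, (g a : (M → Lam (Er n) q) ⧸ Bex (Er n) M q) = (Bex (Er n) M q).mkQ a.1.1 :=
  ⟨LinearMap.codRestrict _ ((Bex (Er n) M q).mkQ ∘ₗ (SFm T M q).subtype ∘ₗ
    (LinearMap.ker (Dm T hM q)).subtype) fun a =>
      ⟨a.1.1, ⟨a.1.2.1, (Y3c_ker T hT hM q a.1).1 a.2⟩, rfl⟩, fun _ => rfl⟩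

theorem Y3c_main (T : Ty (Er n)) (hT : ∀ q α, T.pi q α = α) (hM : TGood T M) (q : ℕ)
    (g : LinearMap.ker (Dm T hM q) →ₗ[ℂ] (Zcl (Er n) M q).map (Bex (Er n) M q).mkQ)
    (hg : ∀ a, (g a : (M → Lam (Er n) q) ⧸ Bex (Er n) M q) = (Bex (Er n) M q).mkQ a.1.1) :
    Function.Surjective g ∧
      ∀ a : LinearMap.ker (Dm T hM q), g a = 0 ↔ a.1.1 ∈ Bex (Er n) M q := by
  constructor
  · rintro ⟨_, α, hα, rfl⟩
    refine ⟨⟨⟨α, hα.1, fun p => hT _ _⟩, ?_⟩, ?_⟩
    · rw [LinearMap.mem_ker]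
      exact (Y3c_ker T hT hM q _).2 hα.2
    · apply Subtype.ext
      exact hg _
  · intro a
    constructor
    · intro h
      have h1 := congrArg Subtype.val h
      rw [hg a] at h1
      exact (Submodule.Quotient.mk_eq_zero _).1 h1
    · intro h
      apply Subtype.ext
      rw [hg a]
      exact (Submodule.Quotient.mk_eq_zero _).2 h

end

variable {n : ℕ} {M : Type u} [TopologicalSpace M] [ChartedSpace (Er n) M]
  [IsManifold (𝓡 n) ∞ M] [CompactSpace M] [T2Space M]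

/-- For `T.pi = 1` (de Rham type) the cohomology `HT T hM q` is isomorphic to `(Zcl q).map (Bex q).mkQ` (see the proof of `finrank_dr`, file Z3d, which constructs the comparison), compatibly with
`FT T hM F` and the map induced by `pbl F q`. -/
theorem exists_dr_equiv (T : Ty (Er n)) (hT : ∀ q α, T.pi q α = α) (hM : TGood T M) {F : M → M}
    (hF : ContMDiff (𝓡 n) (𝓡 n) ∞ F) (hFT : ∀ p, fd (W := Er n) (W' := Er n) F p ∈ T.good)
    (q : ℕ) : ∃ e : HT T hM q ≃ₗ[ℂ] (Zcl (Er n) M q).map (Bex (Er n) M q).mkQ,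
      ∀ h, ((e (FT T hM F hF hFT q h) : (Zcl (Er n) M q).map (Bex (Er n) M q).mkQ) :
        (M → Lam (Er n) q) ⧸ Bex (Er n) M q) =
        (Bex (Er n) M q).mapQ (Bex (Er n) M q) (pbl F q) (pbl_Bex hF q) (e h) := by
  obtain ⟨g, hg⟩ := Y3c_ex T hT hM q
  obtain ⟨h1, h2⟩ := Y3c_main T hT hM q g hg
  have h3 : ∀ a : LinearMap.ker (Dm T hM q), g a = 0 ↔
      a.1 ∈ Bd (A := fun q => SFm T M q) (Dm T hM) q := fun a => by
    rw [h2 a, Y3c_Bd T hT hM q a.1]
  have h4 : ∀ a : SFm T M q, (SFm T M q).subtype (Fm T F hF hFT q a) =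
      pbl F q ((SFm T M q).subtype a) := fun a => rfl
  have h := Y3c_nat (A := fun q => SFm T M q) (Dm T hM) (Fm T F hF hFT) (Dm_Fm T hM F hF hFT) q
    (Zcl (Er n) M q) (Bex (Er n) M q) (pbl F q) (pbl_Bex hF q) (SFm T M q).subtype h4 g h1 hg h3
  exact h

end FB
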