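import Pool.Agent.H.MP_fb873c_an.Y3a
import Pool.Agent.H.MP_fb873c_an.Y3c

/-!
# Part Y3: the Lefschetz number
-/

namespace FB

open scoped Topology ContDiff Manifold
open Filter

universe u

variable {n : ℕ} {M : Type u} [TopologicalSpace M] [ChartedSpace (Er n) M]
  [IsManifold (𝓡 n) ∞ M] [CompactSpace M] [T2Space M]

/-- `exists_dr_equiv`, `qtr_eq`. -/
theorem qtr_FT (T : Ty (Er n)) (hT : ∀ q α, T.pi q α = α) (hM : TGood T M) {F : M → M}
    (hF : ContMDiff (𝓡 n) (𝓡 n) ∞ F) (hFT : ∀ p, fd (W := Er n) (W' := Er n) F p ∈ T.good)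
    (q : ℕ) : qtr (Zcl (Er n) M q) (Bex (Er n) M q) (pbl F q) =
      LinearMap.trace ℂ (HT T hM q) (FT T hM F hF hFT q) := by
  obtain ⟨e, he⟩ := exists_dr_equiv T hT hM hF hFT q
  exact qtr_eq _ _ _ (pbl_Zcl hF q) (pbl_Bex hF q) e _ he

/-- Definition of `Lef` (file G2z), `qtr_FT`. -/
theorem lefN_eq (T : Ty (Er n)) (hT : ∀ q α, T.pi q α = α) (hM : TGood T M) {F : M → M}
    (hF : ContMDiff (𝓡 n) (𝓡 n) ∞ F) (hFT : ∀ p, fd (W := Er n) (W' := Er n) F p ∈ T.good) :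
    LefN n F = Lef T hM F hF hFT := by
  unfold LefN Lef
  have h1 : Module.finrank ℝ (Er n) = n := finrank_euclideanSpace_fin
  rw [h1]
  refine Finset.sum_congr rfl fun q _ => ?_
  rw [qtr_FT T hT hM hF hFT q]

end FB
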