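import Pool.Agent.H.MP_fb873c_an.D1f
import Pool.Agent.H.MP_fb873c_an.D2m1
import Pool.Agent.H.MP_fb873c_an.D4a
import Pool.Agent.H.MP_fb873c_an.L6a
import Pool.Agent.H.MP_fb873c_an.Y2
import Pool.Agent.H.MP_fb873c_an.Y3

/-!
# Part Y4a: the number of fixed points
-/

namespace FB

open scoped Topology ContDiff Manifold
open Filter

universe u

variable {n : ℕ} {M : Type u} [TopologicalSpace M] [ChartedSpace (Er n) M]
  [IsManifold (𝓡 n) ∞ M] [CompactSpace M] [T2Space M]

/-- `exists_drTy` (file L6a) as in `euler_eq_zero` (file Z4): `TGood` and `fd ∈ T.good` are trivial.  Finiteness: `D1_fin` (file D1f; nondegenerate as the determinant is positive).  `lef_pos`, `lefN_eq`.  Smoothness of the iterates: `D2m1_iterate`. -/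
theorem card_fix {g : Dif n M} {k : ℕ}
    (hpos : ∀ x, itr g k x = x → 0 < LinearMap.det ((ContinuousLinearMap.id ℝ (Er n) -
      dfix (n := n) (itr g k) x : Er n →L[ℝ] Er n)).toLinearMap) :
    {x | itr g k x = x}.Finite ∧ (({x | itr g k x = x}.ncard : ℕ) : ℂ) = LefN n (itr g k) := by
  obtain ⟨T, -, -, hgood, hT⟩ := exists_drTy (Er n)
  have hM : TGood T M := by
    intro x0 x1 p _ _
    rw [hgood]
    trivial
  have hT1 : ∀ L : Er n →L[ℝ] Er n, L ∈ T.good := fun L => by rw [hgood]; trivial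
  have hs : ContMDiff (𝓡 n) (𝓡 n) ∞ (itr g k) := D2m1_iterate g k
  have hfin : {x | itr g k x = x}.Finite := by
    refine D1_fin (D4a_c1 k g) fun x hx => ?_
    intro h0
    have h1 := hpos x hx
    have h2 : ((dfix (n := n) (itr g k) x - ContinuousLinearMap.id ℝ (Er n) :
        Er n →L[ℝ] Er n)).toLinearMap = (-1 : ℝ) • ((ContinuousLinearMap.id ℝ (Er n) -
        dfix (n := n) (itr g k) x : Er n →L[ℝ] Er n)).toLinearMap := by
      ext v
      simp
    have h3 : LinearMap.det ((dfix (n := n) (itr g k) x - ContinuousLinearMap.id ℝ (Er n) :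
        Er n →L[ℝ] Er n)).toLinearMap = 0 := h0
    rw [h2, LinearMap.det_smul] at h3
    rcases mul_eq_zero.1 h3 with h4 | h4
    · exact absurd h4 (pow_ne_zero _ (by norm_num))
    · exact absurd h4 h1.ne'
  refine ⟨hfin, ?_⟩
  rw [lefN_eq T hT hM hs (fun p => hT1 _), lef_pos T hT hM hs (fun p => hT1 _) hfin hpos]

end FB
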