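import Pool.Agent.H.MP_fb873c_an.Y10b
import Pool.Agent.H.MP_fb873c_an.Y4a

/-!
# Part N2: the fixed points and the Lefschetz numbers of the inverse
-/

namespace FB

open scoped Topology ContDiff Manifold
open Filter

universe u

variable {n : ℕ} {M : Type u} [TopologicalSpace M] [ChartedSpace (Er n) M]
  [IsManifold (𝓡 n) ∞ M] [CompactSpace M] [T2Space M]

omit [IsManifold (𝓡 n) ∞ M] [CompactSpace M] [T2Space M] in
/-- `f^k x = x` iff `f^(-k) x = x`. -/
theorem fix_symm (f : Dif n M) (k : ℕ) (x : M) : itr f.symm k x = x ↔ itr f k x = x := by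
  have h1 : Function.LeftInverse (itr f.symm k) (itr f k) :=
    Function.LeftInverse.iterate (fun y => f.symm_apply_apply y) k
  have h2 : Function.LeftInverse (itr f k) (itr f.symm k) :=
    Function.LeftInverse.iterate (fun y => f.apply_symm_apply y) k
  constructor
  · intro h
    have h3 := h2 x
    rw [h] at h3
    exact h3
  · intro h
    have h3 := h1 x
    rw [h] at h3
    exact h3

/-- The derivative of the inverse at a fixed point: `dfix (f^(-k)) x` is inverse to `dfix (f^k) x`. -/
theorem dfix_symm (f : Dif n M) {k : ℕ} {x : M} (hx : itr f k x = x) :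
    (dfix (n := n) (itr f.symm k) x).comp (dfix (n := n) (itr f k) x) =
      ContinuousLinearMap.id ℝ (Er n) := by
  have h1 : itr f.symm k ∘ itr f k = id := by
    funext y
    exact Function.LeftInverse.iterate (fun y => f.symm_apply_apply y) k y
  have h2 : itr f.symm k x = x := (fix_symm f k x).2 hx
  have h3 := JT.J20a2_comp (n := n) (D2m1_iterate f.symm k).contMDiffAt
    (D2m1_iterate f k).contMDiffAt h2 hx
  have h4 : dfix (n := n) (itr f.symm k ∘ itr f k) x =
      dfix (n := n) (itr f.symm k) x * dfix (n := n) (itr f k) x := h3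
  rw [h1, JT.J20a2_id] at h4
  exact h4.symm

/-- `NR` for the inverse: the eigenvalues of the inverse `B` of `A` are the inverses of the eigenvalues of `A` (`B.comp A = id`). -/
theorem NR_inv {A B : Er n →L[ℝ] Er n} (h : NR A) (hBA : B.comp A = ContinuousLinearMap.id ℝ (Er n)) :
    NR B := by
  classical
  intro l hl
  set b := Module.finBasis ℝ (Er n) with hb
  have key : ∀ C : Er n →L[ℝ] Er n,
      Matrix.charpoly ((LinearMap.toMatrix b b C.toLinearMap).map (algebraMap ℝ ℂ)) =
        (LinearMap.charpoly C.toLinearMap).map (algebraMap ℝ ℂ) := by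
    intro C
    rw [Matrix.charpoly_map, LinearMap.charpoly_toMatrix]
  set T : Matrix _ _ ℂ := (LinearMap.toMatrix b b A.toLinearMap).map (algebraMap ℝ ℂ) with hT
  set S : Matrix _ _ ℂ := (LinearMap.toMatrix b b B.toLinearMap).map (algebraMap ℝ ℂ) with hS
  have h1 : S * T = 1 := by
    have h2 : B.toLinearMap ∘ₗ A.toLinearMap = LinearMap.id := by
      refine LinearMap.ext fun v => ?_
      have h3 : (B.comp A) v = v := by rw [hBA]; rfl
      exact h3
    have h4 : LinearMap.toMatrix b b B.toLinearMap * LinearMap.toMatrix b b A.toLinearMap = 1 := by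
      rw [← LinearMap.toMatrix_comp, h2, LinearMap.toMatrix_id]
    have h5 : S * T = (LinearMap.toMatrix b b B.toLinearMap *
        LinearMap.toMatrix b b A.toLinearMap).map (algebraMap ℝ ℂ) := by
      rw [hS, hT]
      exact (map_mul (algebraMap ℝ ℂ).mapMatrix (LinearMap.toMatrix b b B.toLinearMap)
        (LinearMap.toMatrix b b A.toLinearMap)).symm
    rw [h5, h4]
    exact map_one (algebraMap ℝ ℂ).mapMatrix
  have h2 : T * S = 1 := mul_eq_one_comm.1 h1
  let u : (Matrix (Fin (Module.finrank ℝ (Er n))) (Fin (Module.finrank ℝ (Er n))) ℂ)ˣ :=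
    ⟨S, T, h1, h2⟩
  rw [← key, ← Matrix.mem_spectrum_iff_isRoot_charpoly] at hl
  have hl' : l ∈ spectrum ℂ (u : Matrix (Fin (Module.finrank ℝ (Er n)))
    (Fin (Module.finrank ℝ (Er n))) ℂ) := hl
  have hl0 : l ≠ 0 := by
    rintro rfl
    exact (spectrum.zero_notMem ℂ u.isUnit) hl'
  have h3 : ((Units.mk0 l hl0 : ℂˣ) : ℂ) ∈ spectrum ℂ (u : Matrix (Fin (Module.finrank ℝ (Er n)))
    (Fin (Module.finrank ℝ (Er n))) ℂ) := hl'
  have h4 := spectrum.inv_mem_iff.1 h3
  have h5 : l⁻¹ ∈ spectrum ℂ T := by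
    rw [Units.val_inv_eq_inv_val] at h4
    exact h4
  have h6 : ((LinearMap.charpoly A.toLinearMap).map (algebraMap ℝ ℂ)).IsRoot l⁻¹ := by
    rw [← key, ← Matrix.mem_spectrum_iff_isRoot_charpoly]
    exact h5
  obtain ⟨h7, h8⟩ := h l⁻¹ h6
  refine ⟨fun h9 => h7 ?_, fun h9 => h8 ?_⟩
  · rw [norm_inv, h9, inv_one]
  · rw [Complex.inv_im, h9]
    simp

/-- `posNd_of_NR` (file Y10b) for `f.symm` (`MinPer f.symm x k` iff `MinPer f x k` by `fix_symm`; `dfix_symm`, `NR_inv`), and `card_fix` (file Y4a) for `f.symm`. -/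
theorem card_fix_symm {f : Dif n M}
    (h : ∀ (x : M) (k : ℕ), MinPer f x k → NR (dfix (n := n) (itr f k) x)) {k : ℕ} (hk : 0 < k) :
    (({x | itr f k x = x}.ncard : ℕ) : ℂ) = LefN n (itr f.symm k) := by
  have h1 : ∀ (x : M) (j : ℕ), MinPer f.symm x j → NR (dfix (n := n) (itr f.symm j) x) := by
    intro x j hj
    obtain ⟨hj0, hj1, hj2⟩ := hj
    have h2 : MinPer f x j := by
      refine ⟨hj0, (fix_symm f j x).1 hj1, fun i hi hij he => ?_⟩
      exact hj2 i hi hij ((fix_symm f i x).2 he)
    exact NR_inv (h x j h2) (dfix_symm f h2.2.1)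
  have h3 : PosNd f.symm := posNd_of_NR h1
  have h4 := (card_fix (g := f.symm) (k := k) (fun x hx => h3 x k hk hx)).2
  have h5 : {x | itr f.symm k x = x} = {x | itr f k x = x} := by
    ext x
    exact fix_symm f k x
  rw [h5] at h4
  exact h4

end FB
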