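import Mathlib

/-!
# Part X1b: exponential sums, algebra
-/

namespace FB

namespace XT

open scoped Topology
open Filter

/-- The character `g ↦ g^j`. -/
noncomputable def X1b_pw (j : ℕ) : ℂˣ →* ℂ := (Units.coeHom ℂ).comp (powMonoidHom j)

theorem X1b_pw_apply (j : ℕ) (g : ℂˣ) : X1b_pw j g = (g : ℂ) ^ j := by
  simp [X1b_pw]

/-- The character `g ↦ exp (s log ‖g‖)`. -/
noncomputable def X1b_ch (s : ℂ) : ℂˣ →* ℂ where
  toFun g := Complex.exp (s * (Real.log ‖(g : ℂ)‖ : ℝ))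
  map_one' := by simp
  map_mul' g g' := by
    have h1 : ‖(g : ℂ)‖ ≠ 0 := norm_ne_zero_iff.2 g.ne_zero
    have h2 : ‖(g' : ℂ)‖ ≠ 0 := norm_ne_zero_iff.2 g'.ne_zero
    rw [Units.val_mul, norm_mul, Real.log_mul h1 h2, Complex.ofReal_add, mul_add, Complex.exp_add]

theorem X1b_ch_apply (s : ℂ) (g : ℂˣ) :
    X1b_ch s g = Complex.exp (s * (Real.log ‖(g : ℂ)‖ : ℝ)) := rfl

/-- The evaluation. -/
noncomputable def X1b_ev (χ : ℂˣ →* ℂ) : MonoidAlgebra ℂ ℂˣ →ₐ[ℂ] ℂ :=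
  MonoidAlgebra.lift ℂ ℂ ℂˣ χ

theorem X1b_ev_single (χ : ℂˣ →* ℂ) (g : ℂˣ) (r : ℂ) :
    X1b_ev χ (MonoidAlgebra.single g r) = r * χ g := by
  unfold X1b_ev
  rw [MonoidAlgebra.lift_single, smul_eq_mul]

theorem X1b_inj (a : MonoidAlgebra ℂ ℂˣ) (h : ∀ j, X1b_ev (X1b_pw j) a = 0) : a = 0 := by
  have hinj : Function.Injective (fun g : ℂˣ => (powersHom ℂ (g : ℂ) : Multiplicative ℕ →* ℂ)) := by
    intro g g' hg
    have h1 := DFunLike.congr_fun hg (Multiplicative.ofAdd 1)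
    simp only [powersHom_apply, toAdd_ofAdd, pow_one] at h1
    exact Units.ext h1
  have hli := (linearIndependent_monoidHom (Multiplicative ℕ) ℂ).comp _ hinj
  have h2 : Finsupp.linearCombination ℂ ((fun f : Multiplicative ℕ →* ℂ => (f : Multiplicative ℕ → ℂ)) ∘
      (fun g : ℂˣ => (powersHom ℂ (g : ℂ) : Multiplicative ℕ →* ℂ))) a.coeff = 0 := by
    funext k
    rw [Finsupp.linearCombination_apply, Finsupp.sum, Finset.sum_apply]
    have h3 := h (Multiplicative.toAdd k)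
    unfold X1b_ev at h3
    rw [MonoidAlgebra.lift_apply, Finsupp.sum] at h3
    refine Eq.trans (Finset.sum_congr rfl fun g _ => ?_) h3
    rw [X1b_pw_apply]
    rfl
  have h4 := (linearIndependent_iff.1 hli) a.coeff h2
  exact MonoidAlgebra.coeff_eq_zero.1 h4

/-- The factor `1 - l [l^b]`. -/
noncomputable def X1b_q (b : ℕ) (l : ℂ) : MonoidAlgebra ℂ ℂˣ :=
  open Classical in
  if h : l = 0 then 1 else 1 - MonoidAlgebra.single ((Units.mk0 l h) ^ b) l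

theorem X1b_q_pw (b j : ℕ) {l : ℂ} (hl : l ≠ 0) :
    X1b_ev (X1b_pw j) (X1b_q b l) = 1 - l ^ (1 + b * j) := by
  unfold X1b_q
  rw [dif_neg hl, map_sub, map_one, X1b_ev_single, X1b_pw_apply, Units.val_pow_eq_pow_val,
    Units.val_mk0, ← pow_mul, pow_add, pow_one]

theorem X1b_q_ch (b : ℕ) (s : ℂ) {l : ℂ} (hl : l ≠ 0) :
    X1b_ev (X1b_ch s) (X1b_q b l) = 1 - l * Complex.exp (s * (b * Real.log ‖l‖)) := by
  unfold X1b_q
  rw [dif_neg hl, map_sub, map_one, X1b_ev_single, X1b_ch_apply, Units.val_pow_eq_pow_val,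
    Units.val_mk0, norm_pow, Real.log_pow, Complex.ofReal_mul, Complex.ofReal_natCast]

/-- The term `c ν [ν^b]`. -/
noncomputable def X1b_t (b : ℕ) (c ν : ℂ) : MonoidAlgebra ℂ ℂˣ :=
  open Classical in
  if h : ν = 0 then 0 else MonoidAlgebra.single ((Units.mk0 ν h) ^ b) (c * ν)

theorem X1b_t_pw (b j : ℕ) (c ν : ℂ) :
    X1b_ev (X1b_pw j) (X1b_t b c ν) = c * ν ^ (1 + b * j) := by
  unfold X1b_t
  by_cases h : ν = 0
  · rw [dif_pos h, map_zero, h, pow_add, pow_one, zero_mul, mul_zero]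
  · rw [dif_neg h, X1b_ev_single, X1b_pw_apply, Units.val_pow_eq_pow_val, Units.val_mk0,
      ← pow_mul, pow_add, pow_one, mul_assoc]

theorem X1b_ne {l : ℂ} (h : ‖l‖ ≠ 1) (n : ℕ) : 1 - l ^ (1 + n) ≠ 0 := by
  intro h1
  have h2 : l ^ (1 + n) = 1 := (sub_eq_zero.1 h1).symm
  have h3 := congrArg norm h2
  rw [norm_pow, norm_one] at h3
  exact h ((pow_eq_one_iff_of_nonneg (norm_nonneg _) (by omega)).1 h3)

/-- The algebraic identity. -/
theorem X1b_alg {ι : Type*} [DecidableEq ι] (Y Z Y' : Finset ι) (hY : Y = Z ∪ Y')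
    (hd : Disjoint Z Y') (p : ι → ℂ) (hp : ∀ y ∈ Y, p y ≠ 0) (P T : ℂ) (hZ : ∀ y ∈ Z, p y = P)
    (hP : P ≠ 0) (h : ∑ y ∈ Y, (p y)⁻¹ = T) :
    (Z.card : ℂ) * ∏ y ∈ Y', p y + P * ∑ y ∈ Y', ∏ y' ∈ Y'.erase y, p y' =
      P * (∏ y ∈ Y', p y) * T := by
  have h1 : ∑ y ∈ Z, (p y)⁻¹ = Z.card * P⁻¹ := by
    rw [Finset.sum_congr rfl fun y hy => by rw [hZ y hy], Finset.sum_const, nsmul_eq_mul]
  rw [← h, hY, Finset.sum_union hd, h1, mul_add, Finset.mul_sum]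
  congr 1
  · field_simp
  · rw [Finset.mul_sum]
    refine Finset.sum_congr rfl fun y hy => ?_
    have h2 : p y ≠ 0 := hp y (by rw [hY]; exact Finset.mem_union_right _ hy)
    rw [← Finset.mul_prod_erase Y' p hy]
    field_simp

/-- Let `A = MonoidAlgebra ℂ ℂˣ`, `ev χ : A →ₐ ℂ` the homomorphism of a monoid homomorphism `χ : ℂˣ →* ℂ` (`MonoidAlgebra.lift`).  For `j : ℕ` let `ev j` be that of `g ↦ g^j`.  If `ev j a = 0` for all `j` then `a = 0` (linear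
independence of the characters `j ↦ g^j` of `Multiplicative ℕ`: `linearIndependent_monoidHom`; they are distinct for distinct `g`).
Let `q l = 1 - l • [l^b] ∈ A` for `l ≠ 0`: `ev j (q l) = 1 - l^(1 + b j)`, and for the homomorphism `χ_s g = exp (s log ‖g‖)`: `χ_s (l^b) = exp (s b log ‖l‖)`, `ev χ_s (q l) = 1 - l exp (s (b log ‖l‖))`.
Let `Z = {y ∈ Y | R y = R x}`, `w = card Z > 0`, `Y' = Y \ Z`, `D = ∏_{l ∈ R x} q l`, `E = ∏_{y ∈ Y'} ∏_{l ∈ R y} q l`, `E y = ∏_{y' ∈ Y' \ {y}} ∏_{l ∈ R y'} q l`, `S = ∑_{i ∈ I, ν i ≠ 0} c i ν i [ν i ^ b]` (for `ν i = 0` the term `ν i ^ (1 + b j)` is `0`).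
Multiplying the hypothesis by `ev j (D E)` (all the factors `1 - l^(1+bj)` are `≠ 0` as `‖l‖ ≠ 1`): `ev j (w E + D ∑_{y ∈ Y'} E y) = ev j (D E S)` for all `j`, so `w E + D ∑ E y = D E S` in `A`.  Apply `ev χ_s`: `ev χ_s D = 0` (the factor of `l0`), so
`w * ev χ_s E = 0`, `ev χ_s E = 0`: some factor vanishes. -/
theorem exists_factor {ι κ : Type*} (Y : Finset ι) (R : ι → Multiset ℂ)
    (hR : ∀ y ∈ Y, ∀ l ∈ R y, l ≠ 0 ∧ ‖l‖ ≠ 1) (I : Finset κ) (c ν : κ → ℂ) {b : ℕ} (hb : 0 < b)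
    (h : ∀ j : ℕ, ∑ y ∈ Y, (((R y).map (fun l => 1 - l ^ (1 + b * j))).prod)⁻¹ =
      ∑ i ∈ I, c i * ν i ^ (1 + b * j))
    {x : ι} (hx : x ∈ Y) {l0 : ℂ} (hl0 : l0 ∈ R x) {s : ℂ}
    (hs : l0 * Complex.exp (s * (b * Real.log ‖l0‖)) = 1) :
    ∃ y ∈ Y, R y ≠ R x ∧ ∃ l ∈ R y, l * Complex.exp (s * (b * Real.log ‖l‖)) = 1 := by
  classical
  obtain ⟨Z, hZ⟩ : ∃ Z, Z = Y.filter fun y => R y = R x := ⟨_, rfl⟩
  obtain ⟨Y', hY'⟩ : ∃ Y', Y' = Y.filter fun y => ¬ R y = R x := ⟨_, rfl⟩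
  have hU : Y = Z ∪ Y' := by
    rw [hZ, hY', Finset.filter_union_filter_not_eq]
  have hd : Disjoint Z Y' := by
    rw [hZ, hY']
    exact Finset.disjoint_filter_filter_not _ _ _
  obtain ⟨Q, hQ⟩ : ∃ Q : ι → MonoidAlgebra ℂ ℂˣ, Q = fun y => ((R y).map (X1b_q b)).prod :=
    ⟨_, rfl⟩
  obtain ⟨S, hS⟩ : ∃ S : MonoidAlgebra ℂ ℂˣ, S = ∑ i ∈ I, X1b_t b (c i) (ν i) := ⟨_, rfl⟩
  have evQ : ∀ j, ∀ y ∈ Y, X1b_ev (X1b_pw j) (Q y) =
      ((R y).map (fun l => 1 - l ^ (1 + b * j))).prod := by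
    intro j y hy
    rw [hQ]
    change X1b_ev (X1b_pw j) ((R y).map (X1b_q b)).prod = _
    rw [map_multiset_prod, Multiset.map_map]
    congr 1
    refine Multiset.map_congr rfl fun l hl => ?_
    exact X1b_q_pw b j (hR y hy l hl).1
  have evS : ∀ j, X1b_ev (X1b_pw j) S = ∑ i ∈ I, c i * ν i ^ (1 + b * j) := by
    intro j
    rw [hS, map_sum]
    exact Finset.sum_congr rfl fun i _ => X1b_t_pw b j (c i) (ν i)
  have hYY : ∀ y ∈ Y', y ∈ Y := by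
    intro y hy
    rw [hU]
    exact Finset.mem_union_right _ hy
  have key : (Z.card : MonoidAlgebra ℂ ℂˣ) * ∏ y ∈ Y', Q y +
      Q x * ∑ y ∈ Y', ∏ y' ∈ Y'.erase y, Q y' = Q x * (∏ y ∈ Y', Q y) * S := by
    rw [← sub_eq_zero]
    refine X1b_inj _ fun j => ?_
    rw [map_sub, sub_eq_zero, map_add, map_mul, map_mul, map_mul, map_mul, map_natCast, map_sum,
      evS, map_prod]
    simp only [map_prod]
    have h0 : ∀ y ∈ Y, X1b_ev (X1b_pw j) (Q y) ≠ 0 := by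
      intro y hy
      rw [evQ j y hy]
      intro h1
      rw [Multiset.prod_eq_zero_iff, Multiset.mem_map] at h1
      obtain ⟨l, hl, h2⟩ := h1
      exact X1b_ne (hR y hy l hl).2 (b * j) h2
    refine X1b_alg Y Z Y' hU hd (fun y => X1b_ev (X1b_pw j) (Q y)) h0 (X1b_ev (X1b_pw j) (Q x))
      _ (fun y hy => ?_) (h0 x hx) ?_
    · rw [hZ, Finset.mem_filter] at hy
      change X1b_ev (X1b_pw j) (Q y) = _
      rw [evQ j y hy.1, evQ j x hx, hy.2]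
    · rw [← h j]
      refine Finset.sum_congr rfl fun y hy => ?_
      change (X1b_ev (X1b_pw j) (Q y))⁻¹ = _
      rw [evQ j y hy]
  have hx0 : X1b_ev (X1b_ch s) (Q x) = 0 := by
    rw [hQ]
    change X1b_ev (X1b_ch s) ((R x).map (X1b_q b)).prod = 0
    rw [map_multiset_prod, Multiset.map_map, Multiset.prod_eq_zero_iff, Multiset.mem_map]
    refine ⟨l0, hl0, ?_⟩
    change X1b_ev (X1b_ch s) (X1b_q b l0) = 0
    rw [X1b_q_ch b s (hR x hx l0 hl0).1, hs, sub_self]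
  have h2 := congrArg (X1b_ev (X1b_ch s)) key
  rw [map_add, map_mul, map_mul, map_mul, map_mul, hx0, zero_mul, zero_mul, zero_mul, add_zero,
    map_natCast, map_prod] at h2
  have hx1 : x ∈ Z := by
    rw [hZ, Finset.mem_filter]
    exact ⟨hx, rfl⟩
  have h3 : (Z.card : ℂ) ≠ 0 := Nat.cast_ne_zero.2 (Finset.card_pos.2 ⟨x, hx1⟩).ne'
  have h4 := (mul_eq_zero.1 h2).resolve_left h3
  obtain ⟨y, hy, h5⟩ := Finset.prod_eq_zero_iff.1 h4
  rw [hQ] at h5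
  change X1b_ev (X1b_ch s) ((R y).map (X1b_q b)).prod = 0 at h5
  rw [map_multiset_prod, Multiset.map_map, Multiset.prod_eq_zero_iff, Multiset.mem_map] at h5
  obtain ⟨l, hl, h6⟩ := h5
  change X1b_ev (X1b_ch s) (X1b_q b l) = 0 at h6
  rw [X1b_q_ch b s (hR y (hYY y hy) l hl).1] at h6
  refine ⟨y, hYY y hy, ?_, l, hl, (sub_eq_zero.1 h6).symm⟩
  rw [hY', Finset.mem_filter] at hy
  exact hy.2

end XT

end FB
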