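import Pool.Agent.H.MP_fb873c_an.X1a
import Pool.Agent.H.MP_fb873c_an.X1b

/-!
# Part X1: exponential sums
-/

namespace FB

namespace XT

/-- The pairs (y, l), `y ∈ Y`, `R y ≠ R x`, `l ∈ R y` (a finite list of at most `m (card Y)` complex numbers, e.g. the multiset `∑_{y ∈ Y, R y ≠ R x} R y`, enumerated by `Fin K`, `K ≤ m * Y.card`).  `exists_factor` gives the hypothesis of `exists_ratLe`; `RatLe K`
implies `RatLe (m * Y.card)`. -/
theorem alg_main {ι κ : Type*} (Y : Finset ι) (R : ι → Multiset ℂ) {m : ℕ}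
    (hm : ∀ y ∈ Y, Multiset.card (R y) ≤ m)
    (hR : ∀ y ∈ Y, ∀ l ∈ R y, l ≠ 0 ∧ ‖l‖ ≠ 1) (I : Finset κ) (c ν : κ → ℂ) {b : ℕ} (hb : 0 < b)
    (h : ∀ j : ℕ, ∑ y ∈ Y, (((R y).map (fun l => 1 - l ^ (1 + b * j))).prod)⁻¹ =
      ∑ i ∈ I, c i * ν i ^ (1 + b * j))
    {x : ι} (hx : x ∈ Y) {l0 : ℂ} (hl0 : l0 ∈ R x) :
    ∃ y ∈ Y, R y ≠ R x ∧ ∃ l ∈ R y, RatLe (m * Y.card) (Real.log ‖l0‖) (Real.log ‖l‖) := by
  classical
  obtain ⟨T, hT⟩ : ∃ T : Multiset ℂ, T = ∑ y ∈ Y.filter (fun y => R y ≠ R x), R y := ⟨_, rfl⟩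
  have hmem : ∀ l, l ∈ T ↔ ∃ y ∈ Y, R y ≠ R x ∧ l ∈ R y := by
    intro l
    rw [hT, Multiset.mem_sum]
    constructor
    · rintro ⟨y, hy, hl⟩
      rw [Finset.mem_filter] at hy
      exact ⟨y, hy.1, hy.2, hl⟩
    · rintro ⟨y, hy, h1, hl⟩
      exact ⟨y, Finset.mem_filter.2 ⟨hy, h1⟩, hl⟩
  have hcard : T.toList.length ≤ m * Y.card := by
    rw [Multiset.length_toList, hT, Multiset.card_sum]
    refine (Finset.sum_le_card_nsmul _ _ m fun y hy => hm y (Finset.mem_filter.1 hy).1).trans ?_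
    rw [smul_eq_mul, mul_comm]
    exact Nat.mul_le_mul_left m (Finset.card_filter_le _ _)
  have hget : ∀ t : Fin T.toList.length, T.toList.get t ∈ T := fun t =>
    Multiset.mem_toList.1 (List.get_mem _ _)
  obtain ⟨t, ht⟩ := exists_ratLe hb (hR x hx l0 hl0).1 (hR x hx l0 hl0).2
    (fun t : Fin T.toList.length => T.toList.get t) (fun t => by
      obtain ⟨y, hy, _, hl⟩ := (hmem _).1 (hget t)
      exact hR y hy _ hl) (fun s hs => by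
      obtain ⟨y, hy, h1, l, hl, h2⟩ := exists_factor Y R hR I c ν hb h hx hl0 hs
      obtain ⟨t, ht⟩ := List.get_of_mem (Multiset.mem_toList.2 ((hmem l).2 ⟨y, hy, h1, hl⟩))
      exact ⟨t, by rw [ht]; exact h2⟩)
  obtain ⟨y, hy, h1, hl⟩ := (hmem _).1 (hget t)
  obtain ⟨P, Q, hP, hPK, hQ, hPQ⟩ := ht
  exact ⟨y, hy, h1, _, hl, P, Q, hP, hPK.trans hcard, hQ, hPQ⟩

end XT

end FB
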