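import Pool.Agent.H.MP_fb873c_an.B2a
import Pool.Agent.H.MP_fb873c_an.D4g
import Pool.Agent.H.MP_fb873c_an.X1
import Pool.Agent.H.MP_fb873c_an.Z4

/-!
# Part X2: no invariant complex structure (progressions)
-/

namespace FB

open scoped Topology ContDiff Manifold
open Filter

universe u

variable {n : ℕ} {M : Type u} [TopologicalSpace M] [ChartedSpace (Er n) M]
  [IsManifold (𝓡 n) ∞ M] [CompactSpace M] [T2Space M]

/-- The trace of the powers on a generalized eigenspace. -/
theorem X2_nil {V : Type*} [AddCommGroup V] [Module ℂ V] [FiniteDimensional ℂ V]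
    (g : V →ₗ[ℂ] V) (μ : ℂ) (hg : IsNilpotent (g - algebraMap ℂ (Module.End ℂ V) μ)) (k : ℕ) :
    LinearMap.trace ℂ V (g ^ k) = (Module.finrank ℂ V : ℂ) * μ ^ k := by
  induction k with
  | zero =>
    rw [pow_zero, pow_zero, mul_one, LinearMap.trace_one]
  | succ k ih =>
    have h1 := LinearMap.trace_comp_eq_mul_of_commute_of_isNilpotent (f := g ^ k) (g := g) μ
      ((Commute.refl g).pow_left k) hg
    have h2 : g ^ (k + 1) = (g ^ k) ∘ₗ g := pow_succ g k
    rw [h2, h1, ih, pow_succ]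
    ring

theorem X2_restrict_pow {V : Type*} [AddCommGroup V] [Module ℂ V] (T : V →ₗ[ℂ] V)
    {p : Submodule ℂ V} (h : Set.MapsTo T p p) (k : ℕ) (hk : Set.MapsTo (T ^ k) p p) :
    (T ^ k).restrict hk = (T.restrict h) ^ k := by
  ext x
  rw [LinearMap.coe_restrict_apply]
  induction k with
  | zero => rfl
  | succ k ih =>
    have hk' : Set.MapsTo (T ^ k) p p := by
      intro y hy
      have := h.iterate k hy
      rwa [← Module.End.coe_pow] at this
    rw [pow_succ', pow_succ', Module.End.mul_apply, Module.End.mul_apply, ih hk']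
    rfl

theorem X2_trace_pow {V : Type*} [AddCommGroup V] [Module ℂ V] [FiniteDimensional ℂ V]
    (T : V →ₗ[ℂ] V) : ∃ (s : Finset ℂ) (d : ℂ → ℂ), ∀ k : ℕ,
      LinearMap.trace ℂ V (T ^ k) = ∑ μ ∈ s, d μ * μ ^ k := by
  classical
  have hds := DirectSum.isInternal_submodule_of_iSupIndep_of_iSup_eq_top
    (Module.End.independent_maxGenEigenspace T) (Module.End.iSup_maxGenEigenspace_eq_top T)
  have hfin : {μ | Module.End.maxGenEigenspace T μ ≠ ⊥}.Finite :=
    WellFoundedGT.finite_ne_bot_of_iSupIndep (Module.End.independent_maxGenEigenspace T)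
  refine ⟨hfin.toFinset, fun μ => (Module.finrank ℂ (Module.End.maxGenEigenspace T μ) : ℂ),
    fun k => ?_⟩
  have hk : ∀ μ, Set.MapsTo (T ^ k) (Module.End.maxGenEigenspace T μ : Set V)
      (Module.End.maxGenEigenspace T μ : Set V) := fun μ =>
    Module.End.mapsTo_maxGenEigenspace_of_comm ((Commute.refl T).pow_right k) μ
  rw [LinearMap.trace_eq_sum_trace_restrict' hds hfin hk]
  refine Finset.sum_congr rfl fun μ _ => ?_
  have h1 : Set.MapsTo T (Module.End.maxGenEigenspace T μ : Set V)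
      (Module.End.maxGenEigenspace T μ : Set V) :=
    Module.End.mapsTo_maxGenEigenspace_of_comm (Commute.refl T) μ
  rw [X2_restrict_pow T h1 k (hk μ)]
  exact X2_nil _ μ (Module.End.isNilpotent_restrict_maxGenEigenspace_sub_algebraMap T μ) k

/-- The trace of a power is a power sum: `trace (T^k) = ∑ ν^k` over the roots of `charpoly T` (`k > 0` or all `k`); so the alternating sum is `∑_{i ∈ I} c i ν i ^ k` with a finite set `I`. -/
theorem traces_sum (R : ℕ) (H : ℕ → Type u) [∀ q, AddCommGroup (H q)] [∀ q, Module ℂ (H q)]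
    [∀ q, FiniteDimensional ℂ (H q)] (T : ∀ q, H q →ₗ[ℂ] H q) :
    ∃ (r : ℕ) (c ν : Fin r → ℂ), ∀ k : ℕ, 0 < k →
      ∑ q ∈ Finset.range (R + 1), (-1 : ℂ) ^ q * LinearMap.trace ℂ (H q) (T q ^ k) =
        ∑ i, c i * ν i ^ k := by
  classical
  choose s d hsd using fun q => X2_trace_pow (T q)
  obtain ⟨I, hI⟩ : ∃ I : Finset (Σ _ : ℕ, ℂ), I = (Finset.range (R + 1)).sigma fun q => s q :=
    ⟨_, rfl⟩
  refine ⟨I.card, fun i => (-1 : ℂ) ^ (I.equivFin.symm i).1.1 *
    d (I.equivFin.symm i).1.1 (I.equivFin.symm i).1.2, fun i => (I.equivFin.symm i).1.2,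
    fun k _ => ?_⟩
  have h1 : ∑ i : Fin I.card, ((-1 : ℂ) ^ (I.equivFin.symm i).1.1 *
      d (I.equivFin.symm i).1.1 (I.equivFin.symm i).1.2) * (I.equivFin.symm i).1.2 ^ k =
      ∑ x : I, ((-1 : ℂ) ^ x.1.1 * d x.1.1 x.1.2) * x.1.2 ^ k :=
    Equiv.sum_comp I.equivFin.symm (fun x : I => ((-1 : ℂ) ^ x.1.1 * d x.1.1 x.1.2) * x.1.2 ^ k)
  rw [h1, Finset.sum_coe_sort I (fun x : (Σ _ : ℕ, ℂ) => ((-1 : ℂ) ^ x.1 * d x.1 x.2) * x.2 ^ k),
    hI, Finset.sum_sigma]
  refine Finset.sum_congr rfl fun q _ => ?_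
  rw [hsd, Finset.mul_sum]
  refine Finset.sum_congr rfl fun μ _ => ?_
  ring

/-- As `Y8_contra` and `goodS_not_preserves` (file Y8), with `N = a`: `holo_data` (file Z4) with `n0 = a`, `k = 1 + b j`.  The fixed points of `f^(a k)` are those of `f^a` (`hfix`; conversely clear), they are nondegenerate (`hyp_pow`, file B2a, and `dfix_iterate`, as in
`perHyp_ndl`), `c k x = PowEv (P x) k`.  So `∑_{x ∈ Fix f^a} (∏_{l ∈ roots (P x)} (1 - l^k))⁻¹ = ∑_q (-1)^q trace (T_q^k)` for `k = 1 + b j`; `traces_sum`, `halfPoly_hyp` (file B2a), `halfPoly_card`.  Let `x`, `l` be as in `GoodR`: `l` is a root of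
`charpoly = P x * conj (P x)`, so `l` or `conj l` is a root `l0` of `P x`, `‖l0‖ = ‖l‖`.  `alg_main` (file X1) gives `y` with `(P y).roots ≠ (P x).roots` and a root `l'` of `P y` (an eigenvalue of the derivative at `y`) with `RatLe (n * card)`; `y` is not in the orbit of `x`
as `P (f z) = P z` for `z ∈ Fix f^a`.  Contradiction to `GoodR` (`m = n` in `alg_main`, `2 card (roots) = n`). -/
theorem prog_contra {f : Dif n M} {a b : ℕ} (ha : 0 < a) (hb : 0 < b)
    (hhyp : ∀ x, itr f a x = x → Hyp (dfix (n := n) (itr f a) x))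
    (hfix : ∀ (j : ℕ) (x : M), itr f (a * (1 + b * j)) x = x → itr f a x = x)
    (hG : GoodR a f) (m : ℕ) (X : Type u) [TopologicalSpace X] [ChartedSpace (Ec m) X]
    [IsManifold 𝓘(ℂ, Ec m) ω X] : ¬ Preserves f m X := by
  classical
  intro h
  obtain ⟨R, H, i1, i2, i3, T, P, c, -, hP, -, hc, hL⟩ := holo_data f m X inferInstance h a
  have hnd : ∀ k, 0 < k → ∀ x, (f : M → M)^[a] x = x → Ndg (n := n) ((f : M → M)^[a * k]) x := by
    intro k hk x hx
    have h2 := dfix_iterate (n := n) f a k hx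
    have h3 := hyp_pow (hhyp x hx) hk
    have h4 : (dfix (n := n) (itr f a) x).toLinearMap =
      (dfix (n := n) ((f : M → M)^[a]) x).toLinearMap := rfl
    rw [h4, ← h2] at h3
    exact h3
  have hfin : {x | (f : M → M)^[a] x = x}.Finite :=
    finite_fix (n := n) fun x hx => by
      have h1 := hnd 1 one_pos x hx
      rw [mul_one] at h1
      exact h1
  obtain ⟨F, hF⟩ : ∃ F : Finset M, F = hfin.toFinset := ⟨_, rfl⟩
  have hFm : ∀ x, x ∈ F ↔ (f : M → M)^[a] x = x := by
    intro x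
    rw [hF, Set.Finite.mem_toFinset]
    rfl
  have hset : ∀ j : ℕ, {x | (f : M → M)^[a * (1 + b * j)] x = x} = (F : Set M) := by
    intro j
    ext x
    rw [Set.mem_ofPred_eq, Finset.mem_coe, hFm]
    constructor
    · intro hx
      exact hfix j x hx
    · intro hx
      have h1 : Function.IsPeriodicPt (f : M → M) a x := hx
      exact h1.mul_const _
  obtain ⟨r, cc, ν, hcν⟩ := traces_sum R H T
  have hsum : ∀ j : ℕ, ∑ x ∈ F, (((P x).roots.map (fun l => 1 - l ^ (1 + b * j))).prod)⁻¹ =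
      ∑ i, cc i * ν i ^ (1 + b * j) := by
    intro j
    have hk : 0 < 1 + b * j := by omega
    rw [← hcν _ hk, ← hL _ fun x hx => hnd _ hk x (hfix j x hx), hset j, finsum_mem_coe_finset]
    refine Finset.sum_congr rfl fun x hx => ?_
    rw [hc _ x ((hFm x).1 hx)]
    rfl
  have hcard : ∀ x ∈ F, 2 * Multiset.card (P x).roots = n := fun x hx =>
    halfPoly_card (hP x ((hFm x).1 hx)).1
  obtain ⟨x, l, hx, hl, hGx⟩ := hG
  have hxF : x ∈ F := (hFm x).2 hx
  -- the root
  obtain ⟨l0, hl0, hll⟩ : ∃ l0 ∈ (P x).roots, ‖l0‖ = ‖l‖ := by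
    have hH := (hP x hx).1
    have h1 : (P x * (P x).map (starRingEnd ℂ)).eval l = 0 := by
      rw [hH.2]
      exact hl
    rw [Polynomial.eval_mul] at h1
    rcases mul_eq_zero.1 h1 with h2 | h2
    · exact ⟨l, (Polynomial.mem_roots hH.1.ne_zero).2 h2, rfl⟩
    · refine ⟨(starRingEnd ℂ) l, (Polynomial.mem_roots hH.1.ne_zero).2 ?_, RCLike.norm_conj l⟩
      show (P x).eval ((starRingEnd ℂ) l) = 0
      have h3 : ((P x).map (starRingEnd ℂ)).eval ((starRingEnd ℂ) ((starRingEnd ℂ) l)) =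
          (starRingEnd ℂ) ((P x).eval ((starRingEnd ℂ) l)) :=
        Polynomial.eval_map_apply _ _
      rw [Complex.conj_conj, h2] at h3
      exact (map_eq_zero (starRingEnd ℂ)).1 h3.symm
  obtain ⟨y, hyF, hyx, l', hl', hrat⟩ := XT.alg_main F (fun x => (P x).roots) (m := n)
    (fun y hy => by have := hcard y hy; omega)
    (fun y hy => by
      obtain ⟨A', hA'⟩ := dfix_equiv f a ((hFm y).1 hy)
      exact halfPoly_hyp (hhyp y ((hFm y).1 hy)) A' hA' (hP y ((hFm y).1 hy)).1)
    Finset.univ cc ν hb hsum hxF hl0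
  have hPi : ∀ i : ℕ, (f : M → M)^[a] ((f : M → M)^[i] x) = (f : M → M)^[i] x ∧
      P ((f : M → M)^[i] x) = P x := by
    intro i
    induction i with
    | zero => exact ⟨hx, rfl⟩
    | succ i ih =>
      refine ⟨?_, ?_⟩
      · rw [← Function.iterate_add_apply, Nat.add_comm, Function.iterate_add_apply]
        have hx' : (f : M → M)^[a] x = x := hx
        rw [hx']
      · rw [Function.iterate_succ_apply', (hP _ ih.1).2, ih.2]
  refine hGx y l' ((hFm y).1 hyF) (fun i hi => ?_) ?_ ?_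
  · refine hyx ?_
    have h1 := (hPi i).2
    have hi' : (f : M → M)^[i] x = y := hi
    rw [hi'] at h1
    show (P y).roots = (P x).roots
    rw [h1]
  · have hH := (hP y ((hFm y).1 hyF)).1
    have h1 : (P y).eval l' = 0 := Polynomial.isRoot_of_mem_roots hl'
    have h2 : (P y * (P y).map (starRingEnd ℂ)).eval l' = 0 := by
      rw [Polynomial.eval_mul, h1, zero_mul]
    rw [hH.2] at h2
    exact h2
  · have h1 : {z | itr f a z = z}.ncard = F.card := by
      have h2 : {z | itr f a z = z} = (F : Set M) := by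
        ext z
        rw [Set.mem_ofPred_eq, Finset.mem_coe, hFm]
        rfl
      rw [h2, Set.ncard_coe_finset]
    rw [h1, ← hll]
    exact hrat

end FB
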