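import Pool.Agent.H.MP_fb873c_an.N3a
import Pool.Agent.H.MP_fb873c_an.X2

/-!
# Part N3: the eigenvalues on the even and on the odd cohomology
-/

namespace FB

open scoped Topology ContDiff Manifold
open Filter

universe u

/-- The trace of a power of an endomorphism of a finite dimensional vector space is the sum of the powers of the
roots of the characteristic polynomial.  (For example: triangularize; or `LinearMap.trace` and generalized eigenspaces, as in `X2_trace_pow`, file X2, with
`d μ` the multiplicity; or `Matrix.trace_eq_sum_roots_charpoly` for the power together with the roots of the characteristic polynomial of a power.) -/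
theorem trace_pow_roots {V : Type*} [AddCommGroup V] [Module ℂ V] [FiniteDimensional ℂ V]
    (T : V →ₗ[ℂ] V) (k : ℕ) :
    LinearMap.trace ℂ V (T ^ k) = (T.charpoly.roots.map fun z => z ^ k).sum := by
  classical
  have hds := DirectSum.isInternal_submodule_of_iSupIndep_of_iSup_eq_top
    (Module.End.independent_maxGenEigenspace T) (Module.End.iSup_maxGenEigenspace_eq_top T)
  have hfin : {μ | Module.End.maxGenEigenspace T μ ≠ ⊥}.Finite :=
    WellFoundedGT.finite_ne_bot_of_iSupIndep (Module.End.independent_maxGenEigenspace T)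
  have hk : ∀ μ, Set.MapsTo (T ^ k) (Module.End.maxGenEigenspace T μ : Set V)
      (Module.End.maxGenEigenspace T μ : Set V) := fun μ =>
    Module.End.mapsTo_maxGenEigenspace_of_comm ((Commute.refl T).pow_right k) μ
  have hset : hfin.toFinset = T.charpoly.roots.toFinset := by
    ext μ
    rw [Set.Finite.mem_toFinset, Multiset.mem_toFinset,
      Polynomial.mem_roots (LinearMap.charpoly_monic T).ne_zero,
      ← Module.End.hasEigenvalue_iff_isRoot_charpoly]
    show Module.End.maxGenEigenspace T μ ≠ ⊥ ↔ _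
    rw [Ne, ← Submodule.finrank_eq_zero (R := ℂ), LinearMap.finrank_maxGenEigenspace_eq,
      Module.End.hasEigenvalue_iff_isRoot_charpoly,
      ← Polynomial.rootMultiplicity_pos (LinearMap.charpoly_monic T).ne_zero]
    omega
  rw [LinearMap.trace_eq_sum_trace_restrict' hds hfin hk, Finset.sum_multiset_map_count, hset]
  refine Finset.sum_congr rfl fun μ _ => ?_
  have h1 : Set.MapsTo T (Module.End.maxGenEigenspace T μ : Set V)
      (Module.End.maxGenEigenspace T μ : Set V) :=
    Module.End.mapsTo_maxGenEigenspace_of_comm (Commute.refl T) μ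
  rw [X2_restrict_pow T h1 k (hk μ),
    X2_nil _ μ (Module.End.isNilpotent_restrict_maxGenEigenspace_sub_algebraMap T μ) k,
    LinearMap.finrank_maxGenEigenspace_eq, Polynomial.count_roots, nsmul_eq_mul]

theorem N3_gen {V : Type*} [AddCommGroup V] [Module ℂ V] [FiniteDimensional ℂ V]
    (T T' : V →ₗ[ℂ] V) (h : T * T' = 1) {a : ℂ} (ha : a ≠ 0) :
    Module.End.maxGenEigenspace T' a = Module.End.maxGenEigenspace T a⁻¹ := by
  have h' : T' * T = 1 := mul_eq_one_comm.1 h
  have e1 : T' - a • (1 : Module.End ℂ V) = T' * ((-a) • (T - a⁻¹ • (1 : Module.End ℂ V))) := by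
    rw [mul_smul_comm, mul_sub, mul_smul_comm, mul_one, h', smul_sub, smul_smul, neg_mul,
      mul_inv_cancel₀ ha, neg_smul, neg_smul, one_smul]
    abel
  have hcomm : Commute T' ((-a) • (T - a⁻¹ • (1 : Module.End ℂ V))) := by
    refine Commute.smul_right (Commute.sub_right ?_ (Commute.smul_right (Commute.one_right _) _)) _
    exact h'.trans h.symm
  ext v
  rw [Module.End.mem_maxGenEigenspace, Module.End.mem_maxGenEigenspace]
  refine exists_congr fun k => ?_
  rw [e1, hcomm.mul_pow, smul_pow, mul_smul_comm]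
  have hz : (-a) ^ k ≠ 0 := pow_ne_zero _ (neg_ne_zero.2 ha)
  have hT : (T ^ k) * (T' ^ k) = 1 := by
    have hc : Commute T T' := h.trans h'.symm
    rw [← hc.mul_pow, h, one_pow]
  constructor
  · intro h1
    have h2 : (T' ^ k * (T - a⁻¹ • (1 : Module.End ℂ V)) ^ k) v = 0 := by
      have h3 : (-a) ^ k • ((T' ^ k * (T - a⁻¹ • (1 : Module.End ℂ V)) ^ k) v) = 0 := h1
      exact (smul_eq_zero.1 h3).resolve_left hz
    have h4 := congrArg (fun y => (T ^ k) y) h2
    have h5 : (T ^ k) ((T' ^ k * (T - a⁻¹ • (1 : Module.End ℂ V)) ^ k) v) =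
        ((T ^ k * T' ^ k) * (T - a⁻¹ • (1 : Module.End ℂ V)) ^ k) v := rfl
    simp only [map_zero] at h4
    rw [h5, hT, one_mul] at h4
    exact h4
  · intro h1
    show (-a) ^ k • ((T' ^ k) (((T - a⁻¹ • (1 : Module.End ℂ V)) ^ k) v)) = 0
    rw [h1, map_zero, smul_zero]

/-- The roots of the characteristic polynomial of the inverse. -/
theorem roots_charpoly_inv {V : Type*} [AddCommGroup V] [Module ℂ V] [FiniteDimensional ℂ V]
    (T T' : V →ₗ[ℂ] V) (h : T * T' = 1) :
    T'.charpoly.roots = T.charpoly.roots.map fun z => z⁻¹ := by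
  classical
  have h' : T' * T = 1 := mul_eq_one_comm.1 h
  have key : ∀ (A B : V →ₗ[ℂ] V), A * B = 1 → B.charpoly.roots.count 0 = 0 := by
    intro A B hAB
    rw [Polynomial.count_roots, ← LinearMap.finrank_maxGenEigenspace_eq, Submodule.finrank_eq_zero,
      Submodule.eq_bot_iff]
    intro v hv
    obtain ⟨k, hk⟩ := (Module.End.mem_maxGenEigenspace _ _ _).1 hv
    rw [zero_smul, sub_zero] at hk
    have hc : Commute A B := hAB.trans (mul_eq_one_comm.1 hAB).symm
    have h2 : (A ^ k * B ^ k) v = 0 := by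
      show (A ^ k) ((B ^ k) v) = 0
      rw [hk, map_zero]
    rw [← hc.mul_pow, hAB, one_pow] at h2
    exact h2
  refine Multiset.ext.2 fun a => ?_
  by_cases ha : a = 0
  · rw [ha, key T T' h]
    have e0 : (0 : ℂ) = (fun z : ℂ => z⁻¹) 0 := by simp
    rw [e0, Multiset.count_map_eq_count' _ _ inv_injective]
    exact (key T' T h').symm
  · have e1 : a = (fun z : ℂ => z⁻¹) a⁻¹ := by simp
    rw [Polynomial.count_roots, ← LinearMap.finrank_maxGenEigenspace_eq, N3_gen T T' h ha,
      LinearMap.finrank_maxGenEigenspace_eq]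
    conv_rhs => rw [e1]
    rw [Multiset.count_map_eq_count' _ _ inv_injective, Polynomial.count_roots]

theorem N3_sum {ι : Type*} (s : Finset ι) (R : ι → Multiset ℂ) (g : ℂ → ℂ) :
    ((∑ q ∈ s, R q).map g).sum = ∑ q ∈ s, ((R q).map g).sum := by
  classical
  induction s using Finset.induction with
  | empty => simp
  | insert a s ha ih => rw [Finset.sum_insert ha, Finset.sum_insert ha, Multiset.map_add,
      Multiset.sum_add, ih]

theorem N3_card {ι : Type*} (s : Finset ι) (R : ι → Multiset ℂ) :
    Multiset.card (∑ q ∈ s, R q) = ∑ q ∈ s, Multiset.card (R q) := by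
  classical
  induction s using Finset.induction with
  | empty => simp
  | insert a s ha ih => rw [Finset.sum_insert ha, Finset.sum_insert ha, Multiset.card_add, ih]

theorem N3_eig {V : Type*} [AddCommGroup V] [Module ℂ V] [FiniteDimensional ℂ V]
    (T : V →ₗ[ℂ] V) (c : ℂ) : c ∈ T.charpoly.roots ↔ ∃ v, v ≠ 0 ∧ T v = c • v := by
  rw [Polynomial.mem_roots (LinearMap.charpoly_monic T).ne_zero,
    ← Module.End.hasEigenvalue_iff_isRoot_charpoly]
  constructor
  · intro h
    obtain ⟨v, hv⟩ := h.exists_hasEigenvector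
    exact ⟨v, hv.2, hv.apply_eq_smul⟩
  · rintro ⟨v, hv, hv2⟩
    exact Module.End.hasEigenvalue_of_hasEigenvector ⟨Module.End.mem_eigenspace_iff.2 hv2, hv⟩

theorem N3_cardroots {V : Type*} [AddCommGroup V] [Module ℂ V] [FiniteDimensional ℂ V]
    (T : V →ₗ[ℂ] V) : Multiset.card T.charpoly.roots = Module.finrank ℂ V := by
  rw [← LinearMap.charpoly_natDegree T]
  exact (IsAlgClosed.splits T.charpoly).natDegree_eq_card_roots.symm

theorem N3_large {n : ℕ} {M : Type u} [TopologicalSpace M] [ChartedSpace (Er n) M]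
    {q : ℕ} (hq : n < q) (η : M → Lam (Er n) q) : η = 0 := by
  funext x
  ext v
  show (η x) v = 0
  have h1 : ¬ LinearIndependent ℝ v := by
    intro h
    have h2 := h.fintype_card_le_finrank
    rw [Fintype.card_fin, finrank_euclideanSpace_fin] at h2
    omega
  exact AlternatingMap.map_linearDependent (η x).toAlternatingMap v h1

/-- `E f` is the sum (of multisets) over the even `q ≤ n` of the roots of the characteristic polynomials of `S f q` of `exists_act`, `O f` the same for odd `q`.
For `c ∈ E f` there is an eigenvector (`LinearMap.hasEigenvalue_iff_isRoot_charpoly` or similar); conversely `EigH n f q c` with `q ≤ n` even gives `c ∈ E f`; for `q > n` there is no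
`η` : `Lam (Er n) q` is trivial (alternating maps on more than `n` vectors; `AlternatingMap` of linearly dependent vectors, `finrank_euclideanSpace_fin`), so `η = 0` is exact.
`0 ∉ E f` because `S f q` is invertible.  The cardinalities: `Multiset.card` of the roots is the dimension (`ℂ` is algebraically closed). -/
theorem exists_spec (n : ℕ) (M : Type u) [TopologicalSpace M] [ChartedSpace (Er n) M]
    [IsManifold (𝓡 n) ∞ M] [CompactSpace M] [T2Space M] :
    ∃ E O : Dif n M → Multiset ℂ, (∀ f, (0 : ℂ) ∉ E f ∧ (0 : ℂ) ∉ O f) ∧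
      (∀ (f : Dif n M) (k : ℕ), LefN n (itr f k) =
        ((E f).map fun z => z ^ k).sum - ((O f).map fun z => z ^ k).sum) ∧
      (∀ (f : Dif n M) (k : ℕ), LefN n (itr f.symm k) =
        ((E f).map fun z => z⁻¹ ^ k).sum - ((O f).map fun z => z⁻¹ ^ k).sum) ∧
      (∀ f, Multiset.card (E f) = bEven n M) ∧
      (∀ f, (Multiset.card (E f) : ℤ) - Multiset.card (O f) = chi (Er n) M n) ∧
      (∀ f c, c ∈ E f ↔ ∃ q, Even q ∧ EigH n f q c) ∧ (Nonempty M → ∀ f, (1 : ℂ) ∈ E f) := by
  classical
  obtain ⟨H, i1, i2, i3, S, hL, hinv, hfr, hev, hone⟩ := exists_act n M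
  have hsplit : ∀ {A : Type} [AddCommGroup A] (x : ℕ → A) (y : ℕ → A),
      (∀ q, Even q → y q = x q) → (∀ q, ¬ Even q → y q = - x q) →
      ∑ q ∈ Finset.range (n + 1), y q =
        ∑ q ∈ Finset.range (n + 1) with Even q, x q -
          ∑ q ∈ Finset.range (n + 1) with ¬ Even q, x q := by
    intro A _ x y h1 h2
    rw [← Finset.sum_filter_add_sum_filter_not (Finset.range (n + 1)) (fun q => Even q) y,
      sub_eq_add_neg, ← Finset.sum_neg_distrib]
    congr 1
    · exact Finset.sum_congr rfl fun q hq => h1 q (Finset.mem_filter.1 hq).2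
    · exact Finset.sum_congr rfl fun q hq => h2 q (Finset.mem_filter.1 hq).2
  have hzero : ∀ (f : Dif n M) (q : ℕ), (0 : ℂ) ∉ (S f q).charpoly.roots := by
    intro f q h0
    obtain ⟨v, hv, hv2⟩ := (N3_eig (S f q) 0).1 h0
    have h1 : (S f.symm q * S f q) v = v := by
      rw [mul_eq_one_comm.1 (hinv f q)]
      rfl
    have h2 : (S f.symm q * S f q) v = S f.symm q (S f q v) := rfl
    rw [h2, hv2, zero_smul, map_zero] at h1
    exact hv h1.symm
  have hmem : ∀ (f : Dif n M) (c : ℂ), c ∈ (∑ q ∈ Finset.range (n + 1) with Even q,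
      (S f q).charpoly.roots) ↔ ∃ q, Even q ∧ EigH n f q c := by
    intro f c
    rw [Multiset.mem_sum]
    constructor
    · rintro ⟨q, hq, hc⟩
      exact ⟨q, (Finset.mem_filter.1 hq).2, (hev f q c).1 ((N3_eig _ c).1 hc)⟩
    · rintro ⟨q, hq, hc⟩
      by_cases hqn : q ≤ n
      · exact ⟨q, Finset.mem_filter.2 ⟨Finset.mem_range.2 (by omega), hq⟩,
          (N3_eig _ c).2 ((hev f q c).2 hc)⟩
      · obtain ⟨η, -, h2, -⟩ := eigH_iff.1 hc
        refine absurd ?_ h2
        rw [N3_large (by omega) η]
        exact Submodule.zero_mem _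
  refine ⟨fun f => ∑ q ∈ Finset.range (n + 1) with Even q, (S f q).charpoly.roots,
    fun f => ∑ q ∈ Finset.range (n + 1) with ¬ Even q, (S f q).charpoly.roots, ?_, ?_, ?_, ?_, ?_,
    hmem, ?_⟩
  · intro f
    refine ⟨fun h => ?_, fun h => ?_⟩
    · obtain ⟨q, -, hq⟩ := Multiset.mem_sum.1 h
      exact hzero f q hq
    · obtain ⟨q, -, hq⟩ := Multiset.mem_sum.1 h
      exact hzero f q hq
  · intro f k
    rw [hL, N3_sum, N3_sum]
    refine hsplit (fun q => ((S f q).charpoly.roots.map fun z => z ^ k).sum) _ ?_ ?_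
    · intro q hq
      rw [hq.neg_one_pow, one_mul, trace_pow_roots]
    · intro q hq
      rw [(Nat.not_even_iff_odd.1 hq).neg_one_pow, neg_one_mul, trace_pow_roots]
  · intro f k
    have h1 : ∀ q, LinearMap.trace ℂ (H q) (S f.symm q ^ k) =
        ((S f q).charpoly.roots.map fun z => z⁻¹ ^ k).sum := by
      intro q
      rw [trace_pow_roots, roots_charpoly_inv (S f q) (S f.symm q) (hinv f q), Multiset.map_map]
      rfl
    rw [hL, N3_sum, N3_sum]
    refine hsplit (fun q => ((S f q).charpoly.roots.map fun z => z⁻¹ ^ k).sum) _ ?_ ?_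
    · intro q hq
      rw [hq.neg_one_pow, one_mul, h1]
    · intro q hq
      rw [(Nat.not_even_iff_odd.1 hq).neg_one_pow, neg_one_mul, h1]
  · intro f
    show Multiset.card (∑ q ∈ Finset.range (n + 1) with Even q, (S f q).charpoly.roots) = _
    rw [N3_card, bEven]
    refine Finset.sum_congr rfl fun q _ => ?_
    rw [N3_cardroots, hfr]
  · intro f
    show (Multiset.card (∑ q ∈ Finset.range (n + 1) with Even q, (S f q).charpoly.roots) : ℤ) -
      Multiset.card (∑ q ∈ Finset.range (n + 1) with ¬ Even q, (S f q).charpoly.roots) = _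
    rw [N3_card, N3_card, chi]
    push_cast
    refine (hsplit (fun q => (Multiset.card (S f q).charpoly.roots : ℤ)) _ ?_ ?_).symm
    · intro q hq
      rw [hq.neg_one_pow, one_mul, N3_cardroots, hfr]
    · intro q hq
      rw [(Nat.not_even_iff_odd.1 hq).neg_one_pow, neg_one_mul, N3_cardroots, hfr]
  · intro hM f
    obtain ⟨v, hv, hv2⟩ := hone hM
    refine (hmem f 1).2 ⟨0, Even.zero, (hev f 0 1).1 ⟨v, hv, ?_⟩⟩
    rw [hv2 f, one_smul]

end FB
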