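import Pool.Agent.H.MP_fb873c_an.D2m1
import Pool.Agent.H.MP_fb873c_an.E2d
import Pool.Agent.H.MP_fb873c_an.L6a
import Pool.Agent.H.MP_fb873c_an.N0
import Pool.Agent.H.MP_fb873c_an.Y3c

/-!
# Part N3a: the action on the de Rham cohomology
-/

namespace FB

open scoped Topology ContDiff Manifold
open Filter

universe u

section

variable (n : ℕ) (M : Type u) [TopologicalSpace M] [ChartedSpace (Er n) M]

/-- closed modulo exact forms -/
noncomputable abbrev N3a_H (q : ℕ) : Submodule ℂ ((M → Lam (Er n) q) ⧸ Bex (Er n) M q) :=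
  (Zcl (Er n) M q).map (Bex (Er n) M q).mkQ

end

section

variable {n : ℕ} {M : Type u} [TopologicalSpace M] [ChartedSpace (Er n) M]
  [IsManifold (𝓡 n) ∞ M]

theorem N3a_h {F : M → M} (hF : ContMDiff (𝓡 n) (𝓡 n) ∞ F) (q : ℕ) :
    Zcl (Er n) M q ≤ (Zcl (Er n) M q).comap (pbl F q) ∧
      Bex (Er n) M q ≤ (Bex (Er n) M q).comap (pbl F q) :=
  ⟨pbl_Zcl hF q, pbl_Bex hF q⟩

/-- the map induced by `F` -/
noncomputable def N3a_S {F : M → M} (hF : ContMDiff (𝓡 n) (𝓡 n) ∞ F) (q : ℕ) :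
    N3a_H n M q →ₗ[ℂ] N3a_H n M q :=
  ((Bex (Er n) M q).mapQ (Bex (Er n) M q) (pbl F q) (N3a_h hF q).2).restrict
    (qtr_aux _ _ _ (N3a_h hF q))

/-- the class of a closed form -/
noncomputable def N3a_c {q : ℕ} (η : M → Lam (Er n) q) (hη : η ∈ Zcl (Er n) M q) : N3a_H n M q :=
  ⟨(Bex (Er n) M q).mkQ η, η, hη, rfl⟩

theorem N3a_cs {q : ℕ} (v : N3a_H n M q) : ∃ (η : M → Lam (Er n) q) (hη : η ∈ Zcl (Er n) M q),
    v = N3a_c η hη := by
  obtain ⟨v, η, hη, rfl⟩ := v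
  exact ⟨η, hη, rfl⟩

theorem N3a_pb {F : M → M} (hF : ContMDiff (𝓡 n) (𝓡 n) ∞ F) {q : ℕ} {η : M → Lam (Er n) q}
    (hη : η ∈ Zcl (Er n) M q) : pb F η ∈ Zcl (Er n) M q := (N3a_h hF q).1 hη

theorem N3a_Sc {F : M → M} (hF : ContMDiff (𝓡 n) (𝓡 n) ∞ F) {q : ℕ} (η : M → Lam (Er n) q)
    (hη : η ∈ Zcl (Er n) M q) : N3a_S hF q (N3a_c η hη) = N3a_c (pb F η) (N3a_pb hF hη) := rfl

theorem N3a_congr {q : ℕ} {η η' : M → Lam (Er n) q} (hη : η ∈ Zcl (Er n) M q)
    (hη' : η' ∈ Zcl (Er n) M q) (h : η = η') : N3a_c η hη = N3a_c η' hη' := by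
  subst h; rfl

theorem N3a_zero {q : ℕ} (η : M → Lam (Er n) q) (hη : η ∈ Zcl (Er n) M q) :
    N3a_c η hη = 0 ↔ η ∈ Bex (Er n) M q := by
  rw [← (Submodule.Quotient.mk_eq_zero (Bex (Er n) M q)), ← Subtype.coe_inj]
  rfl

theorem N3a_comp {F G : M → M} (hF : ContMDiff (𝓡 n) (𝓡 n) ∞ F)
    (hG : ContMDiff (𝓡 n) (𝓡 n) ∞ G) {q : ℕ} (η : M → Lam (Er n) q) :
    pb (W := Er n) (G ∘ F) η = pb (W := Er n) F (pb (W := Er n) G η) :=
  funext fun p => pb_comp η hF hG p

theorem N3a_id {q : ℕ} (η : M → Lam (Er n) q) : pb (id : M → M) η = η := by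
  funext p
  show (η p).compContinuousLinearMap (fd (W := Er n) (W' := Er n) (id : M → M) p) = η p
  rw [fd_id]
  rfl

theorem N3a_pow (g : Dif n M) (hg : ∀ k, ContMDiff (𝓡 n) (𝓡 n) ∞ ((g : M → M)^[k])) (k q : ℕ) :
    N3a_S (hg k) q = N3a_S g.contMDiff q ^ k := by
  induction k with
  | zero =>
    refine LinearMap.ext fun v => ?_
    obtain ⟨η, hη, rfl⟩ := N3a_cs v
    rw [N3a_Sc]
    exact N3a_congr _ hη (N3a_id η)
  | succ k ih =>
    refine LinearMap.ext fun v => ?_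
    obtain ⟨η, hη, rfl⟩ := N3a_cs v
    rw [pow_succ', ← ih]
    show N3a_S (hg (k + 1)) q (N3a_c η hη) = N3a_S g.contMDiff q (N3a_S (hg k) q (N3a_c η hη))
    rw [N3a_Sc, N3a_Sc, N3a_Sc]
    exact N3a_congr _ _ (N3a_comp g.contMDiff (hg k) η)

theorem N3a_fin [CompactSpace M] [T2Space M] (q : ℕ) : FiniteDimensional ℂ (N3a_H n M q) := by
  obtain ⟨T, -, -, hgood, hT⟩ := exists_drTy (Er n)
  have hM : TGood T M := by
    intro x0 x1 p _ _
    rw [hgood]
    trivial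
  have hT1 : ∀ L : Er n →L[ℝ] Er n, L ∈ T.good := fun L => by rw [hgood]; trivial
  haveI : FiniteDimensional ℂ (HT T hM q) := finiteDimensional_HT T hM (hT1 _) q
  obtain ⟨e, -⟩ := exists_dr_equiv T hT hM (F := (id : M → M)) contMDiff_id (fun p => hT1 _) q
  exact LinearEquiv.finiteDimensional e

end

section

variable {n : ℕ} {M : Type u} [TopologicalSpace M] [ChartedSpace (Er n) M]
  [IsManifold (𝓡 n) ∞ M] [CompactSpace M] [T2Space M]

/-- the constant function `1` -/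
noncomputable def N3a_one (n : ℕ) (M : Type u) : M → Lam (Er n) 0 := fun _ =>
  ContinuousAlternatingMap.constOfIsEmpty ℝ (Er n) (Fin 0) (1 : ℂ)

theorem N3a_pbone (F : M → M) : pb F (N3a_one n M) = N3a_one n M := by
  funext x
  ext v
  rfl

theorem N3a_rep (x0 : M) : rep x0 (N3a_one n M) = fun _ =>
    ContinuousAlternatingMap.constOfIsEmpty ℝ (Er n) (Fin 0) (1 : ℂ) := by
  funext z
  ext v
  rfl

theorem N3a_cl : N3a_one n M ∈ Zcl (Er n) M 0 := by
  refine ⟨fun x0 => ?_, fun x => ?_⟩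
  · rw [N3a_rep]
    exact contDiffOn_const
  · unfold dform
    rw [N3a_rep]
    unfold extDeriv
    rw [fderiv_fun_const]
    exact map_zero (ContinuousAlternatingMap.alternatizeUncurryFinCLM ℝ (Er n) ℂ (n := 0))

end

/-- Take `H q = ↥((Zcl (Er n) M q).map (Bex (Er n) M q).mkQ)` and `S g q` the restriction of `mapQ` of `pbl g q`, exactly as in the definition of `qtr` (file Y0), with `pbl_Zcl`, `pbl_Bex` (file Y3a/Y3b).
* finite dimension: `exists_dr_equiv` (file Y3c) and `finiteDimensional_HT`, with `exists_drTy`, as in `exists_traces` (file Y4b).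
* `LefN n (itr g k)`: unfold `LefN`, `qtr`; the map induced by `pbl (itr g k) q` is the `k`-th power of the one induced by `pbl g q` (`pb` of a composition of smooth maps: the chain rule, `pb_comp` or what is used for `FT_iterate`, file Z3b).  (Alternatively transport `FT_iterate` with
the isomorphism of `exists_dr_equiv`.)
* `S g q * S g.symm q = 1`: `pb` of the identity.
* `finrank`: `bnum` is `qdim` by definition.
* eigenvectors: `v = mkQ η`, `η` closed; `v ≠ 0` says `η ∉ Bex`, `S g q v = c • v` says `pb g η - c • η ∈ Bex`; and conversely.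
* the constant function `1` (a closed `0`-form: `ContinuousAlternatingMap.constOfIsEmpty`): `Bex (Er n) M 0 = ⊥`. -/
theorem exists_act (n : ℕ) (M : Type u) [TopologicalSpace M] [ChartedSpace (Er n) M]
    [IsManifold (𝓡 n) ∞ M] [CompactSpace M] [T2Space M] :
    ∃ (H : ℕ → Type u) (_ : ∀ q, AddCommGroup (H q)) (_ : ∀ q, Module ℂ (H q))
      (_ : ∀ q, FiniteDimensional ℂ (H q)) (S : Dif n M → ∀ q, H q →ₗ[ℂ] H q),
      (∀ (g : Dif n M) (k : ℕ), LefN n (itr g k) = ∑ q ∈ Finset.range (n + 1),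
        (-1 : ℂ) ^ q * LinearMap.trace ℂ (H q) (S g q ^ k)) ∧
      (∀ (g : Dif n M) (q : ℕ), S g q * S g.symm q = 1) ∧
      (∀ q, Module.finrank ℂ (H q) = bnum (Er n) M q) ∧
      (∀ (g : Dif n M) (q : ℕ) (c : ℂ), (∃ v, v ≠ 0 ∧ S g q v = c • v) ↔ EigH n g q c) ∧
      (Nonempty M → ∃ v : H 0, v ≠ 0 ∧ ∀ g, S g 0 v = v) := by
  refine ⟨fun q => N3a_H n M q, fun q => inferInstance, fun q => inferInstance, fun q => N3a_fin q,
    fun g q => N3a_S g.contMDiff q, ?_, ?_, ?_, ?_, ?_⟩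
  · intro g k
    have hs : ∀ k, ContMDiff (𝓡 n) (𝓡 n) ∞ ((g : M → M)^[k]) := fun k => D2m1_iterate g k
    have h1 : LefN n (itr g k) = LefN n ((g : M → M)^[k]) := rfl
    rw [h1]
    unfold LefN
    refine Finset.sum_congr rfl fun q _ => ?_
    congr 1
    unfold qtr
    rw [dif_pos (N3a_h (hs k) q)]
    exact congrArg (LinearMap.trace ℂ (N3a_H n M q)) (N3a_pow g hs k q)
  · intro g q
    refine LinearMap.ext fun v => ?_
    obtain ⟨η, hη, rfl⟩ := N3a_cs v
    show N3a_S g.contMDiff q (N3a_S g.symm.contMDiff q (N3a_c η hη)) = N3a_c η hη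
    rw [N3a_Sc, N3a_Sc]
    refine N3a_congr _ _ ?_
    rw [← N3a_comp g.contMDiff g.symm.contMDiff η]
    have h1 : (g.symm : M → M) ∘ (g : M → M) = id := by
      funext x
      exact g.symm_apply_apply x
    rw [h1]
    exact N3a_id η
  · intro q
    rfl
  · intro g q c
    constructor
    · rintro ⟨v, hv, hc⟩
      obtain ⟨η, hη, rfl⟩ := N3a_cs v
      refine eigH_iff.2 ⟨η, hη, fun h => hv ((N3a_zero η hη).2 h), ?_⟩
      have h1 : N3a_c (pb g η) (N3a_pb g.contMDiff hη) = c • N3a_c η hη := hc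
      have h2 := congrArg Subtype.val h1
      exact (Submodule.Quotient.eq (Bex (Er n) M q)).1 h2
    · intro h0
      obtain ⟨η, hη, h1, h2⟩ := eigH_iff.1 h0
      refine ⟨N3a_c η hη, fun h => h1 ((N3a_zero η hη).1 h), ?_⟩
      apply Subtype.ext
      exact (Submodule.Quotient.eq (Bex (Er n) M q)).2 h2
  · rintro ⟨x⟩
    refine ⟨N3a_c (N3a_one n M) N3a_cl, fun h => ?_, fun g => ?_⟩
    · have h1 : N3a_one n M ∈ Bex (Er n) M 0 := (N3a_zero _ _).1 h
      have h2 : N3a_one n M = 0 := h1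
      have h3 : N3a_one n M x = 0 := congrFun h2 x
      have h4 : (N3a_one n M x) (fun _ => 0) = (0 : Lam (Er n) 0) (fun _ => 0) := by rw [h3]
      have h5 : (1 : ℂ) = 0 := h4
      exact one_ne_zero h5
    · rw [N3a_Sc]
      exact N3a_congr _ _ (N3a_pbone _)

end FB
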