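import Pool.Agent.H.MP_fb873c_an.DCb
import Pool.Agent.H.MP_fb873c_an.J20
import Pool.Agent.H.MP_fb873c_an.Y0

/-!
# Part Y10c: diffeomorphisms outside of the closure
-/

namespace FB

open scoped Topology ContDiff Manifold
open Filter

universe u

variable {n : ℕ} {M : Type u} [TopologicalSpace M] [ChartedSpace (Er n) M]
  [IsManifold (𝓡 n) ∞ M] [CompactSpace M] [T2Space M]

/-- First case of the proof of `JT.closure_NH` (file J20): a real eigenvalue `l` (it is not `0`: the derivative is invertible, `dfix_equiv`) of the derivative at a periodic point of minimal period `k`: `KT.eigen_of_root`, `KT.simple_of_real_eigen`,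
`KT.family_at`, `eventually_mem_open`, `KT.exists_UR`. -/
theorem closure_real (f : Dif n M) {p : M} {k : ℕ} (hk : MinPer f p k) {l : ℂ} (hl : l.im = 0)
    (hr : ((LinearMap.charpoly (dfix (n := n) (itr f k) p).toLinearMap).map
      (algebraMap ℝ ℂ)).IsRoot l) {O : Set (Dif n M)}
    (hO : IsOpen[crTop n M ⊤] O) (hfO : f ∈ O) : ∃ g' ∈ O, g' ∈ UR n M := by
  obtain ⟨hk0, hp0, hmin⟩ := hk
  unfold itr at hp0 hmin hr
  obtain ⟨v, hv, hAv⟩ := KT.eigen_of_root hl hr
  have hre : l.re ≠ 0 := by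
    intro h0
    obtain ⟨A, hA⟩ := dfix_equiv f k hp0
    rw [h0, zero_smul, ← hA] at hAv
    have h1 : A v = A 0 := by
      rw [map_zero]
      exact hAv
    exact hv (A.injective h1)
  obtain ⟨K, hK⟩ := KT.simple_of_real_eigen hre hv hAv
  obtain ⟨H, hsm, hH00, hev⟩ := KT.family_at hk0 f hp0 hmin K
  have hO1 := eventually_mem_open f H hH00 hsm hO hfO
  obtain ⟨s, ⟨⟨h1, h2, h3⟩, h4⟩, h5⟩ :=
    (((hev.and hO1).filter_mono nhdsWithin_le_nhds).and hK).exists
  exact KT.exists_UR hO h4 hk0 h1 h2 (by rw [h3]; exact h5)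

/-- `closure_real`, `JT.closure_NH` (file J20), `mem_closure_iff`. -/
theorem NR_of_not_closure {f : Dif n M} (hf : f ∉ closure[crTop n M ⊤] (UR n M)) (x : M) (k : ℕ)
    (hk : MinPer f x k) : NR (dfix (n := n) (itr f k) x) := by
  intro l hl
  refine ⟨fun h1 => hf ?_, fun h1 => hf ?_⟩
  · refine (@mem_closure_iff (Dif n M) (crTop n M ⊤) f (UR n M)).2 ?_
    intro O hO hfO
    obtain ⟨g, hg, hgU⟩ := JT.closure_NH f hk.1 hk.2.1 (fun h2 => h2 l hl h1) hO hfO
    exact ⟨g, hg, hgU⟩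
  · refine (@mem_closure_iff (Dif n M) (crTop n M ⊤) f (UR n M)).2 ?_
    intro O hO hfO
    obtain ⟨g, hg, hgU⟩ := closure_real f hk h1 hl hO hfO
    exact ⟨g, hg, hgU⟩

end FB
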