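import Pool.Agent.H.MP_fb873c_an.Y10b
import Pool.Agent.H.MP_fb873c_an.Y10c
import Pool.Agent.H.MP_fb873c_an.Y4a

/-!
# Part Y11: Theorem E
-/

namespace FB

open scoped Topology ContDiff Manifold
open Filter

universe u

variable {n : ℕ} {M : Type u} [TopologicalSpace M] [ChartedSpace (Er n) M]
  [IsManifold (𝓡 n) ∞ M] [CompactSpace M] [T2Space M]

/-- The complement of the closure. -/
theorem compl_closure {f : Dif n M} (hf : f ∉ closure[crTop n M ⊤] (UR n M)) :
    (∀ (x : M) (k : ℕ), MinPer f x k → NR (dfix (n := n) (itr f k) x)) ∧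
      ∀ k, 0 < k → {x | itr f k x = x}.Finite ∧
        (({x | itr f k x = x}.ncard : ℕ) : ℂ) = LefN n (itr f k) := by
  have h1 := NR_of_not_closure hf
  exact ⟨h1, fun k hk => card_fix fun x hx => posNd_of_NR h1 x k hk hx⟩

end FB
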