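import Pool.Agent.H.MP_fb873c_an.K17b
import Pool.Agent.H.MP_fb873c_an.K19
import Pool.Agent.H.MP_fb873c_an.Y11

/-!
# Part Y15: definitions for the statements
-/

namespace FB

open scoped Topology ContDiff Manifold
open Filter

universe u

section

variable {E : Type u} [AddCommGroup E] [Module ℂ E]

open Classical in
/-- The trace of the linear map which the linear map `φ` induces on `A / (A ∩ B)`; see `qtr`. -/
noncomputable def qtrf (A B : Submodule ℂ E) (φ : E → E) : ℂ :=
  if h : IsLinearMap ℂ φ then qtr A B (h.mk' φ) else 0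

end

variable {n : ℕ} {M : Type u} [TopologicalSpace M] [ChartedSpace (Er n) M]

/-- The Lefschetz number of `F`: the alternating sum of the traces of `F^*` on the de Rham cohomology (closed modulo
exact complex valued forms). -/
noncomputable def LefNum (n : ℕ) {M : Type u} [TopologicalSpace M] [ChartedSpace (Er n) M]
    (F : M → M) : ℂ :=
  ∑ q ∈ Finset.range (n + 1), (-1 : ℂ) ^ q * qtrf (Zcl (Er n) M q) (Bex (Er n) M q) (pb F)

theorem lefNum_eq (F : M → M) : LefNum n F = LefN n F := by
  unfold LefNum LefN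
  refine Finset.sum_congr rfl fun q _ => ?_
  have h : IsLinearMap ℂ (fun η : M → Lam (Er n) q => pb F η) := (pbl F q).isLinear
  congr 1
  unfold qtrf
  rw [dif_pos h]
  rfl

/-- `f` preserves no complex structure on `M`. -/
def NoCx (f : Dif n M) : Prop :=
  ∀ (m : ℕ) (X : Type u) [TopologicalSpace X] [ChartedSpace (Ec m) X]
    [IsManifold 𝓘(ℂ, Ec m) ω X], ¬ Preserves f m X

/-- `f` has a periodic point `x = f^k(x)` with a real simple eigenvalue of the derivative of `f^k` at `x`. -/
def PerSR (f : Dif n M) : Prop :=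
  ∃ (x : M) (k : ℕ), 0 < k ∧ itr f k x = x ∧ SimpleReal (dfix (n := n) (itr f k) x)

/-- If `x` is periodic of minimal period `k`, then no eigenvalue of the derivative of `f^k` at `x` is real or of
modulus one. -/
def PerNR (f : Dif n M) : Prop :=
  ∀ (x : M) (k : ℕ), MinPer f x k → NR (dfix (n := n) (itr f k) x)

/-- For all `k ≥ 1` the fixed point set of `f^k` is finite, and the number of its points is the Lefschetz number
`L(f^k)`. -/
def CountL (f : Dif n M) : Prop :=
  ∀ k : ℕ, 0 < k → {x | itr f k x = x}.Finite ∧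
    (({x | itr f k x = x}.ncard : ℕ) : ℂ) = LefNum n (itr f k)

variable [IsManifold (𝓡 n) ∞ M] [CompactSpace M] [T2Space M]

theorem UR_noCx {f : Dif n M} (hf : f ∈ UR n M) : NoCx f :=
  fun m X _ _ _ => KT.UR_not_preserves hf m X

omit [IsManifold (𝓡 n) ∞ M] [CompactSpace M] [T2Space M] in
theorem UR_perSR {f : Dif n M} (hf : f ∈ UR n M) : PerSR f := by
  obtain ⟨x, k, hk, hx, -, hs⟩ := hf
  exact ⟨x, k, hk, hx, hs⟩

theorem not_closure_UR (hn : 0 < n) {f : Dif n M} (hf : f ∉ closure[crTop n M ⊤] (UR n M)) :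
    PerNR f ∧ ¬ TransHom f ∧ CountL f := by
  obtain ⟨h1, h2⟩ := compl_closure hf
  refine ⟨h1, fun ht => hf ?_, fun k hk => ?_⟩
  · letI T := crTop n M ⊤
    rw [mem_closure_iff]
    intro V hV hfV
    exact KT.closure_UR hn ht.raw hV hfV
  · rw [lefNum_eq]
    exact h2 k hk

end FB
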