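import Pool.Agent.H.MP_fb873c_an.P7
import Pool.Agent.H.MP_fb873c_an.Y15

/-!
# Part Y16: diffeomorphisms without homoclinic points
-/

namespace FB

open scoped Topology ContDiff Manifold
open Filter

universe u

variable {n : ℕ} {M : Type u} [TopologicalSpace M] [ChartedSpace (Er n) M]

/-- `f` has no homoclinic point: if `p` is periodic of minimal period `k` and `f^(k j) q → p` for `j → ∞` and
for `j → - ∞`, then `q = p`. -/
def NoHom (f : Dif n M) : Prop :=
  ∀ (p q : M) (k : ℕ), MinPer f p k → Asy (itr f k) q p → Asy (itr f.symm k) q p → q = p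

variable [IsManifold (𝓡 n) ∞ M] [CompactSpace M] [T2Space M]

theorem not_closure_UR' (hn : 0 < n) {f : Dif n M} (hf : f ∉ closure[crTop n M ⊤] (UR n M)) :
    PerNR f ∧ NoHom f ∧ CountL f := by
  obtain ⟨h1, -, h3⟩ := not_closure_UR hn hf
  refine ⟨h1, fun p q k hp ha hb => ?_, h3⟩
  by_contra hne
  refine hf ?_
  letI T := crTop n M ⊤
  rw [mem_closure_iff]
  intro V hV hfV
  obtain ⟨g, hg, hU⟩ := PT.closure_hom hn
    ⟨p, q, k, hp.1, hp.2.1, hp.2.2, fun l hl => (h1 p k hp l hl).1, hne, ha, hb⟩ hV hfV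
  exact ⟨g, hg, hU⟩

end FB
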