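import Pool.Agent.H.MP_fb873c_an.N1
import Pool.Agent.H.MP_fb873c_an.N2
import Pool.Agent.H.MP_fb873c_an.N3
import Pool.Agent.H.MP_fb873c_an.Y16

/-!
# Part N4: diffeomorphisms outside the closure of `UR`, and the Euler characteristic
-/

namespace FB

open scoped Topology ContDiff Manifold
open Filter

universe u

variable {n : ℕ} {M : Type u} [TopologicalSpace M] [ChartedSpace (Er n) M]
  [IsManifold (𝓡 n) ∞ M] [CompactSpace M] [T2Space M]

/-- Let `a k` be the number of the fixed points of `f^k`; `not_closure_UR'` (file Y16; `CountL`, `lefNum_eq`) and `card_fix_symm` (file N2) and `exists_spec` (file N3) give the hypotheses of `expsum_alt` (file N1).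
First case: `EvenPair`.  Second case: the number of the fixed points of `f^(P j)` is `χ` for all `j ≥ 1`; as `Fix(f^P) ⊆ Fix(f^(P k))` are finite sets with the same
number of elements, they are equal, and every periodic point (of period `k`) is in `Fix(f^(P k)) = Fix(f^P)`. -/
theorem pair_or_card (hn : 0 < n) {f : Dif n M} (hf : f ∉ closure[crTop n M ⊤] (UR n M)) :
    EvenPair f ∨ PerCard f (chi (Er n) M n) := by
  obtain ⟨h1, -, h3⟩ := not_closure_UR' hn hf
  obtain ⟨E, O, h0, hL, hLi, -, hchi, hmem, -⟩ := exists_spec n M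
  have hNR : ∀ (x : M) (k : ℕ), MinPer f x k → NR (dfix (n := n) (itr f k) x) := h1
  rcases expsum_alt (E f) (O f) (h0 f).1 (h0 f).2 (fun k => {x | itr f k x = x}.ncard)
    (fun k hk => by rw [← hL f k, (h3 k hk).2, lefNum_eq])
    (fun k hk => by rw [← hLi f k, card_fix_symm hNR hk]) with ⟨ρ, hρ, hr1, hr2⟩ | ⟨P, hP, hPj⟩
  · left
    obtain ⟨q, hq, hq'⟩ := (hmem f _).1 hr1
    obtain ⟨r, hr, hr'⟩ := (hmem f _).1 hr2
    exact ⟨ρ, q, r, hρ, hq, hr, hq', hr'⟩
  · right
    have h4 : ∀ j : ℕ, 0 < j → ({x | itr f (P * j) x = x}.ncard : ℤ) = chi (Er n) M n := by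
      intro j hj
      rw [← hchi f]
      exact hPj j hj
    have h5 : ({x | itr f P x = x}.ncard : ℤ) = chi (Er n) M n := by
      have h := h4 1 one_pos
      rwa [mul_one] at h
    have key : {x | ∃ k, 0 < k ∧ itr f k x = x} = {x | itr f P x = x} := by
      ext x
      constructor
      · rintro ⟨k, hk, hx⟩
        have hfin := (h3 (P * k) (Nat.mul_pos hP hk)).1
        have hsub : {x | itr f P x = x} ⊆ {x | itr f (P * k) x = x} := by
          intro y hy
          have hy' : Function.IsPeriodicPt f P y := hy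
          exact hy'.mul_const k
        have hcard : {x | itr f (P * k) x = x}.ncard ≤ {x | itr f P x = x}.ncard := by
          have h := h4 k hk
          omega
        have heq := Set.eq_of_subset_of_ncard_le hsub hcard hfin
        rw [heq]
        have hx' : Function.IsPeriodicPt f k x := hx
        exact hx'.const_mul P
      · exact fun h => ⟨P, hP, h⟩
    unfold PerCard
    rw [key]
    exact ⟨(h3 P hP).1, h5⟩

/-- With the multiset `E f` of `exists_spec`: `1`, `ρ`, `ρ⁻¹` are three different elements. -/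
theorem three_le_bEven {f : Dif n M} [Nonempty M] (h : EvenPair f) : 3 ≤ bEven n M := by
  classical
  obtain ⟨E, O, h0, hL, hLi, hcE, hchi, hmem, h1⟩ := exists_spec n M
  obtain ⟨ρ, q, r, hρ, hq, hr, hq', hr'⟩ := h
  have e1 : (1 : ℂ) ∈ E f := h1 inferInstance f
  have e2 : (ρ : ℂ) ∈ E f := (hmem f _).2 ⟨q, hq, hq'⟩
  have e3 : ((ρ : ℂ)⁻¹) ∈ E f := (hmem f _).2 ⟨r, hr, hr'⟩
  have hinv : ρ⁻¹ < 1 := inv_lt_one_of_one_lt₀ hρ
  have d12 : (1 : ℂ) ≠ (ρ : ℂ) := by
    intro h
    have : (1 : ℝ) = ρ := by exact_mod_cast h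
    linarith
  have d13 : (1 : ℂ) ≠ (ρ : ℂ)⁻¹ := by
    intro h
    have : (1 : ℝ) = ρ⁻¹ := by exact_mod_cast h
    linarith
  have d23 : (ρ : ℂ) ≠ (ρ : ℂ)⁻¹ := by
    intro h
    have : ρ = ρ⁻¹ := by exact_mod_cast h
    linarith
  have hsub : ({1, (ρ : ℂ), (ρ : ℂ)⁻¹} : Finset ℂ) ⊆ (E f).toFinset := by
    intro z hz
    rw [Multiset.mem_toFinset]
    simp only [Finset.mem_insert, Finset.mem_singleton] at hz
    rcases hz with rfl | rfl | rfl
    · exact e1
    · exact e2
    · exact e3
  have hc : ({1, (ρ : ℂ), (ρ : ℂ)⁻¹} : Finset ℂ).card = 3 := by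
    rw [Finset.card_insert_of_notMem, Finset.card_insert_of_notMem, Finset.card_singleton]
    · simpa using d23
    · simp only [Finset.mem_insert, Finset.mem_singleton, not_or]
      exact ⟨d12, d13⟩
  rw [← hcE f, ← hc]
  exact (Finset.card_le_card hsub).trans (Multiset.toFinset_card_le _)

/-- `M` is nonempty as `χ < 0`; `pair_or_card`, `three_le_bEven`; the number of periodic points is not negative. -/
theorem dense_UR (hn : 0 < n) (hchi : chi (Er n) M n < 0)
    (h : (∀ f : Dif n M, ¬ EvenPair f) ∨ bEven n M ≤ 2) :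
    closure[crTop n M ⊤] (UR n M) = Set.univ := by
  refine Set.eq_univ_of_forall fun f => ?_
  by_contra hf
  rcases pair_or_card hn hf with hp | hc
  · have hne : Nonempty M := by
      obtain ⟨ρ, q, r, hρ, hq, hr, hq', hr'⟩ := hp
      obtain ⟨η, -, hη, -⟩ := eigH_iff.1 hq'
      by_contra hemp
      rw [not_nonempty_iff] at hemp
      refine hη ?_
      have h0 : η = 0 := by
        funext x
        exact (hemp.false x).elim
      rw [h0]
      exact Submodule.zero_mem _
    rcases h with h | h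
    · exact h f hp
    · have := three_le_bEven hp
      omega
  · have h1 := hc.2
    have h2 : (0 : ℤ) ≤ ({x | ∃ k, 0 < k ∧ itr f k x = x}.ncard : ℤ) := Int.natCast_nonneg _
    omega

end FB
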