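import Pool.Agent.H.MP_fb873c_an.B5
import Pool.Agent.H.MP_fb873c_an.Z4

/-! # Part Z6: the theorem for diffeomorphisms with a robustly finite hyperbolic periodic set -/

namespace FB

open scoped Topology ContDiff Manifold

universe u

section

variable {n : ℕ} {M : Type u} [TopologicalSpace M] [ChartedSpace (Er n) M]
  [IsManifold (𝓡 n) ∞ M] [CompactSpace M] [T2Space M]

theorem UB_not_preserves (hn : 0 < n) {f : Dif n M} (hf : f ∈ UB n M) (m : ℕ) (X : Type u)
    [TopologicalSpace X] [ChartedSpace (Ec m) X] [hX : IsManifold 𝓘(ℂ, Ec m) ω X] :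
    ¬ Preserves f m X := by
  intro h
  refine UB_contra hn hf fun N _ => ?_
  obtain ⟨R, H, i1, i2, i3, T, P, c, -, hP, -, hc, hL⟩ := holo_data f m X hX h N
  exact ⟨R, H, i1, i2, i3, T, P, c, hP, fun k _ => hc k, fun k _ => hL k⟩

end

end FB
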