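import Pool.Agent.H.MP_fb873c_an.K17
import Pool.Agent.H.MP_fb873c_an.N4
import Pool.Agent.H.MP_fb873c_an.Z6

/-!
# Part N5: the exceptional set
-/

namespace FB

open scoped Topology ContDiff Manifold
open Filter

universe u

variable {n : ℕ} {M : Type u} [TopologicalSpace M] [ChartedSpace (Er n) M]

/-- `f` has a periodic point, and the periodic points of `f` are `C^1`-robustly finitely many and hyperbolic: for a
`C^1`-neighbourhood `O` of `f` and some `N ≥ 1`, every periodic point of every `g` in `O` is a hyperbolic fixed point of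
`g^N`. -/
def RobFin (f : Dif n M) : Prop :=
  (∃ (x : M) (k : ℕ), 0 < k ∧ itr f k x = x) ∧
  ∃ (O : Set (Dif n M)) (N : ℕ), IsOpen[crTop n M 1] O ∧ f ∈ O ∧ 0 < N ∧
    ∀ g ∈ O, ∀ (x : M) (k : ℕ), 0 < k → itr g k x = x →
      itr g N x = x ∧ Hyp (dfix (n := n) (itr g N) x)

variable [IsManifold (𝓡 n) ∞ M] [CompactSpace M] [T2Space M]

theorem isOpen_URB : IsOpen[crTop n M 1] (UR n M ∪ UB n M) := by
  let T := crTop n M 1
  exact IsOpen.union KT.isOpen_UR isOpen_UB

theorem URB_noCx (hn : 0 < n) {f : Dif n M} (hf : f ∈ UR n M ∪ UB n M) : NoCx f := by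
  rcases hf with hf | hf
  · exact UR_noCx hf
  · intro m X _ _ _
    exact UB_not_preserves hn hf m X

theorem not_closure_URB (hn : 0 < n) {f : Dif n M}
    (hf : f ∉ closure[crTop n M ⊤] (UR n M ∪ UB n M)) :
    PerNR f ∧ NoHom f ∧ CountL f ∧ ¬ RobFin f ∧ (EvenPair f ∨ PerCard f (chi (Er n) M n)) := by
  let T := crTop n M ⊤
  have hf1 : f ∉ closure (UR n M) := fun h => hf (closure_mono Set.subset_union_left h)
  have hf2 : f ∉ closure (UB n M) := fun h => hf (closure_mono Set.subset_union_right h)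
  obtain ⟨h1, h2, h3⟩ := not_closure_UR' hn hf1
  refine ⟨h1, h2, h3, ?_, pair_or_card hn hf1⟩
  rintro ⟨hper, O, N, hO, hfO, hN, hOP⟩
  apply hf2
  rw [mem_closure_iff]
  intro V hV hfV
  exact closure_UB hn f O hO hfO N hN hOP hper V hV hfV

theorem dense_URB (hn : 0 < n) (hchi : chi (Er n) M n < 0)
    (h : (∀ f : Dif n M, ¬ EvenPair f) ∨ bEven n M ≤ 2) :
    closure[crTop n M ⊤] (UR n M ∪ UB n M) = Set.univ := by
  let T := crTop n M ⊤
  have h1 : closure (UR n M) = Set.univ := dense_UR hn hchi h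
  refine Set.eq_univ_of_univ_subset ?_
  rw [← h1]
  exact closure_mono Set.subset_union_left

end FB
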