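import Pool.Agent.H.MP_fb873c_an.H0
import Pool.Agent.H.MP_fb873c_an.N5

/-!
# Part N6: robustness
-/

namespace FB

open scoped Topology ContDiff Manifold
open Filter

universe u

variable {n : ℕ} {M : Type u} [TopologicalSpace M] [ChartedSpace (Er n) M]

/-- Every `g` in a `C^∞`-neighbourhood of `f` has exactly `c` periodic points. -/
def RobCard (f : Dif n M) (c : ℤ) : Prop :=
  ∃ V : Set (Dif n M), IsOpen[crTop n M ⊤] V ∧ f ∈ V ∧ ∀ g ∈ V, PerCard g c

variable [IsManifold (𝓡 n) ∞ M] [CompactSpace M] [T2Space M]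

omit [IsManifold (𝓡 n) ∞ M] [CompactSpace M] [T2Space M] in
theorem n6_exact {q : ℕ} {γ : M → Lam (Er n) q} (h : IsExactForm (W := Er n) γ) :
    γ ∈ Bex (Er n) M q := by
  cases q with
  | zero =>
    have h1 : ∀ x, γ x = 0 := h
    exact (Submodule.mem_bot ℂ).2 (funext h1)
  | succ q => exact h

/-- diffeomorphisms near `f` which have an even pair of eigenvalues -/
theorem evenPair_nhds (f : Dif n M) :
    ∃ N : Set (Dif n M), IsOpen[crTop n M 1] N ∧ f ∈ N ∧ ∀ g ∈ N, EvenPair g → EvenPair f := by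
  obtain ⟨N, hN, hf, h⟩ := homotopy_main f
  refine ⟨N, hN, hf, fun g hg => ?_⟩
  have key : ∀ (q : ℕ) (c : ℂ), EigH n g q c → EigH n f q c := by
    intro q c h0
    obtain ⟨η, h1, h2, h3⟩ := eigH_iff.1 h0
    refine eigH_iff.2 ⟨η, h1, h2, ?_⟩
    have h4 := n6_exact (h g hg q η h1.1 h1.2)
    have h5 := Submodule.sub_mem _ h3 h4
    have e : (pb (f : M → M) η - c • η : M → Lam (Er n) q) = (pb (g : M → M) η - c • η) -
        (fun x => pb (g : M → M) η x - pb (f : M → M) η x) := by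
      funext x
      simp only [Pi.sub_apply]
      abel
    rw [e]
    exact h5
  rintro ⟨ρ, q, r, h1, h2, h3, h4, h5⟩
  exact ⟨ρ, q, r, h1, h2, h3, key q _ h4, key r _ h5⟩

theorem rob_of_not_closure (hn : 0 < n) {f : Dif n M}
    (hf : f ∉ closure[crTop n M ⊤] (UR n M ∪ UB n M)) :
    EvenPair f ∨ RobCard f (chi (Er n) M n) := by
  by_cases hE : EvenPair f
  · exact Or.inl hE
  · right
    obtain ⟨N, hN, hfN, h⟩ := evenPair_nhds f
    have hN2 := D4_top hN
    let T := crTop n M ⊤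
    refine ⟨N ∩ (closure (UR n M ∪ UB n M))ᶜ, hN2.inter isClosed_closure.isOpen_compl,
      ⟨hfN, hf⟩, ?_⟩
    rintro g ⟨hgN, hg⟩
    rcases (not_closure_URB hn hg).2.2.2.2 with h1 | h1
    · exact absurd (h g hgN h1) hE
    · exact h1

end FB
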