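import Pool.Agent.H.MP_fb873c_an.B0

/-!
# Part P0 (homoclinic points, not necessarily transverse): definitions
-/

namespace FB

open scoped Topology ContDiff Manifold
open Filter

universe u

section

variable {E : Type*} [NormedAddCommGroup E] [NormedSpace ℝ E]

/-- The values at `0` of the two-sided solutions of `x (j+1) = L j (x j)` which tend to `0` for `j → ∞`. -/
def Fwd (L : ℤ → E →L[ℝ] E) : Submodule ℝ E where
  carrier := {v | ∃ x : ℤ → E, x 0 = v ∧ (∀ j, x (j + 1) = L j (x j)) ∧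
    Tendsto (fun i : ℕ => x (i : ℤ)) atTop (𝓝 0)}
  zero_mem' := ⟨fun _ => 0, rfl, fun j => by simp, tendsto_const_nhds⟩
  add_mem' := by
    rintro v w ⟨x, hx0, hx, hx1⟩ ⟨y, hy0, hy, hy1⟩
    refine ⟨fun j => x j + y j, by simp only [hx0, hy0], fun j => by simp only [hx, hy, map_add], ?_⟩
    simpa using hx1.add hy1
  smul_mem' := by
    rintro c v ⟨x, hx0, hx, hx1⟩
    refine ⟨fun j => c • x j, by simp only [hx0], fun j => by simp only [hx, map_smul], ?_⟩
    simpa using hx1.const_smul c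

/-- The values at `0` of the two-sided solutions of `x (j+1) = L j (x j)` which tend to `0` for `j → - ∞`. -/
def Bwd (L : ℤ → E →L[ℝ] E) : Submodule ℝ E where
  carrier := {v | ∃ x : ℤ → E, x 0 = v ∧ (∀ j, x (j + 1) = L j (x j)) ∧
    Tendsto (fun i : ℕ => x (-(i : ℤ))) atTop (𝓝 0)}
  zero_mem' := ⟨fun _ => 0, rfl, fun j => by simp, tendsto_const_nhds⟩
  add_mem' := by
    rintro v w ⟨x, hx0, hx, hx1⟩ ⟨y, hy0, hy, hy1⟩
    refine ⟨fun j => x j + y j, by simp only [hx0, hy0], fun j => by simp only [hx, hy, map_add], ?_⟩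
    simpa using hx1.add hy1
  smul_mem' := by
    rintro c v ⟨x, hx0, hx, hx1⟩
    refine ⟨fun j => c • x j, by simp only [hx0], fun j => by simp only [hx, map_smul], ?_⟩
    simpa using hx1.const_smul c

end

section

variable {n : ℕ} {M : Type u} [TopologicalSpace M] [ChartedSpace (Er n) M]

/-- `f` has a homoclinic point `q` of a hyperbolic periodic point `p` of (minimal) period `k`:
`f^(k j) q → p` for `j → ± ∞`, `q ≠ p`. -/
def HomR (f : Dif n M) : Prop :=
  ∃ (p q : M) (k : ℕ), 0 < k ∧ (f : M → M)^[k] p = p ∧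
    (∀ i, 0 < i → i < k → (f : M → M)^[i] p ≠ p) ∧
    Hyp (dfix (n := n) ((f : M → M)^[k]) p) ∧ q ≠ p ∧
    Tendsto (fun j : ℕ => ((f : M → M)^[k])^[j] q) atTop (𝓝 p) ∧
    Tendsto (fun j : ℕ => ((f.symm : M → M)^[k])^[j] q) atTop (𝓝 p)

end

end FB
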