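import Pool.Agent.H.MP_fb873c_an.K00
import Pool.Agent.H.MP_fb873c_an.P0

/-!
# Part P1b: stable and unstable spaces of nearly constant sequences
-/

namespace FB

namespace PT

open KT
open scoped Topology
open Filter

variable {E : Type*} [NormedAddCommGroup E] [NormedSpace ℝ E]

theorem P1b_zero {A : E →L[ℝ] E} {c ε : ℝ} (hc : 0 < c) (hB : BB c (fun _ => A)) (hε : ε < c)
    (h0 : 0 ≤ ε) (z : ℤ → E) (hz : ∃ C, ∀ j, ‖z j‖ ≤ C)
    (h : ∀ j, ‖z (j + 1) - A (z j)‖ ≤ ε * ‖z j‖) : ∀ j, z j = 0 := by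
  obtain ⟨C, hC⟩ := hz
  have bdd : BddAbove (Set.range fun j => ‖z j‖) := ⟨C, by rintro _ ⟨j, rfl⟩; exact hC j⟩
  have hS : ∀ j, ‖z j‖ ≤ ⨆ j, ‖z j‖ := fun j => le_ciSup bdd j
  have h1 : ∀ j, c * ‖z j‖ ≤ ε * ⨆ j, ‖z j‖ := hB z ⟨C, hC⟩ _ fun j =>
    (h j).trans (mul_le_mul_of_nonneg_left (hS j) h0)
  have h2 : (⨆ j, ‖z j‖) ≤ (ε * ⨆ j, ‖z j‖) / c := ciSup_le fun j =>
    (le_div_iff₀' hc).2 (h1 j)
  rw [le_div_iff₀' hc] at h2
  have h3 : 0 ≤ ⨆ j, ‖z j‖ := (norm_nonneg _).trans (hS 0)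
  have h4 : (⨆ j, ‖z j‖) ≤ 0 := by nlinarith
  intro j
  exact norm_le_zero_iff.1 ((hS j).trans h4)

omit [NormedSpace ℝ E] in
theorem P1b_bdd {x y : ℤ → E} (hx : Tendsto (fun i : ℕ => x (i : ℤ)) atTop (𝓝 0))
    (hy : Tendsto (fun i : ℕ => y (-(i : ℤ))) atTop (𝓝 0)) :
    ∃ C, ∀ j : ℤ, ‖(if 0 ≤ j then x j else y j)‖ ≤ C := by
  obtain ⟨C1, h1⟩ := hx.norm.bddAbove_range
  obtain ⟨C2, h2⟩ := hy.norm.bddAbove_range
  refine ⟨max C1 C2, fun j => ?_⟩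
  by_cases hj : 0 ≤ j
  · rw [if_pos hj]
    obtain ⟨i, rfl⟩ := Int.eq_ofNat_of_zero_le hj
    exact (h1 ⟨i, rfl⟩).trans (le_max_left _ _)
  · rw [if_neg hj]
    obtain ⟨i, hi⟩ := Int.eq_ofNat_of_zero_le (show 0 ≤ -j by omega)
    have e : j = -(i : ℤ) := by omega
    rw [e]
    exact (h2 ⟨i, rfl⟩).trans (le_max_right _ _)

/-- Let `v` be in both: `x` a solution for `L` with `x j → 0`, `j → ∞`, `y` a solution for `A` with `y j → 0`, `j → - ∞`, `x 0 = y 0 = v`.  `z j = x j` for `j ≥ 0`, `z j = y j` for `j ≤ 0` is bounded (a convergent sequence is bounded),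
`z (j+1) - A (z j) = (L j - A) (z j)` for `j ≥ 0` and `0` for `j < 0`.  Let `S` be the supremum of the `‖z j‖` (or: for every bound `C` of the `‖z j‖` the number `(ε / c) C` is again a bound, by `BB`; iterate, `(ε/c)^i C → 0`).  So
`z = 0`, `v = 0`. -/
theorem fwd_inf {A : E →L[ℝ] E} {c ε : ℝ} (hc : 0 < c) (hB : BB c (fun _ => A)) (hε : ε < c)
    {L : ℤ → E →L[ℝ] E} (hL : ∀ j : ℤ, 0 ≤ j → ‖L j - A‖ ≤ ε) :
    Fwd L ⊓ Bwd (fun _ => A) = ⊥ := by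
  have h0 : 0 ≤ ε := (norm_nonneg _).trans (hL 0 le_rfl)
  rw [eq_bot_iff]
  rintro v ⟨⟨x, hx0, hx, hx1⟩, ⟨y, hy0, hy, hy1⟩⟩
  have key := P1b_zero hc hB hε h0 (fun j => if 0 ≤ j then x j else y j) (P1b_bdd hx1 hy1) (by
    intro j
    by_cases hj : 0 ≤ j
    · simp only [if_pos hj, if_pos (show 0 ≤ j + 1 by omega)]
      rw [hx, ← sub_apply]
      exact ((L j - A).le_opNorm _).trans (mul_le_mul_of_nonneg_right (hL j hj) (norm_nonneg _))
    · have e : (if 0 ≤ j + 1 then x (j + 1) else y (j + 1)) = y (j + 1) := by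
        by_cases hj1 : 0 ≤ j + 1
        · have e1 : j + 1 = 0 := by omega
          rw [if_pos hj1, e1, hx0, hy0]
        · rw [if_neg hj1]
      simp only [if_neg hj]
      rw [e, hy, sub_self, norm_zero]
      exact mul_nonneg h0 (norm_nonneg _)) 0
  simp only [le_refl, if_true] at key
  rw [Submodule.mem_bot, ← hx0]
  exact key

/-- The same for `j → - ∞`: `‖L j - A‖ ≤ ε` for `j < 0`. -/
theorem bwd_inf {A : E →L[ℝ] E} {c ε : ℝ} (hc : 0 < c) (hB : BB c (fun _ => A)) (hε : ε < c)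
    {L : ℤ → E →L[ℝ] E} (hL : ∀ j : ℤ, j < 0 → ‖L j - A‖ ≤ ε) :
    Bwd L ⊓ Fwd (fun _ => A) = ⊥ := by
  have h0 : 0 ≤ ε := (norm_nonneg _).trans (hL (-1) (by norm_num))
  rw [eq_bot_iff]
  rintro v ⟨⟨x, hx0, hx, hx1⟩, ⟨y, hy0, hy, hy1⟩⟩
  have key := P1b_zero hc hB hε h0 (fun j => if 0 ≤ j then y j else x j) (P1b_bdd hy1 hx1) (by
    intro j
    by_cases hj : 0 ≤ j
    · simp only [if_pos hj, if_pos (show 0 ≤ j + 1 by omega)]
      rw [hy, sub_self, norm_zero]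
      exact mul_nonneg h0 (norm_nonneg _)
    · have e : (if 0 ≤ j + 1 then y (j + 1) else x (j + 1)) = x (j + 1) := by
        by_cases hj1 : 0 ≤ j + 1
        · have e1 : j + 1 = 0 := by omega
          rw [if_pos hj1, e1, hx0, hy0]
        · rw [if_neg hj1]
      simp only [if_neg hj]
      rw [e, hx, ← sub_apply]
      exact ((L j - A).le_opNorm _).trans
        (mul_le_mul_of_nonneg_right (hL j (by omega)) (norm_nonneg _))) 0
  simp only [le_refl, if_true] at key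
  rw [Submodule.mem_bot, ← hy0]
  exact key

end PT

end FB
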