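import Pool.Agent.H.MP_fb873c_an.P0

/-!
# Part P1c: shifting
-/

namespace FB

namespace PT

open scoped Topology
open Filter

variable {E : Type*} [NormedAddCommGroup E] [NormedSpace ℝ E]

/-- forward half of a solution -/
def P1c_fw (e : ℤ → E ≃ₗ[ℝ] E) (v : E) : ℕ → E
  | 0 => v
  | m + 1 => e (m : ℤ) (P1c_fw e v m)

/-- backward half of a solution -/
def P1c_bw (e : ℤ → E ≃ₗ[ℝ] E) (v : E) : ℕ → E
  | 0 => v
  | m + 1 => (e (Int.negSucc m)).symm (P1c_bw e v m)

/-- a two-sided solution -/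
def P1c_two (e : ℤ → E ≃ₗ[ℝ] E) (v : E) : ℤ → E
  | Int.ofNat m => P1c_fw e v m
  | Int.negSucc m => P1c_bw e v (m + 1)

theorem P1c_two_spec (e : ℤ → E ≃ₗ[ℝ] E) (v : E) (j : ℤ) :
    P1c_two e v (j + 1) = e j (P1c_two e v j) := by
  cases j with
  | ofNat m => rfl
  | negSucc m =>
    cases m with
    | zero =>
      change P1c_fw e v 0 = e (Int.negSucc 0) ((e (Int.negSucc 0)).symm (P1c_bw e v 0))
      rw [LinearEquiv.apply_symm_apply]
      rfl
    | succ m =>
      change P1c_bw e v (m + 1) =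
        e (Int.negSucc (m + 1)) ((e (Int.negSucc (m + 1))).symm (P1c_bw e v (m + 1)))
      rw [LinearEquiv.apply_symm_apply]

/-- solutions which tend to `0` at `+ ∞` -/
def P1c_SF (L : ℤ → E →L[ℝ] E) : Submodule ℝ (ℤ → E) where
  carrier := {x | (∀ j, x (j + 1) = L j (x j)) ∧ Tendsto (fun i : ℕ => x (i : ℤ)) atTop (𝓝 0)}
  zero_mem' := ⟨fun j => by simp, tendsto_const_nhds⟩
  add_mem' := by
    rintro x y ⟨hx, hx1⟩ ⟨hy, hy1⟩
    refine ⟨fun j => by simp only [Pi.add_apply, hx, hy, map_add], ?_⟩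
    simpa using hx1.add hy1
  smul_mem' := by
    rintro c x ⟨hx, hx1⟩
    refine ⟨fun j => by simp only [Pi.smul_apply, hx, map_smul], ?_⟩
    simpa using hx1.const_smul c

/-- solutions which tend to `0` at `- ∞` -/
def P1c_SB (L : ℤ → E →L[ℝ] E) : Submodule ℝ (ℤ → E) where
  carrier := {x | (∀ j, x (j + 1) = L j (x j)) ∧
    Tendsto (fun i : ℕ => x (-(i : ℤ))) atTop (𝓝 0)}
  zero_mem' := ⟨fun j => by simp, tendsto_const_nhds⟩
  add_mem' := by
    rintro x y ⟨hx, hx1⟩ ⟨hy, hy1⟩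
    refine ⟨fun j => by simp only [Pi.add_apply, hx, hy, map_add], ?_⟩
    simpa using hx1.add hy1
  smul_mem' := by
    rintro c x ⟨hx, hx1⟩
    refine ⟨fun j => by simp only [Pi.smul_apply, hx, map_smul], ?_⟩
    simpa using hx1.const_smul c

theorem P1c_zero {L : ℤ → E →L[ℝ] E} (hi : ∀ j, Function.Injective (L j)) {x : ℤ → E}
    (hx : ∀ j, x (j + 1) = L j (x j)) (h0 : x 0 = 0) : x = 0 := by
  funext j
  induction j using Int.induction_on with
  | zero => exact h0
  | succ i ih =>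
    rw [hx, ih]
    simp
  | pred i ih =>
    have h := hx (-(i : ℤ) - 1)
    rw [sub_add_cancel, ih] at h
    exact hi _ (by rw [← h]; simp)

theorem P1c_finrank_fwd {L : ℤ → E →L[ℝ] E} (hi : ∀ j, Function.Injective (L j)) :
    Module.finrank ℝ (Fwd L) = Module.finrank ℝ (P1c_SF L) := by
  have hinj : Function.Injective
      ((LinearMap.proj (R := ℝ) (φ := fun _ : ℤ => E) 0).domRestrict (P1c_SF L)) := by
    rw [injective_iff_map_eq_zero]
    rintro ⟨x, hx⟩ h
    exact Subtype.ext (P1c_zero hi hx.1 h)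
  rw [← LinearMap.finrank_range_of_inj hinj]
  have : Fwd L = LinearMap.range
      ((LinearMap.proj (R := ℝ) (φ := fun _ : ℤ => E) 0).domRestrict (P1c_SF L)) := by
    ext v
    constructor
    · rintro ⟨x, h0, h1, h2⟩
      exact ⟨⟨x, h1, h2⟩, h0⟩
    · rintro ⟨⟨x, h1, h2⟩, h0⟩
      exact ⟨x, h0, h1, h2⟩
  rw [this]

theorem P1c_finrank_bwd {L : ℤ → E →L[ℝ] E} (hi : ∀ j, Function.Injective (L j)) :
    Module.finrank ℝ (Bwd L) = Module.finrank ℝ (P1c_SB L) := by
  have hinj : Function.Injective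
      ((LinearMap.proj (R := ℝ) (φ := fun _ : ℤ => E) 0).domRestrict (P1c_SB L)) := by
    rw [injective_iff_map_eq_zero]
    rintro ⟨x, hx⟩ h
    exact Subtype.ext (P1c_zero hi hx.1 h)
  rw [← LinearMap.finrank_range_of_inj hinj]
  have : Bwd L = LinearMap.range
      ((LinearMap.proj (R := ℝ) (φ := fun _ : ℤ => E) 0).domRestrict (P1c_SB L)) := by
    ext v
    constructor
    · rintro ⟨x, h0, h1, h2⟩
      exact ⟨⟨x, h1, h2⟩, h0⟩
    · rintro ⟨⟨x, h1, h2⟩, h0⟩
      exact ⟨x, h0, h1, h2⟩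
  rw [this]

omit [NormedSpace ℝ E] in
theorem P1c_shift {x : ℤ → E} (a : ℤ) (h : Tendsto (fun i : ℕ => x (i : ℤ)) atTop (𝓝 0)) :
    Tendsto (fun i : ℕ => x (a + (i : ℤ))) atTop (𝓝 0) := by
  have h2 : Tendsto (fun i : ℕ => (a + (i : ℤ)).toNat) atTop atTop := by
    rw [tendsto_atTop]
    intro b
    filter_upwards [eventually_ge_atTop (b + a.natAbs)] with i hi
    omega
  refine (h.comp h2).congr' ?_
  filter_upwards [eventually_ge_atTop a.natAbs] with i hi
  have : (((a + (i : ℤ)).toNat : ℕ) : ℤ) = a + (i : ℤ) := by omega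
  simp only [Function.comp_apply, this]

omit [NormedSpace ℝ E] in
theorem P1c_shift' {x : ℤ → E} (a : ℤ) (h : Tendsto (fun i : ℕ => x (-(i : ℤ))) atTop (𝓝 0)) :
    Tendsto (fun i : ℕ => x (a + -(i : ℤ))) atTop (𝓝 0) := by
  have h2 : Tendsto (fun i : ℕ => ((i : ℤ) - a).toNat) atTop atTop := by
    rw [tendsto_atTop]
    intro b
    filter_upwards [eventually_ge_atTop (b + a.natAbs)] with i hi
    omega
  refine (h.comp h2).congr' ?_
  filter_upwards [eventually_ge_atTop a.natAbs] with i hi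
  have : -((((i : ℤ) - a).toNat : ℕ) : ℤ) = a + -(i : ℤ) := by omega
  simp only [Function.comp_apply, this]

/-- reindexing of the solutions -/
theorem P1c_SF_shift (L : ℤ → E →L[ℝ] E) (a : ℤ) :
    P1c_SF (fun j => L (a + j)) =
      (P1c_SF L).map (LinearEquiv.funCongrLeft ℝ E (Equiv.addLeft a)).toLinearMap := by
  ext x
  constructor
  · rintro ⟨h1, h2⟩
    refine ⟨fun j => x (-a + j), ⟨fun j => ?_, P1c_shift (-a) h2⟩, ?_⟩
    · have h3 : x (-a + j + 1) = L (a + (-a + j)) (x (-a + j)) := h1 (-a + j)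
      rw [add_neg_cancel_left] at h3
      change x (-a + (j + 1)) = L j (x (-a + j))
      rw [← h3, add_assoc]
    · funext j
      change x (-a + (a + j)) = x j
      rw [neg_add_cancel_left]
  · rintro ⟨y, ⟨h1, h2⟩, rfl⟩
    refine ⟨fun j => ?_, P1c_shift a h2⟩
    change y (a + (j + 1)) = L (a + j) (y (a + j))
    rw [← h1, add_assoc]

theorem P1c_SB_shift (L : ℤ → E →L[ℝ] E) (a : ℤ) :
    P1c_SB (fun j => L (a + j)) =
      (P1c_SB L).map (LinearEquiv.funCongrLeft ℝ E (Equiv.addLeft a)).toLinearMap := by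
  ext x
  constructor
  · rintro ⟨h1, h2⟩
    refine ⟨fun j => x (-a + j), ⟨fun j => ?_, P1c_shift' (-a) h2⟩, ?_⟩
    · have h3 : x (-a + j + 1) = L (a + (-a + j)) (x (-a + j)) := h1 (-a + j)
      rw [add_neg_cancel_left] at h3
      change x (-a + (j + 1)) = L j (x (-a + j))
      rw [← h3, add_assoc]
    · funext j
      change x (-a + (a + j)) = x j
      rw [neg_add_cancel_left]
  · rintro ⟨y, ⟨h1, h2⟩, rfl⟩
    refine ⟨fun j => ?_, P1c_shift' a h2⟩
    change y (a + (j + 1)) = L (a + j) (y (a + j))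
    rw [← h1, add_assoc]

variable [FiniteDimensional ℝ E]

/-- The maps `L j` are bijective (finite dimension).  A solution is determined by its value at `0` and also by its value at `a`; every vector is the value at `0` of exactly one solution (construct it by recursion in both
directions, `Int.induction_on`, or `∃ x, x 0 = v ∧ ∀ j, x (j+1) = L j (x j)`, using the equivalences `LinearEquiv.ofInjectiveEndo (L j)`). -/
theorem exists_sol {L : ℤ → E →L[ℝ] E} (hi : ∀ j, Function.Injective (L j)) (v : E) :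
    ∃ x : ℤ → E, x 0 = v ∧ ∀ j, x (j + 1) = L j (x j) := by
  refine ⟨P1c_two (fun j => LinearEquiv.ofInjectiveEndo (L j : E →ₗ[ℝ] E) (hi j)) v, rfl,
    fun j => ?_⟩
  rw [P1c_two_spec]
  rfl

/-- The value at `a` of the solution with value `v` at `0` defines an injective linear map `Fwd L → Fwd (shifted L)`; the inverse in the same way.  (It is enough to prove `≤` for all `L` and all `a`; use it for `a` and `-a`.) -/
theorem finrank_fwd_shift {L : ℤ → E →L[ℝ] E} (hi : ∀ j, Function.Injective (L j)) (a : ℤ) :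
    Module.finrank ℝ (Fwd (fun j => L (a + j))) = Module.finrank ℝ (Fwd L) := by
  rw [P1c_finrank_fwd hi, P1c_finrank_fwd (fun j => hi (a + j)), P1c_SF_shift]
  exact LinearEquiv.finrank_map_eq _ _

theorem finrank_bwd_shift {L : ℤ → E →L[ℝ] E} (hi : ∀ j, Function.Injective (L j)) (a : ℤ) :
    Module.finrank ℝ (Bwd (fun j => L (a + j))) = Module.finrank ℝ (Bwd L) := by
  rw [P1c_finrank_bwd hi, P1c_finrank_bwd (fun j => hi (a + j)), P1c_SB_shift]
  exact LinearEquiv.finrank_map_eq _ _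

end PT

end FB
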