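import Pool.Agent.H.MP_fb873c_an.P1a
import Pool.Agent.H.MP_fb873c_an.P1b
import Pool.Agent.H.MP_fb873c_an.P1c

/-!
# Part P1: the dimensions of the stable and the unstable space along a homoclinic orbit
-/

namespace FB

namespace PT

open KT
open scoped Topology
open Filter

variable {E : Type*} [NormedAddCommGroup E] [NormedSpace ℝ E] [FiniteDimensional ℝ E]

/-- `c` from `bb_const` (file K1b1), `ε = c/2`, `J` with `‖L j - A‖ ≤ ε` for `|j| ≥ J` (cofinite).  By `finrank_fwd_shift` (with `a = J`) and `fwd_inf`: `finrank (Fwd L) + finrank (Bwd A) ≤ finrank E`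
(`Submodule.finrank_add_finrank_le_of_disjoint` or `Submodule.finrank_sup_add_finrank_inf_eq`), with `a = -J` and `bwd_inf`: `finrank (Bwd L) + finrank (Fwd A) ≤ finrank E`; by `sup_const`,
`finrank E ≤ finrank (Fwd A) + finrank (Bwd A)`. -/
theorem finrank_add_le {L : ℤ → E →L[ℝ] E} {A : E →L[ℝ] E} (hL : Tendsto L cofinite (𝓝 A))
    (hA : NoBdd (fun _ => A)) (hAi : Function.Injective A) (hi : ∀ j, Function.Injective (L j)) :
    Module.finrank ℝ (Fwd L) + Module.finrank ℝ (Bwd L) ≤ Module.finrank ℝ E := by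
  obtain ⟨c, hc, hB⟩ := bb_const hA
  have hc2 : c / 2 < c := by linarith
  have h1 : ∀ᶠ j in cofinite, ‖L j - A‖ ≤ c / 2 := by
    filter_upwards [(Metric.tendsto_nhds.1 hL) (c / 2) (by positivity)] with j hj
    rw [← dist_eq_norm]
    exact hj.le
  obtain ⟨J, hJ⟩ : ∃ J : ℕ, ∀ j : ℤ, (J : ℤ) ≤ |j| → ‖L j - A‖ ≤ c / 2 := by
    have hfin : {j | ¬ ‖L j - A‖ ≤ c / 2}.Finite := h1
    obtain ⟨b, hb⟩ := (hfin.image Int.natAbs).bddAbove
    refine ⟨b + 1, fun j hj => ?_⟩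
    by_contra h
    have h2 : j.natAbs ≤ b := hb ⟨j, h, rfl⟩
    rw [Int.abs_eq_natAbs] at hj
    omega
  have e1 : Fwd (fun j => L ((J : ℤ) + j)) ⊓ Bwd (fun _ => A) = ⊥ :=
    fwd_inf hc hB hc2 fun j hj => hJ _ (by
      rw [abs_of_nonneg (by omega)]
      omega)
  have e2 : Bwd (fun j => L (-(J : ℤ) + j)) ⊓ Fwd (fun _ => A) = ⊥ :=
    bwd_inf hc hB hc2 fun j hj => hJ _ (by
      rw [abs_of_neg (by omega)]
      omega)
  have s1 := Submodule.finrank_sup_add_finrank_inf_eq (Fwd (fun j => L ((J : ℤ) + j)))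
    (Bwd (fun _ => A))
  have s2 := Submodule.finrank_sup_add_finrank_inf_eq (Bwd (fun j => L (-(J : ℤ) + j)))
    (Fwd (fun _ => A))
  have s3 := Submodule.finrank_add_le_finrank_add_finrank (Fwd (fun _ => A)) (Bwd (fun _ => A))
  rw [sup_const hA hAi, finrank_top] at s3
  rw [e1, finrank_bot, finrank_fwd_shift hi] at s1
  rw [e2, finrank_bot, finrank_bwd_shift hi] at s2
  have t1 := Submodule.finrank_le (Fwd (fun j => L ((J : ℤ) + j)) ⊔ Bwd (fun _ => A))
  have t2 := Submodule.finrank_le (Bwd (fun j => L (-(J : ℤ) + j)) ⊔ Fwd (fun _ => A))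
  omega

end PT

end FB
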