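import Pool.Agent.H.MP_fb873c_an.K1b1
import Pool.Agent.H.MP_fb873c_an.K2b
import Pool.Agent.H.MP_fb873c_an.P0

/-!
# Part P1a: the stable and the unstable space of a hyperbolic map span
-/

namespace FB

namespace PT

open KT
open scoped Topology
open Filter

variable {E : Type*} [NormedAddCommGroup E] [NormedSpace ℝ E] [FiniteDimensional ℝ E]

omit [FiniteDimensional ℝ E] in
/-- Exponential decay of a solution which is bounded on one side. -/
theorem P1a_aux {A : E →L[ℝ] E} {c κ C : ℝ} (hc : 0 < c) (hκ : 0 < κ) {y : ℕ → E}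
    (h : ∀ i : ℕ, c * (Real.exp (κ * (i : ℝ)) * ‖y i‖) ≤ (1 + ‖A‖) * C) :
    Tendsto y atTop (𝓝 0) := by
  rw [tendsto_zero_iff_norm_tendsto_zero]
  have hg : Tendsto (fun i : ℕ => κ * (i : ℝ)) atTop atTop :=
    tendsto_natCast_atTop_atTop.const_mul_atTop hκ
  have hg2 : Tendsto (fun i : ℕ => (1 + ‖A‖) * C / c * Real.exp (-(κ * (i : ℝ)))) atTop
      (𝓝 0) := by
    have h1 := (Real.tendsto_exp_neg_atTop_nhds_zero.comp hg).const_mul ((1 + ‖A‖) * C / c)
    rw [mul_zero] at h1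
    exact h1
  refine squeeze_zero (fun i => norm_nonneg _) (fun i => ?_) hg2
  have h1 := h i
  have hpos := Real.exp_pos (κ * (i : ℝ))
  rw [Real.exp_neg, ← div_eq_mul_inv, div_div, le_div_iff₀ (mul_pos hc hpos)]
  linarith

omit [FiniteDimensional ℝ E] in
theorem P1a_fwd {A : E →L[ℝ] E} {c : ℝ} (hc : 0 < c) (hB : BB c (fun _ => A)) {x : ℤ → E}
    (hx : ∀ j, x (j + 1) = A (x j)) {C : ℝ} (hC : ∀ i : ℕ, ‖x (i : ℤ)‖ ≤ C) :
    Tendsto (fun i : ℕ => x (i : ℤ)) atTop (𝓝 0) := by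
  obtain ⟨κ, hκ, η, hη, hs⟩ := exists_kappa hc (norm_nonneg A)
  refine P1a_aux (A := A) (C := C) hc hκ fun i => ?_
  have h1 := bb_decay (R := C) hB hc (fun _ => le_rfl) hκ.le hη.le hs (a := 0)
    (b := 2 * (i : ℤ)) (by omega) x (fun j _ _ => by
      rw [hx j, sub_self, norm_zero]
      positivity) (by simpa using hC 0) (by
      have h2 := hC (2 * i)
      push_cast at h2
      exact h2) (i : ℤ) (by omega) (by omega)
  have e : min ((i : ℤ) - 0) (2 * (i : ℤ) - (i : ℤ)) = (i : ℤ) := by omega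
  rw [e, Int.cast_natCast] at h1
  exact h1

omit [FiniteDimensional ℝ E] in
theorem P1a_bwd {A : E →L[ℝ] E} {c : ℝ} (hc : 0 < c) (hB : BB c (fun _ => A)) {x : ℤ → E}
    (hx : ∀ j, x (j + 1) = A (x j)) {C : ℝ} (hC : ∀ i : ℕ, ‖x (-(i : ℤ))‖ ≤ C) :
    Tendsto (fun i : ℕ => x (-(i : ℤ))) atTop (𝓝 0) := by
  obtain ⟨κ, hκ, η, hη, hs⟩ := exists_kappa hc (norm_nonneg A)
  refine P1a_aux (A := A) (C := C) hc hκ fun i => ?_
  have h1 := bb_decay (R := C) hB hc (fun _ => le_rfl) hκ.le hη.le hs (a := -(2 * (i : ℤ)))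
    (b := 0) (by omega) x (fun j _ _ => by
      rw [hx j, sub_self, norm_zero]
      positivity) (by
      have h2 := hC (2 * i)
      push_cast at h2
      exact h2) (by simpa using hC 0) (-(i : ℤ)) (by omega) (by omega)
  have e : min (-(i : ℤ) - -(2 * (i : ℤ))) (0 - -(i : ℤ)) = (i : ℤ) := by omega
  rw [e, Int.cast_natCast] at h1
  exact h1

/-- Periodic solutions of the inhomogeneous equation. -/
theorem P1a_per {A : E →L[ℝ] E} {c : ℝ} (hc : 0 < c) (hB : BB c (fun _ => A)) (v : E) (m : ℕ) :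
    ∃ y : ℤ → E, (∀ j, c * ‖y j‖ ≤ ‖v‖) ∧ y 1 - A (y 0) = v ∧
      ∀ j : ℤ, j ≠ 0 → |j| ≤ m → y (j + 1) = A (y j) := by
  have : NeZero (2 * m + 1) := ⟨by omega⟩
  let T : (ZMod (2 * m + 1) → E) →ₗ[ℝ] (ZMod (2 * m + 1) → E) :=
    { toFun := fun x i => x (i + 1) - A (x i)
      map_add' := by
        intro x z
        funext i
        simp only [Pi.add_apply, map_add]
        abel
      map_smul' := by
        intro a x
        funext i
        simp only [Pi.smul_apply, map_smul, RingHom.id_apply, smul_sub] }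
  have hT : ∀ x i, T x i = x (i + 1) - A (x i) := fun _ _ => rfl
  have hTn : ∀ (x : ZMod (2 * m + 1) → E) (D : ℝ), (∀ i, ‖T x i‖ ≤ D) → ∀ j : ℤ,
      c * ‖x (j : ZMod (2 * m + 1))‖ ≤ D := by
    intro x D hD j
    refine hB (fun j => x (j : ZMod (2 * m + 1))) ⟨∑ i, ‖x i‖, fun j =>
      Finset.single_le_sum (f := fun i => ‖x i‖) (fun i _ => norm_nonneg _) (Finset.mem_univ _)⟩
      D (fun j => ?_) j
    have h2 := hD (j : ZMod (2 * m + 1))
    rw [hT] at h2
    rw [Int.cast_add, Int.cast_one]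
    exact h2
  have hinj : Function.Injective T := by
    intro x z hxz
    have h3 : T (x - z) = 0 := by rw [map_sub, hxz, sub_self]
    funext i
    have h4 := hTn (x - z) 0 (fun i => by rw [h3, Pi.zero_apply, norm_zero]) i.valMinAbs
    rw [ZMod.coe_valMinAbs] at h4
    have h5 : ‖(x - z) i‖ = 0 := by
      have h6 := norm_nonneg ((x - z) i)
      nlinarith
    exact sub_eq_zero.1 (norm_eq_zero.1 h5)
  have hsurj : Function.Surjective T := LinearMap.injective_iff_surjective.1 hinj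
  obtain ⟨x, hx⟩ := hsurj (fun i => if i = 0 then v else 0)
  have hx' : ∀ i, x (i + 1) - A (x i) = if i = 0 then v else 0 := fun i => by
    rw [← hT, hx]
  refine ⟨fun j => x (j : ZMod (2 * m + 1)), ?_, ?_, ?_⟩
  · refine hTn x ‖v‖ (fun i => ?_)
    rw [hx]
    dsimp only
    split_ifs
    · exact le_rfl
    · rw [norm_zero]
      exact norm_nonneg _
  · have h1 := hx' 0
    rw [if_pos rfl, zero_add] at h1
    simpa using h1
  · intro j hj hjm
    have h1 := hx' (j : ZMod (2 * m + 1))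
    have h2 : (j : ZMod (2 * m + 1)) ≠ 0 := by
      intro h3
      rw [ZMod.intCast_zmod_eq_zero_iff_dvd] at h3
      apply hj
      refine Int.eq_zero_of_abs_lt_dvd h3 ?_
      push_cast
      have h4 := abs_nonneg j
      linarith
    rw [if_neg h2] at h1
    show x ((j + 1 : ℤ) : ZMod (2 * m + 1)) = A (x (j : ZMod (2 * m + 1)))
    rw [Int.cast_add, Int.cast_one]
    exact sub_eq_zero.1 h1

/-- A bounded solution with a jump `v` at `0`. -/
theorem P1a_jump {A : E →L[ℝ] E} {c : ℝ} (hc : 0 < c) (hB : BB c (fun _ => A)) (v : E) :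
    ∃ (y : ℤ → E) (C : ℝ), (∀ j, ‖y j‖ ≤ C) ∧ y 1 - A (y 0) = v ∧
      ∀ j : ℤ, j ≠ 0 → y (j + 1) = A (y j) := by
  choose y hy1 hy2 hy3 using P1a_per hc hB v
  have hy1' : ∀ t j, ‖y t j‖ ≤ ‖v‖ / c := fun t j => by
    rw [le_div_iff₀ hc]
    linarith [hy1 t j]
  obtain ⟨U, hU⟩ : ∃ U : Ultrafilter ℕ, (U : Filter ℕ) ≤ atTop :=
    ⟨hyperfilter ℕ, Nat.hyperfilter_le_atTop⟩
  choose yl hyl using fun j : ℤ => K1a_lim U (fun t => y t j) (R := ‖v‖ / c)
    (fun t => hy1' t j)
  have hA : ∀ j, Tendsto (fun t => A (y t j)) U (𝓝 (A (yl j))) := fun j =>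
    (A.continuous.tendsto _).comp (hyl j)
  refine ⟨yl, ‖v‖ / c, fun j => ?_, ?_, fun j hj => ?_⟩
  · exact le_of_tendsto (hyl j).norm (Filter.Eventually.of_forall fun t => hy1' t j)
  · have h1 : Tendsto (fun t => y t 1 - A (y t 0)) U (𝓝 (yl 1 - A (yl 0))) :=
      (hyl 1).sub (hA 0)
    refine tendsto_nhds_unique h1 (tendsto_const_nhds.congr fun t => ?_)
    exact (hy2 t).symm
  · have h1 : ∀ᶠ t in (U : Filter ℕ), j.natAbs ≤ t := hU (eventually_ge_atTop j.natAbs)
    have h2 : ∀ᶠ t in (U : Filter ℕ), A (y t j) = y t (j + 1) := by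
      filter_upwards [h1] with t ht
      refine (hy3 t j hj ?_).symm
      rw [Int.abs_eq_natAbs]
      exact_mod_cast ht
    exact tendsto_nhds_unique (hyl (j + 1)) ((hA j).congr' h2)

/-- `A` is bijective (finite dimension).  Let `v : E`, `c` from `bb_const` (file K1b1).  For every `m : ℕ` the linear map `T` on `ZMod (2 m + 1) → E`, `(T x) i = x (i+1) - A (x i)`, satisfies `c ‖x‖ ≤ ‖T x‖` (apply `BB c` to the
periodic sequence `j ↦ x (j : ZMod (2 m + 1))`), so it is injective, hence surjective (`LinearMap.injective_iff_surjective`): there is `x m : ℤ → E`, `(2 m + 1)`-periodic, with `x (j+1) = A (x j)` unless `j ≡ 0`, and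
`x 1 - A (x 0) = v`, `c ‖x j‖ ≤ ‖v‖`.  A limit along an ultrafilter (as in `bb_of_limits`, file K1a, `K1a_lim`) gives a bounded `x : ℤ → E` with `x (j+1) = A (x j)` for `j ≠ 0` and `x 1 - A (x 0) = v`.  Put `a = x 1`,
`b = A (x 0)`, `v = a - b`.  The sequence `y j = A^j a` (`j ≥ 0`) is `x (j+1)`, bounded, and tends to `0` : `bb_decay` (file K2b) or: apply `tendsto_of_bounded`-like argument (file K2c): the forward bounded solutions of a hyperbolic
map tend to `0` (see the proof there: for `j ≥ J` the estimate `c exp (κ (j - J)) ‖x j‖ ≤ (1+‖A‖) C` uses only the values at `j ≥ J`).  In the same way `A^(-j) b = x (-j)`-like sequence tends to `0`.  So `a ∈ Fwd`, `b ∈ Bwd`. -/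
theorem sup_const {A : E →L[ℝ] E} (hA : NoBdd (fun _ => A)) (hi : Function.Injective A) :
    Fwd (fun _ => A) ⊔ Bwd (fun _ => A) = ⊤ := by
  obtain ⟨c, hc, hB⟩ := bb_const hA
  have hsurj : Function.Surjective A := by
    have h1 : Function.Injective (A : E →ₗ[ℝ] E) := hi
    have h2 : Function.Surjective (A : E →ₗ[ℝ] E) := LinearMap.injective_iff_surjective.1 h1
    exact h2
  let σ : Equiv.Perm E := Equiv.ofBijective A ⟨hi, hsurj⟩
  have hσ : ∀ w, σ w = A w := fun _ => rfl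
  have hstep : ∀ (w : E) (j : ℤ), (σ ^ (j + 1)) w = A ((σ ^ j) w) := by
    intro w j
    rw [← hσ, ← Equiv.Perm.mul_apply, ← zpow_one_add, add_comm]
  rw [eq_top_iff]
  intro v _
  obtain ⟨y, C, hyC, hy0, hy⟩ := P1a_jump hc hB v
  -- the forward part
  have hf : ∀ i : ℕ, (σ ^ (i : ℤ)) (y 1) = y ((i : ℤ) + 1) := by
    intro i
    induction i with
    | zero => simp
    | succ i ih =>
      rw [Nat.cast_succ, hstep, ih, ← hy _ (by omega)]
  have hb : ∀ i : ℕ, (σ ^ (-(i : ℤ))) (A (y 0)) = A (y (-(i : ℤ))) := by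
    intro i
    induction i with
    | zero => simp
    | succ i ih =>
      apply hi
      rw [← hstep]
      have e1 : -((i + 1 : ℕ) : ℤ) + 1 = -(i : ℤ) := by
        push_cast
        ring
      rw [e1, ih, ← hy (-((i + 1 : ℕ) : ℤ)) (by omega), e1]
  have hva : y 1 ∈ Fwd (fun _ => A) := by
    refine ⟨fun j => (σ ^ j) (y 1), by simp, fun j => hstep _ j, ?_⟩
    refine P1a_fwd hc hB (x := fun j => (σ ^ j) (y 1)) (fun j => hstep _ j) (C := C) fun i => ?_
    simp only [hf]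
    exact hyC _
  have hvb : A (y 0) ∈ Bwd (fun _ => A) := by
    refine ⟨fun j => (σ ^ j) (A (y 0)), by simp, fun j => hstep _ j, ?_⟩
    refine P1a_bwd hc hB (x := fun j => (σ ^ j) (A (y 0))) (fun j => hstep _ j)
      (C := ‖A‖ * C) fun i => ?_
    simp only [hb]
    exact (A.le_opNorm _).trans (mul_le_mul_of_nonneg_left (hyC _) (norm_nonneg _))
  rw [← hy0]
  exact Submodule.sub_mem _ (Submodule.mem_sup_left hva) (Submodule.mem_sup_right hvb)

end PT

end FB
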