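import Pool.Agent.H.MP_fb873c_an.S0

/-!
# Part P3: making two subspaces transverse
-/

namespace FB

namespace PT

variable {n : ℕ}

/-- Let `I = E1 ⊓ E2`, `C` a complement of `E1 ⊔ E2`: `finrank I = finrank E1 + finrank E2 - finrank (E1 ⊔ E2) ≤ n - finrank (E1 ⊔ E2) = finrank C` (`Submodule.finrank_sup_add_finrank_inf_eq`), so there is an injective linear map
`I → C`, extended by `0` on a complement of `I` to a linear map `B` (continuous in finite dimension, `LinearMap.toContinuousLinearMap`): `B v ∈ C` for all `v`, `B v = B (π v)`, `π` the projection to `I`, `B` injective on `I`.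
If `v ∈ E2` and `v + t • B v ∈ E1` then `t • B v ∈ E1 ⊔ E2`, so `B v = 0`; so `v ∈ E1 ⊓ E2 = I`, and `B v = 0` gives `v = 0`. -/
theorem exists_B (E1 E2 : Submodule ℝ (Er n))
    (h : Module.finrank ℝ E1 + Module.finrank ℝ E2 ≤ n) :
    ∃ B : Er n →L[ℝ] Er n, ∀ t : ℝ, t ≠ 0 → ∀ v ∈ E2, v + t • B v ∈ E1 → v = 0 := by
  obtain ⟨C, hC⟩ := Submodule.exists_isCompl (E1 ⊔ E2)
  obtain ⟨I', hI⟩ := Submodule.exists_isCompl (E1 ⊓ E2)
  have h1 := Submodule.finrank_sup_add_finrank_inf_eq E1 E2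
  have h2 := Submodule.finrank_add_eq_of_isCompl hC
  have h3 : Module.finrank ℝ (Er n) = n := finrank_euclideanSpace_fin
  have h4 : Module.finrank ℝ (E1 ⊓ E2 : Submodule ℝ (Er n)) ≤ Module.finrank ℝ C := by
    omega
  obtain ⟨f, hf⟩ := finrank_le_iff_exists_linearMap.1 h4
  let π : Er n →ₗ[ℝ] (E1 ⊓ E2 : Submodule ℝ (Er n)) := Submodule.projectionOnto _ _ hI
  let B0 : Er n →ₗ[ℝ] Er n := C.subtype ∘ₗ f ∘ₗ π
  refine ⟨LinearMap.toContinuousLinearMap B0, fun t ht v hv hvt => ?_⟩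
  have hB : LinearMap.toContinuousLinearMap B0 v = B0 v := rfl
  rw [hB] at hvt
  have hBC : B0 v ∈ C := (f (π v)).2
  have hBE : B0 v ∈ E1 ⊔ E2 := by
    have h5 : t • B0 v ∈ E1 ⊔ E2 := by
      have h6 := (E1 ⊔ E2).sub_mem (Submodule.mem_sup_left hvt) (Submodule.mem_sup_right hv)
      rwa [add_sub_cancel_left] at h6
    exact ((E1 ⊔ E2).smul_mem_iff ht).1 h5
  have hB0 : B0 v = 0 := (Submodule.disjoint_def.1 hC.disjoint) _ hBE hBC
  rw [hB0, smul_zero, add_zero] at hvt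
  have hvI : v ∈ E1 ⊓ E2 := ⟨hvt, hv⟩
  have h7 : π v = ⟨v, hvI⟩ := Submodule.projectionOnto_apply_left hI ⟨v, hvI⟩
  have h8 : f (π v) = 0 := Subtype.ext hB0
  rw [h7] at h8
  have h9 : (⟨v, hvI⟩ : (E1 ⊓ E2 : Submodule ℝ (Er n))) = 0 := hf (h8.trans (map_zero f).symm)
  exact congrArg Subtype.val h9

end PT

end FB
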