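import Pool.Agent.H.MP_fb873c_an.D2c
import Pool.Agent.H.MP_fb873c_an.D2g
import Pool.Agent.H.MP_fb873c_an.K00

/-!
# Part P4: changing the derivative at one point
-/

namespace FB

namespace PT

open KT
open scoped Topology ContDiff Manifold
open Filter

universe u

variable {n : ℕ} {M : Type u} [TopologicalSpace M] [ChartedSpace (Er n) M]
  [IsManifold (𝓡 n) ∞ M] [T2Space M]

/-- As in the proof of `final_pert` (file K15), with `e = 0`: `b = φ q`, `φ` the chart at `q`, `r > 0` with `closedBall b r ⊆ φ.target`, `φ.symm '' closedBall b r ⊆ V`, `β` a `ContDiffBump` with center `b`,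
`w t z = β z • t • B (z - b)`; `exists_family` (file D2g) gives a smooth family `h : ℝ → Dif n M`, `h 0 = id`, `h t = φ.symm ∘ (z ↦ z + w t z) ∘ φ` on the chart, and the identity outside of the compact (closed) set
`S = φ.symm '' closedBall b r`; `g = (h t).trans f` is in `O` for `t` near `0` (`eventually_mem_open`, file D2c). -/
theorem local_pert (f : Dif n M) {O : Set (Dif n M)} (hO : IsOpen[crTop n M ⊤] O) (hf : f ∈ O)
    (q : M) {V : Set M} (hV : V ∈ 𝓝 q) (B : Er n →L[ℝ] Er n) :
    ∃ S : Set M, IsClosed S ∧ S ⊆ V ∧ ∀ᶠ t in 𝓝 (0 : ℝ), ∃ h g : Dif n M, g ∈ O ∧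
      (∀ x, g x = f (h x)) ∧ (∀ x ∉ S, h x = x) ∧ h q = q ∧
      fderiv ℝ (chartAt (Er n) q ∘ (h : M → M) ∘ (chartAt (Er n) q).symm) (chartAt (Er n) q q) =
        ContinuousLinearMap.id ℝ (Er n) + t • B := by
  obtain ⟨φ, hφe⟩ : ∃ φ : OpenPartialHomeomorph M (Er n), φ = chartAt (Er n) q := ⟨_, rfl⟩
  have hφ : φ ∈ atlas (Er n) M := by rw [hφe]; exact chart_mem_atlas (Er n) q
  have hy : q ∈ φ.source := by rw [hφe]; exact mem_chart_source (Er n) q
  rw [← hφe]
  have h4 : φ.target ∩ φ.symm ⁻¹' V ∈ 𝓝 (φ q) := by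
    refine Filter.inter_mem (φ.open_target.mem_nhds (φ.map_source hy)) ?_
    have hc := φ.continuousAt_symm (φ.map_source hy)
    refine hc.preimage_mem_nhds ?_
    rw [φ.left_inv hy]
    exact hV
  obtain ⟨r, hr, hball⟩ := Metric.nhds_basis_closedBall.mem_iff.mp h4
  have hrφ : Metric.closedBall (φ q) r ⊆ φ.target := fun y hy => (hball hy).1
  have hrV : φ.symm '' Metric.closedBall (φ q) r ⊆ V := by
    rintro x ⟨y, hy, rfl⟩
    exact (hball hy).2
  let β : ContDiffBump (φ q) := ⟨r / 2, r, half_pos hr, half_lt_self hr⟩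
  let w : ℝ → Er n → Er n := fun p z => (p * β z) • B (z - φ q)
  have hw : ContDiff ℝ ∞ (fun q : ℝ × Er n => w q.1 q.2) := by
    refine ContDiff.smul (contDiff_fst.mul (β.contDiff.comp contDiff_snd)) ?_
    exact B.contDiff.comp (contDiff_snd.sub contDiff_const)
  have hw0 : ∀ z, w 0 z = 0 := fun z => by simp [w]
  have hws : ∀ p, ∀ z ∉ Metric.closedBall (φ q) r, w p z = 0 := by
    intro s z hz
    have h1 : β z = 0 := by
      apply β.zero_of_le_dist
      rw [Metric.mem_closedBall, not_le] at hz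
      exact hz.le
    simp [w, h1]
  obtain ⟨h, hsm, h0, hoff, hon⟩ := exists_family hφ (isCompact_closedBall (φ q) r) hrφ w hw
    hw0 hws
  have hScl : IsClosed (φ.symm '' Metric.closedBall (φ q) r) :=
    ((isCompact_closedBall (φ q) r).image_of_continuousOn
      (φ.continuousOn_symm.mono hrφ)).isClosed
  have hO1 : ∀ᶠ p in 𝓝 (0 : ℝ), (h p).trans f ∈ O := by
    refine eventually_mem_open f (fun p => (h p).trans f) (fun x => ?_) (fun x => ?_) hO hf
    · show f (h 0 x) = f x
      rw [h0]
    · exact smF_comp (F := fun s => (h s : M → M)) (G := fun _ => (f : M → M)) (hsm x)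
        (smF_const f _)
  refine ⟨φ.symm '' Metric.closedBall (φ q) r, hScl, hrV, ?_⟩
  filter_upwards [hO1, hon] with t ht1 ht2
  have hK : φ q ∈ Metric.closedBall (φ q) r := Metric.mem_closedBall_self hr.le
  refine ⟨h t, (h t).trans f, ht1, fun x => rfl, hoff t, ?_, ?_⟩
  · have h1 := (ht2 (φ q) hK).2
    have h2 : w t (φ q) = 0 := by simp [w]
    rw [h2, add_zero, φ.left_inv hy] at h1
    exact h1
  · have hev : φ ∘ (h t : M → M) ∘ φ.symm =ᶠ[𝓝 (φ q)] fun z => z + t • B (z - φ q) := by
      filter_upwards [Metric.ball_mem_nhds (φ q) (half_pos hr)] with z hz1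
      have hzK : z ∈ Metric.closedBall (φ q) r :=
        Metric.closedBall_subset_closedBall (by linarith) (Metric.ball_subset_closedBall hz1)
      have hb1 : β z = 1 := β.one_of_mem_closedBall (Metric.ball_subset_closedBall hz1)
      obtain ⟨h1, h2⟩ := ht2 z hzK
      have h3 : w t z = t • B (z - φ q) := by
        simp only [w]
        rw [hb1, mul_one]
      rw [h3] at h1 h2
      show φ (h t (φ.symm z)) = z + t • B (z - φ q)
      rw [h2, φ.right_inv (hrφ h1)]
    rw [hev.fderiv_eq]
    have hA : HasFDerivAt (fun z : Er n => z + t • B (z - φ q))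
        (ContinuousLinearMap.id ℝ (Er n) + t • B) (φ q) := by
      have h1 : HasFDerivAt (fun z : Er n => z - φ q) (ContinuousLinearMap.id ℝ (Er n)) (φ q) :=
        (hasFDerivAt_id _).sub_const _
      have h2 : HasFDerivAt (fun z : Er n => B (z - φ q)) B (φ q) := by
        have := B.hasFDerivAt.comp (φ q) h1
        rwa [ContinuousLinearMap.comp_id] at this
      exact (hasFDerivAt_id _).add (h2.const_smul t)
    exact hA.fderiv

end PT

end FB
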