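import Pool.Agent.H.MP_fb873c_an.K15

/-!
# Part P5b: the dynamics of the perturbed map
-/

namespace FB

namespace PT

open KT
open scoped Topology ContDiff Manifold
open Filter

universe u

variable {n : ℕ} {M : Type u} [TopologicalSpace M] [ChartedSpace (Er n) M]
  [IsManifold (𝓡 n) ∞ M]

omit [IsManifold (𝓡 n) ∞ M] in
/-- Induction on `i`: the points `f^j (h q) = f^j q`, `0 < j < i`, are not in the closed set `S`; so for `z` near `q` the points `f^j (h z)` are not in `S` (continuity) and `h` fixes them. -/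
theorem iter_fwd {f g h : Dif n M} {S : Set M} (hS : IsClosed S) (hg : ∀ x, g x = f (h x))
    (hh : ∀ x ∉ S, h x = x) {q : M} (hq : h q = q) (hq1 : ∀ i : ℕ, 0 < i → (f : M → M)^[i] q ∉ S)
    (i : ℕ) (hi : 0 < i) :
    (g : M → M)^[i] =ᶠ[𝓝 q] fun z => (f : M → M)^[i] (h z) := by
  have hg' : (g : M → M) = fun y => f (h y) := funext hg
  have h1 : ∀ j ∈ Finset.range i, ∀ᶠ z in 𝓝 q, 0 < j → (f : M → M)^[j] (h z) ∉ S := by
    intro j _
    by_cases hj : 0 < j
    · have hc : Continuous fun z => (f : M → M)^[j] (h z) :=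
        (f.continuous.iterate j).comp h.continuous
      have h2 : (f : M → M)^[j] (h q) ∈ Sᶜ := by
        rw [hq]
        exact hq1 j hj
      filter_upwards [hc.continuousAt.preimage_mem_nhds (hS.isOpen_compl.mem_nhds h2)] with z hz _
      exact hz
    · exact Filter.Eventually.of_forall fun z h0 => absurd h0 hj
  filter_upwards [(Filter.eventually_all_finset (Finset.range i)).2 h1] with z hz
  rw [hg']
  exact K15_iter hh hi fun j hj0 hj => hz j (Finset.mem_range.2 hj) hj0

omit [IsManifold (𝓡 n) ∞ M] in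
/-- `g⁻¹ x = h⁻¹ (f⁻¹ x)`, and `h⁻¹ y = y` for `y ∉ S` (`h y = y`); `f⁻¹ z, (f⁻¹)^2 z, ...` are not in `S` for `z` near `q`. -/
theorem iter_bwd {f g h : Dif n M} {S : Set M} (hS : IsClosed S) (hg : ∀ x, g x = f (h x))
    (hh : ∀ x ∉ S, h x = x) {q : M} (hq1 : ∀ i : ℕ, 0 < i → (f.symm : M → M)^[i] q ∉ S) (i : ℕ) :
    (g.symm : M → M)^[i] =ᶠ[𝓝 q] (f.symm : M → M)^[i] := by
  have hgs : ∀ x, g.symm x = h.symm (f.symm x) := by
    intro x
    have h1 : g (h.symm (f.symm x)) = x := by
      rw [hg, h.apply_symm_apply, f.apply_symm_apply]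
    rw [← h1, g.symm_apply_apply, h1]
  have hhs : ∀ y ∉ S, h.symm y = y := by
    intro y hy
    have h1 := h.symm_apply_apply y
    rw [hh y hy] at h1
    exact h1
  induction i with
  | zero => exact Filter.EventuallyEq.rfl
  | succ i ih =>
    have hc : Continuous ((f.symm : M → M)^[i + 1]) := f.symm.continuous.iterate (i + 1)
    have h2 : (f.symm : M → M)^[i + 1] q ∈ Sᶜ := hq1 (i + 1) (Nat.succ_pos i)
    filter_upwards [ih, hc.continuousAt.preimage_mem_nhds (hS.isOpen_compl.mem_nhds h2)]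
      with z hz hz2
    have h3 : (f.symm : M → M)^[i + 1] z ∉ S := hz2
    rw [Function.iterate_succ_apply', hz, hgs]
    rw [Function.iterate_succ_apply'] at h3 ⊢
    exact hhs _ h3

omit [IsManifold (𝓡 n) ∞ M] in
/-- The orbit of `p` avoids `S`: `g^i = f^i` near `p`. -/
theorem iter_per {f g h : Dif n M} {S : Set M} (hS : IsClosed S) (hg : ∀ x, g x = f (h x))
    (hh : ∀ x ∉ S, h x = x) {p : M} (hp : ∀ i : ℕ, (f : M → M)^[i] p ∉ S) (i : ℕ) :
    (g : M → M)^[i] =ᶠ[𝓝 p] (f : M → M)^[i] := by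
  induction i with
  | zero => exact Filter.EventuallyEq.rfl
  | succ i ih =>
    have hc : Continuous ((f : M → M)^[i]) := f.continuous.iterate i
    have h2 : (f : M → M)^[i] p ∈ Sᶜ := hp i
    filter_upwards [ih, hc.continuousAt.preimage_mem_nhds (hS.isOpen_compl.mem_nhds h2)]
      with z hz hz2
    have h3 : (f : M → M)^[i] z ∉ S := hz2
    rw [Function.iterate_succ_apply', hz, hg, hh _ h3, Function.iterate_succ_apply']

end PT

end FB
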