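import Pool.Agent.H.MP_fb873c_an.K0
import Pool.Agent.H.MP_fb873c_an.K4b1
import Pool.Agent.H.MP_fb873c_an.P5b

/-!
# Part P5: the perturbed map has a transverse homoclinic point
-/

namespace FB

namespace PT

open KT
open scoped Topology ContDiff Manifold
open Filter

universe u

variable {n : ℕ} {M : Type u} [TopologicalSpace M] [ChartedSpace (Er n) M]
  [IsManifold (𝓡 n) ∞ M]

omit [ChartedSpace (Er n) M] [IsManifold (𝓡 n) ∞ M] in
/-- Equality near `x` gives equality of the coordinate representations near `φ x`. -/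
theorem P5_chart {F G : M → M} {x : M} (h : F =ᶠ[𝓝 x] G)
    (φ ψ : OpenPartialHomeomorph M (Er n)) (hx : x ∈ φ.source) :
    fderiv ℝ (ψ ∘ F ∘ φ.symm) (φ x) = fderiv ℝ (ψ ∘ G ∘ φ.symm) (φ x) := by
  have hc : Tendsto φ.symm (𝓝 (φ x)) (𝓝 x) := by
    have h1 := φ.continuousAt_symm (φ.map_source hx)
    rw [ContinuousAt, φ.left_inv hx] at h1
    exact h1
  refine Filter.EventuallyEq.fderiv_eq ?_
  filter_upwards [hc.eventually h] with z hz
  show ψ (F (φ.symm z)) = ψ (G (φ.symm z))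
  rw [hz]

/-- The derivative of `φ_p ∘ f^(k j) ∘ h ∘ φ_q.symm` at `φ_q q`, if `h q = q`. -/
theorem P5_chain {f h : Dif n M} {p q : M} {k : ℕ} (hq : h q = q) {j : ℕ}
    (hj : ((f : M → M)^[k])^[j] q ∈ (chartAt (Er n) p).source) :
    fderiv ℝ (chartAt (Er n) p ∘ (fun z => ((f : M → M)^[k])^[j] (h z)) ∘
        (chartAt (Er n) q).symm) (chartAt (Er n) q q) =
      (fderiv ℝ (chartAt (Er n) p ∘ ((f : M → M)^[k])^[j] ∘
        (chartAt (Er n) q).symm) (chartAt (Er n) q q)).comp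
      (fderiv ℝ (chartAt (Er n) q ∘ (h : M → M) ∘ (chartAt (Er n) q).symm)
        (chartAt (Er n) q q)) := by
  have h0 : ContMDiffAt (𝓡 n) (𝓡 n) 1 (h : M → M) q := by
    have h1 := K4b1_smooth1 (n := n) h 1 q
    rwa [Function.iterate_one] at h1
  have h2 := D1_chain (n := n) (F := (h : M → M)) (G := ((f : M → M)^[k])^[j]) (x := q)
    h0 (K4b1_smooth f k j _) (chart_mem_atlas (Er n) q) (chart_mem_atlas (Er n) q)
    (chart_mem_atlas (Er n) p) (mem_chart_source (Er n) q)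
    (by rw [hq]; exact mem_chart_source (Er n) q) (by rw [hq]; exact hj)
  rw [hq] at h2
  exact h2

/-- The same `p`, `q`, `k`.  Let `i = k j`, `j ≥ 1`: `((g)^[k])^[j] = g^[k j]` (`Function.iterate_mul`), `iter_fwd`, `iter_bwd`, `iter_per` (file P5b).  So the orbits converge as those of `f` (`h q = q`), the derivative of `g^k` at `p` is
that of `f^k` (`Filter.EventuallyEq.fderiv_eq`, in the chart; `dfix`), `g^i p = f^i p`.  For `j` large `f^(k j) q` is in the domain of the chart at `p`, and by the chain rule (`D1_chain`, file D1a, as in `sol_pos`, file K4b1) the derivative of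
`φ_p ∘ g^(k j) ∘ φ_q.symm` at `φ_q q` is the derivative for `f` composed with `id + t B`; the derivatives of `φ_p ∘ (g⁻¹)^(k j) ∘ φ_q.symm` are those of `f`.  So `hv` applies to `v`. -/
theorem transHom_pert {f g h : Dif n M} {S : Set M} (hS : IsClosed S) (hg : ∀ x, g x = f (h x))
    (hh : ∀ x ∉ S, h x = x) {p q : M} {k : ℕ} (hk : 0 < k) (hp : (f : M → M)^[k] p = p)
    (hmin : ∀ i, 0 < i → i < k → (f : M → M)^[i] p ≠ p)
    (hyp : Hyp (dfix (n := n) ((f : M → M)^[k]) p)) (hne : q ≠ p)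
    (hpos : Tendsto (fun j : ℕ => ((f : M → M)^[k])^[j] q) atTop (𝓝 p))
    (hneg : Tendsto (fun j : ℕ => ((f.symm : M → M)^[k])^[j] q) atTop (𝓝 p))
    (hq : h q = q) (hq1 : ∀ i : ℕ, 0 < i → (f : M → M)^[i] q ∉ S)
    (hq2 : ∀ i : ℕ, 0 < i → (f.symm : M → M)^[i] q ∉ S) (hp1 : ∀ i : ℕ, (f : M → M)^[i] p ∉ S)
    {B : Er n →L[ℝ] Er n} {t : ℝ}
    (hB : fderiv ℝ (chartAt (Er n) q ∘ (h : M → M) ∘ (chartAt (Er n) q).symm)
      (chartAt (Er n) q q) = ContinuousLinearMap.id ℝ (Er n) + t • B)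
    (hv : ∀ v : Er n,
      Tendsto (fun j : ℕ => fderiv ℝ (chartAt (Er n) p ∘ ((f : M → M)^[k])^[j] ∘
        (chartAt (Er n) q).symm) (chartAt (Er n) q q) (v + t • B v)) atTop (𝓝 0) →
      Tendsto (fun j : ℕ => fderiv ℝ (chartAt (Er n) p ∘ ((f.symm : M → M)^[k])^[j] ∘
        (chartAt (Er n) q).symm) (chartAt (Er n) q q) v) atTop (𝓝 0) → v = 0) :
    TransHomR g := by
  have hfw : ∀ j : ℕ, 0 < j →
      ((g : M → M)^[k])^[j] =ᶠ[𝓝 q] fun z => ((f : M → M)^[k])^[j] (h z) := by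
    intro j hj
    rw [← Function.iterate_mul, ← Function.iterate_mul]
    exact iter_fwd hS hg hh hq hq1 (k * j) (Nat.mul_pos hk hj)
  have hbw : ∀ j : ℕ, ((g.symm : M → M)^[k])^[j] =ᶠ[𝓝 q] ((f.symm : M → M)^[k])^[j] := by
    intro j
    rw [← Function.iterate_mul, ← Function.iterate_mul]
    exact iter_bwd hS hg hh hq2 (k * j)
  have hpe : ∀ i : ℕ, (g : M → M)^[i] p = (f : M → M)^[i] p := fun i =>
    (iter_per hS hg hh hp1 i).eq_of_nhds
  have hfq : ∀ j : ℕ, 0 < j → ((g : M → M)^[k])^[j] q = ((f : M → M)^[k])^[j] q := by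
    intro j hj
    have h1 := (hfw j hj).eq_of_nhds
    rw [h1, hq]
  refine ⟨p, q, k, hk, by rw [hpe, hp], fun i hi0 hi => by rw [hpe]; exact hmin i hi0 hi, ?_, hne,
    ?_, ?_, ?_⟩
  · have h1 : dfix (n := n) ((g : M → M)^[k]) p = dfix (n := n) ((f : M → M)^[k]) p :=
      P5_chart (iter_per hS hg hh hp1 k) _ _ (mem_chart_source (Er n) p)
    rw [h1]
    exact hyp
  · refine hpos.congr' ?_
    filter_upwards [eventually_gt_atTop 0] with j hj
    exact (hfq j hj).symm
  · exact hneg.congr fun j => (hbw j).eq_of_nhds.symm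
  · intro v h1 h2
    refine hv v ?_ ?_
    · refine h1.congr' ?_
      filter_upwards [eventually_gt_atTop 0, hpos.eventually
        ((chartAt (Er n) p).open_source.mem_nhds (mem_chart_source (Er n) p))] with j hj hs
      rw [P5_chart (hfw j hj) _ _ (mem_chart_source (Er n) q), P5_chain hq hs, hB]
      rfl
    · refine h2.congr fun j => ?_
      rw [P5_chart (hbw j) _ _ (mem_chart_source (Er n) q)]

end PT

end FB
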