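import Pool.Agent.H.MP_fb873c_an.K4b2
import Pool.Agent.H.MP_fb873c_an.K6b3

/-!
# Part P5a: a homoclinic orbit; isolation of `q`
-/

namespace FB

namespace PT

open KT
open scoped Topology ContDiff Manifold
open Filter

universe u

variable {n : ℕ} {M : Type u} [TopologicalSpace M] [ChartedSpace (Er n) M]
  [IsManifold (𝓡 n) ∞ M]

/-- The first part of the proof of `exists_HO` (file K4b2): `q0` is the homoclinic point, `q j = (f^k)^j q0` for all `j : ℤ`, and `ψ 0` is the chart at `q0` (`0 < J`). -/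
theorem exists_HO' {f : Dif n M} {p q0 : M} {k : ℕ} (hk : 0 < k) (hp : (f : M → M)^[k] p = p)
    (hmin : ∀ i, 0 < i → i < k → (f : M → M)^[i] p ≠ p) (hne : q0 ≠ p)
    (hpos : Tendsto (fun j : ℕ => ((f : M → M)^[k])^[j] q0) atTop (𝓝 p))
    (hneg : Tendsto (fun j : ℕ => ((f.symm : M → M)^[k])^[j] q0) atTop (𝓝 p)) :
    ∃ (q : ℤ → M) (ψ : ℤ → OpenPartialHomeomorph M (Er n)) (J : ℕ),
      HO f k p q ψ J ∧ q 0 = q0 ∧ ψ 0 = chartAt (Er n) q0 := by
  have hlim : Tendsto (K4b2_orb f k q0) cofinite (𝓝 p) := by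
    refine K4b2_cof hpos ?_
    have e : (fun j : ℕ => K4b2_orb f k q0 (-(j : ℤ))) =
        fun j : ℕ => ((f.symm : M → M)^[k])^[j] q0 := funext fun j => K4b2_neg f k q0 j
    rw [e]
    exact hneg
  obtain ⟨J, hJ, hJs⟩ := K4b2_bound (hlim.eventually
    ((chartAt (Er n) p).open_source.mem_nhds (mem_chart_source (Er n) p)))
  have hinj : Function.Injective ((f : M → M)^[k]) := f.injective.iterate k
  have hiff : ∀ j, K4b2_orb f k q0 j = p ↔ K4b2_orb f k q0 (j + 1) = p := by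
    intro j
    rw [← K4b2_step]
    constructor
    · intro h
      rw [h, hp]
    · intro h
      exact hinj (h.trans hp.symm)
  have hall : ∀ j, K4b2_orb f k q0 j ≠ p := by
    intro j
    induction j using Int.induction_on with
    | zero => exact hne
    | succ i ih => exact fun h => ih ((hiff _).2 h)
    | pred i ih =>
      refine fun h => ih ?_
      have := (hiff _).1 h
      rwa [sub_add_cancel] at this
  have hψ0 : ¬ ((J : ℤ) ≤ |(0 : ℤ)|) := by
    rw [abs_zero]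
    omega
  have hHO : HO f k p (K4b2_orb f k q0)
      (fun j => if (J : ℤ) ≤ |j| then chartAt (Er n) p else chartAt (Er n) (K4b2_orb f k q0 j)) J := by
    refine ⟨hk, hJ, hp, hmin, fun j => K4b2_step f k q0 j, hlim, hall, fun j => ?_, fun j => ?_,
      fun j hj => if_pos hj⟩
    · split_ifs
      · exact chart_mem_atlas (Er n) p
      · exact chart_mem_atlas (Er n) _
    · split_ifs with h
      · exact hJs j h
      · exact mem_chart_source (Er n) _
  exact ⟨K4b2_orb f k q0, _, J, hHO, rfl, if_neg hψ0⟩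

omit [ChartedSpace (Er n) M] [IsManifold (𝓡 n) ∞ M] in
/-- A sequence which tends to a point different from `y` and has no term equal to `y` avoids a neighbourhood of `y`. -/
theorem P5a_seq [T2Space M] {u : ℤ → M} {a y : M} (hu : Tendsto u cofinite (𝓝 a)) (hne : a ≠ y)
    (P : ℤ → Prop) (hP : ∀ j, P j → u j ≠ y) : ∃ V ∈ 𝓝 y, a ∉ V ∧ ∀ j, P j → u j ∉ V := by
  obtain ⟨U, hU, V, hV, hd⟩ := Filter.disjoint_iff.1 (disjoint_nhds_nhds.2 hne)
  have hf : {j | ¬ u j ∈ U}.Finite := hu hU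
  have hf2 : (u '' ({j | ¬ u j ∈ U} ∩ {j | P j})).Finite := (hf.subset Set.inter_subset_left).image u
  have hy : y ∉ u '' ({j | ¬ u j ∈ U} ∩ {j | P j}) := by
    rintro ⟨j, hj, he⟩
    exact hP j hj.2 he
  refine ⟨V ∩ (u '' ({j | ¬ u j ∈ U} ∩ {j | P j}))ᶜ,
    inter_mem hV (hf2.isClosed.isOpen_compl.mem_nhds hy), ?_, ?_⟩
  · intro ha
    exact Set.disjoint_left.1 hd (mem_of_mem_nhds hU) ha.1
  · intro j hj hm
    by_cases hjU : u j ∈ U
    · exact Set.disjoint_left.1 hd hjU hm.1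
    · exact hm.2 ⟨j, ⟨hjU, hj⟩, rfl⟩

/-- `q 0` is isolated in the closure of its orbit: the points `f^i (q 0)`, `i > 0`, `(f⁻¹)^i (q 0)`, `i > 0`, and `f^l p` avoid a neighbourhood `V` of `q 0`.  Every `f^i (q 0)` is `f^l (q j)` with `i = k j + l`, `l < k`, and
`(f⁻¹)^i (q 0) = f^l (q (-j))` with `k j = i + l`, `l < k`, `j > 0`; `f^l (q j) → f^l p` for `j → ± ∞` (`lim`, continuity), so all but finitely many of the points avoid a neighbourhood of `q 0`
(`orbit_ne'`, file K6b3, `T2`), and for the finitely many others use `orbit_ne`. -/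
theorem isolated [T2Space M] {f : Dif n M} {k : ℕ} {p : M} {q : ℤ → M}
    {ψ : ℤ → OpenPartialHomeomorph M (Er n)} {J : ℕ} (h : HO f k p q ψ J) :
    ∃ V ∈ 𝓝 (q 0), (∀ i : ℕ, 0 < i → (f : M → M)^[i] (q 0) ∉ V) ∧
      (∀ i : ℕ, 0 < i → (f.symm : M → M)^[i] (q 0) ∉ V) ∧ ∀ l : ℕ, (f : M → M)^[l] p ∉ V := by
  have key : ∀ l : ℕ, ∃ V ∈ 𝓝 (q 0), l < k → ((f : M → M)^[l] p ∉ V ∧
      ∀ j : ℤ, ¬ (j = 0 ∧ l = 0) → (f : M → M)^[l] (q j) ∉ V) := by
    intro l
    by_cases hl : l < k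
    · have hc : Continuous ((f : M → M)^[l]) := f.continuous.iterate l
      obtain ⟨V, hV, h1, h2⟩ := P5a_seq (u := fun j => (f : M → M)^[l] (q j))
        (a := (f : M → M)^[l] p) (y := q 0) ((hc.tendsto p).comp h.lim) (orbit_ne' h l)
        (fun j => ¬ (j = 0 ∧ l = 0)) (fun j hj => orbit_ne h hl hj)
      exact ⟨V, hV, fun _ => ⟨h1, h2⟩⟩
    · exact ⟨Set.univ, univ_mem, fun hl' => absurd hl' hl⟩
  choose V hV hVk using key
  have hVV : (⋂ l ∈ Finset.range k, V l) ∈ 𝓝 (q 0) :=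
    (Filter.biInter_finset_mem (Finset.range k)).2 fun l _ => hV l
  have hmem : ∀ {x : M}, x ∈ (⋂ l ∈ Finset.range k, V l) → ∀ l < k, x ∈ V l := by
    intro x hx l hl
    exact (Set.mem_iInter₂.1 hx) l (Finset.mem_range.2 hl)
  refine ⟨⋂ l ∈ Finset.range k, V l, hVV, ?_, ?_, ?_⟩
  · intro i hi hx
    have hl : i % k < k := Nat.mod_lt i h.kpos
    have e : (f : M → M)^[i] (q 0) = (f : M → M)^[i % k] (q ((i / k : ℕ) : ℤ)) := by
      have e1 : i = i % k + k * (i / k) := (Nat.mod_add_div i k).symm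
      have e2 := K6b3_orb h 0 (i / k)
      rw [zero_add] at e2
      rw [← e2, ← Function.iterate_mul, ← Function.iterate_add_apply, ← e1]
    refine (hVk (i % k) hl).2 ((i / k : ℕ) : ℤ) ?_ (e ▸ hmem hx _ hl)
    rintro ⟨h1, h2⟩
    have h3 : i / k = 0 := by exact_mod_cast h1
    have h4 := Nat.mod_add_div i k
    rw [h2, h3] at h4
    omega
  · intro i hi hx
    obtain ⟨a, b, hb, hab⟩ : ∃ a b : ℕ, b < k ∧ i = k * a + b + 1 := by
      refine ⟨(i - 1) / k, (i - 1) % k, Nat.mod_lt _ h.kpos, ?_⟩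
      have := Nat.div_add_mod (i - 1) k
      omega
    have hl : k - 1 - b < k := by
      have := h.kpos
      omega
    have e : (f.symm : M → M)^[i] (q 0) = (f : M → M)^[k - 1 - b] (q (-((a + 1 : ℕ) : ℤ))) := by
      have e2 := K6b3_orb h (-((a + 1 : ℕ) : ℤ)) (a + 1)
      rw [neg_add_cancel] at e2
      rw [← e2, ← Function.iterate_mul]
      have e3 : k * (a + 1) = i + (k - 1 - b) := by
        rw [hab, Nat.mul_succ]
        omega
      rw [e3, Function.iterate_add_apply]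
      exact Function.LeftInverse.iterate (fun y => f.symm_apply_apply y) i _
    refine (hVk (k - 1 - b) hl).2 (-((a + 1 : ℕ) : ℤ)) ?_ (e ▸ hmem hx _ hl)
    rintro ⟨h1, _⟩
    have : ((a + 1 : ℕ) : ℤ) = 0 := neg_eq_zero.1 h1
    omega
  · intro l hx
    have hl : l % k < k := Nat.mod_lt l h.kpos
    have e : (f : M → M)^[l] p = (f : M → M)^[l % k] p := by
      have e1 : l = l % k + k * (l / k) := (Nat.mod_add_div l k).symm
      have e2 : (f : M → M)^[k * (l / k)] p = p := by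
        rw [Function.iterate_mul]
        exact Function.iterate_fixed h.fixp (l / k)
      conv_lhs => rw [e1, Function.iterate_add_apply, e2]
    exact (hVk (l % k) hl).1 (e ▸ hmem hx _ hl)

end PT

end FB
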