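import Pool.Agent.H.MP_fb873c_an.DCb
import Pool.Agent.H.MP_fb873c_an.K3
import Pool.Agent.H.MP_fb873c_an.P1
import Pool.Agent.H.MP_fb873c_an.P5a

/-!
# Part P6: the dimensions of the stable and the unstable space at a homoclinic point
-/

namespace FB

namespace PT

open KT
open scoped Topology ContDiff Manifold
open Filter

universe u

variable {n : ℕ} {M : Type u} [TopologicalSpace M] [ChartedSpace (Er n) M]
  [IsManifold (𝓡 n) ∞ M]

/-- The tangent vectors at `q` contracted to `0` by the derivatives of `F^j`, `j → ∞` (in the charts at `q` and `p`). -/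
def CtrS (F : M → M) (q p : M) : Submodule ℝ (Er n) where
  carrier := {v | Tendsto (fun j : ℕ => fderiv ℝ (chartAt (Er n) p ∘ F^[j] ∘
    (chartAt (Er n) q).symm) (chartAt (Er n) q q) v) atTop (𝓝 0)}
  zero_mem' := by simp
  add_mem' := by
    intro v w hv hw
    simpa using Tendsto.add hv hw
  smul_mem' := by
    intro c v hv
    simpa using Tendsto.const_smul hv c

/-- `HO` for `q`, `ψ`, `J` from `exists_HO'` (file P5a), `L = Lh f k q ψ`; `Lh_tendsto`, `Lh_injective` (file K4a), `noBdd_hyp` (file K3); the derivative at `p` is injective (`dfix_equiv` or as `Lh_injective`).  For `v` in the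
first space let `x` be the solution with `x 0 = v` (`exists_sol`, file P1c); `sol_pos` (file K4b1): for `j ≥ J` (`ψ j` is the chart at `p`, `ψ 0` is the chart at `q 0`) `x j` is the derivative applied to `v`, so `x j → 0` and `v ∈ Fwd L`.  In the same
way `sol_neg` for the second space.  `finrank_add_le` (file P1). -/
theorem finrank_ctr {f : Dif n M} {p q0 : M} {k : ℕ} (hk : 0 < k) (hp : (f : M → M)^[k] p = p)
    (hmin : ∀ i, 0 < i → i < k → (f : M → M)^[i] p ≠ p)
    (hyp : Hyp (dfix (n := n) ((f : M → M)^[k]) p)) (hne : q0 ≠ p)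
    (hpos : Tendsto (fun j : ℕ => ((f : M → M)^[k])^[j] q0) atTop (𝓝 p))
    (hneg : Tendsto (fun j : ℕ => ((f.symm : M → M)^[k])^[j] q0) atTop (𝓝 p)) :
    Module.finrank ℝ (CtrS (n := n) ((f : M → M)^[k]) q0 p) +
      Module.finrank ℝ (CtrS (n := n) ((f.symm : M → M)^[k]) q0 p) ≤ n := by
  obtain ⟨q, ψ, J, h, hq0, hψ0⟩ := exists_HO' hk hp hmin hne hpos hneg
  have hi := Lh_injective h
  have hAi : Function.Injective (dfix (n := n) ((f : M → M)^[k]) p) := by
    obtain ⟨e, he⟩ := dfix_equiv f k hp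
    rw [← he]
    exact e.injective
  have h1 := finrank_add_le (Lh_tendsto h) (noBdd_hyp hyp) hAi hi
  rw [finrank_euclideanSpace, Fintype.card_fin] at h1
  have hF : CtrS (n := n) ((f : M → M)^[k]) q0 p ≤ Fwd (Lh f k q ψ) := by
    intro v hv
    obtain ⟨x, hx0, hx⟩ := exists_sol hi v
    refine ⟨x, hx0, hx, ?_⟩
    refine Tendsto.congr' ?_ hv
    filter_upwards [eventually_ge_atTop J] with j hj
    have e : ψ (j : ℤ) = chartAt (Er n) p := h.eqp j (by
      rw [abs_of_nonneg (by positivity)]
      exact_mod_cast hj)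
    rw [sol_pos h hx j, e, hψ0, hq0, hx0]
  have hB : CtrS (n := n) ((f.symm : M → M)^[k]) q0 p ≤ Bwd (Lh f k q ψ) := by
    intro v hv
    obtain ⟨x, hx0, hx⟩ := exists_sol hi v
    refine ⟨x, hx0, hx, ?_⟩
    refine Tendsto.congr' ?_ hv
    filter_upwards [eventually_ge_atTop J] with j hj
    have e : ψ (-(j : ℤ)) = chartAt (Er n) p := h.eqp _ (by
      rw [abs_neg, abs_of_nonneg (by positivity)]
      exact_mod_cast hj)
    rw [sol_neg h hx j, e, hψ0, hq0, hx0]
  exact (add_le_add (Submodule.finrank_mono hF) (Submodule.finrank_mono hB)).trans h1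

end PT

end FB
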