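import Pool.Agent.H.MP_fb873c_an.K19
import Pool.Agent.H.MP_fb873c_an.P3
import Pool.Agent.H.MP_fb873c_an.P4
import Pool.Agent.H.MP_fb873c_an.P5
import Pool.Agent.H.MP_fb873c_an.P6

/-!
# Part P7: diffeomorphisms with a homoclinic point
-/

namespace FB

namespace PT

open KT
open scoped Topology ContDiff Manifold
open Filter

universe u

variable {n : ℕ} {M : Type u} [TopologicalSpace M] [ChartedSpace (Er n) M]
  [IsManifold (𝓡 n) ∞ M] [CompactSpace M] [T2Space M]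

/-- `isolated` (file P5a) gives `V`; `E1 = CtrS (f^k) q p`, `E2 = CtrS ((f⁻¹)^k) q p`, `finrank_ctr` (file P6), `exists_B` (file P3), `local_pert` (file P4) with `t ≠ 0` small, `transHom_pert` (file P5). -/
theorem exists_transHom {f : Dif n M} (hf : HomR f) {O : Set (Dif n M)}
    (hO : IsOpen[crTop n M ⊤] O) (hfO : f ∈ O) : ∃ g ∈ O, TransHomR g := by
  obtain ⟨p, q0, k, hk, hp, hmin, hyp, hne, hpos, hneg⟩ := hf
  obtain ⟨q, ψ, J, h, hq0, -⟩ := exists_HO' hk hp hmin hne hpos hneg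
  obtain ⟨V, hV, h1, h2, h3⟩ := isolated h
  rw [hq0] at hV h1 h2
  obtain ⟨B, hB⟩ := exists_B (CtrS (n := n) ((f : M → M)^[k]) q0 p)
    (CtrS (n := n) ((f.symm : M → M)^[k]) q0 p) (finrank_ctr hk hp hmin hyp hne hpos hneg)
  obtain ⟨S, hS, hSV, hev⟩ := local_pert f hO hfO q0 hV B
  have h4 : ∀ᶠ t in 𝓝[≠] (0 : ℝ), t ≠ 0 := self_mem_nhdsWithin
  obtain ⟨t, ht0, g', g, hgO, hg, hoff, hq, hd⟩ :=
    (h4.and (hev.filter_mono nhdsWithin_le_nhds)).exists
  refine ⟨g, hgO, ?_⟩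
  exact transHom_pert hS hg hoff hk hp hmin hyp hne hpos hneg hq
    (fun i hi hi' => h1 i hi (hSV hi')) (fun i hi hi' => h2 i hi (hSV hi'))
    (fun i hi' => h3 i (hSV hi')) hd (fun v hv1 hv2 => hB t ht0 v hv2 hv1)

theorem closure_hom (hn : 0 < n) {f : Dif n M} (hf : HomR f) {O : Set (Dif n M)}
    (hO : IsOpen[crTop n M ⊤] O) (hfO : f ∈ O) : ∃ g ∈ O, g ∈ UR n M := by
  obtain ⟨g, hg, h⟩ := exists_transHom hf hO hfO
  exact KT.closure_UR hn h hO hg

end PT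

end FB
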