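import Mathlib

/-! # Part R: the Baire property of the C^infinity topology on the diffeomorphism group

Nested neighbourhoods defined by a fixed finite system `S` of pairs of charts. (R1) -/

namespace FB

open scoped Topology ContDiff Manifold
open Filter

universe u v


section

/-- JOB R1.  Jets of compositions depend continuously on the jets (Faà di Bruno: `iteratedFDeriv_comp`,
`taylorComp`; e.g. `FormalMultilinearSeries.taylorComp_sub_taylorComp_isLittleO` or continuity of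
`compAlongOrderedFinpartition` in all its arguments). -/
theorem jet_comp {ι : Type*} {l : Filter ι} {E F G : Type*} [NormedAddCommGroup E] [NormedSpace ℝ E]
    [NormedAddCommGroup F] [NormedSpace ℝ F] [NormedAddCommGroup G] [NormedSpace ℝ G] (k : ℕ)
    (a : ι → E → F) (a0 : E → F) (x : ι → E) (x0 : E) (b : ι → F → G) (b0 : F → G)
    (ha : ∀ᶠ i in l, ContDiffAt ℝ k (a i) (x i)) (ha0 : ContDiffAt ℝ k a0 x0)
    (hb : ∀ᶠ i in l, ContDiffAt ℝ k (b i) (a i (x i))) (hb0 : ContDiffAt ℝ k b0 (a0 x0))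
    (hja : ∀ j ≤ k, Tendsto (fun i => iteratedFDeriv ℝ j (a i) (x i)) l (𝓝 (iteratedFDeriv ℝ j a0 x0)))
    (hjb : ∀ j ≤ k, Tendsto (fun i => iteratedFDeriv ℝ j (b i) (a i (x i))) l
      (𝓝 (iteratedFDeriv ℝ j b0 (a0 x0)))) :
    ∀ j ≤ k, Tendsto (fun i => iteratedFDeriv ℝ j (b i ∘ a i) (x i)) l
      (𝓝 (iteratedFDeriv ℝ j (b0 ∘ a0) x0)) := by
  intro j hj
  have hjk : (j : WithTop ℕ∞) ≤ (k : WithTop ℕ∞) := by exact_mod_cast hj
  have h0 : iteratedFDeriv ℝ j (b0 ∘ a0) x0 =
      (ftaylorSeries ℝ b0 (a0 x0)).taylorComp (ftaylorSeries ℝ a0 x0) j :=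
    iteratedFDeriv_comp hb0 ha0 hjk
  have h1 : ∀ᶠ i in l, (ftaylorSeries ℝ (b i) (a i (x i))).taylorComp
      (ftaylorSeries ℝ (a i) (x i)) j = iteratedFDeriv ℝ j (b i ∘ a i) (x i) := by
    filter_upwards [ha, hb] with i hai hbi
    exact (iteratedFDeriv_comp hbi hai hjk).symm
  rw [h0]
  refine Tendsto.congr' h1 ?_
  have h2 := FormalMultilinearSeries.taylorComp_sub_taylorComp_isLittleO (l := l) (n := j)
    (p₁ := fun i => ftaylorSeries ℝ (b i) (a i (x i)))
    (p₂ := fun _ => ftaylorSeries ℝ b0 (a0 x0))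
    (q₁ := fun i => ftaylorSeries ℝ (a i) (x i)) (q₂ := fun _ => ftaylorSeries ℝ a0 x0)
    (f := fun _ => (1 : ℝ))
    (fun m hm => (hjb m (hm.trans hj)).norm.isBoundedUnder_le)
    (fun m hm => (Asymptotics.isLittleO_one_iff ℝ).2 (by
      have h3 := (hjb m (hm.trans hj)).sub_const (iteratedFDeriv ℝ m b0 (a0 x0))
      rw [sub_self] at h3
      exact h3))
    (fun m hm => (hja m (hm.trans hj)).norm.isBoundedUnder_le)
    (fun m _ => isBoundedUnder_const)
    (fun m hm => (Asymptotics.isLittleO_one_iff ℝ).2 (by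
      have h3 := (hja m (hm.trans hj)).sub_const (iteratedFDeriv ℝ m a0 x0)
      rw [sub_self] at h3
      exact h3))
  have h3 := (Asymptotics.isLittleO_one_iff ℝ).1 h2
  have h4 := h3.add_const ((ftaylorSeries ℝ b0 (a0 x0)).taylorComp (ftaylorSeries ℝ a0 x0) j)
  rw [zero_add] at h4
  refine h4.congr fun i => ?_
  rw [sub_add_cancel]

/-- JOB R1.  Jets of a fixed smooth map along a convergent family of points. -/
theorem jet_tendsto {ι : Type*} {l : Filter ι} {E F : Type*} [NormedAddCommGroup E] [NormedSpace ℝ E]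
    [NormedAddCommGroup F] [NormedSpace ℝ F] (a : E → F) (x : ι → E) (x0 : E)
    (ha : ContDiffAt ℝ ∞ a x0) (hx : Tendsto x l (𝓝 x0)) (j : ℕ) :
    Tendsto (fun i => iteratedFDeriv ℝ j a (x i)) l (𝓝 (iteratedFDeriv ℝ j a x0)) := by
  have h1 : ContDiffAt ℝ 0 (iteratedFDeriv ℝ j a) x0 :=
    ha.iteratedFDeriv_right (m := 0) (by rw [zero_add]; exact_mod_cast le_top)
  exact h1.continuousAt.tendsto.comp hx

end

end FB
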