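import Mathlib

/-! # Part R: the Baire property of the C^infinity topology on the diffeomorphism group

Nested neighbourhoods defined by a fixed finite system `S` of pairs of charts. (R7) -/

namespace FB

open scoped Topology ContDiff Manifold
open Filter

universe u v


section

/-- JOB R7.  Uniform limits of all derivatives (`hasFDerivAt_of_tendstoLocallyUniformlyOn`,
induction; e.g. build `HasFTaylorSeriesUpToOn ∞` of the limit on the open set `Ω`). -/
theorem limit_smooth {E F : Type*} [NormedAddCommGroup E] [NormedSpace ℝ E]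
    [NormedAddCommGroup F] [NormedSpace ℝ F] [CompleteSpace F] (Ω : Set E) (hΩ : IsOpen Ω)
    (u : ℕ → E → F) (hu : ∀ i, ContDiffOn ℝ ∞ (u i) Ω)
    (hc : ∀ (k : ℕ) (ε : ℝ), 0 < ε → ∃ N, ∀ i ≥ N, ∀ j ≥ N, ∀ z ∈ Ω,
      ‖iteratedFDeriv ℝ k (u j) z - iteratedFDeriv ℝ k (u i) z‖ ≤ ε) :
    ∃ U : E → F, ContDiffOn ℝ ∞ U Ω ∧ ∀ z ∈ Ω, ∀ k : ℕ,
      Tendsto (fun i => iteratedFDeriv ℝ k (u i) z) atTop (𝓝 (iteratedFDeriv ℝ k U z)) := by
  classical
  -- pointwise limits
  have hlim : ∀ z ∈ Ω, ∀ k : ℕ, ∃ L : E [×k]→L[ℝ] F,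
      Tendsto (fun i => iteratedFDeriv ℝ k (u i) z) atTop (𝓝 L) := by
    intro z hz k
    apply cauchySeq_tendsto_of_complete
    rw [Metric.cauchySeq_iff]
    intro ε hε
    obtain ⟨N, hN⟩ := hc k (ε / 2) (by positivity)
    refine ⟨N, fun i hi j hj => ?_⟩
    rw [dist_eq_norm]
    exact lt_of_le_of_lt (hN j hj i hi z hz) (by linarith)
  choose! P hP using hlim
  -- uniform convergence
  have hunif : ∀ (k : ℕ) (ε : ℝ), 0 < ε → ∃ N, ∀ i ≥ N, ∀ z ∈ Ω,
      ‖P z k - iteratedFDeriv ℝ k (u i) z‖ ≤ ε := by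
    intro k ε hε
    obtain ⟨N, hN⟩ := hc k ε hε
    refine ⟨N, fun i hi z hz => ?_⟩
    have h1 : Tendsto (fun j => ‖iteratedFDeriv ℝ k (u j) z - iteratedFDeriv ℝ k (u i) z‖) atTop
        (𝓝 ‖P z k - iteratedFDeriv ℝ k (u i) z‖) :=
      ((hP z hz k).sub tendsto_const_nhds).norm
    refine le_of_tendsto h1 ?_
    filter_upwards [eventually_ge_atTop N] with j hj
    exact hN i hi j hj z hz
  -- derivatives of the terms
  have hder : ∀ (i k : ℕ), ∀ z ∈ Ω, HasFDerivAt (iteratedFDeriv ℝ k (u i))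
      ((iteratedFDeriv ℝ (k + 1) (u i) z).curryLeft) z := by
    intro i k z hz
    have h1 : ContDiffAt ℝ ∞ (u i) z := (hu i).contDiffAt (hΩ.mem_nhds hz)
    have h2 : DifferentiableAt ℝ (iteratedFDeriv ℝ k (u i)) z :=
      h1.differentiableAt_iteratedFDeriv (by exact_mod_cast ENat.natCast_lt_top k)
    have h3 := h2.hasFDerivAt
    rw [fderiv_iteratedFDeriv] at h3
    exact h3
  -- derivatives of the limit
  have hderP : ∀ (k : ℕ), ∀ z ∈ Ω, HasFDerivAt (fun y => P y k) ((P z (k + 1)).curryLeft) z := by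
    intro k z hz
    have hloc : TendstoLocallyUniformlyOn
        (fun (i : ℕ) (y : E) => (iteratedFDeriv ℝ (k + 1) (u i) y).curryLeft)
        (fun y => (P y (k + 1)).curryLeft) atTop Ω := by
      apply TendstoUniformlyOn.tendstoLocallyUniformlyOn
      refine (Metric.tendstoUniformlyOn_iff (α := E →L[ℝ] E [×k]→L[ℝ] F)).2 ?_
      intro ε hε
      obtain ⟨N, hN⟩ := hunif (k + 1) (ε / 2) (by positivity)
      filter_upwards [eventually_ge_atTop N] with i hi
      intro y hy
      have h1 : dist ((P y (k + 1)).curryLeft) ((iteratedFDeriv ℝ (k + 1) (u i) y).curryLeft) =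
          ‖P y (k + 1) - iteratedFDeriv ℝ (k + 1) (u i) y‖ := by
        rw [← dist_eq_norm]
        exact (continuousMultilinearCurryLeftEquiv ℝ (fun _ : Fin (k + 1) => E) F).dist_map _ _
      rw [h1]
      exact lt_of_le_of_lt (hN i hi y hy) (by linarith)
    exact hasFDerivAt_of_tendstoLocallyUniformlyOn hΩ hloc (fun i x hx => hder i k x hx)
      (fun x hx => hP x hx k) hz
  -- the Taylor series
  have hT : HasFTaylorSeriesUpToOn ∞ (fun z => (P z 0).curry0) P Ω := by
    refine ⟨fun x _ => rfl, fun m _ x hx => (hderP m x hx).hasFDerivWithinAt, fun m _ => ?_⟩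
    intro x hx
    exact (hderP m x hx).continuousAt.continuousWithinAt
  refine ⟨fun z => (P z 0).curry0, ?_, ?_⟩
  · exact HasFTaylorSeriesUpToOn.contDiffOn (n := ⊤) hT
  · intro z hz k
    have h1 : P z k = iteratedFDerivWithin ℝ k (fun z => (P z 0).curry0) Ω z :=
      hT.eq_iteratedFDerivWithin_of_uniqueDiffOn (by exact_mod_cast le_top) hΩ.uniqueDiffOn hz
    rw [iteratedFDerivWithin_of_isOpen k hΩ hz] at h1
    rw [← h1]
    exact hP z hz k

end

end FB
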