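import Pool.Agent.H.MP_fb873c_an.S0

/-! # Part R: the Baire property of the C^infinity topology on the diffeomorphism group

Nested neighbourhoods defined by a fixed finite system `S` of pairs of charts. (Ro) -/

namespace FB

open scoped Topology ContDiff Manifold
open Filter

universe u v


section

/-- A finite family of pairs of charts `φ a, ψ a` with compact sets `K a ⊆ dom φ a`, `L a ⊆ dom ψ a`, the
interiors of the `K a` cover `M`. -/
structure Sys (n : ℕ) (M : Type u) [TopologicalSpace M] [ChartedSpace (Er n) M] where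
  N : ℕ
  φ : Fin N → OpenPartialHomeomorph M (Er n)
  ψ : Fin N → OpenPartialHomeomorph M (Er n)
  K : Fin N → Set M
  L : Fin N → Set M
  hφ : ∀ a, φ a ∈ atlas (Er n) M
  hψ : ∀ a, ψ a ∈ atlas (Er n) M
  hK : ∀ a, IsCompact (K a)
  hKφ : ∀ a, K a ⊆ (φ a).source
  hL : ∀ a, IsCompact (L a)
  hLψ : ∀ a, L a ⊆ (ψ a).source
  cover : ∀ x, ∃ a, x ∈ interior (K a)

/-- `g (K a) ⊆ L a`. -/
def Sys.Adm {n : ℕ} {M : Type u} [TopologicalSpace M] [ChartedSpace (Er n) M] (S : Sys n M)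
    (g : M → M) : Prop := ∀ a, ∀ x ∈ S.K a, g x ∈ S.L a

/-- `g (K a) ⊆ interior (L a)`. -/
def Sys.Adm' {n : ℕ} {M : Type u} [TopologicalSpace M] [ChartedSpace (Er n) M] (S : Sys n M)
    (g : M → M) : Prop := ∀ a, ∀ x ∈ S.K a, g x ∈ interior (S.L a)

/-- `g` in the charts number `a`. -/
noncomputable def Sys.loc {n : ℕ} {M : Type u} [TopologicalSpace M] [ChartedSpace (Er n) M]
    (S : Sys n M) (a : Fin S.N) (g : M → M) : Er n → Er n := S.ψ a ∘ g ∘ (S.φ a).symm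

/-- `C^k` closeness with respect to the system `S`. -/
def Sys.Cl {n : ℕ} {M : Type u} [TopologicalSpace M] [ChartedSpace (Er n) M] (S : Sys n M)
    (k : ℕ) (ε : ℝ) (g g' : M → M) : Prop :=
  ∀ a, ∀ x ∈ S.K a, ∀ j ≤ k,
    ‖iteratedFDeriv ℝ j (S.loc a g') (S.φ a x) - iteratedFDeriv ℝ j (S.loc a g) (S.φ a x)‖ ≤ ε

/-- Linear maps `δ`-close to the derivative of `f0` are invertible. -/
def Sys.Inv {n : ℕ} {M : Type u} [TopologicalSpace M] [ChartedSpace (Er n) M] (S : Sys n M)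
    (f0 : M → M) (δ : ℝ) : Prop :=
  ∀ a, ∀ x ∈ S.K a, ∀ A : Er n →L[ℝ] Er n, ‖A - fderiv ℝ (S.loc a f0) (S.φ a x)‖ ≤ δ →
    LinearMap.det A.toLinearMap ≠ 0

end

end FB
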