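import Pool.Agent.H.MP_fb873c_an.R2
import Pool.Agent.H.MP_fb873c_an.R7
import Pool.Agent.H.MP_fb873c_an.Ro

/-! # Part R: the Baire property of the C^infinity topology on the diffeomorphism group

Nested neighbourhoods defined by a fixed finite system `S` of pairs of charts. (R8) -/

namespace FB

open scoped Topology ContDiff Manifold
open Filter

universe u v


section

variable {n : ℕ} {M : Type u} [TopologicalSpace M] [ChartedSpace (Er n) M] [IsManifold (𝓡 n) ∞ M]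

/-- Coordinate representations of a smooth map are smooth. -/
private theorem R8_cda {F : M → M} {x : M}
    (hF : ContMDiffAt (𝓡 n) (𝓡 n) ∞ F x) {φ ψ : OpenPartialHomeomorph M (Er n)}
    (hφ : φ ∈ atlas (Er n) M) (hψ : ψ ∈ atlas (Er n) M) (hx : x ∈ φ.source)
    (hy : F x ∈ ψ.source) : ContDiffAt ℝ ∞ (ψ ∘ F ∘ φ.symm) (φ x) := by
  have h1 : ContMDiffAt (𝓡 n) (𝓡 n) ∞ φ.symm (φ x) :=
    contMDiffAt_symm_of_mem_maximalAtlas (IsManifold.subset_maximalAtlas hφ) (φ.map_source hx)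
  have h2 : ContMDiffAt (𝓡 n) (𝓡 n) ∞ ψ (F x) :=
    contMDiffAt_of_mem_maximalAtlas (IsManifold.subset_maximalAtlas hψ) hy
  have h3 : φ.symm (φ x) = x := φ.left_inv hx
  have h4 : ContMDiffAt (𝓡 n) (𝓡 n) ∞ (F ∘ φ.symm) (φ x) :=
    ContMDiffAt.comp (φ x) (by rw [h3]; exact hF) h1
  have h5 : ContMDiffAt (𝓡 n) (𝓡 n) ∞ (ψ ∘ (F ∘ φ.symm)) (φ x) :=
    ContMDiffAt.comp (φ x) (by simpa [h3] using h2) h4
  exact contMDiffAt_iff_contDiffAt.1 h5

variable [CompactSpace M] [T2Space M]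

omit [CompactSpace M] [T2Space M] in
/-- The limits in the charts number `a`. -/
private theorem R8_U (S : Sys n M) (g : ℕ → Dif n M) (hadm : ∀ i, S.Adm (g i))
    (hc : ∀ (k : ℕ) (ε : ℝ), 0 < ε → ∃ N, ∀ i ≥ N, ∀ j ≥ N, S.Cl k ε (g i) (g j)) (a : Fin S.N) :
    ∃ U : Er n → Er n, ContDiffOn ℝ ∞ U (S.φ a '' interior (S.K a)) ∧
      ∀ x ∈ interior (S.K a), ∀ k : ℕ,
      Tendsto (fun i => iteratedFDeriv ℝ k (S.loc a (g i)) (S.φ a x)) atTop
        (𝓝 (iteratedFDeriv ℝ k U (S.φ a x))) := by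
  have hO : IsOpen (S.φ a '' interior (S.K a)) :=
    (S.φ a).isOpen_image_of_subset_source isOpen_interior
      (interior_subset.trans (S.hKφ a))
  obtain ⟨U, h1, h2⟩ := limit_smooth (S.φ a '' interior (S.K a)) hO (fun i => S.loc a (g i))
    (by
      rintro i _ ⟨x, hx, rfl⟩
      have hxK : x ∈ S.K a := interior_subset hx
      exact (R8_cda ((g i).contMDiff x) (S.hφ a) (S.hψ a) (S.hKφ a hxK)
        (S.hLψ a (hadm i a x hxK))).contDiffWithinAt)
    (by
      intro k ε hε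
      obtain ⟨N, hN⟩ := hc k ε hε
      refine ⟨N, fun i hi j hj => ?_⟩
      rintro _ ⟨x, hx, rfl⟩
      exact hN i hi j hj a x (interior_subset hx) k le_rfl)
  exact ⟨U, h1, fun x hx k => h2 _ ⟨x, hx, rfl⟩ k⟩

omit [IsManifold (𝓡 n) ∞ M] [CompactSpace M] [T2Space M] in
/-- Pointwise convergence on the interior of `K a`. -/
private theorem R8_pt (S : Sys n M) (g : ℕ → Dif n M) (hadm : ∀ i, S.Adm (g i)) (a : Fin S.N)
    (U : Er n → Er n) (x : M) (hx : x ∈ S.K a)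
    (hU : Tendsto (fun i => iteratedFDeriv ℝ 0 (S.loc a (g i)) (S.φ a x)) atTop
        (𝓝 (iteratedFDeriv ℝ 0 U (S.φ a x)))) :
    U (S.φ a x) ∈ (S.ψ a).target ∧
    Tendsto (fun i => g i x) atTop (𝓝 ((S.ψ a).symm (U (S.φ a x)))) := by
  have h0 : Tendsto (fun i => S.ψ a (g i x)) atTop (𝓝 (U (S.φ a x))) := by
    have h1 : Tendsto (fun i => S.loc a (g i) (S.φ a x)) atTop (𝓝 (U (S.φ a x))) := by
      have h2 := ((ContinuousMultilinearMap.apply ℝ (fun _ : Fin 0 => Er n) (Er n)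
        (fun _ => 0)).continuous.tendsto _).comp hU
      simpa [Function.comp_def, iteratedFDeriv_zero_apply] using h2
    have h3 : ∀ i, S.loc a (g i) (S.φ a x) = S.ψ a (g i x) := by
      intro i
      simp only [Sys.loc, Function.comp_apply]
      rw [(S.φ a).left_inv (S.hKφ a hx)]
    simpa [h3] using h1
  have hLc : IsCompact (S.ψ a '' S.L a) :=
    (S.hL a).image_of_continuousOn ((S.ψ a).continuousOn.mono (S.hLψ a))
  have hmem : U (S.φ a x) ∈ S.ψ a '' S.L a :=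
    hLc.isClosed.mem_of_tendsto h0 (Eventually.of_forall fun i => ⟨g i x, hadm i a x hx, rfl⟩)
  have htar : U (S.φ a x) ∈ (S.ψ a).target := by
    obtain ⟨y, hy, hy'⟩ := hmem
    rw [← hy']
    exact (S.ψ a).map_source (S.hLψ a hy)
  refine ⟨htar, ?_⟩
  have h4 := ((S.ψ a).symm.continuousAt (x := U (S.φ a x)) htar).tendsto.comp h0
  refine h4.congr fun i => ?_
  simp only [Function.comp_apply]
  exact (S.ψ a).left_inv (S.hLψ a (hadm i a x hx))

/-- JOB R8.  The limit map.  For `x ∈ interior (K a)` the limit `y = lim g i x` exists (`limit_smooth` on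
`φ a '' interior (K a)`, the values stay in the compact set `L a`, `ψ a` is a homeomorphism on it), it does not
depend on `a` (Hausdorff), so `G` is well defined, smooth (in the charts `φ a, ψ a`), `G (K a) ⊆ L a` by closedness.
Jets: for `x ∈ K a` choose `b` with `x ∈ interior (K b)`, the jets in the charts `b` converge, hence in the charts `a` by
`jets_change` (constant points `x i = x`). -/
theorem sys_limit (S : Sys n M) (g : ℕ → Dif n M) (hadm : ∀ i, S.Adm (g i))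
    (hc : ∀ (k : ℕ) (ε : ℝ), 0 < ε → ∃ N, ∀ i ≥ N, ∀ j ≥ N, S.Cl k ε (g i) (g j)) :
    ∃ G : M → M, ContMDiff (𝓡 n) (𝓡 n) ∞ G ∧ S.Adm G ∧ (∀ x, Tendsto (fun i => g i x) atTop (𝓝 (G x))) ∧
      ∀ a, ∀ x ∈ S.K a, ∀ k : ℕ, Tendsto (fun i => iteratedFDeriv ℝ k (S.loc a (g i)) (S.φ a x)) atTop
        (𝓝 (iteratedFDeriv ℝ k (S.loc a G) (S.φ a x))) := by
  choose U hU1 hU2 using R8_U S g hadm hc
  choose c hcx using S.cover
  have hpt : ∀ a, ∀ x ∈ interior (S.K a), U a (S.φ a x) ∈ (S.ψ a).target ∧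
      Tendsto (fun i => g i x) atTop (𝓝 ((S.ψ a).symm (U a (S.φ a x)))) := fun a x hx =>
    R8_pt S g hadm a (U a) x (interior_subset hx) (hU2 a x hx 0)
  obtain ⟨G, hG⟩ : ∃ G : M → M, ∀ x, Tendsto (fun i => g i x) atTop (𝓝 (G x)) :=
    ⟨fun x => (S.ψ (c x)).symm (U (c x) (S.φ (c x) x)), fun x => (hpt (c x) x (hcx x)).2⟩
  have hGe : ∀ a, ∀ x ∈ interior (S.K a), G x = (S.ψ a).symm (U a (S.φ a x)) := fun a x hx =>
    tendsto_nhds_unique (hG x) (hpt a x hx).2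
  have hGadm : S.Adm G := fun a x hx =>
    (S.hL a).isClosed.mem_of_tendsto (hG x) (Eventually.of_forall fun i => hadm i a x hx)
  have hO : ∀ a, IsOpen (S.φ a '' interior (S.K a)) := fun a =>
    (S.φ a).isOpen_image_of_subset_source isOpen_interior
      (interior_subset.trans (S.hKφ a))
  have hGs : ContMDiff (𝓡 n) (𝓡 n) ∞ G := by
    intro x
    obtain ⟨a, ha⟩ := S.cover x
    have hxK : x ∈ S.K a := interior_subset ha
    have h1 : ContMDiffAt (𝓡 n) (𝓡 n) ∞ (S.φ a) x :=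
      contMDiffAt_of_mem_maximalAtlas (IsManifold.subset_maximalAtlas (S.hφ a)) (S.hKφ a hxK)
    have h2 : ContMDiffAt (𝓡 n) (𝓡 n) ∞ (U a) (S.φ a x) :=
      contMDiffAt_iff_contDiffAt.2 ((hU1 a).contDiffAt ((hO a).mem_nhds ⟨x, ha, rfl⟩))
    have h3 : ContMDiffAt (𝓡 n) (𝓡 n) ∞ (S.ψ a).symm (U a (S.φ a x)) :=
      contMDiffAt_symm_of_mem_maximalAtlas (IsManifold.subset_maximalAtlas (S.hψ a))
        (hpt a x ha).1
    have h4 : ContMDiffAt (𝓡 n) (𝓡 n) ∞ (U a ∘ S.φ a) x := ContMDiffAt.comp x h2 h1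
    have h5 : ContMDiffAt (𝓡 n) (𝓡 n) ∞ ((S.ψ a).symm ∘ (U a ∘ S.φ a)) x :=
      ContMDiffAt.comp x h3 h4
    refine h5.congr_of_eventuallyEq ?_
    filter_upwards [isOpen_interior.mem_nhds ha] with y hy
    exact hGe a y hy
  refine ⟨G, hGs, hGadm, hG, ?_⟩
  -- jets on the interiors
  have hint : ∀ a, ∀ x ∈ interior (S.K a), ∀ k : ℕ,
      Tendsto (fun i => iteratedFDeriv ℝ k (S.loc a (g i)) (S.φ a x)) atTop
        (𝓝 (iteratedFDeriv ℝ k (S.loc a G) (S.φ a x))) := by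
    intro a x hx k
    have he : S.loc a G =ᶠ[𝓝 (S.φ a x)] U a := by
      filter_upwards [(hO a).mem_nhds ⟨x, hx, rfl⟩] with z hz
      obtain ⟨y, hy, rfl⟩ := hz
      simp only [Sys.loc, Function.comp_apply]
      rw [(S.φ a).left_inv (S.hKφ a (interior_subset hy)), hGe a y hy,
        (S.ψ a).right_inv (hpt a y hy).1]
    have he2 : iteratedFDeriv ℝ k (S.loc a G) (S.φ a x) = iteratedFDeriv ℝ k (U a) (S.φ a x) :=
      (Filter.EventuallyEq.iteratedFDeriv ℝ he k).self_of_nhds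
    rw [he2]
    exact hU2 a x hx k
  intro a x hx k
  obtain ⟨b, hb⟩ := S.cover x
  have hbK : x ∈ S.K b := interior_subset hb
  have h := jets_change (S.hφ b) (S.hψ b) (S.hφ a) (S.hψ a) g G hGs (fun _ : ℕ => x) x
    (tendsto_const_nhds (f := atTop)) (S.hKφ b hbK) (S.hKφ a hx) (S.hLψ b (hGadm b x hbK))
    (S.hLψ a (hGadm a x hx))
    (Eventually.of_forall fun i => S.hLψ b (hadm i b x hbK)) k
    (fun j _ => hint b x hb j)
  exact h.2 k le_rfl

end

end FB
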