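import Pool.Agent.H.MP_fb873c_an.S0

/-! # Part R: the Baire property of the C^infinity topology on the diffeomorphism group

Nested neighbourhoods defined by a fixed finite system `S` of pairs of charts. (R9) -/

namespace FB

open scoped Topology ContDiff Manifold
open Filter

universe u v


section

variable {n : ℕ} {M : Type u} [TopologicalSpace M] [ChartedSpace (Er n) M] [IsManifold (𝓡 n) ∞ M]
  [CompactSpace M] [T2Space M]

/-- JOB R9.  A smooth bijection with invertible derivatives is a diffeomorphism
(`Continuous.homeoOfEquivCompactToT2`, `OpenPartialHomeomorph.contDiffAt_symm`). -/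
theorem dif_of_bijective (G : M → M) (hG : ContMDiff (𝓡 n) (𝓡 n) ∞ G) (hb : Function.Bijective G)
    (hd : ∀ x, LinearMap.det (fd (W := Er n) (W' := Er n) G x).toLinearMap ≠ 0) :
    ∃ g : Dif n M, ∀ x, g x = G x := by
  let e : M ≃ M := Equiv.ofBijective G hb
  let H : M ≃ₜ M := Continuous.homeoOfEquivCompactToT2 (f := e) hG.continuous
  have hH : ∀ x, H x = G x := fun x => rfl
  have hHs : ∀ x, H.symm (G x) = x := fun x => H.symm_apply_apply x
  have hinv : ContMDiff (𝓡 n) (𝓡 n) ∞ H.symm := by
    intro y
    obtain ⟨x, rfl⟩ := hb.2 y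
    let φ : OpenPartialHomeomorph M (Er n) := chartAt (Er n) x
    let ψ : OpenPartialHomeomorph M (Er n) := chartAt (Er n) (G x)
    let f : OpenPartialHomeomorph (Er n) (Er n) :=
      φ.symm.trans (H.toOpenPartialHomeomorph.trans ψ)
    have hx : x ∈ φ.source := mem_chart_source (Er n) x
    have hy : G x ∈ ψ.source := mem_chart_source (Er n) (G x)
    have hfc : (f : Er n → Er n) = ψ ∘ G ∘ φ.symm := rfl
    have hfs : (f.symm : Er n → Er n) = φ ∘ H.symm ∘ ψ.symm := rfl
    have ha : ψ (G x) ∈ f.target := by
      have h1 : φ x ∈ f.source := by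
        show φ x ∈ (φ.symm.trans (H.toOpenPartialHomeomorph.trans ψ)).source
        rw [OpenPartialHomeomorph.trans_source]
        refine ⟨φ.map_source hx, ?_⟩
        rw [Set.mem_preimage, OpenPartialHomeomorph.trans_source, φ.left_inv hx]
        exact ⟨Set.mem_univ _, hy⟩
      have h2 := f.map_source h1
      have h3 : f (φ x) = ψ (G x) := by
        rw [hfc]
        simp only [Function.comp]
        rw [φ.left_inv hx]
      rwa [h3] at h2
    have hfa : f.symm (ψ (G x)) = φ x := by
      rw [hfs]
      simp only [Function.comp]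
      rw [ψ.left_inv hy, hHs]
    have hc : ContDiffAt ℝ ∞ f (φ x) := by
      have h1 := (contMDiffAt_iff.1 (hG x)).2
      rw [ModelWithCorners.range_eq_univ, contDiffWithinAt_univ] at h1
      exact h1
    have hdf : DifferentiableAt ℝ f (φ x) := hc.differentiableAt (by simp)
    have hdet : (fd (W := Er n) (W' := Er n) G x).det ≠ 0 := hd x
    let A : Er n ≃L[ℝ] Er n :=
      ContinuousLinearMap.toContinuousLinearEquivOfDetNeZero
        (fd (W := Er n) (W' := Er n) G x) hdet
    have hA : HasFDerivAt f (A : Er n →L[ℝ] Er n) (φ x) := hdf.hasFDerivAt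
    have h4 : ContDiffAt ℝ ∞ f.symm (ψ (G x)) := by
      refine f.contDiffAt_symm ha (f₀' := A) ?_ ?_
      · rw [hfa]
        exact hA
      · rw [hfa]
        exact hc
    rw [contMDiffAt_iff]
    refine ⟨H.symm.continuous.continuousAt, ?_⟩
    rw [ModelWithCorners.range_eq_univ, contDiffWithinAt_univ]
    have h5 : (extChartAt (𝓡 n) (H.symm (G x)) ∘ H.symm ∘ (extChartAt (𝓡 n) (G x)).symm) =
        (f.symm : Er n → Er n) := by
      rw [hHs]
      rfl
    rw [h5]
    exact h4
  exact ⟨⟨H.toEquiv, hG, hinv⟩, fun x => rfl⟩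

end

end FB
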