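import Pool.Agent.H.MP_fb873c_an.D2d
import Pool.Agent.H.MP_fb873c_an.G1e
import Pool.Agent.H.MP_fb873c_an.R8
import Pool.Agent.H.MP_fb873c_an.R9

/-! # Part R: the Baire property of the C^infinity topology on the diffeomorphism group

Nested neighbourhoods defined by a fixed finite system `S` of pairs of charts. (R10) -/

namespace FB

open scoped Topology ContDiff Manifold
open Filter

universe u v


section

variable {n : ℕ} {M : Type u} [MetricSpace M] [ChartedSpace (Er n) M] [IsManifold (𝓡 n) ∞ M]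
  [CompactSpace M]

private theorem r10_trans {e e' : OpenPartialHomeomorph M (Er n)} (he : e ∈ atlas (Er n) M)
    (he' : e' ∈ atlas (Er n) M) (p : M) (h0 : p ∈ e.source) (h1 : p ∈ e'.source) :
    DifferentiableAt ℝ (e' ∘ e.symm) (e p) := by
  have h := StructureGroupoid.compatible (contDiffGroupoid ∞ (𝓡 n)) he he'
  rw [contDiffGroupoid, mem_groupoid_of_pregroupoid] at h
  have h2 := h.1
  have h3 : ContDiffOn ℝ ∞ (e' ∘ e.symm) (e.symm ≫ₕ e').source := by
    simpa [contDiffPregroupoid] using h2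
  have hmem : e p ∈ (e.symm ≫ₕ e').source := by
    rw [OpenPartialHomeomorph.trans_source, OpenPartialHomeomorph.symm_source]
    refine ⟨e.map_source h0, ?_⟩
    rw [Set.mem_preimage, e.left_inv h0]
    exact h1
  exact (h3.contDiffAt ((e.symm ≫ₕ e').open_source.mem_nhds hmem)).differentiableAt (by simp)

private theorem r10_det {φ ψ : OpenPartialHomeomorph M (Er n)} (hφ : φ ∈ atlas (Er n) M)
    (hψ : ψ ∈ atlas (Er n) M) {G : M → M} (hG : ContMDiff (𝓡 n) (𝓡 n) ∞ G) (x : M)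
    (h0 : x ∈ φ.source) (h1 : G x ∈ ψ.source)
    (hd : LinearMap.det (fderiv ℝ (ψ ∘ G ∘ φ.symm) (φ x)).toLinearMap ≠ 0) :
    LinearMap.det (fd (W := Er n) (W' := Er n) G x).toLinearMap ≠ 0 := by
  intro h
  apply hd
  have hx := mem_chart_source (Er n) x
  have hGx := mem_chart_source (Er n) (G x)
  have hT1 := r10_trans hφ (chart_mem_atlas (Er n) x) x h0 hx
  have hT2 := r10_trans (chart_mem_atlas (Er n) (G x)) hψ (G x) hGx h1
  have hm : DifferentiableAt ℝ (chartAt (Er n) (G x) ∘ G ∘ (chartAt (Er n) x).symm)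
      (chartAt (Er n) x x) :=
    (contDiffAt_charts hG x (G x) x hx hGx).differentiableAt (by simp)
  have hev : (ψ ∘ G ∘ φ.symm) =ᶠ[𝓝 (φ x)] (ψ ∘ (chartAt (Er n) (G x)).symm) ∘
      ((chartAt (Er n) (G x) ∘ G ∘ (chartAt (Er n) x).symm) ∘ (chartAt (Er n) x ∘ φ.symm)) := by
    have hc : Tendsto φ.symm (𝓝 (φ x)) (𝓝 x) := by
      have := (φ.continuousAt_symm (φ.map_source h0)).tendsto
      rwa [φ.left_inv h0] at this
    have e1 : ∀ᶠ y in 𝓝 x, y ∈ (chartAt (Er n) x).source :=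
      (chartAt (Er n) x).open_source.mem_nhds hx
    have e2 : ∀ᶠ y in 𝓝 x, G y ∈ (chartAt (Er n) (G x)).source :=
      hG.continuous.continuousAt ((chartAt (Er n) (G x)).open_source.mem_nhds hGx)
    filter_upwards [hc.eventually e1, hc.eventually e2] with z h3 h4
    show ψ (G (φ.symm z)) = ψ ((chartAt (Er n) (G x)).symm (chartAt (Er n) (G x)
      (G ((chartAt (Er n) x).symm (chartAt (Er n) x (φ.symm z))))))
    rw [(chartAt (Er n) x).left_inv h3, (chartAt (Er n) (G x)).left_inv h4]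
  have e3 : (chartAt (Er n) x ∘ φ.symm) (φ x) = chartAt (Er n) x x := by
    rw [Function.comp_apply, φ.left_inv h0]
  have e4 : ((chartAt (Er n) (G x) ∘ G ∘ (chartAt (Er n) x).symm) ∘
      (chartAt (Er n) x ∘ φ.symm)) (φ x) = chartAt (Er n) (G x) (G x) := by
    rw [Function.comp_apply, e3]
    show chartAt (Er n) (G x) (G ((chartAt (Er n) x).symm (chartAt (Er n) x x))) = _
    rw [(chartAt (Er n) x).left_inv hx]
  have k1 : DifferentiableAt ℝ (chartAt (Er n) (G x) ∘ G ∘ (chartAt (Er n) x).symm)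
      ((chartAt (Er n) x ∘ φ.symm) (φ x)) := by
    rw [e3]
    exact hm
  have k2 : DifferentiableAt ℝ (ψ ∘ (chartAt (Er n) (G x)).symm)
      (((chartAt (Er n) (G x) ∘ G ∘ (chartAt (Er n) x).symm) ∘
      (chartAt (Er n) x ∘ φ.symm)) (φ x)) := by
    rw [e4]
    exact hT2
  rw [hev.fderiv_eq, fderiv_comp _ k2 (k1.comp _ hT1), fderiv_comp _ k1 hT1, e3]
  show LinearMap.det (_ ∘ₗ ((fd (W := Er n) (W' := Er n) G x).toLinearMap ∘ₗ _)) = 0
  rw [LinearMap.det_comp, LinearMap.det_comp, h]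
  ring

omit [CompactSpace M] [IsManifold (𝓡 n) ∞ M] in
private theorem r10_one {f g : Er n → Er n} {z : Er n} {δ : ℝ}
    (h : ‖iteratedFDeriv ℝ 1 f z - iteratedFDeriv ℝ 1 g z‖ ≤ δ) :
    ‖fderiv ℝ f z - fderiv ℝ g z‖ ≤ δ := by
  refine ContinuousLinearMap.opNorm_le_bound _ ((norm_nonneg _).trans h) fun v => ?_
  have h1 := (iteratedFDeriv ℝ 1 f z - iteratedFDeriv ℝ 1 g z).le_of_opNorm_le h (fun _ => v)
  rw [ContinuousMultilinearMap.sub_apply, iteratedFDeriv_one_apply, iteratedFDeriv_one_apply,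
    Fin.prod_univ_one] at h1
  exact h1

/-- JOB R10.  The limit diffeomorphism: `sys_limit` gives `G`; injective: `dist (g_i⁻¹ (G y)) y ≤ 2^{-i}`;
surjective: for `w` let `z_i = g_i⁻¹ w`, a cluster point `z ∈ interior (K a)`, `ψ a w = ψ a (g_i z_i)`,
`ψ a (g_i z_i) - ψ a (G z_i) → 0` (order zero part of `Cl`, uniform) and `ψ a (G z_i) → ψ a (G z)` along a subsequence, so
`w = G z`; invertible derivatives: `Inv` and the limit of `h0` (order one; `‖iteratedFDeriv 1‖` versus `fderiv`), change of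
charts `fd_change`; then `dif_of_bijective`; `Cl` by passing to the limit in `hcl`. -/
theorem exists_limit (S : Sys n M) (f0 : Dif n M) (δ : ℝ) (hδ : S.Inv f0 δ) (g : ℕ → Dif n M)
    (k : ℕ → ℕ) (ε : ℕ → ℝ) (hk : ∀ i, i ≤ k i) (hε : ∀ i, ε i ≤ (1 / 2 : ℝ) ^ i)
    (hadm : ∀ i, S.Adm (g i)) (h0 : ∀ i, S.Cl 1 δ f0 (g i))
    (hcl : ∀ i j, i ≤ j → S.Cl (k i) (ε i) (g i) (g j))
    (hinv : ∀ i j, i ≤ j → ∀ y, dist ((g i).symm (g j y)) y ≤ (1 / 2 : ℝ) ^ i) :
    ∃ G : Dif n M, S.Adm G ∧ ∀ i, S.Cl (k i) (ε i) (g i) G := by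
  have hpow : Tendsto (fun i : ℕ => (1 / 2 : ℝ) ^ i) atTop (𝓝 0) :=
    tendsto_pow_atTop_nhds_zero_of_lt_one (by norm_num) (by norm_num)
  -- the jets form Cauchy sequences
  have hc : ∀ (k : ℕ) (ε : ℝ), 0 < ε → ∃ N, ∀ i ≥ N, ∀ j ≥ N, S.Cl k ε (g i) (g j) := by
    intro k0 ε0 hε0
    obtain ⟨N0, hN0⟩ := (hpow.eventually_le_const hε0).exists_forall_of_atTop
    refine ⟨max N0 k0, fun i hi j hj => ?_⟩
    have key : ∀ i j, max N0 k0 ≤ i → i ≤ j → S.Cl k0 ε0 (g i) (g j) := by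
      intro i j hi hij a x hx l hl
      have h1 : l ≤ k i := hl.trans ((le_max_right N0 k0).trans (hi.trans (hk i)))
      exact (hcl i j hij a x hx l h1).trans ((hε i).trans (hN0 i ((le_max_left N0 k0).trans hi)))
    rcases le_total i j with h | h
    · exact key i j hi h
    · intro a x hx l hl
      rw [norm_sub_rev]
      exact key j i hj h a x hx l hl
  obtain ⟨G, hG, hGadm, hlim, hjet⟩ := sys_limit S g hadm hc
  have hGcl : ∀ i, S.Cl (k i) (ε i) (g i) G := by
    intro i a x hx l hl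
    have h1 := ((hjet a x hx l).sub_const (iteratedFDeriv ℝ l (S.loc a (g i)) (S.φ a x))).norm
    refine le_of_tendsto h1 ?_
    filter_upwards [eventually_ge_atTop i] with j hj
    exact hcl i j hj a x hx l hl
  have hGinv : ∀ i y, dist ((g i).symm (G y)) y ≤ (1 / 2 : ℝ) ^ i := by
    intro i y
    have h1 : Tendsto (fun j => dist ((g i).symm (g j y)) y) atTop
        (𝓝 (dist ((g i).symm (G y)) y)) :=
      (((g i).symm.continuous.tendsto (G y)).comp (hlim y)).dist tendsto_const_nhds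
    refine le_of_tendsto h1 ?_
    filter_upwards [eventually_ge_atTop i] with j hj
    exact hinv i j hj y
  have hinj : Function.Injective G := by
    intro x y hxy
    have h1 : Tendsto (fun i : ℕ => (1 / 2 : ℝ) ^ i + (1 / 2 : ℝ) ^ i) atTop (𝓝 (0 + 0)) :=
      hpow.add hpow
    rw [add_zero] at h1
    have h2 : dist x y ≤ 0 := by
      refine ge_of_tendsto' h1 fun i => ?_
      have h3 := dist_triangle_left x y ((g i).symm (G x))
      have h4 := hGinv i x
      have h5 := hGinv i y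
      rw [← hxy] at h5
      linarith
    exact dist_le_zero.1 h2
  have hsurj : Function.Surjective G := by
    intro w
    obtain ⟨z, φs, hφs, hz⟩ : ∃ z, ∃ φs : ℕ → ℕ, StrictMono φs ∧
        Tendsto (fun i => (g (φs i)).symm w) atTop (𝓝 z) := by
      obtain ⟨z, -, φs, h1, h2⟩ := isCompact_univ.tendsto_subseq
        (x := fun i => (g i).symm w) (fun _ => Set.mem_univ _)
      exact ⟨z, φs, h1, h2⟩
    obtain ⟨a, ha⟩ := S.cover z
    refine ⟨z, ?_⟩
    have hGz : G z ∈ S.L a := hGadm a z (interior_subset ha)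
    have hev : ∀ᶠ i in atTop, (g (φs i)).symm w ∈ S.K a := by
      filter_upwards [hz (isOpen_interior.mem_nhds ha)] with i hi
      exact interior_subset hi
    have hw : w ∈ S.L a := by
      obtain ⟨i, hi⟩ := hev.exists
      have h1 := hadm (φs i) a _ hi
      rwa [(g (φs i)).apply_symm_apply] at h1
    have h1 : Tendsto (fun i => S.ψ a (G ((g (φs i)).symm w))) atTop (𝓝 (S.ψ a (G z))) := by
      have h2 : ContinuousAt (S.ψ a) (G z) := (S.ψ a).continuousAt (S.hLψ a hGz)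
      exact h2.tendsto.comp ((hG.continuous.tendsto z).comp hz)
    have h2 : Tendsto (fun i => S.ψ a (G ((g (φs i)).symm w))) atTop (𝓝 (S.ψ a w)) := by
      rw [tendsto_iff_dist_tendsto_zero]
      refine squeeze_zero' (Eventually.of_forall fun i => dist_nonneg) ?_
        (hpow.comp hφs.tendsto_atTop)
      filter_upwards [hev] with i hi
      have h3 := hGcl (φs i) a _ hi 0 (Nat.zero_le _)
      rw [D2d_dist] at h3
      have h4 : S.loc a G (S.φ a ((g (φs i)).symm w)) = S.ψ a (G ((g (φs i)).symm w)) := by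
        show S.ψ a (G ((S.φ a).symm (S.φ a ((g (φs i)).symm w)))) = _
        rw [(S.φ a).left_inv (S.hKφ a hi)]
      have h5 : S.loc a (g (φs i)) (S.φ a ((g (φs i)).symm w)) = S.ψ a w := by
        show S.ψ a (g (φs i) ((S.φ a).symm (S.φ a ((g (φs i)).symm w)))) = _
        rw [(S.φ a).left_inv (S.hKφ a hi), (g (φs i)).apply_symm_apply]
      rw [h4, h5] at h3
      exact h3.trans (hε _)
    exact (S.ψ a).injOn (S.hLψ a hGz) (S.hLψ a hw) (tendsto_nhds_unique h1 h2)
  have hdet : ∀ x, LinearMap.det (fd (W := Er n) (W' := Er n) G x).toLinearMap ≠ 0 := by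
    intro x
    obtain ⟨a, ha⟩ := S.cover x
    have hxK := interior_subset ha
    refine r10_det (S.hφ a) (S.hψ a) hG x (S.hKφ a hxK) (S.hLψ a (hGadm a x hxK)) ?_
    refine hδ a x hxK _ (r10_one ?_)
    have h1 := ((hjet a x hxK 1).sub_const (iteratedFDeriv ℝ 1 (S.loc a f0) (S.φ a x))).norm
    exact le_of_tendsto' h1 fun i => h0 i a x hxK 1 le_rfl
  obtain ⟨G', hG'⟩ := dif_of_bijective G hG ⟨hinj, hsurj⟩ hdet
  have hfun : (G' : M → M) = G := funext hG'
  refine ⟨G', ?_, fun i => ?_⟩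
  · rw [hfun]
    exact hGadm
  · rw [hfun]
    exact hGcl i

end

end FB
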