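import Pool.Agent.H.MP_fb873c_an.D2d

/-! # Part R: the Baire property of the C^infinity topology on the diffeomorphism group

Nested neighbourhoods defined by a fixed finite system `S` of pairs of charts. (R4b) -/

namespace FB

open scoped Topology ContDiff Manifold
open Filter

universe u v


section

variable {n : ℕ} {M : Type u} [MetricSpace M] [ChartedSpace (Er n) M] [IsManifold (𝓡 n) ∞ M]
  [CompactSpace M]

/-- JOB R4b.  `C⁰`-closeness of the inverses (`isOpen_mapsTo`: cover `M` by finitely many compact sets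
`K y ⊆ ball y (ε/2)` with `g (K y) ⊆ U y := g.symm ⁻¹' ball y (ε/2)`). -/
theorem inv_nbhd (g : Dif n M) (ε : ℝ) (hε : 0 < ε) :
    ∃ V : Set (Dif n M), IsOpen[crTop n M ⊤] V ∧ g ∈ V ∧ ∀ g' ∈ V, ∀ y, dist (g.symm (g' y)) y ≤ ε := by
  letI T := crTop n M ⊤
  have key : ∃ V : Set (Dif n M), IsOpen V ∧ g ∈ V ∧
      ∀ g' ∈ V, ∀ y ∈ (Set.univ : Set M), dist (g.symm (g' y)) y ≤ ε := by
    refine isCompact_univ.induction_on
      (p := fun s => ∃ V : Set (Dif n M), IsOpen V ∧ g ∈ V ∧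
        ∀ g' ∈ V, ∀ y ∈ s, dist (g.symm (g' y)) y ≤ ε) ?_ ?_ ?_ ?_
    · exact ⟨Set.univ, isOpen_univ, Set.mem_univ _, fun _ _ y hy => hy.elim⟩
    · rintro s t hst ⟨V, h1, h2, h3⟩
      exact ⟨V, h1, h2, fun g' hg' y hy => h3 g' hg' y (hst hy)⟩
    · rintro s t ⟨V, h1, h2, h3⟩ ⟨V', h1', h2', h3'⟩
      refine ⟨V ∩ V', h1.inter h1', ⟨h2, h2'⟩, fun g' hg' y hy => ?_⟩
      rcases hy with hy | hy
      · exact h3 g' hg'.1 y hy
      · exact h3' g' hg'.2 y hy
    · intro x _
      have hU : IsOpen (g.symm ⁻¹' Metric.ball x (ε / 2)) :=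
        Metric.isOpen_ball.preimage g.symm.continuous
      have hK : IsCompact (Metric.closedBall x (ε / 3)) := Metric.isClosed_closedBall.isCompact
      refine ⟨Metric.closedBall x (ε / 3),
        mem_nhdsWithin_of_mem_nhds (Metric.closedBall_mem_nhds x (by positivity)),
        {g' : Dif n M | ∀ y ∈ Metric.closedBall x (ε / 3), g' y ∈ g.symm ⁻¹' Metric.ball x (ε / 2)},
        isOpen_mapsTo ⊤ hK hU, fun y hy => ?_, fun g' hg' y hy => ?_⟩
      · show g.symm (g y) ∈ Metric.ball x (ε / 2)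
        rw [g.symm_apply_apply]
        exact Metric.closedBall_subset_ball (by linarith) hy
      · have h1 : dist (g.symm (g' y)) x < ε / 2 := hg' y hy
        have h2 : dist y x ≤ ε / 3 := hy
        have h3 := dist_triangle_right (g.symm (g' y)) y x
        linarith
  obtain ⟨V, h1, h2, h3⟩ := key
  exact ⟨V, h1, h2, fun g' hg' y => h3 g' hg' y (Set.mem_univ _)⟩

end

end FB
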