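import Pool.Agent.H.MP_fb873c_an.R5

/-! # Part R: the Baire property of the C^infinity topology on the diffeomorphism group

Nested neighbourhoods defined by a fixed finite system `S` of pairs of charts. (R6) -/

namespace FB

open scoped Topology ContDiff Manifold
open Filter

universe u v


section

variable {n : ℕ} {M : Type u} [TopologicalSpace M] [ChartedSpace (Er n) M] [IsManifold (𝓡 n) ∞ M]
  [CompactSpace M] [T2Space M]

/-- JOB R6.  (Induction on `GenerateOpen`, `sys_cnbhd`.) -/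
theorem sys_open (S : Sys n M) (g : Dif n M) (hg : S.Adm g) (W : Set (Dif n M))
    (hW : IsOpen[crTop n M ⊤] W) (hgW : g ∈ W) :
    ∃ (k : ℕ) (η : ℝ), 0 < η ∧ ∀ g' : Dif n M, S.Adm g' → S.Cl k η g g' → g' ∈ W := by
  have hW' : TopologicalSpace.GenerateOpen {s | ∃ (k : ℕ) (f : Dif n M)
    (φ ψ : OpenPartialHomeomorph M (Er n)) (K : Set M) (ε : ℝ), (k : ℕ∞) ≤ ⊤ ∧
    φ ∈ atlas (Er n) M ∧ ψ ∈ atlas (Er n) M ∧ IsCompact K ∧
    K ⊆ φ.source ∧ (∀ x ∈ K, f x ∈ ψ.source) ∧ 0 < ε ∧ s = cnbhd k f φ ψ K ε} W := hW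
  clear hW
  induction hW' with
  | basic s hs =>
    obtain ⟨r, f, φ, ψ, K, ε, -, hφ, hψ, hK, hKφ, hf, hε, rfl⟩ := hs
    exact sys_cnbhd S g hg r f φ ψ hφ hψ K hK hKφ hf ε hε hgW
  | univ => exact ⟨0, 1, one_pos, fun _ _ _ => Set.mem_univ _⟩
  | inter s t _ _ ihs iht =>
    obtain ⟨k₁, η₁, h₁, H₁⟩ := ihs hgW.1
    obtain ⟨k₂, η₂, h₂, H₂⟩ := iht hgW.2
    refine ⟨max k₁ k₂, min η₁ η₂, lt_min h₁ h₂, fun g' ha hc => ⟨H₁ g' ha ?_, H₂ g' ha ?_⟩⟩
    · intro a x hx j hj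
      exact (hc a x hx j (le_trans hj (le_max_left _ _))).trans (min_le_left _ _)
    · intro a x hx j hj
      exact (hc a x hx j (le_trans hj (le_max_right _ _))).trans (min_le_right _ _)
  | sUnion T _ ih =>
    obtain ⟨s, hs, hgs⟩ := hgW
    obtain ⟨k, η, h, H⟩ := ih s hs hgs
    exact ⟨k, η, h, fun g' ha hc => ⟨s, hs, H g' ha hc⟩⟩

end

end FB
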