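import Pool.Agent.H.MP_fb873c_an.R4
import Pool.Agent.H.MP_fb873c_an.R4b
import Pool.Agent.H.MP_fb873c_an.R6

/-! # Part R: the Baire property of the C^infinity topology on the diffeomorphism group

Nested neighbourhoods defined by a fixed finite system `S` of pairs of charts. (R11) -/

namespace FB

open scoped Topology ContDiff Manifold
open Filter

universe u v


section

variable {n : ℕ} {M : Type u} [MetricSpace M] [ChartedSpace (Er n) M] [IsManifold (𝓡 n) ∞ M]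
  [CompactSpace M]

/-- JOB R11.  The inductive step. -/
theorem baire_step (S : Sys n M) (V U : Set (Dif n M)) (hV : IsOpen[crTop n M ⊤] V) (hVne : V.Nonempty)
    (hVS : ∀ g ∈ V, S.Adm' g) (hU : IsOpen[crTop n M ⊤] U) (hUd : @Dense _ (crTop n M ⊤) U) (i : ℕ) :
    ∃ (g : Dif n M) (k : ℕ) (ε : ℝ) (V' : Set (Dif n M)), IsOpen[crTop n M ⊤] V' ∧ g ∈ V' ∧ V' ⊆ V ∧
      i ≤ k ∧ ε ≤ (1 / 2 : ℝ) ^ i ∧
      (∀ g' ∈ V', S.Cl k ε g g' ∧ ∀ y, dist (g.symm (g' y)) y ≤ (1 / 2 : ℝ) ^ i) ∧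
      ∀ g' : Dif n M, S.Adm g' → S.Cl k ε g g' → g' ∈ V ∧ g' ∈ U := by
  letI T := crTop n M ⊤
  obtain ⟨g, hgV, hgU⟩ : (V ∩ U).Nonempty := hUd.inter_open_nonempty V hV hVne
  have hadm' : S.Adm' g := hVS g hgV
  have hadm : S.Adm g := fun a x hx => interior_subset (hadm' a x hx)
  obtain ⟨k0, η, hη, hW⟩ := sys_open S g hadm (V ∩ U) (hV.inter hU) ⟨hgV, hgU⟩
  have hpi : (0 : ℝ) < (1 / 2 : ℝ) ^ i := by positivity
  obtain ⟨V1, h1o, h1g, h1⟩ := sys_nbhd S g hadm' (max k0 i) (min η ((1 / 2 : ℝ) ^ i))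
    (lt_min hη hpi)
  obtain ⟨V2, h2o, h2g, h2⟩ := inv_nbhd g ((1 / 2 : ℝ) ^ i) hpi
  exact ⟨g, max k0 i, min η ((1 / 2 : ℝ) ^ i), V ∩ (V1 ∩ V2), hV.inter (h1o.inter h2o),
    ⟨hgV, h1g, h2g⟩, Set.inter_subset_left, le_max_right _ _, min_le_right _ _,
    fun g' hg' => ⟨(h1 g' hg'.2.1).2, h2 g' hg'.2.2⟩,
    fun g' hA hC => hW g' hA fun a x hx j hj =>
      (hC a x hx j (hj.trans (le_max_left _ _))).trans (min_le_left _ _)⟩

end

end FB
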