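import Pool.Agent.H.MP_fb873c_an.Ro

/-! # Part R: the Baire property of the C^infinity topology on the diffeomorphism group

Nested neighbourhoods defined by a fixed finite system `S` of pairs of charts. (R3) -/

namespace FB

open scoped Topology ContDiff Manifold
open Filter

universe u v


section

variable {n : ℕ} {M : Type u} [TopologicalSpace M] [ChartedSpace (Er n) M] [IsManifold (𝓡 n) ∞ M]
  [CompactSpace M] [T2Space M]

omit [CompactSpace M] [T2Space M] in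
private theorem R3_smooth {F : M → M} (hF : ContMDiff (𝓡 n) (𝓡 n) ∞ F)
    {φ ψ : OpenPartialHomeomorph M (Er n)} (hφ : φ ∈ atlas (Er n) M) (hψ : ψ ∈ atlas (Er n) M)
    {x : M} (hx : x ∈ φ.source) (hFx : F x ∈ ψ.source) :
    ContDiffAt ℝ ∞ (ψ ∘ F ∘ φ.symm) (φ x) := by
  have e : φ.symm (φ x) = x := φ.left_inv hx
  have h1 : ContMDiffAt 𝓘(ℝ, Er n) (𝓡 n) ∞ φ.symm (φ x) :=
    contMDiffAt_symm_of_mem_maximalAtlas (IsManifold.subset_maximalAtlas hφ) (φ.map_source hx)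
  have h2 : ContMDiffAt 𝓘(ℝ, Er n) (𝓡 n) ∞ (F ∘ φ.symm) (φ x) := (hF (φ.symm (φ x))).comp _ h1
  have h3 : ContMDiffAt (𝓡 n) 𝓘(ℝ, Er n) ∞ ψ ((F ∘ φ.symm) (φ x)) := by
    apply contMDiffAt_of_mem_maximalAtlas (IsManifold.subset_maximalAtlas hψ)
    rw [Function.comp_apply, e]
    exact hFx
  have h4 : ContMDiffAt 𝓘(ℝ, Er n) 𝓘(ℝ, Er n) ∞ (ψ ∘ (F ∘ φ.symm)) (φ x) := h3.comp _ h2
  exact contMDiffAt_iff_contDiffAt.1 h4

omit [CompactSpace M] [T2Space M] in
private theorem R3_det (f : Dif n M)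
    {φ ψ : OpenPartialHomeomorph M (Er n)} (hφ : φ ∈ atlas (Er n) M) (hψ : ψ ∈ atlas (Er n) M)
    {x : M} (hx : x ∈ φ.source) (hFx : f x ∈ ψ.source) :
    LinearMap.det (fderiv ℝ (ψ ∘ f ∘ φ.symm) (φ x)).toLinearMap ≠ 0 := by
  have e : φ.symm (φ x) = x := φ.left_inv hx
  have hsx : f.symm (f x) = x := f.symm_apply_apply x
  have h1 : ContDiffAt ℝ ∞ (ψ ∘ f ∘ φ.symm) (φ x) := R3_smooth f.contMDiff hφ hψ hx hFx
  have h2 : ContDiffAt ℝ ∞ (φ ∘ f.symm ∘ ψ.symm) (ψ (f x)) :=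
    R3_smooth (x := f x) f.symm.contMDiff hψ hφ hFx (by rw [hsx]; exact hx)
  have hval : (ψ ∘ f ∘ φ.symm) (φ x) = ψ (f x) := by
    simp only [Function.comp_apply, e]
  have hev : ((φ ∘ f.symm ∘ ψ.symm) ∘ (ψ ∘ f ∘ φ.symm)) =ᶠ[𝓝 (φ x)] id := by
    have hc : ContinuousAt (fun y => f (φ.symm y)) (φ x) :=
      f.continuous.continuousAt.comp (φ.continuousAt_symm (φ.map_source hx))
    have hm : (fun y => f (φ.symm y)) ⁻¹' ψ.source ∈ 𝓝 (φ x) := by
      apply hc.preimage_mem_nhds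
      rw [e]
      exact ψ.open_source.mem_nhds hFx
    have hm2 : φ.target ∈ 𝓝 (φ x) := φ.open_target.mem_nhds (φ.map_source hx)
    filter_upwards [hm, hm2] with y hy hy2
    have a1 : ψ.symm (ψ (f (φ.symm y))) = f (φ.symm y) := ψ.left_inv hy
    have a2 : f.symm (f (φ.symm y)) = φ.symm y := f.symm_apply_apply _
    have a3 : φ (φ.symm y) = y := φ.right_inv hy2
    simp only [Function.comp_apply, id_eq, a1, a2, a3]
  have hd1 : DifferentiableAt ℝ (ψ ∘ f ∘ φ.symm) (φ x) := h1.differentiableAt (by simp)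
  have hd2 : DifferentiableAt ℝ (φ ∘ f.symm ∘ ψ.symm) ((ψ ∘ f ∘ φ.symm) (φ x)) := by
    rw [hval]
    exact h2.differentiableAt (by simp)
  have hcomp := fderiv_comp (φ x) hd2 hd1
  rw [hev.fderiv_eq, fderiv_id] at hcomp
  intro h0
  have hdet : LinearMap.det ((ContinuousLinearMap.id ℝ (Er n)).toLinearMap) = 0 := by
    rw [hcomp]
    have : ((fderiv ℝ (φ ∘ f.symm ∘ ψ.symm) ((ψ ∘ f ∘ φ.symm) (φ x))).comp
        (fderiv ℝ (ψ ∘ f ∘ φ.symm) (φ x))).toLinearMap =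
        (fderiv ℝ (φ ∘ f.symm ∘ ψ.symm) ((ψ ∘ f ∘ φ.symm) (φ x))).toLinearMap ∘ₗ
          (fderiv ℝ (ψ ∘ f ∘ φ.symm) (φ x)).toLinearMap := rfl
    rw [this, LinearMap.det_comp, h0, mul_zero]
  have hid : (ContinuousLinearMap.id ℝ (Er n)).toLinearMap = LinearMap.id := rfl
  rw [hid, LinearMap.det_id] at hdet
  exact one_ne_zero hdet

/-- JOB R3. -/
theorem exists_sys (f : Dif n M) : ∃ S : Sys n M, S.Adm' f := by
  classical
  haveI : LocallyCompactSpace M := ChartedSpace.locallyCompactSpace (Er n) M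
  have key : ∀ x : M, ∃ K L : Set M, IsCompact K ∧ IsCompact L ∧ K ∈ 𝓝 x ∧
      K ⊆ (chartAt (Er n) x).source ∧ L ⊆ (chartAt (Er n) (f x)).source ∧
      ∀ y ∈ K, f y ∈ interior L := by
    intro x
    obtain ⟨L, ⟨hLn, hLc⟩, hLs⟩ := (compact_basis_nhds (f x)).mem_iff.1
      ((chartAt (Er n) (f x)).open_source.mem_nhds (mem_chart_source (Er n) (f x)))
    have h1 : f ⁻¹' (interior L) ∈ 𝓝 x :=
      f.continuous.continuousAt.preimage_mem_nhds (isOpen_interior.mem_nhds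
        (mem_interior_iff_mem_nhds.2 hLn))
    have h2 : (chartAt (Er n) x).source ∈ 𝓝 x :=
      (chartAt (Er n) x).open_source.mem_nhds (mem_chart_source (Er n) x)
    obtain ⟨K, ⟨hKn, hKc⟩, hKs⟩ := (compact_basis_nhds x).mem_iff.1 (Filter.inter_mem h1 h2)
    exact ⟨K, L, hKc, hLc, hKn, fun y hy => (hKs hy).2, hLs, fun y hy => (hKs hy).1⟩
  choose K L hK hL hKn hKs hLs hKL using key
  obtain ⟨t, ht⟩ := CompactSpace.elim_nhds_subcover (fun x => interior (K x))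
    (fun x => interior_mem_nhds.2 (hKn x))
  let pt : Fin t.card → M := fun a => (t.equivFin.symm a : M)
  refine ⟨⟨t.card, fun a => chartAt (Er n) (pt a), fun a => chartAt (Er n) (f (pt a)),
    fun a => K (pt a), fun a => L (pt a), fun a => chart_mem_atlas _ _, fun a => chart_mem_atlas _ _,
    fun a => hK _, fun a => hKs _, fun a => hL _, fun a => hLs _, ?_⟩, ?_⟩
  · intro x
    have hx : x ∈ ⋃ y ∈ t, interior (K y) := by
      rw [ht]
      exact Set.mem_univ x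
    simp only [Set.mem_iUnion] at hx
    obtain ⟨y, hy, hxy⟩ := hx
    refine ⟨t.equivFin ⟨y, hy⟩, ?_⟩
    have : pt (t.equivFin ⟨y, hy⟩) = y := by
      simp [pt]
    rw [this]
    exact hxy
  · intro a x hx
    exact hKL _ x hx

/-- JOB R3. -/
theorem exists_inv (S : Sys n M) (f : Dif n M) (hf : S.Adm f) : ∃ δ : ℝ, 0 < δ ∧ S.Inv f δ := by
  have key : ∀ a : Fin S.N, ∃ δ : ℝ, 0 < δ ∧ ∀ x ∈ S.K a, ∀ A : Er n →L[ℝ] Er n,
      ‖A - fderiv ℝ (S.loc a f) (S.φ a x)‖ ≤ δ → LinearMap.det A.toLinearMap ≠ 0 := by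
    intro a
    have hcont : ContinuousOn (fun x => fderiv ℝ (S.loc a f) (S.φ a x)) (S.K a) := by
      intro x hx
      have h1 : ContDiffAt ℝ ∞ (S.loc a f) (S.φ a x) :=
        R3_smooth f.contMDiff (S.hφ a) (S.hψ a) (S.hKφ a hx) (S.hLψ a (hf a x hx))
      have h2 : ContDiffAt ℝ 0 (fderiv ℝ (S.loc a f)) (S.φ a x) :=
        h1.fderiv_right (by simp)
      have h3 : ContinuousAt (fun x => fderiv ℝ (S.loc a f) (S.φ a x)) x :=
        h2.continuousAt.comp ((S.φ a).continuousAt (S.hKφ a hx))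
      exact h3.continuousWithinAt
    have hcomp : IsCompact ((fun x => fderiv ℝ (S.loc a f) (S.φ a x)) '' S.K a) :=
      (S.hK a).image_of_continuousOn hcont
    have hopen : IsOpen {A : Er n →L[ℝ] Er n | LinearMap.det A.toLinearMap ≠ 0} := by
      have hc : Continuous (fun A : Er n →L[ℝ] Er n => LinearMap.det A.toLinearMap) :=
        ContinuousLinearMap.continuous_det
      exact isOpen_ne_fun hc continuous_const
    have hsub : ((fun x => fderiv ℝ (S.loc a f) (S.φ a x)) '' S.K a) ⊆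
        {A : Er n →L[ℝ] Er n | LinearMap.det A.toLinearMap ≠ 0} := by
      rintro _ ⟨x, hx, rfl⟩
      exact R3_det f (S.hφ a) (S.hψ a) (S.hKφ a hx) (S.hLψ a (hf a x hx))
    obtain ⟨δ, hδ, hδs⟩ := hcomp.exists_cthickening_subset_open hopen hsub
    refine ⟨δ, hδ, fun x hx A hA => ?_⟩
    apply hδs
    apply Metric.mem_cthickening_of_dist_le A _ δ _ (Set.mem_image_of_mem _ hx)
    rw [dist_eq_norm]
    exact hA
  choose δ hδ hA using key
  have hev : ∀ᶠ e in 𝓝[>] (0 : ℝ), ∀ a, e ≤ δ a := by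
    rw [Filter.eventually_all]
    intro a
    filter_upwards [Ioc_mem_nhdsGT (hδ a)] with e he
    exact he.2
  have hpos : ∀ᶠ e in 𝓝[>] (0 : ℝ), 0 < e := eventually_mem_nhdsWithin
  obtain ⟨e, he, he0⟩ := (hev.and hpos).exists
  exact ⟨e, he0, fun a x hx A hAe => hA a x hx A (hAe.trans (he a))⟩

end

end FB
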