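import Pool.Agent.H.MP_fb873c_an.R10
import Pool.Agent.H.MP_fb873c_an.R11
import Pool.Agent.H.MP_fb873c_an.R3

/-! # Part R: the Baire property of the C^infinity topology on the diffeomorphism group

Nested neighbourhoods defined by a fixed finite system `S` of pairs of charts. (R11b) -/

namespace FB

open scoped Topology ContDiff Manifold
open Filter

universe u v


section

variable {n : ℕ} {M : Type u} [MetricSpace M] [ChartedSpace (Er n) M] [IsManifold (𝓡 n) ∞ M]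
  [CompactSpace M]

/-- JOB R11.  Baire property (metric version). -/
theorem baire_metric (U : ℕ → Set (Dif n M)) (hU : ∀ i, IsOpen[crTop n M ⊤] (U i))
    (hd : ∀ i, @Dense _ (crTop n M ⊤) (U i)) : @Dense _ (crTop n M ⊤) (⋂ i, U i) := by
  letI T := crTop n M ⊤
  rw [dense_iff_inter_open]
  rintro V0 hV0 ⟨f0, hf0⟩
  obtain ⟨S, hS⟩ := exists_sys f0
  have hSa : S.Adm f0 := fun a x hx => interior_subset (hS a x hx)
  obtain ⟨δ, hδ, hInv⟩ := exists_inv S f0 hSa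
  obtain ⟨W, hWo, hWf, hW⟩ := sys_nbhd S f0 hS 1 δ hδ
  have step : ∀ (i : ℕ) (V : {V : Set (Dif n M) // IsOpen V ∧ V.Nonempty ∧ V ⊆ V0 ∩ W}),
      ∃ (V' : {V : Set (Dif n M) // IsOpen V ∧ V.Nonempty ∧ V ⊆ V0 ∩ W}) (g : Dif n M) (k : ℕ)
        (ε : ℝ), g ∈ V'.1 ∧ V'.1 ⊆ V.1 ∧ i ≤ k ∧ ε ≤ (1 / 2 : ℝ) ^ i ∧
        (∀ g' ∈ V'.1, S.Cl k ε g g' ∧ ∀ y, dist (g.symm (g' y)) y ≤ (1 / 2 : ℝ) ^ i) ∧
        ∀ g' : Dif n M, S.Adm g' → S.Cl k ε g g' → g' ∈ V.1 ∧ g' ∈ U i := by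
    intro i V
    obtain ⟨g, k, ε, V', h1, h2, h3, h4, h5, h6, h7⟩ := baire_step S V.1 (U i) V.2.1 V.2.2.1
      (fun g hg => (hW g (V.2.2.2 hg).2).1) (hU i) (hd i) i
    exact ⟨⟨V', h1, ⟨g, h2⟩, h3.trans V.2.2.2⟩, g, k, ε, h2, h3, h4, h5, h6, h7⟩
  choose F g k ε h1 h2 h3 h4 h5 h6 using step
  let V : ℕ → {V : Set (Dif n M) // IsOpen V ∧ V.Nonempty ∧ V ⊆ V0 ∩ W} := fun i =>
    Nat.rec ⟨V0 ∩ W, hV0.inter hWo, ⟨f0, hf0, hWf⟩, subset_rfl⟩ (fun i V => F i V) i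
  have hVs : ∀ i, (V (i + 1)).1 = (F i (V i)).1 := fun i => rfl
  have hanti : ∀ i j, i ≤ j → (V j).1 ⊆ (V i).1 := by
    intro i j hij
    induction j, hij using Nat.le_induction with
    | base => exact subset_rfl
    | succ j _ ih =>
      rw [hVs]
      exact (h2 j (V j)).trans ih
  have hg1 : ∀ i, g i (V i) ∈ (V (i + 1)).1 := fun i => h1 i (V i)
  have hgij : ∀ i j, i ≤ j → g j (V j) ∈ (F i (V i)).1 := by
    intro i j hij
    rw [← hVs]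
    exact hanti (i + 1) (j + 1) (by omega) (hg1 j)
  have hgW : ∀ i, g i (V i) ∈ W := fun i => ((V (i + 1)).2.2.2 (hg1 i)).2
  obtain ⟨G, hGa, hGc⟩ := exists_limit S f0 δ hInv (fun i => g i (V i)) (fun i => k i (V i))
    (fun i => ε i (V i)) (fun i => h3 i (V i)) (fun i => h4 i (V i))
    (fun i a x hx => interior_subset ((hW _ (hgW i)).1 a x hx))
    (fun i => (hW _ (hgW i)).2)
    (fun i j hij => (h5 i (V i) _ (hgij i j hij)).1)
    (fun i j hij => (h5 i (V i) _ (hgij i j hij)).2)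
  refine ⟨G, (((V 0).2.2.2) (h6 0 (V 0) G hGa (hGc 0)).1).1, Set.mem_iInter.2 fun i => ?_⟩
  exact (h6 i (V i) G hGa (hGc i)).2

end

end FB
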