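import Pool.Agent.H.MP_fb873c_an.R11b

/-! # Part R: the Baire property of the C^infinity topology on the diffeomorphism group

Nested neighbourhoods defined by a fixed finite system `S` of pairs of charts. (R12) -/

namespace FB

open scoped Topology ContDiff Manifold
open Filter

universe u v


section

variable {n : ℕ} {M : Type u} [TopologicalSpace M] [ChartedSpace (Er n) M] [IsManifold (𝓡 n) ∞ M]
  [CompactSpace M] [T2Space M]

/-- JOB R12.  Baire property (choose a metric: `M` is compact, Hausdorff and second countable,
`ChartedSpace.secondCountable_of_sigmaCompact`, `TopologicalSpace.metrizableSpaceMetric`). -/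
theorem baire_crTop (U : ℕ → Set (Dif n M)) (hU : ∀ i, IsOpen[crTop n M ⊤] (U i))
    (hd : ∀ i, @Dense _ (crTop n M ⊤) (U i)) : @Dense _ (crTop n M ⊤) (⋂ i, U i) := by
  have : SecondCountableTopology M := ChartedSpace.secondCountable_of_sigmaCompact (Er n) M
  have : TopologicalSpace.MetrizableSpace M := inferInstance
  exact @baire_metric n M (TopologicalSpace.metrizableSpaceMetric M) ‹_› ‹_› ‹_› U hU hd

end

end FB
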