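import Pool.Agent.H.MP_fb873c_an.R1
import Pool.Agent.H.MP_fb873c_an.S0

/-! # Part R: the Baire property of the C^infinity topology on the diffeomorphism group

Nested neighbourhoods defined by a fixed finite system `S` of pairs of charts. (R2) -/

namespace FB

open scoped Topology ContDiff Manifold
open Filter

universe u v


section

variable {n : ℕ} {M : Type u} [TopologicalSpace M] [ChartedSpace (Er n) M] [IsManifold (𝓡 n) ∞ M]

private theorem R2_contDiffAt {α β : OpenPartialHomeomorph M (Er n)} (hα : α ∈ atlas (Er n) M)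
    (hβ : β ∈ atlas (Er n) M) {F : M → M} (hF : ContMDiff (𝓡 n) (𝓡 n) ∞ F) {p : M}
    (hp : p ∈ α.source) (hq : F p ∈ β.source) :
    ContDiffAt ℝ ∞ (β ∘ F ∘ α.symm) (α p) := by
  have h1 : ContMDiffAt (𝓡 n) (𝓡 n) ∞ α.symm (α p) :=
    contMDiffAt_symm_of_mem_maximalAtlas (IsManifold.subset_maximalAtlas hα) (α.map_source hp)
  have h2 : ContMDiffAt (𝓡 n) (𝓡 n) ∞ F (α.symm (α p)) := hF _
  have h3 : ContMDiffAt (𝓡 n) (𝓡 n) ∞ β ((F ∘ α.symm) (α p)) := by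
    refine contMDiffAt_of_mem_maximalAtlas (IsManifold.subset_maximalAtlas hβ) ?_
    rw [Function.comp_apply, α.left_inv hp]
    exact hq
  exact contMDiffAt_iff_contDiffAt.mp (h3.comp (α p) (h2.comp (α p) h1))

omit [IsManifold (𝓡 n) ∞ M] in
private theorem R2_ev {φ ψ φ' ψ' : OpenPartialHomeomorph M (Er n)} {F : M → M} (hF : Continuous F)
    {p : M} (h1 : p ∈ φ.source) (h2 : p ∈ φ'.source) (h3 : F p ∈ ψ.source) :
    (ψ' ∘ F ∘ φ'.symm) =ᶠ[𝓝 (φ' p)]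
      ((ψ' ∘ ψ.symm) ∘ ((ψ ∘ F ∘ φ.symm) ∘ (φ ∘ φ'.symm))) := by
  have hs : φ'.symm (φ' p) = p := φ'.left_inv h2
  have hc : ContinuousAt φ'.symm (φ' p) := φ'.continuousAt_symm (φ'.map_source h2)
  have e1 : ∀ᶠ y in 𝓝 (φ' p), φ'.symm y ∈ φ.source := by
    refine hc.eventually (φ.open_source.mem_nhds ?_)
    rw [hs]
    exact h1
  have e2 : ∀ᶠ y in 𝓝 (φ' p), F (φ'.symm y) ∈ ψ.source := by
    have hc2 : ContinuousAt (F ∘ φ'.symm) (φ' p) := hF.continuousAt.comp hc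
    refine hc2.eventually (ψ.open_source.mem_nhds ?_)
    rw [Function.comp_apply, hs]
    exact h3
  filter_upwards [e1, e2] with y hy1 hy2
  simp only [Function.comp_apply]
  rw [φ.left_inv hy1, ψ.left_inv hy2]

/-- JOB R2.  Change of charts for converging jets.  `g i → g` in the charts `φ, ψ` along the points `x i → x0`
(jets up to order `k`, in particular `ψ (g i (x i)) → ψ (g x0)`), `x0 ∈ dom φ ∩ dom φ'`, `g x0 ∈ dom ψ ∩ dom ψ'` and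
`g i (x i) ∈ dom ψ`.  Then the same holds in the charts `φ', ψ'`, and `g i (x i) ∈ dom ψ'` eventually.
(`jet_comp` twice, with the transition maps `ψ' ψ⁻¹` and `φ φ'⁻¹`; near `φ' (x i)` the map `ψ' g φ'⁻¹` is
`(ψ' ψ⁻¹)(ψ g φ⁻¹)(φ φ'⁻¹)`.) -/
theorem jets_change {ι : Type*} {l : Filter ι} {φ ψ φ' ψ' : OpenPartialHomeomorph M (Er n)}
    (hφ : φ ∈ atlas (Er n) M) (hψ : ψ ∈ atlas (Er n) M) (hφ' : φ' ∈ atlas (Er n) M)
    (hψ' : ψ' ∈ atlas (Er n) M) (g : ι → Dif n M) (G : M → M) (hG : ContMDiff (𝓡 n) (𝓡 n) ∞ G)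
    (x : ι → M) (x0 : M) (hx : Tendsto x l (𝓝 x0)) (h1 : x0 ∈ φ.source) (h2 : x0 ∈ φ'.source)
    (h3 : G x0 ∈ ψ.source) (h4 : G x0 ∈ ψ'.source) (h5 : ∀ᶠ i in l, g i (x i) ∈ ψ.source) (k : ℕ)
    (hj : ∀ j ≤ k, Tendsto (fun i => iteratedFDeriv ℝ j (ψ ∘ g i ∘ φ.symm) (φ (x i))) l
      (𝓝 (iteratedFDeriv ℝ j (ψ ∘ G ∘ φ.symm) (φ x0)))) :
    (∀ᶠ i in l, g i (x i) ∈ ψ'.source) ∧
    ∀ j ≤ k, Tendsto (fun i => iteratedFDeriv ℝ j (ψ' ∘ g i ∘ φ'.symm) (φ' (x i))) l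
      (𝓝 (iteratedFDeriv ℝ j (ψ' ∘ G ∘ φ'.symm) (φ' x0))) := by
  have hid : ContMDiff (𝓡 n) (𝓡 n) ∞ (id : M → M) := contMDiff_id
  have hxφ : ∀ᶠ i in l, x i ∈ φ.source := hx.eventually (φ.open_source.mem_nhds h1)
  have hxφ' : ∀ᶠ i in l, x i ∈ φ'.source := hx.eventually (φ'.open_source.mem_nhds h2)
  have hφ'x : Tendsto (fun i => φ' (x i)) l (𝓝 (φ' x0)) := (φ'.continuousAt h2).tendsto.comp hx
  -- the transition maps
  have hT1 : ∀ p, p ∈ φ.source → p ∈ φ'.source → ContDiffAt ℝ ∞ (φ ∘ φ'.symm) (φ' p) :=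
    fun p hp hp' => R2_contDiffAt hφ' hφ hid hp' hp
  have hC : ∀ p, p ∈ ψ.source → p ∈ ψ'.source → ContDiffAt ℝ ∞ (ψ' ∘ ψ.symm) (ψ p) :=
    fun p hp hp' => R2_contDiffAt hψ hψ' hid hp hp'
  have hTv : ∀ p, p ∈ φ'.source → (φ ∘ φ'.symm) (φ' p) = φ p := by
    intro p hp
    rw [Function.comp_apply, φ'.left_inv hp]
  have hBv : ∀ (F : M → M) (p : M), p ∈ φ.source → p ∈ φ'.source →
      ((ψ ∘ F ∘ φ.symm) ∘ (φ ∘ φ'.symm)) (φ' p) = ψ (F p) := by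
    intro F p hp hp'
    simp only [Function.comp_apply]
    rw [φ'.left_inv hp', φ.left_inv hp]
  have hkk : (k : WithTop ℕ∞) ≤ ∞ := by exact_mod_cast le_top
  -- first composition
  have step1 : ∀ j ≤ k, Tendsto
      (fun i => iteratedFDeriv ℝ j ((ψ ∘ g i ∘ φ.symm) ∘ (φ ∘ φ'.symm)) (φ' (x i))) l
      (𝓝 (iteratedFDeriv ℝ j ((ψ ∘ G ∘ φ.symm) ∘ (φ ∘ φ'.symm)) (φ' x0))) := by
    refine jet_comp k (fun _ => φ ∘ φ'.symm) (φ ∘ φ'.symm) (fun i => φ' (x i)) (φ' x0)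
      (fun i => ψ ∘ g i ∘ φ.symm) (ψ ∘ G ∘ φ.symm) ?_ ?_ ?_ ?_ ?_ ?_
    · filter_upwards [hxφ, hxφ'] with i hi hi'
      exact (hT1 _ hi hi').of_le hkk
    · exact (hT1 _ h1 h2).of_le hkk
    · filter_upwards [hxφ, hxφ', h5] with i hi hi' hi5
      rw [hTv _ hi']
      exact (R2_contDiffAt hφ hψ (g i).contMDiff hi hi5).of_le hkk
    · rw [hTv _ h2]
      exact (R2_contDiffAt hφ hψ hG h1 h3).of_le hkk
    · intro j _
      exact jet_tendsto _ _ _ (hT1 _ h1 h2) hφ'x j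
    · intro j hjk
      rw [hTv _ h2]
      refine (hj j hjk).congr' ?_
      filter_upwards [hxφ'] with i hi'
      rw [hTv _ hi']
  -- the values
  have hval : Tendsto (fun i => ((ψ ∘ g i ∘ φ.symm) ∘ (φ ∘ φ'.symm)) (φ' (x i))) l
      (𝓝 (((ψ ∘ G ∘ φ.symm) ∘ (φ ∘ φ'.symm)) (φ' x0))) := by
    have h0 := step1 0 (Nat.zero_le k)
    have h6 := ((continuousMultilinearCurryFin0 ℝ (Er n) (Er n)).continuous.tendsto _).comp h0
    simpa only [iteratedFDeriv_zero_eq_comp, Function.comp_def,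
      LinearIsometryEquiv.apply_symm_apply] using h6
  have hval2 : Tendsto (fun i => ψ (g i (x i))) l (𝓝 (ψ (G x0))) := by
    rw [hBv G x0 h1 h2] at hval
    refine hval.congr' ?_
    filter_upwards [hxφ, hxφ'] with i hi hi'
    exact hBv (g i) (x i) hi hi'
  have hgx : Tendsto (fun i => g i (x i)) l (𝓝 (G x0)) := by
    have h6 := ((ψ.continuousAt_symm (ψ.map_source h3)).tendsto).comp hval2
    rw [ψ.left_inv h3] at h6
    refine h6.congr' ?_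
    filter_upwards [h5] with i hi
    exact ψ.left_inv hi
  have h6 : ∀ᶠ i in l, g i (x i) ∈ ψ'.source := hgx.eventually (ψ'.open_source.mem_nhds h4)
  refine ⟨h6, ?_⟩
  -- second composition
  have step2 : ∀ j ≤ k, Tendsto
      (fun i => iteratedFDeriv ℝ j ((ψ' ∘ ψ.symm) ∘ ((ψ ∘ g i ∘ φ.symm) ∘ (φ ∘ φ'.symm)))
        (φ' (x i))) l
      (𝓝 (iteratedFDeriv ℝ j ((ψ' ∘ ψ.symm) ∘ ((ψ ∘ G ∘ φ.symm) ∘ (φ ∘ φ'.symm)))
        (φ' x0))) := by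
    refine jet_comp k (fun i => (ψ ∘ g i ∘ φ.symm) ∘ (φ ∘ φ'.symm))
      ((ψ ∘ G ∘ φ.symm) ∘ (φ ∘ φ'.symm)) (fun i => φ' (x i)) (φ' x0)
      (fun _ => ψ' ∘ ψ.symm) (ψ' ∘ ψ.symm) ?_ ?_ ?_ ?_ step1 ?_
    · filter_upwards [hxφ, hxφ', h5] with i hi hi' hi5
      refine ContDiffAt.comp _ ?_ ((hT1 _ hi hi').of_le hkk)
      rw [hTv _ hi']
      exact (R2_contDiffAt hφ hψ (g i).contMDiff hi hi5).of_le hkk
    · refine ContDiffAt.comp _ ?_ ((hT1 _ h1 h2).of_le hkk)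
      rw [hTv _ h2]
      exact (R2_contDiffAt hφ hψ hG h1 h3).of_le hkk
    · filter_upwards [hxφ, hxφ', h5, h6] with i hi hi' hi5 hi6
      rw [hBv _ _ hi hi']
      exact (hC _ hi5 hi6).of_le hkk
    · rw [hBv _ _ h1 h2]
      exact (hC _ h3 h4).of_le hkk
    · intro j _
      refine jet_tendsto _ _ _ ?_ hval j
      rw [hBv _ _ h1 h2]
      exact hC _ h3 h4
  intro j hjk
  have e0 := ((R2_ev (ψ' := ψ') hG.continuous h1 h2 h3).iteratedFDeriv (𝕜 := ℝ) j).eq_of_nhds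
  rw [e0]
  refine (step2 j hjk).congr' ?_
  filter_upwards [hxφ, hxφ', h5] with i hi hi' hi5
  exact ((R2_ev (ψ' := ψ') (g i).continuous hi hi' hi5).iteratedFDeriv (𝕜 := ℝ) j).eq_of_nhds.symm

end

end FB
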