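import Pool.Agent.H.MP_fb873c_an.D2d
import Pool.Agent.H.MP_fb873c_an.Ro

/-! # Part R: the Baire property of the C^infinity topology on the diffeomorphism group

Nested neighbourhoods defined by a fixed finite system `S` of pairs of charts. (R4) -/

namespace FB

open scoped Topology ContDiff Manifold
open Filter

universe u v


section

variable {n : ℕ} {M : Type u} [TopologicalSpace M] [ChartedSpace (Er n) M] [IsManifold (𝓡 n) ∞ M]
  [CompactSpace M] [T2Space M]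

/-- JOB R4. The sets `{Adm', Cl}` are neighbourhoods (`isOpen_mapsTo`, `cnbhd`). -/
theorem sys_nbhd (S : Sys n M) (g : Dif n M) (hg : S.Adm' g) (k : ℕ) (ε : ℝ) (hε : 0 < ε) :
    ∃ V : Set (Dif n M), IsOpen[crTop n M ⊤] V ∧ g ∈ V ∧ ∀ g' ∈ V, S.Adm' g' ∧ S.Cl k ε g g' := by
  have h1 : ∀ a, IsOpen[crTop n M ⊤] {g' : Dif n M | ∀ x ∈ S.K a, g' x ∈ interior (S.L a)} :=
    fun a => isOpen_mapsTo ⊤ (S.hK a) isOpen_interior
  have h2 : ∀ a, IsOpen[crTop n M ⊤] (cnbhd k g (S.φ a) (S.ψ a) (S.K a) ε) := fun a =>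
    TopologicalSpace.isOpen_generateFrom_of_mem ⟨k, g, S.φ a, S.ψ a, S.K a, ε, le_top, S.hφ a,
      S.hψ a, S.hK a, S.hKφ a, fun x hx => S.hLψ a (interior_subset (hg a x hx)), hε, rfl⟩
  letI := crTop n M ⊤
  refine ⟨⋂ a, ({g' : Dif n M | ∀ x ∈ S.K a, g' x ∈ interior (S.L a)} ∩
    cnbhd k g (S.φ a) (S.ψ a) (S.K a) ε), ?_, ?_, ?_⟩
  · exact isOpen_iInter_of_finite fun a => (h1 a).inter (h2 a)
  · refine Set.mem_iInter.2 fun a => ⟨hg a, fun x hx => S.hLψ a (interior_subset (hg a x hx)), ?_⟩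
    intro j _ x _
    rw [sub_self, norm_zero]
    exact hε
  · intro g' hg'
    rw [Set.mem_iInter] at hg'
    exact ⟨fun a x hx => (hg' a).1 x hx, fun a x hx j hj => ((hg' a).2.2 j hj x hx).le⟩

end

end FB
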