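import Pool.Agent.H.MP_fb873c_an.R2
import Pool.Agent.H.MP_fb873c_an.Ro

/-! # Part R: the Baire property of the C^infinity topology on the diffeomorphism group

Nested neighbourhoods defined by a fixed finite system `S` of pairs of charts. (R5) -/

namespace FB

open scoped Topology ContDiff Manifold
open Filter

universe u v


section

variable {n : ℕ} {M : Type u} [TopologicalSpace M] [ChartedSpace (Er n) M] [IsManifold (𝓡 n) ∞ M]
  [CompactSpace M] [T2Space M]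

/-- Smooth maps are smooth in charts of the atlas. -/
theorem R5_chart {F : M → M} (hF : ContMDiff (𝓡 n) (𝓡 n) ∞ F) {φ ψ : OpenPartialHomeomorph M (Er n)}
    (hφ : φ ∈ atlas (Er n) M) (hψ : ψ ∈ atlas (Er n) M) (p : M) (h0 : p ∈ φ.source)
    (h1 : F p ∈ ψ.source) : ContDiffAt ℝ ∞ (ψ ∘ F ∘ φ.symm) (φ p) := by
  have hφ' : φ ∈ IsManifold.maximalAtlas (𝓡 n) ∞ M := IsManifold.subset_maximalAtlas hφ
  have hψ' : ψ ∈ IsManifold.maximalAtlas (𝓡 n) ∞ M := IsManifold.subset_maximalAtlas hψ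
  have h := ((contMDiffAt_iff_of_mem_maximalAtlas hφ' hψ' h0 h1).1 (hF p)).2
  simpa [mfld_simps, contDiffWithinAt_univ] using h

/-- JOB R5.  The case of a subbasic set.  By contradiction: otherwise there are an ultrafilter on `Dif n M` along which
`g' → g` in all charts of `S` to all orders (the filter generated by the sets `{Adm, Cl k ε g}`), points
`x g' ∈ K` converging to `x0 ∈ K` and a fixed `j ≤ r` with `g' (x g') ∉ ψ.source` or
`‖D^j(ψ g' φ⁻¹) - D^j(ψ f φ⁻¹)‖ ≥ ε` at `φ (x g')`.  `x0 ∈ interior (K a)` for some `a`; the jets of `g'` in the charts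
`φ a, ψ a` at `x g'` converge to those of `g` at `x0` (`jet_tendsto` for `g`), so `jets_change` applies. -/
theorem sys_cnbhd (S : Sys n M) (g : Dif n M) (hg : S.Adm g) (r : ℕ) (f : Dif n M)
    (φ ψ : OpenPartialHomeomorph M (Er n)) (hφ : φ ∈ atlas (Er n) M) (hψ : ψ ∈ atlas (Er n) M)
    (K : Set M) (hK : IsCompact K) (hKφ : K ⊆ φ.source) (hf : ∀ x ∈ K, f x ∈ ψ.source) (ε : ℝ)
    (hε : 0 < ε) (hgW : g ∈ cnbhd r f φ ψ K ε) :
    ∃ (k : ℕ) (η : ℝ), 0 < η ∧ ∀ g' : Dif n M, S.Adm g' → S.Cl k η g g' → g' ∈ cnbhd r f φ ψ K ε := by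
  by_contra hcon
  push Not at hcon
  have hpos : ∀ m : ℕ, (0 : ℝ) < 1 / ((m : ℝ) + 1) := fun m => by positivity
  choose G hGA hGC hGn using fun m : ℕ => hcon m (1 / ((m : ℝ) + 1)) (hpos m)
  have hex : ∀ m : ℕ, ∃ x ∈ K, G m x ∉ ψ.source ∨ ∃ j ≤ r,
      ε ≤ ‖iteratedFDeriv ℝ j (ψ ∘ G m ∘ φ.symm) (φ x) - iteratedFDeriv ℝ j (ψ ∘ f ∘ φ.symm) (φ x)‖ := by
    intro m
    by_contra h
    push Not at h
    exact hGn m ⟨fun x hx => (h x hx).1, fun j hj x hx => (h x hx).2 j hj⟩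
  choose x hxK hx using hex
  set U : Ultrafilter ℕ := hyperfilter ℕ with hU
  have hUt : (U : Filter ℕ) ≤ atTop := Nat.hyperfilter_le_atTop
  obtain ⟨x0, hx0K, hx0⟩ := hK.ultrafilter_le_nhds (U.map x)
    (by
      rw [le_principal_iff]
      exact Filter.Eventually.of_forall (f := (U : Filter ℕ)) hxK)
  have hxt : Tendsto x (U : Filter ℕ) (𝓝 x0) := hx0
  obtain ⟨a, ha⟩ := S.cover x0
  have hxa : ∀ᶠ m in (U : Filter ℕ), x m ∈ S.K a := by
    filter_upwards [hxt.eventually (isOpen_interior.mem_nhds ha)] with m hm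
    exact interior_subset hm
  have hx0a : x0 ∈ S.K a := interior_subset ha
  have h1 : x0 ∈ (S.φ a).source := S.hKφ a hx0a
  have h2 : x0 ∈ φ.source := hKφ hx0K
  have h3 : g x0 ∈ (S.ψ a).source := S.hLψ a (hg a x0 hx0a)
  have h4 : g x0 ∈ ψ.source := hgW.1 x0 hx0K
  have h5 : ∀ᶠ m in (U : Filter ℕ), G m (x m) ∈ (S.ψ a).source := by
    filter_upwards [hxa] with m hm
    exact S.hLψ a (hGA m a (x m) hm)
  have hφx : Tendsto (fun m => S.φ a (x m)) (U : Filter ℕ) (𝓝 (S.φ a x0)) :=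
    ((S.φ a).continuousAt h1).tendsto.comp hxt
  have h0 : Tendsto (fun m : ℕ => 1 / ((m : ℝ) + 1)) (U : Filter ℕ) (𝓝 0) :=
    tendsto_one_div_add_atTop_nhds_zero_nat.mono_left hUt
  have hj : ∀ j ≤ r, Tendsto (fun m => iteratedFDeriv ℝ j (S.ψ a ∘ G m ∘ (S.φ a).symm) (S.φ a (x m)))
      (U : Filter ℕ) (𝓝 (iteratedFDeriv ℝ j (S.ψ a ∘ g ∘ (S.φ a).symm) (S.φ a x0))) := by
    intro j hjr
    have e1 := jet_tendsto (S.ψ a ∘ g ∘ (S.φ a).symm) (fun m => S.φ a (x m)) (S.φ a x0)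
      (R5_chart g.contMDiff (S.hφ a) (S.hψ a) x0 h1 h3) hφx j
    refine e1.congr_dist ?_
    refine squeeze_zero' (Filter.Eventually.of_forall fun m => dist_nonneg) ?_ h0
    filter_upwards [hxa, hUt (eventually_ge_atTop j)] with m hm hjm
    rw [dist_comm, dist_eq_norm]
    exact hGC m a (x m) hm j hjm
  obtain ⟨e1, e2⟩ := jets_change (S.hφ a) (S.hψ a) hφ hψ G g g.contMDiff x x0 hxt h1 h2 h3 h4 h5 r hj
  have hφx' : Tendsto (fun m => φ (x m)) (U : Filter ℕ) (𝓝 (φ x0)) :=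
    (φ.continuousAt h2).tendsto.comp hxt
  have e3 : ∀ j ∈ Set.Iic r, ∀ᶠ m in (U : Filter ℕ),
      ‖iteratedFDeriv ℝ j (ψ ∘ G m ∘ φ.symm) (φ (x m)) -
        iteratedFDeriv ℝ j (ψ ∘ f ∘ φ.symm) (φ (x m))‖ < ε := by
    intro j hjr
    have e4 := jet_tendsto (ψ ∘ f ∘ φ.symm) (fun m => φ (x m)) (φ x0)
      (R5_chart f.contMDiff hφ hψ x0 h2 (hf x0 hx0K)) hφx' j
    exact ((e2 j hjr).sub e4).norm.eventually (gt_mem_nhds (hgW.2 j hjr x0 hx0K))
  have e5 := (Filter.eventually_all_finite (Set.finite_Iic r)).2 e3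
  obtain ⟨m, hm1, hm2⟩ := (e1.and e5).exists
  rcases hx m with h | ⟨j, hjr, h⟩
  · exact h hm1
  · exact absurd (hm2 j hjr) (not_lt.2 h)

end

end FB
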