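import Pool.Agent.H.MP_fb873c_an.Ro
import Pool.Agent.H.MP_fb873c_an.R1
import Pool.Agent.H.MP_fb873c_an.R2
import Pool.Agent.H.MP_fb873c_an.R3
import Pool.Agent.H.MP_fb873c_an.R4
import Pool.Agent.H.MP_fb873c_an.R4b
import Pool.Agent.H.MP_fb873c_an.R5
import Pool.Agent.H.MP_fb873c_an.R6
import Pool.Agent.H.MP_fb873c_an.R7
import Pool.Agent.H.MP_fb873c_an.R8
import Pool.Agent.H.MP_fb873c_an.R9
import Pool.Agent.H.MP_fb873c_an.R10
import Pool.Agent.H.MP_fb873c_an.R11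
import Pool.Agent.H.MP_fb873c_an.R11b
import Pool.Agent.H.MP_fb873c_an.R12
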