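import Pool.Agent.H.MP_fb873c_an.T0

/-! Part T1b: cyclicity -/

namespace FB

open MeasureTheory

section

variable {V V' V'' : Type*}
  [NormedAddCommGroup V] [NormedSpace ℂ V] [CompleteSpace V]
  [NormedAddCommGroup V'] [NormedSpace ℂ V'] [CompleteSpace V']
  [NormedAddCommGroup V''] [NormedSpace ℂ V''] [CompleteSpace V'']

theorem T1b_int {T : Type*} [TopologicalSpace T] [CompactSpace T] [SecondCountableTopology T]
    [MeasurableSpace T] [OpensMeasurableSpace T] {μ : Measure T} [IsFiniteMeasure μ]
    {E : Type*} [NormedAddCommGroup E] {f : T → E} (hf : Continuous f) : Integrable f μ :=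
  hf.integrable_of_hasCompactSupport (HasCompactSupport.of_compactSpace f)

/-- The value of one functional on the image. -/
theorem T1b_apply {A : V →L[ℂ] V'} (D : Nuc A) (l : V' →L[ℂ] ℂ) (v : V) :
    l (A v) = ∫ u, D.l u v * l (D.a u) ∂D.μ := by
  have h1 : Continuous (fun u => D.l u v • D.a u) :=
    (D.hl.comp (continuous_id.prodMk continuous_const)).smul D.ha
  rw [D.eq v, ← ContinuousLinearMap.integral_comp_comm l (T1b_int h1)]
  congr 1
  funext u
  rw [map_smul, smul_eq_mul]

/-- JOB T1b.  Cyclicity: both sides are `∫∫ l_t(a'_u) l'_u(a_t) dμ' dμ` (continuous integrand on the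
compact second countable space `T × T'`, finite measures: Fubini `MeasureTheory.integral_integral_swap`;
`B (a_t) = ∫ l'_u(a_t) a'_u` and the bounded functional `l_t` commutes with the Bochner integral). -/
theorem trN_cyc {A : V →L[ℂ] V'} {B : V' →L[ℂ] V} (D : Nuc A) (D' : Nuc B) :
    trN D B = trN D' A := by
  unfold trN
  have e1 : (fun t => D.l t (B (D.a t))) =
      fun t => ∫ u, D'.l u (D.a t) * D.l t (D'.a u) ∂D'.μ := by
    funext t
    exact T1b_apply D' (D.l t) (D.a t)
  have e2 : (fun u => D'.l u (A (D'.a u))) =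
      fun u => ∫ t, D'.l u (D.a t) * D.l t (D'.a u) ∂D.μ := by
    funext u
    rw [T1b_apply D (D'.l u) (D'.a u)]
    congr 1
    funext t
    rw [mul_comm]
  rw [e1, e2]
  refine integral_integral_swap ?_
  have h1 : Continuous (fun p : D.T × D'.T => D'.l p.2 (D.a p.1)) :=
    D'.hl.comp (continuous_snd.prodMk (D.ha.comp continuous_fst))
  have h2 : Continuous (fun p : D.T × D'.T => D.l p.1 (D'.a p.2)) :=
    D.hl.comp (continuous_fst.prodMk (D'.ha.comp continuous_snd))
  exact T1b_int (h1.mul h2)

/-- Independence of the data. -/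
theorem trN_congr {A : V →L[ℂ] V'} {B : V' →L[ℂ] V} (D D₂ : Nuc A) (D' : Nuc B) :
    trN D B = trN D₂ B := by
  rw [trN_cyc D D', trN_cyc D₂ D']

end

end FB
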