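import Pool.Agent.H.MP_fb873c_an.T0

/-! Part T1d: finite rank -/

namespace FB

open MeasureTheory

section

variable {V V' V'' : Type*}
  [NormedAddCommGroup V] [NormedSpace ℂ V] [CompleteSpace V]
  [NormedAddCommGroup V'] [NormedSpace ℂ V'] [CompleteSpace V']
  [NormedAddCommGroup V''] [NormedSpace ℂ V''] [CompleteSpace V'']

/-- the coordinate functionals of a finite dimensional space, as bounded functionals -/
noncomputable def T1d_co (N : Type*) [NormedAddCommGroup N] [NormedSpace ℂ N]
    [FiniteDimensional ℂ N] (i : Fin (Module.finrank ℂ N)) : N →L[ℂ] ℂ :=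
  LinearMap.toContinuousLinearMap ((Module.finBasis ℂ N).coord i)

theorem T1d_co_apply {N : Type*} [NormedAddCommGroup N] [NormedSpace ℂ N]
    [FiniteDimensional ℂ N] (i : Fin (Module.finrank ℂ N)) (v : N) :
    T1d_co N i v = (Module.finBasis ℂ N).repr v i := rfl

theorem T1d_sum {N : Type*} [NormedAddCommGroup N] [NormedSpace ℂ N]
    [FiniteDimensional ℂ N] (v : N) :
    ∑ i, T1d_co N i v • (Module.finBasis ℂ N) i = v :=
  (Module.finBasis ℂ N).sum_repr v

omit [CompleteSpace V] in
/-- JOB T1d.  Operators through a finite dimensional space are nuclear: `T = Fin r` with the counting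
measure, `a i = j (e i)`, `l i = e_i^* ∘ π'` for a basis `e` of `N`. -/
theorem nuc_finrank {N : Type*} [NormedAddCommGroup N] [NormedSpace ℂ N] [FiniteDimensional ℂ N]
    (j : N →L[ℂ] V') (π' : V →L[ℂ] N) : Nonempty (Nuc (j.comp π')) := by
  refine ⟨{ T := Fin (Module.finrank ℂ N)
            μ := Measure.count
            a := fun i => j ((Module.finBasis ℂ N) i)
            ha := continuous_of_discreteTopology
            l := fun i => (T1d_co N i).comp π'
            hl := ?_
            eq := ?_ }⟩
  · rw [continuous_prod_of_discrete_left]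
    intro i
    exact ((T1d_co N i).comp π').continuous
  · intro v
    rw [integral_count]
    show j (π' v) = ∑ i, T1d_co N i (π' v) • j ((Module.finBasis ℂ N) i)
    conv_lhs => rw [← T1d_sum (π' v)]
    rw [map_sum]
    refine Finset.sum_congr rfl fun i _ => ?_
    rw [map_smul]

omit [CompleteSpace V] in
/-- JOB T1d.  Trace against an operator through a finite dimensional space: with a basis `e_i` of `N`,
`π' (a_t) = ∑ e_i^*(π' a_t) e_i`, so `∫ l_t (j π' a_t) = ∑_i e_i^*(π' ∫ l_t(j e_i) a_t) =
∑_i e_i^* (π' A j e_i)`. -/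
theorem trN_finrank {A : V →L[ℂ] V'} (D : Nuc A)
    {N : Type*} [NormedAddCommGroup N] [NormedSpace ℂ N] [FiniteDimensional ℂ N]
    (j : N →L[ℂ] V) (π' : V' →L[ℂ] N) :
    trN D (j.comp π') = LinearMap.trace ℂ N ((π'.comp (A.comp j) : N →L[ℂ] N) : N →ₗ[ℂ] N) := by
  have hlc : ∀ v : V, Continuous fun t => D.l t v := fun v =>
    D.hl.comp (continuous_id.prodMk continuous_const)
  have hi : ∀ v : V, Integrable (fun t => D.l t v • D.a t) D.μ := fun v =>
    ((hlc v).smul D.ha).integrable_of_hasCompactSupport (HasCompactSupport.of_compactSpace _)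
  have h1 : ∀ i, (T1d_co N i) (π' (A (j ((Module.finBasis ℂ N) i)))) =
      ∫ t, T1d_co N i (π' (D.a t)) * D.l t (j ((Module.finBasis ℂ N) i)) ∂D.μ := by
    intro i
    rw [D.eq]
    have h2 := ((T1d_co N i).comp π').integral_comp_comm (hi (j ((Module.finBasis ℂ N) i)))
    show ((T1d_co N i).comp π') (∫ t, D.l t (j ((Module.finBasis ℂ N) i)) • D.a t ∂D.μ) = _
    rw [← h2]
    refine integral_congr_ae (Filter.Eventually.of_forall fun t => ?_)
    show (T1d_co N i) (π' (D.l t (j ((Module.finBasis ℂ N) i)) • D.a t)) = _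
    rw [map_smul, map_smul, smul_eq_mul, mul_comm]
  have h3 : trN D (j.comp π') =
      ∫ t, ∑ i, T1d_co N i (π' (D.a t)) * D.l t (j ((Module.finBasis ℂ N) i)) ∂D.μ := by
    unfold trN
    refine integral_congr_ae (Filter.Eventually.of_forall fun t => ?_)
    show D.l t (j (π' (D.a t))) = _
    conv_lhs => rw [← T1d_sum (π' (D.a t))]
    rw [map_sum, map_sum]
    refine Finset.sum_congr rfl fun i _ => ?_
    rw [map_smul, map_smul, smul_eq_mul]
  rw [h3, integral_finsetSum]
  · rw [LinearMap.trace_eq_matrix_trace ℂ (Module.finBasis ℂ N), Matrix.trace]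
    refine Finset.sum_congr rfl fun i _ => ?_
    rw [← h1 i, Matrix.diag_apply, LinearMap.toMatrix_apply]
    rfl
  · intro i _
    have hc : Continuous fun t => T1d_co N i (π' (D.a t)) * D.l t (j ((Module.finBasis ℂ N) i)) :=
      (((T1d_co N i).comp π').continuous.comp D.ha).mul (hlc _)
    exact hc.integrable_of_hasCompactSupport (HasCompactSupport.of_compactSpace _)

end

end FB
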