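import Pool.Agent.H.MP_fb873c_an.T1a

/-! Part T1e: nuclear operators are compact -/

namespace FB

open MeasureTheory

section

variable {V V' V'' : Type*}
  [NormedAddCommGroup V] [NormedSpace ℂ V] [CompleteSpace V]
  [NormedAddCommGroup V'] [NormedSpace ℂ V'] [CompleteSpace V']
  [NormedAddCommGroup V''] [NormedSpace ℂ V''] [CompleteSpace V'']

/-- JOB T1e.  A nuclear operator is compact.  Given `ε`, cover the compact set `a(T)` by finitely many
`ε`-balls around `a(t_1),…,a(t_r)`; `T` is the disjoint union of measurable sets `T_j` with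
`‖a_t - a_{t_j}‖ < ε` on `T_j`; the finite rank operator `v ↦ ∑_j (∫_{T_j} l_t v dμ) a_{t_j}` is within
`ε C μ(T)` of `A`.  Finite rank operators are compact and compact operators are closed
(`isClosed_setOf_isCompactOperator`). -/
theorem nuc_compact {A : V →L[ℂ] V'} (D : Nuc A) : IsCompactOperator A := by
  obtain ⟨C, hC0, hCa, hCl⟩ := D.bounds
  rcases eq_or_ne D.μ 0 with h0 | h0
  · have h1 : (A : V → V') = 0 := by
      funext v
      rw [D.eq v, h0, integral_zero_measure]
      rfl
    rw [h1]
    exact isCompactOperator_zero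
  · have : NeZero D.μ := ⟨h0⟩
    let : NormedSpace ℝ V' := NormedSpace.restrictScalars ℝ ℂ V'
    set K0 : Set V' := (fun p : ℂ × D.T => p.1 • D.a p.2) ''
      (Metric.closedBall (0 : ℂ) C ×ˢ Set.univ) with hK0
    have hK0c : IsCompact K0 := by
      refine ((isCompact_closedBall (0 : ℂ) C).prod isCompact_univ).image ?_
      exact continuous_fst.smul (D.ha.comp continuous_snd)
    have hK1 : IsCompact (closure (convexHull ℝ K0)) :=
      hK0c.totallyBounded.convexHull.closure.isCompact_of_isClosed isClosed_closure
    have hK1v : Convex ℝ (closure (convexHull ℝ K0)) := (convex_convexHull ℝ K0).closure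
    refine ⟨(fun w : V' => D.μ.real Set.univ • w) '' closure (convexHull ℝ K0),
      hK1.image (continuous_const_smul _), ?_⟩
    refine Filter.mem_of_superset (Metric.closedBall_mem_nhds (0 : V) one_pos) ?_
    intro v hv
    have hv1 : ‖v‖ ≤ 1 := by simpa using hv
    have hmeas : Continuous fun t => D.l t v • D.a t := by
      have h2 : Continuous fun t => D.l t v :=
        D.hl.comp (continuous_id.prodMk continuous_const)
      exact h2.smul D.ha
    have hint : Integrable (fun t => D.l t v • D.a t) D.μ := by
      refine Integrable.of_bound hmeas.aestronglyMeasurable (C * ‖v‖ * C) ?_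
      refine Filter.Eventually.of_forall fun t => ?_
      rw [norm_smul]
      exact mul_le_mul (hCl t v) (hCa t) (norm_nonneg _) (by positivity)
    refine ⟨⨍ t, D.l t v • D.a t ∂D.μ, ?_, ?_⟩
    · refine hK1v.average_mem isClosed_closure ?_ hint
      refine Filter.Eventually.of_forall fun t => subset_closure (subset_convexHull ℝ K0 ?_)
      refine ⟨(D.l t v, t), ⟨?_, Set.mem_univ _⟩, rfl⟩
      rw [mem_closedBall_zero_iff]
      calc ‖D.l t v‖ ≤ C * ‖v‖ := hCl t v
        _ ≤ C * 1 := mul_le_mul_of_nonneg_left hv1 hC0
        _ = C := mul_one C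
    · show D.μ.real Set.univ • ⨍ t, D.l t v • D.a t ∂D.μ = A v
      rw [D.eq v, measure_smul_average]

end

end FB
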