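import Pool.Agent.H.MP_fb873c_an.T1a
import Pool.Agent.H.MP_fb873c_an.T1b
import Pool.Agent.H.MP_fb873c_an.T1c
import Pool.Agent.H.MP_fb873c_an.T1d
import Pool.Agent.H.MP_fb873c_an.T1e
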