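import Pool.Agent.H.MP_fb873c_an.T0

/-! Part T1a: bounds and linearity -/

namespace FB

open MeasureTheory

section

variable {V V' V'' : Type*}
  [NormedAddCommGroup V] [NormedSpace ℂ V] [CompleteSpace V]
  [NormedAddCommGroup V'] [NormedSpace ℂ V'] [CompleteSpace V']
  [NormedAddCommGroup V''] [NormedSpace ℂ V''] [CompleteSpace V'']

omit [CompleteSpace V] [CompleteSpace V'] in
/-- JOB T1a.  Uniform bounds.  `a` is continuous on a compact space.  For `l`: joint continuity at
`(t,0)` gives a neighbourhood `U_t` of `t` and `δ_t > 0` with `‖l s v‖ < 1` for `s ∈ U_t`, `‖v‖ < δ_t`;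
take a finite subcover and rescale. -/
theorem Nuc.bounds {A : V →L[ℂ] V'} (D : Nuc A) :
    ∃ C : ℝ, 0 ≤ C ∧ (∀ t, ‖D.a t‖ ≤ C) ∧ (∀ t v, ‖D.l t v‖ ≤ C * ‖v‖) := by
  obtain ⟨C₁, hC₁⟩ := (isCompact_univ (X := D.T)).exists_bound_of_continuousOn D.ha.continuousOn
  have hW : IsOpen {p : D.T × V | ‖D.l p.1 p.2‖ < 1} := isOpen_lt D.hl.norm continuous_const
  have hsub : (Set.univ : Set D.T) ×ˢ ({0} : Set V) ⊆ {p : D.T × V | ‖D.l p.1 p.2‖ < 1} := by
    rintro ⟨t, v⟩ ⟨-, hv⟩
    have hv' : v = 0 := hv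
    show ‖D.l t v‖ < 1
    rw [hv', map_zero, norm_zero]
    exact one_pos
  obtain ⟨u, w, -, hw, hu0, hw0, huw⟩ :=
    generalized_tube_lemma isCompact_univ isCompact_singleton hW hsub
  obtain ⟨δ, hδ, hball⟩ := Metric.isOpen_iff.1 hw 0 (hw0 (Set.mem_singleton 0))
  have key : ∀ t (v : V), ‖D.l t v‖ ≤ 2 / δ * ‖v‖ := by
    intro t v
    rcases eq_or_ne v 0 with rfl | hv
    · simp
    · have hn : 0 < ‖v‖ := norm_pos_iff.2 hv
      have hc : 0 < δ / (2 * ‖v‖) := by positivity
      have h1 : ‖((δ / (2 * ‖v‖) : ℝ) : ℂ) • v‖ < δ := by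
        rw [norm_smul, Complex.norm_real, Real.norm_of_nonneg hc.le]
        have : δ / (2 * ‖v‖) * ‖v‖ = δ / 2 := by field_simp
        rw [this]
        linarith
      have h2 : ‖D.l t (((δ / (2 * ‖v‖) : ℝ) : ℂ) • v)‖ < 1 :=
        huw (Set.mk_mem_prod (hu0 (Set.mem_univ t)) (hball (mem_ball_zero_iff.2 h1)))
      rw [map_smul, norm_smul, Complex.norm_real, Real.norm_of_nonneg hc.le] at h2
      have h3 : δ / (2 * ‖v‖) * ‖D.l t v‖ * (2 / δ * ‖v‖) = ‖D.l t v‖ := by field_simp
      have h4 : δ / (2 * ‖v‖) * ‖D.l t v‖ * (2 / δ * ‖v‖) ≤ 1 * (2 / δ * ‖v‖) :=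
        mul_le_mul_of_nonneg_right h2.le (by positivity)
      linarith
  refine ⟨max (max C₁ 0) (2 / δ), le_trans (le_max_right C₁ 0) (le_max_left _ _),
    fun t => (hC₁ t (Set.mem_univ t)).trans ((le_max_left C₁ 0).trans (le_max_left _ _)),
    fun t v => (key t v).trans ?_⟩
  exact mul_le_mul_of_nonneg_right (le_max_right _ _) (norm_nonneg v)

omit [CompleteSpace V] [CompleteSpace V'] in
theorem T1a_int {A : V →L[ℂ] V'} (D : Nuc A) (B : V' →L[ℂ] V) :
    Integrable (fun t => D.l t (B (D.a t))) D.μ := by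
  have h : Continuous fun t => D.l t (B (D.a t)) :=
    D.hl.comp (continuous_id.prodMk (B.continuous.comp D.ha))
  exact h.integrable_of_hasCompactSupport (HasCompactSupport.of_compactSpace _)

omit [CompleteSpace V] [CompleteSpace V'] in
/-- JOB T1a.  Linearity of the trace in the second argument (the integrands are continuous on a
compact space, hence integrable for the finite measure). -/
theorem trN_add_right {A : V →L[ℂ] V'} (D : Nuc A) (B B' : V' →L[ℂ] V) :
    trN D (B + B') = trN D B + trN D B' := by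
  unfold trN
  rw [← integral_add (T1a_int D B) (T1a_int D B')]
  refine integral_congr_ae (Filter.Eventually.of_forall fun t => ?_)
  show D.l t ((B + B') (D.a t)) = D.l t (B (D.a t)) + D.l t (B' (D.a t))
  rw [add_apply, map_add]

omit [CompleteSpace V] [CompleteSpace V'] in
theorem trN_sub_right {A : V →L[ℂ] V'} (D : Nuc A) (B B' : V' →L[ℂ] V) :
    trN D (B - B') = trN D B - trN D B' := by
  unfold trN
  rw [← integral_sub (T1a_int D B) (T1a_int D B')]
  refine integral_congr_ae (Filter.Eventually.of_forall fun t => ?_)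
  show D.l t ((B - B') (D.a t)) = D.l t (B (D.a t)) - D.l t (B' (D.a t))
  rw [sub_apply, map_sub]

omit [CompleteSpace V] [CompleteSpace V'] in
theorem trN_sum_right {A : V →L[ℂ] V'} (D : Nuc A) {κ : Type*} (s : Finset κ)
    (B : κ → V' →L[ℂ] V) : trN D (∑ i ∈ s, B i) = ∑ i ∈ s, trN D (B i) := by
  classical
  induction s using Finset.induction_on with
  | empty =>
    simp only [Finset.sum_empty]
    unfold trN
    simp
  | insert i s hi ih =>
    rw [Finset.sum_insert hi, Finset.sum_insert hi, trN_add_right, ih]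

end

end FB
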