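import Pool.Agent.H.MP_fb873c_an.T1a
import Pool.Agent.H.MP_fb873c_an.T1d

/-! Part T1p: the trace depends only on the product -/

namespace FB

open MeasureTheory Filter Topology

section

variable {V V' V'' : Type*}
  [NormedAddCommGroup V] [NormedSpace ℂ V] [CompleteSpace V]
  [NormedAddCommGroup V'] [NormedSpace ℂ V'] [CompleteSpace V']
  [NormedAddCommGroup V''] [NormedSpace ℂ V''] [CompleteSpace V'']

/-- Approximation property (with a sequence of finite rank operators). -/
def APr (V : Type*) [NormedAddCommGroup V] [NormedSpace ℂ V] : Prop :=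
  ∃ R : ℕ → V →L[ℂ] V, (∀ n, FiniteDimensional ℂ (LinearMap.range (R n).toLinearMap)) ∧
    ∀ v, Tendsto (fun n => R n v) atTop (𝓝 v)

/-- The trace is the limit of the traces against `B R_n`. -/
theorem trN_tendsto {A : V →L[ℂ] V'} (D : Nuc A) (B : V' →L[ℂ] V) (R : ℕ → V' →L[ℂ] V')
    (hR : ∀ v, Tendsto (fun n => R n v) atTop (𝓝 v)) :
    Tendsto (fun n => trN D (B.comp (R n))) atTop (𝓝 (trN D B)) := by
  obtain ⟨C, hC0, hCa, hCl⟩ := D.bounds
  obtain ⟨M, hM⟩ : ∃ M, ∀ n, ‖R n‖ ≤ M := by
    apply banach_steinhaus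
    intro v
    obtain ⟨M, hM⟩ := (hR v).norm.bddAbove_range
    exact ⟨M, fun n => hM ⟨n, rfl⟩⟩
  have hM0 : 0 ≤ M := (norm_nonneg _).trans (hM 0)
  unfold trN
  apply tendsto_integral_of_dominated_convergence (fun _ => C * (‖B‖ * (M * C)))
  · intro n
    have hc : Continuous (fun t => D.l t ((B.comp (R n)) (D.a t))) :=
      D.hl.comp (continuous_id.prodMk ((B.comp (R n)).continuous.comp D.ha))
    exact hc.aestronglyMeasurable
  · exact integrable_const _
  · intro n
    apply Eventually.of_forall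
    intro t
    calc ‖D.l t ((B.comp (R n)) (D.a t))‖ ≤ C * ‖(B.comp (R n)) (D.a t)‖ := hCl t _
      _ ≤ C * (‖B‖ * (M * C)) := by
        apply mul_le_mul_of_nonneg_left _ hC0
        calc ‖B (R n (D.a t))‖ ≤ ‖B‖ * ‖R n (D.a t)‖ := B.le_opNorm _
          _ ≤ ‖B‖ * (M * C) := by
            apply mul_le_mul_of_nonneg_left _ (norm_nonneg _)
            calc ‖R n (D.a t)‖ ≤ ‖R n‖ * ‖D.a t‖ := (R n).le_opNorm _
              _ ≤ M * C := mul_le_mul (hM n) (hCa t) (norm_nonneg _) hM0
  · apply Eventually.of_forall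
    intro t
    exact ((D.l t).continuous.comp B.continuous).continuousAt.tendsto.comp (hR (D.a t))

/-- With the approximation property of the target, the trace depends only on the product. -/
theorem trN_prod (hV : APr V') {A : V →L[ℂ] V'} {A₂ : V'' →L[ℂ] V'} (D : Nuc A) (D₂ : Nuc A₂)
    (B : V' →L[ℂ] V) (B₂ : V' →L[ℂ] V'') (h : A.comp B = A₂.comp B₂) :
    trN D B = trN D₂ B₂ := by
  obtain ⟨R, hf, hR⟩ := hV
  refine tendsto_nhds_unique (trN_tendsto D B R hR) ?_
  have heq : ∀ n, trN D (B.comp (R n)) = trN D₂ (B₂.comp (R n)) := by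
    intro n
    have := hf n
    set N := LinearMap.range (R n).toLinearMap with hN
    let j : N →L[ℂ] V' := N.subtypeL
    let π' : V' →L[ℂ] N := (R n).codRestrict N (fun v => ⟨v, rfl⟩)
    have hj : j.comp π' = R n := by ext v; rfl
    have e1 : B.comp (R n) = (B.comp j).comp π' := by rw [← hj]; rfl
    have e2 : B₂.comp (R n) = (B₂.comp j).comp π' := by rw [← hj]; rfl
    rw [e1, e2, trN_finrank D (B.comp j) π', trN_finrank D₂ (B₂.comp j) π']
    have e3 : π'.comp (A.comp (B.comp j)) = π'.comp (A₂.comp (B₂.comp j)) := by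
      have : A.comp (B.comp j) = A₂.comp (B₂.comp j) := by
        have h1 : (A.comp B).comp j = (A₂.comp B₂).comp j := by rw [h]
        exact h1
      rw [this]
    rw [e3]
  simp only [heq]
  exact trN_tendsto D₂ B₂ R hR

end

end FB
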