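import Pool.Agent.H.MP_fb873c_an.T1c
import Pool.Agent.H.MP_fb873c_an.T1p

/-! Part T1f: the trace of the product of two nuclear operators depends only on the product -/

namespace FB

open MeasureTheory Filter Topology

section

/-- A separable Hilbert space has the approximation property. -/
theorem APr_of_hilbert (E : Type*) [NormedAddCommGroup E] [InnerProductSpace ℂ E]
    [CompleteSpace E] [TopologicalSpace.SeparableSpace E] : APr E := by
  let f : ℕ → E := TopologicalSpace.denseSeq E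
  let U : ℕ → Submodule ℂ E := fun n => Submodule.span ℂ (f '' (Finset.range n : Set ℕ))
  have hfd : ∀ n, FiniteDimensional ℂ (U n) := fun n =>
    FiniteDimensional.span_of_finite ℂ ((Finset.finite_toSet _).image _)
  have hmono : Monotone U := fun m n h => Submodule.span_mono (Set.image_mono (by
    intro x hx
    have hx' : x < m := by simpa using hx
    have : x < n := hx'.trans_le h
    simpa using this))
  have hmem : ∀ n, f n ∈ ⨆ t, U t := by
    intro n
    refine (le_iSup U (n + 1)) (Submodule.subset_span ⟨n, ?_, rfl⟩)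
    simp
  have hdense : ⊤ ≤ (⨆ t, U t).topologicalClosure := by
    intro x _
    have h1 : x ∈ closure (Set.range f) := TopologicalSpace.denseRange_denseSeq E x
    refine closure_mono ?_ h1
    rintro _ ⟨n, rfl⟩
    exact hmem n
  refine ⟨fun n => (U n).starProjection, ?_, ?_⟩
  · intro n
    have : LinearMap.range ((U n).starProjection).toLinearMap = U n :=
      Submodule.range_starProjection (U n)
    rw [this]
    exact hfd n
  · intro v
    exact Submodule.starProjection_tendsto_self U hmono v hdense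

/-- The trace of a nuclear operator with square zero on a Hilbert space. -/
theorem trN_sq_zero {E : Type*} [NormedAddCommGroup E] [InnerProductSpace ℂ E]
    [CompleteSpace E] (hE : APr E) {N : E →L[ℂ] E} (D : Nuc N) (hN : N.comp N = 0) :
    trN D (ContinuousLinearMap.id ℂ E) = 0 := by
  let K : Submodule ℂ E := (LinearMap.ker N.toLinearMap)
  have hKc : IsClosed (K : Set E) := ContinuousLinearMap.isClosed_ker N
  have : CompleteSpace K := hKc.completeSpace_coe
  let P : E →L[ℂ] E := K.starProjection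
  have h1 : P.comp N = N := by
    ext v
    have : N v ∈ K := by
      show N (N v) = 0
      have := congrArg (fun f : E →L[ℂ] E => f v) hN
      exact this
    exact (Submodule.starProjection_eq_self_iff).2 this
  have h2 : N.comp P = 0 := by
    ext v
    have : P v ∈ K := Submodule.starProjection_apply_mem K v
    exact this
  obtain ⟨D', hD'⟩ := nuc_compLeft D P
  obtain ⟨D0, hD0⟩ := nuc_zero (V := E) (V' := E)
  have e1 : trN D (ContinuousLinearMap.id ℂ E) = trN D' (ContinuousLinearMap.id ℂ E) :=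
    trN_prod hE D D' _ _ (by rw [h1])
  have e2 : trN D P = trN D0 P := trN_prod hE D D0 _ _ (by rw [h2]; rfl)
  rw [e1, hD', ContinuousLinearMap.id_comp, e2, hD0]

end

section

variable {U V : Type*}
  [NormedAddCommGroup U] [NormedSpace ℂ U] [CompleteSpace U]
  [NormedAddCommGroup V] [NormedSpace ℂ V] [CompleteSpace V]

omit [CompleteSpace V] in
/-- A nuclear operator factors through a separable Hilbert space. -/
theorem nuc_factor {B : V →L[ℂ] U} (D : Nuc B) :
    ∃ (Φ : V →L[ℂ] Lp ℂ 2 D.μ) (Θ : Lp ℂ 2 D.μ →L[ℂ] U), Θ.comp Φ = B := by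
  obtain ⟨C, hC0, hCa, hCl⟩ := D.bounds
  let Φ1 : V →ₗ[ℂ] C(D.T, ℂ) :=
    { toFun := fun v => ⟨fun t => D.l t v, D.hl.comp (continuous_id.prodMk continuous_const)⟩
      map_add' := fun v w => by ext t; exact map_add (D.l t) v w
      map_smul' := fun c v => by ext t; exact map_smul (D.l t) c v }
  let Φ0 : V →L[ℂ] C(D.T, ℂ) := LinearMap.mkContinuous Φ1 C (fun v =>
    (ContinuousMap.norm_le _ (by positivity)).2 (fun t => hCl t v))
  let Φ : V →L[ℂ] Lp ℂ 2 D.μ := (ContinuousMap.toLp 2 D.μ ℂ).comp Φ0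
  let b : Lp U 2 D.μ := ContinuousMap.toLp 2 D.μ ℂ (⟨D.a, D.ha⟩ : C(D.T, U))
  let Θ : Lp ℂ 2 D.μ →L[ℂ] U :=
    ((ContinuousLinearMap.lsmul ℂ ℂ).lpPairing D.μ 2 2).flip b
  refine ⟨Φ, Θ, ?_⟩
  ext v
  show ((ContinuousLinearMap.lsmul ℂ ℂ).lpPairing D.μ 2 2) (Φ v) b = B v
  rw [ContinuousLinearMap.lpPairing_eq_integral, D.eq v]
  have h1 : (Φ v : D.T → ℂ) =ᵐ[D.μ] fun t => D.l t v := ContinuousMap.coeFn_toLp D.μ (Φ0 v)
  have h2 : (b : D.T → U) =ᵐ[D.μ] D.a := ContinuousMap.coeFn_toLp D.μ (⟨D.a, D.ha⟩ : C(D.T, U))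
  refine integral_congr_ae ?_
  filter_upwards [h1, h2] with t ht1 ht2
  rw [ht1, ht2]
  rfl

/-- If the product of two nuclear operators is zero, so is its trace. -/
theorem trN_zero_of_comp_zero {A : U →L[ℂ] V} {B : V →L[ℂ] U} (DA : Nuc A) (DB : Nuc B)
    (h : A.comp B = 0) : trN DA B = 0 := by
  obtain ⟨Φ, Θ, hΘ⟩ := nuc_factor DB
  obtain ⟨D1, hD1⟩ := nuc_compLeft DA Φ
  obtain ⟨D2, hD2⟩ := nuc_compRight D1 Θ
  have : Fact ((2 : ENNReal) ≠ ⊤) := ⟨by simp⟩
  have hE : APr (Lp ℂ 2 DB.μ) := APr_of_hilbert _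
  have hN : ((Φ.comp A).comp Θ).comp ((Φ.comp A).comp Θ) = 0 := by
    refine ContinuousLinearMap.ext fun e => ?_
    show Φ (A (Θ (Φ (A (Θ e))))) = (0 : Lp ℂ 2 DB.μ)
    have h3 : Θ (Φ (A (Θ e))) = B (A (Θ e)) :=
      congrArg (fun f : V →L[ℂ] U => f (A (Θ e))) hΘ
    have h4 : A (B (A (Θ e))) = 0 := by
      have := congrArg (fun f : V →L[ℂ] V => f (A (Θ e))) h
      exact this
    rw [h3, h4, map_zero]
  have h5 := trN_sq_zero hE D2 hN
  rw [hD2, hD1] at h5
  have h6 : (Θ.comp (ContinuousLinearMap.id ℂ (Lp ℂ 2 DB.μ))).comp Φ = B := hΘ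
  rw [h6] at h5
  exact h5

end

section

variable {U U' V : Type*}
  [NormedAddCommGroup U] [NormedSpace ℂ U] [CompleteSpace U]
  [NormedAddCommGroup U'] [NormedSpace ℂ U'] [CompleteSpace U']
  [NormedAddCommGroup V] [NormedSpace ℂ V] [CompleteSpace V]

/-- The trace of the product of two nuclear operators depends only on the product. -/
theorem trN_eq_of_comp_eq {A : U →L[ℂ] V} {B : V →L[ℂ] U} {A' : U' →L[ℂ] V} {B' : V →L[ℂ] U'}
    (DA : Nuc A) (DB : Nuc B) (DA' : Nuc A') (DB' : Nuc B')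
    (h : A.comp B = A'.comp B') : trN DA B = trN DA' B' := by
  let p1 : U × U' →L[ℂ] U := ContinuousLinearMap.fst ℂ U U'
  let p2 : U × U' →L[ℂ] U' := ContinuousLinearMap.snd ℂ U U'
  let i1 : U →L[ℂ] U × U' := ContinuousLinearMap.inl ℂ U U'
  let i2 : U' →L[ℂ] U × U' := ContinuousLinearMap.inr ℂ U U'
  obtain ⟨D1, hD1⟩ := nuc_compRight DA p1
  obtain ⟨D2, hD2⟩ := nuc_compRight DA' p2
  obtain ⟨D3, hD3⟩ := nuc_smul (-1) D2
  obtain ⟨D4, hD4⟩ := nuc_add D1 D3
  obtain ⟨E1, hE1⟩ := nuc_compLeft DB i1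
  obtain ⟨E2, hE2⟩ := nuc_compLeft DB' i2
  obtain ⟨E3, hE3⟩ := nuc_add E1 E2
  have h0 : (A.comp p1 + (-1 : ℂ) • A'.comp p2).comp (i1.comp B + i2.comp B') = 0 := by
    ext v
    have hv : A (B v) = A' (B' v) := by
      have := congrArg (fun f : V →L[ℂ] V => f v) h
      exact this
    have e1 : (i1.comp B + i2.comp B') v = (B v, B' v) := by
      show ((B v, (0 : U')) : U × U') + ((0 : U), B' v) = (B v, B' v)
      simp
    show (A.comp p1 + (-1 : ℂ) • A'.comp p2) ((i1.comp B + i2.comp B') v) = 0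
    rw [e1]
    show A (B v) + (-1 : ℂ) • A' (B' v) = 0
    rw [hv]
    simp
  have h1 := trN_zero_of_comp_zero D4 E3 h0
  rw [hD4, hD3, hD1, hD2] at h1
  have e2 : p1.comp (i1.comp B + i2.comp B') = B := by
    ext v
    show ((B v, (0 : U')) + ((0 : U), B' v) : U × U').1 = B v
    simp
  have e3 : p2.comp (i1.comp B + i2.comp B') = B' := by
    ext v
    show ((B v, (0 : U')) + ((0 : U), B' v) : U × U').2 = B' v
    simp
  rw [e2, e3] at h1
  linear_combination h1

end

end FB
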