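import Mathlib

/-! Part T4b -/

namespace FB

open MeasureTheory

section

variable {V : Type*} [NormedAddCommGroup V] [NormedSpace ℂ V] [CompleteSpace V]

omit [CompleteSpace V] in
private theorem T4b_add (S : V →L[ℂ] V) (i j : ℕ) (v : V) :
    (S ^ (i + j)) v = (S ^ i) ((S ^ j) v) := by
  rw [pow_add]
  rfl

omit [CompleteSpace V] in
private theorem T4b_le (S : V →L[ℂ] V) {i j : ℕ} (h : i ≤ j) {v : V} (hv : (S ^ i) v = 0) :
    (S ^ j) v = 0 := by
  have : j = (j - i) + i := by omega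
  rw [this, T4b_add, hv, map_zero]

/-- JOB T4b.  The kernels stabilise.  Otherwise `N_j ⊊ N_{j+1}` for all `j`
(`N_j = ker (1-K)^j`; once two consecutive ones agree all later ones agree); by the Riesz lemma
(`riesz_lemma`) choose `x_j ∈ N_{j+1}`, `‖x_j‖ ≤ 1` (or norm 1) with distance `≥ 1/2` from the closed
subspace `N_j`.  For `i < j`, `K x_j - K x_i = x_j - ((1-K) x_j + x_i - (1-K) x_i)` and the bracket
is in `N_j`, so `‖K x_j - K x_i‖ ≥ 1/2`: no convergent subsequence, contradicting compactness. -/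
theorem exists_ker_stable (K : V →L[ℂ] V) (hK : IsCompactOperator K) :
    ∃ k0 : ℕ, ∀ k, k0 ≤ k → ∀ v : V, (((1 : V →L[ℂ] V) - K) ^ k) v = 0 →
      (((1 : V →L[ℂ] V) - K) ^ k0) v = 0 := by
  classical
  by_contra hcon
  push Not at hcon
  set S : V →L[ℂ] V := 1 - K with hS
  have hSv : ∀ v, S v = v - K v := fun v => by rw [hS]; rfl
  have step : ∀ j : ℕ, ∃ w : V, (S ^ (j + 1)) w = 0 ∧ (S ^ j) w ≠ 0 := by
    intro j
    obtain ⟨k, hk, v, hv, hv'⟩ := hcon j
    have hex : ∃ m, (S ^ m) v = 0 := ⟨k, hv⟩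
    have hp : (S ^ Nat.find hex) v = 0 := Nat.find_spec hex
    have hjp : j < Nat.find hex := by
      by_contra h
      exact hv' (T4b_le S (not_lt.1 h) hp)
    refine ⟨(S ^ (Nat.find hex - 1 - j)) v, ?_, ?_⟩
    · rw [← T4b_add]
      have : j + 1 + (Nat.find hex - 1 - j) = Nat.find hex := by omega
      rw [this]
      exact hp
    · rw [← T4b_add]
      have : j + (Nat.find hex - 1 - j) = Nat.find hex - 1 := by omega
      rw [this]
      exact Nat.find_min hex (by omega)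
  let M : ℕ → Submodule ℂ V := fun j => LinearMap.ker ((S ^ j : V →L[ℂ] V) : V →ₗ[ℂ] V)
  have hM : ∀ j v, v ∈ M j ↔ (S ^ j) v = 0 := fun j v => Iff.rfl
  have hcl : ∀ j, IsClosed (M j : Set V) := fun j => (S ^ j).isClosed_ker
  have hmono : ∀ i j, i ≤ j → ∀ v ∈ M i, v ∈ M j := fun i j hij v hv => T4b_le S hij hv
  have riesz : ∀ j, ∃ x : V, x ∈ M (j + 1) ∧ ‖x‖ ≤ 3 ∧ ∀ y ∈ M j, 1 ≤ ‖x - y‖ := by
    intro j
    obtain ⟨w, hw1, hw2⟩ := step j
    have h1 : IsClosed ((Submodule.comap (M (j + 1)).subtype (M j) :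
        Submodule ℂ (M (j + 1))) : Set (M (j + 1))) :=
      (hcl j).preimage continuous_subtype_val
    have h2 : ∃ x : M (j + 1), x ∉ Submodule.comap (M (j + 1)).subtype (M j) :=
      ⟨⟨w, hw1⟩, hw2⟩
    obtain ⟨⟨x, hx⟩, hx1, hx2⟩ := riesz_lemma_of_norm_lt (c := (2 : ℂ)) (by norm_num)
      (R := 3) (by norm_num) h1 h2
    exact ⟨x, hx, hx1, fun y hy => hx2 ⟨y, hmono j (j + 1) (Nat.le_succ j) y hy⟩ hy⟩
  choose x hx1 hx2 hx3 using riesz
  have far : ∀ i j, i < j → 1 ≤ ‖K (x j) - K (x i)‖ := by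
    intro i j hij
    have hb : S (x j) + x i - S (x i) ∈ M j := by
      refine (M j).sub_mem ((M j).add_mem ?_ ?_) ?_
      · have h := (hM (j + 1) (x j)).1 (hx1 j)
        rw [T4b_add S j 1, pow_one] at h
        exact (hM j _).2 h
      · exact hmono (i + 1) j hij _ (hx1 i)
      · have h := (hM (i + 1) (x i)).1 (hx1 i)
        rw [T4b_add S i 1, pow_one] at h
        exact hmono i j hij.le _ ((hM i _).2 h)
    have h := hx3 j _ hb
    have e : x j - (S (x j) + x i - S (x i)) = K (x j) - K (x i) := by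
      rw [hSv, hSv]
      abel
    rwa [e] at h
  obtain ⟨C, hC, hC'⟩ := hK.image_closedBall_subset_compact 3
  obtain ⟨y, -, ψ, hψ, hψy⟩ := hC.tendsto_subseq (x := fun n => K (x n))
    (fun n => hC' ⟨x n, by simpa using hx2 n, rfl⟩)
  have hcau := hψy.cauchySeq
  rw [Metric.cauchySeq_iff'] at hcau
  obtain ⟨n, hn⟩ := hcau 1 one_pos
  have h1 := hn (n + 1) (Nat.le_succ n)
  have h2 := far (ψ n) (ψ (n + 1)) (hψ (Nat.lt_succ_self n))
  rw [dist_eq_norm] at h1
  simp only [Function.comp_apply] at h1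
  linarith

end

end FB
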