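import Pool.Agent.H.MP_fb873c_an.T4a
import Pool.Agent.H.MP_fb873c_an.T4b

/-! Part T4c: Riesz decomposition of a compact operator at the eigenvalue 1 -/

namespace FB

open MeasureTheory

section

variable {V : Type*} [NormedAddCommGroup V] [NormedSpace ℂ V] [CompleteSpace V]

/-- An operator on a quotient is compact if its composition with the quotient map is. -/
private theorem t4c_compact {N : Submodule ℂ V} (f : (V ⧸ N) →L[ℂ] (V ⧸ N))
    (h : IsCompactOperator fun x => f (N.mkQL x)) : IsCompactOperator f := by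
  obtain ⟨C, hC, h0⟩ := h
  refine ⟨C, hC, ?_⟩
  have h1 := N.isOpenQuotientMap_mkQL.isOpenMap.image_mem_nhds h0
  rw [map_zero] at h1
  refine Filter.mem_of_superset h1 ?_
  rintro _ ⟨x, hx, rfl⟩
  exact hx

/-- The abstract part of the construction. -/
private theorem t4c_core (K T : V →L[ℂ] V) (hT : T = 1 - K) (k0 : ℕ)
    (N : Submodule ℂ V) (hN : N = LinearMap.ker (T ^ k0 : V →L[ℂ] V).toLinearMap)
    (hfin : FiniteDimensional ℂ N)
    (Tb R : (V ⧸ N) →L[ℂ] (V ⧸ N)) (u : (V ⧸ N) →L[ℂ] V)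
    (h1 : ∀ x, N.mkQL (T x) = Tb (N.mkQL x)) (h2 : ∀ x, u (N.mkQL x) = (T ^ k0) x)
    (hR1 : Tb * R = 1) (hR2 : R * Tb = 1) :
    ∃ (pi Gam : V →L[ℂ] V),
      FiniteDimensional ℂ (LinearMap.range pi.toLinearMap) ∧
      pi * pi = pi ∧ K * pi = pi * K ∧ K * Gam = Gam * K ∧
      (1 - K) * Gam = 1 - pi ∧ Gam * (1 - K) = 1 - pi ∧ Gam * pi = 0 ∧ pi * Gam = 0 ∧
      (1 - K) ^ k0 * pi = 0 := by
  have hsurj : Function.Surjective (N.mkQL : V → V ⧸ N) := N.mkQ_surjective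
  obtain ⟨q, hq⟩ : ∃ q : V →L[ℂ] (V ⧸ N), q = N.mkQL := ⟨_, rfl⟩
  rw [← hq] at hsurj
  have e1 : q ∘L T = Tb ∘L q := by
    ext x
    rw [hq]
    exact h1 x
  have e2 : u ∘L q = T ^ k0 := by
    ext x
    rw [hq]
    exact h2 x
  have cancel : ∀ {W : Type _} [AddCommGroup W] [Module ℂ W] [TopologicalSpace W]
      (f g : (V ⧸ N) →L[ℂ] W), f ∘L q = g ∘L q → f = g := by
    intro W _ _ _ f g hfg
    ext y
    obtain ⟨x, rfl⟩ := hsurj y
    exact DFunLike.congr_fun hfg x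
  have e1' : ∀ n : ℕ, q ∘L (T ^ n) = (Tb ^ n) ∘L q := by
    intro n
    induction n with
    | zero => rfl
    | succ n ih =>
      calc q ∘L (T ^ (n + 1)) = (q ∘L (T ^ n)) ∘L T := by rw [pow_succ]; rfl
        _ = (Tb ^ n) ∘L (q ∘L T) := by rw [ih]; rfl
        _ = (Tb ^ (n + 1)) ∘L q := by rw [e1, pow_succ]; rfl
  have e3 : q ∘L u = Tb ^ k0 := by
    apply cancel
    calc (q ∘L u) ∘L q = q ∘L (u ∘L q) := rfl
      _ = (Tb ^ k0) ∘L q := by rw [e2, e1']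
  have e4 : T ∘L u = u ∘L Tb := by
    apply cancel
    calc (T ∘L u) ∘L q = T ∘L (u ∘L q) := rfl
      _ = T * T ^ k0 := by rw [e2]; rfl
      _ = T ^ k0 * T := (Commute.refl T).pow_right k0
      _ = (u ∘L q) ∘L T := by rw [e2]; rfl
      _ = u ∘L (q ∘L T) := rfl
      _ = (u ∘L Tb) ∘L q := by rw [e1]; rfl
  have hcR : Commute Tb R := by
    show Tb * R = R * Tb
    rw [hR1, hR2]
  have r1 : Tb ^ k0 * R ^ k0 = 1 := by
    rw [← hcR.mul_pow, hR1, one_pow]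
  have r2 : R ^ k0 * Tb ^ k0 = 1 := by
    rw [← hcR.symm.mul_pow, hR2, one_pow]
  have r3 : Tb * R ^ (k0 + 1) = R ^ k0 := by
    rw [pow_succ', ← mul_assoc, hR1, one_mul]
  have r4 : R ^ (k0 + 1) * Tb = R ^ k0 := by
    rw [pow_succ, mul_assoc, hR2, mul_one]
  have r5 : Tb * R ^ k0 = R ^ k0 * Tb := (hcR.pow_right k0).eq
  obtain ⟨P, hP⟩ : ∃ P : V →L[ℂ] V, P = u ∘L (R ^ k0) ∘L q := ⟨_, rfl⟩
  obtain ⟨G, hG⟩ : ∃ G : V →L[ℂ] V, G = u ∘L (R ^ (k0 + 1)) ∘L q := ⟨_, rfl⟩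
  have qP : q ∘L P = q := by
    calc q ∘L P = (q ∘L u) ∘L (R ^ k0) ∘L q := by rw [hP]; rfl
      _ = (Tb ^ k0 * R ^ k0) ∘L q := by rw [e3]; rfl
      _ = q := by rw [r1]; rfl
  have TG : T * G = P := by
    calc T * G = (T ∘L u) ∘L (R ^ (k0 + 1)) ∘L q := by rw [hG]; rfl
      _ = u ∘L (Tb * R ^ (k0 + 1)) ∘L q := by rw [e4]; rfl
      _ = P := by rw [r3, hP]
  have GT : G * T = P := by
    calc G * T = u ∘L (R ^ (k0 + 1)) ∘L (q ∘L T) := by rw [hG]; rfl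
      _ = u ∘L (R ^ (k0 + 1) * Tb) ∘L q := by rw [e1]; rfl
      _ = P := by rw [r4, hP]
  have PT : P * T = T * P := by
    calc P * T = u ∘L (R ^ k0) ∘L (q ∘L T) := by rw [hP]; rfl
      _ = u ∘L (R ^ k0 * Tb) ∘L q := by rw [e1]; rfl
      _ = (u ∘L Tb) ∘L (R ^ k0) ∘L q := by rw [← r5]; rfl
      _ = T * P := by rw [← e4, hP]; rfl
  have PP : P * P = P := by
    have e0 : ∀ X : V →L[ℂ] V, P * X = u ∘L (R ^ k0) ∘L (q ∘L X) := by
      intro X
      rw [hP]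
      rfl
    calc P * P = u ∘L (R ^ k0) ∘L (q ∘L P) := e0 P
      _ = P := by rw [qP, hP]
  have GP : G * P = G := by
    calc G * P = u ∘L (R ^ (k0 + 1)) ∘L (q ∘L P) := by rw [hG]; rfl
      _ = G := by rw [qP, hG]
  have PG : P * G = G := by
    calc P * G = u ∘L (R ^ k0) ∘L (q ∘L u) ∘L (R ^ (k0 + 1)) ∘L q := by rw [hP, hG]; rfl
      _ = u ∘L (R ^ k0 * Tb ^ k0) ∘L (R ^ (k0 + 1)) ∘L q := by rw [e3]; rfl
      _ = G := by rw [r2, hG]; rfl
  have TkP : T ^ k0 * P = T ^ k0 := by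
    calc T ^ k0 * P = u ∘L (q ∘L P) := by rw [← e2]; rfl
      _ = T ^ k0 := by rw [qP, e2]
  have hK : K = 1 - T := by rw [hT]; abel
  have hlast : T ^ k0 * (1 - P) = 0 := by rw [mul_sub, mul_one, TkP, sub_self]
  refine ⟨1 - P, G, ?_, ?_, ?_, ?_, ?_, ?_, ?_, ?_, ?_⟩
  · have hle : LinearMap.range (1 - P : V →L[ℂ] V).toLinearMap ≤ N := by
      rintro _ ⟨x, rfl⟩
      rw [hN]
      exact DFunLike.congr_fun hlast x
    exact Submodule.finiteDimensional_of_le hle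
  · simp only [mul_sub, sub_mul, mul_one, one_mul, PP]
    abel
  · simp only [hK, mul_sub, sub_mul, mul_one, one_mul, PT]
    abel
  · rw [hK, sub_mul, mul_sub, TG, GT, one_mul, mul_one]
  · rw [← hT, TG]; abel
  · rw [← hT, GT]; abel
  · rw [mul_sub, GP, mul_one, sub_self]
  · rw [sub_mul, PG, one_mul, sub_self]
  · rw [← hT]; exact hlast

/-- JOB T4c.  Riesz decomposition.  Let `T = 1 - K`, `N = ker T^k0` (`k0` from `exists_ker_stable`,
finite dimensional by `finiteDimensional_ker_pow`, closed, invariant under `K`).  On the Banach space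
`V ⧸ N` the induced operator `Kbar` is compact and `Tbar = 1 - Kbar` is injective (if `T x ∈ N` then
`x ∈ ker T^(k0+1) = N`), so by the Fredholm alternative
(`IsCompactOperator.hasEigenvalue_or_mem_resolventSet` with eigenvalue 1) `Tbar` is invertible.
`T^k0` kills `N` and induces a bounded `u : V ⧸ N → V`.  Put
`P := u ∘ Tbar⁻¹^k0 ∘ q`, `pi := 1 - P`, `Gam := u ∘ Tbar⁻¹^(k0+1) ∘ q`.
Since `q ∘ u = Tbar^k0`, `T ∘ u = u ∘ Tbar`: `q ∘ P = q`, hence `q ∘ pi = 0` and `range pi ⊆ N`;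
`P = 0` on `N`, so `pi = 1` on `N`; `T Gam = u Tbar Tbar⁻¹^(k0+1) q = P`, `Gam T = P` (as
`q T = Tbar q`), `Gam pi = 0`, `pi Gam = Gam - u Tbar⁻¹^k0 Tbar^k0 Tbar⁻¹^(k0+1) q = 0`;
`T^k0 pi = 0` since `range pi ⊆ N`; all commute with `K`. -/
theorem riesz_decomposition (K : V →L[ℂ] V) (hK : IsCompactOperator K) :
    ∃ (k0 : ℕ) (pi Gam : V →L[ℂ] V),
      FiniteDimensional ℂ (LinearMap.range pi.toLinearMap) ∧
      pi * pi = pi ∧ K * pi = pi * K ∧ K * Gam = Gam * K ∧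
      (1 - K) * Gam = 1 - pi ∧ Gam * (1 - K) = 1 - pi ∧ Gam * pi = 0 ∧ pi * Gam = 0 ∧
      (1 - K) ^ k0 * pi = 0 := by
  obtain ⟨k0, hk0⟩ := exists_ker_stable K hK
  have hfin := finiteDimensional_ker_pow K hK k0
  obtain ⟨T, hT⟩ : ∃ T : V →L[ℂ] V, T = 1 - K := ⟨_, rfl⟩
  rw [← hT] at hfin hk0
  obtain ⟨N, hN⟩ : ∃ N : Submodule ℂ V, N = LinearMap.ker (T ^ k0 : V →L[ℂ] V).toLinearMap :=
    ⟨_, rfl⟩
  rw [← hN] at hfin
  have hmem : ∀ x, x ∈ N ↔ (T ^ k0) x = 0 := by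
    intro x
    rw [hN]
    exact LinearMap.mem_ker
  have hcl : IsClosed (N : Set V) := by
    rw [hN]
    exact ContinuousLinearMap.isClosed_ker (T ^ k0)
  have hKT : Commute K (T ^ k0) := by
    have : Commute K T := by
      rw [hT]
      exact (Commute.one_right K).sub_right (Commute.refl K)
    exact this.pow_right k0
  have hKN : ∀ x ∈ N, K x ∈ N := by
    intro x hx
    rw [hmem] at hx ⊢
    have h1 : (T ^ k0 * K) x = (K * T ^ k0) x := by rw [hKT.eq]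
    change (T ^ k0) (K x) = K ((T ^ k0) x) at h1
    rw [h1, hx, map_zero]
  obtain ⟨Kb, hKb⟩ : ∃ Kb : (V ⧸ N) →L[ℂ] (V ⧸ N), ∀ x, Kb (N.mkQL x) = N.mkQL (K x) := by
    refine ⟨N.liftQL (N.mkQL ∘L K) ?_, fun x => rfl⟩
    intro x hx
    show N.mkQ (K x) = 0
    rw [Submodule.mkQ_apply, Submodule.Quotient.mk_eq_zero]
    exact hKN x hx
  obtain ⟨u, hu⟩ : ∃ u : (V ⧸ N) →L[ℂ] V, ∀ x, u (N.mkQL x) = (T ^ k0) x := by
    refine ⟨N.liftQL (T ^ k0) ?_, fun x => rfl⟩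
    intro x hx
    exact (hmem x).1 hx
  have hKc : IsCompactOperator Kb := by
    apply t4c_compact
    have h1 : IsCompactOperator ((N.mkQL : V →L[ℂ] V ⧸ N) ∘ K) := hK.clm_comp N.mkQL
    refine (?_ : (fun x => Kb (N.mkQL x)) = (N.mkQL : V →L[ℂ] V ⧸ N) ∘ K) ▸ h1
    funext x
    exact hKb x
  have hsurj : Function.Surjective (N.mkQL : V → V ⧸ N) := N.mkQ_surjective
  have hTb : ∀ x, N.mkQL (T x) = (1 - Kb) (N.mkQL x) := by
    intro x
    rw [hT, sub_apply, sub_apply, map_sub, hKb]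
    rfl
  have hinj : ∀ y : V ⧸ N, (1 - Kb) y = 0 → y = 0 := by
    intro y hy
    obtain ⟨x, rfl⟩ := hsurj y
    rw [← hTb] at hy
    have h1 : T x ∈ N := (Submodule.Quotient.mk_eq_zero N).1 hy
    rw [hmem] at h1
    have h2 : (T ^ (k0 + 1)) x = 0 := by
      rw [pow_succ]
      exact h1
    have h3 := hk0 (k0 + 1) (Nat.le_succ k0) x h2
    exact (Submodule.Quotient.mk_eq_zero N).2 ((hmem x).2 h3)
  have hunit : IsUnit ((1 : (V ⧸ N) →L[ℂ] (V ⧸ N)) - Kb) := by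
    rcases hKc.hasEigenvalue_or_mem_resolventSet (one_ne_zero (α := ℂ)) with h | h
    · exfalso
      obtain ⟨v, hv⟩ := h.exists_hasEigenvector
      apply hv.2
      apply hinj
      have h4 := hv.apply_eq_smul
      rw [one_smul] at h4
      rw [sub_apply]
      exact sub_eq_zero.2 h4.symm
    · rw [spectrum.mem_resolventSet_iff, map_one] at h
      exact h
  obtain ⟨R, hR1, hR2⟩ := hunit.exists_right_inv.elim
    (fun R hR => (⟨R, hR, by
      obtain ⟨R', hR'⟩ := hunit.exists_left_inv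
      have : R' = R := left_inv_eq_right_inv hR' hR
      rw [← this]
      exact hR'⟩ : ∃ R, (1 - Kb) * R = 1 ∧ R * (1 - Kb) = 1))
  obtain ⟨pi, Gam, h⟩ := t4c_core K T hT k0 N hN hfin (1 - Kb) R u hTb hu hR1 hR2
  exact ⟨k0, pi, Gam, h⟩

end

end FB
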