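import Mathlib

/-! Part T4a -/

namespace FB

open MeasureTheory

section

variable {V : Type*} [NormedAddCommGroup V] [NormedSpace ℂ V] [CompleteSpace V]

omit [CompleteSpace V] in
private theorem t4a_pow_compact (K : V →L[ℂ] V) (hK : IsCompactOperator K) (j : ℕ) :
    IsCompactOperator ((1 : V →L[ℂ] V) - ((1 : V →L[ℂ] V) - K) ^ j) := by
  induction j with
  | zero =>
    rw [pow_zero, sub_self]
    exact isCompactOperator_zero
  | succ n ih =>
    have h : (1 : V →L[ℂ] V) - ((1 : V →L[ℂ] V) - K) ^ (n + 1) =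
        (1 - ((1 : V →L[ℂ] V) - K) ^ n) + ((1 : V →L[ℂ] V) - K) ^ n * K := by
      rw [pow_succ]
      noncomm_ring
    rw [h]
    exact ih.add (hK.clm_comp (((1 : V →L[ℂ] V) - K) ^ n))

/-- The kernel of `(1-K)^j` is finite dimensional: `(1-K)^j = 1 - K'` with `K'` compact, and on
the kernel the identity is `K'`, so the closed unit ball is compact
(`FiniteDimensional.of_isCompact_closedBall` or similar). -/
theorem finiteDimensional_ker_pow (K : V →L[ℂ] V) (hK : IsCompactOperator K) (j : ℕ) :
    FiniteDimensional ℂ (LinearMap.ker (((1 : V →L[ℂ] V) - K) ^ j : V →L[ℂ] V).toLinearMap) := by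
  have hc := t4a_pow_compact K hK j
  set S : V →L[ℂ] V := ((1 : V →L[ℂ] V) - K) ^ j with hS
  set W : Submodule ℂ V := LinearMap.ker S.toLinearMap with hW
  have hfix : ∀ x : W, ((1 : V →L[ℂ] V) - S) (x : V) = x := by
    intro x
    have hx : S (x : V) = 0 := x.2
    rw [sub_apply, hx, sub_zero]
    rfl
  have hcl : IsClosed (W : Set V) := by
    rw [hW]
    exact ContinuousLinearMap.isClosed_ker S
  have h1 : IsCompactOperator (((1 : V →L[ℂ] V) - S) ∘ W.subtypeL) := hc.comp_clm W.subtypeL
  have hV : ∀ x, (((1 : V →L[ℂ] V) - S) ∘ W.subtypeL) x ∈ W := by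
    intro x
    have : (((1 : V →L[ℂ] V) - S) ∘ W.subtypeL) x = (x : V) := hfix x
    rw [this]
    exact x.2
  have h2 := h1.codRestrict hV hcl
  have h3 : Set.codRestrict (((1 : V →L[ℂ] V) - S) ∘ W.subtypeL) (W : Set V) hV =
      (id : W → W) := by
    funext x
    exact Subtype.ext (hfix x)
  have h4 : IsCompactOperator (id : W → W) := by
    rw [← h3]
    exact h2
  exact FiniteDimensional.of_isCompactOperator_id h4

end

end FB
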