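import Mathlib

/-! Part T5 definitions in one degree -/

namespace FB

open MeasureTheory

section

variable {A V : Type*} [AddCommGroup A] [Module ℂ A]
  [NormedAddCommGroup V] [NormedSpace ℂ V] [CompleteSpace V]

/-- `π^A = s u(K) π ι`, `u(K) = ∑_{j<k} (1-K)^j`. -/
noncomputable def piA (io : A →ₗ[ℂ] V) (s : V →ₗ[ℂ] A) (K pi : V →L[ℂ] V) (k : ℕ) : A →ₗ[ℂ] A :=
  s ∘ₗ ((∑ j ∈ Finset.range k, (1 - K) ^ j) * pi : V →L[ℂ] V).toLinearMap ∘ₗ io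

/-- `Γ^A = 1 - π^A + s Γ ι`. -/
noncomputable def GaA (io : A →ₗ[ℂ] V) (s : V →ₗ[ℂ] A) (K pi Gam : V →L[ℂ] V) (k : ℕ) : A →ₗ[ℂ] A :=
  LinearMap.id - piA io s K pi k + s ∘ₗ Gam.toLinearMap ∘ₗ io

end

end FB
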