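import Pool.Agent.H.MP_fb873c_an.T1c
import Pool.Agent.H.MP_fb873c_an.T5o

/-! Part T5: data of the abstract Lefschetz formula -/

namespace FB

open MeasureTheory

section


/-- Analytic data: a complex `A` with chain map `F`, Banach spaces `V q`, parametrix. -/
structure CData (A V : ℕ → Type*) [∀ q, AddCommGroup (A q)] [∀ q, Module ℂ (A q)]
    [∀ q, NormedAddCommGroup (V q)] [∀ q, NormedSpace ℂ (V q)] where
  d : ∀ q, A q →ₗ[ℂ] A (q + 1)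
  dd : ∀ q a, d (q + 1) (d q a) = 0
  F : ∀ q, A q →ₗ[ℂ] A q
  dF : ∀ q a, d q (F q a) = F (q + 1) (d q a)
  io : ∀ q, A q →ₗ[ℂ] V q
  s : ∀ q, V q →ₗ[ℂ] A q
  p : ∀ q, A (q + 1) →ₗ[ℂ] A q
  ph : ∀ q, V (q + 1) →L[ℂ] V q
  Fh : ∀ q, V q →L[ℂ] V q
  hp : ∀ q a, io q (p q a) = ph q (io (q + 1) a)
  hF : ∀ q a, io q (F q a) = Fh q (io q a)
  h0 : ∀ a, a - s 0 (io 0 a) = p 0 (d 0 a)
  h1 : ∀ q a, a - s (q + 1) (io (q + 1) a) = d q (p q a) + p (q + 1) (d (q + 1) a)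
  sh : ∀ q, V q →L[ℂ] V q
  hs : ∀ q v, sh q v = io q (s q v)
  dh : ∀ q, V q →L[ℂ] V (q + 1)
  hd : ∀ q v, dh q v = io (q + 1) (d q (s q v))
  ns : ∀ q, Nuc (sh q)
  nd : ∀ q, Nuc (dh q)
  N : ℕ
  hN : ∀ q, N < q → Subsingleton (A q)

variable {A V : ℕ → Type*} [∀ q, AddCommGroup (A q)] [∀ q, Module ℂ (A q)]
    [∀ q, NormedAddCommGroup (V q)] [∀ q, NormedSpace ℂ (V q)] [∀ q, CompleteSpace (V q)]

/-- Riesz data in every degree with a common exponent on `[0, N+1]`. -/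
structure RData (D : CData A V) where
  k : ℕ
  pi : ∀ q, V q →L[ℂ] V q
  Gam : ∀ q, V q →L[ℂ] V q
  fin : ∀ q, FiniteDimensional ℂ (LinearMap.range (pi q).toLinearMap)
  h1 : ∀ q, pi q * pi q = pi q
  h2 : ∀ q, D.sh q * pi q = pi q * D.sh q
  h3 : ∀ q, D.sh q * Gam q = Gam q * D.sh q
  h4 : ∀ q, (1 - D.sh q) * Gam q = 1 - pi q
  h5 : ∀ q, Gam q * (1 - D.sh q) = 1 - pi q
  h6 : ∀ q, Gam q * pi q = 0
  h7 : ∀ q, pi q * Gam q = 0
  h8 : ∀ q, (1 - D.sh q) ^ k * pi q = 0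

/-- `π^A` and `Γ^A` of the data. -/
noncomputable def RData.pA {D : CData A V} (R : RData D) (q : ℕ) : A q →ₗ[ℂ] A q :=
  piA (D.io q) (D.s q) (D.sh q) (R.pi q) R.k

noncomputable def RData.gA {D : CData A V} (R : RData D) (q : ℕ) : A q →ₗ[ℂ] A q :=
  GaA (D.io q) (D.s q) (D.sh q) (R.pi q) (R.Gam q) R.k

/-- `S_A = s ι` commutes with `d` (from the homotopy identities). -/
theorem CData.dS (D : CData A V) (q : ℕ) (a : A q) :
    D.d q (D.s q (D.io q a)) = D.s (q + 1) (D.io (q + 1) (D.d q a)) := by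
  cases q with
  | zero =>
    have e0 := D.h0 a
    have e1 := D.h1 0 (D.d 0 a)
    have e2 : D.s 0 (D.io 0 a) = a - D.p 0 (D.d 0 a) := by rw [← e0]; abel
    have e3 : D.s (0 + 1) (D.io (0 + 1) (D.d 0 a))
        = D.d 0 a - (D.d 0 (D.p 0 (D.d 0 a)) + D.p (0 + 1) (D.d (0 + 1) (D.d 0 a))) := by
      rw [← e1]; abel
    rw [e2, e3, D.dd, map_zero, map_sub, add_zero]
  | succ q =>
    have e0 := D.h1 q a
    have e1 := D.h1 (q + 1) (D.d (q + 1) a)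
    have e2 : D.s (q + 1) (D.io (q + 1) a) = a - (D.d q (D.p q a) + D.p (q + 1) (D.d (q + 1) a)) := by
      rw [← e0]; abel
    have e3 : D.s (q + 1 + 1) (D.io (q + 1 + 1) (D.d (q + 1) a))
        = D.d (q + 1) a - (D.d (q + 1) (D.p (q + 1) (D.d (q + 1) a))
          + D.p (q + 1 + 1) (D.d (q + 1 + 1) (D.d (q + 1) a))) := by
      rw [← e1]; abel
    rw [e2, e3, D.dd, map_zero, map_sub, map_add, D.dd, zero_add, add_zero]

/-- `β_q = Tr (ψ_q · ŝ_q p̂_q Γ_{q+1})`, `ψ_q = F̂_{q+1} δ̂_q : V_q → V_{q+1}`. -/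
noncomputable def RData.beta {D : CData A V} (R : RData D) (q : ℕ) : ℂ :=
  trN (nuc_compLeft (D.nd q) (D.Fh (q + 1))).choose
    ((D.sh q).comp ((D.ph q).comp (R.Gam (q + 1))))

end

end FB
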