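import Pool.Agent.H.MP_fb873c_an.T1e
import Pool.Agent.H.MP_fb873c_an.T4c
import Pool.Agent.H.MP_fb873c_an.T5D

/-! Part T5e -/

namespace FB

open MeasureTheory

section

variable {A V : ℕ → Type*} [∀ q, AddCommGroup (A q)] [∀ q, Module ℂ (A q)]
    [∀ q, NormedAddCommGroup (V q)] [∀ q, NormedSpace ℂ (V q)] [∀ q, CompleteSpace (V q)]

/-- JOB T5e.  Existence.  `nuc_compact` and `riesz_decomposition` in each degree `q ≤ N`; for `q > N`,
`A q` is trivial, so `D.sh q = 0` (`hs`), and one takes `pi = 0`, `Gam = 1`.  `k` = maximum of the finitely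
many exponents. -/
theorem exists_RData (D : CData A V) : Nonempty (RData D) := by
  have key : ∀ q, ∃ (k0 : ℕ) (pi Gam : V q →L[ℂ] V q), (D.N < q → pi = 0) ∧
      FiniteDimensional ℂ (LinearMap.range pi.toLinearMap) ∧
      pi * pi = pi ∧ D.sh q * pi = pi * D.sh q ∧ D.sh q * Gam = Gam * D.sh q ∧
      (1 - D.sh q) * Gam = 1 - pi ∧ Gam * (1 - D.sh q) = 1 - pi ∧ Gam * pi = 0 ∧ pi * Gam = 0 ∧
      (1 - D.sh q) ^ k0 * pi = 0 := by
    intro q
    by_cases hq : D.N < q
    · have : Subsingleton (A q) := D.hN q hq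
      have h0 : D.sh q = 0 := by
        ext v
        rw [D.hs, Subsingleton.elim (D.s q v) 0, map_zero]
        rfl
      refine ⟨0, 0, 1, fun _ => rfl, ?_, ?_, ?_, ?_, ?_, ?_, ?_, ?_, ?_⟩
      · have h1 : LinearMap.range ((0 : V q →L[ℂ] V q)).toLinearMap = ⊥ := by
          rw [LinearMap.range_eq_bot]
          rfl
        rw [h1]
        infer_instance
      all_goals simp [h0]
    · obtain ⟨k0, pi, Gam, h⟩ := riesz_decomposition (D.sh q) (nuc_compact (D.ns q))
      exact ⟨k0, pi, Gam, fun h' => absurd h' hq, h⟩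
  choose k0 pi Gam h0 hfin h1 h2 h3 h4 h5 h6 h7 h8 using key
  refine ⟨{
    k := (Finset.range (D.N + 1)).sup k0
    pi := pi
    Gam := Gam
    fin := hfin
    h1 := h1
    h2 := h2
    h3 := h3
    h4 := h4
    h5 := h5
    h6 := h6
    h7 := h7
    h8 := fun q => ?_ }⟩
  by_cases hq : D.N < q
  · rw [h0 q hq, mul_zero]
  · have hle : k0 q ≤ (Finset.range (D.N + 1)).sup k0 :=
      Finset.le_sup (Finset.mem_range.2 (by omega))
    obtain ⟨e, he⟩ := Nat.exists_eq_add_of_le hle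
    rw [he, pow_add, (Commute.pow_pow_self (1 - D.sh q) (k0 q) e).eq, mul_assoc, h8, mul_zero]

end

end FB
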