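import Pool.Agent.H.MP_fb873c_an.C0

/-! Part T5c: Hopf trace formula -/

namespace FB

open MeasureTheory

section exact

variable {A K C : Type*} [AddCommGroup A] [Module ℂ A] [AddCommGroup K] [Module ℂ K]
  [AddCommGroup C] [Module ℂ C] [FiniteDimensional ℂ A] [FiniteDimensional ℂ K]
  [FiniteDimensional ℂ C]

/-- The trace is additive in short exact sequences. -/
theorem T5c_trace_exact (i : K →ₗ[ℂ] A) (p : A →ₗ[ℂ] C) (hi : Function.Injective i)
    (hp : Function.Surjective p) (hex : LinearMap.range i = LinearMap.ker p)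
    (Φ : A →ₗ[ℂ] A) (ΦK : K →ₗ[ℂ] K) (ΦC : C →ₗ[ℂ] C)
    (h1 : ∀ k, Φ (i k) = i (ΦK k)) (h2 : ∀ a, p (Φ a) = ΦC (p a)) :
    LinearMap.trace ℂ A Φ = LinearMap.trace ℂ K ΦK + LinearMap.trace ℂ C ΦC := by
  obtain ⟨s, hs⟩ := LinearMap.exists_rightInverse_of_surjective p (LinearMap.range_eq_top.2 hp)
  obtain ⟨r0, hr0⟩ := LinearMap.exists_leftInverse_of_injective i (LinearMap.ker_eq_bot.2 hi)
  have hs' : ∀ c, p (s c) = c := fun c => LinearMap.congr_fun hs c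
  have hr0' : ∀ k, r0 (i k) = k := fun k => LinearMap.congr_fun hr0 k
  let r : A →ₗ[ℂ] K := r0 ∘ₗ (LinearMap.id - s ∘ₗ p)
  have hr : ∀ a, i (r a) + s (p a) = a := by
    intro a
    have h3 : a - s (p a) ∈ LinearMap.ker p := by
      rw [LinearMap.mem_ker, map_sub, hs', sub_self]
    rw [← hex] at h3
    obtain ⟨k, hk⟩ := h3
    show i (r0 (a - s (p a))) + s (p a) = a
    rw [← hk, hr0', hk]
    abel
  have hpi : ∀ k, p (i k) = 0 := by
    intro k
    have h3 : i k ∈ LinearMap.ker p := by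
      rw [← hex]
      exact ⟨k, rfl⟩
    exact h3
  have hri : ∀ k, r (i k) = k := by
    intro k
    show r0 (i k - s (p (i k))) = k
    rw [hpi, map_zero, sub_zero, hr0']
  have e1 : Φ = (Φ ∘ₗ i) ∘ₗ r + (Φ ∘ₗ s) ∘ₗ p := by
    ext a
    simp only [LinearMap.add_apply, LinearMap.comp_apply]
    rw [← map_add, hr]
  have e2 : r ∘ₗ (Φ ∘ₗ i) = ΦK := by
    ext k
    simp only [LinearMap.comp_apply]
    rw [h1, hri]
  have e3 : p ∘ₗ (Φ ∘ₗ s) = ΦC := by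
    ext c
    simp only [LinearMap.comp_apply]
    rw [h2, hs']
  calc LinearMap.trace ℂ A Φ
      = LinearMap.trace ℂ A ((Φ ∘ₗ i) ∘ₗ r + (Φ ∘ₗ s) ∘ₗ p) := by rw [← e1]
    _ = LinearMap.trace ℂ A ((Φ ∘ₗ i) ∘ₗ r) + LinearMap.trace ℂ A ((Φ ∘ₗ s) ∘ₗ p) := map_add _ _ _
    _ = LinearMap.trace ℂ K (r ∘ₗ (Φ ∘ₗ i)) + LinearMap.trace ℂ C (p ∘ₗ (Φ ∘ₗ s)) := by
        rw [LinearMap.trace_comp_comm' (Φ ∘ₗ i) r, LinearMap.trace_comp_comm' (Φ ∘ₗ s) p]
    _ = LinearMap.trace ℂ K ΦK + LinearMap.trace ℂ C ΦC := by rw [e2, e3]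

end exact

section

variable {A : ℕ → Type*} [∀ q, AddCommGroup (A q)] [∀ q, Module ℂ (A q)]

/-- The map induced on coboundaries. -/
noncomputable def T5cB (d : ∀ q, A q →ₗ[ℂ] A (q + 1))
    (φ : ∀ q, A q →ₗ[ℂ] A q) (hφ : ∀ q a, d q (φ q a) = φ (q + 1) (d q a)) (q : ℕ) :
    Bd d q →ₗ[ℂ] Bd d q :=
  (φ q).restrict (fun a ha => Bd_map d d φ hφ q a ha)

theorem T5c_Bd_le (d : ∀ q, A q →ₗ[ℂ] A (q + 1)) (dd : ∀ q a, d (q + 1) (d q a) = 0) (q : ℕ) :
    Bd d q ≤ LinearMap.ker (d q) := by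
  cases q with
  | zero => exact bot_le
  | succ q =>
    rintro _ ⟨b, rfl⟩
    exact dd q b

theorem T5c_one (d : ∀ q, A q →ₗ[ℂ] A (q + 1))
    (φ : ∀ q, A q →ₗ[ℂ] A q) (hφ : ∀ q a, d q (φ q a) = φ (q + 1) (d q a))
    (hfin : ∀ q, FiniteDimensional ℂ (A q)) (q : ℕ) :
    LinearMap.trace ℂ (A q) (φ q) = LinearMap.trace ℂ (LinearMap.ker (d q)) (Zmap d d φ hφ q) +
      LinearMap.trace ℂ (Bd d (q + 1)) (T5cB d φ hφ (q + 1)) := by
  have := hfin q
  have := hfin (q + 1)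
  have : FiniteDimensional ℂ (Bd d (q + 1)) :=
    FiniteDimensional.of_injective (Bd d (q + 1)).subtype Subtype.val_injective
  have hm : ∀ a, d q a ∈ Bd d (q + 1) := fun a => ⟨a, rfl⟩
  refine T5c_trace_exact (LinearMap.ker (d q)).subtype
    (LinearMap.codRestrict (Bd d (q + 1)) (d q) hm) Subtype.val_injective
    ?_ ?_ (φ q) (Zmap d d φ hφ q)
    (T5cB d φ hφ (q + 1)) (fun k => rfl) (fun a => ?_)
  · rintro ⟨_, b, rfl⟩
    exact ⟨b, rfl⟩
  · rw [Submodule.range_subtype, LinearMap.ker_codRestrict]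
  · apply Subtype.ext
    exact hφ q a

theorem T5c_two (d : ∀ q, A q →ₗ[ℂ] A (q + 1)) (dd : ∀ q a, d (q + 1) (d q a) = 0)
    (φ : ∀ q, A q →ₗ[ℂ] A q) (hφ : ∀ q a, d q (φ q a) = φ (q + 1) (d q a))
    (hfin : ∀ q, FiniteDimensional ℂ (A q)) (q : ℕ) :
    LinearMap.trace ℂ (LinearMap.ker (d q)) (Zmap d d φ hφ q) =
      LinearMap.trace ℂ (Bd d q) (T5cB d φ hφ q) +
      LinearMap.trace ℂ (HH d q) (Hmap d d φ hφ q) := by
  have := hfin q
  have : FiniteDimensional ℂ (Bd d q) :=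
    FiniteDimensional.of_injective (Bd d q).subtype Subtype.val_injective
  refine T5c_trace_exact (Submodule.inclusion (T5c_Bd_le d dd q))
    (Submodule.mkQ ((Bd d q).comap (LinearMap.ker (d q)).subtype))
    (Submodule.inclusion_injective _) (Submodule.mkQ_surjective _) ?_ (Zmap d d φ hφ q)
    (T5cB d φ hφ q) (Hmap d d φ hφ q) (fun k => rfl) (fun a => rfl)
  rw [Submodule.ker_mkQ, Submodule.range_inclusion]

/-- JOB T5c.  Hopf trace formula for a finite dimensional complex (all `N q` finite dimensional, zero above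
`N₀`): the alternating sum of the traces on the complex is the alternating sum of the traces on cohomology.
`tr(Φ|N_q) = tr(Φ|Z_q) + tr(Φ|N_q/Z_q)`, `N_q/Z_q ≅ B_{q+1}` equivariantly,
`tr(Φ|Z_q) = tr(Φ|B_q) + tr(Φ|H_q)`; telescope (`B_0 = 0`, `B_{N₀+1} = 0`). -/
theorem hopf_trace (d : ∀ q, A q →ₗ[ℂ] A (q + 1)) (dd : ∀ q a, d (q + 1) (d q a) = 0)
    (φ : ∀ q, A q →ₗ[ℂ] A q) (hφ : ∀ q a, d q (φ q a) = φ (q + 1) (d q a))
    (hfin : ∀ q, FiniteDimensional ℂ (A q)) (N : ℕ) (hN : ∀ q, N < q → Subsingleton (A q)) :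
    ∑ q ∈ Finset.range (N + 1), (-1 : ℂ) ^ q * LinearMap.trace ℂ (A q) (φ q) = altTr d φ hφ N := by
  have h0 : LinearMap.trace ℂ (Bd d 0) (T5cB d φ hφ 0) = 0 := by
    have h1 : T5cB d φ hφ 0 = 0 := by
      ext x
      have : x = 0 := by
        apply Subtype.ext
        exact (Submodule.mem_bot ℂ).1 x.2
      rw [this, map_zero, map_zero]
    rw [h1, map_zero]
  have hNN : LinearMap.trace ℂ (Bd d (N + 1)) (T5cB d φ hφ (N + 1)) = 0 := by
    have := hN (N + 1) (Nat.lt_succ_self N)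
    have h1 : T5cB d φ hφ (N + 1) = 0 := by
      ext x
      exact Subsingleton.elim _ _
    rw [h1, map_zero]
  have key : ∀ n : ℕ, ∑ q ∈ Finset.range n, (-1 : ℂ) ^ q * LinearMap.trace ℂ (A q) (φ q) =
      ∑ q ∈ Finset.range n, (-1 : ℂ) ^ q * LinearMap.trace ℂ (HH d q) (Hmap d d φ hφ q) -
        (-1 : ℂ) ^ n * LinearMap.trace ℂ (Bd d n) (T5cB d φ hφ n) := by
    intro n
    induction n with
    | zero => simp [h0]
    | succ n ih =>
      rw [Finset.sum_range_succ, Finset.sum_range_succ, ih, T5c_one d φ hφ hfin n,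
        T5c_two d dd φ hφ hfin n]
      ring
  rw [key (N + 1), hNN, mul_zero, sub_zero]
  rfl

/-- The restriction of `π Φ` to the range of `π`. -/
noncomputable def resRange {A : Type*} [AddCommGroup A] [Module ℂ A] (pi Φ : A →ₗ[ℂ] A) :
    LinearMap.range pi →ₗ[ℂ] LinearMap.range pi :=
  pi.rangeRestrict ∘ₗ Φ ∘ₗ (LinearMap.range pi).subtype

end

end FB
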