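import Pool.Agent.H.MP_fb873c_an.T5o

/-! Part T5a -/

namespace FB

open MeasureTheory

section

variable {A V : Type*} [AddCommGroup A] [Module ℂ A]
  [NormedAddCommGroup V] [NormedSpace ℂ V] [CompleteSpace V]

/-- JOB T5a.  One degree algebra.  Write `T = 1-K`, `TA = 1 - s ι`.
`ι s = K` gives `ι TA = T ι`, `TA s = s T`.  `1 - T^k = K u` (`mul_geom_sum`/`geom_sum`),
`T^k π = 0` (from `T^k0 π = 0`, `k0 ≤ k`), so `K u π = π` and:
`ι π^A = K u π ι = π ι`; `TA^k π^A = s T^k u π ι = 0`;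
`π^A π^A = s u π ι s u π ι = s u π K u π ι = s u π ι`;
`ι Γ^A = (1-π+KΓ) ι = Γ ι` since `Γ - KΓ = 1-π`;
`TA Γ^A = (1-π^A) + s Γ ι - s ι (1-π^A) - s K Γ ι = (1-π^A) + s(Γ-KΓ-(1-π)) ι = 1-π^A`;
`Γ^A TA = 1 - π^A` (computation: `Γ^A TA = TA - π^A TA + s Γ T ι`, `Γ T = 1-π`, and
`(u T + 1 - u) π = T^k π = 0`);
`Γ^A π^A = (1-π^A)π^A + s Γ K u π ι = 0`, `π^A Γ^A = π^A - π^A π^A + s u π K Γ ι = 0` (as `π Γ = 0` and
all commute). -/
theorem oneDegree (io : A →ₗ[ℂ] V) (s : V →ₗ[ℂ] A) (K pi Gam : V →L[ℂ] V) (k0 k : ℕ) (hk : k0 ≤ k)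
    (hK : ∀ v, K v = io (s v))
    (h1 : pi * pi = pi) (h2 : K * pi = pi * K) (h3 : K * Gam = Gam * K)
    (h4 : (1 - K) * Gam = 1 - pi) (h5 : Gam * (1 - K) = 1 - pi) (h6 : Gam * pi = 0)
    (h7 : pi * Gam = 0) (h8 : (1 - K) ^ k0 * pi = 0) :
    (∀ a, io (piA io s K pi k a) = pi (io a)) ∧
    (∀ a, ((LinearMap.id - s ∘ₗ io : A →ₗ[ℂ] A) ^ k) (piA io s K pi k a) = 0) ∧
    (piA io s K pi k) ∘ₗ (piA io s K pi k) = piA io s K pi k ∧
    (∀ a, io (GaA io s K pi Gam k a) = Gam (io a)) ∧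
    (LinearMap.id - s ∘ₗ io) ∘ₗ (GaA io s K pi Gam k) = LinearMap.id - piA io s K pi k ∧
    (GaA io s K pi Gam k) ∘ₗ (LinearMap.id - s ∘ₗ io) = LinearMap.id - piA io s K pi k ∧
    (GaA io s K pi Gam k) ∘ₗ (piA io s K pi k) = 0 ∧
    (piA io s K pi k) ∘ₗ (GaA io s K pi Gam k) = 0 := by
  obtain ⟨U, hU⟩ : ∃ U : V →L[ℂ] V, U = ∑ j ∈ Finset.range k, (1 - K) ^ j := ⟨_, rfl⟩
  have cK : Commute K pi := h2
  have cG : Commute K Gam := h3
  have cT : Commute (1 - K) pi := (Commute.one_left pi).sub_left cK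
  have cTG : Commute (1 - K) Gam := (Commute.one_left Gam).sub_left cG
  have cUp : Commute U pi := by
    rw [hU]
    exact Commute.sum_left _ _ _ fun j _ => cT.pow_left j
  have cUG : Commute U Gam := by
    rw [hU]
    exact Commute.sum_left _ _ _ fun j _ => cTG.pow_left j
  have cTK : Commute (1 - K) K := (Commute.one_left K).sub_left (Commute.refl K)
  have cUK : Commute U K := by
    rw [hU]
    exact Commute.sum_left _ _ _ fun j _ => cTK.pow_left j
  have hTk : (1 - K) ^ k * pi = 0 := by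
    obtain ⟨d, rfl⟩ := Nat.exists_eq_add_of_le hk
    rw [add_comm k0 d, pow_add, mul_assoc, h8, mul_zero]
  have hKU : K * U = 1 - (1 - K) ^ k := by
    have h := mul_neg_geom_sum (1 - K) k
    rw [← hU, sub_sub_cancel] at h
    exact h
  have hKW : K * (U * pi) = pi := by
    rw [← mul_assoc, hKU, sub_mul, hTk, one_mul, sub_zero]
  have hWK : U * pi * K = pi := by
    rw [mul_assoc, ← cK.eq, ← mul_assoc, cUK.eq, mul_assoc, hKW]
  have hWp : U * pi * pi = U * pi := by rw [mul_assoc, h1]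
  have hWG : U * pi * Gam = 0 := by rw [mul_assoc, h7, mul_zero]
  have hTW : (1 - K) ^ k * (U * pi) = 0 := by
    rw [cUp.eq, ← mul_assoc, hTk, zero_mul]
  obtain ⟨W, hW⟩ : ∃ W : V →L[ℂ] V, W = U * pi := ⟨_, rfl⟩
  rw [← hW] at hKW hWK hWp hWG hTW
  have hp : ∀ a, piA io s K pi k a = s (W (io a)) := by
    intro a
    rw [hW, hU]
    rfl
  have hg : ∀ a, GaA io s K pi Gam k a = a - s (W (io a)) + s (Gam (io a)) := by
    intro a
    rw [← hp]
    rfl
  have e1 : ∀ v, K (W v) = pi v := fun v => congrArg (fun f : V →L[ℂ] V => f v) hKW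
  have e2 : ∀ v, W (K v) = pi v := fun v => congrArg (fun f : V →L[ℂ] V => f v) hWK
  have e3 : ∀ v, W (pi v) = W v := fun v => congrArg (fun f : V →L[ℂ] V => f v) hWp
  have e4 : ∀ v, W (Gam v) = 0 := fun v => congrArg (fun f : V →L[ℂ] V => f v) hWG
  have e5 : ∀ v, Gam v - K (Gam v) = v - pi v := fun v => by
    have h := congrArg (fun f : V →L[ℂ] V => f v) h4
    simpa [sub_mul] using h
  have e6 : ∀ v, Gam (v - K v) = v - pi v := fun v =>
    congrArg (fun f : V →L[ℂ] V => f v) h5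
  have e7 : ∀ v, Gam (pi v) = 0 := fun v => congrArg (fun f : V →L[ℂ] V => f v) h6
  have i1 : ∀ a, io (piA io s K pi k a) = pi (io a) := by
    intro a
    rw [hp, ← hK, e1]
  have i4 : ∀ a, io (GaA io s K pi Gam k a) = Gam (io a) := by
    intro a
    rw [hg, map_add, map_sub, ← hK, ← hK, e1]
    have h := e5 (io a)
    rw [sub_eq_iff_eq_add] at h
    exact h.symm
  refine ⟨i1, ?_, ?_, i4, ?_, ?_, ?_, ?_⟩
  · intro a
    have key : ∀ (n : ℕ) (v : V), ((LinearMap.id - s ∘ₗ io : A →ₗ[ℂ] A) ^ n) (s v) =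
        s (((1 - K) ^ n) v) := by
      intro n
      induction n with
      | zero => intro v; simp
      | succ n ih =>
        intro v
        have h9 : (LinearMap.id - s ∘ₗ io : A →ₗ[ℂ] A) (s v) = s ((1 - K) v) := by
          show s v - s (io (s v)) = s (v - K v)
          rw [map_sub, hK]
        rw [pow_succ, pow_succ]
        show ((LinearMap.id - s ∘ₗ io : A →ₗ[ℂ] A) ^ n)
          ((LinearMap.id - s ∘ₗ io : A →ₗ[ℂ] A) (s v)) = s (((1 - K) ^ n) ((1 - K) v))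
        rw [h9, ih]
    rw [hp, key]
    have h9 : ((1 - K) ^ k) (W (io a)) = 0 :=
      congrArg (fun f : V →L[ℂ] V => f (io a)) hTW
    rw [h9, map_zero]
  · refine LinearMap.ext fun a => ?_
    show piA io s K pi k (piA io s K pi k a) = piA io s K pi k a
    rw [hp (piA io s K pi k a), i1, e3, hp]
  · refine LinearMap.ext fun a => ?_
    show GaA io s K pi Gam k a - s (io (GaA io s K pi Gam k a)) = a - piA io s K pi k a
    rw [i4, hg, hp, add_sub_cancel_right]
  · refine LinearMap.ext fun a => ?_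
    show GaA io s K pi Gam k (a - s (io a)) = a - piA io s K pi k a
    have h9 : io (a - s (io a)) = io a - K (io a) := by rw [map_sub, hK]
    rw [hg, hp, h9, e6, map_sub W, e2, map_sub s, map_sub s]
    abel
  · refine LinearMap.ext fun a => ?_
    show GaA io s K pi Gam k (piA io s K pi k a) = 0
    rw [hg, i1, e3, e7, map_zero, hp, sub_self, add_zero]
  · refine LinearMap.ext fun a => ?_
    show piA io s K pi k (GaA io s K pi Gam k a) = 0
    rw [hp, i4, e4, map_zero]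

end

end FB
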