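import Mathlib

/-! Part T5b -/

namespace FB

open MeasureTheory

section


/-- JOB T5b.  Functoriality: `d` intertwines `TA` and `TA'`; then it intertwines `π` and `Γ`, when
`T^k π = 0` on both sides with the same `k`.
`d π a ∈ ker TA'^k` and `1 - π' = Γ'^k TA'^k` (`Γ', TA'` commute and `1-π'` is idempotent, so
`(Γ' TA')^k = 1 - π'`; for `k = 0`, `π a = 0` and `π' = 0`) so `π' d π = d π`;
`d (1-π) a = d TA^k Γ^k a = TA'^k d Γ^k a` is killed by `π'` (`π' TA'^k = TA'^k π' = 0`: `π'` commutes with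
`TA'` since `π' = 1 - Γ' TA' = 1 - TA' Γ'`) so `π' d (1-π) = 0`. Hence `π' d = d π`.
`Γ' d = Γ' d (1-π) + Γ' d π = Γ' d TA Γ + Γ' π' d = Γ' TA' d Γ = (1-π') d Γ = d (1-π) Γ = d Γ`. -/
theorem twoDegree {A A' : Type*} [AddCommGroup A] [Module ℂ A] [AddCommGroup A'] [Module ℂ A']
    (d : A →ₗ[ℂ] A') (T pi Gam : A →ₗ[ℂ] A) (T' pi' Gam' : A' →ₗ[ℂ] A') (k : ℕ)
    (hd : ∀ a, d (T a) = T' (d a))
    (h1 : pi ∘ₗ pi = pi) (h2 : T ∘ₗ Gam = LinearMap.id - pi) (h3 : Gam ∘ₗ T = LinearMap.id - pi)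
    (h4 : ∀ a, (T ^ k) (pi a) = 0) (h5 : Gam ∘ₗ pi = 0) (h6 : pi ∘ₗ Gam = 0)
    (h1' : pi' ∘ₗ pi' = pi') (h2' : T' ∘ₗ Gam' = LinearMap.id - pi')
    (h3' : Gam' ∘ₗ T' = LinearMap.id - pi') (h4' : ∀ a, (T' ^ k) (pi' a) = 0)
    (h5' : Gam' ∘ₗ pi' = 0) (h6' : pi' ∘ₗ Gam' = 0) :
    (∀ a, d (pi a) = pi' (d a)) ∧ (∀ a, d (Gam a) = Gam' (d a)) := by
  have f2 : ∀ a, T (Gam a) = a - pi a := fun a => congrArg (fun f => f a) h2
  have f5 : ∀ a, Gam (pi a) = 0 := fun a => congrArg (fun f => f a) h5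
  have f6 : ∀ a, pi (Gam a) = 0 := fun a => congrArg (fun f => f a) h6
  have f1 : ∀ a, pi (pi a) = pi a := fun a => congrArg (fun f => f a) h1
  have f1' : ∀ a, pi' (pi' a) = pi' a := fun a => congrArg (fun f => f a) h1'
  have f2' : ∀ a, T' (Gam' a) = a - pi' a := fun a => congrArg (fun f => f a) h2'
  have f3' : ∀ a, Gam' (T' a) = a - pi' a := fun a => congrArg (fun f => f a) h3'
  have f5' : ∀ a, Gam' (pi' a) = 0 := fun a => congrArg (fun f => f a) h5'
  have c' : ∀ a, T' (pi' a) = pi' (T' a) := by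
    intro a
    have e1 : T' (Gam' (T' a)) = T' a - pi' (T' a) := f2' (T' a)
    rw [f3', map_sub] at e1
    exact sub_right_injective e1
  have cp' : ∀ j a, (T' ^ j) (pi' a) = pi' ((T' ^ j) a) := by
    intro j
    induction j with
    | zero => intro a; rfl
    | succ j ih =>
      intro a
      rw [pow_succ, Module.End.mul_apply, Module.End.mul_apply, c', ih]
  have dT : ∀ j a, d ((T ^ j) a) = (T' ^ j) (d a) := by
    intro j
    induction j with
    | zero => intro a; rfl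
    | succ j ih =>
      intro a
      rw [pow_succ, pow_succ, Module.End.mul_apply, Module.End.mul_apply, ih, hd]
  -- claim A
  have A1 : ∀ u, (T' ^ k) u = 0 → pi' u = u := by
    intro u hu
    obtain ⟨v, hv⟩ : ∃ v, v = u - pi' u := ⟨_, rfl⟩
    have pv : pi' v = 0 := by rw [hv, map_sub, f1', sub_self]
    have e1 : ∀ j, v = (Gam' ^ j) ((T' ^ j) v) := by
      intro j
      induction j with
      | zero => rfl
      | succ j ih =>
        have e2 : Gam' (T' ((T' ^ j) v)) = (T' ^ j) v := by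
          rw [f3', ← cp', pv, map_zero, sub_zero]
        rw [pow_succ, pow_succ', Module.End.mul_apply, Module.End.mul_apply, e2]
        exact ih
    have e3 : (T' ^ k) v = 0 := by rw [hv, map_sub, cp', hu, map_zero, sub_zero]
    have e4 : v = 0 := by rw [e1 k, e3, map_zero]
    rw [hv] at e4
    exact (sub_eq_zero.1 e4).symm
  -- claim B
  have B1 : ∀ w, pi w = 0 → pi' (d w) = 0 := by
    intro w pw
    have e0 : ∀ j, pi ((Gam ^ j) w) = 0 := by
      intro j
      cases j with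
      | zero => exact pw
      | succ j => rw [pow_succ', Module.End.mul_apply, f6]
    have e1 : ∀ j, w = (T ^ j) ((Gam ^ j) w) := by
      intro j
      induction j with
      | zero => rfl
      | succ j ih =>
        have e2 : T (Gam ((Gam ^ j) w)) = (Gam ^ j) w := by rw [f2, e0, sub_zero]
        rw [pow_succ, pow_succ', Module.End.mul_apply, Module.End.mul_apply, e2]
        exact ih
    rw [e1 k, dT, ← cp', h4']
  have P1 : ∀ a, d (pi a) = pi' (d a) := by
    intro a
    have e1 : pi' (d (pi a)) = d (pi a) := by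
      refine A1 _ ?_
      rw [← dT, h4, map_zero]
    have e2 : pi' (d (a - pi a)) = 0 := B1 _ (by rw [map_sub, f1, sub_self])
    rw [map_sub, map_sub, e1] at e2
    exact (sub_eq_zero.1 e2).symm
  refine ⟨P1, fun a => ?_⟩
  have e1 : Gam' (d (T (Gam a))) = d (Gam a) := by
    rw [hd, f3', ← P1, f6, map_zero, sub_zero]
  have e2 : Gam' (d (pi a)) = 0 := by rw [P1, f5']
  rw [f2, map_sub, map_sub, e2, sub_zero] at e1
  exact e1.symm

end

end FB
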