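import Pool.Agent.H.MP_fb873c_an.T5D
import Pool.Agent.H.MP_fb873c_an.T5a
import Pool.Agent.H.MP_fb873c_an.T5b

/-! Part T5f -/

namespace FB

open MeasureTheory

section

variable {A V : ℕ → Type*} [∀ q, AddCommGroup (A q)] [∀ q, Module ℂ (A q)]
    [∀ q, NormedAddCommGroup (V q)] [∀ q, NormedSpace ℂ (V q)] [∀ q, CompleteSpace (V q)]

/-- JOB T5f.  Properties of `π^A`, `Γ^A` over the whole complex: from `oneDegree`, `twoDegree`
(`T = 1 - s ι`, commuting with `d` by `CData.dS`), and the homotopy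
`1 - π^A = T Γ^A = (d p + p d) Γ^A = d (p Γ^A) + (p Γ^A) d`. -/
theorem RData.props {D : CData A V} (R : RData D) :
    (∀ q, R.pA q ∘ₗ R.pA q = R.pA q) ∧
    (∀ q, FiniteDimensional ℂ (LinearMap.range (R.pA q))) ∧
    (∀ q a, D.d q (R.pA q a) = R.pA (q + 1) (D.d q a)) ∧
    (∀ q a, D.d q (R.gA q a) = R.gA (q + 1) (D.d q a)) ∧
    (∀ q a, D.io q (R.pA q a) = R.pi q (D.io q a)) ∧
    (∀ q a, D.io q (R.gA q a) = R.Gam q (D.io q a)) ∧
    (∀ a, a - R.pA 0 a = D.p 0 (R.gA 1 (D.d 0 a))) ∧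
    (∀ q a, a - R.pA (q + 1) a
      = D.d q (D.p q (R.gA (q + 1) a)) + D.p (q + 1) (R.gA (q + 2) (D.d (q + 1) a))) := by
  have O : ∀ q, (∀ a, D.io q (R.pA q a) = R.pi q (D.io q a)) ∧
      (∀ a, ((LinearMap.id - D.s q ∘ₗ D.io q : A q →ₗ[ℂ] A q) ^ R.k) (R.pA q a) = 0) ∧
      (R.pA q) ∘ₗ (R.pA q) = R.pA q ∧
      (∀ a, D.io q (R.gA q a) = R.Gam q (D.io q a)) ∧
      (LinearMap.id - D.s q ∘ₗ D.io q) ∘ₗ (R.gA q) = LinearMap.id - R.pA q ∧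
      (R.gA q) ∘ₗ (LinearMap.id - D.s q ∘ₗ D.io q) = LinearMap.id - R.pA q ∧
      (R.gA q) ∘ₗ (R.pA q) = 0 ∧ (R.pA q) ∘ₗ (R.gA q) = 0 := fun q =>
    oneDegree (D.io q) (D.s q) (D.sh q) (R.pi q) (R.Gam q) R.k R.k le_rfl (D.hs q) (R.h1 q)
      (R.h2 q) (R.h3 q) (R.h4 q) (R.h5 q) (R.h6 q) (R.h7 q) (R.h8 q)
  have W : ∀ q, (∀ a, D.d q (R.pA q a) = R.pA (q + 1) (D.d q a)) ∧
      (∀ a, D.d q (R.gA q a) = R.gA (q + 1) (D.d q a)) := by
    intro q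
    obtain ⟨-, b2, b3, -, b5, b6, b7, b8⟩ := O q
    obtain ⟨-, c2, c3, -, c5, c6, c7, c8⟩ := O (q + 1)
    refine twoDegree (D.d q) (LinearMap.id - D.s q ∘ₗ D.io q) (R.pA q) (R.gA q)
      (LinearMap.id - D.s (q + 1) ∘ₗ D.io (q + 1)) (R.pA (q + 1)) (R.gA (q + 1)) R.k ?_
      b3 b5 b6 b2 b7 b8 c3 c5 c6 c2 c7 c8
    intro a
    simp only [LinearMap.sub_apply, LinearMap.id_apply, LinearMap.comp_apply, map_sub]
    rw [D.dS q a]
  refine ⟨fun q => (O q).2.2.1, ?_, fun q => (W q).1, fun q => (W q).2, fun q => (O q).1,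
    fun q => (O q).2.2.2.1, ?_, ?_⟩
  · intro q
    have hfin := R.fin q
    set L : V q →ₗ[ℂ] A q := D.s q ∘ₗ
      ((∑ j ∈ Finset.range R.k, (1 - D.sh q) ^ j : V q →L[ℂ] V q)).toLinearMap with hL
    have hle : LinearMap.range (R.pA q) ≤
        Submodule.map L (LinearMap.range (R.pi q).toLinearMap) := by
      rintro _ ⟨a, rfl⟩
      exact ⟨R.pi q (D.io q a), ⟨D.io q a, rfl⟩, rfl⟩
    exact Submodule.finiteDimensional_of_le hle
  · intro a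
    have e1 := D.h0 (R.gA 0 a)
    have e2 := LinearMap.congr_fun (O 0).2.2.2.2.1 a
    simp only [LinearMap.sub_apply, LinearMap.id_apply, LinearMap.comp_apply] at e2
    rw [← e2, e1, (W 0).2 a]
  · intro q a
    have e1 := D.h1 q (R.gA (q + 1) a)
    have e2 := LinearMap.congr_fun (O (q + 1)).2.2.2.2.1 a
    simp only [LinearMap.sub_apply, LinearMap.id_apply, LinearMap.comp_apply] at e2
    rw [← e2, e1, (W (q + 1)).2 a]

end

end FB
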