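import Pool.Agent.H.MP_fb873c_an.T1d
import Pool.Agent.H.MP_fb873c_an.T5c
import Pool.Agent.H.MP_fb873c_an.T5f

/-! Part T5g -/

namespace FB

open MeasureTheory

section

variable {A V : ℕ → Type*} [∀ q, AddCommGroup (A q)] [∀ q, Module ℂ (A q)]
    [∀ q, NormedAddCommGroup (V q)] [∀ q, NormedSpace ℂ (V q)] [∀ q, CompleteSpace (V q)]

/-- JOB T5g.  The finite rank part.  `Φ = S_A F S_A` (`S_A = s ι`), `ι Φ = ŝ F̂ ŝ ι`.
`π = j π'` through `N = range π` (finite dimensional, subspace norm), so by `trN_finrank` the left side is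
`tr_N (π' ŝ F̂ ŝ j)`; `ι` restricts to a linear isomorphism `range π^A → range π` (`ι π^A = π ι`; injective:
`π^A a = s u(ŝ) π ι a`, so `ι π^A a = π ι a = 0` implies `π^A a = 0`; surjective:
for `n ∈ range π`, `n = ŝ u(ŝ) n`-type identity gives `n = ι (s u(ŝ) n)` and `π^A (s u n) = s u n`)
conjugating `resRange π^A Φ` to `π' ŝ F̂ ŝ j`. -/
theorem RData.finite_part {D : CData A V} (R : RData D) (q : ℕ) :
    trN (D.ns q) ((D.Fh q * D.sh q) * R.pi q) =
      LinearMap.trace ℂ (LinearMap.range (R.pA q))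
        (resRange (R.pA q) ((D.s q ∘ₗ D.io q) ∘ₗ D.F q ∘ₗ (D.s q ∘ₗ D.io q))) := by
  obtain ⟨p1, -, -, -, p5, -, -, -⟩ := R.props
  have hfin := R.fin q
  -- `K U π = π`
  obtain ⟨U, hU⟩ : ∃ U : V q →L[ℂ] V q, U = ∑ j ∈ Finset.range R.k, (1 - D.sh q) ^ j := ⟨_, rfl⟩
  have hKU : D.sh q * U = 1 - (1 - D.sh q) ^ R.k := by
    have h := mul_neg_geom_sum (1 - D.sh q) R.k
    rw [← hU, sub_sub_cancel] at h
    exact h
  have hKW : D.sh q * (U * R.pi q) = R.pi q := by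
    rw [← mul_assoc, hKU, sub_mul, R.h8, one_mul, sub_zero]
  have hKWv : ∀ v, D.sh q (U (R.pi q v)) = R.pi q v := fun v =>
    congrArg (fun f : V q →L[ℂ] V q => f v) hKW
  have hpA : ∀ a, R.pA q a = D.s q (U (R.pi q (D.io q a))) := by
    intro a
    rw [hU]
    rfl
  have hpp : ∀ v, R.pi q (R.pi q v) = R.pi q v := fun v =>
    congrArg (fun f : V q →L[ℂ] V q => f v) (R.h1 q)
  -- the factorization of `π`
  let N : Submodule ℂ (V q) := LinearMap.range (R.pi q).toLinearMap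
  let jN : N →L[ℂ] V q := N.subtypeL
  let πN : V q →L[ℂ] N := (R.pi q).codRestrict N (fun v => ⟨v, rfl⟩)
  have hfac : (D.Fh q * D.sh q) * R.pi q = ((D.Fh q * D.sh q).comp jN).comp πN := by
    ext v
    rfl
  rw [hfac, trN_finrank]
  -- the isomorphism
  let e0 : LinearMap.range (R.pA q) →ₗ[ℂ] N :=
    LinearMap.codRestrict N (D.io q ∘ₗ (LinearMap.range (R.pA q)).subtype) (by
      rintro ⟨_, ⟨a, rfl⟩⟩
      exact ⟨D.io q a, (p5 q a).symm⟩)
  have hinj : Function.Injective e0 := by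
    rw [injective_iff_map_eq_zero]
    rintro ⟨_, ⟨a, rfl⟩⟩ h
    have h1 : D.io q (R.pA q a) = 0 := congrArg Subtype.val h
    apply Subtype.ext
    show R.pA q a = 0
    rw [p5] at h1
    rw [hpA, h1, map_zero, map_zero]
  have hsurj : Function.Surjective e0 := by
    rintro ⟨_, ⟨v, rfl⟩⟩
    have hio : D.io q (D.s q (U (R.pi q v))) = R.pi q v := by
      rw [← D.hs, hKWv]
    refine ⟨⟨D.s q (U (R.pi q v)), ⟨D.s q (U (R.pi q v)), ?_⟩⟩, ?_⟩
    · rw [hpA, hio, hpp]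
    · apply Subtype.ext
      exact hio
  let e : LinearMap.range (R.pA q) ≃ₗ[ℂ] N := LinearEquiv.ofBijective e0 ⟨hinj, hsurj⟩
  rw [← LinearMap.trace_conj' (resRange (R.pA q)
    ((D.s q ∘ₗ D.io q) ∘ₗ D.F q ∘ₗ (D.s q ∘ₗ D.io q))) e]
  congr 1
  refine LinearMap.ext fun n => ?_
  obtain ⟨x, rfl⟩ := e.surjective n
  rw [LinearEquiv.conj_apply_apply, LinearEquiv.symm_apply_apply]
  apply Subtype.ext
  show R.pi q (D.sh q (D.Fh q (D.sh q (D.io q x)))) =
    D.io q (R.pA q (D.s q (D.io q (D.F q (D.s q (D.io q x))))))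
  rw [p5, D.hs, D.hs, D.hF]

end

end FB
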