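import Pool.Agent.H.MP_fb873c_an.T1b
import Pool.Agent.H.MP_fb873c_an.T5f

/-! Part T5h -/

namespace FB

open MeasureTheory

section

variable {A V : ℕ → Type*} [∀ q, AddCommGroup (A q)] [∀ q, Module ℂ (A q)]
    [∀ q, NormedAddCommGroup (V q)] [∀ q, NormedSpace ℂ (V q)] [∀ q, CompleteSpace (V q)]

/-- `(1-π) F̂ ŝ = p̂ Γ F̂ δ̂` in degree 0. -/
theorem RData.compl_zero_op {D : CData A V} (R : RData D) :
    (1 - R.pi 0).comp ((D.Fh 0).comp (D.sh 0))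
      = ((D.ph 0).comp (R.Gam 1)).comp ((D.Fh 1).comp (D.dh 0)) := by
  obtain ⟨-, -, -, -, h5, h6, h7, -⟩ := R.props
  ext v
  have e1 : D.Fh 0 (D.sh 0 v) = D.io 0 (D.F 0 (D.s 0 v)) := by
    rw [D.hs, D.hF]
  have e2 : D.Fh 1 (D.dh 0 v) = D.io 1 (D.d 0 (D.F 0 (D.s 0 v))) := by
    rw [D.hd, ← D.hF, D.dF]
  show D.Fh 0 (D.sh 0 v) - R.pi 0 (D.Fh 0 (D.sh 0 v)) = D.ph 0 (R.Gam 1 (D.Fh 1 (D.dh 0 v)))
  rw [e1, e2, ← h6 1, ← D.hp, ← h7, map_sub, h5]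

/-- JOB T5h.  The complementary part, degree 0.  `C := ŝ (1-π)`; by cyclicity and commutation
`Tr(ŝ · F̂ ŝ (1-π)) = Tr(F̂ ŝ · ŝ(1-π)) = Tr(F̂ŝ · C) = Tr(C · F̂ ŝ)`, and `C F̂ ŝ = ŝ p̂ Γ ψ_0`, because
`C ι a = ι S_A (1-π^A) a = ι S_A p Γ^A d a = ŝ p̂ Γ ι d a` and `F̂ ŝ v = ι F s v`, `ι d F s v = ψ_0 v`.
Then cyclicity again.  (`S_A = s ι`, see `RData.props`.) -/
theorem RData.compl_zero {D : CData A V} (R : RData D) :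
    trN (D.ns 0) ((D.Fh 0 * D.sh 0) * (1 - R.pi 0)) = R.beta 0 := by
  -- nuclear data
  obtain ⟨D2, hD2⟩ := nuc_compLeft (D.ns 0) (D.Fh 0)
  obtain ⟨D3, hD3⟩ := nuc_compRight D2 (1 - R.pi 0)
  obtain ⟨D1, hD1⟩ := nuc_compRight (D.ns 0) (1 - R.pi 0)
  obtain ⟨DE, hDE⟩ := nuc_compRight (D.ns 0) ((D.ph 0).comp (R.Gam 1))
  have hcomm : (1 - R.pi 0).comp (D.sh 0) = (D.sh 0).comp (1 - R.pi 0) := by
    have h := R.h2 0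
    show (1 - R.pi 0) * D.sh 0 = D.sh 0 * (1 - R.pi 0)
    rw [sub_mul, mul_sub, one_mul, mul_one, h]
  have e1 : trN (D.ns 0) ((D.Fh 0 * D.sh 0) * (1 - R.pi 0))
      = trN (D.ns 0) (((D.ph 0).comp (R.Gam 1)).comp ((D.Fh 1).comp (D.dh 0))) := by
    calc trN (D.ns 0) ((D.Fh 0 * D.sh 0) * (1 - R.pi 0)) = trN D3 (D.sh 0) := trN_cyc (D.ns 0) D3
      _ = trN D2 ((1 - R.pi 0).comp (D.sh 0)) := hD3 _
      _ = trN D2 ((D.sh 0).comp (1 - R.pi 0)) := by rw [hcomm]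
      _ = trN D1 ((D.Fh 0).comp (D.sh 0)) := trN_cyc D2 D1
      _ = trN (D.ns 0) ((1 - R.pi 0).comp ((D.Fh 0).comp (D.sh 0))) := hD1 _
      _ = _ := by rw [R.compl_zero_op]
  rw [e1, ← hDE]
  exact trN_cyc DE _

end

end FB
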