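import Pool.Agent.H.MP_fb873c_an.T1b
import Pool.Agent.H.MP_fb873c_an.T1f
import Pool.Agent.H.MP_fb873c_an.T5f

/-! Part T5i -/

namespace FB

open MeasureTheory

section

variable {A V : ℕ → Type*} [∀ q, AddCommGroup (A q)] [∀ q, Module ℂ (A q)]
    [∀ q, NormedAddCommGroup (V q)] [∀ q, NormedSpace ℂ (V q)] [∀ q, CompleteSpace (V q)]

/-- `F̂_{q+1} ŝ_{q+1} δ̂_q = F̂_{q+1} δ̂_q ŝ_q`. -/
private theorem T5i_aux1 (D : CData A V) (q : ℕ) (v : V q) :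
    D.sh (q + 1) (D.dh q v) = D.dh q (D.sh q v) := by
  rw [D.hs, D.hd, D.hd, D.hs, D.dS]

/-- `C ι a = ŝ p̂ Γ ι d a`. -/
private theorem T5i_aux2 {D : CData A V} (R : RData D) (q : ℕ) (a : A (q + 1)) :
    D.sh (q + 1) (D.io (q + 1) a - R.pi (q + 1) (D.io (q + 1) a)) -
      D.dh q (D.ph q (R.Gam (q + 1) (D.io (q + 1) a))) =
    D.sh (q + 1) (D.ph (q + 1) (R.Gam (q + 2) (D.io (q + 2) (D.d (q + 1) a)))) := by
  obtain ⟨-, -, -, -, h5, h6, -, h8⟩ := R.props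
  have e1 : D.io (q + 1) a - R.pi (q + 1) (D.io (q + 1) a) =
      D.io (q + 1) (D.d q (D.p q (R.gA (q + 1) a))) +
        D.io (q + 1) (D.p (q + 1) (R.gA (q + 2) (D.d (q + 1) a))) := by
    rw [← h5, ← map_sub, h8, map_add]
  have e2 : D.dh q (D.ph q (R.Gam (q + 1) (D.io (q + 1) a))) =
      D.sh (q + 1) (D.io (q + 1) (D.d q (D.p q (R.gA (q + 1) a)))) := by
    rw [← h6, ← D.hp, D.hd, D.hs, D.dS]
  have e3 : D.ph (q + 1) (R.Gam (q + 2) (D.io (q + 2) (D.d (q + 1) a))) =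
      D.io (q + 1) (D.p (q + 1) (R.gA (q + 2) (D.d (q + 1) a))) := by
    rw [← h6, ← D.hp]
  rw [e1, e2, e3, map_add, add_sub_cancel_left]

/-- JOB T5i.  The complementary part, degree `q+1`.  `C := ŝ (1-π) - δ̂_q p̂_q Γ_{q+1}` on `V_{q+1}`.
`F̂ δ̂_q = ψ_q` and `F̂_{q+1} ŝ_{q+1} δ̂_q = ψ_q ŝ_q` (both are `v ↦ ι d F (s ι) s v`-type identities:
`F̂ ŝ δ̂ v = ι F s ι d s v = ι F d s ι s v = ι d F s (ŝ v) = ψ_q (ŝ v)` by `CData.dS`), so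
`F̂ŝ · ŝ(1-π) = F̂ ŝ C + ψ_q ŝ_q p̂_q Γ_{q+1}`;
`C ι a = ι S_A ((1-π^A) - d p Γ^A) a = ι S_A p Γ^A d a = ŝ p̂ Γ ι d a`, so `C F̂ ŝ = ŝ_{q+1} p̂_{q+1} Γ_{q+2} ψ_{q+1}`.
Cyclicity: `Tr(ŝ F̂ ŝ (1-π)) = Tr(F̂ŝ · ŝ(1-π)) = Tr(F̂ŝ · C) + Tr(ψ_q ŝ_q p̂_q Γ_{q+1})
= Tr(C · F̂ŝ) + β_q = Tr(ŝ p̂ Γ · ψ_{q+1}) + β_q = β_{q+1} + β_q`.  (`trN_eq_of_comp_eq` where the
factors of a product are changed.) -/
theorem RData.compl_succ {D : CData A V} (R : RData D) (q : ℕ) :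
    trN (D.ns (q + 1)) ((D.Fh (q + 1) * D.sh (q + 1)) * (1 - R.pi (q + 1)))
      = R.beta (q + 1) + R.beta q := by
  obtain ⟨DFK, hDFK⟩ := nuc_compLeft (D.ns (q + 1)) (D.Fh (q + 1))
  obtain ⟨DB, hDB⟩ := nuc_compRight DFK (1 - R.pi (q + 1))
  obtain ⟨DKp, -⟩ := nuc_compRight (D.ns (q + 1)) (1 - R.pi (q + 1))
  obtain ⟨Dd, -⟩ := nuc_compRight (D.nd q) ((D.ph q).comp (R.Gam (q + 1)))
  obtain ⟨Dd', -⟩ := nuc_smul (-1 : ℂ) Dd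
  obtain ⟨DC, -⟩ := nuc_add DKp Dd'
  obtain ⟨DKP, -⟩ := nuc_compRight (D.ns (q + 1)) ((D.ph (q + 1)).comp (R.Gam (q + 2)))
  obtain ⟨DKP0, -⟩ := nuc_compRight (D.ns q) ((D.ph q).comp (R.Gam (q + 1)))
  -- Step 1
  have s1 : trN (D.ns (q + 1)) ((D.Fh (q + 1) * D.sh (q + 1)) * (1 - R.pi (q + 1))) =
      trN DFK (((1 : V (q + 1) →L[ℂ] V (q + 1)) - R.pi (q + 1)).comp (D.sh (q + 1))) := by
    rw [← hDB]
    exact trN_cyc (D.ns (q + 1)) DB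
  -- Step 2
  have s2 : ((1 : V (q + 1) →L[ℂ] V (q + 1)) - R.pi (q + 1)).comp (D.sh (q + 1)) =
      ((D.sh (q + 1)).comp (1 - R.pi (q + 1)) +
        (-1 : ℂ) • (D.dh q).comp ((D.ph q).comp (R.Gam (q + 1)))) +
      (D.dh q).comp ((D.ph q).comp (R.Gam (q + 1))) := by
    have h := R.h2 (q + 1)
    have h' : (1 - R.pi (q + 1)) * D.sh (q + 1) = D.sh (q + 1) * (1 - R.pi (q + 1)) := by
      rw [sub_mul, mul_sub, one_mul, mul_one, h]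
    have h'' : ((1 : V (q + 1) →L[ℂ] V (q + 1)) - R.pi (q + 1)).comp (D.sh (q + 1)) =
        (D.sh (q + 1)).comp (1 - R.pi (q + 1)) := h'
    rw [h'', neg_one_smul, neg_add_cancel_right]
  have s3 : trN DFK ((D.dh q).comp ((D.ph q).comp (R.Gam (q + 1)))) = R.beta q := by
    unfold RData.beta
    apply trN_eq_of_comp_eq DFK Dd _ DKP0
    ext v
    show D.Fh (q + 1) (D.sh (q + 1) (D.dh q (D.ph q (R.Gam (q + 1) v)))) =
      D.Fh (q + 1) (D.dh q (D.sh q (D.ph q (R.Gam (q + 1) v))))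
    rw [T5i_aux1]
  have s4 : trN DFK ((D.sh (q + 1)).comp (1 - R.pi (q + 1)) +
      (-1 : ℂ) • (D.dh q).comp ((D.ph q).comp (R.Gam (q + 1)))) = R.beta (q + 1) := by
    rw [trN_cyc DFK DC]
    have e1 : trN DC ((D.Fh (q + 1)).comp (D.sh (q + 1))) =
        trN DKP ((D.Fh (q + 2)).comp (D.dh (q + 1))) := by
      apply trN_eq_of_comp_eq DC DFK DKP (nuc_compLeft (D.nd (q + 1)) (D.Fh (q + 2))).choose
      ext v
      have e2 := T5i_aux2 R q (D.F (q + 1) (D.s (q + 1) v))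
      have e3 : D.Fh (q + 1) (D.sh (q + 1) v) = D.io (q + 1) (D.F (q + 1) (D.s (q + 1) v)) := by
        rw [D.hs, D.hF]
      have e4 : D.io (q + 2) (D.d (q + 1) (D.F (q + 1) (D.s (q + 1) v))) =
          D.Fh (q + 2) (D.dh (q + 1) v) := by
        rw [D.dF, D.hF, D.hd]
      rw [e4, ← e3] at e2
      show D.sh (q + 1) (D.Fh (q + 1) (D.sh (q + 1) v) -
        R.pi (q + 1) (D.Fh (q + 1) (D.sh (q + 1) v))) +
        (-1 : ℂ) • D.dh q (D.ph q (R.Gam (q + 1) (D.Fh (q + 1) (D.sh (q + 1) v)))) =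
        D.sh (q + 1) (D.ph (q + 1) (R.Gam (q + 2) (D.Fh (q + 2) (D.dh (q + 1) v))))
      rw [← e2, neg_one_smul]
      exact (sub_eq_add_neg _ _).symm
    rw [e1]
    unfold RData.beta
    exact trN_cyc DKP _
  rw [s1, s2, trN_add_right, s3, s4]

end

end FB
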