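import Pool.Agent.H.MP_fb873c_an.T5d
import Pool.Agent.H.MP_fb873c_an.T5e
import Pool.Agent.H.MP_fb873c_an.T5g
import Pool.Agent.H.MP_fb873c_an.T5h
import Pool.Agent.H.MP_fb873c_an.T5i

/-! Part T5: the abstract Lefschetz formula -/

namespace FB

open MeasureTheory

section

variable {A V : ℕ → Type*} [∀ q, AddCommGroup (A q)] [∀ q, Module ℂ (A q)]
    [∀ q, NormedAddCommGroup (V q)] [∀ q, NormedSpace ℂ (V q)] [∀ q, CompleteSpace (V q)]

/-- Telescoping of the alternating sum. -/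
theorem abstract_lefschetz_telescope (f b : ℕ → ℂ) (h0 : f 0 = b 0) (h1 : ∀ q, f (q + 1) = b (q + 1) + b q)
    (N : ℕ) : ∑ q ∈ Finset.range (N + 1), (-1 : ℂ) ^ q * f q = (-1 : ℂ) ^ N * b N := by
  induction N with
  | zero => simp [h0]
  | succ n ih =>
    rw [Finset.sum_range_succ, ih, h1, pow_succ]
    ring

/-- `β_N = 0`. -/
theorem RData.beta_last {D : CData A V} (R : RData D) : R.beta D.N = 0 := by
  have hsub : Subsingleton (A (D.N + 1)) := D.hN _ (Nat.lt_succ_self _)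
  have hdh : D.dh D.N = 0 := by
    ext v
    rw [D.hd]
    have : D.d D.N (D.s D.N v) = 0 := Subsingleton.elim _ _
    rw [this, map_zero]
    rfl
  have hop : (D.Fh (D.N + 1)).comp (D.dh D.N) = 0 := by
    rw [hdh]
    ext v
    simp
  unfold RData.beta
  have key : ∀ (X : V D.N →L[ℂ] V (D.N + 1)) (E : Nuc X) (B : V (D.N + 1) →L[ℂ] V D.N)
      (_ : Nuc B), X = 0 → trN E B = 0 := by
    intro X E B E' hX
    subst hX
    obtain ⟨Z, hZ⟩ := nuc_zero (V := V D.N) (V' := V (D.N + 1))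
    rw [trN_congr E Z E', hZ]
  obtain ⟨E', -⟩ := nuc_compRight (D.ns D.N) ((D.ph D.N).comp (R.Gam (D.N + 1)))
  exact key _ _ _ E' hop

/-- JOB T5j.  Assembly.  `hopf_projection` with `π^A`, homotopy `h q = p q ∘ Γ^A (q+1)`,
`Φ = S_A F S_A` (agrees with `F` on cocycles modulo coboundaries because `S_A a = a - d p a` for cocycles
`a`, from `h0`, `h1`), then `finite_part`; `Tr(ŝ F̂ŝ) = Tr(ŝ F̂ŝπ) + Tr(ŝ F̂ŝ(1-π))` and the alternating sum
of `β_q + β_{q-1}` telescopes to `± β_N = 0`, since `A (N+1)` is trivial, so `δ̂_N = 0` and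
`β_N` is the trace of the zero operator (`trN_congr`/`nuc_zero`). -/
theorem abstract_lefschetz (D : CData A V) :
    (∀ q, FiniteDimensional ℂ (HH D.d q)) ∧
    altTr D.d D.F D.dF D.N = ∑ q ∈ Finset.range (D.N + 1),
      (-1 : ℂ) ^ q * trN (D.ns q) (D.Fh q * D.sh q) := by
  obtain ⟨R⟩ := exists_RData D
  obtain ⟨p1, p2, p3, p4, p5, p6, p7, p8⟩ := R.props
  -- `S_A a - a` is a coboundary for cocycles
  have hS : ∀ q a, D.d q a = 0 → D.s q (D.io q a) - a ∈ Bd D.d q := by
    intro q a ha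
    cases q with
    | zero =>
      have e0 := D.h0 a
      rw [ha, map_zero] at e0
      have : D.s 0 (D.io 0 a) - a = 0 := by rw [← neg_sub, e0, neg_zero]
      rw [this]
      exact Submodule.zero_mem _
    | succ q =>
      have e0 := D.h1 q a
      rw [ha, map_zero, add_zero] at e0
      have : D.s (q + 1) (D.io (q + 1) a) - a = D.d q (- D.p q a) := by
        rw [← neg_sub, e0, map_neg]
      rw [this]
      exact ⟨_, rfl⟩
  have hFB : ∀ q a, a ∈ Bd D.d q → D.F q a ∈ Bd D.d q := fun q a ha =>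
    Bd_map D.d D.d D.F D.dF q a ha
  have hmain := hopf_projection D.d D.dd R.pA p1 p3 p2
    (fun q => D.p q ∘ₗ R.gA (q + 1)) (fun a => p7 a) (fun q a => p8 q a) D.F
    (fun q => (D.s q ∘ₗ D.io q) ∘ₗ D.F q ∘ₗ (D.s q ∘ₗ D.io q)) D.dF
    (by
      intro q a
      simp only [LinearMap.comp_apply]
      rw [D.dS, D.dF, D.dS])
    (by
      intro q a ha
      simp only [LinearMap.comp_apply]
      -- `S F S a - F a = (S (F S a) - F S a) + F (S a - a)`
      have e : D.s q (D.io q (D.F q (D.s q (D.io q a)))) - D.F q a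
          = (D.s q (D.io q (D.F q (D.s q (D.io q a)))) - D.F q (D.s q (D.io q a)))
            + D.F q (D.s q (D.io q a) - a) := by
        rw [map_sub]; abel
      rw [e]
      refine Submodule.add_mem _ (hS q _ ?_) (hFB q _ (hS q a ha))
      rw [D.dF, D.dS, ha]
      simp)
    D.N D.hN
  refine ⟨hmain.1, ?_⟩
  rw [hmain.2]
  have hsplit : ∀ q, trN (D.ns q) (D.Fh q * D.sh q)
      = LinearMap.trace ℂ (LinearMap.range (R.pA q))
        (resRange (R.pA q) ((D.s q ∘ₗ D.io q) ∘ₗ D.F q ∘ₗ (D.s q ∘ₗ D.io q)))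
        + trN (D.ns q) ((D.Fh q * D.sh q) * (1 - R.pi q)) := by
    intro q
    rw [← R.finite_part q, ← trN_add_right]
    congr 1
    rw [mul_sub, mul_one]
    abel
  have htel := abstract_lefschetz_telescope (fun q => trN (D.ns q) ((D.Fh q * D.sh q) * (1 - R.pi q)))
    (fun q => R.beta q) R.compl_zero (fun q => R.compl_succ q) D.N
  simp only [R.beta_last, mul_zero] at htel
  have : ∑ q ∈ Finset.range (D.N + 1), (-1 : ℂ) ^ q * trN (D.ns q) (D.Fh q * D.sh q)
      = ∑ q ∈ Finset.range (D.N + 1), (-1 : ℂ) ^ q * LinearMap.trace ℂ (LinearMap.range (R.pA q))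
        (resRange (R.pA q) ((D.s q ∘ₗ D.io q) ∘ₗ D.F q ∘ₗ (D.s q ∘ₗ D.io q)))
        + ∑ q ∈ Finset.range (D.N + 1),
          (-1 : ℂ) ^ q * trN (D.ns q) ((D.Fh q * D.sh q) * (1 - R.pi q)) := by
    rw [← Finset.sum_add_distrib]
    refine Finset.sum_congr rfl fun q _ => ?_
    rw [hsplit q, mul_add]
  rw [this, htel, add_zero]

end

end FB
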