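import Pool.Agent.H.MP_fb873c_an.T5c

/-! Part T5d: Hopf trace formula for a homotopy projection -/

namespace FB

open MeasureTheory

section

variable {A : ℕ → Type*} [∀ q, AddCommGroup (A q)] [∀ q, Module ℂ (A q)]

/-- The classes of two cocycles which differ by a coboundary agree. -/
theorem T5d_mk_eq (d : ∀ q, A q →ₗ[ℂ] A (q + 1)) (q : ℕ) (x y : LinearMap.ker (d q))
    (h : (x : A q) - (y : A q) ∈ Bd d q) :
    ((Bd d q).comap (LinearMap.ker (d q)).subtype).mkQ x =
      ((Bd d q).comap (LinearMap.ker (d q)).subtype).mkQ y := by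
  rw [Submodule.mkQ_apply, Submodule.mkQ_apply, Submodule.Quotient.eq, Submodule.mem_comap]
  exact h

theorem T5d_homotopy (d : ∀ q, A q →ₗ[ℂ] A (q + 1))
    (pi : ∀ q, A q →ₗ[ℂ] A q)
    (h : ∀ q, A (q + 1) →ₗ[ℂ] A q)
    (h0 : ∀ a, a - pi 0 a = h 0 (d 0 a))
    (h1 : ∀ q a, a - pi (q + 1) a = d q (h q a) + h (q + 1) (d (q + 1) a))
    (q : ℕ) (a : A q) (ha : d q a = 0) : a - pi q a ∈ Bd d q := by
  cases q with
  | zero =>
    rw [h0, ha, map_zero]
    exact Submodule.zero_mem _
  | succ q =>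
    rw [h1, ha, map_zero, add_zero]
    exact ⟨h q a, rfl⟩

/-- JOB T5d.  Let `π` be a chain projection with finite dimensional ranges, homotopic to the identity by
`h`, `F` a chain map, `Φ` a chain map which agrees with `F` on cocycles modulo coboundaries.
Then the cohomology is finite dimensional and the Lefschetz number of `F` is the alternating sum of the
traces of `π Φ` on `range π`.
The complex `N_q = range (π q)` with `d` restricted (d π = π d) and chain map `resRange π Φ`; the inclusion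
`j : N → A` induces an isomorphism on cohomology with inverse induced by `π` (`π j = 1`, `j π ~ 1`), which
intertwines the map induced by `π Φ` with the map induced by `Φ`, i.e. by `F`.
Apply `hopf_trace` and invariance of the trace under conjugation (`LinearMap.trace_conj'`). -/
theorem hopf_projection (d : ∀ q, A q →ₗ[ℂ] A (q + 1)) (dd : ∀ q a, d (q + 1) (d q a) = 0)
    (pi : ∀ q, A q →ₗ[ℂ] A q) (hpi : ∀ q, pi q ∘ₗ pi q = pi q)
    (dpi : ∀ q a, d q (pi q a) = pi (q + 1) (d q a))
    (hfin : ∀ q, FiniteDimensional ℂ (LinearMap.range (pi q)))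
    (h : ∀ q, A (q + 1) →ₗ[ℂ] A q)
    (h0 : ∀ a, a - pi 0 a = h 0 (d 0 a))
    (h1 : ∀ q a, a - pi (q + 1) a = d q (h q a) + h (q + 1) (d (q + 1) a))
    (F Φ : ∀ q, A q →ₗ[ℂ] A q)
    (hF : ∀ q a, d q (F q a) = F (q + 1) (d q a)) (hΦ : ∀ q a, d q (Φ q a) = Φ (q + 1) (d q a))
    (hFΦ : ∀ q a, d q a = 0 → Φ q a - F q a ∈ Bd d q)
    (N : ℕ) (hN : ∀ q, N < q → Subsingleton (A q)) :
    (∀ q, FiniteDimensional ℂ (HH d q)) ∧
    altTr d F hF N = ∑ q ∈ Finset.range (N + 1),
      (-1 : ℂ) ^ q * LinearMap.trace ℂ (LinearMap.range (pi q)) (resRange (pi q) (Φ q)) := by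
  -- the small complex
  have hmem : ∀ q, ∀ a ∈ LinearMap.range (pi q), d q a ∈ LinearMap.range (pi (q + 1)) := by
    rintro q _ ⟨b, rfl⟩
    exact ⟨d q b, (dpi q b).symm⟩
  have hfix : ∀ q, ∀ a ∈ LinearMap.range (pi q), pi q a = a := by
    rintro q _ ⟨b, rfl⟩
    exact LinearMap.congr_fun (hpi q) b
  obtain ⟨d', hd'⟩ : ∃ d' : ∀ q, LinearMap.range (pi q) →ₗ[ℂ] LinearMap.range (pi (q + 1)),
      ∀ q a, ((d' q a : LinearMap.range (pi (q + 1))) : A (q + 1)) = d q a :=
    ⟨fun q => (d q).restrict (hmem q), fun q a => rfl⟩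
  have dd' : ∀ q a, d' (q + 1) (d' q a) = 0 := by
    intro q a
    apply Subtype.ext
    rw [hd', hd', dd]
    rfl
  obtain ⟨j, hj⟩ : ∃ j : ∀ q, LinearMap.range (pi q) →ₗ[ℂ] A q, ∀ q a, j q a = (a : A q) :=
    ⟨fun q => (LinearMap.range (pi q)).subtype, fun q a => rfl⟩
  obtain ⟨p, hp⟩ : ∃ p : ∀ q, A q →ₗ[ℂ] LinearMap.range (pi q),
      ∀ q a, ((p q a : LinearMap.range (pi q)) : A q) = pi q a :=
    ⟨fun q => (pi q).rangeRestrict, fun q a => rfl⟩
  have hjc : ∀ q a, d q (j q a) = j (q + 1) (d' q a) := by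
    intro q a
    rw [hj, hj, hd']
  have hpc : ∀ q a, d' q (p q a) = p (q + 1) (d q a) := by
    intro q a
    apply Subtype.ext
    rw [hd', hp, hp, dpi]
  have hres : ∀ q a, ((resRange (pi q) (Φ q) a : LinearMap.range (pi q)) : A q) =
      pi q (Φ q (a : A q)) := fun q a => rfl
  have hφ' : ∀ q a, d' q (resRange (pi q) (Φ q) a) =
      resRange (pi (q + 1)) (Φ (q + 1)) (d' q a) := by
    intro q a
    apply Subtype.ext
    rw [hd', hres, hres, dpi, hΦ, hd']
  have hJP : ∀ q, Hmap d' d j hjc q ∘ₗ Hmap d d' p hpc q = LinearMap.id := by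
    intro q
    apply Submodule.linearMap_qext
    ext z
    show ((Bd d q).comap (LinearMap.ker (d q)).subtype).mkQ _ =
      ((Bd d q).comap (LinearMap.ker (d q)).subtype).mkQ z
    apply T5d_mk_eq
    show j q (p q (z : A q)) - (z : A q) ∈ Bd d q
    rw [hj, hp, ← neg_sub]
    exact Submodule.neg_mem _ (T5d_homotopy d pi h h0 h1 q z (LinearMap.mem_ker.1 z.2))
  have hPJ : ∀ q, Hmap d d' p hpc q ∘ₗ Hmap d' d j hjc q = LinearMap.id := by
    intro q
    apply Submodule.linearMap_qext
    ext z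
    show ((Bd d' q).comap (LinearMap.ker (d' q)).subtype).mkQ _ =
      ((Bd d' q).comap (LinearMap.ker (d' q)).subtype).mkQ z
    apply T5d_mk_eq
    have h2 : p q (j q (z : LinearMap.range (pi q))) = (z : LinearMap.range (pi q)) := by
      apply Subtype.ext
      rw [hp, hj]
      exact hfix q _ (z : LinearMap.range (pi q)).2
    show p q (j q (z : LinearMap.range (pi q))) - (z : LinearMap.range (pi q)) ∈ Bd d' q
    rw [h2, sub_self]
    exact Submodule.zero_mem _
  have e : ∀ q, ∃ e : HH d' q ≃ₗ[ℂ] HH d q, (∀ x, e x = Hmap d' d j hjc q x) ∧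
      ∀ x, e.symm x = Hmap d d' p hpc q x := fun q =>
    ⟨LinearEquiv.ofLinear (Hmap d' d j hjc q) (Hmap d d' p hpc q) (hJP q) (hPJ q),
      fun x => rfl, fun x => rfl⟩
  choose e he he' using e
  have hfinH : ∀ q, FiniteDimensional ℂ (HH d' q) := by
    intro q
    haveI := hfin q
    infer_instance
  constructor
  · intro q
    haveI := hfinH q
    exact LinearEquiv.finiteDimensional (e q)
  · have hN' : ∀ q, N < q → Subsingleton (LinearMap.range (pi q)) := by
      intro q hq
      haveI := hN q hq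
      infer_instance
    have hopf := hopf_trace (A := fun q => LinearMap.range (pi q)) d' dd'
      (fun q => resRange (pi q) (Φ q)) hφ' hfin N hN'
    rw [hopf]
    unfold altTr
    refine Finset.sum_congr rfl fun q _ => ?_
    congr 1
    rw [← LinearMap.trace_conj' (Hmap d' d' (fun q => resRange (pi q) (Φ q)) hφ' q) (e q)]
    congr 1
    apply Submodule.linearMap_qext
    ext z
    show Hmap d d F hF q (((Bd d q).comap (LinearMap.ker (d q)).subtype).mkQ z) =
      (e q) (Hmap d' d' (fun q => resRange (pi q) (Φ q)) hφ' q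
        ((e q).symm (((Bd d q).comap (LinearMap.ker (d q)).subtype).mkQ z)))
    rw [he, he']
    show ((Bd d q).comap (LinearMap.ker (d q)).subtype).mkQ _ =
      ((Bd d q).comap (LinearMap.ker (d q)).subtype).mkQ _
    apply T5d_mk_eq
    show F q (z : A q) - j q (resRange (pi q) (Φ q) (p q (z : A q))) ∈ Bd d q
    have hz : d q (z : A q) = 0 := LinearMap.mem_ker.1 z.2
    rw [hj, hres, hp]
    have hz2 : d q (Φ q (pi q (z : A q))) = 0 := by
      rw [hΦ, dpi, hz, map_zero, map_zero]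
    have k1 := T5d_homotopy d pi h h0 h1 q _ hz2
    have k2 : Φ q (z : A q) - Φ q (pi q (z : A q)) ∈ Bd d q := by
      rw [← map_sub]
      exact Bd_map d d Φ hΦ q _ (T5d_homotopy d pi h h0 h1 q _ hz)
    have k3 := hFΦ q (z : A q) hz
    have k4 := Submodule.add_mem _ (Submodule.add_mem _ k1 k2) (Submodule.neg_mem _ k3)
    have k5 : F q (z : A q) - pi q (Φ q (pi q (z : A q))) =
        (Φ q (pi q (z : A q)) - pi q (Φ q (pi q (z : A q)))) +
          (Φ q (z : A q) - Φ q (pi q (z : A q))) + -(Φ q (z : A q) - F q (z : A q)) := by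
      abel
    rw [k5]
    exact k4

end

end FB
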