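import Pool.Agent.H.MP_fb873c_an.X0

/-!
# Part V0 (fixed points of holomorphic maps which may be degenerate): definitions
-/

namespace FB

open scoped Topology ContDiff Manifold
open Filter

universe u

/-- A smooth coordinate on an open subset of `M`, with values in the normed space `E`. -/
structure Crd (n : ℕ) (M : Type u) [TopologicalSpace M] [ChartedSpace (Er n) M] (E : Type)
    [NormedAddCommGroup E] [NormedSpace ℝ E] where
  e : OpenPartialHomeomorph M E
  s : ContMDiffOn (𝓡 n) 𝓘(ℝ, E) ∞ e e.source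
  t : ContMDiffOn 𝓘(ℝ, E) (𝓡 n) ∞ e.symm e.target

variable {n : ℕ} {M : Type u} [TopologicalSpace M] [ChartedSpace (Er n) M]

/-- `det (1 - DF_x) > 0` (for a fixed point `x`: it is nondegenerate of index `1`). -/
def PosD (n : ℕ) {M : Type u} [TopologicalSpace M] [ChartedSpace (Er n) M] (F : M → M) (x : M) :
    Prop :=
  0 < LinearMap.det ((ContinuousLinearMap.id ℝ (Er n) - dfix (n := n) F x :
    Er n →L[ℝ] Er n)).toLinearMap

/-- In a suitable coordinate at its fixed point `x` the map `F` is holomorphic. -/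
def HolFix (n : ℕ) {M : Type u} [TopologicalSpace M] [ChartedSpace (Er n) M] (F : M → M) (x : M) :
    Prop :=
  ∃ (m : ℕ) (e : Crd n M (Ec m)) (R : ℝ), x ∈ e.e.source ∧ 0 < R ∧
    Metric.ball (e.e x) R ⊆ e.e.target ∧
    (∀ z ∈ Metric.ball (e.e x) R, F (e.e.symm z) ∈ e.e.source) ∧
    DifferentiableOn ℂ (fun z => e.e (F (e.e.symm z))) (Metric.ball (e.e x) R)

/-- The fixed points of `g^a` are hyperbolic, and their number is the Lefschetz number of `g^k`, for all
`k = a (1 + b j)`. -/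
def RegL (a b : ℕ) (g : Dif n M) : Prop :=
  (∀ x, itr g a x = x → Hyp (dfix (n := n) (itr g a) x)) ∧
  ∀ j : ℕ, LefN n (itr g (a * (1 + b * j))) = (({x | itr g a x = x}.ncard : ℕ) : ℂ)

/-- The `C^1`-open set. -/
def U3 (n : ℕ) (M : Type u) [TopologicalSpace M] [ChartedSpace (Er n) M] : Set (Dif n M) :=
  {h | ∃ (O : Set (Dif n M)) (a b : ℕ), IsOpen[crTop n M 1] O ∧ h ∈ O ∧ 0 < a ∧ 0 < b ∧
    ∀ g ∈ O, RegL a b g ∧ GoodR a g}

/-- The `C^∞`-open set. -/
def W3 (n : ℕ) (M : Type u) [TopologicalSpace M] [ChartedSpace (Er n) M] : Set (Dif n M) :=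
  {h | h ∈ U3 n M ∧ ∃ V : Set (Dif n M), IsOpen[crTop n M ⊤] V ∧ h ∈ V ∧ ∀ g ∈ V, PosNd g}

/-- For every `N` there is `k ≥ N` such that `f` has infinitely many periodic points of minimal period `k`. -/
def NonIso (f : Dif n M) : Prop :=
  ∀ N : ℕ, ∃ k, N ≤ k ∧ {x | MinPer f x k}.Infinite

end FB
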