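import Pool.Agent.H.MP_fb873c_an.D2m1
import Pool.Agent.H.MP_fb873c_an.H0
import Pool.Agent.H.MP_fb873c_an.Y3b

/-!
# Part V1: homotopy invariance of the Lefschetz number
-/

namespace FB

open scoped Topology ContDiff Manifold
open Filter

universe u

variable {n : ℕ} {M : Type u} [TopologicalSpace M] [ChartedSpace (Er n) M]
  [IsManifold (𝓡 n) ∞ M]

omit [IsManifold (𝓡 n) ∞ M] in
/-- `IsExactForm` is membership in `Bex`. -/
theorem V1_mem_Bex {q : ℕ} {γ : M → Lam (Er n) q} (h : IsExactForm (W := Er n) γ) :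
    γ ∈ Bex (Er n) M q := by
  cases q with
  | zero => exact (Submodule.mem_bot ℂ).2 (funext h)
  | succ q => exact h

/-- In `qtr` (file Y0) the conditions hold for both maps (`pbl_Zcl`, `pbl_Bex`), and the two linear maps on
`(Zcl q).map (Bex q).mkQ` agree: for a closed form `η` the class of `pb G η - pb F η` modulo `Bex` is zero by `h` (`IsExactForm` is membership in `Bex`, see Z/Y3 or S0). -/
theorem lefN_of_sameH {F G : M → M} (hF : ContMDiff (𝓡 n) (𝓡 n) ∞ F)
    (hG : ContMDiff (𝓡 n) (𝓡 n) ∞ G) (h : SameH (Er n) F G) : LefN n F = LefN n G := by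
  unfold LefN
  refine Finset.sum_congr rfl fun q _ => ?_
  congr 1
  unfold qtr
  rw [dif_pos (⟨pbl_Zcl hF q, pbl_Bex hF q⟩ :
      Zcl (Er n) M q ≤ (Zcl (Er n) M q).comap (pbl F q) ∧
        Bex (Er n) M q ≤ (Bex (Er n) M q).comap (pbl F q)),
    dif_pos (⟨pbl_Zcl hG q, pbl_Bex hG q⟩ :
      Zcl (Er n) M q ≤ (Zcl (Er n) M q).comap (pbl G q) ∧
        Bex (Er n) M q ≤ (Bex (Er n) M q).comap (pbl G q))]
  congr 1
  apply LinearMap.ext
  rintro ⟨x, hx⟩
  obtain ⟨η, hη, rfl⟩ := hx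
  apply Subtype.ext
  have h1 := h q η hη.1 hη.2
  have h2 := V1_mem_Bex h1
  have h3 : pbl G q η - pbl F q η ∈ Bex (Er n) M q := h2
  have h4 : (Bex (Er n) M q).mkQ (pbl F q η) = (Bex (Er n) M q).mkQ (pbl G q η) :=
    ((Submodule.Quotient.eq _).2 h3).symm
  exact h4

/-- `pb (F ∘ G) η = pb G (pb F η)`; `pb G' (pb F' η) - pb G (pb F η) = pb G' (pb F' η - pb F η) + (pb G' (pb F η) - pb G (pb F η))`; pull-backs of exact forms are exact (`pbl_Bex`), `pb F η` is closed. -/
theorem sameH_comp {F F' G G' : M → M} (hF : ContMDiff (𝓡 n) (𝓡 n) ∞ F)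
    (hF' : ContMDiff (𝓡 n) (𝓡 n) ∞ F') (hG : ContMDiff (𝓡 n) (𝓡 n) ∞ G)
    (hG' : ContMDiff (𝓡 n) (𝓡 n) ∞ G') (h1 : SameH (Er n) F F') (h2 : SameH (Er n) G G') :
    SameH (Er n) (F ∘ G) (F' ∘ G') := by
  intro q η hη hd
  have hz : pb (W := Er n) F η ∈ Zcl (Er n) M q := pbl_Zcl hF q (⟨hη, hd⟩ : η ∈ Zcl (Er n) M q)
  have e1 := h2 q (pb (W := Er n) F η) hz.1 hz.2
  have e2 := V1_mem_Bex (h1 q η hη hd)
  have e3 := pbl_Bex hG' q e2
  have e4 : IsExactForm (W := Er n)
      (pb (W := Er n) G' (fun x : M => pb (W := Er n) F' η x - pb (W := Er n) F η x)) := by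
    cases q with
    | zero =>
      have e5 : pb (W := Er n) G' (fun x : M => pb (W := Er n) F' η x - pb (W := Er n) F η x) = 0 :=
        (Submodule.mem_bot ℂ).1 e3
      exact fun x => congrFun e5 x
    | succ q => exact e3
  have e6 := H1e1_exact_add e4 e1
  have e7 : (fun x : M => pb (W := Er n) (F' ∘ G') η x - pb (W := Er n) (F ∘ G) η x) =
      fun x : M => pb (W := Er n) G' (fun x : M => pb (W := Er n) F' η x
          - pb (W := Er n) F η x) x
        + (pb (W := Er n) G' (pb (W := Er n) F η) x - pb (W := Er n) G (pb (W := Er n) F η) x) := by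
    funext x
    rw [pb_comp η hG' hF' x, pb_comp η hG hF x]
    have e8 : pb (W := Er n) G' (fun x : M => pb (W := Er n) F' η x - pb (W := Er n) F η x) x =
        pb (W := Er n) G' (pb (W := Er n) F' η) x - pb (W := Er n) G' (pb (W := Er n) F η) x := rfl
    rw [e8]
    abel
  rw [e7]
  exact e6

theorem sameH_itr {f g : Dif n M} (h : SameH (Er n) (f : M → M) (g : M → M)) (k : ℕ) :
    SameH (Er n) (itr f k) (itr g k) := by
  induction k with
  | zero => exact SameH.refl _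
  | succ k ih =>
    have e1 : itr f (k + 1) = (f : M → M) ∘ itr f k := Function.iterate_succ' _ _
    have e2 : itr g (k + 1) = (g : M → M) ∘ itr g k := Function.iterate_succ' _ _
    rw [e1, e2]
    exact sameH_comp f.contMDiff_toFun g.contMDiff_toFun (D2m1_iterate f k) (D2m1_iterate g k) h ih

/-- `homotopy_main` (file H0), `sameH_itr`, `lefN_of_sameH`. -/
theorem lefN_nhds_all [CompactSpace M] [T2Space M] (f : Dif n M) :
    ∃ N : Set (Dif n M), IsOpen[crTop n M 1] N ∧ f ∈ N ∧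
      ∀ g ∈ N, ∀ k, LefN n (itr g k) = LefN n (itr f k) := by
  obtain ⟨N, h1, h2, h3⟩ := homotopy_main f
  refine ⟨N, h1, h2, fun g hg k => ?_⟩
  exact (lefN_of_sameH (D2m1_iterate f k) (D2m1_iterate g k) (sameH_itr (h3 g hg) k)).symm

end FB
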