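import Pool.Agent.H.MP_fb873c_an.H1e1
import Pool.Agent.H.MP_fb873c_an.V0

/-!
# Part V2: moving a map near a fixed point
-/

namespace FB

open scoped Topology ContDiff Manifold
open Filter

universe u

variable {n : ℕ} {M : Type u} [TopologicalSpace M] [ChartedSpace (Er n) M]
  [IsManifold (𝓡 n) ∞ M]

omit [IsManifold (𝓡 n) ∞ M] in
/-- The set moved by the perturbation. -/
theorem V2_ball_eq {E : Type} [NormedAddCommGroup E] [NormedSpace ℝ E] (e : Crd n M E) (c : E)
    (r : ℝ) (hb : Metric.ball c r ⊆ e.e.target) :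
    e.e.symm '' Metric.ball c r = e.e.source ∩ e.e ⁻¹' Metric.ball c r := by
  ext x
  constructor
  · rintro ⟨z, hz, rfl⟩
    refine ⟨e.e.map_target (hb hz), ?_⟩
    rw [Set.mem_preimage, e.e.right_inv (hb hz)]
    exact hz
  · rintro ⟨hx, hz⟩
    exact ⟨e.e x, hz, e.e.left_inv hx⟩

open Classical in
/-- The homotopy. -/
noncomputable def V2_h {E : Type} [NormedAddCommGroup E] [NormedSpace ℝ E] (e : Crd n M E)
    (F : M → M) (c : E) (r : ℝ) (ρ : E → ℝ) (P : E → E) (p : ℝ × M) : M :=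
  if p.2 ∈ e.e.symm '' Metric.ball c r then
    e.e.symm (e.e (F p.2) + (Real.smoothTransition p.1 * ρ (e.e p.2)) • P (e.e p.2))
  else F p.2

/-- The homotopy is smooth. -/
theorem V2_h_smooth [T2Space M] {E : Type} [NormedAddCommGroup E] [NormedSpace ℝ E]
    [FiniteDimensional ℝ E] (e : Crd n M E) {F : M → M} (hF : ContMDiff (𝓡 n) (𝓡 n) ∞ F) {c : E}
    {r : ℝ} (ht : Metric.closedBall c r ⊆ e.e.target)
    (hs : ∀ z ∈ Metric.closedBall c r, F (e.e.symm z) ∈ e.e.source) {ρ : E → ℝ} {P : E → E}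
    (hρ : ContDiff ℝ ∞ ρ) (hP : ContDiff ℝ ∞ P) (hsupp : tsupport ρ ⊆ Metric.ball c r)
    (hm : ∀ z ∈ Metric.closedBall c r, ∀ a : ℝ, 0 ≤ a → a ≤ 1 →
      e.e (F (e.e.symm z)) + (a * ρ z) • P z ∈ e.e.target) :
    ContMDiff 𝓘(ℝ, ℝ × Er n) 𝓘(ℝ, Er n) ∞ (V2_h e F c r ρ P) := by
  have hbt : Metric.ball c r ⊆ e.e.target := Metric.ball_subset_closedBall.trans ht
  have hBe := V2_ball_eq e c r hbt
  have hBo : IsOpen (e.e.symm '' Metric.ball c r) := by
    rw [hBe]
    exact e.e.isOpen_inter_preimage Metric.isOpen_ball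
  have hFs : ContMDiff 𝓘(ℝ, ℝ × Er n) 𝓘(ℝ, Er n) ∞ (fun p : ℝ × M => F p.2) :=
    ContMDiff.comp (I' := 𝓘(ℝ, Er n)) (g := F) hF (cyl_snd (W := Er n) (X := M))
  intro p0
  by_cases hx : p0.2 ∈ e.e.symm '' Metric.ball c r
  · have hx' := hx
    rw [hBe] at hx'
    obtain ⟨hx1, hx2⟩ := hx'
    have hx3 : e.e p0.2 ∈ Metric.closedBall c r := Metric.ball_subset_closedBall hx2
    have hFx : F p0.2 ∈ e.e.source := by
      have h1 := hs _ hx3
      rwa [e.e.left_inv hx1] at h1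
    have hec : ContMDiffAt 𝓘(ℝ, Er n) 𝓘(ℝ, E) ∞ e.e p0.2 :=
      e.s.contMDiffAt (e.e.open_source.mem_nhds hx1)
    have heF : ContMDiffAt 𝓘(ℝ, Er n) 𝓘(ℝ, E) ∞ e.e (F p0.2) :=
      e.s.contMDiffAt (e.e.open_source.mem_nhds hFx)
    have hE : ContMDiffAt 𝓘(ℝ, ℝ × Er n) 𝓘(ℝ, E) ∞ (fun p : ℝ × M => e.e p.2) p0 :=
      ContMDiffAt.comp p0 hec (cyl_snd (W := Er n) (X := M)).contMDiffAt
    have hEF : ContMDiffAt 𝓘(ℝ, ℝ × Er n) 𝓘(ℝ, E) ∞ (fun p : ℝ × M => e.e (F p.2)) p0 :=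
      ContMDiffAt.comp p0 heF hFs.contMDiffAt
    have hρE : ContMDiffAt 𝓘(ℝ, ℝ × Er n) 𝓘(ℝ, ℝ) ∞ (fun p : ℝ × M => ρ (e.e p.2)) p0 :=
      ContMDiffAt.comp p0 hρ.contMDiff.contMDiffAt hE
    have hPE : ContMDiffAt 𝓘(ℝ, ℝ × Er n) 𝓘(ℝ, E) ∞ (fun p : ℝ × M => P (e.e p.2)) p0 :=
      ContMDiffAt.comp p0 hP.contMDiff.contMDiffAt hE
    have hθ : ContMDiffAt 𝓘(ℝ, ℝ × Er n) 𝓘(ℝ, ℝ) ∞
        (fun p : ℝ × M => Real.smoothTransition p.1) p0 :=
      ((Real.smoothTransition.contDiff.contMDiff).comp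
        (cyl_fst (W := Er n) (X := M))).contMDiffAt
    have hA : ContMDiffAt 𝓘(ℝ, ℝ × Er n) 𝓘(ℝ, E) ∞ (fun p : ℝ × M => e.e (F p.2) +
        (Real.smoothTransition p.1 * ρ (e.e p.2)) • P (e.e p.2)) p0 :=
      hEF.add ((hθ.smul hρE).smul hPE)
    have hmem : e.e (F p0.2) + (Real.smoothTransition p0.1 * ρ (e.e p0.2)) • P (e.e p0.2) ∈
        e.e.target := by
      have h1 := hm _ hx3 (Real.smoothTransition p0.1) (Real.smoothTransition.nonneg _)
        (Real.smoothTransition.le_one _)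
      rwa [e.e.left_inv hx1] at h1
    have hsy : ContMDiffAt 𝓘(ℝ, E) 𝓘(ℝ, Er n) ∞ e.e.symm
        (e.e (F p0.2) + (Real.smoothTransition p0.1 * ρ (e.e p0.2)) • P (e.e p0.2)) :=
      e.t.contMDiffAt (e.e.open_target.mem_nhds hmem)
    have hcomp := ContMDiffAt.comp p0 hsy hA
    refine hcomp.congr_of_eventuallyEq ?_
    have e1 : ∀ᶠ p in 𝓝 p0, p.2 ∈ e.e.symm '' Metric.ball c r :=
      continuous_snd.continuousAt.eventually (hBo.mem_nhds hx)
    filter_upwards [e1] with p hp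
    unfold V2_h
    rw [if_pos hp]
    rfl
  · have hcs : IsCompact (tsupport ρ) :=
      (ProperSpace.isCompact_closedBall c r).of_isClosed_subset (isClosed_tsupport ρ)
        (hsupp.trans Metric.ball_subset_closedBall)
    have hck : IsCompact (e.e.symm '' tsupport ρ) :=
      hcs.image_of_continuousOn (e.e.continuousOn_symm.mono (hsupp.trans hbt))
    have hx1 : p0.2 ∉ e.e.symm '' tsupport ρ := fun h => hx (Set.image_mono hsupp h)
    have h1 : ∀ᶠ x in 𝓝 p0.2, x ∉ e.e.symm '' tsupport ρ :=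
      hck.isClosed.isOpen_compl.mem_nhds hx1
    have h2 : ∀ᶠ p in 𝓝 p0, p.2 ∉ e.e.symm '' tsupport ρ :=
      continuous_snd.continuousAt.eventually h1
    refine hFs.contMDiffAt.congr_of_eventuallyEq ?_
    filter_upwards [h2] with p hp
    unfold V2_h
    split_ifs with h3
    · obtain ⟨z, hz, hzp⟩ := h3
      have hz0 : ρ z = 0 := by
        by_contra h4
        exact hp ⟨z, subset_tsupport _ h4, hzp⟩
      have h5 : e.e p.2 = z := by rw [← hzp, e.e.right_inv (hbt hz)]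
      have h6 : F p.2 ∈ e.e.source := by
        rw [← hzp]
        exact hs z (Metric.ball_subset_closedBall hz)
      rw [h5, hz0, mul_zero, zero_smul, add_zero, e.e.left_inv h6]
    · rfl

/-- Perturbation of `F` near the fixed point `x0`, in the coordinate `e`.

Proof.  `r0`: `e.target` is open and `F ∘ e.symm` is continuous on it; `F (e.symm (e x0)) = x0` is in the open set `e.source`.  Let `r < r0`; the set
`{e (F (e.symm z)) | z ∈ closedBall (e x0) r}` is compact and contained in the open set `e.target`; let `δ > 0` be such that its closed `δ`-neighbourhood is contained in `e.target` (`IsCompact.exists_cthickening_subset_open`).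
Let `θ = Real.smoothTransition`, `B = e.symm '' ball (e x0) r` (open) and
`h (s, x) = e.symm (e (F x) + (θ s * ρ (e x)) • P (e x))` for `x ∈ B`, `h (s, x) = F x` otherwise.  `h` is smooth on `ℝ × B` (composition of smooth maps), and `h (s, x) = F x` for `x` outside
the compact (so closed) set `e.symm '' (tsupport ρ)`, a subset of `B`; so `h` is smooth.  `G x = h (1, x)`, `F x = h (0, x)`; `sameH_of_homotopy` (file H1e1); smoothness of `G`: compose with `cyl_sl 1` (file H1b).  Compare `mv_homotopy`, `mv_same` (file H1e). -/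
theorem exists_move [T2Space M] {E : Type} [NormedAddCommGroup E] [NormedSpace ℝ E]
    [FiniteDimensional ℝ E] (e : Crd n M E) {F : M → M} (hF : ContMDiff (𝓡 n) (𝓡 n) ∞ F) {x0 : M}
    (h0 : x0 ∈ e.e.source) (hfix : F x0 = x0) :
    ∃ r0 : ℝ, 0 < r0 ∧ Metric.closedBall (e.e x0) r0 ⊆ e.e.target ∧
      (∀ z ∈ Metric.closedBall (e.e x0) r0, F (e.e.symm z) ∈ e.e.source) ∧
      ∀ r : ℝ, 0 < r → r < r0 → ∃ δ : ℝ, 0 < δ ∧ ∀ (ρ : E → ℝ) (P : E → E),
        ContDiff ℝ ∞ ρ → ContDiff ℝ ∞ P → (∀ z, 0 ≤ ρ z ∧ ρ z ≤ 1) →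
        tsupport ρ ⊆ Metric.ball (e.e x0) r →
        (∀ z ∈ Metric.closedBall (e.e x0) r, ‖P z‖ ≤ δ) →
        ∃ G : M → M, ContMDiff (𝓡 n) (𝓡 n) ∞ G ∧ SameH (Er n) F G ∧
          (∀ x, x ∉ e.e.symm '' Metric.ball (e.e x0) r → G x = F x) ∧
          ∀ z ∈ Metric.ball (e.e x0) r, G (e.e.symm z) ∈ e.e.source ∧
            e.e (G (e.e.symm z)) = e.e (F (e.e.symm z)) + ρ z • P z := by
  have hc0 : e.e x0 ∈ e.e.target := e.e.map_source h0
  have hcont : ContinuousAt (fun z => F (e.e.symm z)) (e.e x0) := by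
    have h1 : ContinuousAt e.e.symm (e.e x0) := e.e.continuousAt_symm hc0
    exact hF.continuous.continuousAt.comp h1
  have hval : F (e.e.symm (e.e x0)) = x0 := by rw [e.e.left_inv h0, hfix]
  have hev : ∀ᶠ z in 𝓝 (e.e x0), z ∈ e.e.target ∧ F (e.e.symm z) ∈ e.e.source := by
    have h1 : ∀ᶠ z in 𝓝 (e.e x0), z ∈ e.e.target := e.e.open_target.mem_nhds hc0
    refine h1.and ?_
    exact hcont.eventually (e.e.open_source.mem_nhds (by
      show F (e.e.symm (e.e x0)) ∈ e.e.source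
      rw [hval]
      exact h0))
  obtain ⟨r0, hr0, hball⟩ := Metric.nhds_basis_closedBall.eventually_iff.1 hev
  refine ⟨r0, hr0, fun z hz => (hball hz).1, fun z hz => (hball hz).2, ?_⟩
  intro r hr hrr
  have hsub : Metric.closedBall (e.e x0) r ⊆ Metric.closedBall (e.e x0) r0 :=
    Metric.closedBall_subset_closedBall hrr.le
  have ht : Metric.closedBall (e.e x0) r ⊆ e.e.target := fun z hz => (hball (hsub hz)).1
  have hs : ∀ z ∈ Metric.closedBall (e.e x0) r, F (e.e.symm z) ∈ e.e.source :=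
    fun z hz => (hball (hsub hz)).2
  have hK : IsCompact ((fun z => e.e (F (e.e.symm z))) '' Metric.closedBall (e.e x0) r) := by
    refine (ProperSpace.isCompact_closedBall _ _).image_of_continuousOn ?_
    have h1 : ContinuousOn (fun z => F (e.e.symm z)) (Metric.closedBall (e.e x0) r) :=
      hF.continuous.comp_continuousOn (e.e.continuousOn_symm.mono ht)
    exact e.e.continuousOn.comp h1 hs
  obtain ⟨δ, hδ, hthick⟩ := hK.exists_cthickening_subset_open e.e.open_target (by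
    rintro _ ⟨z, hz, rfl⟩
    exact e.e.map_source (hs z hz))
  refine ⟨δ, hδ, ?_⟩
  intro ρ P hρ hP h01 hsupp hPn
  have hm : ∀ z ∈ Metric.closedBall (e.e x0) r, ∀ a : ℝ, 0 ≤ a → a ≤ 1 →
      e.e (F (e.e.symm z)) + (a * ρ z) • P z ∈ e.e.target := by
    intro z hz a ha0 ha1
    refine hthick (Metric.mem_cthickening_of_dist_le _ (e.e (F (e.e.symm z))) _ _
      ⟨z, hz, rfl⟩ ?_)
    rw [dist_eq_norm, add_sub_cancel_left, norm_smul, Real.norm_eq_abs,
      abs_of_nonneg (mul_nonneg ha0 (h01 z).1)]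
    calc a * ρ z * ‖P z‖ ≤ 1 * ‖P z‖ := by
          refine mul_le_mul_of_nonneg_right ?_ (norm_nonneg _)
          exact mul_le_one₀ ha1 (h01 z).1 (h01 z).2
      _ ≤ δ := by rw [one_mul]; exact hPn z hz
  have hsm := V2_h_smooth e hF ht hs hρ hP hsupp hm
  have hbt : Metric.ball (e.e x0) r ⊆ e.e.target := Metric.ball_subset_closedBall.trans ht
  have e0 : (fun x : M => V2_h e F (e.e x0) r ρ P ((0 : ℝ), x)) = F := by
    funext x
    unfold V2_h
    split_ifs with h3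
    · obtain ⟨z, hz, hzx⟩ := h3
      have hzx' : e.e.symm z = x := hzx
      have h6 : F x ∈ e.e.source := by
        rw [← hzx']
        exact hs z (Metric.ball_subset_closedBall hz)
      show e.e.symm (e.e (F x) + (Real.smoothTransition 0 * ρ (e.e x)) • P (e.e x)) = F x
      rw [Real.smoothTransition.zero, zero_mul, zero_smul, add_zero, e.e.left_inv h6]
    · rfl
  refine ⟨fun x => V2_h e F (e.e x0) r ρ P (1, x), ?_, ?_, ?_, ?_⟩
  · exact hsm.comp (cyl_sl (W := Er n) (X := M) 1)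
  · have h1 : SameH (Er n) (fun x : M => V2_h e F (e.e x0) r ρ P (0, x))
        (fun x : M => V2_h e F (e.e x0) r ρ P (1, x)) := sameH_of_homotopy hsm
    rw [e0] at h1
    exact h1
  · intro x hx
    show V2_h e F (e.e x0) r ρ P (1, x) = F x
    unfold V2_h
    rw [if_neg hx]
  · intro z hz
    have h1 : V2_h e F (e.e x0) r ρ P (1, e.e.symm z) =
        e.e.symm (e.e (F (e.e.symm z)) + ρ z • P z) := by
      unfold V2_h
      rw [if_pos ⟨z, hz, rfl⟩]
      show e.e.symm (e.e (F (e.e.symm z)) + (Real.smoothTransition 1 * ρ (e.e (e.e.symm z))) •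
        P (e.e (e.e.symm z))) = _
      rw [Real.smoothTransition.one, one_mul, e.e.right_inv (hbt hz)]
    have h2 : e.e (F (e.e.symm z)) + ρ z • P z ∈ e.e.target := by
      have h3 := hm z (Metric.ball_subset_closedBall hz) 1 zero_le_one le_rfl
      rwa [one_mul] at h3
    show V2_h e F (e.e x0) r ρ P (1, e.e.symm z) ∈ e.e.source ∧
      e.e (V2_h e F (e.e x0) r ρ P (1, e.e.symm z)) = _
    rw [h1]
    exact ⟨e.e.map_target h2, e.e.right_inv h2⟩

end FB
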