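import Pool.Agent.H.MP_fb873c_an.L6
import Pool.Agent.H.MP_fb873c_an.V3s

/-!
# Part V3: perturbation of an isolated zero of a holomorphic map
-/

namespace FB

open scoped Topology ContDiff
open Filter MeasureTheory

/-- For small `t > 0` the derivative `DH(a) + t` is invertible: its determinant is a polynomial in `t` with leading coefficient `1`. -/
theorem exists_small_t {m : ℕ} (A : Ec m →L[ℂ] Ec m) {δ : ℝ} (hδ : 0 < δ) :
    ∃ t : ℝ, 0 < t ∧ t < δ ∧
      LinearMap.det ((A + (t : ℂ) • ContinuousLinearMap.id ℂ (Ec m) :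
        Ec m →L[ℂ] Ec m)).toLinearMap ≠ 0 := by
  classical
  set p := LinearMap.charpoly (-A.toLinearMap) with hp
  have hp0 : p ≠ 0 := (LinearMap.charpoly_monic _).ne_zero
  have hfin : {t : ℝ | p.eval (t : ℂ) = 0}.Finite := by
    have h1 : {z : ℂ | p.eval z = 0}.Finite := by
      refine (p.roots.toFinset.finite_toSet).subset fun z hz => ?_
      simp only [Finset.mem_coe, Multiset.mem_toFinset]
      exact (Polynomial.mem_roots hp0).2 hz
    exact h1.preimage (Complex.ofReal_injective.injOn)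
  have hinf : (Set.Ioo 0 δ).Infinite := Set.Ioo_infinite hδ
  obtain ⟨t, ht, hnt⟩ := hinf.exists_notMem_finite hfin
  refine ⟨t, ht.1, ht.2, ?_⟩
  have h2 : p.eval (t : ℂ) = LinearMap.det (algebraMap ℂ (Module.End ℂ (Ec m)) (t : ℂ) - (-A.toLinearMap)) := by
    rw [hp]
    exact LinearMap.eval_charpoly _ _
  intro h3
  apply hnt
  show p.eval (t : ℂ) = 0
  rw [h2, ← h3]
  congr 1
  ext v
  simp [Algebra.algebraMap_eq_smul_one]
  ring

/-- The real determinant of a complex linear map which is not invertible is zero. -/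
theorem V3_real_det {m : ℕ} (A : Ec m →L[ℂ] Ec m) (h : LinearMap.det A.toLinearMap = 0) :
    (A.restrictScalars ℝ).det = 0 := by
  by_contra hne
  have h1 : Function.Injective (A.restrictScalars ℝ).toLinearMap := by
    have h2 : IsUnit (LinearMap.det (A.restrictScalars ℝ).toLinearMap) := isUnit_iff_ne_zero.2 hne
    exact (LinearEquiv.ofIsUnitDet (v := Module.finBasis ℝ (Ec m)) (v' := Module.finBasis ℝ (Ec m)) (by
      rwa [LinearMap.det_toMatrix])).injective
  obtain ⟨v, hv, hv0⟩ := (Submodule.ne_bot_iff _).1 (LinearMap.bot_lt_ker_of_det_eq_zero h).ne'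
  apply hv0
  apply h1
  rw [map_zero]
  exact hv

/-- Sard's theorem: for arbitrarily small `c` the map `K` has only nondegenerate zeros of `K z = c` in the ball.  Proof: `MeasureTheory.addHaar_image_eq_zero_of_det_fderiv_eq_zero` for the real derivative (its real determinant is the square
of the absolute value of the complex one, or simply: it is zero as the map is not injective); a set of measure zero does not contain a ball. -/
theorem exists_small_c {m : ℕ} {K : Ec m → Ec m} {a : Ec m} {r : ℝ}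
    (hK : DifferentiableOn ℂ K (Metric.ball a r)) {δ : ℝ} (hδ : 0 < δ) :
    ∃ c : Ec m, ‖c‖ < δ ∧ ∀ z ∈ Metric.ball a r, K z = c →
      LinearMap.det (fderiv ℂ K z).toLinearMap ≠ 0 := by
  classical
  let _ : MeasurableSpace (Ec m) := borel (Ec m)
  have : BorelSpace (Ec m) := ⟨rfl⟩
  set μ : Measure (Ec m) := Measure.addHaar with hμ
  set S : Set (Ec m) := {z | z ∈ Metric.ball a r ∧ LinearMap.det (fderiv ℂ K z).toLinearMap = 0}
    with hS
  have h1 : μ (K '' S) = 0 := by
    refine addHaar_image_eq_zero_of_det_fderivWithin_eq_zero μ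
      (f' := fun z => (fderiv ℂ K z).restrictScalars ℝ) ?_ ?_
    · intro z hz
      have h2 : DifferentiableAt ℂ K z := hK.differentiableAt (Metric.isOpen_ball.mem_nhds hz.1)
      exact (h2.hasFDerivAt.restrictScalars ℝ).hasFDerivWithinAt
    · intro z hz
      exact V3_real_det _ hz.2
  have h3 : 0 < μ (Metric.ball (0 : Ec m) δ) := Metric.measure_ball_pos μ _ hδ
  have h4 : ∃ c ∈ Metric.ball (0 : Ec m) δ, c ∉ K '' S := by
    by_contra hcon
    push Not at hcon
    exact absurd (measure_mono_null (fun x hx => hcon x hx) h1) h3.ne'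
  obtain ⟨c, hc, hcS⟩ := h4
  refine ⟨c, by simpa using hc, fun z hz hzc hdet => hcS ⟨z, ⟨hz, hdet⟩, hzc⟩⟩

/-- Proof.  Let `η > 0` be the minimum of `‖H z‖` on the compact set of the `z` with `r1 ≤ ‖z - a‖ ≤ r2` (for `m = 0` the space is a point and the set is empty: any `η`).
Choose `t > 0` with `t r2 ≤ δ / 2`, `t r2 < η / 2` and `det (DH(a) + t) ≠ 0` (`exists_small_t`).  `K z = H z + t (z - a)` has an invertible derivative at its zero `a`, so by the inverse function theorem
(holomorphic maps are `C^1`: `DifferentiableOn.contDiffOn` for maps on `ℂ^m`? if this is only available for one variable, use the real structure: `DifferentiableOn.analyticOnNhd`-like theorems, or the file in this folder which proves smoothness of holomorphic maps of several variables (search for `Differentiable ℂ`/`holo` in the files T*, G2*, Z*))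
`K (ball a r1)` is a neighbourhood of `0`: it contains all `c` with `‖c‖ < δ'`.  Take `c` from `exists_small_c` (for `K` on `ball a R`) with `‖c‖ < min δ' (δ/2) (η/2)`.  Then `K z = c` has a solution in `ball a r1`; if
`H z + ρ z • (t • (z - a) - c) = 0` and `‖z - a‖ ≤ r2` then `‖H z‖ ≤ t r2 + ‖c‖ < η`, so `‖z - a‖ < r1`, `ρ z = 1` and `K z = c`. -/
theorem exists_reg {m : ℕ} {H : Ec m → Ec m} {a : Ec m} {R r1 r2 : ℝ} (hr1 : 0 < r1)
    (hr12 : r1 < r2) (hr2 : r2 < R) (hH : DifferentiableOn ℂ H (Metric.ball a R)) (h0 : H a = 0)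
    (hne : ∀ z ∈ Metric.closedBall a r2, H z = 0 → z = a) {ρ : Ec m → ℝ}
    (hρ : ∀ z, 0 ≤ ρ z ∧ ρ z ≤ 1) (hρ1 : ∀ z ∈ Metric.closedBall a r1, ρ z = 1) {δ : ℝ}
    (hδ : 0 < δ) :
    ∃ (t : ℝ) (c : Ec m), (∀ z ∈ Metric.closedBall a r2, ‖t • (z - a) - c‖ ≤ δ) ∧
      (∃ z ∈ Metric.ball a r1, H z + (t • (z - a) - c) = 0) ∧
      ∀ z ∈ Metric.closedBall a r2, H z + ρ z • (t • (z - a) - c) = 0 →
        z ∈ Metric.ball a r1 ∧ LinearMap.det ((fderiv ℂ H z +
          (t : ℂ) • ContinuousLinearMap.id ℂ (Ec m) : Ec m →L[ℂ] Ec m)).toLinearMap ≠ 0 := by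
  classical
  have hr2p : 0 < r2 := hr1.trans hr12
  have hcb : Metric.closedBall a r2 ⊆ Metric.ball a R := Metric.closedBall_subset_ball hr2
  -- the minimum of `‖H‖` on the shell
  have hη : ∃ η : ℝ, 0 < η ∧ ∀ z ∈ Metric.closedBall a r2, r1 ≤ dist z a → η ≤ ‖H z‖ := by
    set C : Set (Ec m) := Metric.closedBall a r2 ∩ {z | r1 ≤ dist z a} with hC
    have hCc : IsCompact C := (isCompact_closedBall a r2).inter_right
      (isClosed_le continuous_const (continuous_id.dist continuous_const))
    rcases C.eq_empty_or_nonempty with h1 | h1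
    · refine ⟨1, one_pos, fun z hz hz' => ?_⟩
      exact absurd (show z ∈ C from ⟨hz, hz'⟩) (by rw [h1]; exact Set.notMem_empty z)
    · obtain ⟨z0, hz0, hmin⟩ := hCc.exists_isMinOn h1
        ((hH.continuousOn.mono (Set.inter_subset_left.trans hcb)).norm)
      refine ⟨‖H z0‖, ?_, fun z hz hz' => hmin (show z ∈ C from ⟨hz, hz'⟩)⟩
      rw [norm_pos_iff]
      intro h2
      have h3 := hne z0 hz0.1 h2
      have h4 := hz0.2
      rw [h3] at h4
      simp only [Set.mem_ofPred_eq, dist_self] at h4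
      linarith
  obtain ⟨η, hη0, hη1⟩ := hη
  -- the choice of `t`
  obtain ⟨t, ht0, ht1, htdet⟩ := exists_small_t (fderiv ℂ H a)
    (show 0 < min (δ / (2 * r2)) (η / (2 * r2)) from lt_min (by positivity) (by positivity))
  have htδ : t * r2 < δ / 2 := by
    have h1 := ht1.trans_le (min_le_left _ _)
    rw [lt_div_iff₀ (by positivity)] at h1
    linarith
  have htη : t * r2 < η / 2 := by
    have h1 := ht1.trans_le (min_le_right _ _)
    rw [lt_div_iff₀ (by positivity)] at h1
    linarith
  set K : Ec m → Ec m := fun z => H z + (t : ℂ) • (z - a) with hKdef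
  have hKd : DifferentiableOn ℂ K (Metric.ball a R) :=
    hH.add ((differentiableOn_id.sub_const a).const_smul (t : ℂ))
  have hKder : ∀ z ∈ Metric.ball a R, HasFDerivAt K
      (fderiv ℂ H z + (t : ℂ) • ContinuousLinearMap.id ℂ (Ec m)) z := by
    intro z hz
    have h1 : HasFDerivAt H (fderiv ℂ H z) z :=
      (hH.differentiableAt (Metric.isOpen_ball.mem_nhds hz)).hasFDerivAt
    exact h1.add (((hasFDerivAt_id z).sub_const a).const_smul (t : ℂ))
  have haR : a ∈ Metric.ball a R := Metric.mem_ball_self (hr2p.trans hr2)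
  have hK0 : K a = 0 := by
    simp [hKdef, h0]
  have hcd : ContDiffAt ℂ ∞ K a :=
    (FB.V3s.scv_contDiffOn Metric.isOpen_ball hKd).contDiffAt
      (Metric.isOpen_ball.mem_nhds haR)
  have hstr : HasStrictFDerivAt K
      (fderiv ℂ H a + (t : ℂ) • ContinuousLinearMap.id ℂ (Ec m)) a :=
    hcd.hasStrictFDerivAt' (hKder a haR) (by simp)
  have hmap : Filter.map K (𝓝 a) = 𝓝 0 := by
    have h1 := hstr.map_nhds_eq_of_surj (by
      rw [LinearMap.range_eq_top]
      have h2 : IsUnit (LinearMap.det ((fderiv ℂ H a + (t : ℂ) • ContinuousLinearMap.id ℂ (Ec m) :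
        Ec m →L[ℂ] Ec m)).toLinearMap) := isUnit_iff_ne_zero.2 htdet
      exact (LinearEquiv.ofIsUnitDet (v := Module.finBasis ℂ (Ec m))
        (v' := Module.finBasis ℂ (Ec m)) (by rwa [LinearMap.det_toMatrix])).surjective)
    rwa [hK0] at h1
  have himg : K '' Metric.ball a r1 ∈ 𝓝 (0 : Ec m) := by
    rw [← hmap]
    exact Filter.image_mem_map (Metric.ball_mem_nhds a hr1)
  obtain ⟨δ', hδ', hδ'K⟩ := Metric.mem_nhds_iff.1 himg
  obtain ⟨c, hc, hcdet⟩ := exists_small_c hKd
    (show 0 < min δ' (min (δ / 2) (η / 2)) from lt_min hδ' (lt_min (by positivity) (by positivity)))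
  have hc1 : ‖c‖ < δ' := hc.trans_le (min_le_left _ _)
  have hc2 : ‖c‖ < δ / 2 := hc.trans_le ((min_le_right _ _).trans (min_le_left _ _))
  have hc3 : ‖c‖ < η / 2 := hc.trans_le ((min_le_right _ _).trans (min_le_right _ _))
  have hsm : ∀ z : Ec m, (t : ℂ) • (z - a) = t • (z - a) := fun z => Complex.coe_smul t (z - a)
  have hnorm : ∀ z ∈ Metric.closedBall a r2, ‖t • (z - a) - c‖ ≤ t * r2 + ‖c‖ := by
    intro z hz
    refine (norm_sub_le _ _).trans ?_
    rw [norm_smul, Real.norm_of_nonneg ht0.le]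
    have h1 : ‖z - a‖ ≤ r2 := by rw [← dist_eq_norm]; exact hz
    gcongr
  refine ⟨t, c, fun z hz => (hnorm z hz).trans (by linarith), ?_, ?_⟩
  · have h1 : c ∈ K '' Metric.ball a r1 := hδ'K (by simpa using hc1)
    obtain ⟨z, hz, hzc⟩ := h1
    refine ⟨z, hz, ?_⟩
    rw [← hzc, hKdef]
    simp only [hsm]
    abel
  · intro z hz hzz
    have h1 : ‖H z‖ < η := by
      have h2 : H z = -(ρ z • (t • (z - a) - c)) := eq_neg_of_add_eq_zero_left hzz
      rw [h2, norm_neg, norm_smul, Real.norm_of_nonneg (hρ z).1]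
      calc ρ z * ‖t • (z - a) - c‖ ≤ 1 * ‖t • (z - a) - c‖ := by
            gcongr
            exact (hρ z).2
        _ ≤ t * r2 + ‖c‖ := by rw [one_mul]; exact hnorm z hz
        _ < η := by linarith
    have h3 : dist z a < r1 := by
      by_contra h4
      exact absurd (hη1 z hz (not_lt.1 h4)) (not_le.2 h1)
    refine ⟨h3, ?_⟩
    have h4 : ρ z = 1 := hρ1 z (Metric.ball_subset_closedBall h3)
    rw [h4, one_smul] at hzz
    have h5 : K z = c := by
      rw [hKdef]
      simp only [hsm]
      have := eq_neg_of_add_eq_zero_left hzz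
      rw [this]
      abel
    have h6 := hcdet z (hcb hz) h5
    rwa [(hKder z (hcb hz)).fderiv] at h6

end FB
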