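import Pool.Agent.H.MP_fb873c_an.V0

/-!
# Part V4a: the derivative at a fixed point in another coordinate
-/

namespace FB

open scoped Topology ContDiff Manifold
open Filter

universe u

/-- The real determinant of a complex linear map is the square of the absolute value of its determinant. -/
theorem det_real_pos {m : ℕ} (A : Ec m →L[ℂ] Ec m) (h : LinearMap.det A.toLinearMap ≠ 0) :
    0 < LinearMap.det (A.restrictScalars ℝ).toLinearMap := by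
  have h1 : (A.restrictScalars ℝ).toLinearMap = A.toLinearMap.restrictScalars ℝ := rfl
  rw [h1, LinearMap.det_restrictScalars, Algebra.norm_complex_apply]
  exact Complex.normSq_pos.2 h

variable {n : ℕ} {M : Type u} [TopologicalSpace M] [ChartedSpace (Er n) M]
  [IsManifold (𝓡 n) ∞ M]

section aux

variable {E : Type} [NormedAddCommGroup E] [NormedSpace ℝ E]

theorem V4a_to (e : Crd n M E) {x : M} (hx : x ∈ e.e.source) :
    DifferentiableAt ℝ (chartAt (Er n) x ∘ e.e.symm) (e.e x) := by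
  have h1 : ContMDiffAt (𝓡 n) (𝓡 n) ∞ (chartAt (Er n) x) (e.e.symm (e.e x)) := by
    rw [e.e.left_inv hx]
    exact contMDiffAt_of_mem_maximalAtlas
      (IsManifold.subset_maximalAtlas (chart_mem_atlas (Er n) x)) (mem_chart_source (Er n) x)
  have h2 : ContMDiffAt 𝓘(ℝ, E) (𝓡 n) ∞ e.e.symm (e.e x) :=
    e.t.contMDiffAt (e.e.open_target.mem_nhds (e.e.map_source hx))
  have h3 : ContMDiffAt 𝓘(ℝ, E) (𝓡 n) ∞ (chartAt (Er n) x ∘ e.e.symm) (e.e x) :=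
    h1.comp (e.e x) h2
  exact (contMDiffAt_iff_contDiffAt.1 h3).differentiableAt (by simp)

theorem V4a_from (e : Crd n M E) {x : M} (hx : x ∈ e.e.source) :
    DifferentiableAt ℝ (e.e ∘ (chartAt (Er n) x).symm) (chartAt (Er n) x x) := by
  have h1 : ContMDiffAt (𝓡 n) 𝓘(ℝ, E) ∞ e.e ((chartAt (Er n) x).symm (chartAt (Er n) x x)) := by
    rw [(chartAt (Er n) x).left_inv (mem_chart_source (Er n) x)]
    exact e.s.contMDiffAt (e.e.open_source.mem_nhds hx)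
  have h2 : ContMDiffAt (𝓡 n) (𝓡 n) ∞ (chartAt (Er n) x).symm (chartAt (Er n) x x) :=
    contMDiffAt_symm_of_mem_maximalAtlas
      (IsManifold.subset_maximalAtlas (chart_mem_atlas (Er n) x))
      ((chartAt (Er n) x).map_source (mem_chart_source (Er n) x))
  have h3 : ContMDiffAt (𝓡 n) 𝓘(ℝ, E) ∞ (e.e ∘ (chartAt (Er n) x).symm) (chartAt (Er n) x x) :=
    h1.comp (chartAt (Er n) x x) h2
  exact (contMDiffAt_iff_contDiffAt.1 h3).differentiableAt (by simp)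

theorem V4a_self (e : Crd n M E) {G : M → M} (hG : ContMDiff (𝓡 n) (𝓡 n) ∞ G) {x : M}
    (hx : x ∈ e.e.source) (hfix : G x = x) :
    DifferentiableAt ℝ (e.e ∘ G ∘ e.e.symm) (e.e x) := by
  have h1 : ContMDiffAt (𝓡 n) 𝓘(ℝ, E) ∞ e.e (G (e.e.symm (e.e x))) := by
    rw [e.e.left_inv hx, hfix]
    exact e.s.contMDiffAt (e.e.open_source.mem_nhds hx)
  have h2 : ContMDiffAt 𝓘(ℝ, E) (𝓡 n) ∞ e.e.symm (e.e x) :=
    e.t.contMDiffAt (e.e.open_target.mem_nhds (e.e.map_source hx))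
  have h4 : ContMDiffAt 𝓘(ℝ, E) (𝓡 n) ∞ (G ∘ e.e.symm) (e.e x) :=
    (hG.contMDiffAt).comp (e.e x) h2
  have h3 : ContMDiffAt 𝓘(ℝ, E) 𝓘(ℝ, E) ∞ (e.e ∘ (G ∘ e.e.symm)) (e.e x) :=
    ContMDiffAt.comp (e.e x) h1 h4
  exact (contMDiffAt_iff_contDiffAt.1 h3).differentiableAt (by simp)

end aux

omit [ChartedSpace (Er n) M] [IsManifold (𝓡 n) ∞ M] in
theorem V4a_inv {E F : Type} [NormedAddCommGroup E] [NormedSpace ℝ E] [NormedAddCommGroup F]
    [NormedSpace ℝ F] {x : M} {φ : OpenPartialHomeomorph M E} {ψ : OpenPartialHomeomorph M F}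
    (hxφ : x ∈ φ.source) (hxψ : x ∈ ψ.source) (h1 : DifferentiableAt ℝ (φ ∘ ψ.symm) (ψ x))
    (h2 : DifferentiableAt ℝ (ψ ∘ φ.symm) (φ x)) :
    (fderiv ℝ (φ ∘ ψ.symm) (ψ x)) ∘L (fderiv ℝ (ψ ∘ φ.symm) (φ x)) =
      ContinuousLinearMap.id ℝ E := by
  have hx : (ψ ∘ φ.symm) (φ x) = ψ x := by
    show ψ (φ.symm (φ x)) = ψ x
    rw [φ.left_inv hxφ]
  have h3 : fderiv ℝ ((φ ∘ ψ.symm) ∘ (ψ ∘ φ.symm)) (φ x) =
      (fderiv ℝ (φ ∘ ψ.symm) (ψ x)) ∘L (fderiv ℝ (ψ ∘ φ.symm) (φ x)) := by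
    rw [fderiv_comp (φ x) (by rw [hx]; exact h1) h2, hx]
  have h4 : (φ ∘ ψ.symm) ∘ (ψ ∘ φ.symm) =ᶠ[𝓝 (φ x)] id := by
    have h1 : φ.target ∈ 𝓝 (φ x) := φ.open_target.mem_nhds (φ.map_source hxφ)
    have h2 : ∀ᶠ z in 𝓝 (φ x), φ.symm z ∈ ψ.source := by
      refine (φ.symm.continuousAt (φ.map_source hxφ)).eventually ?_
      show ψ.source ∈ 𝓝 (φ.symm (φ x))
      rw [φ.left_inv hxφ]
      exact ψ.open_source.mem_nhds hxψ
    filter_upwards [h1, h2] with z hz1 hz2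
    show φ (ψ.symm (ψ (φ.symm z))) = z
    rw [ψ.left_inv hz2, φ.right_inv hz1]
  rw [← h3, h4.fderiv_eq, fderiv_id]

omit [ChartedSpace (Er n) M] [IsManifold (𝓡 n) ∞ M] in
theorem V4a_conj {E F : Type} [NormedAddCommGroup E] [NormedSpace ℝ E] [NormedAddCommGroup F]
    [NormedSpace ℝ F] {G : M → M} {x : M} (hF : ContinuousAt G x) (hx : G x = x)
    {φ : OpenPartialHomeomorph M E} {ψ : OpenPartialHomeomorph M F} (hxφ : x ∈ φ.source)
    (hxψ : x ∈ ψ.source) :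
    φ ∘ G ∘ φ.symm =ᶠ[𝓝 (φ x)] (φ ∘ ψ.symm) ∘ (ψ ∘ G ∘ ψ.symm) ∘ (ψ ∘ φ.symm) := by
  have hc : ContinuousAt φ.symm (φ x) := φ.symm.continuousAt (φ.map_source hxφ)
  have h2 : ∀ᶠ z in 𝓝 (φ x), φ.symm z ∈ ψ.source := by
    refine hc.eventually ?_
    show ψ.source ∈ 𝓝 (φ.symm (φ x))
    rw [φ.left_inv hxφ]
    exact ψ.open_source.mem_nhds hxψ
  have h3 : ∀ᶠ z in 𝓝 (φ x), G (φ.symm z) ∈ ψ.source := by
    have h4 : ContinuousAt (G ∘ φ.symm) (φ x) := by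
      refine ContinuousAt.comp ?_ hc
      rw [φ.left_inv hxφ]
      exact hF
    refine h4.eventually ?_
    show ψ.source ∈ 𝓝 (G (φ.symm (φ x)))
    rw [φ.left_inv hxφ, hx]
    exact ψ.open_source.mem_nhds hxψ
  filter_upwards [h2, h3] with z hz2 hz3
  show φ (G (φ.symm z)) = φ (ψ.symm (ψ (G (ψ.symm (ψ (φ.symm z))))))
  rw [ψ.left_inv hz2, ψ.left_inv hz3]

/-- `det (1 - DG_x)` in the coordinate `e`.

Proof.  Let `φ = chartAt (Er n) x`, `L` the derivative of `φ ∘ e.symm` at `e x`, an isomorphism `E → Er n` with inverse the derivative `L'` of `e ∘ φ.symm` at `φ x`.  Near `e x`: `φ ∘ G ∘ φ.symm = (φ ∘ e.symm) ∘ (e ∘ G ∘ e.symm) ∘ (e ∘ φ.symm)`, so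
`dfix G x = L ∘ B ∘ L'`, `B` the derivative of `e ∘ G ∘ e.symm` at `e x`, `1 - dfix G x = L ∘ (1 - B) ∘ L'`: the same determinant (`LinearMap.det_conj`). -/
theorem det_crd {E : Type} [NormedAddCommGroup E] [NormedSpace ℝ E] [FiniteDimensional ℝ E]
    (e : Crd n M E) {G : M → M} (hG : ContMDiff (𝓡 n) (𝓡 n) ∞ G) {x : M} (hx : x ∈ e.e.source)
    (hfix : G x = x) :
    LinearMap.det ((ContinuousLinearMap.id ℝ (Er n) - dfix (n := n) G x :
      Er n →L[ℝ] Er n)).toLinearMap =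
    LinearMap.det ((ContinuousLinearMap.id ℝ E - fderiv ℝ (fun z => e.e (G (e.e.symm z))) (e.e x) :
      E →L[ℝ] E)).toLinearMap := by
  obtain ⟨φ, hφ⟩ : ∃ φ : OpenPartialHomeomorph M (Er n), φ = chartAt (Er n) x := ⟨_, rfl⟩
  have hxφ : x ∈ φ.source := by
    rw [hφ]
    exact mem_chart_source _ x
  have hτ : DifferentiableAt ℝ (φ ∘ e.e.symm) (e.e x) := by
    rw [hφ]
    exact V4a_to e hx
  have hσ : DifferentiableAt ℝ (e.e ∘ φ.symm) (φ x) := by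
    rw [hφ]
    exact V4a_from e hx
  have hB := V4a_self e hG hx hfix
  have h1 := V4a_inv hxφ hx hτ hσ
  have h2 := V4a_inv hx hxφ hσ hτ
  have hB' : (fun z => e.e (G (e.e.symm z))) = e.e ∘ G ∘ e.e.symm := rfl
  rw [hB']
  obtain ⟨T, hT⟩ : ∃ T : E ≃L[ℝ] Er n, dfix G x =
      (T : E →L[ℝ] Er n) ∘L fderiv ℝ (e.e ∘ G ∘ e.e.symm) (e.e x) ∘L
        (T.symm : Er n →L[ℝ] E) := by
    refine ⟨ContinuousLinearEquiv.equivOfInverse (fderiv ℝ (φ ∘ e.e.symm) (e.e x))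
      (fderiv ℝ (e.e ∘ φ.symm) (φ x)) (fun v => ?_) (fun v => ?_), ?_⟩
    · exact congrArg (fun L : E →L[ℝ] E => L v) h2
    · exact congrArg (fun L : Er n →L[ℝ] Er n => L v) h1
    · have hx1 : (e.e ∘ φ.symm) (φ x) = e.e x := by
        show e.e (φ.symm (φ x)) = e.e x
        rw [φ.left_inv hxφ]
      have hx2 : (e.e ∘ G ∘ e.e.symm) (e.e x) = e.e x := by
        show e.e (G (e.e.symm (e.e x))) = e.e x
        rw [e.e.left_inv hx, hfix]
      have hx3 : ((e.e ∘ G ∘ e.e.symm) ∘ (e.e ∘ φ.symm)) (φ x) = e.e x := by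
        show (e.e ∘ G ∘ e.e.symm) ((e.e ∘ φ.symm) (φ x)) = e.e x
        rw [hx1, hx2]
      have h3 : fderiv ℝ ((e.e ∘ G ∘ e.e.symm) ∘ (e.e ∘ φ.symm)) (φ x) =
          (fderiv ℝ (e.e ∘ G ∘ e.e.symm) (e.e x)) ∘L (fderiv ℝ (e.e ∘ φ.symm) (φ x)) := by
        rw [fderiv_comp (φ x) (by rw [hx1]; exact hB) hσ, hx1]
      have h4 : DifferentiableAt ℝ ((e.e ∘ G ∘ e.e.symm) ∘ (e.e ∘ φ.symm)) (φ x) :=
        DifferentiableAt.comp (φ x) (by rw [hx1]; exact hB) hσ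
      have h5 : dfix G x = fderiv ℝ (φ ∘ G ∘ φ.symm) (φ x) := by
        rw [hφ]
        rfl
      rw [h5, (V4a_conj hG.continuous.continuousAt hfix hxφ hx).fderiv_eq,
        fderiv_comp (φ x) (by rw [hx3]; exact hτ) h4, hx3, h3]
      rfl
  have h6 : ((ContinuousLinearMap.id ℝ (Er n) - dfix (n := n) G x :
      Er n →L[ℝ] Er n)).toLinearMap =
      (T.toLinearEquiv : E →ₗ[ℝ] Er n) ∘ₗ
        ((ContinuousLinearMap.id ℝ E - fderiv ℝ (e.e ∘ G ∘ e.e.symm) (e.e x) :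
          E →L[ℝ] E)).toLinearMap ∘ₗ
        (T.toLinearEquiv.symm : Er n →ₗ[ℝ] E) := by
    rw [hT]
    ext1 v
    show v - T (fderiv ℝ (e.e ∘ G ∘ e.e.symm) (e.e x) (T.symm v)) =
      T (T.symm v - fderiv ℝ (e.e ∘ G ∘ e.e.symm) (e.e x) (T.symm v))
    rw [map_sub, T.apply_symm_apply]
  rw [h6, LinearMap.det_conj]

end FB
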