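import Pool.Agent.H.MP_fb873c_an.D1b
import Pool.Agent.H.MP_fb873c_an.D1e
import Pool.Agent.H.MP_fb873c_an.V2
import Pool.Agent.H.MP_fb873c_an.V3
import Pool.Agent.H.MP_fb873c_an.V4a

/-!
# Part V4: perturbation of an isolated fixed point of a holomorphic map
-/

namespace FB

open scoped Topology ContDiff Manifold
open Filter

universe u

/-- The derivative of the perturbed map. -/
theorem V4_deriv {m : ℕ} {H : Ec m → Ec m} {a c z : Ec m} {t : ℝ}
    (hH : DifferentiableAt ℂ H z) :
    ContinuousLinearMap.id ℝ (Ec m) -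
      fderiv ℝ (fun w => w - H w - (t • (w - a) - c)) z =
    (fderiv ℂ H z + (t : ℂ) • ContinuousLinearMap.id ℂ (Ec m) :
      Ec m →L[ℂ] Ec m).restrictScalars ℝ := by
  have h1 : HasFDerivAt H ((fderiv ℂ H z).restrictScalars ℝ) z :=
    hH.hasFDerivAt.restrictScalars ℝ
  have h2 : HasFDerivAt (fun w : Ec m => w - H w - (t • (w - a) - c))
      (ContinuousLinearMap.id ℝ (Ec m) - (fderiv ℂ H z).restrictScalars ℝ -
        t • ContinuousLinearMap.id ℝ (Ec m)) z := by
    have h3 : HasFDerivAt (fun w : Ec m => t • (w - a) - c)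
        (t • ContinuousLinearMap.id ℝ (Ec m)) z :=
      (((hasFDerivAt_id z).sub_const a).const_smul t).sub_const c
    exact ((hasFDerivAt_id z).sub h1).sub h3
  rw [h2.fderiv]
  ext v
  simp
  ring

variable {n : ℕ} {M : Type u} [TopologicalSpace M] [ChartedSpace (Er n) M]
  [IsManifold (𝓡 n) ∞ M]

omit [IsManifold (𝓡 n) ∞ M] in
/-- A nondegenerate fixed point. -/
theorem V4_nd {G : M → M} {x : M} (h : PosD n G x) : ND n G x := by
  unfold ND
  unfold PosD at h
  have h1 : ((dfix G x - ContinuousLinearMap.id ℝ (Er n) : Er n →L[ℝ] Er n)).toLinearMap =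
      (-1 : ℝ) • ((ContinuousLinearMap.id ℝ (Er n) - dfix (n := n) G x :
        Er n →L[ℝ] Er n)).toLinearMap := by
    ext v
    simp
  rw [h1, LinearMap.det_smul]
  exact mul_ne_zero (pow_ne_zero _ (by norm_num)) h.ne'

/-- Proof.  Let `e`, `R` be as in `HolFix`, `a = e x0`; `r0` from `exists_move` (file V2).  Choose `r2 < r < min r0 R` with `e.symm '' (closedBall a r) ⊆ V` (continuity of `e.symm` at `a`), `r1 < r2`, a smooth bump function `ρ` (`ContDiffBump a`, `rIn = r1`, `rOut = r2`), `δ` from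
`exists_move` for `r`.  `H z = z - e (F (e.symm z))` is holomorphic on `ball a R`, `H a = 0`, and `H z = 0` implies `F (e.symm z) = e.symm z`, so `z = a` by `hiso` for `z ∈ closedBall a r`.  `exists_reg` (file V3) for `r1 < r2 < R`, `δ` gives `t`, `c`.
Put `P z = c - t • (z - a)`; on `ball a r` outside `ball a r2` we have `ρ = 0`; `‖P z‖ ≤ δ` is needed on `closedBall a r`: use `exists_reg` with a smaller `δ` (for example `r ≤ 2 r2` and `δ / 4`, or apply it with `r2` replaced by `r`: `ρ` has values in `[0,1]`, and `hne` holds on `closedBall a r`) — the second way is the simplest: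
apply `exists_reg` with `r` in place of `r2`.  `G` from `exists_move`.
* For `x ∉ V`: a neighbourhood of `x` is disjoint from the compact set `e.symm '' closedBall a r`, where `G ≠ F` can happen.
* Let `x ∈ V`, `G x = x`.  If `x ∉ e.symm '' ball a r` then `F x = x`, `x = x0`, but `x0 = e.symm a`: a contradiction.  So `x = e.symm z`, `z ∈ ball a r`, `z = e (F (e.symm z)) + ρ z • P z`, i.e. `H z + ρ z • (t • (z - a) - c) = 0`, so
`z ∈ ball a r1` and `det (DH(z) + t) ≠ 0`.  Near `z` we have `ρ = 1`, so `w ↦ e (G (e.symm w))` is `w - H w - (t • (w - a) - c)` near `z`, its derivative is `1 - (DH(z) + t)`, and `det_crd`, `det_real_pos` (file V4a) give `PosD n G x`.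
* The solution in `ball a r1` gives a fixed point of `G` in `V`.
* Finiteness: the fixed points of `G` in `V` are in the compact set `e.symm '' closedBall a r1`, and they are isolated (nondegenerate: the inverse function theorem for `z ↦ z - e (G (e.symm z))`; or `D1_uc` as in the proof of `D1_fin`, file D1f; or: a compact set of zeros with invertible derivative is finite). -/
theorem one_step [T2Space M] {F : M → M} (hF : ContMDiff (𝓡 n) (𝓡 n) ∞ F) {x0 : M}
    (hx : F x0 = x0) (hh : HolFix n F x0) {V : Set M} (hV : IsOpen V) (hxV : x0 ∈ V)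
    (hiso : ∀ x ∈ V, F x = x → x = x0) :
    ∃ G : M → M, ContMDiff (𝓡 n) (𝓡 n) ∞ G ∧ SameH (Er n) F G ∧ (∀ x, x ∉ V → G =ᶠ[𝓝 x] F) ∧
      (∃ x ∈ V, G x = x) ∧ (∀ x ∈ V, G x = x → PosD n G x) ∧ {x | x ∈ V ∧ G x = x}.Finite := by
  classical
  obtain ⟨m, e, R, hx0, hR, hRt, hmaps, hhol⟩ := hh
  obtain ⟨r0, hr0, hr0t, hr0s, hmove⟩ := exists_move e hF hx0 hx
  set a : Ec m := e.e x0 with ha
  have hsa : e.e.symm a = x0 := e.e.left_inv hx0
  -- choice of the radius
  have hVn : e.e.symm ⁻¹' V ∈ 𝓝 a := by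
    have h1 : ContinuousAt e.e.symm a := e.e.continuousAt_symm (e.e.map_source hx0)
    exact h1.preimage_mem_nhds (by rw [hsa]; exact hV.mem_nhds hxV)
  obtain ⟨r', hr', hr'V⟩ := Metric.nhds_basis_closedBall.mem_iff.1 hVn
  set r : ℝ := min r0 (min R r') / 2 with hr
  have hmin : 0 < min r0 (min R r') := lt_min hr0 (lt_min hR hr')
  have hrpos : 0 < r := by positivity
  have hr_lt : r < min r0 (min R r') := by rw [hr]; linarith
  have hrr0 : r < r0 := hr_lt.trans_le (min_le_left _ _)
  have hrR : r < R := hr_lt.trans_le ((min_le_right _ _).trans (min_le_left _ _))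
  have hrr' : r < r' := hr_lt.trans_le ((min_le_right _ _).trans (min_le_right _ _))
  have hcV : ∀ z ∈ Metric.closedBall a r, e.e.symm z ∈ V := fun z hz =>
    hr'V (Metric.closedBall_subset_closedBall hrr'.le hz)
  have hct : ∀ z ∈ Metric.closedBall a r, z ∈ e.e.target := fun z hz =>
    hr0t (Metric.closedBall_subset_closedBall hrr0.le hz)
  have hcs : ∀ z ∈ Metric.closedBall a r, F (e.e.symm z) ∈ e.e.source := fun z hz =>
    hr0s z (Metric.closedBall_subset_closedBall hrr0.le hz)
  obtain ⟨δ, hδ, hmv⟩ := hmove r hrpos hrr0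
  -- the bump function
  let f : ContDiffBump a := ⟨r / 4, r / 2, by positivity, by linarith⟩
  set ρ : Ec m → ℝ := fun z => f z with hρdef
  have hρs : ContDiff ℝ ∞ ρ := f.contDiff
  have hρ01 : ∀ z, 0 ≤ ρ z ∧ ρ z ≤ 1 := fun z => ⟨f.nonneg, f.le_one⟩
  have hρ1 : ∀ z ∈ Metric.closedBall a (r / 4), ρ z = 1 := fun z hz => f.one_of_mem_closedBall hz
  have hρt : tsupport ρ ⊆ Metric.ball a r := by
    rw [hρdef, f.tsupport_eq]
    exact Metric.closedBall_subset_ball (by change r / 2 < r; linarith)
  -- the map `H`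
  set H : Ec m → Ec m := fun z => z - e.e (F (e.e.symm z)) with hHdef
  have hHd : DifferentiableOn ℂ H (Metric.ball a R) := differentiableOn_id.sub hhol
  have hH0 : H a = 0 := by
    simp only [hHdef]
    rw [hsa, hx, ← ha, sub_self]
  have hne : ∀ z ∈ Metric.closedBall a r, H z = 0 → z = a := by
    intro z hz h1
    have h2 : z = e.e (F (e.e.symm z)) := sub_eq_zero.1 h1
    have h3 : e.e.symm z = F (e.e.symm z) := by
      conv_lhs => rw [h2]
      exact e.e.left_inv (hcs z hz)
    have h4 : e.e.symm z = x0 := hiso _ (hcV z hz) h3.symm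
    rw [← e.e.right_inv (hct z hz), h4]
  obtain ⟨t, c, hP, ⟨z1, hz1, hz1s⟩, hreg⟩ := exists_reg (by positivity : 0 < r / 4)
    (by linarith : r / 4 < r) hrR hHd hH0 hne hρ01 hρ1 hδ
  obtain ⟨G, hG, hsame, hout, hin⟩ := hmv ρ (fun z => -(t • (z - a) - c)) hρs
    (by fun_prop) hρ01 hρt (fun z hz => by rw [norm_neg]; exact hP z hz)
  have hr4 : ∀ z ∈ Metric.ball a (r / 4), z ∈ Metric.ball a r := fun z hz =>
    Metric.ball_subset_ball (by linarith) hz
  -- the fixed points of `G` in `V`
  have hfix : ∀ x ∈ V, G x = x → ∃ z ∈ Metric.ball a (r / 4), e.e.symm z = x ∧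
      LinearMap.det ((fderiv ℂ H z + (t : ℂ) • ContinuousLinearMap.id ℂ (Ec m) :
        Ec m →L[ℂ] Ec m)).toLinearMap ≠ 0 := by
    intro x hxV' hGx
    by_cases h1 : x ∈ e.e.symm '' Metric.ball a r
    · obtain ⟨z, hz, rfl⟩ := h1
      obtain ⟨-, h3⟩ := hin z hz
      rw [hGx, e.e.right_inv (hct z (Metric.ball_subset_closedBall hz))] at h3
      have h4 : H z + ρ z • (t • (z - a) - c) = 0 := by
        simp only [hHdef]
        rw [sub_add_eq_add_sub, sub_eq_zero]
        nth_rewrite 1 [h3]
        rw [smul_neg, neg_add_cancel_right]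
      obtain ⟨h5, h6⟩ := hreg z (Metric.ball_subset_closedBall hz) h4
      exact ⟨z, h5, rfl, h6⟩
    · exfalso
      have h2 : F x = x := by rw [← hout x h1]; exact hGx
      have h3 := hiso x hxV' h2
      exact h1 ⟨a, Metric.mem_ball_self hrpos, by rw [hsa, h3]⟩
  have hpos : ∀ x ∈ V, G x = x → PosD n G x := by
    intro x hxV' hGx
    obtain ⟨z, hz, rfl, hdet⟩ := hfix x hxV' hGx
    have hzt : z ∈ e.e.target := hct z (Metric.ball_subset_closedBall (hr4 z hz))
    unfold PosD
    rw [det_crd e hG (e.e.map_target hzt) hGx, e.e.right_inv hzt]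
    have h1 : (fun w => e.e (G (e.e.symm w))) =ᶠ[𝓝 z]
        fun w => w - H w - (t • (w - a) - c) := by
      filter_upwards [Metric.isOpen_ball.mem_nhds hz] with w hw
      rw [(hin w (hr4 w hw)).2, hρ1 w (Metric.ball_subset_closedBall hw), one_smul]
      simp only [hHdef]
      abel
    rw [h1.fderiv_eq, V4_deriv]
    · exact det_real_pos _ hdet
    · exact hHd.differentiableAt (Metric.isOpen_ball.mem_nhds
        (Metric.ball_subset_ball hrR.le (hr4 z hz)))
  refine ⟨G, hG, hsame, ?_, ?_, hpos, ?_⟩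
  · intro x hxV'
    have hK : IsCompact (e.e.symm '' Metric.closedBall a r) :=
      (isCompact_closedBall a r).image_of_continuousOn
        (e.e.continuousOn_symm.mono fun z hz => hct z hz)
    have h1 : x ∈ (e.e.symm '' Metric.closedBall a r)ᶜ := by
      rintro ⟨z, hz, rfl⟩
      exact hxV' (hcV z hz)
    filter_upwards [hK.isClosed.isOpen_compl.mem_nhds h1] with y hy
    exact hout y fun ⟨z, hz, h⟩ => hy ⟨z, Metric.ball_subset_closedBall hz, h⟩
  · have hz1' := hr4 z1 hz1
    obtain ⟨h1, h2⟩ := hin z1 hz1'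
    refine ⟨e.e.symm z1, hcV z1 (Metric.ball_subset_closedBall hz1'), ?_⟩
    have h3 : e.e (G (e.e.symm z1)) = z1 := by
      rw [h2, hρ1 z1 (Metric.ball_subset_closedBall hz1), one_smul]
      have h4 := hz1s
      simp only [hHdef] at h4
      rw [sub_add_eq_add_sub, sub_eq_zero] at h4
      rw [← h4]
      abel
    rw [← e.e.left_inv h1, h3]
  · have hK1 : IsCompact (e.e.symm '' Metric.closedBall a (r / 4)) :=
      (isCompact_closedBall a (r / 4)).image_of_continuousOn
        (e.e.continuousOn_symm.mono fun z hz =>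
          hct z (Metric.closedBall_subset_closedBall (by linarith) hz))
    have hcl : IsClosed {x | G x = x} := isClosed_eq hG.continuous continuous_id
    have hset : {x | x ∈ V ∧ G x = x} =
        (e.e.symm '' Metric.closedBall a (r / 4)) ∩ {x | G x = x} := by
      ext x
      constructor
      · rintro ⟨h1, h2⟩
        obtain ⟨z, hz, h3, -⟩ := hfix x h1 h2
        exact ⟨⟨z, Metric.ball_subset_closedBall hz, h3⟩, h2⟩
      · rintro ⟨⟨z, hz, rfl⟩, h2⟩
        exact ⟨hcV z (Metric.closedBall_subset_closedBall (by linarith) hz), h2⟩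
    have hc : IsCompact {x | x ∈ V ∧ G x = x} := by
      rw [hset]
      exact hK1.inter_right hcl
    refine hc.finite ?_
    rw [isDiscrete_iff_forall_mem_exists_isOpen]
    rintro x ⟨hx1, hx2⟩
    have sG : C1 n G := hG.of_le (by norm_cast)
    have hcv : CV n (pure ()) (fun _ : Unit => G) G := CV.const _ sG
    obtain ⟨B, hB, h1, -⟩ := D1_uc hcv (fun _ => sG) hx2 (V4_nd (hpos x hx1 hx2))
    have h2 := Filter.eventually_pure.1 h1
    refine ⟨interior B, isOpen_interior, ?_⟩
    ext z
    constructor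
    · rintro ⟨hz1, -, hz2⟩
      exact h2 z (interior_subset hz1) x (mem_of_mem_nhds hB) hz2 hx2
    · rintro rfl
      exact ⟨mem_interior_iff_mem_nhds.2 hB, hx1, hx2⟩

end FB
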