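import Pool.Agent.H.MP_fb873c_an.L6a
import Pool.Agent.H.MP_fb873c_an.V1
import Pool.Agent.H.MP_fb873c_an.V4
import Pool.Agent.H.MP_fb873c_an.Y2
import Pool.Agent.H.MP_fb873c_an.Y3

/-!
# Part V5: the Lefschetz number is at least the number of fixed points
-/

namespace FB

open scoped Topology ContDiff Manifold
open Filter

universe u

variable {n : ℕ} {M : Type u} [TopologicalSpace M] [ChartedSpace (Er n) M]
  [IsManifold (𝓡 n) ∞ M] [CompactSpace M] [T2Space M]

/-- The case of nondegenerate fixed points of index `1`: as `card_fix` (file Y4a), for a smooth map `F` instead of `itr g k`. -/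
theorem card_fix_map {F : M → M} (hF : ContMDiff (𝓡 n) (𝓡 n) ∞ F) (hfin : {x | F x = x}.Finite)
    (hpos : ∀ x, F x = x → PosD n F x) : (({x | F x = x}.ncard : ℕ) : ℂ) = LefN n F := by
  obtain ⟨T, -, -, hgood, hT⟩ := exists_drTy (Er n)
  have hM : TGood T M := by
    intro x0 x1 p _ _
    rw [hgood]
    trivial
  have hT1 : ∀ L : Er n →L[ℝ] Er n, L ∈ T.good := fun L => by rw [hgood]; trivial
  rw [lefN_eq T hT hM hF (fun p => hT1 _), lef_pos T hT hM hF (fun p => hT1 _) hfin hpos]

omit [IsManifold (𝓡 n) ∞ M] [CompactSpace M] [T2Space M] in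
/-- `PosD` and `HolFix` depend only on the germ. -/
theorem posD_congr {F G : M → M} {x : M} (h : G =ᶠ[𝓝 x] F) (hx : PosD n F x) : PosD n G x := by
  have h1 : dfix (n := n) G x = dfix (n := n) F x := by
    unfold dfix
    refine Filter.EventuallyEq.fderiv_eq ?_
    have h2 : ContinuousAt (chartAt (Er n) x).symm (chartAt (Er n) x x) :=
      (chartAt (Er n) x).continuousAt_symm (mem_chart_target (Er n) x)
    have h3 : (chartAt (Er n) x).symm (chartAt (Er n) x x) = x :=
      (chartAt (Er n) x).left_inv (mem_chart_source (Er n) x)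
    have h4 : Tendsto (chartAt (Er n) x).symm (𝓝 (chartAt (Er n) x x)) (𝓝 x) := by
      have := h2.tendsto
      rwa [h3] at this
    filter_upwards [h4.eventually h] with z hz
    show chartAt (Er n) x (G ((chartAt (Er n) x).symm z)) =
      chartAt (Er n) x (F ((chartAt (Er n) x).symm z))
    rw [hz]
  unfold PosD at hx ⊢
  rw [h1]
  exact hx

omit [IsManifold (𝓡 n) ∞ M] [CompactSpace M] [T2Space M] in
theorem holFix_congr {F G : M → M} {x : M} (h : G =ᶠ[𝓝 x] F) (hx : HolFix n F x) :
    HolFix n G x := by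
  obtain ⟨m, e, R, hxs, hR, hRt, hmaps, hhol⟩ := hx
  have h2 : ContinuousAt e.e.symm (e.e x) := e.e.continuousAt_symm (e.e.map_source hxs)
  have h3 : e.e.symm (e.e x) = x := e.e.left_inv hxs
  have h4 : Tendsto e.e.symm (𝓝 (e.e x)) (𝓝 x) := by
    have := h2.tendsto
    rwa [h3] at this
  obtain ⟨r, hr, hrs⟩ := Metric.eventually_nhds_iff_ball.1 (h4.eventually h)
  have hsub : Metric.ball (e.e x) (min r R) ⊆ Metric.ball (e.e x) R :=
    Metric.ball_subset_ball (min_le_right _ _)
  have heq : ∀ z ∈ Metric.ball (e.e x) (min r R), G (e.e.symm z) = F (e.e.symm z) := fun z hz =>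
    hrs z (Metric.ball_subset_ball (min_le_left _ _) hz)
  refine ⟨m, e, min r R, hxs, lt_min hr hR, hsub.trans hRt, ?_, ?_⟩
  · intro z hz
    rw [heq z hz]
    exact hmaps z (hsub hz)
  · refine (hhol.mono hsub).congr fun z hz => ?_
    show e.e (G (e.e.symm z)) = e.e (F (e.e.symm z))
    rw [heq z hz]

/-- Proof.  Induction on the number of the fixed points `x` with `¬ PosD n F x`.  If there is none: `card_fix_map`, `l = ncard`.  Otherwise let `x0` be one of them, `V` an open neighbourhood of `x0` which contains no other fixed point (finitely many points in a Hausdorff space).  `one_step` (file V4) gives `G`.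
The fixed points of `G` are the fixed points `≠ x0` of `F` (outside `V`, where `G = F` near the point) and the finitely many (at least one) fixed points of `G` in `V`, all with `PosD n G`.  So `G` has at least as many fixed points as `F`, and one less with `¬ PosD`; `LefN n G = LefN n F` by
`lefN_of_sameH` (file V1). -/
theorem card_le_lef {F : M → M} (hF : ContMDiff (𝓡 n) (𝓡 n) ∞ F) (hfin : {x | F x = x}.Finite)
    (h : ∀ x, F x = x → PosD n F x ∨ HolFix n F x) :
    ∃ l : ℕ, LefN n F = (l : ℂ) ∧ {x | F x = x}.ncard ≤ l := by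
  classical
  obtain ⟨N, hN⟩ : ∃ N, {x | F x = x ∧ ¬ PosD n F x}.ncard = N := ⟨_, rfl⟩
  induction N using Nat.strong_induction_on generalizing F with
  | _ N ih =>
    have hbf : {x | F x = x ∧ ¬ PosD n F x}.Finite := hfin.subset fun x hx => hx.1
    by_cases hne : ∃ x0, F x0 = x0 ∧ ¬ PosD n F x0
    · obtain ⟨x0, hx0, hx0p⟩ := hne
      have hh : HolFix n F x0 := (h x0 hx0).resolve_left hx0p
      have hSf : ({x | F x = x} \ {x0}).Finite := hfin.subset Set.sdiff_subset
      have hVo : IsOpen ({x | F x = x} \ {x0})ᶜ := hSf.isClosed.isOpen_compl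
      have hxV : x0 ∈ ({x | F x = x} \ {x0})ᶜ := fun g => g.2 rfl
      have hiso : ∀ x ∈ ({x | F x = x} \ {x0})ᶜ, F x = x → x = x0 := by
        intro x hx hFx
        by_contra hne
        exact hx ⟨hFx, hne⟩
      obtain ⟨G, hG, hsame, hout, ⟨x1, hx1V, hx1⟩, hpos, hGf⟩ := one_step hF hx0 hh hVo hxV hiso
      -- the fixed points of `G`
      have hset : {x | G x = x} = ({x | F x = x} \ {x0}) ∪
          {x | x ∈ ({x | F x = x} \ {x0})ᶜ ∧ G x = x} := by
        ext x
        constructor
        · intro hx
          by_cases hxV : x ∈ ({x | F x = x} \ {x0})ᶜ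
          · exact Or.inr ⟨hxV, hx⟩
          · exact Or.inl (not_not.1 hxV)
        · rintro (hx | hx)
          · have h1 := (hout x (fun g => g hx)).eq_of_nhds
            show G x = x
            rw [h1]
            exact hx.1
          · exact hx.2
      have hGfin : {x | G x = x}.Finite := by
        rw [hset]
        exact hSf.union hGf
      have hcond : ∀ x, G x = x → PosD n G x ∨ HolFix n G x := by
        intro x hx
        by_cases hxV : x ∈ ({x | F x = x} \ {x0})ᶜ
        · exact Or.inl (hpos x hxV hx)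
        · have h1 := hout x hxV
          rcases h x (not_not.1 hxV).1 with h2 | h2
          · exact Or.inl (posD_congr h1 h2)
          · exact Or.inr (holFix_congr h1 h2)
      have hbad : {x | G x = x ∧ ¬ PosD n G x} ⊆ {x | F x = x ∧ ¬ PosD n F x} \ {x0} := by
        rintro x ⟨hx, hxp⟩
        have hxV : x ∉ ({x | F x = x} \ {x0})ᶜ := fun g => hxp (hpos x g hx)
        have h1 := not_not.1 hxV
        exact ⟨⟨h1.1, fun g => hxp (posD_congr (hout x hxV) g)⟩, h1.2⟩
      have hlt : {x | G x = x ∧ ¬ PosD n G x}.ncard < N := by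
        rw [← hN]
        refine Set.ncard_lt_ncard ⟨hbad.trans Set.sdiff_subset, fun g => ?_⟩ hbf
        exact (hbad (g ⟨hx0, hx0p⟩)).2 rfl
      obtain ⟨l, hl1, hl2⟩ := ih _ hlt hG hGfin hcond rfl
      refine ⟨l, ?_, ?_⟩
      · rw [lefN_of_sameH hF hG hsame, hl1]
      · refine le_trans ?_ hl2
        rw [hset, Set.ncard_union_eq (by
          rw [Set.disjoint_left]
          intro x h1 h2
          exact h2.1 h1) hSf hGf]
        have h3 : ({x | F x = x} \ {x0}).ncard + 1 = {x | F x = x}.ncard :=
          Set.ncard_sdiff_singleton_add_one hx0 hfin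
        have h4 : 0 < {x | x ∈ ({x | F x = x} \ {x0})ᶜ ∧ G x = x}.ncard :=
          (Set.ncard_pos hGf).2 ⟨x1, hx1V, hx1⟩
        omega
    · push Not at hne
      exact ⟨{x | F x = x}.ncard, (card_fix_map hF hfin hne).symm, le_rfl⟩

end FB
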