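import Pool.Agent.H.MP_fb873c_an.G1e
import Pool.Agent.H.MP_fb873c_an.Z2b

/-! # Part Z2: complex manifolds, derivatives (Z2c) -/

namespace FB

open scoped Topology ContDiff Manifold

universe u


section

variable {m : ℕ} {X : Type u} [TopologicalSpace X] [ChartedSpace (Ec m) X]
  [IsManifold 𝓘(ℝ, Ec m) ∞ X]

/-- JOB Z2c. -/
theorem Holo.comp {F G : X → X} (hG : Holo m G) (hF : Holo m F) : Holo m (G ∘ F) :=
  ⟨hG.1.comp hF.1, hG.2.comp hF.2⟩

/-- JOB Z2c. -/
theorem Holo.iterate {F : X → X} (hF : Holo m F) (k : ℕ) : Holo m (F^[k]) := by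
  induction k with
  | zero => exact ⟨mdifferentiable_id, contMDiff_id⟩
  | succ k ih =>
    rw [Function.iterate_succ']
    exact hF.comp ih

/-- JOB Z2c.  Chain rule (from `fd_comp`, `fd_eq_cfd` and injectivity of `restrictScalars`). -/
theorem cfd_comp (hX : IsManifold 𝓘(ℂ, Ec m) ω X) {F G : X → X} (hF : Holo m F) (hG : Holo m G) (p : X) :
    cfd (m := m) (G ∘ F) p = (cfd (m := m) G (F p)).comp (cfd (m := m) F p) := by
  have h := fd_comp (W := Ec m) (W' := Ec m) (W'' := Ec m) hF.2 hG.2 p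
  rw [fd_eq_cfd hX (hG.comp hF).1, fd_eq_cfd hX hG.1, fd_eq_cfd hX hF.1] at h
  exact ContinuousLinearMap.ext fun v => congrArg (fun L : Ec m →L[ℝ] Ec m => L v) h

/-- JOB Z2c.  `D(G^k)_z = (DG_z)^k` at a fixed point. -/
theorem cfd_iterate (hX : IsManifold 𝓘(ℂ, Ec m) ω X) {G : X → X} (hG : Holo m G) {z : X} (hz : G z = z)
    (k : ℕ) : (cfd (m := m) (G^[k]) z).toLinearMap = (cfd (m := m) G z).toLinearMap ^ k := by
  induction k with
  | zero =>
    have h := fd_id (W := Ec m) z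
    have h0 : Holo m (id : X → X) := Holo.iterate hG 0
    rw [fd_eq_cfd hX h0.1] at h
    have h1 : cfd (m := m) (id : X → X) z = ContinuousLinearMap.id ℂ (Ec m) :=
      ContinuousLinearMap.ext fun v => congrArg (fun L : Ec m →L[ℝ] Ec m => L v) h
    rw [pow_zero, Function.iterate_zero, h1]
    rfl
  | succ k ih =>
    rw [Function.iterate_succ', cfd_comp hX (hG.iterate k) hG, Function.iterate_fixed hz k, pow_succ', ← ih]
    rfl

end

end FB
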