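import Pool.Agent.H.MP_fb873c_an.V5
import Pool.Agent.H.MP_fb873c_an.Z2a
import Pool.Agent.H.MP_fb873c_an.Z2c

/-!
# Part V6: diffeomorphisms which preserve a complex structure
-/

namespace FB

open scoped Topology ContDiff Manifold
open Filter

universe u

variable {n : ℕ} {M : Type u} [TopologicalSpace M] [ChartedSpace (Er n) M]
  [IsManifold (𝓡 n) ∞ M]

/-- Let `Φ : M → X` be as in `Preserves`; `e = Φ` followed by the chart of `X` at `Φ x` (an `OpenPartialHomeomorph`: `Φ.toHomeomorph.toOpenPartialHomeomorph.trans (chartAt (Ec m) (Φ x))`), smooth with smooth inverse as `X` is a real smooth manifold (its charts are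
`C^ω` over `ℂ`, so smooth over `ℝ`; see how `holo_data`, file Z4, or the files Z1* get `IsManifold 𝓘(ℝ, Ec m) ∞ X`).  `Φ ∘ f^k ∘ Φ⁻¹` is holomorphic (composition), so `e ∘ f^k ∘ e.symm` is complex differentiable near `e x`. -/
theorem preserves_holFix {f : Dif n M} {m : ℕ} {X : Type u} [TopologicalSpace X]
    [ChartedSpace (Ec m) X] [IsManifold 𝓘(ℂ, Ec m) ω X] (h : Preserves f m X) (k : ℕ) {x : M}
    (hx : itr f k x = x) : HolFix n (itr f k) x := by
  obtain ⟨Φ, hΦ⟩ := h
  have hXc : IsManifold 𝓘(ℂ, Ec m) ω X := inferInstance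
  have : IsManifold 𝓘(ℝ, Ec m) ∞ X := isManifold_real hXc
  have : IsManifold 𝓘(ℂ, Ec m) 1 X := IsManifold.of_le (n := ω) le_top
  obtain ⟨G, hG⟩ : ∃ G : X → X, G = fun z => Φ (f (Φ.symm z)) := ⟨_, rfl⟩
  have hGΦ : ∀ y, G (Φ y) = Φ (f y) := fun y => by
    rw [hG]
    change Φ (f (Φ.symm (Φ y))) = _
    rw [Φ.symm_apply_apply]
  have hH : Holo m G := by
    refine ⟨?_, ?_⟩
    · rw [hG]; exact hΦ
    · rw [hG]; exact Φ.contMDiff.comp (f.contMDiff.comp Φ.symm.contMDiff)
  have hHk : Holo m (G^[k]) := hH.iterate k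
  have hit : ∀ (j : ℕ) y, G^[j] (Φ y) = Φ (itr f j y) := by
    intro j
    induction j with
    | zero => exact fun y => rfl
    | succ j ih =>
      intro y
      change G^[j + 1] (Φ y) = Φ ((f : M → M)^[j + 1] y)
      rw [Function.iterate_succ_apply, Function.iterate_succ_apply, hGΦ, ih]
      rfl
  have hc : Continuous (itr f k) := (D2m1_iterate f k).continuous
  obtain ⟨c, hcd⟩ : ∃ c : OpenPartialHomeomorph X (Ec m), c = chartAt (Ec m) (Φ x) := ⟨_, rfl⟩
  have hca : c ∈ atlas (Ec m) X := by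
    rw [hcd]
    exact chart_mem_atlas (Ec m) (Φ x)
  have hcx : Φ x ∈ c.source := by
    rw [hcd]
    exact mem_chart_source (Ec m) (Φ x)
  obtain ⟨e, he⟩ : ∃ e : OpenPartialHomeomorph M (Ec m),
    e = Φ.toHomeomorph.toOpenPartialHomeomorph.trans c := ⟨_, rfl⟩
  have hes : e.source = Φ ⁻¹' c.source := by
    rw [he, OpenPartialHomeomorph.trans_source]
    exact Set.univ_inter _
  have hea : ∀ y, e y = c (Φ y) := fun y => by
    rw [he]
    rfl
  have heb : ∀ z, e.symm z = Φ.symm (c.symm z) := fun z => by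
    rw [he]
    rfl
  have het : e.target = c.target := by
    rw [he, OpenPartialHomeomorph.trans_target]
    exact Set.inter_univ _
  have hU : IsOpen (e.target ∩ e.symm ⁻¹' ((itr f k) ⁻¹' e.source)) :=
    e.isOpen_inter_preimage_symm (e.open_source.preimage hc)
  have hxs : x ∈ e.source := by
    rw [hes]
    exact hcx
  have hxU : e x ∈ e.target ∩ e.symm ⁻¹' ((itr f k) ⁻¹' e.source) := by
    refine ⟨e.map_source hxs, ?_⟩
    change itr f k (e.symm (e x)) ∈ e.source
    rw [e.left_inv hxs, hx]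
    exact hxs
  obtain ⟨R, hR, hball⟩ := Metric.isOpen_iff.1 hU (e x) hxU
  refine ⟨m, ⟨e, ?_, ?_⟩, R, hxs, hR, fun z hz => (hball hz).1, fun z hz => (hball hz).2, ?_⟩
  · have h1 : ContMDiffOn 𝓘(ℝ, Ec m) 𝓘(ℝ, Ec m) ∞ c c.source := by
      rw [hcd]
      exact contMDiffOn_chart
    rw [hes]
    refine (h1.comp Φ.contMDiff.contMDiffOn (fun y hy => hy)).congr fun y _ => ?_
    exact hea y
  · have h1 : ContMDiffOn 𝓘(ℝ, Ec m) 𝓘(ℝ, Ec m) ∞ c.symm c.target := by
      rw [hcd]
      exact contMDiffOn_chart_symm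
    rw [het]
    exact (Φ.symm.contMDiff.comp_contMDiffOn h1).congr fun z _ => heb z
  · intro z hz
    have hz1 : z ∈ c.target := by
      rw [← het]
      exact (hball hz).1
    have hz2 : G^[k] (c.symm z) ∈ c.source := by
      have h2 : itr f k (e.symm z) ∈ e.source := (hball hz).2
      rw [hes] at h2
      have h3 : Φ (itr f k (e.symm z)) ∈ c.source := h2
      rw [← hit, heb, Φ.apply_symm_apply] at h3
      exact h3
    have h4 : (fun z => e (itr f k (e.symm z))) = fun z => c (G^[k] (c.symm z)) := by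
      funext w
      rw [hea, ← hit, heb, Φ.apply_symm_apply]
    rw [h4]
    refine DifferentiableAt.differentiableWithinAt ?_
    rw [← mdifferentiableAt_iff_differentiableAt]
    have m1 : MDifferentiableAt 𝓘(ℂ, Ec m) 𝓘(ℂ, Ec m) c.symm z :=
      mdifferentiableAt_atlas_symm hca hz1
    have m2 : MDifferentiableAt 𝓘(ℂ, Ec m) 𝓘(ℂ, Ec m) (G^[k]) (c.symm z) := hHk.1 _
    have m3 : MDifferentiableAt 𝓘(ℂ, Ec m) 𝓘(ℂ, Ec m) c (G^[k] (c.symm z)) :=
      mdifferentiableAt_atlas hca hz2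
    exact m3.comp z (m2.comp z m1)

/-- `card_le_lef` (file V5). -/
theorem preserves_card_le [CompactSpace M] [T2Space M] {f : Dif n M} {m : ℕ} {X : Type u}
    [TopologicalSpace X] [ChartedSpace (Ec m) X] [IsManifold 𝓘(ℂ, Ec m) ω X]
    (h : Preserves f m X) {k : ℕ} (hfin : {x | itr f k x = x}.Finite) :
    ∃ l : ℕ, LefN n (itr f k) = (l : ℂ) ∧ {x | itr f k x = x}.ncard ≤ l := by
  exact card_le_lef (D2m1_iterate f k) hfin fun x hx => Or.inr (preserves_holFix h k hx)

end FB
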