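import Pool.Agent.H.MP_fb873c_an.X0

/-!
# Part X5a: eigenvalues of a convergent family
-/

namespace FB

open scoped Topology ContDiff Manifold
open Filter

universe u

variable {n : ℕ}

/-- the complex matrix -/
noncomputable def X5a_M (A : Er n →L[ℝ] Er n) :
    Matrix (Fin (Module.finrank ℝ (Er n))) (Fin (Module.finrank ℝ (Er n))) ℂ :=
  (LinearMap.toMatrix (Module.finBasis ℝ (Er n)) (Module.finBasis ℝ (Er n)) A.toLinearMap).map
    (algebraMap ℝ ℂ)

theorem X5a_eval (A : Er n →L[ℝ] Er n) (z : ℂ) :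
    ((LinearMap.charpoly A.toLinearMap).map (algebraMap ℝ ℂ)).eval z =
      (Matrix.scalar _ z - X5a_M A).det := by
  rw [← Matrix.eval_charpoly, X5a_M, Matrix.charpoly_map, LinearMap.charpoly_toMatrix]

theorem X5a_cont : Continuous (X5a_M : (Er n →L[ℝ] Er n) → _) := by
  have h : Continuous ((LinearMap.toMatrix (Module.finBasis ℝ (Er n))
      (Module.finBasis ℝ (Er n))).toLinearMap ∘ₗ
      (ContinuousLinearMap.coeLM ℝ : (Er n →L[ℝ] Er n) →ₗ[ℝ] (Er n →ₗ[ℝ] Er n))) :=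
    LinearMap.continuous_of_finiteDimensional _
  exact h.matrix_map Complex.continuous_ofReal

theorem X5a_tend {κ : Type*} {F : Filter κ} {A : κ → (Er n →L[ℝ] Er n)} {A0 : Er n →L[ℝ] Er n}
    (hA : Tendsto A F (𝓝 A0)) {z : κ → ℂ} {z0 : ℂ} (hz : Tendsto z F (𝓝 z0)) :
    Tendsto (fun i => ((LinearMap.charpoly (A i).toLinearMap).map (algebraMap ℝ ℂ)).eval (z i)) F
      (𝓝 (((LinearMap.charpoly A0.toLinearMap).map (algebraMap ℝ ℂ)).eval z0)) := by
  have h1 : Continuous (fun p : (Er n →L[ℝ] Er n) × ℂ =>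
      (Matrix.scalar (Fin (Module.finrank ℝ (Er n))) p.2 - X5a_M p.1).det) := by
    refine Continuous.matrix_det (Continuous.sub ?_ (X5a_cont.comp continuous_fst))
    have h2 : Continuous (fun p : (Er n →L[ℝ] Er n) × ℂ =>
        Matrix.diagonal (fun _ : Fin (Module.finrank ℝ (Er n)) => p.2)) :=
      Continuous.matrix_diagonal (continuous_pi fun _ => continuous_snd)
    exact h2
  have h3 : Continuous (fun p : (Er n →L[ℝ] Er n) × ℂ =>
      ((LinearMap.charpoly p.1.toLinearMap).map (algebraMap ℝ ℂ)).eval p.2) := by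
    refine h1.congr fun p => ?_
    exact (X5a_eval p.1 p.2).symm
  have h4 : Tendsto (fun i => (A i, z i)) F (𝓝 (A0, z0)) := hA.prodMk_nhds hz
  exact h3.continuousAt.tendsto.comp h4

/-- the Gershgorin bound -/
theorem X5a_bd {A : Er n →L[ℝ] Er n} {l : ℂ} (hl : IsEv A l) :
    ‖l‖ ≤ ∑ k, ∑ j, ‖X5a_M A k j‖ := by
  by_contra hlt
  rw [not_le] at hlt
  have h0 : (Matrix.scalar _ l - X5a_M A).det = 0 := by
    rw [← X5a_eval]
    exact hl
  refine det_ne_zero_of_sum_row_lt_diag (fun k => ?_) h0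
  have h1 : ∑ j ∈ Finset.univ.erase k,
      ‖(Matrix.scalar (Fin (Module.finrank ℝ (Er n))) l - X5a_M A) k j‖ =
      ∑ j ∈ Finset.univ.erase k, ‖X5a_M A k j‖ := by
    refine Finset.sum_congr rfl fun j hj => ?_
    have hkj : k ≠ j := (Finset.ne_of_mem_erase hj).symm
    rw [Matrix.sub_apply, Matrix.scalar_apply, Matrix.diagonal_apply_ne _ hkj, zero_sub, norm_neg]
  have h2 : (Matrix.scalar (Fin (Module.finrank ℝ (Er n))) l - X5a_M A) k k =
      l - X5a_M A k k := by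
    rw [Matrix.sub_apply, Matrix.scalar_apply, Matrix.diagonal_apply_eq]
  rw [h1, h2]
  have h3 : ‖X5a_M A k k‖ + ∑ j ∈ Finset.univ.erase k, ‖X5a_M A k j‖ = ∑ j, ‖X5a_M A k j‖ :=
    Finset.add_sum_erase _ (fun j => ‖X5a_M A k j‖) (Finset.mem_univ k)
  have h4 : ∑ j, ‖X5a_M A k j‖ ≤ ∑ k, ∑ j, ‖X5a_M A k j‖ :=
    Finset.single_le_sum (f := fun k => ∑ j, ‖X5a_M A k j‖)
      (fun i _ => Finset.sum_nonneg fun j _ => norm_nonneg _) (Finset.mem_univ k)
  have h5 : ‖l‖ - ‖X5a_M A k k‖ ≤ ‖l - X5a_M A k k‖ := norm_sub_norm_le _ _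
  linarith

theorem X5a_prod (s : Multiset ℂ) (f : ℂ → ℝ) (c : ℝ) (hc : 0 ≤ c) (h : ∀ x ∈ s, c ≤ f x) :
    c ^ Multiset.card s ≤ (s.map f).prod := by
  induction s using Multiset.induction with
  | empty => simp
  | cons a s ih =>
    rw [Multiset.card_cons, Multiset.map_cons, Multiset.prod_cons, pow_succ, mul_comm]
    refine mul_le_mul (h a (Multiset.mem_cons_self a s))
      (ih fun x hx => h x (Multiset.mem_cons_of_mem hx)) (pow_nonneg hc _) ?_
    exact hc.trans (h a (Multiset.mem_cons_self a s))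

/-- the nearest eigenvalue -/
theorem X5a_near (hn : 0 < Module.finrank ℝ (Er n)) (A : Er n →L[ℝ] Er n) (l : ℂ) :
    ∃ l', IsEv A l' ∧ ‖l - l'‖ ^ Module.finrank ℝ (Er n) ≤
      ‖((LinearMap.charpoly A.toLinearMap).map (algebraMap ℝ ℂ)).eval l‖ := by
  obtain ⟨P, hP⟩ : ∃ P, P = (LinearMap.charpoly A.toLinearMap).map (algebraMap ℝ ℂ) := ⟨_, rfl⟩
  have hm : P.Monic := by
    rw [hP]
    exact (LinearMap.charpoly_monic _).map _
  have hd : P.natDegree = Module.finrank ℝ (Er n) := by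
    rw [hP, (LinearMap.charpoly_monic _).natDegree_map, LinearMap.charpoly_natDegree]
  have hcard : Multiset.card P.roots = P.natDegree :=
    Polynomial.splits_iff_card_roots.1 (IsAlgClosed.splits P)
  have hne : P.roots.toFinset.Nonempty := by
    have h1 : P.roots ≠ 0 := by
      intro h
      rw [h, Multiset.card_zero, hd] at hcard
      omega
    obtain ⟨x, hx⟩ := Multiset.exists_mem_of_ne_zero h1
    exact ⟨x, Multiset.mem_toFinset.2 hx⟩
  obtain ⟨l', hl', hmin⟩ := P.roots.toFinset.exists_min_image (fun x => ‖l - x‖) hne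
  have hr : IsEv A l' := by
    unfold IsEv
    rw [← hP]
    exact Polynomial.isRoot_of_mem_roots (Multiset.mem_toFinset.1 hl')
  refine ⟨l', hr, ?_⟩
  rw [← hP, (IsAlgClosed.splits P).eval_eq_prod_roots_of_monic hm l, ← hd, ← hcard]
  have h2 := X5a_prod P.roots (fun x => ‖l - x‖) ‖l - l'‖ (norm_nonneg _)
    (fun x hx => hmin x (Multiset.mem_toFinset.2 hx))
  refine h2.trans (le_of_eq ?_)
  have h3 : ∀ s : Multiset ℂ, (s.map fun x => ‖l - x‖).prod = ‖(s.map fun x => l - x).prod‖ := by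
    intro s
    induction s using Multiset.induction with
    | empty => simp
    | cons a s ih =>
      rw [Multiset.map_cons, Multiset.map_cons, Multiset.prod_cons, Multiset.prod_cons, norm_mul,
        ih]
  exact h3 _

theorem X5a_ultra {ι : Type*} (l : Ultrafilter ι) {f : ι → ℂ} {B : ℝ}
    (h : ∀ᶠ i in (l : Filter ι), ‖f i‖ ≤ B) : ∃ w, Tendsto f l (𝓝 w) := by
  have h1 : ((l.map f : Ultrafilter ℂ) : Filter ℂ) ≤ 𝓟 (Metric.closedBall 0 B) := by
    rw [Ultrafilter.coe_map, Filter.le_principal_iff, Filter.mem_map]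
    filter_upwards [h] with i hi
    show f i ∈ Metric.closedBall 0 B
    rw [mem_closedBall_zero_iff]
    exact hi
  obtain ⟨w, -, hw⟩ := (isCompact_closedBall (0 : ℂ) B).ultrafilter_le_nhds (l.map f) h1
  exact ⟨w, hw⟩

/-- `charpoly A i → charpoly A` pointwise (`det (z - A i)` over `ℂ` is continuous); `|charpoly (A i) (l)| = ∏ |l - root|` over the `n` roots, and it tends to `0`; so the root nearest to `l` tends to `l`. -/
theorem isEv_cont {κ : Type*} {F : Filter κ} {A : κ → (Er n →L[ℝ] Er n)} {A0 : Er n →L[ℝ] Er n}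
    (hA : Tendsto A F (𝓝 A0)) {l : ℂ} (hl : IsEv A0 l) :
    ∃ l' : κ → ℂ, (∀ i, IsEv (A i) (l' i)) ∧ Tendsto l' F (𝓝 l) := by
  have hn : 0 < Module.finrank ℝ (Er n) := by
    rcases Nat.eq_zero_or_pos (Module.finrank ℝ (Er n)) with h | h
    · exfalso
      have h1 : LinearMap.charpoly A0.toLinearMap = 1 := by
        rw [← (LinearMap.charpoly_monic A0.toLinearMap).natDegree_eq_zero,
          LinearMap.charpoly_natDegree, h]
      unfold IsEv at hl
      rw [h1, Polynomial.map_one] at hl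
      have h2 : (1 : Polynomial ℂ).eval l = 0 := hl
      rw [Polynomial.eval_one] at h2
      exact one_ne_zero h2
    · exact h
  choose l' h1 h2 using fun i => X5a_near hn (A i) l
  refine ⟨l', h1, ?_⟩
  have h3 := X5a_tend hA (tendsto_const_nhds (x := l))
  have h4 : ((LinearMap.charpoly A0.toLinearMap).map (algebraMap ℝ ℂ)).eval l = 0 := hl
  rw [h4] at h3
  have h5 := h3.norm
  rw [norm_zero] at h5
  have h6 : Tendsto (fun i => ‖l - l' i‖ ^ Module.finrank ℝ (Er n)) F (𝓝 0) :=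
    squeeze_zero (fun i => pow_nonneg (norm_nonneg _) _) h2 h5
  rw [tendsto_iff_norm_sub_tendsto_zero]
  rw [Metric.tendsto_nhds] at h6 ⊢
  intro ε hε
  filter_upwards [h6 (ε ^ Module.finrank ℝ (Er n)) (pow_pos hε _)] with i hi
  rw [dist_zero_right, Real.norm_of_nonneg (pow_nonneg (norm_nonneg _) _)] at hi
  rw [dist_zero_right, norm_norm, norm_sub_rev]
  exact lt_of_pow_lt_pow_left₀ _ hε.le hi

/-- The eigenvalues are bounded by `‖A i‖` (or by the Cauchy bound), so they converge along the ultrafilter, and the limit is an eigenvalue of `A0` (`charpoly` is jointly continuous). -/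
theorem isEv_lim {κ : Type*} {F : Ultrafilter κ} {A : κ → (Er n →L[ℝ] Er n)}
    {A0 : Er n →L[ℝ] Er n} (hA : Tendsto A F (𝓝 A0)) {l' : κ → ℂ}
    (hl : ∀ᶠ i in (F : Filter κ), IsEv (A i) (l' i)) : ∃ l, IsEv A0 l ∧ Tendsto l' F (𝓝 l) := by
  have hc : Continuous fun B : Er n →L[ℝ] Er n => ∑ k, ∑ j, ‖X5a_M B k j‖ := by
    refine continuous_finsetSum _ fun k _ => continuous_finsetSum _ fun j _ => ?_
    exact (X5a_cont.matrix_elem k j).norm
  have h1 : ∀ᶠ i in (F : Filter κ), ∑ k, ∑ j, ‖X5a_M (A i) k j‖ <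
      ∑ k, ∑ j, ‖X5a_M A0 k j‖ + 1 :=
    ((hc.tendsto A0).comp hA).eventually_lt_const (lt_add_one _)
  obtain ⟨w, hw⟩ := X5a_ultra F (f := l') (B := ∑ k, ∑ j, ‖X5a_M A0 k j‖ + 1) (by
    filter_upwards [h1, hl] with i h2 h3
    exact (X5a_bd h3).trans h2.le)
  refine ⟨w, ?_, hw⟩
  have h4 := X5a_tend hA hw
  have h5 : Tendsto (fun i => ((LinearMap.charpoly (A i).toLinearMap).map
      (algebraMap ℝ ℂ)).eval (l' i)) F (𝓝 0) := by
    refine (tendsto_const_nhds (x := (0 : ℂ))).congr' ?_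
    filter_upwards [hl] with i hi
    exact hi.symm
  exact tendsto_nhds_unique h4 h5

/-- `LinearEquiv.charpoly_conj`. -/
theorem isEv_conj {A : Er n →L[ℝ] Er n} (e : Er n ≃L[ℝ] Er n) (l : ℂ) :
    IsEv ((e : Er n →L[ℝ] Er n) ∘L A ∘L (e.symm : Er n →L[ℝ] Er n)) l ↔ IsEv A l := by
  have h2 : ((e : Er n →L[ℝ] Er n) ∘L A ∘L (e.symm : Er n →L[ℝ] Er n)).toLinearMap =
      e.toLinearEquiv.conj A.toLinearMap := by
    ext v
    simp [LinearEquiv.conj_apply]
  unfold IsEv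
  rw [h2, LinearEquiv.charpoly_conj]

/-- A closed condition: `P ≤ s` takes finitely many values, so it is constant along the ultrafilter; `Q i = P |r' i| / |r i|` converges in `ℝ`, so it is constant, too (`r ≠ 0`, `r' ≠ 0`). -/
theorem ratLe_lim {κ : Type*} {F : Ultrafilter κ} {s : ℕ} {r r' : κ → ℝ} {r0 r0' : ℝ}
    (hr : Tendsto r F (𝓝 r0)) (hr' : Tendsto r' F (𝓝 r0')) (h0 : r0 ≠ 0)
    (h : ∀ᶠ i in (F : Filter κ), RatLe s (r i) (r' i)) : RatLe s r0 r0' := by
  have h1 : ∀ᶠ i in (F : Filter κ), ∃ P ∈ Set.Iic s, 0 < P ∧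
      ∃ Q : ℕ, 0 < Q ∧ (Q : ℝ) * |r i| = P * |r' i| := by
    filter_upwards [h] with i hi
    obtain ⟨P, Q, a, b, c, d⟩ := hi
    exact ⟨P, b, a, Q, c, d⟩
  rw [Ultrafilter.eventually_exists_mem_iff (Set.finite_Iic s)] at h1
  obtain ⟨P, hP, h2⟩ := h1
  have hP0 : 0 < P := by
    obtain ⟨i, hi⟩ := h2.exists
    exact hi.1
  have h3 : Tendsto (fun i => (P : ℝ) * |r' i| / |r i|) F (𝓝 ((P : ℝ) * |r0'| / |r0|)) :=
    (hr'.abs.const_mul _).div hr.abs (abs_ne_zero.2 h0)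
  have h4 : IsClosed ((fun m : ℕ => (m : ℝ)) '' {m | 0 < m}) :=
    Nat.isClosedEmbedding_coe_real.isClosedMap _ (isClosed_discrete _)
  have h5 : ∀ᶠ i in (F : Filter κ), (P : ℝ) * |r' i| / |r i| ∈
      (fun m : ℕ => (m : ℝ)) '' {m | 0 < m} := by
    filter_upwards [h2, hr.eventually_ne h0] with i hi hi0
    obtain ⟨_, m, hm, he⟩ := hi
    refine ⟨m, hm, ?_⟩
    show (m : ℝ) = P * |r' i| / |r i|
    rw [← he, mul_div_assoc, div_self (abs_ne_zero.2 hi0), mul_one]
  obtain ⟨m, hm, he⟩ := h4.mem_of_tendsto h3 h5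
  refine ⟨P, m, hP0, hP, hm, ?_⟩
  have he : (m : ℝ) = P * |r0'| / |r0| := he
  rw [he, div_mul_cancel₀ _ (abs_ne_zero.2 h0)]

end FB
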