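import Pool.Agent.H.MP_fb873c_an.D1f
import Pool.Agent.H.MP_fb873c_an.D4a
import Pool.Agent.H.MP_fb873c_an.K0

/-!
# Part Y5a: the number of fixed points is locally constant
-/

namespace FB

open scoped Topology ContDiff Manifold
open Filter

universe u

variable {n : ℕ} {M : Type u} [TopologicalSpace M] [ChartedSpace (Er n) M]
  [IsManifold (𝓡 n) ∞ M] [CompactSpace M] [T2Space M]

/-- `D1_fix` (file D1f) with `l = nhds f` (`CV.of_crTop`, `CV.iterate` as in `D4a_cv`, file D4a): `Set.BijOn` gives equality of the cardinalities (`Set.BijOn.image_eq`, `Set.ncard_image_of_injOn`). -/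
theorem card_nhds {f : Dif n M} {k : ℕ}
    (hnd : ∀ x, itr f k x = x → Ndg (n := n) (itr f k) x) :
    ∀ᶠ g : Dif n M in @nhds _ (crTop n M 1) f,
      {x | itr g k x = x}.ncard = {x | itr f k x = x}.ncard := by
  obtain ⟨sG, hF, sF⟩ := D4a_cv (n := n) (M := M) k
    (l := @nhds _ (crTop n M 1) f) (g := f) le_rfl
  have h0 : ∀ x, (f : M → M)^[k] x = x → ND n ((f : M → M)^[k]) x := hnd
  obtain ⟨y, -, hy⟩ := D1_fix hF sF (sF f) h0
  filter_upwards [hy] with g hg
  have h1 := hg.image_eq
  have h2 : {x | itr g k x = x} = {x | (g : M → M)^[k] x = x} := rfl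
  have h3 : {x | itr f k x = x} = {x | (f : M → M)^[k] x = x} := rfl
  rw [h2, h3, ← h1, Set.ncard_image_of_injOn hg.injOn]

end FB
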