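import Pool.Agent.H.MP_fb873c_an.B2a
import Pool.Agent.H.MP_fb873c_an.D1g
import Pool.Agent.H.MP_fb873c_an.X5a
import Pool.Agent.H.MP_fb873c_an.Y5a

/-!
# Part X5: the condition `GoodR` is open
-/

namespace FB

open scoped Topology ContDiff Manifold
open Filter

universe u

theorem X5_nd {n : ℕ} {A : Er n →L[ℝ] Er n} (h : Hyp A) :
    LinearMap.det ((A - ContinuousLinearMap.id ℝ (Er n) : Er n →L[ℝ] Er n)).toLinearMap ≠ 0 := by
  have h1 := det_pow_ne (hyp_pow h one_pos)
  have h2 : ((A - ContinuousLinearMap.id ℝ (Er n) : Er n →L[ℝ] Er n)).toLinearMap =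
      A.toLinearMap - 1 := by
    ext v
    simp
  rw [h2]
  exact h1

theorem X5_iter {M : Type u} {g : M → M} {m : ℕ} {x : M} (hx : g^[m] x = x) (j : ℕ) :
    g^[m] (g^[j] x) = g^[j] x := by
  rw [← Function.iterate_add_apply, Nat.add_comm, Function.iterate_add_apply, hx]

theorem X5_ne {n : ℕ} {A : Er n →L[ℝ] Er n} (A' : Er n ≃L[ℝ] Er n)
    (hA : (A' : Er n →L[ℝ] Er n) = A) {l : ℂ} (hl : IsEv A l) : l ≠ 0 := by
  rintro rfl
  have h1 : ((LinearMap.charpoly A.toLinearMap).map (algebraMap ℝ ℂ)).eval 0 = 0 := hl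
  have h2 : (LinearMap.charpoly A.toLinearMap).coeff 0 = 0 := by
    rw [← Polynomial.coeff_zero_eq_eval_zero, Polynomial.coeff_map] at h1
    exact (map_eq_zero (algebraMap ℝ ℂ)).1 h1
  have h3 : LinearMap.det A.toLinearMap = 0 := by
    rw [LinearMap.det_eq_sign_charpoly_coeff, h2, mul_zero]
  have h4 : IsUnit (LinearMap.det A.toLinearMap) := by
    have h5 := LinearEquiv.isUnit_det' A'.toLinearEquiv
    rw [← hA]
    exact h5
  rw [h3] at h4
  exact not_isUnit_zero h4

theorem X5_log {n : ℕ} {A : Er n →L[ℝ] Er n} (hH : Hyp A) (A' : Er n ≃L[ℝ] Er n)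
    (hA : (A' : Er n →L[ℝ] Er n) = A) {l : ℂ} (hl : IsEv A l) :
    ‖l‖ ≠ 0 ∧ Real.log ‖l‖ ≠ 0 := by
  have h1 : ‖l‖ ≠ 0 := norm_ne_zero_iff.2 (X5_ne A' hA hl)
  refine ⟨h1, Real.log_ne_zero.2 ⟨h1, hH l hl, ?_⟩⟩
  have := norm_nonneg l
  linarith

theorem X5_dfix {n : ℕ} {M : Type u} [TopologicalSpace M] [ChartedSpace (Er n) M]
    [IsManifold (𝓡 n) ∞ M] {F : M → M} {x : M}
    (hF : ContMDiffAt (𝓡 n) (𝓡 n) 1 F x) (hx : F x = x) {φ : OpenPartialHomeomorph M (Er n)}
    (hφ : φ ∈ atlas (Er n) M) (h1 : x ∈ φ.source) (l : ℂ) :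
    IsEv (fderiv ℝ (φ ∘ F ∘ φ.symm) (φ x)) l ↔ IsEv (dfix (n := n) F x) l := by
  obtain ⟨e, he⟩ := D1_conj hF hx hφ h1
  have h2 := isEv_conj (A := dfix (n := n) F x) e l
  rw [he]
  exact h2

variable {n : ℕ} {M : Type u} [TopologicalSpace M] [ChartedSpace (Er n) M]
  [IsManifold (𝓡 n) ∞ M] [CompactSpace M] [T2Space M]

/-- The fixed points of `g'^a`, `g' → g`, are the continuations `y z g'` of the fixed points `z` of `g^a` (`D1_fix`, file D1f; with `CV.of_crTop`, `CV.iterate` as in the proofs of `card_nhds` (file Y5a) and `hyp_fix_nhds` (file Y5c)), and the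
continuation of `g^i x` is `g'^i` applied to the continuation of `x` (uniqueness, `D1_cont`, file D1f).  The derivative of `g'^a` at `y z g'`, in the chart at `z`, tends to that of `g^a` at `z` (see the proof of `hyp_fix_nhds`), it is conjugate to the `dfix` (`isEv_conj`).
Suppose the claim fails: there is an ultrafilter `l ≤ nhds g` with `¬ GoodR a g'` for almost all `g'`.  Let `x`, `l0` be as in `GoodR a g`.  By `isEv_cont` there are eigenvalues `l g' → l0` at `y x g'`.  As `GoodR a g'` fails there are a fixed point `y' = y z g'` (`z` is constant along the ultrafilter, as there are finitely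
many) not in the orbit of `y x g'`, so `z` is not in the orbit of `x`, and an eigenvalue `l' g'` there with `RatLe (n s) (log ‖l g'‖) (log ‖l' g'‖)` (`s` is the same for `g'` and `g`, `card_nhds`).  `isEv_lim`, `ratLe_lim` : a contradiction to `GoodR a g` (the logarithms are continuous
at `l0` and at the limit of `l' g'`, which are not `0`: the derivatives are invertible, `dfix_equiv`; not of modulus one by `hhyp`). -/
theorem goodR_nhds {g : Dif n M} {a : ℕ}
    (hhyp : ∀ x, itr g a x = x → Hyp (dfix (n := n) (itr g a) x)) (hG : GoodR a g) :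
    ∀ᶠ g' : Dif n M in @nhds _ (crTop n M 1) g, GoodR a g' := by
  classical
  refine Filter.mem_iff_ultrafilter.2 fun l hl => ?_
  by_contra hbad
  have hbad' : {g' : Dif n M | GoodR a g'}ᶜ ∈ l := Ultrafilter.compl_mem_iff_notMem.2 hbad
  have hcv : CV n (l : Filter (Dif n M)) (fun g' : Dif n M => (g' : M → M)) g := CV.of_crTop hl
  obtain ⟨sG, hF, sF⟩ := D4a_cv (n := n) a hl
  have h0 : ∀ x, (g : M → M)^[a] x = x → ND n ((g : M → M)^[a]) x :=
    fun x hx => X5_nd (hhyp x hx)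
  have hcard := hl (card_nhds (f := g) (k := a) h0)
  have hfin : {x | (g : M → M)^[a] x = x}.Finite := D1_fin (sF g) h0
  obtain ⟨y, hy1, hy2⟩ := D1_fix hF sF (sF g) h0
  have hyF : ∀ x, (g : M → M)^[a] x = x →
      ∀ᶠ g' : Dif n M in (l : Filter (Dif n M)), (g' : M → M)^[a] (y x g') = y x g' := by
    intro x hx
    filter_upwards [hy2] with g' q
    exact q.mapsTo hx
  -- the derivatives at the continuations
  let A : M → Dif n M → (Er n →L[ℝ] Er n) := fun z g' =>
    fderiv ℝ (chartAt (Er n) z ∘ (g' : M → M)^[a] ∘ (chartAt (Er n) z).symm)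
      (chartAt (Er n) z (y z g'))
  have hA : ∀ z, (g : M → M)^[a] z = z →
      Tendsto (A z) (l : Filter (Dif n M)) (𝓝 (dfix (n := n) ((g : M → M)^[a]) z)) := by
    intro z hz
    have h2 : z ∈ (chartAt (Er n) z).source := mem_chart_source _ _
    exact (hF.tendD z _ _ (chart_mem_atlas _ _) (chart_mem_atlas _ _) h2
      (by rw [hz]; exact h2)).comp (tendsto_id.prodMk (hy1 z hz))
  have hE : ∀ z, (g : M → M)^[a] z = z → ∀ᶠ g' : Dif n M in (l : Filter (Dif n M)), ∀ m : ℂ,
      IsEv (A z g') m ↔ IsEv (dfix (n := n) ((g' : M → M)^[a]) (y z g')) m := by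
    intro z hz
    have h2 : z ∈ (chartAt (Er n) z).source := mem_chart_source _ _
    filter_upwards [hyF z hz, (hy1 z hz).eventually_mem
      ((chartAt (Er n) z).open_source.mem_nhds h2)] with g' q1 q2 m
    exact X5_dfix (sF g' _) q1 (chart_mem_atlas _ _) q2 m
  obtain ⟨x, l0, hx, hl0, hxy⟩ := hG
  obtain ⟨m, hm1, hm2⟩ := isEv_cont (hA x hx) hl0
  -- the bad fixed points and eigenvalues
  have e1 : ∀ᶠ g' : Dif n M in (l : Filter (Dif n M)), ∃ q : M × ℂ,
      (g : M → M)^[a] q.1 = q.1 ∧ (∀ i, (g' : M → M)^[i] (y x g') ≠ y q.1 g') ∧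
      IsEv (dfix (n := n) ((g' : M → M)^[a]) (y q.1 g')) q.2 ∧
      RatLe (n * {z | itr g a z = z}.ncard) (Real.log ‖m g'‖) (Real.log ‖q.2‖) := by
    filter_upwards [hbad', hyF x hx, hE x hx, hy2, hcard] with g' q1 q2 q3 q4 q5
    by_contra hne
    apply q1
    refine ⟨y x g', m g', q2, (q3 _).1 (hm1 g'), ?_⟩
    intro z' l' hz' hi hl' hr
    obtain ⟨z, hz, rfl⟩ := q4.surjOn hz'
    have q6 : {z | itr g' a z = z}.ncard = {z | itr g a z = z}.ncard := q5
    rw [q6] at hr
    exact hne ⟨(z, l'), hz, hi, hl', hr⟩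
  obtain ⟨Z, hZ⟩ := Filter.Eventually.choice e1
  -- the fixed point is constant along the ultrafilter
  obtain ⟨z, hz, hzz⟩ : ∃ z ∈ {x | (g : M → M)^[a] x = x},
      ∀ᶠ g' : Dif n M in (l : Filter (Dif n M)), (Z g').1 = z := by
    have h1 : (⋃ z ∈ {x | (g : M → M)^[a] x = x}, {g' : Dif n M | (Z g').1 = z}) ∈ l := by
      filter_upwards [hZ] with g' q
      exact Set.mem_biUnion (x := (Z g').1) q.1 rfl
    exact (Ultrafilter.finite_biUnion_mem_iff hfin).1 h1
  have hzo : ∀ i, itr g i x ≠ z := by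
    intro i hi
    have hi' : (g : M → M)^[i] x = z := hi
    have t1 : Tendsto (fun g' : Dif n M => (g' : M → M)^[i] (y x g')) (l : Filter (Dif n M))
        (𝓝 z) := by
      rw [← hi']
      exact ((hcv.iterate sG (sG g) i).tend x).comp (tendsto_id.prodMk (hy1 x hx))
    have e3 : ∀ᶠ g' : Dif n M in (l : Filter (Dif n M)),
        (g' : M → M)^[a] ((g' : M → M)^[i] (y x g')) = (g' : M → M)^[i] (y x g') := by
      filter_upwards [hyF x hx] with g' q
      exact X5_iter q i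
    have e4 := D1_eqv hfin hy1 hy2 t1 e3
    have e5 : ∀ᶠ g' : Dif n M in (l : Filter (Dif n M)), False := by
      filter_upwards [e4, hZ, hzz] with g' q1 q2 q3
      have q4 := q2.2.1 i
      rw [q3] at q4
      exact q4 q1
    exact (Filter.eventually_const.1 e5).elim
  have e6 : ∀ᶠ g' : Dif n M in (l : Filter (Dif n M)), IsEv (A z g') (Z g').2 := by
    filter_upwards [hZ, hzz, hE z hz] with g' q1 q2 q3
    have q4 := q1.2.2.1
    rw [q2] at q4
    exact (q3 _).2 q4
  obtain ⟨l1, hl1, ht1⟩ := isEv_lim (hA z hz) e6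
  refine hxy z l1 hz hzo hl1 ?_
  obtain ⟨A1, hA1⟩ := dfix_equiv g a hx
  obtain ⟨A2, hA2⟩ := dfix_equiv g a hz
  obtain ⟨b1, b2⟩ := X5_log (hhyp x hx) A1 hA1 hl0
  obtain ⟨b3, -⟩ := X5_log (hhyp z hz) A2 hA2 hl1
  exact ratLe_lim ((Real.continuousAt_log b1).tendsto.comp hm2.norm)
    ((Real.continuousAt_log b3).tendsto.comp ht1.norm) b2
    (hZ.mono fun g' q => q.2.2.2)

end FB
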