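import Pool.Agent.H.MP_fb873c_an.Y0

/-!
# Part X0 (progressions): definitions
-/

namespace FB

open scoped Topology ContDiff Manifold
open Filter

universe u

/-- `|r| / |r'| = P / Q` with positive integers `P ≤ s` and `Q`. -/
def RatLe (s : ℕ) (r r' : ℝ) : Prop :=
  ∃ P Q : ℕ, 0 < P ∧ P ≤ s ∧ 0 < Q ∧ (Q : ℝ) * |r| = P * |r'|

section

variable {n : ℕ}

/-- `l` is a complex eigenvalue of `A`. -/
def IsEv (A : Er n →L[ℝ] Er n) (l : ℂ) : Prop :=
  ((LinearMap.charpoly A.toLinearMap).map (algebraMap ℝ ℂ)).IsRoot l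

end

section

variable {n : ℕ} {M : Type u} [TopologicalSpace M] [ChartedSpace (Er n) M]

/-- There are a fixed point `x` of `g^a` and an eigenvalue `l` of the derivative of `g^a` at `x` such that for the
eigenvalues `l'` at the fixed points of `g^a` not in the orbit of `x` the quotient of `log |l|` and `log |l'|` is not
`± P / Q` with `0 < P ≤ n s`, `s` the number of the fixed points of `g^a`. -/
def GoodR (a : ℕ) (g : Dif n M) : Prop :=
  ∃ (x : M) (l : ℂ), itr g a x = x ∧ IsEv (dfix (n := n) (itr g a) x) l ∧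
    ∀ (y : M) (l' : ℂ), itr g a y = y → (∀ i, itr g i x ≠ y) →
      IsEv (dfix (n := n) (itr g a) y) l' →
      ¬ RatLe (n * {z | itr g a z = z}.ncard) (Real.log ‖l‖) (Real.log ‖l'‖)

/-- The fixed points of `g^a` are hyperbolic, and for all `j` such that the fixed points of `g^k`, `k = a (1 + b j)`,
are nondegenerate of index `1`, these are the fixed points of `g^a`. -/
def RegA (a b : ℕ) (g : Dif n M) : Prop :=
  (∀ x, itr g a x = x → Hyp (dfix (n := n) (itr g a) x)) ∧
  ∀ j : ℕ, (∀ x, itr g (a * (1 + b * j)) x = x → 0 < LinearMap.det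
    ((ContinuousLinearMap.id ℝ (Er n) - dfix (n := n) (itr g (a * (1 + b * j))) x :
      Er n →L[ℝ] Er n)).toLinearMap) →
    ∀ x, itr g (a * (1 + b * j)) x = x → itr g a x = x

/-- The `C^1`-open set. -/
def U2 (n : ℕ) (M : Type u) [TopologicalSpace M] [ChartedSpace (Er n) M] : Set (Dif n M) :=
  {h | ∃ (O : Set (Dif n M)) (a b : ℕ), IsOpen[crTop n M 1] O ∧ h ∈ O ∧ 0 < a ∧ 0 < b ∧
    ∀ g ∈ O, RegA a b g ∧ GoodR a g}

/-- The `C^∞`-open set. -/
def W2 (n : ℕ) (M : Type u) [TopologicalSpace M] [ChartedSpace (Er n) M] : Set (Dif n M) :=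
  {h | h ∈ U2 n M ∧ ∃ V : Set (Dif n M), IsOpen[crTop n M ⊤] V ∧ h ∈ V ∧ ∀ g ∈ V, PosNd g}

/-- `f` has degenerate periodic points of arbitrarily large minimal periods (degenerate: `1` is an eigenvalue of the
derivative of some iterate `f^(k j)`, `k` the minimal period). -/
def DegInf (f : Dif n M) : Prop :=
  ∀ N : ℕ, ∃ (x : M) (k j : ℕ), N ≤ k ∧ MinPer f x k ∧ 0 < j ∧ ¬ Ndg (n := n) (itr f (k * j)) x

end

end FB
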