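import Pool.Agent.H.MP_fb873c_an.D4e
import Pool.Agent.H.MP_fb873c_an.DF1b
import Pool.Agent.H.MP_fb873c_an.X0

/-!
# Part X6: the condition `GoodR` is dense
-/

namespace FB

open scoped Topology ContDiff Manifold
open Filter

universe u

/-- The set of the `s > 0` with `Q |e log (1 + s) + r| = P |r'|` for some integers `P, Q > 0` and `r'` in a finite set is countable (for given `P, Q, r'` there are at most two values of `log (1 + s)`), and an open interval is not countable. -/
theorem exists_small_s {e : ℕ} (he : 0 < e) (r : ℝ) (R : Set ℝ) (hR : R.Finite) {p : ℝ → Prop}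
    (hp : ∀ᶠ s in 𝓝[>] (0 : ℝ), p s) :
    ∃ s : ℝ, 0 < s ∧ p s ∧ ∀ r' ∈ R, ∀ P Q : ℕ, 0 < P → 0 < Q →
      (Q : ℝ) * |e * Real.log (1 + s) + r| ≠ P * |r'| := by
  rw [eventually_nhdsWithin_iff, Metric.eventually_nhds_iff] at hp
  obtain ⟨δ, hδ, hp⟩ := hp
  set B : Set ℝ := ⋃ r' ∈ R, ⋃ P : ℕ, ⋃ Q : ℕ,
    ({Real.exp ((P * |r'| / Q - r) / e) - 1, Real.exp ((-(P * |r'| / Q) - r) / e) - 1} : Set ℝ)
    with hB
  have hBc : B.Countable := by
    rw [hB]
    refine hR.countable.biUnion fun r' _ => ?_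
    refine Set.countable_iUnion fun P => Set.countable_iUnion fun Q => ?_
    exact (Set.toFinite _).countable
  have hnc : ¬ (Set.Ioo (0 : ℝ) δ).Countable := by
    intro h
    have h1 := Cardinal.mk_Ioo_real hδ
    have h2 := h.le_aleph0
    rw [h1] at h2
    exact absurd h2 (not_le.2 Cardinal.aleph0_lt_continuum)
  obtain ⟨s, hs, hsB⟩ : ∃ s ∈ Set.Ioo (0 : ℝ) δ, s ∉ B := by
    by_contra hcon
    push Not at hcon
    exact hnc (hBc.mono hcon)
  refine ⟨s, hs.1, ?_, ?_⟩
  · refine hp ?_ hs.1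
    rw [Real.dist_eq, sub_zero, abs_of_pos hs.1]
    exact hs.2
  · intro r' hr' P Q hP hQ heq
    apply hsB
    have hQ' : (0 : ℝ) < Q := by exact_mod_cast hQ
    have he' : (0 : ℝ) < e := by exact_mod_cast he
    have h1s : (0 : ℝ) < 1 + s := by linarith [hs.1]
    have h1 : |(e : ℝ) * Real.log (1 + s) + r| = P * |r'| / Q := by
      rw [eq_div_iff hQ'.ne', mul_comm, heq]
    rw [hB]
    simp only [Set.mem_iUnion]
    refine ⟨r', hr', P, Q, ?_⟩
    rcases abs_eq_abs.1 (h1.trans (abs_of_nonneg (by positivity :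
      (0 : ℝ) ≤ P * |r'| / Q)).symm) with h2 | h2
    · left
      have h3 : (P * |r'| / Q - r) / e = Real.log (1 + s) := by
        rw [div_eq_iff he'.ne']
        linarith
      rw [h3, Real.exp_log h1s]
      ring
    · right
      have h3 : (-(P * |r'| / Q) - r) / e = Real.log (1 + s) := by
        rw [div_eq_iff he'.ne']
        linarith
      show s = Real.exp ((-(P * |r'| / Q) - r) / e) - 1
      rw [h3, Real.exp_log h1s]
      ring

section

variable {n : ℕ}

theorem X6_isEv_smul {A A' : Er n →L[ℝ] Er n} {t : ℝ} (hA' : A'.toLinearMap = t • A.toLinearMap)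
    {l : ℂ} (h : IsEv A l) : IsEv A' ((t : ℂ) * l) := by
  have key : (LinearMap.charpoly A'.toLinearMap).comp (Polynomial.C t * Polynomial.X) =
      Polynomial.C (t ^ Module.finrank ℝ (Er n)) * LinearMap.charpoly A.toLinearMap := by
    refine Polynomial.funext fun x => ?_
    rw [Polynomial.eval_comp, Polynomial.eval_mul, Polynomial.eval_mul, Polynomial.eval_C,
      Polynomial.eval_X, Polynomial.eval_C, LinearMap.eval_charpoly,
      LinearMap.eval_charpoly, ← LinearMap.det_smul, hA']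
    congr 1
    ext v : 1
    simp [smul_sub, smul_comm x t v]
  have key2 := congrArg (Polynomial.map (algebraMap ℝ ℂ)) key
  rw [Polynomial.map_comp, Polynomial.map_mul, Polynomial.map_mul, Polynomial.map_C,
    Polynomial.map_C, Polynomial.map_X] at key2
  have key3 := congrArg (Polynomial.eval l) key2
  rw [Polynomial.eval_comp, Polynomial.eval_mul, Polynomial.eval_mul, Polynomial.eval_C,
    Polynomial.eval_X, Polynomial.eval_C] at key3
  have h1 : (((LinearMap.charpoly A.toLinearMap).map (algebraMap ℝ ℂ))).eval l = 0 := h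
  rw [h1, mul_zero] at key3
  exact key3

theorem X6_isEv_finite (A : Er n →L[ℝ] Er n) : {l : ℂ | IsEv A l}.Finite := by
  have hm : ((LinearMap.charpoly A.toLinearMap).map (algebraMap ℝ ℂ)) ≠ 0 :=
    ((LinearMap.charpoly_monic A.toLinearMap).map _).ne_zero
  classical
  refine ((((LinearMap.charpoly A.toLinearMap).map (algebraMap ℝ ℂ)).roots.toFinset :
    Finset ℂ).finite_toSet).subset ?_
  intro l hl
  rw [Finset.mem_coe, Multiset.mem_toFinset, Polynomial.mem_roots hm]
  exact hl

theorem X6_isEv_ne_zero {A : Er n →L[ℝ] Er n} (A' : Er n ≃L[ℝ] Er n)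
    (hA' : (A' : Er n →L[ℝ] Er n) = A) {l : ℂ} (h : IsEv A l) : l ≠ 0 := by
  rintro rfl
  have h3 := DF1b_charpoly A.toLinearMap 0
  have h4 : ((LinearMap.charpoly A.toLinearMap).map (algebraMap ℝ ℂ)).eval 0 = 0 := h
  rw [Complex.ofReal_zero, h4] at h3
  have h5 : LinearMap.det (algebraMap ℝ (Module.End ℝ (Er n)) 0 - A.toLinearMap) = 0 := by
    exact_mod_cast h3.symm
  have h6 : algebraMap ℝ (Module.End ℝ (Er n)) 0 - A.toLinearMap = (-1 : ℝ) • A.toLinearMap := by
    rw [map_zero, zero_sub, neg_smul, one_smul]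
  rw [h6, LinearMap.det_smul] at h5
  have h7 : IsUnit (LinearMap.det A.toLinearMap) := by
    have h8 := LinearEquiv.isUnit_det' A'.toLinearEquiv
    have h9 : (A'.toLinearEquiv : Er n →ₗ[ℝ] Er n) = A.toLinearMap := by
      rw [← hA']
      rfl
    rw [h9] at h8
    exact h8
  rcases mul_eq_zero.1 h5 with h8 | h8
  · exact pow_ne_zero _ (by norm_num : (-1 : ℝ) ≠ 0) h8
  · exact h7.ne_zero h8

theorem X6_exists_ev (hn : 0 < n) (A : Er n →L[ℝ] Er n) : ∃ l : ℂ, IsEv A l := by
  have hmon : ((LinearMap.charpoly A.toLinearMap).map (algebraMap ℝ ℂ)).Monic :=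
    (LinearMap.charpoly_monic A.toLinearMap).map _
  have hdeg : ((LinearMap.charpoly A.toLinearMap).map (algebraMap ℝ ℂ)).degree ≠ 0 := by
    intro h
    have h1 := Polynomial.natDegree_eq_of_degree_eq_some h
    rw [(LinearMap.charpoly_monic A.toLinearMap).natDegree_map,
      LinearMap.charpoly_natDegree] at h1
    have h2 : Module.finrank ℝ (Er n) = n := by simp [Er]
    have h3 : Module.finrank ℝ (Er n) = 0 := h1
    omega
  exact IsAlgClosed.exists_root _ hdeg

end

variable {n : ℕ} {M : Type u} [TopologicalSpace M] [ChartedSpace (Er n) M]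
  [IsManifold (𝓡 n) ∞ M] [CompactSpace M] [T2Space M]

/-- The proof is like that of `exists_goodS` (file B2c): `p` a fixed point of `f^a`, `d` its minimal period, `a = d e`, `pert_orbit` with `N = a`, `Bl = 1` gives `H s` with the same fixed points and the same orbits as `f^a`, `D(H(s)^a)_p = (1+s)^e D(f^a)_p` and the other derivatives (at the fixed
points not in the orbit of `p`) unchanged.  Let `l` be an eigenvalue of `D(f^a)_p` (`n > 0`), so `(1+s)^e l` is one of `D(H(s)^a)_p` and `log ‖(1+s)^e l‖ = e log (1+s) + log ‖l‖`.  `exists_small_s` with the finite set of the `log ‖l'‖`, `l'` an eigenvalue at a fixed point of `f^a` not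
in the orbit of `p`. -/
theorem exists_goodR (hn : 0 < n) {f : Dif n M} {O : Set (Dif n M)}
    (hO : IsOpen[crTop n M ⊤] O) (hf : f ∈ O) (hpos : PosNd f) {a : ℕ} (ha : 0 < a)
    (hne : ∃ x, itr f a x = x) : ∃ g ∈ O, GoodR a g := by
  classical
  obtain ⟨p, hpN⟩ := hne
  change (f : M → M)^[a] p = p at hpN
  have hperN : Function.IsPeriodicPt (f : M → M) a p := hpN
  obtain ⟨d, hdd⟩ : ∃ d, d = Function.minimalPeriod (f : M → M) p := ⟨_, rfl⟩
  have hd : 0 < d := by
    rw [hdd]
    exact hperN.minimalPeriod_pos ha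
  have hp : (f : M → M)^[d] p = p := by
    rw [hdd]
    exact Function.iterate_minimalPeriod
  have hmin : ∀ i, 0 < i → i < d → (f : M → M)^[i] p ≠ p := by
    intro i h1 h2 h3
    rw [hdd] at h2
    exact Function.not_isPeriodicPt_of_pos_of_lt_minimalPeriod h1.ne' h2 h3
  obtain ⟨e, hde⟩ : d ∣ a := by
    rw [hdd]
    exact hperN.minimalPeriod_dvd
  have he : 0 < e := by
    rcases Nat.eq_zero_or_pos e with h | h
    · rw [h, Nat.mul_zero] at hde
      omega
    · exact h
  have hdN : d ≤ a := by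
    rw [hde]
    exact Nat.le_mul_of_pos_right _ he
  have hnd : ∀ k, 0 < k → k ≤ a → NdL k Set.univ f := by
    intro k hk _ x _ hx
    have h1 := hpos x k hk hx
    show LinearMap.det ((dfix ((f : M → M)^[k]) x - ContinuousLinearMap.id ℝ (Er n) :
      Er n →L[ℝ] Er n)).toLinearMap ≠ 0
    have h2 : ((dfix ((f : M → M)^[k]) x - ContinuousLinearMap.id ℝ (Er n) :
        Er n →L[ℝ] Er n)).toLinearMap = (-1 : ℝ) •
        ((ContinuousLinearMap.id ℝ (Er n) - dfix (n := n) (itr f k) x :
        Er n →L[ℝ] Er n)).toLinearMap := by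
      ext v : 1
      simp [itr]
    rw [h2, LinearMap.det_smul]
    exact mul_ne_zero (pow_ne_zero _ (by norm_num)) h1.ne'
  obtain ⟨H, hH, hH0, hev⟩ := pert_orbit hnd hd hdN hp hmin (ContinuousLinearMap.id ℝ (Er n))
  have hO' := eventually_mem_open f H hH0 hH hO hf
  have hfin : {x | (f : M → M)^[a] x = x}.Finite :=
    finite_fix (n := n) fun x hx => hnd a ha le_rfl x (Set.mem_univ x) hx
  obtain ⟨l, hl⟩ := X6_exists_ev hn (dfix (n := n) ((f : M → M)^[a]) p)
  have hl0 : l ≠ 0 := by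
    obtain ⟨A', hA'⟩ := dfix_equiv f a hpN
    exact X6_isEv_ne_zero A' hA' hl
  set R : Set ℝ := ⋃ y ∈ {x | (f : M → M)^[a] x = x},
    (fun l' : ℂ => Real.log ‖l'‖) '' {l' | IsEv (dfix (n := n) ((f : M → M)^[a]) y) l'} with hR
  have hRf : R.Finite := by
    rw [hR]
    exact hfin.biUnion fun y _ => (X6_isEv_finite _).image _
  obtain ⟨s, hs0, ⟨hsO, hsnd, hsfix, hsval, hsp, hsx⟩, hsnum⟩ :=
    exists_small_s he (Real.log ‖l‖) R hRf
      ((hO'.and hev).filter_mono (nhdsWithin_le_nhds (s := Set.Ioi (0 : ℝ))))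
  refine ⟨H s, hsO, p, (((1 + s) ^ e : ℝ) : ℂ) * l, ?_, ?_, ?_⟩
  · exact (hsfix a ha le_rfl p).2 hpN
  · have hHd : (H s : M → M)^[d] p = p := (hsfix d hd hdN p).2 hp
    have hAs : (dfix (n := n) ((H s : M → M)^[a]) p).toLinearMap =
        ((1 + s) ^ e : ℝ) • (dfix (n := n) ((f : M → M)^[a]) p).toLinearMap := by
      rw [hde, dfix_iterate (H s) d e hHd, dfix_iterate f d e hp, hsp]
      have h1 : ((dfix (n := n) ((f : M → M)^[d]) p) ∘L
          (ContinuousLinearMap.id ℝ (Er n) + s • ContinuousLinearMap.id ℝ (Er n))).toLinearMap =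
          (1 + s) • (dfix (n := n) ((f : M → M)^[d]) p).toLinearMap := by
        ext1 v
        show dfix (n := n) ((f : M → M)^[d]) p (v + s • v) =
          (1 + s) • dfix (n := n) ((f : M → M)^[d]) p v
        rw [map_add, map_smul, add_smul, one_smul]
      rw [h1, smul_pow]
    exact X6_isEv_smul hAs hl
  · intro y l' hy hyp hl'
    have hy' : (f : M → M)^[a] y = y := (hsfix a ha le_rfl y).1 hy
    have horb : ∀ i, (H s : M → M)^[i] p = (f : M → M)^[i] p := fun i =>
      iterate_eq_of_per hsval ha le_rfl hpN i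
    have hyp' : ∀ i, (f : M → M)^[i] p ≠ y := by
      intro i
      rw [← horb i]
      exact hyp i
    have hl'' : IsEv (dfix (n := n) ((f : M → M)^[a]) y) l' := by
      have h1 := hsx a ha le_rfl y hy' hyp' a hy'
      rw [← h1]
      exact hl'
    rintro ⟨P, Q, hP, -, hQ, hPQ⟩
    have h1s : (0 : ℝ) < 1 + s := by linarith
    have hlog : Real.log ‖(((1 + s) ^ e : ℝ) : ℂ) * l‖ = e * Real.log (1 + s) + Real.log ‖l‖ := by
      rw [norm_mul, Complex.norm_real, Real.norm_eq_abs, abs_of_pos (pow_pos h1s e),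
        Real.log_mul (pow_pos h1s e).ne' (norm_ne_zero_iff.2 hl0), Real.log_pow]
    rw [hlog] at hPQ
    refine hsnum (Real.log ‖l'‖) ?_ P Q hP hQ hPQ
    rw [hR]
    exact Set.mem_biUnion hy' ⟨l', hl'', rfl⟩

end FB
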