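import Pool.Agent.H.MP_fb873c_an.B0

/-!
# Part Y5b: hyperbolicity is an open condition
-/

namespace FB

open scoped Topology ContDiff Manifold
open Filter

universe u

variable {n : ℕ}

/-- The set of all `A` with `Hyp A` is open: if `A i → A` and `l i` is a root of `charpoly (A i)` with `‖l i‖ = 1`, a subsequence (ultrafilter) of `l i` converges to a root of `charpoly A` of modulus one
(`charpoly` evaluated: `det (l - A)` over `ℂ` is continuous in `(A, l)`). -/
theorem hyp_nhds {κ : Type*} {l : Filter κ} {A : κ → (Er n →L[ℝ] Er n)} {A0 : Er n →L[ℝ] Er n}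
    (hA : Tendsto A l (𝓝 A0)) (h : Hyp A0) : ∀ᶠ i in l, Hyp (A i) := by
  classical
  set b := Module.finBasis ℝ (Er n) with hb
  let L : (Er n →L[ℝ] Er n) →ₗ[ℝ] Matrix _ _ ℝ :=
    (LinearMap.toMatrix b b).toLinearMap ∘ₗ (ContinuousLinearMap.coeLM ℝ)
  have hL : Continuous L := L.continuous_of_finiteDimensional
  let F : (Er n →L[ℝ] Er n) × ℂ → ℂ := fun q =>
    (Matrix.diagonal (fun _ => q.2) - (L q.1).map (algebraMap ℝ ℂ)).det
  have hF : Continuous F := by
    refine Continuous.matrix_det ?_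
    refine Continuous.sub ?_ ?_
    · exact Continuous.matrix_diagonal (continuous_pi fun _ => continuous_snd)
    · exact Continuous.matrix_map (hL.comp continuous_fst) Complex.continuous_ofReal
  have key : ∀ (C : Er n →L[ℝ] Er n) (z : ℂ),
      ((LinearMap.charpoly C.toLinearMap).map (algebraMap ℝ ℂ)).IsRoot z ↔ F (C, z) = 0 := by
    intro C z
    have h1 : (LinearMap.charpoly C.toLinearMap).map (algebraMap ℝ ℂ) =
        Matrix.charpoly ((LinearMap.toMatrix b b C.toLinearMap).map (algebraMap ℝ ℂ)) := by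
      rw [Matrix.charpoly_map, LinearMap.charpoly_toMatrix]
    rw [h1, Polynomial.IsRoot.def, Matrix.eval_charpoly]
    rfl
  have h1 : ∀ᶠ C in 𝓝 A0, ∀ z ∈ Metric.sphere (0 : ℂ) 1, F (C, z) ≠ 0 := by
    refine (isCompact_sphere (0 : ℂ) 1).eventually_forall_of_forall_eventually
      (P := fun C z => F (C, z) ≠ 0) ?_
    intro z hz
    have h2 : F (A0, z) ≠ 0 := by
      intro h3
      refine h z ((key A0 z).2 h3) ?_
      simpa using hz
    exact hF.continuousAt.eventually_ne h2
  filter_upwards [hA.eventually h1] with i hi z hz hz1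
  exact hi z (by simpa using hz1) ((key (A i) z).1 hz)

/-- `LinearEquiv.charpoly_conj`. -/
theorem hyp_conj {A : Er n →L[ℝ] Er n} (e : Er n ≃L[ℝ] Er n) (h : Hyp A) :
    Hyp ((e : Er n →L[ℝ] Er n) ∘L A ∘L (e.symm : Er n →L[ℝ] Er n)) := by
  have h1 : LinearMap.charpoly
      ((e : Er n →L[ℝ] Er n) ∘L A ∘L (e.symm : Er n →L[ℝ] Er n)).toLinearMap =
        LinearMap.charpoly A.toLinearMap := by
    rw [← LinearEquiv.charpoly_conj e.toLinearEquiv A.toLinearMap]
    rfl
  intro l hl
  rw [h1] at hl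
  exact h l hl

end FB
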