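import Pool.Agent.H.MP_fb873c_an.D4a
import Pool.Agent.H.MP_fb873c_an.K0
import Pool.Agent.H.MP_fb873c_an.Y5b

/-!
# Part Y5c: hyperbolicity of the fixed points of a power is an open condition
-/

namespace FB

open scoped Topology ContDiff Manifold
open Filter

universe u

variable {n : ℕ} {M : Type u} [TopologicalSpace M] [ChartedSpace (Er n) M]
  [IsManifold (𝓡 n) ∞ M] [CompactSpace M] [T2Space M]

/-- Hyperbolicity of `dfix F x` read off in any chart. -/
theorem Y5c_iff {n : ℕ} {M : Type u} [TopologicalSpace M] [ChartedSpace (Er n) M]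
    [IsManifold (𝓡 n) ∞ M] {F : M → M} {x : M}
    (hF : ContMDiffAt (𝓡 n) (𝓡 n) 1 F x) (hx : F x = x) {φ : OpenPartialHomeomorph M (Er n)}
    (hφ : φ ∈ atlas (Er n) M) (h1 : x ∈ φ.source)
    (h : Hyp (fderiv ℝ (φ ∘ F ∘ φ.symm) (φ x))) : Hyp (dfix (n := n) F x) := by
  obtain ⟨e, he⟩ := D1_conj hF hx hφ h1
  have h2 := hyp_conj e.symm h
  rw [he] at h2
  have h3 : ((e.symm : Er n ≃L[ℝ] Er n) : Er n →L[ℝ] Er n) ∘L
      ((e : Er n →L[ℝ] Er n).comp ((dfix F x).comp (e.symm : Er n →L[ℝ] Er n))) ∘L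
      (e.symm.symm : Er n →L[ℝ] Er n) = dfix F x := by
    ext v
    simp
  rwa [h3] at h2

/-- Hyperbolicity of all fixed points is an open condition along a `C¹`-convergent family. -/
theorem Y5c_cv {n : ℕ} {M : Type u} [TopologicalSpace M] [ChartedSpace (Er n) M]
    [IsManifold (𝓡 n) ∞ M] [T2Space M] {ι : Type*} {l : Filter ι} {F : ι → M → M} {F0 : M → M}
    (hF : CV n l F F0) (sF : ∀ i, C1 n (F i)) {K : Set M} (hK : IsCompact K)
    (h0 : ∀ x ∈ K, F0 x = x → Hyp (dfix (n := n) F0 x)) :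
    ∀ᶠ i in l, ∀ x ∈ K, F i x = x → Hyp (dfix (n := n) (F i) x) := by
  have h1 : {p : ι × M | F p.1 p.2 = p.2 → Hyp (dfix (n := n) (F p.1) p.2)} ∈ l ×ˢ 𝓝ˢ K := by
    refine hK.mem_prod_nhdsSet_of_forall fun y hy => ?_
    by_cases hyy : F0 y = y
    · have hφ1 : chartAt (Er n) y ∈ atlas (Er n) M := chart_mem_atlas _ _
      have h2 : y ∈ (chartAt (Er n) y).source := mem_chart_source _ _
      have h3 := hF.tendD y _ _ hφ1 hφ1 h2 (by rw [hyy]; exact h2)
      have h7 := hyp_nhds h3 (h0 y hy hyy)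
      have h8 : ∀ᶠ p : ι × M in l ×ˢ 𝓝 y, p.2 ∈ (chartAt (Er n) y).source :=
        tendsto_snd.eventually_mem ((chartAt (Er n) y).open_source.mem_nhds h2)
      filter_upwards [h7, h8] with p q1 q2 q3
      exact Y5c_iff (sF p.1 p.2) q3 hφ1 q2 q1
    · have h2 : Tendsto (fun p : ι × M => (F p.1 p.2, p.2)) (l ×ˢ 𝓝 y) (𝓝 (F0 y, y)) :=
        (hF.tend y).prodMk_nhds tendsto_snd
      have h3 : IsOpen {q : M × M | q.1 ≠ q.2} := isOpen_ne_fun continuous_fst continuous_snd
      filter_upwards [h2.eventually_mem (h3.mem_nhds hyy)] with p hp hq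
      exact absurd hq hp
  obtain ⟨s, hs, t, ht, hst⟩ := Filter.mem_prod_iff.1 h1
  filter_upwards [hs] with i hi x hx
  exact hst (Set.mk_mem_prod hi (subset_of_mem_nhdsSet ht hx))

/-- Hyperbolic fixed points of `F = f^N` are nondegenerate (`1` is not an eigenvalue), so by `D1_fix` (file D1f) the fixed points of `G = g^N`, `g → f`, are the `y x g`, `x = F x`, with `y x g → x`.  The derivative of `G` at `y x g` in the chart at
`x` tends to that of `F` at `x` (`CV`, see the proof of `D1_nd` in file D1d), it is conjugate to `dfix G (y x g)` (`D1_conj`), `hyp_nhds`, `hyp_conj`; there are finitely many `x` (`D1_fin`). -/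
theorem hyp_fix_nhds {f : Dif n M} {N : ℕ} (h : ∀ x, itr f N x = x → Hyp (dfix (n := n) (itr f N) x)) :
    ∀ᶠ g : Dif n M in @nhds _ (crTop n M 1) f,
      ∀ x, itr g N x = x → Hyp (dfix (n := n) (itr g N) x) := by
  obtain ⟨-, hF, sF⟩ := D4a_cv (n := n) N (le_refl (@nhds _ (crTop n M 1) f))
  have h1 := Y5c_cv hF sF isCompact_univ (fun x _ hx => h x hx)
  filter_upwards [h1] with g hg x hx
  exact hg x (Set.mem_univ x) hx

end FB
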