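import Pool.Agent.H.MP_fb873c_an.V6
import Pool.Agent.H.MP_fb873c_an.X2
import Pool.Agent.H.MP_fb873c_an.X5
import Pool.Agent.H.MP_fb873c_an.X6
import Pool.Agent.H.MP_fb873c_an.Y11
import Pool.Agent.H.MP_fb873c_an.Y5c

/-!
# Part V7: the sets `U3` and `W3`
-/

namespace FB

open scoped Topology ContDiff Manifold
open Filter

universe u

variable {n : ℕ} {M : Type u} [TopologicalSpace M] [ChartedSpace (Er n) M]

theorem isOpen_U3 : IsOpen[crTop n M 1] (U3 n M) := by
  let _ := crTop n M 1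
  rw [isOpen_iff_mem_nhds]
  rintro h ⟨O, a, b, hO, hh, ha, hb, hP⟩
  exact Filter.mem_of_superset (hO.mem_nhds hh) (fun g hg => ⟨O, a, b, hO, hg, ha, hb, hP⟩)

/-- As `isOpen_W1` (file Y12). -/
theorem isOpen_W3 : IsOpen[crTop n M ⊤] (W3 n M) := by
  have h1 := D4_top (isOpen_U3 (n := n) (M := M))
  let _ := crTop n M ⊤
  rw [isOpen_iff_mem_nhds]
  rintro h ⟨hh, V, hV, hhV, hP⟩
  refine Filter.mem_of_superset (Filter.inter_mem (h1.mem_nhds hh) (hV.mem_nhds hhV)) ?_
  rintro g ⟨hg1, hg2⟩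
  exact ⟨hg1, V, hV, hg2, hP⟩

variable [IsManifold (𝓡 n) ∞ M] [CompactSpace M] [T2Space M]

/-- `lefN_nhds_all` (file V1), `hyp_fix_nhds` (file Y5c), `card_nhds` (file Y5a). -/
theorem regL_nhds {f : Dif n M} {a b : ℕ} (ha : 0 < a) (hR : RegL a b f) :
    ∀ᶠ g : Dif n M in @nhds _ (crTop n M 1) f, RegL a b g := by
  have h1 := hyp_fix_nhds hR.1
  have h2 := card_nhds (f := f) (k := a) (fun x hx => X5_nd (hR.1 x hx))
  obtain ⟨N, hN, hfN, hP⟩ := lefN_nhds_all f
  have h3 : ∀ᶠ g : Dif n M in @nhds _ (crTop n M 1) f, g ∈ N := by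
    let _ := crTop n M 1
    exact hN.mem_nhds hfN
  filter_upwards [h1, h2, h3] with g g1 g2 g3
  refine ⟨g1, fun j => ?_⟩
  rw [hP g g3, hR.2 j, g2]

omit [IsManifold (𝓡 n) ∞ M] [CompactSpace M] [T2Space M] in
/-- The fixed points of `f^k`, `k = a (1 + b N! j)`, are finitely many if those of `f^a` are and the points of minimal
period `q` are finitely many for all `q ≥ N`. -/
theorem V7_fin {f : Dif n M} {a b N : ℕ} (ha : 0 < a) (hfa : {x | itr f a x = x}.Finite)
    (hN : ∀ k, N ≤ k → {x | MinPer f x k}.Finite) (j : ℕ) :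
    {x | itr f (a * (1 + b * N.factorial * j)) x = x}.Finite := by
  obtain ⟨k, hk⟩ : ∃ k, k = a * (1 + b * N.factorial * j) := ⟨_, rfl⟩
  have hk0 : 0 < k := by
    rw [hk]
    exact Nat.mul_pos ha (by omega)
  rw [← hk]
  have hun : ({x | itr f a x = x} ∪ ⋃ q ∈ {q : ℕ | N ≤ q ∧ q ≤ k}, {x | MinPer f x q}).Finite := by
    refine hfa.union (Set.Finite.biUnion ?_ fun q hq => hN q hq.1)
    exact (Set.finite_Iic k).subset fun q hq => hq.2
  refine hun.subset fun y hy => ?_
  have hper : Function.IsPeriodicPt (f : M → M) k y := hy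
  have hpos : 0 < Function.minimalPeriod (f : M → M) y := hper.minimalPeriod_pos hk0
  have hfix : (f : M → M)^[Function.minimalPeriod (f : M → M) y] y = y :=
    Function.iterate_minimalPeriod
  have hmin : MinPer f y (Function.minimalPeriod (f : M → M) y) :=
    ⟨hpos, hfix, fun i hi hlt he =>
      Function.not_isPeriodicPt_of_pos_of_lt_minimalPeriod hi.ne' hlt he⟩
  have hdvd := hper.minimalPeriod_dvd
  obtain ⟨q, hq⟩ : ∃ q, q = Function.minimalPeriod (f : M → M) y := ⟨_, rfl⟩
  rw [← hq] at hpos hfix hmin hdvd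
  rcases le_or_gt N q with h1 | h1
  · refine Or.inr (Set.mem_biUnion (x := q) ⟨h1, Nat.le_of_dvd hk0 hdvd⟩ hmin)
  · refine Or.inl ?_
    have h2 : q ∣ N.factorial := Nat.dvd_factorial hpos h1.le
    have h3 : Nat.Coprime q (1 + b * N.factorial * j) := by
      obtain ⟨e, he⟩ := h2
      have h4 : 1 + b * N.factorial * j = 1 + q * (b * e * j) := by
        rw [he]
        ring
      rw [h4]
      simp
    have h4 : q ∣ a := by
      rw [hk] at hdvd
      exact h3.dvd_of_dvd_mul_right hdvd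
    obtain ⟨e, he⟩ := h4
    have h6 : Function.IsPeriodicPt (f : M → M) q y := hfix
    have h7 := h6.mul_const e
    rw [← he] at h7
    exact h7

/-- Suppose `¬ NonIso f`: there is `N` such that for all `k ≥ N` the set of the points of minimal period `k` is finite.  `a, b` from `U3`, `RegL a b f`, `GoodR a f`; `b' = b * N!`.  Let `k = a (1 + b' j)`.  The fixed points of `f^k` are the points of the minimal periods `q ∣ k`.  For
`q < N`: `q ∣ N!` is prime to `1 + b' j`, so `q ∣ a`: these points are fixed points of `f^a`, hyperbolic, so finitely many (`finite_fix` or `D1_fin`).  So the fixed point set of `f^k` is finite (`k > 0` has finitely many divisors `q`; if `N = 0` use `N + 1`).  By `preserves_card_le` (file V6) its number is at most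
`LefN n (itr f k)`, which by `RegL` (`b' j = b (N! j)`) is the number of the fixed points of `f^a`, which are fixed by `f^k`.  So the two sets agree, and `prog_contra` (file X2) with `a`, `b'` gives a contradiction. -/
theorem U3_nonIso {f : Dif n M} (hf : f ∈ U3 n M) {m : ℕ} {X : Type u}
    [TopologicalSpace X] [ChartedSpace (Ec m) X] [IsManifold 𝓘(ℂ, Ec m) ω X]
    (h : Preserves f m X) : NonIso f := by
  by_contra hcon
  have hcon' : ∃ N : ℕ, ∀ k, N ≤ k → {x | MinPer f x k}.Finite := by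
    by_contra hc
    apply hcon
    intro N
    by_contra hc2
    apply hc
    refine ⟨N, fun k hk => ?_⟩
    by_contra hc3
    exact hc2 ⟨k, hk, hc3⟩
  obtain ⟨N, hN⟩ := hcon'
  obtain ⟨O, a, b, -, hfO, ha, hb, hP⟩ := hf
  obtain ⟨⟨r1, r2⟩, hG⟩ := hP f hfO
  have hb' : 0 < b * N.factorial := Nat.mul_pos hb (Nat.factorial_pos N)
  have hfa : {x | itr f a x = x}.Finite := finite_fix (g := f) (k := a) (fun x hx => X5_nd (r1 x hx))
  refine prog_contra ha hb' r1 (fun j x hx => ?_) hG m X h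
  have hkj : a * (1 + b * N.factorial * j) = a * (1 + b * (N.factorial * j)) := by
    rw [Nat.mul_assoc b]
  have hfin : {x | itr f (a * (1 + b * N.factorial * j)) x = x}.Finite :=
    V7_fin ha hfa hN j
  have hsub : {x | itr f a x = x} ⊆ {x | itr f (a * (1 + b * N.factorial * j)) x = x} := by
    intro y hy
    have h6 : Function.IsPeriodicPt (f : M → M) a y := hy
    exact h6.mul_const (1 + b * N.factorial * j)
  obtain ⟨l, hl1, hl2⟩ := preserves_card_le h hfin
  have h7 := r2 (N.factorial * j)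
  rw [← hkj, hl1] at h7
  have h8 : l = {x | itr f a x = x}.ncard := by exact_mod_cast h7
  have h9 := Set.eq_of_subset_of_ncard_le hsub (h8 ▸ hl2) hfin
  have h10 : x ∈ {x | itr f a x = x} := by
    rw [h9]
    exact hx
  exact h10

/-- `U3_nonIso`, and `PosNd f` implies that the fixed point sets of all `f^k`, `k > 0`, are finite (`card_fix`, file Y4a). -/
theorem W3_not_preserves {f : Dif n M} (hf : f ∈ W3 n M) (m : ℕ) (X : Type u)
    [TopologicalSpace X] [ChartedSpace (Ec m) X] [IsManifold 𝓘(ℂ, Ec m) ω X] :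
    ¬ Preserves f m X := by
  intro h
  obtain ⟨k, hk, hinf⟩ := U3_nonIso hf.1 h 1
  obtain ⟨V, -, hfV, hV⟩ := hf.2
  have h1 := (card_fix (g := f) (k := k) (fun x hx => hV f hfV x k (by omega) hx)).1
  exact hinf (h1.subset fun x hx => hx.2.1)

/-- As `U2_subset` (file X7). -/
theorem U3_subset {f : Dif n M} (hf : f ∈ U3 n M) :
    f ∈ closure[crTop n M ⊤] (UR n M ∪ W3 n M) := by
  letI T := crTop n M ⊤
  by_cases hc : f ∈ closure (UR n M)
  · exact closure_mono Set.subset_union_left hc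
  · refine subset_closure (Or.inr ⟨hf, (closure (UR n M))ᶜ, isClosed_closure.isOpen_compl, hc, ?_⟩)
    intro g hg
    exact posNd_of_NR (NR_of_not_closure hg)

/-- As `closure_W2` (file X7; if that is not yet proved, the proof is in its docstring), with `regL_nhds`: `RegL a b f` holds as the fixed points of `f^a` are hyperbolic (`hyp_of_NR`) and their number is `LefN n (itr f a) = c` by `card_fix`. -/
theorem closure_W3 (hn : 0 < n) {f : Dif n M} (hf : f ∉ closure[crTop n M ⊤] (UR n M)) {a b : ℕ}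
    (ha : 0 < a) (hb : 0 < b) {c : ℂ} (hc : c ≠ 0)
    (hL : ∀ j : ℕ, LefN n (itr f (a * (1 + b * j))) = c) {V : Set (Dif n M)}
    (hV : IsOpen[crTop n M ⊤] V) (hfV : f ∈ V) : ∃ g ∈ V, g ∈ W3 n M := by
  obtain ⟨hNR, hcard⟩ := compl_closure hf
  have hpos := posNd_of_NR hNR
  have hhyp := hyp_of_NR hNR
  have hLa : LefN n (itr f a) = c := by
    have := hL 0
    simpa using this
  have hne : ∃ x, itr f a x = x := by
    by_contra hno
    have h1 : {x | itr f a x = x} = (∅ : Set M) := by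
      ext x
      simp only [Set.mem_setOf_eq, Set.mem_empty_iff_false, iff_false]
      exact fun hx => hno ⟨x, hx⟩
    have h2 := (hcard a ha).2
    rw [h1, Set.ncard_empty, Nat.cast_zero, hLa] at h2
    exact hc h2.symm
  have hRL : RegL a b f := by
    refine ⟨fun x hx => hhyp x a ha hx, fun j => ?_⟩
    rw [hL j, (hcard a ha).2, hLa]
  have hev := regL_nhds ha hRL
  have hev2 : ∃ O ⊆ {g : Dif n M | RegL a b g}, IsOpen[crTop n M 1] O ∧ f ∈ O := by
    let _ := crTop n M 1
    exact mem_nhds_iff.1 hev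
  obtain ⟨O, hOP, hO, hfO⟩ := hev2
  obtain ⟨W, hW⟩ : ∃ W : Set (Dif n M), W = V ∩ O ∩ (closure[crTop n M ⊤] (UR n M))ᶜ :=
    ⟨_, rfl⟩
  have hWo : IsOpen[crTop n M ⊤] W := by
    rw [hW]
    have hO2 := D4_top hO
    let _ := crTop n M ⊤
    exact (hV.inter hO2).inter isClosed_closure.isOpen_compl
  have hfW : f ∈ W := by
    rw [hW]
    exact ⟨⟨hfV, hfO⟩, hf⟩
  have hWpos : ∀ g ∈ W, PosNd g := by
    intro g hg
    rw [hW] at hg
    exact posNd_of_NR fun x k hk => NR_of_not_closure hg.2 x k hk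
  obtain ⟨g, hgW, hgR⟩ := exists_goodR hn hWo hfW hpos ha hne
  have hgO : g ∈ O := by
    rw [hW] at hgW
    exact hgW.1.2
  have hgA : RegL a b g := hOP hgO
  have hev3 := goodR_nhds hgA.1 hgR
  have hev4 : ∃ O' ⊆ {g' : Dif n M | GoodR a g'}, IsOpen[crTop n M 1] O' ∧ g ∈ O' := by
    let _ := crTop n M 1
    exact mem_nhds_iff.1 hev3
  obtain ⟨O', hsub, hO', hgO'⟩ := hev4
  have hgU : g ∈ U3 n M := by
    have hi : IsOpen[crTop n M 1] (O ∩ O') := by
      let _ := crTop n M 1
      exact hO.inter hO'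
    exact ⟨O ∩ O', a, b, hi, ⟨hgO, hgO'⟩, ha, hb, fun g' hg' => ⟨hOP hg'.1, hsub hg'.2⟩⟩
  refine ⟨g, ?_, hgU, W, hWo, hgW, hWpos⟩
  rw [hW] at hgW
  exact hgW.1.1

end FB
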