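import Pool.Agent.H.MP_fb873c_an.N6
import Pool.Agent.H.MP_fb873c_an.V7

/-!
# Part V8: a `C^∞`-open set and its closure
-/

namespace FB

open scoped Topology ContDiff Manifold
open Filter

universe u

variable {n : ℕ} {M : Type u} [TopologicalSpace M] [ChartedSpace (Er n) M]

/-- There are `a, b ≥ 1` such that the Lefschetz numbers `L(f^k)`, `k = a (1 + b j)`, `j = 0, 1, 2, …`, have the same
value `c ≠ 0`. -/
def ConstL (f : Dif n M) : Prop :=
  ∃ (a b : ℕ) (c : ℂ), 0 < a ∧ 0 < b ∧ c ≠ 0 ∧ ∀ j : ℕ, LefNum n (itr f (a * (1 + b * j))) = c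

/-- the periodic points of a map with finitely many periodic points have a common period -/
theorem v8_common {f : Dif n M} (hf : {x | ∃ k, 0 < k ∧ itr f k x = x}.Finite) :
    ∃ P : ℕ, 0 < P ∧ ∀ j : ℕ, 0 < j →
      {x | itr f (P * j) x = x} = {x | ∃ k, 0 < k ∧ itr f k x = x} := by
  classical
  have h1 : ∀ x : M, ∃ k : ℕ, 0 < k ∧ (x ∈ {x | ∃ k, 0 < k ∧ itr f k x = x} → itr f k x = x) := by
    intro x
    by_cases hx : ∃ k, 0 < k ∧ itr f k x = x
    · obtain ⟨k, hk, hkx⟩ := hx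
      exact ⟨k, hk, fun _ => hkx⟩
    · exact ⟨1, one_pos, fun h => absurd h hx⟩
  choose p hp hpx using h1
  refine ⟨∏ x ∈ hf.toFinset, p x, Finset.prod_pos fun x _ => hp x, fun j hj => ?_⟩
  ext x
  constructor
  · intro hx
    exact ⟨_, Nat.mul_pos (Finset.prod_pos fun x _ => hp x) hj, hx⟩
  · intro hx
    have h2 : Function.IsPeriodicPt (f : M → M) (p x) x := hpx x hx
    have h3 : p x ∣ (∏ x ∈ hf.toFinset, p x) * j :=
      (Finset.dvd_prod_of_mem p (hf.mem_toFinset.2 hx)).trans (dvd_mul_right _ _)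
    exact h2.trans_dvd h3

variable [IsManifold (𝓡 n) ∞ M] [CompactSpace M] [T2Space M]

theorem v8_main (hn : 0 < n) {f : Dif n M}
    (hf : f ∉ closure[crTop n M ⊤] (UR n M ∪ W3 n M)) :
    PerNR f ∧ NoHom f ∧ CountL f ∧ ¬ ConstL f ∧
      (EvenPair f ∨ chi (Er n) M n = 0 ∧ PerCard f 0) := by
  let T := crTop n M ⊤
  have hf1 : f ∉ closure (UR n M) := fun h => hf (closure_mono Set.subset_union_left h)
  obtain ⟨h1, h2, h3⟩ := not_closure_UR' hn hf1
  have h4 : ¬ ConstL f := by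
    rintro ⟨a, b, c, ha, hb, hc, hL⟩
    apply hf
    rw [mem_closure_iff]
    intro V hV hfV
    obtain ⟨g, hg, hgW⟩ := closure_W3 hn hf1 ha hb hc
      (fun j => by rw [← lefNum_eq]; exact hL j) hV hfV
    exact ⟨g, hg, Or.inr hgW⟩
  refine ⟨h1, h2, h3, h4, ?_⟩
  rcases pair_or_card hn hf1 with h5 | ⟨h5, h6⟩
  · exact Or.inl h5
  · right
    have h7 : chi (Er n) M n = 0 := by
      by_contra hne
      obtain ⟨P, hP, hPj⟩ := v8_common h5
      refine h4 ⟨P, 1, (chi (Er n) M n : ℂ), hP, one_pos, by exact_mod_cast hne, fun j => ?_⟩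
      have hj : 0 < 1 + 1 * j := by omega
      rw [← (h3 (P * (1 + 1 * j)) (Nat.mul_pos hP hj)).2, hPj _ hj, ← h6]
      norm_cast
    rw [h7] at h6
    exact ⟨h7, h5, h6⟩

theorem v8_rob (hn : 0 < n) {f : Dif n M}
    (hf : f ∉ closure[crTop n M ⊤] (UR n M ∪ W3 n M)) :
    PerNR f ∧ NoHom f ∧ CountL f ∧ ¬ ConstL f ∧
      (EvenPair f ∨ chi (Er n) M n = 0 ∧ RobCard f 0) := by
  obtain ⟨h1, h2, h3, h4, h5⟩ := v8_main hn hf
  refine ⟨h1, h2, h3, h4, ?_⟩
  by_cases hE : EvenPair f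
  · exact Or.inl hE
  · right
    rcases h5 with h5 | ⟨h5, -⟩
    · exact absurd h5 hE
    · refine ⟨h5, ?_⟩
      obtain ⟨N, hN, hfN, h⟩ := evenPair_nhds f
      have hN2 := D4_top hN
      let T := crTop n M ⊤
      refine ⟨N ∩ (closure (UR n M ∪ W3 n M))ᶜ, hN2.inter isClosed_closure.isOpen_compl,
        ⟨hfN, hf⟩, ?_⟩
      rintro g ⟨hgN, hg⟩
      rcases (v8_main hn hg).2.2.2.2 with h6 | h6
      · exact absurd (h g hgN h6) hE
      · exact h6.2

end FB
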