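import Pool.Agent.H.MP_fb873c_an.X0

/-!
# Part X1a: exponential sums, arithmetic
-/

namespace FB

namespace XT

open scoped Topology
open Filter

/-- Put `s N = (- log l0 + 2 π i N) / (b log ‖l0‖)` (`Complex.log`; `b > 0`, `log ‖l0‖ ≠ 0`), so `l0 * exp (s N * b * log ‖l0‖) = 1`.  By `h` for every `N ∈ {0, ..., K}` there is an index `t : Fin K` with `l t * exp (s N * b * log ‖l t‖) = 1`.
By the pigeonhole principle there are `N < N'` in `{0, ..., K}` with the same `t`: dividing, `exp ((s N' - s N) b log ‖l t‖) = 1`, so `2 π i (N' - N) log ‖l t‖ / log ‖l0‖ = 2 π i Q'` with an integer `Q'` (`Complex.exp_eq_one_iff`), i.e.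
`(N' - N) log ‖l t‖ = Q' log ‖l0‖`.  `Q' ≠ 0`, so with `P = N' - N ∈ [1, K]`, `Q = |Q'|`: `Q |log ‖l0‖| = P |log ‖l t‖|`. -/
theorem exists_ratLe {K b : ℕ} (hb : 0 < b) {l0 : ℂ} (h0 : l0 ≠ 0) (h1 : ‖l0‖ ≠ 1) (l : Fin K → ℂ)
    (hl : ∀ t, l t ≠ 0 ∧ ‖l t‖ ≠ 1)
    (h : ∀ s : ℂ, l0 * Complex.exp (s * (b * Real.log ‖l0‖)) = 1 →
      ∃ t, l t * Complex.exp (s * (b * Real.log ‖l t‖)) = 1) :
    ∃ t, RatLe K (Real.log ‖l0‖) (Real.log ‖l t‖) := by
  have hL0 : Real.log ‖l0‖ ≠ 0 :=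
    Real.log_ne_zero_of_pos_of_ne_one (norm_pos_iff.2 h0) h1
  have hb0 : (b : ℂ) ≠ 0 := Nat.cast_ne_zero.2 hb.ne'
  have hL0c : ((Real.log ‖l0‖ : ℝ) : ℂ) ≠ 0 := Complex.ofReal_ne_zero.2 hL0
  have key : ∀ N : Fin (K + 1), ∃ t, l t * Complex.exp
      (((-Complex.log l0 + (N : ℕ) * (2 * Real.pi * Complex.I)) / (b * Real.log ‖l0‖)) *
        (b * Real.log ‖l t‖)) = 1 := by
    intro N
    apply h
    rw [div_mul_cancel₀ _ (mul_ne_zero hb0 hL0c), Complex.exp_add, Complex.exp_neg,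
      Complex.exp_log h0, Complex.exp_nat_mul_two_pi_mul_I, mul_one, mul_inv_cancel₀ h0]
  choose t ht using key
  obtain ⟨N, N', hne, hNN⟩ := Fintype.exists_ne_map_eq_of_card_lt t (by simp)
  have e1 := ht N
  have e2 := ht N'
  rw [← hNN] at e2
  have e3 : l (t N) * Complex.exp
      (((-Complex.log l0 + (N' : ℕ) * (2 * Real.pi * Complex.I)) / (b * Real.log ‖l0‖)) *
        (b * Real.log ‖l (t N)‖)) = l (t N) * Complex.exp
      (((-Complex.log l0 + (N : ℕ) * (2 * Real.pi * Complex.I)) / (b * Real.log ‖l0‖)) *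
        (b * Real.log ‖l (t N)‖)) := by rw [e1, e2]
  have e4 := mul_left_cancel₀ (hl (t N)).1 e3
  rw [Complex.exp_eq_exp_iff_exists_int] at e4
  obtain ⟨m, hm⟩ := e4
  have hpi : (2 * Real.pi * Complex.I : ℂ) ≠ 0 := Complex.two_pi_I_ne_zero
  have e5 : (((N' : ℕ) : ℂ) - ((N : ℕ) : ℂ)) * (Real.log ‖l (t N)‖ : ℝ) =
      (m : ℂ) * (Real.log ‖l0‖ : ℝ) := by
    have e6 : (2 * Real.pi * Complex.I : ℂ) * ((((N' : ℕ) : ℂ) - ((N : ℕ) : ℂ)) *
        (Real.log ‖l (t N)‖ : ℝ)) = (2 * Real.pi * Complex.I : ℂ) *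
          ((m : ℂ) * (Real.log ‖l0‖ : ℝ)) := by
      have e7 : (((-Complex.log l0 + (N' : ℕ) * (2 * Real.pi * Complex.I)) /
          (b * Real.log ‖l0‖)) * (b * Real.log ‖l (t N)‖) -
          ((-Complex.log l0 + (N : ℕ) * (2 * Real.pi * Complex.I)) / (b * Real.log ‖l0‖)) *
          (b * Real.log ‖l (t N)‖)) * Real.log ‖l0‖ =
          (m * (2 * Real.pi * Complex.I)) * Real.log ‖l0‖ := by
        rw [hm]
        ring
      rw [← sub_mul] at e7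
      have e8 : ((-Complex.log l0 + (N' : ℕ) * (2 * Real.pi * Complex.I)) /
          (b * Real.log ‖l0‖) - (-Complex.log l0 + (N : ℕ) * (2 * Real.pi * Complex.I)) /
          (b * Real.log ‖l0‖)) * (b * Real.log ‖l (t N)‖) * Real.log ‖l0‖ =
          (2 * Real.pi * Complex.I : ℂ) * ((((N' : ℕ) : ℂ) - ((N : ℕ) : ℂ)) *
        (Real.log ‖l (t N)‖ : ℝ)) := by
        field_simp
        ring
      rw [e8] at e7
      rw [e7]
      ring
    exact mul_left_cancel₀ hpi e6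
  have e9 : (((N' : ℕ) : ℝ) - ((N : ℕ) : ℝ)) * Real.log ‖l (t N)‖ = (m : ℝ) * Real.log ‖l0‖ := by
    exact_mod_cast e5
  have hLt : Real.log ‖l (t N)‖ ≠ 0 :=
    Real.log_ne_zero_of_pos_of_ne_one (norm_pos_iff.2 (hl (t N)).1) (hl (t N)).2
  have hd : (N' : ℕ) ≠ (N : ℕ) := fun hh => hne (Fin.ext hh.symm)
  have hd' : (((N' : ℕ) : ℤ) - ((N : ℕ) : ℤ)) ≠ 0 := by omega
  have hm0 : m ≠ 0 := by
    rintro rfl
    rw [Int.cast_zero, zero_mul] at e9
    rcases mul_eq_zero.1 e9 with h5 | h5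
    · exact hd (by exact_mod_cast sub_eq_zero.1 h5)
    · exact hLt h5
  refine ⟨t N, (((N' : ℕ) : ℤ) - ((N : ℕ) : ℤ)).natAbs, m.natAbs, Int.natAbs_pos.2 hd', ?_,
    Int.natAbs_pos.2 hm0, ?_⟩
  · have := N.2
    have := N'.2
    omega
  · have e10 := congrArg abs e9
    rw [abs_mul, abs_mul] at e10
    rw [Nat.cast_natAbs, Nat.cast_natAbs, Int.cast_abs, Int.cast_abs, ← e10]
    push_cast
    rfl

end XT

end FB
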