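import Pool.Agent.H.MP_fb873c_an.D2m1
import Pool.Agent.H.MP_fb873c_an.E2d
import Pool.Agent.H.MP_fb873c_an.L6a
import Pool.Agent.H.MP_fb873c_an.Y3
import Pool.Agent.H.MP_fb873c_an.Z3b

/-!
# Part Y4b: the Lefschetz numbers of the iterates as traces
-/

namespace FB

open scoped Topology ContDiff Manifold
open Filter

universe u

/-- `H q = HT T M q` for the de Rham type `T` (`exists_drTy`), `S g q = FT T M g q` (`FT_iterate` (file Z3b), `qtr_FT`, `lefN_eq`), as in `euler_eq_zero` (file Z4).  Finite dimension: `finiteDimensional_HT`. -/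
theorem exists_traces (n : ℕ) (M : Type u) [TopologicalSpace M] [ChartedSpace (Er n) M]
    [IsManifold (𝓡 n) ∞ M] [CompactSpace M] [T2Space M] :
    ∃ (H : ℕ → Type u) (_ : ∀ q, AddCommGroup (H q)) (_ : ∀ q, Module ℂ (H q))
      (_ : ∀ q, FiniteDimensional ℂ (H q)) (S : Dif n M → ∀ q, H q →ₗ[ℂ] H q),
      ∀ (g : Dif n M) (k : ℕ), LefN n (itr g k) = ∑ q ∈ Finset.range (n + 1),
        (-1 : ℂ) ^ q * LinearMap.trace ℂ (H q) (S g q ^ k) := by
  obtain ⟨T, -, -, hgood, hT⟩ := exists_drTy (Er n)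
  have hM : TGood T M := by
    intro x0 x1 p _ _
    rw [hgood]
    trivial
  have hT1 : ∀ L : Er n →L[ℝ] Er n, L ∈ T.good := fun L => by rw [hgood]; trivial
  have hfd : ∀ q, FiniteDimensional ℂ (HT T hM q) := fun q => finiteDimensional_HT T hM (hT1 _) q
  refine ⟨fun q => HT T hM q, fun q => inferInstance, fun q => inferInstance, hfd,
    fun g q => FT T hM g g.contMDiff (fun p => hT1 _) q, ?_⟩
  intro g k
  have hs : ∀ k, ContMDiff (𝓡 n) (𝓡 n) ∞ ((g : M → M)^[k]) := fun k => D2m1_iterate g k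
  have h1 : LefN n (itr g k) = LefN n ((g : M → M)^[k]) := rfl
  rw [h1]
  unfold LefN
  refine Finset.sum_congr rfl fun q _ => ?_
  rw [qtr_FT T hT hM (hs k) (fun p => hT1 _) q,
    FT_iterate T hM g.contMDiff (fun p => hT1 _) hs (fun k p => hT1 _) k q]

end FB
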