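import Mathlib

/-!
# Part Y4c: uniqueness of the recurrence
-/

namespace FB

open scoped Topology ContDiff Manifold
open Filter

universe u

/-- As `trace_recurrence` (file B4), with the degree of `χ = ∏_q charpoly (T q)`. -/
theorem trace_recurrence' (R : ℕ) (H : ℕ → Type*) [∀ q, AddCommGroup (H q)]
    [∀ q, Module ℂ (H q)] [∀ q, FiniteDimensional ℂ (H q)] (T : ∀ q, H q →ₗ[ℂ] H q) :
    ∃ χ : Polynomial ℂ, χ.Monic ∧
      χ.natDegree = ∑ q ∈ Finset.range (R + 1), Module.finrank ℂ (H q) ∧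
      ∀ j : ℕ, ∑ l ∈ Finset.range (χ.natDegree + 1), χ.coeff l *
        (∑ q ∈ Finset.range (R + 1), (-1 : ℂ) ^ q * LinearMap.trace ℂ (H q) (T q ^ (j + l))) = 0 := by
  classical
  obtain ⟨p, hp⟩ : ∃ p : Polynomial ℂ, p = ∏ q ∈ Finset.range (R + 1), (T q).charpoly := ⟨_, rfl⟩
  have hmon : p.Monic := by
    rw [hp]
    exact Polynomial.monic_prod_of_monic _ _ fun q _ => LinearMap.charpoly_monic (T q)
  have hdeg : p.natDegree = ∑ q ∈ Finset.range (R + 1), Module.finrank ℂ (H q) := by
    rw [hp, Polynomial.natDegree_prod_of_monic _ _ fun q _ => LinearMap.charpoly_monic (T q)]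
    exact Finset.sum_congr rfl fun q _ => LinearMap.charpoly_natDegree (T q)
  have hzero : ∀ q ∈ Finset.range (R + 1),
      ∑ i ∈ Finset.range (p.natDegree + 1), p.coeff i • (T q) ^ i = 0 := by
    intro q hq
    rw [← Polynomial.aeval_eq_sum_range (T q)]
    have hdvd : (T q).charpoly ∣ p := by
      rw [hp]
      exact Finset.dvd_prod_of_mem _ hq
    obtain ⟨r, hr⟩ := hdvd
    rw [hr, map_mul, LinearMap.aeval_self_charpoly, zero_mul]
  refine ⟨p, hmon, hdeg, fun j => ?_⟩
  have h1 : ∀ l ∈ Finset.range (p.natDegree + 1), p.coeff l *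
      (∑ q ∈ Finset.range (R + 1), (-1 : ℂ) ^ q * LinearMap.trace ℂ (H q) (T q ^ (j + l))) =
      ∑ q ∈ Finset.range (R + 1), (-1 : ℂ) ^ q *
        (p.coeff l * LinearMap.trace ℂ (H q) (T q ^ (j + l))) := by
    intro l _
    rw [Finset.mul_sum]
    refine Finset.sum_congr rfl fun q _ => ?_
    ring
  rw [Finset.sum_congr rfl h1, Finset.sum_comm]
  refine Finset.sum_eq_zero fun q hq => ?_
  rw [← Finset.mul_sum]
  have h2 : ∑ l ∈ Finset.range (p.natDegree + 1), p.coeff l *
      LinearMap.trace ℂ (H q) (T q ^ (j + l)) =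
      LinearMap.trace ℂ (H q) (T q ^ j *
        ∑ i ∈ Finset.range (p.natDegree + 1), p.coeff i • (T q) ^ i) := by
    rw [Finset.mul_sum, map_sum]
    refine Finset.sum_congr rfl fun i _ => ?_
    rw [mul_smul_comm, map_smul, smul_eq_mul, pow_add]
  rw [h2, hzero q hq, mul_zero, map_zero, mul_zero]

/-- The shift of sequences. -/
noncomputable def Y4c_sh : Module.End ℂ (ℕ → ℂ) := LinearMap.funLeft ℂ ℂ Nat.succ

theorem Y4c_pow (l : ℕ) : ∀ (a : ℕ → ℂ) (j : ℕ), (Y4c_sh ^ l) a j = a (j + l) := by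
  induction l with
  | zero => intro a j; simp
  | succ l ih =>
    intro a j
    rw [pow_succ, Module.End.mul_apply, ih]
    rfl

theorem Y4c_aeval (p : Polynomial ℂ) (a : ℕ → ℂ) (j : ℕ) :
    (Polynomial.aeval Y4c_sh p) a j =
      ∑ l ∈ Finset.range (p.natDegree + 1), p.coeff l * a (j + l) := by
  rw [Polynomial.aeval_eq_sum_range, LinearMap.sum_apply, Finset.sum_apply]
  refine Finset.sum_congr rfl fun l _ => ?_
  rw [LinearMap.smul_apply, Pi.smul_apply, smul_eq_mul, Y4c_pow]

/-- If `a` satisfies the recurrence of `χ` and `b` that of `χ'`, then `a` and `b` satisfy that of `χ * χ'` (monic of degree `D = deg χ + deg χ'`): the coefficients of the product are the convolution.  So `s = a - b` does, and if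
`s k = 0` for `1 ≤ k ≤ D`, then by induction `s k = 0` for all `k ≥ 1` (the leading coefficient is `1`). -/
theorem rec_unique {χ χ' : Polynomial ℂ} (h1 : χ.Monic) (h2 : χ'.Monic) {a b : ℕ → ℂ}
    (ha : ∀ j : ℕ, ∑ l ∈ Finset.range (χ.natDegree + 1), χ.coeff l * a (j + l) = 0)
    (hb : ∀ j : ℕ, ∑ l ∈ Finset.range (χ'.natDegree + 1), χ'.coeff l * b (j + l) = 0)
    (h : ∀ k, 0 < k → k ≤ χ.natDegree + χ'.natDegree → a k = b k) : ∀ k, 0 < k → a k = b k := by
  have za : Polynomial.aeval Y4c_sh χ a = 0 := by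
    funext j
    rw [Y4c_aeval, ha j]
    rfl
  have zb : Polynomial.aeval Y4c_sh χ' b = 0 := by
    funext j
    rw [Y4c_aeval, hb j]
    rfl
  have zs : Polynomial.aeval Y4c_sh (χ * χ') (a - b) = 0 := by
    have e1 : Polynomial.aeval Y4c_sh (χ * χ') a = 0 := by
      rw [mul_comm, map_mul, Module.End.mul_apply, za, map_zero]
    have e2 : Polynomial.aeval Y4c_sh (χ * χ') b = 0 := by
      rw [map_mul, Module.End.mul_apply, zb, map_zero]
    rw [map_sub, e1, e2, sub_zero]
  have hmon : (χ * χ').Monic := h1.mul h2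
  have hdeg : (χ * χ').natDegree = χ.natDegree + χ'.natDegree := h1.natDegree_mul h2
  have hlead : (χ * χ').coeff (χ * χ').natDegree = 1 := hmon
  have key : ∀ j, (a - b) (j + (χ * χ').natDegree) =
      - ∑ l ∈ Finset.range (χ * χ').natDegree, (χ * χ').coeff l * (a - b) (j + l) := by
    intro j
    have e := congrFun zs j
    rw [Y4c_aeval, Finset.sum_range_succ, hlead, one_mul, Pi.zero_apply] at e
    rw [eq_neg_iff_add_eq_zero, add_comm]
    exact e
  have main : ∀ k, 0 < k → (a - b) k = 0 := by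
    intro k
    induction k using Nat.strong_induction_on with
    | _ k ih =>
      intro hk
      by_cases hkD : k ≤ χ.natDegree + χ'.natDegree
      · rw [Pi.sub_apply, h k hk hkD, sub_self]
      · obtain ⟨j, hj⟩ : ∃ j, k = j + (χ * χ').natDegree := ⟨k - (χ * χ').natDegree, by omega⟩
        rw [hj, key j]
        rw [neg_eq_zero]
        refine Finset.sum_eq_zero fun l hl => ?_
        rw [Finset.mem_range] at hl
        rw [ih (j + l) (by omega) (by omega), mul_zero]
  intro k hk
  have e := main k hk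
  rw [Pi.sub_apply] at e
  exact sub_eq_zero.1 e

end FB
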