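import Pool.Agent.H.MP_fb873c_an.Y4a
import Pool.Agent.H.MP_fb873c_an.Y4b
import Pool.Agent.H.MP_fb873c_an.Y4c
import Pool.Agent.H.MP_fb873c_an.Y5a
import Pool.Agent.H.MP_fb873c_an.Y5c

/-!
# Part Y5: finitely many periodic points, robustly
-/

namespace FB

open scoped Topology ContDiff Manifold
open Filter

universe u

variable {n : ℕ} {M : Type u} [TopologicalSpace M] [ChartedSpace (Er n) M]
  [IsManifold (𝓡 n) ∞ M] [CompactSpace M] [T2Space M]

omit [IsManifold (𝓡 n) ∞ M] [CompactSpace M] [T2Space M] in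
theorem Y5_ndg {F : M → M} {x : M}
    (h : 0 < LinearMap.det ((ContinuousLinearMap.id ℝ (Er n) - dfix (n := n) F x :
      Er n →L[ℝ] Er n)).toLinearMap) : Ndg (n := n) F x := by
  intro h0
  have h1 : ((ContinuousLinearMap.id ℝ (Er n) - dfix (n := n) F x :
      Er n →L[ℝ] Er n)).toLinearMap =
      (-1 : ℝ) • ((dfix (n := n) F x - ContinuousLinearMap.id ℝ (Er n) :
        Er n →L[ℝ] Er n)).toLinearMap := by
    ext v : 1
    simp
  rw [h1, LinearMap.det_smul, h0, mul_zero] at h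
  exact lt_irrefl _ h

omit [IsManifold (𝓡 n) ∞ M] [CompactSpace M] [T2Space M] in
theorem Y5_itr_mul {g : Dif n M} {k : ℕ} {x : M} (h : itr g k x = x) (m : ℕ) :
    itr g (k * m) x = x := by
  have h1 : Function.IsPeriodicPt (g : M → M) k x := h
  exact h1.mul_const m

omit [IsManifold (𝓡 n) ∞ M] [CompactSpace M] [T2Space M] in
theorem Y5_period {f : Dif n M} (hfin : {x | ∃ k, 0 < k ∧ itr f k x = x}.Finite) :
    ∃ N, 0 < N ∧ ∀ (x : M) (k : ℕ), 0 < k → itr f k x = x → itr f N x = x := by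
  classical
  have h1 : ∀ x : M, ∃ k, 0 < k ∧ ((∃ k, 0 < k ∧ itr f k x = x) → itr f k x = x) := by
    intro x
    by_cases h : ∃ k, 0 < k ∧ itr f k x = x
    · obtain ⟨k, h2, h3⟩ := h
      exact ⟨k, h2, fun _ => h3⟩
    · exact ⟨1, one_pos, fun h' => absurd h' h⟩
  choose per hper0 hper using h1
  refine ⟨∏ x ∈ hfin.toFinset, per x, Finset.prod_pos fun x _ => hper0 x, ?_⟩
  intro x k hk hx
  have h2 : x ∈ hfin.toFinset := hfin.mem_toFinset.2 ⟨k, hk, hx⟩
  obtain ⟨m, hm⟩ := Finset.dvd_prod_of_mem per h2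
  rw [hm]
  exact Y5_itr_mul (hper x ⟨k, hk, hx⟩) m

/-- Let `N > 0` be a common multiple of the periods of the (finitely many) periodic points of `f`, `H, S` from `exists_traces`, `D = 2 ∑ dim H q`.  Let `O` be a `C^1`-open set containing `f` such that for `g ∈ O`: `g^k` has as many fixed points
as `f^k` for `0 < k ≤ D` (`card_nhds`; finite intersection), and all fixed points of `g^N` are hyperbolic (`hyp_fix_nhds`).  Let `g ∈ O`, `PosNd g`.  By `card_fix` the Lefschetz numbers of `g^k` and `f^k` agree for `0 < k ≤ D`, hence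
for all `k > 0` (`trace_recurrence'`, `rec_unique`), and by `card_fix` again `g^k` and `f^k` have the same number of fixed points for all `k > 0`.  If `g^k x = x`, `k > 0`, then `x ∈ Fix (g^(N k))`, and
`#Fix (g^(N k)) = #Fix (f^(N k)) = #Fix (f^N) = #Fix (g^N)`, finite, so `Fix (g^(N k)) = Fix (g^N)` and `g^N x = x`. -/
theorem fin_robust {f : Dif n M} (hpos : PosNd f)
    (hhyp : ∀ (x : M) (k : ℕ), 0 < k → itr f k x = x → Hyp (dfix (n := n) (itr f k) x))
    (hfin : {x | ∃ k, 0 < k ∧ itr f k x = x}.Finite) :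
    ∃ (N : ℕ) (O : Set (Dif n M)), 0 < N ∧ IsOpen[crTop n M 1] O ∧ f ∈ O ∧
      ∀ g ∈ O, PosNd g → PerHyp N g := by
  obtain ⟨N, hN, hNx⟩ := Y5_period hfin
  obtain ⟨H, i1, i2, i3, S, hS⟩ := exists_traces n M
  set D := ∑ q ∈ Finset.range (n + 1), Module.finrank ℂ (H q) with hD
  have hnhds : ∀ᶠ g : Dif n M in @nhds _ (crTop n M 1) f,
      (∀ k ∈ Finset.Icc 1 (D + D), {x | itr g k x = x}.ncard = {x | itr f k x = x}.ncard) ∧
      ∀ x, itr g N x = x → Hyp (dfix (n := n) (itr g N) x) := by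
    refine Filter.Eventually.and ?_ (hyp_fix_nhds fun x hx => hhyp x N hN hx)
    rw [Filter.eventually_all_finset]
    intro k hk
    exact card_nhds fun x hx => Y5_ndg (hpos x k (Finset.mem_Icc.1 hk).1 hx)
  obtain ⟨O, hO1, hO2, hO3⟩ := (@mem_nhds_iff _ (crTop n M 1) f _).1 hnhds
  refine ⟨N, O, hN, hO2, hO3, ?_⟩
  intro g hg hgpos
  obtain ⟨hg1, hg2⟩ := hO1 hg
  have hc : ∀ {e : Dif n M}, PosNd e → ∀ k, 0 < k → {x | itr e k x = x}.Finite ∧
      (({x | itr e k x = x}.ncard : ℕ) : ℂ) = LefN n (itr e k) := fun he k hk =>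
    card_fix fun x hx => he x k hk hx
  obtain ⟨χ, h1, h2, h3⟩ := trace_recurrence' n H (S g)
  obtain ⟨χ', h1', h2', h3'⟩ := trace_recurrence' n H (S f)
  have hlef : ∀ k, 0 < k → (∑ q ∈ Finset.range (n + 1), (-1 : ℂ) ^ q *
      LinearMap.trace ℂ (H q) (S g q ^ k)) = ∑ q ∈ Finset.range (n + 1), (-1 : ℂ) ^ q *
        LinearMap.trace ℂ (H q) (S f q ^ k) := by
    refine rec_unique (a := fun k => ∑ q ∈ Finset.range (n + 1), (-1 : ℂ) ^ q *
      LinearMap.trace ℂ (H q) (S g q ^ k)) (b := fun k => ∑ q ∈ Finset.range (n + 1),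
        (-1 : ℂ) ^ q * LinearMap.trace ℂ (H q) (S f q ^ k)) h1 h1' h3 h3' ?_
    intro k hk0 hk
    rw [h2, h2', ← hD] at hk
    show (∑ q ∈ Finset.range (n + 1), (-1 : ℂ) ^ q *
      LinearMap.trace ℂ (H q) (S g q ^ k)) = ∑ q ∈ Finset.range (n + 1), (-1 : ℂ) ^ q *
        LinearMap.trace ℂ (H q) (S f q ^ k)
    rw [← hS g k, ← hS f k, ← (hc hgpos k hk0).2, ← (hc hpos k hk0).2,
      hg1 k (Finset.mem_Icc.2 ⟨hk0, hk⟩)]
  have hcard : ∀ k, 0 < k → {x | itr g k x = x}.ncard = {x | itr f k x = x}.ncard := by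
    intro k hk
    have h4 : (({x | itr g k x = x}.ncard : ℕ) : ℂ) = (({x | itr f k x = x}.ncard : ℕ) : ℂ) := by
      rw [(hc hgpos k hk).2, (hc hpos k hk).2, hS g k, hS f k, hlef k hk]
    exact_mod_cast h4
  intro x k hk hx
  have hNk : 0 < N * k := Nat.mul_pos hN hk
  have e1 : {x | itr f (N * k) x = x} = {x | itr f N x = x} := by
    ext y
    exact ⟨fun hy => hNx y (N * k) hNk hy, fun hy => Y5_itr_mul hy k⟩
  have e2 : {x | itr g N x = x} = {x | itr g (N * k) x = x} := by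
    refine Set.eq_of_subset_of_ncard_le (fun y hy => Y5_itr_mul hy k) ?_ (hc hgpos _ hNk).1
    rw [hcard _ hNk, hcard _ hN, e1]
  have e3 : x ∈ {x | itr g (N * k) x = x} := by
    have h5 : itr g (k * N) x = x := Y5_itr_mul hx N
    rw [mul_comm] at h5
    exact h5
  rw [← e2] at e3
  exact ⟨e3, hg2 x e3⟩

end FB
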