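import Pool.Agent.H.MP_fb873c_an.X0
import Pool.Agent.H.MP_fb873c_an.Y5

/-!
# Part X3: the Lefschetz numbers of nearby diffeomorphisms
-/

namespace FB

open scoped Topology ContDiff Manifold
open Filter

universe u

variable {n : ℕ} {M : Type u} [TopologicalSpace M] [ChartedSpace (Er n) M]
  [IsManifold (𝓡 n) ∞ M] [CompactSpace M] [T2Space M]

/-- The set of all `A` with `0 < det (1 - A)` is open. -/
theorem X3_nhds {κ : Type*} {l : Filter κ} {A : κ → (Er n →L[ℝ] Er n)} {A0 : Er n →L[ℝ] Er n}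
    (hA : Tendsto A l (𝓝 A0))
    (h : 0 < LinearMap.det ((ContinuousLinearMap.id ℝ (Er n) - A0 :
      Er n →L[ℝ] Er n)).toLinearMap) :
    ∀ᶠ i in l, 0 < LinearMap.det ((ContinuousLinearMap.id ℝ (Er n) - A i :
      Er n →L[ℝ] Er n)).toLinearMap := by
  have h1 : Continuous fun B : Er n →L[ℝ] Er n => ContinuousLinearMap.det
      (ContinuousLinearMap.id ℝ (Er n) - B) :=
    ContinuousLinearMap.continuous_det.comp (continuous_const.sub continuous_id)
  have h2 : Tendsto (fun i => ContinuousLinearMap.det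
      (ContinuousLinearMap.id ℝ (Er n) - A i)) l (𝓝 (ContinuousLinearMap.det
      (ContinuousLinearMap.id ℝ (Er n) - A0))) := (h1.tendsto A0).comp hA
  exact h2.eventually (lt_mem_nhds h)

/-- `0 < det (1 - A)` is invariant under conjugation. -/
theorem X3_conj {A : Er n →L[ℝ] Er n} (e : Er n ≃L[ℝ] Er n)
    (h : 0 < LinearMap.det ((ContinuousLinearMap.id ℝ (Er n) - A :
      Er n →L[ℝ] Er n)).toLinearMap) :
    0 < LinearMap.det ((ContinuousLinearMap.id ℝ (Er n) -
      ((e : Er n →L[ℝ] Er n) ∘L A ∘L (e.symm : Er n →L[ℝ] Er n)) :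
      Er n →L[ℝ] Er n)).toLinearMap := by
  have h1 : ((ContinuousLinearMap.id ℝ (Er n) -
      ((e : Er n →L[ℝ] Er n) ∘L A ∘L (e.symm : Er n →L[ℝ] Er n)) :
      Er n →L[ℝ] Er n)).toLinearMap =
      (e.toLinearEquiv : Er n →ₗ[ℝ] Er n) ∘ₗ ((ContinuousLinearMap.id ℝ (Er n) - A :
      Er n →L[ℝ] Er n)).toLinearMap ∘ₗ (e.toLinearEquiv.symm : Er n →ₗ[ℝ] Er n) := by
    ext v : 1
    simp
  rw [h1, LinearMap.det_conj]
  exact h

/-- Positivity of `det (1 - dfix F x)` read off in any chart. -/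
theorem X3_iff {n : ℕ} {M : Type u} [TopologicalSpace M] [ChartedSpace (Er n) M]
    [IsManifold (𝓡 n) ∞ M] {F : M → M} {x : M}
    (hF : ContMDiffAt (𝓡 n) (𝓡 n) 1 F x) (hx : F x = x) {φ : OpenPartialHomeomorph M (Er n)}
    (hφ : φ ∈ atlas (Er n) M) (h1 : x ∈ φ.source)
    (h : 0 < LinearMap.det ((ContinuousLinearMap.id ℝ (Er n) -
      fderiv ℝ (φ ∘ F ∘ φ.symm) (φ x) : Er n →L[ℝ] Er n)).toLinearMap) :
    0 < LinearMap.det ((ContinuousLinearMap.id ℝ (Er n) - dfix (n := n) F x :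
      Er n →L[ℝ] Er n)).toLinearMap := by
  obtain ⟨e, he⟩ := D1_conj hF hx hφ h1
  have h2 := X3_conj e.symm h
  rw [he] at h2
  have h3 : ((e.symm : Er n ≃L[ℝ] Er n) : Er n →L[ℝ] Er n) ∘L
      ((e : Er n →L[ℝ] Er n).comp ((dfix F x).comp (e.symm : Er n →L[ℝ] Er n))) ∘L
      (e.symm.symm : Er n →L[ℝ] Er n) = dfix F x := by
    ext v
    simp
  rwa [h3] at h2

/-- Positivity of `det (1 - dfix F x)` at all fixed points is an open condition along a
`C¹`-convergent family. -/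
theorem X3_cv {n : ℕ} {M : Type u} [TopologicalSpace M] [ChartedSpace (Er n) M]
    [IsManifold (𝓡 n) ∞ M] [T2Space M] {ι : Type*} {l : Filter ι} {F : ι → M → M} {F0 : M → M}
    (hF : CV n l F F0) (sF : ∀ i, C1 n (F i)) {K : Set M} (hK : IsCompact K)
    (h0 : ∀ x ∈ K, F0 x = x → 0 < LinearMap.det
      ((ContinuousLinearMap.id ℝ (Er n) - dfix (n := n) F0 x :
        Er n →L[ℝ] Er n)).toLinearMap) :
    ∀ᶠ i in l, ∀ x ∈ K, F i x = x → 0 < LinearMap.det
      ((ContinuousLinearMap.id ℝ (Er n) - dfix (n := n) (F i) x :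
        Er n →L[ℝ] Er n)).toLinearMap := by
  have h1 : {p : ι × M | F p.1 p.2 = p.2 → 0 < LinearMap.det
      ((ContinuousLinearMap.id ℝ (Er n) - dfix (n := n) (F p.1) p.2 :
        Er n →L[ℝ] Er n)).toLinearMap} ∈ l ×ˢ 𝓝ˢ K := by
    refine hK.mem_prod_nhdsSet_of_forall fun y hy => ?_
    by_cases hyy : F0 y = y
    · have hφ1 : chartAt (Er n) y ∈ atlas (Er n) M := chart_mem_atlas _ _
      have h2 : y ∈ (chartAt (Er n) y).source := mem_chart_source _ _
      have h3 := hF.tendD y _ _ hφ1 hφ1 h2 (by rw [hyy]; exact h2)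
      have h7 := X3_nhds h3 (h0 y hy hyy)
      have h8 : ∀ᶠ p : ι × M in l ×ˢ 𝓝 y, p.2 ∈ (chartAt (Er n) y).source :=
        tendsto_snd.eventually_mem ((chartAt (Er n) y).open_source.mem_nhds h2)
      filter_upwards [h7, h8] with p q1 q2 q3
      exact X3_iff (sF p.1 p.2) q3 hφ1 q2 q1
    · have h2 : Tendsto (fun p : ι × M => (F p.1 p.2, p.2)) (l ×ˢ 𝓝 y) (𝓝 (F0 y, y)) :=
        (hF.tend y).prodMk_nhds tendsto_snd
      have h3 : IsOpen {q : M × M | q.1 ≠ q.2} := isOpen_ne_fun continuous_fst continuous_snd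
      filter_upwards [h2.eventually_mem (h3.mem_nhds hyy)] with p hp hq
      exact absurd hq hp
  obtain ⟨s, hs, t, ht, hst⟩ := Filter.mem_prod_iff.1 h1
  filter_upwards [hs] with i hi x hx
  exact hst (Set.mk_mem_prod hi (subset_of_mem_nhdsSet ht hx))

/-- `0 < det` at all fixed points is an open condition: as `hyp_fix_nhds` (file Y5c), or: the fixed points of `g^k`, `g → f`, are the continuations of those of `f^k` (`D1_fix`, file D1f) and `det (1 - dfix (g^k) (y x g)) → det (1 - dfix (f^k) x)`. -/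
theorem pos_nhds {f : Dif n M} {k : ℕ}
    (hpos : ∀ x, itr f k x = x → 0 < LinearMap.det
      ((ContinuousLinearMap.id ℝ (Er n) - dfix (n := n) (itr f k) x :
        Er n →L[ℝ] Er n)).toLinearMap) :
    ∀ᶠ g : Dif n M in @nhds _ (crTop n M 1) f, ∀ x, itr g k x = x → 0 < LinearMap.det
      ((ContinuousLinearMap.id ℝ (Er n) - dfix (n := n) (itr g k) x :
        Er n →L[ℝ] Er n)).toLinearMap := by
  obtain ⟨-, hF, sF⟩ := D4a_cv (n := n) k (le_refl (@nhds _ (crTop n M 1) f))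
  have h1 := X3_cv hF sF isCompact_univ (fun x _ hx => hpos x hx)
  filter_upwards [h1] with g hg x hx
  exact hg x (Set.mem_univ x) hx

/-- See the proof of `fin_robust` (file Y5): `H, S` from `exists_traces` (file Y4b), `D = 2 ∑ dim H q`; for `g` near `f` and `0 < k ≤ D` : the fixed points of `g^k` have positive determinant (`pos_nhds`), and `g^k` has as many fixed points as `f^k` (`card_nhds`), so
by `card_fix` (file Y4a) the Lefschetz numbers of `g^k` and `f^k` agree for `0 < k ≤ D`, hence for all `k > 0` (`trace_recurrence'`, `rec_unique`, file Y4c). -/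
theorem lefN_nhds {f : Dif n M} (hpos : PosNd f) :
    ∀ᶠ g : Dif n M in @nhds _ (crTop n M 1) f,
      ∀ k, 0 < k → LefN n (itr g k) = LefN n (itr f k) := by
  obtain ⟨H, i1, i2, i3, S, hS⟩ := exists_traces n M
  set D := ∑ q ∈ Finset.range (n + 1), Module.finrank ℂ (H q) with hD
  have hnhds : ∀ᶠ g : Dif n M in @nhds _ (crTop n M 1) f,
      ∀ k ∈ Finset.Icc 1 (D + D), {x | itr g k x = x}.ncard = {x | itr f k x = x}.ncard ∧
        ∀ x, itr g k x = x → 0 < LinearMap.det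
          ((ContinuousLinearMap.id ℝ (Er n) - dfix (n := n) (itr g k) x :
            Er n →L[ℝ] Er n)).toLinearMap := by
    rw [Filter.eventually_all_finset]
    intro k hk
    have hk0 : 0 < k := (Finset.mem_Icc.1 hk).1
    exact (card_nhds fun x hx => Y5_ndg (hpos x k hk0 hx)).and
      (pos_nhds fun x hx => hpos x k hk0 hx)
  filter_upwards [hnhds] with g hg
  obtain ⟨χ, h1, h2, h3⟩ := trace_recurrence' n H (S g)
  obtain ⟨χ', h1', h2', h3'⟩ := trace_recurrence' n H (S f)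
  have hlef : ∀ k, 0 < k → (∑ q ∈ Finset.range (n + 1), (-1 : ℂ) ^ q *
      LinearMap.trace ℂ (H q) (S g q ^ k)) = ∑ q ∈ Finset.range (n + 1), (-1 : ℂ) ^ q *
        LinearMap.trace ℂ (H q) (S f q ^ k) := by
    refine rec_unique (a := fun k => ∑ q ∈ Finset.range (n + 1), (-1 : ℂ) ^ q *
      LinearMap.trace ℂ (H q) (S g q ^ k)) (b := fun k => ∑ q ∈ Finset.range (n + 1),
        (-1 : ℂ) ^ q * LinearMap.trace ℂ (H q) (S f q ^ k)) h1 h1' h3 h3' ?_
    intro k hk0 hk
    rw [h2, h2', ← hD] at hk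
    show (∑ q ∈ Finset.range (n + 1), (-1 : ℂ) ^ q *
      LinearMap.trace ℂ (H q) (S g q ^ k)) = ∑ q ∈ Finset.range (n + 1), (-1 : ℂ) ^ q *
        LinearMap.trace ℂ (H q) (S f q ^ k)
    obtain ⟨hc, hp⟩ := hg k (Finset.mem_Icc.2 ⟨hk0, hk⟩)
    rw [← hS g k, ← hS f k, ← (card_fix hp).2, ← (card_fix fun x hx => hpos x k hk0 hx).2, hc]
  intro k hk
  rw [hS g k, hS f k, hlef k hk]

end FB
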