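import Pool.Agent.H.MP_fb873c_an.X3

/-!
# Part X4: nearby diffeomorphisms are regular
-/

namespace FB

open scoped Topology ContDiff Manifold
open Filter

universe u

variable {n : ℕ} {M : Type u} [TopologicalSpace M] [ChartedSpace (Er n) M]
  [IsManifold (𝓡 n) ∞ M] [CompactSpace M] [T2Space M]

/-- A positive determinant of `1 - A` implies nondegeneracy. -/
theorem X4_ndg {F : M → M} {x : M}
    (h1 : 0 < LinearMap.det ((ContinuousLinearMap.id ℝ (Er n) - dfix (n := n) F x :
      Er n →L[ℝ] Er n)).toLinearMap) : Ndg (n := n) F x := by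
  intro h0
  have h2 : ((dfix (n := n) F x - ContinuousLinearMap.id ℝ (Er n) :
      Er n →L[ℝ] Er n)).toLinearMap = (-1 : ℝ) • ((ContinuousLinearMap.id ℝ (Er n) -
      dfix (n := n) F x : Er n →L[ℝ] Er n)).toLinearMap := by
    ext v
    simp
  have h3 : LinearMap.det ((dfix (n := n) F x - ContinuousLinearMap.id ℝ (Er n) :
      Er n →L[ℝ] Er n)).toLinearMap = 0 := h0
  rw [h2, LinearMap.det_smul] at h3
  rcases mul_eq_zero.1 h3 with h4 | h4
  · exact absurd h4 (pow_ne_zero _ (by norm_num))
  · exact absurd h4 h1.ne'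

/-- For `g` near `f`: `lefN_nhds` (file X3), `hyp_fix_nhds` (file Y5c) with `N = a`, `card_nhds` (file Y5a) with `k = a`.  If the fixed points of `g^k`, `k = a (1 + b j)`, have positive determinant, then by `card_fix` (file Y4a) their number is `L(g^k) = L(f^k) = c = L(f^a)`
(`j = 0`), which is the number of the fixed points of `f^a` (`card_fix`, `hpos`) and of `g^a`.  The fixed points of `g^a` are fixed points of `g^k`, so the two finite sets agree (`Set.eq_of_subset_of_ncard_le`). -/
theorem regA_nhds {f : Dif n M} (hpos : PosNd f) {a b : ℕ} (ha : 0 < a) {c : ℂ}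
    (hhyp : ∀ x, itr f a x = x → Hyp (dfix (n := n) (itr f a) x))
    (hL : ∀ j : ℕ, LefN n (itr f (a * (1 + b * j))) = c) :
    ∀ᶠ g : Dif n M in @nhds _ (crTop n M 1) f, RegA a b g := by
  have e1 := lefN_nhds hpos
  have e2 := hyp_fix_nhds (n := n) (N := a) hhyp
  have e3 := card_nhds (n := n) (f := f) (k := a) (fun x hx => X4_ndg (hpos x a ha hx))
  filter_upwards [e1, e2, e3] with g g1 g2 g3
  refine ⟨g2, fun j hj => ?_⟩
  have hk : 0 < a * (1 + b * j) := Nat.mul_pos ha (by omega)
  obtain ⟨hfin, hcard⟩ := card_fix hj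
  obtain ⟨-, hcard'⟩ := card_fix (g := f) (k := a) (fun x hx => hpos x a ha hx)
  have hc0 : LefN n (itr f a) = c := by
    have := hL 0
    simpa using this
  have hsub : {x | itr g a x = x} ⊆ {x | itr g (a * (1 + b * j)) x = x} := by
    intro x hx
    have h4 : Function.IsPeriodicPt (g : M → M) a x := hx
    exact h4.mul_const (1 + b * j)
  have hle : {x | itr g (a * (1 + b * j)) x = x}.ncard ≤ {x | itr g a x = x}.ncard := by
    have h5 : (({x | itr g (a * (1 + b * j)) x = x}.ncard : ℕ) : ℂ) =
        (({x | itr g a x = x}.ncard : ℕ) : ℂ) := by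
      rw [hcard, g1 _ hk, hL j, g3, hcard', hc0]
    exact le_of_eq (by exact_mod_cast h5)
  have heq := Set.eq_of_subset_of_ncard_le hsub hle hfin
  intro x hx
  have h6 : x ∈ {x | itr g (a * (1 + b * j)) x = x} := hx
  rw [← heq] at h6
  exact h6

end FB
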