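import Pool.Agent.H.MP_fb873c_an.D1h
import Pool.Agent.H.MP_fb873c_an.Y0
import Pool.Agent.H.MP_fb873c_an.Z4

/-!
# Part Y9: the index of the fixed points of a holomorphic map
-/

namespace FB

open scoped Topology ContDiff Manifold
open Filter

universe u

theorem Y9_pos {n : ℕ} {A : Er n →L[ℝ] Er n} {P : Polynomial ℂ} (h : HalfPoly A P)
    (hn : LinearMap.det ((A - ContinuousLinearMap.id ℝ (Er n) :
      Er n →L[ℝ] Er n)).toLinearMap ≠ 0) :
    0 < LinearMap.det ((ContinuousLinearMap.id ℝ (Er n) - A : Er n →L[ℝ] Er n)).toLinearMap := by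
  have h1 : (algebraMap ℝ (Module.End ℝ (Er n)) 1 - A.toLinearMap) =
      ((ContinuousLinearMap.id ℝ (Er n) - A : Er n →L[ℝ] Er n)).toLinearMap := by
    rw [map_one]
    rfl
  have h2 := D1h_charpoly A 1
  rw [h1, ← h.2, Polynomial.eval_mul, D1h_conj, Complex.mul_conj] at h2
  have h3 : LinearMap.det ((ContinuousLinearMap.id ℝ (Er n) - A :
      Er n →L[ℝ] Er n)).toLinearMap = Complex.normSq (P.eval ((1 : ℝ) : ℂ)) :=
    (Complex.ofReal_injective h2).symm
  have h4 : LinearMap.det ((ContinuousLinearMap.id ℝ (Er n) - A :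
      Er n →L[ℝ] Er n)).toLinearMap ≠ 0 := by
    intro h0
    apply hn
    have h5 : ((A - ContinuousLinearMap.id ℝ (Er n) : Er n →L[ℝ] Er n)).toLinearMap =
        (-1 : ℝ) • ((ContinuousLinearMap.id ℝ (Er n) - A : Er n →L[ℝ] Er n)).toLinearMap := by
      ext v
      simp
    rw [h5, LinearMap.det_smul, h0, mul_zero]
  rw [h3] at h4 ⊢
  exact lt_of_le_of_ne (Complex.normSq_nonneg _) h4.symm

variable {n : ℕ} {M : Type u} [TopologicalSpace M] [ChartedSpace (Er n) M]
  [IsManifold (𝓡 n) ∞ M] [CompactSpace M] [T2Space M]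

/-- `holo_data` (file Z4) with `n0 = k` gives `HalfPoly (dfix (f^k) x) (P x)`: `charpoly A = P * conj P`, evaluated at `1`: `det (1 - A) = P(1) conj (P(1)) = ‖P(1)‖^2 ≥ 0` (the real polynomial `charpoly A` at the real point `1`,
`LinearMap.eval_charpoly`-like, see `DF1b_charpoly` (file DF1b) or `D1h_charpoly` (file D1h)), and it is not `0` by hypothesis. -/
theorem preserves_posNd {f : Dif n M} {m : ℕ} {X : Type u} [TopologicalSpace X]
    [ChartedSpace (Ec m) X] [IsManifold 𝓘(ℂ, Ec m) ω X] (h : Preserves f m X)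
    (hnd : ∀ (x : M) (k : ℕ), 0 < k → itr f k x = x → Ndg (n := n) (itr f k) x) : PosNd f := by
  intro x k hk hx
  obtain ⟨R, H, i1, i2, i3, T, P, c, -, hP, -, -, -⟩ := holo_data f m X inferInstance h k
  exact Y9_pos (hP x hx).1 (hnd x k hk hx)

end FB
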