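import Pool.Agent.H.MP_fb873c_an.X2
import Pool.Agent.H.MP_fb873c_an.X4
import Pool.Agent.H.MP_fb873c_an.X5
import Pool.Agent.H.MP_fb873c_an.X6
import Pool.Agent.H.MP_fb873c_an.Y9
import Pool.Agent.H.MP_fb873c_an.Y11

/-!
# Part X7: the sets `U2` and `W2`
-/

namespace FB

open scoped Topology ContDiff Manifold
open Filter

universe u

variable {n : ℕ} {M : Type u} [TopologicalSpace M] [ChartedSpace (Er n) M]
  [IsManifold (𝓡 n) ∞ M] [CompactSpace M] [T2Space M]

omit [IsManifold (𝓡 n) ∞ M] [CompactSpace M] [T2Space M] in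
theorem isOpen_U2 : IsOpen[crTop n M 1] (U2 n M) := by
  let _ := crTop n M 1
  rw [isOpen_iff_mem_nhds]
  rintro h ⟨O, a, b, hO, hh, ha, hb, hP⟩
  exact Filter.mem_of_superset (hO.mem_nhds hh) (fun g hg => ⟨O, a, b, hO, hg, ha, hb, hP⟩)

omit [IsManifold (𝓡 n) ∞ M] [CompactSpace M] [T2Space M] in
/-- As `isOpen_W1` (file Y12). -/
theorem isOpen_W2 : IsOpen[crTop n M ⊤] (W2 n M) := by
  have h1 := D4_top (isOpen_U2 (n := n) (M := M))
  let _ := crTop n M ⊤
  rw [isOpen_iff_mem_nhds]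
  rintro h ⟨hh, V, hV, hhV, hP⟩
  refine Filter.mem_of_superset (Filter.inter_mem (h1.mem_nhds hh) (hV.mem_nhds hhV)) ?_
  rintro g ⟨hg1, hg2⟩
  exact ⟨hg1, V, hV, hg2, hP⟩

/-- `PosNd f` gives the hypothesis of `prog_contra` (file X2) by `RegA`. -/
theorem W2_not_preserves {f : Dif n M} (hf : f ∈ W2 n M) (m : ℕ) (X : Type u)
    [TopologicalSpace X] [ChartedSpace (Ec m) X] [IsManifold 𝓘(ℂ, Ec m) ω X] :
    ¬ Preserves f m X := by
  obtain ⟨⟨O, a, b, -, hfO, ha, hb, hP⟩, V, -, hfV, hPV⟩ := hf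
  obtain ⟨⟨r1, r2⟩, hG⟩ := hP f hfO
  exact prog_contra ha hb r1
    (fun j x hx => r2 j (fun y hy => hPV f hfV y _ (Nat.mul_pos ha (by omega)) hy) x hx) hG m X

/-- The determinant at a nondegenerate fixed point is positive: the proof of `preserves_posNd` (file Y9) for one point and one `k`. -/
theorem preserves_pos {f : Dif n M} {m : ℕ} {X : Type u} [TopologicalSpace X]
    [ChartedSpace (Ec m) X] [IsManifold 𝓘(ℂ, Ec m) ω X] (h : Preserves f m X) {x : M} {k : ℕ}
    (hx : itr f k x = x) (hnd : Ndg (n := n) (itr f k) x) : 0 < LinearMap.det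
      ((ContinuousLinearMap.id ℝ (Er n) - dfix (n := n) (itr f k) x :
        Er n →L[ℝ] Er n)).toLinearMap := by
  obtain ⟨R, H, i1, i2, i3, T, P, c, -, hP, -, -, -⟩ := holo_data f m X inferInstance h k
  exact Y9_pos (hP x hx).1 hnd

theorem X7_ndg {f : Dif n M} {a b N : ℕ} (ha : 0 < a)
    (r1 : ∀ x, itr f a x = x → Hyp (dfix (n := n) (itr f a) x))
    (hN : ∀ (x : M) (k j : ℕ), N ≤ k → MinPer f x k → 0 < j → Ndg (n := n) (itr f (k * j)) x)
    (j : ℕ) {y : M} (hy : itr f (a * (1 + b * N.factorial * j)) y = y) :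
    Ndg (n := n) (itr f (a * (1 + b * N.factorial * j))) y := by
  obtain ⟨k, hk⟩ : ∃ k, k = a * (1 + b * N.factorial * j) := ⟨_, rfl⟩
  have hk0 : 0 < k := by
    rw [hk]
    exact Nat.mul_pos ha (by omega)
  have hper : Function.IsPeriodicPt (f : M → M) k y := by
    rw [hk]
    exact hy
  have hpos : 0 < Function.minimalPeriod (f : M → M) y := hper.minimalPeriod_pos hk0
  have hfix : (f : M → M)^[Function.minimalPeriod (f : M → M) y] y = y :=
    Function.iterate_minimalPeriod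
  have hmin : MinPer f y (Function.minimalPeriod (f : M → M) y) :=
    ⟨hpos, hfix, fun i hi hlt he =>
      Function.not_isPeriodicPt_of_pos_of_lt_minimalPeriod hi.ne' hlt he⟩
  have hdvd := hper.minimalPeriod_dvd
  obtain ⟨q, hq⟩ : ∃ q, q = Function.minimalPeriod (f : M → M) y := ⟨_, rfl⟩
  rw [← hq] at hpos hfix hmin hdvd
  rcases le_or_gt N q with h1 | h1
  · obtain ⟨e, he⟩ := hdvd
    have he0 : 0 < e := by
      rcases Nat.eq_zero_or_pos e with h0 | h0
      · rw [h0] at he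
        omega
      · exact h0
    have h2 := hN y q e h1 hmin he0
    rw [← he, hk] at h2
    exact h2
  · have h2 : q ∣ N.factorial := Nat.dvd_factorial hpos h1.le
    have h3 : Nat.Coprime q (1 + b * N.factorial * j) := by
      obtain ⟨e, he⟩ := h2
      have h4 : 1 + b * N.factorial * j = 1 + q * (b * e * j) := by
        rw [he]
        ring
      rw [h4]
      simp
    have h4 : q ∣ a := by
      rw [hk] at hdvd
      exact h3.dvd_of_dvd_mul_right hdvd
    have h5 : (f : M → M)^[a] y = y := by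
      obtain ⟨e, he⟩ := h4
      have h6 : Function.IsPeriodicPt (f : M → M) q y := hfix
      have h7 := h6.mul_const e
      rw [← he] at h7
      exact h7
    have h6 := hyp_pow (r1 y h5) (k := 1 + b * N.factorial * j) (by omega)
    have h7 := dfix_iterate (n := n) f a (1 + b * N.factorial * j) h5
    have h8 : ((dfix (n := n) ((f : M → M)^[a * (1 + b * N.factorial * j)]) y -
        ContinuousLinearMap.id ℝ (Er n) : Er n →L[ℝ] Er n)).toLinearMap =
        (dfix (n := n) ((f : M → M)^[a * (1 + b * N.factorial * j)]) y).toLinearMap - 1 := by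
      ext v
      simp
    show LinearMap.det ((dfix (n := n) ((f : M → M)^[a * (1 + b * N.factorial * j)]) y -
        ContinuousLinearMap.id ℝ (Er n) : Er n →L[ℝ] Er n)).toLinearMap ≠ 0
    rw [h8, h7]
    exact h6

/-- Suppose `¬ DegInf f`: there is `N` such that for all `x`, `k`, `j` with `N ≤ k`, `MinPer f x k`, `0 < j`: `Ndg (itr f (k j)) x`.  `O, a, b` from `U2`, `RegA a b f`, `GoodR a f`; `b' = b * N!`.  Let `k = a (1 + b' j)` and `f^k x = x`, with minimal period `q`, `q ∣ k`.  If `q ≥ N`, `x` is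
nondegenerate for `f^k`.  If `q < N` then `q ∣ N!` is prime to `1 + b' j`, so `q ∣ a`, `f^a x = x`, hyperbolic, so again nondegenerate for `f^k` (`hyp_pow`, file B2a, `dfix_iterate`).  So by `preserves_pos` all the determinants for `f^k` are positive, and `RegA a b f` (with `b' j = b (N! j)`) gives
`f^a x = x` for all fixed points `x` of `f^k`.  `prog_contra` with `a`, `b'` : a contradiction. -/
theorem U2_degInf {f : Dif n M} (hf : f ∈ U2 n M) {m : ℕ} {X : Type u}
    [TopologicalSpace X] [ChartedSpace (Ec m) X] [IsManifold 𝓘(ℂ, Ec m) ω X]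
    (h : Preserves f m X) : DegInf f := by
  by_contra hcon
  have hcon' : ∃ N : ℕ, ∀ (x : M) (k j : ℕ), N ≤ k → MinPer f x k → 0 < j →
      Ndg (n := n) (itr f (k * j)) x := by
    by_contra hc
    apply hcon
    intro N
    by_contra hc2
    apply hc
    refine ⟨N, fun x k j h1 h2 h3 => ?_⟩
    by_contra hc3
    exact hc2 ⟨x, k, j, h1, h2, h3, hc3⟩
  obtain ⟨N, hN⟩ := hcon'
  obtain ⟨O, a, b, -, hfO, ha, hb, hP⟩ := hf
  obtain ⟨⟨r1, r2⟩, hG⟩ := hP f hfO
  have hb' : 0 < b * N.factorial := Nat.mul_pos hb (Nat.factorial_pos N)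
  refine prog_contra ha hb' r1 (fun j x hx => ?_) hG m X h
  have hkj : a * (1 + b * N.factorial * j) = a * (1 + b * (N.factorial * j)) := by
    rw [Nat.mul_assoc b]
  rw [hkj] at hx
  refine r2 (N.factorial * j) (fun y hy => preserves_pos h hy ?_) x hx
  rw [← hkj] at hy ⊢
  exact X7_ndg ha r1 hN j hy

/-- As `U1_subset` (file Y14). -/
theorem U2_subset {f : Dif n M} (hf : f ∈ U2 n M) :
    f ∈ closure[crTop n M ⊤] (UR n M ∪ W2 n M) := by
  letI T := crTop n M ⊤
  by_cases hc : f ∈ closure (UR n M)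
  · exact closure_mono Set.subset_union_left hc
  · refine subset_closure (Or.inr ⟨hf, (closure (UR n M))ᶜ, isClosed_closure.isOpen_compl, hc, ?_⟩)
    intro g hg
    exact posNd_of_NR (NR_of_not_closure hg)

/-- Let `V` be `C^∞`-open, `f ∈ V`.  `compl_closure` (file Y11), `posNd_of_NR`, `hyp_of_NR` : `PosNd f`; the fixed points of `f^a` are finitely many, their number is `LefN n (itr f a) = c ≠ 0` (`j = 0`), so there is one.  By `regA_nhds` (file X4) there is a `C^1`-open `O` containing `f` with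
`RegA a b g` for `g ∈ O`.  `V' = V ∩ O ∩ (complement of the closure of UR)` is `C^∞`-open (`D4_top`, file D4a).  `exists_goodR` (file X6) gives `g ∈ V'` with `GoodR a g`; `goodR_nhds` (file X5) at `g` gives a `C^1`-open `O'`; so `g ∈ U2` with `O ∩ O'`, and `g ∈ W2` with `V'`. -/
theorem closure_W2 (hn : 0 < n) {f : Dif n M} (hf : f ∉ closure[crTop n M ⊤] (UR n M)) {a b : ℕ}
    (ha : 0 < a) (hb : 0 < b) {c : ℂ} (hc : c ≠ 0)
    (hL : ∀ j : ℕ, LefN n (itr f (a * (1 + b * j))) = c) {V : Set (Dif n M)}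
    (hV : IsOpen[crTop n M ⊤] V) (hfV : f ∈ V) : ∃ g ∈ V, g ∈ W2 n M := by
  obtain ⟨hNR, hcard⟩ := compl_closure hf
  have hpos := posNd_of_NR hNR
  have hhyp := hyp_of_NR hNR
  have hne : ∃ x, itr f a x = x := by
    by_contra hno
    have h1 : {x | itr f a x = x} = (∅ : Set M) := by
      ext x
      simp only [Set.mem_setOf_eq, Set.mem_empty_iff_false, iff_false]
      exact fun hx => hno ⟨x, hx⟩
    have h2 := (hcard a ha).2
    have h3 : LefN n (itr f a) = c := by
      have := hL 0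
      simpa using this
    rw [h1, Set.ncard_empty, Nat.cast_zero, h3] at h2
    exact hc h2.symm
  have hev := regA_nhds hpos (b := b) ha (fun x hx => hhyp x a ha hx) hL
  have hev2 : ∃ O ⊆ {g : Dif n M | RegA a b g}, IsOpen[crTop n M 1] O ∧ f ∈ O := by
    let _ := crTop n M 1
    exact mem_nhds_iff.1 hev
  obtain ⟨O, hOP, hO, hfO⟩ := hev2
  obtain ⟨W, hW⟩ : ∃ W : Set (Dif n M), W = V ∩ O ∩ (closure[crTop n M ⊤] (UR n M))ᶜ :=
    ⟨_, rfl⟩
  have hWo : IsOpen[crTop n M ⊤] W := by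
    rw [hW]
    have hO2 := D4_top hO
    let _ := crTop n M ⊤
    exact (hV.inter hO2).inter isClosed_closure.isOpen_compl
  have hfW : f ∈ W := by
    rw [hW]
    exact ⟨⟨hfV, hfO⟩, hf⟩
  have hWpos : ∀ g ∈ W, PosNd g := by
    intro g hg
    rw [hW] at hg
    exact posNd_of_NR fun x k hk => NR_of_not_closure hg.2 x k hk
  obtain ⟨g, hgW, hgR⟩ := exists_goodR hn hWo hfW hpos ha hne
  have hgO : g ∈ O := by
    rw [hW] at hgW
    exact hgW.1.2
  have hgA : RegA a b g := hOP hgO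
  have hev3 := goodR_nhds hgA.1 hgR
  have hev4 : ∃ O' ⊆ {g' : Dif n M | GoodR a g'}, IsOpen[crTop n M 1] O' ∧ g ∈ O' := by
    let _ := crTop n M 1
    exact mem_nhds_iff.1 hev3
  obtain ⟨O', hsub, hO', hgO'⟩ := hev4
  have hgU : g ∈ U2 n M := by
    have hi : IsOpen[crTop n M 1] (O ∩ O') := by
      let _ := crTop n M 1
      exact hO.inter hO'
    exact ⟨O ∩ O', a, b, hi, ⟨hgO, hgO'⟩, ha, hb, fun g' hg' => ⟨hOP hg'.1, hsub hg'.2⟩⟩
  refine ⟨g, ?_, hgU, W, hWo, hgW, hWpos⟩
  rw [hW] at hgW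
  exact hgW.1.1

end FB
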