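import Pool.Agent.H.MP_fb873c_an.Y0
import Pool.Agent.H.MP_fb873c_an.Z1a2

/-!
# Part Y10a: determinants of powers without real eigenvalues
-/

namespace FB

open scoped Topology ContDiff Manifold
open Filter

universe u

variable {n : ℕ}

/-- The product over a conjugation invariant multiset without real elements. -/
theorem Y10a_prod {R : Multiset ℂ} (hconj : R.map (starRingEnd ℂ) = R) (him : ∀ l ∈ R, l.im ≠ 0)
    (hn : ∀ l ∈ R, ‖l‖ ≠ 1) {m : ℕ} (hm : 0 < m) :
    ∃ r : ℝ, 0 < r ∧ (R.map (fun l => 1 - l ^ m)).prod = (r : ℂ) := by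
  classical
  have h1 : R.filter (fun l => ¬ 0 < l.im) =
      (R.filter (fun l => 0 < l.im)).map (starRingEnd ℂ) := by
    conv_lhs => rw [← hconj]
    rw [Multiset.filter_map]
    congr 1
    apply Multiset.filter_congr
    intro l hl
    simp only [Function.comp, Complex.conj_im]
    have := him l hl
    constructor
    · intro h
      rcases lt_or_gt_of_ne this with h' | h'
      · exact absurd (by linarith : 0 < -l.im) h
      · exact h'
    · intro h h'
      linarith
  have h2 : R = R.filter (fun l => 0 < l.im) +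
      (R.filter (fun l => 0 < l.im)).map (starRingEnd ℂ) := by
    rw [← h1, Multiset.filter_add_not]
  generalize R.filter (fun l => 0 < l.im) = Rp at h2
  have hsub : ∀ l ∈ Rp, l ∈ R := by
    intro l hl
    rw [h2]
    exact Multiset.mem_add.2 (Or.inl hl)
  obtain ⟨P, hP⟩ : ∃ P, P = (Rp.map (fun l => 1 - l ^ m)).prod := ⟨_, rfl⟩
  have h3 : ((Rp.map (starRingEnd ℂ)).map (fun l => 1 - l ^ m)).prod = starRingEnd ℂ P := by
    rw [hP, map_multiset_prod, Multiset.map_map, Multiset.map_map]
    congr 1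
    apply Multiset.map_congr rfl
    intro l _
    simp
  have h4 : P ≠ 0 := by
    rw [hP, Ne, Multiset.prod_eq_zero_iff, Multiset.mem_map]
    rintro ⟨l, hl, h0⟩
    have h6 : l ^ m = 1 := (sub_eq_zero.1 h0).symm
    have h5 : ‖l‖ ^ m = 1 := by rw [← norm_pow, h6, norm_one]
    exact hn l (hsub l hl) ((pow_eq_one_iff_of_nonneg (norm_nonneg l) hm.ne').1 h5)
  refine ⟨Complex.normSq P, Complex.normSq_pos.2 h4, ?_⟩
  rw [h2, Multiset.map_add, Multiset.prod_add, h3, ← hP, Complex.mul_conj]

/-- The complexification. -/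
theorem Y10a_cx (L : Er n →ₗ[ℝ] Er n) (m : ℕ) : ∃ L' : Ec n →ₗ[ℂ] Ec n,
    L'.charpoly = L.charpoly.map (algebraMap ℝ ℂ) ∧
      LinearMap.det (1 - L' ^ m) = ((LinearMap.det (1 - L ^ m) : ℝ) : ℂ) := by
  let b := (EuclideanSpace.basisFun (Fin n) ℝ).toBasis
  let bc := (EuclideanSpace.basisFun (Fin n) ℂ).toBasis
  refine ⟨Matrix.toLin bc bc ((LinearMap.toMatrix b b L).map (algebraMap ℝ ℂ)), ?_, ?_⟩
  · rw [← L.charpoly_toMatrix b, ← LinearMap.charpoly_toMatrix _ bc, LinearMap.toMatrix_toLin,
      Matrix.charpoly_map]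
  · rw [← LinearMap.det_toMatrix bc, ← LinearMap.det_toMatrix b, map_sub, map_sub,
      LinearMap.toMatrix_one, LinearMap.toMatrix_one, ← LinearMap.toMatrix_pow,
      ← LinearMap.toMatrix_pow, LinearMap.toMatrix_toLin]
    change _ = (algebraMap ℝ ℂ) (1 - LinearMap.toMatrix b b L ^ m).det
    rw [RingHom.map_det]
    congr 1
    rw [map_sub, map_one, map_pow]
    rfl

/-- The complex roots of `charpoly A` are non-real; as the polynomial is real, they come in pairs `l, conj l` with the same multiplicity.  `det (1 - A^m) = ∏ (1 - l^m)` over the roots (complex matrix of `A`; for instance `Matrix.det_eq_prod_roots_charpoly`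
and the roots of the characteristic polynomial of a power, or `powEv_charpoly`-like (file Z1a2)), which is the product of `‖1 - l^m‖^2` over the roots with positive imaginary part, and `l^m ≠ 1` as `‖l‖ ≠ 1`. -/
theorem det_pow_pos {A : Er n →L[ℝ] Er n} (h : NR A) {m : ℕ} (hm : 0 < m) :
    0 < LinearMap.det ((ContinuousLinearMap.id ℝ (Er n) - A ^ m : Er n →L[ℝ] Er n)).toLinearMap := by
  obtain ⟨L', hc, hd⟩ := Y10a_cx (n := n) A.toLinearMap m
  have h1 := powEv_charpoly L' m
  rw [PowEv, hc] at h1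
  have hp0 : (A.toLinearMap.charpoly.map (algebraMap ℝ ℂ)) ≠ 0 :=
    Polynomial.map_monic_ne_zero (LinearMap.charpoly_monic _)
  have hconj : ((A.toLinearMap.charpoly.map (algebraMap ℝ ℂ)).roots).map (starRingEnd ℂ) =
      (A.toLinearMap.charpoly.map (algebraMap ℝ ℂ)).roots := by
    rw [← (IsAlgClosed.splits (A.toLinearMap.charpoly.map (algebraMap ℝ ℂ))).roots_map
      (starRingEnd ℂ), Polynomial.map_map]
    congr 2
    ext x
    simp
  obtain ⟨r, hr, h2⟩ := Y10a_prod hconj (fun l hl => (h l ((Polynomial.mem_roots hp0).1 hl)).2)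
    (fun l hl => (h l ((Polynomial.mem_roots hp0).1 hl)).1) hm
  rw [h2, hd] at h1
  have h3 : r = LinearMap.det (1 - A.toLinearMap ^ m) := by exact_mod_cast h1
  have h4 : ((ContinuousLinearMap.id ℝ (Er n) - A ^ m : Er n →L[ℝ] Er n)).toLinearMap =
      1 - A.toLinearMap ^ m := by
    rw [ContinuousLinearMap.toLinearMap_sub, ContinuousLinearMap.toLinearMap_pow]
    rfl
  rw [h4, ← h3]
  exact hr

end FB
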