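import Pool.Agent.H.MP_fb873c_an.J20a1
import Pool.Agent.H.MP_fb873c_an.J20a2
import Pool.Agent.H.MP_fb873c_an.Y10a

/-!
# Part Y10b: periodic points without real eigenvalues
-/

namespace FB

open scoped Topology ContDiff Manifold
open Filter

universe u

variable {n : ℕ} {M : Type u} [TopologicalSpace M] [ChartedSpace (Er n) M]
  [IsManifold (𝓡 n) ∞ M] [CompactSpace M] [T2Space M]

theorem Y10b_min (f : Dif n M) {x : M} {k : ℕ} (hk : 0 < k) (hx : itr f k x = x) :
    ∃ k0 m : ℕ, MinPer f x k0 ∧ 0 < m ∧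
      dfix (n := n) (itr f k) x = (dfix (n := n) (itr f k0) x) ^ m := by
  have hper : Function.IsPeriodicPt (f : M → M) k x := hx
  have hpos : 0 < Function.minimalPeriod (f : M → M) x := hper.minimalPeriod_pos hk
  have hfix : (f : M → M)^[Function.minimalPeriod (f : M → M) x] x = x :=
    Function.iterate_minimalPeriod
  obtain ⟨m, hm⟩ := hper.minimalPeriod_dvd
  refine ⟨Function.minimalPeriod (f : M → M) x, m, ⟨hpos, hfix, ?_⟩, ?_, ?_⟩
  · intro i hi hlt he
    exact Function.not_isPeriodicPt_of_pos_of_lt_minimalPeriod hi.ne' hlt he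
  · rcases Nat.eq_zero_or_pos m with h0 | h0
    · rw [h0] at hm
      omega
    · exact h0
  · have h4 := JT.dfix_iterate f hfix m
    rw [← hm] at h4
    exact h4

/-- Let `f^k x = x`, `k > 0`, `k0` the minimal period, `k = k0 m` (`Function.minimalPeriod`): `JT.dfix_iterate` (file J20a2), `det_pow_pos`. -/
theorem posNd_of_NR {f : Dif n M}
    (h : ∀ (x : M) (k : ℕ), MinPer f x k → NR (dfix (n := n) (itr f k) x)) : PosNd f := by
  intro x k hk hx
  obtain ⟨k0, m, h1, h2, h3⟩ := Y10b_min f hk hx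
  rw [h3]
  exact det_pow_pos (h x k0 h1) h2

/-- In the same way, `JT.hyp_pow` (file J20a1). -/
theorem hyp_of_NR {f : Dif n M}
    (h : ∀ (x : M) (k : ℕ), MinPer f x k → NR (dfix (n := n) (itr f k) x)) (x : M) (k : ℕ)
    (hk : 0 < k) (hx : itr f k x = x) : Hyp (dfix (n := n) (itr f k) x) := by
  obtain ⟨k0, m, h1, h2, h3⟩ := Y10b_min f hk hx
  rw [h3]
  exact JT.hyp_pow (fun l hl => (h x k0 h1 l hl).1) h2

end FB
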