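import Pool.Agent.H.MP_fb873c_an.Y0
import Pool.Agent.H.MP_fb873c_an.B3

/-!
# Part Y7: openness of the condition on the logarithms
-/

namespace FB

open scoped Topology ContDiff Manifold
open Filter Polynomial

universe u

variable {n : ℕ} {M : Type u} [TopologicalSpace M] [ChartedSpace (Er n) M]
  [IsManifold (𝓡 n) ∞ M] [CompactSpace M] [T2Space M]

/-- The proof of `goodS_open` (file B3): there `O` is only used to have `PerHyp N` for the nearby maps.  (`isOpen_iff_ultrafilter`-like: `Filter.eventually_iff_ultrafilter`-style argument: if it fails, there is an ultrafilter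
`l ≤ nhds g` with `PerHyp N g'` and `¬ GoodS N g'` for `l`-almost all `g'`.) -/
theorem goodS_nhds {N : ℕ} (hN : 0 < N) {g : Dif n M} (hPH : PerHyp N g) (hS : GoodS N g) :
    ∀ᶠ g' : Dif n M in @nhds _ (crTop n M 1) g, PerHyp N g' → GoodS N g' := by
  classical
  let _ := crTop n M 1
  rw [Filter.Eventually, Filter.mem_iff_ultrafilter]
  intro l hl
  have hcv : CV n (l : Filter (Dif n M)) (fun g' : Dif n M => (g' : M → M)) g := CV.of_crTop hl
  have sG : ∀ g' : Dif n M, C1 n (g' : M → M) := fun g' => g'.contMDiff_toFun.of_le (by norm_cast)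
  have hF : ∀ m, CV n (l : Filter (Dif n M)) (fun g' : Dif n M => (g' : M → M)^[m])
      ((g : M → M)^[m]) := fun m => hcv.iterate sG (sG g) m
  have sF : ∀ m, ∀ g' : Dif n M, C1 n ((g' : M → M)^[m]) := fun m g' => (sG g').iterate m
  by_contra hbad
  have hbad' : {g' : Dif n M | PerHyp N g' → GoodS N g'}ᶜ ∈ l :=
    Ultrafilter.compl_mem_iff_notMem.2 hbad
  have h0 : ∀ x, (g : M → M)^[N] x = x → ND n ((g : M → M)^[N]) x :=
    fun x hx => perHyp_ndl (hPH) hN x trivial hx
  have e2 : ∀ᶠ g' : Dif n M in (l : Filter (Dif n M)), ∃ P : M → ℂ[X],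
      (∀ x, (g' : M → M)^[N] x = x →
        HalfPoly (dfix (n := n) ((g' : M → M)^[N]) x) (P x) ∧ P (g' x) = P x) ∧
      (∑ᶠ x ∈ {x | (g' : M → M)^[N] x = x}, LogEv (P x)) = 0 := by
    filter_upwards [hbad'] with g' q2
    by_contra hne
    apply q2
    exact fun _ P hP hsum => hne ⟨P, hP, hsum⟩
  obtain ⟨P, hP⟩ : ∃ P : Dif n M → (M → ℂ[X]),
      ∀ᶠ g' : Dif n M in (l : Filter (Dif n M)),
      (∀ x, (g' : M → M)^[N] x = x →
        HalfPoly (dfix (n := n) ((g' : M → M)^[N]) x) (P g' x) ∧ P g' (g' x) = P g' x) ∧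
      (∑ᶠ x ∈ {x | (g' : M → M)^[N] x = x}, LogEv (P g' x)) = 0 :=
    Filter.Eventually.choice e2
  have hfin : {x | (g : M → M)^[N] x = x}.Finite := D1_fin (sF N g) h0
  obtain ⟨y, hy1, hy2⟩ := D1_fix (hF N) (sF N) (sF N g) h0
  have hyF : ∀ x, (g : M → M)^[N] x = x →
      ∀ᶠ g' : Dif n M in (l : Filter (Dif n M)), (g' : M → M)^[N] (y x g') = y x g' := by
    intro x hx
    filter_upwards [hy2] with g' q
    exact q.mapsTo hx
  -- limits of the polynomials
  have hPlim : ∀ x, ∃ P0 : ℂ[X], (g : M → M)^[N] x = x →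
      (HalfPoly (dfix (n := n) ((g : M → M)^[N]) x) P0 ∧
        (∀ z : ℂ, Tendsto (fun g' => (P g' (y x g')).eval z) (l : Filter (Dif n M))
          (𝓝 (P0.eval z))) ∧
        Tendsto (fun g' => LogEv (P g' (y x g'))) (l : Filter (Dif n M)) (𝓝 (LogEv P0))) := by
    intro x
    by_cases hx : (g : M → M)^[N] x = x
    · set φ := chartAt (Er n) x with hφ
      have hφ1 : φ ∈ atlas (Er n) M := chart_mem_atlas _ _
      have h2 : x ∈ φ.source := mem_chart_source _ _
      have t0 := hy1 x hx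
      have t1 := ((hF N).tendD x φ φ hφ1 hφ1 h2 (by rw [hx]; exact h2)).comp
        (tendsto_id.prodMk t0)
      have e3 : ∀ᶠ g' : Dif n M in (l : Filter (Dif n M)),
          HalfPoly (fderiv ℝ (φ ∘ (g' : M → M)^[N] ∘ φ.symm) (φ (y x g')))
            (P g' (y x g')) := by
        filter_upwards [hP, hyF x hx, t0.eventually_mem (φ.open_source.mem_nhds h2)]
          with g' q1 q2 q3
        rw [HalfPoly_dfix (sF N g' _) q2 hφ1 q3]
        exact (q1.1 _ q2).1
      obtain ⟨P0, hP0, hP1⟩ := HalfPoly_closed l _ _ t1 _ e3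
      obtain ⟨A', hA'⟩ := dfix_equiv g N hx
      exact ⟨P0, fun _ => ⟨hP0, hP1, LogEv_tendsto e3 hP0 hP1
        (halfPoly_hyp (hPH x N hN hx).2 A' hA' hP0)⟩⟩
    · exact ⟨0, fun h => absurd h hx⟩
  choose P0 hP0 using hPlim
  refine hS P0 ?_ ?_
  · intro x hx
    refine ⟨(hP0 x hx).1, ?_⟩
    have hgx := fix_map hx
    have t1 : Tendsto (fun g' : Dif n M => g' (y x g')) (l : Filter (Dif n M)) (𝓝 (g x)) :=
      (hcv.tend x).comp (tendsto_id.prodMk (hy1 x hx))
    have e3 : ∀ᶠ g' : Dif n M in (l : Filter (Dif n M)),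
        (g' : M → M)^[N] (g' (y x g')) = g' (y x g') := by
      filter_upwards [hyF x hx] with g' q
      exact fix_map q
    have e4 := D1_eqv hfin hy1 hy2 t1 e3
    refine Polynomial.funext fun z => ?_
    have t2 := (hP0 (g x) hgx).2.1 z
    have t3 := (hP0 x hx).2.1 z
    refine tendsto_nhds_unique t2 (t3.congr' ?_)
    filter_upwards [e4, hP, hyF x hx] with g' q1 q2 q3
    rw [← q1, (q2.1 _ q3).2]
  · have t1 : Tendsto (fun g' : Dif n M => ∑ x ∈ hfin.toFinset, LogEv (P g' (y x g')))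
        (l : Filter (Dif n M)) (𝓝 (∑ x ∈ hfin.toFinset, LogEv (P0 x))) :=
      tendsto_finsetSum _ fun x hx => (hP0 x (hfin.mem_toFinset.1 hx)).2.2
    rw [finsum_mem_eq_finite_toFinset_sum _ hfin]
    refine tendsto_nhds_unique t1 ((tendsto_const_nhds (x := (0 : ℝ))).congr' ?_)
    filter_upwards [hy2, hP] with g' q1 q2
    have h5 : (∑ᶠ x ∈ {x | (g : M → M)^[N] x = x}, LogEv (P g' (y x g'))) =
        ∑ᶠ x ∈ {x | (g' : M → M)^[N] x = x}, LogEv (P g' x) :=
      finsum_mem_eq_of_bijOn (fun x => y x g') q1 (fun x _ => rfl)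
    rw [← finsum_mem_eq_finite_toFinset_sum _ hfin, h5]
    exact q2.2.symm

end FB
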