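import Pool.Agent.H.MP_fb873c_an.B1d
import Pool.Agent.H.MP_fb873c_an.B2a
import Pool.Agent.H.MP_fb873c_an.B4
import Pool.Agent.H.MP_fb873c_an.D4g
import Pool.Agent.H.MP_fb873c_an.Z4

/-!
# Part Y8: no invariant complex structure
-/

namespace FB

open scoped Topology ContDiff Manifold
open Filter

universe u

variable {n : ℕ} {M : Type u} [TopologicalSpace M] [ChartedSpace (Er n) M]
  [IsManifold (𝓡 n) ∞ M] [CompactSpace M] [T2Space M]

/-- The proof of `UB_contra`, for one diffeomorphism and one `N`. -/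
theorem Y8_contra (hn : 0 < n) {f : Dif n M} {N : ℕ} (hN : 0 < N) (hPH : PerHyp N f)
    (hS : GoodS N f)
    (hdata : ∃ (R : ℕ) (H : ℕ → Type u) (_ : ∀ q, AddCommGroup (H q))
      (_ : ∀ q, Module ℂ (H q)) (_ : ∀ q, FiniteDimensional ℂ (H q)) (T : ∀ q, H q →ₗ[ℂ] H q)
      (P : M → Polynomial ℂ) (c : ℕ → M → ℂ),
      (∀ x, (f : M → M)^[N] x = x →
        HalfPoly (dfix (n := n) ((f : M → M)^[N]) x) (P x) ∧ P (f x) = P x) ∧
      (∀ k, 0 < k → ∀ x, (f : M → M)^[N] x = x → c k x = PowEv (P x) k) ∧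
      ∀ k, 0 < k → (∀ x, (f : M → M)^[N * k] x = x → Ndg (n := n) ((f : M → M)^[N * k]) x) →
        (∑ᶠ x ∈ {x | (f : M → M)^[N * k] x = x}, (c k x)⁻¹) = ∑ q ∈ Finset.range (R + 1),
          (-1 : ℂ) ^ q * LinearMap.trace ℂ (H q) (T q ^ k)) : False := by
  classical
  obtain ⟨R, H, i1, i2, i3, T, P, c, hP, hc, hL⟩ := hdata
  have hfin : {x | (f : M → M)^[N] x = x}.Finite :=
    finite_fix (n := n) fun x hx => perHyp_ndl hPH hN x (Set.mem_univ x) hx
  set F : Finset M := hfin.toFinset with hF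
  have hFm : ∀ x, x ∈ F ↔ (f : M → M)^[N] x = x := by
    intro x
    rw [hF, Set.Finite.mem_toFinset]
    rfl
  obtain ⟨χ, hχ, hrec⟩ := trace_recurrence R H T
  have hsum : ∀ k, 0 < k → ∑ x ∈ F, (((P x).roots).map (fun a => 1 - a ^ k)).prod⁻¹ =
      ∑ q ∈ Finset.range (R + 1), (-1 : ℂ) ^ q * LinearMap.trace ℂ (H q) (T q ^ k) := by
    intro k hk
    rw [← hL k hk fun x hx => perHyp_ndl hPH (Nat.mul_pos hN hk) x (Set.mem_univ x) hx]
    have hset : {x | (f : M → M)^[N * k] x = x} = (F : Set M) := by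
      ext x
      rw [Set.mem_ofPred_eq, Finset.mem_coe, hFm, perHyp_fix hN hPH hk]
    rw [hset, finsum_mem_coe_finset]
    refine Finset.sum_congr rfl fun x hx => ?_
    rw [hc k hk x ((hFm x).1 hx)]
    rfl
  by_cases hne : F = ∅
  · refine hS P hP ?_
    have hset : {x | (f : M → M)^[N] x = x} = (F : Set M) := by
      ext x
      rw [Set.mem_ofPred_eq, Finset.mem_coe, hFm]
    rw [hset, hne]
    simp
  obtain ⟨p, hp⟩ := Finset.nonempty_iff_ne_empty.2 hne
  have hcard : ∀ x ∈ F, 2 * Multiset.card (P x).roots = n := fun x hx =>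
    halfPoly_card (hP x ((hFm x).1 hx)).1
  have hX := lemmaX F (fun x => (P x).roots) (n / 2) (by have := hcard p hp; omega)
    (fun x hx => by have := hcard x hx; omega) (fun x hx => by
      obtain ⟨A', hA'⟩ := dfix_equiv f N ((hFm x).1 hx)
      exact halfPoly_hyp (hPH x N hN ((hFm x).1 hx)).2 A' hA' (hP x ((hFm x).1 hx)).1)
    χ hχ.ne_zero (fun j hj => by
      rw [← hrec j]
      exact Finset.sum_congr rfl fun l _ => by rw [hsum (j + l) (by omega)])
  refine hS P hP ?_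
  have hset : {x | (f : M → M)^[N] x = x} = (F : Set M) := by
    ext x
    rw [Set.mem_ofPred_eq, Finset.mem_coe, hFm]
  rw [hset, finsum_mem_coe_finset]
  exact hX

/-- The proof of `UB_contra` (file B5) uses only `PerHyp N f` and `GoodS N f`; then as `UB_not_preserves` (file Z6). -/
theorem goodS_not_preserves (hn : 0 < n) {f : Dif n M} {N : ℕ} (hN : 0 < N) (hPH : PerHyp N f)
    (hS : GoodS N f) (m : ℕ) (X : Type u) [TopologicalSpace X] [ChartedSpace (Ec m) X]
    [IsManifold 𝓘(ℂ, Ec m) ω X] : ¬ Preserves f m X := by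
  intro h
  refine Y8_contra hn hN hPH hS ?_
  obtain ⟨R, H, i1, i2, i3, T, P, c, -, hP, -, hc, hL⟩ := holo_data f m X inferInstance h N
  exact ⟨R, H, i1, i2, i3, T, P, c, hP, fun k _ => hc k, fun k _ => hL k⟩

end FB
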