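import Pool.Agent.H.MP_fb873c_an.Y5
import Pool.Agent.H.MP_fb873c_an.Y7
import Pool.Agent.H.MP_fb873c_an.Y8
import Pool.Agent.H.MP_fb873c_an.Y9
import Pool.Agent.H.MP_fb873c_an.Y11
import Pool.Agent.H.MP_fb873c_an.B2c
import Pool.Agent.H.MP_fb873c_an.K17
import Pool.Agent.H.MP_fb873c_an.K17b

/-!
# Part Y12: Theorem W: definitions
-/

namespace FB

open scoped Topology ContDiff Manifold
open Filter

universe u

variable {n : ℕ} {M : Type u} [TopologicalSpace M] [ChartedSpace (Er n) M]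
  [IsManifold (𝓡 n) ∞ M] [CompactSpace M] [T2Space M]

/-- The `C^1`-open set. -/
def U1 (n : ℕ) (M : Type u) [TopologicalSpace M] [ChartedSpace (Er n) M] : Set (Dif n M) :=
  {h | ∃ (O : Set (Dif n M)) (N : ℕ), IsOpen[crTop n M 1] O ∧ h ∈ O ∧ 0 < N ∧
    ∀ g ∈ O, PosNd g → PerHyp N g ∧ GoodS N g}

/-- The `C^∞`-open set. -/
def W1 (n : ℕ) (M : Type u) [TopologicalSpace M] [ChartedSpace (Er n) M] : Set (Dif n M) :=
  {h | h ∈ U1 n M ∧ ∃ V : Set (Dif n M), IsOpen[crTop n M ⊤] V ∧ h ∈ V ∧ ∀ g ∈ V, PosNd g}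

omit [IsManifold (𝓡 n) ∞ M] [CompactSpace M] [T2Space M] in
theorem isOpen_U1 : IsOpen[crTop n M 1] (U1 n M) := by
  let _ := crTop n M 1
  rw [isOpen_iff_mem_nhds]
  rintro h ⟨O, N, hO, hh, hN, hP⟩
  exact Filter.mem_of_superset (hO.mem_nhds hh) (fun g hg => ⟨O, N, hO, hg, hN, hP⟩)

omit [IsManifold (𝓡 n) ∞ M] [CompactSpace M] [T2Space M] in
/-- `D4_top` (file D4a). -/
theorem isOpen_W1 : IsOpen[crTop n M ⊤] (W1 n M) := by
  have h1 := D4_top (isOpen_U1 (n := n) (M := M))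
  let _ := crTop n M ⊤
  rw [isOpen_iff_mem_nhds]
  rintro h ⟨hh, V, hV, hhV, hP⟩
  refine Filter.mem_of_superset (Filter.inter_mem (h1.mem_nhds hh) (hV.mem_nhds hhV)) ?_
  rintro g ⟨hg1, hg2⟩
  exact ⟨hg1, V, hV, hg2, hP⟩

/-- `goodS_not_preserves`. -/
theorem W1_not_preserves (hn : 0 < n) {f : Dif n M} (hf : f ∈ W1 n M) (m : ℕ) (X : Type u)
    [TopologicalSpace X] [ChartedSpace (Ec m) X] [IsManifold 𝓘(ℂ, Ec m) ω X] :
    ¬ Preserves f m X := by
  obtain ⟨⟨O, N, -, hfO, hN, hP⟩, V, -, hfV, hPV⟩ := hf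
  obtain ⟨h1, h2⟩ := hP f hfO (hPV f hfV)
  exact goodS_not_preserves hn hN h1 h2 m X

/-- `preserves_posNd`, `goodS_not_preserves`. -/
theorem U1_degenerate (hn : 0 < n) {f : Dif n M} (hf : f ∈ U1 n M) (m : ℕ) (X : Type u)
    [TopologicalSpace X] [ChartedSpace (Ec m) X] [IsManifold 𝓘(ℂ, Ec m) ω X]
    (h : Preserves f m X) : ∃ (x : M) (k : ℕ), 0 < k ∧ itr f k x = x ∧
      ¬ Ndg (n := n) (itr f k) x := by
  by_contra hcon
  have hnd : ∀ (x : M) (k : ℕ), 0 < k → itr f k x = x → Ndg (n := n) (itr f k) x := by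
    intro x k hk hx
    by_contra h1
    exact hcon ⟨x, k, hk, hx, h1⟩
  obtain ⟨O, N, -, hfO, hN, hP⟩ := hf
  obtain ⟨h1, h2⟩ := hP f hfO (preserves_posNd h hnd)
  exact goodS_not_preserves hn hN h1 h2 m X h

/-- Let `V` be `C^∞`-open, `f ∈ V`.  If `f` is in the closure of `UR`, then `V` meets `UR`.  Otherwise `compl_closure`, `posNd_of_NR`, `hyp_of_NR` and `fin_robust` give `N, O`.  `V' = V ∩ O ∩ (complement of the closure of UR)` is `C^∞`-open and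
contains `f`; every `g ∈ V'` has `PosNd g` (`posNd_of_NR`, `NR_of_not_closure`), so `PerHyp N g`.  `exists_goodS` (file B2c) gives `g ∈ V'` with `GoodS N g`.  By `goodS_nhds` there is a `C^1`-open `O'` containing `g` with
`PerHyp N g' → GoodS N g'` for `g' ∈ O'`; `O ∩ O'` shows `g ∈ U1`, and `V'` shows `g ∈ W1`. -/
theorem closure_W1 (hn : 0 < n) (f : Dif n M) (hper : ∃ (x : M) (k : ℕ), 0 < k ∧ itr f k x = x)
    (hfin : {x | ∃ k, 0 < k ∧ itr f k x = x}.Finite) {V : Set (Dif n M)}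
    (hV : IsOpen[crTop n M ⊤] V) (hfV : f ∈ V) : ∃ g ∈ V, g ∈ UR n M ∪ W1 n M := by
  by_cases hcl : f ∈ closure[crTop n M ⊤] (UR n M)
  · let _ := crTop n M ⊤
    obtain ⟨g, hg1, hg2⟩ := mem_closure_iff.1 hcl V hV hfV
    exact ⟨g, hg1, Or.inl hg2⟩
  · have hNR := (compl_closure hcl).1
    obtain ⟨N, O, hN, hO, hfO, hOP⟩ := fin_robust (posNd_of_NR hNR) (hyp_of_NR hNR) hfin
    obtain ⟨W, hW⟩ : ∃ W : Set (Dif n M), W = V ∩ O ∩ (closure[crTop n M ⊤] (UR n M))ᶜ :=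
      ⟨_, rfl⟩
    have hWo : IsOpen[crTop n M ⊤] W := by
      rw [hW]
      have hO2 := D4_top hO
      let _ := crTop n M ⊤
      exact (hV.inter hO2).inter isClosed_closure.isOpen_compl
    have hfW : f ∈ W := by
      rw [hW]
      exact ⟨⟨hfV, hfO⟩, hcl⟩
    have hWpos : ∀ g ∈ W, PosNd g := by
      intro g hg
      rw [hW] at hg
      exact posNd_of_NR fun x k hk => NR_of_not_closure hg.2 x k hk
    have hWper : ∀ g ∈ W, PerHyp N g := by
      intro g hg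
      have h1 := hWpos g hg
      rw [hW] at hg
      exact hOP g hg.1.2 h1
    obtain ⟨g, hgW, hgS⟩ := exists_goodS hn hN hWo hfW hWper hper
    have hev := goodS_nhds hN (hWper g hgW) hgS
    have hev2 : ∃ O' ⊆ {g' : Dif n M | PerHyp N g' → GoodS N g'},
        IsOpen[crTop n M 1] O' ∧ g ∈ O' := by
      let _ := crTop n M 1
      exact mem_nhds_iff.1 hev
    obtain ⟨O', hsub, hO', hgO'⟩ := hev2
    have hgU : g ∈ U1 n M := by
      have hgO : g ∈ O := by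
        rw [hW] at hgW
        exact hgW.1.2
      have hi : IsOpen[crTop n M 1] (O ∩ O') := by
        let _ := crTop n M 1
        exact hO.inter hO'
      refine ⟨O ∩ O', N, hi, ⟨hgO, hgO'⟩, hN, ?_⟩
      rintro g' ⟨h1, h2⟩ hp
      have h3 := hOP g' h1 hp
      exact ⟨h3, hsub h2 h3⟩
    refine ⟨g, ?_, Or.inr ⟨hgU, W, hWo, hgW, hWpos⟩⟩
    rw [hW] at hgW
    exact hgW.1.1

end FB
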