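import Pool.Agent.H.MP_fb873c_an.Y12

/-!
# Part Y13: Theorem W: manifolds of non-zero Euler characteristic
-/

namespace FB

open scoped Topology ContDiff Manifold
open Filter

universe u

variable {n : ℕ} {M : Type u} [TopologicalSpace M] [ChartedSpace (Er n) M]
  [IsManifold (𝓡 n) ∞ M] [CompactSpace M] [T2Space M]

/-- The cohomology (image of the closed forms in the quotient by the exact ones) is finite dimensional. -/
theorem Y13_fin (n : ℕ) (M : Type u) [TopologicalSpace M] [ChartedSpace (Er n) M]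
    [IsManifold (𝓡 n) ∞ M] [CompactSpace M] [T2Space M] (q : ℕ) :
    FiniteDimensional ℂ ((Zcl (Er n) M q).map (Bex (Er n) M q).mkQ) := by
  obtain ⟨T, -, -, hgood, hT⟩ := exists_drTy (Er n)
  have hM : TGood T M := by
    intro x0 x1 p _ _
    rw [hgood]
    trivial
  have hT1 : ∀ L : Er n →L[ℝ] Er n, L ∈ T.good := fun L => by rw [hgood]; trivial
  have := finiteDimensional_HT T hM (hT1 _) q
  obtain ⟨e, -⟩ := exists_dr_equiv T hT hM (F := (id : M → M)) contMDiff_id (fun p => hT1 _) q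
  exact Module.Finite.equiv e

omit [CompactSpace M] [T2Space M] in
theorem Y13_comp {F G : M → M} (hF : ContMDiff (𝓡 n) (𝓡 n) ∞ F) (hG : ContMDiff (𝓡 n) (𝓡 n) ∞ G)
    {q : ℕ} (h1 : ∀ η ∈ Zcl (Er n) M q, pbl F q η - η ∈ Bex (Er n) M q)
    (h2 : ∀ η ∈ Zcl (Er n) M q, pbl G q η - η ∈ Bex (Er n) M q) :
    ∀ η ∈ Zcl (Er n) M q, pbl (F ∘ G) q η - η ∈ Bex (Er n) M q := by
  intro η hη
  have h3 : pbl (F ∘ G) q η = pbl G q (pbl F q η) := funext fun p => pb_comp η hG hF p
  have h4 : pbl (F ∘ G) q η - η = pbl G q (pbl F q η - η) + (pbl G q η - η) := by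
    rw [h3, map_sub]
    abel
  rw [h4]
  exact Submodule.add_mem _ (pbl_Bex hG q (h1 η hη)) (h2 η hη)

omit [CompactSpace M] [T2Space M] in
theorem Y13_iter (f : Dif n M) {k : ℕ}
    (hid : ∀ q, ∀ η ∈ Zcl (Er n) M q, pbl (itr f k) q η - η ∈ Bex (Er n) M q) {j : ℕ} (hj : 1 ≤ j) :
    ∀ q, ∀ η ∈ Zcl (Er n) M q, pbl (itr f (k * j)) q η - η ∈ Bex (Er n) M q := by
  induction j, hj using Nat.le_induction with
  | base => rw [Nat.mul_one]; exact hid
  | succ j hj ih =>
    intro q
    have h1 : itr f (k * (j + 1)) = itr f (k * j) ∘ itr f k := by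
      unfold itr
      rw [Nat.mul_succ, Function.iterate_add]
    rw [h1]
    exact Y13_comp (D2m1_iterate f (k * j)) (D2m1_iterate f k) (ih q) (hid q)

theorem Y13_lef {F : M → M} (hF : ContMDiff (𝓡 n) (𝓡 n) ∞ F)
    (h : ∀ q, ∀ η ∈ Zcl (Er n) M q, pbl F q η - η ∈ Bex (Er n) M q) :
    LefN n F = ((chi (Er n) M n : ℤ) : ℂ) := by
  unfold LefN chi
  push_cast
  refine Finset.sum_congr rfl fun q _ => ?_
  have := Y13_fin n M q
  rw [qtr_id _ _ _ (Bex_le_Zcl q) (pbl_Bex hF q) (h q)]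
  rfl

/-- Let `f ∉ closure UR`.  `(f^k)^*` is the identity on cohomology: `LefN n (itr f (k j)) = χ(M)` for all `j > 0` (`qtr_id` (file Y3a), `pbl_Bex`, `Bex_le_Zcl` (file Y3b); the hypothesis for `f^(k j)` follows by induction on `j` from the one for
`f^k`: `pb` of a composition is the composition of the `pb`, and `(f^k)^* η - η` is exact and closed for closed `η`; finite dimension: `finiteDimensional_HT` and `exists_dr_equiv`).  So by `compl_closure` `#Fix (f^(k j)) = χ(M)` for all `j > 0`; if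
`f^i x = x`, `i > 0`, then `x ∈ Fix (f^(k i))`, and `Fix (f^k) ⊆ Fix (f^(k i))` have the same finite cardinality, so `x ∈ Fix (f^k)`: there are finitely many periodic points, and at least one since `χ(M) ≠ 0`. -/
theorem per_of_chi {f : Dif n M} (hf : f ∉ closure[crTop n M ⊤] (UR n M))
    (hchi : chi (Er n) M n ≠ 0) {k : ℕ} (hk : 0 < k)
    (hid : ∀ q, ∀ η ∈ Zcl (Er n) M q, pbl (itr f k) q η - η ∈ Bex (Er n) M q) :
    (∃ (x : M) (k : ℕ), 0 < k ∧ itr f k x = x) ∧ {x | ∃ k, 0 < k ∧ itr f k x = x}.Finite := by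
  have hcc := (compl_closure hf).2
  have hlef : ∀ j, 1 ≤ j → LefN n (itr f (k * j)) = ((chi (Er n) M n : ℤ) : ℂ) := fun j hj =>
    Y13_lef (D2m1_iterate f (k * j)) (Y13_iter f hid hj)
  have hcard : ∀ j, 1 ≤ j → {x | itr f (k * j) x = x}.ncard = {x | itr f k x = x}.ncard := by
    intro j hj
    have h1 := (hcc (k * j) (Nat.mul_pos hk hj)).2
    have h2 := (hcc (k * 1) (by omega)).2
    rw [hlef j hj] at h1
    rw [hlef 1 le_rfl, Nat.mul_one] at h2
    exact_mod_cast h1.trans h2.symm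
  have hne : {x | itr f k x = x}.Nonempty := by
    by_contra hcon
    rw [Set.not_nonempty_iff_eq_empty] at hcon
    have h2 := (hcc (k * 1) (by omega)).2
    rw [hlef 1 le_rfl, Nat.mul_one, hcon, Set.ncard_empty] at h2
    apply hchi
    have h3 : ((chi (Er n) M n : ℤ) : ℂ) = 0 := by rw [← h2]; simp
    exact_mod_cast h3
  refine ⟨?_, ?_⟩
  · obtain ⟨x, hx⟩ := hne
    exact ⟨x, k, hk, hx⟩
  · refine (hcc k hk).1.subset ?_
    rintro x ⟨i, hi, hx⟩
    have hsub : {x | itr f k x = x} ⊆ {x | itr f (k * i) x = x} := by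
      intro y hy
      have hy' : (f : M → M)^[k] y = y := hy
      change (f : M → M)^[k * i] y = y
      rw [Function.iterate_mul]
      exact Function.iterate_fixed hy' i
    have heq : {x | itr f k x = x} = {x | itr f (k * i) x = x} :=
      Set.eq_of_subset_of_ncard_le hsub (hcard i hi).le (hcc (k * i) (Nat.mul_pos hk hi)).1
    have hx' : (f : M → M)^[i] x = x := hx
    have h5 : x ∈ {x | itr f (k * i) x = x} := by
      change (f : M → M)^[k * i] x = x
      rw [Nat.mul_comm, Function.iterate_mul]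
      exact Function.iterate_fixed hx' k
    rw [← heq] at h5
    exact h5

end FB
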