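import Pool.Agent.H.MP_fb873c_an.Y13

/-!
# Part Y14: the set `U1` lies in the closure
-/

namespace FB

open scoped Topology ContDiff Manifold
open Filter

universe u

variable {n : ℕ} {M : Type u} [TopologicalSpace M] [ChartedSpace (Er n) M]
  [IsManifold (𝓡 n) ∞ M] [CompactSpace M] [T2Space M]

theorem U1_subset {h : Dif n M} (hh : h ∈ U1 n M) :
    h ∈ closure[crTop n M ⊤] (UR n M ∪ W1 n M) := by
  letI T := crTop n M ⊤
  by_cases hc : h ∈ closure (UR n M)
  · exact closure_mono Set.subset_union_left hc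
  · refine subset_closure (Or.inr ⟨hh, (closure (UR n M))ᶜ, isClosed_closure.isOpen_compl, hc, ?_⟩)
    intro g hg
    exact posNd_of_NR (NR_of_not_closure hg)

theorem mem_closure_W (hn : 0 < n) (f : Dif n M)
    (hper : ∃ (x : M) (k : ℕ), 0 < k ∧ itr f k x = x)
    (hfin : {x | ∃ k, 0 < k ∧ itr f k x = x}.Finite) :
    f ∈ closure[crTop n M ⊤] (UR n M ∪ W1 n M) := by
  letI T := crTop n M ⊤
  rw [mem_closure_iff]
  intro V hV hfV
  exact closure_W1 hn f hper hfin hV hfV

theorem mem_closure_W_chi (hn : 0 < n) (f : Dif n M) (hchi : chi (Er n) M n ≠ 0) {k : ℕ}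
    (hk : 0 < k)
    (hid : ∀ q, ∀ η ∈ Zcl (Er n) M q, pbl (itr f k) q η - η ∈ Bex (Er n) M q) :
    f ∈ closure[crTop n M ⊤] (UR n M ∪ W1 n M) := by
  letI T := crTop n M ⊤
  by_cases hc : f ∈ closure (UR n M)
  · exact closure_mono Set.subset_union_left hc
  · obtain ⟨h1, h2⟩ := per_of_chi hc hchi hk hid
    exact mem_closure_W hn f h1 h2

end FB
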