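import Pool.Agent.H.MP_fb873c_an.Y0

/-!
# Part Y3a: traces on quotients
-/

namespace FB

open scoped Topology ContDiff Manifold
open Filter

universe u

/-- `A / (A ∩ B)` (image of `A` in `E / B`): if `e : H ≃ A.map B.mkQ` is linear and `S : H → H` satisfies `e (S h) = φ_* (e h)`, where `φ_*` is induced by `φ`, the traces agree (`LinearMap.trace_conj'`). -/
theorem qtr_eq {E : Type u} [AddCommGroup E] [Module ℂ E] (A B : Submodule ℂ E) (φ : E →ₗ[ℂ] E)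
    (h1 : A ≤ A.comap φ) (h2 : B ≤ B.comap φ) {H : Type*} [AddCommGroup H] [Module ℂ H]
    (e : H ≃ₗ[ℂ] A.map B.mkQ) (S : H →ₗ[ℂ] H)
    (he : ∀ h, ((e (S h) : A.map B.mkQ) : E ⧸ B) = B.mapQ B φ h2 (e h)) :
    qtr A B φ = LinearMap.trace ℂ H S := by
  unfold qtr
  rw [dif_pos ⟨h1, h2⟩, ← LinearMap.trace_conj' S e]
  congr 1
  ext x
  obtain ⟨h, rfl⟩ := e.surjective x
  rw [LinearEquiv.conj_apply_apply, LinearEquiv.symm_apply_apply, he]
  rfl

/-- If `φ a - a ∈ B` for all `a ∈ A`, the induced map is the identity. -/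
theorem qtr_id {E : Type u} [AddCommGroup E] [Module ℂ E] (A B : Submodule ℂ E) (φ : E →ₗ[ℂ] E)
    (hBA : B ≤ A) (h2 : B ≤ B.comap φ) (h : ∀ a ∈ A, φ a - a ∈ B)
    [FiniteDimensional ℂ (A.map B.mkQ)] :
    qtr A B φ = (qdim A B : ℂ) := by
  have h1 : A ≤ A.comap φ := by
    intro a ha
    have h3 : φ a = (φ a - a) + a := by abel
    show φ a ∈ A
    rw [h3]
    exact A.add_mem (hBA (h a ha)) ha
  unfold qtr qdim
  rw [dif_pos ⟨h1, h2⟩, ← LinearMap.trace_id ℂ (A.map B.mkQ)]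
  congr 1
  ext x
  obtain ⟨x, a, ha, rfl⟩ := x
  show B.mapQ B φ h2 (B.mkQ a) = B.mkQ a
  rw [Submodule.mkQ_apply, Submodule.mapQ_apply, Submodule.Quotient.eq]
  exact h a ha

end FB
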