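import Pool.Agent.H.MP_fb873c_an.L6

/-! # Part Z1: linear algebra (Z1c) -/

namespace FB

open scoped Topology ContDiff Manifold

universe u


section

/-- conjugate-linear in every slot -/
private def Z1c_CL {m q : ℕ} (β : Lam (Ec m) q) : Prop :=
  ∀ (v : Fin q → Ec m) (i : Fin q) (x : Ec m),
    β (Function.update v i (Complex.I • x)) = -Complex.I * β (Function.update v i x)

private theorem Z1c_oq {m q : ℕ} (γ : Lam (Ec m) q) (v : Fin q → Ec m) (i : Fin q) (x : Ec m) :
    oq q γ (Function.update v i (Complex.I • x)) =
      -Complex.I * oq q γ (Function.update v i x) := by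
  classical
  have hb1 : ∀ (t : Finset (Fin q)) (y : Ec m), i ∉ t →
      (fun j => if j ∈ t then Complex.I • Function.update v i y j else Function.update v i y j) =
        Function.update (fun j => if j ∈ t then Complex.I • v j else v j) i y := by
    intro t y ht
    funext j
    by_cases hj : j = i
    · subst hj
      simp [ht]
    · simp [hj]
  have hb2 : ∀ (t : Finset (Fin q)) (y : Ec m), i ∉ t →
      (fun j => if j ∈ insert i t then Complex.I • Function.update v i y j
        else Function.update v i y j) =
        Function.update (fun j => if j ∈ t then Complex.I • v j else v j) i (Complex.I • y) := by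
    intro t y ht
    funext j
    by_cases hj : j = i
    · subst hj
      simp
    · simp [hj]
  have hsplit : ∀ y : Ec m, oq q γ (Function.update v i y) =
      ∑ t ∈ (Finset.univ.erase i).powerset, (Complex.I ^ t.card *
        γ (Function.update (fun j => if j ∈ t then Complex.I • v j else v j) i y) +
        Complex.I ^ (t.card + 1) *
        γ (Function.update (fun j => if j ∈ t then Complex.I • v j else v j) i
          (Complex.I • y))) := by
    intro y
    unfold oq
    have h1 : (Finset.univ : Finset (Finset (Fin q))) =
        (insert i (Finset.univ.erase i)).powerset := by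
      rw [Finset.insert_erase (Finset.mem_univ i), Finset.powerset_univ]
    rw [h1, Finset.sum_powerset_insert (Finset.notMem_erase i _), ← Finset.sum_add_distrib]
    refine Finset.sum_congr rfl fun t ht => ?_
    have hit : i ∉ t := fun h => Finset.notMem_erase i _ (Finset.mem_powerset.1 ht h)
    rw [hb1 t y hit, hb2 t y hit, Finset.card_insert_of_notMem hit]
  rw [hsplit, hsplit, Finset.mul_sum]
  refine Finset.sum_congr rfl fun t _ => ?_
  have h2 : Complex.I • Complex.I • x = (-1 : ℝ) • x := by
    rw [smul_smul, Complex.I_mul_I, neg_smul, neg_smul, one_smul, one_smul]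
  have h3 : γ (Function.update (fun j => if j ∈ t then Complex.I • v j else v j) i
      (Complex.I • Complex.I • x)) =
      - γ (Function.update (fun j => if j ∈ t then Complex.I • v j else v j) i x) := by
    rw [h2, γ.map_update_smul, neg_smul, one_smul]
  rw [h3, pow_succ]
  linear_combination (Complex.I ^ t.card * γ (Function.update
    (fun j => if j ∈ t then Complex.I • v j else v j) i (Complex.I • x))) * Complex.I_mul_I

private theorem Z1c_smul {m q : ℕ} {β : Lam (Ec m) q} (hβ : Z1c_CL β) (v : Fin q → Ec m)
    (i : Fin q) (c : ℂ) (x : Ec m) : β (Function.update v i (c • x)) =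
      (starRingEnd ℂ) c * β (Function.update v i x) := by
  have h1 : c • x = (c.re : ℝ) • x + (c.im : ℝ) • (Complex.I • x) := by
    have h2 : c = (c.re : ℂ) + (c.im : ℂ) * Complex.I := (Complex.re_add_im c).symm
    conv_lhs => rw [h2]
    rw [add_smul, mul_smul]
    rfl
  rw [h1, β.map_update_add, β.map_update_smul, β.map_update_smul, hβ]
  have h3 : (starRingEnd ℂ) c = (c.re : ℂ) - (c.im : ℂ) * Complex.I := by
    apply Complex.ext <;> simp
  rw [h3, Complex.real_smul, Complex.real_smul]
  ring

private theorem Z1c_univ {m q : ℕ} {β : Lam (Ec m) q} (hβ : Z1c_CL β) (c : Fin q → ℂ)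
    (w : Fin q → Ec m) :
    β (fun i => c i • w i) = (∏ i, (starRingEnd ℂ) (c i)) * β w := by
  classical
  have H : ∀ s : Finset (Fin q), β (s.piecewise (fun i => c i • w i) w) =
      (∏ i ∈ s, (starRingEnd ℂ) (c i)) * β w := by
    intro s
    induction s using Finset.induction_on with
    | empty => simp
    | insert a s ha ih =>
      rw [Finset.piecewise_insert, Z1c_smul hβ, Finset.prod_insert ha]
      have h1 : Function.update (s.piecewise (fun i => c i • w i) w) a (w a) =
          s.piecewise (fun i => c i • w i) w := by
        rw [Function.update_eq_self_iff]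
        exact (Finset.piecewise_eq_of_notMem _ _ _ ha).symm
      rw [h1, ih]
      ring
  have h2 := H Finset.univ
  rw [Finset.piecewise_univ] at h2
  exact h2

private theorem Z1c_basis {m : ℕ} (v : Ec m) :
    v = ∑ j, v j • (EuclideanSpace.single j (1 : ℂ) : Ec m) := by
  have h := (EuclideanSpace.basisFun (Fin m) ℂ).sum_repr v
  conv_lhs => rw [← h]
  refine Finset.sum_congr rfl fun j _ => ?_
  rw [EuclideanSpace.basisFun_apply, EuclideanSpace.basisFun_repr]

/-- A form which is conjugate-linear in every slot vanishes in degrees `> m`. -/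
private theorem Z1c_zero {m q : ℕ} (hq : m < q) {β : Lam (Ec m) q} (hβ : Z1c_CL β) : β = 0 := by
  ext v
  have h1 : v = fun i => ∑ j, v i j • (EuclideanSpace.single j (1 : ℂ) : Ec m) := by
    funext i
    exact Z1c_basis (v i)
  rw [h1, β.map_sum]
  refine Finset.sum_eq_zero fun f _ => ?_
  rw [Z1c_univ hβ (fun i => v i (f i)) (fun i => (EuclideanSpace.single (f i) (1 : ℂ) : Ec m))]
  have h2 : ¬ Function.Injective f := by
    intro h
    have h3 := Fintype.card_le_of_injective f h
    rw [Fintype.card_fin, Fintype.card_fin] at h3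
    omega
  unfold Function.Injective at h2
  push Not at h2
  obtain ⟨i, j, hij, hne⟩ := h2
  have h4 : β (fun i => (EuclideanSpace.single (f i) (1 : ℂ) : Ec m)) = 0 := by
    refine β.map_eq_zero_of_eq _ ?_ hne
    show (EuclideanSpace.single (f i) (1 : ℂ) : Ec m) = EuclideanSpace.single (f j) (1 : ℂ)
    rw [hij]
  rw [h4, mul_zero]

/-- JOB Z1c.  `(0,q)`-forms vanish for `q > m`. -/
theorem pi_dolb_zero {m : ℕ} (T : Ty (Ec m))
    (hT : ∀ (q : ℕ) (α : Lam (Ec m) q) (v : Fin q → Ec m), T.pi q α v = ((2 : ℂ) ^ q)⁻¹ * oq q α v)
    {q : ℕ} (hq : m < q) (α : Lam (Ec m) q) : T.pi q α = 0 := by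
  refine Z1c_zero hq fun v i x => ?_
  rw [hT, hT, Z1c_oq]
  ring

end

end FB
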