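import Pool.Agent.H.MP_fb873c_an.L6

/-! # Part Z1: linear algebra (Z1a) -/

namespace FB

open scoped Topology ContDiff Manifold

universe u


section

/-- auxiliary: the general statement for a complex vector space of finite dimension. -/
theorem Z1a_aux {E : Type*} [AddCommGroup E] [Module ℂ E] [Module ℝ E] [IsScalarTower ℝ ℂ E]
    [Module.Finite ℂ E] (L : E →ₗ[ℂ] E) [Module.Finite ℝ E] :
    L.charpoly * L.charpoly.map (starRingEnd ℂ)
      = (LinearMap.charpoly (L.restrictScalars ℝ)).map (algebraMap ℝ ℂ) := by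
  apply Polynomial.eq_of_infinite_eval_eq
  refine Set.Infinite.mono (s := Set.range (algebraMap ℝ ℂ)) ?_
    (Set.infinite_range_of_injective (algebraMap ℝ ℂ).injective)
  rintro _ ⟨t, rfl⟩
  show Polynomial.eval _ _ = Polynomial.eval _ _
  rw [Polynomial.eval_mul, Polynomial.eval_map, Polynomial.eval_map, Polynomial.eval₂_at_apply,
    LinearMap.eval_charpoly, LinearMap.eval_charpoly]
  have h1 : Polynomial.eval₂ (starRingEnd ℂ) (algebraMap ℝ ℂ t) L.charpoly =
      (starRingEnd ℂ) (L.charpoly.eval (algebraMap ℝ ℂ t)) := by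
    have h2 : algebraMap ℝ ℂ t = (starRingEnd ℂ) (algebraMap ℝ ℂ t) := (Complex.conj_ofReal t).symm
    conv_lhs => rw [h2]
    rw [Polynomial.eval₂_at_apply]
  rw [h1, LinearMap.eval_charpoly, Complex.mul_conj]
  have h3 : algebraMap ℝ (Module.End ℝ E) t - L.restrictScalars ℝ =
      (algebraMap ℂ (Module.End ℂ E) (algebraMap ℝ ℂ t) - L).restrictScalars ℝ := by
    ext x
    have h4 : (algebraMap ℝ (Module.End ℝ E) t - L.restrictScalars ℝ) x = t • x - L x := rfl
    have h5 : ((algebraMap ℂ (Module.End ℂ E) (algebraMap ℝ ℂ t) - L).restrictScalars ℝ) x =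
        (algebraMap ℝ ℂ t) • x - L x := rfl
    rw [h4, h5, algebraMap_smul]
  rw [h3, LinearMap.det_restrictScalars, Algebra.norm_complex_apply]
  rfl

/-- JOB Z1a.  `charpoly_ℂ L · conj(charpoly_ℂ L) = charpoly_ℝ L_ℝ`: both sides are polynomials, and at
real `t` they are `|det_ℂ (t - L)|² = det_ℝ (t - L_ℝ)` (`LinearMap.det_restrictScalars`). -/
theorem charpoly_restrictScalars {m : ℕ} (L : Ec m →ₗ[ℂ] Ec m) :
    L.charpoly * L.charpoly.map (starRingEnd ℂ)
      = (LinearMap.charpoly (L.restrictScalars ℝ)).map (algebraMap ℝ ℂ) :=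
  Z1a_aux L

end

end FB
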