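import Pool.Agent.H.MP_fb873c_an.Z2o
import Pool.Agent.H.MP_fb873c_an.Z2a
import Pool.Agent.H.MP_fb873c_an.Z2b
import Pool.Agent.H.MP_fb873c_an.Z2c
import Pool.Agent.H.MP_fb873c_an.Z2d
import Pool.Agent.H.MP_fb873c_an.Z2e
import Pool.Agent.H.MP_fb873c_an.Z2f
import Pool.Agent.H.MP_fb873c_an.Z2g
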