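import Pool.Agent.H.MP_fb873c_an.G2z
import Pool.Agent.H.MP_fb873c_an.Z1c

/-! # Part Z3: functoriality and comparison of the cohomology groups

Performance: see the remark in G2z.lean. (Z3f) -/

namespace FB

open scoped Topology ContDiff Manifold

universe u

section aux

variable {A : ℕ → Type*} [∀ q, AddCommGroup (A q)] [∀ q, Module ℂ (A q)]

private theorem HC_finrank_aux (d : ∀ q, A q →ₗ[ℂ] A (q + 1)) (q : ℕ) (h : Subsingleton (A q)) :
    Module.finrank ℂ (HC d q) = 0 := by
  have h1 : Subsingleton (LinearMap.ker (d q)) := ⟨fun a b => Subtype.ext (Subsingleton.elim _ _)⟩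
  have h2 : Subsingleton (HC d q) := (HC.mk_surjective d q).subsingleton
  exact Module.finrank_zero_of_subsingleton

end aux

section

variable {m : ℕ} {X : Type u} [TopologicalSpace X] [ChartedSpace (Ec m) X]
  [IsManifold 𝓘(ℝ, Ec m) ∞ X]

/-- JOB Z3f.  `H^{0,q} = 0` for `q > m` (`pi_dolb_zero`: every element of `SFm T X q` is zero). -/
theorem finrank_dolb_zero (T : Ty (Ec m))
    (hT : ∀ (q : ℕ) (α : Lam (Ec m) q) (v : Fin q → Ec m), T.pi q α v = ((2 : ℂ) ^ q)⁻¹ * oq q α v)
    (hX : TGood T X) (q : ℕ) (hq : m < q) : Module.finrank ℂ (HT T hX q) = 0 := by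
  have h1 : Subsingleton (SFm T X q) := ⟨fun a b => by
    apply Subtype.ext
    funext p
    have ha := a.2.2 p
    have hb := b.2.2 p
    rw [pi_dolb_zero T hT hq] at ha hb
    rw [← ha, ← hb]⟩
  have h2 := HC_finrank_aux (A := fun q => SFm T X q) (Dm T hX) q h1
  exact h2

end

end FB
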