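import Pool.Agent.H.MP_fb873c_an.Z3a
import Pool.Agent.H.MP_fb873c_an.Z3b
import Pool.Agent.H.MP_fb873c_an.Z3c
import Pool.Agent.H.MP_fb873c_an.Z3d
import Pool.Agent.H.MP_fb873c_an.Z3e1
import Pool.Agent.H.MP_fb873c_an.Z3e
import Pool.Agent.H.MP_fb873c_an.Z3f
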