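import Pool.Agent.H.MP_fb873c_an.G2z

/-! # Part Z3: functoriality and comparison of the cohomology groups

Performance: see the remark in G2z.lean. (Z3a) -/

namespace FB

open scoped Topology ContDiff Manifold

universe u


section

variable {A : ℕ → Type*} [∀ q, AddCommGroup (A q)] [∀ q, Module ℂ (A q)]

theorem Z3a_comp (d : ∀ q, A q →ₗ[ℂ] A (q + 1)) (φ ψ χ : ∀ q, A q →ₗ[ℂ] A q)
    (hφ : ∀ q a, d q (φ q a) = φ (q + 1) (d q a)) (hψ : ∀ q a, d q (ψ q a) = ψ (q + 1) (d q a))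
    (hχ : ∀ q a, d q (χ q a) = χ (q + 1) (d q a)) (h : ∀ q a, χ q a = φ q (ψ q a)) (q : ℕ)
    (a : HC d q) : HCmap d d χ hχ q a = HCmap d d φ hφ q (HCmap d d ψ hψ q a) := by
  obtain ⟨b, rfl⟩ := HC.mk_surjective d q a
  rw [HCmap_mk, HCmap_mk, HCmap_mk]
  congr 1
  exact Subtype.ext (h q b)

theorem Z3a_id (d : ∀ q, A q →ₗ[ℂ] A (q + 1)) (φ : ∀ q, A q →ₗ[ℂ] A q)
    (hφ : ∀ q a, d q (φ q a) = φ (q + 1) (d q a)) (h : ∀ q a, φ q a = a) (q : ℕ)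
    (a : HC d q) : HCmap d d φ hφ q a = a := by
  obtain ⟨b, rfl⟩ := HC.mk_surjective d q a
  rw [HCmap_mk]
  congr 1
  exact Subtype.ext (h q b)

end

section

variable {W : Type} [NormedAddCommGroup W] [InnerProductSpace ℝ W]
variable {X : Type u} [TopologicalSpace X] [ChartedSpace W X] [IsManifold 𝓘(ℝ, W) ∞ X]

theorem Z3a_Fm_comp (T : Ty W) {F G : X → X}
    (hF : ContMDiff 𝓘(ℝ, W) 𝓘(ℝ, W) ∞ F) (hFT : ∀ p, fd (W := W) (W' := W) F p ∈ T.good)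
    (hG : ContMDiff 𝓘(ℝ, W) 𝓘(ℝ, W) ∞ G) (hGT : ∀ p, fd (W := W) (W' := W) G p ∈ T.good)
    (hGF : ContMDiff 𝓘(ℝ, W) 𝓘(ℝ, W) ∞ (G ∘ F))
    (hGFT : ∀ p, fd (W := W) (W' := W) (G ∘ F) p ∈ T.good) (q : ℕ) (a : SFm T X q) :
    Fm T (G ∘ F) hGF hGFT q a = Fm T F hF hFT q (Fm T G hG hGT q a) := by
  apply Subtype.ext
  funext p
  exact pb_comp a.1 hF hG p

theorem Z3a_Fm_id (T : Ty W) {F : X → X} (hid : ∀ x, F x = x)
    (hF : ContMDiff 𝓘(ℝ, W) 𝓘(ℝ, W) ∞ F) (hFT : ∀ p, fd (W := W) (W' := W) F p ∈ T.good) (q : ℕ)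
    (a : SFm T X q) : Fm T F hF hFT q a = a := by
  obtain rfl : F = id := funext hid
  apply Subtype.ext
  funext p
  show (a.1 (id p)).compContinuousLinearMap (fd (W := W) (W' := W) (id : X → X) p) = a.1 p
  rw [fd_id]
  ext v
  rfl

end

section

variable {W : Type} [NormedAddCommGroup W] [InnerProductSpace ℝ W]
variable {X : Type u} [TopologicalSpace X] [ChartedSpace W X] [IsManifold 𝓘(ℝ, W) ∞ X]

/-- JOB Z3a.  Functoriality (`pb_comp`, `HCmap_mk`, `HC.mk_surjective`). -/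
theorem FT_comp (T : Ty W) (hX : TGood T X) {F G : X → X}
    (hF : ContMDiff 𝓘(ℝ, W) 𝓘(ℝ, W) ∞ F) (hFT : ∀ p, fd (W := W) (W' := W) F p ∈ T.good)
    (hG : ContMDiff 𝓘(ℝ, W) 𝓘(ℝ, W) ∞ G) (hGT : ∀ p, fd (W := W) (W' := W) G p ∈ T.good)
    (hGF : ContMDiff 𝓘(ℝ, W) 𝓘(ℝ, W) ∞ (G ∘ F))
    (hGFT : ∀ p, fd (W := W) (W' := W) (G ∘ F) p ∈ T.good) (q : ℕ) (a : HT T hX q) :
    FT T hX (G ∘ F) hGF hGFT q a = FT T hX F hF hFT q (FT T hX G hG hGT q a) := by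
  have h := Z3a_comp (A := fun q => SFm T X q) (Dm T hX) (Fm T F hF hFT) (Fm T G hG hGT)
    (Fm T (G ∘ F) hGF hGFT) (Dm_Fm T hX F hF hFT) (Dm_Fm T hX G hG hGT)
    (Dm_Fm T hX (G ∘ F) hGF hGFT) (Z3a_Fm_comp T hF hFT hG hGT hGF hGFT)
  exact h q a

/-- JOB Z3a.  (`fd_id`.) -/
theorem FT_id (T : Ty W) (hX : TGood T X) {F : X → X} (hid : ∀ x, F x = x)
    (hF : ContMDiff 𝓘(ℝ, W) 𝓘(ℝ, W) ∞ F) (hFT : ∀ p, fd (W := W) (W' := W) F p ∈ T.good) (q : ℕ)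
    (a : HT T hX q) : FT T hX F hF hFT q a = a := by
  have h := Z3a_id (A := fun q => SFm T X q) (Dm T hX) (Fm T F hF hFT) (Dm_Fm T hX F hF hFT)
    (Z3a_Fm_id T hid hF hFT)
  exact h q a

end

end FB
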