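import Pool.Agent.H.MP_fb873c_an.D3
import Pool.Agent.H.MP_fb873c_an.Z4

/-! # Part Z5: the theorem for bounded Hodge numbers -/

namespace FB

open scoped Topology ContDiff Manifold

universe u

section

variable {n : ℕ} {M : Type u} [TopologicalSpace M] [ChartedSpace (Er n) M]
  [IsManifold (𝓡 n) ∞ M] [CompactSpace M] [T2Space M]

/-- The open sets. -/
def UH (n : ℕ) (M : Type u) [TopologicalSpace M] [ChartedSpace (Er n) M] (B : ℕ) : Set (Dif n M) :=
  {g | ∃ n0 N, 0 < n0 ∧ B < N ∧ GoodB g n0 N B}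

theorem isOpen_UH (B : ℕ) : IsOpen[crTop n M 1] (UH n M B) := by
  have h : UH n M B = ⋃ (n0 : ℕ) (N : ℕ) (_ : 0 < n0) (_ : B < N), {g : Dif n M | GoodB g n0 N B} := by
    ext g
    simp only [UH, Set.mem_setOf_eq, Set.mem_iUnion, exists_prop]
  rw [h]
  letI := crTop n M 1
  exact isOpen_iUnion fun n0 => isOpen_iUnion fun N => isOpen_iUnion fun h0 => isOpen_iUnion fun hN =>
    goodB_open n0 N B h0 hN

theorem UH_hodge (B : ℕ) (f : Dif n M) (hf : f ∈ UH n M B) (m : ℕ) (X : Type u) [TopologicalSpace X]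
    [ChartedSpace (Ec m) X] [hX : IsManifold 𝓘(ℂ, Ec m) ω X] (h : Preserves f m X) :
    B < ∑ q ∈ Finset.range (m + 1), hodge0 m X q := by
  obtain ⟨n0, N, -, hN, hg⟩ := hf
  by_contra hc
  exact not_goodB f m X hX h n0 N B hN (not_lt.1 hc) hg

theorem mem_closure_UH (hn : 0 < n) (B : ℕ) (f : Dif n M)
    (hper : ∃ (x : M) (k : ℕ), 0 < k ∧ (f : M → M)^[k] x = x) : f ∈ closure[crTop n M ⊤] (UH n M B) := by
  letI := crTop n M ⊤
  rw [mem_closure_iff]
  intro O hO hf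
  obtain ⟨g, hg, n0, N, h0, hN, hG⟩ := exists_goodB hn f hper O hO hf B
  exact ⟨g, hg, n0, N, h0, hN, hG⟩

theorem exists_periodic (h : euler n M ≠ 0) (f : Dif n M) :
    ∃ (x : M) (k : ℕ), 0 < k ∧ (f : M → M)^[k] x = x := by
  by_contra hc
  push Not at hc
  exact h (euler_eq_zero f fun x k hk => hc x k hk)

theorem dense_UH (hn : 0 < n) (h : euler n M ≠ 0) (B : ℕ) : @Dense _ (crTop n M ⊤) (UH n M B) := fun f =>
  mem_closure_UH hn B f (exists_periodic h f)

end

end FB
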