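import Pool.Agent.H.MP_fb873c_an.D0
import Pool.Agent.H.MP_fb873c_an.R12
import Pool.Agent.H.MP_fb873c_an.Z5

/-! # Part Z7: the main theorem (all Hodge numbers simultaneously, Baire category) -/

namespace FB

open scoped Topology ContDiff Manifold

universe u

section

variable {n : ℕ} {M : Type u} [TopologicalSpace M] [ChartedSpace (Er n) M]
  [IsManifold (𝓡 n) ∞ M] [CompactSpace M] [T2Space M]

omit [IsManifold (𝓡 n) ∞ M] [CompactSpace M] [T2Space M] in
/-- Elements of `UH` have periodic points (otherwise the Toeplitz matrix is zero). -/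
theorem UH_periodic {B : ℕ} {g : Dif n M} (hg : g ∈ UH n M B) :
    ∃ (x : M) (k : ℕ), 0 < k ∧ (g : M → M)^[k] x = x := by
  obtain ⟨n0, N, h0, hN, -, hgd⟩ := hg
  by_contra hc
  push Not at hc
  have hne : ∀ k, 0 < k → ∀ x, (g : M → M)^[k] x ≠ x := fun k hk x => hc x k hk
  refine hgd (fun _ => 0) (fun _ _ => 0) (fun x hx => absurd hx (hne n0 h0 x))
    (fun k hk _ x hx => absurd hx (hne (n0 * k) (Nat.mul_pos h0 (by omega)) x))
    (fun k _ _ x hx => absurd hx (hne n0 h0 x)) ?_
  have hz : (Matrix.of (fun i j : Fin (B + 1) =>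
      ∑ᶠ x ∈ {x | (g : M → M)^[n0 * (N + i - j)] x = x}, ((fun _ _ => 0 : ℕ → M → ℂ) (N + i - j) x)⁻¹))
      = 0 := by
    ext i j
    have hs : {x | (g : M → M)^[n0 * (N + i - j)] x = x} = ∅ := by
      ext x
      have hj := j.2
      simp only [Set.mem_setOf_eq, Set.mem_empty_iff_false, iff_false]
      exact hne _ (Nat.mul_pos h0 (by omega)) x
    show (∑ᶠ x ∈ {x | (g : M → M)^[n0 * (N + i - j)] x = x}, ((0 : ℂ))⁻¹) = 0
    rw [hs]
    exact finsum_mem_empty
  rw [hz]
  exact Matrix.det_zero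

theorem isOpen_UH_top (B : ℕ) : IsOpen[crTop n M ⊤] (UH n M B) :=
  crTop_mono (n := n) (M := M) (r := 1) (s := ⊤) le_top _ (isOpen_UH B)

/-- Every diffeomorphism with a periodic point is a `C^∞`-limit of elements of `⋂ B, UH B`. -/
theorem mem_closure_iInter (hn : 0 < n) (f : Dif n M)
    (hper : ∃ (x : M) (k : ℕ), 0 < k ∧ (f : M → M)^[k] x = x) :
    f ∈ closure[crTop n M ⊤] (⋂ B, UH n M B) := by
  have hop := isOpen_UH_top (n := n) (M := M)
  have hcl := mem_closure_UH (n := n) (M := M) hn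
  have hb := baire_crTop (n := n) (M := M)
  revert hop hcl hb
  generalize crTop n M ⊤ = t
  letI := t
  intro hop hcl hb
  set P0 : Set (Dif n M) := interior {g | ∃ (x : M) (k : ℕ), 0 < k ∧ (g : M → M)^[k] x = x} with hP0
  have hUP : ∀ B, UH n M B ⊆ P0 := fun B => interior_maximal (fun g hg => UH_periodic hg) (hop B)
  have hd := hb (fun B => UH n M B ∪ (closure P0)ᶜ) (fun B => (hop B).union isClosed_closure.isOpen_compl)
    (fun B => by
      rw [dense_iff_inter_open]
      intro O hO hne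
      by_cases h1 : (O ∩ P0).Nonempty
      · obtain ⟨g, hgO, hgP⟩ := h1
        have h3 : g ∈ {g : Dif n M | ∃ (x : M) (k : ℕ), 0 < k ∧ (g : M → M)^[k] x = x} :=
          interior_subset hgP
        have h2 := hcl B g h3
        rw [mem_closure_iff] at h2
        obtain ⟨g', hg', hg'U⟩ := h2 O hO hgO
        exact ⟨g', hg', Or.inl hg'U⟩
      · obtain ⟨g, hg⟩ := hne
        refine ⟨g, hg, Or.inr fun h2 => ?_⟩
        rw [mem_closure_iff] at h2
        exact h1 (h2 O hO hg))
  rw [mem_closure_iff]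
  intro O hO hf
  have h0 := hcl 0 f hper
  rw [mem_closure_iff] at h0
  obtain ⟨g, hgO, hgU⟩ := h0 O hO hf
  rw [dense_iff_inter_open] at hd
  obtain ⟨g', ⟨hg'O, hg'P⟩, hg'⟩ := hd (O ∩ P0) (hO.inter isOpen_interior) ⟨g, hgO, hUP 0 hgU⟩
  refine ⟨g', hg'O, Set.mem_iInter.2 fun B => ?_⟩
  rcases Set.mem_iInter.1 hg' B with h | h
  · exact h
  · exact absurd (subset_closure hg'P) h

theorem dense_iInter (hn : 0 < n) (h : euler n M ≠ 0) : @Dense _ (crTop n M ⊤) (⋂ B, UH n M B) := fun f =>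
  mem_closure_iInter hn f (exists_periodic h f)

end

end FB
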